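import Pool.Agent.Lib.MP_17a322_nt.VJ.A2

/-!
Values of polynomials and determinants in seminormed algebras.
-/

namespace Pool.Agent.Lib.MP_17a322_nt.VJ

open MvPolynomial Height

/-- Evaluation. Proof: `aeval ξ F = ∑ m ∈ support, algebraMap (coeff m F) * ∏ ξ_t ^ m_t`
(`aeval_def`, `eval₂_eq`), each product is at most `∏ (max 1 (ν (ξ t)))^(d t)`, and the sum is bounded
with `SN.sum_le_sum` (archimedean case) or `SN.sum_le_max`. -/
theorem SN.aeval_le {L : Type*} [Field L] {v : AbsoluteValue L ℝ} {A : Type*} [CommRing A]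
    [Algebra L A] {ν : A → ℝ} (h : SN v ν) {σ : Type*} [Fintype σ] (F : MvPolynomial σ L)
    (d : σ → ℕ) (hd : ∀ t, F.degreeOf t ≤ d t) (ξ : σ → A) :
    ν (aeval ξ F) ≤ NV v F * ∏ t, (max 1 (ν (ξ t))) ^ (d t) := by
  have hP : 0 ≤ ∏ t, (max 1 (ν (ξ t))) ^ (d t) :=
    Finset.prod_nonneg fun t _ => pow_nonneg (zero_le_one.trans (le_max_left _ _)) _
  have hterm : ∀ m ∈ F.support,
      ν (algebraMap L A (coeff m F) * ∏ t, ξ t ^ m t) ≤
        v (coeff m F) * ∏ t, (max 1 (ν (ξ t))) ^ (d t) := by
    intro m hm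
    refine (h.mul _ _).trans ?_
    refine mul_le_mul (h.map _) ?_ (h.nonneg _) (v.nonneg _)
    refine (h.prod_le _ _).trans ?_
    refine Finset.prod_le_prod (fun t _ => h.nonneg _) fun t _ => ?_
    refine (h.pow_le _ _).trans ?_
    refine (pow_le_pow_left₀ (h.nonneg _) (le_max_right 1 _) _).trans ?_
    exact pow_le_pow_right₀ (le_max_left _ _) ((monomial_le_degreeOf t hm).trans (hd t))
  rw [aeval_def, eval₂_eq']
  by_cases hv : IsNonarchimedean v
  · refine SN.sum_le_max hv h _ _ (mul_nonneg ((v.nonneg _).trans (coeff_le_NV v F 0)) hP)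
      fun m hm => ?_
    exact (hterm m hm).trans (mul_le_mul_of_nonneg_right (coeff_le_NV v F m) hP)
  · refine (h.sum_le_sum _ _).trans ?_
    refine (Finset.sum_le_sum hterm).trans (le_of_eq ?_)
    rw [← Finset.sum_mul]
    congr 1
    unfold NV
    rw [if_neg hv]

/-- Evaluation of a polynomial over a subfield (or any algebra): `F` over `K`, size of the image over
`L`. -/
theorem SN.aeval_le' {K L : Type*} [Field K] [Field L] [Algebra K L] {v : AbsoluteValue L ℝ}
    {A : Type*} [CommRing A] [Algebra L A] [Algebra K A] [IsScalarTower K L A]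
    {ν : A → ℝ} (h : SN v ν) {σ : Type*} [Fintype σ] (F : MvPolynomial σ K)
    (d : σ → ℕ) (hd : ∀ t, F.degreeOf t ≤ d t) (ξ : σ → A) :
    ν (aeval ξ F) ≤ NV v (MvPolynomial.map (algebraMap K L) F) * ∏ t, (max 1 (ν (ξ t))) ^ (d t) := by
  rw [← aeval_map_algebraMap L ξ F]
  refine h.aeval_le _ d (fun t => ?_) ξ
  refine le_trans ?_ (hd t)
  rw [degreeOf_le_iff]
  intro m hm
  exact monomial_le_degreeOf t (support_map_subset _ _ hm)

/-- The Leibniz expansion of a determinant: product of the sums (nonarchimedean: maxima) of the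
columns. Proof: `Matrix.det_apply`, `SN.sum_le_sum` and `Finset.prod_univ_sum`: the sum over the
permutations of `∏ c, ν (M (π c) c)` is at most the sum over all functions, which is
`∏ c, ∑ r, ν (M r c)`. Nonarchimedean: each product is at most the product of the maxima. Here the
bounds `b c` of the columns are given. -/
theorem SN.det_le {L : Type*} [Field L] {v : AbsoluteValue L ℝ} {A : Type*} [CommRing A]
    [Algebra L A] {ν : A → ℝ} (h : SN v ν) {n : Type*} [Fintype n] [DecidableEq n]
    (M : Matrix n n A) (b : n → ℝ) (hb : ∀ c, 0 ≤ b c)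
    (h1 : IsNonarchimedean v → ∀ r c, ν (M r c) ≤ b c)
    (h2 : ¬ IsNonarchimedean v → ∀ c, ∑ r, ν (M r c) ≤ b c) :
    ν M.det ≤ ∏ c, b c := by
  classical
  have hsgn : ∀ π : Equiv.Perm n, ν (Equiv.Perm.sign π • ∏ c, M (π c) c) ≤
      ∏ c, ν (M (π c) c) := by
    intro π
    refine le_trans (le_of_eq ?_) (h.prod_le Finset.univ fun c => M (π c) c)
    rcases Int.units_eq_one_or (Equiv.Perm.sign π) with h0 | h0
    · rw [h0, one_smul]
    · rw [h0, Units.neg_smul, one_smul, h.neg]
  rw [Matrix.det_apply]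
  by_cases hv : IsNonarchimedean v
  · refine SN.sum_le_max hv h _ _ (Finset.prod_nonneg fun c _ => hb c) fun π _ => ?_
    exact (hsgn π).trans (Finset.prod_le_prod (fun c _ => h.nonneg _) fun c _ => h1 hv _ c)
  · refine (h.sum_le_sum _ _).trans ?_
    refine (Finset.sum_le_sum fun π _ => hsgn π).trans ?_
    have h3 : ∑ π : Equiv.Perm n, ∏ c, ν (M (π c) c) ≤ ∑ f : n → n, ∏ c, ν (M (f c) c) := by
      have h4 : ∑ π : Equiv.Perm n, ∏ c, ν (M (π c) c) =
          ∑ f ∈ Finset.univ.map ⟨fun π : Equiv.Perm n => (π : n → n), Equiv.coe_fn_injective⟩,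
            ∏ c, ν (M (f c) c) := by
        rw [Finset.sum_map]
        rfl
      rw [h4]
      exact Finset.sum_le_sum_of_subset_of_nonneg (Finset.subset_univ _)
        fun f _ _ => Finset.prod_nonneg fun c _ => h.nonneg _
    refine h3.trans ?_
    have h5 : ∑ f : n → n, ∏ c, ν (M (f c) c) = ∏ c, ∑ r, ν (M r c) := by
      rw [Finset.prod_univ_sum, Fintype.piFinset_univ]
    rw [h5]
    exact Finset.prod_le_prod (fun c _ => Finset.sum_nonneg fun r _ => h.nonneg _)
      fun c _ => h2 hv c

theorem A3_NP_nonneg {L : Type*} [Field L] {v : AbsoluteValue L ℝ} {A : Type*} [CommRing A]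
    [Algebra L A] {ν : A → ℝ} (h : SN v ν) (p : Polynomial A) : 0 ≤ NP v ν p := by
  unfold NP
  split_ifs
  · exact Real.iSup_nonneg fun m => h.nonneg _
  · exact Finset.sum_nonneg fun m _ => h.nonneg _

theorem A3_coeff_le_sum {L : Type*} [Field L] {v : AbsoluteValue L ℝ} {A : Type*} [CommRing A]
    [Algebra L A] {ν : A → ℝ} (h : SN v ν) (p : Polynomial A) (k : ℕ) :
    ν (p.coeff k) ≤ ∑ m ∈ p.support, ν (p.coeff m) := by
  by_cases hk : k ∈ p.support
  · exact Finset.single_le_sum (f := fun m => ν (p.coeff m)) (fun m _ => h.nonneg _) hk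
  · rw [Polynomial.notMem_support_iff.mp hk, h.zero]
    exact Finset.sum_nonneg fun m _ => h.nonneg _

theorem A3_coeff_le_NP {L : Type*} [Field L] {v : AbsoluteValue L ℝ} {A : Type*} [CommRing A]
    [Algebra L A] {ν : A → ℝ} (h : SN v ν) (p : Polynomial A) (k : ℕ) :
    ν (p.coeff k) ≤ NP v ν p := by
  unfold NP
  split_ifs
  · refine le_ciSup (f := fun m => ν (p.coeff m))
      ⟨∑ m ∈ p.support, ν (p.coeff m), ?_⟩ k
    rintro _ ⟨m, rfl⟩
    exact A3_coeff_le_sum h p m
  · exact A3_coeff_le_sum h p k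

theorem A3_sum_le (a : ℕ → ℝ) (ha : ∀ k, 0 ≤ a k) (s : Finset ℕ) (hs : ∀ k, k ∉ s → a k = 0)
    (N j n : ℕ) :
    ∑ i : Fin N, (if (i : ℕ) ∈ Set.Icc j (j + n) then a (i - j) else 0) ≤ ∑ k ∈ s, a k := by
  classical
  rw [← Finset.sum_filter]
  have h1 : ∑ i ∈ Finset.univ.filter (fun i : Fin N => (i : ℕ) ∈ Set.Icc j (j + n)),
      a ((i : ℕ) - j) =
      ∑ k ∈ (Finset.univ.filter fun i : Fin N => (i : ℕ) ∈ Set.Icc j (j + n)).image
        (fun i : Fin N => (i : ℕ) - j), a k := by
    rw [Finset.sum_image]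
    intro x hx y hy hxy
    simp only [Finset.coe_filter, Finset.mem_univ, true_and, Set.mem_ofPred_eq,
      Set.mem_Icc] at hx hy
    have h2 : (x : ℕ) - j = (y : ℕ) - j := hxy
    exact Fin.ext (by omega)
  rw [h1]
  have h3 : ∑ k ∈ s, a k = ∑ k ∈ s ∪
      (Finset.univ.filter fun i : Fin N => (i : ℕ) ∈ Set.Icc j (j + n)).image
        (fun i : Fin N => (i : ℕ) - j), a k :=
    Finset.sum_subset Finset.subset_union_left fun k _ hk => hs k hk
  rw [h3]
  exact Finset.sum_le_sum_of_subset_of_nonneg Finset.subset_union_right fun k _ _ => ha k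

/-- The resultant: `ν (Res f g) ≤ NP(f)^n * NP(g)^m`. Proof: `SN.det_le` for the Sylvester matrix; the
columns are shifts of the coefficient vectors of `g` (`m` columns) and of `f` (`n` columns);
`Fin.prod_univ_add`. -/
theorem SN.resultant_le {L : Type*} [Field L] {v : AbsoluteValue L ℝ} {A : Type*} [CommRing A]
    [Algebra L A] {ν : A → ℝ} (h : SN v ν) (f g : Polynomial A) (m n : ℕ) :
    ν (Polynomial.resultant f g m n) ≤ NP v ν f ^ n * NP v ν g ^ m := by
  have hb0 : ∀ c : Fin (m + n), 0 ≤
      (Fin.addCases (fun _ => NP v ν g) (fun _ => NP v ν f) c : ℝ) := by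
    intro c
    refine Fin.addCases (fun i => ?_) (fun i => ?_) c
    · rw [Fin.addCases_left]
      exact A3_NP_nonneg h g
    · rw [Fin.addCases_right]
      exact A3_NP_nonneg h f
  have h1 := h.det_le (Polynomial.sylvester f g m n)
    (fun c => (Fin.addCases (fun _ => NP v ν g) (fun _ => NP v ν f) c : ℝ)) hb0 (by
      intro hv r c
      refine Fin.addCases (fun i => ?_) (fun i => ?_) c
      · simp only [Polynomial.sylvester, Matrix.of_apply, Fin.addCases_left]
        split_ifs
        · exact A3_coeff_le_NP h g _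
        · rw [h.zero]
          exact A3_NP_nonneg h g
      · simp only [Polynomial.sylvester, Matrix.of_apply, Fin.addCases_right]
        split_ifs
        · exact A3_coeff_le_NP h f _
        · rw [h.zero]
          exact A3_NP_nonneg h f) (by
      intro hv c
      refine Fin.addCases (fun i => ?_) (fun i => ?_) c
      · simp only [Polynomial.sylvester, Matrix.of_apply, Fin.addCases_left]
        have h2 := A3_sum_le (fun k => ν (g.coeff k)) (fun k => h.nonneg _) g.support
          (fun k hk => by rw [Polynomial.notMem_support_iff.mp hk, h.zero]) (m + n) i n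
        refine le_trans (le_of_eq ?_) (h2.trans (le_of_eq ?_))
        · refine Finset.sum_congr rfl fun r _ => ?_
          split_ifs
          · rfl
          · exact h.zero
        · unfold NP
          rw [if_neg hv]
      · simp only [Polynomial.sylvester, Matrix.of_apply, Fin.addCases_right]
        have h2 := A3_sum_le (fun k => ν (f.coeff k)) (fun k => h.nonneg _) f.support
          (fun k hk => by rw [Polynomial.notMem_support_iff.mp hk, h.zero]) (m + n) i m
        refine le_trans (le_of_eq ?_) (h2.trans (le_of_eq ?_))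
        · refine Finset.sum_congr rfl fun r _ => ?_
          split_ifs
          · rfl
          · exact h.zero
        · unfold NP
          rw [if_neg hv])
  rw [Fin.prod_univ_add] at h1
  simp only [Fin.addCases_left, Fin.addCases_right, Finset.prod_const, Finset.card_univ,
    Fintype.card_fin] at h1
  rw [mul_comm]
  exact h1

end Pool.Agent.Lib.MP_17a322_nt.VJ
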