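import Pool.Agent.Lib.MP_17a322_nt.VJ.E5
import Pool.Agent.Lib.MP_17a322_nt.RV.U3

/-!
Heights of points, uniform in the extension `L` of `K`.
-/

universe u

namespace Pool.Agent.Lib.MP_17a322_nt.VJ

open MvPolynomial Height
open Pool.Agent.Lib.MP_17a322_nt.RO
open Pool.Agent.Lib.MP_17a322_nt.RV

theorem E6_vn_eq {L : Type*} [Field L] (v : AbsoluteValue L ℝ) (R : Fin 2 → L) :
    vn v R = ⨆ i, v (R i) := by
  unfold vn
  exact eq_of_forall_ge_iff <| by simp [ciSup_le_iff, Fin.forall_fin_two]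

theorem gs_log_vn {L : Type*} [Field L] [AdmissibleAbsValues L] {R : Fin 2 → L} (hR : R ≠ 0) :
    gs (fun v : AbsoluteValue L ℝ => Real.log (vn v R)) = logHeight R := by
  rw [← gs_log_iSup hR]
  congr 1
  funext v
  rw [E6_vn_eq]

theorem FS_log_vn {L : Type*} [Field L] [AdmissibleAbsValues L] {R : Fin 2 → L} (hR : R ≠ 0) :
    FS (fun v : AbsoluteValue L ℝ => Real.log (vn v R)) := by
  have h : (fun v : AbsoluteValue L ℝ => Real.log (vn v R)) =
      fun v : AbsoluteValue L ℝ => Real.log (⨆ i, v (R i)) := by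
    funext v
    rw [E6_vn_eq]
  rw [h]
  exact FS_log_iSup hR

theorem logHeight_xRep {L : Type*} [Field L] [AdmissibleAbsValues L] {V : WeierstrassCurve L}
    {P : V.toAffine.Point} (hP : P ≠ 0) : logHeight P.xRep = logHeight₁ (P.xRep 0) := by
  rcases P with _ | ⟨x, y, h⟩
  · exact absurd rfl hP
  · rw [WeierstrassCurve.Affine.Point.xRep_some, logHeight₁_eq_logHeight]
    rfl

theorem logHeight_xRep_nonneg {L : Type*} [Field L] [AdmissibleAbsValues L]
    {V : WeierstrassCurve L} (P : V.toAffine.Point) : 0 ≤ logHeight P.xRep :=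
  logHeight_nonneg _

theorem E6_zero {L : Type*} [Field L] [AdmissibleAbsValues L] {V : WeierstrassCurve L} :
    logHeight (0 : V.toAffine.Point).xRep = 0 := by
  rw [WeierstrassCurve.Affine.Point.xRep_zero, logHeight_swap, ← logHeight₁_eq_logHeight,
    logHeight₁_zero]

theorem E6_dup {L : Type*} [Field L] [AdmissibleAbsValues L] [DecidableEq L]
    {V : WeierstrassCurve L} {B : ℝ}
    (h : ∀ P Q : V.toAffine.Point, |logHeight (P + Q).xRep + logHeight (P - Q).xRep -
          2 * logHeight P.xRep - 2 * logHeight Q.xRep| ≤ B) (P : V.toAffine.Point) :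
    |logHeight (2 • P).xRep - 4 * logHeight P.xRep| ≤ B := by
  have h1 := h P P
  rw [sub_self, E6_zero, ← two_nsmul] at h1
  refine le_of_eq_of_le (congrArg _ ?_) h1
  ring

theorem E6_iter {L : Type*} [Field L] [AdmissibleAbsValues L] [DecidableEq L]
    {V : WeierstrassCurve L} {B : ℝ}
    (h : ∀ P Q : V.toAffine.Point, |logHeight (P + Q).xRep + logHeight (P - Q).xRep -
          2 * logHeight P.xRep - 2 * logHeight Q.xRep| ≤ B) (P : V.toAffine.Point) (j : ℕ) :
    |logHeight (2 ^ j • P).xRep - 4 ^ j * logHeight P.xRep| ≤ (4 ^ j - 1) / 3 * B := by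
  induction j with
  | zero => simp
  | succ j ih =>
    have h1 := E6_dup h (2 ^ j • P)
    rw [← mul_nsmul, ← pow_succ] at h1
    rw [abs_le] at *
    rw [pow_succ (4 : ℝ) j]
    constructor <;> nlinarith [h1.1, h1.2, ih.1, ih.2]

/-- All height estimates for one curve, uniform in `L`, with one constant. Proof: from
`parallelogram_unif` (RV/U3). (1) is the law. (2) `h(P + Q) ≤ 2 h(P) + 2 h(Q) + C d` since
`h(P - Q) ≥ 0`. (3) the law for `P = Q`, iterated: `|h(2P) - 4 h(P)| ≤ C₀ d` gives by induction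
`|h(2^j P) - 4^j h(P)| ≤ C₀ d (1 + 4 + ... + 4^(j-1)) ≤ 4^j C₀ d`. (4) points of finite order: the heights
of the multiples of `P` are bounded; if `m` is their maximum, at `Q = k P`, then `4 m - C₀ d ≤ h(2Q) ≤ m`. -/
theorem height_unif {K : Type u} [Field K] [NumberField K] (W : WeierstrassCurve K)
    [W.IsElliptic] :
    ∃ C : ℝ, 0 ≤ C ∧ ∀ (L : Type u) [Field L] [NumberField L] [DecidableEq L] [Algebra K L]
      (V : WeierstrassCurve L), W.map (algebraMap K L) = V →
        (∀ P Q : V.toAffine.Point, |logHeight (P + Q).xRep + logHeight (P - Q).xRep -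
          2 * logHeight P.xRep - 2 * logHeight Q.xRep| ≤ C * Module.finrank ℚ L) ∧
        (∀ P Q : V.toAffine.Point, logHeight (P + Q).xRep ≤
          2 * logHeight P.xRep + 2 * logHeight Q.xRep + C * Module.finrank ℚ L) ∧
        (∀ (P : V.toAffine.Point) (j : ℕ), |logHeight (2 ^ j • P).xRep -
          4 ^ j * logHeight P.xRep| ≤ 4 ^ j * (C * Module.finrank ℚ L)) ∧
        (∀ P : V.toAffine.Point, IsOfFinAddOrder P →
          logHeight P.xRep ≤ C * Module.finrank ℚ L) := by
  obtain ⟨C, hC, h⟩ := parallelogram_unif W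
  refine ⟨C, hC, fun L _ _ _ _ V hV => ?_⟩
  have h1 := h L V hV
  have hB : (0 : ℝ) ≤ C * Module.finrank ℚ L := mul_nonneg hC (Nat.cast_nonneg _)
  refine ⟨h1, fun P Q => ?_, fun P j => ?_, fun P hP => ?_⟩
  · have h2 := (abs_le.1 (h1 P Q)).2
    have h3 := logHeight_xRep_nonneg (P - Q)
    linarith
  · refine (E6_iter h1 P j).trans (mul_le_mul_of_nonneg_right ?_ hB)
    have h4 : (0 : ℝ) < 4 ^ j := by positivity
    linarith
  · have hn : 0 < addOrderOf P := hP.addOrderOf_pos
    obtain ⟨k, hk, hmax⟩ := Finset.exists_max_image (Finset.range (addOrderOf P))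
      (fun k => logHeight (k • P).xRep) ⟨0, Finset.mem_range.2 hn⟩
    have h2 : ∀ l : ℕ, logHeight (l • P).xRep ≤ logHeight (k • P).xRep := by
      intro l
      rw [← mod_addOrderOf_nsmul P l]
      exact hmax _ (Finset.mem_range.2 (Nat.mod_lt _ hn))
    have h3 := (abs_le.1 (E6_dup h1 (k • P))).1
    rw [← mul_nsmul] at h3
    have h4 := h2 (k * 2)
    have h5 := h2 1
    rw [one_nsmul] at h5
    have h6 := logHeight_xRep_nonneg (k • P)
    linarith

end Pool.Agent.Lib.MP_17a322_nt.VJ
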