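import Pool.Agent.Lib.MP_17a322_nt.VJ.E4
import Pool.Agent.Lib.MP_17a322_nt.RO.G1
import Pool.Agent.Lib.MP_17a322_nt.RV.U1

/-!
Base change of points and points over algebraically closed fields and finite extensions.
-/

universe u

namespace Pool.Agent.Lib.MP_17a322_nt.VJ

open MvPolynomial Height
open Pool.Agent.Lib.MP_17a322_nt.RO

/-- The base change for a curve equal to the base change of `W` to `K` itself. -/
theorem E7_exists_PB {K : Type*} [Field K] [DecidableEq K] {L : Type*} [Field L] [DecidableEq L]
    [Algebra K L] (W W₀ : WeierstrassCurve K) (V : WeierstrassCurve L)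
    (h0 : W.map (algebraMap K K) = W₀) (hV : W.map (algebraMap K L) = V) :
    ∃ f : W₀.toAffine.Point →+ V.toAffine.Point, PB W₀ V f := by
  subst h0
  subst hV
  refine ⟨WeierstrassCurve.Affine.Point.map (W' := W.toAffine) (Algebra.ofId K L), ?_⟩
  intro P i
  cases P with
  | zero =>
    have h : (WeierstrassCurve.Affine.Point.map (W' := W.toAffine) (Algebra.ofId K L)
        (WeierstrassCurve.Affine.Point.zero :
          (W.map (algebraMap K K)).toAffine.Point)).xRep = ![1, 0] := rfl
    refine (congrFun h i).trans ?_
    have h' : ((WeierstrassCurve.Affine.Point.zero :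
          (W.map (algebraMap K K)).toAffine.Point)).xRep = ![1, 0] := rfl
    rw [h']
    fin_cases i
    · exact (map_one _).symm
    · exact (map_zero _).symm
  | some x y h =>
    fin_cases i
    · rfl
    · exact (map_one _).symm

/-- Base change of points. Proof: `Affine.Point.map` for the algebra homomorphism
`Algebra.ofId K L : K →ₐ[K] L` (compare RO/G1 `G1_lift`, `G1_map_mem`, RV/U6), `WeierstrassCurve.map_id`
for the curve over `K`; the effect on `xRep` is by cases on the point. -/
theorem exists_PB {K : Type*} [Field K] [DecidableEq K] {L : Type*} [Field L] [DecidableEq L]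
    [Algebra K L] (W : WeierstrassCurve K) (V : WeierstrassCurve L)
    (hV : W.map (algebraMap K L) = V) :
    ∃ f : W.toAffine.Point →+ V.toAffine.Point, PB W V f :=
  E7_exists_PB W W V (map_self W) hV

section

variable {K : Type*} [Field K] [DecidableEq K] {L : Type*} [Field L] [DecidableEq L]
  [Algebra K L] {W : WeierstrassCurve K} {V : WeierstrassCurve L}
  {f : W.toAffine.Point →+ V.toAffine.Point}

theorem PB.xRep (hf : PB W V f) (P : W.toAffine.Point) :
    (f P).xRep = fun i => algebraMap K L (P.xRep i) :=
  funext fun i => hf P i

/-- `f P = 0` iff the second coordinate vanishes. -/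
theorem PB.eq_zero (hf : PB W V f) (P : W.toAffine.Point) : f P = 0 ↔ P = 0 := by
  constructor
  · intro h
    apply xRep_one_eq_zero
    have h1 := hf P 1
    rw [h, xRep_zero] at h1
    have h2 : algebraMap K L (P.xRep 1) = 0 := h1.symm
    exact (map_eq_zero_iff _ (algebraMap K L).injective).1 h2
  · rintro rfl
    exact map_zero f

theorem PB.injective (hf : PB W V f) : Function.Injective f :=
  (injective_iff_map_eq_zero f).2 fun P hP => (hf.eq_zero P).1 hP

end

/-- Heights over the extension. -/
theorem PB.logHeight {K L : Type u} [Field K] [NumberField K] [DecidableEq K] [Field L]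
    [NumberField L] [DecidableEq L] [Algebra K L] {W : WeierstrassCurve K}
    {V : WeierstrassCurve L} {f : W.toAffine.Point →+ V.toAffine.Point} (hf : PB W V f)
    (P : W.toAffine.Point) :
    Height.logHeight (f P).xRep = Module.finrank K L * Height.logHeight P.xRep := by
  rw [hf.xRep P]
  exact RV.logHeight_algebraMap P.xRep

/-- Points with given x-coordinates over a finite extension: for finitely many elements `x j` of
`K` there is a finite extension `L` and affine points with these x-coordinates, on finitely many
curves. Proof: as `exists_field` (RV/U6), with `exists_affine_point` over the algebraic closure and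
the field generated by the y-coordinates. -/
theorem exists_field_points {K : Type u} [Field K] [NumberField K] {s : ℕ}
    (W : Fin s → WeierstrassCurve K) [∀ j, (W j).IsElliptic] (x : Fin s → K) :
    ∃ (L : Type u) (_ : Field L) (_ : NumberField L) (_ : DecidableEq L) (_ : Algebra K L)
      (V : Fin s → WeierstrassCurve L) (P : ∀ j, (V j).toAffine.Point),
      (∀ j, (W j).map (algebraMap K L) = V j) ∧ (∀ j, P j ≠ 0) ∧
        ∀ j, (P j).xRep 0 = algebraMap K L (x j) := by
  classical
  let Ω := AlgebraicClosure K
  let _ : DecidableEq Ω := Classical.decEq _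
  have hA : ∀ j : Fin s, ∃ A : ((W j).map (algebraMap K Ω)).toAffine.Point,
      A ≠ 0 ∧ A.xRep = ![algebraMap K Ω (x j), 1] := fun j =>
    exists_affine_point ((W j).map (algebraMap K Ω)) (algebraMap K Ω (x j))
  choose A hA0 hA using hA
  let co : ∀ j, ((W j).map (algebraMap K Ω)).toAffine.Point → Set Ω := fun j R =>
    match R with
    | .zero => ∅
    | .some x y _ => {x, y}
  have hco : ∀ j R, (co j R).Finite := by
    intro j R
    cases R with
    | zero => exact Set.finite_empty
    | some x y h => exact Set.toFinite {x, y}
  let S : Set Ω := ⋃ j, co j (A j)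
  have hS : S.Finite := Set.finite_iUnion fun j => hco j _
  let L' : IntermediateField K Ω := IntermediateField.adjoin K S
  have : Finite S := hS
  have hfin : FiniteDimensional K L' :=
    IntermediateField.finiteDimensional_adjoin fun x _ =>
      (AlgebraicClosure.isAlgebraic K).isAlgebraic x |>.isIntegral
  have : NumberField L' := NumberField.of_module_finite K L'
  let v : L' →ₐ[K] Ω := L'.val
  have hlift : ∀ j, ∀ R : ((W j).map (algebraMap K Ω)).toAffine.Point, R ≠ 0 → co j R ⊆ S →
      ∃ R₀ : ((W j).map (algebraMap K L')).toAffine.Point,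
        R₀ ≠ 0 ∧ v (R₀.xRep 0) = R.xRep 0 := by
    intro j R hR0 hR
    cases R with
    | zero => exact absurd rfl hR0
    | some x y h =>
      have hx : x ∈ L' := IntermediateField.subset_adjoin K S (hR (Or.inl rfl))
      have hy : y ∈ L' := IntermediateField.subset_adjoin K S (hR (Or.inr rfl))
      have hns := ((W j).toAffine.baseChange_nonsingular v.injective
        (⟨x, hx⟩ : L') (⟨y, hy⟩ : L')).mp h
      refine ⟨WeierstrassCurve.Affine.Point.some _ _ hns, ?_, rfl⟩
      exact WeierstrassCurve.Affine.Point.some_ne_zero hns
  choose A' hA0' hA' using fun j => hlift j (A j) (hA0 j)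
    (fun z hz => Set.mem_iUnion.2 ⟨j, hz⟩)
  refine ⟨L', inferInstance, inferInstance, inferInstance, inferInstance,
    fun j => (W j).map (algebraMap K L'), A', fun j => rfl, hA0', ?_⟩
  intro j
  have h1 : v ((A' j).xRep 0) = v (algebraMap K L' (x j)) := by
    rw [hA' j, hA j]
    exact (v.commutes (x j)).symm
  exact v.injective h1

/-- Only finitely many points of a curve have a given x-coordinate. -/
theorem finite_xRep_eq {L : Type*} [Field L] (V : WeierstrassCurve L) (u : Fin 2 → L) :
    {P : V.toAffine.Point | P.xRep = u}.Finite := by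
  by_cases h : ∃ P : V.toAffine.Point, P.xRep = u
  · obtain ⟨P, rfl⟩ := h
    refine Set.Finite.subset (Set.toFinite {P, -P}) ?_
    intro Q hQ
    exact WeierstrassCurve.Affine.Point.xRep_eq_xRep_iff.1 hQ
  · refine Set.Finite.subset Set.finite_empty ?_
    intro Q hQ
    exact h ⟨Q, hQ⟩

end Pool.Agent.Lib.MP_17a322_nt.VJ
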