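import Pool.Agent.Lib.MP_17a322_nt.VJ.MW2a

/-!
Mordell-Weil, part 2: finiteness of the group of elements with even valuations.
-/

universe u

namespace Pool.Agent.Lib.MP_17a322_nt.VJ

open NumberField IsDedekindDomain WithZero

theorem MW2b_isSquare_exp (k : ℤ) : IsSquare (exp k : ℤᵐ⁰) ↔ Even k := by
  constructor
  · rintro ⟨r, hr⟩
    have hr0 : r ≠ 0 := by
      rintro rfl
      rw [mul_zero] at hr
      exact exp_ne_zero hr
    refine ⟨log r, ?_⟩
    rw [← exp_inj, exp_add, exp_log hr0]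
    exact hr
  · rintro ⟨m, rfl⟩
    exact ⟨exp m, exp_add m m⟩

theorem MW2b_isSquare_div {x y : ℤᵐ⁰} (hx : x ≠ 0) (hy : y ≠ 0) (h : IsSquare x ↔ IsSquare y) :
    IsSquare (x / y) := by
  rw [← exp_log hx, ← exp_log hy] at h ⊢
  rw [MW2b_isSquare_exp, MW2b_isSquare_exp] at h
  rw [← exp_sub, MW2b_isSquare_exp, Int.even_sub]
  exact h

theorem MW2b_count {L : Type*} [Field L] [NumberField L] {a : L} (ha : a ≠ 0)
    (v : HeightOneSpectrum (𝓞 L)) : v.valuation L a =
      exp (-(FractionalIdeal.count L v (FractionalIdeal.spanSingleton (nonZeroDivisors (𝓞 L)) a))) := by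
  classical
  obtain ⟨n, d, hd, rfl⟩ := IsFractionRing.div_surjective (A := 𝓞 L) a
  have hd0 : d ≠ 0 := nonZeroDivisors.ne_zero hd
  have hn0 : n ≠ 0 := by
    rintro rfl
    simp at ha
  have h1 : FractionalIdeal.spanSingleton (nonZeroDivisors (𝓞 L))
      (algebraMap (𝓞 L) L n / algebraMap (𝓞 L) L d) =
      FractionalIdeal.spanSingleton (nonZeroDivisors (𝓞 L)) ((algebraMap (𝓞 L) L) d)⁻¹ *
        ((Ideal.span {n} : Ideal (𝓞 L)) : FractionalIdeal (nonZeroDivisors (𝓞 L)) L) := by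
    rw [FractionalIdeal.coeIdeal_span_singleton, FractionalIdeal.spanSingleton_mul_spanSingleton,
      div_eq_mul_inv, mul_comm]
  have h2 : FractionalIdeal.spanSingleton (nonZeroDivisors (𝓞 L))
      (algebraMap (𝓞 L) L n / algebraMap (𝓞 L) L d) ≠ 0 := by
    rwa [Ne, FractionalIdeal.spanSingleton_eq_zero_iff]
  rw [FractionalIdeal.count_well_defined L v h2 h1, map_div₀,
    HeightOneSpectrum.valuation_of_algebraMap, HeightOneSpectrum.valuation_of_algebraMap,
    HeightOneSpectrum.intValuation_if_neg _ hn0, HeightOneSpectrum.intValuation_if_neg _ hd0,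
    ← exp_sub]
  congr 1
  ring

theorem MW2b_ideal {L : Type*} [Field L] [NumberField L] {a : L} (ha : a ≠ 0)
    (h : ∀ v : HeightOneSpectrum (𝓞 L), IsSquare (v.valuation L a)) :
    ∃ M : (FractionalIdeal (nonZeroDivisors (𝓞 L)) L)ˣ,
      (M : FractionalIdeal (nonZeroDivisors (𝓞 L)) L) ^ 2 =
        FractionalIdeal.spanSingleton (nonZeroDivisors (𝓞 L)) a := by
  classical
  have h2 : FractionalIdeal.spanSingleton (nonZeroDivisors (𝓞 L)) a ≠ 0 := by
    rwa [Ne, FractionalIdeal.spanSingleton_eq_zero_iff]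
  have hev : ∀ v : HeightOneSpectrum (𝓞 L), Even (FractionalIdeal.count L v
      (FractionalIdeal.spanSingleton (nonZeroDivisors (𝓞 L)) a)) := by
    intro v
    have h3 := h v
    rw [MW2b_count ha, MW2b_isSquare_exp, even_neg] at h3
    exact h3
  choose m hm using hev
  have hfin := FractionalIdeal.finite_factors (K := L)
    (FractionalIdeal.spanSingleton (nonZeroDivisors (𝓞 L)) a)
  have hfin2 : (Function.mulSupport fun v : HeightOneSpectrum (𝓞 L) =>
      (v.asIdeal : FractionalIdeal (nonZeroDivisors (𝓞 L)) L) ^ m v).Finite := by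
    refine Set.Finite.subset (Filter.eventually_cofinite.1 hfin) fun v hv => ?_
    intro h4
    apply hv
    have h5 : m v = 0 := by
      have h6 := hm v
      rw [h4] at h6
      omega
    show (v.asIdeal : FractionalIdeal (nonZeroDivisors (𝓞 L)) L) ^ m v = 1
    rw [h5, zpow_zero]
  have hM : (∏ᶠ v : HeightOneSpectrum (𝓞 L),
      (v.asIdeal : FractionalIdeal (nonZeroDivisors (𝓞 L)) L) ^ m v) ^ 2 =
        FractionalIdeal.spanSingleton (nonZeroDivisors (𝓞 L)) a := by
    rw [← FractionalIdeal.finprod_heightOneSpectrum_factorization' (K := L) h2, finprod_pow hfin2]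
    refine finprod_congr fun v => ?_
    rw [hm v, zpow_add₀ (FractionalIdeal.coeIdeal_ne_zero.2 v.ne_bot), sq]
  have hM0 : (∏ᶠ v : HeightOneSpectrum (𝓞 L),
      (v.asIdeal : FractionalIdeal (nonZeroDivisors (𝓞 L)) L) ^ m v) ≠ 0 := by
    intro h0
    rw [h0, zero_pow two_ne_zero] at hM
    exact h2 hM.symm
  exact ⟨Units.mk0 _ hM0, hM⟩

/-- finitely many classes modulo squares -/
def MW2b_Fin {L : Type*} [Field L] (X : Set L) : Prop :=
  ∃ R : Finset L, ∀ a ∈ X, ∃ r ∈ R, ∃ c : L, c ≠ 0 ∧ a = r * c ^ 2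

theorem MW2b_step {L F : Type*} [Field L] [Finite F] (X Y : Set L) (hX : ∀ a ∈ X, a ≠ 0)
    (f : L → F) (h : ∀ a ∈ X, ∀ a' ∈ X, f a = f a' → a / a' ∈ Y) (hY : MW2b_Fin Y) :
    MW2b_Fin X := by
  classical
  have := Fintype.ofFinite F
  obtain ⟨R, hR⟩ := hY
  let rep : F → L := fun t => if ht : ∃ a ∈ X, f a = t then Classical.choose ht else 1
  have hrep : ∀ a ∈ X, rep (f a) ∈ X ∧ f (rep (f a)) = f a := by
    intro a ha
    have ht : ∃ b ∈ X, f b = f a := ⟨a, ha, rfl⟩
    have h1 : rep (f a) = Classical.choose ht := dif_pos ht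
    rw [h1]
    exact Classical.choose_spec ht
  refine ⟨(Finset.univ ×ˢ R).image fun q : F × L => rep q.1 * q.2, fun a ha => ?_⟩
  obtain ⟨h1, h2⟩ := hrep a ha
  obtain ⟨r, hr, c, hc, hac⟩ := hR _ (h a ha _ h1 h2.symm)
  refine ⟨rep (f a) * r, Finset.mem_image.2 ⟨(f a, r), Finset.mem_product.2
    ⟨Finset.mem_univ _, hr⟩, rfl⟩, c, hc, ?_⟩
  rw [div_eq_iff (hX _ h1)] at hac
  exact hac.trans (by ring)

theorem MW2b_units (L : Type*) [Field L] [NumberField L] :
    MW2b_Fin {a : L | ∃ (u : (𝓞 L)ˣ) (c : L), c ≠ 0 ∧ a = algebraMap (𝓞 L) L u * c ^ 2} := by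
  classical
  let G := (𝓞 L)ˣ
  let H : Subgroup G := (powMonoidHom 2 : G →* G).range
  have hG : Group.FG G := Group.fg_iff_monoid_fg.2 inferInstance
  have hfin : Finite (G ⧸ H) := by
    refine CommGroup.finite_of_fg_isMulTorsion (G ⧸ H) fun x => ?_
    obtain ⟨u, rfl⟩ := QuotientGroup.mk_surjective x
    rw [isOfFinOrder_iff_pow_eq_one]
    refine ⟨2, two_pos, ?_⟩
    rw [← QuotientGroup.mk_pow, QuotientGroup.eq_one_iff]
    exact ⟨u, rfl⟩
  have := Fintype.ofFinite (G ⧸ H)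
  refine ⟨(Finset.univ : Finset (G ⧸ H)).image fun q => algebraMap (𝓞 L) L (Quotient.out q : G),
    ?_⟩
  rintro a ⟨u, c, hc, rfl⟩
  refine ⟨_, Finset.mem_image.2 ⟨(QuotientGroup.mk u : G ⧸ H), Finset.mem_univ _, rfl⟩, ?_⟩
  have h1 : (QuotientGroup.mk (Quotient.out (QuotientGroup.mk u : G ⧸ H)) : G ⧸ H) =
      QuotientGroup.mk u := Quotient.out_eq _
  rw [QuotientGroup.eq] at h1
  obtain ⟨s, hs⟩ := h1
  generalize (Quotient.out (QuotientGroup.mk u : G ⧸ H) : G) = t at hs ⊢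
  have h2 : u = t * s ^ 2 := by
    have h3 : s ^ 2 = t⁻¹ * u := hs
    rw [h3, mul_inv_cancel_left]
  refine ⟨algebraMap (𝓞 L) L (s : 𝓞 L) * c, mul_ne_zero ?_ hc, ?_⟩
  · rw [Ne, FaithfulSMul.algebraMap_eq_zero_iff]
    exact s.ne_zero
  · rw [h2, Units.val_mul, Units.val_pow_eq_pow_val, map_mul, map_pow]
    ring

theorem MW2b_even (L : Type*) [Field L] [NumberField L] :
    MW2b_Fin {a : L | a ≠ 0 ∧ ∀ v : HeightOneSpectrum (𝓞 L), IsSquare (v.valuation L a)} := by
  classical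
  let Q := (FractionalIdeal (nonZeroDivisors (𝓞 L)) L)ˣ ⧸ (toPrincipalIdeal (𝓞 L) L).range
  have hQ : Finite Q := Finite.of_equiv _ (ClassGroup.equiv L).toEquiv
  let f : L → Q := fun a =>
    if h : a ≠ 0 ∧ ∀ v : HeightOneSpectrum (𝓞 L), IsSquare (v.valuation L a) then
      QuotientGroup.mk (Classical.choose (MW2b_ideal h.1 h.2)) else 1
  have hf : ∀ a : L, (a ≠ 0 ∧ ∀ v : HeightOneSpectrum (𝓞 L), IsSquare (v.valuation L a)) →
      ∃ M : (FractionalIdeal (nonZeroDivisors (𝓞 L)) L)ˣ,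
      (M : FractionalIdeal (nonZeroDivisors (𝓞 L)) L) ^ 2 =
        FractionalIdeal.spanSingleton (nonZeroDivisors (𝓞 L)) a ∧ f a = QuotientGroup.mk M := by
    intro a h
    exact ⟨_, Classical.choose_spec (MW2b_ideal h.1 h.2), dif_pos h⟩
  refine MW2b_step _ _ (fun a ha => ha.1) f (fun a ha a' ha' hff => ?_) (MW2b_units L)
  obtain ⟨M, hM, hfM⟩ := hf a ha
  obtain ⟨M', hM', hfM'⟩ := hf a' ha'
  rw [hfM, hfM', QuotientGroup.eq] at hff
  obtain ⟨c, hc⟩ := hff
  have hc2 : FractionalIdeal.spanSingleton (nonZeroDivisors (𝓞 L)) (c : L) *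
      (M : FractionalIdeal (nonZeroDivisors (𝓞 L)) L) = M' := by
    rw [← coe_toPrincipalIdeal, hc, ← Units.val_mul, mul_comm, mul_inv_cancel_left]
  have h3 : FractionalIdeal.spanSingleton (nonZeroDivisors (𝓞 L)) ((c : L) ^ 2 * a) =
      FractionalIdeal.spanSingleton (nonZeroDivisors (𝓞 L)) a' := by
    rw [← hM', ← hc2, mul_pow, hM, FractionalIdeal.spanSingleton_pow,
      FractionalIdeal.spanSingleton_mul_spanSingleton]
  obtain ⟨u, hu⟩ := FractionalIdeal.spanSingleton_eq_spanSingleton.1 h3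
  refine ⟨u⁻¹, (c : L)⁻¹, inv_ne_zero c.ne_zero, ?_⟩
  have h4 : a' = algebraMap (𝓞 L) L (u : 𝓞 L) * ((c : L) ^ 2 * a) := by
    rw [← hu, Units.smul_def, Algebra.smul_def]
  have h5 : algebraMap (𝓞 L) L ((u⁻¹ : (𝓞 L)ˣ) : 𝓞 L) * algebraMap (𝓞 L) L (u : 𝓞 L) = 1 := by
    rw [← map_mul, ← Units.val_mul, inv_mul_cancel, Units.val_one, map_one]
  have hc0 : (c : L) ≠ 0 := c.ne_zero
  rw [div_eq_iff ha'.1, h4]
  have h6 : algebraMap (𝓞 L) L ((u⁻¹ : (𝓞 L)ˣ) : 𝓞 L) * ((c : L)⁻¹) ^ 2 *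
      (algebraMap (𝓞 L) L (u : 𝓞 L) * ((c : L) ^ 2 * a)) =
      (algebraMap (𝓞 L) L ((u⁻¹ : (𝓞 L)ˣ) : 𝓞 L) * algebraMap (𝓞 L) L (u : 𝓞 L)) *
        (((c : L)⁻¹ * (c : L)) ^ 2 * a) := by ring
  rw [h6, h5, inv_mul_cancel₀ hc0, one_pow, one_mul, one_mul]

/-- The elements of `L` with square valuations outside of a finite set `S` of primes form finitely many
classes modulo squares.

Proof. For `a ≠ 0` as in the statement: the fractional ideal `(a)` is `M ^ 2 * ∏_{v ∈ S} v ^ (ε v)` with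
`ε v ∈ {0, 1}` and a fractional ideal `M` (all exponents outside `S` are even). Attach to `a` the datum
`(ε, class of M in the class group)`: finitely many values (`ClassGroup` is finite for `𝓞 L`). If `a`, `a'`
have the same datum then `(a / a') = (M / M')^2` and `M / M' = (c)` is principal, so `a = u a' c^2` with a
unit `u` of `𝓞 L`. Modulo squares there are finitely many units: the unit group is finitely generated
(Dirichlet, `NumberField.Units`), so its quotient by the squares is finite. So the products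
`u_k * a_d`, `u_k` representatives of the units modulo squares, `a_d` one element for each occurring
datum, form the finite set `R`. (Instead of `M` one can work with the exponents
`v.valuation L a` and `FractionalIdeal.count`; or choose for every ideal class an integral ideal in the
class.) -/
theorem selmer_finite {L : Type*} [Field L] [NumberField L]
    (S : Set (HeightOneSpectrum (𝓞 L))) (hS : S.Finite) :
    ∃ R : Finset L, ∀ a : L, a ≠ 0 → (∀ v : HeightOneSpectrum (𝓞 L), v ∉ S →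
      IsSquare (v.valuation L a)) → ∃ r ∈ R, ∃ c : L, c ≠ 0 ∧ a = r * c ^ 2 := by
  classical
  have : Finite S := hS
  obtain ⟨R, hR⟩ := MW2b_step
    {a : L | a ≠ 0 ∧ ∀ v : HeightOneSpectrum (𝓞 L), v ∉ S → IsSquare (v.valuation L a)}
    {a : L | a ≠ 0 ∧ ∀ v : HeightOneSpectrum (𝓞 L), IsSquare (v.valuation L a)}
    (fun a ha => ha.1) (fun a => fun v : S => IsSquare ((v : HeightOneSpectrum (𝓞 L)).valuation L a))
    (fun a ha a' ha' hff => by
      refine ⟨div_ne_zero ha.1 ha'.1, fun v => ?_⟩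
      rw [map_div₀]
      have h1 : v.valuation L a ≠ 0 := (map_ne_zero _).2 ha.1
      have h2 : v.valuation L a' ≠ 0 := (map_ne_zero _).2 ha'.1
      refine MW2b_isSquare_div h1 h2 ?_
      by_cases hv : v ∈ S
      · exact iff_of_eq (congrFun hff ⟨v, hv⟩)
      · exact iff_of_true (ha.2 v hv) (ha'.2 v hv))
    (MW2b_even L)
  exact ⟨R, fun a ha h => hR a ⟨ha, h⟩⟩

end Pool.Agent.Lib.MP_17a322_nt.VJ
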