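import Pool.Agent.Lib.MP_17a322_nt.VJ.MW1
import Pool.Agent.Lib.MP_17a322_nt.VJ.MW2b
import Pool.Agent.Lib.MP_17a322_nt.VJ.E7
import Pool.Agent.Lib.MP_17a322_nt.VJ.E6
import Pool.Agent.Lib.MP_17a322_nt.RO.A2

/-!
Mordell-Weil, part 3: the weak theorem for a curve with rational points of order two, and the theorem
over such a field.
-/

universe u

namespace Pool.Agent.Lib.MP_17a322_nt.VJ

open NumberField IsDedekindDomain Height

/-- Finitely many classes. Proof. Let `S` be the set of primes where some `e i` (nonzero) is not a unit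
or some `e i - e j`, `i ≠ j`, is not a unit (finite, `finite_bad`), `R` the finite set of `selmer_finite`. For
an affine point `P` with all `x(P) - e i ≠ 0` the element `x(P) - e i` is `r c^2` with `r ∈ R` (`FT.exists_sq`,
`val_isSquare`); choose such an `r = cl P i`. The function `P ↦ cl P` has finitely many values; points with
the same value have `x(P) - e i` differing by nonzero squares. -/
theorem exists_class {L : Type u} [Field L] [NumberField L] [DecidableEq L]
    (V : WeierstrassCurve L) [V.IsElliptic] (e : Fin 3 → L) (he : Function.Injective e)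
    (h : FT V e) :
    ∃ (κ : Type) (_ : Finite κ) (cl : V.toAffine.Point → κ), ∀ P Q : V.toAffine.Point,
      P ≠ 0 → Q ≠ 0 → (∀ i, P.xRep 0 - e i ≠ 0) → (∀ i, Q.xRep 0 - e i ≠ 0) → cl P = cl Q →
      ∀ i, ∃ c : L, c ≠ 0 ∧ P.xRep 0 - e i = (Q.xRep 0 - e i) * c ^ 2 := by
  classical
  let S : Set (HeightOneSpectrum (𝓞 L)) :=
    (⋃ i : Fin 3, if e i = 0 then ∅ else {v | v.valuation L (e i) ≠ 1}) ∪
    ⋃ p : Fin 3 × Fin 3, if e p.1 - e p.2 = 0 then ∅ else {v | v.valuation L (e p.1 - e p.2) ≠ 1}
  have hS : S.Finite := by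
    refine Set.Finite.union (Set.finite_iUnion fun i => ?_) (Set.finite_iUnion fun p => ?_)
    · split_ifs with h0
      · exact Set.finite_empty
      · exact finite_bad _ h0
    · split_ifs with h0
      · exact Set.finite_empty
      · exact finite_bad _ h0
  have hS1 : ∀ v, v ∉ S → ∀ i, v.valuation L (e i) ≤ 1 := by
    intro v hv i
    by_cases h0 : e i = 0
    · rw [h0, map_zero]
      exact zero_le_one
    · by_contra h1
      apply hv
      refine Or.inl (Set.mem_iUnion.2 ⟨i, ?_⟩)
      rw [if_neg h0]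
      exact fun h2 => h1 (le_of_eq h2)
  have hS2 : ∀ v, v ∉ S → ∀ i j, i ≠ j → v.valuation L (e i - e j) = 1 := by
    intro v hv i j hij
    have h0 : e i - e j ≠ 0 := sub_ne_zero.2 fun h1 => hij (he h1)
    by_contra h1
    apply hv
    refine Or.inr (Set.mem_iUnion.2 ⟨(i, j), ?_⟩)
    rw [if_neg h0]
    exact h1
  obtain ⟨R, hR⟩ := selmer_finite S hS
  refine ⟨Fin 3 → Option (Fin R.card), inferInstance, fun P i =>
    if hc : ∃ r : R, ∃ c : L, c ≠ 0 ∧ P.xRep 0 - e i = r * c ^ 2 then
      some (R.equivFin hc.choose) else none, ?_⟩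
  have hex : ∀ P : V.toAffine.Point, P ≠ 0 → (∀ i, P.xRep 0 - e i ≠ 0) → ∀ i,
      ∃ r : R, ∃ c : L, c ≠ 0 ∧ P.xRep 0 - e i = r * c ^ 2 := by
    intro P hP hPi i
    obtain ⟨η, hη⟩ := h.exists_sq P hP
    have hη0 : η ≠ 0 := by
      rintro rfl
      have : ∏ i, (P.xRep 0 - e i) ≠ 0 := Finset.prod_ne_zero_iff.2 fun i _ => hPi i
      exact this (by rw [← hη]; ring)
    obtain ⟨r, hr, c, hc, h1⟩ := hR _ (hPi i) fun v hv =>
      val_isSquare (v.valuation L) e (hS1 v hv) (hS2 v hv) _ η hη hη0 i
    exact ⟨⟨r, hr⟩, c, hc, h1⟩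
  intro P Q hP hQ hPi hQi hcl i
  have h1 := hex P hP hPi i
  have h2 := hex Q hQ hQi i
  have h3 := congrFun hcl i
  simp only [dif_pos h1, dif_pos h2, Option.some.injEq, EmbeddingLike.apply_eq_iff_eq] at h3
  obtain ⟨c, hc, e1⟩ := h1.choose_spec
  obtain ⟨c', hc', e2⟩ := h2.choose_spec
  refine ⟨c / c', div_ne_zero hc hc', ?_⟩
  rw [e1, e2, h3]
  field_simp

/-- The weak Mordell-Weil theorem.

Proof. Let `T` be the finite set of `0` and the points with some `x(P) = e i` (`finite_xRep_eq`, E7). For every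
value `k` of `cl` on the complement of `T` choose a point `P_k`. Claim: every `P` not in `T` is
`P_k + D` with `D ∈ T` or `D ∈ 2 E`: take `k = cl P`, `D = P - P_k = P + (-P_k)`. If `D ∉ T` then
`(x(P) - e i)(x(P_k) - e i)(x(D) - e i)` is a square (`FT.add_isSquare`, `xRep_neg`), and so is
`(x(P) - e i)(x(P_k) - e i)`, nonzero, hence `x(D) - e i` is a square and `D ∈ 2 E` (`FT.exists_half`). So the
group is the union of finitely many cosets of `2 E` (those of the elements of `T`, `P_k`, `P_k + t`, `t ∈ T`):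
the index is finite (`AddSubgroup.finiteIndex_iff..`, or finiteness of the quotient: the quotient map is
surjective from a finite set). -/
theorem weak_mw {L : Type u} [Field L] [NumberField L] [DecidableEq L]
    (V : WeierstrassCurve L) [V.IsElliptic] (e : Fin 3 → L) (he : Function.Injective e)
    (h : FT V e) : (nsmulAddMonoidHom (α := V.toAffine.Point) 2).range.FiniteIndex := by
  classical
  obtain ⟨κ, hκ, cl, hcl⟩ := exists_class V e he h
  let T : Set V.toAffine.Point := {0} ∪ ⋃ i : Fin 3, {P | P.xRep = ![e i, 1]}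
  have hT : T.Finite := (Set.finite_singleton _).union
    (Set.finite_iUnion fun i => finite_xRep_eq V _)
  have hT0 : ∀ P, P ∉ T → P ≠ 0 := by
    rintro P hP rfl
    exact hP (Or.inl rfl)
  have hTi : ∀ P, P ∉ T → ∀ i, P.xRep 0 - e i ≠ 0 := by
    intro P hP i h0
    apply hP
    refine Or.inr (Set.mem_iUnion.2 ⟨i, ?_⟩)
    show P.xRep = ![e i, 1]
    rw [xRep_eq (hT0 P hP), sub_eq_zero.1 h0]
  let Pk : κ → V.toAffine.Point := fun k =>
    if hk : ∃ P, P ∉ T ∧ cl P = k then hk.choose else 0
  let U : Set V.toAffine.Point := T ∪ Set.range Pk ∪ Set.image2 (· + ·) (Set.range Pk) T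
  have hU : U.Finite := (hT.union (Set.finite_range Pk)).union
    ((Set.finite_range Pk).image2 _ hT)
  set H := (nsmulAddMonoidHom (α := V.toAffine.Point) 2).range with hH
  have hfin : Finite (V.toAffine.Point ⧸ H) := by
    have hsub : (Set.univ : Set (V.toAffine.Point ⧸ H)) ⊆ (QuotientAddGroup.mk '' U) := by
      intro q _
      obtain ⟨P, rfl⟩ := QuotientAddGroup.mk_surjective q
      by_cases hP : P ∈ T
      · exact ⟨P, Or.inl (Or.inl hP), rfl⟩
      have hk : ∃ P', P' ∉ T ∧ cl P' = cl P := ⟨P, hP, rfl⟩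
      obtain ⟨hQ1, hQ2⟩ := hk.choose_spec
      have hPk : Pk (cl P) = hk.choose := dif_pos hk
      rw [← hPk] at hQ1 hQ2
      set Q := Pk (cl P) with hQ
      by_cases hD : P - Q ∈ T
      · refine ⟨P, Or.inr ⟨Q, ⟨cl P, rfl⟩, P - Q, hD, ?_⟩, rfl⟩
        show Q + (P - Q) = P
        abel
      · refine ⟨Q, Or.inl (Or.inr ⟨cl P, rfl⟩), ?_⟩
        rw [QuotientAddGroup.eq]
        have hsq : ∀ i, IsSquare ((P - Q).xRep 0 - e i) := by
          intro i
          obtain ⟨c, hc, e1⟩ := hcl P Q (hT0 P hP) (hT0 Q hQ1) (hTi P hP) (hTi Q hQ1) hQ2.symm i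
          have h1 := h.add_isSquare P (-Q) (hT0 P hP) (neg_ne_zero.2 (hT0 Q hQ1))
            (by rw [← sub_eq_add_neg]; exact hT0 _ hD) i
          rw [← sub_eq_add_neg, xRep_neg] at h1
          obtain ⟨s, hs⟩ := h1
          have hq := hTi Q hQ1 i
          refine ⟨s / ((Q.xRep 0 - e i) * c), ?_⟩
          rw [e1] at hs
          rw [div_mul_div_comm, ← hs]
          field_simp
        obtain ⟨A, hA⟩ := h.exists_half (P - Q) (hT0 _ hD) hsq
        refine ⟨A, ?_⟩
        rw [nsmulAddMonoidHom_apply, hA]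
        abel
    exact Set.finite_univ_iff.1 ((hU.image _).subset hsub)
  exact AddSubgroup.finiteIndex_of_finite_quotient

/-- Finitely many points of bounded height: `logHeight P.xRep = logHeight₁ (x(P))` for `P ≠ 0`
(compare `logHeight_xRep`, E6), the Northcott instance of Mathlib for `logHeight₁` over a number field and
`finite_xRep_eq` (E7). -/
theorem northcott_points {L : Type u} [Field L] [NumberField L] [DecidableEq L]
    (V : WeierstrassCurve L) : Northcott (fun P : V.toAffine.Point => logHeight P.xRep) := by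
  refine ⟨fun b => ?_⟩
  have h1 : {x : L | logHeight₁ x ≤ b}.Finite := Northcott.finite_le b
  refine Set.Finite.subset ((Set.finite_singleton (0 : V.toAffine.Point)).union
    (h1.biUnion fun x _ => finite_xRep_eq V ![x, 1])) ?_
  intro P hP
  by_cases h0 : P = 0
  · exact Or.inl h0
  · refine Or.inr (Set.mem_biUnion (x := P.xRep 0) ?_ (xRep_eq h0))
    show logHeight₁ (P.xRep 0) ≤ b
    rw [← logHeight_xRep h0]
    exact hP

/-- Mathlib `AddCommGroup.fg_of_descent'` with `weak_mw`, `northcott_points` and `parallelogram` (RO/A2,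
import it; rewrite `2 * (h x + h y)`). -/
theorem mw_of_FT {L : Type u} [Field L] [NumberField L] [DecidableEq L]
    (V : WeierstrassCurve L) [V.IsElliptic] (e : Fin 3 → L) (he : Function.Injective e)
    (h : FT V e) : AddGroup.FG V.toAffine.Point := by
  have := northcott_points V
  obtain ⟨C, hC⟩ := RO.parallelogram V
  refine AddCommGroup.fg_of_descent' (h := fun P : V.toAffine.Point => logHeight P.xRep) (C := C)
    (weak_mw V e he h) (fun P => logHeight_xRep_nonneg P) fun P Q => ?_
  have h1 := hC P Q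
  have e1 : logHeight (P + Q).xRep + logHeight (P - Q).xRep -
      2 * (logHeight P.xRep + logHeight Q.xRep) = logHeight (P + Q).xRep + logHeight (P - Q).xRep
        - 2 * logHeight P.xRep - 2 * logHeight Q.xRep := by ring
  show |logHeight (P + Q).xRep + logHeight (P - Q).xRep -
      2 * (logHeight P.xRep + logHeight Q.xRep)| ≤ C
  rw [e1]
  exact h1

end Pool.Agent.Lib.MP_17a322_nt.VJ
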