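import Pool.Agent.Lib.MP_17a322_nt.VJ.A5
import Pool.Agent.Lib.MP_17a322_nt.VJ.MW3

/-!
The Mordell-Weil theorem over number fields.
-/

universe u

namespace Pool.Agent.Lib.MP_17a322_nt.VJ

open NumberField

/-- A finite extension over which all points of order two are rational.

Proof. `ψ = 4 X^3 + b₂ X^2 + 2 b₄ X + b₆` over `K`; `L = ψ.SplittingField` (a number field, in the same
universe; finite over `K`). Over `L` the polynomial has three roots `e 0, e 1, e 2` with
`ψ = 4 ∏ (X - e i)` (`Polynomial.Splits`, roots of a split polynomial of degree 3; `Cubic` API: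
`WeierstrassCurve.twoTorsionPolynomial`, `Cubic.b_eq_three_roots` and so on give exactly the three
identities of `FT`), pairwise different since the discriminant is `16 Δ ≠ 0`
(`twoTorsionPolynomial_discr`, `Cubic.discr_ne_zero_iff_roots_ne`). -/
theorem exists_FT {K : Type u} [Field K] [NumberField K] (W : WeierstrassCurve K)
    [W.IsElliptic] :
    ∃ (L : Type u) (_ : Field L) (_ : NumberField L) (_ : DecidableEq L) (_ : Algebra K L)
      (V : WeierstrassCurve L) (e : Fin 3 → L), W.map (algebraMap K L) = V ∧ V.IsElliptic ∧
      Function.Injective e ∧ FT V e := by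
  classical
  have ha : W.twoTorsionPolynomial.a ≠ 0 := by
    show (4 : K) ≠ 0
    norm_num
  have hsplit := Polynomial.SplittingField.splits W.twoTorsionPolynomial.toPoly
  obtain ⟨x, y, z, h3⟩ := (Cubic.splits_iff_roots_eq_three ha).1 hsplit
  have hNF : NumberField W.twoTorsionPolynomial.toPoly.SplittingField :=
    NumberField.of_module_finite K _
  have hdisc : W.twoTorsionPolynomial.discr ≠ 0 := by
    rw [WeierstrassCurve.twoTorsionPolynomial_discr]
    exact mul_ne_zero (by norm_num) W.isUnit_Δ.ne_zero
  obtain ⟨hxy, hxz, hyz⟩ := (Cubic.discr_ne_zero_iff_roots_ne ha h3).1 hdisc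
  have hb := Cubic.b_eq_three_roots ha h3
  have hc := Cubic.c_eq_three_roots ha h3
  have hd := Cubic.d_eq_three_roots ha h3
  refine ⟨W.twoTorsionPolynomial.toPoly.SplittingField, inferInstance, hNF,
    Classical.typeDecidableEq _, inferInstance,
    W.map (algebraMap K W.twoTorsionPolynomial.toPoly.SplittingField), ![x, y, z], rfl,
    inferInstance, ?_, ?_⟩
  · intro i j hij
    fin_cases i <;> fin_cases j
    · rfl
    · exact absurd hij hxy
    · exact absurd hij hxz
    · exact absurd hij hxy.symm
    · rfl
    · exact absurd hij hyz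
    · exact absurd hij hxz.symm
    · exact absurd hij hyz.symm
    · rfl
  · have h4 : algebraMap K W.twoTorsionPolynomial.toPoly.SplittingField 4 = 4 := map_ofNat _ 4
    refine ⟨?_, ?_, ?_⟩
    · rw [WeierstrassCurve.map_b₂]
      have h5 : algebraMap K W.twoTorsionPolynomial.toPoly.SplittingField W.b₂ =
        algebraMap K W.twoTorsionPolynomial.toPoly.SplittingField 4 * -(x + y + z) := hb
      rw [h5, h4]
      show 4 * -(x + y + z) = -4 * (x + y + z)
      ring
    · rw [WeierstrassCurve.map_b₄]
      have h5 : algebraMap K W.twoTorsionPolynomial.toPoly.SplittingField (2 * W.b₄) =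
        algebraMap K W.twoTorsionPolynomial.toPoly.SplittingField 4 * (x * y + x * z + y * z) := hc
      rw [map_mul, map_ofNat, h4] at h5
      rw [h5]
      rfl
    · rw [WeierstrassCurve.map_b₆]
      have h5 : algebraMap K W.twoTorsionPolynomial.toPoly.SplittingField W.b₆ =
        algebraMap K W.twoTorsionPolynomial.toPoly.SplittingField 4 * -(x * y * z) := hd
      rw [h5, h4]
      show 4 * -(x * y * z) = -4 * (x * y * z)
      ring

/-- Mordell-Weil. Proof. `L`, `V` from `exists_FT`, `V.toAffine.Point` is finitely generated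
(`mw_of_FT`), `f : W.toAffine.Point →+ V.toAffine.Point` injective (`exists_PB`, `PB.injective`, E7); subgroups
of finitely generated abelian groups are finitely generated (`AddSubgroup.fg` of a Noetherian
`ℤ`-module: `Module.Finite ℤ`, `Module.Finite.of_injective`). -/
theorem mordell_weil {K : Type u} [Field K] [NumberField K] [DecidableEq K]
    (W : WeierstrassCurve K) [W.IsElliptic] : AddGroup.FG W.toAffine.Point := by
  obtain ⟨L, _, _, _, _, V, e, hV, hell, he, h⟩ := exists_FT W
  have h1 : AddGroup.FG V.toAffine.Point := mw_of_FT V e he h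
  obtain ⟨f, hf⟩ := exists_PB W V hV
  have h2 : Module.Finite ℤ V.toAffine.Point := Module.Finite.iff_addGroup_fg.2 h1
  have h3 : IsNoetherian ℤ V.toAffine.Point := isNoetherian_of_isNoetherianRing_of_finite ℤ _
  have h4 : Module.Finite ℤ W.toAffine.Point :=
    Module.Finite.of_injective f.toIntLinearMap hf.injective
  exact Module.Finite.iff_addGroup_fg.1 h4

end Pool.Agent.Lib.MP_17a322_nt.VJ
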