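import Pool.Agent.Lib.MP_17a322_nt.VJ.Defs

/-!
# JOB F2: scaling a vector to a small integral vector (Minkowski)

Proof. (0) It suffices to treat integral vectors: choose a nonzero integer `n` with all `n * x i` integral
(`IsLocalization.exist_integer_multiples_of_finset` or `exists_integral_multiple`; `𝓞 K` is the integral closure
of `ℤ`), `logHeight_smul_eq_logHeight`; multiply the resulting `lam` by `n`.
(1) `y : ι → 𝓞 K` not zero, `I = Ideal.span (Set.range y)`, `I ≠ ⊥`, `N = absNorm I ≥ 1`,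
`M w = ⨆ i, w (y i) > 0` for every infinite place `w`. By `NumberField.mulHeight_eq` and
`NumberField.absNorm_mul_finprod_finitePlace_eq_one` (file NumberTheory/Height/NumberField of Mathlib):
`mulHeight y = (∏ w, M w ^ mult w) / N`.
(2) `J` = the inverse of the fractional ideal `I` as a unit of `FractionalIdeal (𝓞 K)⁰ K`
(`Units.mk0`, the fractional ideals of a Dedekind domain form a `GroupWithZero`). By
`NumberField.mixedEmbedding.volume_fundamentalDomain_fractionalIdealLatticeBasis`,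
`FractionalIdeal.absNorm J = N⁻¹` (`map_inv₀`, `FractionalIdeal.coeIdeal_absNorm`):
`minkowskiBound K J = ENNReal.ofReal N⁻¹ * mB`, where
`mB = volume (fundamentalDomain (latticeBasis K)) * 2 ^ finrank ℝ (mixedSpace K)` is finite and does not depend
on `J` (for the unit ideal it is `minkowskiBound K 1`, `minkowskiBound_lt_top`).
(3) For `t > 0` let `f w = t / M w` (in `ℝ≥0`): `convexBodyLT_volume`:
`volume (convexBodyLT K f) = convexBodyLTFactor K * ∏ w, f w ^ mult w = factor * t ^ d / ∏ w, M w ^ mult w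
= factor * t ^ d / (N * mulHeight y)`, `d = finrank ℚ K = ∑ w, mult w` (`InfinitePlace.sum_mult_eq`). So
`minkowskiBound K J < volume (convexBodyLT K f)` holds as soon as `mB * mulHeight y < factor * t ^ d`; take
`t = C * (mulHeight y) ^ (1 / d)` with `C ≥ 1` and `factor * C ^ d > mB` (`C` depends only on `K`; one may take
`C = 1 + mB / factor` as real numbers, as `d ≥ 1`, `C ^ d ≥ C`).
(4) `NumberField.mixedEmbedding.exists_ne_zero_mem_ideal_lt`: `lam ∈ J`, `lam ≠ 0`, `w lam < f w` for all `w`.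
`lam * y i ∈ J * I = 1`, so it is integral, and `w (lam * y i) ≤ f w * M w = t` for every infinite place; the
house is the maximum of the `‖φ (lam * y i)‖ = w (lam * y i)` (`house_eq_sup'`, `InfinitePlace.mk φ`).
`t = C * exp (logHeight y / d)`.
-/

universe u

namespace Pool.Agent.Lib.MP_17a322_nt.VJ

open Height NumberField nonZeroDivisors

/-- house of an element from its absolute values -/
theorem F2_house_le {K : Type*} [Field K] [NumberField K] (a : K) {t : ℝ} (ht : 0 ≤ t)
    (h : ∀ w : InfinitePlace K, w a ≤ t) : house a ≤ t := by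
  unfold house
  rw [pi_norm_le_iff_of_nonneg ht]
  intro φ
  rw [canonicalEmbedding.apply_at]
  exact h (InfinitePlace.mk φ)

/-- the Minkowski bound of a fractional ideal -/
theorem F2_bound (K : Type*) [Field K] [NumberField K] (J : (FractionalIdeal (𝓞 K)⁰ K)ˣ) :
    mixedEmbedding.minkowskiBound K J =
      ENNReal.ofReal (FractionalIdeal.absNorm J.1 : ℚ) * mixedEmbedding.minkowskiBound K 1 := by
  unfold mixedEmbedding.minkowskiBound
  rw [mixedEmbedding.volume_fundamentalDomain_fractionalIdealLatticeBasis,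
    mixedEmbedding.volume_fundamentalDomain_fractionalIdealLatticeBasis, Units.val_one,
    FractionalIdeal.absNorm_one, Rat.cast_one, ENNReal.ofReal_one, one_mul, mul_assoc]

theorem F2_int (K : Type u) [Field K] [NumberField K] :
    ∃ C : ℝ, 1 ≤ C ∧ ∀ (ι : Type) [Fintype ι] (y : ι → 𝓞 K), y ≠ 0 →
      ∃ lam : K, lam ≠ 0 ∧ ∀ i, IsIntegral ℤ (lam * (y i : K)) ∧
        house (lam * (y i : K)) ≤
          C * Real.exp (logHeight (fun i => (y i : K)) / Module.finrank ℚ K) := by
  classical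
  set mB : ℝ := (mixedEmbedding.minkowskiBound K 1).toReal with hmB
  have hmB0 : 0 ≤ mB := ENNReal.toReal_nonneg
  have hmB1 : mixedEmbedding.minkowskiBound K 1 = ENNReal.ofReal mB :=
    (ENNReal.ofReal_toReal (mixedEmbedding.minkowskiBound_lt_top K 1).ne).symm
  refine ⟨1 + mB, by linarith, fun ι _ y hy => ?_⟩
  set C : ℝ := 1 + mB with hC
  have hC1 : 1 ≤ C := by linarith
  have hd : 0 < Module.finrank ℚ K := Module.finrank_pos
  set d := Module.finrank ℚ K with hdd
  -- the ideal
  obtain ⟨i0, hi0⟩ := Function.ne_iff.mp hy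
  have hI : Ideal.span (Set.range y) ≠ ⊥ := by
    intro h
    have h1 : y i0 ∈ Ideal.span (Set.range y) := Ideal.subset_span ⟨i0, rfl⟩
    rw [h, Ideal.mem_bot] at h1
    exact hi0 h1
  set I := Ideal.span (Set.range y) with hIdef
  set N : ℕ := Ideal.absNorm I with hN
  have hN0 : 0 < N := Nat.pos_of_ne_zero (Ideal.absNorm_eq_zero_iff.not.2 hI)
  have hNR : (0 : ℝ) < N := by exact_mod_cast hN0
  have hx0 : (fun i => (y i : K)) ≠ 0 := by
    refine Function.ne_iff.mpr ⟨i0, ?_⟩
    simpa using hi0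
  -- heights
  have hM : ∀ w : InfinitePlace K, 0 < ⨆ i, w (y i : K) := by
    intro w
    have h1 : 0 < w (y i0 : K) := by
      rw [InfinitePlace.pos_iff]
      simpa using hi0
    exact h1.trans_le (le_ciSup (f := fun i => w (y i : K)) (Set.finite_range _).bddAbove i0)
  set H : ℝ := mulHeight (fun i => (y i : K)) with hH
  have hHpos : 0 < H := mulHeight_pos _
  have hprod : ∏ w : InfinitePlace K, (⨆ i, w (y i : K)) ^ w.mult = N * H := by
    have h1 := NumberField.mulHeight_eq hx0
    have h2 := absNorm_mul_finprod_finitePlace_eq_one hy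
    rw [hH, h1]
    calc ∏ w : InfinitePlace K, (⨆ i, w (y i : K)) ^ w.mult
        = (∏ w : InfinitePlace K, (⨆ i, w (y i : K)) ^ w.mult) * 1 := (mul_one _).symm
      _ = (∏ w : InfinitePlace K, (⨆ i, w (y i : K)) ^ w.mult) *
          ((N : ℝ) * ∏ᶠ v : FinitePlace K, ⨆ i, v (y i : K)) := by rw [hN, hIdef, h2]
      _ = _ := by ring
  -- the fractional ideal
  have hI' : (I : FractionalIdeal (𝓞 K)⁰ K) ≠ 0 := FractionalIdeal.coeIdeal_ne_zero.2 hI
  set J : (FractionalIdeal (𝓞 K)⁰ K)ˣ := (Units.mk0 (I : FractionalIdeal (𝓞 K)⁰ K) hI')⁻¹ with hJ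
  have hJv : (J : FractionalIdeal (𝓞 K)⁰ K) = (I : FractionalIdeal (𝓞 K)⁰ K)⁻¹ := by
    rw [hJ, Units.val_inv_eq_inv_val, Units.val_mk0]
  have hJn : ((FractionalIdeal.absNorm J.1 : ℚ) : ℝ) = (N : ℝ)⁻¹ := by
    rw [hJv, map_inv₀, FractionalIdeal.coeIdeal_absNorm]
    push_cast
    rfl
  -- the convex body
  set t : ℝ := C * Real.exp (logHeight (fun i => (y i : K)) / d) with ht
  have ht0 : 0 < t := by positivity
  have htd : t ^ d = C ^ d * H := by
    rw [ht, mul_pow, ← Real.exp_nat_mul]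
    have h1 : (d : ℝ) * (logHeight (fun i => (y i : K)) / d) = logHeight (fun i => (y i : K)) := by
      have : (d : ℝ) ≠ 0 := by exact_mod_cast hd.ne'
      field_simp
    rw [h1, logHeight_eq_log_mulHeight, Real.exp_log hHpos]
  have hvol : MeasureTheory.volume (mixedEmbedding.convexBodyLT K
      (fun w => Real.toNNReal (t / ⨆ i, w (y i : K)))) =
      ENNReal.ofReal ((mixedEmbedding.convexBodyLTFactor K : ℝ) * (t ^ d / (N * H))) := by
    rw [mixedEmbedding.convexBodyLT_volume]
    have h1 : ((∏ w : InfinitePlace K, (Real.toNNReal (t / ⨆ i, w (y i : K))) ^ w.mult : NNReal) : ℝ) =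
        t ^ d / (N * H) := by
      push_cast
      have h2 : ∀ w : InfinitePlace K, ((Real.toNNReal (t / ⨆ i, w (y i : K)) : ℝ)) ^ w.mult =
          t ^ w.mult / (⨆ i, w (y i : K)) ^ w.mult := by
        intro w
        rw [Real.coe_toNNReal _ (div_nonneg ht0.le (hM w).le), div_pow]
      rw [Finset.prod_congr rfl fun w _ => h2 w, Finset.prod_div_distrib, hprod,
        Finset.prod_pow_eq_pow_sum, InfinitePlace.sum_mult_eq]
    rw [← h1, ENNReal.ofReal_mul (NNReal.coe_nonneg _), ENNReal.ofReal_coe_nnreal,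
      ENNReal.ofReal_coe_nnreal]
  have hlt : mixedEmbedding.minkowskiBound K J < MeasureTheory.volume (mixedEmbedding.convexBodyLT K
      (fun w => Real.toNNReal (t / ⨆ i, w (y i : K)))) := by
    rw [hvol, F2_bound, hJn, hmB1, ← ENNReal.ofReal_mul (by positivity)]
    have hfac : (1 : ℝ) ≤ (mixedEmbedding.convexBodyLTFactor K : ℝ) := by
      exact_mod_cast mixedEmbedding.one_le_convexBodyLTFactor K
    refine (ENNReal.ofReal_lt_ofReal_iff (by positivity)).2 ?_
    rw [htd]
    have h1 : C ^ d * H / (N * H) = C ^ d * (N : ℝ)⁻¹ := by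
      field_simp
    rw [h1]
    have h2 : mB < C ^ d := by
      calc mB < C := by linarith
        _ = C ^ 1 := (pow_one C).symm
        _ ≤ C ^ d := pow_le_pow_right₀ hC1 hd
    have h3 : (0 : ℝ) < (N : ℝ)⁻¹ := inv_pos.2 hNR
    have h4 : C ^ d * (N : ℝ)⁻¹ ≤ (mixedEmbedding.convexBodyLTFactor K : ℝ) * (C ^ d * (N : ℝ)⁻¹) :=
      le_mul_of_one_le_left (by positivity) hfac
    have h5 := mul_lt_mul_of_pos_right h2 h3
    linarith
  obtain ⟨lam, hlamJ, hlam0, hlam⟩ := mixedEmbedding.exists_ne_zero_mem_ideal_lt K J hlt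
  refine ⟨lam, hlam0, fun i => ⟨?_, ?_⟩⟩
  · have h1 : algebraMap (𝓞 K) K (y i) ∈ (I : FractionalIdeal (𝓞 K)⁰ K) :=
      FractionalIdeal.mem_coeIdeal_of_mem _ (Ideal.subset_span ⟨i, rfl⟩)
    have h2 := FractionalIdeal.mul_mem_mul hlamJ h1
    rw [hJv, inv_mul_cancel₀ hI', FractionalIdeal.mem_one_iff] at h2
    obtain ⟨z, hz⟩ := h2
    have h3 : lam * (y i : K) = (z : K) := hz.symm
    rw [h3]
    exact z.isIntegral_coe
  · refine F2_house_le _ ht0.le fun w => ?_
    rw [map_mul]
    have h1 : w lam ≤ t / ⨆ i, w (y i : K) := by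
      have h2 := (hlam w).le
      rwa [Real.coe_toNNReal _ (div_nonneg ht0.le (hM w).le)] at h2
    have h2 : w (y i : K) ≤ ⨆ i, w (y i : K) :=
      le_ciSup (f := fun i => w (y i : K)) (Set.finite_range _).bddAbove i
    calc w lam * w (y i : K) ≤ (t / ⨆ i, w (y i : K)) * ⨆ i, w (y i : K) :=
          mul_le_mul h1 h2 (apply_nonneg _ _) (div_nonneg ht0.le (hM w).le)
      _ = t := div_mul_cancel₀ _ (hM w).ne'

theorem exists_scale (K : Type u) [Field K] [NumberField K] :
    ∃ C : ℝ, 1 ≤ C ∧ ∀ (ι : Type) [Fintype ι] (x : ι → K), x ≠ 0 →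
      ∃ lam : K, lam ≠ 0 ∧ ∀ i, IsIntegral ℤ (lam * x i) ∧
        house (lam * x i) ≤ C * Real.exp (logHeight x / Module.finrank ℚ K) := by
  classical
  obtain ⟨C, hC, h⟩ := F2_int K
  refine ⟨C, hC, fun ι _ x hx => ?_⟩
  choose n hn0 _ hn using fun i => exists_nat_le_mulHeight₁ (x i)
  have hN0 : ((∏ i, n i : ℕ) : K) ≠ 0 := by
    exact_mod_cast Finset.prod_ne_zero_iff.2 fun i _ => hn0 i
  have hint : ∀ i, IsIntegral ℤ (((∏ i, n i : ℕ) : K) * x i) := by
    intro i
    have h1 : ((∏ i, n i : ℕ) : K) * x i = ((∏ j ∈ Finset.univ.erase i, n j : ℕ) : K) * ((n i : K) * x i) := by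
      rw [← Finset.mul_prod_erase Finset.univ n (Finset.mem_univ i)]
      push_cast
      ring
    rw [h1]
    exact IsIntegral.mul (isIntegral_natCast _) (hn i)
  let y : ι → 𝓞 K := fun i => ⟨((∏ i, n i : ℕ) : K) * x i, hint i⟩
  have hyc : ∀ i, (y i : K) = ((∏ i, n i : ℕ) : K) * x i := fun i => rfl
  have hy : y ≠ 0 := by
    intro h1
    apply hx
    funext i
    have h2 := congrArg (fun z : 𝓞 K => (z : K)) (congrFun h1 i)
    have h3 : ((∏ i, n i : ℕ) : K) * x i = 0 := by
      rw [← hyc]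
      simpa using h2
    rcases mul_eq_zero.1 h3 with h4 | h4
    · exact absurd h4 hN0
    · exact h4
  obtain ⟨lam, hlam0, hlam⟩ := h ι y hy
  have hht : logHeight (fun i => (y i : K)) = logHeight x := by
    have h1 : (fun i => (y i : K)) = ((∏ i, n i : ℕ) : K) • x := by
      funext i
      rw [hyc, Pi.smul_apply, smul_eq_mul]
    rw [h1, logHeight_eq_log_mulHeight, mulHeight_smul_eq_mulHeight x hN0, logHeight_eq_log_mulHeight]
  refine ⟨lam * ((∏ i, n i : ℕ) : K), mul_ne_zero hlam0 hN0, fun i => ?_⟩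
  have h1 := hlam i
  rw [hht, hyc, ← mul_assoc] at h1
  exact h1

end Pool.Agent.Lib.MP_17a322_nt.VJ
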