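import Pool.Agent.Lib.MP_17a322_nt.VJ.Defs

/-!
Sums over all places.
-/

namespace Pool.Agent.Lib.MP_17a322_nt.VJ

open MvPolynomial Height

theorem FS_add {L : Type*} [Field L] [AdmissibleAbsValues L] {f g : AbsoluteValue L ℝ → ℝ}
    (hf : FS f) (hg : FS g) : FS (fun v => f v + g v) := by
  refine (hf.union hg).subset fun v hv => ?_
  by_contra hc
  rw [Set.mem_union, not_or] at hc
  obtain ⟨h1, h2⟩ := hc
  have h1' : f v.val = 0 := by
    by_contra h
    exact h1 h
  have h2' : g v.val = 0 := by
    by_contra h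
    exact h2 h
  exact hv (by simp only [h1', h2', add_zero])

theorem FS_sub {L : Type*} [Field L] [AdmissibleAbsValues L] {f g : AbsoluteValue L ℝ → ℝ}
    (hf : FS f) (hg : FS g) : FS (fun v => f v - g v) := by
  refine (hf.union hg).subset fun v hv => ?_
  by_contra hc
  rw [Set.mem_union, not_or] at hc
  obtain ⟨h1, h2⟩ := hc
  have h1' : f v.val = 0 := by
    by_contra h
    exact h1 h
  have h2' : g v.val = 0 := by
    by_contra h
    exact h2 h
  exact hv (by simp only [h1', h2', sub_zero])

theorem FS_const_mul {L : Type*} [Field L] [AdmissibleAbsValues L] {f : AbsoluteValue L ℝ → ℝ}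
    (c : ℝ) (hf : FS f) : FS (fun v => c * f v) := by
  refine hf.subset fun v hv => ?_
  intro h0
  exact hv (by simp only [h0, mul_zero])

theorem FS_sum {L : Type*} [Field L] [AdmissibleAbsValues L] {ι : Type*} (s : Finset ι)
    {f : ι → AbsoluteValue L ℝ → ℝ} (hf : ∀ i ∈ s, FS (f i)) : FS (fun v => ∑ i ∈ s, f i v) := by
  classical
  induction s using Finset.induction_on with
  | empty => simp [FS]
  | insert a s ha ih =>
    simp only [Finset.sum_insert ha]
    exact FS_add (hf a (Finset.mem_insert_self a s))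
      (ih fun i hi => hf i (Finset.mem_insert_of_mem hi))

/-- `log (cst v n)` vanishes at the nonarchimedean places. -/
theorem FS_log_cst {L : Type*} [Field L] [AdmissibleAbsValues L] (n : ℕ) :
    FS (fun v : AbsoluteValue L ℝ => Real.log (cst v n)) := by
  have h0 : ∀ v : AdmissibleAbsValues.nonarchAbsVal (K := L), cst v.val n = 1 := by
    intro v
    unfold cst
    rw [if_pos (AdmissibleAbsValues.isNonarchimedean v.val v.property)]
  simp [FS, h0]

theorem FS_log_abv {L : Type*} [Field L] [AdmissibleAbsValues L] {x : L} (hx : x ≠ 0) :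
    FS (fun v : AbsoluteValue L ℝ => Real.log (v x)) := by
  refine (AdmissibleAbsValues.hasFiniteMulSupport hx).subset fun v hv => ?_
  rw [Function.mem_mulSupport]
  intro h1
  exact hv (by simp only [h1, Real.log_one])

theorem FS_log_iSup {L : Type*} [Field L] [AdmissibleAbsValues L] {ι : Type*} [Finite ι]
    {x : ι → L} (hx : x ≠ 0) :
    FS (fun v : AbsoluteValue L ℝ => Real.log (⨆ i, v (x i))) := by
  classical
  have := Fintype.ofFinite ι
  have hfin : (⋃ i ∈ (Finset.univ.filter fun i : ι => x i ≠ 0),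
      {v : AdmissibleAbsValues.nonarchAbsVal (K := L) | Real.log (v.val (x i)) ≠ 0}).Finite := by
    refine Set.Finite.biUnion (Finset.finite_toSet _) fun i hi => ?_
    rw [Finset.coe_filter, Set.mem_ofPred_eq] at hi
    exact FS_log_abv hi.2
  refine hfin.subset fun v hv => ?_
  by_contra hc
  simp only [Set.mem_iUnion, not_exists] at hc
  have h1 : ∀ i, x i ≠ 0 → v.val (x i) = 1 := by
    intro i hi
    have h2 := hc i (by simpa using hi)
    rw [Set.mem_ofPred_eq, not_not] at h2
    exact Real.eq_one_of_pos_of_log_eq_zero (v.val.pos hi) h2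
  obtain ⟨i, hi⟩ := Function.ne_iff.mp hx
  have hne : Nonempty ι := ⟨i⟩
  apply hv
  have h3 : ⨆ i, v.val (x i) = 1 := by
    apply le_antisymm
    · refine ciSup_le fun j => ?_
      rcases eq_or_ne (x j) 0 with h | h
      · rw [h, map_zero]
        exact zero_le_one
      · exact (h1 j h).le
    · calc (1 : ℝ) = v.val (x i) := (h1 i hi).symm
        _ ≤ _ := Finite.le_ciSup_of_le i le_rfl
  show Real.log (⨆ i, v.val (x i)) = 0
  rw [h3, Real.log_one]

theorem FS_log_max {L : Type*} [Field L] [AdmissibleAbsValues L] (x : L) :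
    FS (fun v : AbsoluteValue L ℝ => Real.log (max 1 (v x))) := by
  rcases eq_or_ne x 0 with h | h
  · simp [FS, h]
  · refine (FS_log_abv h).subset fun v hv => ?_
    intro h1
    have h2 : v.val x = 1 := Real.eq_one_of_pos_of_log_eq_zero (v.val.pos h) h1
    exact hv (by simp only [h2, max_self, Real.log_one])

theorem A4_hfs {L : Type*} [Field L] [AdmissibleAbsValues L] {f : AbsoluteValue L ℝ → ℝ}
    (hf : FS f) : Function.HasFiniteSupport
      (fun v : AdmissibleAbsValues.nonarchAbsVal (K := L) => f v.val) := hf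

theorem gs_add {L : Type*} [Field L] [AdmissibleAbsValues L] {f g : AbsoluteValue L ℝ → ℝ}
    (hf : FS f) (hg : FS g) : gs (fun v => f v + g v) = gs f + gs g := by
  unfold gs
  rw [Multiset.sum_map_add, finsum_add_distrib (A4_hfs hf) (A4_hfs hg)]
  ring

theorem gs_sub {L : Type*} [Field L] [AdmissibleAbsValues L] {f g : AbsoluteValue L ℝ → ℝ}
    (hf : FS f) (hg : FS g) : gs (fun v => f v - g v) = gs f - gs g := by
  unfold gs
  rw [Multiset.sum_map_sub, finsum_sub_distrib (A4_hfs hf) (A4_hfs hg)]
  ring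

theorem gs_const_mul {L : Type*} [Field L] [AdmissibleAbsValues L] {f : AbsoluteValue L ℝ → ℝ}
    (c : ℝ) : gs (fun v => c * f v) = c * gs f := by
  unfold gs
  rw [Multiset.sum_map_mul_left, mul_add]
  congr 1
  exact (smul_finsum c fun v : AdmissibleAbsValues.nonarchAbsVal (K := L) => f v.val).symm

theorem gs_sum {L : Type*} [Field L] [AdmissibleAbsValues L] {ι : Type*} (s : Finset ι)
    {f : ι → AbsoluteValue L ℝ → ℝ} (hf : ∀ i ∈ s, FS (f i)) :
    gs (fun v => ∑ i ∈ s, f i v) = ∑ i ∈ s, gs (f i) := by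
  classical
  induction s using Finset.induction_on with
  | empty => simp [gs]
  | insert a s ha ih =>
    simp only [Finset.sum_insert ha]
    rw [gs_add (hf a (Finset.mem_insert_self a s))
      (FS_sum s fun i hi => hf i (Finset.mem_insert_of_mem hi)),
      ih fun i hi => hf i (Finset.mem_insert_of_mem hi)]

/-- Monotonicity. -/
theorem gs_le {L : Type*} [Field L] [AdmissibleAbsValues L] {f g : AbsoluteValue L ℝ → ℝ}
    (hf : FS f) (hg : FS g) (h : ∀ v, Pl v → f v ≤ g v) : gs f ≤ gs g := by
  unfold gs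
  refine add_le_add ?_ ?_
  · exact Multiset.sum_map_le_sum_map f g fun v hv => h v (Or.inl hv)
  · exact finsum_le_finsum' (A4_hfs hf) (A4_hfs hg) fun v => h v.val (Or.inr v.property)

theorem gs_nonneg {L : Type*} [Field L] [AdmissibleAbsValues L] {f : AbsoluteValue L ℝ → ℝ}
    (h : ∀ v, Pl v → 0 ≤ f v) : 0 ≤ gs f := by
  unfold gs
  refine add_nonneg ?_ ?_
  · refine Multiset.sum_nonneg fun a ha => ?_
    obtain ⟨v, hv, rfl⟩ := Multiset.mem_map.mp ha
    exact h v (Or.inl hv)
  · exact finsum_nonneg fun v => h v.val (Or.inr v.property)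

theorem A4_gs_log {L : Type*} [Field L] [AdmissibleAbsValues L] (f : AbsoluteValue L ℝ → ℝ)
    (hf : ∀ v, 0 < f v) : gs (fun v => Real.log (f v)) =
      Real.log ((AdmissibleAbsValues.archAbsVal.map f).prod *
        ∏ᶠ v : AdmissibleAbsValues.nonarchAbsVal (K := L), f v.val) := by
  have h1 : (AdmissibleAbsValues.archAbsVal.map f).prod ≠ 0 := by
    intro h0
    rw [Multiset.prod_eq_zero_iff] at h0
    obtain ⟨v, _, hv⟩ := Multiset.mem_map.mp h0
    exact (hf v).ne' hv
  have h2 : ∏ᶠ v : AdmissibleAbsValues.nonarchAbsVal (K := L), f v.val ≠ 0 :=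
    (finprod_induction (fun t : ℝ => 0 < t) one_pos (fun _ _ ha hb => mul_pos ha hb)
      fun v => hf _).ne'
  rw [Real.log_mul h1 h2, Real.log_finprod fun v => hf _, Real.log_multiset_prod,
    Multiset.map_map]
  · rfl
  · intro a ha h0
    obtain ⟨v, _, hv⟩ := Multiset.mem_map.mp ha
    exact (hf v).ne' (hv.trans h0)

/-- Product formula. -/
theorem gs_log_abv {L : Type*} [Field L] [AdmissibleAbsValues L] {x : L} (hx : x ≠ 0) :
    gs (fun v => Real.log (v x)) = 0 := by
  have h1 := A4_gs_log (L := L) (fun v => v x) (fun v => v.pos hx)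
  rw [h1, AdmissibleAbsValues.product_formula hx, Real.log_one]

theorem gs_log_cst {L : Type*} [Field L] [AdmissibleAbsValues L] {n : ℕ} (hn : 1 ≤ n) :
    gs (fun v : AbsoluteValue L ℝ => Real.log (cst v n)) ≤ totalWeight L * Real.log n := by
  unfold gs
  have h0 : ∀ v : AdmissibleAbsValues.nonarchAbsVal (K := L), Real.log (cst v.val n) = 0 := by
    intro v
    unfold cst
    rw [if_pos (AdmissibleAbsValues.isNonarchimedean v.val v.property), Real.log_one]
  rw [finsum_congr h0, finsum_zero, add_zero]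
  have h1 := Multiset.sum_le_card_nsmul
    (Multiset.map (fun v : AbsoluteValue L ℝ => Real.log (cst v n))
      AdmissibleAbsValues.archAbsVal) (Real.log n) (by
      intro a ha
      obtain ⟨v, _, rfl⟩ := Multiset.mem_map.mp ha
      have h2 : (1 : ℝ) ≤ n := by exact_mod_cast hn
      show Real.log (cst v n) ≤ Real.log n
      unfold cst
      split_ifs
      · rw [Real.log_one]
        exact Real.log_nonneg h2
      · exact le_rfl)
  rw [Multiset.card_map, nsmul_eq_mul] at h1
  exact h1

theorem gs_log_iSup {L : Type*} [Field L] [AdmissibleAbsValues L] {ι : Type*} [Finite ι]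
    {x : ι → L} (hx : x ≠ 0) :
    gs (fun v => Real.log (⨆ i, v (x i))) = logHeight x := by
  have hpos : ∀ v : AbsoluteValue L ℝ, 0 < ⨆ i, v (x i) := by
    intro v
    obtain ⟨i, hi⟩ := Function.ne_iff.mp hx
    exact (v.pos hi).trans_le (Finite.le_ciSup_of_le i le_rfl)
  rw [A4_gs_log _ hpos, logHeight_eq_log_mulHeight, mulHeight_eq hx]

theorem gs_log_max {L : Type*} [Field L] [AdmissibleAbsValues L] (x : L) :
    gs (fun v => Real.log (max 1 (v x))) = logHeight₁ x := by
  rw [A4_gs_log (fun v => max 1 (v x)) (fun v => lt_max_of_lt_left one_pos),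
    logHeight₁_eq_log_mulHeight₁, mulHeight₁_eq]
  simp only [max_comm (1 : ℝ)]

end Pool.Agent.Lib.MP_17a322_nt.VJ
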