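import Pool.Agent.Lib.MP_17a322_nt.VJ.E4

/-!
Degrees of the elliptic forms.
-/

universe u

namespace Pool.Agent.Lib.MP_17a322_nt.VJ

open MvPolynomial Height
open Pool.Agent.Lib.MP_17a322_nt.RO

section

variable {K : Type*} [Field K] (W : WeierstrassCurve K)

/-- The value at `x` of the one-variable polynomials. Proof: `map_mu` for `Polynomial.aeval x`. -/
theorem aeval_mu_X {A : Type*} [CommRing A] [Algebra K A] (j : ℕ) (x : A) (i : Fin 2) :
    Polynomial.aeval x (mu W j ![(Polynomial.X : Polynomial K), 1] i) = mu W j ![x, 1] i := by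
  rw [map_mu]
  congr 1
  funext k
  fin_cases k
  · simp
  · simp

theorem E8_step (n : ℕ) (A B : Polynomial K) (hA : A.Monic) (hAn : A.natDegree = n)
    (hB : B.natDegree < n) :
    (dup W ![A, B] 0).Monic ∧ (dup W ![A, B] 0).natDegree = 4 * n ∧
      (dup W ![A, B] 1).natDegree < 4 * n ∧
      ∃ R : Polynomial K, dup W ![A, B] 1 = B * (4 * A ^ 3 + R) ∧ R.natDegree < 3 * n := by
  obtain ⟨m, rfl⟩ : ∃ m, n = m + 1 := ⟨n - 1, by omega⟩
  have hBm : B.natDegree ≤ m := by omega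
  have hAm : A.natDegree ≤ m + 1 := hAn.le
  have hb : ∀ k : K, ∀ i j : ℕ, (algebraMap K (Polynomial K) k * A ^ i * B ^ j).natDegree ≤
      0 + i * (m + 1) + j * m := by
    intro k i j
    refine Polynomial.natDegree_mul_le_of_le (Polynomial.natDegree_mul_le_of_le ?_ ?_) ?_
    · rw [← Polynomial.C_eq_algebraMap, Polynomial.natDegree_C]
    · exact Polynomial.natDegree_pow_le_of_le i hAm
    · exact Polynomial.natDegree_pow_le_of_le j hBm
  have e0 : dup W ![A, B] 0 = A ^ 4 - (algebraMap K (Polynomial K) W.b₄ * A ^ 2 * B ^ 2 +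
      algebraMap K (Polynomial K) (2 * W.b₆) * A ^ 1 * B ^ 3 +
      algebraMap K (Polynomial K) W.b₈ * A ^ 0 * B ^ 4) := by
    simp only [dup, Matrix.cons_val_zero, Matrix.cons_val_one, map_mul, map_ofNat]
    ring
  have e1 : dup W ![A, B] 1 = B * (4 * A ^ 3 +
      (algebraMap K (Polynomial K) W.b₂ * A ^ 2 * B ^ 1 +
        algebraMap K (Polynomial K) (2 * W.b₄) * A ^ 1 * B ^ 2 +
        algebraMap K (Polynomial K) W.b₆ * A ^ 0 * B ^ 3)) := by
    simp only [dup, ph, Matrix.cons_val_zero, Matrix.cons_val_one, map_mul, map_ofNat]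
    ring
  have h1 : (algebraMap K (Polynomial K) W.b₄ * A ^ 2 * B ^ 2 +
      algebraMap K (Polynomial K) (2 * W.b₆) * A ^ 1 * B ^ 3 +
      algebraMap K (Polynomial K) W.b₈ * A ^ 0 * B ^ 4).natDegree < 4 * (m + 1) := by
    refine lt_of_le_of_lt (Polynomial.natDegree_add_le_of_le (Polynomial.natDegree_add_le_of_le
      (hb _ 2 2) (hb _ 1 3)) (hb _ 0 4)) ?_
    simp only [max_lt_iff]
    omega
  have h2 : (algebraMap K (Polynomial K) W.b₂ * A ^ 2 * B ^ 1 +
        algebraMap K (Polynomial K) (2 * W.b₄) * A ^ 1 * B ^ 2 +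
        algebraMap K (Polynomial K) W.b₆ * A ^ 0 * B ^ 3).natDegree < 3 * (m + 1) := by
    refine lt_of_le_of_lt (Polynomial.natDegree_add_le_of_le (Polynomial.natDegree_add_le_of_le
      (hb _ 2 1) (hb _ 1 2)) (hb _ 0 3)) ?_
    simp only [max_lt_iff]
    omega
  have h3 : (4 * A ^ 3 : Polynomial K).natDegree ≤ 3 * (m + 1) := by
    have h4 : (4 : Polynomial K).natDegree ≤ 0 := by
      have : (4 : Polynomial K) = Polynomial.C 4 := (map_ofNat Polynomial.C 4).symm
      rw [this, Polynomial.natDegree_C]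
    have := Polynomial.natDegree_mul_le_of_le h4 (Polynomial.natDegree_pow_le_of_le 3 hAm)
    omega
  have h5 : (A ^ 4).natDegree = 4 * (m + 1) := by rw [hA.natDegree_pow, hAn]
  have h6 : (algebraMap K (Polynomial K) W.b₄ * A ^ 2 * B ^ 2 +
      algebraMap K (Polynomial K) (2 * W.b₆) * A ^ 1 * B ^ 3 +
      algebraMap K (Polynomial K) W.b₈ * A ^ 0 * B ^ 4).degree < (A ^ 4).degree := by
    rw [Polynomial.degree_eq_natDegree (hA.pow 4).ne_zero, h5]
    exact lt_of_le_of_lt Polynomial.degree_le_natDegree (by exact_mod_cast h1)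
  refine ⟨?_, ?_, ?_, _, e1, h2⟩
  · rw [e0]
    exact (hA.pow 4).sub_of_left h6
  · rw [e0, Polynomial.natDegree_sub_eq_left_of_natDegree_lt (by rw [h5]; exact h1), h5]
  · rw [e1]
    refine lt_of_le_of_lt (Polynomial.natDegree_mul_le_of_le hBm
      (Polynomial.natDegree_add_le_of_le h3 h2.le)) ?_
    rw [max_self]
    omega

/-- Induction with `mu_succ`: `A_{j+1} = A_j^4 - b₄ A_j^2 B_j^2 - 2 b₆ A_j B_j^3 - b₈ B_j^4` and
`B_{j+1} = B_j (4 A_j^3 + b₂ A_j^2 B_j + 2 b₄ A_j B_j^2 + b₆ B_j^3)`; simultaneously `A_j` is monic of degree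
`4 ^ j` and `natDegree B_j < 4 ^ j`. -/
theorem mu_X_degrees (j : ℕ) :
    (mu W j ![(Polynomial.X : Polynomial K), 1] 0).Monic ∧
      (mu W j ![(Polynomial.X : Polynomial K), 1] 0).natDegree = 4 ^ j ∧
        (mu W j ![(Polynomial.X : Polynomial K), 1] 1).natDegree < 4 ^ j := by
  induction j with
  | zero =>
    rw [mu_zero]
    refine ⟨?_, ?_, ?_⟩
    · exact Polynomial.monic_X
    · simp
    · simp
  | succ j ih =>
    obtain ⟨h1, h2, h3⟩ := ih
    have hv : mu W j ![(Polynomial.X : Polynomial K), 1] =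
        ![mu W j ![Polynomial.X, 1] 0, mu W j ![Polynomial.X, 1] 1] := by
      funext i
      fin_cases i <;> rfl
    have h := E8_step W (4 ^ j) _ _ h1 h2 h3
    rw [mu_succ, hv, pow_succ, mul_comm (4 ^ j) 4]
    exact ⟨h.1, h.2.1, h.2.2.1⟩

/-- In characteristic zero `B_j ≠ 0`: in the formula above the second factor has leading term
`4 X ^ (3 * 4 ^ j)`. -/
theorem mu_X_one_ne_zero [CharZero K] (j : ℕ) :
    mu W j ![(Polynomial.X : Polynomial K), 1] 1 ≠ 0 := by
  induction j with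
  | zero =>
    rw [mu_zero]
    exact one_ne_zero
  | succ j ih =>
    obtain ⟨h1, h2, h3⟩ := mu_X_degrees W j
    have hv : mu W j ![(Polynomial.X : Polynomial K), 1] =
        ![mu W j ![Polynomial.X, 1] 0, mu W j ![Polynomial.X, 1] 1] := by
      funext i
      fin_cases i <;> rfl
    obtain ⟨R, hR, hRn⟩ := (E8_step W (4 ^ j) _ _ h1 h2 h3).2.2.2
    rw [mu_succ, hv, hR]
    refine mul_ne_zero ih fun h0 => ?_
    have h4 := congrArg (fun q => Polynomial.coeff q (3 * 4 ^ j)) h0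
    have h5 : (4 : Polynomial K) = Polynomial.C 4 := (map_ofNat Polynomial.C 4).symm
    have h6 : (mu W j ![(Polynomial.X : Polynomial K), 1] 0 ^ 3).coeff (3 * 4 ^ j) = 1 := by
      have h7 := (h1.pow 3).coeff_natDegree
      rwa [h1.natDegree_pow, h2] at h7
    simp only [Polynomial.coeff_add, Polynomial.coeff_zero] at h4
    rw [Polynomial.coeff_eq_zero_of_natDegree_lt hRn, add_zero, h5, Polynomial.coeff_C_mul, h6] at h4
    norm_num at h4

/-- `A_j` and `B_j` are coprime: a common root `x` in an algebraic closure is the x-coordinate of a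
point `P` (`exists_affine_point`), and `mu W j P.xRep` is a nonzero multiple of `(2 ^ j • P).xRep`
(`mu_xRep`), so it is not the zero vector. -/
theorem mu_X_isCoprime [W.IsElliptic] (j : ℕ) :
    IsCoprime (mu W j ![(Polynomial.X : Polynomial K), 1] 0) (mu W j ![Polynomial.X, 1] 1) := by
  classical
  refine (Polynomial.isCoprime_iff_aeval_ne_zero_of_isAlgClosed K (AlgebraicClosure K) _ _).2 ?_
  intro x
  rw [aeval_mu_X, aeval_mu_X]
  obtain ⟨P, hP, hx⟩ := exists_affine_point (W.map (algebraMap K (AlgebraicClosure K))) x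
  obtain ⟨γ, hγ, h⟩ := mu_xRep W (W.map (algebraMap K (AlgebraicClosure K))) rfl j P
  rw [← hx, h]
  by_contra hcon
  push Not at hcon
  apply xRep_ne_zero (2 ^ j • P)
  funext i
  fin_cases i
  · exact (mul_eq_zero.1 hcon.1).resolve_left hγ
  · exact (mul_eq_zero.1 hcon.2).resolve_left hγ

/-- For every nonzero vector `p` the polynomial `A_j p_1 - B_j p_0` is not zero (its degree is `4 ^ j` if
`p_1 ≠ 0`). -/
theorem wd_mu_X_ne_zero [CharZero K] (j : ℕ) (p : Fin 2 → K) (hp : p ≠ 0) :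
    wd (mu W j ![(Polynomial.X : Polynomial K), 1]) (fun i => Polynomial.C (p i)) ≠ 0 := by
  obtain ⟨h1, h2, h3⟩ := mu_X_degrees W j
  change mu W j ![(Polynomial.X : Polynomial K), 1] 0 * Polynomial.C (p 1) -
    mu W j ![(Polynomial.X : Polynomial K), 1] 1 * Polynomial.C (p 0) ≠ 0
  by_cases hp1 : p 1 = 0
  · have hp0 : p 0 ≠ 0 := by
      intro hp0
      apply hp
      funext i
      fin_cases i
      · exact hp0
      · exact hp1
    rw [hp1, Polynomial.C_0, mul_zero, zero_sub, neg_ne_zero]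
    exact mul_ne_zero (mu_X_one_ne_zero W j) (Polynomial.C_ne_zero.2 hp0)
  · intro h0
    have h4 := congrArg (fun q => Polynomial.coeff q (4 ^ j)) h0
    have h5 : (mu W j ![(Polynomial.X : Polynomial K), 1] 0).coeff (4 ^ j) = 1 := by
      have := h1.coeff_natDegree
      rwa [h2] at this
    simp only [Polynomial.coeff_sub, Polynomial.coeff_mul_C, Polynomial.coeff_zero] at h4
    rw [h5, Polynomial.coeff_eq_zero_of_natDegree_lt h3, one_mul, zero_mul, sub_zero] at h4
    exact hp1 h4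

end

section

variable {F : Type*} [Field F] [CharZero F] [DecidableEq F] (V : WeierstrassCurve F)
  [V.IsElliptic]

/-- The equation `2 ^ j w = Q` has finitely many solutions: the x-coordinate of an affine solution
`w` is a root of `wd (mu V j ![X, 1]) Q.xRep ≠ 0` (`mu_xRep` for `K = L = F`), and every x belongs to
finitely many points. -/
theorem finite_two_pow_smul_eq (j : ℕ) (Q : V.toAffine.Point) :
    {w : V.toAffine.Point | 2 ^ j • w = Q}.Finite := by
  classical
  set D : Polynomial F := wd (mu V j ![(Polynomial.X : Polynomial F), 1])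
    (fun i => Polynomial.C (Q.xRep i)) with hD
  have hD0 : D ≠ 0 := wd_mu_X_ne_zero V j Q.xRep (xRep_ne_zero Q)
  have hS : (insert ![1, 0] ((fun x : F => (![x, 1] : Fin 2 → F)) '' {x | x ∈ D.roots})).Finite := by
    refine Set.Finite.insert _ (Set.Finite.image _ ?_)
    exact (D.roots.toFinset.finite_toSet).subset fun x hx => by simpa using hx
  have hfib : ∀ b ∈ (insert ![1, 0] ((fun x : F => (![x, 1] : Fin 2 → F)) '' {x | x ∈ D.roots})),
      ((fun w : V.toAffine.Point => w.xRep) ⁻¹' {b}).Finite := by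
    intro b _
    by_cases hne : ((fun w : V.toAffine.Point => w.xRep) ⁻¹' {b}).Nonempty
    · obtain ⟨P, hP⟩ := hne
      refine (Set.toFinite {P, -P}).subset fun w hw => ?_
      have h1 : w.xRep = P.xRep := by
        rw [Set.mem_preimage, Set.mem_singleton_iff] at hw hP
        rw [hw, hP]
      rcases WeierstrassCurve.Affine.Point.xRep_eq_xRep_iff.1 h1 with h | h
      · exact Or.inl h
      · exact Or.inr h
    · rw [Set.not_nonempty_iff_eq_empty.1 hne]
      exact Set.finite_empty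
  refine (hS.preimage' hfib).subset fun w hw => ?_
  have hw1 : 2 ^ j • w = Q := hw
  rw [Set.mem_preimage]
  by_cases h0 : w = 0
  · left
    rw [h0]
    exact xRep_zero
  · right
    refine ⟨w.xRep 0, ?_, (xRep_eq h0).symm⟩
    have hid : V.map (algebraMap F F) = V := map_self V
    obtain ⟨γ, _, h⟩ := mu_xRep V V hid j w
    rw [hw1, xRep_eq h0] at h
    rw [Set.mem_ofPred_eq, Polynomial.mem_roots hD0, Polynomial.IsRoot, hD]
    unfold wd
    rw [Polynomial.eval_sub, Polynomial.eval_mul, Polynomial.eval_mul, Polynomial.eval_C,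
      Polynomial.eval_C, ← Polynomial.coe_aeval_eq_eval, aeval_mu_X, aeval_mu_X, h]
    simp only [Pi.smul_apply, smul_eq_mul]
    ring

end

section

variable {K : Type*} [Field K] (W : Fin 2 → WeierstrassCurve K) (e : ℕ) (c : Fin 2 → Bool)

theorem E8_alg {σ : Type*} (y : σ) (k : K) :
    degreeOf y (algebraMap K (MvPolynomial σ K) k) ≤ 0 := by
  rw [MvPolynomial.algebraMap_eq, degreeOf_C]

theorem E8_num {σ : Type*} (y : σ) (n : ℕ) :
    degreeOf y (n : MvPolynomial σ K) ≤ 0 := by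
  rw [← MvPolynomial.C_eq_coe_nat, degreeOf_C]

theorem E8_mul {σ : Type*} {y : σ} {f g : MvPolynomial σ K} {a b : ℕ} (hf : degreeOf y f ≤ a)
    (hg : degreeOf y g ≤ b) : degreeOf y (f * g) ≤ a + b :=
  (degreeOf_mul_le y f g).trans (add_le_add hf hg)

theorem E8_pow {σ : Type*} {y : σ} {f : MvPolynomial σ K} {a : ℕ} (n : ℕ)
    (hf : degreeOf y f ≤ a) : degreeOf y (f ^ n) ≤ n * a :=
  (degreeOf_pow_le y f n).trans (Nat.mul_le_mul le_rfl hf)

theorem E8_add {σ : Type*} {y : σ} {f g : MvPolynomial σ K} {a : ℕ} (hf : degreeOf y f ≤ a)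
    (hg : degreeOf y g ≤ a) : degreeOf y (f + g) ≤ a :=
  (degreeOf_add_le y f g).trans (max_le hf hg)

theorem E8_sub {σ : Type*} {y : σ} {f g : MvPolynomial σ K} {a : ℕ} (hf : degreeOf y f ≤ a)
    (hg : degreeOf y g ≤ a) : degreeOf y (f - g) ≤ a :=
  (degreeOf_sub_le y f g).trans (max_le hf hg)

theorem E8_dup {σ : Type*} (W : WeierstrassCurve K) {y : σ} {r : ℕ}
    {R : Fin 2 → MvPolynomial σ K} (hR : ∀ i, degreeOf y (R i) ≤ r) (i : Fin 2) :
    degreeOf y (dup W R i) ≤ 4 * r := by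
  have h2 : degreeOf y (2 : MvPolynomial σ K) ≤ 0 := E8_num y 2
  have h4 : degreeOf y (4 : MvPolynomial σ K) ≤ 0 := E8_num y 4
  fin_cases i
  · change degreeOf y (R 0 ^ 4 - algebraMap K _ W.b₄ * R 0 ^ 2 * R 1 ^ 2 -
      2 * algebraMap K _ W.b₆ * R 0 * R 1 ^ 3 - algebraMap K _ W.b₈ * R 1 ^ 4) ≤ 4 * r
    refine E8_sub (E8_sub (E8_sub (E8_pow 4 (hR 0)) ?_) ?_) ?_
    · exact (E8_mul (E8_mul (E8_alg y _) (E8_pow 2 (hR 0))) (E8_pow 2 (hR 1))).trans (by omega)
    · exact (E8_mul (E8_mul (E8_mul h2 (E8_alg y _)) (hR 0)) (E8_pow 3 (hR 1))).trans (by omega)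
    · exact (E8_mul (E8_alg y _) (E8_pow 4 (hR 1))).trans (by omega)
  · change degreeOf y (R 1 * (4 * R 0 ^ 3 + algebraMap K _ W.b₂ * R 0 ^ 2 * R 1 +
      2 * algebraMap K _ W.b₄ * R 0 * R 1 ^ 2 + algebraMap K _ W.b₆ * R 1 ^ 3)) ≤ 4 * r
    have h : degreeOf y (4 * R 0 ^ 3 + algebraMap K _ W.b₂ * R 0 ^ 2 * R 1 +
      2 * algebraMap K _ W.b₄ * R 0 * R 1 ^ 2 + algebraMap K _ W.b₆ * R 1 ^ 3) ≤ 3 * r := by
      refine E8_add (E8_add (E8_add ?_ ?_) ?_) ?_
      · exact (E8_mul h4 (E8_pow 3 (hR 0))).trans (by omega)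
      · exact (E8_mul (E8_mul (E8_alg y _) (E8_pow 2 (hR 0))) (hR 1)).trans (by omega)
      · exact (E8_mul (E8_mul (E8_mul h2 (E8_alg y _)) (hR 0)) (E8_pow 2 (hR 1))).trans (by omega)
      · exact (E8_mul (E8_alg y _) (E8_pow 3 (hR 1))).trans (by omega)
    exact (E8_mul (hR 1) h).trans (by omega)

theorem E8_mu {σ : Type*} (W : WeierstrassCurve K) {y : σ} {r : ℕ}
    {R : Fin 2 → MvPolynomial σ K} (hR : ∀ i, degreeOf y (R i) ≤ r) (j : ℕ) (i : Fin 2) :
    degreeOf y (mu W j R i) ≤ 4 ^ j * r := by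
  induction j generalizing i with
  | zero =>
    rw [mu_zero, pow_zero, one_mul]
    exact hR i
  | succ j ih =>
    rw [mu_succ, pow_succ]
    exact (E8_dup W ih i).trans (by rw [mul_comm (4 ^ j) 4, mul_assoc])

theorem E8_S3 {σ : Type*} (W : WeierstrassCurve K) {y : σ} {r q z : ℕ}
    {R Q Z : Fin 2 → MvPolynomial σ K} (hR : ∀ i, degreeOf y (R i) ≤ r)
    (hQ : ∀ i, degreeOf y (Q i) ≤ q) (hZ : ∀ i, degreeOf y (Z i) ≤ z) :
    degreeOf y (S3 W R Q Z) ≤ 2 * r + 2 * q + 2 * z := by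
  have h2 : degreeOf y (2 : MvPolynomial σ K) ≤ 0 := E8_num y 2
  have hm : ∀ i k, degreeOf y (R i * Q k) ≤ r + q := fun i k => E8_mul (hR i) (hQ k)
  have h0 : degreeOf y (SV W R Q 0) ≤ 2 * r + 2 * q := by
    rw [SV_zero]
    refine E8_sub (E8_sub (E8_sub ?_ ?_) ?_) ?_
    · exact (E8_pow 2 (hm 0 0)).trans (by omega)
    · exact (E8_mul (E8_mul (E8_alg y _) (hm 0 0)) (hm 1 1)).trans (by omega)
    · exact (E8_mul (E8_mul (E8_alg y _) (E8_add (hm 0 1) (hm 1 0))) (hm 1 1)).trans (by omega)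
    · exact (E8_mul (E8_alg y _) (E8_pow 2 (hm 1 1))).trans (by omega)
  have h1 : degreeOf y (SV W R Q 1) ≤ 2 * r + 2 * q := by
    rw [SV_one]
    refine E8_add (E8_add (E8_add ?_ ?_) ?_) ?_
    · exact (E8_mul (E8_mul h2 (E8_add (hm 0 1) (hm 1 0))) (hm 0 0)).trans (by omega)
    · exact (E8_mul (E8_mul (E8_alg y _) (hm 0 0)) (hm 1 1)).trans (by omega)
    · exact (E8_mul (E8_mul (E8_alg y _) (E8_add (hm 0 1) (hm 1 0))) (hm 1 1)).trans (by omega)
    · exact (E8_mul (E8_alg y _) (E8_pow 2 (hm 1 1))).trans (by omega)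
  have h3 : degreeOf y (SV W R Q 2) ≤ 2 * r + 2 * q := by
    rw [SV_two]
    unfold wd
    exact (E8_pow 2 (E8_sub (hm 0 1) (hm 1 0))).trans (by omega)
  unfold S3 QF
  refine E8_add (E8_sub ?_ ?_) ?_
  · exact (E8_mul h0 (E8_pow 2 (hZ 1))).trans (by omega)
  · exact (E8_mul h1 (E8_mul (hZ 0) (hZ 1))).trans (by omega)
  · exact (E8_mul h3 (E8_pow 2 (hZ 0))).trans (by omega)

theorem E8_X {σ : Type*} [DecidableEq σ] (x y : σ) :
    degreeOf y (X x : MvPolynomial σ K) ≤ if y = x then 1 else 0 := by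
  rw [degreeOf_X]

theorem E8_vec {σ : Type*} [DecidableEq σ] (x y : σ) (i : Fin 2) :
    degreeOf y ((![(X x : MvPolynomial σ K), 1] : Fin 2 → _) i) ≤ if y = x then 1 else 0 := by
  fin_cases i
  · exact E8_X x y
  · change degreeOf y (1 : MvPolynomial σ K) ≤ _
    rw [degreeOf_one]
    exact Nat.zero_le _

theorem E8_vc {σ : Type*} [DecidableEq σ] (b : Bool) (x y : σ) (i : Fin 2) :
    degreeOf y (vc b (X x : MvPolynomial σ K) i) ≤ if y = x then 1 else 0 := by
  cases b
  · exact E8_vec x y i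
  · fin_cases i
    · change degreeOf y (1 : MvPolynomial σ K) ≤ _
      rw [degreeOf_one]
      exact Nat.zero_le _
    · exact E8_X x y

theorem E8_rel (t : Fin 2) (y : Fin 4 × Fin 2) :
    degreeOf y (rel W e c t) ≤ 2 * (4 ^ e * if y = (0, t) then 1 else 0) +
      2 * (if y = (1, t) then 1 else 0) + 2 * (if y = (2, t) then 1 else 0) :=
  E8_S3 (W t) (E8_mu (W t) (E8_vec _ _) e) (E8_vec _ _) (E8_vc _ _ _)

/-- Degrees of `rel W e c t`. Proof: `degreeOf_add_le`, `degreeOf_mul_le`, `degreeOf_pow_le` after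
`SV_zero`, `SV_one`, `SV_two`, with the bound `degreeOf (0, t) (mu (W t) e ![X (0, t), 1] i) ≤ 4 ^ e` (by
induction on `e`) and `0` for the other variables. -/
theorem degreeOf_rel_le (t : Fin 2) :
    (rel W e c t).degreeOf (0, t) ≤ 2 * 4 ^ e ∧ (rel W e c t).degreeOf (1, t) ≤ 2 ∧
      (rel W e c t).degreeOf (2, t) ≤ 2 := by
  refine ⟨(E8_rel W e c t _).trans ?_, (E8_rel W e c t _).trans ?_, (E8_rel W e c t _).trans ?_⟩
  · simp
  · simp
  · simp

theorem vars_rel_subset (t : Fin 2) :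
    (rel W e c t).vars ⊆ {(0, t), (1, t), (2, t)} := by
  intro y hy
  by_contra hcon
  simp only [Finset.mem_insert, Finset.mem_singleton, not_or] at hcon
  have h1 := E8_rel W e c t y
  rw [if_neg hcon.1, if_neg hcon.2.1, if_neg hcon.2.2] at h1
  have h2 : degreeOf y (rel W e c t) = 0 := by omega
  rw [degreeOf_def, Multiset.count_eq_zero] at h2
  apply h2
  rwa [MvPolynomial.vars_def, Multiset.mem_toFinset] at hy

theorem degreeOf_mu_le {σ : Type*} [DecidableEq σ] (W : WeierstrassCurve K) (j : ℕ) (y : σ)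
    (i : Fin 2) (t : σ) :
    (mu W j ![(X y : MvPolynomial σ K), 1] i).degreeOf t ≤ if t = y then 4 ^ j else 0 := by
  refine (E8_mu W (E8_vec y t) j i).trans ?_
  split_ifs <;> simp

/-- Value of `rel` at a point. -/
theorem aeval_rel {A : Type*} [CommRing A] [Algebra K A] (s : Fin 4 × Fin 2 → A) (t : Fin 2) :
    aeval s (rel W e c t) =
      S3 (W t) (mu (W t) e ![s (0, t), 1]) ![s (1, t), 1] (vc (c t) (s (2, t))) := by
  unfold rel
  rw [map_S3]
  congr 1
  · funext i
    rw [map_mu]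
    congr 1
    funext k
    fin_cases k
    · simp
    · simp
  · funext k
    fin_cases k
    · simp
    · simp
  · funext k
    cases c t
    · fin_cases k
      · simp [vc]
      · simp [vc]
    · fin_cases k
      · simp [vc]
      · simp [vc]

end

end Pool.Agent.Lib.MP_17a322_nt.VJ
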