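import Pool.Agent.Lib.MP_17a322_nt.VJ.A3
import Pool.Agent.Lib.MP_17a322_nt.VJ.A4

/-!
The height `nh` of a polynomial.
-/

namespace Pool.Agent.Lib.MP_17a322_nt.VJ

open MvPolynomial Height

/-- For `F ≠ 0` all nonzero coefficients have absolute value `1` at almost all nonarchimedean
places, so `NV v F = 1` there. -/
theorem FS_log_NV {L : Type*} [Field L] [AdmissibleAbsValues L] {σ : Type*}
    {F : MvPolynomial σ L} (hF : F ≠ 0) : FS (fun v => Real.log (NV v F)) := by
  classical
  have hfin : (⋃ m ∈ F.support,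
      {v : AdmissibleAbsValues.nonarchAbsVal (K := L) | Real.log (v.val (coeff m F)) ≠ 0}).Finite := by
    refine Set.Finite.biUnion (Finset.finite_toSet _) fun m hm => ?_
    exact FS_log_abv (mem_support_iff.mp hm)
  refine hfin.subset fun v hv => ?_
  by_contra hc
  simp only [Set.mem_iUnion, not_exists] at hc
  have h1 : ∀ m ∈ F.support, v.val (coeff m F) = 1 := by
    intro m hm
    have h2 := hc m hm
    rw [Set.mem_ofPred_eq, not_not] at h2
    exact Real.eq_one_of_pos_of_log_eq_zero (v.val.pos (mem_support_iff.mp hm)) h2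
  have hna := AdmissibleAbsValues.isNonarchimedean v.val v.property
  obtain ⟨m, hm⟩ := (support_nonempty (p := F)).mpr hF
  apply hv
  have h3 : NV v.val F = 1 := by
    apply le_antisymm
    · have h4 := NV_le_of_coeff v.val F zero_le_one (fun m => by
        by_cases hm : m ∈ F.support
        · exact (h1 m hm).le
        · rw [notMem_support_iff.mp hm, map_zero]
          exact zero_le_one)
      rw [cst, if_pos hna, one_mul] at h4
      exact h4
    · rw [← h1 m hm]
      exact coeff_le_NV v.val F m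
  show Real.log (NV v.val F) = 0
  rw [h3, Real.log_one]

/-- Proof: `NV v F ≥ v c` for a nonzero coefficient `c`, `gs_le` and the product formula. -/
theorem nh_nonneg {L : Type*} [Field L] [AdmissibleAbsValues L] {σ : Type*}
    {F : MvPolynomial σ L} (hF : F ≠ 0) : 0 ≤ nh F := by
  obtain ⟨m, hm⟩ := (support_nonempty (p := F)).mpr hF
  rw [← gs_log_abv (L := L) (mem_support_iff.mp hm)]
  unfold nh
  refine gs_le (FS_log_abv (mem_support_iff.mp hm)) (FS_log_NV hF) fun v _ => ?_
  exact Real.log_le_log (v.pos (mem_support_iff.mp hm)) (coeff_le_NV v F m)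

theorem nh_C_mul {L : Type*} [Field L] [AdmissibleAbsValues L] {σ : Type*}
    {F : MvPolynomial σ L} (hF : F ≠ 0) {c : L} (hc : c ≠ 0) : nh (C c * F) = nh F := by
  unfold nh
  have h1 : (fun v : AbsoluteValue L ℝ => Real.log (NV v (C c * F))) =
      fun v => Real.log (v c) + Real.log (NV v F) := by
    funext v
    rw [NV_C_mul, Real.log_mul (v.pos hc).ne' (NV_pos v hF).ne']
  rw [h1, gs_add (FS_log_abv hc) (FS_log_NV hF), gs_log_abv hc, zero_add]

theorem nh_mul_le {L : Type*} [Field L] [AdmissibleAbsValues L] {σ : Type*}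
    {F G : MvPolynomial σ L} (hF : F ≠ 0) (hG : G ≠ 0) : nh (F * G) ≤ nh F + nh G := by
  unfold nh
  rw [← gs_add (FS_log_NV hF) (FS_log_NV hG)]
  refine gs_le (FS_log_NV (mul_ne_zero hF hG)) (FS_add (FS_log_NV hF) (FS_log_NV hG))
    fun v _ => ?_
  rw [← Real.log_mul (NV_pos v hF).ne' (NV_pos v hG).ne']
  exact Real.log_le_log (NV_pos v (mul_ne_zero hF hG)) ((SN_NV v).mul F G)

theorem nh_pow_le {L : Type*} [Field L] [AdmissibleAbsValues L] {σ : Type*}
    {F : MvPolynomial σ L} (hF : F ≠ 0) (n : ℕ) : nh (F ^ n) ≤ n * nh F := by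
  unfold nh
  rw [← gs_const_mul]
  refine gs_le (FS_log_NV (pow_ne_zero n hF)) (FS_const_mul _ (FS_log_NV hF)) fun v _ => ?_
  rw [← Real.log_pow]
  exact Real.log_le_log (NV_pos v (pow_ne_zero n hF)) ((SN_NV v).pow_le F n)

theorem A5_vec_ne {L : Type*} [Field L] {σ : Type*} {F : MvPolynomial σ L} (hF : F ≠ 0) :
    (fun m : F.support => coeff (m : σ →₀ ℕ) F) ≠ 0 := by
  obtain ⟨m, hm⟩ := (support_nonempty (p := F)).mpr hF
  intro h0
  exact mem_support_iff.mp hm (congrFun h0 ⟨m, hm⟩)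

theorem ch_le_nh {L : Type*} [Field L] [AdmissibleAbsValues L] {σ : Type*}
    {F : MvPolynomial σ L} (hF : F ≠ 0) : ch F ≤ nh F := by
  have hx : (fun m : F.support => coeff (m : σ →₀ ℕ) F) ≠ 0 := A5_vec_ne hF
  unfold ch nh
  rw [← gs_log_iSup hx]
  refine gs_le (FS_log_iSup hx) (FS_log_NV hF) fun v _ => ?_
  obtain ⟨m, hm⟩ := (support_nonempty (p := F)).mpr hF
  have hne : Nonempty F.support := ⟨⟨m, hm⟩⟩
  refine Real.log_le_log ?_ (ciSup_le fun i => coeff_le_NV v F i)
  exact (v.pos (mem_support_iff.mp hm)).trans_le (Finite.le_ciSup_of_le ⟨m, hm⟩ le_rfl)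

theorem nh_le_ch {L : Type*} [Field L] [AdmissibleAbsValues L] {σ : Type*}
    {F : MvPolynomial σ L} (hF : F ≠ 0) :
    nh F ≤ ch F + totalWeight L * Real.log F.support.card := by
  have hx : (fun m : F.support => coeff (m : σ →₀ ℕ) F) ≠ 0 := A5_vec_ne hF
  obtain ⟨m, hm⟩ := (support_nonempty (p := F)).mpr hF
  have hcard : 1 ≤ F.support.card := Finset.card_pos.mpr ⟨m, hm⟩
  have hpos : ∀ v : AbsoluteValue L ℝ, 0 < ⨆ i : F.support, v (coeff (i : σ →₀ ℕ) F) :=
    fun v => (v.pos (mem_support_iff.mp hm)).trans_le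
      (Finite.le_ciSup_of_le (⟨m, hm⟩ : F.support) le_rfl)
  have hcpos : ∀ v : AbsoluteValue L ℝ, 0 < cst v F.support.card :=
    fun v => zero_lt_one.trans_le (one_le_cst v hcard)
  unfold ch nh
  rw [← gs_log_iSup hx]
  have h1 := gs_log_cst (L := L) hcard
  have h2 : gs (fun v => Real.log (NV v F)) ≤
      gs (fun v => Real.log (⨆ i : F.support, v (coeff (i : σ →₀ ℕ) F)) +
        Real.log (cst v F.support.card)) := by
    refine gs_le (FS_log_NV hF) (FS_add (FS_log_iSup hx) (FS_log_cst _)) fun v _ => ?_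
    rw [← Real.log_mul (hpos v).ne' (hcpos v).ne', mul_comm]
    refine Real.log_le_log (NV_pos v hF) (NV_le_of_coeff v F (hpos v).le fun k => ?_)
    by_cases hk : k ∈ F.support
    · exact Finite.le_ciSup_of_le (⟨k, hk⟩ : F.support) le_rfl
    · rw [notMem_support_iff.mp hk, map_zero]
      exact (hpos v).le
  rw [gs_add (FS_log_iSup hx) (FS_log_cst _)] at h2
  linarith

/-- Partial derivative (in the sense of the coefficients): if `NV v G ≤ cst v n * NV v F` for all places
then `nh G ≤ nh F + log n * totalWeight`. -/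
theorem nh_le_of_NV_le {L : Type*} [Field L] [AdmissibleAbsValues L] {σ τ : Type*}
    {F : MvPolynomial σ L} {G : MvPolynomial τ L} (hF : F ≠ 0) (hG : G ≠ 0) {n : ℕ} (hn : 1 ≤ n)
    (h : ∀ v : AbsoluteValue L ℝ, Pl v → NV v G ≤ cst v n * NV v F) :
    nh G ≤ nh F + totalWeight L * Real.log n := by
  have hcpos : ∀ v : AbsoluteValue L ℝ, 0 < cst v n :=
    fun v => zero_lt_one.trans_le (one_le_cst v hn)
  unfold nh
  have h1 := gs_log_cst (L := L) hn
  have h2 : gs (fun v => Real.log (NV v G)) ≤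
      gs (fun v => Real.log (NV v F) + Real.log (cst v n)) := by
    refine gs_le (FS_log_NV hG) (FS_add (FS_log_NV hF) (FS_log_cst _)) fun v hv => ?_
    rw [← Real.log_mul (NV_pos v hF).ne' (hcpos v).ne', mul_comm]
    exact Real.log_le_log (NV_pos v hG) (h v hv)
  rw [gs_add (FS_log_NV hF) (FS_log_cst _)] at h2
  linarith

/-- Height of a value: if `F(ξ) ≠ 0` then `0 ≤ nh F + ∑ d_t h(ξ_t)`. (Product formula and
`SN.aeval_le` for `SN_self`.) -/
theorem nh_eval_nonneg {L : Type*} [Field L] [AdmissibleAbsValues L] {σ : Type*} [Fintype σ]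
    (F : MvPolynomial σ L) (d : σ → ℕ) (hd : ∀ t, F.degreeOf t ≤ d t) (ξ : σ → L)
    (h : eval ξ F ≠ 0) : 0 ≤ nh F + ∑ t, (d t : ℝ) * logHeight₁ (ξ t) := by
  have hF : F ≠ 0 := by
    rintro rfl
    exact h (map_zero _)
  have hsum : FS (fun v : AbsoluteValue L ℝ =>
      ∑ t, (d t : ℝ) * Real.log (max 1 (v (ξ t)))) :=
    FS_sum _ fun t _ => FS_const_mul _ (FS_log_max _)
  have h2 : gs (fun v => Real.log (v (eval ξ F))) ≤
      gs (fun v => Real.log (NV v F) + ∑ t, (d t : ℝ) * Real.log (max 1 (v (ξ t)))) := by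
    refine gs_le (FS_log_abv h) (FS_add (FS_log_NV hF) hsum) fun v _ => ?_
    have h3 := (SN_self v).aeval_le F d hd ξ
    rw [show aeval ξ F = eval ξ F from rfl] at h3
    have h4 : ∀ t, (0 : ℝ) < (max 1 (v (ξ t))) ^ (d t) := fun t =>
      pow_pos (zero_lt_one.trans_le (le_max_left _ _)) _
    refine (Real.log_le_log (v.pos h) h3).trans (le_of_eq ?_)
    rw [Real.log_mul (NV_pos v hF).ne' (Finset.prod_pos fun t _ => h4 t).ne',
      Real.log_prod fun t _ => (h4 t).ne']
    simp only [Real.log_pow]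
  rw [gs_log_abv h, gs_add (FS_log_NV hF) hsum,
    gs_sum _ fun t _ => FS_const_mul _ (FS_log_max _)] at h2
  simp only [gs_const_mul, gs_log_max] at h2
  exact h2

theorem A5_root_key {L : Type*} [Field L] (v : AbsoluteValue L ℝ) {σ : Type*}
    [DecidableEq σ] (F : MvPolynomial σ L) (y : σ) (hy : F.vars ⊆ {y})
    (ξ : σ → L) (h : eval ξ F = 0) (m₀ : σ →₀ ℕ) (hm₀ : m₀ ∈ F.support)
    (hmax : ∀ m ∈ F.support, m y ≤ m₀ y) :
    v (coeff m₀ F) * max 1 (v (ξ y)) ≤ NV v F := by
  have hc := mem_support_iff.mp hm₀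
  have hz : ∀ m ∈ F.support, ∀ i, i ≠ y → m i = 0 := by
    intro m hm i hi
    by_contra h0
    have h1 : i ∈ F.vars := (mem_vars_iff_mem_support i).mpr ⟨m, hm, Finsupp.mem_support_iff.mpr h0⟩
    exact hi (Finset.mem_singleton.mp (hy h1))
  have hlt : ∀ m ∈ F.support.erase m₀, m y < m₀ y := by
    intro m hm
    obtain ⟨h1, h2⟩ := Finset.mem_erase.mp hm
    refine lt_of_le_of_ne (hmax m h2) fun h3 => h1 ?_
    ext i
    by_cases hi : i = y
    · rw [hi, h3]
    · rw [hz m h2 i hi, hz m₀ hm₀ i hi]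
  have hprod : ∀ m ∈ F.support, ∏ i ∈ m.support, ξ i ^ m i = ξ y ^ m y := by
    intro m hm
    have h1 : m.support ⊆ {y} := by
      intro i hi
      by_contra h0
      rw [Finset.mem_singleton] at h0
      exact Finsupp.mem_support_iff.mp hi (hz m hm i h0)
    rw [Finset.prod_subset h1 fun i _ hi => by
      rw [Finsupp.notMem_support_iff.mp hi, pow_zero], Finset.prod_singleton]
  rw [eval_eq, ← Finset.add_sum_erase _ _ hm₀, hprod m₀ hm₀, Finset.sum_congr rfl
    (fun m hm => by rw [hprod m (Finset.mem_of_mem_erase hm)])] at h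
  have h5 : v (coeff m₀ F) * v (ξ y) ^ m₀ y =
      v (∑ m ∈ F.support.erase m₀, coeff m F * ξ y ^ m y) := by
    rw [← map_pow, ← map_mul, eq_neg_of_add_eq_zero_left h, v.map_neg]
  rcases le_total (v (ξ y)) 1 with h1 | h1
  · rw [max_eq_left h1, mul_one]
    exact coeff_le_NV v F m₀
  · rw [max_eq_right h1]
    have hd : m₀ y ≠ 0 := by
      intro hd
      have h6 : F.support.erase m₀ = ∅ := by
        apply Finset.eq_empty_of_forall_notMem
        intro m hm
        have := hlt m hm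
        omega
      rw [h6, Finset.sum_empty, hd, pow_zero, mul_one, map_zero] at h5
      exact (v.pos hc).ne' h5
    have hvp : 0 < v (ξ y) := zero_lt_one.trans_le h1
    have h7 : v (∑ m ∈ F.support.erase m₀, coeff m F * ξ y ^ m y) ≤
        NV v F * v (ξ y) ^ (m₀ y - 1) := by
      have hterm : ∀ m ∈ F.support.erase m₀, v (coeff m F * ξ y ^ m y) ≤
          v (coeff m F) * v (ξ y) ^ (m₀ y - 1) := by
        intro m hm
        rw [map_mul, map_pow]
        refine mul_le_mul_of_nonneg_left (pow_le_pow_right₀ h1 ?_) (v.nonneg _)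
        have := hlt m hm
        omega
      by_cases hv : IsNonarchimedean v
      · refine SN.sum_le_max hv (SN_self v) _ _ (mul_nonneg ((v.nonneg _).trans
          (coeff_le_NV v F 0)) (pow_nonneg hvp.le _)) fun m hm => ?_
        exact (hterm m hm).trans (mul_le_mul_of_nonneg_right (coeff_le_NV v F m)
          (pow_nonneg hvp.le _))
      · refine ((SN_self v).sum_le_sum _ _).trans ?_
        refine (Finset.sum_le_sum hterm).trans ?_
        rw [← Finset.sum_mul]
        refine mul_le_mul_of_nonneg_right ?_ (pow_nonneg hvp.le _)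
        unfold NV
        rw [if_neg hv]
        exact Finset.sum_le_sum_of_subset_of_nonneg (Finset.erase_subset _ _)
          fun m _ _ => v.nonneg _
    rw [← h5] at h7
    have h8 : v (ξ y) ^ m₀ y = v (ξ y) * v (ξ y) ^ (m₀ y - 1) := by
      rw [← pow_succ']
      congr 1
      omega
    rw [h8, ← mul_assoc] at h7
    exact le_of_mul_le_mul_right h7 (pow_pos hvp _)

/-- Root bound: if `F ≠ 0` involves only the variable `y` and `F(ξ) = 0` then `h(ξ_y) ≤ nh F`.
Proof. Let `α = ξ y`, `d = degreeOf y F ≥ 1`, `c` the coefficient of `y^d`, and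
`c α^d = - ∑_{j<d} c_j α^j`. If `v α ≥ 1`: `v c * (v α)^d ≤ (∑_{j<d} v c_j) (v α)^(d-1)` (respectively with the
maximum), so `v c * v α ≤ NV v F`; if `v α ≤ 1`: `v c ≤ NV v F`. So
`log (v c) + log (max 1 (v α)) ≤ log (NV v F)` for every place, and `gs_log_abv`. -/
theorem logHeight_root_le {L : Type*} [Field L] [AdmissibleAbsValues L] {σ : Type*}
    [DecidableEq σ] (F : MvPolynomial σ L) (hF : F ≠ 0) (y : σ) (hy : F.vars ⊆ {y})
    (ξ : σ → L) (h : eval ξ F = 0) : logHeight₁ (ξ y) ≤ nh F := by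
  obtain ⟨m₀, hm₀, hmax⟩ := Finset.exists_max_image F.support (fun m => m y)
    ((support_nonempty (p := F)).mpr hF)
  have hc := mem_support_iff.mp hm₀
  have h2 : gs (fun v => Real.log (v (coeff m₀ F)) + Real.log (max 1 (v (ξ y)))) ≤
      gs (fun v => Real.log (NV v F)) := by
    refine gs_le (FS_add (FS_log_abv hc) (FS_log_max _)) (FS_log_NV hF) fun v _ => ?_
    have h4 : (0 : ℝ) < max 1 (v (ξ y)) := zero_lt_one.trans_le (le_max_left _ _)
    rw [← Real.log_mul (v.pos hc).ne' h4.ne']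
    exact Real.log_le_log (mul_pos (v.pos hc) h4) (A5_root_key v F y hy ξ h m₀ hm₀ hmax)
  rw [gs_add (FS_log_abv hc) (FS_log_max _), gs_log_abv hc, gs_log_max, zero_add] at h2
  exact h2

end Pool.Agent.Lib.MP_17a322_nt.VJ
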