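import Pool.Agent.Lib.MP_17a322_nt.VJ.A1

/-!
The size `NV v F` of a polynomial.
-/

namespace Pool.Agent.Lib.MP_17a322_nt.VJ

open MvPolynomial Height

theorem A2_na {L : Type*} [Field L] {v : AbsoluteValue L ℝ} (hv : IsNonarchimedean v) {σ : Type*}
    (F : MvPolynomial σ L) : NV v F = ⨆ m, v (coeff m F) := by
  unfold NV
  rw [if_pos hv]

theorem A2_ar {L : Type*} [Field L] {v : AbsoluteValue L ℝ} (hv : ¬ IsNonarchimedean v) {σ : Type*}
    (F : MvPolynomial σ L) : NV v F = ∑ m ∈ F.support, v (coeff m F) := by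
  unfold NV
  rw [if_neg hv]

theorem A2_ars {L : Type*} [Field L] {v : AbsoluteValue L ℝ} (hv : ¬ IsNonarchimedean v) {σ : Type*}
    (F : MvPolynomial σ L) (s : Finset (σ →₀ ℕ)) (hs : F.support ⊆ s) :
    NV v F = ∑ m ∈ s, v (coeff m F) := by
  rw [A2_ar hv]
  refine Finset.sum_subset hs (fun m _ hm => ?_)
  rw [notMem_support_iff.1 hm, map_zero]

theorem A2_bdd {L : Type*} [Field L] (v : AbsoluteValue L ℝ) {σ : Type*}
    (F : MvPolynomial σ L) : BddAbove (Set.range fun m => v (coeff m F)) := by
  refine ⟨∑ m ∈ F.support, v (coeff m F), ?_⟩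
  rintro _ ⟨m, rfl⟩
  by_cases hm : m ∈ F.support
  · exact Finset.single_le_sum (f := fun m => v (coeff m F)) (fun i _ => v.nonneg _) hm
  · have h1 : v (coeff m F) = 0 := by rw [notMem_support_iff.1 hm, map_zero]
    show v (coeff m F) ≤ _
    rw [h1]
    exact Finset.sum_nonneg (fun i _ => v.nonneg _)

theorem A2_coeff_le {L : Type*} [Field L] (v : AbsoluteValue L ℝ) {σ : Type*}
    (F : MvPolynomial σ L) (m : σ →₀ ℕ) : v (coeff m F) ≤ NV v F := by
  by_cases hv : IsNonarchimedean v
  · rw [A2_na hv]
    exact le_ciSup (A2_bdd v F) m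
  · rw [A2_ar hv]
    by_cases hm : m ∈ F.support
    · exact Finset.single_le_sum (f := fun m => v (coeff m F)) (fun i _ => v.nonneg _) hm
    · rw [notMem_support_iff.1 hm, map_zero]
      exact Finset.sum_nonneg (fun i _ => v.nonneg _)

theorem A2_nonneg {L : Type*} [Field L] (v : AbsoluteValue L ℝ) {σ : Type*}
    (F : MvPolynomial σ L) : 0 ≤ NV v F :=
  (v.nonneg _).trans (A2_coeff_le v F 0)

theorem A2_monomial {L : Type*} [Field L] (v : AbsoluteValue L ℝ) {σ : Type*} (m : σ →₀ ℕ)
    (c : L) : NV v (monomial m c) = v c := by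
  classical
  by_cases hv : IsNonarchimedean v
  · rw [A2_na hv]
    refine le_antisymm (ciSup_le fun n => ?_) ?_
    · rw [coeff_monomial]
      split_ifs
      · exact le_rfl
      · rw [map_zero]
        exact v.nonneg _
    · have h1 := le_ciSup (A2_bdd v (monomial m c)) m
      have h2 : coeff m (monomial m c) = c := by rw [coeff_monomial, if_pos rfl]
      simp only [h2] at h1
      exact h1
  · rw [A2_ars hv (monomial m c) {m} support_monomial_subset, Finset.sum_singleton, coeff_monomial, if_pos rfl]

theorem A2_add_max {L : Type*} [Field L] {v : AbsoluteValue L ℝ} (hv : IsNonarchimedean v) {σ : Type*}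
    (F G : MvPolynomial σ L) : NV v (F + G) ≤ max (NV v F) (NV v G) := by
  rw [A2_na hv (F + G)]
  refine ciSup_le fun m => ?_
  rw [coeff_add]
  exact (hv _ _).trans (max_le_max (A2_coeff_le v F m) (A2_coeff_le v G m))

theorem A2_add {L : Type*} [Field L] (v : AbsoluteValue L ℝ) {σ : Type*}
    (F G : MvPolynomial σ L) : NV v (F + G) ≤ NV v F + NV v G := by
  classical
  by_cases hv : IsNonarchimedean v
  · refine (A2_add_max hv F G).trans (max_le ?_ ?_)
    · have := A2_nonneg v G
      linarith
    · have := A2_nonneg v F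
      linarith
  · rw [A2_ars hv (F + G) (F.support ∪ G.support) support_add,
      A2_ars hv F (F.support ∪ G.support) Finset.subset_union_left,
      A2_ars hv G (F.support ∪ G.support) Finset.subset_union_right, ← Finset.sum_add_distrib]
    refine Finset.sum_le_sum (fun m _ => ?_)
    rw [coeff_add]
    exact v.add_le _ _

theorem A2_zero {L : Type*} [Field L] (v : AbsoluteValue L ℝ) {σ : Type*} :
    NV v (0 : MvPolynomial σ L) = 0 := by
  have h := A2_monomial v (0 : σ →₀ ℕ) (0 : L)
  rw [map_zero, map_zero] at h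
  exact h

theorem A2_sum {L : Type*} [Field L] (v : AbsoluteValue L ℝ) {σ : Type*} {ι : Type*} (s : Finset ι)
    (f : ι → MvPolynomial σ L) : NV v (∑ i ∈ s, f i) ≤ ∑ i ∈ s, NV v (f i) := by
  classical
  induction s using Finset.induction_on with
  | empty => rw [Finset.sum_empty, Finset.sum_empty, A2_zero]
  | insert a s ha ih =>
    rw [Finset.sum_insert ha, Finset.sum_insert ha]
    exact (A2_add v _ _).trans (by linarith)

theorem A2_C {L : Type*} [Field L] (v : AbsoluteValue L ℝ) {σ : Type*} (c : L) :
    NV v (C c : MvPolynomial σ L) = v c := by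
  rw [C_apply]
  exact A2_monomial v 0 c

/-- `NV v` is a seminorm on `MvPolynomial σ L`.
Proof. Nonarchimedean `v`: `NV v F = ⨆ m, v (coeff m F)` (the family is bounded, `coeff m F = 0` outside
of the finite support). Sum: `ciSup_le` and `le_ciSup`. Product: `coeff m (F * G)` is the sum of
`coeff a F * coeff b G` over the antidiagonal (`coeff_mul`), each term at most `NV F * NV G`, use
`IsNonarchimedean.apply_sum_le_sup` or `SN.sum_le_max` for `SN_self`. Otherwise
`NV v F = ∑ m ∈ support, v (coeff m F)`, which may be written as a `finsum`/`Finsupp.sum` or as a sum over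
any finite set containing the support. `F * G = ∑ ∑ monomial (a + b) (coeff a F * coeff b G)`, and
`NV` of a monomial is the absolute value of its coefficient. -/
theorem SN_NV {L : Type*} [Field L] (v : AbsoluteValue L ℝ) {σ : Type*} :
    SN v (fun F : MvPolynomial σ L => NV v F) := by
  classical
  refine ⟨fun F => A2_nonneg v F, A2_zero v, fun F => ?_, fun F G => A2_add v F G, fun hv F G => A2_add_max hv F G,
    fun F G => ?_, fun c => ?_⟩
  · by_cases hv : IsNonarchimedean v
    · show NV v (-F) = NV v F
      rw [A2_na hv, A2_na hv]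
      refine iSup_congr (fun m => ?_)
      rw [coeff_neg, v.map_neg]
    · show NV v (-F) = NV v F
      rw [A2_ar hv, A2_ar hv, support_neg]
      refine Finset.sum_congr rfl (fun m _ => ?_)
      rw [coeff_neg, v.map_neg]
  · by_cases hv : IsNonarchimedean v
    · show NV v (F * G) ≤ NV v F * NV v G
      rw [A2_na hv (F * G)]
      refine ciSup_le fun m => ?_
      rw [coeff_mul]
      refine SN.sum_le_max hv (SN_self v) _ _ (mul_nonneg (A2_nonneg v F) (A2_nonneg v G)) (fun x _ => ?_)
      show v (coeff x.1 F * coeff x.2 G) ≤ _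
      rw [map_mul]
      exact mul_le_mul (A2_coeff_le v F _) (A2_coeff_le v G _) (v.nonneg _) (A2_nonneg v F)
    · show NV v (F * G) ≤ NV v F * NV v G
      have h1 : F * G = ∑ m ∈ F.support, ∑ n ∈ G.support, monomial (m + n) (coeff m F * coeff n G) := by
        conv_lhs => rw [← support_sum_monomial_coeff F, ← support_sum_monomial_coeff G, Finset.sum_mul_sum]
        refine Finset.sum_congr rfl (fun m _ => Finset.sum_congr rfl (fun n _ => ?_))
        rw [monomial_mul]
      rw [h1]
      refine (A2_sum v _ _).trans ?_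
      rw [A2_ar hv F, A2_ar hv G, Finset.sum_mul_sum]
      refine Finset.sum_le_sum (fun m _ => (A2_sum v _ _).trans (Finset.sum_le_sum (fun n _ => ?_)))
      rw [A2_monomial, map_mul]
  · show NV v (algebraMap L (MvPolynomial σ L) c) ≤ v c
    rw [algebraMap_eq, A2_C]

theorem coeff_le_NV {L : Type*} [Field L] (v : AbsoluteValue L ℝ) {σ : Type*}
    (F : MvPolynomial σ L) (m : σ →₀ ℕ) : v (coeff m F) ≤ NV v F := by
  exact A2_coeff_le v F m

theorem NV_pos {L : Type*} [Field L] (v : AbsoluteValue L ℝ) {σ : Type*}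
    {F : MvPolynomial σ L} (hF : F ≠ 0) : 0 < NV v F := by
  obtain ⟨m, hm⟩ := MvPolynomial.ne_zero_iff.1 hF
  exact (v.pos hm).trans_le (A2_coeff_le v F m)

theorem NV_monomial {L : Type*} [Field L] (v : AbsoluteValue L ℝ) {σ : Type*} (m : σ →₀ ℕ)
    (c : L) : NV v (monomial m c) = v c := by
  exact A2_monomial v m c

theorem NV_C {L : Type*} [Field L] (v : AbsoluteValue L ℝ) {σ : Type*} (c : L) :
    NV v (C c : MvPolynomial σ L) = v c := by
  exact A2_C v c

theorem NV_X {L : Type*} [Field L] (v : AbsoluteValue L ℝ) {σ : Type*} (t : σ) :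
    NV v (X t : MvPolynomial σ L) = 1 := by
  have h : (X t : MvPolynomial σ L) = monomial (Finsupp.single t 1) 1 := rfl
  rw [h, A2_monomial, map_one]

theorem NV_C_mul {L : Type*} [Field L] (v : AbsoluteValue L ℝ) {σ : Type*} (c : L)
    (F : MvPolynomial σ L) : NV v (C c * F) = v c * NV v F := by
  by_cases hv : IsNonarchimedean v
  · rw [A2_na hv, A2_na hv, Real.mul_iSup_of_nonneg (v.nonneg c)]
    refine iSup_congr (fun m => ?_)
    rw [coeff_C_mul, map_mul]
  · rw [A2_ars hv (C c * F) F.support ?_, A2_ar hv F, Finset.mul_sum]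
    · refine Finset.sum_congr rfl (fun m _ => ?_)
      rw [coeff_C_mul, map_mul]
    · intro m hm
      rw [mem_support_iff, coeff_C_mul] at hm
      rw [mem_support_iff]
      exact right_ne_zero_of_mul hm

/-- `NV ≤ #support * max`. -/
theorem NV_le_of_coeff {L : Type*} [Field L] (v : AbsoluteValue L ℝ) {σ : Type*}
    (F : MvPolynomial σ L) {B : ℝ} (hB : 0 ≤ B) (h : ∀ m, v (coeff m F) ≤ B) :
    NV v F ≤ cst v F.support.card * B := by
  by_cases hv : IsNonarchimedean v
  · have h1 : cst v F.support.card = 1 := by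
      unfold cst
      rw [if_pos hv]
    rw [h1, one_mul, A2_na hv]
    exact ciSup_le h
  · have h1 : cst v F.support.card = F.support.card := by
      unfold cst
      rw [if_neg hv]
    rw [h1, A2_ar hv]
    have h2 := Finset.sum_le_card_nsmul F.support (fun m => v (coeff m F)) B (fun m _ => h m)
    rw [nsmul_eq_mul] at h2
    exact h2

/-- Some coefficient has size at least `NV v F / #support`. -/
theorem exists_coeff_ge {L : Type*} [Field L] (v : AbsoluteValue L ℝ) {σ : Type*}
    (F : MvPolynomial σ L) (hF : F ≠ 0) :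
    ∃ m ∈ F.support, NV v F ≤ cst v F.support.card * v (coeff m F) := by
  obtain ⟨m, hm, hmax⟩ := Finset.exists_max_image F.support (fun m => v (coeff m F))
    (support_nonempty.2 hF)
  refine ⟨m, hm, NV_le_of_coeff v F (v.nonneg _) (fun n => ?_)⟩
  by_cases hn : n ∈ F.support
  · exact hmax n hn
  · rw [notMem_support_iff.1 hn, map_zero]
    exact v.nonneg _

/-- A polynomial all of whose coefficients are among those of `F` (or zero). -/
theorem NV_le_of_injOn {L : Type*} [Field L] (v : AbsoluteValue L ℝ) {σ τ : Type*}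
    (F : MvPolynomial σ L) (G : MvPolynomial τ L) (f : (τ →₀ ℕ) → (σ →₀ ℕ))
    (hf : Set.InjOn f G.support) (h : ∀ m ∈ G.support, coeff m G = coeff (f m) F) :
    NV v G ≤ NV v F := by
  classical
  by_cases hv : IsNonarchimedean v
  · rw [A2_na hv G]
    refine ciSup_le fun m => ?_
    by_cases hm : m ∈ G.support
    · rw [h m hm]
      exact A2_coeff_le v F _
    · rw [notMem_support_iff.1 hm, map_zero]
      exact A2_nonneg v F
  · rw [A2_ar hv G, A2_ar hv F]
    have h1 : ∑ m ∈ G.support, v (coeff m G) = ∑ n ∈ G.support.image f, v (coeff n F) := by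
      rw [Finset.sum_image (fun x hx y hy => hf hx hy)]
      exact Finset.sum_congr rfl (fun m hm => by rw [h m hm])
    rw [h1]
    refine Finset.sum_le_sum_of_subset_of_nonneg ?_ (fun n _ _ => v.nonneg _)
    intro n hn
    obtain ⟨m, hm, rfl⟩ := Finset.mem_image.1 hn
    rw [mem_support_iff, ← h m hm]
    exact mem_support_iff.1 hm

theorem NV_rename {L : Type*} [Field L] (v : AbsoluteValue L ℝ) {σ τ : Type*}
    (F : MvPolynomial σ L) (f : σ → τ) (hf : Function.Injective f) :
    NV v (rename f F) = NV v F := by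
  classical
  refine le_antisymm ?_ ?_
  · refine NV_le_of_injOn v F (rename f F) (fun m => Finsupp.comapDomain f m hf.injOn) ?_ ?_
    · intro m hm n hn hmn
      rw [support_rename_of_injective hf] at hm hn
      obtain ⟨d, _, rfl⟩ := Finset.mem_image.1 hm
      obtain ⟨e, _, rfl⟩ := Finset.mem_image.1 hn
      have h1 : Finsupp.comapDomain f (Finsupp.mapDomain f d) hf.injOn =
        Finsupp.comapDomain f (Finsupp.mapDomain f e) hf.injOn := hmn
      rw [Finsupp.comapDomain_mapDomain _ hf, Finsupp.comapDomain_mapDomain _ hf] at h1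
      rw [h1]
    · intro m hm
      rw [support_rename_of_injective hf] at hm
      obtain ⟨d, _, rfl⟩ := Finset.mem_image.1 hm
      rw [Finsupp.comapDomain_mapDomain _ hf, coeff_rename_mapDomain f hf]
  · refine NV_le_of_injOn v (rename f F) F (Finsupp.mapDomain f) (Finsupp.mapDomain_injective hf).injOn ?_
    intro m _
    rw [coeff_rename_mapDomain f hf]

/-- The number of monomials is at most `∏ (deg_t + 1)`. -/
theorem card_support_le {L : Type*} [Field L] {σ : Type*} [Fintype σ] [DecidableEq σ]
    (F : MvPolynomial σ L) (d : σ → ℕ) (hd : ∀ t, F.degreeOf t ≤ d t) :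
    F.support.card ≤ ∏ t, (d t + 1) := by
  have h1 : F.support.card ≤ (Fintype.piFinset (fun t => Finset.range (d t + 1))).card := by
    refine Finset.card_le_card_of_injOn (fun m => (m : σ → ℕ)) (fun m hm => ?_) (fun m _ n _ h => DFunLike.coe_injective h)
    rw [Finset.mem_coe, Fintype.mem_piFinset]
    intro t
    rw [Finset.mem_range]
    have h2 := monomial_le_degreeOf t (Finset.mem_coe.1 hm)
    have h3 := hd t
    show m t < d t + 1
    omega
  rw [Fintype.card_piFinset] at h1
  refine h1.trans (le_of_eq (Finset.prod_congr rfl (fun t _ => ?_)))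
  rw [Finset.card_range]

/-- Same, with `2 ^ ∑ deg_t`. -/
theorem card_support_le_two_pow {L : Type*} [Field L] {σ : Type*} [Fintype σ] [DecidableEq σ]
    (F : MvPolynomial σ L) : F.support.card ≤ 2 ^ ∑ t, F.degreeOf t := by
  refine (card_support_le F (fun t => F.degreeOf t) (fun t => le_rfl)).trans ?_
  rw [← Finset.prod_pow_eq_pow_sum]
  refine Finset.prod_le_prod (fun t _ => Nat.zero_le _) (fun t _ => ?_)
  exact Nat.lt_two_pow_self

end Pool.Agent.Lib.MP_17a322_nt.VJ
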