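import Pool.Agent.Lib.MP_17a322_nt.RV.U1
import Pool.Agent.Lib.MP_17a322_nt.VJ.A2
import Pool.Agent.Lib.MP_17a322_nt.VJ.A4

/-!
Base change for the height of polynomials and for sums over places.
-/

universe u

namespace Pool.Agent.Lib.MP_17a322_nt.VJ

open MvPolynomial Height NumberField

theorem finrank_le {K L : Type*} [Field K] [NumberField K] [Field L] [NumberField L]
    [Algebra K L] : (Module.finrank K L : ℝ) ≤ Module.finrank ℚ L := by
  have h := Module.finrank_mul_finrank ℚ K L
  have h1 : 1 ≤ Module.finrank ℚ K := Module.finrank_pos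
  have h2 : Module.finrank K L ≤ Module.finrank ℚ L := by
    rw [← h]
    exact Nat.le_mul_of_pos_left _ h1
  exact_mod_cast h2

/-- `[L : ℚ] = [L : K] [K : ℚ]`. -/
theorem finrank_eq_mul {K L : Type*} [Field K] [NumberField K] [Field L] [NumberField L]
    [Algebra K L] :
    (Module.finrank ℚ L : ℝ) = Module.finrank K L * Module.finrank ℚ K := by
  have h := Module.finrank_mul_finrank ℚ K L
  rw [← h]
  push_cast
  ring

/-- Sums over the archimedean places as sums over the embeddings. -/
theorem A7_sum_mult {K : Type*} [Field K] [NumberField K] (g : AbsoluteValue K ℝ → ℝ) :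
    ((AdmissibleAbsValues.archAbsVal (K := K)).map g).sum =
      ∑ φ : K →+* ℂ, g (InfinitePlace.mk φ).val := by
  classical
  rw [NumberField.sum_archAbsVal_eq,
    ← Finset.sum_fiberwise Finset.univ InfinitePlace.mk (fun φ => g (InfinitePlace.mk φ).val)]
  refine Finset.sum_congr rfl fun v _ => ?_
  rw [Finset.sum_congr rfl (g := fun _ => g v.val)
    (fun φ hφ => by rw [(Finset.mem_filter.mp hφ).2]), Finset.sum_const,
    InfinitePlace.card_filter_mk_eq]

/-- Archimedean sums over an extension. -/
theorem A7_arch {K L : Type*} [Field K] [NumberField K] [Field L] [NumberField L] [Algebra K L]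
    (g : AbsoluteValue K ℝ → ℝ) (h : AbsoluteValue L ℝ → ℝ)
    (hgh : ∀ φ : L →+* ℂ, h (InfinitePlace.mk φ).val =
      g (InfinitePlace.mk (φ.comp (algebraMap K L))).val) :
    ((AdmissibleAbsValues.archAbsVal (K := L)).map h).sum =
      Module.finrank K L * ((AdmissibleAbsValues.archAbsVal (K := K)).map g).sum := by
  classical
  rw [A7_sum_mult, A7_sum_mult, ← Finset.sum_fiberwise Finset.univ
    (fun φ : L →+* ℂ => φ.comp (algebraMap K L)) (fun φ : L →+* ℂ => h (InfinitePlace.mk φ).val),
    Finset.mul_sum]
  refine Finset.sum_congr rfl fun ψ _ => ?_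
  rw [Finset.sum_congr rfl (g := fun _ => g (InfinitePlace.mk ψ).val) (fun φ hφ => ?_),
    Finset.sum_const, nsmul_eq_mul]
  · congr 2
    exact RV.U1_card_fiber ψ
  · rw [hgh, (Finset.mem_filter.mp hφ).2]

theorem A7_not_nonarch {K : Type*} [Field K] (φ : K →+* ℂ) :
    ¬ IsNonarchimedean (InfinitePlace.mk φ).val := by
  intro h
  have h1 := h 1 1
  have e : ∀ x : K, (InfinitePlace.mk φ).val x = ‖φ x‖ := fun x => InfinitePlace.apply φ x
  rw [e, e] at h1
  rw [map_add, map_one, max_self, norm_one] at h1
  norm_num at h1

theorem A7_apply {K L : Type*} [Field K] [Field L] [Algebra K L] (φ : L →+* ℂ) (x : K) :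
    (InfinitePlace.mk φ).val (algebraMap K L x) =
      (InfinitePlace.mk (φ.comp (algebraMap K L))).val x := by
  have e1 : (InfinitePlace.mk φ).val (algebraMap K L x) = ‖φ (algebraMap K L x)‖ :=
    InfinitePlace.apply φ _
  have e2 : (InfinitePlace.mk (φ.comp (algebraMap K L))).val x = ‖φ.comp (algebraMap K L) x‖ :=
    InfinitePlace.apply _ _
  rw [e1, e2, RingHom.comp_apply]

theorem A7_support {K L : Type*} [Field K] [Field L] [Algebra K L] {σ : Type*}
    (F : MvPolynomial σ K) : (MvPolynomial.map (algebraMap K L) F).support = F.support :=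
  MvPolynomial.support_map_of_injective F (algebraMap K L).injective

theorem A7_NV {K L : Type*} [Field K] [Field L] [Algebra K L] {σ : Type*}
    (F : MvPolynomial σ K) (φ : L →+* ℂ) :
    NV (InfinitePlace.mk φ).val (MvPolynomial.map (algebraMap K L) F) =
      NV (InfinitePlace.mk (φ.comp (algebraMap K L))).val F := by
  unfold NV
  rw [if_neg (A7_not_nonarch _), if_neg (A7_not_nonarch _), A7_support]
  refine Finset.sum_congr rfl fun m _ => ?_
  rw [coeff_map, A7_apply]

/-- Nonarchimedean places: `NV` is the maximum. -/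
theorem A7_NV_nonarch {L : Type*} [Field L] {v : AbsoluteValue L ℝ} (hv : IsNonarchimedean v)
    {σ : Type*} {F : MvPolynomial σ L} (hF : F ≠ 0) :
    NV v F = ⨆ m : F.support, v (coeff (m : σ →₀ ℕ) F) := by
  have hb : BddAbove (Set.range fun m : F.support => v (coeff (m : σ →₀ ℕ) F)) :=
    Set.Finite.bddAbove (Set.finite_range _)
  have h0 : 0 ≤ ⨆ m : F.support, v (coeff (m : σ →₀ ℕ) F) :=
    Real.iSup_nonneg fun m => v.nonneg _
  have hne : Nonempty F.support := by
    obtain ⟨m, hm⟩ := MvPolynomial.support_nonempty.2 hF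
    exact ⟨⟨m, hm⟩⟩
  apply le_antisymm
  · have h1 := NV_le_of_coeff v F h0 (fun m => by
      by_cases hm : m ∈ F.support
      · exact le_ciSup hb ⟨m, hm⟩
      · rw [notMem_support_iff.1 hm, map_zero]
        exact h0)
    have h2 : cst v F.support.card = 1 := by simp [cst, hv]
    rwa [h2, one_mul] at h1
  · exact ciSup_le fun m => coeff_le_NV v F m

theorem A7_max_NV_nonarch {L : Type*} [Field L] {v : AbsoluteValue L ℝ} (hv : IsNonarchimedean v)
    {σ : Type*} (F : MvPolynomial σ L) :
    max 1 (NV v F) = ⨆ o : Option F.support,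
      v (o.elim 1 fun m => coeff (m : σ →₀ ℕ) F) := by
  have hb : BddAbove (Set.range fun o : Option F.support =>
      v (o.elim 1 fun m => coeff (m : σ →₀ ℕ) F)) :=
    Set.Finite.bddAbove (Set.finite_range _)
  have h1 : 1 ≤ ⨆ o : Option F.support, v (o.elim 1 fun m => coeff (m : σ →₀ ℕ) F) := by
    refine le_trans ?_ (le_ciSup hb none)
    simp
  apply le_antisymm
  · refine max_le h1 ?_
    have h2 := NV_le_of_coeff v F (zero_le_one.trans h1) (fun m => by
      by_cases hm : m ∈ F.support
      · exact le_ciSup hb (some ⟨m, hm⟩)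
      · rw [notMem_support_iff.1 hm, map_zero]
        exact zero_le_one.trans h1)
    have h3 : cst v F.support.card = 1 := by simp [cst, hv]
    rwa [h3, one_mul] at h2
  · refine ciSup_le fun o => ?_
    cases o with
    | none => simp
    | some m => exact (coeff_le_NV v F m).trans (le_max_right _ _)

theorem A7_gs {L : Type*} [Field L] [AdmissibleAbsValues L] {f g : AbsoluteValue L ℝ → ℝ}
    (h : ∀ v : AbsoluteValue L ℝ, IsNonarchimedean v → f v = g v) :
    gs f = (AdmissibleAbsValues.archAbsVal.map f).sum -
      (AdmissibleAbsValues.archAbsVal.map g).sum + gs g := by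
  unfold gs
  have e : (∑ᶠ v : AdmissibleAbsValues.nonarchAbsVal (K := L), f v.val) =
      ∑ᶠ v : AdmissibleAbsValues.nonarchAbsVal (K := L), g v.val :=
    finsum_congr fun v => h _ (AdmissibleAbsValues.isNonarchimedean _ v.2)
  rw [e]
  ring

/-- The height of a polynomial over an extension.
Proof. Archimedean part: for a place `w` of `L` above `v` one has `NV w (map F) = NV v F` (the
absolute values of the coefficients are the same), and the sum over the embeddings of `L` is the sum
over the embeddings of `K`, each counted `[L : K]` times, as in RV/U1 (`U1_prod_mult`,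
`U1_card_fiber`, proof of `U1_arch`). Nonarchimedean part: there `NV` is the maximum of the absolute
values of the coefficients; so it is `logHeight_algebraMap` (RV/U1) for the vector of the coefficients,
minus the archimedean part `U1_arch`. -/
theorem nh_map {K L : Type u} [Field K] [NumberField K] [Field L] [NumberField L] [Algebra K L]
    {σ : Type*} (F : MvPolynomial σ K) :
    nh (MvPolynomial.map (algebraMap K L) F) = Module.finrank K L * nh F := by
  classical
  by_cases hF : F = 0
  · subst hF
    have h0 : ∀ (L' : Type u) [Field L'] [NumberField L'], nh (0 : MvPolynomial σ L') = 0 := by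
      intro L' _ _
      have e : ∀ v : AbsoluteValue L' ℝ, Real.log (NV v (0 : MvPolynomial σ L')) = 0 := by
        intro v
        have h1 := NV_C v (σ := σ) (0 : L')
        rw [map_zero, map_zero] at h1
        rw [h1, Real.log_zero]
      unfold nh gs
      simp [e]
    rw [map_zero, h0, h0, mul_zero]
  · have hG : MvPolynomial.map (algebraMap K L) F ≠ 0 := by
      intro h
      apply hF
      exact (MvPolynomial.map_injective _ (algebraMap K L).injective) (by rw [h, map_zero])
    let y : F.support → K := fun m => coeff (m : σ →₀ ℕ) F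
    have hy : y ≠ 0 := by
      obtain ⟨m, hm⟩ := MvPolynomial.support_nonempty.2 hF
      intro h
      exact (mem_support_iff.1 hm) (congrFun h ⟨m, hm⟩)
    have hz : (fun m => algebraMap K L (y m)) ≠ 0 := by
      intro h
      apply hy
      funext m
      exact (map_eq_zero_iff _ (algebraMap K L).injective).1 (congrFun h m)
    have e1 : ∀ v : AbsoluteValue K ℝ, IsNonarchimedean v →
        Real.log (NV v F) = Real.log (⨆ m, v (y m)) := fun v hv => by
      rw [A7_NV_nonarch hv hF]
    have e2 : ∀ w : AbsoluteValue L ℝ, IsNonarchimedean w →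
        Real.log (NV w (MvPolynomial.map (algebraMap K L) F)) =
          Real.log (⨆ m, w (algebraMap K L (y m))) := fun w hw => by
      rw [A7_NV_nonarch hw hG]
      congr 1
      have hs : (MvPolynomial.map (algebraMap K L) F).support = F.support := A7_support F
      refine Equiv.iSup_congr (Equiv.subtypeEquivRight fun m => by rw [hs]) fun m => ?_
      rw [coeff_map]
      rfl
    unfold nh
    rw [A7_gs e1, A7_gs e2, gs_log_iSup hy, gs_log_iSup hz, RV.logHeight_algebraMap,
      A7_arch (K := K) (L := L) (fun v => Real.log (NV v F)) _ (fun φ => by rw [A7_NV]),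
      A7_arch (K := K) (L := L) (fun v => Real.log (⨆ m, v (y m))) _
        (fun φ => by simp only [A7_apply])]
    ring

/-- Heights of elements over an extension. -/
theorem logHeight₁_algebraMap {K L : Type u} [Field K] [NumberField K] [Field L] [NumberField L]
    [Algebra K L] (x : K) :
    logHeight₁ (algebraMap K L x) = Module.finrank K L * logHeight₁ x := by
  have e : ![algebraMap K L x, 1] = fun i => algebraMap K L (![x, 1] i) := by
    funext i
    fin_cases i
    · rfl
    · simp
  rw [logHeight₁_eq_logHeight, logHeight₁_eq_logHeight, e, RV.logHeight_algebraMap]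

theorem FS_log_max_NV {K L : Type u} [Field K] [NumberField K] [Field L] [NumberField L]
    [Algebra K L] {σ : Type*} (F : MvPolynomial σ K) :
    FS (fun w : AbsoluteValue L ℝ =>
      Real.log (max 1 (NV w (MvPolynomial.map (algebraMap K L) F)))) := by
  let G := MvPolynomial.map (algebraMap K L) F
  let y : Option G.support → L := fun o => o.elim 1 fun m => coeff (m : σ →₀ ℕ) G
  have hy : y ≠ 0 := fun h => one_ne_zero (congrFun h none)
  have h1 := FS_log_iSup hy
  unfold FS at h1 ⊢
  refine h1.subset fun v hv => ?_
  have h2 := A7_max_NV_nonarch (AdmissibleAbsValues.isNonarchimedean _ v.2) G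
  change Real.log (max 1 (NV v.val G)) ≠ 0 at hv
  change Real.log (⨆ o : Option G.support, v.val (o.elim 1 fun m => coeff (m : σ →₀ ℕ) G)) ≠ 0
  rw [h2] at hv
  exact hv

/-- Proof. `NV w (map F) ≤ cst w n * max |coeff|` with `n = #support`, so
`max 1 (NV w (map F)) ≤ cst w (n + 1) * ⨆ i, w (y i)` for the vector `y` of the coefficients of `F` and
of `1`; then `gs_log_iSup`, `logHeight_algebraMap`, `gs_log_cst`, `totalWeight = [L : ℚ]`
(`totalWeight_eq_finrank`) and `finrank_le`. -/
theorem gs_log_max_NV_le {K : Type u} [Field K] [NumberField K] {σ : Type*}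
    (F : MvPolynomial σ K) :
    ∃ C : ℝ, 0 ≤ C ∧ ∀ (L : Type u) [Field L] [NumberField L] [Algebra K L],
      gs (fun w : AbsoluteValue L ℝ =>
        Real.log (max 1 (NV w (MvPolynomial.map (algebraMap K L) F)))) ≤
        C * Module.finrank ℚ L := by
  classical
  let y : Option F.support → K := fun o => o.elim 1 fun m => coeff (m : σ →₀ ℕ) F
  refine ⟨Real.log ((F.support.card + 1 : ℕ) : ℝ) + logHeight y,
    add_nonneg (Real.log_natCast_nonneg _) (logHeight_nonneg _), ?_⟩
  intro L _ _ _
  have hz : (fun o => algebraMap K L (y o)) ≠ 0 := by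
    intro h
    have h1 := congrFun h none
    have h2 : algebraMap K L (y none) = 1 := map_one _
    rw [h2] at h1
    exact one_ne_zero h1
  have f1 := FS_log_cst (L := L) (F.support.card + 1)
  have f2 := FS_log_iSup hz
  have h1 : gs (fun w : AbsoluteValue L ℝ =>
        Real.log (max 1 (NV w (MvPolynomial.map (algebraMap K L) F)))) ≤
      gs (fun w : AbsoluteValue L ℝ => Real.log (cst w (F.support.card + 1)) +
        Real.log (⨆ o, w (algebraMap K L (y o)))) := by
    refine gs_le (FS_log_max_NV F) (FS_add f1 f2) fun w _ => ?_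
    have hb : BddAbove (Set.range fun o => w (algebraMap K L (y o))) :=
      Set.Finite.bddAbove (Set.finite_range _)
    have g1 : 1 ≤ ⨆ o, w (algebraMap K L (y o)) := by
      refine le_trans ?_ (le_ciSup hb none)
      have : algebraMap K L (y none) = 1 := map_one _
      rw [this, map_one]
    have g0 : 0 ≤ ⨆ o, w (algebraMap K L (y o)) := zero_le_one.trans g1
    have g2 : NV w (MvPolynomial.map (algebraMap K L) F) ≤
        cst w (MvPolynomial.map (algebraMap K L) F).support.card *
          ⨆ o, w (algebraMap K L (y o)) := by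
      refine NV_le_of_coeff w _ g0 fun m => ?_
      rw [coeff_map]
      by_cases hm : m ∈ F.support
      · exact le_ciSup hb (some ⟨m, hm⟩)
      · rw [notMem_support_iff.1 hm, map_zero, map_zero]
        exact g0
    have g3 : cst w (MvPolynomial.map (algebraMap K L) F).support.card ≤
        cst w (F.support.card + 1) := by
      rw [A7_support]
      exact cst_mono w (Nat.le_succ _)
    have g4 : 1 ≤ cst w (F.support.card + 1) := one_le_cst w (Nat.le_add_left _ _)
    have g5 : max 1 (NV w (MvPolynomial.map (algebraMap K L) F)) ≤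
        cst w (F.support.card + 1) * ⨆ o, w (algebraMap K L (y o)) :=
      max_le (one_le_mul_of_one_le_of_one_le g4 g1)
        (g2.trans (mul_le_mul_of_nonneg_right g3 g0))
    rw [← Real.log_mul (one_pos.trans_le g4).ne' (one_pos.trans_le g1).ne']
    exact Real.log_le_log (lt_max_of_lt_left one_pos) g5
  rw [gs_add f1 f2, gs_log_iSup hz, RV.logHeight_algebraMap] at h1
  have h2 := gs_log_cst (L := L) (n := F.support.card + 1) (Nat.le_add_left _ _)
  rw [NumberField.totalWeight_eq_finrank] at h2
  have h3 : (Module.finrank K L : ℝ) * logHeight y ≤ Module.finrank ℚ L * logHeight y :=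
    mul_le_mul_of_nonneg_right finrank_le (logHeight_nonneg _)
  calc _ ≤ _ := h1
    _ ≤ (Module.finrank ℚ L : ℝ) * Real.log ((F.support.card + 1 : ℕ) : ℝ) +
        Module.finrank ℚ L * logHeight y := add_le_add h2 h3
    _ = _ := by ring

theorem FS_log_max_abv {K L : Type u} [Field K] [NumberField K] [Field L] [NumberField L]
    [Algebra K L] (x : K) :
    FS (fun w : AbsoluteValue L ℝ => Real.log (max 1 (w (algebraMap K L x)))) := by
  exact FS_log_max (algebraMap K L x)

theorem gs_log_max_abv_le {K : Type u} [Field K] [NumberField K] (x : K) :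
    ∃ C : ℝ, 0 ≤ C ∧ ∀ (L : Type u) [Field L] [NumberField L] [Algebra K L],
      gs (fun w : AbsoluteValue L ℝ => Real.log (max 1 (w (algebraMap K L x)))) ≤
        C * Module.finrank ℚ L := by
  refine ⟨logHeight₁ x, zero_le_logHeight₁ x, ?_⟩
  intro L _ _ _
  rw [gs_log_max, logHeight₁_algebraMap, mul_comm]
  exact mul_le_mul_of_nonneg_left finrank_le (zero_le_logHeight₁ x)

end Pool.Agent.Lib.MP_17a322_nt.VJ
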