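import Pool.Agent.Lib.MP_17a322_nt.VJ.DefsE
import Pool.Agent.Lib.MP_17a322_nt.VJ.A7

/-!
The local constants of an elliptic curve.
-/

universe u

namespace Pool.Agent.Lib.MP_17a322_nt.VJ

open MvPolynomial Height
open Pool.Agent.Lib.MP_17a322_nt.RO

theorem E1_one_le_prod {ι : Type*} (s : Finset ι) (f : ι → ℝ) (hf : ∀ i, 1 ≤ f i) :
    1 ≤ ∏ i ∈ s, f i :=
  Finset.prod_induction f (fun x => 1 ≤ x) (fun _ _ ha hb => one_le_mul_of_one_le_of_one_le ha hb)
    le_rfl (fun i _ => hf i)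

theorem E1_le_prod {ι : Type*} [DecidableEq ι] (s : Finset ι) (f : ι → ℝ) (hf : ∀ i, 1 ≤ f i)
    {i : ι} (hi : i ∈ s) : f i ≤ ∏ i ∈ s, f i := by
  rw [← Finset.mul_prod_erase s f hi]
  exact le_mul_of_one_le_right (zero_le_one.trans (hf i)) (E1_one_le_prod _ f hf)

theorem E1_add {L : Type*} [Field L] (v : AbsoluteValue L ℝ) {c : ℝ} (hc : 1 ≤ c)
    (h2 : cst v 2 ≤ c) {n : ℕ} {x y : L} (hx : v x ≤ c ^ n) (hy : v y ≤ c ^ n) :
    v (x + y) ≤ c ^ (n + 1) := by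
  have h0 : 0 ≤ c ^ n := pow_nonneg (zero_le_one.trans hc) n
  by_cases hv : IsNonarchimedean v
  · calc v (x + y) ≤ max (v x) (v y) := hv x y
      _ ≤ c ^ n := max_le hx hy
      _ ≤ c ^ (n + 1) := pow_le_pow_right₀ hc (Nat.le_succ n)
  · have e : cst v 2 = 2 := by simp [cst, hv]
    calc v (x + y) ≤ v x + v y := v.add_le x y
      _ ≤ c ^ n * 2 := by linarith
      _ ≤ c ^ n * c := mul_le_mul_of_nonneg_left (e ▸ h2) h0
      _ = c ^ (n + 1) := (pow_succ c n).symm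

theorem E1_two {L : Type*} [Field L] (v : AbsoluteValue L ℝ) : v (2 : L) ≤ cst v 2 := by
  have e : (2 : L) = 1 + 1 := by norm_num
  by_cases hv : IsNonarchimedean v
  · have e2 : cst v 2 = 1 := by simp [cst, hv]
    rw [e, e2]
    refine (hv 1 1).trans ?_
    simp
  · have e2 : cst v 2 = 2 := by simp [cst, hv]
    rw [e, e2]
    refine (v.add_le 1 1).trans ?_
    rw [v.map_one]
    norm_num

section

variable {K : Type*} [Field K] (W : WeierstrassCurve K) {L : Type*} [Field L] [Algebra K L]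
  (v : AbsoluteValue L ℝ)

theorem E1_A : 1 ≤ ∏ i : Fin 5, max 1 (v (algebraMap K L (![W.a₁, W.a₂, W.a₃, W.a₄, W.a₆] i))) :=
  E1_one_le_prod _ _ fun _ => le_max_left _ _

theorem E1_B : 1 ≤ ∏ p : Fin 3 × Fin 3, max 1 (NV v (MvPolynomial.map (algebraMap K L)
      (C W.Δ⁻¹ * WeierstrassCurve.addSubMapCoeff W p))) :=
  E1_one_le_prod _ _ fun _ => le_max_left _ _

theorem E1_C : 1 ≤ cst v 2 := one_le_cst v (by norm_num)

theorem E1_a (i : Fin 5) :
    v (algebraMap K L (![W.a₁, W.a₂, W.a₃, W.a₄, W.a₆] i)) ≤ lc W v := by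
  have h1 := E1_A W v
  have h2 := E1_B W v
  have h3 := E1_C v
  have h4 : max 1 (v (algebraMap K L (![W.a₁, W.a₂, W.a₃, W.a₄, W.a₆] i))) ≤
      ∏ i : Fin 5, max 1 (v (algebraMap K L (![W.a₁, W.a₂, W.a₃, W.a₄, W.a₆] i))) :=
    E1_le_prod _ (fun i : Fin 5 =>
      max 1 (v (algebraMap K L (![W.a₁, W.a₂, W.a₃, W.a₄, W.a₆] i))))
      (fun _ => le_max_left _ _) (Finset.mem_univ i)
  unfold lc
  calc _ ≤ _ := le_max_right _ _
    _ ≤ _ := h4
    _ ≤ cst v 2 * _ := le_mul_of_one_le_left (zero_le_one.trans h1) h3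
    _ ≤ _ := le_mul_of_one_le_right (mul_nonneg (zero_le_one.trans h3) (zero_le_one.trans h1)) h2

theorem one_le_lc : 1 ≤ lc W v := by
  exact one_le_mul_of_one_le_of_one_le
    (one_le_mul_of_one_le_of_one_le (E1_C v) (E1_A W v)) (E1_B W v)

theorem cst_two_le_lc : cst v 2 ≤ lc W v := by
  have h1 := E1_A W v
  have h2 := E1_B W v
  have h3 := E1_C v
  unfold lc
  exact (le_mul_of_one_le_right (zero_le_one.trans h3) h1).trans
    (le_mul_of_one_le_right (mul_nonneg (zero_le_one.trans h3) (zero_le_one.trans h1)) h2)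

/-- `n ≤ 2 ^ n`. -/
theorem cst_le_lc_pow (n : ℕ) (hn : 1 ≤ n) : cst v n ≤ lc W v ^ n := by
  calc cst v n ≤ cst v (2 ^ n) := cst_mono v Nat.lt_two_pow_self.le
    _ = cst v 2 ^ n := cst_pow v 2 n
    _ ≤ lc W v ^ n := pow_le_pow_left₀ (cst_nonneg v 2) (cst_two_le_lc W v) n

theorem lc_pow_mono {m n : ℕ} (h : m ≤ n) : lc W v ^ m ≤ lc W v ^ n := by
  exact pow_le_pow_right₀ (one_le_lc W v) h

theorem a₁_le : v (algebraMap K L W.a₁) ≤ lc W v := by
  exact E1_a W v 0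

theorem a₂_le : v (algebraMap K L W.a₂) ≤ lc W v := by
  exact E1_a W v 1

theorem a₃_le : v (algebraMap K L W.a₃) ≤ lc W v := by
  exact E1_a W v 2

theorem a₄_le : v (algebraMap K L W.a₄) ≤ lc W v := by
  exact E1_a W v 3

theorem a₆_le : v (algebraMap K L W.a₆) ≤ lc W v := by
  exact E1_a W v 4

theorem E1_pow_mul {a b : L} {m n : ℕ} (ha : v a ≤ lc W v ^ m) (hb : v b ≤ lc W v ^ n) :
    v (a * b) ≤ lc W v ^ (m + n) := by
  rw [v.map_mul, pow_add]
  exact mul_le_mul ha hb (v.nonneg b) (pow_nonneg (zero_le_one.trans (one_le_lc W v)) m)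

theorem E1_up {a : L} {m n : ℕ} (ha : v a ≤ lc W v ^ m) (h : m ≤ n) : v a ≤ lc W v ^ n :=
  ha.trans (lc_pow_mono W v h)

theorem E1_one {a : L} (ha : v a ≤ lc W v) : v a ≤ lc W v ^ 1 := by
  rwa [pow_one]

theorem E1_plus {a b : L} {n : ℕ} (ha : v a ≤ lc W v ^ n) (hb : v b ≤ lc W v ^ n) :
    v (a + b) ≤ lc W v ^ (n + 1) :=
  E1_add v (one_le_lc W v) (cst_two_le_lc W v) ha hb

theorem E1_sub {a b : L} {n : ℕ} (ha : v a ≤ lc W v ^ n) (hb : v b ≤ lc W v ^ n) :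
    v (a - b) ≤ lc W v ^ (n + 1) := by
  rw [sub_eq_add_neg]
  exact E1_plus W v ha (by rwa [v.map_neg])

theorem E1_two' : v (2 : L) ≤ lc W v ^ 1 :=
  E1_one W v ((E1_two v).trans (cst_two_le_lc W v))

theorem E1_four : v (4 : L) ≤ lc W v ^ 2 := by
  have e : (4 : L) = 2 * 2 := by norm_num
  rw [e]
  exact E1_pow_mul W v (E1_two' W v) (E1_two' W v)

/-- `b₂ = a₁ ^ 2 + 4 a₂`. Use `v (x + y) ≤ cst v 2 * max (v x) (v y)` (`SN.sum_le` for `SN_self`, or
directly) and `v (n : L) ≤ cst v n`. -/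
theorem b₂_le : v (algebraMap K L W.b₂) ≤ lc W v ^ 8 := by
  have h1 := E1_one W v (a₁_le W v)
  have h2 := E1_one W v (a₂_le W v)
  have e : algebraMap K L W.b₂ = algebraMap K L W.a₁ * algebraMap K L W.a₁ +
      4 * algebraMap K L W.a₂ := by
    rw [WeierstrassCurve.b₂, map_add, map_mul, map_pow, map_ofNat, sq]
  rw [e]
  exact E1_up W v (E1_plus W v (E1_up W v (E1_pow_mul W v h1 h1) (by norm_num : 2 ≤ 3))
    (E1_pow_mul W v (E1_four W v) h2)) (by norm_num)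

/-- `b₄ = 2 a₄ + a₁ a₃`. -/
theorem b₄_le : v (algebraMap K L W.b₄) ≤ lc W v ^ 8 := by
  have h1 := E1_one W v (a₁_le W v)
  have h3 := E1_one W v (a₃_le W v)
  have h4 := E1_one W v (a₄_le W v)
  have e : algebraMap K L W.b₄ = 2 * algebraMap K L W.a₄ +
      algebraMap K L W.a₁ * algebraMap K L W.a₃ := by
    rw [WeierstrassCurve.b₄, map_add, map_mul, map_mul, map_ofNat]
  rw [e]
  exact E1_up W v (E1_plus W v (E1_pow_mul W v (E1_two' W v) h4) (E1_pow_mul W v h1 h3))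
    (by norm_num)

/-- `b₆ = a₃ ^ 2 + 4 a₆`. -/
theorem b₆_le : v (algebraMap K L W.b₆) ≤ lc W v ^ 8 := by
  have h3 := E1_one W v (a₃_le W v)
  have h6 := E1_one W v (a₆_le W v)
  have e : algebraMap K L W.b₆ = algebraMap K L W.a₃ * algebraMap K L W.a₃ +
      4 * algebraMap K L W.a₆ := by
    rw [WeierstrassCurve.b₆, map_add, map_mul, map_pow, map_ofNat, sq]
  rw [e]
  exact E1_up W v (E1_plus W v (E1_up W v (E1_pow_mul W v h3 h3) (by norm_num : 2 ≤ 3))
    (E1_pow_mul W v (E1_four W v) h6)) (by norm_num)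

/-- `b₈ = a₁ ^ 2 a₆ + 4 a₂ a₆ - a₁ a₃ a₄ + a₂ a₃ ^ 2 - a₄ ^ 2`. -/
theorem b₈_le : v (algebraMap K L W.b₈) ≤ lc W v ^ 8 := by
  have h1 := E1_one W v (a₁_le W v)
  have h2 := E1_one W v (a₂_le W v)
  have h3 := E1_one W v (a₃_le W v)
  have h4 := E1_one W v (a₄_le W v)
  have h6 := E1_one W v (a₆_le W v)
  have e : algebraMap K L W.b₈ =
      (((algebraMap K L W.a₁ * algebraMap K L W.a₁ * algebraMap K L W.a₆ +
      4 * algebraMap K L W.a₂ * algebraMap K L W.a₆) -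
      algebraMap K L W.a₁ * algebraMap K L W.a₃ * algebraMap K L W.a₄) +
      algebraMap K L W.a₂ * algebraMap K L W.a₃ * algebraMap K L W.a₃) -
      algebraMap K L W.a₄ * algebraMap K L W.a₄ := by
    simp only [WeierstrassCurve.b₈, map_add, map_sub, map_mul, map_pow, map_ofNat]
    ring
  rw [e]
  have t1 := E1_up W v (E1_pow_mul W v (E1_pow_mul W v h1 h1) h6) (by norm_num : 1 + 1 + 1 ≤ 4)
  have t2 := E1_pow_mul W v (E1_pow_mul W v (E1_four W v) h2) h6
  have t3 := E1_up W v (E1_pow_mul W v (E1_pow_mul W v h1 h3) h4) (by norm_num : 1 + 1 + 1 ≤ 5)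
  have t4 := E1_up W v (E1_pow_mul W v (E1_pow_mul W v h2 h3) h3) (by norm_num : 1 + 1 + 1 ≤ 6)
  have t5 := E1_up W v (E1_pow_mul W v h4 h4) (by norm_num : 1 + 1 ≤ 7)
  exact E1_sub W v (E1_plus W v (E1_sub W v (E1_plus W v t1 t2) t3) t4) t5

theorem NV_coeff_le_lc (p : Fin 3 × Fin 3) :
    NV v (MvPolynomial.map (algebraMap K L)
      (C W.Δ⁻¹ * WeierstrassCurve.addSubMapCoeff W p)) ≤ lc W v := by
  have h1 := E1_A W v
  have h3 := E1_C v
  have h4 : max 1 (NV v (MvPolynomial.map (algebraMap K L)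
      (C W.Δ⁻¹ * WeierstrassCurve.addSubMapCoeff W p))) ≤
      ∏ p : Fin 3 × Fin 3, max 1 (NV v (MvPolynomial.map (algebraMap K L)
      (C W.Δ⁻¹ * WeierstrassCurve.addSubMapCoeff W p))) :=
    E1_le_prod _ (fun p => max 1 (NV v (MvPolynomial.map (algebraMap K L)
      (C W.Δ⁻¹ * WeierstrassCurve.addSubMapCoeff W p)))) (fun _ => le_max_left _ _)
      (Finset.mem_univ p)
  unfold lc
  calc _ ≤ _ := le_max_right _ _
    _ ≤ _ := h4
    _ ≤ _ := le_mul_of_one_le_left (zero_le_one.trans (E1_B W v))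
      (one_le_mul_of_one_le_of_one_le h3 h1)

end

/-- The logarithm of `lc`. -/
theorem E1_log {K : Type*} [Field K] (W : WeierstrassCurve K) {L : Type*} [Field L]
    [Algebra K L] (v : AbsoluteValue L ℝ) : Real.log (lc W v) = Real.log (cst v 2) +
      ∑ i : Fin 5, Real.log (max 1 (v (algebraMap K L (![W.a₁, W.a₂, W.a₃, W.a₄, W.a₆] i)))) +
      ∑ p : Fin 3 × Fin 3, Real.log (max 1 (NV v (MvPolynomial.map (algebraMap K L)
        (C W.Δ⁻¹ * WeierstrassCurve.addSubMapCoeff W p)))) := by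
  have h1 : ∀ x : ℝ, max 1 x ≠ 0 := fun x => (lt_max_of_lt_left one_pos).ne'
  unfold lc
  rw [Real.log_mul, Real.log_mul, Real.log_prod, Real.log_prod]
  · exact fun i _ => h1 _
  · exact fun i _ => h1 _
  · exact (one_pos.trans_le (E1_C v)).ne'
  · exact (one_pos.trans_le (E1_A W v)).ne'
  · exact mul_ne_zero (one_pos.trans_le (E1_C v)).ne' (one_pos.trans_le (E1_A W v)).ne'
  · exact (one_pos.trans_le (E1_B W v)).ne'

theorem FS_log_lc {K L : Type u} [Field K] [NumberField K] [Field L] [NumberField L]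
    [Algebra K L] (W : WeierstrassCurve K) :
    FS (fun v : AbsoluteValue L ℝ => Real.log (lc W v)) := by
  simp only [E1_log]
  refine FS_add (FS_add (FS_log_cst 2) (FS_sum _ ?_)) (FS_sum _ ?_)
  · exact fun i _ => FS_log_max_abv _
  · exact fun p _ => FS_log_max_NV _

/-- Proof: the logarithm of the product is the sum of the logarithms; `gs_log_cst`,
`gs_log_max_abv_le`, `gs_log_max_NV_le`. -/
theorem gs_log_lc_le {K : Type u} [Field K] [NumberField K] (W : WeierstrassCurve K) :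
    ∃ C : ℝ, 0 ≤ C ∧ ∀ (L : Type u) [Field L] [NumberField L] [Algebra K L],
      gs (fun v : AbsoluteValue L ℝ => Real.log (lc W v)) ≤ C * Module.finrank ℚ L := by
  choose c hc0 hc using fun i : Fin 5 =>
    gs_log_max_abv_le (K := K) (![W.a₁, W.a₂, W.a₃, W.a₄, W.a₆] i)
  choose d hd0 hd using fun p : Fin 3 × Fin 3 =>
    gs_log_max_NV_le (K := K) (C W.Δ⁻¹ * WeierstrassCurve.addSubMapCoeff W p)
  refine ⟨Real.log (2 : ℕ) + ∑ i, c i + ∑ p, d p, ?_, ?_⟩
  · have h1 : 0 ≤ Real.log (2 : ℕ) := Real.log_natCast_nonneg 2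
    have h2 : 0 ≤ ∑ i, c i := Finset.sum_nonneg fun i _ => hc0 i
    have h3 : 0 ≤ ∑ p, d p := Finset.sum_nonneg fun i _ => hd0 i
    linarith
  · intro L _ _ _
    simp only [E1_log]
    have f1 : FS (fun v : AbsoluteValue L ℝ => ∑ i : Fin 5,
        Real.log (max 1 (v (algebraMap K L (![W.a₁, W.a₂, W.a₃, W.a₄, W.a₆] i))))) :=
      FS_sum _ fun i _ => FS_log_max_abv _
    have f2 : FS (fun v : AbsoluteValue L ℝ => ∑ p : Fin 3 × Fin 3,
        Real.log (max 1 (NV v (MvPolynomial.map (algebraMap K L)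
          (C W.Δ⁻¹ * WeierstrassCurve.addSubMapCoeff W p))))) :=
      FS_sum _ fun p _ => FS_log_max_NV _
    rw [gs_add (FS_add (FS_log_cst 2) f1) f2, gs_add (FS_log_cst 2) f1,
      gs_sum Finset.univ (fun i _ => FS_log_max_abv _),
      gs_sum Finset.univ (fun p _ => FS_log_max_NV _)]
    have h1 := gs_log_cst (L := L) (n := 2) (by norm_num)
    rw [NumberField.totalWeight_eq_finrank] at h1
    have h2 := Finset.sum_le_sum fun i (_ : i ∈ (Finset.univ : Finset (Fin 5))) => hc i L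
    have h3 := Finset.sum_le_sum fun p (_ : p ∈ (Finset.univ : Finset (Fin 3 × Fin 3))) => hd p L
    rw [← Finset.sum_mul] at h2 h3
    calc _ ≤ (Module.finrank ℚ L : ℝ) * Real.log (2 : ℕ) + (∑ i, c i) * Module.finrank ℚ L +
        (∑ p, d p) * Module.finrank ℚ L := add_le_add (add_le_add h1 h2) h3
      _ = _ := by ring

end Pool.Agent.Lib.MP_17a322_nt.VJ
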