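import Pool.Agent.Lib.MP_17a322_nt.VJ.DefsG

/-!
Counting equations and unknowns.
-/

namespace Pool.Agent.Lib.MP_17a322_nt.VJ

open MvPolynomial Height

theorem card_box {ι : Type*} [Fintype ι] [DecidableEq ι] (N : ι → ℕ) :
    (box N).card = ∏ a, N a := by
  unfold box
  rw [Fintype.card_piFinset]
  simp

theorem mem_box {ι : Type*} [Fintype ι] [DecidableEq ι] (N : ι → ℕ) (q : ι → ℕ) :
    q ∈ box N ↔ ∀ a, q a < N a := by
  unfold box
  simp [Fintype.mem_piFinset]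

/-- product over the variables -/
theorem G3a_prod {m : ℕ} (f : AA m → ℕ) :
    ∏ a, f a = (f (none, 0) * f (none, 1)) * ∏ i : Fin m, (f (some i, 0) * f (some i, 1)) := by
  rw [Fintype.prod_prod_type, Fintype.prod_option]
  simp only [Fin.prod_univ_two]

/-- For one `i`: the number of `q` is at most `(1 / (16 n ^ 2)) (number of unknowns)`.
Proof (in real numbers): for every variable `a` one has `DQ i a ≤ c a * (DG a + 1)` with `c (none, t) = 2`,
`c (some i, t) = 1 / (8 n)`, `c (some i', t) = 1` for `i' ≠ i`; the product of the `c a` is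
`4 / (64 n ^ 2)` (`Fintype.prod_prod_type`, `Fintype.prod_option`, `Finset.prod_ite_eq`). -/
theorem card_DQ_le (n J m : ℕ) (hn : 0 < n) (j : Fin m → ℕ) (i : Fin m) :
    16 * n ^ 2 * (box (DQ n J j i)).card ≤ (box (fun a => DG n J j a + 1)).card := by
  rw [card_box, card_box, G3a_prod, G3a_prod]
  have hQ0 : ∀ t, DQ n J j i (none, t) = 2 * (8 * n * 4 ^ J) + 1 := fun t => rfl
  have hG0 : ∀ t, DG n J j (none, t) = 8 * n * 4 ^ J := fun t => rfl
  have hQ1 : ∀ i' t, DQ n J j i (some i', t) =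
      if i' = i then 4 ^ (J - j i) else 8 * n * 4 ^ (J - j i') + 1 := fun i' t => rfl
  have hG1 : ∀ i' t, DG n J j (some i', t) = 8 * n * 4 ^ (J - j i') := fun i' t => rfl
  simp only [hQ0, hG0, hQ1, hG1]
  rw [← Finset.mul_prod_erase Finset.univ _ (Finset.mem_univ i),
    ← Finset.mul_prod_erase Finset.univ (fun i' => (8 * n * 4 ^ (J - j i') + 1) *
      (8 * n * 4 ^ (J - j i') + 1)) (Finset.mem_univ i)]
  have hprod : ∏ x ∈ Finset.univ.erase i, ((if x = i then 4 ^ (J - j i) else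
      8 * n * 4 ^ (J - j x) + 1) * (if x = i then 4 ^ (J - j i) else 8 * n * 4 ^ (J - j x) + 1)) =
      ∏ x ∈ Finset.univ.erase i, ((8 * n * 4 ^ (J - j x) + 1) * (8 * n * 4 ^ (J - j x) + 1)) := by
    refine Finset.prod_congr rfl fun x hx => ?_
    rw [if_neg (Finset.ne_of_mem_erase hx)]
  rw [hprod, if_pos rfl]
  set R := ∏ x ∈ Finset.univ.erase i, ((8 * n * 4 ^ (J - j x) + 1) *
    (8 * n * 4 ^ (J - j x) + 1)) with hR
  set B := 8 * n * 4 ^ J with hB
  set k := 4 ^ (J - j i) with hk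
  have h1 : 2 * B + 1 ≤ 2 * (B + 1) := by omega
  have h2 : 8 * n * k ≤ 8 * n * k + 1 := Nat.le_succ _
  have h3 : (2 * B + 1) * (2 * B + 1) ≤ (2 * (B + 1)) * (2 * (B + 1)) := Nat.mul_le_mul h1 h1
  have h4 : (8 * n * k) * (8 * n * k) ≤ (8 * n * k + 1) * (8 * n * k + 1) := Nat.mul_le_mul h2 h2
  calc 16 * n ^ 2 * ((2 * B + 1) * (2 * B + 1) * (k * k * R))
      = ((2 * B + 1) * (2 * B + 1)) * (16 * n ^ 2 * (k * k) * R) := by ring
    _ ≤ ((2 * (B + 1)) * (2 * (B + 1))) * (16 * n ^ 2 * (k * k) * R) := Nat.mul_le_mul_right _ h3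
    _ = ((B + 1) * (B + 1)) * (((8 * n * k) * (8 * n * k)) * R) := by ring
    _ ≤ ((B + 1) * (B + 1)) * (((8 * n * k + 1) * (8 * n * k + 1)) * R) :=
        Nat.mul_le_mul_left _ (Nat.mul_le_mul_right _ h4)

/-- Twice the number of equations is at most the number of unknowns. -/
theorem count_le (n J : ℕ) (hn : 0 < n) (j : Fin (2 * n ^ 2) → ℕ) :
    2 * ∑ i, 4 * (box (DQ n J j i)).card ≤ (box (fun a => DG n J j a + 1)).card := by
  have h := Finset.sum_le_sum fun (i : Fin (2 * n ^ 2)) (_ : i ∈ Finset.univ) =>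
    card_DQ_le n J (2 * n ^ 2) hn j i
  rw [← Finset.mul_sum, Finset.sum_const, Finset.card_univ, Fintype.card_fin, smul_eq_mul] at h
  rw [← Finset.mul_sum]
  have hn2 : 0 < 2 * n ^ 2 := by positivity
  refine Nat.le_of_mul_le_mul_left ?_ hn2
  calc 2 * n ^ 2 * (2 * (4 * ∑ i, (box (DQ n J j i)).card))
      = 16 * n ^ 2 * ∑ i, (box (DQ n J j i)).card := by ring
    _ ≤ _ := h

/-- The logarithm of the number of unknowns: `log (D + 1) ≤ D`, and
`∑_a DG a ≤ (2 + 2 m) 8 n 4 ^ J`. -/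
theorem log_card_le (n J m : ℕ) (j : Fin m → ℕ) :
    Real.log (box (fun a => DG n J j a + 1)).card ≤ (2 + 2 * m) * (8 * n * 4 ^ J) := by
  rw [card_box]
  push_cast
  rw [Real.log_prod (fun a _ => by positivity)]
  have hD : ∀ a : AA m, DG n J j a ≤ 8 * n * 4 ^ J := by
    rintro ⟨_ | i, t⟩
    · exact le_rfl
    · exact Nat.mul_le_mul_left _ (Nat.pow_le_pow_right (by norm_num) (Nat.sub_le _ _))
  have h1 : ∀ a ∈ (Finset.univ : Finset (AA m)), Real.log ((DG n J j a : ℝ) + 1) ≤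
      8 * n * 4 ^ J := by
    intro a _
    have h2 : Real.log ((DG n J j a : ℝ) + 1) ≤ (DG n J j a : ℝ) + 1 - 1 :=
      Real.log_le_sub_one_of_pos (by positivity)
    have h3 : (DG n J j a : ℝ) ≤ ((8 * n * 4 ^ J : ℕ) : ℝ) := by exact_mod_cast hD a
    push_cast at h3
    linarith
  refine (Finset.sum_le_sum h1).trans (le_of_eq ?_)
  rw [Finset.sum_const, Finset.card_univ, Fintype.card_prod, Fintype.card_option,
    Fintype.card_fin, Fintype.card_fin, nsmul_eq_mul]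
  push_cast
  ring

/-- Sum of the degrees in the variables `ξ_{it}`. -/
theorem sum_DG_le (n J m : ℕ) (j : Fin m → ℕ) (i : Fin m) :
    8 * n * 4 ^ (J - j i) ≤ 8 * n * 4 ^ J :=
  Nat.mul_le_mul_left _ (Nat.pow_le_pow_right (by norm_num) (Nat.sub_le _ _))

/-- `b_i 4 ^ (j i) = b`. -/
theorem b_mul_pow (n J m : ℕ) (j : Fin m → ℕ) (i : Fin m) (h : j i ≤ J) :
    8 * n * 4 ^ (J - j i) * 4 ^ j i = 8 * n * 4 ^ J := by
  rw [mul_assoc, ← pow_add, Nat.sub_add_cancel h]

end Pool.Agent.Lib.MP_17a322_nt.VJ
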