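import Pool.Agent.Lib.MP_17a322_nt.VJ.F1
import Pool.Agent.Lib.MP_17a322_nt.VJ.F2

/-!
# JOB F3: Siegel's lemma

Let `c`, `C₂` be the constants of `house_siegel` and `exists_scale`, `d = finrank ℚ K`. Take
`C = d * (log c + log C₂) + d` or larger.
If `α` is empty or `A = 0`: `x = Pi.single j 1` for some `j : β` (`β` is not empty); its height is `0`
(`logHeight_eq_logHeight_restrict_support` or compute: all entries are `0` or `1`, the supremum is `1` at every
place), and the right side is nonnegative (`logHeight_nonneg`, `Real.log_natCast_nonneg`).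
Otherwise the family of all entries `p ↦ A p.1 p.2` is not zero: `exists_scale` gives `lam`; let `a : Matrix α β (𝓞 K)`
be the matrix with entries `lam * A k l`, `A₁ = C₂ * exp (h / d) ≥ 1`, `h` the height of the entries. `house_siegel`
gives `x`; `A *ᵥ x = 0` since `lam * (A *ᵥ x) = 0`. With `p = card α`, `q = card β`, `e = p / (q - p)`,
`B = c * (c * q * A₁) ^ e ≥ 1`, `logHeight_int_le`:
`logHeight x ≤ d * log B = d log c + e * d * (log c + log q + log C₂ + h / d)
= d log c + e * (h + d (log c + log C₂) + d log q)`.
-/

universe u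

namespace Pool.Agent.Lib.MP_17a322_nt.VJ

open Height NumberField

/-- Siegel's lemma (section 6). -/
theorem siegel (K : Type u) [Field K] [NumberField K] :
    ∃ C : ℝ, 0 ≤ C ∧ ∀ (α β : Type) [Fintype α] [Fintype β] (A : Matrix α β K),
      Fintype.card α < Fintype.card β →
      ∃ x : β → K, x ≠ 0 ∧ A.mulVec x = 0 ∧
        logHeight x ≤ C + (Fintype.card α : ℝ) / (Fintype.card β - Fintype.card α : ℝ) *
          (logHeight (fun p : α × β => A p.1 p.2) + C + C * Real.log (Fintype.card β)) := by
  classical
  obtain ⟨c, hc, hs⟩ := house_siegel K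
  obtain ⟨C2, hC2, hsc⟩ := exists_scale K
  have hd : 0 < Module.finrank ℚ K := Module.finrank_pos
  set d := Module.finrank ℚ K with hdd
  have hdR : (0 : ℝ) < d := by exact_mod_cast hd
  have hlc : 0 ≤ Real.log c := Real.log_nonneg hc
  have hlC2 : 0 ≤ Real.log C2 := Real.log_nonneg hC2
  set C : ℝ := d * (Real.log c + Real.log C2) + d with hC
  have hC0 : 0 ≤ C := by positivity
  refine ⟨C, hC0, fun α β _ _ A hlt => ?_⟩
  have hβ : 0 < Fintype.card β := by omega
  have hltR : (Fintype.card α : ℝ) < Fintype.card β := by exact_mod_cast hlt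
  have he : 0 ≤ (Fintype.card α : ℝ) / (Fintype.card β - Fintype.card α : ℝ) :=
    div_nonneg (Nat.cast_nonneg _) (by linarith)
  have hlq : 0 ≤ Real.log (Fintype.card β) := Real.log_natCast_nonneg _
  have hh0 : 0 ≤ logHeight (fun p : α × β => A p.1 p.2) := logHeight_nonneg _
  by_cases hA : A = 0
  · -- trivial system
    obtain ⟨j⟩ : Nonempty β := Fintype.card_pos_iff.1 hβ
    let y : β → 𝓞 K := Pi.single j 1
    have hy : y ≠ 0 := by
      intro h
      have h1 : (Pi.single j 1 : β → 𝓞 K) j = 0 := congrFun h j
      rw [Pi.single_eq_same] at h1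
      exact one_ne_zero h1
    have hyc : (fun i => (y i : K)) ≠ 0 := by
      intro h
      apply hy
      funext i
      exact RingOfIntegers.ext (by simpa using congrFun h i)
    refine ⟨fun i => (y i : K), hyc, ?_, ?_⟩
    · rw [hA, Matrix.zero_mulVec]
    · have h1 := logHeight_int_le K y hy (le_refl (1 : ℝ)) (by
        intro i
        by_cases hij : i = j
        · subst hij
          have h2 : (y i : K) = ((1 : ℤ) : K) := by
            simp [y]
          rw [h2, house_intCast]
          simp
        · have h2 : (y i : K) = ((0 : ℤ) : K) := by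
            simp [y, hij]
          rw [h2, house_intCast]
          simp)
      rw [Real.log_one, mul_zero] at h1
      refine h1.trans ?_
      have h2 : 0 ≤ C * Real.log (Fintype.card β) := mul_nonneg hC0 hlq
      have h3 := mul_nonneg he (by linarith : 0 ≤ logHeight (fun p : α × β => A p.1 p.2) + C +
        C * Real.log (Fintype.card β))
      linarith
  · obtain ⟨k0, hk0⟩ := Function.ne_iff.mp hA
    obtain ⟨l0, hl0⟩ := Function.ne_iff.mp hk0
    have hα : 0 < Fintype.card α := Fintype.card_pos_iff.2 ⟨k0⟩
    have hne : (fun p : α × β => A p.1 p.2) ≠ 0 := Function.ne_iff.mpr ⟨(k0, l0), hl0⟩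
    obtain ⟨lam, hlam0, hlam⟩ := hsc (α × β) (fun p : α × β => A p.1 p.2) hne
    set h := logHeight (fun p : α × β => A p.1 p.2) with hh
    set A1 : ℝ := C2 * Real.exp (h / d) with hA1
    have hexp : 1 ≤ Real.exp (h / d) := Real.one_le_exp (div_nonneg hh0 hdR.le)
    have hA11 : 1 ≤ A1 := one_le_mul_of_one_le_of_one_le hC2 hexp
    let a : Matrix α β (𝓞 K) := fun k l => ⟨lam * A k l, (hlam (k, l)).1⟩
    have hac : ∀ k l, (a k l : K) = lam * A k l := fun k l => rfl
    have ha : a ≠ 0 := by
      intro h1
      have h2 := congrArg (fun z : 𝓞 K => (z : K)) (congrFun (congrFun h1 k0) l0)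
      have h3 : lam * A k0 l0 = 0 := by
        rw [← hac]
        simpa using h2
      rcases mul_eq_zero.1 h3 with h4 | h4
      · exact hlam0 h4
      · exact hl0 h4
    obtain ⟨x, hx0, hax, hx⟩ := hs α β a A1 ha hα hlt hA11 (fun k l => (hlam (k, l)).2)
    set e : ℝ := (Fintype.card α : ℝ) / (Fintype.card β - Fintype.card α : ℝ) with hedef
    have hqR : (1 : ℝ) ≤ Fintype.card β := by exact_mod_cast hβ
    have hbase : 1 ≤ c * Fintype.card β * A1 :=
      one_le_mul_of_one_le_of_one_le (one_le_mul_of_one_le_of_one_le hc hqR) hA11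
    have hB : 1 ≤ c * (c * Fintype.card β * A1) ^ e :=
      one_le_mul_of_one_le_of_one_le hc (Real.one_le_rpow hbase he)
    have hht := logHeight_int_le K x hx0 hB hx
    refine ⟨fun i => (x i : K), ?_, ?_, ?_⟩
    · intro h1
      apply hx0
      funext i
      exact RingOfIntegers.ext (by simpa using congrFun h1 i)
    · funext k
      have h1 := congrFun hax k
      rw [Pi.zero_apply, Matrix.mulVec, dotProduct] at h1
      have h2 := congrArg (algebraMap (𝓞 K) K) h1
      rw [map_sum, map_zero] at h2
      have h3 : lam * ∑ l, A k l * (x l : K) = 0 := by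
        rw [Finset.mul_sum, ← h2]
        refine Finset.sum_congr rfl fun l _ => ?_
        rw [map_mul]
        show lam * (A k l * (x l : K)) = lam * A k l * (x l : K)
        ring
      rw [Pi.zero_apply, Matrix.mulVec, dotProduct]
      rcases mul_eq_zero.1 h3 with h4 | h4
      · exact absurd h4 hlam0
      · exact h4
    · refine hht.trans ?_
      have hc0 : 0 < c := by linarith
      have hq0 : (0 : ℝ) < Fintype.card β := by linarith
      have hA10 : 0 < A1 := by linarith
      have hlogB : Real.log (c * (c * Fintype.card β * A1) ^ e) =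
          Real.log c + e * (Real.log c + Real.log (Fintype.card β) + (Real.log C2 + h / d)) := by
        rw [Real.log_mul hc0.ne' (Real.rpow_pos_of_pos (by positivity) _).ne',
          Real.log_rpow (by positivity), Real.log_mul (by positivity) hA10.ne',
          Real.log_mul hc0.ne' hq0.ne', hA1, Real.log_mul (by linarith) (Real.exp_pos _).ne', Real.log_exp]
      rw [hlogB]
      have h5 : (d : ℝ) * (Real.log c + e * (Real.log c + Real.log (Fintype.card β) + (Real.log C2 + h / d))) =
          d * Real.log c + e * (h + d * (Real.log c + Real.log C2) + d * Real.log (Fintype.card β)) := by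
        field_simp
        ring
      rw [h5]
      have h6 : (d : ℝ) * Real.log c ≤ C := by
        have := mul_nonneg hdR.le hlC2
        rw [hC]
        linarith
      have h7 : (d : ℝ) * (Real.log c + Real.log C2) ≤ C := by
        rw [hC]
        linarith
      have h8 : (d : ℝ) * Real.log (Fintype.card β) ≤ C * Real.log (Fintype.card β) := by
        refine mul_le_mul_of_nonneg_right ?_ hlq
        have := mul_nonneg hdR.le (add_nonneg hlc hlC2)
        rw [hC]
        linarith
      refine add_le_add h6 (mul_le_mul_of_nonneg_left ?_ he)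
      linarith

end Pool.Agent.Lib.MP_17a322_nt.VJ
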