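import Pool.Agent.Lib.MP_17a322_nt.VJ.E7

/-!
Uniqueness of base change maps up to sign, compositions.
-/

universe u

namespace Pool.Agent.Lib.MP_17a322_nt.VJ

open MvPolynomial Height

section

variable {K : Type*} [Field K] [DecidableEq K] {L : Type*} [Field L] [DecidableEq L]
  [Algebra K L] {W : WeierstrassCurve K} {V : WeierstrassCurve L}

theorem PB.neg {f : W.toAffine.Point →+ V.toAffine.Point} (hf : PB W V f) : PB W V (-f) := by
  intro P i
  have h1 : ((-f) P).xRep = (f P).xRep := WeierstrassCurve.Affine.Point.xRep_neg (f P)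
  rw [h1]
  exact hf P i

/-- Two base change maps agree up to a sign. Proof: for every `P` the points `f P`, `g P` have the same
x-coordinates, so `f P = g P` or `f P = -g P` (`eq_or_eq_neg`, E4). The two subgroups
`{f = g}`, `{f = -g}` cover the group, so one of them is everything: if `P` is not in the first and `Q` not
in the second then `P + Q` is in none. -/
theorem PB.eq_or_eq_neg {f g : W.toAffine.Point →+ V.toAffine.Point} (hf : PB W V f)
    (hg : PB W V g) : f = g ∨ f = -g := by
  have h1 : ∀ P, f P = g P ∨ f P = -g P := by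
    intro P
    refine WeierstrassCurve.Affine.Point.xRep_eq_xRep_iff.1 ?_
    rw [hf.xRep P, hg.xRep P]
  by_contra h2
  push Not at h2
  obtain ⟨h3, h4⟩ := h2
  obtain ⟨P, hP⟩ : ∃ P, f P ≠ g P := by
    by_contra h5
    push Not at h5
    exact h3 (AddMonoidHom.ext h5)
  obtain ⟨Q, hQ⟩ : ∃ Q, f Q ≠ -g Q := by
    by_contra h5
    push Not at h5
    exact h4 (AddMonoidHom.ext h5)
  have hP' : f P = -g P := (h1 P).resolve_left hP
  have hQ' : f Q = g Q := (h1 Q).resolve_right hQ
  rcases h1 (P + Q) with h5 | h5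
  · rw [map_add, map_add, hQ'] at h5
    exact hP (add_right_cancel h5)
  · rw [map_add, map_add, hP', neg_add] at h5
    exact hQ (add_left_cancel h5)

end

section

variable {K : Type*} [Field K] [DecidableEq K] {L : Type*} [Field L] [DecidableEq L]
  [Algebra K L] {Ω : Type*} [Field Ω] [DecidableEq Ω] [Algebra K Ω] [Algebra L Ω]
  [IsScalarTower K L Ω] {W : WeierstrassCurve K} {V' : WeierstrassCurve L}
  {V : WeierstrassCurve Ω}

theorem PB.comp {f : W.toAffine.Point →+ V'.toAffine.Point}
    {g : V'.toAffine.Point →+ V.toAffine.Point} (hf : PB W V' f) (hg : PB V' V g) :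
    PB W V (g.comp f) := by
  intro P i
  show (g (f P)).xRep i = algebraMap K Ω (P.xRep i)
  rw [hg (f P) i, hf P i, ← IsScalarTower.algebraMap_apply]

/-- Factorisation of a base change map. Proof: `exists_PB` for `K → L`, `PB.comp`, `PB.eq_or_eq_neg`,
replace `f` by `-f` if necessary. -/
theorem exists_PB_comp (hV : W.map (algebraMap K L) = V')
    {g : W.toAffine.Point →+ V.toAffine.Point} (hg : PB W V g)
    {g' : V'.toAffine.Point →+ V.toAffine.Point} (hg' : PB V' V g') :
    ∃ f : W.toAffine.Point →+ V'.toAffine.Point, PB W V' f ∧ ∀ P, g' (f P) = g P := by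
  obtain ⟨f, hf⟩ := exists_PB W V' hV
  rcases PB.eq_or_eq_neg (PB.comp hf hg') hg with h1 | h1
  · exact ⟨f, hf, fun P => DFunLike.congr_fun h1 P⟩
  · refine ⟨-f, hf.neg, fun P => ?_⟩
    have h2 : g' (f P) = -g P := DFunLike.congr_fun h1 P
    show g' (-(f P)) = g P
    rw [map_neg, h2, neg_neg]

end

end Pool.Agent.Lib.MP_17a322_nt.VJ
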