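import Pool.Agent.Lib.MP_17a322_nt.VJ.DefsG
import Pool.Agent.Lib.MP_17a322_nt.VJ.E7
import Pool.Agent.Lib.MP_17a322_nt.VJ.E8

/-!
Points over the algebraic closure: fields of definition, infinitely many `w`.
-/

universe u

namespace Pool.Agent.Lib.MP_17a322_nt.VJ

open MvPolynomial Height

/-- Field of definition of two points over an algebraically closed field.

Proof. `L` = the intermediate field of `Ω / K` generated by the (at most four) coordinates of `w 0`, `w 1`:
finite over `K` (elements integral over `K`), so a number field. The points over `L`: as in RO/G1 `G1_lift`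
(a point with coordinates in the subfield; by cases on the point) and the homomorphisms
`Affine.Point.map` for `L → Ω`; `V' t = (W t).map (algebraMap K L)`. Compare the proof of RV/U6
`exists_field`. -/
theorem exists_field_of_def {K : Type u} [Field K] [NumberField K] {Ω : Type u} [Field Ω]
    [DecidableEq Ω] [Algebra K Ω] [Algebra.IsAlgebraic K Ω] (W : Fin 2 → WeierstrassCurve K)
    (V : Fin 2 → WeierstrassCurve Ω) (hV : ∀ t, (W t).map (algebraMap K Ω) = V t)
    (w : ∀ t, (V t).toAffine.Point) :
    ∃ (L : Type u) (_ : Field L) (_ : NumberField L) (_ : DecidableEq L) (_ : Algebra K L)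
      (_ : Algebra L Ω) (_ : IsScalarTower K L Ω) (V' : Fin 2 → WeierstrassCurve L)
      (g : ∀ t, (V' t).toAffine.Point →+ (V t).toAffine.Point)
      (w' : ∀ t, (V' t).toAffine.Point),
      (∀ t, (W t).map (algebraMap K L) = V' t) ∧ (∀ t, PB (V' t) (V t) (g t)) ∧
        ∀ t, g t (w' t) = w t := by
  classical
  obtain rfl : (fun t => (W t).map (algebraMap K Ω)) = V := funext hV
  let co : ∀ t, ((W t).map (algebraMap K Ω)).toAffine.Point → Set Ω := fun t R =>
    match R with
    | .zero => ∅
    | .some x y _ => {x, y}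
  have hco : ∀ t R, (co t R).Finite := by
    intro t R
    cases R with
    | zero => exact Set.finite_empty
    | some x y h => exact Set.toFinite {x, y}
  let S : Set Ω := ⋃ t, co t (w t)
  have hS : S.Finite := Set.finite_iUnion fun t => hco t _
  let L' : IntermediateField K Ω := IntermediateField.adjoin K S
  have : Finite S := hS
  have hfin : FiniteDimensional K L' :=
    IntermediateField.finiteDimensional_adjoin fun x _ =>
      (Algebra.IsAlgebraic.isAlgebraic (R := K) x).isIntegral
  have : NumberField L' := NumberField.of_module_finite K L'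
  let v : L' →ₐ[K] Ω := L'.val
  have hlift : ∀ t, ∀ R : ((W t).map (algebraMap K Ω)).toAffine.Point, co t R ⊆ S →
      ∃ R₀ : ((W t).map (algebraMap K L')).toAffine.Point,
        WeierstrassCurve.Affine.Point.map (W' := (W t).toAffine) v R₀ = R := by
    intro t R hR
    cases R with
    | zero => exact ⟨0, rfl⟩
    | some x y h =>
      have hx : x ∈ L' := IntermediateField.subset_adjoin K S (hR (Or.inl rfl))
      have hy : y ∈ L' := IntermediateField.subset_adjoin K S (hR (Or.inr rfl))
      have hns := ((W t).toAffine.baseChange_nonsingular v.injective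
        (⟨x, hx⟩ : L') (⟨y, hy⟩ : L')).mp h
      exact ⟨WeierstrassCurve.Affine.Point.some _ _ hns, rfl⟩
  choose w' hw' using fun t => hlift t (w t) (fun z hz => Set.mem_iUnion.2 ⟨t, hz⟩)
  refine ⟨L', inferInstance, inferInstance, inferInstance, inferInstance, inferInstance,
    inferInstance, fun t => (W t).map (algebraMap K L'),
    fun t => WeierstrassCurve.Affine.Point.map (W' := (W t).toAffine) v, w', fun t => rfl, ?_, hw'⟩
  intro t P i
  cases P with
  | zero =>
    have h : (WeierstrassCurve.Affine.Point.map (W' := (W t).toAffine) v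
        (WeierstrassCurve.Affine.Point.zero :
          ((W t).map (algebraMap K L')).toAffine.Point)).xRep = ![1, 0] := rfl
    refine (congrFun h i).trans ?_
    have h' : ((WeierstrassCurve.Affine.Point.zero :
          ((W t).map (algebraMap K L')).toAffine.Point)).xRep = ![1, 0] := rfl
    rw [h']
    fin_cases i
    · exact (map_one _).symm
    · exact (map_zero _).symm
  | some x y h =>
    fin_cases i
    · rfl
    · exact (map_one _).symm

/-- Infinitely many points with x-coordinate a root of unity.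

Proof. The roots of unity of `Ω` are infinitely many (algebraically closed, characteristic `0`: for
every `N > 0` there are `N` of them, e.g. `HasEnoughRootsOfUnity` or `X ^ N - 1` splits and is separable;
or the powers of primitive roots of prime order), each is the x-coordinate of an affine point
(`exists_affine_point`), and the map from points to x-coordinates maps this set onto an infinite set. -/
theorem infinite_w {Ω : Type*} [Field Ω] [IsAlgClosed Ω] [CharZero Ω]
    (V : WeierstrassCurve Ω) [V.IsElliptic] :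
    {w : V.toAffine.Point | w ≠ 0 ∧ ∃ N, 0 < N ∧ w.xRep 0 ^ N = 1}.Infinite := by
  classical
  intro hfin
  have hR : ({ζ : Ω | ∃ N, 0 < N ∧ ζ ^ N = 1}).Finite := by
    refine (hfin.image fun w => w.xRep 0).subset ?_
    rintro ζ ⟨N, hN, hζ⟩
    obtain ⟨w, hw0, hw⟩ := exists_affine_point V ζ
    refine ⟨w, ⟨hw0, N, hN, ?_⟩, ?_⟩
    · rw [hw]
      exact hζ
    · show w.xRep 0 = ζ
      rw [hw]
      rfl
  have hN : NeZero ((hR.toFinset.card + 1 : ℕ) : Ω) := ⟨Nat.cast_ne_zero.2 (Nat.succ_ne_zero _)⟩
  obtain ⟨ζ, hζ⟩ := HasEnoughRootsOfUnity.exists_primitiveRoot Ω (hR.toFinset.card + 1)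
  have h1 := hζ.card_nthRootsFinset
  have h2 : Polynomial.nthRootsFinset (hR.toFinset.card + 1) (1 : Ω) ⊆ hR.toFinset := by
    intro z hz
    rw [Set.Finite.mem_toFinset]
    exact ⟨hR.toFinset.card + 1, Nat.succ_pos _,
      (Polynomial.mem_nthRootsFinset (Nat.succ_pos _) _).1 hz⟩
  have h3 := Finset.card_le_card h2
  rw [h1] at h3
  exact absurd h3 (Nat.not_succ_le_self _)

/-- The x-coordinates of `R + w`, `w` as above with finitely many excluded, form an infinite set.

Proof. `infinite_w` minus the finite set of `w` with `R + w = 0` or `S i - 2 ^ j i • (R + w) = 0` for some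
`i`, i.e. `2 ^ j i • w = S i - 2 ^ j i • R` (`finite_two_pow_smul_eq`, E8), is infinite, and its image under
`w ↦ (R + w).xRep 0` is infinite because the fibres are finite (`finite_xRep_eq`, E7; for affine points
`xRep = ![xRep 0, 1]`). -/
theorem infinite_x {Ω : Type*} [Field Ω] [IsAlgClosed Ω] [CharZero Ω] [DecidableEq Ω]
    (V : WeierstrassCurve Ω) [V.IsElliptic] {m : ℕ} (R : V.toAffine.Point)
    (S : Fin m → V.toAffine.Point) (j : Fin m → ℕ) :
    {ξ : Ω | ∃ w : V.toAffine.Point, w ≠ 0 ∧ (∃ N, 0 < N ∧ w.xRep 0 ^ N = 1) ∧ R + w ≠ 0 ∧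
      (∀ i, S i - 2 ^ j i • (R + w) ≠ 0) ∧ ξ = (R + w).xRep 0}.Infinite := by
  classical
  intro hfin
  let E : Set V.toAffine.Point := {w | R + w = 0} ∪ ⋃ i, {w | S i - 2 ^ j i • (R + w) = 0}
  have hE : E.Finite := by
    refine Set.Finite.union ?_ (Set.finite_iUnion fun i => ?_)
    · refine (Set.finite_singleton (-R)).subset fun w hw => ?_
      exact (neg_eq_of_add_eq_zero_right hw).symm
    · refine (finite_two_pow_smul_eq V (j i) (S i - 2 ^ j i • R)).subset fun w hw => ?_
      have h1 : S i - 2 ^ j i • (R + w) = 0 := hw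
      show 2 ^ j i • w = S i - 2 ^ j i • R
      rw [smul_add] at h1
      rw [eq_sub_iff_add_eq, add_comm]
      exact (sub_eq_zero.1 h1).symm
  have hinf := (infinite_w V).sdiff hE
  apply hinf
  have hT : ((fun ξ : Ω => (![ξ, 1] : Fin 2 → Ω)) '' {ξ : Ω | ∃ w : V.toAffine.Point, w ≠ 0 ∧
      (∃ N, 0 < N ∧ w.xRep 0 ^ N = 1) ∧ R + w ≠ 0 ∧
      (∀ i, S i - 2 ^ j i • (R + w) ≠ 0) ∧ ξ = (R + w).xRep 0}).Finite := hfin.image _
  have hfib : ∀ b ∈ ((fun ξ : Ω => (![ξ, 1] : Fin 2 → Ω)) '' {ξ : Ω | ∃ w : V.toAffine.Point,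
      w ≠ 0 ∧ (∃ N, 0 < N ∧ w.xRep 0 ^ N = 1) ∧ R + w ≠ 0 ∧
      (∀ i, S i - 2 ^ j i • (R + w) ≠ 0) ∧ ξ = (R + w).xRep 0}),
      ((fun w : V.toAffine.Point => (R + w).xRep) ⁻¹' {b}).Finite := by
    intro b _
    have h1 := (finite_xRep_eq V b).preimage (f := fun w : V.toAffine.Point => R + w)
      (fun x _ y _ hxy => add_left_cancel hxy)
    exact h1
  refine (hT.preimage' hfib).subset fun w hw => ?_
  obtain ⟨⟨hw0, hwN⟩, hwE⟩ := hw
  have h1 : R + w ≠ 0 := fun h => hwE (Or.inl h)
  have h2 : ∀ i, S i - 2 ^ j i • (R + w) ≠ 0 := fun i h =>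
    hwE (Or.inr (Set.mem_iUnion.2 ⟨i, h⟩))
  exact ⟨(R + w).xRep 0, ⟨w, hw0, hwN, h1, h2, rfl⟩, (xRep_eq h1).symm⟩

end Pool.Agent.Lib.MP_17a322_nt.VJ
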