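import Pool.Agent.Lib.MP_17a322_nt.VJ.A5

/-!
# K4: a common multiple of all polynomials of bounded degree and height
-/

universe u

namespace Pool.Agent.Lib.MP_17a322_nt.VJ

open MvPolynomial Height

/-- A coefficient of a polynomial with a coefficient `1`. -/
theorem K4_coeff {L : Type*} [Field L] [AdmissibleAbsValues L] {σ : Type*}
    (g : MvPolynomial σ L) (m₀ m : σ →₀ ℕ) (h : coeff m₀ g = 1) :
    logHeight₁ (coeff m g) ≤ nh g := by
  have hg : g ≠ 0 := by
    rintro rfl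
    simp at h
  rw [← gs_log_max]
  refine gs_le (FS_log_max _) (FS_log_NV hg) fun v _ => ?_
  apply Real.log_le_log (lt_of_lt_of_le one_pos (le_max_left _ _))
  apply max_le
  · have h1 := coeff_le_NV v g m₀
    rwa [h, map_one] at h1
  · exact coeff_le_NV v g m

theorem K4_finite {K : Type u} [Field K] [NumberField K] (D : ℕ) (B : ℝ) :
    {g : MvPolynomial (Fin 2) K | (∀ t, g.degreeOf t ≤ D) ∧
      ∀ m, logHeight₁ (coeff m g) ≤ B}.Finite := by
  have hT : {c : K | logHeight₁ c ≤ B}.Finite := Northcott.finite_le (h := logHeight₁ (K := K)) B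
  have hpi : {f : Fin (D + 1) × Fin (D + 1) → K | ∀ p, f p ∈ {c : K | logHeight₁ c ≤ B}}.Finite :=
    Set.Finite.pi' fun _ => hT
  refine Set.Finite.of_injOn (f := fun g : MvPolynomial (Fin 2) K =>
    fun p : Fin (D + 1) × Fin (D + 1) =>
      coeff (Finsupp.single 0 (p.1 : ℕ) + Finsupp.single 1 (p.2 : ℕ)) g) ?_ ?_ hpi
  · rintro g ⟨_, hg⟩ p
    exact hg _
  · rintro g ⟨hg, _⟩ g' ⟨hg', _⟩ h
    ext m
    by_cases hm : m 0 ≤ D ∧ m 1 ≤ D
    · have e : m = Finsupp.single 0 (m 0) + Finsupp.single 1 (m 1) := by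
        ext t
        fin_cases t <;> simp
      have h1 := congrFun h (⟨m 0, Nat.lt_succ_of_le hm.1⟩, ⟨m 1, Nat.lt_succ_of_le hm.2⟩)
      simp only at h1
      rw [← e] at h1
      exact h1
    · have h2 : ∀ f : MvPolynomial (Fin 2) K, (∀ t, f.degreeOf t ≤ D) → coeff m f = 0 := by
        intro f hf
        by_contra hne
        have h3 := fun t => (monomial_le_degreeOf t (mem_support_iff.mpr hne)).trans (hf t)
        exact hm ⟨h3 0, h3 1⟩
      rw [h2 g hg, h2 g' hg']

/-- There is a nonzero polynomial divisible by all polynomials of degrees at most `D` and height at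
most `B`. -/
theorem northcott_poly {K : Type u} [Field K] [NumberField K] (D : ℕ) (B : ℝ) :
    ∃ G : MvPolynomial (Fin 2) K, G ≠ 0 ∧ ∀ g : MvPolynomial (Fin 2) K, g ≠ 0 →
      (∀ t, g.degreeOf t ≤ D) → nh g ≤ B → g ∣ G := by
  classical
  obtain ⟨s, hs⟩ : ∃ s : Finset (MvPolynomial (Fin 2) K), s = (K4_finite D B).toFinset.erase 0 :=
    ⟨_, rfl⟩
  refine ⟨∏ g ∈ s, g, ?_, ?_⟩
  · rw [Finset.prod_ne_zero_iff]
    intro g hg
    rw [hs] at hg
    exact Finset.ne_of_mem_erase hg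
  · intro g hg hdeg hnh
    obtain ⟨m₀, hm₀⟩ := MvPolynomial.ne_zero_iff.mp hg
    have hc : (coeff m₀ g)⁻¹ ≠ 0 := inv_ne_zero hm₀
    have hd : ∀ t, (C (coeff m₀ g)⁻¹ * g : MvPolynomial (Fin 2) K).degreeOf t ≤ D := by
      intro t
      refine le_trans ?_ (hdeg t)
      exact degreeOf_C_mul_le g t _
    have hmem : (C (coeff m₀ g)⁻¹ * g : MvPolynomial (Fin 2) K) ∈ s := by
      rw [hs, Finset.mem_erase, Set.Finite.mem_toFinset]
      refine ⟨?_, hd, ?_⟩
      · exact mul_ne_zero (by rwa [Ne, C_eq_zero]) hg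
      · intro m
        refine (K4_coeff _ m₀ m ?_).trans ?_
        · rw [coeff_C_mul, inv_mul_cancel₀ hm₀]
        · rw [nh_C_mul hg hc]
          exact hnh
    exact (Dvd.intro_left _ rfl).trans (Finset.dvd_prod_of_mem (fun g => g) hmem)

end Pool.Agent.Lib.MP_17a322_nt.VJ
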