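import Pool.Agent.Lib.MP_17a322_nt.VJ.E1

/-!
Sizes of the elliptic forms in seminormed algebras.
-/

namespace Pool.Agent.Lib.MP_17a322_nt.VJ

open MvPolynomial Height
open Pool.Agent.Lib.MP_17a322_nt.RO

variable {K : Type*} [Field K] (W : WeierstrassCurve K) {L : Type*} [Field L] [Algebra K L]
  {v : AbsoluteValue L ℝ} {A : Type*} [CommRing A] [Algebra L A] [Algebra K A]
  [IsScalarTower K L A] {ν : A → ℝ} (h : SN v ν)

include h

/-- Sum of two elements of size at most `B`. -/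
theorem SN.add_le_cst {a b : A} {B : ℝ} (ha : ν a ≤ B) (hb : ν b ≤ B) :
    ν (a + b) ≤ cst v 2 * B := by
  by_cases hv : IsNonarchimedean v
  · have h1 : cst v 2 = 1 := by simp [cst, hv]
    rw [h1, one_mul]
    exact (h.add_max hv a b).trans (max_le ha hb)
  · have h1 : cst v 2 = 2 := by simp [cst, hv]
    rw [h1]
    linarith [h.add a b]

theorem SN.sub_le_cst {a b : A} {B : ℝ} (ha : ν a ≤ B) (hb : ν b ≤ B) :
    ν (a - b) ≤ cst v 2 * B := by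
  rw [sub_eq_add_neg]
  exact h.add_le_cst ha (by rw [h.neg]; exact hb)

/-- The constant `c : K`. -/
theorem SN.algebraMap_le (c : K) : ν (algebraMap K A c) ≤ v (algebraMap K L c) := by
  rw [IsScalarTower.algebraMap_apply K L A c]
  exact h.map _

theorem E2_mul {a b : A} {x y : ℝ} (ha : ν a ≤ x) (hb : ν b ≤ y) : ν (a * b) ≤ x * y :=
  (h.mul a b).trans (mul_le_mul ha hb (h.nonneg b) ((h.nonneg a).trans ha))

theorem sq2_size (R Q : Fin 2 → A) {r q : ℝ} (hr : ∀ i, ν (R i) ≤ r) (hq : ∀ i, ν (Q i) ≤ q)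
    (i : Fin 3) : ν (sq2 R Q i) ≤ cst v 2 * (r * q) := by
  have h1 : 1 ≤ cst v 2 := one_le_cst v (by norm_num)
  have hr0 : 0 ≤ r := (h.nonneg _).trans (hr 0)
  have hq0 : 0 ≤ q := (h.nonneg _).trans (hq 0)
  have h0 : r * q ≤ cst v 2 * (r * q) := le_mul_of_one_le_left (mul_nonneg hr0 hq0) h1
  fin_cases i
  · exact (E2_mul h (hr 0) (hq 0)).trans h0
  · exact h.add_le_cst (E2_mul h (hr 0) (hq 1)) (E2_mul h (hr 1) (hq 0))
  · exact (E2_mul h (hr 1) (hq 1)).trans h0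

omit h in
theorem E2_up (v : AbsoluteValue L ℝ) {m n : ℕ} (hmn : m ≤ n) {x y : ℝ} (hx : 0 ≤ x)
    (hy : y ≤ lc W v ^ m * x) : y ≤ lc W v ^ n * x :=
  hy.trans (mul_le_mul_of_nonneg_right (lc_pow_mono W v hmn) hx)

theorem E2_add {a b : A} {m n : ℕ} (hmn : n ≤ m) {x : ℝ} (hx : 0 ≤ x)
    (ha : ν a ≤ lc W v ^ m * x) (hb : ν b ≤ lc W v ^ n * x) :
    ν (a + b) ≤ lc W v ^ (m + 1) * x := by
  have h1 : (0 : ℝ) ≤ lc W v ^ m * x :=
    mul_nonneg (pow_nonneg (zero_le_one.trans (one_le_lc W v)) _) hx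
  refine (h.add_le_cst ha (E2_up W v hmn hx hb)).trans ?_
  rw [pow_succ', mul_assoc]
  exact mul_le_mul_of_nonneg_right (cst_two_le_lc W v) h1

theorem E2_sub {a b : A} {m n : ℕ} (hmn : n ≤ m) {x : ℝ} (hx : 0 ≤ x)
    (ha : ν a ≤ lc W v ^ m * x) (hb : ν b ≤ lc W v ^ n * x) :
    ν (a - b) ≤ lc W v ^ (m + 1) * x := by
  rw [sub_eq_add_neg]
  exact E2_add W h hmn hx ha (by rw [h.neg]; exact hb)

theorem E2_num (n k : ℕ) (hn : n ≤ 2 ^ k) : ν ((n : ℕ) : A) ≤ lc W v ^ k := by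
  have h1 := h.nsmul_le n (1 : A)
  rw [mul_one] at h1
  refine h1.trans ?_
  have h2 : cst v n * ν 1 ≤ cst v n :=
    mul_le_of_le_one_right (cst_nonneg v n) h.one_le
  refine h2.trans ((cst_mono v hn).trans ?_)
  rw [cst_pow]
  exact pow_le_pow_left₀ (cst_nonneg v 2) (cst_two_le_lc W v) k

theorem E2_two : ν (2 : A) ≤ lc W v ^ 1 := by
  simpa using E2_num W h 2 1 (by norm_num)

theorem E2_four : ν (4 : A) ≤ lc W v ^ 2 := by
  simpa using E2_num W h 4 2 (by norm_num)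

theorem E2_five : ν (5 : A) ≤ lc W v ^ 4 := by
  simpa using E2_num W h 5 4 (by norm_num)

theorem E2_ten : ν (10 : A) ≤ lc W v ^ 4 := by
  simpa using E2_num W h 10 4 (by norm_num)

theorem E2_cc {a b : A} {m n : ℕ} (ha : ν a ≤ lc W v ^ m) (hb : ν b ≤ lc W v ^ n) :
    ν (a * b) ≤ lc W v ^ (m + n) := by
  rw [pow_add]
  exact E2_mul h ha hb

theorem E2_b₂ : ν (algebraMap K A W.b₂) ≤ lc W v ^ 8 := (h.algebraMap_le _).trans (b₂_le W v)
theorem E2_b₄ : ν (algebraMap K A W.b₄) ≤ lc W v ^ 8 := (h.algebraMap_le _).trans (b₄_le W v)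
theorem E2_b₆ : ν (algebraMap K A W.b₆) ≤ lc W v ^ 8 := (h.algebraMap_le _).trans (b₆_le W v)
theorem E2_b₈ : ν (algebraMap K A W.b₈) ≤ lc W v ^ 8 := (h.algebraMap_le _).trans (b₈_le W v)

/-- A monomial with a constant of size at most `lc ^ n`. -/
theorem E2_mon (R : Fin 2 → A) {r : ℝ} (hr : ∀ i, ν (R i) ≤ r) (c : A) {n : ℕ}
    (hc : ν c ≤ lc W v ^ n) (i j : ℕ) : ν (c * R 0 ^ i * R 1 ^ j) ≤ lc W v ^ n * r ^ (i + j) := by
  rw [pow_add, ← mul_assoc]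
  refine E2_mul h (E2_mul h hc ?_) ?_
  · exact (h.pow_le _ _).trans (pow_le_pow_left₀ (h.nonneg _) (hr 0) _)
  · exact (h.pow_le _ _).trans (pow_le_pow_left₀ (h.nonneg _) (hr 1) _)

/-- A product of a constant of size at most `lc ^ n` and two elements of size at most `lc * x`. -/
theorem E2_q {a b : A} {x : ℝ} (ha : ν a ≤ lc W v * x) (hb : ν b ≤ lc W v * x) (c : A) {n : ℕ}
    (hc : ν c ≤ lc W v ^ n) : ν (c * a * b) ≤ lc W v ^ (n + 2) * x ^ 2 := by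
  have h1 : lc W v ^ (n + 2) * x ^ 2 = lc W v ^ n * (lc W v * x) * (lc W v * x) := by ring
  rw [h1]
  exact E2_mul h (E2_mul h hc ha) hb

/-- Proof: `SV W R Q i` is one of `s^2 - b₄ s u - b₆ t u - b₈ u^2`, `2 t s + b₂ s u + b₄ t u + b₆ u^2`,
`t^2 - 4 s u` in `(s, t, u) = sq2 R Q` (unfold `addSubMap`; compare RO/A1 `A1_eval0` and so on), at most
four terms, `b_i` at most `lc ^ 8`, `s`, `t`, `u` at most `lc * (r q)`. -/
theorem SV_size (R Q : Fin 2 → A) {r q : ℝ} (hr : ∀ i, ν (R i) ≤ r) (hq : ∀ i, ν (Q i) ≤ q)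
    (i : Fin 3) : ν (SV W R Q i) ≤ lc W v ^ 16 * (r * q) ^ 2 := by
  have hr0 : 0 ≤ r := (h.nonneg _).trans (hr 0)
  have hq0 : 0 ≤ q := (h.nonneg _).trans (hq 0)
  have hrq : 0 ≤ r * q := mul_nonneg hr0 hq0
  have hm : ∀ i, ν (sq2 R Q i) ≤ lc W v * (r * q) := fun i =>
    (sq2_size h R Q hr hq i).trans (mul_le_mul_of_nonneg_right (cst_two_le_lc W v) hrq)
  have hx : 0 ≤ (r * q) ^ 2 := sq_nonneg _
  have h1 : ν (1 : A) ≤ lc W v ^ 8 := h.one_le.trans (one_le_pow₀ (one_le_lc W v))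
  have h2 : ν (2 : A) ≤ lc W v ^ 8 := (E2_two W h).trans (lc_pow_mono W v (by norm_num))
  have h4 : ν (4 : A) ≤ lc W v ^ 8 := (E2_four W h).trans (lc_pow_mono W v (by norm_num))
  have e0 : SV W R Q 0 = 1 * sq2 R Q 0 * sq2 R Q 0 - algebraMap K A W.b₄ * sq2 R Q 0 * sq2 R Q 2 -
      algebraMap K A W.b₆ * sq2 R Q 1 * sq2 R Q 2 -
      algebraMap K A W.b₈ * sq2 R Q 2 * sq2 R Q 2 := by
    simp only [SV, WeierstrassCurve.addSubMap, Matrix.cons_val_zero, map_sub, map_mul, map_pow,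
      aeval_X, aeval_C]
    ring
  have e1 : SV W R Q 1 = 2 * sq2 R Q 1 * sq2 R Q 0 + algebraMap K A W.b₂ * sq2 R Q 0 * sq2 R Q 2 +
      algebraMap K A W.b₄ * sq2 R Q 1 * sq2 R Q 2 +
      algebraMap K A W.b₆ * sq2 R Q 2 * sq2 R Q 2 := by
    simp only [SV, WeierstrassCurve.addSubMap, Matrix.cons_val_one, Matrix.cons_val_zero,
      map_add, map_mul, map_pow, aeval_X, aeval_C, map_ofNat]
    ring
  have e2 : SV W R Q 2 = 1 * sq2 R Q 1 * sq2 R Q 1 - 4 * sq2 R Q 0 * sq2 R Q 2 := by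
    simp only [SV, WeierstrassCurve.addSubMap, Matrix.cons_val,
      map_sub, map_mul, map_pow, aeval_X, aeval_C, map_ofNat]
    ring
  fin_cases i
  · show ν (SV W R Q 0) ≤ _
    rw [e0]
    exact E2_up W v (by norm_num) hx (E2_sub W h (by norm_num) hx (E2_sub W h (by norm_num) hx
      (E2_sub W h le_rfl hx (E2_q W h (hm 0) (hm 0) 1 h1)
        (E2_q W h (hm 0) (hm 2) _ (E2_b₄ W h)))
      (E2_q W h (hm 1) (hm 2) _ (E2_b₆ W h))) (E2_q W h (hm 2) (hm 2) _ (E2_b₈ W h)))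
  · show ν (SV W R Q 1) ≤ _
    rw [e1]
    exact E2_up W v (by norm_num) hx (E2_add W h (by norm_num) hx (E2_add W h (by norm_num) hx
      (E2_add W h le_rfl hx (E2_q W h (hm 1) (hm 0) 2 h2)
        (E2_q W h (hm 0) (hm 2) _ (E2_b₂ W h)))
      (E2_q W h (hm 1) (hm 2) _ (E2_b₄ W h))) (E2_q W h (hm 2) (hm 2) _ (E2_b₆ W h)))
  · show ν (SV W R Q 2) ≤ _
    rw [e2]
    exact E2_up W v (by norm_num) hx (E2_sub W h le_rfl hx
      (E2_q W h (hm 1) (hm 1) 1 h1) (E2_q W h (hm 0) (hm 2) 4 h4))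

theorem S3_size (R Q Z : Fin 2 → A) {r q z : ℝ} (hr : ∀ i, ν (R i) ≤ r) (hq : ∀ i, ν (Q i) ≤ q)
    (hz : ∀ i, ν (Z i) ≤ z) : ν (S3 W R Q Z) ≤ lc W v ^ 20 * (r * q * z) ^ 2 := by
  have hx : 0 ≤ (r * q * z) ^ 2 := sq_nonneg _
  have hs := SV_size W h R Q hr hq
  have ht : ∀ i j k, ν (SV W R Q i * (Z j * Z k)) ≤ lc W v ^ 16 * (r * q * z) ^ 2 := by
    intro i j k
    have e : lc W v ^ 16 * (r * q * z) ^ 2 = lc W v ^ 16 * (r * q) ^ 2 * (z * z) := by ring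
    rw [e]
    exact E2_mul h (hs i) (E2_mul h (hz j) (hz k))
  have e : S3 W R Q Z = SV W R Q 0 * (Z 1 * Z 1) - SV W R Q 1 * (Z 0 * Z 1) +
      SV W R Q 2 * (Z 0 * Z 0) := by
    simp only [S3, QF]
    ring
  rw [e]
  exact E2_up W v (by norm_num) hx (E2_add W h (by norm_num) hx
    (E2_sub W h le_rfl hx (ht 0 1 1) (ht 1 0 1)) (ht 2 0 0))

theorem ph_size (R : Fin 2 → A) {r : ℝ} (hr : ∀ i, ν (R i) ≤ r) :
    ν (ph W R) ≤ lc W v ^ 16 * r ^ 4 := by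
  have hr0 : 0 ≤ r := (h.nonneg _).trans (hr 0)
  have hx : 0 ≤ r ^ 4 := pow_nonneg hr0 4
  have e : ph W R = 4 * R 0 ^ 3 * R 1 ^ 1 + algebraMap K A W.b₂ * R 0 ^ 2 * R 1 ^ 2 +
      2 * algebraMap K A W.b₄ * R 0 ^ 1 * R 1 ^ 3 + algebraMap K A W.b₆ * R 0 ^ 0 * R 1 ^ 4 := by
    simp only [ph]
    ring
  have t1 := E2_mon W h R hr 4 (E2_four W h) 3 1
  have t2 := E2_mon W h R hr _ (E2_b₂ W h) 2 2
  have t3 := E2_mon W h R hr _ (E2_cc W h (E2_two W h) (E2_b₄ W h)) 1 3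
  have t4 := E2_mon W h R hr _ (E2_b₆ W h) 0 4
  rw [e]
  exact E2_up W v (by norm_num) hx (E2_add W h (by norm_num) hx (E2_add W h (m := 9)
    (by norm_num) hx (E2_add W h (m := 8) (by norm_num) hx (E2_up W v (by norm_num) hx t1) t2)
      t3) t4)

theorem dup_size (R : Fin 2 → A) {r : ℝ} (hr : ∀ i, ν (R i) ≤ r) (i : Fin 2) :
    ν (dup W R i) ≤ lc W v ^ 16 * r ^ 4 := by
  have hr0 : 0 ≤ r := (h.nonneg _).trans (hr 0)
  have hx : 0 ≤ r ^ 4 := pow_nonneg hr0 4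
  fin_cases i
  · have e : dup W R 0 = 1 * R 0 ^ 4 * R 1 ^ 0 - algebraMap K A W.b₄ * R 0 ^ 2 * R 1 ^ 2 -
        2 * algebraMap K A W.b₆ * R 0 ^ 1 * R 1 ^ 3 - algebraMap K A W.b₈ * R 0 ^ 0 * R 1 ^ 4 := by
      simp only [dup, Matrix.cons_val_zero]
      ring
    have h1 : ν (1 : A) ≤ lc W v ^ 8 := h.one_le.trans (one_le_pow₀ (one_le_lc W v))
    have t1 := E2_mon W h R hr 1 h1 4 0
    have t2 := E2_mon W h R hr _ (E2_b₄ W h) 2 2
    have t3 := E2_mon W h R hr _ (E2_cc W h (E2_two W h) (E2_b₆ W h)) 1 3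
    have t4 := E2_mon W h R hr _ (E2_b₈ W h) 0 4
    show ν (dup W R 0) ≤ _
    rw [e]
    exact E2_up W v (by norm_num) hx (E2_sub W h (by norm_num) hx (E2_sub W h (m := 9)
      (by norm_num) hx (E2_sub W h (m := 8) (by norm_num) hx t1 t2) t3) t4)
  · exact ph_size W h R hr

/-- Induction on `j` (`Function.iterate_succ_apply'`) for the sharper exponent `6 * (4 ^ j - 1)` of
`lc` (as `16 + 4 * 6 * (4 ^ j - 1) ≤ 6 * (4 ^ (j + 1) - 1)`), then `lc_pow_mono`. -/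
theorem mu_size (j : ℕ) (R : Fin 2 → A) {r : ℝ} (hr : ∀ i, ν (R i) ≤ r) (i : Fin 2) :
    ν (mu W j R i) ≤ lc W v ^ (16 * 4 ^ j) * r ^ (4 ^ j) := by
  have hr0 : 0 ≤ r := (h.nonneg _).trans (hr 0)
  have key : ∀ j : ℕ, ∀ i, ν (mu W j R i) ≤ lc W v ^ (6 * (4 ^ j - 1)) * r ^ (4 ^ j) := by
    intro j
    induction j with
    | zero =>
      intro i
      simpa [mu] using hr i
    | succ j ih =>
      intro i
      have e : mu W (j + 1) R = dup W (mu W j R) := by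
        simp only [mu]
        exact Function.iterate_succ_apply' _ _ _
      rw [e]
      have h1 := dup_size W h (mu W j R) ih i
      have h4 : 1 ≤ 4 ^ j := Nat.one_le_pow _ _ (by norm_num)
      have e2 : lc W v ^ 16 * (lc W v ^ (6 * (4 ^ j - 1)) * r ^ (4 ^ j)) ^ 4 =
          lc W v ^ (16 + 6 * (4 ^ j - 1) * 4) * r ^ (4 ^ (j + 1)) := by
        rw [mul_pow, ← pow_mul, ← pow_mul, ← mul_assoc, ← pow_add, pow_succ]
      rw [e2] at h1
      refine E2_up W v ?_ (pow_nonneg hr0 _) h1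
      rw [pow_succ]
      omega
  exact E2_up W v (by omega) (pow_nonneg hr0 _) (key j i)

theorem nn_size (R : Fin 2 → A) {r : ℝ} (hr : ∀ i, ν (R i) ≤ r) :
    ν (nn W R) ≤ lc W v ^ 32 * r ^ 6 := by
  have hr0 : 0 ≤ r := (h.nonneg _).trans (hr 0)
  have hx : 0 ≤ r ^ 6 := pow_nonneg hr0 6
  have e : nn W R = 2 * R 0 ^ 6 * R 1 ^ 0 + algebraMap K A W.b₂ * R 0 ^ 5 * R 1 ^ 1 +
      5 * algebraMap K A W.b₄ * R 0 ^ 4 * R 1 ^ 2 + 10 * algebraMap K A W.b₆ * R 0 ^ 3 * R 1 ^ 3 +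
      10 * algebraMap K A W.b₈ * R 0 ^ 2 * R 1 ^ 4 +
      (algebraMap K A W.b₂ * algebraMap K A W.b₈ - algebraMap K A W.b₄ * algebraMap K A W.b₆) *
        R 0 ^ 1 * R 1 ^ 5 +
      (algebraMap K A W.b₄ * algebraMap K A W.b₈ - algebraMap K A W.b₆ * algebraMap K A W.b₆) *
        R 0 ^ 0 * R 1 ^ 6 := by
    simp only [nn, map_sub, map_mul, map_pow]
    ring
  have c6 : ν (algebraMap K A W.b₂ * algebraMap K A W.b₈ -
      algebraMap K A W.b₄ * algebraMap K A W.b₆) ≤ lc W v ^ 17 := by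
    have := E2_sub W h (le_refl 16) zero_le_one
      (by rw [mul_one]; exact E2_cc W h (E2_b₂ W h) (E2_b₈ W h))
      (by rw [mul_one]; exact E2_cc W h (E2_b₄ W h) (E2_b₆ W h))
    simpa using this
  have c7 : ν (algebraMap K A W.b₄ * algebraMap K A W.b₈ -
      algebraMap K A W.b₆ * algebraMap K A W.b₆) ≤ lc W v ^ 17 := by
    have := E2_sub W h (le_refl 16) zero_le_one
      (by rw [mul_one]; exact E2_cc W h (E2_b₄ W h) (E2_b₈ W h))
      (by rw [mul_one]; exact E2_cc W h (E2_b₆ W h) (E2_b₆ W h))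
    simpa using this
  have t1 := E2_mon W h R hr 2 (E2_two W h) 6 0
  have t2 := E2_mon W h R hr _ (E2_b₂ W h) 5 1
  have t3 := E2_mon W h R hr _ (E2_cc W h (E2_five W h) (E2_b₄ W h)) 4 2
  have t4 := E2_mon W h R hr _ (E2_cc W h (E2_ten W h) (E2_b₆ W h)) 3 3
  have t5 := E2_mon W h R hr _ (E2_cc W h (E2_ten W h) (E2_b₈ W h)) 2 4
  have t6 := E2_mon W h R hr _ c6 1 5
  have t7 := E2_mon W h R hr _ c7 0 6
  rw [e]
  have s2 := E2_add W h (m := 17) (by norm_num) hx (E2_up W v (by norm_num) hx t1) t2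
  have s3 := E2_add W h (by norm_num) hx s2 t3
  have s4 := E2_add W h (by norm_num) hx s3 t4
  have s5 := E2_add W h (by norm_num) hx s4 t5
  have s6 := E2_add W h (by norm_num) hx s5 t6
  have s7 := E2_add W h (by norm_num) hx s6 t7
  exact E2_up W v (by norm_num) hx s7

/-- Induction on `j` with `mu_size`, `nn_size`: the exponent of `lc` is at most
`∑_{i < j} (32 + 96 * 4 ^ i) ≤ 64 * 4 ^ j`, that of `r` is `∑_{i < j} 6 * 4 ^ i = 2 (4 ^ j - 1)`. -/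
theorem nj_size (j : ℕ) (R : Fin 2 → A) {r : ℝ} (hr : ∀ i, ν (R i) ≤ r) :
    ν (nj W j R) ≤ lc W v ^ (64 * 4 ^ j) * r ^ (2 * (4 ^ j - 1)) := by
  have hr0 : 0 ≤ r := (h.nonneg _).trans (hr 0)
  have key : ∀ j : ℕ, ν (nj W j R) ≤
      lc W v ^ (32 * j + 32 * (4 ^ j - 1)) * r ^ (2 * (4 ^ j - 1)) := by
    intro j
    induction j with
    | zero => simpa [nj] using h.one_le
    | succ j ih =>
      have h4 : 1 ≤ 4 ^ j := Nat.one_le_pow _ _ (by norm_num)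
      have h1 := nn_size W h (mu W j R) (mu_size W h j R hr)
      have h2 := E2_mul h ih h1
      have e2 : lc W v ^ (32 * j + 32 * (4 ^ j - 1)) * r ^ (2 * (4 ^ j - 1)) *
          (lc W v ^ 32 * (lc W v ^ (16 * 4 ^ j) * r ^ (4 ^ j)) ^ 6) =
          lc W v ^ (32 * j + 32 * (4 ^ j - 1) + 32 + 16 * 4 ^ j * 6) *
            r ^ (2 * (4 ^ j - 1) + 4 ^ j * 6) := by
        simp only [pow_add, pow_mul, mul_pow]
        ring
      rw [e2] at h2
      have e3 : 2 * (4 ^ j - 1) + 4 ^ j * 6 = 2 * (4 ^ (j + 1) - 1) := by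
        rw [pow_succ]
        omega
      rw [e3] at h2
      refine E2_up W v ?_ (pow_nonneg hr0 _) h2
      rw [pow_succ]
      omega
  refine E2_up W v ?_ (pow_nonneg hr0 _) (key j)
  have h5 : j + 1 ≤ 4 ^ j := (Nat.lt_pow_self (by norm_num : 1 < 4))
  omega

end Pool.Agent.Lib.MP_17a322_nt.VJ
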