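import Pool.Agent.Lib.MP_17a322_nt.VJ.DefsE

/-!
Identities between the elliptic forms.
-/

namespace Pool.Agent.Lib.MP_17a322_nt.VJ

open MvPolynomial Height
open Pool.Agent.Lib.MP_17a322_nt.RO

variable {K : Type*} [Field K] (W : WeierstrassCurve K) {A : Type*} [CommRing A] [Algebra K A]

/-- Unfold `addSubMap` (compare RO/A1 `A1_eval0`). -/
theorem SV_zero (R Q : Fin 2 → A) :
    SV W R Q 0 = (R 0 * Q 0) ^ 2 - algebraMap K A W.b₄ * (R 0 * Q 0) * (R 1 * Q 1) -
      algebraMap K A W.b₆ * (R 0 * Q 1 + R 1 * Q 0) * (R 1 * Q 1) -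
        algebraMap K A W.b₈ * (R 1 * Q 1) ^ 2 := by
  unfold SV
  simp [WeierstrassCurve.addSubMap, sq2]

theorem SV_one (R Q : Fin 2 → A) :
    SV W R Q 1 = 2 * (R 0 * Q 1 + R 1 * Q 0) * (R 0 * Q 0) +
      algebraMap K A W.b₂ * (R 0 * Q 0) * (R 1 * Q 1) +
      algebraMap K A W.b₄ * (R 0 * Q 1 + R 1 * Q 0) * (R 1 * Q 1) +
        algebraMap K A W.b₆ * (R 1 * Q 1) ^ 2 := by
  have h2 : algebraMap K A 2 = 2 := map_ofNat _ 2
  unfold SV
  simp [WeierstrassCurve.addSubMap, sq2, h2]

theorem SV_two (R Q : Fin 2 → A) : SV W R Q 2 = wd R Q ^ 2 := by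
  have h4 : algebraMap K A 4 = 4 := map_ofNat _ 4
  unfold SV wd
  simp only [WeierstrassCurve.addSubMap, sq2, Matrix.cons_val, map_sub, map_mul, map_pow, aeval_X,
    aeval_C, h4]
  ring

theorem SV_comm (R Q : Fin 2 → A) : SV W R Q = SV W Q R := by
  funext i
  fin_cases i
  · change SV W R Q 0 = SV W Q R 0
    rw [SV_zero, SV_zero]
    ring
  · change SV W R Q 1 = SV W Q R 1
    rw [SV_one, SV_one]
    ring
  · change SV W R Q 2 = SV W Q R 2
    rw [SV_two, SV_two]
    unfold wd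
    ring

theorem S3_comm (R Q Z : Fin 2 → A) : S3 W R Q Z = S3 W Q R Z := by
  unfold S3
  rw [SV_comm]

/-- `S3` is symmetric in all three vectors (`ring` after `SV_zero`, `SV_one`, `SV_two`). -/
theorem S3_comm' (R Q Z : Fin 2 → A) : S3 W R Q Z = S3 W R Z Q := by
  unfold S3 QF
  rw [SV_zero, SV_one, SV_two, SV_zero, SV_one, SV_two]
  unfold wd
  ring

theorem QF_sq2 (p p' Z : Fin 2 → A) : QF (sq2 p p') Z = wd p Z * wd p' Z := by
  simp only [QF, sq2, wd, Matrix.cons_val_zero, Matrix.cons_val_one, Matrix.cons_val]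
  ring

theorem QF_smul (a : A) (s : Fin 3 → A) (Z : Fin 2 → A) : QF (a • s) Z = a * QF s Z := by
  simp only [QF, Pi.smul_apply, smul_eq_mul]
  ring

theorem SV_smul (a b : A) (R Q : Fin 2 → A) (i : Fin 3) :
    SV W (a • R) (b • Q) i = (a * b) ^ 2 * SV W R Q i := by
  fin_cases i
  · change SV W _ _ 0 = _ * SV W R Q 0
    rw [SV_zero, SV_zero]
    simp only [Pi.smul_apply, smul_eq_mul]
    ring
  · change SV W _ _ 1 = _ * SV W R Q 1
    rw [SV_one, SV_one]
    simp only [Pi.smul_apply, smul_eq_mul]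
    ring
  · change SV W _ _ 2 = _ * SV W R Q 2
    rw [SV_two, SV_two]
    simp only [wd, Pi.smul_apply, smul_eq_mul]
    ring

theorem S3_smul (a b c : A) (R Q Z : Fin 2 → A) :
    S3 W (a • R) (b • Q) (c • Z) = (a * b * c) ^ 2 * S3 W R Q Z := by
  unfold S3 QF
  rw [SV_smul, SV_smul, SV_smul]
  simp only [Pi.smul_apply, smul_eq_mul]
  ring

theorem ph_smul (a : A) (R : Fin 2 → A) : ph W (a • R) = a ^ 4 * ph W R := by
  simp only [ph, Pi.smul_apply, smul_eq_mul]
  ring

theorem dup_smul (a : A) (R : Fin 2 → A) : dup W (a • R) = a ^ 4 • dup W R := by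
  funext i
  fin_cases i
  · simp only [dup, ph, Pi.smul_apply, smul_eq_mul, Fin.zero_eta, Matrix.cons_val_zero]
    ring
  · simp only [dup, ph, Pi.smul_apply, smul_eq_mul, Fin.mk_one, Matrix.cons_val_one,
      Matrix.cons_val_fin_one]
    ring

theorem mu_smul (j : ℕ) (a : A) (R : Fin 2 → A) : mu W j (a • R) = a ^ 4 ^ j • mu W j R := by
  induction j with
  | zero => simp [mu]
  | succ j ih =>
    rw [mu, Function.iterate_succ_apply', ← mu, ih, dup_smul, ← pow_mul, ← pow_succ, mu, mu,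
      Function.iterate_succ_apply']

theorem nn_smul (a : A) (R : Fin 2 → A) : nn W (a • R) = a ^ 6 * nn W R := by
  simp only [nn, Pi.smul_apply, smul_eq_mul]
  ring

theorem nj_smul (j : ℕ) (a : A) (R : Fin 2 → A) :
    nj W j (a • R) = a ^ (2 * (4 ^ j - 1)) * nj W j R := by
  induction j with
  | zero => simp [nj]
  | succ j ih =>
    have h1 : 1 ≤ 4 ^ j := Nat.one_le_pow _ _ (by norm_num)
    obtain ⟨m, hm⟩ := Nat.exists_eq_add_of_le h1
    have h2 : 2 * (4 ^ (j + 1) - 1) = 2 * (4 ^ j - 1) + 4 ^ j * 6 := by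
      rw [pow_succ]
      omega
    rw [nj, ih, mu_smul, nn_smul, ← pow_mul, nj, h2, pow_add]
    ring

theorem mu_zero (R : Fin 2 → A) : mu W 0 R = R := by
  rfl

theorem mu_succ (j : ℕ) (R : Fin 2 → A) : mu W (j + 1) R = dup W (mu W j R) := by
  unfold mu
  rw [Function.iterate_succ_apply']

theorem mu_add (i j : ℕ) (R : Fin 2 → A) : mu W (i + j) R = mu W i (mu W j R) := by
  unfold mu
  rw [Function.iterate_add_apply]

/-- The discriminant of the quadratic form `QF (SV W R Q)`. -/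
theorem SV_disc (R Q : Fin 2 → A) :
    SV W R Q 1 ^ 2 - 4 * SV W R Q 0 * SV W R Q 2 = ph W R * ph W Q := by
  rw [SV_zero, SV_one, SV_two]
  have hb : (4 : A) * algebraMap K A W.b₈ =
      algebraMap K A W.b₂ * algebraMap K A W.b₆ - algebraMap K A W.b₄ ^ 2 := by
    have := congrArg (algebraMap K A) W.b_relation
    simpa only [map_mul, map_sub, map_pow, map_ofNat] using this
  unfold ph wd
  generalize algebraMap K A W.b₂ = b₂ at *
  generalize algebraMap K A W.b₄ = b₄ at *
  generalize algebraMap K A W.b₆ = b₆ at *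
  generalize algebraMap K A W.b₈ = b₈ at *
  generalize R 0 = x
  generalize R 1 = y
  generalize Q 0 = z
  generalize Q 1 = w
  linear_combination (y ^ 2 * w ^ 2 * (x * w - y * z) ^ 2) * hb

/-- Uses `b₂ b₆ - b₄ ^ 2 = 4 b₈` (`WeierstrassCurve.b_relation`). Checked numerically. -/
theorem ph_dup (R : Fin 2 → A) : ph W (dup W R) = ph W R * nn W R ^ 2 := by
  have hb : (4 : A) * algebraMap K A W.b₈ =
      algebraMap K A W.b₂ * algebraMap K A W.b₆ - algebraMap K A W.b₄ ^ 2 := by
    have := congrArg (algebraMap K A) W.b_relation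
    simpa only [map_mul, map_sub, map_pow, map_ofNat] using this
  have e0 : dup W R 0 = R 0 ^ 4 - algebraMap K A W.b₄ * R 0 ^ 2 * R 1 ^ 2 -
      2 * algebraMap K A W.b₆ * R 0 * R 1 ^ 3 - algebraMap K A W.b₈ * R 1 ^ 4 := rfl
  have e1 : dup W R 1 = ph W R := rfl
  rw [ph, e0, e1]
  unfold nn ph
  simp only [map_mul, map_sub, map_pow]
  generalize algebraMap K A W.b₂ = b₂ at *
  generalize algebraMap K A W.b₄ = b₄ at *
  generalize algebraMap K A W.b₆ = b₆ at *
  generalize algebraMap K A W.b₈ = b₈ at *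
  generalize R 0 = x
  generalize R 1 = y
  linear_combination (y * (4 * x ^ 3 + b₂ * x ^ 2 * y + 2 * b₄ * x * y ^ 2 + b₆ * y ^ 3) *
    ((-13) * x ^ 8 * y ^ 4 + (-8) * x ^ 7 * y ^ 5 * b₂ + (-1) * x ^ 6 * y ^ 6 * b₂ ^ 2 +
    (-28) * x ^ 6 * y ^ 6 * b₄ + (-6) * x ^ 5 * y ^ 7 * b₂ * b₄ + (-38) * x ^ 5 * y ^ 7 * b₆
    + (-7) * x ^ 4 * y ^ 8 * b₂ * b₆ + (-8) * x ^ 4 * y ^ 8 * b₄ ^ 2 + (-22) * x ^ 4 * y ^ 8
    * b₈ + (-4) * x ^ 3 * y ^ 9 * b₂ * b₈ + (-16) * x ^ 3 * y ^ 9 * b₄ * b₆ + (-8) * x ^ 2 *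
    y ^ 10 * b₄ * b₈ + (-7) * x ^ 2 * y ^ 10 * b₆ ^ 2 + (-6) * x * y ^ 11 * b₆ * b₈ + (-1) *
    y ^ 12 * b₈ ^ 2)) * hb

theorem ph_mu (j : ℕ) (R : Fin 2 → A) : ph W (mu W j R) = ph W R * nj W j R ^ 2 := by
  induction j with
  | zero => simp [mu, nj]
  | succ j ih =>
    rw [mu_succ, ph_dup, ih, nj]
    ring

/-- Duplication is the case `R = Q`. -/
theorem SV_self (R : Fin 2 → A) : SV W R R = ![dup W R 0, dup W R 1, 0] := by
  funext i
  fin_cases i
  · change SV W R R 0 = dup W R 0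
    rw [SV_zero]
    simp only [dup, Matrix.cons_val_zero]
    ring
  · change SV W R R 1 = dup W R 1
    rw [SV_one]
    simp only [dup, ph, Matrix.cons_val_one, Matrix.cons_val_fin_one]
    ring
  · change SV W R R 2 = 0
    rw [SV_two]
    unfold wd
    ring

/-- The quadratic form `QF s` at the two columns `((s 1 + B) / 2, s 2)` and `(s 0, (s 1 - B) / 2)`
vanishes if `B ^ 2 = s 1 ^ 2 - 4 s 0 s 2`. Here with `a = (s 1 + B) / 2`, `b = (s 1 - B) / 2`:
`a + b = s 1`, `a * b = s 0 * s 2`. -/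
theorem QF_col (s : Fin 3 → A) (a b : A) (h1 : a + b = s 1) (h2 : a * b = s 0 * s 2) :
    QF s ![a, s 2] = 0 ∧ QF s ![s 0, b] = 0 := by
  constructor
  · simp only [QF, Matrix.cons_val_zero, Matrix.cons_val_one, Matrix.cons_val_fin_one]
    linear_combination (s 2 * a) * h1 - s 2 * h2
  · simp only [QF, Matrix.cons_val_zero, Matrix.cons_val_one, Matrix.cons_val_fin_one]
    linear_combination (s 0 * b) * h1 - s 0 * h2

section hom

variable {A' : Type*} [CommRing A'] [Algebra K A'] (f : A →ₐ[K] A')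

theorem map_SV (R Q : Fin 2 → A) (i : Fin 3) :
    f (SV W R Q i) = SV W (fun j => f (R j)) (fun j => f (Q j)) i := by
  fin_cases i
  · change f (SV W R Q 0) = SV W _ _ 0
    rw [SV_zero, SV_zero]
    simp only [map_sub, map_add, map_mul, map_pow, AlgHom.commutes]
  · change f (SV W R Q 1) = SV W _ _ 1
    rw [SV_one, SV_one]
    simp only [map_add, map_mul, map_pow, AlgHom.commutes, map_ofNat]
  · change f (SV W R Q 2) = SV W _ _ 2
    rw [SV_two, SV_two]
    simp only [wd, map_sub, map_mul, map_pow]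

theorem map_QF (s : Fin 3 → A) (Z : Fin 2 → A) :
    f (QF s Z) = QF (fun j => f (s j)) (fun j => f (Z j)) := by
  simp only [QF, map_sub, map_add, map_mul, map_pow]

theorem map_S3 (R Q Z : Fin 2 → A) :
    f (S3 W R Q Z) = S3 W (fun j => f (R j)) (fun j => f (Q j)) (fun j => f (Z j)) := by
  unfold S3
  rw [map_QF]
  simp only [map_SV]

theorem map_ph (R : Fin 2 → A) : f (ph W R) = ph W (fun j => f (R j)) := by
  simp only [ph, map_add, map_mul, map_pow, AlgHom.commutes, map_ofNat]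

theorem map_dup (R : Fin 2 → A) (i : Fin 2) : f (dup W R i) = dup W (fun j => f (R j)) i := by
  fin_cases i
  · change f (dup W R 0) = dup W _ 0
    simp only [dup, Matrix.cons_val_zero, map_sub, map_mul, map_pow, AlgHom.commutes, map_ofNat]
  · exact map_ph W f R

theorem map_mu (n : ℕ) (R : Fin 2 → A) (i : Fin 2) :
    f (mu W n R i) = mu W n (fun j => f (R j)) i := by
  induction n generalizing i with
  | zero => rfl
  | succ n ih =>
    rw [mu_succ, mu_succ, map_dup]
    exact congrArg (fun v => dup W v i) (funext fun j => ih j)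

theorem map_nn (R : Fin 2 → A) : f (nn W R) = nn W (fun j => f (R j)) := by
  simp only [nn, map_sub, map_add, map_mul, map_pow, AlgHom.commutes, map_ofNat]

theorem map_nj (n : ℕ) (R : Fin 2 → A) : f (nj W n R) = nj W n (fun j => f (R j)) := by
  induction n with
  | zero => simp [nj]
  | succ n ih =>
    rw [nj, nj, map_mul, ih, map_nn]
    exact congrArg (fun v => nj W n (fun j => f (R j)) * nn W v)
      (funext fun j => map_mu W f n R j)

end hom

section baseChange

variable {L : Type*} [Field L] [Algebra K L] [Algebra L A] [IsScalarTower K L A]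

/-- The forms of the curve over an extension field are the same. -/
theorem SV_map (R Q : Fin 2 → A) : SV (W.map (algebraMap K L)) R Q = SV W R Q := by
  have e2 : algebraMap L A (W.map (algebraMap K L)).b₂ = algebraMap K A W.b₂ := by
    rw [WeierstrassCurve.map_b₂, ← IsScalarTower.algebraMap_apply]
  have e4 : algebraMap L A (W.map (algebraMap K L)).b₄ = algebraMap K A W.b₄ := by
    rw [WeierstrassCurve.map_b₄, ← IsScalarTower.algebraMap_apply]
  have e6 : algebraMap L A (W.map (algebraMap K L)).b₆ = algebraMap K A W.b₆ := by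
    rw [WeierstrassCurve.map_b₆, ← IsScalarTower.algebraMap_apply]
  have e8 : algebraMap L A (W.map (algebraMap K L)).b₈ = algebraMap K A W.b₈ := by
    rw [WeierstrassCurve.map_b₈, ← IsScalarTower.algebraMap_apply]
  funext i
  fin_cases i
  · change SV _ R Q 0 = SV W R Q 0
    rw [SV_zero, SV_zero, e4, e6, e8]
  · change SV _ R Q 1 = SV W R Q 1
    rw [SV_one, SV_one, e2, e4, e6]
  · change SV _ R Q 2 = SV W R Q 2
    rw [SV_two, SV_two]

theorem S3_map (R Q Z : Fin 2 → A) : S3 (W.map (algebraMap K L)) R Q Z = S3 W R Q Z := by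
  unfold S3
  rw [SV_map]

theorem ph_map (R : Fin 2 → A) : ph (W.map (algebraMap K L)) R = ph W R := by
  have e2 : algebraMap L A (W.map (algebraMap K L)).b₂ = algebraMap K A W.b₂ := by
    rw [WeierstrassCurve.map_b₂, ← IsScalarTower.algebraMap_apply]
  have e4 : algebraMap L A (W.map (algebraMap K L)).b₄ = algebraMap K A W.b₄ := by
    rw [WeierstrassCurve.map_b₄, ← IsScalarTower.algebraMap_apply]
  have e6 : algebraMap L A (W.map (algebraMap K L)).b₆ = algebraMap K A W.b₆ := by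
    rw [WeierstrassCurve.map_b₆, ← IsScalarTower.algebraMap_apply]
  unfold ph
  rw [e2, e4, e6]

theorem mu_map (j : ℕ) (R : Fin 2 → A) : mu (W.map (algebraMap K L)) j R = mu W j R := by
  have hd : ∀ R : Fin 2 → A, dup (W.map (algebraMap K L)) R = dup W R := by
    intro R
    have e4 : algebraMap L A (W.map (algebraMap K L)).b₄ = algebraMap K A W.b₄ := by
      rw [WeierstrassCurve.map_b₄, ← IsScalarTower.algebraMap_apply]
    have e6 : algebraMap L A (W.map (algebraMap K L)).b₆ = algebraMap K A W.b₆ := by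
      rw [WeierstrassCurve.map_b₆, ← IsScalarTower.algebraMap_apply]
    have e8 : algebraMap L A (W.map (algebraMap K L)).b₈ = algebraMap K A W.b₈ := by
      rw [WeierstrassCurve.map_b₈, ← IsScalarTower.algebraMap_apply]
    unfold dup
    rw [e4, e6, e8, ph_map]
  induction j with
  | zero => rfl
  | succ j ih => rw [mu_succ, mu_succ, ih, hd]

theorem nj_map (j : ℕ) (R : Fin 2 → A) : nj (W.map (algebraMap K L)) j R = nj W j R := by
  have hn : ∀ R : Fin 2 → A, nn (W.map (algebraMap K L)) R = nn W R := by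
    intro R
    unfold nn
    simp only [WeierstrassCurve.map_b₂, WeierstrassCurve.map_b₄, WeierstrassCurve.map_b₆,
      WeierstrassCurve.map_b₈, ← map_mul, ← map_sub, ← map_pow,
      ← IsScalarTower.algebraMap_apply]
  induction j with
  | zero => rfl
  | succ j ih => rw [nj, nj, ih, mu_map, hn]

end baseChange

end Pool.Agent.Lib.MP_17a322_nt.VJ
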