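import Pool.Agent.Lib.MP_17a322_nt.VJ.J7
import Pool.Agent.Lib.MP_17a322_nt.VJ.E2
import Pool.Agent.Lib.MP_17a322_nt.VJ.E3

/-!
The square root of `ph` along the branch and its size.
-/

namespace Pool.Agent.Lib.MP_17a322_nt.VJ

open MvPolynomial Height
open Pool.Agent.Lib.MP_17a322_nt.RO

section

variable {K : Type*} [Field K] (v : AbsoluteValue K ℝ)

/-- Size of the square root. -/
theorem J8_sqrt (B R : PowerSeries K) (c : K) (hc : c ≠ 0)
    (hB : PowerSeries.constantCoeff B = 0) (h : PowerSeries.C c * B + B ^ 2 = R)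
    {r : ℝ} (hr : 0 ≤ r) (hR : ∀ n, PN v r n R ≤ (v c / cst v 2) ^ 2) (n : ℕ) :
    PN v r n B ≤ v c / cst v 2 := by
  have hvc : 0 < v c := v.pos hc
  have hcst : 1 ≤ cst v 2 := one_le_cst v (by norm_num)
  have hcst0 : 0 < cst v 2 := lt_of_lt_of_le one_pos hcst
  have hb0 : 0 < v c / cst v 2 := div_pos hvc hcst0
  induction n with
  | zero =>
    rw [PN_zero, hB, map_zero]
    exact hb0.le
  | succ n ih =>
    have hS := SN_PN v hr (n + 1)
    have h1 : PN v r (n + 1) (B ^ 2) ≤ (v c / cst v 2) ^ 2 := by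
      rw [pow_two]
      refine (PN_mul_le_of_constantCoeff v hr n B B hB hB).trans ?_
      rw [pow_two]
      exact mul_le_mul ih ih ((SN_PN v hr n).nonneg B) hb0.le
    have h2 : PN v r (n + 1) (PowerSeries.C c * B) ≤ cst v 2 * (v c / cst v 2) ^ 2 := by
      have e : PowerSeries.C c * B = R - B ^ 2 := by rw [← h]; ring
      rw [e]
      exact SN.sub_le_cst hS (hR (n + 1)) h1
    rw [PN_C_mul v hr] at h2
    have h3 : cst v 2 * (v c / cst v 2) ^ 2 = v c * (v c / cst v 2) := by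
      field_simp
    rw [h3] at h2
    exact le_of_mul_le_mul_left h2 hvc

variable (W : WeierstrassCurve K)

/-- The difference of the values of `ph` at `α + U` and at `α`. -/
theorem J8_ph_sub (α : K) (U : PowerSeries K) :
    ph W ![PowerSeries.C α + U, 1] - PowerSeries.C (ph W ![α, 1]) =
      U * (PowerSeries.C (12 * α ^ 2 + 2 * W.b₂ * α + 2 * W.b₄) +
        PowerSeries.C (12 * α + W.b₂) * U + PowerSeries.C 4 * U ^ 2) := by
  unfold ph
  simp only [Matrix.cons_val_zero, Matrix.cons_val_one, PowerSeries.algebraMap_apply,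
    Algebra.algebraMap_self_apply, one_mul, mul_one, one_pow, map_add, map_mul, map_pow, map_ofNat]
  ring

theorem J8_natCast_le (v : AbsoluteValue K ℝ) (n : ℕ) : v (n : K) ≤ cst v n := by
  have := SN.nsmul_le (SN_self v) n (1 : K)
  simpa using this

/-- Size of the difference. Proof: `J8_ph_sub`; the three coefficients have size at most
`lc ^ 11 * vn ^ 2` (`cst_le_lc_pow`, `b₂_le`, `b₄_le`), and `PN U ≤ u ≤ 1`. -/
theorem J8_size (α : K) (U : PowerSeries K) {r u : ℝ} (hr : 0 ≤ r) (n : ℕ) (hu : 0 ≤ u)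
    (hu1 : u ≤ 1) (hU : PN v r n U ≤ u) :
    PN v r n (ph W ![PowerSeries.C α + U, 1] - PowerSeries.C (ph W ![α, 1])) ≤
      u * (lc W v ^ 16 * vn v ![α, 1] ^ 4) := by
  have hS := SN_PN v hr n
  have hSv := SN_self v
  rw [J8_ph_sub]
  set X : ℝ := vn v ![α, 1] with hX
  set l : ℝ := lc W v with hl
  have hX1 : 1 ≤ X := by
    rw [hX]; unfold vn; simp
  have hαX : v α ≤ X := by
    rw [hX]; unfold vn; simp
  have hl1 : 1 ≤ l := one_le_lc W v
  have hl0 : 0 < l := lt_of_lt_of_le one_pos hl1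
  have hX0 : 0 < X := lt_of_lt_of_le one_pos hX1
  have hb2 : v W.b₂ ≤ l ^ 8 := by simpa using b₂_le W v
  have hb4 : v W.b₄ ≤ l ^ 8 := by simpa using b₄_le W v
  have c2 : cst v 2 ≤ l := cst_two_le_lc W v
  have c20 : 0 ≤ cst v 2 := cst_nonneg v 2
  have n2 : v (2 : K) ≤ l := (by simpa using J8_natCast_le v 2 : v (2 : K) ≤ cst v 2).trans c2
  have c4 : cst v 4 ≤ l ^ 2 := by
    rw [show (4 : ℕ) = 2 ^ 2 by norm_num, cst_pow]
    exact pow_le_pow_left₀ c20 c2 2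
  have c3 : cst v 3 ≤ l ^ 2 := (cst_mono v (by norm_num)).trans c4
  have n4 : v (4 : K) ≤ l ^ 2 := (by simpa using J8_natCast_le v 4 : v (4 : K) ≤ cst v 4).trans c4
  have n12 : v (12 : K) ≤ l ^ 4 := by
    have e : v (12 : K) ≤ cst v 12 := by simpa using J8_natCast_le v 12
    refine e.trans ((cst_mono v (by norm_num : 12 ≤ 16)).trans ?_)
    rw [show (16 : ℕ) = 2 ^ 4 by norm_num, cst_pow]
    exact pow_le_pow_left₀ c20 c2 4
  -- the bound
  have hB0 : 0 ≤ l ^ 9 * X ^ 2 := by positivity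
  have pw : ∀ {a b : ℕ}, a ≤ b → l ^ a ≤ l ^ b := fun h => pow_le_pow_right₀ hl1 h
  have t1 : v (12 * α ^ 2) ≤ l ^ 9 * X ^ 2 := by
    rw [map_mul, map_pow]
    exact mul_le_mul (n12.trans (pw (by norm_num))) (pow_le_pow_left₀ (v.nonneg _) hαX 2)
      (by positivity) (by positivity)
  have t2 : v (2 * W.b₂ * α) ≤ l ^ 9 * X ^ 2 := by
    rw [map_mul, map_mul]
    have e1 : v 2 * v W.b₂ ≤ l ^ 9 := by
      calc v 2 * v W.b₂ ≤ l * l ^ 8 := mul_le_mul n2 hb2 (v.nonneg _) hl0.le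
        _ = l ^ 9 := by ring
    have e2 : v α ≤ X ^ 2 := hαX.trans (by nlinarith)
    exact mul_le_mul e1 e2 (v.nonneg _) (by positivity)
  have t3 : v (2 * W.b₄) ≤ l ^ 9 * X ^ 2 := by
    rw [map_mul]
    have e1 : v 2 * v W.b₄ ≤ l ^ 9 := by
      calc v 2 * v W.b₄ ≤ l * l ^ 8 := mul_le_mul n2 hb4 (v.nonneg _) hl0.le
        _ = l ^ 9 := by ring
    refine e1.trans ?_
    have : 1 ≤ X ^ 2 := one_le_pow₀ hX1
    nlinarith [pow_pos hl0 9]
  have hB1 : l ^ 9 * X ^ 2 ≤ l ^ 11 * X ^ 2 :=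
    mul_le_mul_of_nonneg_right (pw (by norm_num)) (by positivity)
  have s1 : v (12 * α ^ 2 + 2 * W.b₂ * α + 2 * W.b₄) ≤ l ^ 11 * X ^ 2 := by
    have e1 : v (12 * α ^ 2 + 2 * W.b₂ * α) ≤ cst v 2 * (l ^ 9 * X ^ 2) :=
      SN.add_le_cst hSv t1 t2
    have e2 : v (12 * α ^ 2 + 2 * W.b₂ * α + 2 * W.b₄) ≤ cst v 2 * (cst v 2 * (l ^ 9 * X ^ 2)) :=
      SN.add_le_cst hSv e1 (t3.trans (le_mul_of_one_le_left hB0 (one_le_cst v (by norm_num))))
    refine e2.trans ?_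
    calc cst v 2 * (cst v 2 * (l ^ 9 * X ^ 2)) ≤ l * (l * (l ^ 9 * X ^ 2)) := by gcongr
      _ = _ := by ring
  have s2 : v (12 * α + W.b₂) ≤ l ^ 11 * X ^ 2 := by
    have e1 : v (12 * α) ≤ l ^ 9 * X ^ 2 := by
      rw [map_mul]
      exact mul_le_mul (n12.trans (pw (by norm_num))) (hαX.trans (by nlinarith)) (v.nonneg _)
        (by positivity)
    have e2 : v W.b₂ ≤ l ^ 9 * X ^ 2 := by
      refine (hb2.trans (pw (by norm_num : 8 ≤ 9))).trans ?_
      have : 1 ≤ X ^ 2 := one_le_pow₀ hX1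
      nlinarith [pow_pos hl0 9]
    refine (SN.add_le_cst hSv e1 e2).trans ?_
    calc cst v 2 * (l ^ 9 * X ^ 2) ≤ l * (l ^ 9 * X ^ 2) := by gcongr
      _ = l ^ 10 * X ^ 2 := by ring
      _ ≤ _ := mul_le_mul_of_nonneg_right (pw (by norm_num)) (by positivity)
  have s3 : v (4 : K) ≤ l ^ 11 * X ^ 2 := by
    refine (n4.trans (pw (by norm_num : 2 ≤ 11))).trans ?_
    have : 1 ≤ X ^ 2 := one_le_pow₀ hX1
    nlinarith [pow_pos hl0 11]
  have hU1 : PN v r n U ≤ 1 := hU.trans hu1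
  have hU0 : 0 ≤ PN v r n U := (SN_PN v hr n).nonneg U
  have hB : 0 ≤ l ^ 11 * X ^ 2 := by positivity
  have w1 : PN v r n (PowerSeries.C (12 * α ^ 2 + 2 * W.b₂ * α + 2 * W.b₄)) ≤ l ^ 11 * X ^ 2 := by
    rw [PN_C]; exact s1
  have w2 : PN v r n (PowerSeries.C (12 * α + W.b₂) * U) ≤ l ^ 11 * X ^ 2 := by
    rw [PN_C_mul v hr]
    calc _ ≤ (l ^ 11 * X ^ 2) * 1 := mul_le_mul s2 hU1 hU0 hB
      _ = _ := mul_one _
  have w3 : PN v r n (PowerSeries.C 4 * U ^ 2) ≤ l ^ 11 * X ^ 2 := by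
    rw [PN_C_mul v hr]
    calc _ ≤ (l ^ 11 * X ^ 2) * 1 :=
          mul_le_mul s3 ((SN.pow_le hS U 2).trans (pow_le_one₀ hU0 hU1)) ((SN_PN v hr n).nonneg _) hB
      _ = _ := mul_one _
  have w12 : PN v r n (PowerSeries.C (12 * α ^ 2 + 2 * W.b₂ * α + 2 * W.b₄) +
      PowerSeries.C (12 * α + W.b₂) * U) ≤ cst v 2 * (l ^ 11 * X ^ 2) :=
    SN.add_le_cst hS w1 w2
  have w : PN v r n (PowerSeries.C (12 * α ^ 2 + 2 * W.b₂ * α + 2 * W.b₄) +
        PowerSeries.C (12 * α + W.b₂) * U + PowerSeries.C 4 * U ^ 2) ≤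
          cst v 2 * (cst v 2 * (l ^ 11 * X ^ 2)) :=
    SN.add_le_cst hS w12 (w3.trans (le_mul_of_one_le_left hB (one_le_cst v (by norm_num))))
  refine ((SN_PN v hr n).mul _ _).trans ?_
  refine mul_le_mul hU (w.trans ?_) ((SN_PN v hr n).nonneg _) hu
  calc cst v 2 * (cst v 2 * (l ^ 11 * X ^ 2)) ≤ l * (l * (l ^ 11 * X ^ 2)) := by gcongr
    _ = l ^ 13 * X ^ 2 := by ring
    _ ≤ l ^ 16 * X ^ 4 := by
        apply mul_le_mul (pw (by norm_num)) _ (by positivity) (by positivity)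
        exact pow_le_pow_right₀ hX1 (by norm_num)

/-- The square root of `ph` along the branch. `b0 = v (2 β) / cst v 2`. Proof. `J6_sqrt` for
`R = ph W ![C α + U, 1]` (constant coefficient `ph W ![α, 1]` by `J8_ph_sub`), and `J8_sqrt` for
`c = 2 β`, `B ^ 2 + C (2 β) * B = R - C (β ^ 2)`; `J8_size`. -/
theorem J8_beta (α β : K) (hβ : ph W ![α, 1] = β ^ 2) (h2 : 2 * β ≠ 0)
    (U : PowerSeries K) (hU : PowerSeries.constantCoeff U = 0) :
    ∃ b : PowerSeries K, PowerSeries.constantCoeff b = β ∧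
      b ^ 2 = ph W ![PowerSeries.C α + U, 1] ∧
      ∀ (v : AbsoluteValue K ℝ) (r u : ℝ), 0 ≤ r → 0 ≤ u → u ≤ 1 → (∀ n, PN v r n U ≤ u) →
        u * (lc W v ^ 16 * vn v ![α, 1] ^ 4) ≤ (v (2 * β) / cst v 2) ^ 2 →
        ∀ n, PN v r n b ≤ cst v 2 * v β := by
  have hconst : PowerSeries.constantCoeff (ph W ![PowerSeries.C α + U, 1]) = β ^ 2 := by
    have e := congrArg PowerSeries.constantCoeff (J8_ph_sub W α U)
    rw [map_sub, map_mul, hU, zero_mul, sub_eq_zero, PowerSeries.constantCoeff_C] at e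
    rw [e, hβ]
  obtain ⟨B, hB, hB2⟩ := J6_sqrt (ph W ![PowerSeries.C α + U, 1]) β hconst h2
  refine ⟨PowerSeries.C β + B, by simp [hB], hB2, ?_⟩
  intro v r u hr hu hu1 hUu hle n
  have hcst : 1 ≤ cst v 2 := one_le_cst v (by norm_num)
  have hcst0 : 0 < cst v 2 := lt_of_lt_of_le one_pos hcst
  have hR : PowerSeries.C (2 * β) * B + B ^ 2 =
      ph W ![PowerSeries.C α + U, 1] - PowerSeries.C (ph W ![α, 1]) := by
    rw [← hB2, hβ, map_mul, map_pow, map_ofNat]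
    ring
  have h3 := J8_sqrt v B _ (2 * β) h2 hB hR hr
    (fun n => (J8_size v W α U hr n hu hu1 (hUu n)).trans hle) n
  have h4 : v (2 * β) / cst v 2 ≤ v β := by
    rw [div_le_iff₀ hcst0, map_mul, mul_comm]
    apply mul_le_mul_of_nonneg_left _ (v.nonneg _)
    simpa using J8_natCast_le v 2
  exact SN.add_le_cst (SN_PN v hr n) (PN_C v n β).le (h3.trans h4)

end

end Pool.Agent.Lib.MP_17a322_nt.VJ
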