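import Pool.Agent.Lib.MP_17a322_nt.VJ.Defs

/-!
Constants and seminorms.
-/

namespace Pool.Agent.Lib.MP_17a322_nt.VJ

open MvPolynomial Height

theorem one_le_cst {L : Type*} [Field L] (v : AbsoluteValue L ℝ) {n : ℕ} (hn : 1 ≤ n) :
    1 ≤ cst v n := by
  unfold cst
  split_ifs
  · exact le_rfl
  · exact_mod_cast hn

theorem cst_nonneg {L : Type*} [Field L] (v : AbsoluteValue L ℝ) (n : ℕ) : 0 ≤ cst v n := by
  unfold cst
  split_ifs
  · exact zero_le_one
  · exact Nat.cast_nonneg n

theorem cst_mul {L : Type*} [Field L] (v : AbsoluteValue L ℝ) (m n : ℕ) :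
    cst v (m * n) = cst v m * cst v n := by
  unfold cst
  split_ifs
  · rw [one_mul]
  · rw [Nat.cast_mul]

theorem cst_pow {L : Type*} [Field L] (v : AbsoluteValue L ℝ) (m n : ℕ) :
    cst v (m ^ n) = cst v m ^ n := by
  unfold cst
  split_ifs
  · rw [one_pow]
  · rw [Nat.cast_pow]

theorem cst_mono {L : Type*} [Field L] (v : AbsoluteValue L ℝ) {m n : ℕ} (h : m ≤ n) :
    cst v m ≤ cst v n := by
  unfold cst
  split_ifs
  · exact le_rfl
  · exact_mod_cast h

theorem cst_one {L : Type*} [Field L] (v : AbsoluteValue L ℝ) : cst v 1 = 1 := by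
  unfold cst
  split_ifs
  · rfl
  · exact Nat.cast_one

/-- The absolute value itself is a seminorm. -/
theorem SN_self {L : Type*} [Field L] (v : AbsoluteValue L ℝ) : SN v (fun x : L => v x) := by
  refine ⟨fun a => v.nonneg a, map_zero v, fun a => v.map_neg a, fun a b => v.add_le a b, fun hv a b => hv a b,
    fun a b => (map_mul v a b).le, fun c => le_rfl⟩

private theorem A1_sum_le_sum {L : Type*} [Field L] {v : AbsoluteValue L ℝ} {A : Type*} [CommRing A]
    [Algebra L A] {ν : A → ℝ} (h : SN v ν) {ι : Type*} (s : Finset ι) (f : ι → A) :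
    ν (∑ i ∈ s, f i) ≤ ∑ i ∈ s, ν (f i) := by
  classical
  induction s using Finset.induction_on with
  | empty => rw [Finset.sum_empty, Finset.sum_empty, h.zero]
  | insert a s ha ih =>
    rw [Finset.sum_insert ha, Finset.sum_insert ha]
    exact (h.add _ _).trans (add_le_add le_rfl ih)

private theorem A1_sum_le_max {L : Type*} [Field L] {v : AbsoluteValue L ℝ} (hv : IsNonarchimedean v)
    {A : Type*} [CommRing A]
    [Algebra L A] {ν : A → ℝ} (h : SN v ν) {ι : Type*} (s : Finset ι) (f : ι → A) {B : ℝ}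
    (hB : 0 ≤ B) (hf : ∀ i ∈ s, ν (f i) ≤ B) : ν (∑ i ∈ s, f i) ≤ B := by
  classical
  induction s using Finset.induction_on with
  | empty =>
    rw [Finset.sum_empty, h.zero]
    exact hB
  | insert a s ha ih =>
    rw [Finset.sum_insert ha]
    refine (h.add_max hv _ _).trans (max_le (hf a (Finset.mem_insert_self a s)) ?_)
    exact ih fun i hi => hf i (Finset.mem_insert_of_mem hi)

/-- Sums of `#s` elements. Proof: for nonarchimedean `v` by `add_max` and induction, otherwise by
`add` and `Finset.sum_le_card_nsmul`. -/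
theorem SN.sum_le {L : Type*} [Field L] {v : AbsoluteValue L ℝ} {A : Type*} [CommRing A]
    [Algebra L A] {ν : A → ℝ} (h : SN v ν) {ι : Type*} (s : Finset ι) (f : ι → A) {B : ℝ}
    (hB : 0 ≤ B) (hf : ∀ i ∈ s, ν (f i) ≤ B) : ν (∑ i ∈ s, f i) ≤ cst v s.card * B := by
  by_cases hv : IsNonarchimedean v
  · rw [cst, if_pos hv, one_mul]
    exact A1_sum_le_max hv h s f hB hf
  · rw [cst, if_neg hv]
    refine (A1_sum_le_sum h s f).trans ?_
    refine (Finset.sum_le_card_nsmul s _ B hf).trans (le_of_eq ?_)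
    rw [nsmul_eq_mul]

/-- Triangle inequality (every `v`). -/
theorem SN.sum_le_sum {L : Type*} [Field L] {v : AbsoluteValue L ℝ} {A : Type*} [CommRing A]
    [Algebra L A] {ν : A → ℝ} (h : SN v ν) {ι : Type*} (s : Finset ι) (f : ι → A) :
    ν (∑ i ∈ s, f i) ≤ ∑ i ∈ s, ν (f i) := by
  exact A1_sum_le_sum h s f

/-- Ultrametric inequality for sums. -/
theorem SN.sum_le_max {L : Type*} [Field L] {v : AbsoluteValue L ℝ} (hv : IsNonarchimedean v)
    {A : Type*} [CommRing A]
    [Algebra L A] {ν : A → ℝ} (h : SN v ν) {ι : Type*} (s : Finset ι) (f : ι → A) {B : ℝ}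
    (hB : 0 ≤ B) (hf : ∀ i ∈ s, ν (f i) ≤ B) : ν (∑ i ∈ s, f i) ≤ B := by
  exact A1_sum_le_max hv h s f hB hf

/-- `ν 1 ≤ 1`. -/
theorem SN.one_le {L : Type*} [Field L] {v : AbsoluteValue L ℝ} {A : Type*} [CommRing A]
    [Algebra L A] {ν : A → ℝ} (h : SN v ν) : ν 1 ≤ 1 := by
  have h1 := h.map 1
  rw [map_one, map_one] at h1
  exact h1

theorem SN.pow_le {L : Type*} [Field L] {v : AbsoluteValue L ℝ} {A : Type*} [CommRing A]
    [Algebra L A] {ν : A → ℝ} (h : SN v ν) (a : A) (n : ℕ) : ν (a ^ n) ≤ ν a ^ n := by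
  induction n with
  | zero =>
    rw [pow_zero, pow_zero]
    exact h.one_le
  | succ n ih =>
    rw [pow_succ, pow_succ]
    exact (h.mul _ _).trans (mul_le_mul_of_nonneg_right ih (h.nonneg a))

theorem SN.prod_le {L : Type*} [Field L] {v : AbsoluteValue L ℝ} {A : Type*} [CommRing A]
    [Algebra L A] {ν : A → ℝ} (h : SN v ν) {ι : Type*} (s : Finset ι) (f : ι → A) :
    ν (∏ i ∈ s, f i) ≤ ∏ i ∈ s, ν (f i) := by
  classical
  induction s using Finset.induction_on with
  | empty =>
    rw [Finset.prod_empty, Finset.prod_empty]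
    exact h.one_le
  | insert a s ha ih =>
    rw [Finset.prod_insert ha, Finset.prod_insert ha]
    exact (h.mul _ _).trans (mul_le_mul_of_nonneg_left ih (h.nonneg _))

/-- `ν (n • a) ≤ cst v n * ν a`. -/
theorem SN.nsmul_le {L : Type*} [Field L] {v : AbsoluteValue L ℝ} {A : Type*} [CommRing A]
    [Algebra L A] {ν : A → ℝ} (h : SN v ν) (n : ℕ) (a : A) :
    ν ((n : A) * a) ≤ cst v n * ν a := by
  have h1 := h.sum_le (Finset.range n) (fun _ => a) (h.nonneg a) (fun _ _ => le_rfl)
  rw [Finset.sum_const, Finset.card_range, nsmul_eq_mul] at h1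
  exact h1

end Pool.Agent.Lib.MP_17a322_nt.VJ
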