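import Pool.Agent.Lib.MP_17a322_nt.VJ.J0
import Pool.Agent.Lib.MP_17a322_nt.VJ.A1

/-!
The seminorm `PN v r n` on power series.
-/

namespace Pool.Agent.Lib.MP_17a322_nt.VJ

open Height

variable {L : Type*} [Field L] (v : AbsoluteValue L ℝ)

private theorem J5_na {v : AbsoluteValue L ℝ} (hv : IsNonarchimedean v) (r : ℝ) (n : ℕ) (f : PowerSeries L) :
    PN v r n f = ⨆ k : Fin (n + 1), v (PowerSeries.coeff (k : ℕ) f) * r ^ (k : ℕ) := by
  unfold PN
  rw [if_pos hv]

private theorem J5_ar {v : AbsoluteValue L ℝ} (hv : ¬ IsNonarchimedean v) (r : ℝ) (n : ℕ) (f : PowerSeries L) :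
    PN v r n f = ∑ k : Fin (n + 1), v (PowerSeries.coeff (k : ℕ) f) * r ^ (k : ℕ) := by
  unfold PN
  rw [if_neg hv]

private theorem J5_coeff_le {r : ℝ} (hr : 0 ≤ r) {n k : ℕ} (hk : k ≤ n) (f : PowerSeries L) :
    v (PowerSeries.coeff k f) * r ^ k ≤ PN v r n f := by
  by_cases hv : IsNonarchimedean v
  · rw [J5_na hv]
    exact le_ciSup (f := fun k : Fin (n + 1) => v (PowerSeries.coeff (k : ℕ) f) * r ^ (k : ℕ))
      (Set.finite_range _).bddAbove ⟨k, Nat.lt_succ_of_le hk⟩
  · rw [J5_ar hv]
    exact Finset.single_le_sum (f := fun k : Fin (n + 1) => v (PowerSeries.coeff (k : ℕ) f) * r ^ (k : ℕ))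
      (fun i _ => mul_nonneg (v.nonneg _) (pow_nonneg hr _)) (Finset.mem_univ ⟨k, Nat.lt_succ_of_le hk⟩)

private theorem J5_nonneg {r : ℝ} (hr : 0 ≤ r) (n : ℕ) (f : PowerSeries L) : 0 ≤ PN v r n f :=
  (mul_nonneg (v.nonneg _) (pow_nonneg hr 0)).trans (J5_coeff_le v hr (Nat.zero_le n) f)

private theorem J5_le {r r' c : ℝ} (hr' : 0 ≤ r') (hc : 0 ≤ c) (n : ℕ) (f g : PowerSeries L)
    (h : ∀ k ≤ n, v (PowerSeries.coeff k f) * r ^ k ≤ c * (v (PowerSeries.coeff k g) * r' ^ k)) :
    PN v r n f ≤ c * PN v r' n g := by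
  by_cases hv : IsNonarchimedean v
  · rw [J5_na hv r]
    refine ciSup_le fun k => ?_
    refine (h k (Nat.le_of_lt_succ k.2)).trans ?_
    exact mul_le_mul_of_nonneg_left (J5_coeff_le v hr' (Nat.le_of_lt_succ k.2) g) hc
  · rw [J5_ar hv r, J5_ar hv r', Finset.mul_sum]
    exact Finset.sum_le_sum fun k _ => h k (Nat.le_of_lt_succ k.2)

private theorem J5_mul {r : ℝ} (hr : 0 ≤ r) (N n : ℕ) (f g : PowerSeries L)
    (h : ∀ i j, i + j ≤ N → PowerSeries.coeff i f * PowerSeries.coeff j g ≠ 0 → i ≤ n ∧ j ≤ n) :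
    PN v r N (f * g) ≤ PN v r n f * PN v r n g := by
  classical
  have key : ∀ i j, i + j ≤ N → v (PowerSeries.coeff i f * PowerSeries.coeff j g) * r ^ (i + j) ≤
      PN v r n f * PN v r n g := by
    intro i j hij
    by_cases h0 : PowerSeries.coeff i f * PowerSeries.coeff j g = 0
    · rw [h0, map_zero, zero_mul]
      exact mul_nonneg (J5_nonneg v hr n f) (J5_nonneg v hr n g)
    · obtain ⟨hi, hj⟩ := h i j hij h0
      rw [map_mul, pow_add]
      calc v (PowerSeries.coeff i f) * v (PowerSeries.coeff j g) * (r ^ i * r ^ j)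
          = (v (PowerSeries.coeff i f) * r ^ i) * (v (PowerSeries.coeff j g) * r ^ j) := by ring
        _ ≤ _ := mul_le_mul (J5_coeff_le v hr hi f) (J5_coeff_le v hr hj g)
            (mul_nonneg (v.nonneg _) (pow_nonneg hr _)) (J5_nonneg v hr n f)
  by_cases hv : IsNonarchimedean v
  · rw [J5_na hv r N]
    refine ciSup_le fun k => ?_
    have hk : (k : ℕ) ≤ N := Nat.le_of_lt_succ k.2
    rw [PowerSeries.coeff_mul]
    obtain ⟨p, hp, hle⟩ : ∃ p ∈ Finset.HasAntidiagonal.antidiagonal (k : ℕ),
        v (∑ p ∈ Finset.HasAntidiagonal.antidiagonal (k : ℕ), PowerSeries.coeff p.1 f * PowerSeries.coeff p.2 g) ≤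
          v (PowerSeries.coeff p.1 f * PowerSeries.coeff p.2 g) := by
      have hne : (Finset.HasAntidiagonal.antidiagonal (k : ℕ)).Nonempty := ⟨(0, k), by simp⟩
      obtain ⟨p, hp, hmax⟩ := Finset.exists_max_image (Finset.HasAntidiagonal.antidiagonal (k : ℕ))
        (fun p => v (PowerSeries.coeff p.1 f * PowerSeries.coeff p.2 g)) hne
      refine ⟨p, hp, ?_⟩
      have aux : ∀ s : Finset (ℕ × ℕ), s ⊆ Finset.HasAntidiagonal.antidiagonal (k : ℕ) →
          v (∑ p ∈ s, PowerSeries.coeff p.1 f * PowerSeries.coeff p.2 g) ≤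
            v (PowerSeries.coeff p.1 f * PowerSeries.coeff p.2 g) := by
        intro s
        induction s using Finset.induction_on with
        | empty =>
          intro _
          rw [Finset.sum_empty, map_zero]
          exact v.nonneg _
        | insert a s ha ih =>
          intro hs
          rw [Finset.sum_insert ha]
          refine (hv _ _).trans (max_le ?_ ?_)
          · exact hmax a (hs (Finset.mem_insert_self a s))
          · exact ih fun x hx => hs (Finset.mem_insert_of_mem hx)
      exact aux _ (Finset.Subset.refl _)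
    rw [Finset.HasAntidiagonal.mem_antidiagonal] at hp
    refine (mul_le_mul_of_nonneg_right hle (pow_nonneg hr _)).trans ?_
    have := key p.1 p.2 (hp ▸ hk)
    rwa [hp] at this
  · have h1 : PN v r N (f * g) ≤ ∑ k ∈ Finset.range (N + 1), ∑ p ∈ Finset.HasAntidiagonal.antidiagonal k,
        v (PowerSeries.coeff p.1 f * PowerSeries.coeff p.2 g) * r ^ (p.1 + p.2) := by
      rw [J5_ar hv r N, ← Finset.sum_range fun k => v (PowerSeries.coeff k (f * g)) * r ^ k]
      refine Finset.sum_le_sum fun k _ => ?_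
      rw [PowerSeries.coeff_mul]
      have h2 : v (∑ p ∈ Finset.HasAntidiagonal.antidiagonal k, PowerSeries.coeff p.1 f * PowerSeries.coeff p.2 g) ≤
          ∑ p ∈ Finset.HasAntidiagonal.antidiagonal k, v (PowerSeries.coeff p.1 f * PowerSeries.coeff p.2 g) :=
        v.sum_le _ _
      refine (mul_le_mul_of_nonneg_right h2 (pow_nonneg hr _)).trans ?_
      rw [Finset.sum_mul]
      refine Finset.sum_le_sum fun p hp => ?_
      rw [Finset.HasAntidiagonal.mem_antidiagonal.mp hp]
    refine h1.trans ?_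
    rw [← Finset.sum_biUnion]
    · have h3 : PN v r n f * PN v r n g = ∑ p ∈ Finset.range (n + 1) ×ˢ Finset.range (n + 1),
          (v (PowerSeries.coeff p.1 f) * r ^ p.1) * (v (PowerSeries.coeff p.2 g) * r ^ p.2) := by
        rw [Finset.sum_product, J5_ar hv, J5_ar hv,
          ← Finset.sum_range fun k => v (PowerSeries.coeff k f) * r ^ k,
          ← Finset.sum_range fun k => v (PowerSeries.coeff k g) * r ^ k, Finset.sum_mul_sum]
      rw [h3]
      rw [← Finset.sum_filter_ne_zero]
      refine (Finset.sum_le_sum_of_subset_of_nonneg (t := Finset.range (n + 1) ×ˢ Finset.range (n + 1))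
        ?_ ?_).trans ?_
      · intro p hp
        rw [Finset.mem_filter, Finset.mem_biUnion] at hp
        obtain ⟨⟨k, hk, hpk⟩, hne⟩ := hp
        rw [Finset.mem_range] at hk
        rw [Finset.HasAntidiagonal.mem_antidiagonal] at hpk
        have h4 : PowerSeries.coeff p.1 f * PowerSeries.coeff p.2 g ≠ 0 := by
          intro h0
          apply hne
          rw [h0, map_zero, zero_mul]
        obtain ⟨h5, h6⟩ := h p.1 p.2 (by omega) h4
        rw [Finset.mem_product, Finset.mem_range, Finset.mem_range]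
        omega
      · intro p _ _
        exact mul_nonneg (v.nonneg _) (pow_nonneg hr _)
      · refine Finset.sum_le_sum fun p _ => ?_
        rw [map_mul, pow_add]
        apply le_of_eq
        ring
    · intro a _ b _ hab
      rw [Function.onFun, Finset.disjoint_left]
      intro p hp hp'
      rw [Finset.HasAntidiagonal.mem_antidiagonal] at hp hp'
      exact hab (hp.symm.trans hp')

/-- `PN v r n` is a seminorm on power series for `0 ≤ r`. Product: the coefficient of degree `k ≤ n` of
`f * g` is a sum over the antidiagonal of `k`, all indices are `≤ n`, and `r ^ i * r ^ j = r ^ k`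
(archimedean case: the double sum over `i, j ≤ n` dominates; nonarchimedean: every term is at most
the product of the two suprema, ultrametric inequality for the sum). -/
theorem SN_PN {r : ℝ} (hr : 0 ≤ r) (n : ℕ) : SN v (fun f : PowerSeries L => PN v r n f) := by
  have hadd : IsNonarchimedean v → ∀ a b : PowerSeries L,
      PN v r n (a + b) ≤ max (PN v r n a) (PN v r n b) := by
    intro hv a b
    rw [J5_na hv r n (a + b)]
    refine ciSup_le fun k => ?_
    have hk : (k : ℕ) ≤ n := Nat.le_of_lt_succ k.2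
    rw [map_add]
    refine (mul_le_mul_of_nonneg_right (hv _ _) (pow_nonneg hr _)).trans ?_
    rw [max_mul_of_nonneg _ _ (pow_nonneg hr _)]
    exact max_le_max (J5_coeff_le v hr hk a) (J5_coeff_le v hr hk b)
  refine ⟨fun a => J5_nonneg v hr n a, ?_, ?_, ?_, hadd, ?_, ?_⟩
  · by_cases hv : IsNonarchimedean v
    · simp only [J5_na hv, map_zero, zero_mul, ciSup_const]
    · simp only [J5_ar hv, map_zero, zero_mul, Finset.sum_const_zero]
  · intro a
    unfold PN
    simp only [map_neg, v.map_neg]
  · intro a b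
    by_cases hv : IsNonarchimedean v
    · exact (hadd hv a b).trans (max_le_add_of_nonneg (J5_nonneg v hr n a) (J5_nonneg v hr n b))
    · simp only [J5_ar hv]
      rw [← Finset.sum_add_distrib]
      refine Finset.sum_le_sum fun k _ => ?_
      rw [map_add, ← add_mul]
      exact mul_le_mul_of_nonneg_right (v.add_le _ _) (pow_nonneg hr _)
  · intro a b
    exact J5_mul v hr n n a b fun i j hij _ => ⟨by omega, by omega⟩
  · intro c
    have hco : ∀ k : ℕ, v (PowerSeries.coeff k (algebraMap L (PowerSeries L) c)) * r ^ k =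
        if k = 0 then v c else 0 := by
      intro k
      have h1 : algebraMap L (PowerSeries L) c = PowerSeries.C c := rfl
      rw [h1, PowerSeries.coeff_C]
      split_ifs with h0
      · rw [h0, pow_zero, mul_one]
      · rw [map_zero, zero_mul]
    by_cases hv : IsNonarchimedean v
    · simp only [J5_na hv, hco]
      refine ciSup_le fun k => ?_
      split_ifs
      · exact le_rfl
      · exact v.nonneg c
    · simp only [J5_ar hv, hco]
      rw [← Finset.sum_range fun k => if k = 0 then v c else 0]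
      simp

theorem PN_coeff_le {r : ℝ} (hr : 0 ≤ r) {n k : ℕ} (hk : k ≤ n) (f : PowerSeries L) :
    v (PowerSeries.coeff k f) * r ^ k ≤ PN v r n f :=
  J5_coeff_le v hr hk f

theorem PN_zero (r : ℝ) (f : PowerSeries L) : PN v r 0 f = v (PowerSeries.constantCoeff f) := by
  by_cases hv : IsNonarchimedean v
  · rw [J5_na hv]
    have h1 : ∀ k : Fin (0 + 1), v (PowerSeries.coeff (k : ℕ) f) * r ^ (k : ℕ) =
        v (PowerSeries.constantCoeff f) := by
      intro k
      have h2 : (k : ℕ) = 0 := by omega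
      rw [h2, pow_zero, mul_one, PowerSeries.coeff_zero_eq_constantCoeff_apply]
    simp only [h1, ciSup_const]
  · rw [J5_ar hv]
    simp

theorem PN_mono {r : ℝ} (hr : 0 ≤ r) {n n' : ℕ} (h : n ≤ n') (f : PowerSeries L) :
    PN v r n f ≤ PN v r n' f := by
  by_cases hv : IsNonarchimedean v
  · rw [J5_na hv r n]
    refine ciSup_le fun k => ?_
    exact J5_coeff_le v hr ((Nat.le_of_lt_succ k.2).trans h) f
  · rw [J5_ar hv r n, J5_ar hv r n', ← Finset.sum_range fun k => v (PowerSeries.coeff k f) * r ^ k,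
      ← Finset.sum_range fun k => v (PowerSeries.coeff k f) * r ^ k]
    refine Finset.sum_le_sum_of_subset_of_nonneg ?_ ?_
    · exact Finset.range_mono (by omega)
    · intro k _ _
      exact mul_nonneg (v.nonneg _) (pow_nonneg hr _)

theorem PN_C {r : ℝ} (n : ℕ) (a : L) : PN v r n (PowerSeries.C a) = v a := by
  have hco : ∀ k : ℕ, v (PowerSeries.coeff k (PowerSeries.C a)) * r ^ k =
      if k = 0 then v a else 0 := by
    intro k
    rw [PowerSeries.coeff_C]
    split_ifs with h0
    · rw [h0, pow_zero, mul_one]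
    · rw [map_zero, zero_mul]
  by_cases hv : IsNonarchimedean v
  · simp only [J5_na hv, hco]
    apply le_antisymm
    · refine ciSup_le fun k => ?_
      split_ifs
      · exact le_rfl
      · exact v.nonneg a
    · have := le_ciSup (f := fun k : Fin (n + 1) => if (k : ℕ) = 0 then v a else 0)
        (Set.finite_range _).bddAbove ⟨0, Nat.succ_pos n⟩
      simpa using this
  · simp only [J5_ar hv, hco]
    rw [← Finset.sum_range fun k => if k = 0 then v a else 0]
    simp

theorem PN_C_mul {r : ℝ} (hr : 0 ≤ r) (n : ℕ) (a : L) (f : PowerSeries L) :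
    PN v r n (PowerSeries.C a * f) = v a * PN v r n f := by
  apply le_antisymm
  · refine J5_le v hr (v.nonneg a) n _ _ fun k _ => ?_
    rw [PowerSeries.coeff_C_mul, map_mul, mul_assoc]
  · by_cases ha : a = 0
    · rw [ha, map_zero, zero_mul]
      exact J5_nonneg v hr n _
    · have hpos : 0 < v a := v.pos ha
      have h1 : PN v r n f ≤ (v a)⁻¹ * PN v r n (PowerSeries.C a * f) := by
        refine J5_le v hr (inv_nonneg.mpr (v.nonneg a)) n _ _ fun k _ => ?_
        rw [PowerSeries.coeff_C_mul, map_mul, ← mul_assoc, ← mul_assoc, inv_mul_cancel₀ hpos.ne', one_mul]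
      calc v a * PN v r n f ≤ v a * ((v a)⁻¹ * PN v r n (PowerSeries.C a * f)) :=
            mul_le_mul_of_nonneg_left h1 (v.nonneg a)
        _ = PN v r n (PowerSeries.C a * f) := by
            rw [← mul_assoc, mul_inv_cancel₀ hpos.ne', one_mul]

private theorem J5_X_mul_term {r : ℝ} (k : ℕ) (f : PowerSeries L) :
    v (PowerSeries.coeff (k + 1) (PowerSeries.X * f)) * r ^ (k + 1) =
      r * (v (PowerSeries.coeff k f) * r ^ k) := by
  rw [PowerSeries.coeff_succ_X_mul, pow_succ]
  ring

/-- `PN v r (n + 1) (X * f) = r * PN v r n f`. -/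
theorem PN_X_mul_le {r : ℝ} (hr : 0 ≤ r) (n : ℕ) (f : PowerSeries L) :
    PN v r (n + 1) (PowerSeries.X * f) ≤ r * PN v r n f := by
  by_cases hv : IsNonarchimedean v
  · rw [J5_na hv r (n + 1)]
    refine ciSup_le fun k => ?_
    obtain ⟨k, hk⟩ := k
    cases k with
    | zero =>
      simp only [PowerSeries.coeff_zero_X_mul, map_zero, zero_mul]
      exact mul_nonneg hr (J5_nonneg v hr n f)
    | succ k =>
      simp only []
      rw [J5_X_mul_term]
      exact mul_le_mul_of_nonneg_left (J5_coeff_le v hr (by omega) f) hr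
  · rw [J5_ar hv r (n + 1), J5_ar hv r n, Fin.sum_univ_succ, Finset.mul_sum]
    simp only [Fin.val_zero, PowerSeries.coeff_zero_X_mul, map_zero, zero_mul, zero_add,
      Fin.val_succ, J5_X_mul_term]
    exact le_rfl

theorem PN_X_le {r : ℝ} (hr : 0 ≤ r) (n : ℕ) : PN v r n (PowerSeries.X : PowerSeries L) ≤ r := by
  have h1 : (PowerSeries.X : PowerSeries L) = PowerSeries.X * PowerSeries.C 1 := by
    rw [map_one, mul_one]
  calc PN v r n (PowerSeries.X : PowerSeries L)
      ≤ PN v r (n + 1) (PowerSeries.X : PowerSeries L) := PN_mono v hr (Nat.le_succ n) _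
    _ = PN v r (n + 1) (PowerSeries.X * PowerSeries.C (1 : L)) := by rw [← h1]
    _ ≤ r * PN v r n (PowerSeries.C (1 : L)) := PN_X_mul_le v hr n _
    _ = r := by rw [PN_C, map_one, mul_one]

/-- Product of two series without constant term: only coefficients of degree `≤ n` matter. -/
theorem PN_mul_le_of_constantCoeff {r : ℝ} (hr : 0 ≤ r) (n : ℕ) (f g : PowerSeries L)
    (hf : PowerSeries.constantCoeff f = 0) (hg : PowerSeries.constantCoeff g = 0) :
    PN v r (n + 1) (f * g) ≤ PN v r n f * PN v r n g := by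
  refine J5_mul v hr (n + 1) n f g fun i j hij hne => ?_
  have hi : i ≠ 0 := by
    rintro rfl
    apply hne
    rw [PowerSeries.coeff_zero_eq_constantCoeff_apply, hf, zero_mul]
  have hj : j ≠ 0 := by
    rintro rfl
    apply hne
    rw [PowerSeries.coeff_zero_eq_constantCoeff_apply, hg, mul_zero]
  omega

/-- Smaller radius. -/
theorem PN_scale {r l : ℝ} (hr : 0 ≤ r) (hl : 0 ≤ l) (hl1 : l ≤ 1) (n : ℕ) (f : PowerSeries L)
    (hf : PowerSeries.constantCoeff f = 0) : PN v (l * r) n f ≤ l * PN v r n f := by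
  refine J5_le v hr hl n f f fun k _ => ?_
  cases k with
  | zero =>
    rw [PowerSeries.coeff_zero_eq_constantCoeff_apply, hf, map_zero, zero_mul, zero_mul, mul_zero]
  | succ k =>
    rw [mul_pow]
    have h1 : l ^ (k + 1) ≤ l := by
      rw [pow_succ]
      exact mul_le_of_le_one_left hl (pow_le_one₀ hl hl1)
    calc v (PowerSeries.coeff (k + 1) f) * (l ^ (k + 1) * r ^ (k + 1))
        = l ^ (k + 1) * (v (PowerSeries.coeff (k + 1) f) * r ^ (k + 1)) := by ring
      _ ≤ l * (v (PowerSeries.coeff (k + 1) f) * r ^ (k + 1)) :=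
          mul_le_mul_of_nonneg_right h1 (mul_nonneg (v.nonneg _) (pow_nonneg hr _))

theorem PN_mono_radius {r r' : ℝ} (hr : 0 ≤ r) (h : r ≤ r') (n : ℕ) (f : PowerSeries L) :
    PN v r n f ≤ PN v r' n f := by
  have := J5_le v (r := r) (r' := r') (hr.trans h) (zero_le_one) n f f fun k _ => by
    rw [one_mul]
    exact mul_le_mul_of_nonneg_left (pow_le_pow_left₀ hr h k) (v.nonneg _)
  rwa [one_mul] at this

end Pool.Agent.Lib.MP_17a322_nt.VJ
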