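import Pool.Agent.Lib.MP_17a322_nt.VJ.J0

/-!
Hensel's lemma for power series: the implicit function and the square root.
-/

namespace Pool.Agent.Lib.MP_17a322_nt.VJ

open MvPolynomial Height

section

variable {K : Type*} [Field K]

theorem J6_sub (f : Polynomial (PowerSeries K)) (U V : PowerSeries K)
    (hU : PowerSeries.constantCoeff U = 0) (hV : PowerSeries.constantCoeff V = 0) :
    ∃ w : PowerSeries K, f.eval U - f.eval V = (U - V) * w ∧
      PowerSeries.constantCoeff w = PowerSeries.constantCoeff (f.coeff 1) := by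
  have h1 : ∀ Z : PowerSeries K, f.eval Z = f.coeff 0 + Z * (f.coeff 1 + Z * f.divX.divX.eval Z) := by
    intro Z
    have e1 := congrArg (Polynomial.eval Z) (Polynomial.divX_mul_X_add f)
    have e2 := congrArg (Polynomial.eval Z) (Polynomial.divX_mul_X_add f.divX)
    simp only [Polynomial.eval_add, Polynomial.eval_mul, Polynomial.eval_X, Polynomial.eval_C,
      Polynomial.coeff_divX] at e1 e2
    rw [← e1, ← e2]
    ring
  obtain ⟨z, hz⟩ := Polynomial.sub_dvd_eval_sub U V f.divX.divX
  refine ⟨f.coeff 1 + (U + V) * f.divX.divX.eval U + V ^ 2 * z, ?_, ?_⟩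
  · rw [h1 U, h1 V]
    have : f.divX.divX.eval U = f.divX.divX.eval V + (U - V) * z := by rw [← hz]; ring
    rw [this]
    ring
  · simp [hU, hV]

theorem J6_eq_zero (f : PowerSeries K) (h : ∀ n : ℕ, (PowerSeries.X : PowerSeries K) ^ (n + 1) ∣ f) :
    f = 0 := by
  ext k
  rw [map_zero]
  exact PowerSeries.X_pow_dvd_iff.mp (h k) k (Nat.lt_succ_self k)

/-- Hensel's lemma (simple root of a polynomial over the ring of power series). -/
theorem J6_hensel (f : Polynomial (PowerSeries K))
    (h0 : PowerSeries.constantCoeff (f.coeff 0) = 0)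
    (h1 : PowerSeries.constantCoeff (f.coeff 1) ≠ 0) :
    ∃ U : PowerSeries K, PowerSeries.constantCoeff U = 0 ∧ f.eval U = 0 := by
  set a : K := PowerSeries.constantCoeff (f.coeff 1) with ha
  have hc : ∀ Z : PowerSeries K, PowerSeries.constantCoeff Z = 0 →
      PowerSeries.constantCoeff (f.eval Z) = 0 := by
    intro Z hZ
    have e1 := congrArg (Polynomial.eval Z) (Polynomial.divX_mul_X_add f)
    simp only [Polynomial.eval_add, Polynomial.eval_mul, Polynomial.eval_X, Polynomial.eval_C] at e1
    rw [← e1]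
    simp [hZ, h0]
  let Φ : PowerSeries K → PowerSeries K := fun Z => Z - PowerSeries.C a⁻¹ * f.eval Z
  have hΦ0 : ∀ Z : PowerSeries K, PowerSeries.constantCoeff Z = 0 →
      PowerSeries.constantCoeff (Φ Z) = 0 := by
    intro Z hZ
    simp [Φ, hZ, hc Z hZ]
  have hΦ : ∀ U V : PowerSeries K, PowerSeries.constantCoeff U = 0 →
      PowerSeries.constantCoeff V = 0 → ∀ n : ℕ, (PowerSeries.X : PowerSeries K) ^ n ∣ U - V →
      (PowerSeries.X : PowerSeries K) ^ (n + 1) ∣ Φ U - Φ V := by
    intro U V hU hV n hn
    obtain ⟨w, hw, hw1⟩ := J6_sub f U V hU hV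
    have e : Φ U - Φ V = (U - V) * (1 - PowerSeries.C a⁻¹ * w) := by
      simp only [Φ]
      linear_combination (-PowerSeries.C a⁻¹) * hw
    rw [e, pow_succ]
    apply mul_dvd_mul hn
    rw [PowerSeries.X_dvd_iff]
    simp [hw1, ← ha, inv_mul_cancel₀ h1]
  let u : ℕ → PowerSeries K := fun n => Φ^[n] 0
  have hu1 : ∀ n, u (n + 1) = Φ (u n) := fun n => Function.iterate_succ_apply' _ _ _
  have hu0 : ∀ n, PowerSeries.constantCoeff (u n) = 0 := by
    intro n
    induction n with
    | zero => simp [u]
    | succ n ih => rw [hu1]; exact hΦ0 _ ih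
  have hd : ∀ n, (PowerSeries.X : PowerSeries K) ^ (n + 1) ∣ u (n + 1) - u n := by
    intro n
    induction n with
    | zero =>
      rw [zero_add, pow_one, PowerSeries.X_dvd_iff]
      simp [hu0]
    | succ n ih =>
      rw [hu1 (n + 1), hu1 n]
      rw [hu1 n] at ih
      exact hΦ _ _ (hΦ0 _ (hu0 n)) (hu0 n) (n + 1) ih
  have hst : ∀ k n, k ≤ n → PowerSeries.coeff k (u n) = PowerSeries.coeff k (u k) := by
    intro k n hkn
    induction n, hkn using Nat.le_induction with
    | base => rfl
    | succ n hn ih =>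
      have := PowerSeries.X_pow_dvd_iff.mp (hd n) k (by omega)
      rw [map_sub, sub_eq_zero] at this
      rw [this, ih]
  let U : PowerSeries K := PowerSeries.mk fun k => PowerSeries.coeff k (u k)
  have hUu : ∀ n, (PowerSeries.X : PowerSeries K) ^ (n + 1) ∣ U - u n := by
    intro n
    rw [PowerSeries.X_pow_dvd_iff]
    intro k hk
    rw [map_sub, PowerSeries.coeff_mk, hst k n (by omega), sub_self]
  have hU0 : PowerSeries.constantCoeff U = 0 := by
    rw [← PowerSeries.coeff_zero_eq_constantCoeff_apply, PowerSeries.coeff_mk,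
      PowerSeries.coeff_zero_eq_constantCoeff_apply]
    exact hu0 0
  refine ⟨U, hU0, J6_eq_zero _ fun n => ?_⟩
  obtain ⟨w, hw, -⟩ := J6_sub f U (u n) hU0 (hu0 n)
  have h2 : f.eval (u n) = PowerSeries.C a * (u n - u (n + 1)) := by
    rw [hu1]
    simp only [Φ]
    have : PowerSeries.C a * PowerSeries.C a⁻¹ = (1 : PowerSeries K) := by
      rw [← map_mul, mul_inv_cancel₀ h1, map_one]
    linear_combination (-(f.eval (u n))) * this
  have h3 : f.eval U = (U - u n) * w + PowerSeries.C a * (u n - u (n + 1)) := by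
    rw [← h2, ← hw]; ring
  rw [h3]
  apply dvd_add
  · exact Dvd.dvd.mul_right (hUu n) w
  · apply Dvd.dvd.mul_left
    rw [← neg_sub]
    exact (dvd_neg.mpr (hd n))

theorem J6_eval (G : MvPolynomial (Fin 2) K) (U : PowerSeries K) :
    Polynomial.eval U (aeval ![Polynomial.C PowerSeries.X, Polynomial.X] G :
      Polynomial (PowerSeries K)) = aeval ![PowerSeries.X, U] G := by
  induction G using MvPolynomial.induction_on with
  | C a =>
    rw [MvPolynomial.algHom_C, MvPolynomial.algHom_C,
      IsScalarTower.algebraMap_apply K (PowerSeries K) (Polynomial (PowerSeries K)),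
      Polynomial.algebraMap_eq, Polynomial.eval_C]
  | add p q hp hq => rw [map_add, map_add, Polynomial.eval_add, hp, hq]
  | mul_X p i hp =>
    rw [map_mul, map_mul, Polynomial.eval_mul, hp]
    congr 1
    fin_cases i <;> simp

theorem J6_coeff (G : MvPolynomial (Fin 2) K) (j : ℕ) :
    PowerSeries.constantCoeff ((aeval ![Polynomial.C PowerSeries.X, Polynomial.X] G :
      Polynomial (PowerSeries K)).coeff j) = coeff (Finsupp.single 1 j) G := by
  induction G using MvPolynomial.induction_on' with
  | monomial m c =>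
    rw [aeval_monomial, Finsupp.prod_fintype _ _ (by simp), Fin.prod_univ_two, coeff_monomial]
    simp only [Matrix.cons_val_zero, Matrix.cons_val_one]
    rw [← Polynomial.C_pow, ← mul_assoc, IsScalarTower.algebraMap_apply K (PowerSeries K)
      (Polynomial (PowerSeries K)), Polynomial.algebraMap_eq, ← Polynomial.C_mul,
      Polynomial.coeff_C_mul, Polynomial.coeff_X_pow, PowerSeries.algebraMap_apply,
      Algebra.algebraMap_self_apply]
    by_cases hm : m = Finsupp.single 1 j
    · subst hm
      simp
    · rw [if_neg hm]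
      by_cases h1 : j = m 1
      · have h0 : m 0 ≠ 0 := by
          intro h0
          apply hm
          ext i
          fin_cases i
          · simp [h0]
          · simp [h1]
        rw [if_pos h1, mul_one, map_mul, map_pow, PowerSeries.constantCoeff_X, zero_pow h0,
          mul_zero]
      · rw [if_neg h1]
        simp
  | add p q hp hq => rw [map_add, Polynomial.coeff_add, map_add, hp, hq, coeff_add]

/-- The implicit function. -/
theorem J6_implicit (G : MvPolynomial (Fin 2) K) (h0 : coeff 0 G = 0)
    (h1 : coeff (Finsupp.single 1 1) G ≠ 0) :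
    ∃ U : PowerSeries K, PowerSeries.constantCoeff U = 0 ∧
      aeval ![PowerSeries.X, U] G = 0 := by
  obtain ⟨U, hU, hU'⟩ := J6_hensel
    (aeval ![Polynomial.C PowerSeries.X, Polynomial.X] G : Polynomial (PowerSeries K))
    (by rw [J6_coeff, Finsupp.single_zero]; exact h0) (by rw [J6_coeff]; exact h1)
  exact ⟨U, hU, by rw [← J6_eval, hU']⟩

/-- The square root of a power series with nonzero square constant coefficient. -/
theorem J6_sqrt (R : PowerSeries K) (β : K) (h : PowerSeries.constantCoeff R = β ^ 2)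
    (hβ : 2 * β ≠ 0) :
    ∃ B : PowerSeries K, PowerSeries.constantCoeff B = 0 ∧
      (PowerSeries.C β + B) ^ 2 = R := by
  obtain ⟨c, hc⟩ : ∃ c : PowerSeries K, c = R - PowerSeries.C (β ^ 2) := ⟨_, rfl⟩
  have hc0 : PowerSeries.constantCoeff c = 0 := by
    rw [hc, map_sub, h, PowerSeries.constantCoeff_C, sub_self]
  let f : Polynomial (PowerSeries K) := Polynomial.X ^ 2 +
    Polynomial.C (PowerSeries.C (2 * β)) * Polynomial.X - Polynomial.C c
  obtain ⟨B, hB, hB'⟩ := J6_hensel f
    (by simp [f, hc0]) (by
      have : f.coeff 1 = PowerSeries.C (2 * β) := by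
        simp [f, Polynomial.coeff_X_pow, Polynomial.coeff_C]
      rw [this]
      simpa using hβ)
  refine ⟨B, hB, ?_⟩
  simp only [f, Polynomial.eval_sub, Polynomial.eval_add, Polynomial.eval_mul, Polynomial.eval_pow,
    Polynomial.eval_X, Polynomial.eval_C] at hB'
  rw [hc, map_mul, map_pow, map_ofNat] at hB'
  linear_combination hB'

end

end Pool.Agent.Lib.MP_17a322_nt.VJ
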