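import Pool.Agent.Lib.MP_17a322_nt.VJ.A3

/-!
Translation of polynomials and its effect on the size.
-/

namespace Pool.Agent.Lib.MP_17a322_nt.VJ

open MvPolynomial Height

/-- Value of the translated polynomial. -/
theorem aeval_tr {R σ A : Type*} [CommRing R] [CommRing A] [Algebra R A] (ξ : σ → R)
    (F : MvPolynomial σ R) (z : σ → A) :
    aeval z (tr ξ F) = aeval (fun t => z t + algebraMap R A (ξ t)) F := by
  have h := MvPolynomial.aeval_bind₁ (R := R) z (fun t => (X t + C (ξ t) : MvPolynomial σ R)) F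
  rw [MvPolynomial.bind₁] at h
  unfold tr
  rw [h]
  congr 2
  funext t
  simp

theorem tr_add {R σ : Type*} [CommRing R] (ξ : σ → R) (F G : MvPolynomial σ R) :
    tr ξ (F + G) = tr ξ F + tr ξ G := by
  unfold tr
  exact map_add _ _ _

theorem tr_mul {R σ : Type*} [CommRing R] (ξ : σ → R) (F G : MvPolynomial σ R) :
    tr ξ (F * G) = tr ξ F * tr ξ G := by
  unfold tr
  exact map_mul _ _ _

theorem tr_C_mul {R σ : Type*} [CommRing R] (ξ : σ → R) (c : R) (F : MvPolynomial σ R) :
    tr ξ (C c * F) = C c * tr ξ F := by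
  rw [tr_mul]
  congr 1
  unfold tr
  exact MvPolynomial.aeval_C _ _

theorem tr_zero {R σ : Type*} [CommRing R] (F : MvPolynomial σ R) :
    tr (0 : σ → R) F = F := by
  unfold tr
  simp only [Pi.zero_apply, map_zero, add_zero]
  exact MvPolynomial.aeval_X_left_apply F

theorem tr_tr {R σ : Type*} [CommRing R] (ξ η : σ → R) (F : MvPolynomial σ R) :
    tr ξ (tr η F) = tr (fun t => ξ t + η t) F := by
  have h := aeval_tr (A := MvPolynomial σ R) η F (fun t => X t + C (ξ t))
  have e1 : tr ξ (tr η F) = aeval (fun t => (X t + C (ξ t) : MvPolynomial σ R)) (tr η F) := rfl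
  rw [e1, h]
  unfold tr
  congr 2
  funext t
  rw [MvPolynomial.algebraMap_eq, map_add, add_assoc]

theorem tr_eq_zero {R σ : Type*} [CommRing R] (ξ : σ → R) (F : MvPolynomial σ R) :
    tr ξ F = 0 ↔ F = 0 := by
  constructor
  · intro h
    have h1 := tr_tr (-ξ) ξ F
    rw [h] at h1
    have h2 : tr (-ξ) (0 : MvPolynomial σ R) = 0 := by
      unfold tr
      exact map_zero _
    rw [h2] at h1
    have h3 : (fun t => (-ξ) t + ξ t) = (0 : σ → R) := by
      funext t
      simp
    rw [h3, tr_zero] at h1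
    exact h1.symm
  · rintro rfl
    unfold tr
    exact map_zero _

/-- The constant coefficient is the value. -/
theorem coeff_zero_tr {R σ : Type*} [CommRing R] (ξ : σ → R) (F : MvPolynomial σ R) :
    coeff 0 (tr ξ F) = eval ξ F := by
  rw [← MvPolynomial.constantCoeff_eq]
  have h := aeval_tr (A := R) ξ F (0 : σ → R)
  have h1 : (aeval (0 : σ → R) (tr ξ F) : R) = constantCoeff (tr ξ F) := by
    rw [MvPolynomial.aeval_zero]
    rfl
  rw [← h1, h, MvPolynomial.aeval_eq_eval]
  congr 2
  funext t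
  simp

theorem A6_degreeOf_tr_le {R σ : Type*} [CommRing R] [Nontrivial R] [Fintype σ] [DecidableEq σ]
    (ξ : σ → R) (F : MvPolynomial σ R) (t : σ) : (tr ξ F).degreeOf t ≤ F.degreeOf t := by
  classical
  have e : tr ξ F = ∑ m ∈ F.support, C (coeff m F) * ∏ s, (X s + C (ξ s)) ^ (m s) := by
    unfold tr
    rw [MvPolynomial.aeval_def, MvPolynomial.eval₂_eq']
    rfl
  rw [e]
  refine (MvPolynomial.degreeOf_sum_le _ _ _).trans ?_
  refine Finset.sup_le ?_
  intro m hm
  refine (MvPolynomial.degreeOf_C_mul_le _ _ _).trans ?_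
  refine (MvPolynomial.degreeOf_prod_le _ _ _).trans ?_
  have h1 : ∀ s : σ, degreeOf t (((X s + C (ξ s) : MvPolynomial σ R)) ^ (m s))
      ≤ if s = t then m t else 0 := by
    intro s
    refine (MvPolynomial.degreeOf_pow_le _ _ _).trans ?_
    have h2 : degreeOf t (X s + C (ξ s) : MvPolynomial σ R) ≤ if s = t then 1 else 0 := by
      refine (MvPolynomial.degreeOf_add_le _ _ _).trans ?_
      rw [MvPolynomial.degreeOf_C, MvPolynomial.degreeOf_X]
      by_cases hst : s = t
      · subst hst
        simp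
      · have : ¬ t = s := fun h => hst h.symm
        simp [hst, this]
    by_cases hst : s = t
    · subst hst
      rw [if_pos rfl] at h2 ⊢
      calc m s * _ ≤ m s * 1 := Nat.mul_le_mul_left _ h2
        _ = m s := mul_one _
    · rw [if_neg hst] at h2 ⊢
      have : degreeOf t (X s + C (ξ s) : MvPolynomial σ R) = 0 := Nat.le_zero.mp h2
      rw [this, mul_zero]
  refine (Finset.sum_le_sum fun s _ => h1 s).trans ?_
  rw [Finset.sum_ite_eq' Finset.univ t (fun _ => m t), if_pos (Finset.mem_univ t)]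
  exact MvPolynomial.le_degreeOf_of_mem_support t hm

/-- Proof: for the bound `≤` expand `F` in monomials and use `degreeOf_mul_le`, `degreeOf_add_le`,
`degreeOf_prod_le` and so on; equality by translating back (`tr_tr`, `tr_zero`). -/
theorem degreeOf_tr {R σ : Type*} [CommRing R] [Nontrivial R] [Fintype σ] [DecidableEq σ]
    (ξ : σ → R) (F : MvPolynomial σ R) (t : σ) : (tr ξ F).degreeOf t = F.degreeOf t := by
  refine le_antisymm (A6_degreeOf_tr_le ξ F t) ?_
  have h1 := tr_tr (-ξ) ξ F
  have h3 : (fun t => (-ξ) t + ξ t) = (0 : σ → R) := by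
    funext t
    simp
  rw [h3, tr_zero] at h1
  calc F.degreeOf t = (tr (-ξ) (tr ξ F)).degreeOf t := by rw [h1]
    _ ≤ (tr ξ F).degreeOf t := A6_degreeOf_tr_le _ _ _

/-- Translation commutes with homomorphisms of the coefficients. -/
theorem map_tr {R S σ : Type*} [CommRing R] [CommRing S] (f : R →+* S) (ξ : σ → R)
    (F : MvPolynomial σ R) :
    MvPolynomial.map f (tr ξ F) = tr (fun t => f (ξ t)) (MvPolynomial.map f F) := by
  unfold tr
  induction F using MvPolynomial.induction_on with
  | C a => simp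
  | add p q hp hq => simp only [map_add, hp, hq]
  | mul_X p s hp => simp only [map_mul, hp, MvPolynomial.aeval_X, MvPolynomial.map_X, map_add,
      MvPolynomial.map_C]

/-- Size of the translated polynomial. Proof: `SN.aeval_le` for the seminorm `NV v`, with
`NV v (X t + C (ξ t)) ≤ cst v 2 * max 1 (v (ξ t))` and `1 ≤ cst v 2 * max 1 (v (ξ t))`. -/
theorem NV_tr_le {L : Type*} [Field L] (v : AbsoluteValue L ℝ) {σ : Type*} [Fintype σ]
    (F : MvPolynomial σ L) (d : σ → ℕ) (hd : ∀ t, F.degreeOf t ≤ d t) (ξ : σ → L) :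
    NV v (tr ξ F) ≤ NV v F * ∏ t, (cst v 2 * max 1 (v (ξ t))) ^ (d t) := by
  have hS := SN_NV v (σ := σ)
  have h := hS.aeval_le F d hd (fun t => (X t + C (ξ t) : MvPolynomial σ L))
  have hN : 0 ≤ NV v F := hS.nonneg F
  refine h.trans ?_
  refine mul_le_mul_of_nonneg_left ?_ hN
  refine Finset.prod_le_prod (fun t _ => by positivity) fun t _ => ?_
  refine pow_le_pow_left₀ (by positivity) ?_ _
  have h1 : 1 ≤ max 1 (v (ξ t)) := le_max_left _ _
  have hc : 1 ≤ cst v 2 := one_le_cst v (by norm_num)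
  refine max_le ?_ ?_
  · nlinarith
  · show NV v (X t + C (ξ t)) ≤ _
    have hB : (0 : ℝ) ≤ max 1 (v (ξ t)) := by positivity
    have h2 := hS.sum_le (Finset.univ : Finset (Fin 2))
      (fun i => if i = 0 then (X t : MvPolynomial σ L) else C (ξ t)) hB (by
        intro i _
        fin_cases i
        · simp only [NV_X, Fin.zero_eta, if_true]
          exact h1
        · simp only [Fin.mk_one, one_ne_zero, if_false, NV_C]
          exact le_max_right _ _)
    rw [Fin.sum_univ_two] at h2
    simpa using h2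

/-- The index is at least `a` for the product if it is at least `a₁`, `a₂` for the factors. Proof:
`coeff_mul`, and `weight w` is additive on the antidiagonal. -/
theorem IG_mul {R σ : Type*} [CommRing R] (w : σ → ℕ) (a₁ a₂ : ℝ) (ξ : σ → R)
    (F G : MvPolynomial σ R) (hF : IG w a₁ ξ F) (hG : IG w a₂ ξ G) :
    IG w (a₁ + a₂) ξ (F * G) := by
  classical
  intro m hm
  rw [tr_mul, MvPolynomial.coeff_mul]
  refine Finset.sum_eq_zero ?_
  rintro ⟨p, q⟩ hpq
  rw [Finset.HasAntidiagonal.mem_antidiagonal] at hpq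
  simp only at hpq ⊢
  by_cases hp : (Finsupp.weight w p : ℝ) < a₁
  · rw [hF p hp, zero_mul]
  · have hq : (Finsupp.weight w q : ℝ) < a₂ := by
      rw [← hpq, map_add] at hm
      push_cast at hm
      push Not at hp
      linarith
    rw [hG q hq, mul_zero]

theorem IG_mono {R σ : Type*} [CommRing R] (w : σ → ℕ) {a b : ℝ} (h : a ≤ b) (ξ : σ → R)
    (F : MvPolynomial σ R) (hF : IG w b ξ F) : IG w a ξ F :=
  fun m hm => hF m (lt_of_lt_of_le hm h)

theorem eval_eq_zero_of_IG {R σ : Type*} [CommRing R] (w : σ → ℕ) {a : ℝ} (h : 0 < a) (ξ : σ → R)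
    (F : MvPolynomial σ R) (hF : IG w a ξ F) : eval ξ F = 0 := by
  rw [← coeff_zero_tr]
  refine hF 0 ?_
  rw [map_zero]
  simpa using h

end Pool.Agent.Lib.MP_17a322_nt.VJ
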