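import Pool.Agent.Lib.MP_17a322_nt.VJ.J8
import Pool.Agent.Lib.MP_17a322_nt.VJ.A6
import Pool.Agent.Lib.MP_17a322_nt.VJ.E6

/-!
Preparations for the branch: linear coefficient of the translated polynomial, sign of the square root.
-/

universe u

namespace Pool.Agent.Lib.MP_17a322_nt.VJ

open MvPolynomial Height
open Pool.Agent.Lib.MP_17a322_nt.RO

/-- The linear coefficients of the translated polynomial are the derivatives. -/
theorem J9_coeff_single_tr {R σ : Type*} [CommRing R] [DecidableEq σ] (ξ : σ → R)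
    (F : MvPolynomial σ R) (i : σ) :
    coeff (Finsupp.single i 1) (tr ξ F) = eval ξ (pderiv i F) := by
  induction F using MvPolynomial.induction_on with
  | C a =>
    have : tr ξ (C a) = C a := by
      unfold tr
      rw [algHom_C, algebraMap_eq]
    rw [this, pderiv_C, map_zero, coeff_C, if_neg]
    intro h
    have := DFunLike.congr_fun h i
    simp at this
  | add p q hp hq => rw [tr_add, coeff_add, hp, hq, map_add, map_add]
  | mul_X p j hp =>
    have hX : tr ξ (X j : MvPolynomial σ R) = X j + C (ξ j) := by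
      unfold tr
      rw [aeval_X]
    rw [tr_mul, hX, mul_add, coeff_add, mul_comm (tr ξ p) (C (ξ j)), coeff_C_mul, hp, pderiv_mul,
      map_add, map_mul, map_mul, eval_X, add_comm, mul_comm (ξ j)]
    congr 1
    rw [pderiv_X]
    by_cases h : i = j
    · subst h
      have : (Finsupp.single i 1 : σ →₀ ℕ) = 0 + Finsupp.single i 1 := by rw [zero_add]
      rw [this, coeff_mul_X, coeff_zero_tr]
      simp
    · rw [coeff_mul_X', if_neg]
      · simp [h]
      · simpa using fun h' : j = i => h h'.symm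

section

variable {K : Type u} [Field K] [DecidableEq K] (W : WeierstrassCurve K) [W.IsElliptic]

/-- The value at `T = 0` of the quadratic form and its discriminant. -/
theorem J9_gamma (P P' : W.toAffine.Point) (e : ℕ) :
    ∃ γ : K, γ ≠ 0 ∧ ∀ i, SV W (mu W e P.xRep) P'.xRep i =
      γ * sq2 (P' + 2 ^ e • P).xRep (P' - 2 ^ e • P).xRep i := by
  obtain ⟨g1, hg1, h1⟩ := mu_xRep W W (map_self W) e P
  obtain ⟨g2, hg2, h2⟩ := SV_xRep W W (map_self W) P' (2 ^ e • P)
  refine ⟨g1 ^ 2 * g2, mul_ne_zero (pow_ne_zero _ hg1) hg2, fun i => ?_⟩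
  have h3 := SV_smul W g1 (1 : K) (2 ^ e • P).xRep P'.xRep i
  rw [one_smul, mul_one] at h3
  rw [h1, h3, SV_comm, h2 i]
  ring

theorem J9_sign (P P' : W.toAffine.Point) (e : ℕ)
    (γ : K) (hγ : ∀ i, SV W (mu W e P.xRep) P'.xRep i =
      γ * sq2 (P' + 2 ^ e • P).xRep (P' - 2 ^ e • P).xRep i)
    (β' : K) (hβ' : ph W P'.xRep = β' ^ 2) :
    ∃ β : K, ph W P.xRep = β ^ 2 ∧ β' * β * nj W e P.xRep =
      γ * ((P' + 2 ^ e • P).xRep 1 * (P' - 2 ^ e • P).xRep 0 -
        (P' + 2 ^ e • P).xRep 0 * (P' - 2 ^ e • P).xRep 1) := by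
  obtain ⟨β, hβ⟩ := ph_xRep_isSquare W W (map_self W) P
  set q := (P' + 2 ^ e • P).xRep with hq
  set q' := (P' - 2 ^ e • P).xRep with hq'
  have h1 : (β' * β * nj W e P.xRep) ^ 2 = (γ * (q 1 * q' 0 - q 0 * q' 1)) ^ 2 := by
    have h2 := SV_disc W (mu W e P.xRep) P'.xRep
    rw [hγ 0, hγ 1, hγ 2, ph_mu, hβ, hβ'] at h2
    have e0 : sq2 q q' 0 = q 0 * q' 0 := rfl
    have e1 : sq2 q q' 1 = q 0 * q' 1 + q 1 * q' 0 := rfl
    have e2 : sq2 q q' 2 = q 1 * q' 1 := rfl
    rw [e0, e1, e2] at h2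
    linear_combination -h2
  rcases sq_eq_sq_iff_eq_or_eq_neg.mp h1 with h | h
  · exact ⟨β, hβ, h⟩
  · refine ⟨-β, by rw [hβ]; ring, ?_⟩
    linear_combination -h

end

end Pool.Agent.Lib.MP_17a322_nt.VJ
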