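import Pool.Agent.Lib.MP_17a322_nt.VJ.B1

set_option autoImplicit false
set_option linter.unusedSectionVars false

/-! # JOB B2: Gelfond's inequality for finitely many polynomials in several variables over `ℂ`

* `torus_pick`: induction on `N`.  `N = 0`: `eval y F = coeff 0 F`, the only exponent is `0` (`Subsingleton`), all the degrees are `0` (empty sum).  `N + 1`: by induction, applied to the polynomials `(finSuccEquiv ℂ N (F j)).coeff (b j 0)` and the exponents
  `Finsupp.tail (b j)`, there is `y'` with `∏ ‖coeff (b j) (F j)‖ ≤ 2^(∑_{t<N} ∑_j degreeOf t.succ (F j)) * ∏ ‖(G j).coeff (b j 0)‖`, `G j := (finSuccEquiv ℂ N (F j)).map (eval y')` (`finSuccEquiv_coeff_coeff`, `Finsupp.cons_tail`, `Polynomial.coeff_map`,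
  `degreeOf_coeff_finSuccEquiv`).  Then `circle_pick` (B1) for the `G j`: `natDegree (G j) ≤ natDegree (finSuccEquiv ℂ N (F j)) = degreeOf 0 (F j)` (`natDegree_finSuccEquiv`), `y = Fin.cons z y'`, `eval (Fin.cons z y') (F j) = (G j).eval z` (`MvPolynomial.eval_eq_eval_mv_eval'`).
  `Fin.sum_univ_succ`.
* `NS_le`: `NS F ≤ 2^(∑ t, degreeOf t F) * c` if all coefficients are `≤ c`: the support is contained in the box of all exponents `s ≤ degreeOf · F` (`MvPolynomial.monomial_le_degreeOf`), which has `∏ (degreeOf t F + 1) ≤ 2^(∑ ...)` elements (e.g. the injection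
  `s ↦ (fun t => ⟨s t, _⟩ : ∀ t, Fin (degreeOf t F + 1))`, `Fintype.card_pi`, `n + 1 ≤ 2^n`).
* `gelfond_complex`: an equivalence `ι ≃ Fin N` (`Fintype.equivFin`), `rename` (`coeff_rename_mapDomain`, `support_rename_of_injective`, `degreeOf_rename_of_injective`; `NS (rename e F) = NS F`).  If some `F j = 0` the left side is `0`.
  Otherwise choose `b j` in the support of `F j` with `‖coeff (b j) (F j)‖` maximal (`Finset.exists_max_image`), so `NS (F j) ≤ 2^(∑ t, degreeOf t (F j)) * ‖coeff (b j) (F j)‖` (`NS_le`); `torus_pick`: `≤ 4^(...) * ∏ ‖eval y (F j)‖ = 4^(...) * ‖eval y (∏ F j)‖`,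
  and `‖eval y F‖ ≤ NS F` for `y` on the torus (`eval_eq'`, `norm_sum_le`). -/

namespace Pool.Agent.Lib.MP_17a322_nt.VJ

open MvPolynomial

theorem torus_pick {κ : Type*} (s : Finset κ) : ∀ (N : ℕ) (F : κ → MvPolynomial (Fin N) ℂ)
    (b : κ → Fin N →₀ ℕ), ∃ y : Fin N → ℂ, (∀ t, ‖y t‖ = 1) ∧ ∏ j ∈ s, ‖coeff (b j) (F j)‖ ≤
      2 ^ (∑ t, ∑ j ∈ s, degreeOf t (F j)) * ∏ j ∈ s, ‖eval y (F j)‖ := by
  intro N
  induction N with
  | zero =>
    intro F b
    refine ⟨fun _ => 1, fun _ => by simp, ?_⟩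
    simp only [Finset.univ_eq_empty, Finset.sum_empty, pow_zero, one_mul]
    refine le_of_eq (Finset.prod_congr rfl fun j _ => ?_)
    have hb : b j = 0 := Subsingleton.elim _ _
    rw [hb]
    obtain ⟨c, hc⟩ := MvPolynomial.C_surjective (Fin 0) (F j)
    rw [← hc]
    simp
  | succ N ih =>
    intro F b
    obtain ⟨y', hy', h1⟩ := ih (fun j => (finSuccEquiv ℂ N (F j)).coeff (b j 0))
      (fun j => (b j).tail)
    set G : κ → Polynomial ℂ := fun j => (finSuccEquiv ℂ N (F j)).map (eval y') with hG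
    obtain ⟨z, hz, h2⟩ := circle_pick s G (fun j => b j 0)
    refine ⟨Fin.cons z y', ?_, ?_⟩
    · intro t
      refine Fin.cases ?_ ?_ t
      · simpa using hz
      · intro i
        simpa using hy' i
    · have e1 : ∀ j, coeff ((b j).tail) ((finSuccEquiv ℂ N (F j)).coeff (b j 0)) =
          coeff (b j) (F j) := by
        intro j
        rw [finSuccEquiv_coeff_coeff, Finsupp.cons_tail]
      have e2 : ∀ j, eval y' ((finSuccEquiv ℂ N (F j)).coeff (b j 0)) =
          (G j).coeff (b j 0) := by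
        intro j
        simp [hG]
      have e3 : ∀ j, eval (Fin.cons z y' : Fin (N + 1) → ℂ) (F j) = (G j).eval z :=
        fun j => eval_eq_eval_mv_eval' y' z (F j)
      simp only [e1, e2] at h1
      simp only [e3]
      calc ∏ j ∈ s, ‖coeff (b j) (F j)‖ ≤ _ := h1
        _ ≤ 2 ^ (∑ t : Fin N, ∑ j ∈ s, degreeOf t.succ (F j)) *
            (2 ^ (∑ j ∈ s, degreeOf 0 (F j)) * ∏ j ∈ s, ‖(G j).eval z‖) := by
          refine mul_le_mul ?_ (h2.trans ?_) (Finset.prod_nonneg fun _ _ => norm_nonneg _)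
            (by positivity)
          · exact pow_le_pow_right₀ one_le_two (Finset.sum_le_sum fun t _ =>
              Finset.sum_le_sum fun j _ => degreeOf_coeff_finSuccEquiv _ _ _)
          · refine mul_le_mul_of_nonneg_right ?_ (Finset.prod_nonneg fun _ _ => norm_nonneg _)
            refine pow_le_pow_right₀ one_le_two (Finset.sum_le_sum fun j _ => ?_)
            rw [← natDegree_finSuccEquiv]
            exact Polynomial.natDegree_map_le
        _ = _ := by
          rw [Fin.sum_univ_succ, pow_add]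
          ring

/-- sum of the absolute values of the coefficients -/
noncomputable def NS {ι : Type*} (F : MvPolynomial ι ℂ) : ℝ := ∑ m ∈ F.support, ‖coeff m F‖

theorem NS_le {ι : Type*} [Fintype ι] (F : MvPolynomial ι ℂ) {c : ℝ} (hc : ∀ m, ‖coeff m F‖ ≤ c) :
    NS F ≤ 2 ^ (∑ t, degreeOf t F) * c := by
  classical
  have hc0 : 0 ≤ c := (norm_nonneg _).trans (hc 0)
  have h1 : F.support.card ≤ 2 ^ (∑ t, degreeOf t F) := by
    calc F.support.card
        ≤ (Fintype.piFinset fun t : ι => Finset.range (degreeOf t F + 1)).card := by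
          refine Finset.card_le_card_of_injOn (fun m t => m t) ?_ ?_
          · intro m hm
            simp only [Finset.mem_coe, Fintype.mem_piFinset, Finset.mem_range]
            intro t
            exact Nat.lt_succ_of_le (monomial_le_degreeOf t hm)
          · intro m _ m' _ h
            exact Finsupp.ext fun t => congrFun h t
      _ = ∏ t, (degreeOf t F + 1) := by simp [Fintype.card_piFinset]
      _ ≤ ∏ t, 2 ^ degreeOf t F :=
          Finset.prod_le_prod (fun _ _ => Nat.zero_le _) fun t _ => Nat.lt_two_pow_self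
      _ = _ := by rw [Finset.prod_pow_eq_pow_sum]
  calc NS F ≤ ∑ _m ∈ F.support, c := Finset.sum_le_sum fun m _ => hc m
    _ = F.support.card * c := by rw [Finset.sum_const, nsmul_eq_mul]
    _ ≤ _ := mul_le_mul_of_nonneg_right (by exact_mod_cast h1) hc0

theorem B2_eval_le {ι : Type*} [Fintype ι] (F : MvPolynomial ι ℂ) (y : ι → ℂ)
    (hy : ∀ t, ‖y t‖ = 1) : ‖eval y F‖ ≤ NS F := by
  rw [eval_eq']
  refine (norm_sum_le _ _).trans (Finset.sum_le_sum fun d _ => ?_)
  rw [norm_mul, norm_prod]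
  simp [hy]

theorem B2_NS_rename {ι τ : Type*} (e : ι → τ) (he : Function.Injective e)
    (F : MvPolynomial ι ℂ) : NS (rename e F) = NS F := by
  classical
  unfold NS
  rw [support_rename_of_injective he, Finset.sum_image]
  · exact Finset.sum_congr rfl fun m _ => by rw [coeff_rename_mapDomain e he]
  · intro a _ b _ h
    exact Finsupp.mapDomain_injective he h

theorem B2_NS_nonneg {ι : Type*} (F : MvPolynomial ι ℂ) : 0 ≤ NS F :=
  Finset.sum_nonneg fun _ _ => norm_nonneg _

theorem B2_fin {κ : Type*} (N : ℕ) (s : Finset κ) (F : κ → MvPolynomial (Fin N) ℂ) :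
    ∏ j ∈ s, NS (F j) ≤ 4 ^ (∑ t, ∑ j ∈ s, degreeOf t (F j)) * NS (∏ j ∈ s, F j) := by
  classical
  by_cases h0 : ∃ j ∈ s, F j = 0
  · obtain ⟨j, hj, hF⟩ := h0
    have : ∏ j ∈ s, NS (F j) = 0 := Finset.prod_eq_zero hj (by simp [hF, NS])
    rw [this]
    exact mul_nonneg (by positivity) (B2_NS_nonneg _)
  push Not at h0
  have hb : ∀ j, ∃ m : Fin N →₀ ℕ, j ∈ s → ∀ m', ‖coeff m' (F j)‖ ≤ ‖coeff m (F j)‖ := by
    intro j
    by_cases hj : j ∈ s
    · obtain ⟨m, _, hm⟩ := Finset.exists_max_image (F j).support (fun m => ‖coeff m (F j)‖)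
        (support_nonempty.mpr (h0 j hj))
      refine ⟨m, fun _ m' => ?_⟩
      by_cases hm' : m' ∈ (F j).support
      · exact hm m' hm'
      · rw [notMem_support_iff.mp hm', norm_zero]
        exact norm_nonneg _
    · exact ⟨0, fun h => absurd h hj⟩
  choose b hb using hb
  obtain ⟨y, hy, h1⟩ := torus_pick s N F b
  calc ∏ j ∈ s, NS (F j)
      ≤ ∏ j ∈ s, ((2 : ℝ) ^ (∑ t, degreeOf t (F j)) * ‖coeff (b j) (F j)‖) :=
        Finset.prod_le_prod (fun _ _ => B2_NS_nonneg _) fun j hj => NS_le (F j) (hb j hj)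
    _ = 2 ^ (∑ t, ∑ j ∈ s, degreeOf t (F j)) * ∏ j ∈ s, ‖coeff (b j) (F j)‖ := by
        rw [Finset.prod_mul_distrib, Finset.prod_pow_eq_pow_sum, Finset.sum_comm]
    _ ≤ 2 ^ (∑ t, ∑ j ∈ s, degreeOf t (F j)) *
        (2 ^ (∑ t, ∑ j ∈ s, degreeOf t (F j)) * ∏ j ∈ s, ‖eval y (F j)‖) :=
        mul_le_mul_of_nonneg_left h1 (by positivity)
    _ = 4 ^ (∑ t, ∑ j ∈ s, degreeOf t (F j)) * ‖eval y (∏ j ∈ s, F j)‖ := by
        rw [map_prod, norm_prod, ← mul_assoc, ← mul_pow]
        norm_num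
    _ ≤ _ := mul_le_mul_of_nonneg_left (B2_eval_le _ y hy) (by positivity)

theorem gelfond_complex {ι κ : Type*} [Fintype ι] (s : Finset κ) (F : κ → MvPolynomial ι ℂ) :
    ∏ j ∈ s, NS (F j) ≤ 4 ^ (∑ t, ∑ j ∈ s, degreeOf t (F j)) * NS (∏ j ∈ s, F j) := by
  classical
  let e := Fintype.equivFin ι
  have h := B2_fin (Fintype.card ι) s (fun j => rename e (F j))
  rw [← map_prod] at h
  simp only [B2_NS_rename e e.injective] at h
  have h2 : ∑ t, ∑ j ∈ s, degreeOf t (rename e (F j)) = ∑ t, ∑ j ∈ s, degreeOf t (F j) := by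
    rw [← Equiv.sum_comp e]
    exact Finset.sum_congr rfl fun t _ => Finset.sum_congr rfl fun j _ =>
      degreeOf_rename_of_injective e.injective t
  rwa [h2] at h

end Pool.Agent.Lib.MP_17a322_nt.VJ
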