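import Pool.Agent.Lib.MP_17a322_nt.VJ.A2

/-!
# B3: Gauss's lemma: `NV v` is multiplicative for nonarchimedean `v`

`v` nonarchimedean, `L` a field, finitely many variables.  `NV v F = ⨆ m, v (coeff m F)`.
Proof by a monomial order: `NV (F * G) ≤ NV F * NV G` is `SN_NV.mul` (A2).  For the other inequality let `F, G ≠ 0`, let `a` be the smallest exponent (lexicographic order, on
`Lex (σ →₀ ℕ)`, which is a well founded linear order for `σ` finite and linearly ordered: take `Fin N` by `Fintype.equivFin` and `NV_rename`) with `v (coeff a F) = NV v F` (the supremum is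
attained), `b` the smallest with `v (coeff b G) = NV v G`.  Then `coeff (a + b) (F * G) = ∑ coeff a' F * coeff b' G` (`a' + b' = a + b`); for `(a', b') ≠ (a, b)` either `a' < a` or `b' < b`, so the term is
strictly smaller than `NV F * NV G`, and so (ultrametric, finitely many terms) the absolute value of the sum is `NV F * NV G`.
Alternatively by induction on the number of variables with Mathlib's `Polynomial.gaussNorm_mul` (any ring with a nonarchimedean absolute value): `finSuccEquiv`, and the function
`F ↦ NV v F` on `MvPolynomial (Fin N) L` is a nonarchimedean absolute value by induction; `NV v F = ⨆ j, NV v ((finSuccEquiv L N F).coeff j)`.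
-/

set_option linter.unusedSectionVars false

namespace Pool.Agent.Lib.MP_17a322_nt.VJ

open MvPolynomial

private theorem B3_exists_min {L : Type*} [Field L] {v : AbsoluteValue L ℝ}
    (hv : IsNonarchimedean v) {ι : Type*} [LinearOrder ι] (F : MvPolynomial ι L)
    (hF : F ≠ 0) : ∃ a : ι →₀ ℕ, v (coeff a F) = NV v F ∧
      ∀ m : ι →₀ ℕ, toLex m < toLex a → v (coeff m F) < NV v F := by
  classical
  obtain ⟨m₀, hm₀, h₀⟩ := exists_coeff_ge v F hF
  have hc : cst v F.support.card = 1 := by
    unfold cst
    rw [if_pos hv]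
  rw [hc, one_mul] at h₀
  have h₀' : v (coeff m₀ F) = NV v F := le_antisymm (coeff_le_NV v F m₀) h₀
  obtain ⟨a, ha, hmin⟩ := Finset.exists_min_image
    (F.support.filter fun m => v (coeff m F) = NV v F) (fun m => toLex m)
    ⟨m₀, Finset.mem_filter.mpr ⟨hm₀, h₀'⟩⟩
  rw [Finset.mem_filter] at ha
  refine ⟨a, ha.2, fun m hm => ?_⟩
  refine lt_of_le_of_ne (coeff_le_NV v F m) fun h => ?_
  have hm0 : coeff m F ≠ 0 := by
    intro h0
    rw [h0, map_zero] at h
    exact absurd h (ne_of_lt (NV_pos v hF))
  exact absurd (hmin m (Finset.mem_filter.mpr ⟨mem_support_iff.mpr hm0, h⟩)) (not_le.mpr hm)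

private theorem B3_ge {L : Type*} [Field L] {v : AbsoluteValue L ℝ}
    (hv : IsNonarchimedean v) {ι : Type*} [LinearOrder ι] (F G : MvPolynomial ι L)
    (hF : F ≠ 0) (hG : G ≠ 0) : NV v F * NV v G ≤ NV v (F * G) := by
  classical
  obtain ⟨a, ha, ha'⟩ := B3_exists_min hv F hF
  obtain ⟨b, hb, hb'⟩ := B3_exists_min hv G hG
  have hFp := NV_pos v hF
  have hGp := NV_pos v hG
  have key : v (coeff (a + b) (F * G)) = v (coeff a F * coeff b G) := by
    rw [coeff_mul]
    refine IsNonarchimedean.apply_sum_eq_of_lt (f := v) hv (fun x => (v.map_neg x).symm)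
      (k := (a, b)) (s := Finset.HasAntidiagonal.antidiagonal (a + b))
      (l := fun x => coeff x.1 F * coeff x.2 G)
      (Finset.HasAntidiagonal.mem_antidiagonal.mpr rfl) ?_
    rintro ⟨a', b'⟩ hx hne
    rw [Finset.HasAntidiagonal.mem_antidiagonal] at hx
    simp only at hx ⊢
    rw [map_mul, map_mul, ha, hb]
    rcases lt_trichotomy (toLex a') (toLex a) with h | h | h
    · calc v (coeff a' F) * v (coeff b' G) ≤ v (coeff a' F) * NV v G :=
            mul_le_mul_of_nonneg_left (coeff_le_NV v G b') (v.nonneg _)
        _ < NV v F * NV v G := mul_lt_mul_of_pos_right (ha' a' h) hGp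
    · exfalso
      apply hne
      have h1 : a' = a := toLex.injective h
      subst h1
      have h2 : b' = b := add_left_cancel hx
      rw [h2]
    · have h3 : toLex b' < toLex b := by
        by_contra hcon
        push Not at hcon
        have h4 : toLex a + toLex b < toLex a' + toLex b' := add_lt_add_of_lt_of_le h hcon
        rw [← toLex_add, ← toLex_add, hx] at h4
        exact lt_irrefl _ h4
      calc v (coeff a' F) * v (coeff b' G) ≤ NV v F * v (coeff b' G) :=
            mul_le_mul_of_nonneg_right (coeff_le_NV v F a') (v.nonneg _)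
        _ < NV v F * NV v G := mul_lt_mul_of_pos_left (hb' b' h3) hFp
  have h5 := coeff_le_NV v (F * G) (a + b)
  rw [key, map_mul, ha, hb] at h5
  exact h5

theorem NV_mul_nonarch {L : Type*} [Field L] {v : AbsoluteValue L ℝ} (hv : IsNonarchimedean v)
    {ι : Type*} [Fintype ι] (F G : MvPolynomial ι L) : NV v (F * G) = NV v F * NV v G := by
  classical
  let _ : LinearOrder ι := LinearOrder.lift' (Fintype.equivFin ι) (Fintype.equivFin ι).injective
  have h0 : NV v (0 : MvPolynomial ι L) = 0 := (SN_NV v).zero
  refine le_antisymm ((SN_NV v).mul F G) ?_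
  rcases eq_or_ne F 0 with rfl | hF
  · rw [zero_mul, h0, zero_mul]
  rcases eq_or_ne G 0 with rfl | hG
  · rw [mul_zero, h0, mul_zero]
  exact B3_ge hv F G hF hG

theorem NV_prod_nonarch {L : Type*} [Field L] {v : AbsoluteValue L ℝ} (hv : IsNonarchimedean v)
    {ι κ : Type*} [Fintype ι] (s : Finset κ) (F : κ → MvPolynomial ι L) :
    NV v (∏ j ∈ s, F j) = ∏ j ∈ s, NV v (F j) := by
  classical
  induction s using Finset.induction_on with
  | empty =>
    rw [Finset.prod_empty, Finset.prod_empty]
    have h := NV_C v (1 : L) (σ := ι)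
    rw [map_one, map_one] at h
    exact h
  | insert j s hj ih => rw [Finset.prod_insert hj, Finset.prod_insert hj, NV_mul_nonarch hv, ih]

end Pool.Agent.Lib.MP_17a322_nt.VJ
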