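import Pool.Agent.Lib.MP_17a322_nt.VJ.A5
import Pool.Agent.Lib.MP_17a322_nt.VJ.B2
import Pool.Agent.Lib.MP_17a322_nt.VJ.B3

/-!
# B4: Gelfond's inequality for heights

* `arch_embedding`: `v ∈ archAbsVal` is an infinite place (the instance for number fields: `archAbsVal = NumberField.multisetInfinitePlace L`, `NumberField.mem_multisetInfinitePlace`), i.e.
  `v x = ‖φ x‖` for an embedding `φ : L →+* ℂ` (`NumberField.InfinitePlace`).
* `not_nonarch_of_arch`: `v 2 = ‖φ 2‖ = 2 > 1`, but `v 2 = v (1 + 1) ≤ 1` for nonarchimedean `v`.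
* `NV_eq_NS`: for `v x = ‖φ x‖`, `v` not nonarchimedean: `NV v F = ∑ m ∈ support, v (coeff m F) = NS (map φ F)` (`support_map_of_injective`, `coeff_map`).
* `prod_NV_le`: nonarchimedean places: `NV_prod_nonarch` (B3) (the factor is `1 ^ _`); archimedean places: `gelfond_complex` (B2) for `map φ (F j)`, `degreeOf_map_le`, `map_prod`, `cst v 4 = 4`.
* `degreeOf_prod_eq`: over a field the degree of a product of nonzero polynomials is the sum (`degreeOf_mul_eq` in Mathlib or `vw`, `natDegree_mul`).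
* `sum_nh_le`: take `log` of `prod_NV_le` (`Real.log_prod`), `gs_le`, `gs_sum`, `gs_add`, `gs_const_mul`, `gs_log_cst` (A4), `FS_log_NV` (A5), `log 4 ≤ 3`; `totalWeight L = Module.finrank ℚ L` (`NumberField.totalWeight_eq_finrank` or similar).
* `root_mult`: `F = (X y - C α)^e * Q`, `Q ≠ 0`.  `sum_nh_le` for the family `Fin (e + 1)` (or `Option (Fin e)`, or `Finset.range (e + 1)`): `e` times `X y - C α` and `Q`: `e * nh (X y - C α) + nh Q ≤ nh F + 3 finrank ∑ t, degreeOf t F`, `degreeOf t F = 0` for `t ≠ y`; `nh Q ≥ 0` (`nh_nonneg`);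
  `logHeight₁ α ≤ nh (X y - C α)` by `logHeight_root_le` (A5) at the point `ξ t = α`.
-/

set_option linter.unusedSectionVars false

universe u

namespace Pool.Agent.Lib.MP_17a322_nt.VJ

open MvPolynomial Height AdmissibleAbsValues

theorem arch_embedding {L : Type*} [Field L] [NumberField L] {v : AbsoluteValue L ℝ}
    (hv : v ∈ archAbsVal (K := L)) : ∃ φ : L →+* ℂ, ∀ x, v x = ‖φ x‖ := by
  have h1 : NumberField.IsInfinitePlace v := NumberField.mem_multisetInfinitePlace.mp hv
  obtain ⟨φ, hφ⟩ := h1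
  exact ⟨φ, fun x => by rw [← hφ]; rfl⟩

theorem not_nonarch_of_arch {L : Type*} [Field L] [NumberField L] {v : AbsoluteValue L ℝ}
    (hv : v ∈ archAbsVal (K := L)) : ¬ IsNonarchimedean v := by
  intro h
  obtain ⟨φ, hφ⟩ := arch_embedding hv
  have h1 : v (1 + 1) ≤ max (v 1) (v 1) := h 1 1
  have h2 : v (1 + 1) = 2 := by
    rw [hφ, map_add, map_one, one_add_one_eq_two]
    simp
  rw [h2, map_one, max_self] at h1
  norm_num at h1

theorem NV_eq_NS {L : Type*} [Field L] {v : AbsoluteValue L ℝ} (hv : ¬ IsNonarchimedean v)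
    (φ : L →+* ℂ) (hφ : ∀ x, v x = ‖φ x‖) {ι : Type*} (F : MvPolynomial ι L) :
    NV v F = NS (map φ F) := by
  unfold NV NS
  rw [if_neg hv, support_map_of_injective F φ.injective]
  refine Finset.sum_congr rfl fun m _ => ?_
  rw [coeff_map, hφ]

theorem degreeOf_prod_eq {L : Type*} [Field L] {ι κ : Type*} (s : Finset κ)
    (F : κ → MvPolynomial ι L) (hF : ∀ j ∈ s, F j ≠ 0) (t : ι) :
    (∏ j ∈ s, F j).degreeOf t = ∑ j ∈ s, (F j).degreeOf t := by
  classical
  induction s using Finset.induction_on with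
  | empty => simp
  | insert a s ha ih =>
    rw [Finset.prod_insert ha, Finset.sum_insert ha,
      degreeOf_mul_eq (hF a (Finset.mem_insert_self a s))
        (Finset.prod_ne_zero_iff.mpr fun j hj => hF j (Finset.mem_insert_of_mem hj)),
      ih fun j hj => hF j (Finset.mem_insert_of_mem hj)]

theorem B4_degreeOf_map {L M : Type*} [Field L] [Field M] (φ : L →+* M) {ι : Type*}
    (F : MvPolynomial ι L) (t : ι) : (map φ F).degreeOf t = F.degreeOf t := by
  rw [degreeOf_eq_sup, degreeOf_eq_sup, support_map_of_injective F φ.injective]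

/-- (2.1), (2.2) at all places -/
theorem prod_NV_le {L : Type*} [Field L] [NumberField L] {v : AbsoluteValue L ℝ} (hv : Pl v)
    {ι κ : Type*} [Fintype ι] (s : Finset κ) (F : κ → MvPolynomial ι L) :
    ∏ j ∈ s, NV v (F j) ≤ cst v 4 ^ (∑ t, ∑ j ∈ s, (F j).degreeOf t) * NV v (∏ j ∈ s, F j) := by
  rcases hv with hv | hv
  · obtain ⟨φ, hφ⟩ := arch_embedding hv
    have hn := not_nonarch_of_arch hv
    have h1 := gelfond_complex s (fun j => map φ (F j))
    have h2 : cst v 4 = 4 := by
      unfold cst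
      rw [if_neg hn]
      norm_num
    rw [h2, NV_eq_NS hn φ hφ, map_prod]
    simp only [B4_degreeOf_map] at h1
    refine le_trans (le_of_eq ?_) h1
    exact Finset.prod_congr rfl fun j _ => NV_eq_NS hn φ hφ (F j)
  · have hn : IsNonarchimedean v := AdmissibleAbsValues.isNonarchimedean v hv
    have h2 : cst v 4 = 1 := by
      unfold cst
      rw [if_pos hn]
    rw [h2, one_pow, one_mul, NV_prod_nonarch hn]

/-- Gelfond, global form (2.3): factors of a polynomial over a number field. -/
theorem sum_nh_le (k : Type u) [Field k] [NumberField k] {ι : Type*} [Fintype ι]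
    {κ : Type*} (s : Finset κ) (F : κ → MvPolynomial ι k) (hF : ∀ j ∈ s, F j ≠ 0) :
    ∑ j ∈ s, nh (F j) ≤
      nh (∏ j ∈ s, F j) + 3 * Module.finrank ℚ k * ∑ t, (degreeOf t (∏ j ∈ s, F j) : ℝ) := by
  have hP : ∏ j ∈ s, F j ≠ 0 := Finset.prod_ne_zero_iff.mpr hF
  set D : ℕ := ∑ t, ∑ j ∈ s, (F j).degreeOf t with hD
  have hD' : (∑ t, (degreeOf t (∏ j ∈ s, F j) : ℝ)) = (D : ℝ) := by
    rw [hD, Nat.cast_sum]
    exact Finset.sum_congr rfl fun t _ => by rw [degreeOf_prod_eq s F hF t]
  have hFS : ∀ j ∈ s, FS (fun v => Real.log (NV v (F j))) := fun j hj => FS_log_NV (hF j hj)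
  have h1 : ∑ j ∈ s, nh (F j) = gs fun v => ∑ j ∈ s, Real.log (NV v (F j)) := by
    rw [gs_sum s hFS]
    rfl
  have h2 : (gs fun v : AbsoluteValue k ℝ => (D : ℝ) * Real.log (cst v 4)
      + Real.log (NV v (∏ j ∈ s, F j))) =
      D * (gs fun v : AbsoluteValue k ℝ => Real.log (cst v 4)) + nh (∏ j ∈ s, F j) := by
    rw [gs_add (FS_const_mul _ (FS_log_cst 4)) (FS_log_NV hP), gs_const_mul]
    rfl
  have h3 : (gs fun v => ∑ j ∈ s, Real.log (NV v (F j))) ≤
      gs fun v : AbsoluteValue k ℝ => (D : ℝ) * Real.log (cst v 4)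
      + Real.log (NV v (∏ j ∈ s, F j)) := by
    refine gs_le (FS_sum s hFS) (FS_add (FS_const_mul _ (FS_log_cst 4)) (FS_log_NV hP)) ?_
    intro v hv
    have hpos : ∀ j ∈ s, 0 < NV v (F j) := fun j hj => NV_pos v (hF j hj)
    have hc : 0 < cst v 4 := lt_of_lt_of_le one_pos (one_le_cst v (by norm_num))
    rw [← Real.log_prod (fun j hj => (hpos j hj).ne'), ← Real.log_pow,
      ← Real.log_mul (pow_pos hc _).ne' (NV_pos v hP).ne']
    exact Real.log_le_log (Finset.prod_pos hpos) (prod_NV_le hv s F)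
  have h4 : (gs fun v : AbsoluteValue k ℝ => Real.log (cst v 4)) ≤
      totalWeight k * Real.log (4 : ℕ) := gs_log_cst (by norm_num)
  have h5 : Real.log ((4 : ℕ) : ℝ) ≤ 3 := by
    have := Real.log_le_sub_one_of_pos (x := ((4 : ℕ) : ℝ)) (by norm_num)
    push_cast at this ⊢
    linarith
  rw [NumberField.totalWeight_eq_finrank] at h4
  have h6 : (Module.finrank ℚ k : ℝ) * Real.log ((4 : ℕ) : ℝ) ≤ Module.finrank ℚ k * 3 :=
    mul_le_mul_of_nonneg_left h5 (Nat.cast_nonneg _)
  have h7 : (D : ℝ) * (gs fun v : AbsoluteValue k ℝ => Real.log (cst v 4)) ≤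
      D * (Module.finrank ℚ k * 3) :=
    mul_le_mul_of_nonneg_left (h4.trans h6) (Nat.cast_nonneg _)
  rw [h1, hD']
  calc (gs fun v => ∑ j ∈ s, Real.log (NV v (F j))) ≤ _ := h3
    _ = _ := h2
    _ ≤ D * (Module.finrank ℚ k * 3) + nh (∏ j ∈ s, F j) := by linarith
    _ = _ := by ring

/-- (2.4) A root of multiplicity `e` of a polynomial in the variable `y`. -/
theorem root_mult (k : Type u) [Field k] [NumberField k] {ι : Type*} [Fintype ι]
    (F : MvPolynomial ι k) (hF : F ≠ 0) (y : ι) (hy : F.vars ⊆ {y}) (α : k) (e : ℕ)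
    (h : (X y - C α) ^ e ∣ F) :
    e * logHeight₁ α ≤ nh F + 3 * Module.finrank ℚ k * F.degreeOf y := by
  classical
  obtain ⟨Q, hQ⟩ := h
  have hl : (X y - C α : MvPolynomial ι k) ≠ 0 := by
    intro h0
    have := congrArg (eval fun _ : ι => α + 1) h0
    simp at this
  have hQ0 : Q ≠ 0 := by
    rintro rfl
    exact hF (by rw [hQ, mul_zero])
  set G : ℕ → MvPolynomial ι k := fun j => if j < e then X y - C α else Q with hG
  have hG0 : ∀ j ∈ Finset.range (e + 1), G j ≠ 0 := by
    intro j _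
    simp only [hG]
    split_ifs
    · exact hl
    · exact hQ0
  have hprod : ∏ j ∈ Finset.range (e + 1), G j = F := by
    rw [Finset.prod_range_succ, hQ]
    congr 1
    · rw [Finset.prod_congr rfl (g := fun _ => (X y - C α : MvPolynomial ι k))]
      · simp
      · intro j hj
        simp [hG, Finset.mem_range.mp hj]
    · simp [hG]
  have hsum : ∑ j ∈ Finset.range (e + 1), nh (G j) = e * nh (X y - C α) + nh Q := by
    rw [Finset.sum_range_succ]
    congr 1
    · rw [Finset.sum_congr rfl (g := fun _ => nh (X y - C α : MvPolynomial ι k))]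
      · simp
      · intro j hj
        simp [hG, Finset.mem_range.mp hj]
    · simp [hG]
  have hmain := sum_nh_le k (Finset.range (e + 1)) G hG0
  rw [hprod, hsum] at hmain
  have hdeg : (∑ t, (degreeOf t F : ℝ)) = F.degreeOf y := by
    rw [Finset.sum_eq_single y]
    · intro t _ hty
      have : t ∉ F.vars := fun ht => hty (Finset.mem_singleton.mp (hy ht))
      have h0 : degreeOf t F = 0 := by
        by_contra hne
        rw [degreeOf_eq_sup] at hne
        apply this
        rw [mem_vars_iff_mem_support]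
        by_contra hcon
        push Not at hcon
        apply hne
        rw [← Nat.bot_eq_zero, Finset.sup_eq_bot_iff]
        intro m hm
        have := hcon m hm
        simpa using this
      rw [h0, Nat.cast_zero]
    · intro hn
      exact absurd (Finset.mem_univ y) hn
  have hvars : (X y - C α : MvPolynomial ι k).vars ⊆ {y} := by
    refine (vars_sub_subset (p := X y) (q := C α)).trans ?_
    rw [vars_X, vars_C, Finset.union_empty]
  have hroot : logHeight₁ α ≤ nh (X y - C α : MvPolynomial ι k) := by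
    have := logHeight_root_le (X y - C α : MvPolynomial ι k) hl y hvars (fun _ => α) (by simp)
    simpa using this
  have hQn : 0 ≤ nh Q := nh_nonneg hQ0
  rw [hdeg] at hmain
  have : (e : ℝ) * logHeight₁ α ≤ e * nh (X y - C α : MvPolynomial ι k) :=
    mul_le_mul_of_nonneg_left hroot (Nat.cast_nonneg _)
  linarith

end Pool.Agent.Lib.MP_17a322_nt.VJ
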