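import Pool.Agent.Lib.MP_17a322_nt.VJ.J9a

/-!
The columns along the branch (one factor) and their sizes.
-/

universe u

namespace Pool.Agent.Lib.MP_17a322_nt.VJ

open MvPolynomial Height
open Pool.Agent.Lib.MP_17a322_nt.RO

section

variable {K : Type u} [Field K] [CharZero K] [DecidableEq K] (W : WeierstrassCurve K) [W.IsElliptic]

theorem J9_half_col (S : Fin 3 → PowerSeries K) (B : PowerSeries K)
    (hB : B ^ 2 = S 1 ^ 2 - 4 * S 0 * S 2) :
    (∀ k, QF S ((![![S 0, PowerSeries.C (2 : K)⁻¹ * (S 1 - B)],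
      ![PowerSeries.C (2 : K)⁻¹ * (S 1 + B), S 2]] : Fin 2 → Fin 2 → PowerSeries K) k) = 0) ∧
    S 0 * S 2 = (PowerSeries.C (2 : K)⁻¹ * (S 1 - B)) * (PowerSeries.C (2 : K)⁻¹ * (S 1 + B)) := by
  have h2 : PowerSeries.C (2 : K)⁻¹ * 2 = (1 : PowerSeries K) := by
    have : (2 : PowerSeries K) = PowerSeries.C (2 : K) := by rw [map_ofNat]
    rw [this, ← map_mul, inv_mul_cancel₀ two_ne_zero, map_one]
  have h3 : S 0 * S 2 =
      (PowerSeries.C (2 : K)⁻¹ * (S 1 - B)) * (PowerSeries.C (2 : K)⁻¹ * (S 1 + B)) := by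
    linear_combination (-S 0 * S 2 * (PowerSeries.C (2 : K)⁻¹ * 2 + 1)) * h2 +
      (PowerSeries.C (2 : K)⁻¹ ^ 2) * hB
  have h4 := QF_col S (PowerSeries.C (2 : K)⁻¹ * (S 1 + B)) (PowerSeries.C (2 : K)⁻¹ * (S 1 - B))
    (by linear_combination (S 1) * h2) (by rw [h3]; ring)
  refine ⟨fun k => ?_, h3⟩
  fin_cases k
  · exact h4.2
  · exact h4.1

/-- The constant coefficient as a homomorphism of algebras. -/
noncomputable def J9_cc (K : Type u) [Field K] : PowerSeries K →ₐ[K] K :=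
  { (PowerSeries.constantCoeff : PowerSeries K →+* K) with
    commutes' := fun c => by
      simp [PowerSeries.algebraMap_apply] }

theorem J9_cc_apply {K : Type u} [Field K] (f : PowerSeries K) :
    J9_cc K f = PowerSeries.constantCoeff f := rfl

/-- One factor of the branch. `x = C α + U` is the x-coordinate along the branch. -/
theorem J9_branch_one (P P' : W.toAffine.Point) (e : ℕ) (hP : P ≠ 0) (hP' : P' ≠ 0)
    (h : ph W P.xRep ≠ 0) (U : PowerSeries K) (hU : PowerSeries.constantCoeff U = 0) :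
    ∃ (ξ : Fin 2 → Fin 2 → PowerSeries K) (γ : K), γ ≠ 0 ∧
      (∀ k, S3 W (mu W e ![PowerSeries.C (P.xRep 0) + U, 1])
        ![PowerSeries.C (P'.xRep 0), 1] (ξ k) = 0) ∧
      ξ 0 0 * ξ 1 1 = ξ 0 1 * ξ 1 0 ∧
      (∀ k i, PowerSeries.constantCoeff (ξ k i) =
          γ * ((P' + 2 ^ e • P).xRep k * (P' - 2 ^ e • P).xRep i)) ∧
      ∀ (v : AbsoluteValue K ℝ) (r u : ℝ), 0 ≤ r → 0 ≤ u → u ≤ 1 → (∀ n, PN v r n U ≤ u) →
        u * (lc W v ^ 16 * vn v P.xRep ^ 4) ≤ v (4 * ph W P.xRep) / cst v 2 ^ 2 →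
        ∀ n k i, PN v r n (ξ k i) ≤ max 1 (v ((2 : K)⁻¹)) *
          (lc W v ^ (100 * 4 ^ e) * (vn v P.xRep ^ (2 * 4 ^ e) * vn v P'.xRep ^ 2)) := by
  obtain ⟨γ, hγ, hγS⟩ := J9_gamma W P P' e
  obtain ⟨β', hβ'⟩ := ph_xRep_isSquare W W (map_self W) P'
  obtain ⟨β, hβ, hsign⟩ := J9_sign W P P' e γ hγS β' hβ'
  have hPx : P.xRep = ![P.xRep 0, 1] := xRep_eq hP
  have hPx' : P'.xRep = ![P'.xRep 0, 1] := xRep_eq hP'
  have hβ0 : β ≠ 0 := by
    rintro rfl
    exact h (by rw [hβ]; ring)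
  obtain ⟨b, hb0, hb2, hbs⟩ := J8_beta W (P.xRep 0) β (by rw [← hPx]; exact hβ)
    (mul_ne_zero two_ne_zero hβ0) U hU
  set x : PowerSeries K := PowerSeries.C (P.xRep 0) + U with hx
  set S : Fin 3 → PowerSeries K := SV W (mu W e ![x, 1]) ![PowerSeries.C (P'.xRep 0), 1] with hS
  set B : PowerSeries K := PowerSeries.C β' * b * nj W e ![x, 1] with hB
  have hphP' : ph W ![PowerSeries.C (P'.xRep 0), 1] = PowerSeries.C (ph W P'.xRep) := by
    have e := map_ph W (Algebra.ofId K (PowerSeries K)) P'.xRep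
    rw [Algebra.ofId_apply, PowerSeries.algebraMap_apply, Algebra.algebraMap_self_apply] at e
    rw [e]
    congr 1
    ext1 j
    fin_cases j
    · change _ = algebraMap K (PowerSeries K) (P'.xRep 0)
      rw [PowerSeries.algebraMap_apply, Algebra.algebraMap_self_apply]
      rfl
    · change _ = algebraMap K (PowerSeries K) (P'.xRep 1)
      rw [PowerSeries.algebraMap_apply, Algebra.algebraMap_self_apply, xRep_one hP', map_one]
      rfl
  have hB2 : B ^ 2 = S 1 ^ 2 - 4 * S 0 * S 2 := by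
    rw [hS, SV_disc, ph_mu, hphP', ← hb2, hβ', hB, map_pow]
    ring
  obtain ⟨hcol, hprop⟩ := J9_half_col S B hB2
  -- values at `T = 0`
  have hccx : (fun j => J9_cc K ((![x, 1] : Fin 2 → PowerSeries K) j)) = P.xRep := by
    ext1 j
    rw [hPx]
    fin_cases j
    · simp [J9_cc_apply, hx, hU]
    · simp [J9_cc_apply]
  have hS0 : ∀ i, PowerSeries.constantCoeff (S i) =
      γ * sq2 (P' + 2 ^ e • P).xRep (P' - 2 ^ e • P).xRep i := by
    intro i
    rw [← J9_cc_apply, hS, map_SV, ← hγS]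
    congr 1
    · ext1 j
      rw [map_mu, hccx]
    · ext1 j
      rw [hPx']
      fin_cases j
      · simp [J9_cc_apply]
      · simp [J9_cc_apply]
  have hB0 : PowerSeries.constantCoeff B = γ * ((P' + 2 ^ e • P).xRep 1 * (P' - 2 ^ e • P).xRep 0 -
        (P' + 2 ^ e • P).xRep 0 * (P' - 2 ^ e • P).xRep 1) := by
    rw [← hsign, ← J9_cc_apply, hB, map_mul, map_mul, map_nj, hccx, J9_cc_apply, J9_cc_apply, hb0,
      PowerSeries.constantCoeff_C]
  refine ⟨![![S 0, PowerSeries.C (2 : K)⁻¹ * (S 1 - B)],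
    ![PowerSeries.C (2 : K)⁻¹ * (S 1 + B), S 2]], γ, hγ, hcol, hprop, ?_, ?_⟩
  · intro k i
    have e0 : ∀ q q' : Fin 2 → K, sq2 q q' 0 = q 0 * q' 0 := fun _ _ => rfl
    have e1 : ∀ q q' : Fin 2 → K, sq2 q q' 1 = q 0 * q' 1 + q 1 * q' 0 := fun _ _ => rfl
    have e2 : ∀ q q' : Fin 2 → K, sq2 q q' 2 = q 1 * q' 1 := fun _ _ => rfl
    fin_cases k <;> fin_cases i
    · change PowerSeries.constantCoeff (S 0) = _
      rw [hS0, e0]
      rfl
    · change PowerSeries.constantCoeff (PowerSeries.C (2 : K)⁻¹ * (S 1 - B)) = _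
      rw [map_mul, map_sub, hS0, e1, hB0, PowerSeries.constantCoeff_C]
      simp only [Fin.mk_zero, Fin.mk_one, Fin.isValue]
      ring
    · change PowerSeries.constantCoeff (PowerSeries.C (2 : K)⁻¹ * (S 1 + B)) = _
      rw [map_mul, map_add, hS0, e1, hB0, PowerSeries.constantCoeff_C]
      simp only [Fin.mk_zero, Fin.mk_one, Fin.isValue]
      ring
    · change PowerSeries.constantCoeff (S 2) = _
      rw [hS0, e2]
      rfl
  · intro v r u hr hu hu1 hUu hle n
    have hS' := SN_PN v hr n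
    have hSv := SN_self v
    set l : ℝ := lc W v with hl
    set X : ℝ := vn v P.xRep with hX
    set X' : ℝ := vn v P'.xRep with hX'
    set q : ℕ := 4 ^ e with hq
    have hq1 : 1 ≤ q := Nat.one_le_pow _ _ (by norm_num)
    have hl1 : 1 ≤ l := one_le_lc W v
    have hl0 : 0 < l := lt_of_lt_of_le one_pos hl1
    have hX1 : 1 ≤ X := one_le_vn_xRep v P
    have hX0 : 0 < X := lt_of_lt_of_le one_pos hX1
    have hX'1 : 1 ≤ X' := one_le_vn_xRep v P'
    have hX'0 : 0 < X' := lt_of_lt_of_le one_pos hX'1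
    have c2 : cst v 2 ≤ l := cst_two_le_lc W v
    have c20 : 0 ≤ cst v 2 := cst_nonneg v 2
    have pw : ∀ {a b : ℕ}, a ≤ b → l ^ a ≤ l ^ b := fun h => pow_le_pow_right₀ hl1 h
    have hlX : 1 ≤ l * X := one_le_mul_of_one_le_of_one_le hl1 hX1
    -- the x-coordinate
    have hxs : ∀ i, PN v r n ((![x, 1] : Fin 2 → PowerSeries K) i) ≤ l * X := by
      intro i
      fin_cases i
      · change PN v r n x ≤ l * X
        have e1 : PN v r n x ≤ cst v 2 * X := by
          apply SN.add_le_cst hS'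
          · rw [PN_C]
            exact le_vn v P.xRep 0
          · exact ((hUu n).trans hu1).trans hX1
        exact e1.trans (mul_le_mul_of_nonneg_right c2 hX0.le)
      · exact (SN.one_le hS').trans hlX
    have hx's : ∀ i, PN v r n ((![PowerSeries.C (P'.xRep 0), 1] : Fin 2 → PowerSeries K) i) ≤
        X' := by
      intro i
      fin_cases i
      · change PN v r n (PowerSeries.C (P'.xRep 0)) ≤ X'
        rw [PN_C]
        exact le_vn v P'.xRep 0
      · exact (SN.one_le hS').trans hX'1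
    have hmus := mu_size W hS' e ![x, 1] hxs
    have hnjs := nj_size W hS' e ![x, 1] hxs
    have hSs : ∀ i, PN v r n (S i) ≤ l ^ (82 * q) * (X ^ (2 * q) * X' ^ 2) := by
      intro i
      refine (SV_size W hS' (mu W e ![x, 1]) ![PowerSeries.C (P'.xRep 0), 1] hmus hx's i).trans ?_
      rw [← hl, ← hq]
      calc l ^ 16 * (l ^ (16 * q) * (l * X) ^ q * X') ^ 2
          = l ^ (16 + 34 * q) * (X ^ (2 * q) * X' ^ 2) := by
            rw [mul_pow l X q, pow_add, show 34 * q = 2 * (16 * q) + 2 * q by ring, pow_add,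
              pow_mul' l 2 (16 * q), pow_mul' l 2 q, pow_mul' X 2 q]
            ring
        _ ≤ _ := mul_le_mul_of_nonneg_right (pw (by omega)) (by positivity)
    have hphle : ∀ (Q : W.toAffine.Point) (b : K), ph W Q.xRep = b ^ 2 →
        v b ≤ l ^ 8 * vn v Q.xRep ^ 2 := by
      intro Q b hb
      have h1 : v (ph W Q.xRep) ≤ l ^ 16 * vn v Q.xRep ^ 4 :=
        ph_size W hSv Q.xRep (fun i => le_vn v Q.xRep i)
      rw [hb, map_pow] at h1
      have hnn : 0 ≤ l ^ 8 * vn v Q.xRep ^ 2 :=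
        mul_nonneg (pow_nonneg hl0.le _) (sq_nonneg _)
      refine le_of_sq_le_sq (h1.trans (le_of_eq ?_)) hnn
      ring
    have hβ's : v β' ≤ l ^ 8 * X' ^ 2 := hphle P' β' hβ'
    have hβs : v β ≤ l ^ 8 * X ^ 2 := hphle P β hβ
    have hbs' : PN v r n b ≤ l * (l ^ 8 * X ^ 2) := by
      have e1 := hbs v r u hr hu hu1 hUu (by
        rw [← hPx]
        refine hle.trans (le_of_eq ?_)
        rw [div_pow, ← map_pow, hβ]
        congr 2
        ring) n
      exact e1.trans (mul_le_mul c2 hβs (v.nonneg _) hl0.le)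
    have hBs : PN v r n B ≤ l ^ (82 * q) * (X ^ (2 * q) * X' ^ 2) := by
      have e1 : PN v r n B ≤ (l ^ 8 * X' ^ 2) * (l * (l ^ 8 * X ^ 2)) *
          (l ^ (64 * q) * (l * X) ^ (2 * (q - 1))) := by
        rw [hB]
        refine ((SN_PN v hr n).mul _ _).trans ?_
        refine mul_le_mul ?_ hnjs ((SN_PN v hr n).nonneg _) (by positivity)
        rw [PN_C_mul v hr]
        exact mul_le_mul hβ's hbs' ((SN_PN v hr n).nonneg _) (by positivity)
      refine e1.trans ?_
      obtain ⟨m, hm⟩ : ∃ m, q = m + 1 := ⟨q - 1, by omega⟩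
      rw [hm]
      calc (l ^ 8 * X' ^ 2) * (l * (l ^ 8 * X ^ 2)) *
            (l ^ (64 * (m + 1)) * (l * X) ^ (2 * (m + 1 - 1)))
          = l ^ (17 + 64 * (m + 1) + 2 * m) * (X ^ (2 * (m + 1)) * X' ^ 2) := by
            rw [Nat.add_sub_cancel, mul_pow l X (2 * m), pow_add, pow_add,
              show 2 * (m + 1) = 2 * m + 2 by ring, pow_add X]
            ring
        _ ≤ _ := mul_le_mul_of_nonneg_right (pw (by omega)) (by positivity)
    set T : ℝ := X ^ (2 * q) * X' ^ 2 with hT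
    have hT0 : 0 < T := by positivity
    have hm1 : (1 : ℝ) ≤ max 1 (v ((2 : K)⁻¹)) := le_max_left _ _
    have hfin : ∀ {y : ℝ}, y ≤ l ^ (82 * q) * T → y ≤ max 1 (v ((2 : K)⁻¹)) *
        (l ^ (100 * q) * T) := by
      intro y hy
      refine hy.trans ?_
      calc l ^ (82 * q) * T ≤ l ^ (100 * q) * T :=
            mul_le_mul_of_nonneg_right (pw (by omega)) hT0.le
        _ ≤ _ := le_mul_of_one_le_left (by positivity) hm1
    have hhalf : ∀ {y : PowerSeries K}, PN v r n y ≤ cst v 2 * (l ^ (82 * q) * T) →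
        PN v r n (PowerSeries.C (2 : K)⁻¹ * y) ≤ max 1 (v ((2 : K)⁻¹)) *
        (l ^ (100 * q) * T) := by
      intro y hy
      rw [PN_C_mul v hr]
      refine mul_le_mul (le_max_right _ _) (hy.trans ?_) ((SN_PN v hr n).nonneg _) (by positivity)
      calc cst v 2 * (l ^ (82 * q) * T) ≤ l * (l ^ (82 * q) * T) :=
            mul_le_mul_of_nonneg_right c2 (by positivity)
        _ = l ^ (82 * q + 1) * T := by ring
        _ ≤ _ := mul_le_mul_of_nonneg_right (pw (by omega)) hT0.le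
    intro k i
    fin_cases k <;> fin_cases i
    · exact hfin (hSs 0)
    · exact hhalf (SN.sub_le_cst hS' (hSs 1) hBs)
    · exact hhalf (SN.add_le_cst hS' (hSs 1) hBs)
    · exact hfin (hSs 2)

end

end Pool.Agent.Lib.MP_17a322_nt.VJ
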