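import Pool.Agent.Lib.MP_17a322_nt.VJ.A5
import Pool.Agent.Lib.MP_17a322_nt.VJ.J9b

/-!
The branch lemma (9.5), (9.6).
-/

universe u

namespace Pool.Agent.Lib.MP_17a322_nt.VJ

open MvPolynomial Height

section

variable {K : Type u} [Field K]

/-- The square of the radius of the implicit function. -/
noncomputable def J9_rho (v : AbsoluteValue K ℝ) (G : MvPolynomial (Fin 2) K) : ℝ :=
  (v (coeff (Finsupp.single 1 1) G) / NV v G) ^ 2

/-- The factor of the radius for the square root. -/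
noncomputable def J9_lam (v : AbsoluteValue K ℝ) (W : WeierstrassCurve K) (R : Fin 2 → K) : ℝ :=
  v (4 * ph W R) / cst v 2 ^ 2 / (lc W v ^ 16 * vn v R ^ 4)

theorem J9_lam_pos (v : AbsoluteValue K ℝ) (W : WeierstrassCurve K) [CharZero K] {R : Fin 2 → K}
    (hR : R ≠ 0) (h : ph W R ≠ 0) : 0 < J9_lam v W R := by
  have h1 : 0 < v (4 * ph W R) := v.pos (mul_ne_zero (by norm_num) h)
  have h2 : 0 < cst v 2 := lt_of_lt_of_le one_pos (one_le_cst v (by norm_num))
  have h3 : 0 < lc W v := lt_of_lt_of_le one_pos (one_le_lc W v)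
  have h4 : 0 < vn v R := vn_pos v hR
  unfold J9_lam
  positivity

theorem J9_lam_le (v : AbsoluteValue K ℝ) (W : WeierstrassCurve K) {R : Fin 2 → K}
    (hR : R ≠ 0) : J9_lam v W R ≤ 1 := by
  have h2 : 0 < cst v 2 := lt_of_lt_of_le one_pos (one_le_cst v (by norm_num))
  have h3 : 0 < lc W v := lt_of_lt_of_le one_pos (one_le_lc W v)
  have h4 : 0 < vn v R := vn_pos v hR
  unfold J9_lam
  rw [div_div, div_le_one (by positivity), map_mul]
  have h5 : v (ph W R) ≤ lc W v ^ 16 * vn v R ^ 4 := ph_size W (SN_self v) R (fun i => le_vn v R i)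
  have h6 : v (4 : K) ≤ cst v 2 ^ 2 := by
    rw [← cst_pow]
    simpa using J8_natCast_le v 4
  exact mul_le_mul h6 h5 (v.nonneg _) (by positivity)

theorem J9_log_lam (v : AbsoluteValue K ℝ) (W : WeierstrassCurve K) [CharZero K] {R : Fin 2 → K}
    (hR : R ≠ 0) (h : ph W R ≠ 0) :
    Real.log (J9_lam v W R) = Real.log (v (4 * ph W R)) -
      (2 * Real.log (cst v 2) + (16 * Real.log (lc W v) + 4 * Real.log (vn v R))) := by
  have h1 : 0 < v (4 * ph W R) := v.pos (mul_ne_zero (by norm_num) h)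
  have h2 : 0 < cst v 2 := lt_of_lt_of_le one_pos (one_le_cst v (by norm_num))
  have h3 : 0 < lc W v := lt_of_lt_of_le one_pos (one_le_lc W v)
  have h4 : 0 < vn v R := vn_pos v hR
  unfold J9_lam
  rw [Real.log_div (by positivity) (by positivity), Real.log_div h1.ne' (by positivity),
    Real.log_mul (by positivity) (by positivity), Real.log_pow, Real.log_pow, Real.log_pow]
  push_cast
  ring

end

section

variable {K : Type u} [Field K] [NumberField K]

theorem J9_gs_lam (W : WeierstrassCurve K) {R : Fin 2 → K} (hR : R ≠ 0) (h : ph W R ≠ 0) :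
    FS (fun v : AbsoluteValue K ℝ => Real.log (J9_lam v W R)) ∧
    - gs (fun v : AbsoluteValue K ℝ => Real.log (J9_lam v W R)) ≤
      2 * gs (fun v : AbsoluteValue K ℝ => Real.log (cst v 2)) +
        16 * gs (fun v : AbsoluteValue K ℝ => Real.log (lc W v)) + 4 * logHeight R := by
  have e : (fun v : AbsoluteValue K ℝ => Real.log (J9_lam v W R)) =
      fun v => Real.log (v (4 * ph W R)) -
      (2 * Real.log (cst v 2) + (16 * Real.log (lc W v) + 4 * Real.log (vn v R))) := by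
    ext v
    exact J9_log_lam v W hR h
  have h4 : 4 * ph W R ≠ 0 := mul_ne_zero (by norm_num) h
  have f1 := FS_log_abv (L := K) h4
  have f2 := FS_const_mul 2 (FS_log_cst (L := K) 2)
  have f3 := FS_const_mul 16 (FS_log_lc (L := K) W)
  have f4 := FS_const_mul 4 (FS_log_vn hR)
  have f34 := FS_add f3 f4
  have f234 := FS_add f2 f34
  rw [e]
  refine ⟨FS_sub f1 f234, ?_⟩
  rw [gs_sub f1 f234, gs_log_abv h4, gs_add f2 f34, gs_add f3 f4, gs_const_mul, gs_const_mul,
    gs_const_mul, gs_log_vn hR]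
  linarith

/-- The height of the translated polynomial. -/
theorem J9_nh_tr (g : MvPolynomial (Fin 2) K) (hg : g ≠ 0) (D : ℕ) (hD : ∀ t, g.degreeOf t ≤ D)
    (α : Fin 2 → K) : nh (tr α g) ≤ nh g +
      ∑ t : Fin 2, (D : ℝ) * (gs (fun v : AbsoluteValue K ℝ => Real.log (cst v 2)) +
        logHeight₁ (α t)) := by
  have hG : tr α g ≠ 0 := fun h => hg ((tr_eq_zero α g).mp h)
  have hcs : ∀ t : Fin 2, FS (fun v : AbsoluteValue K ℝ =>
      (D : ℝ) * (Real.log (cst v 2) + Real.log (max 1 (v (α t))))) := fun t =>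
    FS_const_mul _ (FS_add (FS_log_cst 2) (FS_log_max (α t)))
  have f1 := FS_sum (Finset.univ : Finset (Fin 2)) (fun t _ => hcs t)
  have e : nh g + ∑ t : Fin 2, (D : ℝ) * (gs (fun v : AbsoluteValue K ℝ => Real.log (cst v 2)) +
        logHeight₁ (α t)) = gs (fun v : AbsoluteValue K ℝ => Real.log (NV v g) +
          ∑ t : Fin 2, (D : ℝ) * (Real.log (cst v 2) + Real.log (max 1 (v (α t))))) := by
    rw [gs_add (FS_log_NV hg) f1, gs_sum _ (fun t _ => hcs t)]
    congr 1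
    apply Finset.sum_congr rfl
    intro t _
    rw [gs_const_mul, gs_add (FS_log_cst 2) (FS_log_max (α t)), gs_log_max]
  rw [e]
  apply gs_le (FS_log_NV hG) (FS_add (FS_log_NV hg) f1)
  intro v _
  have h1 := NV_tr_le v g (fun _ => D) hD α
  have hc : ∀ t, 0 < cst v 2 * max 1 (v (α t)) := fun t =>
    mul_pos (lt_of_lt_of_le one_pos (one_le_cst v (by norm_num)))
      (lt_of_lt_of_le one_pos (le_max_left _ _))
  have h2 := Real.log_le_log (NV_pos v hG) h1
  rw [Real.log_mul (NV_pos v hg).ne' (Finset.prod_pos fun t _ => pow_pos (hc t) D).ne',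
    Real.log_prod (fun t _ => (pow_pos (hc t) D).ne')] at h2
  refine h2.trans (le_of_eq ?_)
  congr 1
  apply Finset.sum_congr rfl
  intro t _
  rw [Real.log_pow, Real.log_mul (lt_of_lt_of_le one_pos (one_le_cst v (by norm_num))).ne'
    (lt_of_lt_of_le one_pos (le_max_left _ _)).ne']

theorem J9_gs_rho (g : MvPolynomial (Fin 2) K) (α : Fin 2 → K)
    (h1 : coeff (Finsupp.single 1 1) (tr α g) ≠ 0) :
    FS (fun v : AbsoluteValue K ℝ => Real.log (J9_rho v (tr α g))) ∧
    - gs (fun v : AbsoluteValue K ℝ => Real.log (J9_rho v (tr α g))) ≤ 2 * nh (tr α g) := by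
  have hG : tr α g ≠ 0 := by
    intro h
    rw [h] at h1
    exact h1 (coeff_zero _)
  have e : (fun v : AbsoluteValue K ℝ => Real.log (J9_rho v (tr α g))) =
      fun v => 2 * (Real.log (v (coeff (Finsupp.single 1 1) (tr α g))) -
        Real.log (NV v (tr α g))) := by
    ext v
    unfold J9_rho
    rw [Real.log_pow, Real.log_div (v.pos h1).ne' (NV_pos v hG).ne']
    push_cast
    ring
  have f1 := FS_log_abv (L := K) h1
  have f2 := FS_log_NV hG
  rw [e]
  refine ⟨FS_const_mul _ (FS_sub f1 f2), ?_⟩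
  rw [gs_const_mul, gs_sub f1 f2, gs_log_abv h1]
  unfold nh
  linarith

end

set_option maxHeartbeats 4000000 in
theorem J9_num1 {D c2 l0 l1 : ℝ} (hD : 0 ≤ D) (h2 : 0 ≤ c2) (h0 : 0 ≤ l0) (h1 : 0 ≤ l1) :
    0 ≤ 4 * D * c2 + 4 * c2 + 16 * (l0 + l1) := by
  positivity

theorem J9_num2 {D A : ℝ} (hD : 0 ≤ D) (hA : 0 ≤ A) : 0 ≤ 2 + A + (2 * D + 4) := by
  positivity

theorem J9_num3 {D A ng S : ℝ} (Dn : 0 ≤ D) (An : 0 ≤ A) (hn : 0 ≤ ng) (hs : 0 ≤ S) :
    2 * ng + A + (2 * D + 4) * S ≤ (2 + A + (2 * D + 4)) * (1 + ng + S) := by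
  have h1 := mul_nonneg An hn
  have h2 := mul_nonneg An hs
  have h3 := mul_nonneg Dn hn
  linarith

/-- The branch of the curve `g` through `P`, the two columns for the x-coordinates of
`P' - 2 ^ e P`, and their sizes. -/
theorem branch {K : Type u} [Field K] [NumberField K] [DecidableEq K]
    (W : Fin 2 → WeierstrassCurve K) [∀ t, (W t).IsElliptic] (D : ℕ) :
    ∃ (C : ℝ) (N : ℕ), 0 ≤ C ∧ ∀ (g : MvPolynomial (Fin 2) K)
      (P P' : ∀ t, (W t).toAffine.Point) (e : ℕ),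
      (∀ t, g.degreeOf t ≤ D) → (∀ t, P t ≠ 0) → (∀ t, P' t ≠ 0) →
      eval (fun t => (P t).xRep 0) g = 0 → eval (fun t => (P t).xRep 0) (pderiv 1 g) ≠ 0 →
      (∀ t, ph (W t) (P t).xRep ≠ 0) → (∀ t, ph (W t) (P' t).xRep ≠ 0) →
      ∃ (r : AbsoluteValue K ℝ → ℝ) (x : Fin 2 → PowerSeries K)
        (ξ : Fin 2 → Fin 2 → Fin 2 → PowerSeries K) (γ : Fin 2 → K),
        x 0 = PowerSeries.X + PowerSeries.C ((P 0).xRep 0) ∧
        (∀ t, PowerSeries.constantCoeff (x t) = (P t).xRep 0) ∧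
        aeval x g = 0 ∧
        (∀ t k, S3 (W t) (mu (W t) e ![x t, 1]) ![PowerSeries.C ((P' t).xRep 0), 1] (ξ t k) = 0) ∧
        (∀ t, ξ t 0 0 * ξ t 1 1 = ξ t 0 1 * ξ t 1 0) ∧
        (∀ t, γ t ≠ 0) ∧
        (∀ t k i, PowerSeries.constantCoeff (ξ t k i) =
          γ t * ((P' t + 2 ^ e • P t).xRep k * (P' t - 2 ^ e • P t).xRep i)) ∧
        (∀ v, Pl v → 0 < r v ∧ r v ≤ 1) ∧ FS (fun v => Real.log (r v)) ∧
        - gs (fun v => Real.log (r v)) ≤ C * (1 + nh g + ∑ t, logHeight (P t).xRep) ∧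
        (∀ v, Pl v → ∀ n t, PN v (r v) n (x t) ≤ cst v 2 * max 1 (v ((P t).xRep 0))) ∧
        (∀ v, Pl v → ∀ n t k i, PN v (r v) n (ξ t k i) ≤
          max 1 (v ((2 : K)⁻¹)) * (lc (W t) v ^ (N * 4 ^ e) *
            (vn v (P t).xRep ^ (2 * 4 ^ e) * vn v (P' t).xRep ^ 2))) := by
  classical
  set c2 : ℝ := gs (fun v : AbsoluteValue K ℝ => Real.log (cst v 2)) with hc2
  set l0 : ℝ := gs (fun v : AbsoluteValue K ℝ => Real.log (lc (W 0) v)) with hl0
  set l1 : ℝ := gs (fun v : AbsoluteValue K ℝ => Real.log (lc (W 1) v)) with hl1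
  have c2n : 0 ≤ c2 := gs_nonneg fun v _ => Real.log_nonneg (one_le_cst v (by norm_num))
  have l0n : 0 ≤ l0 := gs_nonneg fun v _ => Real.log_nonneg (one_le_lc (W 0) v)
  have l1n : 0 ≤ l1 := gs_nonneg fun v _ => Real.log_nonneg (one_le_lc (W 1) v)
  refine ⟨2 + (4 * D * c2 + 4 * c2 + 16 * (l0 + l1)) + (2 * D + 4), 100,
    J9_num2 (Nat.cast_nonneg D) (J9_num1 (Nat.cast_nonneg D) c2n l0n l1n), ?_⟩
  intro g P P' e hD hP hP' hg0 hg1 hph hph'
  set α : Fin 2 → K := fun t => (P t).xRep 0 with hα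
  have h0 : coeff 0 (tr α g) = 0 := by rw [coeff_zero_tr]; exact hg0
  have h1 : coeff (Finsupp.single 1 1) (tr α g) ≠ 0 := by rw [J9_coeff_single_tr]; exact hg1
  have hg : g ≠ 0 := by
    rintro rfl
    exact hg1 (by simp)
  obtain ⟨U, hU, hGU⟩ := J6_implicit (tr α g) h0 h1
  set Us : Fin 2 → PowerSeries K := ![PowerSeries.X, U] with hUs
  have hUs0 : ∀ t, PowerSeries.constantCoeff (Us t) = 0 := by
    intro t
    fin_cases t
    · exact PowerSeries.constantCoeff_X
    · exact hU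
  have hbr := fun t => J9_branch_one (W t) (P t) (P' t) e (hP t) (hP' t) (hph t) (Us t) (hUs0 t)
  choose ξ γ hγ hS3 hprop hval hsize using hbr
  have hxr : ∀ t, (P t).xRep ≠ 0 := fun t => xRep_ne_zero (P t)
  set lam : AbsoluteValue K ℝ → ℝ := fun v =>
    J9_lam v (W 0) (P 0).xRep * J9_lam v (W 1) (P 1).xRep with hlam
  have lampos : ∀ v t, 0 < J9_lam v (W t) (P t).xRep := fun v t =>
    J9_lam_pos v (W t) (hxr t) (hph t)
  have lamle : ∀ v t, J9_lam v (W t) (P t).xRep ≤ 1 := fun v t => J9_lam_le v (W t) (hxr t)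
  have lam0 : ∀ v, 0 < lam v := fun v => mul_pos (lampos v 0) (lampos v 1)
  have lam1 : ∀ v, lam v ≤ 1 := fun v => mul_le_one₀ (lamle v 0) (lampos v 1).le (lamle v 1)
  have lamt : ∀ v t, lam v ≤ J9_lam v (W t) (P t).xRep := by
    intro v t
    fin_cases t
    · exact mul_le_of_le_one_right (lampos v 0).le (lamle v 1)
    · exact mul_le_of_le_one_left (lampos v 1).le (lamle v 0)
  have hρ := fun v : AbsoluteValue K ℝ => J7_rho v (tr α g) h1
  have rho0 : ∀ v : AbsoluteValue K ℝ, 0 < J9_rho v (tr α g) := fun v => pow_pos (hρ v).1 2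
  have rho1 : ∀ v : AbsoluteValue K ℝ, J9_rho v (tr α g) ≤ 1 := fun v =>
    pow_le_one₀ (hρ v).1.le (hρ v).2
  have hr0 : ∀ v, 0 < lam v * J9_rho v (tr α g) := fun v => mul_pos (lam0 v) (rho0 v)
  have hUsize : ∀ v t n, PN v (lam v * J9_rho v (tr α g)) n (Us t) ≤ lam v := by
    intro v t n
    fin_cases t
    · refine (PN_X_le v (hr0 v).le n).trans ?_
      exact mul_le_of_le_one_right (lam0 v).le (rho1 v)
    · refine (PN_scale v (rho0 v).le (lam0 v).le (lam1 v) n U hU).trans ?_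
      apply mul_le_of_le_one_right (lam0 v).le
      exact (J7_size v (tr α g) h0 h1 U hU hGU (rho0 v).le le_rfl n).trans (hρ v).2
  have hg0' := fun t => J9_gs_lam (W t) (hxr t) (hph t)
  have hgr := J9_gs_rho g α h1
  have elog : (fun v : AbsoluteValue K ℝ => Real.log (lam v * J9_rho v (tr α g))) =
      fun v => (Real.log (J9_lam v (W 0) (P 0).xRep) + Real.log (J9_lam v (W 1) (P 1).xRep)) +
        Real.log (J9_rho v (tr α g)) := by
    ext v
    rw [Real.log_mul (lam0 v).ne' (rho0 v).ne', Real.log_mul (lampos v 0).ne' (lampos v 1).ne']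
  refine ⟨fun v => lam v * J9_rho v (tr α g), fun t => PowerSeries.C (α t) + Us t, ξ, γ,
    ?_, ?_, ?_, hS3, hprop, hγ, hval, ?_, ?_, ?_, ?_, ?_⟩
  · rw [add_comm]
    rfl
  · intro t
    rw [map_add, hUs0 t, add_zero, PowerSeries.constantCoeff_C]
  · have e1 := aeval_tr (A := PowerSeries K) α g Us
    rw [hGU] at e1
    rw [e1]
    congr 2
    ext1 t
    rw [PowerSeries.algebraMap_apply, Algebra.algebraMap_self_apply, add_comm]
  · intro v _
    exact ⟨hr0 v, mul_le_one₀ (lam1 v) (rho0 v).le (rho1 v)⟩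
  · rw [elog]
    exact FS_add (FS_add (hg0' 0).1 (hg0' 1).1) hgr.1
  · rw [elog, gs_add (FS_add (hg0' 0).1 (hg0' 1).1) hgr.1, gs_add (hg0' 0).1 (hg0' 1).1]
    have b0 := (hg0' 0).2
    have b1 := (hg0' 1).2
    have b2 := hgr.2
    have b3 := J9_nh_tr g hg D hD α
    rw [Fin.sum_univ_two] at b3
    have e0 : logHeight₁ (α 0) = logHeight (P 0).xRep := (logHeight_xRep (hP 0)).symm
    have e1 : logHeight₁ (α 1) = logHeight (P 1).xRep := (logHeight_xRep (hP 1)).symm
    rw [e0, e1, ← hc2] at b3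
    rw [← hc2, ← hl0] at b0
    rw [← hc2, ← hl1] at b1
    rw [Fin.sum_univ_two]
    set x0 : ℝ := logHeight (P 0).xRep with hx0
    set x1 : ℝ := logHeight (P 1).xRep with hx1
    have x0n : 0 ≤ x0 := logHeight_xRep_nonneg (P 0)
    have x1n : 0 ≤ x1 := logHeight_xRep_nonneg (P 1)
    have ng : 0 ≤ nh g := nh_nonneg hg
    have Dn : (0 : ℝ) ≤ D := Nat.cast_nonneg D
    set A : ℝ := 4 * D * c2 + 4 * c2 + 16 * (l0 + l1) with hA
    have An : 0 ≤ A := J9_num1 Dn c2n l0n l1n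
    have step : -(gs (fun v => Real.log (J9_lam v (W 0) (P 0).xRep)) +
        gs (fun v => Real.log (J9_lam v (W 1) (P 1).xRep)) +
        gs (fun v => Real.log (J9_rho v (tr α g)))) ≤
          2 * nh g + A + (2 * D + 4) * (x0 + x1) := by
      rw [hA]
      nlinarith
    refine step.trans ?_
    have hs : 0 ≤ x0 + x1 := add_nonneg x0n x1n
    exact J9_num3 Dn An ng hs
  · intro v _ n t
    apply SN.add_le_cst (SN_PN v (hr0 v).le n)
    · rw [PN_C]
      exact le_max_right _ _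
    · exact ((hUsize v t n).trans (lam1 v)).trans (le_max_left _ _)
  · intro v _ n t k i
    apply hsize t v _ (lam v) (hr0 v).le (lam0 v).le (lam1 v) (fun n => hUsize v t n)
    have h2 : 0 < lc (W t) v ^ 16 * vn v (P t).xRep ^ 4 :=
      mul_pos (pow_pos (lt_of_lt_of_le one_pos (one_le_lc (W t) v)) _)
        (pow_pos (vn_pos v (hxr t)) _)
    have h3 := lamt v t
    unfold J9_lam at h3
    rwa [le_div_iff₀ h2] at h3

end Pool.Agent.Lib.MP_17a322_nt.VJ
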