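import Pool.Agent.Lib.MP_17a322_nt.VJ.J1b
import Pool.Agent.Lib.MP_17a322_nt.VJ.E7

/-!
`QQ` is not zero.
-/

universe u

namespace Pool.Agent.Lib.MP_17a322_nt.VJ

open MvPolynomial Height
open Pool.Agent.Lib.MP_17a322_nt.RO

/-- A point avoiding finitely many conditions.
Proof. The curve has infinitely many points (`exists_affine_point` for every `x` in the infinite field
`F`). Each of the conditions excludes only finitely many of them: `q = 0`; `q.xRep 0 = 0` (for `q ≠ 0` this
means `q.xRep = ![0, 1]`, `finite_xRep_eq`); `q = -v`; `q = v`; for `z ∈ Z`: `(q + v).xRep = ![z, 1]` or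
`(q + v).xRep = ![1, 0]`-like vectors: if `(q + v).xRep 0 = z` then `q + v = 0` or `(q + v).xRep = ![z, 1]`
(`finite_xRep_eq`, translate by `-v`); same for `q - v`. -/
theorem exists_point_avoid {F : Type*} [Field F] [IsAlgClosed F] [DecidableEq F]
    (V : WeierstrassCurve F) [V.IsElliptic] (v : V.toAffine.Point) (Z : Set F) (hZ : Z.Finite) :
    ∃ q : V.toAffine.Point, q ≠ 0 ∧ q.xRep 0 ≠ 0 ∧ q + v ≠ 0 ∧ q - v ≠ 0 ∧
      (q + v).xRep 0 ∉ Z ∧ (q - v).xRep 0 ∉ Z := by
  have hinf : Infinite V.toAffine.Point := by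
    choose f _ hf using fun x : F => exists_affine_point V x
    refine Infinite.of_injective f fun x y hxy => ?_
    have h1 := hf x
    rw [hxy, hf y] at h1
    exact (congrFun h1 0).symm
  have hx : ∀ z : F, {q : V.toAffine.Point | q.xRep 0 = z}.Finite := by
    intro z
    refine ((Set.finite_singleton (0 : V.toAffine.Point)).union
      (finite_xRep_eq V ![z, 1])).subset fun q hq => ?_
    by_cases h0 : q = 0
    · exact Or.inl h0
    · refine Or.inr ?_
      change q.xRep = ![z, 1]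
      rw [xRep_eq h0]
      exact congrArg (fun w => (![w, 1] : Fin 2 → F)) hq
  have hZ' : {q : V.toAffine.Point | q.xRep 0 ∈ Z}.Finite := by
    refine (hZ.biUnion fun z _ => hx z).subset fun q hq => ?_
    exact Set.mem_biUnion (x := q.xRep 0) hq rfl
  have h1 : {q : V.toAffine.Point | (q + v).xRep 0 ∈ Z}.Finite :=
    Set.Finite.preimage (f := fun q => q + v) (fun a _ b _ h => add_right_cancel h) hZ'
  have h2 : {q : V.toAffine.Point | (q - v).xRep 0 ∈ Z}.Finite :=
    Set.Finite.preimage (f := fun q => q - v) (fun a _ b _ h => sub_left_injective h) hZ'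
  have hbad := ((((Set.toFinite {0, -v, v}).union (hx 0)).union h1).union h2)
  obtain ⟨q, -, hq⟩ := Set.infinite_univ.exists_notMem_finite hbad
  simp only [Set.mem_union, Set.mem_insert_iff, Set.mem_singleton_iff, not_or] at hq
  obtain ⟨⟨⟨⟨h3, h4, h5⟩, h6⟩, h7⟩, h8⟩ := hq
  exact ⟨q, h3, h6, fun h => h4 (eq_neg_of_add_eq_zero_left h), fun h => h5 (sub_eq_zero.1 h),
    h7, h8⟩

theorem J1c_lcv_ne_zero {R σ : Type*} [CommRing R] [DecidableEq σ] (y : σ)
    {f : MvPolynomial σ R} (hf : f ≠ 0) : lcv y f ≠ 0 := by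
  have h : lcv y f = (vw y f).leadingCoeff := by
    rw [lcv, ← natDegree_vw]
    rfl
  rw [h]
  exact Polynomial.leadingCoeff_ne_zero.2 (vw_ne_zero y hf)

theorem J1c_exists_ne {K : Type*} [Field K] {F : Type*} [Field F] [Infinite F] [Algebra K F]
    {σ : Type*} {p : MvPolynomial σ K} (hp : p ≠ 0) : ∃ s : σ → F, aeval s p ≠ 0 := by
  by_contra hcon
  push Not at hcon
  apply hp
  apply map_injective (algebraMap K F) (algebraMap K F).injective
  rw [map_zero]
  refine MvPolynomial.funext fun x => ?_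
  rw [eval_map, map_zero, ← aeval_def]
  exact hcon x

/-- The zeros of a nonzero polynomial in one of two variables. -/
theorem J1c_finite {K : Type*} [Field K] {F : Type*} [Field F] [Infinite F] [Algebra K F]
    {L : MvPolynomial (Fin 2) K} (hL : L ≠ 0) (hd : L.degreeOf 1 = 0) :
    {z : F | aeval (fun _ => z) L = 0}.Finite := by
  have he : ∀ z : F, aeval (fun _ => z) L =
      Polynomial.aeval z (aeval (fun _ => (Polynomial.X : Polynomial F)) L) := by
    intro z
    have h1 : (Polynomial.aeval z : Polynomial F →ₐ[F] F).restrictScalars K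
        (aeval (fun _ => (Polynomial.X : Polynomial F)) L) = aeval (fun _ => z) L := by
      rw [← AlgHom.comp_apply, comp_aeval]
      simp
    exact h1.symm
  have hne : aeval (fun _ => (Polynomial.X : Polynomial F)) L ≠ 0 := by
    intro h0
    obtain ⟨s, hs⟩ := J1c_exists_ne (F := F) hL
    apply hs
    rw [← aeval_update_of_degreeOf_eq_zero 1 s (s 0) hd]
    have h2 : Function.update s 1 (s 0) = fun _ => s 0 := by
      funext t
      fin_cases t
      · rfl
      · simp
    rw [h2, he, h0, map_zero]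
  refine (Polynomial.rootSet_finite (aeval (fun _ => (Polynomial.X : Polynomial F)) L)
    F).subset fun z hz => ?_
  rw [Polynomial.mem_rootSet]
  exact ⟨hne, (he z).symm.trans hz⟩

/-- The zeros on a vertical line. -/
theorem J1c_finite' {K : Type*} [Field K] {F : Type*} [Field F] [Algebra K F]
    (L : MvPolynomial (Fin 2) K) (z : F) (hz : aeval (fun _ => z) (lcv 1 L) ≠ 0) :
    {r : F | aeval ![z, r] L = 0}.Finite := by
  classical
  set q := (vw 1 L).map (aeval (fun _ => z) : MvPolynomial (Fin 2) K →ₐ[K] F).toRingHom with hq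
  have hq0 : q ≠ 0 := by
    intro h0
    apply hz
    have h1 := congrArg (fun p => Polynomial.coeff p (L.degreeOf 1)) h0
    rw [hq] at h1
    simp only [Polynomial.coeff_map, Polynomial.coeff_zero] at h1
    exact h1
  refine (q.roots.toFinset.finite_toSet).subset fun r hr => ?_
  rw [Finset.mem_coe, Multiset.mem_toFinset, Polynomial.mem_roots hq0, Polynomial.IsRoot, hq,
    aeval_vw]
  have h2 : Function.update (fun _ : Fin 2 => z) 1 r = ![z, r] := by
    funext t
    fin_cases t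
    · rfl
    · simp
  rw [h2]
  exact hr

/-- `rename` along an injective map preserves irreducible polynomials. -/
theorem J1c_irreducible {F : Type*} [Field F] {σ τ : Type*} (k : σ → τ)
    (hk : Function.Injective k) {G : MvPolynomial σ F} (hG : Irreducible G) :
    Irreducible (rename k G) := by
  have h1 : Prime G := UniqueFactorizationMonoid.irreducible_iff_prime.1 hG
  have h2 : Prime (rename (Equiv.ofInjective k hk) G) :=
    (MulEquiv.prime_iff (renameEquiv F (Equiv.ofInjective k hk)).toMulEquiv).2 h1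
  have h3 := (prime_rename_iff (Set.range k)).2 h2
  rw [rename_rename] at h3
  exact h3.irreducible

theorem J1c_lcv {K : Type*} [Field K] {F : Type*} [Field F] [Algebra K F]
    (W : Fin 2 → WeierstrassCurve K) (e : ℕ) (c : Fin 2 → Bool) (t : Fin 2)
    (s : Fin 4 × Fin 2 → F) : aeval s (lcv (3, t) (relI W e c 3 t)) =
      wd (mu (W t) e ![s (0, t), 1]) (vc (c t) (s (2, t))) ^ 2 := by
  rw [(relI_degreeOf_i W e c 3 (Or.inr rfl) t).2, map_SV, SV_two]
  congr 2
  · funext j
    rw [map_mu]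
    congr 1
    funext k
    fin_cases k
    · simp
    · simp
  · funext k
    cases c t
    · fin_cases k
      · simp [vc]
      · simp [vc]
    · fin_cases k
      · simp [vc]
      · simp [vc]

theorem J1c_wd_smul {F : Type*} [Field F] (a b : F) (p q : Fin 2 → F) :
    wd (a • p) (b • q) = a * b * wd p q := by
  unfold wd
  simp only [Pi.smul_apply, smul_eq_mul]
  ring

/-- The coordinate in a chart. -/
theorem J1c_chart {F : Type*} [Field F] (b : Bool) (x : F) (hx : x ≠ 0) :
    ∃ (ξ κ : F), κ ≠ 0 ∧ vc b ξ = κ • ![x, 1] := by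
  cases b
  · exact ⟨x, 1, one_ne_zero, by rw [one_smul]; rfl⟩
  · refine ⟨x⁻¹, x⁻¹, inv_ne_zero hx, ?_⟩
    funext k
    fin_cases k
    · simp [vc, hx]
    · simp [vc]

/-- A point on the relation. -/
theorem J1c_root {K : Type*} [Field K] {F : Type*} [Field F] [DecidableEq F] [Algebra K F]
    (W : WeierstrassCurve K) [W.IsElliptic] (V : WeierstrassCurve F)
    (hV : W.map (algebraMap K F) = V) (e : ℕ) (b : Bool) (u q : V.toAffine.Point)
    (a ξ κ r : F) (hu : u.xRep = ![a, 1]) (hκ : κ ≠ 0) (hξ : vc b ξ = κ • q.xRep)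
    (h1 : q + 2 ^ e • u ≠ 0) (h2 : q - 2 ^ e • u ≠ 0)
    (h : S3 W (mu W e ![a, 1]) ![r, 1] (vc b ξ) = 0) :
    r = (q + 2 ^ e • u).xRep 0 ∨ r = (q - 2 ^ e • u).xRep 0 := by
  obtain ⟨γ, hγ, hmu⟩ := mu_xRep W V hV e u
  rw [S3_comm', ← hu, hmu, hξ, ← one_smul F ![r, 1], S3_smul] at h
  have h3 : S3 W (2 ^ e • u).xRep q.xRep ![r, 1] = 0 :=
    (mul_eq_zero.1 h).resolve_left (pow_ne_zero 2 (by simp [hγ, hκ]))
  have key : ∀ R : V.toAffine.Point, R ≠ 0 → wd R.xRep ![r, 1] = 0 → r = R.xRep 0 := by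
    intro R hR hw
    have h4 : R.xRep 0 * 1 - R.xRep 1 * r = 0 := hw
    rw [xRep_one hR] at h4
    linear_combination -h4
  rcases wd_of_S3 W V hV _ _ _ h3 with h4 | h4
  · left
    rw [add_comm] at h4
    exact key _ h1 h4
  · right
    rw [← neg_sub, xRep_neg] at h4
    exact key _ h2 h4

theorem J1c_lead {K : Type*} [Field K] {F : Type*} [Field F] [DecidableEq F] [Algebra K F]
    (W : WeierstrassCurve K) [W.IsElliptic] (V : WeierstrassCurve F)
    (hV : W.map (algebraMap K F) = V) (e : ℕ) (b : Bool) (u q : V.toAffine.Point)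
    (a ξ κ : F) (hu : u.xRep = ![a, 1]) (hκ : κ ≠ 0) (hξ : vc b ξ = κ • q.xRep)
    (h1 : q + 2 ^ e • u ≠ 0) (h2 : q - 2 ^ e • u ≠ 0) :
    wd (mu W e ![a, 1]) (vc b ξ) ^ 2 ≠ 0 := by
  obtain ⟨γ, hγ, hmu⟩ := mu_xRep W V hV e u
  rw [← hu, hmu, hξ, J1c_wd_smul]
  refine pow_ne_zero 2 (mul_ne_zero (mul_ne_zero hγ hκ) fun h => ?_)
  rcases eq_or_eq_neg h with h3 | h3
  · exact h2 (by rw [h3, sub_self])
  · exact h1 (by rw [h3, add_neg_cancel])

/-- The value of the second eliminant at a suitable point. -/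
theorem J1c_point {K : Type u} [Field K] [CharZero K] (W : Fin 2 → WeierstrassCurve K)
    [∀ t, (W t).IsElliptic] (e : ℕ) (c : Fin 2 → Bool) (g g' : MvPolynomial (Fin 2) K)
    (hg : g.degreeOf 1 ≠ 0) (hg' : g' ≠ 0) :
    ∃ s : Fin 4 × Fin 2 → AlgebraicClosure K, aeval s (gX 0 g) = 0 ∧
      aeval s (El (3, 1) (relI W e c 3 1) (El (3, 0) (relI W e c 3 0) (gX 3 g'))) ≠ 0 := by
  classical
  have hg0 : g ≠ 0 := by
    rintro rfl
    exact hg (degreeOf_zero 1)
  obtain ⟨s₀, hs₀⟩ := J1c_exists_ne (F := AlgebraicClosure K) (J1c_lcv_ne_zero 1 hg0)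
  obtain ⟨r, hr⟩ := exists_root 1 g hg s₀ hs₀
  set a : Fin 2 → AlgebraicClosure K := Function.update s₀ 1 r with ha
  have hu : ∀ t, ∃ P : ((W t).map (algebraMap K (AlgebraicClosure K))).toAffine.Point,
      P ≠ 0 ∧ P.xRep = ![a t, 1] := fun t => exists_affine_point _ _
  choose u _ hu using hu
  have hZ0 := J1c_finite (F := AlgebraicClosure K) (J1c_lcv_ne_zero 1 hg')
    (degreeOf_coeff_vw_self 1 g' _)
  obtain ⟨q₀, q0a, q0b, q0c, q0d, q0e, q0f⟩ := exists_point_avoid _ (2 ^ e • u 0) _ hZ0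
  have hZ1 := (J1c_finite' g' _ q0e).union (J1c_finite' g' _ q0f)
  obtain ⟨q₁, q1a, q1b, q1c, q1d, q1e, q1f⟩ := exists_point_avoid _ (2 ^ e • u 1) _ hZ1
  obtain ⟨ξ₀, κ₀, hκ₀, hξ₀⟩ := J1c_chart (c 0) _ q0b
  obtain ⟨ξ₁, κ₁, hκ₁, hξ₁⟩ := J1c_chart (c 1) _ q1b
  rw [← xRep_eq q0a] at hξ₀
  rw [← xRep_eq q1a] at hξ₁
  let s : Fin 4 × Fin 2 → AlgebraicClosure K := fun p =>
    if p.1 = 0 then a p.2 else if p = (2, 0) then ξ₀ else ξ₁
  have s00 : s (0, 0) = a 0 := if_pos rfl
  have s01 : s (0, 1) = a 1 := if_pos rfl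
  have s20 : s (2, 0) = ξ₀ := by simp [s]
  have s21 : s (2, 1) = ξ₁ := by simp [s]
  refine ⟨s, ?_, fun h => ?_⟩
  · rw [aeval_gX]
    have h1 : (fun t => s (0, t)) = a := by
      funext t
      fin_cases t
      · exact s00
      · exact s01
    rw [h1]
    exact hr
  have hne : ∀ t, (relI W e c 3 t).degreeOf (3, t) ≠ 0 := fun t => by
    rw [(relI_degreeOf_i W e c 3 (Or.inr rfl) t).1]
    norm_num
  obtain ⟨r₁, h1, h2⟩ := exists_root_of_El (3, 1) (relI W e c 3 1) _ (hne 1) s (by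
    rw [J1c_lcv, s01, s21]
    exact J1c_lead (W 1) _ rfl e (c 1) (u 1) q₁ (a 1) ξ₁ κ₁ (hu 1) hκ₁ hξ₁ q1c q1d) h
  set s' := Function.update s (3, 1) r₁ with hs'
  have s'0 : ∀ t, s' (0, t) = s (0, t) := fun t => Function.update_of_ne (by simp) _ _
  have s'2 : ∀ t, s' (2, t) = s (2, t) := fun t => Function.update_of_ne (by simp) _ _
  have s'3 : s' (3, 1) = r₁ := Function.update_self _ _ _
  obtain ⟨r₀, h3, h4⟩ := exists_root_of_El (3, 0) (relI W e c 3 0) _ (hne 0) s' (by
    rw [J1c_lcv, s'0, s'2, s00, s20]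
    exact J1c_lead (W 0) _ rfl e (c 0) (u 0) q₀ (a 0) ξ₀ κ₀ (hu 0) hκ₀ hξ₀ q0c q0d) h2
  set s'' := Function.update s' (3, 0) r₀ with hs''
  have s''0 : s'' (0, 0) = a 0 := by
    rw [hs'', Function.update_of_ne (by simp), s'0, s00]
  have s''2 : s'' (2, 0) = ξ₀ := by
    rw [hs'', Function.update_of_ne (by simp), s'2, s20]
  have s''3 : s'' (3, 0) = r₀ := Function.update_self _ _ _
  have s''4 : s'' (3, 1) = r₁ := by
    rw [hs'', Function.update_of_ne (by simp), s'3]
  rw [aeval_relI, s'0, s'2, s'3, s01, s21] at h1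
  rw [aeval_relI, s''0, s''2, s''3] at h3
  have k1 := J1c_root (W 1) _ rfl e (c 1) (u 1) q₁ (a 1) ξ₁ κ₁ r₁ (hu 1) hκ₁ hξ₁ q1c q1d h1
  have k0 := J1c_root (W 0) _ rfl e (c 0) (u 0) q₀ (a 0) ξ₀ κ₀ r₀ (hu 0) hκ₀ hξ₀ q0c q0d h3
  have h5 : aeval ![r₀, r₁] g' = 0 := by
    rw [aeval_gX] at h4
    have h6 : (fun t => s'' (3, t)) = ![r₀, r₁] := by
      funext t
      fin_cases t
      · exact s''3
      · exact s''4
    rwa [h6] at h4
  have h7 : r₁ ∈ {r : AlgebraicClosure K | aeval ![(q₀ + 2 ^ e • u 0).xRep 0, r] g' = 0} ∪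
      {r : AlgebraicClosure K | aeval ![(q₀ - 2 ^ e • u 0).xRep 0, r] g' = 0} := by
    rcases k0 with k | k
    · left
      rw [k] at h5
      exact h5
    · right
      rw [k] at h5
      exact h5
  rcases k1 with k | k
  · exact q1e (k ▸ h7)
  · exact q1f (k ▸ h7)

/-- `QQ ≠ 0`.
Proof. Let `F = AlgebraicClosure K`, `V t = (W t).map (algebraMap K F)`,
`M₀ = El (3, 0) (relI W e c 3 0) (gX 3 g')`, `M₁ = El (3, 1) (relI W e c 3 1) M₀`. `g` is irreducible over `K`
(if `g = a b` over `K` then also over `F`; a constant factor over `F` is constant over `K`; `map` is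
injective), so `gX 0 g` is irreducible (`rename` along an injective map; Mathlib
`MvPolynomial.irreducible_rename` or similar; or apply `El_ne_zero_of_irreducible` in another way, for
instance over the variables `{(0, 0), (0, 1), ...}`). By `El_ne_zero_of_irreducible` it is enough to find a
point `s : Fin 4 × Fin 2 → F` with `aeval s (gX 0 g) = 0`, `aeval s M₁ ≠ 0`.
Since `g` involves `X 1`, there is `a : Fin 2 → F` with `aeval a g = 0`: choose `a 0` such that the coefficient
of the highest power of `X 1` does not vanish at `a 0` (`F` is infinite), and a root `a 1` (`F` algebraically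
closed). (Or: `g` is not a unit, Nullstellensatz.) Let `u t` be affine points of `V t` with
`(u t).xRep = ![a t, 1]` (`exists_affine_point`), `l = 2 ^ e`.
The set `Z₀` of all `z ∈ F` such that the polynomial `g'(z, ·)` is zero is finite (`g' ≠ 0`). Choose `q₀` by
`exists_point_avoid` for `V 0`, `l • u 0`, `Z₀`. Let `z₁, z₂` be the x-coordinates of `q₀ ± l • u 0`. The set `Z₁` of all
`z' ∈ F` with `g'(z₁, z') = 0` or `g'(z₂, z') = 0` is finite. Choose `q₁` for `V 1`, `l • u 1`, `Z₁`.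
Let `s (0, t) = a t`, `s (2, t)` such that `vc (c t) (s (2, t))` is a multiple of `(q t).xRep` (`(q t).xRep = ![x, 1]`
with `x ≠ 0`: `s (2, t) = x` or `x⁻¹`), other values `0`. Suppose `aeval s M₁ = 0`. `lcv (3, 1) (relI 3 1)` at `s` is
`wd (mu ..) (vc ..) ^ 2` (`relI_degreeOf_i`, `SV_two`), a nonzero multiple of
`wd (l • u 1).xRep (q 1).xRep ^ 2 ≠ 0` (`mu_xRep`, `eq_or_eq_neg`, `q ± l u ≠ 0`). So by `exists_root_of_El` there is `r₁`
with `relI 3 1 = 0` and `M₀ = 0` at `s' = update s (3, 1) r₁`, and again `r₀` with `relI 3 0 = 0` and `g' = 0` at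
`update s' (3, 0) r₀`: `g'(r₀, r₁) = 0`. By `aeval_relI`, `S3_comm'`, `S3_smul`, `mu_xRep`:
`S3 (l • u t).xRep (q t).xRep ![r t, 1] = 0`, so by `wd_of_S3` `![r t, 1]` is proportional to the x-coordinate
vector of `l u t ± q t`, and these points are not `0`, so `r t` is the x-coordinate of `q t + l u t` or `q t - l u t`
(`xRep_neg`): contradiction to the choice of `q₁`. -/
theorem QQ_ne_zero {K : Type u} [Field K] [CharZero K] (W : Fin 2 → WeierstrassCurve K)
    [∀ t, (W t).IsElliptic] (e : ℕ) (c : Fin 2 → Bool) (g g' : MvPolynomial (Fin 2) K) (D : ℕ)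
    (hg : GC g D) (hg' : GC g' D) : QQ W e c g g' ≠ 0 := by
  have hg1 : g.degreeOf 1 ≠ 0 := by
    have := (hg.2 1).1
    omega
  have hg'0 : g' ≠ 0 := by
    rintro rfl
    have := (hg'.2 1).1
    rw [degreeOf_zero] at this
    omega
  obtain ⟨s, h1, h2⟩ := J1c_point W e c g g' hg1 hg'0
  intro h0
  set M₁ := El (3, 1) (relI W e c 3 1) (El (3, 0) (relI W e c 3 0) (gX 3 g')) with hM
  have hφ : Function.Injective (algebraMap K (AlgebraicClosure K)) :=
    (algebraMap K (AlgebraicClosure K)).injective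
  have hQ : El (0, 1) (MvPolynomial.map (algebraMap K (AlgebraicClosure K)) (gX 0 g))
      (MvPolynomial.map (algebraMap K (AlgebraicClosure K)) M₁) = 0 := by
    rw [El_map _ hφ]
    have h3 : El (0, 1) (gX 0 g) M₁ = 0 := h0
    rw [h3, map_zero]
  refine El_ne_zero_of_irreducible (0, 1) _ _ ?_ ?_ ?_ hQ
  · rw [gX, map_rename]
    exact J1c_irreducible _ (J1a_inj 0) hg.1
  · rw [← natDegree_vw, vw_map, Polynomial.natDegree_map_eq_of_injective (map_injective _ hφ),
      natDegree_vw, gX_degreeOf]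
    exact hg1
  · intro hdvd
    apply h2
    have h3 := map_dvd (eval s) hdvd
    rw [eval_map, eval_map, ← aeval_def, ← aeval_def, h1] at h3
    exact zero_dvd_iff.1 h3

end Pool.Agent.Lib.MP_17a322_nt.VJ
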