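import Pool.Agent.Lib.MP_17a322_nt.VJ.C2

/-!
# D2: translations and elimination

`tr ξ F = F(T + ξ)`.
* `trHom ξ`: `tr ξ` as an algebra homomorphism.  `tr_neg_tr`: `tr (-ξ) (tr ξ F) = F` (check on variables: `algHom_ext`).
* `D2_coeff_zero_tr`: the constant coefficient is the value at `0`: `constantCoeff`/`eval 0` composed with `trHom ξ` is `eval ξ` (check on variables).
* `D2_degreeOf_tr`: `≤`: induction (`MvPolynomial.induction_on`/`as_sum`; for a monomial `∏ (X t + C (ξ t))^(m t)`, `degreeOf_mul_le`, `degreeOf_prod_le`, `degreeOf_pow_le`, `degreeOf_add_le`, `degreeOf_X_of_ne`, `degreeOf_C`); or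
  `degreeOf t F ≤ n` iff `F` lies in the submodule of polynomials ...; `≥`: apply `≤` to `tr ξ F` and `-ξ`.
* `vars_tr`: `t ∈ vars` iff `degreeOf t ≠ 0`.
* `vw_tr`: both sides are ring homomorphisms in `F` (the right side is the composition of `trHom`, `Polynomial.mapRingHom` and `Polynomial.taylorAlgHom` or `taylor_mul`, `taylor_C`, `taylor_X`): check on `C a`, `X y` (`X + C (C (ξ y))` on both sides) and `X t`, `t ≠ y`.
* `tr_El`: `El y (tr ξ f) (tr ξ G)` is the default resultant of `vw y (tr ξ f)`, `vw y (tr ξ G)` (`natDegree_vw`), by `vw_tr` these are `taylor r f'`, `taylor r G'` with `f' = (vw y f).map (trHom ξ)`, so it equals the default resultant of `f'`, `G'`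
  (`Polynomial.resultant_taylor`), and `natDegree f' = natDegree (vw y f)` since `trHom ξ` is injective (`Polynomial.natDegree_map_eq_of_injective`), so it is `tr ξ (El y f G)` by `Polynomial.resultant_map_map`.
-/

set_option linter.unusedSectionVars false

namespace Pool.Agent.Lib.MP_17a322_nt.VJ

open MvPolynomial

section
variable {R σ : Type*} [CommRing R] (ξ : σ → R)

/-- `tr ξ` as an algebra homomorphism -/
noncomputable def trHom : MvPolynomial σ R →ₐ[R] MvPolynomial σ R :=
  aeval (fun t => X t + C (ξ t))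

theorem tr_eq_hom (F : MvPolynomial σ R) : tr ξ F = trHom ξ F := rfl

theorem D2_tr_mul (F G : MvPolynomial σ R) : tr ξ (F * G) = tr ξ F * tr ξ G := map_mul (trHom ξ) F G

theorem tr_neg_tr (F : MvPolynomial σ R) : tr (-ξ) (tr ξ F) = F := by
  have h : (trHom (-ξ)).comp (trHom ξ) = AlgHom.id R (MvPolynomial σ R) := by
    apply MvPolynomial.algHom_ext
    intro t
    simp [trHom]
  exact DFunLike.congr_fun h F

theorem tr_tr_neg (F : MvPolynomial σ R) : tr ξ (tr (-ξ) F) = F := by
  have h := tr_neg_tr (-ξ) F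
  rwa [neg_neg] at h

theorem trHom_injective : Function.Injective (trHom ξ) := by
  intro F G h
  have h2 : tr (-ξ) (tr ξ F) = tr (-ξ) (tr ξ G) := congrArg (tr (-ξ)) h
  rwa [tr_neg_tr, tr_neg_tr] at h2

theorem tr_ne_zero {F : MvPolynomial σ R} (hF : F ≠ 0) : tr ξ F ≠ 0 := by
  intro h
  apply hF
  apply trHom_injective ξ
  rw [map_zero]
  exact h

theorem D2_coeff_zero_tr (F : MvPolynomial σ R) : coeff 0 (tr ξ F) = eval ξ F := by
  have h : (constantCoeff (σ := σ) (R := R)).comp (trHom ξ).toRingHom = eval ξ := by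
    apply MvPolynomial.ringHom_ext
    · intro a
      simp [trHom]
    · intro t
      simp [trHom]
  exact DFunLike.congr_fun h F

theorem D2_degreeOf_X_add_C (t i : σ) [Nontrivial R] :
    (X i + C (ξ i) : MvPolynomial σ R).degreeOf t ≤ (X i : MvPolynomial σ R).degreeOf t := by
  refine (degreeOf_add_le _ _ _).trans ?_
  simp

theorem D2_degreeOf_tr_le (F : MvPolynomial σ R) (t : σ) : (tr ξ F).degreeOf t ≤ F.degreeOf t := by
  classical
  rcases subsingleton_or_nontrivial R with hR | hR
  · have : tr ξ F = F := Subsingleton.elim _ _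
    rw [this]
  have hF : tr ξ F = ∑ m ∈ F.support, C (coeff m F) * ∏ i ∈ m.support, (X i + C (ξ i)) ^ m i := by
    unfold tr
    rw [aeval_def, eval₂_eq]
    rfl
  rw [hF]
  refine (degreeOf_sum_le _ _ _).trans (Finset.sup_le fun m hm => ?_)
  refine (degreeOf_mul_le _ _ _).trans ?_
  rw [degreeOf_C, zero_add]
  refine (degreeOf_prod_le _ _ _).trans ?_
  refine le_trans ?_ (monomial_le_degreeOf t hm)
  calc ∑ i ∈ m.support, ((X i + C (ξ i) : MvPolynomial σ R) ^ m i).degreeOf t
      ≤ ∑ i ∈ m.support, (if i = t then m t else 0) := by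
        refine Finset.sum_le_sum fun i _ => ?_
        refine (degreeOf_pow_le _ _ _).trans ?_
        refine (Nat.mul_le_mul_left _ (D2_degreeOf_X_add_C ξ t i)).trans ?_
        rw [degreeOf_X]
        by_cases hi : t = i
        · subst hi
          simp
        · rw [if_neg hi]
          simp
    _ ≤ m t := by
        rw [Finset.sum_ite_eq']
        split_ifs <;> simp

theorem D2_degreeOf_tr (F : MvPolynomial σ R) (t : σ) : (tr ξ F).degreeOf t = F.degreeOf t := by
  refine le_antisymm (D2_degreeOf_tr_le ξ F t) ?_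
  have h := D2_degreeOf_tr_le (-ξ) (tr ξ F) t
  rwa [tr_neg_tr] at h

variable [DecidableEq σ]

theorem vw_tr (y : σ) (F : MvPolynomial σ R) :
    vw y (tr ξ F) = Polynomial.taylor (C (ξ y)) ((vw y F).map (trHom ξ).toRingHom) := by
  have h : ((vwHom (R := R) y).comp (trHom ξ)).toRingHom =
      (Polynomial.taylorAlgHom (C (ξ y) : MvPolynomial σ R)).toRingHom.comp
        ((Polynomial.mapRingHom (trHom ξ).toRingHom).comp (vwHom (R := R) y).toRingHom) := by
    apply MvPolynomial.ringHom_ext
    · intro a
      have h1 : vwHom (R := R) y (C a) = Polynomial.C (C a) := vw_C y a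
      have h2 : trHom ξ (C a) = C a := by simp [trHom]
      simp [h1, h2]
    · intro t
      by_cases ht : t = y
      · subst ht
        have h1 : vwHom (R := R) t (X t) = Polynomial.X := vw_X_self t
        have h2 : trHom ξ (X t) = X t + C (ξ t) := by simp [trHom]
        have h3 : vwHom (R := R) t (C (ξ t)) = Polynomial.C (C (ξ t)) := vw_C t _
        simp [h1, h2, h3]
      · have h1 : vwHom (R := R) y (X t) = Polynomial.C (X t) := vw_X_of_ne y ht
        have h2 : trHom ξ (X t) = X t + C (ξ t) := by simp [trHom]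
        have h3 : vwHom (R := R) y (C (ξ t)) = Polynomial.C (C (ξ t)) := vw_C y _
        simp [h1, h2, h3]
  exact DFunLike.congr_fun h F

theorem tr_El (y : σ) (f G : MvPolynomial σ R) : tr ξ (El y f G) = El y (tr ξ f) (tr ξ G) := by
  have hinj : Function.Injective (trHom ξ).toRingHom := trHom_injective ξ
  have hf : ((vw y f).map (trHom ξ).toRingHom).natDegree = f.degreeOf y := by
    rw [Polynomial.natDegree_map_eq_of_injective hinj, natDegree_vw]
  have hG : ((vw y G).map (trHom ξ).toRingHom).natDegree = G.degreeOf y := by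
    rw [Polynomial.natDegree_map_eq_of_injective hinj, natDegree_vw]
  have h1 := Polynomial.resultant_taylor ((vw y f).map (trHom ξ).toRingHom)
    ((vw y G).map (trHom ξ).toRingHom) (C (ξ y))
  rw [Polynomial.natDegree_taylor, Polynomial.natDegree_taylor, hf, hG,
    Polynomial.resultant_map_map] at h1
  unfold El
  rw [D2_degreeOf_tr, D2_degreeOf_tr, vw_tr, vw_tr, h1]
  rfl

end

end Pool.Agent.Lib.MP_17a322_nt.VJ
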