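import Pool.Agent.Lib.MP_17a322_nt.VJ.B4
import Pool.Agent.Lib.MP_17a322_nt.VJ.D2

/-!
# D6: exact index, selection of a good factor

* `ix w ξ F`: the weighted order of `tr ξ F` at the origin (Mathlib `MvPowerSeries.weightedOrder`), a natural number for `F ≠ 0`.
  `ix_mul`: `MvPowerSeries.weightedOrder_mul`, `D2_tr_mul` (D2), the coercion to power series is multiplicative (`MvPolynomial.coe_mul`) and injective; `ENat.toNat_add` (both orders are `≠ ⊤`: `weightedOrder_eq_top_iff`).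
  `IG_iff_le_ix`: `a ≤ ix` iff all coefficients of weight `< a` vanish: `MvPowerSeries.weightedOrder` is the smallest weight of a monomial with nonzero coefficient (`coeff_eq_zero_of_lt_weightedOrder`, `exists_coeff_ne_zero_and_weightedOrder`), `MvPolynomial.coeff_coe`.
  `ix_le`: a monomial `m` of `tr ξ F` with `weight m = ix`; `m t ≤ (tr ξ F).degreeOf t = F.degreeOf t` (`D2_degreeOf_tr`, `monomial_le_degreeOf`), `weight m = ∑ m t * w t` (`Finsupp.weight_apply`, `Finsupp.sum_fintype`).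
  `eval_eq_zero_of_ix`: `coeff 0 (tr ξ F) = eval ξ F` (D2), the weight of `0` is `0 < ix`.
* `select`: suppose not: then for every `j ∈ s` one of: `I j ≤ 0`, or `I j < σ/(2N) ρ j`, or `4 T ρ j < h j σ μ`.  In each case `I j ≤ σ/(2 N) * ρ j + h j * (σ μ)/(4 T)` if `T > 0` (in the third case `I j ≤ ρ j < h j σ μ/(4T)`); if `T ≤ 0` all `h j = 0` (nonnegative with sum `≤ T`)
  and the third case is impossible: `I j ≤ σ/(2N) ρ j`.  Sum: `σ μ ≤ ∑ I ≤ σ μ/2 + σ μ/4 < σ μ` (resp. `≤ σ μ/2`), contradiction.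
* `exists_good_factor`: `F = u * ∏ F_j` with irreducible `F_j`, `u` a unit (`WfDvdMonoid.exists_factors` or `UniqueFactorizationMonoid.exists_prime_factors`: a multiset; index it by `Fin n` via a list: `Multiset.toList`, `List.get`, `List.prod_ofFn`; or by induction).
  `u` is a nonzero constant (`MvPolynomial.isUnit_iff_eq_C_of_isReduced` or similar), `nh (∏ F_j) = nh F` (`nh_C_mul`), `ix` and `degreeOf` do not change.  `I j = ix w ξ (F_j)`, `ρ j = ∑ t, w t * (F_j).degreeOf t`, `h j = nh (F_j) ≥ 0`;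
  `∑ ρ j = ∑ t, w t * F.degreeOf t ≤ N μ` (`degreeOf_prod_eq` B4; only the `t ∈ F.vars` contribute), `∑ I j = ix w ξ F ≥ s μ` (`ix_prod`), `∑ h j ≤ nh F + 3 d ∑ t, degreeOf t F ≤ (B + 3 N) μ d =: T` (`sum_nh_le` B4; `degreeOf t F ≤ w t * degreeOf t F ≤ μ`).
  `select` gives `j`, `G = F_j`: `0 < I j ≤ ρ j` (`ix_le`), `eval ξ G = 0`, `h j ≤ 4 T ρ j/(s μ) = 4 (B + 3 N)/s * ρ j * d`.
-/

set_option linter.unusedSectionVars false

namespace Pool.Agent.Lib.MP_17a322_nt.VJ

open MvPolynomial Height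

/-- the exact index (for `F ≠ 0`) -/
noncomputable def ix {R σ : Type*} [CommRing R] (w : σ → ℕ) (ξ : σ → R) (F : MvPolynomial σ R) : ℕ :=
  (MvPowerSeries.weightedOrder w ((tr ξ F : MvPolynomial σ R) : MvPowerSeries σ R)).toNat

section
variable {L σ : Type*} [Field L] (w : σ → ℕ) (ξ : σ → L)

theorem D6_coe_ix {F : MvPolynomial σ L} (hF : F ≠ 0) :
    ((ix w ξ F : ℕ) : ℕ∞) =
      MvPowerSeries.weightedOrder w ((tr ξ F : MvPolynomial σ L) : MvPowerSeries σ L) := by
  have h : ((tr ξ F : MvPolynomial σ L) : MvPowerSeries σ L) ≠ 0 := by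
    intro h0
    rw [MvPolynomial.coe_eq_zero_iff] at h0
    exact tr_ne_zero ξ hF h0
  exact (MvPowerSeries.ne_zero_iff_weightedOrder_finite w).mp h

theorem ix_mul {F G : MvPolynomial σ L} (hF : F ≠ 0) (hG : G ≠ 0) :
    ix w ξ (F * G) = ix w ξ F + ix w ξ G := by
  have h : ((ix w ξ (F * G) : ℕ) : ℕ∞) = ((ix w ξ F + ix w ξ G : ℕ) : ℕ∞) := by
    rw [D6_coe_ix w ξ (mul_ne_zero hF hG), Nat.cast_add, D6_coe_ix w ξ hF, D6_coe_ix w ξ hG,
      D2_tr_mul, MvPolynomial.coe_mul, MvPowerSeries.weightedOrder_mul]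
  exact_mod_cast h

theorem ix_prod {κ : Type*} (s : Finset κ) (F : κ → MvPolynomial σ L) (hF : ∀ j ∈ s, F j ≠ 0) :
    ix w ξ (∏ j ∈ s, F j) = ∑ j ∈ s, ix w ξ (F j) := by
  classical
  induction s using Finset.induction_on with
  | empty =>
    rw [Finset.prod_empty, Finset.sum_empty]
    have h := ix_mul w ξ (one_ne_zero (α := MvPolynomial σ L)) (one_ne_zero (α := MvPolynomial σ L))
    rw [mul_one] at h
    omega
  | insert a s ha ih =>
    rw [Finset.prod_insert ha, Finset.sum_insert ha, ix_mul w ξ (hF a (Finset.mem_insert_self a s))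
      (Finset.prod_ne_zero_iff.mpr fun j hj => hF j (Finset.mem_insert_of_mem hj)),
      ih fun j hj => hF j (Finset.mem_insert_of_mem hj)]

theorem IG_iff_le_ix {F : MvPolynomial σ L} (hF : F ≠ 0) (a : ℝ) :
    IG w a ξ F ↔ a ≤ ix w ξ F := by
  constructor
  · intro h
    obtain ⟨m, hm, hm1⟩ := MvPowerSeries.exists_coeff_ne_zero_and_weightedOrder w
      (f := ((tr ξ F : MvPolynomial σ L) : MvPowerSeries σ L)) (D6_coe_ix w ξ hF)
    rw [← D6_coe_ix w ξ hF] at hm1
    have hm2 : Finsupp.weight w m = ix w ξ F := by exact_mod_cast hm1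
    by_contra hlt
    push Not at hlt
    apply hm
    rw [MvPolynomial.coeff_coe]
    apply h
    rw [hm2]
    exact hlt
  · intro h m hm
    rw [← MvPolynomial.coeff_coe]
    apply MvPowerSeries.coeff_eq_zero_of_lt_weightedOrder w
    rw [← D6_coe_ix w ξ hF]
    have : Finsupp.weight w m < ix w ξ F := by
      have h2 : (Finsupp.weight w m : ℝ) < (ix w ξ F : ℝ) := lt_of_lt_of_le hm h
      exact_mod_cast h2
    exact_mod_cast this

theorem ix_le [Fintype σ] {F : MvPolynomial σ L} (hF : F ≠ 0) :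
    ix w ξ F ≤ ∑ t, w t * F.degreeOf t := by
  obtain ⟨m, hm, hm1⟩ := MvPowerSeries.exists_coeff_ne_zero_and_weightedOrder w
    (f := ((tr ξ F : MvPolynomial σ L) : MvPowerSeries σ L)) (D6_coe_ix w ξ hF)
  rw [← D6_coe_ix w ξ hF] at hm1
  have hm2 : Finsupp.weight w m = ix w ξ F := by exact_mod_cast hm1
  rw [← hm2, Finsupp.weight_apply, Finsupp.sum_fintype _ _ (fun i => by simp)]
  refine Finset.sum_le_sum fun t _ => ?_
  rw [smul_eq_mul, mul_comm]
  refine Nat.mul_le_mul_left _ ?_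
  rw [MvPolynomial.coeff_coe] at hm
  have h := MvPolynomial.monomial_le_degreeOf t (MvPolynomial.mem_support_iff.mpr hm)
  exact h.trans (D2_degreeOf_tr_le ξ F t)

theorem eval_eq_zero_of_ix {F : MvPolynomial σ L} (h : 0 < ix w ξ F) : eval ξ F = 0 := by
  by_cases hF : F = 0
  · rw [hF, map_zero]
  · have h1 : IG w (ix w ξ F : ℝ) ξ F := (IG_iff_le_ix w ξ hF _).mpr le_rfl
    rw [← D2_coeff_zero_tr]
    apply h1
    rw [map_zero]
    exact_mod_cast h

end

theorem select {κ : Type*} (s : Finset κ) (I ρ h : κ → ℝ) (hI : ∀ j ∈ s, I j ≤ ρ j)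
    (hρ : ∀ j ∈ s, 0 ≤ ρ j) (hh : ∀ j ∈ s, 0 ≤ h j) {N μ σ T : ℝ} (hN : 0 < N) (hμ : 0 < μ)
    (hσ : 0 < σ) (h1 : ∑ j ∈ s, ρ j ≤ N * μ) (h2 : σ * μ ≤ ∑ j ∈ s, I j) (h3 : ∑ j ∈ s, h j ≤ T) :
    ∃ j ∈ s, 0 < I j ∧ σ / (2 * N) * ρ j ≤ I j ∧ h j * (σ * μ) ≤ 4 * T * ρ j := by
  by_contra hcon
  push Not at hcon
  have hσμ : 0 < σ * μ := mul_pos hσ hμ
  have hc : 0 < σ / (2 * N) := by positivity
  have h4 : σ / (2 * N) * ∑ j ∈ s, ρ j ≤ σ * μ / 2 := by
    calc σ / (2 * N) * ∑ j ∈ s, ρ j ≤ σ / (2 * N) * (N * μ) :=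
          mul_le_mul_of_nonneg_left h1 hc.le
      _ = σ * μ / 2 := by field_simp
  have hT : 0 ≤ T := (Finset.sum_nonneg hh).trans h3
  rcases hT.eq_or_lt with hT0 | hT0
  · have hz : ∀ j ∈ s, h j = 0 := by
      have := Finset.sum_eq_zero_iff_of_nonneg hh
      apply this.mp
      refine le_antisymm ?_ (Finset.sum_nonneg hh)
      rw [hT0]
      exact h3
    have h5 : ∑ j ∈ s, I j ≤ ∑ j ∈ s, σ / (2 * N) * ρ j := by
      refine Finset.sum_le_sum fun j hj => ?_
      by_contra hlt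
      push Not at hlt
      have hpos : 0 < I j := lt_of_le_of_lt (mul_nonneg hc.le (hρ j hj)) hlt
      have h6 := hcon j hj hpos hlt.le
      rw [hz j hj, ← hT0] at h6
      simp at h6
    rw [← Finset.mul_sum] at h5
    linarith
  · have h5 : ∑ j ∈ s, I j ≤ ∑ j ∈ s, (σ / (2 * N) * ρ j + h j * (σ * μ / (4 * T))) := by
      refine Finset.sum_le_sum fun j hj => ?_
      by_contra hlt
      push Not at hlt
      have hb : 0 ≤ h j * (σ * μ / (4 * T)) := mul_nonneg (hh j hj) (by positivity)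
      have ha : 0 ≤ σ / (2 * N) * ρ j := mul_nonneg hc.le (hρ j hj)
      have hpos : 0 < I j := by linarith
      have h6 := hcon j hj hpos (by linarith)
      have h7 : ρ j < h j * (σ * μ / (4 * T)) := by
        rw [← mul_div_assoc, lt_div_iff₀ (by positivity)]
        linarith
      have h8 := hI j hj
      linarith
    rw [Finset.sum_add_distrib, ← Finset.mul_sum, ← Finset.sum_mul] at h5
    have h6 : (∑ j ∈ s, h j) * (σ * μ / (4 * T)) ≤ σ * μ / 4 := by
      calc (∑ j ∈ s, h j) * (σ * μ / (4 * T)) ≤ T * (σ * μ / (4 * T)) :=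
            mul_le_mul_of_nonneg_right h3 (by positivity)
        _ = σ * μ / 4 := by field_simp
    linarith

theorem exists_good_factor {k : Type*} [Field k] [NumberField k] {ι : Type*} [Fintype ι]
    [DecidableEq ι] (w : ι → ℕ) (hw : ∀ t, 1 ≤ w t) (ξ : ι → k) (F : MvPolynomial ι k) (hF : F ≠ 0)
    (N : ℕ) (hN : F.vars.card ≤ N) (hN1 : 1 ≤ N) (μ : ℝ) (hμ0 : 0 < μ)
    (hμ : ∀ t, (w t : ℝ) * F.degreeOf t ≤ μ) (s B : ℝ) (hs : 0 < s)
    (hnh : nh F ≤ B * μ * Module.finrank ℚ k) (hI : IG w (s * μ) ξ F) :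
    ∃ (G : MvPolynomial ι k) (ρ : ℝ), Irreducible G ∧ G ∣ F ∧ ρ = ∑ t, (w t : ℝ) * G.degreeOf t ∧
      0 < ρ ∧ eval ξ G = 0 ∧ IG w (s / (2 * N) * ρ) ξ G ∧ s / (2 * N) ≤ 1 ∧
      nh G ≤ 4 * (B + 3 * N) / s * ρ * Module.finrank ℚ k := by
  classical
  obtain ⟨f, hf, hfF⟩ := WfDvdMonoid.exists_factors F hF
  set l := f.toList with hl
  have hlf : l.prod = f.prod := by
    rw [hl, Multiset.prod_toList]
  have hirr : ∀ j : Fin l.length, Irreducible (l.get j) := by
    intro j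
    apply hf
    rw [← Multiset.mem_toList]
    exact List.get_mem l j
  have hPl : ∏ j : Fin l.length, l.get j = l.prod := by
    rw [← List.prod_ofFn, List.ofFn_get]
  obtain ⟨u, hu⟩ := hfF
  rw [← hlf, ← hPl] at hu
  obtain ⟨c, hc, huc⟩ := MvPolynomial.isUnit_iff_eq_C_of_isReduced.mp u.isUnit
  set P := ∏ j : Fin l.length, l.get j with hP
  have hc0 : c ≠ 0 := hc.ne_zero
  have hFP : F = C c * P := by
    rw [← hu, huc, mul_comm]
  have hP0 : P ≠ 0 := by
    intro h0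
    apply hF
    rw [hFP, h0, mul_zero]
  have hne : ∀ j ∈ (Finset.univ : Finset (Fin l.length)), l.get j ≠ 0 :=
    fun j _ => (hirr j).ne_zero
  have hnhP : nh P = nh F := by
    rw [hFP, nh_C_mul hP0 hc0]
  have hdeg : ∀ t, P.degreeOf t = F.degreeOf t := by
    intro t
    rw [hFP, MvPolynomial.degreeOf_mul_eq (by simpa using hc0) hP0, MvPolynomial.degreeOf_C,
      zero_add]
  have hIP : IG w (s * μ) ξ P := by
    intro m hm
    have h1 := hI m hm
    rw [hFP, D2_tr_mul] at h1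
    have h2 : tr ξ (C c : MvPolynomial ι k) = C c := by
      rw [tr_eq_hom]
      simp [trHom]
    rw [h2, MvPolynomial.coeff_C_mul] at h1
    exact (mul_eq_zero.mp h1).resolve_left hc0
  have hIP' : s * μ ≤ (ix w ξ P : ℝ) := (IG_iff_le_ix w ξ hP0 _).mp hIP
  have hsumI : ((ix w ξ P : ℕ) : ℝ) = ∑ j : Fin l.length, (ix w ξ (l.get j) : ℝ) := by
    rw [hP, ix_prod w ξ _ _ hne]
    push_cast
    rfl
  have hW : ∑ t, (w t : ℝ) * F.degreeOf t ≤ N * μ := by
    have h1 : ∑ t, (w t : ℝ) * F.degreeOf t = ∑ t ∈ F.vars, (w t : ℝ) * F.degreeOf t := by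
      symm
      refine Finset.sum_subset (Finset.subset_univ _) ?_
      intro t _ ht
      rw [MvPolynomial.mem_vars_iff_degreeOf_ne_zero, not_not] at ht
      rw [ht]
      simp
    rw [h1]
    calc ∑ t ∈ F.vars, (w t : ℝ) * F.degreeOf t ≤ ∑ _t ∈ F.vars, μ :=
          Finset.sum_le_sum fun t _ => hμ t
      _ = F.vars.card * μ := by rw [Finset.sum_const, nsmul_eq_mul]
      _ ≤ N * μ := by
          refine mul_le_mul_of_nonneg_right ?_ hμ0.le
          exact_mod_cast hN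
  have hsumρ : ∑ j : Fin l.length, ∑ t, (w t : ℝ) * (l.get j).degreeOf t ≤ N * μ := by
    rw [Finset.sum_comm]
    refine le_trans (le_of_eq ?_) hW
    refine Finset.sum_congr rfl fun t _ => ?_
    rw [← Finset.mul_sum, ← hdeg t, hP, degreeOf_prod_eq _ _ hne]
    push_cast
    rfl
  have hsumh : ∑ j : Fin l.length, nh (l.get j) ≤ (B + 3 * N) * μ * Module.finrank ℚ k := by
    have h1 := sum_nh_le k Finset.univ (fun j : Fin l.length => l.get j) hne
    rw [← hP, hnhP] at h1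
    have h2 : ∑ t, (degreeOf t P : ℝ) ≤ N * μ := by
      refine le_trans (Finset.sum_le_sum fun t _ => ?_) hW
      rw [hdeg t]
      have h3 : (1 : ℝ) ≤ w t := by exact_mod_cast hw t
      nlinarith [Nat.cast_nonneg (α := ℝ) (F.degreeOf t)]
    have h4 : (0 : ℝ) ≤ 3 * Module.finrank ℚ k := by positivity
    have h5 := mul_le_mul_of_nonneg_left h2 h4
    calc ∑ j : Fin l.length, nh (l.get j) ≤ nh F + 3 * Module.finrank ℚ k * ∑ t, (degreeOf t P : ℝ) := h1
      _ ≤ B * μ * Module.finrank ℚ k + 3 * Module.finrank ℚ k * (N * μ) := add_le_add hnh h5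
      _ = (B + 3 * N) * μ * Module.finrank ℚ k := by ring
  have hNpos : (0 : ℝ) < N := by exact_mod_cast hN1
  obtain ⟨j, -, hj1, hj2, hj3⟩ := select (Finset.univ : Finset (Fin l.length))
    (fun j => (ix w ξ (l.get j) : ℝ)) (fun j => ∑ t, (w t : ℝ) * (l.get j).degreeOf t)
    (fun j => nh (l.get j))
    (by
      intro j _
      have := ix_le w ξ (hne j (Finset.mem_univ j))
      exact_mod_cast this)
    (by
      intro j _
      positivity)
    (fun j hj => nh_nonneg (hne j hj))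
    hNpos hμ0 hs hsumρ (by rw [← hsumI]; exact hIP') hsumh
  have hρpos : 0 < ∑ t, (w t : ℝ) * (l.get j).degreeOf t := by
    refine lt_of_lt_of_le hj1 ?_
    have := ix_le w ξ (hne j (Finset.mem_univ j))
    exact_mod_cast this
  have hIle : (ix w ξ (l.get j) : ℝ) ≤ ∑ t, (w t : ℝ) * (l.get j).degreeOf t := by
    have := ix_le w ξ (hne j (Finset.mem_univ j))
    exact_mod_cast this
  refine ⟨l.get j, _, hirr j, ?_, rfl, hρpos, ?_, ?_, ?_, ?_⟩
  · rw [hFP]
    exact Dvd.dvd.mul_left (Finset.dvd_prod_of_mem _ (Finset.mem_univ j)) _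
  · apply eval_eq_zero_of_ix w ξ
    exact_mod_cast hj1
  · exact (IG_iff_le_ix w ξ (hne j (Finset.mem_univ j)) _).mpr hj2
  · by_contra hlt
    push Not at hlt
    have := mul_lt_mul_of_pos_right hlt hρpos
    linarith
  · have h1 : nh (l.get j) * (s * μ) ≤
        (4 * (B + 3 * N) / s * (∑ t, (w t : ℝ) * (l.get j).degreeOf t) *
          Module.finrank ℚ k) * (s * μ) := by
      refine hj3.trans (le_of_eq ?_)
      field_simp
    exact le_of_mul_le_mul_right h1 (mul_pos hs hμ0)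

end Pool.Agent.Lib.MP_17a322_nt.VJ
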