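import Pool.Agent.Lib.MP_17a322_nt.VJ.D5
import Pool.Agent.Lib.MP_17a322_nt.VJ.D6

/-!
# D7: the zero lemma
-/

set_option linter.unusedSectionVars false

universe u

namespace Pool.Agent.Lib.MP_17a322_nt.VJ

open MvPolynomial Height

theorem D7_mem_vars {R σ : Type*} [CommRing R] (G : MvPolynomial σ R) (t : σ) :
    t ∈ G.vars ↔ G.degreeOf t ≠ 0 := by
  classical
  rw [mem_vars]
  constructor
  · rintro ⟨m, hm, ht⟩
    have := monomial_le_degreeOf t hm
    have h2 := Finsupp.mem_support_iff.mp ht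
    omega
  · intro h
    by_contra hcon
    push Not at hcon
    apply h
    apply Nat.le_zero.mp
    rw [degreeOf_le_iff]
    intro m hm
    have := hcon m hm
    have h2 := Finsupp.notMem_support_iff.mp this
    omega

theorem D7_vars_dvd {L σ : Type*} [Field L] {G F : MvPolynomial σ L} (h : G ∣ F) (hF : F ≠ 0) :
    G.vars ⊆ F.vars := by
  classical
  obtain ⟨Q, rfl⟩ := h
  have hG : G ≠ 0 := left_ne_zero_of_mul hF
  have hQ : Q ≠ 0 := right_ne_zero_of_mul hF
  intro t ht
  rw [D7_mem_vars] at ht ⊢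
  have := degreeOf_prod_eq (Finset.univ : Finset (Fin 2)) ![G, Q]
    (by intro j _; fin_cases j <;> simpa) t
  simp only [Fin.prod_univ_two, Fin.sum_univ_two, Matrix.cons_val_zero, Matrix.cons_val_one] at this
  omega

theorem D7_const {k ι : Type*} [Field k] [DecidableEq ι] (w : ι → ℕ) (ξ : ι → k)
    (F : MvPolynomial ι k) (hF : F ≠ 0) (hv : F.vars = ∅) (a : ℝ) (ha : 0 < a) (hI : IG w a ξ F) :
    False := by
  obtain hC := (vars_eq_empty_iff_eq_C).mp hv
  have h0 := hI 0 (by simpa using ha)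
  rw [hC] at h0
  have : tr ξ (C (coeff 0 F)) = (C (coeff 0 F) : MvPolynomial ι k) := by
    simp [tr]
  rw [this] at h0
  simp at h0
  rw [h0] at hC
  apply hF
  rw [hC]; simp

/-- The zero lemma (section 4). -/
theorem zero_lemma (N : ℕ) (s B : ℝ) (hs : 0 < s) (hB : 0 ≤ B) :
    ∃ (R D : ℕ) (B' : ℝ), 0 ≤ B' ∧ ∀ (k : Type u) [Field k] [NumberField k]
      (ι : Type) [Fintype ι] [DecidableEq ι] (w : ι → ℕ) (ξ : ι → k) (F : MvPolynomial ι k)
      (μ : ℝ), (∀ t, 1 ≤ w t) → (∀ t t', w t = w t' ∨ R * w t ≤ w t' ∨ R * w t' ≤ w t) →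
      F ≠ 0 → F.vars.card ≤ N → 0 < μ → (∀ t, (w t : ℝ) * F.degreeOf t ≤ μ) →
      nh F ≤ B * μ * Module.finrank ℚ k → IG w (s * μ) ξ F →
      ∃ (t₀ : ι) (G : MvPolynomial ι k), G ≠ 0 ∧ (∀ t ∈ G.vars, w t = w t₀) ∧
        (∀ t, G.degreeOf t ≤ D) ∧ nh G ≤ B' * w t₀ * Module.finrank ℚ k ∧ eval ξ G = 0 := by
  induction N generalizing s B with
  | zero =>
    refine ⟨0, 0, 0, le_rfl, ?_⟩
    intro k _ _ ι _ _ w ξ F μ hw hR hF hN hμ hdeg hnh hI
    exact (D7_const w ξ F hF (Finset.card_eq_zero.mp (Nat.le_zero.mp hN)) _ (by positivity) hI).elim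
  | succ N ih =>
    obtain ⟨s', hs'⟩ : ∃ s' : ℝ, s' = s / (2 * ((N + 1 : ℕ) : ℝ)) := ⟨_, rfl⟩
    obtain ⟨B₁, hB₁⟩ : ∃ B₁ : ℝ, B₁ = 4 * (B + 3 * ((N + 1 : ℕ) : ℝ)) / s := ⟨_, rfl⟩
    have hs'0 : 0 < s' := by rw [hs']; positivity
    have hB₁0 : 0 ≤ B₁ := by rw [hB₁]; positivity
    obtain ⟨R₀, D₀, B₀, hB₀, H⟩ := ih (s' ^ 2 / 32) (B₁ + 1) (by positivity) (by positivity)
    obtain ⟨Δ, hΔ⟩ : ∃ Δ : ℕ, Δ = ⌈2 / s'⌉₊ := ⟨_, rfl⟩
    have hΔ1 : 2 / s' ≤ (Δ : ℝ) := by rw [hΔ]; exact Nat.le_ceil _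
    have hΔ0 : 1 ≤ Δ := by
      have h1 : (0 : ℝ) < 2 / s' := by positivity
      have h2 : (0 : ℝ) < Δ := lt_of_lt_of_le h1 hΔ1
      exact_mod_cast h2
    refine ⟨max R₀ Δ, max D₀ Δ, max B₀ (B₁ * Δ), le_max_of_le_left hB₀, ?_⟩
    intro k _ _ ι _ _ w ξ F μ hw hR hF hN hμ hdeg hnh hI
    obtain ⟨G, ρ, hGirr, hGF, hρ, hρ0, hev, hIG, hs1, hnhG⟩ :=
      exists_good_factor w hw ξ F hF (N + 1) hN (by omega) μ hμ hdeg s B hs hnh hI
    rw [← hs'] at hIG hs1
    rw [← hB₁] at hnhG
    have hsingle : ∀ t, (w t : ℝ) * G.degreeOf t ≤ ρ := by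
      intro t
      rw [hρ]
      exact Finset.single_le_sum (f := fun t => (w t : ℝ) * (G.degreeOf t : ℝ))
        (fun i _ => by positivity) (Finset.mem_univ t)
    have hne : G.vars.Nonempty := by
      rw [Finset.nonempty_iff_ne_empty]
      intro h0
      have : ρ = 0 := by
        rw [hρ]
        apply Finset.sum_eq_zero
        intro t _
        have h1 : G.degreeOf t = 0 := by
          by_contra h
          have := (D7_mem_vars G t).mpr h
          rw [h0] at this
          simp at this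
        rw [h1]; simp
      linarith
    obtain ⟨t₀, ht₀, hmin⟩ := Finset.exists_min_image G.vars w hne
    have hdt₀ : G.degreeOf t₀ ≠ 0 := (D7_mem_vars G t₀).mp ht₀
    have hwt₀ : (1 : ℝ) ≤ w t₀ := by exact_mod_cast hw t₀
    have hd0 : (0 : ℝ) ≤ Module.finrank ℚ k := by positivity
    by_cases hc : (w t₀ : ℝ) ≤ s' * ρ / 2
    · obtain ⟨F₁, c, hc1, hF₁, hvars, hdeg₁, hnh₁, hI₁⟩ :=
        elim_step w ξ G hGirr t₀ hdt₀ (hw t₀) s' ρ hs'0 hs1 hsingle hIG hc
      have hcard : F₁.vars.card ≤ N := by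
        have h1 := Finset.card_le_card hvars
        rw [Finset.card_erase_of_mem ht₀] at h1
        have h2 := Finset.card_le_card (D7_vars_dvd hGF hF)
        omega
      obtain ⟨t₁, G₁, hG₁, hv₁, hd₁, hh₁, he₁⟩ := H k ι w ξ F₁ (c * ρ) hw
        (by
          intro t t'
          rcases hR t t' with h | h | h
          · exact Or.inl h
          · exact Or.inr (Or.inl ((Nat.mul_le_mul_right _ (le_max_left _ _)).trans h))
          · exact Or.inr (Or.inr ((Nat.mul_le_mul_right _ (le_max_left _ _)).trans h)))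
        hF₁ hcard (by positivity) hdeg₁
        (by
          refine hnh₁.trans ?_
          have h1 : nh G + ρ * (Module.finrank ℚ k : ℝ) ≤
              (B₁ + 1) * ρ * (Module.finrank ℚ k : ℝ) := by nlinarith
          calc c * (nh G + ρ * (Module.finrank ℚ k : ℝ))
              ≤ c * ((B₁ + 1) * ρ * (Module.finrank ℚ k : ℝ)) :=
                mul_le_mul_of_nonneg_left h1 (by linarith)
            _ = (B₁ + 1) * (c * ρ) * (Module.finrank ℚ k : ℝ) := by ring)
        hI₁
      refine ⟨t₁, G₁, hG₁, hv₁, fun t => (hd₁ t).trans (le_max_left _ _), hh₁.trans ?_, he₁⟩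
      gcongr
      exact le_max_left _ _
    · push Not at hc
      have hρlt : ρ < Δ * w t₀ := by
        have h1 : ρ < 2 / s' * w t₀ := by
          rw [div_mul_eq_mul_div, lt_div_iff₀ hs'0]
          linarith
        exact lt_of_lt_of_le h1 (mul_le_mul_of_nonneg_right hΔ1 (by linarith))
      have hweq : ∀ t ∈ G.vars, w t = w t₀ := by
        intro t ht
        have hmt := hmin t ht
        rcases hR t t₀ with h | h | h
        · exact h
        · have h1 : w t ≤ max R₀ Δ * w t := Nat.le_mul_of_pos_left _ (by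
            exact lt_of_lt_of_le hΔ0 (le_max_right _ _))
          omega
        · exfalso
          have h1 : Δ * w t₀ ≤ w t := (Nat.mul_le_mul_right _ (le_max_right _ _)).trans h
          have h2 : (Δ : ℝ) * w t₀ ≤ w t := by exact_mod_cast h1
          have h3 := hsingle t
          have h4 : (1 : ℝ) ≤ G.degreeOf t := by
            exact_mod_cast Nat.one_le_iff_ne_zero.mpr ((D7_mem_vars G t).mp ht)
          have h5 : (0 : ℝ) ≤ w t := by positivity
          nlinarith
      refine ⟨t₀, G, hGirr.ne_zero, hweq, ?_, ?_, hev⟩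
      · intro t
        by_cases ht : t ∈ G.vars
        · have h3 := hsingle t
          rw [hweq t ht] at h3
          have h4 : (G.degreeOf t : ℝ) < Δ := by
            by_contra hcon
            push Not at hcon
            have : (Δ : ℝ) * w t₀ ≤ w t₀ * G.degreeOf t := by
              rw [mul_comm]
              exact mul_le_mul_of_nonneg_left hcon (by linarith)
            linarith
          have h5 : G.degreeOf t < Δ := by exact_mod_cast h4
          exact h5.le.trans (le_max_right _ _)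
        · have : G.degreeOf t = 0 := by
            by_contra h
            exact ht ((D7_mem_vars G t).mpr h)
          rw [this]; exact Nat.zero_le _
      · refine hnhG.trans ?_
        have h1 : B₁ * ρ * (Module.finrank ℚ k : ℝ) ≤
            (B₁ * Δ) * w t₀ * (Module.finrank ℚ k : ℝ) := by
          apply mul_le_mul_of_nonneg_right _ hd0
          have := mul_le_mul_of_nonneg_left hρlt.le hB₁0
          linarith
        refine h1.trans ?_
        gcongr
        exact le_max_right _ _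

end Pool.Agent.Lib.MP_17a322_nt.VJ
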