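import Pool.Agent.Lib.MP_17a322_nt.RO.Defs

/-!
Definitions for Vojta's inequality on products of two elliptic curves (all ranks).

`cst v n`: the constant in `|sum of n terms|_v ≤ cst v n * max`. `NV v F`: size of a polynomial at the
absolute value `v` (sum, or maximum for nonarchimedean `v`, of the absolute values of the
coefficients). `gs f`: sum of `f v` over all places. `nh F`: height of a polynomial. `SN v ν`: `ν` is a
submultiplicative seminorm compatible with `v`. `El y f G`: elimination of the variable `y`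
(resultant). `SV`, `QF`, `S3`, `dup`, `mu`: forms of an elliptic curve in x-coordinates.
-/

namespace Pool.Agent.Lib.MP_17a322_nt.VJ

open MvPolynomial Height
open Pool.Agent.Lib.MP_17a322_nt.RO

/-- `1` for nonarchimedean `v`, `n` otherwise. -/
noncomputable def cst {L : Type*} [Field L] (v : AbsoluteValue L ℝ) (n : ℕ) : ℝ :=
  open Classical in if IsNonarchimedean v then 1 else (n : ℝ)

/-- The size of a polynomial. -/
noncomputable def NV {L : Type*} [Field L] (v : AbsoluteValue L ℝ) {σ : Type*}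
    (F : MvPolynomial σ L) : ℝ :=
  open Classical in
  if IsNonarchimedean v then ⨆ m, v (coeff m F) else ∑ m ∈ F.support, v (coeff m F)

/-- The size of a polynomial in one variable over a ring with a seminorm `ν`. -/
noncomputable def NP {L : Type*} [Field L] (v : AbsoluteValue L ℝ) {A : Type*} [CommRing A]
    (ν : A → ℝ) (p : Polynomial A) : ℝ :=
  open Classical in
  if IsNonarchimedean v then ⨆ m, ν (p.coeff m) else ∑ m ∈ p.support, ν (p.coeff m)

/-- `ν` is a submultiplicative seminorm on the `L`-algebra `A` compatible with `v`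
(ultrametric if `v` is nonarchimedean). -/
structure SN {L : Type*} [Field L] (v : AbsoluteValue L ℝ) {A : Type*} [CommRing A] [Algebra L A]
    (ν : A → ℝ) : Prop where
  nonneg : ∀ a, 0 ≤ ν a
  zero : ν 0 = 0
  neg : ∀ a, ν (-a) = ν a
  add : ∀ a b, ν (a + b) ≤ ν a + ν b
  add_max : IsNonarchimedean v → ∀ a b, ν (a + b) ≤ max (ν a) (ν b)
  mul : ∀ a b, ν (a * b) ≤ ν a * ν b
  map : ∀ c : L, ν (algebraMap L A c) ≤ v c

/-- Sum over all places (archimedean ones with multiplicity). -/
noncomputable def gs {L : Type*} [Field L] [AdmissibleAbsValues L] (f : AbsoluteValue L ℝ → ℝ) : ℝ :=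
  (AdmissibleAbsValues.archAbsVal.map f).sum +
    ∑ᶠ v : AdmissibleAbsValues.nonarchAbsVal (K := L), f v.val

/-- `f` vanishes at all but finitely many nonarchimedean places. -/
def FS {L : Type*} [Field L] [AdmissibleAbsValues L] (f : AbsoluteValue L ℝ → ℝ) : Prop :=
  {v : AdmissibleAbsValues.nonarchAbsVal (K := L) | f v.val ≠ 0}.Finite

/-- `v` is one of the places. -/
def Pl {L : Type*} [Field L] [AdmissibleAbsValues L] (v : AbsoluteValue L ℝ) : Prop :=
  v ∈ AdmissibleAbsValues.archAbsVal (K := L) ∨ v ∈ AdmissibleAbsValues.nonarchAbsVal (K := L)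

/-- The height of a polynomial. -/
noncomputable def nh {L : Type*} [Field L] [AdmissibleAbsValues L] {σ : Type*}
    (F : MvPolynomial σ L) : ℝ :=
  gs fun v => Real.log (NV v F)

/-- The height of the vector of coefficients. -/
noncomputable def ch {L : Type*} [Field L] [AdmissibleAbsValues L] {σ : Type*}
    (F : MvPolynomial σ L) : ℝ :=
  logHeight fun m : F.support => coeff (m : σ →₀ ℕ) F

/-- `F` as a polynomial in the variable `y`. -/
noncomputable def vw {R σ : Type*} [CommRing R] [DecidableEq σ] (y : σ) (F : MvPolynomial σ R) :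
    Polynomial (MvPolynomial σ R) :=
  aeval (fun t => if t = y then Polynomial.X else Polynomial.C (X t)) F

/-- Elimination of `y` from `f` and `G`: the resultant (for the exact degrees in `y`). -/
noncomputable def El {R σ : Type*} [CommRing R] [DecidableEq σ] (y : σ)
    (f G : MvPolynomial σ R) : MvPolynomial σ R :=
  Polynomial.resultant (vw y f) (vw y G) (f.degreeOf y) (G.degreeOf y)

/-- Translation: the polynomial `F(T + ξ)` in `T`. -/
noncomputable def tr {R σ : Type*} [CommRing R] (ξ : σ → R) (F : MvPolynomial σ R) :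
    MvPolynomial σ R :=
  aeval (fun t => X t + C (ξ t)) F

/-- The index of `F` at `ξ` with respect to the weights `w` is at least `a`. -/
def IG {R σ : Type*} [CommRing R] (w : σ → ℕ) (a : ℝ) (ξ : σ → R) (F : MvPolynomial σ R) : Prop :=
  ∀ m : σ →₀ ℕ, (Finsupp.weight w m : ℝ) < a → coeff m (tr ξ F) = 0

/-- The vectors `S_0, S_1, S_2` attached to two vectors `R`, `Q`: for x-coordinates of points `P`, `Q`
a nonzero multiple of the symmetric square of the x-coordinates of `P + Q` and `P - Q`. -/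
noncomputable def SV {K : Type*} [Field K] (W : WeierstrassCurve K) {A : Type*} [CommRing A]
    [Algebra K A] (R Q : Fin 2 → A) : Fin 3 → A :=
  fun i => aeval (sq2 R Q) (WeierstrassCurve.addSubMap W i)

/-- The quadratic form with coefficients `s`. -/
def QF {A : Type*} [CommRing A] (s : Fin 3 → A) (Z : Fin 2 → A) : A :=
  s 0 * Z 1 ^ 2 - s 1 * (Z 0 * Z 1) + s 2 * Z 0 ^ 2

/-- The symmetric form of degree `2` in each of `R`, `Q`, `Z`, zero for the x-coordinates of `P`, `Q`
and `P ± Q`. -/
noncomputable def S3 {K : Type*} [Field K] (W : WeierstrassCurve K) {A : Type*} [CommRing A]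
    [Algebra K A] (R Q Z : Fin 2 → A) : A :=
  QF (SV W R Q) Z

/-- `4 X^3 + b_2 X^2 Z + 2 b_4 X Z^2 + b_6 Z^3` times `Z`. -/
noncomputable def ph {K : Type*} [Field K] (W : WeierstrassCurve K) {A : Type*} [CommRing A]
    [Algebra K A] (R : Fin 2 → A) : A :=
  R 1 * (4 * R 0 ^ 3 + algebraMap K A W.b₂ * R 0 ^ 2 * R 1 +
    2 * algebraMap K A W.b₄ * R 0 * R 1 ^ 2 + algebraMap K A W.b₆ * R 1 ^ 3)

/-- Duplication. -/
noncomputable def dup {K : Type*} [Field K] (W : WeierstrassCurve K) {A : Type*} [CommRing A]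
    [Algebra K A] (R : Fin 2 → A) : Fin 2 → A :=
  ![R 0 ^ 4 - algebraMap K A W.b₄ * R 0 ^ 2 * R 1 ^ 2 -
      2 * algebraMap K A W.b₆ * R 0 * R 1 ^ 3 - algebraMap K A W.b₈ * R 1 ^ 4,
    ph W R]

/-- Multiplication by `2 ^ j`. -/
noncomputable def mu {K : Type*} [Field K] (W : WeierstrassCurve K) {A : Type*} [CommRing A]
    [Algebra K A] (j : ℕ) (R : Fin 2 → A) : Fin 2 → A :=
  (dup W)^[j] R

/-- The form `n` with `ph (dup R) = ph R * n(R) ^ 2`. -/
noncomputable def nn {K : Type*} [Field K] (W : WeierstrassCurve K) {A : Type*} [CommRing A]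
    [Algebra K A] (R : Fin 2 → A) : A :=
  2 * R 0 ^ 6 + algebraMap K A W.b₂ * R 0 ^ 5 * R 1 + 5 * algebraMap K A W.b₄ * R 0 ^ 4 * R 1 ^ 2 +
    10 * algebraMap K A W.b₆ * R 0 ^ 3 * R 1 ^ 3 + 10 * algebraMap K A W.b₈ * R 0 ^ 2 * R 1 ^ 4 +
    algebraMap K A (W.b₂ * W.b₈ - W.b₄ * W.b₆) * R 0 * R 1 ^ 5 +
    algebraMap K A (W.b₄ * W.b₈ - W.b₆ ^ 2) * R 1 ^ 6

/-- `ph (mu j R) = ph R * nj j R ^ 2`. -/
noncomputable def nj {K : Type*} [Field K] (W : WeierstrassCurve K) {A : Type*} [CommRing A]
    [Algebra K A] : ℕ → (Fin 2 → A) → A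
  | 0, _ => 1
  | j + 1, R => nj W j R * nn W (mu W j R)

/-- The vector `(ξ, 1)` (`c = false`) or `(1, ξ)` (`c = true`). -/
def vc {A : Type*} [CommRing A] (c : Bool) (ξ : A) : Fin 2 → A :=
  if c then ![1, ξ] else ![ξ, 1]

/-- The polynomial `g` in two variables is irreducible over the algebraic closure, involves both
variables, and has degree at most `Δ` in each. -/
def GC {K : Type*} [Field K] (g : MvPolynomial (Fin 2) K) (Δ : ℕ) : Prop :=
  Irreducible (MvPolynomial.map (algebraMap K (AlgebraicClosure K)) g) ∧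
    ∀ t, 1 ≤ g.degreeOf t ∧ g.degreeOf t ≤ Δ

/-- The coefficient of `∏ X_t ^ (deg_t g)`. -/
noncomputable def tc {K : Type*} [Field K] (g : MvPolynomial (Fin 2) K) : K :=
  coeff (Finsupp.equivFunOnFinite.symm fun t => g.degreeOf t) g

/-- The curve `g(X (i, 0), X (i, 1))`. -/
noncomputable def gX {K : Type*} [CommRing K] (i : Fin 4) (g : MvPolynomial (Fin 2) K) :
    MvPolynomial (Fin 4 × Fin 2) K :=
  rename (fun t => (i, t)) g

/-- Variables of stage II: `X (0, t)` is the x-coordinate of `P_t`, `X (1, t)` that of `P'_t`,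
`X (2, t)` that of `P'_t - 2 ^ e P_t` in the chart `c t`, `X (3, t)` auxiliary. The relation of the first
three. -/
noncomputable def rel {K : Type*} [Field K] (W : Fin 2 → WeierstrassCurve K) (e : ℕ)
    (c : Fin 2 → Bool) (t : Fin 2) : MvPolynomial (Fin 4 × Fin 2) K :=
  S3 (W t) (mu (W t) e ![X (0, t), 1]) ![X (1, t), 1] (vc (c t) (X (2, t)))

/-- The eliminant `N` of (9.3): a polynomial in `X (0, 0)` and `X (1, 0)`. -/
noncomputable def NN {K : Type*} [Field K] (W : Fin 2 → WeierstrassCurve K) (e : ℕ)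
    (c : Fin 2 → Bool) (g g' : MvPolynomial (Fin 2) K) (F : MvPolynomial (Fin 4 × Fin 2) K) :
    MvPolynomial (Fin 4 × Fin 2) K :=
  El (1, 1) (gX 1 g') (El (0, 1) (gX 0 g) (El (2, 1) (rel W e c 1) (El (2, 0) (rel W e c 0) F)))

/-- The height of the point with x-coordinates those of `P`. -/
noncomputable def HH {K : Type*} [Field K] [Height.AdmissibleAbsValues K]
    {W : Fin 2 → WeierstrassCurve K} (P : ∀ t, (W t).toAffine.Point) : ℝ :=
  ∑ t, logHeight (P t).xRep

/-- The height with respect to the origin: `h(x_1) + h(x_2) - h([1 : x_1 : x_2])`. -/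
noncomputable def hO {K : Type*} [Field K] [Height.AdmissibleAbsValues K]
    {W : Fin 2 → WeierstrassCurve K} (P : ∀ t, (W t).toAffine.Point) : ℝ :=
  HH P - logHeight ![1, (P 0).xRep 0, (P 1).xRep 0]

end Pool.Agent.Lib.MP_17a322_nt.VJ
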