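import Pool.Agent.Lib.MP_17a322_nt.VJ.DefsE

/-!
Definitions for stage 0 (section 7).

Variables: `(none, t)` is `x_t`, `(some i, t)` is `ξ_{it}`, for `i : Fin m`, `t : Fin 2`. The degree in
`x_t` is `8 n 4 ^ J`, in `ξ_{it}` it is `8 n 4 ^ (J - j i)`.
-/

namespace Pool.Agent.Lib.MP_17a322_nt.VJ

open MvPolynomial Height
open Pool.Agent.Lib.MP_17a322_nt.RO

/-- The variables `x_t`, `ξ_{it}`. -/
abbrev AA (m : ℕ) := Option (Fin m) × Fin 2

/-- The coefficient of `s ^ γ` in `(R 0 + s) ^ β * R 1 ^ (d - β)` (chart `false`) or in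
`R 0 ^ β * (R 1 + s) ^ (d - β)` (chart `true`). -/
noncomputable def TT {A : Type*} [CommRing A] (c : Bool) (d γ β : ℕ) (R : Fin 2 → A) : A :=
  if c then ((d - β).choose γ : A) * R 0 ^ β * R 1 ^ (d - β - γ)
  else (β.choose γ : A) * R 0 ^ (β - γ) * R 1 ^ (d - β)

/-- The quantity `|R 1 ξ - R 0| / (|R| max(1, |ξ|))`. -/
noncomputable def dl {L : Type*} [Field L] (v : AbsoluteValue L ℝ) (R : Fin 2 → L) (ξ : L) : ℝ :=
  v (R 1 * ξ - R 0) / (vn v R * max 1 (v ξ))

/-- Degrees of the auxiliary polynomial. -/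
def DG (n J : ℕ) {m : ℕ} (j : Fin m → ℕ) (a : AA m) : ℕ :=
  a.1.elim (8 * n * 4 ^ J) fun i => 8 * n * 4 ^ (J - j i)

/-- Numbers of values of the entries of the index `q` of the equations belonging to `i`. -/
def DQ (n J : ℕ) {m : ℕ} (j : Fin m → ℕ) (i : Fin m) (a : AA m) : ℕ :=
  a.1.elim (2 * (8 * n * 4 ^ J) + 1) fun i' =>
    if i' = i then 4 ^ (J - j i) else 8 * n * 4 ^ (J - j i') + 1

/-- The functions `q` with `q a < N a`. -/
def box {ι : Type*} [Fintype ι] [DecidableEq ι] (N : ι → ℕ) : Finset (ι → ℕ) :=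
  Fintype.piFinset fun a => Finset.range (N a)

/-- The coefficient of the unknown with exponents `e` in the equation `(i, c, q)`. -/
noncomputable def ME {K : Type*} [Field K] (W : Fin 2 → WeierstrassCurve K) (n J : ℕ) {m : ℕ}
    (j : Fin m → ℕ) (i : Fin m) (c : Fin 2 → Bool) (q e : AA m → ℕ) : K :=
  open Classical in
  if ∀ i', i' ≠ i → ∀ t, q (some i', t) = e (some i', t) then
    ∏ t, (Polynomial.X ^ e (none, t) * TT (c t) (8 * n * 4 ^ (J - j i)) (q (some i, t))
      (e (some i, t)) (mu (W t) (j i) ![(Polynomial.X : Polynomial K), 1])).coeff (q (none, t))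
  else 0

/-- The polynomial with coefficients `x` in the box of the degrees `DG`. -/
noncomputable def FG {K : Type*} [Field K] (n J : ℕ) {m : ℕ} (j : Fin m → ℕ)
    (x : (AA m → ℕ) → K) : MvPolynomial (AA m) K :=
  ∑ e ∈ box (fun a => DG n J j a + 1), monomial (Finsupp.equivFunOnFinite.symm e) (x e)

/-- The linear equations. -/
def CG {K : Type*} [Field K] (W : Fin 2 → WeierstrassCurve K) (n J : ℕ) {m : ℕ} (j : Fin m → ℕ)
    (x : (AA m → ℕ) → K) : Prop :=
  ∀ (i : Fin m) (c : Fin 2 → Bool), ∀ q ∈ box (DQ n J j i),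
    ∑ e ∈ box (fun a => DG n J j a + 1), ME W n J j i c q e * x e = 0

/-- Partial evaluation at `x`: a polynomial in the `ξ_{it}`. -/
noncomputable def pe {K A : Type*} [CommRing K] [CommRing A] [Algebra K A] {m : ℕ}
    (x : Fin 2 → A) (F : MvPolynomial (AA m) K) : MvPolynomial (Fin m × Fin 2) A :=
  aeval (fun a : AA m => a.1.elim (C (x a.2)) fun i => X (i, a.2)) F

/-- Taylor coefficient in the variables `ξ_{it}`, as a polynomial in `x_t`, `ξ_{it}`. -/
noncomputable def tF {K : Type*} [CommRing K] {m : ℕ} (s : Fin m × Fin 2 →₀ ℕ)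
    (F : MvPolynomial (AA m) K) : MvPolynomial (AA m) K :=
  coeff s (tr (fun a : Fin m × Fin 2 => (X (some a.1, a.2) : MvPolynomial (AA m) K))
    (pe (fun t => (X (none, t) : MvPolynomial (AA m) K)) F))

/-- The point `(x, ξ)`. -/
def pt {A : Type*} {m : ℕ} (x : Fin 2 → A) (ξ : Fin m × Fin 2 → A) : AA m → A :=
  fun a => a.1.elim (x a.2) fun i => ξ (i, a.2)

/-- The coefficient of `x_0 ^ k * x_1 ^ l`, a polynomial in the `ξ_{it}`. -/
noncomputable def tp {K : Type*} [CommRing K] {m : ℕ} (k l : ℕ) (F : MvPolynomial (AA m) K) :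
    MvPolynomial (Fin m × Fin 2) K :=
  ∑ e ∈ F.support, if e (none, 0) = k ∧ e (none, 1) = l then
    monomial (Finsupp.equivFunOnFinite.symm fun a : Fin m × Fin 2 => e (some a.1, a.2))
      (coeff e F) else 0

end Pool.Agent.Lib.MP_17a322_nt.VJ
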