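import Pool.Agent.Lib.MP_17a322_nt.VJ.Defs

/-!
Definitions for stage II (section 9).

Variables (`Fin 4 × Fin 2`): `X (0, t)` is the x-coordinate of `P_t`, `X (1, t)` that of `P'_t`, `X (2, t)`
that of `P'_t - 2 ^ e P_t` in the chart `c t`, `X (3, t)` auxiliary.
-/

namespace Pool.Agent.Lib.MP_17a322_nt.VJ

open MvPolynomial Height
open Pool.Agent.Lib.MP_17a322_nt.RO

/-- The relation between the x-coordinate `X (0, t)` of `P`, the x-coordinate `X (i, t)` and the
x-coordinate `X (2, t)` (chart `c t`) of points `A`, `B` with `B = ± A ± 2 ^ e P`. `rel` is the case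
`i = 1`. -/
noncomputable def relI {K : Type*} [Field K] (W : Fin 2 → WeierstrassCurve K) (e : ℕ)
    (c : Fin 2 → Bool) (i : Fin 4) (t : Fin 2) : MvPolynomial (Fin 4 × Fin 2) K :=
  S3 (W t) (mu (W t) e ![X (0, t), 1]) ![X (i, t), 1] (vc (c t) (X (2, t)))

/-- The relation `Q` of (9.1) between `X (0, 0)`, `X (2, 0)`, `X (2, 1)`. -/
noncomputable def QQ {K : Type*} [Field K] (W : Fin 2 → WeierstrassCurve K) (e : ℕ)
    (c : Fin 2 → Bool) (g g' : MvPolynomial (Fin 2) K) : MvPolynomial (Fin 4 × Fin 2) K :=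
  El (0, 1) (gX 0 g) (El (3, 1) (relI W e c 3 1) (El (3, 0) (relI W e c 3 0) (gX 3 g')))

/-- The linear map replacing `y ^ i` by `c ^ (i / k) * y ^ (i % k)`. -/
noncomputable def rdm {K σ : Type*} [Field K] [DecidableEq σ] (y : σ) (k : ℕ) (c : K) :
    MvPolynomial σ K →ₗ[K] MvPolynomial σ K :=
  (basisMonomials σ K).constr K fun m => monomial (m.update y (m y % k)) (c ^ (m y / k))

/-- Homogenisation of degree `b` of `F` in the variables `X (2, t)`, with the new variables
`X (3, t)`. -/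
noncomputable def hm {K : Type*} [Field K] (b : ℕ) (F : MvPolynomial (Fin 4 × Fin 2) K) :
    MvPolynomial (Fin 4 × Fin 2) K :=
  ∑ m ∈ F.support, monomial
    (m + Finsupp.single (3, 0) (b - m (2, 0)) + Finsupp.single (3, 1) (b - m (2, 1))) (coeff m F)

/-- The size of a power series up to degree `n` on the disc of radius `r`. -/
noncomputable def PN {L : Type*} [Field L] (v : AbsoluteValue L ℝ) (r : ℝ) (n : ℕ)
    (f : PowerSeries L) : ℝ :=
  open Classical in
  if IsNonarchimedean v then ⨆ k : Fin (n + 1), v (PowerSeries.coeff (k : ℕ) f) * r ^ (k : ℕ)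
  else ∑ k : Fin (n + 1), v (PowerSeries.coeff (k : ℕ) f) * r ^ (k : ℕ)

/-- The point with `X (0, t) = x t`, `X (2, t)`, `X (3, t)` the entries of the column `ξ t (κ t)` (the
entry of `X (3, t)` is the one which is `1` in `vc (c t) _`). -/
def bp {A : Type*} (c : Fin 2 → Bool) (x : Fin 2 → A) (ξ : Fin 2 → Fin 2 → Fin 2 → A)
    (κ : Fin 2 → Fin 2) : Fin 4 × Fin 2 → A := fun p =>
  if p.1 = 0 then x p.2
  else if p.1 = 2 then ξ p.2 (κ p.2) (if c p.2 then 1 else 0)
  else ξ p.2 (κ p.2) (if c p.2 then 0 else 1)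

end Pool.Agent.Lib.MP_17a322_nt.VJ
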