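import Pool.Agent.Lib.MP_17a322_nt.VJ.E3
import Pool.Agent.Lib.MP_17a322_nt.RO.A1
import Pool.Agent.Lib.MP_17a322_nt.RO.B1
import Pool.Agent.Lib.MP_17a322_nt.RV.U6

/-!
The forms at points of the curve.

Everywhere `L` is an extension of `K` and `V = W.map (algebraMap K L)`; for `L = K` take `V = W`,
`hV = W.map_id`.
-/

universe u

namespace Pool.Agent.Lib.MP_17a322_nt.VJ

open MvPolynomial Height
open Pool.Agent.Lib.MP_17a322_nt.RO

section

variable {L : Type*} [Field L] {V : WeierstrassCurve L}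

theorem xRep_one {P : V.toAffine.Point} (hP : P ≠ 0) : P.xRep 1 = 1 := by
  cases P with
  | zero => exact absurd rfl hP
  | some x y h => rw [WeierstrassCurve.Affine.Point.xRep_some]; rfl

theorem xRep_eq {P : V.toAffine.Point} (hP : P ≠ 0) : P.xRep = ![P.xRep 0, 1] := by
  funext i
  fin_cases i
  · rfl
  · exact xRep_one hP

theorem xRep_zero : (0 : V.toAffine.Point).xRep = ![1, 0] := by
  exact WeierstrassCurve.Affine.Point.xRep_zero

theorem xRep_one_eq_zero {P : V.toAffine.Point} (hP : P.xRep 1 = 0) : P = 0 := by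
  by_contra h
  have h1 := xRep_one h
  rw [hP] at h1
  exact zero_ne_one h1

theorem xRep_ne_zero (P : V.toAffine.Point) : P.xRep ≠ 0 := by
  exact WeierstrassCurve.Affine.Point.xRep_ne_zero P

theorem xRep_neg (P : V.toAffine.Point) : (-P).xRep = P.xRep := by
  exact WeierstrassCurve.Affine.Point.xRep_neg P

/-- Points with proportional x-coordinates (compare RV/U6 `U6_prop`). -/
theorem eq_or_eq_neg {P Q : V.toAffine.Point} (h : wd P.xRep Q.xRep = 0) : P = Q ∨ P = -Q := by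
  exact Pool.Agent.Lib.MP_17a322_nt.RV.U6_prop P Q (sub_eq_zero.1 h)

theorem wd_xRep_eq_zero {P Q : V.toAffine.Point} :
    wd P.xRep Q.xRep = 0 ↔ P.xRep = Q.xRep := by
  constructor
  · intro h
    exact WeierstrassCurve.Affine.Point.xRep_eq_xRep_iff.2 (eq_or_eq_neg h)
  · intro h
    rw [h]
    unfold wd
    ring

/-- A nonzero vector `Z` with `wd P.xRep Z = 0` is a multiple of `P.xRep`. -/
theorem exists_smul_of_wd {p Z : Fin 2 → L} (hp : p ≠ 0) (h : wd p Z = 0) :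
    ∃ c : L, Z = c • p := by
  have h1 : p 0 * Z 1 = p 1 * Z 0 := sub_eq_zero.1 h
  by_cases h0 : p 0 = 0
  · have hp1 : p 1 ≠ 0 := by
      intro h2
      apply hp
      funext i
      fin_cases i
      · exact h0
      · exact h2
    have hZ : Z 0 = 0 := by
      rw [h0, zero_mul] at h1
      exact (mul_eq_zero.1 h1.symm).resolve_left hp1
    refine ⟨Z 1 / p 1, ?_⟩
    funext i
    fin_cases i
    · show Z 0 = Z 1 / p 1 * p 0
      rw [h0, hZ, mul_zero]
    · show Z 1 = Z 1 / p 1 * p 1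
      rw [div_mul_cancel₀ _ hp1]
  · refine ⟨Z 0 / p 0, ?_⟩
    funext i
    fin_cases i
    · show Z 0 = Z 0 / p 0 * p 0
      rw [div_mul_cancel₀ _ h0]
    · show Z 1 = Z 0 / p 0 * p 1
      rw [div_mul_eq_mul_div, eq_div_iff h0]
      linear_combination h1

end

section

variable {K : Type*} [Field K] (W : WeierstrassCurve K) [W.IsElliptic] {L : Type*} [Field L]
  [DecidableEq L] [Algebra K L] (V : WeierstrassCurve L) (hV : W.map (algebraMap K L) = V)

include hV

/-- `subst V`; the curve `V` is elliptic; RO/A1 `addSub_sym2x`; `Point.sym2x` is `sq2` of the two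
`xRep`; `SV_map` (E3) and `MvPolynomial.aeval_eq_eval`. -/
theorem SV_xRep (P Q : V.toAffine.Point) :
    ∃ γ : L, γ ≠ 0 ∧ ∀ i, SV W P.xRep Q.xRep i = γ * sq2 (P + Q).xRep (P - Q).xRep i := by
  subst hV
  obtain ⟨c, hc, h⟩ := addSub_sym2x (W.map (algebraMap K L)) P Q
  refine ⟨c, hc, fun i => ?_⟩
  have h1 : ∀ P Q : (W.map (algebraMap K L)).toAffine.Point, P.sym2x Q = sq2 P.xRep Q.xRep := fun P Q => rfl
  rw [← SV_map (L := L) W P.xRep Q.xRep]
  have h2 := h i
  rw [h1, h1] at h2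
  rw [← h2]
  unfold SV
  rw [MvPolynomial.aeval_eq_eval]

/-- From `SV_xRep`, `QF_smul` and `QF_sq2`. -/
theorem S3_xRep (P Q : V.toAffine.Point) :
    ∃ γ : L, γ ≠ 0 ∧ (∀ i, SV W P.xRep Q.xRep i = γ * sq2 (P + Q).xRep (P - Q).xRep i) ∧
      ∀ Z : Fin 2 → L, S3 W P.xRep Q.xRep Z = γ * (wd (P + Q).xRep Z * wd (P - Q).xRep Z) := by
  obtain ⟨γ, hγ, h⟩ := SV_xRep W V hV P Q
  refine ⟨γ, hγ, h, fun Z => ?_⟩
  have h1 : SV W P.xRep Q.xRep = γ • sq2 (P + Q).xRep (P - Q).xRep := funext h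
  unfold S3
  rw [h1, QF_smul, QF_sq2]

theorem S3_xRep_add (P Q : V.toAffine.Point) : S3 W P.xRep Q.xRep (P + Q).xRep = 0 := by
  obtain ⟨γ, _, _, h⟩ := S3_xRep W V hV P Q
  rw [h, wd_xRep_eq_zero.2 rfl, zero_mul, mul_zero]

theorem S3_xRep_sub (P Q : V.toAffine.Point) : S3 W P.xRep Q.xRep (P - Q).xRep = 0 := by
  obtain ⟨γ, _, _, h⟩ := S3_xRep W V hV P Q
  have h1 : wd (P - Q).xRep (P - Q).xRep = 0 := wd_xRep_eq_zero.2 rfl
  rw [h, h1, mul_zero, mul_zero]

/-- Roots of the third variable. -/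
theorem wd_of_S3 (P Q : V.toAffine.Point) (Z : Fin 2 → L) (h : S3 W P.xRep Q.xRep Z = 0) :
    wd (P + Q).xRep Z = 0 ∨ wd (P - Q).xRep Z = 0 := by
  obtain ⟨γ, hγ, _, h'⟩ := S3_xRep W V hV P Q
  rw [h'] at h
  exact mul_eq_zero.1 ((mul_eq_zero.1 h).resolve_left hγ)

/-- Duplication: `SV_self` and `SV_xRep` for `P = Q`: `γ * sq2 (2P).xRep ![1, 0]`. -/
theorem dup_xRep (P : V.toAffine.Point) :
    ∃ γ : L, γ ≠ 0 ∧ dup W P.xRep = γ • (2 • P).xRep := by
  obtain ⟨γ, hγ, h⟩ := SV_xRep W V hV P P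
  refine ⟨γ, hγ, ?_⟩
  rw [SV_self, sub_self, xRep_zero, ← two_nsmul] at h
  have h0 := h 0
  have h1 := h 1
  simp [sq2] at h0 h1
  funext i
  fin_cases i
  · exact h0
  · exact h1

/-- Induction with `dup_smul`. -/
theorem mu_xRep (j : ℕ) (P : V.toAffine.Point) :
    ∃ γ : L, γ ≠ 0 ∧ mu W j P.xRep = γ • (2 ^ j • P).xRep := by
  induction j with
  | zero =>
    refine ⟨1, one_ne_zero, ?_⟩
    rw [mu_zero, pow_zero, one_nsmul, one_smul]
  | succ j ih =>
    obtain ⟨γ, hγ, h⟩ := ih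
    obtain ⟨γ', hγ', h'⟩ := dup_xRep W V hV (2 ^ j • P)
    refine ⟨γ ^ 4 * γ', mul_ne_zero (pow_ne_zero 4 hγ) hγ', ?_⟩
    rw [mu_succ, h, dup_smul, h', smul_smul, ← mul_nsmul, ← pow_succ]

/-- `ph W P.xRep = (2 y + a₁ x + a₃)^2` for `P = (x, y)`; it is `0` only for points with `2 P = 0`. -/
theorem ph_xRep_isSquare (P : V.toAffine.Point) :
    ∃ β : L, ph W P.xRep = β ^ 2 := by
  subst hV
  cases P with
  | zero =>
    refine ⟨0, ?_⟩
    rw [← WeierstrassCurve.Affine.Point.zero_def, xRep_zero]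
    unfold ph
    simp
  | some x y h =>
    have hN := (WeierstrassCurve.Affine.equation_iff _ _).1 h.1
    rw [← ph_map (L := L) W]
    refine ⟨2 * y + (W.map (algebraMap K L)).a₁ * x + (W.map (algebraMap K L)).a₃, ?_⟩
    rw [WeierstrassCurve.Affine.Point.xRep_some]
    generalize W.map (algebraMap K L) = V at *
    unfold ph
    simp only [WeierstrassCurve.b₂, WeierstrassCurve.b₄, WeierstrassCurve.b₆, Matrix.cons_val_zero, Matrix.cons_val_one,
      Algebra.algebraMap_self, RingHom.id_apply]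
    linear_combination (-4 : L) * hN

/-- From `dup_xRep`: `dup W P.xRep 1 = ph W P.xRep` is `γ * (2 • P).xRep 1`. -/
theorem ph_xRep_ne_zero (P : V.toAffine.Point) (h : 2 • P ≠ 0) : ph W P.xRep ≠ 0 := by
  obtain ⟨γ, hγ, h'⟩ := dup_xRep W V hV P
  have h1 : ph W P.xRep = γ * (2 • P).xRep 1 := congrFun h' 1
  rw [h1, xRep_one h, mul_one]
  exact hγ

end

/-- Over an algebraically closed field every `x` is the x-coordinate of an affine point. -/
theorem exists_affine_point {F : Type*} [Field F] [IsAlgClosed F] (V : WeierstrassCurve F)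
    [V.IsElliptic] (x : F) : ∃ P : V.toAffine.Point, P ≠ 0 ∧ P.xRep = ![x, 1] := by
  have hne : (![x, 1] : Fin 2 → F) ≠ 0 := by
    intro h
    have h1 := congrFun h 1
    simp at h1
  obtain ⟨Q, c, hc, h⟩ := exists_point V ![x, 1] hne
  have h1 : (1 : F) = c * Q.xRep 1 := congrFun h 1
  have hQ : Q ≠ 0 := by
    rintro rfl
    rw [xRep_zero] at h1
    simp at h1
  rw [xRep_one hQ, mul_one] at h1
  refine ⟨Q, hQ, ?_⟩
  rw [h, ← h1, one_smul]

/-- For `K = L` the map of `algebraMap` is the identity. -/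
theorem map_self {K : Type*} [Field K] (W : WeierstrassCurve K) : W.map (algebraMap K K) = W := by
  rw [Algebra.algebraMap_self]
  exact W.map_id

end Pool.Agent.Lib.MP_17a322_nt.VJ
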