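import Pool.Agent.Lib.MP_17a322_nt.VJ.E2
import Pool.Agent.Lib.MP_17a322_nt.VJ.E4

/-!
Local estimates at one absolute value `v` of an extension `L` of `K`.
-/

universe u

namespace Pool.Agent.Lib.MP_17a322_nt.VJ

open MvPolynomial Height
open Pool.Agent.Lib.MP_17a322_nt.RO

section

variable {K : Type*} [Field K] (W : WeierstrassCurve K) {L : Type*} [Field L] [Algebra K L]

theorem E5_mc00 : MvPolynomial.map (algebraMap K L) (WeierstrassCurve.addSubMapCoeff W (0, 0)) =
    WeierstrassCurve.addSubMapCoeff (W.map (algebraMap K L)) (0, 0) := by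
  simp only [WeierstrassCurve.addSubMapCoeff, WeierstrassCurve.map_b₂, WeierstrassCurve.map_b₄,
    WeierstrassCurve.map_b₆, WeierstrassCurve.map_b₈, Function.uncurry_apply_pair, Fin.isValue,
    Matrix.cons_val', Matrix.cons_val_zero, Matrix.cons_val_fin_one,
    Matrix.cons_val_one, Fin.reduceFinMk, Matrix.cons_val, map_add, map_mul,
    MvPolynomial.map_C, MvPolynomial.map_X, map_pow, map_neg, map_sub, map_ofNat]

theorem E5_mc01 : MvPolynomial.map (algebraMap K L) (WeierstrassCurve.addSubMapCoeff W (0, 1)) =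
    WeierstrassCurve.addSubMapCoeff (W.map (algebraMap K L)) (0, 1) := by
  simp only [WeierstrassCurve.addSubMapCoeff, WeierstrassCurve.map_b₂, WeierstrassCurve.map_b₄,
    WeierstrassCurve.map_b₆, WeierstrassCurve.map_b₈, Function.uncurry_apply_pair, Fin.isValue,
    Matrix.cons_val', Matrix.cons_val_zero, Matrix.cons_val_fin_one,
    Matrix.cons_val_one, Fin.reduceFinMk, Matrix.cons_val, map_add, map_mul,
    MvPolynomial.map_C, MvPolynomial.map_X, map_pow, map_neg, map_sub, map_ofNat]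

theorem E5_mc02 : MvPolynomial.map (algebraMap K L) (WeierstrassCurve.addSubMapCoeff W (0, 2)) =
    WeierstrassCurve.addSubMapCoeff (W.map (algebraMap K L)) (0, 2) := by
  simp only [WeierstrassCurve.addSubMapCoeff, WeierstrassCurve.map_b₂, WeierstrassCurve.map_b₄,
    WeierstrassCurve.map_b₆, WeierstrassCurve.map_b₈, Function.uncurry_apply_pair, Fin.isValue,
    Matrix.cons_val', Matrix.cons_val_zero, Matrix.cons_val_fin_one,
    Matrix.cons_val_one, Fin.reduceFinMk, Matrix.cons_val, map_add, map_mul,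
    MvPolynomial.map_C, MvPolynomial.map_X, map_pow, map_neg, map_sub, map_ofNat]

theorem E5_mc10 : MvPolynomial.map (algebraMap K L) (WeierstrassCurve.addSubMapCoeff W (1, 0)) =
    WeierstrassCurve.addSubMapCoeff (W.map (algebraMap K L)) (1, 0) := by
  simp only [WeierstrassCurve.addSubMapCoeff, WeierstrassCurve.map_b₂, WeierstrassCurve.map_b₄,
    WeierstrassCurve.map_b₆, WeierstrassCurve.map_b₈, Function.uncurry_apply_pair, Fin.isValue,
    Matrix.cons_val', Matrix.cons_val_zero, Matrix.cons_val_fin_one,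
    Matrix.cons_val_one, Fin.reduceFinMk, Matrix.cons_val, map_add, map_mul,
    MvPolynomial.map_C, MvPolynomial.map_X, map_pow, map_neg, map_sub, map_ofNat]

theorem E5_mc11 : MvPolynomial.map (algebraMap K L) (WeierstrassCurve.addSubMapCoeff W (1, 1)) =
    WeierstrassCurve.addSubMapCoeff (W.map (algebraMap K L)) (1, 1) := by
  simp only [WeierstrassCurve.addSubMapCoeff, WeierstrassCurve.map_b₂, WeierstrassCurve.map_b₄,
    WeierstrassCurve.map_b₆, WeierstrassCurve.map_b₈, Function.uncurry_apply_pair, Fin.isValue,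
    Matrix.cons_val', Matrix.cons_val_zero, Matrix.cons_val_fin_one,
    Matrix.cons_val_one, Fin.reduceFinMk, Matrix.cons_val, map_add, map_mul,
    MvPolynomial.map_C, MvPolynomial.map_X, map_pow, map_neg, map_sub, map_ofNat]

theorem E5_mc12 : MvPolynomial.map (algebraMap K L) (WeierstrassCurve.addSubMapCoeff W (1, 2)) =
    WeierstrassCurve.addSubMapCoeff (W.map (algebraMap K L)) (1, 2) := by
  simp only [WeierstrassCurve.addSubMapCoeff, WeierstrassCurve.map_b₂, WeierstrassCurve.map_b₄,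
    WeierstrassCurve.map_b₆, WeierstrassCurve.map_b₈, Function.uncurry_apply_pair, Fin.isValue,
    Matrix.cons_val', Matrix.cons_val_zero, Matrix.cons_val_fin_one,
    Matrix.cons_val_one, Fin.reduceFinMk, Matrix.cons_val, map_add, map_mul,
    MvPolynomial.map_C, MvPolynomial.map_X, map_pow, map_neg, map_sub, map_ofNat]

theorem E5_mc20 : MvPolynomial.map (algebraMap K L) (WeierstrassCurve.addSubMapCoeff W (2, 0)) =
    WeierstrassCurve.addSubMapCoeff (W.map (algebraMap K L)) (2, 0) := by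
  simp only [WeierstrassCurve.addSubMapCoeff, WeierstrassCurve.map_b₂, WeierstrassCurve.map_b₄,
    WeierstrassCurve.map_b₆, WeierstrassCurve.map_b₈, Function.uncurry_apply_pair, Fin.isValue,
    Matrix.cons_val', Matrix.cons_val_zero, Matrix.cons_val_fin_one,
    Matrix.cons_val_one, Fin.reduceFinMk, Matrix.cons_val, map_add, map_mul,
    MvPolynomial.map_C, MvPolynomial.map_X, map_pow, map_neg, map_sub, map_ofNat]

theorem E5_mc21 : MvPolynomial.map (algebraMap K L) (WeierstrassCurve.addSubMapCoeff W (2, 1)) =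
    WeierstrassCurve.addSubMapCoeff (W.map (algebraMap K L)) (2, 1) := by
  simp only [WeierstrassCurve.addSubMapCoeff, WeierstrassCurve.map_b₂, WeierstrassCurve.map_b₄,
    WeierstrassCurve.map_b₆, WeierstrassCurve.map_b₈, Function.uncurry_apply_pair, Fin.isValue,
    Matrix.cons_val', Matrix.cons_val_zero, Matrix.cons_val_fin_one,
    Matrix.cons_val_one, Fin.reduceFinMk, Matrix.cons_val, map_add, map_mul,
    MvPolynomial.map_C, MvPolynomial.map_X, map_pow, map_neg, map_sub, map_ofNat]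

theorem E5_mc22 : MvPolynomial.map (algebraMap K L) (WeierstrassCurve.addSubMapCoeff W (2, 2)) =
    WeierstrassCurve.addSubMapCoeff (W.map (algebraMap K L)) (2, 2) := by
  simp only [WeierstrassCurve.addSubMapCoeff, WeierstrassCurve.map_b₂, WeierstrassCurve.map_b₄,
    WeierstrassCurve.map_b₆, WeierstrassCurve.map_b₈, Function.uncurry_apply_pair, Fin.isValue,
    Matrix.cons_val', Matrix.cons_val_zero, Matrix.cons_val_fin_one,
    Matrix.cons_val_one, Fin.reduceFinMk, Matrix.cons_val, map_add, map_mul,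
    MvPolynomial.map_C, MvPolynomial.map_X, map_pow, map_neg, map_sub, map_ofNat]

end

/-- The coefficient polynomials commute with base change. -/
theorem E5_map_coeff {K : Type*} [Field K] (W : WeierstrassCurve K) {L : Type*} [Field L]
    [Algebra K L] (ij : Fin 3 × Fin 3) :
    MvPolynomial.map (algebraMap K L) (WeierstrassCurve.addSubMapCoeff W ij) =
      WeierstrassCurve.addSubMapCoeff (W.map (algebraMap K L)) ij := by
  fin_cases ij
  · exact E5_mc00 W
  · exact E5_mc01 W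
  · exact E5_mc02 W
  · exact E5_mc10 W
  · exact E5_mc11 W
  · exact E5_mc12 W
  · exact E5_mc20 W
  · exact E5_mc21 W
  · exact E5_mc22 W

/-- The condition of Mathlib for the curve over `K` at a vector over `L`. -/
theorem E5_condition {K : Type*} [Field K] (W : WeierstrassCurve K) [W.IsElliptic]
    {L : Type*} [Field L] [Algebra K L] (x : Fin 3 → L) (i : Fin 3) :
    ∑ j : Fin 3, eval x (MvPolynomial.map (algebraMap K L)
      (C W.Δ⁻¹ * WeierstrassCurve.addSubMapCoeff W (i, j))) *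
        aeval x (WeierstrassCurve.addSubMap W j) = x i ^ 4 := by
  rw [← WeierstrassCurve.addSubMapCoeff_condition (W.map (algebraMap K L)) x i]
  refine Finset.sum_congr rfl fun j _ => ?_
  have h1 : MvPolynomial.map (algebraMap K L)
      (C W.Δ⁻¹ * WeierstrassCurve.addSubMapCoeff W (i, j)) =
      C ((↑(W.map (algebraMap K L)).Δ'⁻¹ : L)) *
        WeierstrassCurve.addSubMapCoeff (W.map (algebraMap K L)) (i, j) := by
    rw [map_mul, MvPolynomial.map_C, E5_map_coeff, Units.val_inv_eq_inv_val,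
      WeierstrassCurve.coe_Δ', WeierstrassCurve.map_Δ, map_inv₀]
  have h2 : aeval x (WeierstrassCurve.addSubMap W j) =
      eval x (WeierstrassCurve.addSubMap (W.map (algebraMap K L)) j) := by
    have h3 : MvPolynomial.map (algebraMap K L) (WeierstrassCurve.addSubMap W j) =
        WeierstrassCurve.addSubMap (W.map (algebraMap K L)) j := by
      fin_cases j <;> simp [WeierstrassCurve.addSubMap, map_ofNat (algebraMap K L)]
    rw [← h3, eval_map, aeval_def]
  rw [h1, h2]

section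

variable {L : Type*} [Field L] (v : AbsoluteValue L ℝ)

theorem vn_nonneg (R : Fin 2 → L) : 0 ≤ vn v R :=
  le_max_of_le_left (v.nonneg _)

theorem vn_pos {R : Fin 2 → L} (h : R ≠ 0) : 0 < vn v R := by
  by_contra hc
  apply h
  have hc' : vn v R ≤ 0 := not_lt.1 hc
  have h0 : v (R 0) ≤ 0 := (le_max_left _ _).trans hc'
  have h1 : v (R 1) ≤ 0 := (le_max_right _ _).trans hc'
  have h0' : R 0 = 0 := (v.eq_zero).1 (le_antisymm h0 (v.nonneg _))
  have h1' : R 1 = 0 := (v.eq_zero).1 (le_antisymm h1 (v.nonneg _))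
  funext i
  fin_cases i
  · exact h0'
  · exact h1'

theorem vn_smul (c : L) (R : Fin 2 → L) : vn v (c • R) = v c * vn v R := by
  unfold vn
  rw [Pi.smul_apply, Pi.smul_apply, smul_eq_mul, smul_eq_mul, map_mul, map_mul,
    mul_max_of_nonneg _ _ (v.nonneg c)]

theorem le_vn (R : Fin 2 → L) (i : Fin 2) : v (R i) ≤ vn v R := by
  fin_cases i
  · exact le_max_left _ _
  · exact le_max_right _ _

theorem vn_xRep {V : WeierstrassCurve L} {P : V.toAffine.Point} (hP : P ≠ 0) :
    vn v P.xRep = max (v (P.xRep 0)) 1 := by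
  unfold vn
  rw [xRep_one hP, map_one]

theorem one_le_vn_xRep {V : WeierstrassCurve L} (P : V.toAffine.Point) : 1 ≤ vn v P.xRep := by
  by_cases hP : P = 0
  · subst hP
    rw [xRep_zero]
    refine le_max_of_le_left ?_
    simp
  · rw [vn_xRep v hP]
    exact le_max_right _ _

theorem wd_le (R Q : Fin 2 → L) : v (wd R Q) ≤ cst v 2 * (vn v R * vn v Q) := by
  unfold wd
  have h1 : v (R 0 * Q 1) ≤ vn v R * vn v Q := by
    rw [map_mul]
    exact mul_le_mul (le_vn v R 0) (le_vn v Q 1) (v.nonneg _) (vn_nonneg v R)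
  have h2 : v (R 1 * Q 0) ≤ vn v R * vn v Q := by
    rw [map_mul]
    exact mul_le_mul (le_vn v R 1) (le_vn v Q 0) (v.nonneg _) (vn_nonneg v R)
  exact SN.sub_le_cst (SN_self v) h1 h2

/-- One product. -/
theorem E5_prod_le {B m : ℝ} {a b F0 F1 : L} (hB0 : 0 ≤ B) (h0 : v F0 ≤ B) (h1 : v F1 ≤ B)
    (hb : v b ≤ m) (ha : v a = m) (h : a ^ 2 = F1 * a - F0 * b) : m ≤ cst v 2 * B := by
  have hm : 0 ≤ m := ha ▸ v.nonneg a
  have h3 : v (F1 * a) ≤ B * m := by
    rw [map_mul, ha]
    exact mul_le_mul_of_nonneg_right h1 hm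
  have h4 : v (F0 * b) ≤ B * m := by
    rw [map_mul]
    exact mul_le_mul h0 hb (v.nonneg _) hB0
  have h5 : m ^ 2 ≤ cst v 2 * (B * m) := by
    have h6 : v (F1 * a - F0 * b) ≤ cst v 2 * (B * m) :=
      SN.sub_le_cst (SN_self v) h3 h4
    rw [← h, map_pow, ha] at h6
    exact h6
  rcases hm.eq_or_lt with hm0 | hm0
  · rw [← hm0]
    exact mul_nonneg (cst_nonneg v 2) hB0
  · have h7 : m * m ≤ (cst v 2 * B) * m := by nlinarith
    exact le_of_mul_le_mul_right h7 hm0

/-- Gelfond's inequality for two linear forms.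
Proof. Let `i`, `j` be such that `m := v (p i * p' j)` is the largest of the four products. With
`F = sq2 p p'`: the squares of the four products are `F 0 * (p 0 p' 0)`, `F 2 * (p 1 p' 1)`,
`(p 0 p' 1)^2 = F 1 * (p 0 p' 1) - F 0 * (p 1 p' 1)`, `(p 1 p' 0)^2 = F 1 * (p 1 p' 0) - F 0 * (p 1 p' 1)`.
So `m ^ 2 ≤ cst v 2 * B * m`. -/
theorem vn_mul_vn_le (p p' : Fin 2 → L) {B : ℝ} (hB : ∀ i, v (sq2 p p' i) ≤ B) :
    vn v p * vn v p' ≤ cst v 2 * B := by
  have hB0 : 0 ≤ B := (v.nonneg _).trans (hB 0)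
  have h0 : v (p 0 * p' 0) ≤ B := hB 0
  have h1 : v (p 0 * p' 1 + p 1 * p' 0) ≤ B := hB 1
  have h2 : v (p 1 * p' 1) ≤ B := hB 2
  have hcB : B ≤ cst v 2 * B := by
    have := one_le_cst v (n := 2) (by norm_num)
    nlinarith
  have hle : ∀ i j, v (p i * p' j) ≤ vn v p * vn v p' := fun i j => by
    rw [map_mul]
    exact mul_le_mul (le_vn v p i) (le_vn v p' j) (v.nonneg _) (vn_nonneg v p)
  have hp : vn v p = v (p 0) ∨ vn v p = v (p 1) := max_choice _ _
  have hp' : vn v p' = v (p' 0) ∨ vn v p' = v (p' 1) := max_choice _ _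
  rcases hp with hp | hp <;> rcases hp' with hp' | hp'
  · rw [hp, hp', ← map_mul]
    exact h0.trans hcB
  · refine E5_prod_le v (a := p 0 * p' 1) (b := p 1 * p' 1) (F0 := p 0 * p' 0)
      (F1 := p 0 * p' 1 + p 1 * p' 0) hB0 h0 h1 (hle 1 1) ?_ ?_
    · rw [map_mul, hp, hp']
    · ring
  · refine E5_prod_le v (a := p 1 * p' 0) (b := p 1 * p' 1) (F0 := p 0 * p' 0)
      (F1 := p 0 * p' 1 + p 1 * p' 0) hB0 h0 h1 (hle 1 1) ?_ ?_
    · rw [map_mul, hp, hp']
    · ring
  · rw [hp, hp', ← map_mul]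
    exact h2.trans hcB

/-- Values of a quadratic form. -/
theorem E5_hom_le (q : MvPolynomial (Fin 3) L) (hq : q.IsHomogeneous 2) (s : Fin 3 → L) {M : ℝ}
    (hM : ∀ i, v (s i) ≤ M) : v (eval s q) ≤ NV v q * M ^ 2 := by
  have hM0 : 0 ≤ M := (v.nonneg _).trans (hM 0)
  have hterm : ∀ d ∈ q.support, v (coeff d q * ∏ i, s i ^ d i) ≤ v (coeff d q) * M ^ 2 := by
    intro d hd
    rw [map_mul]
    refine mul_le_mul_of_nonneg_left ?_ (v.nonneg _)
    rw [map_prod]
    have h1 : ∏ i, v (s i ^ d i) ≤ ∏ i, M ^ d i := by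
      refine Finset.prod_le_prod (fun i _ => v.nonneg _) fun i _ => ?_
      rw [map_pow]
      exact pow_le_pow_left₀ (v.nonneg _) (hM i) _
    refine h1.trans ?_
    rw [Finset.prod_pow_eq_pow_sum]
    have h2 : ∑ i, d i = 2 := by
      have h3 := hq (mem_support_iff.1 hd)
      rw [Finsupp.weight_apply, Finsupp.sum_fintype _ _ (by simp)] at h3
      simpa using h3
    rw [h2]
  have hS := SN_self v
  rw [eval_eq']
  by_cases hv : IsNonarchimedean v
  · refine SN.sum_le_max hv hS _ _ ?_ fun d hd => (hterm d hd).trans ?_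
    · exact mul_nonneg ((v.nonneg _).trans (coeff_le_NV v q 0)) (sq_nonneg _)
    · exact mul_le_mul_of_nonneg_right (coeff_le_NV v q d) (sq_nonneg _)
  · refine (SN.sum_le_sum hS _ _).trans ((Finset.sum_le_sum hterm).trans ?_)
    unfold NV
    rw [if_neg hv, Finset.sum_mul]

end

section

variable {K : Type*} [Field K] (W : WeierstrassCurve K) {L : Type*} [Field L] [Algebra K L]
  (v : AbsoluteValue L ℝ)

/-- `SV_size` (E2) for the seminorm `SN_self v` on `L`. -/
theorem SV_le (R Q : Fin 2 → L) (i : Fin 3) :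
    v (SV W R Q i) ≤ lc W v ^ 16 * (vn v R * vn v Q) ^ 2 :=
  SV_size W (SN_self v) R Q (le_vn v R) (le_vn v Q) i

theorem mu_le (j : ℕ) (R : Fin 2 → L) :
    vn v (mu W j R) ≤ lc W v ^ (16 * 4 ^ j) * vn v R ^ (4 ^ j) :=
  max_le (mu_size W (SN_self v) j R (le_vn v R) 0) (mu_size W (SN_self v) j R (le_vn v R) 1)

/-- Lower bound for the map `addSubMap`.
Proof. Let `s = sq2 R Q` and let `k` be such that `v (s k)` is maximal. By
`WeierstrassCurve.addSubMapCoeff_condition` for `W` over `K`, mapped to `L` (an identity of polynomials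
`∑_j q_{kj} F_j = X_k ^ 4` over `K`; or apply the lemma to `W.map (algebraMap K L)`, and then the
coefficients are the images), `(s k)^4 = ∑_j q_{kj}(s) * SV W R Q j`, with
`v (q_{kj}(s)) ≤ NV v (map q_{kj}) * (max ..)^2`: here use homogeneity (degree 2):
`v (q(s)) ≤ NV v q * (v (s k)) ^ 2` (all monomials have degree `2`, `v (s i) ≤ v (s k)`). So
`v (s k) ^ 2 ≤ cst v 3 * lc * B`. And `vn R * vn Q ≤ cst v 2 * v (s k)` (`vn_mul_vn_le`). -/
theorem le_SV [W.IsElliptic] (R Q : Fin 2 → L) {B : ℝ} (hB : ∀ i, v (SV W R Q i) ≤ B) :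
    (vn v R * vn v Q) ^ 2 ≤ lc W v ^ 8 * B := by
  have hB0 : 0 ≤ B := (v.nonneg _).trans (hB 0)
  obtain ⟨k, -, hk⟩ := Finset.exists_max_image (Finset.univ : Finset (Fin 3))
    (fun i => v (sq2 R Q i)) ⟨0, Finset.mem_univ 0⟩
  have hk' : ∀ i, v (sq2 R Q i) ≤ v (sq2 R Q k) := fun i => hk i (Finset.mem_univ i)
  have hl : 1 ≤ lc W v := one_le_lc W v
  have hc := E5_condition W (sq2 R Q) k
  set s := sq2 R Q with hs
  set M := v (s k) with hM
  have hM0 : 0 ≤ M := v.nonneg _
  have hterm : ∀ j ∈ (Finset.univ : Finset (Fin 3)),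
      v (eval s (MvPolynomial.map (algebraMap K L)
        (C W.Δ⁻¹ * WeierstrassCurve.addSubMapCoeff W (k, j))) *
          aeval s (WeierstrassCurve.addSubMap W j)) ≤ lc W v * M ^ 2 * B := by
    intro j _
    rw [map_mul]
    have h1 : v (eval s (MvPolynomial.map (algebraMap K L)
        (C W.Δ⁻¹ * WeierstrassCurve.addSubMapCoeff W (k, j)))) ≤ lc W v * M ^ 2 := by
      refine (E5_hom_le v _ ?_ s hk').trans ?_
      · exact ((WeierstrassCurve.isHomogeneous_addSubMapCoeff W (k, j)).C_mul _).map _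
      · exact mul_le_mul_of_nonneg_right (NV_coeff_le_lc W v (k, j)) (sq_nonneg _)
    exact mul_le_mul h1 (hB j) (v.nonneg _) (by positivity)
  have h4 : M ^ 4 ≤ cst v 3 * (lc W v * M ^ 2 * B) := by
    have := SN.sum_le (SN_self v) (Finset.univ : Finset (Fin 3)) _ (by positivity) hterm
    rw [hc, Finset.card_univ, Fintype.card_fin, map_pow] at this
    exact this
  have hc3 : cst v 3 ≤ lc W v ^ 3 := cst_le_lc_pow W v 3 (by norm_num)
  have h2 : M ^ 2 ≤ lc W v ^ 4 * B := by
    rcases hM0.eq_or_lt with hM1 | hM1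
    · rw [← hM1]
      have : 0 ≤ lc W v ^ 4 * B := by positivity
      simpa using this
    · have h5 : M ^ 2 * M ^ 2 ≤ lc W v ^ 4 * B * M ^ 2 := by
        calc M ^ 2 * M ^ 2 = M ^ 4 := by ring
          _ ≤ cst v 3 * (lc W v * M ^ 2 * B) := h4
          _ ≤ lc W v ^ 3 * (lc W v * M ^ 2 * B) :=
            mul_le_mul_of_nonneg_right hc3 (by positivity)
          _ = lc W v ^ 4 * B * M ^ 2 := by ring
      exact le_of_mul_le_mul_right h5 (by positivity)
  have hG : vn v R * vn v Q ≤ cst v 2 * M := vn_mul_vn_le v R Q hk'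
  have hn : 0 ≤ vn v R * vn v Q := mul_nonneg (vn_nonneg v R) (vn_nonneg v Q)
  have hc2 : cst v 2 ≤ lc W v := cst_two_le_lc W v
  calc (vn v R * vn v Q) ^ 2 ≤ (cst v 2 * M) ^ 2 := pow_le_pow_left₀ hn hG 2
    _ = cst v 2 ^ 2 * M ^ 2 := by ring
    _ ≤ lc W v ^ 2 * M ^ 2 :=
      mul_le_mul_of_nonneg_right (pow_le_pow_left₀ (cst_nonneg v 2) hc2 2) (by positivity)
    _ ≤ lc W v ^ 2 * (lc W v ^ 4 * B) := mul_le_mul_of_nonneg_left h2 (by positivity)
    _ = lc W v ^ 6 * B := by ring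
    _ ≤ lc W v ^ 8 * B := mul_le_mul_of_nonneg_right (lc_pow_mono W v (by norm_num)) hB0

end

section

variable {K : Type*} [Field K] (W : WeierstrassCurve K) [W.IsElliptic] {L : Type*} [Field L]
  [DecidableEq L] [Algebra K L] (V : WeierstrassCurve L) (hV : W.map (algebraMap K L) = V)
  (v : AbsoluteValue L ℝ)

include hV

/-- The main local inequality (5.4). Here `R`, `Q` are points, `p = (R + Q).xRep`,
`p' = (R - Q).xRep`, `γ` from `SV_xRep`: `wd(R, Q)^2 = SV 2 = γ p 1 p' 1` and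
`|γ| |p| |p'| ≤ cst v 2 * max |SV| ≤ cst v 2 * lc ^ 16 (|R| |Q|)^2` (`vn_mul_vn_le` for `p`, `γ p'`);
`v (p 1) ≤ 1`, `v (p' 1) ≤ |p'|`. -/
theorem local_main (R Q : V.toAffine.Point) :
    v (wd R.xRep Q.xRep) ^ 2 * vn v (R + Q).xRep ≤
      lc W v ^ 17 * (vn v R.xRep * vn v Q.xRep) ^ 2 := by
  obtain ⟨γ, -, hγ⟩ := SV_xRep W V hV R Q
  set p := (R + Q).xRep with hp
  set p' := (R - Q).xRep with hp'
  have h2 : wd R.xRep Q.xRep ^ 2 = γ * (p 1 * p' 1) := by
    rw [← SV_two W R.xRep Q.xRep, hγ 2]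
    rfl
  have hp1 : v (p 1) ≤ 1 := by
    by_cases h : R + Q = 0
    · rw [hp, h, xRep_zero]
      simp
    · rw [hp, xRep_one h, map_one]
  have hG : vn v p * vn v (γ • p') ≤
      cst v 2 * (lc W v ^ 16 * (vn v R.xRep * vn v Q.xRep) ^ 2) := by
    refine vn_mul_vn_le v p (γ • p') fun i => ?_
    have h3 : sq2 p (γ • p') i = SV W R.xRep Q.xRep i := by
      rw [hγ i]
      fin_cases i
      · change p 0 * (γ * p' 0) = γ * (p 0 * p' 0)
        ring
      · change p 0 * (γ * p' 1) + p 1 * (γ * p' 0) = γ * (p 0 * p' 1 + p 1 * p' 0)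
        ring
      · change p 1 * (γ * p' 1) = γ * (p 1 * p' 1)
        ring
    rw [h3]
    exact SV_le W v R.xRep Q.xRep i
  rw [vn_smul] at hG
  have hl : 1 ≤ lc W v := one_le_lc W v
  have hc2 : cst v 2 ≤ lc W v := cst_two_le_lc W v
  have h4 : v (wd R.xRep Q.xRep) ^ 2 ≤ v γ * vn v p' := by
    rw [← map_pow, h2, map_mul, map_mul]
    have h5 : v (p 1) * v (p' 1) ≤ 1 * vn v p' :=
      mul_le_mul hp1 (le_vn v p' 1) (v.nonneg _) zero_le_one
    rw [one_mul] at h5
    exact mul_le_mul_of_nonneg_left h5 (v.nonneg _)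
  calc v (wd R.xRep Q.xRep) ^ 2 * vn v p ≤ (v γ * vn v p') * vn v p :=
        mul_le_mul_of_nonneg_right h4 (vn_nonneg v p)
    _ = vn v p * (v γ * vn v p') := by ring
    _ ≤ cst v 2 * (lc W v ^ 16 * (vn v R.xRep * vn v Q.xRep) ^ 2) := hG
    _ ≤ lc W v * (lc W v ^ 16 * (vn v R.xRep * vn v Q.xRep) ^ 2) :=
        mul_le_mul_of_nonneg_right hc2 (by positivity)
    _ = lc W v ^ 17 * (vn v R.xRep * vn v Q.xRep) ^ 2 := by ring

/-- Lower bound (for the reduction to the origin): from `le_SV`, `SV_xRep` and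
`|γ| = |wd(R, Q)|^2` (as `p 1 = p' 1 = 1`). -/
theorem local_lower (R Q : V.toAffine.Point) (h1 : R + Q ≠ 0) (h2 : R - Q ≠ 0) :
    (vn v R.xRep * vn v Q.xRep) ^ 2 ≤
      lc W v ^ 10 * (v (wd R.xRep Q.xRep) ^ 2 * (vn v (R + Q).xRep * vn v (R - Q).xRep)) := by
  obtain ⟨γ, -, hγ⟩ := SV_xRep W V hV R Q
  have hp1 := xRep_one h1
  have hp1' := xRep_one h2
  set p := (R + Q).xRep with hp
  set p' := (R - Q).xRep with hp'
  have h3 : wd R.xRep Q.xRep ^ 2 = γ := by
    rw [← SV_two W R.xRep Q.xRep, hγ 2]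
    change γ * (p 1 * p' 1) = γ
    rw [hp1, hp1', one_mul, mul_one]
  have hl : 1 ≤ lc W v := one_le_lc W v
  have hc2 : cst v 2 ≤ lc W v := cst_two_le_lc W v
  have hn : 0 ≤ vn v p * vn v p' := mul_nonneg (vn_nonneg v p) (vn_nonneg v p')
  have hB : ∀ i, v (SV W R.xRep Q.xRep i) ≤
      v (wd R.xRep Q.xRep) ^ 2 * (lc W v * (vn v p * vn v p')) := by
    intro i
    rw [hγ i, map_mul, ← map_pow, h3]
    refine mul_le_mul_of_nonneg_left ?_ (v.nonneg _)
    have h5 : v (sq2 p p' i) ≤ cst v 2 * (vn v p * vn v p') :=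
      sq2_size (SN_self v) p p' (le_vn v p) (le_vn v p') i
    exact h5.trans (mul_le_mul_of_nonneg_right hc2 hn)
  have h6 := le_SV W v R.xRep Q.xRep hB
  refine h6.trans ?_
  have h7 : lc W v ^ 8 * (v (wd R.xRep Q.xRep) ^ 2 * (lc W v * (vn v p * vn v p'))) =
      lc W v ^ 9 * (v (wd R.xRep Q.xRep) ^ 2 * (vn v p * vn v p')) := by ring
  rw [h7]
  exact mul_le_mul_of_nonneg_right (lc_pow_mono W v (by norm_num))
    (mul_nonneg (sq_nonneg _) hn)

/-- The local lemma used in stage 0: `R = l z`, `Q = q`, `R + Q = P`. With `ρ = wd` divided by the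
sizes, `ρ ^ 2 ≤ lc ^ 17 / |x(P)|`. -/
theorem local_delta (R Q : V.toAffine.Point) :
    (v (wd R.xRep Q.xRep) / (vn v R.xRep * vn v Q.xRep)) ^ 2 ≤
      lc W v ^ 17 / vn v (R + Q).xRep := by
  have h := local_main W V hV v R Q
  have h1 : 0 < vn v R.xRep := lt_of_lt_of_le one_pos (one_le_vn_xRep v R)
  have h2 : 0 < vn v Q.xRep := lt_of_lt_of_le one_pos (one_le_vn_xRep v Q)
  have h3 : 0 < vn v (R + Q).xRep := lt_of_lt_of_le one_pos (one_le_vn_xRep v (R + Q))
  rw [div_pow, div_le_div_iff₀ (by positivity) h3]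
  exact h

end

end Pool.Agent.Lib.MP_17a322_nt.VJ
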