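import Pool.Agent.Lib.MP_17a322_nt.Mb

/-!
# K1: exact quadratic functions on finitely generated groups are Euclidean

A nonnegative function with the parallelogram law on a finitely generated abelian group is the square of
the Euclidean norm of a map to `ℝ ^ r` which behaves like a homomorphism.
-/

namespace Pool.Agent.Lib.MP_17a322_nt.VJ

open Filter Topology

section
variable {Γ : Type*} [AddCommGroup Γ] (q : Γ → ℝ)

theorem K1_zero (hpar : ∀ x y, q (x + y) + q (x - y) = 2 * q x + 2 * q y) : q 0 = 0 := by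
  have h := hpar 0 0
  simp only [add_zero, sub_zero] at h
  linarith

theorem K1_cube (hpar : ∀ x y, q (x + y) + q (x - y) = 2 * q x + 2 * q y) (x y z : Γ) :
    q (x + y + z) = q (x + y) + q (y + z) + q (x + z) - q x - q y - q z := by
  have h1 := hpar (x + y) z
  have h2 := hpar x (y - z)
  have h3 := hpar (x + z) y
  have h4 := hpar y z
  have e1 : x + (y - z) = x + y - z := by abel
  have e2 : x - (y - z) = x + z - y := by abel
  have e3 : x + z + y = x + y + z := by abel
  rw [e1, e2] at h2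
  rw [e3] at h3
  linarith

/-- the bilinear form -/
noncomputable def K1_bil (hpar : ∀ x y, q (x + y) + q (x - y) = 2 * q x + 2 * q y) :
    Γ →+ Γ →+ ℝ :=
  AddMonoidHom.mk' (fun x => AddMonoidHom.mk' (fun y => (q (x + y) - q x - q y) / 2) (by
    intro y z
    have h := K1_cube q hpar x y z
    have e : x + (y + z) = x + y + z := by abel
    rw [e]
    linarith)) (by
    intro x y
    ext z
    have h := K1_cube q hpar x y z
    simp only [AddMonoidHom.mk'_apply, AddMonoidHom.add_apply]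
    linarith)

theorem K1_bil_apply (hpar : ∀ x y, q (x + y) + q (x - y) = 2 * q x + 2 * q y) (x y : Γ) :
    K1_bil q hpar x y = (q (x + y) - q x - q y) / 2 := rfl

theorem K1_bil_self (hpar : ∀ x y, q (x + y) + q (x - y) = 2 * q x + 2 * q y) (x : Γ) :
    K1_bil q hpar x x = q x := by
  have h := hpar x x
  rw [sub_self, K1_zero q hpar] at h
  rw [K1_bil_apply]
  linarith

theorem K1_bil_symm (hpar : ∀ x y, q (x + y) + q (x - y) = 2 * q x + 2 * q y) (x y : Γ) :
    K1_bil q hpar x y = K1_bil q hpar y x := by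
  rw [K1_bil_apply, K1_bil_apply, add_comm x y]
  ring

theorem K1_sum (hpar : ∀ x y, q (x + y) + q (x - y) = 2 * q x + 2 * q y) {r : ℕ} (g : Fin r → Γ)
    (c : Fin r → ℤ) :
    q (∑ i, c i • g i) = ∑ i, ∑ j, (c i : ℝ) * ((c j : ℝ) * K1_bil q hpar (g i) (g j)) := by
  have h1 : ∀ x y : Γ, K1_bil q hpar x y = (K1_bil q hpar).flip y x := fun _ _ => rfl
  rw [← K1_bil_self q hpar, h1, map_sum]
  refine Finset.sum_congr rfl fun i _ => ?_
  rw [map_zsmul, ← h1, map_sum, zsmul_eq_mul, Finset.mul_sum]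
  refine Finset.sum_congr rfl fun j _ => ?_
  rw [map_zsmul, zsmul_eq_mul]

end

open scoped MatrixOrder in
theorem exists_euclid {Γ : Type*} [AddCommGroup Γ] [AddGroup.FG Γ] (q : Γ → ℝ)
    (hq0 : ∀ x, 0 ≤ q x) (hpar : ∀ x y, q (x + y) + q (x - y) = 2 * q x + 2 * q y) :
    ∃ (r : ℕ) (φ : Γ → EuclideanSpace ℝ (Fin r)), ∀ (P P' : Γ) (n : ℤ),
      q (P - n • P') = ‖φ P - (n : ℝ) • φ P'‖ ^ 2 := by
  classical
  have : Module.Finite ℤ Γ := Module.Finite.iff_addGroup_fg.mpr inferInstance
  obtain ⟨r, g, hg⟩ := Module.Finite.exists_fin (R := ℤ) (M := Γ)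
  have hc : ∀ x : Γ, ∃ c : Fin r → ℤ, ∑ i, c i • g i = x := by
    intro x
    have : x ∈ Submodule.span ℤ (Set.range g) := by rw [hg]; trivial
    exact (Submodule.mem_span_range_iff_exists_fun ℤ).mp this
  choose c hc using hc
  obtain ⟨A, hA⟩ : ∃ A : Matrix (Fin r) (Fin r) ℝ,
      A = Matrix.of fun i j => K1_bil q hpar (g i) (g j) := ⟨_, rfl⟩
  have hAq : ∀ y : Fin r → ℝ, y ⬝ᵥ A.mulVec y =
      ∑ i, ∑ j, y i * (y j * K1_bil q hpar (g i) (g j)) := by
    intro y
    simp only [dotProduct, Matrix.mulVec, hA, Matrix.of_apply, Finset.mul_sum]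
    refine Finset.sum_congr rfl fun i _ => Finset.sum_congr rfl fun j _ => ?_
    ring
  have hcont : Continuous fun y : Fin r → ℝ =>
      ∑ i, ∑ j, y i * (y j * K1_bil q hpar (g i) (g j)) := by
    fun_prop
  have hpsd : A.PosSemidef := by
    refine Matrix.PosSemidef.of_dotProduct_mulVec_nonneg ?_ ?_
    · ext i j
      simp only [Matrix.conjTranspose_apply, hA, Matrix.of_apply, star_trivial]
      exact K1_bil_symm q hpar _ _
    · intro y
      rw [star_trivial, hAq]
      -- approximation by rational vectors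
      have hlim : Tendsto (fun n : ℕ => fun i => ((⌊(n : ℝ) * y i⌋ : ℤ) : ℝ) / n) atTop (𝓝 y) := by
        rw [tendsto_pi_nhds]
        intro i
        have h1 : Tendsto (fun n : ℕ => y i - 1 / (n : ℝ)) atTop (𝓝 (y i)) := by
          simpa using (tendsto_const_nhds (x := y i)).sub (tendsto_one_div_atTop_nhds_zero_nat (𝕜 := ℝ))
        have h2 : Tendsto (fun _ : ℕ => y i) atTop (𝓝 (y i)) := tendsto_const_nhds
        refine tendsto_of_tendsto_of_tendsto_of_le_of_le' h1 h2 ?_ ?_
        · filter_upwards [eventually_gt_atTop 0] with n hn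
          have hn' : (0 : ℝ) < n := by exact_mod_cast hn
          rw [le_div_iff₀ hn', sub_mul, one_div, inv_mul_cancel₀ hn'.ne']
          have := Int.sub_one_lt_floor ((n : ℝ) * y i)
          linarith
        · filter_upwards [eventually_gt_atTop 0] with n hn
          have hn' : (0 : ℝ) < n := by exact_mod_cast hn
          rw [div_le_iff₀ hn']
          have := Int.floor_le ((n : ℝ) * y i)
          linarith
      refine ge_of_tendsto' ((hcont.tendsto y).comp hlim) ?_
      intro n
      have h1 := hq0 (∑ i, (⌊(n : ℝ) * y i⌋ : ℤ) • g i)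
      rw [K1_sum q hpar] at h1
      have h2 : (∑ i, ∑ j, (((⌊(n : ℝ) * y i⌋ : ℤ) : ℝ) / n) * ((((⌊(n : ℝ) * y j⌋ : ℤ) : ℝ) / n) *
          K1_bil q hpar (g i) (g j))) = (∑ i, ∑ j, ((⌊(n : ℝ) * y i⌋ : ℤ) : ℝ) *
          (((⌊(n : ℝ) * y j⌋ : ℤ) : ℝ) * K1_bil q hpar (g i) (g j))) / (n : ℝ) ^ 2 := by
        rw [Finset.sum_div]
        refine Finset.sum_congr rfl fun i _ => ?_
        rw [Finset.sum_div]
        refine Finset.sum_congr rfl fun j _ => ?_
        rcases Nat.eq_zero_or_pos n with h | h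
        · subst h; simp
        · have hn' : (n : ℝ) ≠ 0 := by exact_mod_cast h.ne'
          field_simp
      simp only [Function.comp_apply]
      rw [h2]
      positivity
  obtain ⟨B, hB⟩ := CStarAlgebra.nonneg_iff_eq_star_mul_self.mp hpsd.nonneg
  refine ⟨r, fun P => WithLp.toLp 2 (B.mulVec fun i => (c P i : ℝ)), ?_⟩
  intro P P' n
  have e1 : P - n • P' = ∑ i, (c P i - n * c P' i) • g i := by
    conv_lhs => rw [← hc P, ← hc P']
    rw [Finset.smul_sum, ← Finset.sum_sub_distrib]
    refine Finset.sum_congr rfl fun i _ => ?_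
    rw [sub_smul, mul_smul]
  have e2 : (WithLp.toLp 2 (B.mulVec fun i => (c P i : ℝ)) : EuclideanSpace ℝ (Fin r)) -
      (n : ℝ) • WithLp.toLp 2 (B.mulVec fun i => (c P' i : ℝ)) =
      WithLp.toLp 2 (B.mulVec fun i => ((c P i - n * c P' i : ℤ) : ℝ)) := by
    rw [← WithLp.toLp_smul, ← WithLp.toLp_sub, ← Matrix.mulVec_smul, ← Matrix.mulVec_sub]
    congr 2
    ext i
    simp
  rw [e1, e2, K1_sum q hpar, ← hAq, hB, EuclideanSpace.norm_sq_eq, ← Matrix.mulVec_mulVec,
    Matrix.dotProduct_mulVec, Matrix.star_eq_conjTranspose, Matrix.vecMul_conjTranspose]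
  simp only [star_trivial, dotProduct, Real.norm_eq_abs, sq_abs]
  refine Finset.sum_congr rfl fun i _ => ?_
  ring

end Pool.Agent.Lib.MP_17a322_nt.VJ
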