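import Pool.Agent.Lib.MP_17a322_nt.Mb

/-!
# K2: pigeonhole for sequences in Euclidean space

A sequence with norms tending to infinity has a subsequence in which any later vector is, up to a
small relative error, a power of `2` times any earlier one.
-/

namespace Pool.Agent.Lib.MP_17a322_nt.VJ

open Filter Topology

theorem K2_floor {x : ℝ} (hx : 0 < x) :
    1 ≤ x / 2 ^ (⌊Real.logb 2 x⌋ : ℤ) ∧ x / 2 ^ (⌊Real.logb 2 x⌋ : ℤ) ≤ 2 := by
  have h2 : (1 : ℝ) < 2 := one_lt_two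
  have e : x = (2 : ℝ) ^ (Real.logb 2 x) := (Real.rpow_logb (by norm_num) (by norm_num) hx).symm
  have hpos : (0 : ℝ) < 2 ^ (⌊Real.logb 2 x⌋ : ℤ) := by positivity
  constructor
  · rw [le_div_iff₀ hpos, one_mul, ← Real.rpow_intCast]
    conv_rhs => rw [e]
    exact Real.rpow_le_rpow_of_exponent_le h2.le (Int.floor_le _)
  · rw [div_le_iff₀ hpos]
    have h3 : x ≤ (2 : ℝ) ^ ((⌊Real.logb 2 x⌋ : ℝ) + 1) := by
      conv_lhs => rw [e]
      exact Real.rpow_le_rpow_of_exponent_le h2.le (Int.lt_floor_add_one _).le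
    rw [Real.rpow_add (by norm_num), Real.rpow_one, Real.rpow_intCast] at h3
    linarith

theorem K2_seq {r : ℕ} (v : ℕ → EuclideanSpace ℝ (Fin r))
    (hv : Tendsto (fun n => ‖v n‖) atTop atTop) {η : ℝ} (hη : 0 < η) (R : ℕ) (H₀ : ℝ) :
    ∃ φ j : ℕ → ℕ, StrictMono φ ∧ StrictMono j ∧ j 0 = 0 ∧ (∀ i, H₀ ≤ ‖v (φ i)‖) ∧
      (∀ i i', i < i' → R * 4 ^ j i ≤ 4 ^ j i') ∧
      ∀ i i', i ≤ i' → ‖v (φ i') - (2 : ℝ) ^ (j i' - j i) • v (φ i)‖ ^ 2 ≤ η * ‖v (φ i')‖ ^ 2 ∧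
        |‖v (φ i')‖ ^ 2 - 4 ^ (j i' - j i) * ‖v (φ i)‖ ^ 2| ≤ η * ‖v (φ i')‖ ^ 2 := by
  obtain ⟨δ, hδ0, hδ1, hδη⟩ : ∃ δ : ℝ, 0 < δ ∧ δ ≤ 1 ∧ 4 * δ ≤ η :=
    ⟨min 1 (η / 4), by positivity, min_le_left _ _, by
      have := min_le_right 1 (η / 4)
      linarith⟩
  -- the data
  obtain ⟨k, hk⟩ : ∃ k : ℕ → ℤ, ∀ n, k n = ⌊Real.logb 2 ‖v n‖⌋ := ⟨_, fun _ => rfl⟩
  obtain ⟨u, hu⟩ : ∃ u : ℕ → EuclideanSpace ℝ (Fin r), ∀ n, u n = ‖v n‖⁻¹ • v n :=
    ⟨_, fun _ => rfl⟩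
  obtain ⟨g, hg⟩ : ∃ g : ℕ → ℝ, ∀ n, g n = ‖v n‖ / 2 ^ (k n) := ⟨_, fun _ => rfl⟩
  have hcpt : IsCompact ((Metric.closedBall (0 : EuclideanSpace ℝ (Fin r)) 1) ×ˢ
      (Set.Icc (0 : ℝ) 2)) := (isCompact_closedBall _ _).prod isCompact_Icc
  have hmem : ∀ n, (u n, g n) ∈ (Metric.closedBall (0 : EuclideanSpace ℝ (Fin r)) 1) ×ˢ
      (Set.Icc (0 : ℝ) 2) := by
    intro n
    refine ⟨?_, ?_, ?_⟩
    · simp only [mem_closedBall_zero_iff, hu, norm_smul, norm_inv, norm_norm]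
      rcases eq_or_ne (‖v n‖) 0 with h | h
      · rw [h]; simp
      · rw [inv_mul_cancel₀ h]
    · simp only [hg]; positivity
    · simp only [hg]
      rcases eq_or_lt_of_le (norm_nonneg (v n)) with h | h
      · rw [← h]; simp
      · rw [hk]; exact (K2_floor h).2
  obtain ⟨a, -, ψ, hψ, hlim⟩ := hcpt.tendsto_subseq hmem
  have hcau := hlim.cauchySeq
  rw [Metric.cauchySeq_iff] at hcau
  obtain ⟨N₁, hN₁⟩ := hcau δ hδ0
  have hvψ : Tendsto (fun n => ‖v (ψ n)‖) atTop atTop := hv.comp hψ.tendsto_atTop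
  obtain ⟨N₂, hN₂⟩ := eventually_atTop.mp (hvψ.eventually_ge_atTop (max 1 H₀))
  obtain ⟨n₀, hn₀⟩ : ∃ n₀, n₀ = max N₁ N₂ := ⟨_, rfl⟩
  have hbig : ∀ n, n₀ ≤ n → max 1 H₀ ≤ ‖v (ψ n)‖ := fun n hn =>
    hN₂ n ((le_max_right _ _).trans (hn₀ ▸ hn))
  have hclose : ∀ n m, n₀ ≤ n → n₀ ≤ m → ‖u (ψ n) - u (ψ m)‖ ≤ δ ∧ |g (ψ n) - g (ψ m)| ≤ δ := by
    intro n m hn hm
    have h := hN₁ n ((le_max_left _ _).trans (hn₀ ▸ hn)) m ((le_max_left _ _).trans (hn₀ ▸ hm))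
    rw [Function.comp_apply, Function.comp_apply, Prod.dist_eq, max_lt_iff] at h
    refine ⟨?_, ?_⟩
    · rw [← dist_eq_norm]; exact h.1.le
    · rw [← Real.dist_eq]; exact h.2.le
  -- k tends to infinity
  have hstep : ∀ n, ∃ n', n < n' ∧ k (ψ n) + (R + 1 : ℕ) ≤ k (ψ n') := by
    intro n
    obtain ⟨N₃, hN₃⟩ := eventually_atTop.mp
      (hvψ.eventually_ge_atTop ((2 : ℝ) ^ (k (ψ n) + (R + 1 : ℕ) : ℤ)))
    refine ⟨max (n + 1) N₃, lt_of_lt_of_le (Nat.lt_succ_self n) (le_max_left _ _), ?_⟩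
    have h1 := hN₃ (max (n + 1) N₃) (le_max_right _ _)
    have hpos : (0 : ℝ) < (2 : ℝ) ^ (k (ψ n) + (R + 1 : ℕ) : ℤ) := by positivity
    rw [hk (ψ (max (n + 1) N₃)), Int.le_floor,
      Real.le_logb_iff_rpow_le (by norm_num) (lt_of_lt_of_le hpos h1), Real.rpow_intCast]
    exact h1
  choose s hs1 hs2 using hstep
  obtain ⟨m, hm⟩ : ∃ m : ℕ → ℕ, ∀ i, m i = s^[i] n₀ := ⟨_, fun _ => rfl⟩
  have hm0 : m 0 = n₀ := by rw [hm]; rfl
  have hmS : ∀ i, m (i + 1) = s (m i) := by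
    intro i
    rw [hm, hm, Function.iterate_succ_apply']
  have hmmono : StrictMono m := strictMono_nat_of_lt_succ fun i => by rw [hmS]; exact hs1 _
  have hmge : ∀ i, n₀ ≤ m i := fun i => by rw [← hm0]; exact hmmono.monotone (Nat.zero_le i)
  have hkS : ∀ i, k (ψ (m i)) + (R + 1 : ℕ) ≤ k (ψ (m (i + 1))) := by
    intro i
    rw [hmS]
    exact hs2 _
  have hkmono : Monotone fun i => k (ψ (m i)) := monotone_nat_of_le_succ fun i => by
    have := hkS i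
    push_cast at this
    change k (ψ (m i)) ≤ k (ψ (m (i + 1)))
    omega
  have hklt : ∀ i i', i < i' → k (ψ (m i)) + (R + 1 : ℕ) ≤ k (ψ (m i')) := by
    intro i i' h
    exact (hkS i).trans (hkmono (Nat.succ_le_of_lt h))
  obtain ⟨j, hj⟩ : ∃ j : ℕ → ℕ, ∀ i, (j i : ℤ) = k (ψ (m i)) - k (ψ (m 0)) := by
    refine ⟨fun i => (k (ψ (m i)) - k (ψ (m 0))).toNat, fun i => ?_⟩
    rw [Int.toNat_of_nonneg]
    have h1 : k (ψ (m 0)) ≤ k (ψ (m i)) := hkmono (Nat.zero_le i)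
    omega
  have hjlt : ∀ i i', i < i' → j i + (R + 1) ≤ j i' := by
    intro i i' h
    have h1 := hklt i i' h
    have h2 := hj i
    have h3 := hj i'
    push_cast at h1
    omega
  have hjmono : StrictMono j := fun i i' h => by have := hjlt i i' h; omega
  refine ⟨fun i => ψ (m i), j, fun i i' h => hψ (hmmono h), hjmono, ?_, ?_, ?_, ?_⟩
  · have := hj 0
    rw [sub_self] at this
    exact_mod_cast this
  · intro i
    exact (le_max_right _ _).trans (hbig _ (hmge i))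
  · intro i i' h
    have h1 := hjlt i i' h
    calc R * 4 ^ j i ≤ 4 ^ (R + 1) * 4 ^ j i := by
          apply Nat.mul_le_mul_right
          have h2 : R < 4 ^ R := Nat.lt_pow_self (by norm_num)
          have h3 : 4 ^ R ≤ 4 ^ (R + 1) := Nat.pow_le_pow_right (by norm_num) (Nat.le_succ R)
          omega
      _ = 4 ^ (R + 1 + j i) := by rw [pow_add 4 (R + 1) (j i)]
      _ ≤ 4 ^ j i' := Nat.pow_le_pow_right (by norm_num) (by omega)
  · intro i i' h
    simp only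
    obtain ⟨n, hn⟩ : ∃ n, n = ψ (m i') := ⟨_, rfl⟩
    obtain ⟨n', hn'⟩ : ∃ n', n' = ψ (m i) := ⟨_, rfl⟩
    rw [← hn, ← hn']
    have hcl := hclose (m i') (m i) (hmge i') (hmge i)
    have hb1 := (le_max_left 1 H₀).trans (hbig (m i') (hmge i'))
    have hb2 := (le_max_left 1 H₀).trans (hbig (m i) (hmge i))
    rw [← hn, ← hn'] at hcl
    rw [← hn] at hb1
    rw [← hn'] at hb2
    have hjj : ((j i' - j i : ℕ) : ℤ) = k n - k n' := by
      have h1 := hjmono.monotone h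
      have h2 := hj i
      have h3 := hj i'
      rw [hn, hn']
      omega
    have hpow : ((2 : ℝ) ^ (j i' - j i : ℕ)) = 2 ^ (k n) / 2 ^ (k n') := by
      rw [← zpow_natCast, hjj, zpow_sub₀ (by norm_num)]
    have hvn : ‖v n‖ = 2 ^ (k n) * g n := by
      rw [hg, mul_div_cancel₀]
      positivity
    have hvn' : ‖v n'‖ = 2 ^ (k n') * g n' := by
      rw [hg, mul_div_cancel₀]
      positivity
    have hK : (0 : ℝ) < 2 ^ (k n) := by positivity
    have hK' : (0 : ℝ) < 2 ^ (k n') := by positivity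
    have hscale : (2 : ℝ) ^ (j i' - j i : ℕ) * ‖v n'‖ = 2 ^ (k n) * g n' := by
      rw [hpow, hvn']
      field_simp
    have hg1 : 1 ≤ g n := by
      rw [hg, hk]
      exact (K2_floor (by linarith)).1
    have hg2 : g n ≤ 2 := by
      rw [hg, hk]
      exact (K2_floor (by linarith)).2
    have hg1' : 1 ≤ g n' := by
      rw [hg, hk]
      exact (K2_floor (by linarith)).1
    have hg2' : g n' ≤ 2 := by
      rw [hg, hk]
      exact (K2_floor (by linarith)).2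
    have hKv : 2 ^ (k n) ≤ ‖v n‖ := by
      rw [hvn]
      nlinarith
    have hv1 : v n = ‖v n‖ • u n := by
      rw [hu, smul_smul, mul_inv_cancel₀ (by linarith), one_smul]
    have hv2 : v n' = ‖v n'‖ • u n' := by
      rw [hu, smul_smul, mul_inv_cancel₀ (by linarith), one_smul]
    have hu1 : ‖u n'‖ ≤ 1 := by
      rw [hu, norm_smul, norm_inv, norm_norm, inv_mul_cancel₀ (by linarith)]
    constructor
    · have e1 : v n - (2 : ℝ) ^ (j i' - j i : ℕ) • v n' =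
          ‖v n‖ • (u n - u n') + (‖v n‖ - 2 ^ (k n) * g n') • u n' := by
        conv_lhs => rw [hv1, hv2]
        rw [smul_smul, hscale, smul_sub, sub_smul]
        abel
      have e2 : ‖v n - (2 : ℝ) ^ (j i' - j i : ℕ) • v n'‖ ≤ 2 * δ * ‖v n‖ := by
        rw [e1]
        refine (norm_add_le _ _).trans ?_
        rw [norm_smul, norm_smul, norm_norm, Real.norm_eq_abs, hvn, ← mul_sub, abs_mul,
          abs_of_pos hK, ← hvn]
        have h1 : ‖v n‖ * ‖u n - u n'‖ ≤ ‖v n‖ * δ :=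
          mul_le_mul_of_nonneg_left hcl.1 (norm_nonneg _)
        have h2 : 2 ^ (k n) * |g n - g n'| * ‖u n'‖ ≤ ‖v n‖ * δ * 1 := by
          apply mul_le_mul _ hu1 (norm_nonneg _) (by positivity)
          exact mul_le_mul hKv hcl.2 (abs_nonneg _) (norm_nonneg _)
        linarith
      have e3 : ‖v n - (2 : ℝ) ^ (j i' - j i : ℕ) • v n'‖ ^ 2 ≤ (2 * δ * ‖v n‖) ^ 2 :=
        pow_le_pow_left₀ (norm_nonneg _) e2 2
      refine e3.trans ?_
      have e4 : (2 * δ * ‖v n‖) ^ 2 = (4 * δ) * δ * ‖v n‖ ^ 2 := by ring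
      rw [e4]
      apply mul_le_mul_of_nonneg_right _ (by positivity)
      nlinarith
    · have e5 : (4 : ℝ) ^ (j i' - j i : ℕ) * ‖v n'‖ ^ 2 = (2 ^ (k n) * g n') ^ 2 := by
        rw [← hscale, mul_pow, ← pow_mul, mul_comm _ 2, pow_mul]
        norm_num
      rw [e5, hvn, mul_pow, mul_pow, ← mul_sub, abs_mul, abs_of_pos (by positivity)]
      have e6 : |g n ^ 2 - g n' ^ 2| ≤ 4 * δ := by
        have e7 : g n ^ 2 - g n' ^ 2 = (g n + g n') * (g n - g n') := by ring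
        rw [e7, abs_mul]
        apply mul_le_mul _ hcl.2 (abs_nonneg _) (by norm_num)
        rw [abs_of_pos (by linarith)]
        linarith
      have e8 : η * ((2 ^ (k n)) ^ 2 * g n ^ 2) = (2 ^ (k n)) ^ 2 * (η * g n ^ 2) := by ring
      rw [e8]
      apply mul_le_mul_of_nonneg_left _ (by positivity)
      have e9 : (1 : ℝ) ≤ g n ^ 2 := by nlinarith
      have e10 : η ≤ η * g n ^ 2 := le_mul_of_one_le_right hη.le e9
      linarith

end Pool.Agent.Lib.MP_17a322_nt.VJ
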