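import Pool.Agent.Lib.MP_17a322_nt.VJ.Defs
import Pool.Agent.Lib.MP_17a322_nt.RO.A2
import Pool.Agent.Lib.MP_17a322_nt.VJ.K1
import Pool.Agent.Lib.MP_17a322_nt.VJ.K2

/-!
# K3: the pigeonhole (11.1) for points on a product of two elliptic curves
-/

universe u

namespace Pool.Agent.Lib.MP_17a322_nt.VJ

open Filter Topology Height

/-- The pigeonhole for an abstract quadratic function. -/
theorem K3_group {Γ : Type*} [AddCommGroup Γ] [AddGroup.FG Γ] (q : Γ → ℝ)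
    (hq0 : ∀ x, 0 ≤ q x) (hpar : ∀ x y, q (x + y) + q (x - y) = 2 * q x + 2 * q y)
    (P : ℕ → Γ) (hP : Tendsto (fun n => q (P n)) atTop atTop) {η : ℝ} (hη : 0 < η) (R : ℕ)
    (H₀ : ℝ) :
    ∃ φ j : ℕ → ℕ, StrictMono φ ∧ StrictMono j ∧ j 0 = 0 ∧ (∀ i, H₀ ≤ q (P (φ i))) ∧
      (∀ i i', i < i' → R * 4 ^ j i ≤ 4 ^ j i') ∧
      ∀ i i', i ≤ i' → q (P (φ i') - (2 ^ (j i' - j i) : ℕ) • P (φ i)) ≤ η * q (P (φ i')) ∧
        |q (P (φ i')) - 4 ^ (j i' - j i) * q (P (φ i))| ≤ η * q (P (φ i')) := by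
  obtain ⟨r, f, hf⟩ := exists_euclid q hq0 hpar
  have hq : ∀ x, q x = ‖f x‖ ^ 2 := by
    intro x
    have := hf x 0 0
    simpa using this
  have hv : Tendsto (fun n => ‖f (P n)‖) atTop atTop := by
    have h1 : (fun n => ‖f (P n)‖) = fun n => Real.sqrt (q (P n)) := by
      funext n
      rw [hq, Real.sqrt_sq (norm_nonneg _)]
    rw [h1]
    exact Real.tendsto_sqrt_atTop.comp hP
  obtain ⟨φ, j, h1, h2, h3, h4, h5, h6⟩ := K2_seq (fun n => f (P n)) hv hη R (max 1 H₀)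
  refine ⟨φ, j, h1, h2, h3, ?_, h5, ?_⟩
  · intro i
    have h7 := h4 i
    have h8 := (le_max_left 1 H₀).trans h7
    have h9 := (le_max_right 1 H₀).trans h7
    rw [hq]
    nlinarith
  · intro i i' h
    obtain ⟨h7, h8⟩ := h6 i i' h
    constructor
    · have h9 := hf (P (φ i')) (P (φ i)) ((2 ^ (j i' - j i) : ℕ) : ℤ)
      rw [natCast_zsmul] at h9
      rw [h9, hq]
      push_cast
      exact h7
    · rw [hq, hq]
      exact h8

/-- The pigeonhole (11.1). -/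
theorem PIG {K : Type u} [Field K] [NumberField K] [DecidableEq K]
    (W : Fin 2 → WeierstrassCurve K) [∀ t, (W t).IsElliptic]
    (Γ : ∀ t, AddSubgroup (W t).toAffine.Point) (hΓ : ∀ t, (Γ t).FG)
    (P : ℕ → ∀ t, (W t).toAffine.Point) (hP : ∀ n t, P n t ∈ Γ t)
    (hH : Tendsto (fun n => HH (P n)) atTop atTop) {η : ℝ} (hη : 0 < η) (R : ℕ) (H₀ : ℝ) :
    ∃ φ j : ℕ → ℕ, StrictMono φ ∧ StrictMono j ∧ j 0 = 0 ∧ (∀ i, H₀ ≤ HH (P (φ i))) ∧
      (∀ i i', i < i' → R * 4 ^ j i ≤ 4 ^ j i') ∧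
      ∀ i i', i ≤ i' →
        (∀ t, logHeight (P (φ i') t - 2 ^ (j i' - j i) • P (φ i) t).xRep ≤ η * HH (P (φ i'))) ∧
        |HH (P (φ i')) - 4 ^ (j i' - j i) * HH (P (φ i))| ≤ η * HH (P (φ i')) := by
  classical
  -- exact quadratic functions
  have hex : ∀ t, ∃ (q : (W t).toAffine.Point → ℝ) (C : ℝ),
      (∀ Q, |q Q - logHeight Q.xRep| ≤ C) ∧ (∀ Q, 0 ≤ q Q) ∧
      ∀ Q Q', q (Q + Q') + q (Q - Q') = 2 * q Q + 2 * q Q' := by
    intro t
    obtain ⟨C, hC⟩ := RO.parallelogram (W t)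
    exact RO.exists_quadratic (fun Q : (W t).toAffine.Point => logHeight Q.xRep)
      ⟨0, fun Q => logHeight_nonneg _⟩ C hC
  choose q C hqC hq0 hpar using hex
  have hC0 : ∀ t, 0 ≤ C t := fun t => (abs_nonneg _).trans (hqC t 0)
  -- the product group
  obtain ⟨qq, hqq⟩ : ∃ qq : (∀ t, Γ t) → ℝ, ∀ x, qq x = ∑ t, q t (x t) := ⟨_, fun _ => rfl⟩
  obtain ⟨Q, hQ⟩ : ∃ Q : ℕ → ∀ t, Γ t, ∀ n t, Q n t = ⟨P n t, hP n t⟩ := ⟨_, fun _ _ => rfl⟩
  have hQ' : ∀ n t, ((Q n t : Γ t) : (W t).toAffine.Point) = P n t := fun n t => by rw [hQ]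
  have hfg : ∀ t, AddGroup.FG (Γ t) := fun t => (AddGroup.fg_iff_addSubgroup_fg _).mpr (hΓ t)
  haveI : ∀ t, Module.Finite ℤ (Γ t) := fun t => Module.Finite.iff_addGroup_fg.mpr (hfg t)
  haveI : AddGroup.FG (∀ t, Γ t) := Module.Finite.iff_addGroup_fg.mp inferInstance
  have hCsum : 0 ≤ ∑ t, C t := Finset.sum_nonneg fun t _ => hC0 t
  have hdiff : ∀ n, |qq (Q n) - HH (P n)| ≤ ∑ t, C t := by
    intro n
    rw [hqq, HH, ← Finset.sum_sub_distrib]
    refine (Finset.abs_sum_le_sum_abs _ _).trans (Finset.sum_le_sum fun t _ => ?_)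
    rw [hQ']
    exact hqC t _
  have hlimq : Tendsto (fun n => qq (Q n)) atTop atTop := by
    have h1 : Tendsto (fun n => -(∑ t, C t) + HH (P n)) atTop atTop :=
      tendsto_atTop_add_const_left _ _ hH
    refine tendsto_atTop_mono (fun n => ?_) h1
    have := abs_le.mp (hdiff n)
    linarith [this.1]
  obtain ⟨D, hD⟩ : ∃ D : ℝ, D = ∑ t, C t := ⟨_, rfl⟩
  rw [← hD] at hdiff hCsum
  obtain ⟨δ, hδ0, hδ1, hδη⟩ : ∃ δ : ℝ, 0 < δ ∧ δ ≤ 1 ∧ 4 * δ ≤ η :=
    ⟨min 1 (η / 4), by positivity, min_le_left _ _, by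
      have := min_le_right 1 (η / 4)
      linarith⟩
  -- threshold: all heights at least `M`
  obtain ⟨M, hM⟩ : ∃ M : ℝ, M = max (H₀ + D) (max 1 (8 * D / δ)) := ⟨_, rfl⟩
  obtain ⟨φ, j, h1, h2, h3, h4, h5, h6⟩ := K3_group qq
    (fun x => by rw [hqq]; exact Finset.sum_nonneg fun t _ => hq0 t _)
    (fun x y => by
      rw [hqq, hqq, hqq, hqq, ← Finset.sum_add_distrib, Finset.mul_sum, Finset.mul_sum,
        ← Finset.sum_add_distrib]
      exact Finset.sum_congr rfl fun t _ => by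
        simpa using hpar t (x t) (y t))
    Q hlimq hδ0 R M
  have hMH : H₀ + D ≤ M := by rw [hM]; exact le_max_left _ _
  have hM1 : 1 ≤ M := by rw [hM]; exact (le_max_left _ _).trans (le_max_right _ _)
  have hMD : 8 * D ≤ δ * M := by
    have : 8 * D / δ ≤ M := by rw [hM]; exact (le_max_right _ _).trans (le_max_right _ _)
    rw [div_le_iff₀ hδ0] at this
    linarith
  refine ⟨φ, j, h1, h2, h3, ?_, h5, ?_⟩
  · intro i
    have h7 := h4 i
    have h8 := abs_le.mp (hdiff (φ i))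
    linarith [h8.2]
  · intro i i' h
    obtain ⟨h7, h8⟩ := h6 i i' h
    have h9 := h4 i
    have h10 := h4 i'
    have h11 := abs_le.mp (hdiff (φ i))
    have h12 := abs_le.mp (hdiff (φ i'))
    -- `qq ≤ 2 HH`
    have h13 : D ≤ qq (Q (φ i')) / 8 := by nlinarith
    have h14 : qq (Q (φ i')) ≤ 8 / 7 * HH (P (φ i')) := by linarith [h12.2]
    have hHpos : 0 ≤ HH (P (φ i')) := by linarith [h12.2]
    constructor
    · intro t
      have h15 : q t (P (φ i') t - 2 ^ (j i' - j i) • P (φ i) t) ≤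
          qq (Q (φ i') - (2 ^ (j i' - j i) : ℕ) • Q (φ i)) := by
        rw [hqq]
        have h16 := Finset.single_le_sum (f := fun t =>
          q t (((Q (φ i') - (2 ^ (j i' - j i) : ℕ) • Q (φ i)) t : Γ t) : (W t).toAffine.Point))
          (fun t _ => hq0 t _) (Finset.mem_univ t)
        refine le_trans (le_of_eq ?_) h16
        simp [hQ']
      have h17 := abs_le.mp (hqC t (P (φ i') t - 2 ^ (j i' - j i) • P (φ i) t))
      have h18 : C t ≤ D := by
        rw [hD]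
        exact Finset.single_le_sum (fun t _ => hC0 t) (Finset.mem_univ t)
      have h19 : D ≤ δ * qq (Q (φ i')) := by nlinarith
      have h20 : 2 * δ * qq (Q (φ i')) ≤ η * HH (P (φ i')) := by
        have : 2 * δ * qq (Q (φ i')) ≤ 2 * δ * (8 / 7 * HH (P (φ i'))) :=
          mul_le_mul_of_nonneg_left h14 (by positivity)
        nlinarith
      linarith [h17.1]
    · -- `4 ^ e D ≤ ...`
      have hE : (0 : ℝ) < 4 ^ (j i' - j i) := by positivity
      have h21 := abs_le.mp h8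
      have h22 : (4 : ℝ) ^ (j i' - j i) * qq (Q (φ i)) ≤ 2 * qq (Q (φ i')) := by
        nlinarith [h21.1]
      have h23 : 8 * D ≤ δ * qq (Q (φ i)) := by nlinarith
      have h24 : (4 : ℝ) ^ (j i' - j i) * (8 * D) ≤ δ * (2 * qq (Q (φ i'))) := by
        have := mul_le_mul_of_nonneg_left h23 hE.le
        have := mul_le_mul_of_nonneg_left h22 hδ0.le
        nlinarith
      have h25 : |(4 : ℝ) ^ (j i' - j i) * qq (Q (φ i)) - 4 ^ (j i' - j i) * HH (P (φ i))| ≤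
          4 ^ (j i' - j i) * D := by
        rw [← mul_sub, abs_mul, abs_of_pos hE]
        exact mul_le_mul_of_nonneg_left (hdiff (φ i)) hE.le
      have h26 := abs_le.mp h25
      have h27 : 2 * δ * qq (Q (φ i')) ≤ η * HH (P (φ i')) := by
        have : 2 * δ * qq (Q (φ i')) ≤ 2 * δ * (8 / 7 * HH (P (φ i'))) :=
          mul_le_mul_of_nonneg_left h14 (by positivity)
        nlinarith
      have h28 : 8 * D ≤ δ * qq (Q (φ i')) := by nlinarith
      rw [abs_le]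
      constructor <;> linarith [h21.1, h21.2, h12.1, h12.2, h26.1, h26.2]

end Pool.Agent.Lib.MP_17a322_nt.VJ
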