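import Pool.Agent.Lib.MP_17a322_nt.VJ.J5
import Pool.Agent.Lib.MP_17a322_nt.VJ.A3
import Pool.Agent.Lib.MP_17a322_nt.VJ.J6

/-!
The size of the implicit function.
-/

namespace Pool.Agent.Lib.MP_17a322_nt.VJ

open MvPolynomial Height

section

variable {K : Type*} [Field K] (v : AbsoluteValue K ℝ)

theorem J7_rho (G : MvPolynomial (Fin 2) K) (h1 : coeff (Finsupp.single 1 1) G ≠ 0) :
    0 < v (coeff (Finsupp.single 1 1) G) / NV v G ∧
      v (coeff (Finsupp.single 1 1) G) / NV v G ≤ 1 := by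
  have hG : G ≠ 0 := by
    rintro rfl
    exact h1 (coeff_zero _)
  have h2 : 0 < NV v G := NV_pos v hG
  exact ⟨div_pos (v.pos h1) h2, (div_le_one h2).mpr (coeff_le_NV v G _)⟩

/-- If all the terms have size at most `B`. -/
theorem J7_sum {A : Type*} [CommRing A] [Algebra K A] {ν : A → ℝ} (h : SN v ν)
    (G : MvPolynomial (Fin 2) K) (s : Finset (Fin 2 →₀ ℕ)) (hs : s ⊆ G.support)
    (t : (Fin 2 →₀ ℕ) → A) {B : ℝ} (hB : 0 ≤ B) (ht : ∀ m ∈ s, ν (t m) ≤ B) :
    ν (∑ m ∈ s, algebraMap K A (coeff m G) * t m) ≤ NV v G * B := by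
  have hterm : ∀ m ∈ s, ν (algebraMap K A (coeff m G) * t m) ≤ v (coeff m G) * B := fun m hm =>
    (h.mul _ _).trans (mul_le_mul (h.map _) (ht m hm) (h.nonneg _) (v.nonneg _))
  by_cases hv : IsNonarchimedean v
  · have hN : 0 ≤ NV v G := (v.nonneg _).trans (coeff_le_NV v G 0)
    apply SN.sum_le_max hv h s _ (mul_nonneg hN hB)
    intro m hm
    exact (hterm m hm).trans (mul_le_mul_of_nonneg_right (coeff_le_NV v G m) hB)
  · refine (SN.sum_le_sum h s _).trans ?_
    have hN : NV v G = ∑ m ∈ G.support, v (coeff m G) := by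
      unfold NV
      rw [if_neg hv]
    rw [hN, Finset.sum_mul]
    refine (Finset.sum_le_sum hterm).trans ?_
    exact Finset.sum_le_sum_of_subset_of_nonneg hs
      (fun m _ _ => mul_nonneg (v.nonneg _) hB)

/-- Size of the implicit function. -/
theorem J7_size (G : MvPolynomial (Fin 2) K) (h0 : coeff 0 G = 0)
    (h1 : coeff (Finsupp.single 1 1) G ≠ 0) (U : PowerSeries K)
    (hU : PowerSeries.constantCoeff U = 0) (hGU : aeval ![PowerSeries.X, U] G = 0)
    {r : ℝ} (hr : 0 ≤ r) (hr' : r ≤ (v (coeff (Finsupp.single 1 1) G) / NV v G) ^ 2) (n : ℕ) :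
    PN v r n U ≤ v (coeff (Finsupp.single 1 1) G) / NV v G := by
  classical
  obtain ⟨hρ0, hρ1⟩ := J7_rho v G h1
  set δ : K := coeff (Finsupp.single 1 1) G with hδ
  set ρ : ℝ := v δ / NV v G with hρ
  have hr1 : r ≤ 1 := hr'.trans (pow_le_one₀ hρ0.le hρ1)
  have hG : G ≠ 0 := by
    rintro rfl
    exact h1 (coeff_zero _)
  have hN : 0 < NV v G := NV_pos v hG
  induction n with
  | zero =>
    rw [PN_zero, hU, map_zero]
    exact hρ0.le
  | succ n ih =>
    have hS := SN_PN v hr (n + 1)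
    have hS' := SN_PN v hr n
    -- the equation
    have hsum : PowerSeries.C δ * U = -∑ m ∈ G.support.erase (Finsupp.single 1 1),
        algebraMap K (PowerSeries K) (coeff m G) * (PowerSeries.X ^ (m 0) * U ^ (m 1)) := by
      have e := hGU
      rw [aeval_def, eval₂_eq'] at e
      rw [← Finset.add_sum_erase G.support _ (mem_support_iff.mpr h1)] at e
      simp only [Fin.prod_univ_two, Matrix.cons_val_zero, Matrix.cons_val_one] at e
      rw [eq_neg_iff_add_eq_zero, ← e]
      congr 1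
      simp [← hδ]
    have hterms : ∀ m ∈ G.support.erase (Finsupp.single 1 1),
        PN v r (n + 1) (PowerSeries.X ^ (m 0) * U ^ (m 1)) ≤ ρ ^ 2 := by
      intro m hm
      obtain ⟨hm1, hm2⟩ := Finset.mem_erase.mp hm
      have hm0 : m ≠ 0 := by
        rintro rfl
        exact (mem_support_iff.mp hm2) h0
      have hUk : ∀ k, PN v r n (U ^ k) ≤ ρ ^ k := fun k =>
        (SN.pow_le hS' U k).trans (pow_le_pow_left₀ ((SN_PN v hr n).nonneg U) ih k)
      rcases Nat.eq_zero_or_pos (m 0) with h | h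
      · have h2 : 2 ≤ m 1 := by
          by_contra hlt
          have : m 1 = 0 ∨ m 1 = 1 := by omega
          rcases this with h3 | h3
          · exact hm0 (by ext i; fin_cases i <;> simp [h, h3])
          · exact hm1 (by ext i; fin_cases i <;> simp [h, h3])
        obtain ⟨k, hk⟩ : ∃ k, m 1 = (k + 1) + 1 := ⟨m 1 - 2, by omega⟩
        rw [h, pow_zero, one_mul, hk, pow_succ' U (k + 1)]
        refine (PN_mul_le_of_constantCoeff v hr n U (U ^ (k + 1)) hU (by simp [hU])).trans ?_
        calc PN v r n U * PN v r n (U ^ (k + 1)) ≤ ρ * ρ ^ (k + 1) :=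
              mul_le_mul ih (hUk _) ((SN_PN v hr n).nonneg _) hρ0.le
          _ = ρ ^ k * ρ ^ 2 := by ring
          _ ≤ 1 * ρ ^ 2 := mul_le_mul_of_nonneg_right (pow_le_one₀ hρ0.le hρ1) (by positivity)
          _ = ρ ^ 2 := one_mul _
      · obtain ⟨k, hk⟩ : ∃ k, m 0 = k + 1 := ⟨m 0 - 1, by omega⟩
        rw [hk, pow_succ' _ k, mul_assoc]
        refine (PN_X_mul_le v hr n _).trans ?_
        have h3 : PN v r n (PowerSeries.X ^ k * U ^ m 1) ≤ 1 := by
          refine ((SN_PN v hr n).mul _ _).trans ?_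
          have h4 : PN v r n ((PowerSeries.X : PowerSeries K) ^ k) ≤ 1 :=
            (SN.pow_le hS' PowerSeries.X k).trans (pow_le_one₀ ((SN_PN v hr n).nonneg _)
              ((PN_X_le v hr n).trans hr1))
          have h5 : PN v r n (U ^ m 1) ≤ 1 := (hUk _).trans (pow_le_one₀ hρ0.le hρ1)
          calc _ ≤ (1 : ℝ) * 1 := mul_le_mul h4 h5 ((SN_PN v hr n).nonneg _) zero_le_one
            _ = 1 := one_mul 1
        calc r * PN v r n (PowerSeries.X ^ k * U ^ m 1) ≤ r * 1 :=
              mul_le_mul_of_nonneg_left h3 hr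
          _ = r := mul_one r
          _ ≤ ρ ^ 2 := hr'
    have hbound : PN v r (n + 1) (PowerSeries.C δ * U) ≤ NV v G * ρ ^ 2 := by
      rw [hsum]
      rw [show PN v r (n + 1) (-∑ m ∈ G.support.erase (Finsupp.single 1 1),
        algebraMap K (PowerSeries K) (coeff m G) * (PowerSeries.X ^ (m 0) * U ^ (m 1))) =
          PN v r (n + 1) (∑ m ∈ G.support.erase (Finsupp.single 1 1),
        algebraMap K (PowerSeries K) (coeff m G) * (PowerSeries.X ^ (m 0) * U ^ (m 1))) from
          hS.neg _]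
      exact J7_sum v hS G _ (Finset.erase_subset _ _) _ (by positivity) hterms
    rw [PN_C_mul v hr] at hbound
    have hvδ : 0 < v δ := v.pos h1
    have : NV v G * ρ ^ 2 = v δ * ρ := by
      rw [hρ]
      field_simp
    rw [this] at hbound
    exact le_of_mul_le_mul_left hbound hvδ

end

end Pool.Agent.Lib.MP_17a322_nt.VJ
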