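import Pool.Agent.Lib.MP_17a322_nt.VJ.C1

/-!
# C2: degrees of `El`, and `El` in the ideal `(f, G)`

`El y f G` is the determinant of `Polynomial.sylvester (vw y f) (vw y G) p n`, `p = f.degreeOf y`, `n = G.degreeOf y`, a `(p + n) × (p + n)` matrix: the first `p` columns
contain coefficients of `vw y G` or `0`, the `n` other columns contain coefficients of `vw y f` or `0` (see the definition of `Polynomial.sylvester`: `Fin.addCases`;
`Polynomial.resultant` is by definition the determinant).
* `C2_det_degreeOf`: `Matrix.det_apply` (or `det_apply'`); the degree of a sum is at most the maximum (`degreeOf_sum_le` or `degreeOf_le_iff` with `support_sum`), the degree of a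
  product is at most the sum (`degreeOf_prod_le`, `degreeOf_mul_le`), the sign is `±1`; `∑ c, b c`.
* `C2_det_vars`: the same with `vars_sum_subset`, `vars_prod`, `vars_mul`; or: `t ∉ vars` iff `degreeOf t = 0` (`degreeOf_eq_zero_iff`-like lemma; `mem_vars`, `degreeOf_le_iff`) and the
  degree bound with `b = 0`.
* `degreeOf_El_le`: `b c = G.degreeOf t` for the first `p` columns, `f.degreeOf t` for the others (`degreeOf_coeff_vw`), `Fin.sum_univ_add`.
  `degreeOf_El_self`: all entries have degree `0` in `y` (`degreeOf_coeff_vw_self`).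
* `El_mem`: `Polynomial.exists_mul_add_mul_eq_C_resultant` (with `natDegree_vw`), evaluated at `X y` (`eval_vw`).
* `aeval_dvd_El`: `El_mem`, apply `aeval s`: `aeval s (El y f G) = aeval s f * _ + aeval s G * _ = aeval s G * _`.
* `El_map`: `Polynomial.resultant_map_map`, `vw_map`, `degreeOf_map_eq_of_injective` (or compare supports).
-/

set_option linter.unusedSectionVars false

namespace Pool.Agent.Lib.MP_17a322_nt.VJ

open MvPolynomial

section
variable {R σ : Type*} [CommRing R] [DecidableEq σ]

theorem C2_det_degreeOf (t : σ) {N : ℕ} (A : Matrix (Fin N) (Fin N) (MvPolynomial σ R))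
    (b : Fin N → ℕ) (h : ∀ i j, (A i j).degreeOf t ≤ b j) : A.det.degreeOf t ≤ ∑ j, b j := by
  rw [Matrix.det_apply]
  refine (degreeOf_sum_le t _ _).trans (Finset.sup_le fun τ _ => ?_)
  have h1 : (Equiv.Perm.sign τ • ∏ i, A (τ i) i).degreeOf t ≤ (∏ i, A (τ i) i).degreeOf t := by
    rcases Int.units_eq_one_or (Equiv.Perm.sign τ) with h | h <;> rw [h]
    · rw [one_smul]
    · rw [Units.neg_smul, one_smul, degreeOf_neg]
  exact h1.trans ((degreeOf_prod_le t _ _).trans (Finset.sum_le_sum fun j _ => h _ _))

theorem C2_det_vars (T : Finset σ) {N : ℕ} (A : Matrix (Fin N) (Fin N) (MvPolynomial σ R))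
    (h : ∀ i j, (A i j).vars ⊆ T) : A.det.vars ⊆ T := by
  have h1 : A.det ∈ supported R (T : Set σ) := by
    rw [Matrix.det_apply]
    refine Subalgebra.sum_mem _ fun τ _ => ?_
    have h2 : (∏ i, A (τ i) i) ∈ supported R (T : Set σ) :=
      Subalgebra.prod_mem _ fun i _ => mem_supported.2 (Finset.coe_subset.2 (h _ _))
    rcases Int.units_eq_one_or (Equiv.Perm.sign τ) with h | h <;> rw [h]
    · rw [one_smul]
      exact h2
    · rw [Units.neg_smul, one_smul]
      exact Subalgebra.neg_mem _ h2
  exact Finset.coe_subset.1 (mem_supported.1 h1)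

/-- the entries of the Sylvester matrix -/
private theorem C2_entry (y : σ) (f G : MvPolynomial σ R) (m n : ℕ) (i j : Fin (m + n)) :
    (∃ k, Polynomial.sylvester (vw y f) (vw y G) m n i j = (vw y G).coeff k ∧
      ∃ j₁ : Fin m, j = Fin.castAdd n j₁) ∨
    (∃ k, Polynomial.sylvester (vw y f) (vw y G) m n i j = (vw y f).coeff k ∧
      ∃ j₁ : Fin n, j = Fin.natAdd m j₁) ∨
    Polynomial.sylvester (vw y f) (vw y G) m n i j = 0 := by
  induction j using Fin.addCases with
  | left j =>
    by_cases hi : (i : ℕ) ∈ Set.Icc (j : ℕ) (j + n)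
    · left
      refine ⟨i - j, ?_, j, rfl⟩
      rw [Polynomial.sylvester, Matrix.of_apply, Fin.addCases_left, if_pos hi]
    · right
      right
      rw [Polynomial.sylvester, Matrix.of_apply, Fin.addCases_left, if_neg hi]
  | right j =>
    by_cases hi : (i : ℕ) ∈ Set.Icc (j : ℕ) (j + m)
    · right
      left
      refine ⟨i - j, ?_, j, rfl⟩
      rw [Polynomial.sylvester, Matrix.of_apply, Fin.addCases_right, if_pos hi]
    · right
      right
      rw [Polynomial.sylvester, Matrix.of_apply, Fin.addCases_right, if_neg hi]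

/-- (3.1), also for `t = y` -/
theorem degreeOf_El_le' (y : σ) (f G : MvPolynomial σ R) (t : σ) :
    (El y f G).degreeOf t ≤ G.degreeOf y * f.degreeOf t + f.degreeOf y * G.degreeOf t := by
  have h := C2_det_degreeOf t
    (Polynomial.sylvester (vw y f) (vw y G) (f.degreeOf y) (G.degreeOf y))
    (Fin.addCases (fun _ => G.degreeOf t) fun _ => f.degreeOf t) (by
      intro i j
      rcases C2_entry y f G _ _ i j with ⟨k, hk, j₁, rfl⟩ | ⟨k, hk, j₁, rfl⟩ | hk
      · rw [hk, Fin.addCases_left]
        exact degreeOf_coeff_vw y G k t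
      · rw [hk, Fin.addCases_right]
        exact degreeOf_coeff_vw y f k t
      · rw [hk, degreeOf_zero]
        exact Nat.zero_le _)
  rw [Fin.sum_univ_add] at h
  simp only [Fin.addCases_left, Fin.addCases_right, Finset.sum_const, Finset.card_univ,
    Fintype.card_fin, smul_eq_mul] at h
  rw [add_comm]
  exact h

/-- (3.1) -/
theorem degreeOf_El_le (y : σ) (f G : MvPolynomial σ R) (t : σ) (ht : t ≠ y) :
    (El y f G).degreeOf t ≤ G.degreeOf y * f.degreeOf t + f.degreeOf y * G.degreeOf t :=
  degreeOf_El_le' y f G t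

theorem degreeOf_El_self (y : σ) (f G : MvPolynomial σ R) : (El y f G).degreeOf y = 0 := by
  have h := C2_det_degreeOf y
    (Polynomial.sylvester (vw y f) (vw y G) (f.degreeOf y) (G.degreeOf y)) (fun _ => 0) (by
      intro i j
      rcases C2_entry y f G _ _ i j with ⟨k, hk, -⟩ | ⟨k, hk, -⟩ | hk
      · rw [hk, degreeOf_coeff_vw_self]
      · rw [hk, degreeOf_coeff_vw_self]
      · rw [hk, degreeOf_zero])
  rw [Finset.sum_const_zero] at h
  exact Nat.le_zero.1 h

theorem vars_El_subset (y : σ) (f G : MvPolynomial σ R) :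
    (El y f G).vars ⊆ (f.vars ∪ G.vars).erase y := by
  refine C2_det_vars _ _ fun i j => ?_
  rcases C2_entry y f G _ _ i j with ⟨k, hk, -⟩ | ⟨k, hk, -⟩ | hk
  · rw [hk]
    exact (vars_coeff_vw y G k).trans (Finset.erase_subset_erase y Finset.subset_union_right)
  · rw [hk]
    exact (vars_coeff_vw y f k).trans (Finset.erase_subset_erase y Finset.subset_union_left)
  · rw [hk, vars_0]
    exact Finset.empty_subset _

theorem El_mem (y : σ) (f G : MvPolynomial σ R) (h : f.degreeOf y ≠ 0 ∨ G.degreeOf y ≠ 0) :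
    ∃ U V : MvPolynomial σ R, El y f G = f * U + G * V := by
  obtain ⟨p, q, -, -, h1⟩ := Polynomial.exists_mul_add_mul_eq_C_resultant
    (m := f.degreeOf y) (n := G.degreeOf y) (vw y f) (vw y G) (natDegree_vw y f).le
    (natDegree_vw y G).le h
  refine ⟨p.eval (X y), q.eval (X y), ?_⟩
  have h2 := congrArg (Polynomial.eval (X y)) h1
  rw [Polynomial.eval_add, Polynomial.eval_mul, Polynomial.eval_mul, Polynomial.eval_C,
    eval_vw, eval_vw] at h2
  exact h2.symm

/-- (3.3) In any ring: at a point where `f` vanishes the value of `G` divides that of `El`. -/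
theorem aeval_dvd_El (y : σ) (f G : MvPolynomial σ R) (h : f.degreeOf y ≠ 0 ∨ G.degreeOf y ≠ 0)
    {S : Type*} [CommRing S] [Algebra R S] (s : σ → S) (hs : aeval s f = 0) :
    aeval s G ∣ aeval s (El y f G) := by
  obtain ⟨U, V, h1⟩ := El_mem y f G h
  rw [h1, map_add, map_mul, map_mul, hs, zero_mul, zero_add]
  exact dvd_mul_right _ _

/-- base change -/
theorem El_map {R' : Type*} [CommRing R'] (φ : R →+* R') (hφ : Function.Injective φ) (y : σ)
    (f G : MvPolynomial σ R) : El y (map φ f) (map φ G) = map φ (El y f G) := by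
  have h : ∀ F : MvPolynomial σ R, (map φ F).degreeOf y = F.degreeOf y := by
    intro F
    rw [degreeOf_eq_sup, degreeOf_eq_sup, support_map_of_injective F hφ]
  rw [El, h, h, vw_map, vw_map, Polynomial.resultant_map_map]
  rfl

end

end Pool.Agent.Lib.MP_17a322_nt.VJ
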