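import Pool.Agent.Lib.MP_17a322_nt.VJ.C1

/-!
# C4: nonvanishing of the resultant (Gauss's lemma)

`k` a field, `σ` arbitrary.  `MvPolynomial σ k` is a unique factorisation domain (instance in Mathlib).
* `prime_vw`: `f` prime in `MvPolynomial σ k` implies `vw y f` prime in `(MvPolynomial σ k)[X]`.  Proof: `optionEquivLeft k σ : MvPolynomial (Option σ) k ≃ₐ (MvPolynomial σ k)[X]`
  (`X none ↦ X`, `X (some t) ↦ C (X t)`) maps `rename g f` to `vw y f`, where `g : σ → Option σ`, `g y = none`, `g t = some t` for `t ≠ y`, an injective map; check this identity on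
  variables (`algHom_ext`).  `rename g f` is prime: factor `g` as an equivalence onto its range followed by the inclusion of `Set.range g`: `MvPolynomial.prime_rename_iff (Set.range g)`
  and `renameEquiv` (`MulEquiv.prime_iff`).
* `El_ne_zero_of_irreducible`: `A = MvPolynomial σ k`, `E = FractionRing A`, `p = f.degreeOf y ≥ 1`.  The sizes in `El` are the exact degrees (`natDegree_vw`), so `El y f G` is the
  default resultant of `vw y f`, `vw y G`.  Suppose it is `0`.  Map to `E` (`resultant_map_map`, injective: degrees do not change); `resultant_eq_zero_iff`: `(vw f).map` and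
  `(vw G).map` are not coprime over `E`.  `vw y f` is irreducible (prime) of positive degree in `A[X]`, hence primitive (`Irreducible.isPrimitive`) and `(vw y f).map` is irreducible
  over `E` (`IsPrimitive.irreducible_iff_irreducible_map_fraction_map`), so it divides `(vw G).map` (`Irreducible.coprime_iff_not_dvd` or `isCoprime_or_dvd`), so `vw y f ∣ vw y G`
  in `A[X]`: `IsPrimitive.dvd_of_fraction_map_dvd_fraction_map` needs both primitive: write `vw G = C (content) * primPart` (`G ≠ 0` because `f ∤ G`), the content is a unit over `E`
  (a `NormalizedGCDMonoid A` instance: `UniqueFactorizationMonoid.toNormalizedGCDMonoid` or `Nonempty.some`, classical).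
  Alternatively: clear denominators in `(vw G).map = (vw f).map * q` and use that `vw y f` is prime in `A[X]` and does not divide constants `C a ≠ 0` (positive degree).
  Evaluate at `X y` (`eval_vw`): `f ∣ G`, contradiction.
-/

set_option linter.unusedSectionVars false

namespace Pool.Agent.Lib.MP_17a322_nt.VJ

open MvPolynomial

section
variable {k σ : Type*} [Field k] [DecidableEq σ]

theorem prime_vw (y : σ) {f : MvPolynomial σ k} (hf : Prime f) : Prime (vw y f) := by
  set g : σ → Option σ := fun t => if t = y then none else some t with hg
  have hginj : Function.Injective g := by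
    intro a b hab
    simp only [hg] at hab
    split_ifs at hab with h1 h2 h2
    · rw [h1, h2]
    · exact Option.some.inj hab
  have hvw : vw y f = optionEquivLeft k σ (rename g f) := by
    have : (vwHom y : MvPolynomial σ k →ₐ[k] Polynomial (MvPolynomial σ k)) =
        (optionEquivLeft k σ).toAlgHom.comp (rename g) := by
      apply algHom_ext
      intro t
      simp only [vwHom, aeval_X, AlgHom.comp_apply, rename_X, hg]
      split_ifs with h
      · exact (optionEquivLeft_X_none k σ).symm
      · exact (optionEquivLeft_X_some k σ t).symm
    rw [vw_eq_hom, this]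
    rfl
  have hren : Prime (rename g f) := by
    have h1 : rename g f = rename ((↑) : Set.range g → Option σ)
        (rename (Equiv.ofInjective g hginj) f) := by
      rw [rename_rename]
      rfl
    rw [h1, prime_rename_iff (Set.range g)]
    have h2 : rename (Equiv.ofInjective g hginj) f =
        (renameEquiv k (Equiv.ofInjective g hginj)) f := rfl
    rw [h2]
    exact (MulEquiv.prime_iff (renameEquiv k (Equiv.ofInjective g hginj)).toMulEquiv).mpr hf
  rw [hvw]
  exact (MulEquiv.prime_iff (optionEquivLeft k σ).toMulEquiv).mpr hren

/-- (3.5) -/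
theorem El_ne_zero_of_irreducible (y : σ) (f G : MvPolynomial σ k) (hf : Irreducible f)
    (hy : f.degreeOf y ≠ 0) (hG : ¬ f ∣ G) : El y f G ≠ 0 := by
  intro h0
  have hfp : Prime f := hf.prime
  have hvf : Prime (vw y f) := prime_vw y hfp
  have hirr : Irreducible (vw y f) := hvf.irreducible
  have hdeg : (vw y f).natDegree ≠ 0 := by rwa [natDegree_vw]
  have hprim : (vw y f).IsPrimitive := hirr.isPrimitive hdeg
  have h1 : Polynomial.resultant (vw y f) (vw y G) = 0 := by
    rw [natDegree_vw, natDegree_vw]
    exact h0
  let E := FractionRing (MvPolynomial σ k)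
  let φ : MvPolynomial σ k →+* E := algebraMap (MvPolynomial σ k) E
  have hφ : Function.Injective φ := IsFractionRing.injective (MvPolynomial σ k) E
  have h2 : Polynomial.resultant ((vw y f).map φ) ((vw y G).map φ) = 0 := by
    rw [Polynomial.natDegree_map_eq_of_injective hφ, Polynomial.natDegree_map_eq_of_injective hφ,
      Polynomial.resultant_map_map, h1, map_zero]
  have h3 := (Polynomial.resultant_eq_zero_iff.mp h2).2
  have : Nonempty (NormalizedGCDMonoid (MvPolynomial σ k)) := inferInstance
  have hirrE : Irreducible ((vw y f).map φ) :=
    (hprim.irreducible_iff_irreducible_map_fraction_map).mp hirr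
  have h4 : (vw y f).map φ ∣ (vw y G).map φ := by
    by_contra hnd
    exact h3 ((hirrE.coprime_iff_not_dvd).mpr hnd)
  have h5 : vw y f ∣ vw y G := hprim.dvd_of_fraction_map_dvd_fraction_map h4
  obtain ⟨q, hq⟩ := h5
  apply hG
  refine ⟨q.eval (X y), ?_⟩
  have := congrArg (Polynomial.eval (X y)) hq
  rwa [Polynomial.eval_mul, eval_vw, eval_vw] at this

end

end Pool.Agent.Lib.MP_17a322_nt.VJ
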