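import Pool.Agent.Lib.MP_17a322_nt.VJ.Defs

/-!
# D1: orders at the origin, filtrations, determinants

`OG w a G`: all monomials of `G` have weight at least `a` (`IG w a ξ F` is `OG w a (tr ξ F)` by definition).
* `OG.mul`: `coeff m (F * G) = ∑ coeff u F * coeff u' G` over the antidiagonal of `m` (`coeff_mul`); `weight m = weight u + weight u'` (`Finsupp.weight` is additive: `map_add`,
  `Finset.mem_antidiagonal`), so if `weight m < a + b` then `weight u < a` or `weight u' < b`: every term is `0`.
* `IsFilt P`: `P t a` means that `a` has order at least `t`.  `sum`, `prod`: `Finset.induction_on`.  `det`: `Matrix.det_apply` (or `det_apply'`): every term is `sign • ∏ i, A (π i) i`; reindex the product by the rows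
  (`∏ i, A (π i) i`, orders `∑ i, a (π i) = ∑ i, a i`: `Equiv.sum_comp`); the sign is `±1` (`neg`).
* `isFilt_OG`: from the lemmas above.
-/

set_option linter.unusedSectionVars false

namespace Pool.Agent.Lib.MP_17a322_nt.VJ

open MvPolynomial

/-- all monomials of `G` have weight at least `a` -/
def OG {R σ : Type*} [CommRing R] (w : σ → ℕ) (a : ℝ) (G : MvPolynomial σ R) : Prop :=
  ∀ m : σ →₀ ℕ, (Finsupp.weight w m : ℝ) < a → coeff m G = 0

section
variable {R σ : Type*} [CommRing R] {w : σ → ℕ} {a b : ℝ} {F G : MvPolynomial σ R}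

theorem IG_iff_OG (ξ : σ → R) : IG w a ξ F ↔ OG w a (tr ξ F) := Iff.rfl

theorem OG.zero : OG w a (0 : MvPolynomial σ R) := fun _ _ => coeff_zero _

theorem OG.mono (h : OG w a G) (hb : b ≤ a) : OG w b G := fun m hm => h m (hm.trans_le hb)

theorem OG.of_nonpos (h : a ≤ 0) : OG w a G := fun _ hm =>
  absurd (hm.trans_le h) (not_lt.mpr (Nat.cast_nonneg _))

theorem OG.add (hF : OG w a F) (hG : OG w a G) : OG w a (F + G) := fun m hm => by
  rw [coeff_add, hF m hm, hG m hm, add_zero]

theorem OG.neg (hF : OG w a F) : OG w a (-F) := fun m hm => by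
  rw [coeff_neg, hF m hm, neg_zero]

theorem OG.mul (hF : OG w a F) (hG : OG w b G) : OG w (a + b) (F * G) := by
  classical
  intro m hm
  rw [coeff_mul]
  refine Finset.sum_eq_zero fun u hu => ?_
  have h1 : u.1 + u.2 = m := Finset.HasAntidiagonal.mem_antidiagonal.mp hu
  rw [← h1, map_add, Nat.cast_add] at hm
  rcases lt_or_ge (Finsupp.weight w u.1 : ℝ) a with h | h
  · rw [hF _ h, zero_mul]
  · rw [hG u.2 (by linarith), mul_zero]

end

/-- a filtration of a ring by real numbers -/
structure IsFilt {R : Type*} [CommRing R] (P : ℝ → R → Prop) : Prop where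
  zero : ∀ t, P t 0
  add : ∀ t a b, P t a → P t b → P t (a + b)
  neg : ∀ t a, P t a → P t (-a)
  one : P 0 1
  mul : ∀ t u a b, P t a → P u b → P (t + u) (a * b)

namespace IsFilt

variable {R : Type*} [CommRing R] {P : ℝ → R → Prop}

theorem sum (hP : IsFilt P) {ι : Type*} (s : Finset ι) (f : ι → R) {t : ℝ} (h : ∀ i ∈ s, P t (f i)) :
    P t (∑ i ∈ s, f i) := by
  classical
  induction s using Finset.induction_on with
  | empty => simpa using hP.zero t
  | insert i s hi ih =>
    rw [Finset.sum_insert hi]
    exact hP.add t _ _ (h i (Finset.mem_insert_self _ _))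
      (ih fun j hj => h j (Finset.mem_insert_of_mem hj))

theorem prod (hP : IsFilt P) {ι : Type*} (s : Finset ι) (f : ι → R) (a : ι → ℝ)
    (h : ∀ i ∈ s, P (a i) (f i)) : P (∑ i ∈ s, a i) (∏ i ∈ s, f i) := by
  classical
  induction s using Finset.induction_on with
  | empty => simpa using hP.one
  | insert i s hi ih =>
    rw [Finset.sum_insert hi, Finset.prod_insert hi]
    exact hP.mul _ _ _ _ (h i (Finset.mem_insert_self _ _))
      (ih fun j hj => h j (Finset.mem_insert_of_mem hj))

/-- determinants: orders of the rows -/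
theorem det (hP : IsFilt P) {n : Type*} [Fintype n] [DecidableEq n] (A : Matrix n n R) (a : n → ℝ)
    (h : ∀ i j, P (a i) (A i j)) : P (∑ i, a i) A.det := by
  rw [Matrix.det_apply]
  refine hP.sum _ _ fun π _ => ?_
  have h1 : P (∑ i, a i) (∏ i, A (π i) i) := by
    have h2 := hP.prod Finset.univ (fun i => A (π i) i) (fun i => a (π i)) fun i _ => h (π i) i
    rwa [Equiv.sum_comp π a] at h2
  rcases Int.units_eq_one_or (Equiv.Perm.sign π) with h3 | h3
  · rw [h3, one_smul]
    exact h1
  · rw [h3, Units.neg_smul, one_smul]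
    exact hP.neg _ _ h1

end IsFilt

theorem isFilt_OG {R σ : Type*} [CommRing R] (w : σ → ℕ) :
    IsFilt (fun t (G : MvPolynomial σ R) => OG w t G) where
  zero _ := OG.zero
  add _ _ _ h h' := h.add h'
  neg _ _ h := h.neg
  one := OG.of_nonpos le_rfl
  mul _ _ _ _ h h' := h.mul h'

end Pool.Agent.Lib.MP_17a322_nt.VJ
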