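import Pool.Agent.Lib.MP_17a322_nt.VJ.A5
import Pool.Agent.Lib.MP_17a322_nt.VJ.D1
import Pool.Agent.Lib.MP_17a322_nt.VJ.D2

/-!
# D4: derivatives

`pderiv y G` (Mathlib `MvPolynomial.pderiv`).
* `coeff_pderiv'`: additive in `G`, for monomials `pderiv_monomial` (there may be a lemma `MvPolynomial.coeff_pderiv` in Mathlib).
* `tr_pderiv`: `pderiv y` is a derivation and `tr ξ` an algebra homomorphism: both sides are derivations along `trHom ξ`; check on variables by `MvPolynomial.induction_on`: constants, sums, products by a variable (`pderiv_mul`, `pderiv_X`, `Pi.single`).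
* `OG_pderiv`: `coeff_pderiv'`, `weight (m + single y 1) = weight m + w y`.
* degrees: `coeff_pderiv'` and `degreeOf_le_iff`; for `degreeOf_pderiv_self` (characteristic 0): a monomial `m` of `G` with `m y = degreeOf y G ≥ 1` gives the monomial `m - single y 1` with coefficient `(m y) * coeff ≠ 0`.
* `not_dvd_pderiv`: if `pderiv y G = G * Q` then `Q ≠ 0`, the degree in `y` of `G * Q` is `≥ degreeOf y G` (`degreeOf_mul_eq` in a domain, or `vw`), but the left side has degree `degreeOf y G - 1`.
* `NV_pderiv_le`: nonarchimedean `v`: all coefficients are `n * coeff` with `v n ≤ 1` (`n` a natural number), `NV_le_of_coeff`.  Otherwise `NV v (pderiv y G) = ∑_m v (m y + 1) * v (coeff (m + single y 1) G) ≤ (degreeOf y G) * ∑`, as `v n ≤ n` for natural `n`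
  (triangle inequality), `m ↦ m + single y 1` injective (`Finset.sum_le_sum_of_subset_of_nonneg`, `sum_map`/`sum_image`).
* `nh_pderiv_le`: `nh_le_of_NV_le` (A5).
-/

set_option linter.unusedSectionVars false

namespace Pool.Agent.Lib.MP_17a322_nt.VJ

open MvPolynomial Height

section
variable {R σ : Type*} [CommRing R] [DecidableEq σ]

theorem coeff_pderiv' (y : σ) (G : MvPolynomial σ R) (m : σ →₀ ℕ) :
    coeff m (pderiv y G) = ((m y : R) + 1) * coeff (m + Finsupp.single y 1) G := by
  rw [MvPolynomial.coeff_pderiv, mul_comm]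

theorem tr_pderiv (ξ : σ → R) (y : σ) (G : MvPolynomial σ R) :
    tr ξ (pderiv y G) = pderiv y (tr ξ G) := by
  rw [tr_eq_hom, tr_eq_hom]
  induction G using MvPolynomial.induction_on with
  | C a => simp [trHom]
  | add p q hp hq => simp only [map_add, hp, hq]
  | mul_X p s hp =>
    rw [pderiv_mul, map_add, map_mul, map_mul, map_mul, pderiv_mul, hp]
    congr 1
    congr 1
    by_cases hs : s = y
    · subst hs
      simp [trHom]
    · simp [trHom, pderiv_X_of_ne hs]

theorem OG_pderiv {w : σ → ℕ} {a : ℝ} (y : σ) {G : MvPolynomial σ R} (h : OG w a G) :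
    OG w (a - w y) (pderiv y G) := by
  intro m hm
  rw [coeff_pderiv', h, mul_zero]
  rw [map_add, Finsupp.weight_single]
  push_cast
  simp only [smul_eq_mul, one_mul]
  linarith

theorem D4_mem_support {y : σ} {G : MvPolynomial σ R} {m : σ →₀ ℕ}
    (hm : m ∈ (pderiv y G).support) : m + Finsupp.single y 1 ∈ G.support := by
  rw [MvPolynomial.mem_support_iff] at hm ⊢
  intro h
  apply hm
  rw [coeff_pderiv', h, mul_zero]

theorem degreeOf_pderiv_le (y t : σ) (G : MvPolynomial σ R) :
    (pderiv y G).degreeOf t ≤ G.degreeOf t := by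
  rw [MvPolynomial.degreeOf_eq_sup]
  refine Finset.sup_le ?_
  intro m hm
  have h := MvPolynomial.monomial_le_degreeOf t (D4_mem_support hm)
  rw [Finsupp.add_apply] at h
  omega

theorem vars_pderiv_subset (y : σ) (G : MvPolynomial σ R) : (pderiv y G).vars ⊆ G.vars := by
  intro t ht
  rw [MvPolynomial.mem_vars_iff_degreeOf_ne_zero] at ht ⊢
  have := degreeOf_pderiv_le y t G
  omega

end

section
variable {L σ : Type*} [Field L] [CharZero L] [DecidableEq σ]

theorem D4_exists_top (y : σ) {G : MvPolynomial σ L} (h : G.degreeOf y ≠ 0) :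
    ∃ m : σ →₀ ℕ, coeff m (pderiv y G) ≠ 0 ∧ m y = G.degreeOf y - 1 := by
  have hG : G.support.Nonempty := by
    rw [Finset.nonempty_iff_ne_empty]
    intro h0
    rw [MvPolynomial.support_eq_empty] at h0
    rw [h0, MvPolynomial.degreeOf_zero] at h
    exact h rfl
  obtain ⟨m, hm, hm1⟩ := Finset.exists_mem_eq_sup G.support hG (fun m => m y)
  have hm2 : G.degreeOf y = m y := by
    rw [MvPolynomial.degreeOf_eq_sup]
    exact hm1
  rw [hm2] at h ⊢
  refine ⟨m - Finsupp.single y 1, ?_, ?_⟩
  · rw [coeff_pderiv']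
    have e : m - Finsupp.single y 1 + Finsupp.single y 1 = m := by
      refine tsub_add_cancel_of_le ?_
      intro s
      by_cases hs : s = y
      · subst hs
        simp
        omega
      · rw [Finsupp.single_eq_of_ne hs]
        exact Nat.zero_le _
    rw [e]
    refine mul_ne_zero ?_ (MvPolynomial.mem_support_iff.mp hm)
    exact Nat.cast_add_one_ne_zero _
  · simp

theorem degreeOf_pderiv_self (y : σ) (G : MvPolynomial σ L) :
    (pderiv y G).degreeOf y = G.degreeOf y - 1 := by
  refine le_antisymm ?_ ?_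
  · rw [MvPolynomial.degreeOf_eq_sup]
    refine Finset.sup_le ?_
    intro m hm
    have h := MvPolynomial.monomial_le_degreeOf y (D4_mem_support hm)
    rw [Finsupp.add_apply, Finsupp.single_eq_same] at h
    omega
  · by_cases h : G.degreeOf y = 0
    · rw [h]
      exact Nat.zero_le _
    · obtain ⟨m, hm, hm1⟩ := D4_exists_top y h
      rw [← hm1]
      exact MvPolynomial.monomial_le_degreeOf y (MvPolynomial.mem_support_iff.mpr hm)

theorem pderiv_ne_zero (y : σ) {G : MvPolynomial σ L} (h : G.degreeOf y ≠ 0) : pderiv y G ≠ 0 := by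
  obtain ⟨m, hm, -⟩ := D4_exists_top y h
  intro h0
  rw [h0, coeff_zero] at hm
  exact hm rfl

theorem not_dvd_pderiv (y : σ) {G : MvPolynomial σ L} (h : G.degreeOf y ≠ 0) : ¬ G ∣ pderiv y G := by
  rintro ⟨Q, hQ⟩
  have h0 := pderiv_ne_zero y h
  have hG : G ≠ 0 := by
    rintro rfl
    rw [MvPolynomial.degreeOf_zero] at h
    exact h rfl
  have hQ0 : Q ≠ 0 := by
    rintro rfl
    rw [mul_zero] at hQ
    exact h0 hQ
  have h1 := MvPolynomial.degreeOf_mul_eq (n := y) hG hQ0
  rw [← hQ, degreeOf_pderiv_self] at h1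
  omega

end

theorem D4_natCast_le {L : Type*} [Field L] (v : AbsoluteValue L ℝ) (n : ℕ) :
    v (n : L) ≤ cst v n := by
  by_cases hv : IsNonarchimedean v
  · unfold cst
    rw [if_pos hv]
    have h := (SN_self v).sum_le (Finset.range n) (fun _ => (1 : L)) (zero_le_one (α := ℝ)) (by
      intro i _
      simp)
    unfold cst at h
    rw [if_pos hv] at h
    simpa using h
  · have h := (SN_self v).sum_le (Finset.range n) (fun _ => (1 : L)) (zero_le_one (α := ℝ)) (by
      intro i _
      simp)
    simpa using h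

theorem NV_pderiv_le {L σ : Type*} [Field L] [DecidableEq σ] (v : AbsoluteValue L ℝ) (y : σ)
    (G : MvPolynomial σ L) : NV v (pderiv y G) ≤ cst v (G.degreeOf y) * NV v G := by
  classical
  have hcoef : ∀ m : σ →₀ ℕ, coeff m (pderiv y G) ≠ 0 → m y + 1 ≤ G.degreeOf y := by
    intro m hm
    have h := MvPolynomial.monomial_le_degreeOf y
      (D4_mem_support (MvPolynomial.mem_support_iff.mpr hm))
    rw [Finsupp.add_apply, Finsupp.single_eq_same] at h
    exact h
  have hle : ∀ m : σ →₀ ℕ, v (coeff m (pderiv y G)) ≤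
      cst v (G.degreeOf y) * v (coeff (m + Finsupp.single y 1) G) := by
    intro m
    by_cases hm : coeff m (pderiv y G) = 0
    · rw [hm, map_zero]
      exact mul_nonneg (cst_nonneg _ _) (v.nonneg _)
    · have h1 := hcoef m hm
      rw [coeff_pderiv', map_mul]
      refine mul_le_mul_of_nonneg_right ?_ (v.nonneg _)
      have h2 := D4_natCast_le v (m y + 1)
      push_cast at h2
      exact h2.trans (cst_mono v h1)
  by_cases hv : IsNonarchimedean v
  · have hB : 0 ≤ cst v (G.degreeOf y) * NV v G :=
      mul_nonneg (cst_nonneg _ _) ((SN_NV v).nonneg G)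
    have e : NV v (pderiv y G) = ⨆ m, v (coeff m (pderiv y G)) := by
      unfold NV
      rw [if_pos hv]
    rw [e]
    refine Real.iSup_le (fun m => ?_) hB
    refine (hle m).trans ?_
    exact mul_le_mul_of_nonneg_left (coeff_le_NV v G _) (cst_nonneg _ _)
  · have e : ∀ F : MvPolynomial σ L, NV v F = ∑ m ∈ F.support, v (coeff m F) := by
      intro F
      unfold NV
      rw [if_neg hv]
    rw [e, e, Finset.mul_sum]
    have h3 : ∑ m ∈ (pderiv y G).support, v (coeff m (pderiv y G)) ≤
        ∑ m ∈ (pderiv y G).support,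
          cst v (G.degreeOf y) * v (coeff (m + Finsupp.single y 1) G) :=
      Finset.sum_le_sum fun m _ => hle m
    refine h3.trans ?_
    have h4 : ∑ m ∈ (pderiv y G).support,
          cst v (G.degreeOf y) * v (coeff (m + Finsupp.single y 1) G) =
        ∑ u ∈ (pderiv y G).support.image (fun m => m + Finsupp.single y 1),
          cst v (G.degreeOf y) * v (coeff u G) := by
      rw [Finset.sum_image]
      intro a _ b _ hab
      exact add_right_cancel hab
    rw [h4]
    refine Finset.sum_le_sum_of_subset_of_nonneg ?_ ?_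
    · intro u hu
      rw [Finset.mem_image] at hu
      obtain ⟨m, hm, rfl⟩ := hu
      exact D4_mem_support hm
    · intro u _ _
      exact mul_nonneg (cst_nonneg _ _) (v.nonneg _)

theorem nh_pderiv_le {L σ : Type*} [Field L] [CharZero L] [AdmissibleAbsValues L] [DecidableEq σ]
    (y : σ) {G : MvPolynomial σ L} (h : G.degreeOf y ≠ 0) :
    nh (pderiv y G) ≤ nh G + totalWeight L * Real.log (G.degreeOf y) := by
  have hG : G ≠ 0 := by
    rintro rfl
    rw [MvPolynomial.degreeOf_zero] at h
    exact h rfl
  exact nh_le_of_NV_le hG (pderiv_ne_zero y h) (Nat.one_le_iff_ne_zero.mpr h)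
    (fun v _ => NV_pderiv_le v y G)

end Pool.Agent.Lib.MP_17a322_nt.VJ
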