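import Pool.Agent.Lib.MP_17a322_nt.VJ.C1

/-!
# C3: common roots

* `aeval_El`: apply the ring homomorphism `aeval s` to the resultant (`Polynomial.resultant_map_map`): the value of `El y f G` at `s` is the resultant (sizes `p = f.degreeOf y`,
  `n = G.degreeOf y`) of the polynomials `f_s = (vw y f).map (aeval s)`, `G_s = (vw y G).map (aeval s)`.  `f_s` has `natDegree = p` since its coefficient of degree `p` is not zero
  (`natDegree_vw`, `natDegree_map_le`, `le_natDegree_of_ne_zero`); `G_s` has `natDegree ≤ n`; `S` is an algebraically closed field: `f_s` splits (`IsAlgClosed.splits`);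
  `Polynomial.resultant_eq_prod_eval`: the value is `lc ^ n * ∏_{r root of f_s} G_s(r)`, and `G_s(r) = aeval (update s y r) G` (`aeval_vw`, C1).
* `exists_root_of_El`: if the value is `0` then some root `r` of `f_s` (`Multiset.prod_eq_zero_iff`, `mem_map`) has `G_s(r) = 0`; or `lc ^ n = 0`, impossible.  (If there is no root at
  all then `p = 0`, excluded by `hf`; in fact the product over the empty multiset would be `1`.)
* `El_ne_zero_at`: conversely, if no root of `f_s` is a root of `G_s` the value is not `0`.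
* `exists_root`: `f_s` has positive degree.
-/

set_option linter.unusedSectionVars false

namespace Pool.Agent.Lib.MP_17a322_nt.VJ

open MvPolynomial

/-- The coefficient of the highest power of `y`. -/
noncomputable def lcv {R σ : Type*} [CommRing R] [DecidableEq σ] (y : σ)
    (f : MvPolynomial σ R) : MvPolynomial σ R := (vw y f).coeff (f.degreeOf y)

section
variable {R σ : Type*} [CommRing R] [DecidableEq σ] {S : Type*} [Field S] [IsAlgClosed S] [Algebra R S]

private theorem C3_natDegree (y : σ) (f : MvPolynomial σ R) (s : σ → S) (hl : aeval s (lcv y f) ≠ 0) :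
    ((vw y f).map (aeval s : MvPolynomial σ R →ₐ[R] S).toRingHom).natDegree = f.degreeOf y ∧
    ((vw y f).map (aeval s : MvPolynomial σ R →ₐ[R] S).toRingHom).leadingCoeff = aeval s (lcv y f) := by
  have hc : ((vw y f).map (aeval s : MvPolynomial σ R →ₐ[R] S).toRingHom).coeff (f.degreeOf y)
      = aeval s (lcv y f) := by
    rw [Polynomial.coeff_map]
    rfl
  have hd : ((vw y f).map (aeval s : MvPolynomial σ R →ₐ[R] S).toRingHom).natDegree = f.degreeOf y := by
    apply le_antisymm
    · rw [← natDegree_vw y f]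
      exact Polynomial.natDegree_map_le
    · apply Polynomial.le_natDegree_of_ne_zero
      rw [hc]
      exact hl
  refine ⟨hd, ?_⟩
  rw [Polynomial.leadingCoeff, hd, hc]

theorem aeval_El (y : σ) (f G : MvPolynomial σ R) (s : σ → S) (hl : aeval s (lcv y f) ≠ 0) :
    aeval s (El y f G) = aeval s (lcv y f) ^ G.degreeOf y *
      (((vw y f).map (aeval s : MvPolynomial σ R →ₐ[R] S).toRingHom).roots.map
        (fun r => aeval (Function.update s y r) G)).prod := by
  obtain ⟨hd, hlc⟩ := C3_natDegree y f s hl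
  have h1 : aeval s (El y f G) = Polynomial.resultant
      ((vw y f).map (aeval s : MvPolynomial σ R →ₐ[R] S).toRingHom)
      ((vw y G).map (aeval s : MvPolynomial σ R →ₐ[R] S).toRingHom) (f.degreeOf y) (G.degreeOf y) := by
    rw [Polynomial.resultant_map_map]
    rfl
  have h2 : ((vw y G).map (aeval s : MvPolynomial σ R →ₐ[R] S).toRingHom).natDegree ≤ G.degreeOf y := by
    rw [← natDegree_vw y G]
    exact Polynomial.natDegree_map_le
  have h3 := Polynomial.resultant_eq_prod_eval
    ((vw y f).map (aeval s : MvPolynomial σ R →ₐ[R] S).toRingHom)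
    ((vw y G).map (aeval s : MvPolynomial σ R →ₐ[R] S).toRingHom) (G.degreeOf y) h2 (IsAlgClosed.splits _)
  rw [hd, hlc] at h3
  rw [h1, h3]
  congr 3
  funext r
  exact aeval_vw y s r G

private theorem C3_map_ne_zero (y : σ) (f : MvPolynomial σ R) (s : σ → S) (hl : aeval s (lcv y f) ≠ 0) :
    (vw y f).map (aeval s : MvPolynomial σ R →ₐ[R] S).toRingHom ≠ 0 := by
  intro h0
  obtain ⟨_, hlc⟩ := C3_natDegree y f s hl
  rw [h0, Polynomial.leadingCoeff_zero] at hlc
  exact hl hlc.symm

private theorem C3_mem_roots (y : σ) (f : MvPolynomial σ R) (s : σ → S) (hl : aeval s (lcv y f) ≠ 0) (r : S) :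
    r ∈ ((vw y f).map (aeval s : MvPolynomial σ R →ₐ[R] S).toRingHom).roots ↔
      aeval (Function.update s y r) f = 0 := by
  rw [Polynomial.mem_roots (C3_map_ne_zero y f s hl), Polynomial.IsRoot.def, aeval_vw]

/-- (3.4) -/
theorem exists_root_of_El (y : σ) (f G : MvPolynomial σ R) (hf : f.degreeOf y ≠ 0) (s : σ → S)
    (hl : aeval s (lcv y f) ≠ 0) (h : aeval s (El y f G) = 0) :
    ∃ r : S, aeval (Function.update s y r) f = 0 ∧ aeval (Function.update s y r) G = 0 := by
  rw [aeval_El y f G s hl] at h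
  rcases mul_eq_zero.1 h with h1 | h1
  · exact absurd h1 (pow_ne_zero _ hl)
  · rw [Multiset.prod_eq_zero_iff, Multiset.mem_map] at h1
    obtain ⟨r, hr, hr0⟩ := h1
    exact ⟨r, (C3_mem_roots y f s hl r).1 hr, hr0⟩

theorem El_ne_zero_at (y : σ) (f G : MvPolynomial σ R) (s : σ → S) (hl : aeval s (lcv y f) ≠ 0)
    (h : ∀ r : S, aeval (Function.update s y r) f = 0 → aeval (Function.update s y r) G ≠ 0) :
    aeval s (El y f G) ≠ 0 := by
  rw [aeval_El y f G s hl]
  apply mul_ne_zero (pow_ne_zero _ hl)
  intro h1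
  rw [Multiset.prod_eq_zero_iff, Multiset.mem_map] at h1
  obtain ⟨r, hr, hr0⟩ := h1
  exact h r ((C3_mem_roots y f s hl r).1 hr) hr0

theorem exists_root (y : σ) (f : MvPolynomial σ R) (hf : f.degreeOf y ≠ 0) (s : σ → S)
    (hl : aeval s (lcv y f) ≠ 0) : ∃ r : S, aeval (Function.update s y r) f = 0 := by
  obtain ⟨hd, -⟩ := C3_natDegree y f s hl
  have hdeg : ((vw y f).map (aeval s : MvPolynomial σ R →ₐ[R] S).toRingHom).degree ≠ 0 := by
    intro h0
    apply hf
    rw [← hd]
    exact Polynomial.natDegree_eq_of_degree_eq_some h0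
  obtain ⟨r, hr⟩ := IsAlgClosed.exists_root _ hdeg
  exact ⟨r, by rw [← aeval_vw]; exact hr⟩

end

end Pool.Agent.Lib.MP_17a322_nt.VJ
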