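import Pool.Agent.Lib.MP_17a322_nt.VJ.C1
import Pool.Agent.Lib.MP_17a322_nt.VJ.A5

/-!
# C5: size and height of `El`

* `NP_vw_le`: the size of `vw y F` (with coefficients measured by `NV v`) is at most the size of `F`.  Nonarchimedean `v`: `NP = ⨆ k, NV v ((vw y F).coeff k)`; by `coeff_vw` every
  coefficient of `(vw y F).coeff k` is `0` or a coefficient of `F`, `≤ NV v F` (`coeff_le_NV`, `NV_le_of_coeff`, `cst = 1`); `ciSup_le`.  Otherwise: a sum over
  `k ∈ (vw y F).support` and over the support of `(vw y F).coeff k` of `v (coeff ...)`; this double sum is a sum over the set of pairs `(k, s)`, and `(k, s) ↦ s + single y k` is an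
  injection of the set of these pairs (with `s y = 0`) into the support of `F` (`Finset.sum_sigma'`, `Finset.sum_le_sum_of_subset_of_nonneg`, `Finset.sum_image` or
  `Finset.sum_nbij`).
* `NV_El_le`: `El` is the resultant of `vw y f`, `vw y G` with sizes `f.degreeOf y`, `G.degreeOf y`: `SN.resultant_le` (A3) for `SN_NV v` (A2), `NP_vw_le`, `pow_le_pow_left₀`.
* `nh_El_le`: if `f = 0` or `G = 0` then `El ≠ 0` forces the other degree to be `0` and `El = 1` (compute: `Polynomial.resultant_zero_left_deg`, `resultant_zero_right_deg`), `nh 1 = 0`.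
  Otherwise `log` of `NV_El_le` at every place: `Real.log_pow`, `Real.log_mul` (everything is positive, `NV_pos`), `gs_le`, `gs_add`, `gs_const_mul`, `FS_log_NV` (A4, A5).
-/

set_option linter.unusedSectionVars false

namespace Pool.Agent.Lib.MP_17a322_nt.VJ

open MvPolynomial Height

/-- a coefficient of a coefficient of `vw y F` -/
theorem C5_coeff {L σ : Type*} [Field L] [DecidableEq σ] (y : σ) (F : MvPolynomial σ L) (k : ℕ)
    (m : σ →₀ ℕ) (hm : m ∈ ((vw y F).coeff k).support) :
    m y = 0 ∧ coeff m ((vw y F).coeff k) = coeff (m + Finsupp.single y k) F := by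
  have h := coeff_vw y F k m
  rw [mem_support_iff] at hm
  by_cases h0 : m y = 0
  · rw [if_pos h0] at h
    exact ⟨h0, h⟩
  · rw [if_neg h0] at h
    exact absurd h hm

theorem NP_vw_le {L σ : Type*} [Field L] [DecidableEq σ] (v : AbsoluteValue L ℝ) (y : σ)
    (F : MvPolynomial σ L) : NP v (fun G : MvPolynomial σ L => NV v G) (vw y F) ≤ NV v F := by
  classical
  by_cases hv : IsNonarchimedean v
  · unfold NP
    rw [if_pos hv]
    refine ciSup_le fun k => ?_
    refine NV_le_of_injOn v F _ (fun s => s + Finsupp.single y k) ?_ ?_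
    · intro a _ b _ hab
      exact add_right_cancel hab
    · intro m hm
      exact (C5_coeff y F k m hm).2
  · unfold NP
    rw [if_neg hv]
    have h1 : ∀ G : MvPolynomial σ L, NV v G = ∑ m ∈ G.support, v (coeff m G) := by
      intro G
      unfold NV
      rw [if_neg hv]
    have h2 : (∑ k ∈ (vw y F).support, NV v ((vw y F).coeff k)) =
        ∑ x ∈ (vw y F).support.sigma (fun k => ((vw y F).coeff k).support),
          v (coeff (x.2 + Finsupp.single y x.1) F) := by
      rw [Finset.sum_sigma]
      refine Finset.sum_congr rfl fun k _ => ?_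
      rw [h1]
      refine Finset.sum_congr rfl fun m hm => ?_
      rw [(C5_coeff y F k m hm).2]
    rw [h2, h1 F]
    have hinj : Set.InjOn (fun x : (_ : ℕ) × (σ →₀ ℕ) => x.2 + Finsupp.single y x.1)
        ((vw y F).support.sigma (fun k => ((vw y F).coeff k).support)) := by
      rintro ⟨k, m⟩ hx ⟨k', m'⟩ hx' h
      simp only [Finset.coe_sigma, Set.mem_sigma_iff, Finset.mem_coe] at hx hx'
      simp only at h
      have e1 := (C5_coeff y F k m hx.2).1
      have e2 := (C5_coeff y F k' m' hx'.2).1
      have e3 : k = k' := by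
        have := DFunLike.congr_fun h y
        simpa [e1, e2] using this
      subst e3
      have e4 : m = m' := add_right_cancel h
      rw [e4]
    rw [← Finset.sum_image (f := fun s => v (coeff s F)) hinj]
    refine Finset.sum_le_sum_of_subset_of_nonneg ?_ (fun _ _ _ => v.nonneg _)
    intro s hs
    rw [Finset.mem_image] at hs
    obtain ⟨⟨k, m⟩, hx, rfl⟩ := hs
    rw [Finset.mem_sigma] at hx
    have e1 := (C5_coeff y F k m hx.2).2
    rw [mem_support_iff]
    simp only
    rw [← e1]
    exact mem_support_iff.mp hx.2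

theorem C5_NP_nonneg {L σ : Type*} [Field L] (v : AbsoluteValue L ℝ)
    (p : Polynomial (MvPolynomial σ L)) : 0 ≤ NP v (fun G : MvPolynomial σ L => NV v G) p := by
  classical
  have h0 : ∀ G : MvPolynomial σ L, 0 ≤ NV v G := (SN_NV v).nonneg
  unfold NP
  split_ifs with hv
  · exact Real.iSup_nonneg fun k => h0 _
  · exact Finset.sum_nonneg fun k _ => h0 _

/-- (3.2) -/
theorem NV_El_le {L σ : Type*} [Field L] [DecidableEq σ] (v : AbsoluteValue L ℝ) (y : σ)
    (f G : MvPolynomial σ L) :
    NV v (El y f G) ≤ NV v f ^ G.degreeOf y * NV v G ^ f.degreeOf y := by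
  unfold El
  refine ((SN_NV v).resultant_le (vw y f) (vw y G) (f.degreeOf y) (G.degreeOf y)).trans ?_
  have h0 : ∀ G : MvPolynomial σ L, 0 ≤ NV v G := (SN_NV v).nonneg
  exact mul_le_mul (pow_le_pow_left₀ (C5_NP_nonneg v _) (NP_vw_le v y f) _)
    (pow_le_pow_left₀ (C5_NP_nonneg v _) (NP_vw_le v y G) _)
    (pow_nonneg (C5_NP_nonneg v _) _) (pow_nonneg (h0 _) _)

theorem C5_nh_one {L σ : Type*} [Field L] [AdmissibleAbsValues L] :
    nh (1 : MvPolynomial σ L) = 0 := by
  unfold nh
  have h : (fun v : AbsoluteValue L ℝ => Real.log (NV v (1 : MvPolynomial σ L))) = fun _ => 0 := by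
    funext v
    rw [← C_1, NV_C, map_one, Real.log_one]
  rw [h]
  unfold gs
  simp

theorem nh_El_le {L σ : Type*} [Field L] [AdmissibleAbsValues L] [DecidableEq σ] (y : σ)
    (f G : MvPolynomial σ L) (h : El y f G ≠ 0) :
    nh (El y f G) ≤ G.degreeOf y * nh f + f.degreeOf y * nh G := by
  by_cases hf : f = 0
  · subst hf
    have hd : G.degreeOf y = 0 := by
      by_contra hne
      apply h
      unfold El
      rw [vw_zero, degreeOf_zero, Polynomial.resultant_zero_left_deg, Polynomial.coeff_zero,
        zero_pow hne]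
    have h1 : El y 0 G = 1 := by
      unfold El
      rw [vw_zero, degreeOf_zero, Polynomial.resultant_zero_left_deg, hd, pow_zero]
    rw [h1, C5_nh_one, hd, degreeOf_zero]
    simp
  by_cases hG : G = 0
  · subst hG
    have hd : f.degreeOf y = 0 := by
      by_contra hne
      apply h
      unfold El
      rw [vw_zero, degreeOf_zero, Polynomial.resultant_zero_right_deg, Polynomial.coeff_zero,
        zero_pow hne]
    have h1 : El y f 0 = 1 := by
      unfold El
      rw [vw_zero, degreeOf_zero, Polynomial.resultant_zero_right_deg, hd, pow_zero]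
    rw [h1, C5_nh_one, hd, degreeOf_zero]
    simp
  have e1 : gs (fun v : AbsoluteValue L ℝ => (G.degreeOf y : ℝ) * Real.log (NV v f) +
      (f.degreeOf y : ℝ) * Real.log (NV v G)) = G.degreeOf y * nh f + f.degreeOf y * nh G := by
    rw [gs_add (FS_const_mul _ (FS_log_NV hf)) (FS_const_mul _ (FS_log_NV hG)),
      gs_const_mul (f := fun v => Real.log (NV v f)) _,
      gs_const_mul (f := fun v => Real.log (NV v G)) _]
    rfl
  rw [← e1]
  unfold nh
  refine gs_le (FS_log_NV h) (FS_add (FS_const_mul _ (FS_log_NV hf)) (FS_const_mul _ (FS_log_NV hG)))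
    fun v _ => ?_
  have p1 := NV_pos v hf
  have p2 := NV_pos v hG
  have p3 := NV_pos v h
  calc Real.log (NV v (El y f G)) ≤ Real.log (NV v f ^ G.degreeOf y * NV v G ^ f.degreeOf y) :=
        Real.log_le_log p3 (NV_El_le v y f G)
    _ = (G.degreeOf y : ℝ) * Real.log (NV v f) + (f.degreeOf y : ℝ) * Real.log (NV v G) := by
        rw [Real.log_mul (pow_pos p1 _).ne' (pow_pos p2 _).ne', Real.log_pow, Real.log_pow]

end Pool.Agent.Lib.MP_17a322_nt.VJ
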