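import Pool.Agent.Lib.MP_17a322_nt.VJ.C2
import Pool.Agent.Lib.MP_17a322_nt.VJ.C3
import Pool.Agent.Lib.MP_17a322_nt.VJ.C4
import Pool.Agent.Lib.MP_17a322_nt.VJ.C5
import Pool.Agent.Lib.MP_17a322_nt.VJ.B4
import Pool.Agent.Lib.MP_17a322_nt.VJ.D7

/-!
Interface of stream A (helper33): Gelfond (`sum_nh_le`, `root_mult`: B4), elimination
(`degreeOf_El_le`, `degreeOf_El_self`, `vars_El_subset`, `aeval_dvd_El`: C2; `lcv`,
`exists_root_of_El`: C3; `El_ne_zero_of_irreducible`: C4; `NV_El_le`, `nh_El_le`: C5), zero lemma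
(`zero_lemma`: D7). All proved.
-/
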