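import Pool.Agent.Lib.MP_17a322_nt.VJ.J0
import Pool.Agent.Lib.MP_17a322_nt.VJ.IF_A
import Pool.Agent.Lib.MP_17a322_nt.VJ.E2
import Pool.Agent.Lib.MP_17a322_nt.VJ.E3
import Pool.Agent.Lib.MP_17a322_nt.VJ.E8

/-!
The relations `relI`: values, degrees, leading coefficients, sizes.
-/

universe u

namespace Pool.Agent.Lib.MP_17a322_nt.VJ

open MvPolynomial Height
open Pool.Agent.Lib.MP_17a322_nt.RO

section

variable {K : Type*} [Field K] (W : Fin 2 → WeierstrassCurve K) (e : ℕ) (c : Fin 2 → Bool)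

theorem rel_eq_relI (t : Fin 2) : rel W e c t = relI W e c 1 t := rfl

/-- Value of `relI`: `map_S3`, `map_mu` (E3) for the algebra homomorphism `aeval s`. -/
theorem aeval_relI {A : Type*} [CommRing A] [Algebra K A] (s : Fin 4 × Fin 2 → A) (i : Fin 4)
    (t : Fin 2) : aeval s (relI W e c i t) =
      S3 (W t) (mu (W t) e ![s (0, t), 1]) ![s (i, t), 1] (vc (c t) (s (2, t))) := by
  unfold relI
  rw [map_S3]
  congr 1
  · funext i
    rw [map_mu]
    congr 1
    funext k
    fin_cases k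
    · simp
    · simp
  · funext k
    fin_cases k
    · simp
    · simp
  · funext k
    cases c t
    · fin_cases k
      · simp [vc]
      · simp [vc]
    · fin_cases k
      · simp [vc]
      · simp [vc]

theorem aeval_gX {A : Type*} [CommRing A] [Algebra K A] (s : Fin 4 × Fin 2 → A) (i : Fin 4)
    (g : MvPolynomial (Fin 2) K) : aeval s (gX i g) = aeval (fun t => s (i, t)) g := by
  rw [gX, aeval_rename]
  rfl

theorem gX_vars (i : Fin 4) (g : MvPolynomial (Fin 2) K) : (gX i g).vars ⊆ {(i, 0), (i, 1)} := by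
  classical
  intro y hy
  have h1 := vars_rename (fun t : Fin 2 => (i, t)) g hy
  obtain ⟨t, _, rfl⟩ := Finset.mem_image.1 h1
  fin_cases t
  · simp
  · simp

theorem J1a_inj (i : Fin 4) : Function.Injective (fun t : Fin 2 => (i, t)) :=
  fun _ _ h => (Prod.mk.inj h).2

theorem gX_degreeOf (i : Fin 4) (g : MvPolynomial (Fin 2) K) (t : Fin 2) :
    (gX i g).degreeOf (i, t) = g.degreeOf t :=
  degreeOf_rename_of_injective (J1a_inj i) t

/-- `rename` along an injective map. -/
theorem gX_ne_zero (i : Fin 4) {g : MvPolynomial (Fin 2) K} (hg : g ≠ 0) : gX i g ≠ 0 := by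
  intro h
  apply hg
  apply rename_injective _ (J1a_inj i)
  rw [map_zero]
  exact h

theorem J1a_vars {σ : Type*} [DecidableEq σ] (F : MvPolynomial σ K) (S : Finset σ)
    (h : ∀ y, y ∉ S → degreeOf y F ≤ 0) : F.vars ⊆ S := by
  intro y hy
  by_contra hcon
  have h2 : degreeOf y F = 0 := Nat.le_zero.1 (h y hcon)
  rw [degreeOf_def, Multiset.count_eq_zero] at h2
  apply h2
  rwa [MvPolynomial.vars_def, Multiset.mem_toFinset] at hy

/-- A form of degree `4 ^ e` in `X (0, t)`, so degree at most `4 ^ e` in `X (0, t)` and no other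
variables: induction on `e` with `mu_succ`. -/
theorem degreeOf_mu_le' (t : Fin 2) (y : Fin 4 × Fin 2) (j : Fin 2) :
    (mu (W t) e ![(X y : MvPolynomial (Fin 4 × Fin 2) K), 1] j).degreeOf y ≤ 4 ^ e ∧
      (mu (W t) e ![(X y : MvPolynomial (Fin 4 × Fin 2) K), 1] j).vars ⊆ {y} := by
  constructor
  · have h := degreeOf_mu_le (W t) e y j y
    rwa [if_pos rfl] at h
  · refine J1a_vars _ _ fun z hz => ?_
    have h := degreeOf_mu_le (W t) e y j z
    rwa [if_neg (by simpa using hz)] at h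

theorem J1a_relI (i : Fin 4) (t : Fin 2) (y : Fin 4 × Fin 2) :
    degreeOf y (relI W e c i t) ≤ 2 * (4 ^ e * if y = (0, t) then 1 else 0) +
      2 * (if y = (i, t) then 1 else 0) + 2 * (if y = (2, t) then 1 else 0) :=
  E8_S3 (W t) (E8_mu (W t) (E8_vec _ _) e) (E8_vec _ _) (E8_vc _ _ _)

theorem J1a_SV {σ : Type*} (W : WeierstrassCurve K) {y : σ} {r q : ℕ}
    {R Q : Fin 2 → MvPolynomial σ K} (hR : ∀ i, degreeOf y (R i) ≤ r)
    (hQ : ∀ i, degreeOf y (Q i) ≤ q) (k : Fin 3) :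
    degreeOf y (SV W R Q k) ≤ 2 * r + 2 * q := by
  have h2 : degreeOf y (2 : MvPolynomial σ K) ≤ 0 := E8_num y 2
  have hm : ∀ i k, degreeOf y (R i * Q k) ≤ r + q := fun i k => E8_mul (hR i) (hQ k)
  fin_cases k
  · change degreeOf y (SV W R Q 0) ≤ _
    rw [SV_zero]
    refine E8_sub (E8_sub (E8_sub ?_ ?_) ?_) ?_
    · exact (E8_pow 2 (hm 0 0)).trans (by omega)
    · exact (E8_mul (E8_mul (E8_alg y _) (hm 0 0)) (hm 1 1)).trans (by omega)
    · exact (E8_mul (E8_mul (E8_alg y _) (E8_add (hm 0 1) (hm 1 0))) (hm 1 1)).trans (by omega)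
    · exact (E8_mul (E8_alg y _) (E8_pow 2 (hm 1 1))).trans (by omega)
  · change degreeOf y (SV W R Q 1) ≤ _
    rw [SV_one]
    refine E8_add (E8_add (E8_add ?_ ?_) ?_) ?_
    · exact (E8_mul (E8_mul h2 (E8_add (hm 0 1) (hm 1 0))) (hm 0 0)).trans (by omega)
    · exact (E8_mul (E8_mul (E8_alg y _) (hm 0 0)) (hm 1 1)).trans (by omega)
    · exact (E8_mul (E8_mul (E8_alg y _) (E8_add (hm 0 1) (hm 1 0))) (hm 1 1)).trans (by omega)
    · exact (E8_mul (E8_alg y _) (E8_pow 2 (hm 1 1))).trans (by omega)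
  · change degreeOf y (SV W R Q 2) ≤ _
    rw [SV_two]
    unfold wd
    exact (E8_pow 2 (E8_sub (hm 0 1) (hm 1 0))).trans (by omega)

/-- A quadratic polynomial in `X y`. -/
theorem J1a_quad {σ : Type*} [DecidableEq σ] (y : σ) (p q r : MvPolynomial σ K)
    (hp : degreeOf y p ≤ 0) (hq : degreeOf y q ≤ 0) (hr : degreeOf y r ≤ 0) (h0 : r ≠ 0)
    (F : MvPolynomial σ K) (hF : F = p + q * X y + r * X y ^ 2) :
    F.degreeOf y = 2 ∧ lcv y F = r := by
  have hv : vw y F = Polynomial.C r * Polynomial.X ^ 2 + Polynomial.C q * Polynomial.X +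
      Polynomial.C p := by
    rw [hF, vw_add, vw_add, vw_mul, vw_mul, vw_of_degreeOf_eq_zero y (Nat.le_zero.1 hp),
      vw_of_degreeOf_eq_zero y (Nat.le_zero.1 hq), vw_of_degreeOf_eq_zero y (Nat.le_zero.1 hr),
      pow_two, vw_mul, vw_X_self]
    ring
  have hd : F.degreeOf y = 2 := by
    rw [← natDegree_vw, hv]
    exact Polynomial.natDegree_quadratic h0
  refine ⟨hd, ?_⟩
  rw [lcv, hd, hv]
  simp

/-- Specialisation of `SV` to one variable. -/
theorem J1a_map_SV (t : Fin 2) (s : Fin 4 × Fin 2 → Polynomial K) (hs : s (0, t) = Polynomial.X)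
    (Q : Fin 2 → MvPolynomial (Fin 4 × Fin 2) K) (q : Fin 2 → Polynomial K)
    (hQ : ∀ j, aeval s (Q j) = q j) (k : Fin 3) :
    aeval s (SV (W t) (mu (W t) e ![X (0, t), 1]) Q k) =
      SV (W t) (mu (W t) e ![Polynomial.X, 1]) q k := by
  rw [map_SV]
  congr 1
  · funext j
    rw [map_mu]
    congr 1
    funext k
    fin_cases k
    · simp [hs]
    · simp
  · funext j
    exact hQ j

theorem J1a_wd_ne (t : Fin 2) (q0 q1 : K) (hq : q1 ≠ 0) :
    wd (mu (W t) e ![(Polynomial.X : Polynomial K), 1]) ![Polynomial.C q0, Polynomial.C q1] ≠ 0 := by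
  obtain ⟨h1, h2, h3⟩ := mu_X_degrees (W t) e
  change mu (W t) e ![(Polynomial.X : Polynomial K), 1] 0 * Polynomial.C q1 -
    mu (W t) e ![(Polynomial.X : Polynomial K), 1] 1 * Polynomial.C q0 ≠ 0
  intro h0
  have h4 := congrArg (fun q => Polynomial.coeff q (4 ^ e)) h0
  have h5 : (mu (W t) e ![(Polynomial.X : Polynomial K), 1] 0).coeff (4 ^ e) = 1 := by
    have := h1.coeff_natDegree
    rwa [h2] at this
  simp only [Polynomial.coeff_sub, Polynomial.coeff_mul_C, Polynomial.coeff_zero] at h4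
  rw [h5, Polynomial.coeff_eq_zero_of_natDegree_lt h3, one_mul, zero_mul, sub_zero] at h4
  exact hq h4

theorem J1a_SV0_ne (t : Fin 2) :
    SV (W t) (mu (W t) e ![(Polynomial.X : Polynomial K), 1]) ![1, 1] 0 ≠ 0 := by
  obtain ⟨h1, h2, h3⟩ := mu_X_degrees (W t) e
  rw [SV_zero]
  generalize mu (W t) e ![(Polynomial.X : Polynomial K), 1] 0 = A at *
  generalize mu (W t) e ![(Polynomial.X : Polynomial K), 1] 1 = B at *
  have e0 : (A * ![(1 : Polynomial K), 1] 0) ^ 2 - algebraMap K (Polynomial K) (W t).b₄ *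
      (A * ![(1 : Polynomial K), 1] 0) * (B * ![(1 : Polynomial K), 1] 1) -
      algebraMap K (Polynomial K) (W t).b₆ * (A * ![(1 : Polynomial K), 1] 1 +
        B * ![(1 : Polynomial K), 1] 0) * (B * ![(1 : Polynomial K), 1] 1) -
      algebraMap K (Polynomial K) (W t).b₈ * (B * ![(1 : Polynomial K), 1] 1) ^ 2 =
      A ^ 2 - (algebraMap K (Polynomial K) (W t).b₄ * A * B +
        algebraMap K (Polynomial K) (W t).b₆ * (A + B) * B +
        algebraMap K (Polynomial K) (W t).b₈ * B ^ 2) := by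
    simp only [Matrix.cons_val_zero, Matrix.cons_val_one]
    ring
  rw [e0]
  have hB : B.natDegree ≤ 4 ^ e - 1 := by omega
  have hA : A.natDegree ≤ 4 ^ e := h2.le
  have ha : ∀ k : K, (algebraMap K (Polynomial K) k).natDegree ≤ 0 := fun k => by
    rw [← Polynomial.C_eq_algebraMap, Polynomial.natDegree_C]
  have h4 : (algebraMap K (Polynomial K) (W t).b₄ * A * B +
        algebraMap K (Polynomial K) (W t).b₆ * (A + B) * B +
        algebraMap K (Polynomial K) (W t).b₈ * B ^ 2).natDegree < 2 * 4 ^ e := by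
    refine lt_of_le_of_lt (Polynomial.natDegree_add_le_of_le (Polynomial.natDegree_add_le_of_le
      (Polynomial.natDegree_mul_le_of_le (Polynomial.natDegree_mul_le_of_le (ha _) hA) hB)
      (Polynomial.natDegree_mul_le_of_le (Polynomial.natDegree_mul_le_of_le (ha _)
        (Polynomial.natDegree_add_le_of_le hA hB)) hB))
      (Polynomial.natDegree_mul_le_of_le (ha _) (Polynomial.natDegree_pow_le_of_le 2 hB))) ?_
    have h5 : max (4 ^ e) (4 ^ e - 1) = 4 ^ e := max_eq_left (by omega)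
    rw [h5]
    simp only [max_lt_iff]
    omega
  have h6 : (A ^ 2).natDegree = 2 * 4 ^ e := by rw [h1.natDegree_pow, h2]
  refine (Polynomial.Monic.sub_of_left (h1.pow 2) ?_).ne_zero
  rw [Polynomial.degree_eq_natDegree (h1.pow 2).ne_zero, h6]
  exact lt_of_le_of_lt Polynomial.degree_le_natDegree (by exact_mod_cast h4)

/-- `SV_zero`, `SV_one`, `SV_two` and `degreeOf_mu_le`. -/
theorem relI_vars (i : Fin 4) (t : Fin 2) :
    (relI W e c i t).vars ⊆ {(0, t), (i, t), (2, t)} := by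
  refine J1a_vars _ _ fun y hy => ?_
  simp only [Finset.mem_insert, Finset.mem_singleton, not_or] at hy
  have h1 := J1a_relI W e c i t y
  rw [if_neg hy.1, if_neg hy.2.1, if_neg hy.2.2] at h1
  omega

theorem relI_degreeOf_zero_le (i : Fin 4) (hi : i = 1 ∨ i = 3) (t : Fin 2) :
    (relI W e c i t).degreeOf (0, t) ≤ 2 * 4 ^ e := by
  refine (J1a_relI W e c i t _).trans ?_
  rcases hi with rfl | rfl <;> simp

/-- By `S3_comm'` `relI` is the quadratic polynomial
`SV 0 - SV 1 * Z + SV 2 * Z ^ 2` in `Z = X (i, t)`, where `SV = SV (W t) (mu ..) (vc (c t) (X (2, t)))`. The leading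
coefficient `SV 2 = wd (mu ..) (vc ..) ^ 2` is nonzero: `wd (mu ..) (vc (c t) (X (2, t)))` is
`mu 0 - mu 1 * X (2, t)` or `mu 0 * X (2, t) - mu 1`, and `mu .. 0` is nonzero, not involving `X (2, t)` (it is monic
of degree `4 ^ e` in `X (0, t)`: `mu 0 = X ^ (4^e) + ..`, `deg mu 1 < 4^e` by induction; or: value at a
point: at the point `O` of the curve, i.e. `mu W e ![1, 0] = ![1, 0]` by induction and homogenisation). -/
theorem relI_degreeOf_i (i : Fin 4) (hi : i = 1 ∨ i = 3) (t : Fin 2) :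
    (relI W e c i t).degreeOf (i, t) = 2 ∧
      lcv (i, t) (relI W e c i t) =
        SV (W t) (mu (W t) e ![X (0, t), 1]) (vc (c t) (X (2, t))) 2 := by
  have hi0 : (i, t) ≠ ((0 : Fin 4), t) := by rcases hi with rfl | rfl <;> simp
  have hi2 : (i, t) ≠ ((2 : Fin 4), t) := by rcases hi with rfl | rfl <;> simp
  have hd : ∀ k : Fin 3, degreeOf (i, t) (SV (W t) (mu (W t) e ![X (0, t), 1])
      (vc (c t) (X (2, t) : MvPolynomial (Fin 4 × Fin 2) K)) k) ≤ 0 := by
    intro k
    refine (J1a_SV (W t) (E8_mu (W t) (E8_vec _ _) e) (E8_vc _ _ _) k).trans ?_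
    rw [if_neg hi0, if_neg hi2]
    simp
  have h0 : SV (W t) (mu (W t) e ![(X (0, t) : MvPolynomial (Fin 4 × Fin 2) K), 1])
      (vc (c t) (X (2, t))) 2 ≠ 0 := by
    rw [SV_two]
    refine pow_ne_zero 2 fun h => ?_
    cases hc : c t
    · rw [hc] at h
      have h1 := congrArg (aeval (fun p : Fin 4 × Fin 2 => if p = (2, t) then (0 : Polynomial K)
        else Polynomial.X)) h
      apply J1a_wd_ne W e t 0 1 one_ne_zero
      rw [← h1.trans (map_zero _)]
      unfold wd
      rw [map_sub, map_mul, map_mul, map_mu, map_mu]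
      congr 2
      · congr 2
        funext k
        fin_cases k
        · simp
        · simp
      · simp [vc]
      · congr 2
        funext k
        fin_cases k
        · simp
        · simp
      · simp [vc]
    · rw [hc] at h
      have h1 := congrArg (aeval (fun p : Fin 4 × Fin 2 => if p = (2, t) then (1 : Polynomial K)
        else Polynomial.X)) h
      apply J1a_wd_ne W e t 1 1 one_ne_zero
      rw [← h1.trans (map_zero _)]
      unfold wd
      rw [map_sub, map_mul, map_mul, map_mu, map_mu]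
      congr 2
      · congr 2
        funext k
        fin_cases k
        · simp
        · simp
      · simp [vc]
      · congr 2
        funext k
        fin_cases k
        · simp
        · simp
      · simp [vc]
  refine J1a_quad (i, t) _ (-(SV (W t) (mu (W t) e ![X (0, t), 1]) (vc (c t) (X (2, t))) 1)) _
    (hd 0) ?_ (hd 2) h0 _ ?_
  · rw [degreeOf_neg]
    exact hd 1
  · unfold relI
    rw [S3_comm', S3, QF]
    simp only [Matrix.cons_val_zero, Matrix.cons_val_one]
    ring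

/-- The coefficient of `X (2, t) ^ 2`: with `SV = SV (W t) (mu ..) ![X (i, t), 1]` the polynomial is
`SV 0 - SV 1 * ξ + SV 2 * ξ ^ 2` in the chart `false` (`ξ = X (2, t)`) and `SV 0 * ξ ^ 2 - SV 1 * ξ + SV 2` in the
chart `true`. `SV 0` is nonzero: it is `(mu 0 * X i) ^ 2 + ` terms of lower degree in `X (i, t)`. -/
theorem relI_degreeOf_two (i : Fin 4) (hi : i = 1 ∨ i = 3) (t : Fin 2) :
    (relI W e c i t).degreeOf (2, t) = 2 ∧
      lcv (2, t) (relI W e c i t) =
        SV (W t) (mu (W t) e ![X (0, t), 1]) ![X (i, t), 1] (if c t then 0 else 2) := by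
  have hi0 : (i, t) ≠ ((0 : Fin 4), t) := by rcases hi with rfl | rfl <;> simp
  have h20 : ((2 : Fin 4), t) ≠ ((0 : Fin 4), t) := by simp
  have hi2 : ((2 : Fin 4), t) ≠ (i, t) := by rcases hi with rfl | rfl <;> simp
  let φ : Fin 4 × Fin 2 → Polynomial K := fun p => if p = (0, t) then Polynomial.X else 1
  have hφ0 : φ (0, t) = Polynomial.X := if_pos rfl
  have hφi : φ (i, t) = 1 := if_neg hi0
  have hd : ∀ k : Fin 3, degreeOf (2, t) (SV (W t) (mu (W t) e ![X (0, t), 1])
      (![(X (i, t) : MvPolynomial (Fin 4 × Fin 2) K), 1] : Fin 2 → _) k) ≤ 0 := by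
    intro k
    refine (J1a_SV (W t) (E8_mu (W t) (E8_vec _ _) e) (E8_vec _ _) k).trans ?_
    rw [if_neg h20, if_neg hi2]
    simp
  have h0 : SV (W t) (mu (W t) e ![(X (0, t) : MvPolynomial (Fin 4 × Fin 2) K), 1])
      ![X (i, t), 1] 0 ≠ 0 := by
    intro h
    apply J1a_SV0_ne W e t
    rw [← J1a_map_SV W e t φ hφ0 ![X (i, t), 1] ![1, 1] _ 0, h, map_zero]
    intro j
    fin_cases j
    · simp [hφi]
    · simp
  have h2 : SV (W t) (mu (W t) e ![(X (0, t) : MvPolynomial (Fin 4 × Fin 2) K), 1])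
      ![X (i, t), 1] 2 ≠ 0 := by
    intro h
    have h1 := congrArg (aeval φ) h
    rw [J1a_map_SV W e t φ hφ0 ![X (i, t), 1] ![Polynomial.C 1, Polynomial.C 1] _ 2,
      map_zero, SV_two] at h1
    · exact J1a_wd_ne W e t 1 1 one_ne_zero ((pow_eq_zero_iff two_ne_zero).1 h1)
    · intro j
      fin_cases j
      · simp [hφi]
      · simp
  cases hc : c t
  · rw [if_neg (by simp)]
    refine J1a_quad (2, t) _ (-(SV (W t) (mu (W t) e ![X (0, t), 1]) ![X (i, t), 1] 1)) _
      (hd 0) ?_ (hd 2) h2 _ ?_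
    · rw [degreeOf_neg]
      exact hd 1
    · unfold relI
      rw [S3, QF, hc]
      simp only [vc, Matrix.cons_val_zero, Matrix.cons_val_one, if_neg, Bool.false_eq_true,
        not_false_eq_true]
      ring
  · rw [if_pos rfl]
    refine J1a_quad (2, t) _ (-(SV (W t) (mu (W t) e ![X (0, t), 1]) ![X (i, t), 1] 1)) _
      (hd 2) ?_ (hd 0) h0 _ ?_
    · rw [degreeOf_neg]
      exact hd 1
    · unfold relI
      rw [S3, QF, hc]
      simp only [vc, Matrix.cons_val_zero, Matrix.cons_val_one, if_pos]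
      ring

theorem relI_ne_zero (i : Fin 4) (hi : i = 1 ∨ i = 3) (t : Fin 2) : relI W e c i t ≠ 0 := by
  intro h
  have h1 := (relI_degreeOf_i W e c i hi t).1
  rw [h, degreeOf_zero] at h1
  exact absurd h1 (by norm_num)

/-- `S3_size` (E2) for the seminorm `NV v` (with `K = L`), `mu_size`; `NV v (X ..) = 1`, `NV v 1 = 1`:
exponent `20 + 2 * 16 * 4 ^ e ≤ 52 * 4 ^ e`. -/
theorem NV_relI_le (v : AbsoluteValue K ℝ) (i : Fin 4) (t : Fin 2) :
    NV v (relI W e c i t) ≤ lc (W t) v ^ (52 * 4 ^ e) := by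
  have hSN := SN_NV v (σ := Fin 4 × Fin 2)
  have h1 : NV v (1 : MvPolynomial (Fin 4 × Fin 2) K) ≤ 1 := hSN.one_le
  have hX : ∀ y : Fin 4 × Fin 2, ∀ j : Fin 2,
      NV v ((![(X y : MvPolynomial (Fin 4 × Fin 2) K), 1] : Fin 2 → _) j) ≤ 1 := by
    intro y j
    fin_cases j
    · exact (NV_X v y).le
    · exact h1
  have hc : ∀ j : Fin 2, NV v (vc (c t) (X (2, t) : MvPolynomial (Fin 4 × Fin 2) K) j) ≤ 1 := by
    intro j
    cases c t
    · exact hX _ j
    · fin_cases j
      · exact h1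
      · exact (NV_X v _).le
  have hmu := mu_size (W t) hSN e ![(X (0, t) : MvPolynomial (Fin 4 × Fin 2) K), 1] (hX (0, t))
  have h := S3_size (W t) hSN _ ![(X (i, t) : MvPolynomial (Fin 4 × Fin 2) K), 1]
    (vc (c t) (X (2, t))) hmu (hX (i, t)) hc
  refine h.trans ?_
  rw [one_pow, mul_one, mul_one, mul_one, ← pow_mul, ← pow_add]
  refine lc_pow_mono (W t) v ?_
  have : 1 ≤ 4 ^ e := Nat.one_le_pow _ _ (by norm_num)
  omega

end

/-- From `NV_relI_le` and `gs_log_lc_le` (E1) for `L = K`. -/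
theorem nh_relI_le {K : Type u} [Field K] [NumberField K] (W : Fin 2 → WeierstrassCurve K) :
    ∃ C : ℝ, 0 ≤ C ∧ ∀ (e : ℕ) (c : Fin 2 → Bool) (i : Fin 4) (t : Fin 2), (i = 1 ∨ i = 3) →
      nh (relI W e c i t) ≤ C * 4 ^ e := by
  have hC : ∀ t, ∃ C : ℝ, 0 ≤ C ∧
      gs (fun v : AbsoluteValue K ℝ => Real.log (lc (W t) v)) ≤ C := by
    intro t
    obtain ⟨C, hC0, hC⟩ := gs_log_lc_le (W t)
    exact ⟨C * Module.finrank ℚ K, by positivity, hC K⟩
  choose C hC0 hC using hC
  refine ⟨52 * (C 0 + C 1), by have := hC0 0; have := hC0 1; positivity, ?_⟩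
  intro e c i t hi
  have hle : C t ≤ C 0 + C 1 := by
    fin_cases t
    · exact le_add_of_nonneg_right (hC0 1)
    · exact le_add_of_nonneg_left (hC0 0)
  have hne := relI_ne_zero W e c i hi t
  have h1 : nh (relI W e c i t) ≤
      gs (fun v : AbsoluteValue K ℝ => ((52 * 4 ^ e : ℕ) : ℝ) * Real.log (lc (W t) v)) := by
    refine gs_le (FS_log_NV hne) (FS_const_mul _ (FS_log_lc (W t))) fun v _ => ?_
    rw [← Real.log_pow]
    exact Real.log_le_log (NV_pos v hne) (NV_relI_le W e c v i t)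
  rw [gs_const_mul] at h1
  refine h1.trans ?_
  calc ((52 * 4 ^ e : ℕ) : ℝ) * gs (fun v : AbsoluteValue K ℝ => Real.log (lc (W t) v))
      ≤ ((52 * 4 ^ e : ℕ) : ℝ) * (C 0 + C 1) :=
        mul_le_mul_of_nonneg_left ((hC t).trans hle) (Nat.cast_nonneg _)
    _ = 52 * (C 0 + C 1) * 4 ^ e := by
        push_cast
        ring

end Pool.Agent.Lib.MP_17a322_nt.VJ
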