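import Pool.Agent.Lib.MP_17a322_nt.VJ.A3

/-!
The size of polynomials in one variable as a seminorm.
-/

namespace Pool.Agent.Lib.MP_17a322_nt.VJ

open MvPolynomial Height

private theorem A8_na {L : Type*} [Field L] {v : AbsoluteValue L ℝ} (hv : IsNonarchimedean v)
    (F : Polynomial L) : NP v (fun x => v x) F = ⨆ m, v (F.coeff m) := by
  unfold NP
  rw [if_pos hv]

private theorem A8_ar {L : Type*} [Field L] {v : AbsoluteValue L ℝ} (hv : ¬ IsNonarchimedean v)
    (F : Polynomial L) : NP v (fun x => v x) F = ∑ m ∈ F.support, v (F.coeff m) := by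
  unfold NP
  rw [if_neg hv]

private theorem A8_ars {L : Type*} [Field L] {v : AbsoluteValue L ℝ} (hv : ¬ IsNonarchimedean v)
    (F : Polynomial L) (s : Finset ℕ) (hs : F.support ⊆ s) :
    NP v (fun x => v x) F = ∑ m ∈ s, v (F.coeff m) := by
  rw [A8_ar hv]
  refine Finset.sum_subset hs (fun m _ hm => ?_)
  rw [Polynomial.notMem_support_iff.1 hm, map_zero]

private theorem A8_bdd {L : Type*} [Field L] (v : AbsoluteValue L ℝ) (F : Polynomial L) :
    BddAbove (Set.range fun m => v (F.coeff m)) := by
  refine ⟨∑ m ∈ F.support, v (F.coeff m), ?_⟩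
  rintro _ ⟨m, rfl⟩
  by_cases hm : m ∈ F.support
  · exact Finset.single_le_sum (f := fun m => v (F.coeff m)) (fun i _ => v.nonneg _) hm
  · have h1 : v (F.coeff m) = 0 := by rw [Polynomial.notMem_support_iff.1 hm, map_zero]
    show v (F.coeff m) ≤ _
    rw [h1]
    exact Finset.sum_nonneg (fun i _ => v.nonneg _)

private theorem A8_coeff_le {L : Type*} [Field L] (v : AbsoluteValue L ℝ)
    (F : Polynomial L) (m : ℕ) : v (F.coeff m) ≤ NP v (fun x => v x) F := by
  by_cases hv : IsNonarchimedean v
  · rw [A8_na hv]
    exact le_ciSup (A8_bdd v F) m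
  · rw [A8_ar hv]
    by_cases hm : m ∈ F.support
    · exact Finset.single_le_sum (f := fun m => v (F.coeff m)) (fun i _ => v.nonneg _) hm
    · rw [Polynomial.notMem_support_iff.1 hm, map_zero]
      exact Finset.sum_nonneg (fun i _ => v.nonneg _)

private theorem A8_nonneg {L : Type*} [Field L] (v : AbsoluteValue L ℝ)
    (F : Polynomial L) : 0 ≤ NP v (fun x => v x) F :=
  (v.nonneg _).trans (A8_coeff_le v F 0)

private theorem A8_monomial {L : Type*} [Field L] (v : AbsoluteValue L ℝ) (m : ℕ)
    (c : L) : NP v (fun x => v x) (Polynomial.monomial m c) = v c := by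
  by_cases hv : IsNonarchimedean v
  · rw [A8_na hv]
    refine le_antisymm (ciSup_le fun n => ?_) ?_
    · rw [Polynomial.coeff_monomial]
      split_ifs
      · exact le_rfl
      · rw [map_zero]
        exact v.nonneg _
    · have h1 := le_ciSup (A8_bdd v (Polynomial.monomial m c)) m
      have h2 : (Polynomial.monomial m c).coeff m = c := by rw [Polynomial.coeff_monomial, if_pos rfl]
      simp only [h2] at h1
      exact h1
  · rw [A8_ars hv (Polynomial.monomial m c) {m} (Polynomial.support_monomial_subset m c),
      Finset.sum_singleton, Polynomial.coeff_monomial, if_pos rfl]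

private theorem A8_add_max {L : Type*} [Field L] {v : AbsoluteValue L ℝ} (hv : IsNonarchimedean v)
    (F G : Polynomial L) : NP v (fun x => v x) (F + G) ≤
      max (NP v (fun x => v x) F) (NP v (fun x => v x) G) := by
  rw [A8_na hv (F + G)]
  refine ciSup_le fun m => ?_
  rw [Polynomial.coeff_add]
  exact (hv _ _).trans (max_le_max (A8_coeff_le v F m) (A8_coeff_le v G m))

private theorem A8_add {L : Type*} [Field L] (v : AbsoluteValue L ℝ)
    (F G : Polynomial L) : NP v (fun x => v x) (F + G) ≤
      NP v (fun x => v x) F + NP v (fun x => v x) G := by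
  classical
  by_cases hv : IsNonarchimedean v
  · refine (A8_add_max hv F G).trans (max_le ?_ ?_)
    · have := A8_nonneg v G
      linarith
    · have := A8_nonneg v F
      linarith
  · rw [A8_ars hv (F + G) (F.support ∪ G.support) Polynomial.support_add,
      A8_ars hv F (F.support ∪ G.support) Finset.subset_union_left,
      A8_ars hv G (F.support ∪ G.support) Finset.subset_union_right, ← Finset.sum_add_distrib]
    refine Finset.sum_le_sum (fun m _ => ?_)
    rw [Polynomial.coeff_add]
    exact v.add_le _ _

private theorem A8_zero {L : Type*} [Field L] (v : AbsoluteValue L ℝ) :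
    NP v (fun x => v x) (0 : Polynomial L) = 0 := by
  have h := A8_monomial v (0 : ℕ) (0 : L)
  rw [map_zero, map_zero] at h
  exact h

private theorem A8_sum {L : Type*} [Field L] (v : AbsoluteValue L ℝ) {ι : Type*} (s : Finset ι)
    (f : ι → Polynomial L) : NP v (fun x => v x) (∑ i ∈ s, f i) ≤
      ∑ i ∈ s, NP v (fun x => v x) (f i) := by
  classical
  induction s using Finset.induction_on with
  | empty => rw [Finset.sum_empty, Finset.sum_empty, A8_zero]
  | insert a s ha ih =>
    rw [Finset.sum_insert ha, Finset.sum_insert ha]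
    exact (A8_add v _ _).trans (by linarith)

/-- The size of a polynomial in one variable over `L` is a seminorm. Proof: as `SN_NV` (A2), or by
transfer along `MvPolynomial.pUnitAlgEquiv L : MvPolynomial PUnit L ≃ₐ[L] Polynomial L` (the
coefficients correspond). -/
theorem SN_NP {L : Type*} [Field L] (v : AbsoluteValue L ℝ) :
    SN v (fun p : Polynomial L => NP v (fun x => v x) p) := by
  refine ⟨fun F => A8_nonneg v F, A8_zero v, fun F => ?_, fun F G => A8_add v F G,
    fun hv F G => A8_add_max hv F G, fun F G => ?_, fun c => ?_⟩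
  · by_cases hv : IsNonarchimedean v
    · show NP v (fun x => v x) (-F) = NP v (fun x => v x) F
      rw [A8_na hv, A8_na hv]
      refine iSup_congr (fun m => ?_)
      rw [Polynomial.coeff_neg, v.map_neg]
    · show NP v (fun x => v x) (-F) = NP v (fun x => v x) F
      rw [A8_ar hv, A8_ar hv, Polynomial.support_neg]
      refine Finset.sum_congr rfl (fun m _ => ?_)
      rw [Polynomial.coeff_neg, v.map_neg]
  · by_cases hv : IsNonarchimedean v
    · show NP v (fun x => v x) (F * G) ≤ NP v (fun x => v x) F * NP v (fun x => v x) G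
      rw [A8_na hv (F * G)]
      refine ciSup_le fun m => ?_
      rw [Polynomial.coeff_mul]
      refine SN.sum_le_max hv (SN_self v) _ _ (mul_nonneg (A8_nonneg v F) (A8_nonneg v G))
        (fun x _ => ?_)
      show v (F.coeff x.1 * G.coeff x.2) ≤ _
      rw [map_mul]
      exact mul_le_mul (A8_coeff_le v F _) (A8_coeff_le v G _) (v.nonneg _) (A8_nonneg v F)
    · show NP v (fun x => v x) (F * G) ≤ NP v (fun x => v x) F * NP v (fun x => v x) G
      have h1 : F * G = ∑ m ∈ F.support, ∑ n ∈ G.support,
          Polynomial.monomial (m + n) (F.coeff m * G.coeff n) := by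
        conv_lhs => rw [Polynomial.as_sum_support F, Polynomial.as_sum_support G,
          Finset.sum_mul_sum]
        refine Finset.sum_congr rfl (fun m _ => Finset.sum_congr rfl (fun n _ => ?_))
        rw [Polynomial.monomial_mul_monomial]
      rw [h1]
      refine (A8_sum v _ _).trans ?_
      rw [A8_ar hv F, A8_ar hv G, Finset.sum_mul_sum]
      refine Finset.sum_le_sum (fun m _ => (A8_sum v _ _).trans
        (Finset.sum_le_sum (fun n _ => ?_)))
      rw [A8_monomial, map_mul]
  · show NP v (fun x => v x) (algebraMap L (Polynomial L) c) ≤ v c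
    rw [Polynomial.algebraMap_eq, ← Polynomial.monomial_zero_left, A8_monomial]

theorem coeff_le_NP {L : Type*} [Field L] (v : AbsoluteValue L ℝ) (p : Polynomial L) (n : ℕ) :
    v (p.coeff n) ≤ NP v (fun x => v x) p :=
  A8_coeff_le v p n

theorem NP_X {L : Type*} [Field L] (v : AbsoluteValue L ℝ) :
    NP v (fun x => v x) (Polynomial.X : Polynomial L) = 1 := by
  rw [← Polynomial.monomial_one_one_eq_X, A8_monomial, map_one]

theorem NP_C {L : Type*} [Field L] (v : AbsoluteValue L ℝ) (c : L) :
    NP v (fun x => v x) (Polynomial.C c) = v c := by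
  rw [← Polynomial.monomial_zero_left, A8_monomial]

end Pool.Agent.Lib.MP_17a322_nt.VJ
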