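import Pool.Agent.Lib.MP_17a322_nt.Mb

set_option autoImplicit false
set_option linter.unusedSectionVars false

/-! # JOB B1: Gelfond's inequality on the circle

* `circle_ge`: the Mahler measure is at most the maximum on the unit circle: the continuous function `z ↦ ‖P.eval z‖` attains its maximum at some `z` of the compact set `Metric.sphere (0:ℂ) 1`; `0 < ‖P.eval z‖` (otherwise `P` vanishes on the whole circle, an infinite set, `P = 0`).
  `P.mahlerMeasure = exp (circleAverage (fun x => log ‖P.eval x‖) 0 1)` (`mahlerMeasure_def_of_ne_zero`, `logMahlerMeasure`), and the average of a function that is `≤ c := log ‖P.eval z‖` on the circle is `≤ c` (`Real.circleAverage_mono_on_of_le_circle`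
  or similar; the integrability is `Polynomial.intervalIntegrable_mahlerMeasure`, `circleIntegrable_def`; note `log 0 = 0` in Lean: at a zero `x` of `P` on the circle the function has the value `0`, which may be bigger than `c`!  So compare almost everywhere, or use `max`:
  the set of zeros is finite, hence of measure 0 on the circle: `intervalIntegral.integral_mono_ae`; or replace by scaling: for `a > 0` real large `C a * P` has `‖(C a * P).eval z‖ ≥ 1`, `M(a P) = a M(P)` (`mahlerMeasure_mul`, `mahlerMeasure_const`), so WLOG `c ≥ 0` and then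
  `log ‖P.eval x‖ ≤ c` everywhere on the circle).
* `circle_pick`: if some `(G j).coeff (b j)` is `0` the left side is `0` (take `z = 1`).  Otherwise all `G j ≠ 0`; `P = ∏ G j ≠ 0`, `∏ M(G j) = M(P) ≤ ‖P.eval z‖ = ∏ ‖(G j).eval z‖` (`prod_mahlerMeasure_eq_mahlerMeasure_prod` or induction with `mahlerMeasure_mul`), and
  `‖(G j).coeff (b j)‖ ≤ (natDegree).choose (b j) * M(G j) ≤ 2^natDegree * M(G j)` (`norm_coeff_le_choose_mul_mahlerMeasure`, `Nat.choose_le_two_pow`). -/

namespace Pool.Agent.Lib.MP_17a322_nt.VJ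

open Polynomial

theorem B1_infinite : (Metric.sphere (0 : ℂ) 1).Infinite := by
  have h1 : (Set.uIoc (0 : ℝ) 1).InjOn (circleMap (0 : ℂ) 1) := by
    apply injOn_circleMap_of_abs_sub_le one_ne_zero
    have := Real.pi_gt_three
    norm_num
    linarith
  have h2 : (Set.uIoc (0 : ℝ) 1).Infinite := by
    rw [Set.uIoc_of_le zero_le_one]
    exact Set.Ioc_infinite zero_lt_one
  exact Set.infinite_of_injOn_mapsTo h1 (fun x _ => circleMap_mem_sphere 0 zero_le_one x) h2

theorem B1_le_one (P : Polynomial ℂ) (h : ∀ z : ℂ, ‖z‖ = 1 → ‖P.eval z‖ ≤ 1) :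
    P.mahlerMeasure ≤ 1 := by
  by_cases hP : P = 0
  · simp [hP]
  have h0 : Real.circleAverage (fun z => Real.log ‖P.eval z‖) 0 1 ≤ 0 := by
    refine Real.circleAverage_mono_on_of_le_circle ?_ ?_
    · rw [circleIntegrable_def]
      exact P.intervalIntegrable_mahlerMeasure
    · intro x hx
      have hx1 : ‖x‖ = 1 := by simpa using hx
      exact Real.log_nonpos (norm_nonneg _) (h x hx1)
  rw [mahlerMeasure_def_of_ne_zero hP, Real.exp_le_one_iff]
  exact h0

theorem circle_ge (P : Polynomial ℂ) : ∃ z : ℂ, ‖z‖ = 1 ∧ P.mahlerMeasure ≤ ‖P.eval z‖ := by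
  by_cases hP : P = 0
  · exact ⟨1, by simp, by simp [hP]⟩
  obtain ⟨z, hz, hmax⟩ := (isCompact_sphere (0 : ℂ) 1).exists_isMaxOn ⟨1, by simp⟩
    (f := fun z => ‖P.eval z‖) (by fun_prop)
  have hz1 : ‖z‖ = 1 := by simpa using hz
  refine ⟨z, hz1, ?_⟩
  have hle : ∀ x : ℂ, ‖x‖ = 1 → ‖P.eval x‖ ≤ ‖P.eval z‖ := fun x hx => hmax (by simpa using hx)
  have hcpos : 0 < ‖P.eval z‖ := by
    by_contra hcon
    have hc0 : ‖P.eval z‖ = 0 := le_antisymm (not_lt.mp hcon) (norm_nonneg _)
    apply hP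
    apply Polynomial.eq_zero_of_infinite_isRoot
    refine B1_infinite.mono fun x hx => ?_
    have hx1 : ‖x‖ = 1 := by simpa using hx
    have h2 := hle x hx1
    rw [hc0] at h2
    exact norm_le_zero_iff.mp h2
  have h3 : (C (((‖P.eval z‖ : ℝ) : ℂ)⁻¹) * P).mahlerMeasure ≤ 1 := by
    apply B1_le_one
    intro x hx
    rw [eval_mul, eval_C, norm_mul, norm_inv, Complex.norm_real, norm_norm, inv_mul_le_iff₀ hcpos,
      mul_one]
    exact hle x hx
  rw [mahlerMeasure_mul, mahlerMeasure_const, norm_inv, Complex.norm_real, norm_norm,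
    inv_mul_le_iff₀ hcpos, mul_one] at h3
  exact h3

theorem circle_pick {κ : Type*} (s : Finset κ) (G : κ → Polynomial ℂ) (b : κ → ℕ) :
    ∃ z : ℂ, ‖z‖ = 1 ∧ ∏ j ∈ s, ‖(G j).coeff (b j)‖ ≤
      2 ^ (∑ j ∈ s, (G j).natDegree) * ∏ j ∈ s, ‖(G j).eval z‖ := by
  obtain ⟨z, hz, hle⟩ := circle_ge (∏ j ∈ s, G j)
  refine ⟨z, hz, ?_⟩
  have h1 : (∏ j ∈ s, G j).mahlerMeasure = ∏ j ∈ s, (G j).mahlerMeasure := by
    classical
    refine Finset.induction_on s (by simp) ?_
    intro a t ha ih
    rw [Finset.prod_insert ha, Finset.prod_insert ha, mahlerMeasure_mul, ih]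
  rw [h1, eval_prod, norm_prod] at hle
  calc ∏ j ∈ s, ‖(G j).coeff (b j)‖
      ≤ ∏ j ∈ s, ((2 : ℝ) ^ (G j).natDegree * (G j).mahlerMeasure) := by
        refine Finset.prod_le_prod (fun j _ => norm_nonneg _) fun j _ => ?_
        refine (norm_coeff_le_choose_mul_mahlerMeasure (b j) (G j)).trans ?_
        refine mul_le_mul_of_nonneg_right ?_ (mahlerMeasure_nonneg _)
        exact_mod_cast Nat.choose_le_two_pow _ _
    _ = 2 ^ (∑ j ∈ s, (G j).natDegree) * ∏ j ∈ s, (G j).mahlerMeasure := by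
        rw [Finset.prod_mul_distrib, Finset.prod_pow_eq_pow_sum]
    _ ≤ _ := mul_le_mul_of_nonneg_left hle (by positivity)

end Pool.Agent.Lib.MP_17a322_nt.VJ
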