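import Pool.Agent.Lib.MP_17a322_nt.VJ.Defs

/-!
# C1: basic properties of `vw` (a polynomial viewed as a polynomial in the variable `y`)

* `vwHom y`: the algebra homomorphism; `vw y F = vwHom y F` by definition; so `vw_add`, `vw_mul`, `vw_C`, ... .
* `vw_monomial`: write `monomial s a = monomial (s.erase y) a * X y ^ (s y)` (`Finsupp.erase_add_single`, `monomial_add_single`, or `monomial_eq` and
  `Finsupp.prod`) and prove first that `vw y (monomial s a) = C (monomial s a)` if `s y = 0` (`aeval_monomial`, `Finsupp.prod_congr`: every `t` in the support of `s` is `≠ y`;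
  `monomial_eq`, `map_mul`, `map_finsuppProd`).
* `coeff_vw`: both sides are additive in `F` (`MvPolynomial.induction_on'`, or `F.as_sum`); for a monomial `monomial u a`: `vw_monomial`, `coeff_monomial`,
  `Polynomial.coeff_C_mul_X_pow`; `u.erase y = s ∧ u y = k ↔ s y = 0 ∧ u = s + single y k`.
* `eval_vw`: `vwHom y` followed by evaluation at `X y` is an algebra homomorphism which fixes all variables (`algHom_ext`).
* `natDegree_vw`: from `coeff_vw`: `(vw y F).coeff k ≠ 0` iff some exponent `u` in the support of `F` has `u y = k`; `degreeOf_eq_sup`.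
* `degreeOf_coeff_vw(_self)`, `vars_coeff_vw`: `coeff_vw` describes the support of the coefficient; `degreeOf_le_iff`, `mem_vars`.
* `aeval_vw`: both sides are ring homomorphisms in `F` (`MvPolynomial.induction_on` or `ringHom_ext`); variables `t = y` and `t ≠ y` (`Function.update`).
* `vw_map`: the same.
-/

set_option linter.unusedSectionVars false

namespace Pool.Agent.Lib.MP_17a322_nt.VJ

open MvPolynomial

section
variable {R σ : Type*} [CommRing R] [DecidableEq σ] (y : σ)

/-- `vw` as an algebra homomorphism -/
noncomputable def vwHom : MvPolynomial σ R →ₐ[R] Polynomial (MvPolynomial σ R) :=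
  aeval (fun t => if t = y then Polynomial.X else Polynomial.C (X t))

theorem vw_eq_hom (F : MvPolynomial σ R) : vw y F = vwHom y F := rfl

theorem vw_zero : vw y (0 : MvPolynomial σ R) = 0 := map_zero (vwHom y)

theorem vw_add (F G : MvPolynomial σ R) : vw y (F + G) = vw y F + vw y G := map_add (vwHom y) F G

theorem vw_mul (F G : MvPolynomial σ R) : vw y (F * G) = vw y F * vw y G := map_mul (vwHom y) F G

theorem vw_C (a : R) : vw y (C a : MvPolynomial σ R) = Polynomial.C (C a) := by
  rw [vw_eq_hom]
  exact (vwHom y).commutes a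

theorem vw_X_self : vw y (X y : MvPolynomial σ R) = Polynomial.X := by
  rw [vw_eq_hom, vwHom, aeval_X, if_pos rfl]

theorem vw_X_of_ne {t : σ} (h : t ≠ y) : vw y (X t : MvPolynomial σ R) = Polynomial.C (X t) := by
  rw [vw_eq_hom, vwHom, aeval_X, if_neg h]

theorem C1_mono0 (s : σ →₀ ℕ) (a : R) (h : s y = 0) :
    vw y (monomial s a) = Polynomial.C (monomial s a) := by
  rw [vw_eq_hom, monomial_eq, Finsupp.prod, map_mul, map_prod, map_mul, map_prod]
  congr 1
  · exact (vwHom y).commutes a
  · refine Finset.prod_congr rfl fun t ht => ?_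
    have hty : t ≠ y := by
      rintro rfl
      exact (Finsupp.mem_support_iff.1 ht) h
    rw [map_pow, map_pow, vwHom, aeval_X, if_neg hty]

theorem vw_monomial (s : σ →₀ ℕ) (a : R) :
    vw y (monomial s a) = Polynomial.C (monomial (s.erase y) a) * Polynomial.X ^ (s y) := by
  have h1 : (monomial s a : MvPolynomial σ R) = monomial (s.erase y) a * X y ^ (s y) := by
    conv_lhs => rw [← Finsupp.erase_add_single y s]
    rw [monomial_add_single]
  rw [h1, vw_mul, C1_mono0 y (s.erase y) a (Finsupp.erase_same), vw_eq_hom, map_pow, ← vw_eq_hom,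
    vw_X_self]

theorem coeff_vw (F : MvPolynomial σ R) (k : ℕ) (s : σ →₀ ℕ) :
    coeff s ((vw y F).coeff k) = if s y = 0 then coeff (s + Finsupp.single y k) F else 0 := by
  induction F using MvPolynomial.induction_on' with
  | monomial u a =>
    rw [vw_monomial, Polynomial.coeff_C_mul_X_pow, coeff_monomial]
    by_cases hk : k = u y
    · rw [if_pos hk, coeff_monomial]
      by_cases hs : s y = 0
      · rw [if_pos hs]
        by_cases hu : u.erase y = s
        · rw [if_pos hu, if_pos]
          rw [← hu, hk, Finsupp.erase_add_single]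
        · rw [if_neg hu, if_neg]
          intro h
          apply hu
          rw [h]
          ext t
          by_cases ht : t = y
          · subst ht
            rw [Finsupp.erase_same, hs]
          · rw [Finsupp.erase_ne ht, Finsupp.add_apply, Finsupp.single_eq_of_ne (by tauto), add_zero]
      · rw [if_neg hs, if_neg]
        intro h
        apply hs
        rw [← h, Finsupp.erase_same]
    · rw [if_neg hk, coeff_zero]
      by_cases hs : s y = 0
      · rw [if_pos hs, if_neg]
        intro h
        apply hk
        rw [h, Finsupp.add_apply, hs, Finsupp.single_eq_same, zero_add]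
      · rw [if_neg hs]
  | add F G hF hG =>
    rw [vw_add, Polynomial.coeff_add, coeff_add, hF, hG, coeff_add]
    split_ifs
    · rfl
    · rw [add_zero]

theorem eval_vw (F : MvPolynomial σ R) : (vw y F).eval (X y) = F := by
  induction F using MvPolynomial.induction_on' with
  | monomial u a =>
    rw [vw_monomial, Polynomial.eval_mul, Polynomial.eval_C, Polynomial.eval_pow, Polynomial.eval_X]
    conv_rhs => rw [← Finsupp.erase_add_single y u]
    rw [monomial_add_single]
  | add F G hF hG => rw [vw_add, Polynomial.eval_add, hF, hG]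

theorem vw_injective : Function.Injective (vw (R := R) y) := by
  intro F G h
  rw [← eval_vw y F, ← eval_vw y G, h]

theorem vw_ne_zero {F : MvPolynomial σ R} (hF : F ≠ 0) : vw y F ≠ 0 := by
  intro h
  apply hF
  rw [← eval_vw y F, h, Polynomial.eval_zero]

theorem natDegree_vw (F : MvPolynomial σ R) : (vw y F).natDegree = F.degreeOf y := by
  apply le_antisymm
  · rw [Polynomial.natDegree_le_iff_coeff_eq_zero]
    intro k hk
    ext s
    rw [coeff_vw, coeff_zero]
    by_cases hs : s y = 0
    · rw [if_pos hs]
      by_contra h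
      have h2 : (s + Finsupp.single y k) ∈ F.support := mem_support_iff.2 h
      have h3 := le_degreeOf_of_mem_support y h2
      rw [Finsupp.add_apply, hs, Finsupp.single_eq_same] at h3
      omega
    · rw [if_neg hs]
  · rw [degreeOf_le_iff]
    intro u hu
    apply Polynomial.le_natDegree_of_ne_zero
    intro h
    have h1 := coeff_vw y F (u y) (u.erase y)
    rw [h, coeff_zero, if_pos (Finsupp.erase_same), Finsupp.erase_add_single] at h1
    exact (mem_support_iff.1 hu) h1.symm

theorem degreeOf_coeff_vw (F : MvPolynomial σ R) (k : ℕ) (t : σ) :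
    ((vw y F).coeff k).degreeOf t ≤ F.degreeOf t := by
  rw [degreeOf_le_iff]
  intro s hs
  have h := mem_support_iff.1 hs
  rw [coeff_vw] at h
  by_cases h0 : s y = 0
  · rw [if_pos h0] at h
    have h3 := le_degreeOf_of_mem_support t (mem_support_iff.2 h)
    rw [Finsupp.add_apply] at h3
    omega
  · rw [if_neg h0] at h
    exact absurd rfl h

theorem degreeOf_coeff_vw_self (F : MvPolynomial σ R) (k : ℕ) :
    ((vw y F).coeff k).degreeOf y = 0 := by
  rw [← Nat.le_zero, degreeOf_le_iff]
  intro s hs
  have h := mem_support_iff.1 hs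
  rw [coeff_vw] at h
  by_cases h0 : s y = 0
  · omega
  · rw [if_neg h0] at h
    exact absurd rfl h

theorem vars_coeff_vw (F : MvPolynomial σ R) (k : ℕ) : ((vw y F).coeff k).vars ⊆ F.vars.erase y := by
  intro t ht
  rw [mem_vars_iff_mem_support] at ht
  obtain ⟨s, hs, hts⟩ := ht
  have h := mem_support_iff.1 hs
  rw [coeff_vw] at h
  by_cases h0 : s y = 0
  · rw [if_pos h0] at h
    rw [Finset.mem_erase]
    refine ⟨?_, ?_⟩
    · rintro rfl
      exact (Finsupp.mem_support_iff.1 hts) h0
    · rw [mem_vars_iff_mem_support]
      refine ⟨_, mem_support_iff.2 h, ?_⟩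
      rw [Finsupp.mem_support_iff, Finsupp.add_apply]
      have := Finsupp.mem_support_iff.1 hts
      omega
  · rw [if_neg h0] at h
    exact absurd rfl h

theorem aeval_vw {S : Type*} [CommRing S] [Algebra R S] (s : σ → S) (r : S) (F : MvPolynomial σ R) :
    ((vw y F).map (aeval s : MvPolynomial σ R →ₐ[R] S).toRingHom).eval r =
      aeval (Function.update s y r) F := by
  induction F using MvPolynomial.induction_on with
  | C a =>
    rw [vw_C, Polynomial.map_C, Polynomial.eval_C]
    simp
  | add F G hF hG => rw [vw_add, Polynomial.map_add, Polynomial.eval_add, hF, hG, map_add]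
  | mul_X F t hF =>
    rw [vw_mul, Polynomial.map_mul, Polynomial.eval_mul, hF, map_mul]
    congr 1
    by_cases ht : t = y
    · subst ht
      rw [vw_X_self, Polynomial.map_X, Polynomial.eval_X, aeval_X, Function.update_self]
    · rw [vw_X_of_ne y ht, Polynomial.map_C, Polynomial.eval_C, aeval_X, Function.update_of_ne ht]
      simp

theorem aeval_vw' {S : Type*} [CommRing S] [Algebra R S] (s : σ → S) (F : MvPolynomial σ R) :
    ((vw y F).map (aeval s : MvPolynomial σ R →ₐ[R] S).toRingHom).eval (s y) = aeval s F := by
  rw [aeval_vw, Function.update_eq_self]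

/-- a polynomial not involving `y` -/
theorem vw_of_degreeOf_eq_zero {F : MvPolynomial σ R} (h : F.degreeOf y = 0) :
    vw y F = Polynomial.C F := by
  have h1 := natDegree_vw y F
  rw [h] at h1
  have h2 := Polynomial.eq_C_of_natDegree_eq_zero h1
  have h3 := eval_vw y F
  rw [h2, Polynomial.eval_C] at h3
  rw [h2, h3]

theorem aeval_update_of_degreeOf_eq_zero {S : Type*} [CommRing S] [Algebra R S] (s : σ → S) (r : S)
    {F : MvPolynomial σ R} (h : F.degreeOf y = 0) : aeval (Function.update s y r) F = aeval s F := by
  rw [← aeval_vw, vw_of_degreeOf_eq_zero y h, Polynomial.map_C, Polynomial.eval_C]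
  rfl

theorem vw_map {R' : Type*} [CommRing R'] (φ : R →+* R') (F : MvPolynomial σ R) :
    vw y (map φ F) = (vw y F).map (map φ) := by
  induction F using MvPolynomial.induction_on with
  | C a => rw [map_C, vw_C, vw_C, Polynomial.map_C, map_C]
  | add F G hF hG => rw [map_add, vw_add, vw_add, Polynomial.map_add, hF, hG]
  | mul_X F t hF =>
    rw [map_mul, vw_mul, vw_mul, Polynomial.map_mul, hF, map_X]
    congr 1
    by_cases ht : t = y
    · subst ht
      rw [vw_X_self, vw_X_self, Polynomial.map_X]
    · rw [vw_X_of_ne y ht, vw_X_of_ne y ht, Polynomial.map_C, map_X]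

end

end Pool.Agent.Lib.MP_17a322_nt.VJ
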