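import Pool.Agent.Lib.MP_17a322_nt.VJ.C1
import Pool.Agent.Lib.MP_17a322_nt.VJ.D1

/-!
# D3: the order of the resultant

* `OG_coeff_vw`: `coeff_vw` (C1): `coeff m ((vw y F).coeff j)` is `0` or `coeff (m + single y j) F`, and `weight (m + single y j) = weight m + j * w y` (`map_add`, `Finsupp.weight_single` or `Finsupp.weight_apply`, `smul_eq_mul`).
* `OG_El`: `El y f G` is the determinant of the Sylvester matrix of `vw y f`, `vw y G` with `p + n` rows (`p = f.degreeOf y`, `n = G.degreeOf y`).  By definition of `Polynomial.sylvester` (`Fin.addCases`) an entry of row `i` is `0` or a coefficient of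
  degree `j = i - j₁ ≤ i` of `vw y G` or `vw y f`; by `OG_coeff_vw` its order is at least `b - j * w y ≥ b - i * w y`, and of course at least `0` (`OG.of_nonpos`).
  So `IsFilt.det` (D1) for `isFilt_OG w` with the row orders `r i = b - i * w y` for `i < N` and `0` for `i ≥ N` gives the order `∑_{i<N} (b - i * w y) = N b - w y * N(N-1)/2`, and `w y * N ≤ b` gives
  `w y * N(N-1)/2 ≤ b (N-1)/2 ≤ b N/2` (for `N ≥ 1`, `b ≥ 0`; `N = 0` is trivial): `≥ b N/2`.  Sum over `Fin (p + n)`: `Fin.sum_univ_eq_sum_range`, `Finset.sum_ite`, `Finset.range` filtered; `Gauss sum`: `Finset.sum_range_id_mul_two` or induction.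
-/

set_option linter.unusedSectionVars false

namespace Pool.Agent.Lib.MP_17a322_nt.VJ

open MvPolynomial

section
variable {R σ : Type*} [CommRing R] [DecidableEq σ] {w : σ → ℕ}

theorem OG_coeff_vw (y : σ) {F : MvPolynomial σ R} {a : ℝ} (h : OG w a F) (j : ℕ) :
    OG w (a - j * w y) ((vw y F).coeff j) := by
  intro m hm
  rw [coeff_vw]
  split_ifs with h0
  · apply h
    rw [map_add, Finsupp.weight_single, smul_eq_mul]
    push_cast
    linarith
  · rfl

theorem D3_sum_range (b c : ℝ) (N : ℕ) :
    ∑ i ∈ Finset.range N, (b - i * c) = N * b - c * (N * (N - 1) / 2) := by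
  induction N with
  | zero => simp
  | succ n ih =>
    rw [Finset.sum_range_succ, ih]
    push_cast
    ring

theorem D3_sum_ge {b c : ℝ} (hb : 0 ≤ b) (N M : ℕ) (hN : N ≤ M) (hc : (N : ℝ) * c ≤ b) :
    b * N / 2 ≤ ∑ i : Fin M, (if (i : ℕ) < N then b - (i : ℕ) * c else 0) := by
  have h1 : ∑ i : Fin M, (if (i : ℕ) < N then b - (i : ℕ) * c else 0) =
      ∑ i ∈ Finset.range M, (if i < N then b - i * c else 0) :=
    Fin.sum_univ_eq_sum_range (fun i : ℕ => if i < N then b - (i : ℝ) * c else 0) M
  have h2 : ∑ i ∈ Finset.range M, (if i < N then b - i * c else 0) =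
      ∑ i ∈ Finset.range N, (b - (i : ℝ) * c) := by
    rw [← Finset.sum_filter]
    refine Finset.sum_congr ?_ fun _ _ => rfl
    ext i
    simp only [Finset.mem_filter, Finset.mem_range]
    omega
  rw [h1, h2, D3_sum_range]
  rcases Nat.eq_zero_or_pos N with h0 | h0
  · subst h0
    simp
  · have h3 : (1 : ℝ) ≤ N := by exact_mod_cast h0
    have h4 : (N : ℝ) * c * (N - 1) ≤ b * (N - 1) :=
      mul_le_mul_of_nonneg_right hc (by linarith)
    nlinarith

theorem OG_El (y : σ) {f G : MvPolynomial σ R} {a b : ℝ} (hf : OG w a f) (hG : OG w b G)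
    (hab : b ≤ a) (hb : 0 ≤ b) (N : ℕ) (hN : N ≤ f.degreeOf y + G.degreeOf y)
    (hN' : (N : ℝ) * w y ≤ b) : OG w (b * N / 2) (El y f G) := by
  have hf' : OG w b f := hf.mono hab
  have hw : (0 : ℝ) ≤ w y := Nat.cast_nonneg _
  have hent : ∀ {F : MvPolynomial σ R}, OG w b F → ∀ i j : ℕ,
      OG w (if i < N then b - (i : ℕ) * (w y : ℝ) else 0) ((vw y F).coeff (i - j)) := by
    intro F hF i j
    split_ifs with hi
    · refine (OG_coeff_vw y hF (i - j)).mono ?_
      have h1 : ((i - j : ℕ) : ℝ) ≤ i := by exact_mod_cast Nat.sub_le i j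
      have h2 := mul_le_mul_of_nonneg_right h1 hw
      linarith
    · exact OG.of_nonpos le_rfl
  have key := (isFilt_OG (R := R) w).det
    (Polynomial.sylvester (vw y f) (vw y G) (f.degreeOf y) (G.degreeOf y))
    (fun i => if (i : ℕ) < N then b - (i : ℕ) * (w y : ℝ) else 0) (by
      intro i j
      rw [Polynomial.sylvester, Matrix.of_apply]
      induction j using Fin.addCases with
      | left j =>
        rw [Fin.addCases_left]
        by_cases hij : (i : ℕ) ∈ Set.Icc (j : ℕ) (j + G.degreeOf y)
        · rw [if_pos hij]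
          exact hent hG i j
        · rw [if_neg hij]
          exact OG.zero
      | right j =>
        rw [Fin.addCases_right]
        by_cases hij : (i : ℕ) ∈ Set.Icc (j : ℕ) (j + f.degreeOf y)
        · rw [if_pos hij]
          exact hent hf' i j
        · rw [if_neg hij]
          exact OG.zero)
  exact OG.mono key (D3_sum_ge hb N _ hN hN')

end

end Pool.Agent.Lib.MP_17a322_nt.VJ
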