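import Pool.Agent.Lib.MP_17a322_nt.VJ.C4
import Pool.Agent.Lib.MP_17a322_nt.VJ.C5
import Pool.Agent.Lib.MP_17a322_nt.VJ.D3
import Pool.Agent.Lib.MP_17a322_nt.VJ.D4

/-!
# D5: elimination step

`F₁ = El y G (pderiv y G)`, `p = G.degreeOf y ≥ 1`, `(pderiv y G).degreeOf y = p - 1` (D4), `μ₁ = (2 p - 1) μ`.
* `F₁ ≠ 0`: `El_ne_zero_of_irreducible` (C4), `not_dvd_pderiv` (D4).  Variables: `vars_El_subset` (C2), `vars_pderiv_subset`.
* `μ > 0`: `μ ≥ w y * p ≥ 1`.  Degrees: `degreeOf_El_le'` (C2): `(p - 1) deg_t G + p deg_t (pderiv y G) ≤ (2 p - 1) deg_t G`, multiply by `w t`.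
* Height: `nh_El_le` (C5), `nh_pderiv_le` (D4): `≤ (p - 1) nh G + p (nh G + d log p) ≤ (2 p - 1) (nh G + μ d)` as `log p ≤ p ≤ w y * p ≤ μ` and `p ≤ 2 p - 1`; `totalWeight = finrank ℚ k =: d` (`NumberField.totalWeight_eq_finrank`).
* Index: `tr ξ F₁ = El y (tr ξ G) (pderiv y (tr ξ G))` (`tr_El` D2, `tr_pderiv` D4), the degrees in `y` of `tr ξ G`, `pderiv y (tr ξ G)` are `p`, `p - 1` (`D2_degreeOf_tr`).  `OG w (s μ) (tr ξ G)`; `OG w (s μ - w y)`, so `OG w b` for `b = s μ / 2`, for the derivative (`OG_pderiv`, `hwy`).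
  Apply `OG_El` (D3) with `a = s μ ≥ b` and `N = min ⌊b / w y⌋₊ (2 p - 1)`: order `≥ b N / 2`.  `b / w y ≥ 1` by `hwy`.
  If `N = 2 p - 1`: `b N/2 = (s/4) μ₁ ≥ (s^2/32) μ₁`.  If `N = ⌊b / w y⌋₊ ≥ (b / w y)/2` (as `b / w y ≥ 1`): `b N/2 ≥ b^2/(4 w y) = s^2 μ^2/(16 w y) ≥ (s^2/16) μ p ≥ (s^2/32) μ (2 p - 1)` (as `w y * p ≤ μ`).
-/

set_option linter.unusedSectionVars false

namespace Pool.Agent.Lib.MP_17a322_nt.VJ

open MvPolynomial Height

theorem elim_num1 {s μ p x : ℝ} (hμ : 0 < μ) (h : s ^ 2 * μ * p ≤ s ^ 2 * μ * x) :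
    s ^ 2 / 32 * ((2 * p - 1) * μ) ≤ s ^ 2 * μ * x / 16 := by
  have h1 : 0 ≤ s ^ 2 * μ := mul_nonneg (sq_nonneg s) hμ.le
  linarith

theorem elim_num2 {s μ p : ℝ} (hs : 0 ≤ s) (hs1 : s ≤ 1) (hμ : 0 ≤ μ) (hp : 1 ≤ p) :
    s ^ 2 / 32 * ((2 * p - 1) * μ) ≤ s * μ / 2 * (2 * p - 1) / 2 := by
  have h0 : 0 ≤ μ * (2 * p - 1) := mul_nonneg hμ (by linarith)
  have h1 : s ^ 2 ≤ s := by
    rw [sq]
    exact mul_le_of_le_one_left hs hs1
  have h2 := mul_le_mul_of_nonneg_right h1 h0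
  have h3 := mul_nonneg hs h0
  linarith

theorem elim_num3 {s μ w : ℝ} :
    s * μ / 2 * (s * μ / 2 / w / 2) / 2 = s ^ 2 * μ * (μ / w) / 16 := by
  ring

theorem elim_step {k : Type*} [Field k] [NumberField k] {ι : Type*} [DecidableEq ι] (w : ι → ℕ)
    (ξ : ι → k) (G : MvPolynomial ι k) (hG : Irreducible G) (y : ι) (hy : G.degreeOf y ≠ 0)
    (hw : 1 ≤ w y) (s μ : ℝ) (hs : 0 < s) (hs1 : s ≤ 1) (hμ : ∀ t, (w t : ℝ) * G.degreeOf t ≤ μ)
    (hI : IG w (s * μ) ξ G) (hwy : (w y : ℝ) ≤ s * μ / 2) :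
    ∃ (F₁ : MvPolynomial ι k) (c : ℝ), 1 ≤ c ∧ F₁ ≠ 0 ∧ F₁.vars ⊆ G.vars.erase y ∧
      (∀ t, (w t : ℝ) * F₁.degreeOf t ≤ c * μ) ∧
      nh F₁ ≤ c * (nh G + μ * Module.finrank ℚ k) ∧ IG w (s ^ 2 / 32 * (c * μ)) ξ F₁ := by
  obtain ⟨p, hp⟩ : ∃ p : ℕ, G.degreeOf y = p := ⟨_, rfl⟩
  have hp1 : 1 ≤ p := by rw [← hp]; exact Nat.one_le_iff_ne_zero.mpr hy
  have hpR : (1 : ℝ) ≤ p := by exact_mod_cast hp1
  have hG' : (pderiv y G).degreeOf y = p - 1 := by rw [degreeOf_pderiv_self, hp]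
  have hG'R : (((pderiv y G).degreeOf y : ℕ) : ℝ) = (p : ℝ) - 1 := by
    rw [hG', Nat.cast_sub hp1]; simp
  have hwR : (1 : ℝ) ≤ w y := by exact_mod_cast hw
  have hμy : (w y : ℝ) * p ≤ μ := by have := hμ y; rwa [hp] at this
  have hpμ : (p : ℝ) ≤ μ :=
    (le_mul_of_one_le_left (zero_le_one.trans hpR) hwR).trans hμy
  have hμ0 : 0 < μ := by linarith
  have hne : El y G (pderiv y G) ≠ 0 :=
    El_ne_zero_of_irreducible y G (pderiv y G) hG hy (not_dvd_pderiv y hy)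
  refine ⟨El y G (pderiv y G), 2 * (p : ℝ) - 1, by linarith, hne, ?_, ?_, ?_, ?_⟩
  · refine (vars_El_subset y G (pderiv y G)).trans ?_
    exact Finset.erase_subset_erase _
      (Finset.union_subset (Finset.Subset.refl _) (vars_pderiv_subset y G))
  · intro t
    have h1 := degreeOf_El_le' y G (pderiv y G) t
    have h2 := degreeOf_pderiv_le y t G
    have h1R : (((El y G (pderiv y G)).degreeOf t : ℕ) : ℝ) ≤
        ((p : ℝ) - 1) * G.degreeOf t + p * (pderiv y G).degreeOf t := by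
      rw [← hG'R]
      rw [hp] at h1
      exact_mod_cast h1
    have h2R : (((pderiv y G).degreeOf t : ℕ) : ℝ) ≤ G.degreeOf t := by exact_mod_cast h2
    have h3 := hμ t
    have hw0 : (0 : ℝ) ≤ w t := Nat.cast_nonneg _
    calc (w t : ℝ) * (El y G (pderiv y G)).degreeOf t
        ≤ w t * (((p : ℝ) - 1) * G.degreeOf t + p * G.degreeOf t) := by
          refine mul_le_mul_of_nonneg_left (h1R.trans ?_) hw0
          have := mul_le_mul_of_nonneg_left h2R (by linarith : (0 : ℝ) ≤ p)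
          linarith
      _ = (2 * (p : ℝ) - 1) * (w t * G.degreeOf t) := by ring
      _ ≤ (2 * (p : ℝ) - 1) * μ := mul_le_mul_of_nonneg_left h3 (by linarith)
  · have h1 := nh_El_le y G (pderiv y G) hne
    have h2 := nh_pderiv_le y hy
    rw [hG'R, hp] at h1
    rw [hp, NumberField.totalWeight_eq_finrank] at h2
    have hd : (0 : ℝ) ≤ (Module.finrank ℚ k : ℝ) := Nat.cast_nonneg _
    have hlog : Real.log p ≤ μ := by
      have := Real.log_le_sub_one_of_pos (by linarith : (0 : ℝ) < p)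
      linarith
    have h3 : (p : ℝ) * nh (pderiv y G) ≤ p * (nh G + Module.finrank ℚ k * Real.log p) :=
      mul_le_mul_of_nonneg_left h2 (by linarith)
    have h4 : (Module.finrank ℚ k : ℝ) * Real.log p ≤ Module.finrank ℚ k * μ :=
      mul_le_mul_of_nonneg_left hlog hd
    have h5 : (p : ℝ) * (Module.finrank ℚ k * Real.log p) ≤
        (2 * p - 1) * (Module.finrank ℚ k * μ) := by
      refine (mul_le_mul_of_nonneg_left h4 (by linarith)).trans ?_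
      exact mul_le_mul_of_nonneg_right (by linarith) (mul_nonneg hd hμ0.le)
    have h6 : (2 * (p : ℝ) - 1) * (nh G + μ * Module.finrank ℚ k) =
        (p - 1) * nh G + p * nh G + (2 * p - 1) * (Module.finrank ℚ k * μ) := by ring
    rw [h6]
    linarith
  · rw [IG_iff_OG, tr_El, tr_pderiv]
    set b : ℝ := s * μ / 2 with hb
    have hsμ : 0 < s * μ := mul_pos hs hμ0
    have hb0 : 0 < b := by rw [hb]; linarith
    have hf : OG w (s * μ) (tr ξ G) := (IG_iff_OG ξ).1 hI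
    have hg : OG w b (pderiv y (tr ξ G)) := (OG_pderiv y hf).mono (by rw [hb]; linarith)
    have hdeg : (tr ξ G).degreeOf y + (pderiv y (tr ξ G)).degreeOf y = 2 * p - 1 := by
      rw [degreeOf_pderiv_self, D2_degreeOf_tr, hp]; omega
    have hwy0 : (0 : ℝ) < w y := by linarith
    have hq1 : 1 ≤ b / w y := by rw [le_div_iff₀ hwy0]; rw [hb]; linarith
    have hfl : ((⌊b / w y⌋₊ : ℕ) : ℝ) ≤ b / w y := Nat.floor_le (by linarith)
    have hfl1 : 1 ≤ ⌊b / w y⌋₊ := (Nat.one_le_floor_iff _).2 hq1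
    have hfl2 : b / w y / 2 ≤ ((⌊b / w y⌋₊ : ℕ) : ℝ) := by
      have h1 := Nat.lt_floor_add_one (b / (w y : ℝ))
      have h2 : (1 : ℝ) ≤ ((⌊b / w y⌋₊ : ℕ) : ℝ) := by exact_mod_cast hfl1
      linarith
    have key := OG_El y hf hg (by rw [hb]; linarith) hb0.le (min ⌊b / w y⌋₊ (2 * p - 1))
      (by rw [hdeg]; exact min_le_right _ _) (by
        have h1 : ((min ⌊b / w y⌋₊ (2 * p - 1) : ℕ) : ℝ) ≤ b / w y :=
          le_trans (by exact_mod_cast min_le_left _ _) hfl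
        calc ((min ⌊b / w y⌋₊ (2 * p - 1) : ℕ) : ℝ) * w y ≤ b / w y * w y :=
              mul_le_mul_of_nonneg_right h1 hwy0.le
          _ = b := div_mul_cancel₀ _ hwy0.ne')
    refine key.mono ?_
    have hcast : (((2 * p - 1 : ℕ)) : ℝ) = 2 * (p : ℝ) - 1 := by
      rw [Nat.cast_sub (by omega)]; push_cast; ring
    rcases le_total ⌊b / (w y : ℝ)⌋₊ (2 * p - 1) with h | h
    · rw [min_eq_left h]
      have h1 : b * (b / w y / 2) / 2 ≤ b * ((⌊b / w y⌋₊ : ℕ) : ℝ) / 2 := by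
        have := mul_le_mul_of_nonneg_left hfl2 hb0.le
        linarith
      refine le_trans ?_ h1
      rw [hb, elim_num3]
      have h3 : (p : ℝ) ≤ μ / w y := by rw [le_div_iff₀ hwy0]; linarith
      have h4 : s ^ 2 * μ * p ≤ s ^ 2 * μ * (μ / w y) :=
        mul_le_mul_of_nonneg_left h3 (by positivity)
      exact elim_num1 hμ0 h4
    · rw [min_eq_right h, hcast, hb]
      exact elim_num2 hs.le hs1 hμ0.le hpR

end Pool.Agent.Lib.MP_17a322_nt.VJ
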