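import Pool.Agent.Lib.MP_17a322_nt.VJ.Defs

/-!
Definitions for the local theory of elliptic curves.
-/

namespace Pool.Agent.Lib.MP_17a322_nt.VJ

open MvPolynomial Height
open Pool.Agent.Lib.MP_17a322_nt.RO

/-- The size of a vector of length two. -/
noncomputable def vn {L : Type*} [Field L] (v : AbsoluteValue L ℝ) (R : Fin 2 → L) : ℝ :=
  max (v (R 0)) (v (R 1))

/-- The determinant of two vectors of length two. -/
def wd {A : Type*} [CommRing A] (R Q : Fin 2 → A) : A := R 0 * Q 1 - R 1 * Q 0

/-- The local constant of the curve `W` over `K` at the absolute value `v` of `L`: the product of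
`cst v 2`, of `max 1 |a_i|_v` and of the sizes (at least `1`) of the coefficients in
`addSubMapCoeff_condition`. -/
noncomputable def lc {K : Type*} [Field K] (W : WeierstrassCurve K) {L : Type*} [Field L]
    [Algebra K L] (v : AbsoluteValue L ℝ) : ℝ :=
  cst v 2 * (∏ i : Fin 5, max 1 (v (algebraMap K L (![W.a₁, W.a₂, W.a₃, W.a₄, W.a₆] i)))) *
    ∏ p : Fin 3 × Fin 3, max 1 (NV v (MvPolynomial.map (algebraMap K L)
      (C W.Δ⁻¹ * WeierstrassCurve.addSubMapCoeff W p)))

/-- `P` is a base change of points from `K` to `L`. -/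
def PB {K : Type*} [Field K] [DecidableEq K] {L : Type*} [Field L] [DecidableEq L] [Algebra K L]
    (W : WeierstrassCurve K) (V : WeierstrassCurve L)
    (f : W.toAffine.Point →+ V.toAffine.Point) : Prop :=
  ∀ P i, (f P).xRep i = algebraMap K L (P.xRep i)

end Pool.Agent.Lib.MP_17a322_nt.VJ
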