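import Pool.Agent.Lib.MP_17a322_nt.VJ.Defs

/-!
# JOB F1: Siegel's lemma of Mathlib with an existential constant, and heights of integral vectors

* `house_siegel`: the first step (`key`) is proved below. Then replace the constant `c` by `max c 1`: if `c < 0`
  or the like the bases of the powers are still fine: first `house ≥ 0` shows that one may replace `c` by
  `max c 1` as follows: apply `key` with the same `a`, `A ≥ 1`; if `0 ≤ c` use monotonicity
  (`Real.rpow_le_rpow`, the exponent is nonnegative); if `c < 0` then `house (x l) ≤ c * (negative number) ^ e`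
  and `|t ^ e| ≤ |t| ^ e` (`Real.abs_rpow_le_abs_rpow`), so the same bound holds with `|c|`. So it is simplest to
  take the constant `max |c| 1` and to use `|c * (c q A)^e| ≤ |c| * (|c| q A) ^ e` in all cases.
* `logHeight_int_le`: for a nonzero vector of integral elements with all houses at most `B` the logarithmic
  height is at most `d * log B` (`d = finrank ℚ K`). Proof: `NumberField.mulHeight_eq`; every infinite place
  `w (x i) = ‖φ (x i)‖ ≤ house (x i) ≤ B` (`house_eq_sup'`, `InfinitePlace.norm_embedding_eq`), and the product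
  over the infinite places is at most `B ^ d` (`NumberField.InfinitePlace.sum_mult_eq`); the finite part is at
  most `1`, e.g. by `NumberField.absNorm_mul_finprod_finitePlace_eq_one` it is the inverse of a positive natural
  number. If `B < 1` the product formula or a nonzero coordinate gives a contradiction, but it is easier to
  use the hypothesis `1 ≤ B`.
-/

universe u

namespace Pool.Agent.Lib.MP_17a322_nt.VJ

open Height NumberField Matrix

theorem house_siegel (K : Type u) [Field K] [NumberField K] :
    ∃ c : ℝ, 1 ≤ c ∧ ∀ (α β : Type) [Fintype α] [Fintype β] (a : Matrix α β (𝓞 K)) (A : ℝ),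
      a ≠ 0 → 0 < Fintype.card α → Fintype.card α < Fintype.card β → 1 ≤ A →
      (∀ k l, house ((algebraMap (𝓞 K) K) (a k l)) ≤ A) →
      ∃ x : β → 𝓞 K, x ≠ 0 ∧ a *ᵥ x = 0 ∧ ∀ l, house (x l : K) ≤
        c * (c * Fintype.card β * A) ^
          ((Fintype.card α : ℝ) / (Fintype.card β - Fintype.card α)) := by
  classical
  have key : ∃ c : ℝ, ∀ (α β : Type) [Fintype α] [Fintype β] (a : Matrix α β (𝓞 K)) (A : ℝ),
      a ≠ 0 → 0 < Fintype.card α → Fintype.card α < Fintype.card β →
      (∀ k l, house ((algebraMap (𝓞 K) K) (a k l)) ≤ A) →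
      ∃ x : β → 𝓞 K, x ≠ 0 ∧ a *ᵥ x = 0 ∧ ∀ l, house (x l : K) ≤
        c * (c * Fintype.card β * A) ^
          ((Fintype.card α : ℝ) / (Fintype.card β - Fintype.card α)) := by
    refine ⟨_, fun α β _ _ a A ha h0 h1 h2 =>
      house.exists_ne_zero_int_vec_house_le K a ha h0 h1 rfl h2 rfl⟩
  obtain ⟨c, hc⟩ := key
  refine ⟨max |c| 1, le_max_right _ _, fun α β _ _ a A ha h0 h1 hA h2 => ?_⟩
  obtain ⟨x, hx, hax, hb⟩ := hc α β a A ha h0 h1 h2
  refine ⟨x, hx, hax, fun l => (hb l).trans ?_⟩
  have hcC : |c| ≤ max |c| 1 := le_max_left _ _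
  have he : (0 : ℝ) ≤ (Fintype.card α : ℝ) / (Fintype.card β - Fintype.card α) := by
    apply div_nonneg (Nat.cast_nonneg _)
    rw [sub_nonneg]
    exact_mod_cast h1.le
  have hA0 : 0 ≤ A := zero_le_one.trans hA
  have hq0 : (0 : ℝ) ≤ Fintype.card β := Nat.cast_nonneg _
  calc c * (c * Fintype.card β * A) ^
          ((Fintype.card α : ℝ) / (Fintype.card β - Fintype.card α))
      ≤ |c * (c * Fintype.card β * A) ^
          ((Fintype.card α : ℝ) / (Fintype.card β - Fintype.card α))| := le_abs_self _
    _ = |c| * |(c * Fintype.card β * A) ^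
          ((Fintype.card α : ℝ) / (Fintype.card β - Fintype.card α))| := abs_mul _ _
    _ ≤ |c| * |c * Fintype.card β * A| ^
          ((Fintype.card α : ℝ) / (Fintype.card β - Fintype.card α)) :=
        mul_le_mul_of_nonneg_left (Real.abs_rpow_le_abs_rpow _ _) (abs_nonneg _)
    _ = |c| * (|c| * Fintype.card β * A) ^
          ((Fintype.card α : ℝ) / (Fintype.card β - Fintype.card α)) := by
        rw [abs_mul, abs_mul, abs_of_nonneg hA0, abs_of_nonneg hq0]
    _ ≤ _ := by
        apply mul_le_mul hcC _ (Real.rpow_nonneg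
          (mul_nonneg (mul_nonneg (abs_nonneg _) hq0) hA0) _) ((abs_nonneg _).trans hcC)
        apply Real.rpow_le_rpow (mul_nonneg (mul_nonneg (abs_nonneg _) hq0) hA0) _ he
        exact mul_le_mul_of_nonneg_right (mul_le_mul_of_nonneg_right hcC hq0) hA0

theorem logHeight_int_le (K : Type u) [Field K] [NumberField K] {ι : Type} [Fintype ι]
    (x : ι → 𝓞 K) (hx : x ≠ 0) {B : ℝ} (hB : 1 ≤ B) (h : ∀ i, house (x i : K) ≤ B) :
    logHeight (fun i => (x i : K)) ≤ Module.finrank ℚ K * Real.log B := by
  have hx' : (fun i => (x i : K)) ≠ 0 := by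
    intro h0
    apply hx
    funext i
    have h1 := congrFun h0 i
    simp only [Pi.zero_apply] at h1
    exact_mod_cast h1
  have hne : Nonempty ι := by
    by_contra hcon
    rw [not_nonempty_iff] at hcon
    exact hx (Subsingleton.elim _ _)
  have hfin : ∏ᶠ v : FinitePlace K, ⨆ i, v (x i : K) ≤ 1 := by
    have h1 := absNorm_mul_finprod_finitePlace_eq_one (K := K) hx
    set N := (Ideal.span (Set.range x)).absNorm with hN
    set f := ∏ᶠ v : FinitePlace K, ⨆ i, v (x i : K) with hf
    have hN0 : N ≠ 0 := by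
      intro h0
      rw [h0, Nat.cast_zero, zero_mul] at h1
      exact zero_ne_one h1
    have hN1 : (1 : ℝ) ≤ N := by exact_mod_cast Nat.one_le_iff_ne_zero.mpr hN0
    nlinarith
  have hfin0 : 0 ≤ ∏ᶠ v : FinitePlace K, ⨆ i, v (x i : K) :=
    finprod_nonneg fun v => Real.iSup_nonneg fun i => apply_nonneg v _
  have hinf : ∏ v : InfinitePlace K, (⨆ i, v (x i : K)) ^ v.mult ≤ B ^ Module.finrank ℚ K := by
    rw [← InfinitePlace.sum_mult_eq, ← Finset.prod_pow_eq_pow_sum]
    apply Finset.prod_le_prod
    · intro v _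
      exact pow_nonneg (Real.iSup_nonneg fun i => apply_nonneg v _) _
    · intro v _
      apply pow_le_pow_left₀ (Real.iSup_nonneg fun i => apply_nonneg v _)
      apply ciSup_le
      intro i
      refine le_trans ?_ (h i)
      rw [← InfinitePlace.norm_embedding_eq v (x i : K)]
      exact norm_le_pi_norm (canonicalEmbedding K (x i : K)) v.embedding
  have hmul : mulHeight (fun i => (x i : K)) ≤ B ^ Module.finrank ℚ K := by
    rw [NumberField.mulHeight_eq hx']
    calc _ ≤ B ^ Module.finrank ℚ K * 1 :=
          mul_le_mul hinf hfin hfin0 (pow_nonneg (zero_le_one.trans hB) _)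
      _ = _ := mul_one _
  rw [logHeight_eq_log_mulHeight, ← Real.log_pow]
  exact Real.log_le_log (mulHeight_pos _) hmul

end Pool.Agent.Lib.MP_17a322_nt.VJ
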