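import Pool.Agent.Lib.MP_17a322_nt.VJ.DefsG
import Pool.Agent.Lib.MP_17a322_nt.VJ.A1
import Pool.Agent.Lib.MP_17a322_nt.VJ.E5

/-!
The local lemma in one variable.
-/

namespace Pool.Agent.Lib.MP_17a322_nt.VJ

open MvPolynomial Height

variable {L : Type*} [Field L] (v : AbsoluteValue L ℝ)

/-- `dl ≤ cst v 2`. -/
theorem dl_le (R : Fin 2 → L) (hR : R ≠ 0) (ξ : L) : dl v R ξ ≤ cst v 2 := by
  have h1 := wd_le v R ![ξ, 1]
  have h2 : v (wd R ![ξ, 1]) = v (R 1 * ξ - R 0) := by
    unfold wd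
    rw [← v.map_neg]
    congr 1
    simp
  have h3 : vn v ![ξ, 1] = max 1 (v ξ) := by
    unfold vn
    rw [max_comm]
    simp
  rw [h2, h3] at h1
  unfold dl
  have h4 : 0 < vn v R * max 1 (v ξ) :=
    mul_pos (vn_pos v hR) (lt_of_lt_of_le one_pos (le_max_left _ _))
  rw [div_le_iff₀ h4]
  exact h1

theorem dl_nonneg (R : Fin 2 → L) (ξ : L) : 0 ≤ dl v R ξ := by
  unfold dl
  exact div_nonneg (v.nonneg _)
    (mul_nonneg (vn_nonneg v R) (zero_le_one.trans (le_max_left _ _)))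

/-- `|R 1 ξ - R 0| = dl * (|R| * max 1 |ξ|)`. -/
theorem v_eq_dl_mul (R : Fin 2 → L) (hR : R ≠ 0) (ξ : L) :
    v (R 1 * ξ - R 0) = dl v R ξ * (vn v R * max 1 (v ξ)) := by
  have h4 : 0 < vn v R * max 1 (v ξ) :=
    mul_pos (vn_pos v hR) (lt_of_lt_of_le one_pos (le_max_left _ _))
  unfold dl
  rw [div_mul_cancel₀ _ h4.ne']

private theorem G1_choose (n m d : ℕ) (h : n ≤ d) : v ((n.choose m : ℕ) : L) ≤ cst v 2 ^ d := by
  have h1 := (SN_self v).nsmul_le (n.choose m) (1 : L)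
  simp only [mul_one, map_one] at h1
  rw [← cst_pow]
  refine h1.trans (cst_mono v ?_)
  exact (Nat.choose_le_two_pow n m).trans (Nat.pow_le_pow_right (by norm_num) h)

private theorem G1_pow (R : Fin 2 → L) (i : Fin 2) (n : ℕ) : v (R i) ^ n ≤ vn v R ^ n :=
  pow_le_pow_left₀ (v.nonneg _) (le_vn v R i) n

/-- Size of the coefficients. In chart `false` the value is `0` if `γ > β`, otherwise it is at most
`2 ^ d` (archimedean; `1` otherwise) times `|R| ^ (β - γ) |R| ^ (d - β)`; the same in the other chart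
(`0` if `γ > d - β`). `v (n : L) ≤ cst v n` for `n = choose`, `choose ≤ 2 ^ d`, `cst_pow`. -/
theorem TT_le (c : Bool) (d γ β : ℕ) (hβ : β ≤ d) (hγ : γ ≤ d) (R : Fin 2 → L) :
    v (TT c d γ β R) ≤ cst v 2 ^ d * vn v R ^ (d - γ) := by
  have hV := vn_nonneg v R
  have hK : 0 ≤ cst v 2 ^ d := pow_nonneg (cst_nonneg v 2) d
  have h0 : 0 ≤ cst v 2 ^ d * vn v R ^ (d - γ) := mul_nonneg hK (pow_nonneg hV _)
  unfold TT
  split_ifs with hc
  · by_cases h : γ ≤ d - β
    · rw [map_mul, map_mul, map_pow, map_pow, mul_assoc]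
      refine mul_le_mul (G1_choose v _ _ _ (Nat.sub_le _ _)) ?_
        (mul_nonneg (pow_nonneg (v.nonneg _) _) (pow_nonneg (v.nonneg _) _)) hK
      have e : d - γ = β + (d - β - γ) := by omega
      rw [e, pow_add]
      exact mul_le_mul (G1_pow v R 0 _) (G1_pow v R 1 _) (pow_nonneg (v.nonneg _) _)
        (pow_nonneg hV _)
    · rw [Nat.choose_eq_zero_of_lt (not_le.mp h), Nat.cast_zero, zero_mul, zero_mul, map_zero]
      exact h0
  · by_cases h : γ ≤ β
    · rw [map_mul, map_mul, map_pow, map_pow, mul_assoc]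
      refine mul_le_mul (G1_choose v _ _ _ hβ) ?_
        (mul_nonneg (pow_nonneg (v.nonneg _) _) (pow_nonneg (v.nonneg _) _)) hK
      have e : d - γ = (β - γ) + (d - β) := by omega
      rw [e, pow_add]
      exact mul_le_mul (G1_pow v R 0 _) (G1_pow v R 1 _) (pow_nonneg (v.nonneg _) _)
        (pow_nonneg hV _)
    · rw [Nat.choose_eq_zero_of_lt (not_le.mp h), Nat.cast_zero, zero_mul, zero_mul, map_zero]
      exact h0

/-- Homogeneity of the coefficients. -/
theorem TT_smul {A : Type*} [CommRing A] (c : Bool) (d γ β : ℕ) (hβ : β ≤ d) (a : A)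
    (R : Fin 2 → A) : TT c d γ β (a • R) = a ^ (d - γ) * TT c d γ β R := by
  unfold TT
  split_ifs with hc
  · by_cases h : γ ≤ d - β
    · have e : d - γ = β + (d - β - γ) := by omega
      rw [Pi.smul_apply, Pi.smul_apply, smul_eq_mul, smul_eq_mul, mul_pow, mul_pow, e, pow_add]
      ring
    · rw [Nat.choose_eq_zero_of_lt (not_le.mp h), Nat.cast_zero]
      ring
  · by_cases h : γ ≤ β
    · have e : d - γ = (β - γ) + (d - β) := by omega
      rw [Pi.smul_apply, Pi.smul_apply, smul_eq_mul, smul_eq_mul, mul_pow, mul_pow, e, pow_add]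
      ring
    · rw [Nat.choose_eq_zero_of_lt (not_le.mp h), Nat.cast_zero]
      ring

theorem map_TT {A B : Type*} [CommRing A] [CommRing B] (f : A →+* B) (c : Bool) (d γ β : ℕ)
    (R : Fin 2 → A) : f (TT c d γ β R) = TT c d γ β (fun i => f (R i)) := by
  unfold TT
  split_ifs with hc
  · rw [map_mul, map_mul, map_pow, map_pow, map_natCast]
  · rw [map_mul, map_mul, map_pow, map_pow, map_natCast]

private theorem G1_coeff (a b : L) (n s : ℕ) :
    ((Polynomial.C a * Polynomial.X + Polynomial.C b) ^ n).coeff s =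
      (n.choose s : L) * b ^ (n - s) * a ^ s := by
  have h1 : (Polynomial.C a * Polynomial.X + Polynomial.C b) ^ n =
      ((Polynomial.X + Polynomial.C b) ^ n).comp (Polynomial.C a * Polynomial.X) := by
    simp
  rw [h1, Polynomial.comp_C_mul_X_coeff, Polynomial.coeff_X_add_C_pow]
  ring

private theorem G1_poly_false (R : Fin 2 → L) (d β : ℕ) (hβ : β ≤ d) (ξ : L) :
    Polynomial.C (R 1) ^ d * (Polynomial.X + Polynomial.C ξ) ^ β =
      ∑ γ ∈ Finset.range (d + 1), Polynomial.C (TT false d γ β R) *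
        (Polynomial.C (R 1) * Polynomial.X + Polynomial.C (R 1 * ξ - R 0)) ^ γ := by
  have h1 : Polynomial.C (R 1) ^ d * (Polynomial.X + Polynomial.C ξ) ^ β =
      ((Polynomial.C (R 1) * Polynomial.X + Polynomial.C (R 1 * ξ - R 0)) +
        Polynomial.C (R 0)) ^ β * Polynomial.C (R 1) ^ (d - β) := by
    have e1 : (Polynomial.C (R 1) * Polynomial.X + Polynomial.C (R 1 * ξ - R 0)) +
        Polynomial.C (R 0) = Polynomial.C (R 1) * (Polynomial.X + Polynomial.C ξ) := by
      rw [map_sub, map_mul]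
      ring
    have e2 : d = β + (d - β) := by omega
    rw [e1, mul_pow]
    conv_lhs => rw [e2, pow_add]
    ring
  rw [h1, add_pow, Finset.sum_mul]
  rw [← Finset.sum_subset (Finset.range_subset_range.mpr (Nat.succ_le_succ hβ))]
  · refine Finset.sum_congr rfl fun γ _ => ?_
    simp only [TT, Bool.false_eq_true, if_false, map_mul, map_pow, map_natCast]
    ring
  · intro γ _ hγ
    rw [Finset.mem_range, not_lt] at hγ
    simp only [TT, Bool.false_eq_true, if_false]
    rw [Nat.choose_eq_zero_of_lt (by omega), Nat.cast_zero, zero_mul, zero_mul, map_zero, zero_mul]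

private theorem G1_poly_true (R : Fin 2 → L) (d β : ℕ) (hβ : β ≤ d) (ξ : L) :
    Polynomial.C (R 0) ^ d * (Polynomial.X + Polynomial.C ξ) ^ β =
      ∑ γ ∈ Finset.range (d + 1), Polynomial.C (TT true d γ β R) *
        ((Polynomial.C (-R 1) * Polynomial.X + Polynomial.C (-(R 1 * ξ - R 0))) ^ γ *
          (Polynomial.X + Polynomial.C ξ) ^ (d - γ)) := by
  have h1 : Polynomial.C (R 0) ^ d * (Polynomial.X + Polynomial.C ξ) ^ β =
      ((Polynomial.C (-R 1) * Polynomial.X + Polynomial.C (-(R 1 * ξ - R 0))) +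
        Polynomial.C (R 1) * (Polynomial.X + Polynomial.C ξ)) ^ (d - β) *
        (Polynomial.C (R 0) ^ β * (Polynomial.X + Polynomial.C ξ) ^ β) := by
    have e1 : (Polynomial.C (-R 1) * Polynomial.X + Polynomial.C (-(R 1 * ξ - R 0))) +
        Polynomial.C (R 1) * (Polynomial.X + Polynomial.C ξ) = Polynomial.C (R 0) := by
      simp only [map_neg, map_sub, map_mul]
      ring
    have e2 : d = β + (d - β) := by omega
    rw [e1]
    conv_lhs => rw [e2, pow_add]
    ring
  rw [h1, add_pow, Finset.sum_mul]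
  rw [← Finset.sum_subset (Finset.range_subset_range.mpr
    (Nat.succ_le_succ (Nat.sub_le d β)))]
  · refine Finset.sum_congr rfl fun γ hγ => ?_
    rw [Finset.mem_range] at hγ
    have e3 : d - γ = (d - β - γ) + β := by omega
    simp only [TT, if_true, map_mul, map_pow, map_natCast, mul_pow, e3, pow_add]
    ring
  · intro γ _ hγ
    rw [Finset.mem_range, not_lt] at hγ
    simp only [TT, if_true]
    rw [Nat.choose_eq_zero_of_lt (by omega), Nat.cast_zero, zero_mul, zero_mul, map_zero, zero_mul]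

private theorem G1_coeff2 (a b ξ : L) (γ e s : ℕ) :
    ((Polynomial.C a * Polynomial.X + Polynomial.C b) ^ γ *
      (Polynomial.X + Polynomial.C ξ) ^ e).coeff s =
      ∑ p ∈ Finset.range (γ + 1), ((γ.choose p : L) * b ^ (γ - p) * a ^ p) *
        (if p ≤ s then (e.choose (s - p) : L) * ξ ^ (e - (s - p)) else 0) := by
  rw [add_pow, Finset.sum_mul, Polynomial.finsetSum_coeff]
  refine Finset.sum_congr rfl fun p _ => ?_
  have h1 : (Polynomial.C a * Polynomial.X) ^ p * Polynomial.C b ^ (γ - p) *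
      ((γ.choose p : ℕ) : Polynomial L) * (Polynomial.X + Polynomial.C ξ) ^ e =
      Polynomial.C ((γ.choose p : L) * b ^ (γ - p) * a ^ p) *
        (Polynomial.X ^ p * (Polynomial.X + Polynomial.C ξ) ^ e) := by
    simp only [map_mul, map_pow, map_natCast, mul_pow]
    ring
  rw [h1, Polynomial.coeff_C_mul, Polynomial.coeff_X_pow_mul', Polynomial.coeff_X_add_C_pow]
  split_ifs
  · ring
  · rfl

/-- the estimate of one term -/
private theorem G1_term (R : Fin 2 → L) (hR : R ≠ 0) (d : ℕ) (ξ : L) (s γ p i : ℕ) (hγ : γ ≤ d)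
    (hp : p ≤ γ) (hps : p ≤ s) (hi : i + γ ≤ d) (a : L) (ha : v a ≤ vn v R) :
    v (R 1 * ξ - R 0) ^ (γ - p) * v a ^ p * v ξ ^ i ≤
      cst v 2 ^ d * (vn v R ^ γ * dl v R ξ ^ (γ - s) * (max 1 (v ξ)) ^ d) := by
  have hV := vn_nonneg v R
  have hD := dl_nonneg v R ξ
  have hDK := dl_le v R hR ξ
  have hK1 : 1 ≤ cst v 2 := one_le_cst v (by norm_num)
  have hK0 : 0 ≤ cst v 2 := cst_nonneg v 2
  have hM1 : 1 ≤ max 1 (v ξ) := le_max_left _ _
  have hM0 : 0 ≤ max 1 (v ξ) := zero_le_one.trans hM1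
  have h1 : v a ^ p ≤ vn v R ^ p := pow_le_pow_left₀ (v.nonneg a) ha p
  have h2 : v ξ ^ i ≤ max 1 (v ξ) ^ i := pow_le_pow_left₀ (v.nonneg ξ) (le_max_right _ _) i
  have h3 : dl v R ξ ^ (γ - p) ≤ cst v 2 ^ d * dl v R ξ ^ (γ - s) := by
    by_cases hs : s ≤ γ
    · have e : γ - p = (s - p) + (γ - s) := by omega
      rw [e, pow_add]
      refine mul_le_mul_of_nonneg_right ?_ (pow_nonneg hD _)
      refine (pow_le_pow_left₀ hD hDK _).trans ?_
      exact pow_le_pow_right₀ hK1 (by omega)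
    · have e : γ - s = 0 := by omega
      rw [e, pow_zero, mul_one]
      refine (pow_le_pow_left₀ hD hDK _).trans ?_
      exact pow_le_pow_right₀ hK1 (by omega)
  have h4 : v (R 1 * ξ - R 0) ^ (γ - p) =
      dl v R ξ ^ (γ - p) * (vn v R ^ (γ - p) * max 1 (v ξ) ^ (γ - p)) := by
    rw [v_eq_dl_mul v R hR ξ, mul_pow, mul_pow]
  have h5 : max 1 (v ξ) ^ (γ - p) * max 1 (v ξ) ^ i ≤ max 1 (v ξ) ^ d := by
    rw [← pow_add]
    exact pow_le_pow_right₀ hM1 (by omega)
  have h6 : vn v R ^ (γ - p) * vn v R ^ p = vn v R ^ γ := by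
    rw [← pow_add]
    congr 1
    omega
  calc v (R 1 * ξ - R 0) ^ (γ - p) * v a ^ p * v ξ ^ i
      ≤ v (R 1 * ξ - R 0) ^ (γ - p) * vn v R ^ p * max 1 (v ξ) ^ i := by
        refine mul_le_mul (mul_le_mul_of_nonneg_left h1 (pow_nonneg (v.nonneg _) _)) h2
          (pow_nonneg (v.nonneg _) _)
          (mul_nonneg (pow_nonneg (v.nonneg _) _) (pow_nonneg hV _))
    _ = dl v R ξ ^ (γ - p) * ((vn v R ^ (γ - p) * vn v R ^ p) *
          (max 1 (v ξ) ^ (γ - p) * max 1 (v ξ) ^ i)) := by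
        rw [h4]; ring
    _ ≤ (cst v 2 ^ d * dl v R ξ ^ (γ - s)) * (vn v R ^ γ * max 1 (v ξ) ^ d) := by
        rw [h6]
        refine mul_le_mul h3 (mul_le_mul_of_nonneg_left h5 (pow_nonneg hV _)) ?_ ?_
        · exact mul_nonneg (pow_nonneg hV _)
            (mul_nonneg (pow_nonneg hM0 _) (pow_nonneg hM0 _))
        · exact mul_nonneg (pow_nonneg hK0 _) (pow_nonneg hD _)
    _ = _ := by ring

/-- The local lemma in one variable: expansion of the `s`-th Taylor coefficient at `ξ` of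
`T ^ β`, `β ≤ d`, in one of the two charts at the point `R`.

Proof. Let `ρ = R 1 ξ - R 0` and work in `L[T]` (Polynomial L), `ρ' = ρ + R 1 T`.
Case `v (R 0) ≤ v (R 1)`: `c = false`, `N = R 1`. As `R 1 (ξ + T) = R 0 + ρ'`, by the binomial theorem
`(R 1)^d (ξ + T)^β = (R 0 + ρ')^β (R 1)^(d - β) = ∑_γ TT false d γ β R * ρ'^γ`. Take the coefficient of
`T ^ s`: `E γ = coeff_s (ρ + R 1 T)^γ = choose γ s * ρ^(γ - s) * (R 1)^s` (`0` if `s > γ`), of size at most
`cst(2)^d (dl |R| |ξ|^+)^(γ - s) |R|^s ≤ cst(2)^d |R|^γ dl^(γ - s) (|ξ|^+)^d`.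
Case `v (R 1) < v (R 0)`: `c = true`, `N = R 0`. As `R 0 = R 1 (ξ + T) - ρ'`:
`(R 0)^d (ξ + T)^β = (R 0)^β (ξ + T)^β (R 1 (ξ + T) - ρ')^(d - β) = ∑_γ TT true d γ β R * (-ρ')^γ (ξ + T)^(d - γ)`.
`E γ = coeff_s ((-ρ')^γ (ξ + T)^(d - γ)) =
± ∑_{p + q = s} choose γ p ρ^(γ - p) (R 1)^p choose (d - γ) q ξ^(d - γ - q)`. The sum of the products of
binomial coefficients is at most `2 ^ d`; the terms with `p > γ` or `q > d - γ` are `0`, the others have
`|ρ|^(γ - p) |R|^p (|ξ|^+)^(d - γ) = dl^(γ - p) |R|^γ (|ξ|^+)^(d - p) `, `p ≤ min s γ`, and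
`dl^(γ - p) ≤ cst(2)^d dl^(γ - s)` (natural subtraction): if `s ≤ γ` then
`dl^(γ - p) = dl^(γ - s) dl^(s - p)`, `dl ≤ cst(2)`, `1 ≤ cst(2)`; if `s > γ` then `dl^(γ - s) = 1`. -/
theorem local_one (R : Fin 2 → L) (hR : R ≠ 0) (d : ℕ) (ξ : L) (s : ℕ) :
    ∃ (c : Bool) (N : L) (E : ℕ → L), v N = vn v R ∧
      (∀ β, β ≤ d → N ^ d * ((β.choose s : L) * ξ ^ (β - s)) =
        ∑ γ ∈ Finset.range (d + 1), TT c d γ β R * E γ) ∧
      ∀ γ, γ ≤ d → v (E γ) ≤
        cst v 2 ^ (3 * d) * vn v R ^ γ * dl v R ξ ^ (γ - s) * (max 1 (v ξ)) ^ d := by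
  have hV := vn_nonneg v R
  have hD := dl_nonneg v R ξ
  have hK1 : 1 ≤ cst v 2 := one_le_cst v (by norm_num)
  have hK0 : 0 ≤ cst v 2 := cst_nonneg v 2
  have hM1 : 1 ≤ max 1 (v ξ) := le_max_left _ _
  have hM0 : 0 ≤ max 1 (v ξ) := zero_le_one.trans hM1
  have hB0 : ∀ γ, 0 ≤ vn v R ^ γ * dl v R ξ ^ (γ - s) * (max 1 (v ξ)) ^ d := fun γ =>
    mul_nonneg (mul_nonneg (pow_nonneg hV _) (pow_nonneg hD _)) (pow_nonneg hM0 _)
  rcases le_or_gt (v (R 0)) (v (R 1)) with h | h
  · refine ⟨false, R 1, fun γ => (γ.choose s : L) * (R 1 * ξ - R 0) ^ (γ - s) * R 1 ^ s,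
      ?_, ?_, ?_⟩
    · unfold vn
      rw [max_eq_right h]
    · intro β hβ
      have h1 := congrArg (fun P => Polynomial.coeff P s) (G1_poly_false R d β hβ ξ)
      rw [← map_pow, Polynomial.coeff_C_mul, Polynomial.coeff_X_add_C_pow,
        Polynomial.finsetSum_coeff] at h1
      rw [mul_comm (β.choose s : L), h1]
      refine Finset.sum_congr rfl fun γ _ => ?_
      rw [Polynomial.coeff_C_mul, G1_coeff]
    · intro γ hγ
      have e : cst v 2 ^ (3 * d) * vn v R ^ γ * dl v R ξ ^ (γ - s) * (max 1 (v ξ)) ^ d =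
          cst v 2 ^ (3 * d) * (vn v R ^ γ * dl v R ξ ^ (γ - s) * (max 1 (v ξ)) ^ d) := by ring
      rw [e]
      by_cases hs : s ≤ γ
      · have h1 := G1_term v R hR d ξ s γ s 0 hγ hs le_rfl (by omega) (R 1) (le_vn v R 1)
        rw [pow_zero, mul_one] at h1
        simp only
        rw [map_mul, map_mul, map_pow, map_pow, mul_assoc]
        refine (mul_le_mul (G1_choose v γ s d hγ) h1
          (mul_nonneg (pow_nonneg (v.nonneg _) _) (pow_nonneg (v.nonneg _) _))
          (pow_nonneg hK0 _)).trans ?_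
        rw [← mul_assoc, ← pow_add]
        exact mul_le_mul_of_nonneg_right (pow_le_pow_right₀ hK1 (by omega)) (hB0 γ)
      · simp only
        rw [Nat.choose_eq_zero_of_lt (not_le.mp hs), Nat.cast_zero, zero_mul, zero_mul, map_zero]
        exact mul_nonneg (pow_nonneg hK0 _) (hB0 γ)
  · refine ⟨true, R 0, fun γ => ∑ p ∈ Finset.range (γ + 1),
      ((γ.choose p : L) * (-(R 1 * ξ - R 0)) ^ (γ - p) * (-R 1) ^ p) *
        (if p ≤ s then ((d - γ).choose (s - p) : L) * ξ ^ (d - γ - (s - p)) else 0), ?_, ?_, ?_⟩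
    · unfold vn
      rw [max_eq_left h.le]
    · intro β hβ
      have h1 := congrArg (fun P => Polynomial.coeff P s) (G1_poly_true R d β hβ ξ)
      rw [← map_pow, Polynomial.coeff_C_mul, Polynomial.coeff_X_add_C_pow,
        Polynomial.finsetSum_coeff] at h1
      rw [mul_comm (β.choose s : L), h1]
      refine Finset.sum_congr rfl fun γ _ => ?_
      rw [Polynomial.coeff_C_mul, G1_coeff2]
    · intro γ hγ
      have e : cst v 2 ^ (3 * d) * vn v R ^ γ * dl v R ξ ^ (γ - s) * (max 1 (v ξ)) ^ d =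
          cst v 2 ^ d * (cst v 2 ^ (2 * d) *
            (vn v R ^ γ * dl v R ξ ^ (γ - s) * (max 1 (v ξ)) ^ d)) := by
        have e1 : 3 * d = d + 2 * d := by omega
        rw [e1, pow_add]
        ring
      rw [e]
      have hB1 : 0 ≤ cst v 2 ^ (2 * d) *
          (vn v R ^ γ * dl v R ξ ^ (γ - s) * (max 1 (v ξ)) ^ d) :=
        mul_nonneg (pow_nonneg hK0 _) (hB0 γ)
      have h1 := (SN_self v).sum_le (Finset.range (γ + 1)) (fun p =>
        ((γ.choose p : L) * (-(R 1 * ξ - R 0)) ^ (γ - p) * (-R 1) ^ p) *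
        (if p ≤ s then ((d - γ).choose (s - p) : L) * ξ ^ (d - γ - (s - p)) else 0)) hB1 ?_
      · refine h1.trans (mul_le_mul_of_nonneg_right ?_ hB1)
        rw [Finset.card_range, ← cst_pow]
        refine cst_mono v ?_
        have h2 : d + 1 ≤ 2 ^ d := Nat.lt_two_pow_self
        omega
      · intro p hp
        rw [Finset.mem_range] at hp
        by_cases hps : p ≤ s
        · rw [if_pos hps]
          have h2 := G1_term v R hR d ξ s γ p (d - γ - (s - p)) hγ (by omega) hps (by omega)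
            (-R 1) (by rw [v.map_neg]; exact le_vn v R 1)
          rw [map_mul, map_mul, map_mul, map_mul, map_pow, map_pow, map_pow, v.map_neg (R 1 * ξ - R 0)]
          have h3 := G1_choose v γ p γ le_rfl
          have h4 := G1_choose v (d - γ) (s - p) (d - γ) le_rfl
          have h5 : v ((γ.choose p : ℕ) : L) * v (((d - γ).choose (s - p) : ℕ) : L) ≤
              cst v 2 ^ d := by
            refine (mul_le_mul h3 h4 (v.nonneg _) (pow_nonneg hK0 _)).trans (le_of_eq ?_)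
            rw [← pow_add]
            congr 1
            omega
          calc _ = (v ((γ.choose p : ℕ) : L) * v (((d - γ).choose (s - p) : ℕ) : L)) *
                (v (R 1 * ξ - R 0) ^ (γ - p) * v (-R 1) ^ p * v ξ ^ (d - γ - (s - p))) := by ring
            _ ≤ cst v 2 ^ d * (cst v 2 ^ d *
                (vn v R ^ γ * dl v R ξ ^ (γ - s) * (max 1 (v ξ)) ^ d)) := by
              refine mul_le_mul h5 h2 ?_ (pow_nonneg hK0 _)
              exact mul_nonneg (mul_nonneg (pow_nonneg (v.nonneg _) _)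
                (pow_nonneg (v.nonneg _) _)) (pow_nonneg (v.nonneg _) _)
            _ = _ := by
              rw [← mul_assoc, ← pow_add]
              congr 2
              omega
        · rw [if_neg hps, mul_zero, map_zero]
          exact hB1

end Pool.Agent.Lib.MP_17a322_nt.VJ
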