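import Pool.Agent.Lib.MP_17a322_nt.VJ.DefsG
import Pool.Agent.Lib.MP_17a322_nt.VJ.E3

/-!
Specialisation of the generic point to the origin.
-/

universe u

namespace Pool.Agent.Lib.MP_17a322_nt.VJ

open MvPolynomial Height

private theorem G10_indep {K : Type u} [Field K] {F' : Type u} [Field F'] [Algebra K F']
    (X : Fin 2 → F') (hX : AlgebraicIndependent K X) (A : ℕ) (r : MvPolynomial (Fin 2) K)
    (hr : aeval (![(X 0)⁻¹ * X 1 ^ A, (X 1)⁻¹] : Fin 2 → F') r = 0) : r = 0 := by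
  classical
  have h0 : X 0 ≠ 0 := hX.ne_zero 0
  have h1 : X 1 ≠ 0 := hX.ne_zero 1
  by_contra hne
  have hN : ∀ m ∈ r.support, m 0 ≤ r.degreeOf 0 := fun m hm => degreeOf_le_iff.1 le_rfl m hm
  have hM : ∀ m ∈ r.support, m 1 ≤ r.degreeOf 1 := fun m hm => degreeOf_le_iff.1 le_rfl m hm
  generalize r.degreeOf 0 = N at hN
  generalize r.degreeOf 1 = M at hM
  set E : (Fin 2 →₀ ℕ) → (Fin 2 →₀ ℕ) := fun m =>
    Finsupp.single 0 (N - m 0) + Finsupp.single 1 (M + A * m 0 - m 1) with hE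
  have hE0 : ∀ m, E m 0 = N - m 0 := by
    intro m
    simp [hE]
  have hE1 : ∀ m, E m 1 = M + A * m 0 - m 1 := by
    intro m
    simp [hE]
  have hinj : ∀ m ∈ r.support, ∀ m' ∈ r.support, E m = E m' → m = m' := by
    intro m hm m' hm' h
    have e0 := DFunLike.congr_fun h 0
    have e1 := DFunLike.congr_fun h 1
    rw [hE0, hE0] at e0
    rw [hE1, hE1] at e1
    have a0 := hN m hm
    have b0 := hN m' hm'
    have a1 := hM m hm
    have b1 := hM m' hm'
    have c0 : m 0 = m' 0 := by omega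
    rw [c0] at e1
    have c1 : m 1 = m' 1 := by omega
    ext i
    fin_cases i
    · exact c0
    · exact c1
  have hq : aeval X (∑ m ∈ r.support, monomial (E m) (coeff m r)) =
      X 0 ^ N * X 1 ^ M * aeval (![(X 0)⁻¹ * X 1 ^ A, (X 1)⁻¹] : Fin 2 → F') r := by
    rw [map_sum]
    conv_rhs => rw [aeval_def, eval₂_eq', Finset.mul_sum]
    apply Finset.sum_congr rfl
    intro m hm
    rw [aeval_monomial, Finsupp.prod_fintype _ _ (fun i => pow_zero _), Fin.prod_univ_two, Fin.prod_univ_two,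
      hE0, hE1]
    have a0 := hN m hm
    have a1 := hM m hm
    rw [pow_sub₀ _ h0 a0, pow_sub₀ _ h1 (by omega : m 1 ≤ M + A * m 0), pow_add, pow_mul]
    simp only [Matrix.cons_val_zero, Matrix.cons_val_one, Matrix.cons_val_fin_one, mul_pow, inv_pow]
    ring
  rw [hr, mul_zero] at hq
  have hq0 : (∑ m ∈ r.support, monomial (E m) (coeff m r)) = 0 := by
    apply hX
    rw [hq, map_zero]
  obtain ⟨m, hm⟩ := support_nonempty.2 hne
  have hc : coeff (E m) (∑ m ∈ r.support, monomial (E m) (coeff m r)) = coeff m r := by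
    rw [coeff_sum, Finset.sum_eq_single m]
    · rw [coeff_monomial, if_pos rfl]
    · intro m' hm' hmm
      rw [coeff_monomial, if_neg]
      intro h
      exact hmm (hinj m' hm' m hm h)
    · intro h
      exact absurd hm h
  rw [hq0, coeff_zero] at hc
  exact mem_support_iff.1 hm hc.symm

/-- Valuation ring.

Proof. Put `y = 1 / X 1`, `s = (1 / X 0) / y ^ A`. They are algebraically independent over `K` (`X 0`, `X 1`
are polynomials in `1/y`, `1/s`; or: a relation `p(y, s) = 0`, multiplied by a large power of `X 0 X 1`,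
becomes a relation between `X 0`, `X 1` which is not trivial since the monomials `y^a s^b` are different
monomials in `X 0^{-1}`, `X 1`). Let `B = Algebra.adjoin K {y, s}` as a subring of `F'` and `I` the ideal of
`B` generated by `y`, `s`; `I ≠ ⊤`, since otherwise `1 = y a(y, s) + s b(y, s)`, a polynomial relation whose
constant term is `1 ≠ 0`. `Ideal.image_subset_nonunits_valuationSubring` gives `O ⊇ B` with `y`, `s` in the
nonunits. -/
theorem exists_valuationSubring {K : Type u} [Field K] {F' : Type u} [Field F'] [Algebra K F']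
    (X : Fin 2 → F') (hX : AlgebraicIndependent K X) (A : ℕ) :
    ∃ O : ValuationSubring F', (∀ c : K, algebraMap K F' c ∈ O) ∧ (X 1)⁻¹ ∈ O.nonunits ∧
      (X 0)⁻¹ * X 1 ^ A ∈ O.nonunits := by
  classical
  have hind := G10_indep X hX A
  set s : F' := (X 0)⁻¹ * X 1 ^ A with hs
  set y : F' := (X 1)⁻¹ with hy
  set φ : MvPolynomial (Fin 2) K →ₐ[K] F' := aeval (![s, y] : Fin 2 → F') with hφ
  have hφ0 : φ (MvPolynomial.X 0) = s := by
    rw [hφ, aeval_X]
    rfl
  have hφ1 : φ (MvPolynomial.X 1) = y := by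
    rw [hφ, aeval_X]
    rfl
  set B : Subring F' := φ.range.toSubring with hB
  have hsB : s ∈ B := ⟨MvPolynomial.X 0, hφ0⟩
  have hyB : y ∈ B := ⟨MvPolynomial.X 1, hφ1⟩
  set I : Ideal B := Ideal.span {⟨s, hsB⟩, ⟨y, hyB⟩} with hI
  have hItop : I ≠ ⊤ := by
    intro h
    rw [Ideal.eq_top_iff_one, hI, Ideal.mem_span_pair] at h
    obtain ⟨a, b, hab⟩ := h
    obtain ⟨P, hP⟩ : ∃ P, φ P = a.1 := a.2
    obtain ⟨Q, hQ⟩ : ∃ Q, φ Q = b.1 := b.2
    have h1 : φ (P * MvPolynomial.X 0 + Q * MvPolynomial.X 1 - 1) = 0 := by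
      rw [map_sub, map_add, map_mul, map_mul, hP, hQ, hφ0, hφ1, map_one]
      have h2 := congrArg Subtype.val hab
      change a.1 * s + b.1 * y = 1 at h2
      rw [h2, sub_self]
    have h3 := hind _ h1
    have h4 := congrArg MvPolynomial.constantCoeff h3
    rw [map_sub, map_add, map_mul, map_mul, constantCoeff_X, constantCoeff_X, mul_zero, mul_zero,
      map_one, map_zero] at h4
    norm_num at h4
  obtain ⟨O, hBO, hIO⟩ := Ideal.image_subset_nonunits_valuationSubring I hItop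
  refine ⟨O, ?_, ?_, ?_⟩
  · intro c
    apply hBO
    exact ⟨MvPolynomial.C c, (show φ (MvPolynomial.C c) = _ from by rw [hφ, aeval_C])⟩
  · apply hIO
    exact ⟨⟨y, hyB⟩, Ideal.subset_span (by simp), rfl⟩
  · apply hIO
    exact ⟨⟨s, hsB⟩, Ideal.subset_span (by simp), rfl⟩

/-- `mu` at `(1, 0)`. -/
theorem mu_one_zero {K : Type*} [Field K] (W : WeierstrassCurve K) {A : Type*} [CommRing A]
    [Algebra K A] (j : ℕ) : mu W j (![1, 0] : Fin 2 → A) = ![1, 0] := by
  induction j with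
  | zero => exact mu_zero W _
  | succ j ih =>
    rw [mu_succ, ih]
    funext i
    fin_cases i
    · simp [dup]
    · simp [dup, ph]

/-- `S3` at `(1, 0)`, `(p, 1)`: the quadratic form is `(ξ - p)^2`. (`SV_zero`, `SV_one`, `SV_two`.) -/
theorem SV_one_zero {K : Type*} [Field K] (W : WeierstrassCurve K) {A : Type*} [CommRing A]
    [Algebra K A] (p : A) :
    SV W (![1, 0] : Fin 2 → A) ![p, 1] = ![p ^ 2, 2 * p, 1] := by
  funext i
  fin_cases i
  · change SV W _ _ 0 = _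
    rw [SV_zero]
    simp
  · change SV W _ _ 1 = _
    rw [SV_one]
    simp
  · change SV W _ _ 2 = _
    rw [SV_two]
    simp [wd]

/-- Roots are close to `p`. Let `y = 1 / X` be a nonunit. Then `ξ` is in `O` and `ξ - p` is a nonunit.

Proof. By homogeneity (`mu_smul`, `S3_smul`, `![X, 1] = X • ![1, y]`) `S3 W (mu W j ![1, y]) ![p, 1] ![ξ, 1] = 0`,
i.e. `s 0 - s 1 * ξ + s 2 * ξ ^ 2 = 0` with `s = SV W (mu W j ![1, y]) ![p, 1]`, elements of `O`. Let
`k = O ⧸ maximal ideal` (`IsLocalRing.residue O`), a `K`-algebra. By naturality (`map_SV`, `map_mu`, E3; the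
homomorphism `O → k` of `K`-algebras) the images of the `s i` are those of `SV W (mu W j ![1, 0]) ![p, 1]`,
`p^2, 2p, 1` (`mu_one_zero`, `SV_one_zero`). So `s 2` is a unit. If `ξ ∉ O` then `ξ⁻¹` is a nonunit and
`s 2 = s 1 ξ⁻¹ - s 0 ξ⁻²` is a nonunit, contradiction. In the residue field `(ξ - p)^2 = 0`. (To make `O` a
`K`-algebra use `RingHom.toAlgebra` for the map `K → O`.) -/
theorem root_near {K : Type u} [Field K] (W : WeierstrassCurve K) {F' : Type u} [Field F']
    [Algebra K F'] (O : ValuationSubring F') (hK : ∀ c : K, algebraMap K F' c ∈ O) (j : ℕ)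
    (X : F') (hX0 : X ≠ 0) (hX : X⁻¹ ∈ O.nonunits) (p : K) (ξ : F')
    (h : S3 W (mu W j ![X, 1]) ![algebraMap K F' p, 1] ![ξ, 1] = 0) :
    ξ ∈ O ∧ ξ - algebraMap K F' p ∈ O.nonunits := by
  have hyO : X⁻¹ ∈ O := O.nonunits_subset hX
  -- homogeneity
  have e1 : (![X, 1] : Fin 2 → F') = X • ![1, X⁻¹] := by
    funext i
    fin_cases i
    · simp
    · simp [mul_inv_cancel₀ hX0]
  have h' : S3 W (mu W j ![1, X⁻¹]) ![algebraMap K F' p, 1] ![ξ, 1] = 0 := by
    have h1 := S3_smul W (X ^ 4 ^ j) 1 1 (mu W j ![1, X⁻¹]) ![algebraMap K F' p, 1] ![ξ, 1]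
    rw [← mu_smul, ← e1, one_smul, one_smul, h] at h1
    have h2 : (X ^ 4 ^ j * 1 * 1) ^ 2 ≠ 0 := by
      rw [mul_one, mul_one]
      exact pow_ne_zero _ (pow_ne_zero _ hX0)
    exact (mul_eq_zero.1 h1.symm).resolve_left h2
  -- the algebra structure
  let φ : K →+* O := (algebraMap K F').codRestrict O.toSubring hK
  let instO : Algebra K O := φ.toAlgebra
  let inc : O →ₐ[K] F' := { O.subtype with commutes' := fun c => rfl }
  let res : O →ₐ[K] IsLocalRing.ResidueField O := { IsLocalRing.residue O with commutes' := fun c => rfl }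
  set yO : O := ⟨X⁻¹, hyO⟩ with hyOdef
  have hresy : res yO = 0 := by
    have : yO ∈ IsLocalRing.maximalIdeal O := ValuationSubring.coe_mem_nonunits_iff.1 hX
    exact (IsLocalRing.residue_eq_zero_iff yO).2 this
  set sO : Fin 3 → O := SV W (mu W j (![1, yO] : Fin 2 → O)) ![algebraMap K O p, 1] with hsO
  have hinc : ∀ i, inc (sO i) = SV W (mu W j ![1, X⁻¹]) ![algebraMap K F' p, 1] i := by
    intro i
    rw [hsO, map_SV]
    congr 1
    · funext t
      rw [map_mu]
      congr 1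
      funext t
      fin_cases t <;> rfl
    · funext t
      fin_cases t <;> rfl
  have hres : ∀ i, res (sO i) = (![(res (algebraMap K O p)) ^ 2, 2 * res (algebraMap K O p), 1] :
      Fin 3 → IsLocalRing.ResidueField O) i := by
    intro i
    rw [hsO, map_SV, ← SV_one_zero W]
    congr 1
    · funext t
      rw [map_mu]
      rw [← mu_one_zero W j]
      congr 1
      · funext t
        fin_cases t
        · exact map_one res
        · exact hresy
    · funext t
      fin_cases t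
      · rfl
      · exact map_one res
  have hmem : ∀ z : O, res z = 0 ↔ (z : F') ∈ O.nonunits := by
    intro z
    rw [ValuationSubring.coe_mem_nonunits_iff]
    exact IsLocalRing.residue_eq_zero_iff z
  have hrel : (sO 0 : F') - (sO 1 : F') * ξ + (sO 2 : F') * ξ ^ 2 = 0 := by
    have h3 : QF (SV W (mu W j ![1, X⁻¹]) ![algebraMap K F' p, 1]) ![ξ, 1] = 0 := h'
    rw [QF, ← hinc 0, ← hinc 1, ← hinc 2] at h3
    change inc (sO 0) - inc (sO 1) * ξ + inc (sO 2) * ξ ^ 2 = 0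
    simpa using h3
  have hs0 : res (sO 0) = (res (algebraMap K O p)) ^ 2 := hres 0
  have hs1 : res (sO 1) = 2 * res (algebraMap K O p) := hres 1
  have hs2 : res (sO 2) = 1 := hres 2
  have hξO : ξ ∈ O := by
    by_contra hξ
    have ht : ξ⁻¹ ∈ O.nonunits := (O.inv_mem_nonunits_iff).2 (Or.inr hξ)
    have hξ0 : ξ ≠ 0 := by
      intro h0
      exact hξ (h0 ▸ O.zero_mem)
    set tO : O := ⟨ξ⁻¹, O.nonunits_subset ht⟩ with htO
    have hrt : res tO = 0 := (hmem tO).2 ht
    have h4 : sO 2 = sO 1 * tO - sO 0 * tO ^ 2 := by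
      apply Subtype.ext
      change (sO 2 : F') = (sO 1 : F') * ξ⁻¹ - (sO 0 : F') * ξ⁻¹ ^ 2
      field_simp
      linear_combination hrel
    have h5 := congrArg res h4
    rw [map_sub, map_mul, map_mul, map_pow, hrt, hs2] at h5
    norm_num at h5
  refine ⟨hξO, ?_⟩
  set ξO : O := ⟨ξ, hξO⟩ with hξOdef
  have h6 : sO 0 - sO 1 * ξO + sO 2 * ξO ^ 2 = 0 := Subtype.ext hrel
  have h7 := congrArg res h6
  rw [map_add, map_sub, map_mul, map_mul, map_pow, hs0, hs1, hs2, map_zero] at h7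
  have h8 : (res ξO - res (algebraMap K O p)) ^ 2 = 0 := by
    linear_combination h7
  have h9 : res (ξO - algebraMap K O p) = 0 := by
    rw [map_sub]
    exact pow_eq_zero_iff (two_ne_zero) |>.1 h8
  exact (hmem _).1 h9

/-- Specialisation. `(k, l)` is the lexicographically largest pair of exponents of `x_0`, `x_1` in `Ψ`.

Proof. Let `A` be larger than all exponents of `x_1` in `Ψ` and `O` from `exists_valuationSubring`,
`y = 1 / X 1`, `u = (1/X 0) X 1 ^ A` (nonunits), so `1 / X 0 = u y ^ A` is a nonunit (a product of nonunits /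
elements of `O`; if `A = 0` too) and `root_near` applies for `t = 0, 1`: all `ξ a ∈ O`, `ξ a ≡ p a`. Divide
`Ψ(X, ξ) = ∑_e c_e X 0 ^ e(none,0) X 1 ^ e(none,1) ∏ ξ a ^ e(some a) = 0` by `X 0 ^ k X 1 ^ l`. The quotient of the
monomials is `1` for `(k, l)`, `y ^ (l - l')` (nonunit) for `(k, l')`, `l' < l`, and for `k' < k`:
`(u y^A)^(k - k') X 1 ^ (l' - l)`, which is `u^(k - k') y^(A (k - k') + l - l')` with exponent of `y` at least
`A - l' ≥ 0`: nonunit. In the residue field: the sum over `e` with exponents `(k, l)` of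
`c_e ∏ p a ^ e(some a)` is `0`, i.e. `eval p (tp k l Ψ) = 0` (the map from `K` is injective). -/
theorem specialise {K : Type u} [Field K] (W : Fin 2 → WeierstrassCurve K) {m : ℕ}
    (j : Fin m → ℕ) (p : Fin m × Fin 2 → K) (Ψ : MvPolynomial (AA m) K) (k l : ℕ)
    (hkl : ∀ e ∈ Ψ.support, e (none, 0) < k ∨ (e (none, 0) = k ∧ e (none, 1) ≤ l))
    {F' : Type u} [Field F'] [Algebra K F'] (X : Fin 2 → F') (hX : AlgebraicIndependent K X)
    (ξ : Fin m × Fin 2 → F')
    (hα : ∀ i t, S3 (W t) (mu (W t) (j i) ![X t, 1]) ![algebraMap K F' (p (i, t)), 1]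
      ![ξ (i, t), 1] = 0)
    (hΨ : aeval (pt X ξ) Ψ = 0) : eval p (tp k l Ψ) = 0 := by
  classical
  have hA : ∀ e ∈ Ψ.support, e (none, 1) ≤ Ψ.degreeOf (none, 1) :=
    fun e he => degreeOf_le_iff.1 le_rfl e he
  generalize Ψ.degreeOf (none, 1) = A at hA
  obtain ⟨O, hK, hy, hu⟩ := exists_valuationSubring X hX A
  have h0 : X 0 ≠ 0 := hX.ne_zero 0
  have h1 : X 1 ≠ 0 := hX.ne_zero 1
  have hmul : ∀ a b : F', a ∈ O.nonunits → b ∈ O → a * b ∈ O.nonunits := by
    intro a b ha hb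
    rw [ValuationSubring.mem_nonunits_iff_exists_mem_maximalIdeal] at ha ⊢
    obtain ⟨ha1, ha2⟩ := ha
    exact ⟨O.mul_mem _ _ ha1 hb, Ideal.mul_mem_right (⟨b, hb⟩ : O) _ ha2⟩
  have hyO : (X 1)⁻¹ ∈ O := O.nonunits_subset hy
  have hx0 : (X 0)⁻¹ ∈ O.nonunits := by
    have h2 : (X 0)⁻¹ = ((X 0)⁻¹ * X 1 ^ A) * ((X 1)⁻¹) ^ A := by
      rw [mul_assoc, ← mul_pow, mul_inv_cancel₀ h1, one_pow, mul_one]
    rw [h2]
    exact hmul _ _ hu (pow_mem hyO A)
  have hξ : ∀ a, ξ a ∈ O ∧ ξ a - algebraMap K F' (p a) ∈ O.nonunits := by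
    rintro ⟨i, t⟩
    have hXt : (X t)⁻¹ ∈ O.nonunits := by
      fin_cases t
      · exact hx0
      · exact hy
    exact root_near (W t) O hK (j i) (X t) (hX.ne_zero t) hXt (p (i, t)) (ξ (i, t)) (hα i t)
  have hprodO : ∀ e : AA m →₀ ℕ, ∏ a : Fin m × Fin 2, ξ a ^ e (some a.1, a.2) ∈ O := by
    intro e
    exact prod_mem fun a _ => pow_mem (hξ a).1 _
  have hprod : ∀ e : AA m →₀ ℕ, ∏ a : Fin m × Fin 2, algebraMap K F' (p a) ^ e (some a.1, a.2) -
      ∏ a : Fin m × Fin 2, ξ a ^ e (some a.1, a.2) ∈ O.nonunits := by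
    intro e
    set P : O := ∏ a : Fin m × Fin 2, (⟨algebraMap K F' (p a), hK (p a)⟩ : O) ^ e (some a.1, a.2)
      with hP
    set Q : O := ∏ a : Fin m × Fin 2, (⟨ξ a, (hξ a).1⟩ : O) ^ e (some a.1, a.2) with hQ
    have e1 : (P : F') = ∏ a : Fin m × Fin 2, algebraMap K F' (p a) ^ e (some a.1, a.2) := by
      rw [hP]
      push_cast
      rfl
    have e2 : (Q : F') = ∏ a : Fin m × Fin 2, ξ a ^ e (some a.1, a.2) := by
      rw [hQ]
      push_cast
      rfl
    rw [← e1, ← e2]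
    have e3 : P - Q ∈ IsLocalRing.maximalIdeal O := by
      rw [← IsLocalRing.residue_eq_zero_iff, map_sub, sub_eq_zero, hP, hQ, map_prod, map_prod]
      apply Finset.prod_congr rfl
      intro a _
      rw [map_pow, map_pow]
      congr 1
      symm
      rw [← sub_eq_zero, ← map_sub, IsLocalRing.residue_eq_zero_iff,
        ← ValuationSubring.coe_mem_nonunits_iff]
      exact (hξ a).2
    exact ValuationSubring.coe_mem_nonunits_iff.2 e3
  set τ : (AA m →₀ ℕ) → F' := fun e =>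
    X 0 ^ e (none, 0) * X 1 ^ e (none, 1) * ((X 0)⁻¹ ^ k * (X 1)⁻¹ ^ l) with hτ
  have hτ1 : ∀ e : AA m →₀ ℕ, e (none, 0) = k → e (none, 1) = l → τ e = 1 := by
    intro e a b
    rw [hτ]
    dsimp only
    rw [a, b, inv_pow, inv_pow]
    field_simp
  have hτ2 : ∀ e ∈ Ψ.support, ¬ (e (none, 0) = k ∧ e (none, 1) = l) → τ e ∈ O.nonunits := by
    intro e he hne
    rcases hkl e he with h2 | ⟨h2, h3⟩
    · obtain ⟨d, hd⟩ : ∃ d, k = e (none, 0) + (d + 1) := ⟨k - e (none, 0) - 1, by omega⟩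
      obtain ⟨q, hq⟩ : ∃ q, A = e (none, 1) + q := ⟨A - e (none, 1), by
        have := hA e he
        omega⟩
      have h4 : τ e = ((X 0)⁻¹ * X 1 ^ A) * (((X 0)⁻¹ * X 1 ^ A) ^ d *
          ((X 1)⁻¹ ^ (A * d) * ((X 1)⁻¹ ^ q * (X 1)⁻¹ ^ l))) := by
        rw [hτ]
        dsimp only
        rw [hd]
        have e1 : (X 0)⁻¹ ^ (e (none, 0) + (d + 1)) = (X 0)⁻¹ ^ e (none, 0) * ((X 0)⁻¹ ^ d * (X 0)⁻¹) := by
          rw [pow_add, pow_succ]
        have e2 : X 0 ^ e (none, 0) * (X 0)⁻¹ ^ e (none, 0) = 1 := by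
          rw [← mul_pow, mul_inv_cancel₀ h0, one_pow]
        have e3 : (X 1 ^ A) ^ d * (X 1)⁻¹ ^ (A * d) = 1 := by
          rw [← pow_mul, ← mul_pow, mul_inv_cancel₀ h1, one_pow]
        have e4 : X 1 ^ A * (X 1)⁻¹ ^ q = X 1 ^ e (none, 1) := by
          rw [hq, pow_add, mul_assoc, ← mul_pow, mul_inv_cancel₀ h1, one_pow, mul_one]
        rw [e1, mul_pow, ← e4]
        linear_combination (X 1 ^ A * (X 1)⁻¹ ^ q * (X 0)⁻¹ ^ d * (X 0)⁻¹ * (X 1)⁻¹ ^ l) * e2 -
          ((X 0)⁻¹ * X 1 ^ A * (X 0)⁻¹ ^ d * (X 1)⁻¹ ^ q * (X 1)⁻¹ ^ l) * e3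
      rw [h4]
      apply hmul _ _ hu
      exact mul_mem (pow_mem (O.nonunits_subset hu) _) (mul_mem (pow_mem hyO _)
        (mul_mem (pow_mem hyO _) (pow_mem hyO _)))
    · have h5 : e (none, 1) ≠ l := fun h => hne ⟨h2, h⟩
      obtain ⟨d, hd⟩ : ∃ d, l = e (none, 1) + (d + 1) := ⟨l - e (none, 1) - 1, by omega⟩
      have h4 : τ e = (X 1)⁻¹ * (X 1)⁻¹ ^ d := by
        rw [hτ]
        dsimp only
        rw [h2, hd]
        have e1 : X 0 ^ k * (X 0)⁻¹ ^ k = 1 := by
          rw [← mul_pow, mul_inv_cancel₀ h0, one_pow]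
        have e2 : X 1 ^ e (none, 1) * (X 1)⁻¹ ^ e (none, 1) = 1 := by
          rw [← mul_pow, mul_inv_cancel₀ h1, one_pow]
        have e3 : (X 1)⁻¹ ^ (e (none, 1) + (d + 1)) = (X 1)⁻¹ ^ e (none, 1) * ((X 1)⁻¹ ^ d * (X 1)⁻¹) := by
          rw [pow_add, pow_succ]
        rw [e3]
        linear_combination (X 1 ^ e (none, 1) * (X 1)⁻¹ ^ e (none, 1) * (X 1)⁻¹ ^ d * (X 1)⁻¹) * e1 +
          ((X 1)⁻¹ ^ d * (X 1)⁻¹) * e2
      rw [h4]
      exact hmul _ _ hy (pow_mem hyO _)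
  have hrel : ∑ e ∈ Ψ.support, algebraMap K F' (coeff e Ψ) *
      (τ e * ∏ a : Fin m × Fin 2, ξ a ^ e (some a.1, a.2)) = 0 := by
    have h2 : ∑ e ∈ Ψ.support, algebraMap K F' (coeff e Ψ) *
        (τ e * ∏ a : Fin m × Fin 2, ξ a ^ e (some a.1, a.2)) =
        aeval (pt X ξ) Ψ * ((X 0)⁻¹ ^ k * (X 1)⁻¹ ^ l) := by
      rw [aeval_def, eval₂_eq', Finset.sum_mul]
      apply Finset.sum_congr rfl
      intro e _
      have h3 : ∏ a : AA m, pt X ξ a ^ e a = X 0 ^ e (none, 0) * X 1 ^ e (none, 1) *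
          ∏ a : Fin m × Fin 2, ξ a ^ e (some a.1, a.2) := by
        rw [Fintype.prod_prod_type, Fintype.prod_option, Fin.prod_univ_two, Fintype.prod_prod_type]
        rfl
      rw [h3, hτ]
      dsimp only
      ring
    rw [h2, hΨ, zero_mul]
  have hev : algebraMap K F' (eval p (tp k l Ψ)) = ∑ e ∈ Ψ.support, (algebraMap K F' (coeff e Ψ) *
      (if e (none, 0) = k ∧ e (none, 1) = l then
        ∏ a : Fin m × Fin 2, algebraMap K F' (p a) ^ e (some a.1, a.2) else 0)) := by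
    rw [tp, map_sum, map_sum]
    apply Finset.sum_congr rfl
    intro e _
    split_ifs with hc
    · rw [eval_monomial, map_mul, Finsupp.prod_fintype _ _ (fun i => pow_zero _), map_prod]
      congr 1
      apply Finset.prod_congr rfl
      intro a _
      rw [map_pow]
      rfl
    · rw [map_zero, map_zero, mul_zero]
  have hnon : algebraMap K F' (eval p (tp k l Ψ)) ∈ O.nonunits := by
    rw [← sub_zero (algebraMap K F' (eval p (tp k l Ψ))), ← hrel, hev, ← Finset.sum_sub_distrib]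
    apply sum_mem
    intro e he
    rw [← mul_sub, mul_comm]
    apply hmul _ _ _ (hK _)
    split_ifs with hc
    · rw [hτ1 e hc.1 hc.2, one_mul]
      exact hprod e
    · rw [zero_sub]
      exact neg_mem (hmul _ _ (hτ2 e he hc) (hprodO e))
  rw [ValuationSubring.mem_nonunits_iff_or] at hnon
  rcases hnon with h2 | h2
  · exact (map_eq_zero_iff _ (algebraMap K F').injective).1 h2
  · exfalso
    apply h2
    rw [← map_inv₀]
    exact hK _

end Pool.Agent.Lib.MP_17a322_nt.VJ
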