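import Pool.Agent.Lib.MP_17a322_nt.VJ.DefsG
import Pool.Agent.Lib.MP_17a322_nt.VJ.A5
import Pool.Agent.Lib.MP_17a322_nt.VJ.A6

/-!
The top coefficient.
-/

universe u

namespace Pool.Agent.Lib.MP_17a322_nt.VJ

open MvPolynomial Height

/-- The exponent `(k, l, e)`. -/
noncomputable def cmb {m : ℕ} (k l : ℕ) (e : Fin m × Fin 2 →₀ ℕ) : AA m →₀ ℕ :=
  Finsupp.equivFunOnFinite.symm fun a => a.1.elim (if a.2 = 0 then k else l) fun i => e (i, a.2)

/-- The exponents of the variables `ξ`. -/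
noncomputable def G11_rst {m : ℕ} (e : AA m →₀ ℕ) : Fin m × Fin 2 →₀ ℕ :=
  Finsupp.equivFunOnFinite.symm fun a : Fin m × Fin 2 => e (some a.1, a.2)

theorem G11_cmb_none0 {m : ℕ} (k l : ℕ) (e : Fin m × Fin 2 →₀ ℕ) : cmb k l e (none, 0) = k := by
  unfold cmb
  simp

theorem G11_cmb_none1 {m : ℕ} (k l : ℕ) (e : Fin m × Fin 2 →₀ ℕ) : cmb k l e (none, 1) = l := by
  unfold cmb
  simp

theorem G11_cmb_some {m : ℕ} (k l : ℕ) (e : Fin m × Fin 2 →₀ ℕ) (i : Fin m) (t : Fin 2) :
    cmb k l e (some i, t) = e (i, t) := by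
  unfold cmb
  simp

theorem G11_rst_cmb {m : ℕ} (k l : ℕ) (e : Fin m × Fin 2 →₀ ℕ) : G11_rst (cmb k l e) = e := by
  ext ⟨i, t⟩
  unfold G11_rst
  rw [Finsupp.equivFunOnFinite_symm_apply_apply]
  exact G11_cmb_some k l e i t

theorem G11_cmb_rst {m : ℕ} (e : AA m →₀ ℕ) : cmb (e (none, 0)) (e (none, 1)) (G11_rst e) = e := by
  ext ⟨o, t⟩
  cases o with
  | none =>
    fin_cases t
    · exact G11_cmb_none0 _ _ _
    · exact G11_cmb_none1 _ _ _
  | some i =>
    rw [G11_cmb_some]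
    unfold G11_rst
    rw [Finsupp.equivFunOnFinite_symm_apply_apply]

theorem G11_iff {m : ℕ} (k l : ℕ) (e : Fin m × Fin 2 →₀ ℕ) (e' : AA m →₀ ℕ) :
    (e' (none, 0) = k ∧ e' (none, 1) = l) ∧ G11_rst e' = e ↔ e' = cmb k l e := by
  constructor
  · rintro ⟨⟨h1, h2⟩, h3⟩
    rw [← h1, ← h2, ← h3, G11_cmb_rst]
  · intro h
    rw [h]
    exact ⟨⟨G11_cmb_none0 _ _ _, G11_cmb_none1 _ _ _⟩, G11_rst_cmb _ _ _⟩

theorem coeff_tp {K : Type*} [CommRing K] {m : ℕ} (k l : ℕ) (F : MvPolynomial (AA m) K)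
    (e : Fin m × Fin 2 →₀ ℕ) : coeff e (tp k l F) = coeff (cmb k l e) F := by
  classical
  unfold tp
  rw [coeff_sum]
  have h : ∀ e' ∈ F.support, coeff e (if e' (none, 0) = k ∧ e' (none, 1) = l then
      monomial (Finsupp.equivFunOnFinite.symm fun a : Fin m × Fin 2 => e' (some a.1, a.2))
        (coeff e' F) else 0) = if e' = cmb k l e then coeff e' F else 0 := by
    intro e' _
    by_cases h1 : e' (none, 0) = k ∧ e' (none, 1) = l
    · rw [if_pos h1, coeff_monomial]
      by_cases h2 : G11_rst e' = e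
      · rw [if_pos ((G11_iff k l e e').1 ⟨h1, h2⟩)]
        exact if_pos h2
      · rw [if_neg fun h3 => h2 ((G11_iff k l e e').2 h3).2]
        exact if_neg h2
    · rw [if_neg h1, if_neg fun h3 => h1 ((G11_iff k l e e').2 h3).1, coeff_zero]
  rw [Finset.sum_congr rfl h, Finset.sum_ite_eq']
  by_cases h3 : cmb k l e ∈ F.support
  · rw [if_pos h3]
  · rw [if_neg h3, notMem_support_iff.1 h3]

/-- There is a lexicographically largest pair. Proof: `k` = the largest exponent of `x_0`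
(`degreeOf`), `l` = the largest exponent of `x_1` among the monomials with exponent `k` of `x_0`
(`Finset.exists_max_image`). -/
theorem exists_top {K : Type*} [Field K] {m : ℕ} (F : MvPolynomial (AA m) K) (hF : F ≠ 0) :
    ∃ k l, tp k l F ≠ 0 ∧
      ∀ e ∈ F.support, e (none, 0) < k ∨ (e (none, 0) = k ∧ e (none, 1) ≤ l) := by
  classical
  obtain ⟨e₁, he₁, hm₁⟩ := Finset.exists_max_image F.support (fun e => e (none, 0))
    ((support_nonempty (p := F)).mpr hF)
  obtain ⟨e₂, he₂, hm₂⟩ := Finset.exists_max_image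
    (F.support.filter fun e => e (none, 0) = e₁ (none, 0)) (fun e => e (none, 1))
    ⟨e₁, Finset.mem_filter.2 ⟨he₁, rfl⟩⟩
  rw [Finset.mem_filter] at he₂
  refine ⟨e₁ (none, 0), e₂ (none, 1), ?_, ?_⟩
  · intro h0
    have h1 := coeff_tp (e₁ (none, 0)) (e₂ (none, 1)) F (G11_rst e₂)
    rw [h0, coeff_zero, ← he₂.2, G11_cmb_rst] at h1
    exact mem_support_iff.1 he₂.1 h1.symm
  · intro e he
    rcases lt_or_eq_of_le (hm₁ e he) with h | h
    · exact Or.inl h
    · exact Or.inr ⟨h, hm₂ e (Finset.mem_filter.2 ⟨he, h⟩)⟩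

theorem G11_mem {K : Type*} [CommRing K] {m : ℕ} (k l : ℕ) (F : MvPolynomial (AA m) K)
    (e : Fin m × Fin 2 →₀ ℕ) (he : e ∈ (tp k l F).support) : cmb k l e ∈ F.support := by
  rw [mem_support_iff, coeff_tp] at he
  exact mem_support_iff.2 he

theorem degreeOf_tp_le {K : Type*} [Field K] {m : ℕ} (k l : ℕ) (F : MvPolynomial (AA m) K)
    (a : Fin m × Fin 2) : (tp k l F).degreeOf a ≤ F.degreeOf (some a.1, a.2) := by
  classical
  rw [degreeOf_eq_sup]
  refine Finset.sup_le fun e he => ?_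
  have h := le_degreeOf_of_mem_support (some a.1, a.2) (G11_mem k l F e he)
  rwa [G11_cmb_some] at h

/-- `NV` of the top coefficient: `NV_le_of_injOn`; then `gs_le`, `FS_log_NV`. -/
theorem nh_tp_le {K : Type*} [Field K] [AdmissibleAbsValues K] {m : ℕ} (k l : ℕ)
    (F : MvPolynomial (AA m) K) (h : tp k l F ≠ 0) : nh (tp k l F) ≤ nh F := by
  have hF : F ≠ 0 := by
    intro h0
    apply h
    ext e
    rw [coeff_tp, h0, coeff_zero, coeff_zero]
  unfold nh
  refine gs_le (FS_log_NV h) (FS_log_NV hF) fun v _ => ?_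
  refine Real.log_le_log (NV_pos v h) ?_
  refine NV_le_of_injOn v F (tp k l F) (cmb k l) ?_ (fun e _ => coeff_tp k l F e)
  intro e _ e' _ hee
  have h1 := congrArg G11_rst hee
  rwa [G11_rst_cmb, G11_rst_cmb] at h1

/-- The polynomial `x_0 ^ k * x_1 ^ l * P`. -/
noncomputable def G11_emb {K : Type*} [CommRing K] {m : ℕ} (k l : ℕ)
    (P : MvPolynomial (Fin m × Fin 2) K) : MvPolynomial (AA m) K :=
  X (none, 0) ^ k * X (none, 1) ^ l * rename (fun a : Fin m × Fin 2 => (some a.1, a.2)) P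

theorem G11_inj {m : ℕ} : Function.Injective (fun a : Fin m × Fin 2 => ((some a.1, a.2) : AA m)) := by
  rintro ⟨i, t⟩ ⟨i', t'⟩ h
  simp only [Prod.mk.injEq, Option.some.injEq] at h
  rw [h.1, h.2]

theorem G11_map {m : ℕ} (k l : ℕ) (e : Fin m × Fin 2 →₀ ℕ) :
    Finsupp.single ((none, 0) : AA m) k + Finsupp.single ((none, 1) : AA m) l +
      Finsupp.mapDomain (fun a : Fin m × Fin 2 => ((some a.1, a.2) : AA m)) e = cmb k l e := by
  classical
  ext ⟨o, t⟩
  rw [Finsupp.add_apply, Finsupp.add_apply]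
  cases o with
  | none =>
    have h1 : Finsupp.mapDomain (fun a : Fin m × Fin 2 => ((some a.1, a.2) : AA m)) e (none, t) = 0 := by
      apply Finsupp.mapDomain_of_notMem_range
      rintro ⟨⟨i, t'⟩, h⟩
      simp at h
    rw [h1]
    fin_cases t
    · simp [G11_cmb_none0]
    · simp [G11_cmb_none1]
  | some i =>
    have h1 : Finsupp.mapDomain (fun a : Fin m × Fin 2 => ((some a.1, a.2) : AA m)) e (some i, t) =
        e (i, t) := Finsupp.mapDomain_apply G11_inj e (i, t)
    rw [h1, G11_cmb_some]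
    simp

theorem G11_emb_monomial {K : Type*} [CommRing K] {m : ℕ} (k l : ℕ) (e : Fin m × Fin 2 →₀ ℕ)
    (c : K) : G11_emb k l (monomial e c) = monomial (cmb k l e) c := by
  unfold G11_emb
  rw [rename_monomial, X_pow_eq_monomial, X_pow_eq_monomial, monomial_mul, monomial_mul, one_mul,
    one_mul, G11_map]

theorem G11_emb_add {K : Type*} [CommRing K] {m : ℕ} (k l : ℕ)
    (P Q : MvPolynomial (Fin m × Fin 2) K) :
    G11_emb k l (P + Q) = G11_emb k l P + G11_emb k l Q := by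
  unfold G11_emb
  rw [map_add, mul_add]

theorem G11_tp_add {K : Type*} [CommRing K] {m : ℕ} (k l : ℕ) (F G : MvPolynomial (AA m) K) :
    tp k l (F + G) = tp k l F + tp k l G := by
  ext e
  rw [coeff_add, coeff_tp, coeff_tp, coeff_tp, coeff_add]

theorem G11_cmb_eq {m : ℕ} (k l k' l' : ℕ) (e e' : Fin m × Fin 2 →₀ ℕ) :
    cmb k l e = cmb k' l' e' ↔ (k = k' ∧ l = l') ∧ e = e' := by
  constructor
  · intro h
    have h1 := DFunLike.congr_fun h (none, 0)
    have h2 := DFunLike.congr_fun h (none, 1)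
    have h3 := congrArg G11_rst h
    rw [G11_cmb_none0, G11_cmb_none0] at h1
    rw [G11_cmb_none1, G11_cmb_none1] at h2
    rw [G11_rst_cmb, G11_rst_cmb] at h3
    exact ⟨⟨h1, h2⟩, h3⟩
  · rintro ⟨⟨h1, h2⟩, h3⟩
    rw [h1, h2, h3]

theorem G11_tp_emb {K : Type*} [CommRing K] {m : ℕ} (k l k' l' : ℕ)
    (P : MvPolynomial (Fin m × Fin 2) K) :
    tp k l (G11_emb k' l' P) = if k' = k ∧ l' = l then P else 0 := by
  classical
  induction P using MvPolynomial.induction_on' with
  | monomial u a =>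
    ext e
    rw [coeff_tp, G11_emb_monomial, coeff_monomial]
    by_cases h : k' = k ∧ l' = l
    · rw [if_pos h, coeff_monomial]
      by_cases h2 : u = e
      · rw [if_pos h2, if_pos ((G11_cmb_eq _ _ _ _ _ _).2 ⟨h, h2⟩)]
      · rw [if_neg h2, if_neg fun h3 => h2 ((G11_cmb_eq _ _ _ _ _ _).1 h3).2]
    · rw [if_neg h, if_neg fun h3 => h ((G11_cmb_eq _ _ _ _ _ _).1 h3).1, coeff_zero]
  | add p q hp hq =>
    rw [G11_emb_add, G11_tp_add, hp, hq]
    by_cases h : k' = k ∧ l' = l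
    · rw [if_pos h, if_pos h, if_pos h]
    · rw [if_neg h, if_neg h, if_neg h, add_zero]

/-- Taylor coefficient at the generic point. -/
noncomputable def G11_hh {K : Type*} [CommRing K] {m : ℕ} (s : Fin m × Fin 2 →₀ ℕ)
    (P : MvPolynomial (Fin m × Fin 2) K) : MvPolynomial (Fin m × Fin 2) K :=
  coeff s (tr (fun a : Fin m × Fin 2 => (X a : MvPolynomial (Fin m × Fin 2) K))
    (MvPolynomial.map (C : K →+* MvPolynomial (Fin m × Fin 2) K) P))

theorem G11_hh_zero {K : Type*} [CommRing K] {m : ℕ} (s : Fin m × Fin 2 →₀ ℕ) :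
    G11_hh s (0 : MvPolynomial (Fin m × Fin 2) K) = 0 := by
  unfold G11_hh
  rw [map_zero, (tr_eq_zero _ _).2 rfl, coeff_zero]

theorem G11_hh_add {K : Type*} [CommRing K] {m : ℕ} (s : Fin m × Fin 2 →₀ ℕ)
    (P Q : MvPolynomial (Fin m × Fin 2) K) : G11_hh s (P + Q) = G11_hh s P + G11_hh s Q := by
  unfold G11_hh
  rw [map_add, tr_add, coeff_add]

theorem G11_eval_hh {K : Type*} [CommRing K] {m : ℕ} (s : Fin m × Fin 2 →₀ ℕ)
    (P : MvPolynomial (Fin m × Fin 2) K) (p : Fin m × Fin 2 → K) :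
    eval p (G11_hh s P) = coeff s (tr p P) := by
  unfold G11_hh
  rw [← coeff_map, map_tr, MvPolynomial.map_map]
  have h1 : (eval p).comp (C : K →+* MvPolynomial (Fin m × Fin 2) K) = RingHom.id K := by
    ext x
    simp
  rw [h1, MvPolynomial.map_id]
  simp only [eval_X]

theorem G11_tF_add {K : Type*} [CommRing K] {m : ℕ} (s : Fin m × Fin 2 →₀ ℕ)
    (F G : MvPolynomial (AA m) K) : tF s (F + G) = tF s F + tF s G := by
  unfold tF pe
  rw [map_add, tr_add, coeff_add]

theorem G11_tF_emb {K : Type*} [CommRing K] {m : ℕ} (s : Fin m × Fin 2 →₀ ℕ) (k l : ℕ)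
    (P : MvPolynomial (Fin m × Fin 2) K) :
    tF s (G11_emb k l P) = G11_emb k l (G11_hh s P) := by
  have h1 : pe (fun t => (X (none, t) : MvPolynomial (AA m) K)) (G11_emb k l P) =
      C ((X (none, 0) : MvPolynomial (AA m) K) ^ k * X (none, 1) ^ l) *
        MvPolynomial.map (algebraMap K (MvPolynomial (AA m) K)) P := by
    unfold pe G11_emb
    rw [map_mul, map_mul, map_pow, map_pow, aeval_X, aeval_X, aeval_rename, map_mul, map_pow, map_pow]
    congr 1
    have h2 : ((fun a : AA m => a.1.elim (C ((X (none, a.2) : MvPolynomial (AA m) K)))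
        fun i => (X (i, a.2) : MvPolynomial (Fin m × Fin 2) (MvPolynomial (AA m) K))) ∘
        fun a : Fin m × Fin 2 => ((some a.1, a.2) : AA m)) = X := by
      funext a
      rfl
    rw [h2]
    induction P using MvPolynomial.induction_on with
    | C a => simp
    | add p q hp hq => rw [map_add, map_add, hp, hq]
    | mul_X p i hp => rw [map_mul, map_mul, hp, aeval_X, map_X]
  unfold tF
  rw [h1, tr_C_mul, coeff_C_mul]
  unfold G11_emb
  congr 1
  unfold G11_hh
  have h3 : (rename (fun a : Fin m × Fin 2 => ((some a.1, a.2) : AA m)) :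
      MvPolynomial (Fin m × Fin 2) K →ₐ[K] MvPolynomial (AA m) K)
        (coeff s (tr (fun a : Fin m × Fin 2 => (X a : MvPolynomial (Fin m × Fin 2) K))
          (MvPolynomial.map (C : K →+* MvPolynomial (Fin m × Fin 2) K) P))) =
      coeff s (MvPolynomial.map ((rename (fun a : Fin m × Fin 2 => ((some a.1, a.2) : AA m)) :
        MvPolynomial (Fin m × Fin 2) K →ₐ[K] MvPolynomial (AA m) K) : _ →+* _)
        (tr (fun a : Fin m × Fin 2 => (X a : MvPolynomial (Fin m × Fin 2) K))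
          (MvPolynomial.map (C : K →+* MvPolynomial (Fin m × Fin 2) K) P))) := by
    rw [coeff_map]
    rfl
  rw [h3, map_tr, MvPolynomial.map_map]
  have h4 : ((rename (fun a : Fin m × Fin 2 => ((some a.1, a.2) : AA m)) :
        MvPolynomial (Fin m × Fin 2) K →ₐ[K] MvPolynomial (AA m) K) : _ →+* _).comp
        (C : K →+* MvPolynomial (Fin m × Fin 2) K) = algebraMap K (MvPolynomial (AA m) K) := by
    ext x
    simp
  rw [h4]
  congr 2
  funext a
  simp

theorem G11_main {K : Type*} [CommRing K] {m : ℕ} (s : Fin m × Fin 2 →₀ ℕ)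
    (F : MvPolynomial (AA m) K) (k l : ℕ) : tp k l (tF s F) = G11_hh s (tp k l F) := by
  classical
  induction F using MvPolynomial.induction_on' with
  | monomial u a =>
    have h1 : (monomial u a : MvPolynomial (AA m) K) =
        G11_emb (u (none, 0)) (u (none, 1)) (monomial (G11_rst u) a) := by
      rw [G11_emb_monomial, G11_cmb_rst]
    rw [h1, G11_tF_emb, G11_tp_emb, G11_tp_emb]
    by_cases h : u (none, 0) = k ∧ u (none, 1) = l
    · rw [if_pos h, if_pos h]
    · rw [if_neg h, if_neg h, G11_hh_zero]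
  | add p q hp hq => rw [G11_tF_add, G11_tp_add, G11_tp_add, G11_hh_add, hp, hq]

/-- `pe` as a sum: `pe X F = ∑_e coeff e F * ∏_t X t ^ e (none, t) * monomial (e restricted)`. Then the
Taylor coefficient of `F` is `∑_{k,l} x_0^k x_1^l (Taylor coefficient of tp k l F)`.

Precisely: the polynomial `tF s F` is `∑_e C (coeff e F) X_(none,0)^(e (none,0)) X_(none,1)^(e (none,1)) *
rename (fun a => (some a.1, a.2)) (∏_a choose (e a) (s a) X_a^(e a - s a))`; so the exponents of
`x_0`, `x_1` in `tF s F` are among those of `F`. -/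
theorem tF_support {K : Type*} [Field K] {m : ℕ} (s : Fin m × Fin 2 →₀ ℕ)
    (F : MvPolynomial (AA m) K) (k l : ℕ)
    (h : ∀ e ∈ F.support, e (none, 0) < k ∨ (e (none, 0) = k ∧ e (none, 1) ≤ l)) :
    ∀ e ∈ (tF s F).support, e (none, 0) < k ∨ (e (none, 0) = k ∧ e (none, 1) ≤ l) := by
  intro e he
  have h1 : tp (e (none, 0)) (e (none, 1)) F ≠ 0 := by
    intro h0
    have h2 := G11_main s F (e (none, 0)) (e (none, 1))
    rw [h0, G11_hh_zero] at h2
    have h3 := coeff_tp (e (none, 0)) (e (none, 1)) (tF s F) (G11_rst e)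
    rw [h2, coeff_zero, G11_cmb_rst] at h3
    exact mem_support_iff.1 he h3.symm
  obtain ⟨f, hf⟩ := (support_nonempty (p := tp (e (none, 0)) (e (none, 1)) F)).mpr h1
  have h4 := h _ (G11_mem _ _ F f hf)
  rwa [G11_cmb_none0, G11_cmb_none1] at h4

/-- The top coefficient of the Taylor coefficient is the Taylor coefficient of the top
coefficient. (Both sides are additive in `F`; check it for monomials.) -/
theorem eval_tp_tF {K : Type*} [Field K] {m : ℕ} (s : Fin m × Fin 2 →₀ ℕ)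
    (F : MvPolynomial (AA m) K) (k l : ℕ) (p : Fin m × Fin 2 → K) :
    eval p (tp k l (tF s F)) = coeff s (tr p (tp k l F)) := by
  rw [G11_main, G11_eval_hh]

end Pool.Agent.Lib.MP_17a322_nt.VJ
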