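import Pool.Agent.Lib.MP_17a322_nt.VJ.G6

/-!
Vanishing of the Taylor coefficients at the points `P_1 + w`, `x(w)` a root of unity.
-/

universe u

namespace Pool.Agent.Lib.MP_17a322_nt.VJ

open MvPolynomial Height

/-- The inequality in real numbers. Here `h = [L : K]`, `d = [L : ℚ] = h d_K`, `b = 8 n B`, `B = 4^J`,
`l i = 4 ^ j i`, `k i * l i = B`, `H i = HH (P i)`, `O i = hO (P i)`, `H1 = H i₀`, `S i = s(i,0) + s(i,1)`.

Proof. Suppose the inequality `hin`. (1) `|H i - l i * H1| ≤ η H i`, `η = 1/(16 n^2) ≤ 1/16`, gives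
`(15/16) l i H1 ≤ (1 - η) .. `: precisely `l i H1 ≤ (1 + η) H i ≤ (17/16) H i` and
`H i ≤ l i H1 / (1 - η) ≤ (16/15) l i H1`. (2) left side of `hin`: `(k i - S i : ℕ) ≥ k i - S i`, so it is at
least `h ∑ (k i - S i) O i ≥ h ∑ k i ε H i - h ∑ S i H i / 2` (`O i ≥ ε H i`, `0 ≤ O i ≤ H i / 2`). Here
`k i H i ≥ (16/17) k i l i H1 = (16/17) B H1`, so `∑_i k i ε H i ≥ 2 n^2 ε (16/17) B H1 ≥ (2 * 64 * 16/17) n B H1`
(as `n ε ≥ 64`), and `∑ S i H i / 2 ≤ (8/15) (∑ S i l i) H1 ≤ (8/15) b H1` (`∑ S i l i ≤ b`). (3) right side: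
`2 C_F h B`, `2 b (2 h H1 + C1 d)`, `2 ∑ b_i (4 h η H i + C1 (l i + 1) d)` with `b_i = 8 n k i`,
`b_i H i ≤ (16/15) b H1` and `b_i (l i + 1) ≤ 2 b`: at most
`2 * 2 n^2 (4 h η (16/15) b H1 + 2 b C1 d) = (16/15) h b H1 + 8 n^2 b C1 d`. So
`h b H1 (15 - 8/15 - 4 - 16/15) ≤ 2 C_F h B + C b d` and with `d = h d_K`, `B ≤ b`: `H1 ≤ C'`. -/
theorem arith (n : ℕ) (hn : 0 < n) (ε : ℝ) (hε : 64 ≤ n * ε) (CF C1 C2 dK : ℝ) (hCF : 0 ≤ CF)
    (hC1 : 0 ≤ C1) (hC2 : 0 ≤ C2) (hdK : 1 ≤ dK) :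
    ∃ C : ℝ, 0 ≤ C ∧ ∀ (h B H1 : ℝ) (k l H O S q : Fin (2 * n ^ 2) → ℝ), 1 ≤ h → 1 ≤ B →
      0 ≤ H1 → (∀ i, 1 ≤ l i) → (∀ i, 1 ≤ k i) → (∀ i, k i * l i = B) → (∀ i, 0 ≤ S i) →
      (∑ i, S i * l i ≤ 8 * n * B) → (∀ i, |H i - l i * H1| ≤ 1 / (16 * n ^ 2) * H i) →
      (∀ i, ε * H i ≤ O i) → (∀ i, 0 ≤ O i) → (∀ i, 2 * O i ≤ H i) →
      (∀ i, q i ≤ 4 * (h * (1 / (16 * n ^ 2) * H i)) + C1 * (l i + 1) * (h * dK)) →
      (∑ i, (k i - S i) * (h * O i) ≤ 2 * (h * (CF * B)) +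
        2 * (8 * n * B) * (2 * (h * H1) + C1 * (h * dK)) + 2 * ∑ i, (8 * n * k i) * q i +
        C2 * (8 * n * B) * (h * dK)) → H1 ≤ C := by
  have hn1 : (1 : ℝ) ≤ n := by exact_mod_cast hn
  have hn0 : (0 : ℝ) < n := by linarith
  have hd0 : 0 ≤ dK := by linarith
  refine ⟨2 * CF + (16 * n * C1 + 64 * n ^ 3 * C1 + 8 * n * C2) * dK, by positivity, ?_⟩
  intro h B H1 k l H O S q hh hB hH1 hl hk hkl hS hSl hHl hεO hO hO2 hq hin
  set η : ℝ := 1 / (16 * n ^ 2) with hη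
  have hη0 : 0 < η := by positivity
  have hη1 : η ≤ 1 / 16 := by
    rw [hη]
    apply one_div_le_one_div_of_le (by norm_num)
    nlinarith
  have hηn : 16 * n ^ 2 * η = 1 := by
    rw [hη]
    field_simp
  have hε0 : 0 ≤ ε := by
    by_contra hc
    push Not at hc
    nlinarith
  have hh0 : 0 ≤ h := by linarith
  have hB0 : 0 ≤ B := by linarith
  have hH : ∀ i, 0 ≤ H i := by
    intro i
    have h1 := (abs_nonneg _).trans (hHl i)
    exact nonneg_of_mul_nonneg_right (by linarith : 0 ≤ η * H i) hη0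
  have a1 : ∀ i, l i * H1 ≤ 17 / 16 * H i := by
    intro i
    have h1 := (abs_le.1 (hHl i)).1
    have h2 := mul_le_mul_of_nonneg_right hη1 (hH i)
    linarith
  have a2 : ∀ i, H i ≤ 16 / 15 * (l i * H1) := by
    intro i
    have h1 := (abs_le.1 (hHl i)).2
    have h2 := mul_le_mul_of_nonneg_right hη1 (hH i)
    linarith
  have a3 : ∀ i, 16 / 17 * (B * H1) ≤ k i * H i := by
    intro i
    have h1 := mul_le_mul_of_nonneg_left (a1 i) (by linarith [hk i] : 0 ≤ k i)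
    have h2 : k i * (l i * H1) = B * H1 := by rw [← mul_assoc, hkl]
    linarith
  have a4 : ∀ i, k i * H i ≤ 16 / 15 * (B * H1) := by
    intro i
    have h1 := mul_le_mul_of_nonneg_left (a2 i) (by linarith [hk i] : 0 ≤ k i)
    have h2 : k i * (l i * H1) = B * H1 := by rw [← mul_assoc, hkl]
    linarith
  have a5 : ∀ i, k i * (l i + 1) ≤ 2 * B := by
    intro i
    have h1 : k i * 1 ≤ k i * l i := mul_le_mul_of_nonneg_left (hl i) (by linarith [hk i])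
    have h2 := hkl i
    nlinarith
  -- left side
  have b1 : ∀ i, h * (ε * (16 / 17 * (B * H1)) - 8 / 15 * (S i * l i * H1)) ≤
      (k i - S i) * (h * O i) := by
    intro i
    have h1 : k i * (ε * H i) ≤ k i * O i :=
      mul_le_mul_of_nonneg_left (hεO i) (by linarith [hk i])
    have h2 : S i * (2 * O i) ≤ S i * (16 / 15 * (l i * H1)) :=
      mul_le_mul_of_nonneg_left ((hO2 i).trans (a2 i)) (hS i)
    have h3 := mul_le_mul_of_nonneg_left (a3 i) hε0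
    have h4 : ε * (16 / 17 * (B * H1)) - 8 / 15 * (S i * l i * H1) ≤ (k i - S i) * O i := by
      nlinarith
    have h5 := mul_le_mul_of_nonneg_left h4 hh0
    linarith
  have b2 := Finset.sum_le_sum (fun i (_ : i ∈ Finset.univ) => b1 i)
  have b3 : ∑ i, h * (ε * (16 / 17 * (B * H1)) - 8 / 15 * (S i * l i * H1)) =
      h * (2 * n ^ 2 * (ε * (16 / 17 * (B * H1))) - 8 / 15 * ((∑ i, S i * l i) * H1)) := by
    have e : ∑ i, 8 / 15 * (S i * l i * H1) = 8 / 15 * ((∑ i, S i * l i) * H1) := by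
      rw [Finset.sum_mul, Finset.mul_sum]
    rw [← Finset.mul_sum, Finset.sum_sub_distrib, e]
    simp only [Finset.sum_const, Finset.card_univ, Fintype.card_fin, nsmul_eq_mul]
    push_cast
    ring
  rw [b3] at b2
  -- right side
  have c1 : ∀ i, 8 * n * k i * q i ≤ 8 * n * (4 * h * η * (16 / 15 * (B * H1)) +
      C1 * (2 * B) * (h * dK)) := by
    intro i
    have h1 := mul_le_mul_of_nonneg_left (hq i) (by linarith [hk i] : 0 ≤ k i)
    have h2 := mul_le_mul_of_nonneg_left (a4 i) (by positivity : 0 ≤ 4 * h * η)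
    have h3 := mul_le_mul_of_nonneg_right (mul_le_mul_of_nonneg_left (a5 i) hC1)
      (by positivity : 0 ≤ h * dK)
    have h4 : k i * q i ≤ 4 * h * η * (16 / 15 * (B * H1)) + C1 * (2 * B) * (h * dK) := by
      nlinarith
    have h5 := mul_le_mul_of_nonneg_left h4 (by positivity : (0 : ℝ) ≤ 8 * n)
    linarith
  have c2 := Finset.sum_le_sum (fun i (_ : i ∈ Finset.univ) => c1 i)
  simp only [Finset.sum_const, Finset.card_univ, Fintype.card_fin, nsmul_eq_mul] at c2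
  push_cast at c2
  have c3 : (2 : ℝ) * n ^ 2 * (8 * n * (4 * h * η * (16 / 15 * (B * H1)) +
      C1 * (2 * B) * (h * dK))) = 64 / 15 * (n * (h * (B * H1))) + 32 * n ^ 3 * (C1 * (B * (h * dK))) := by
    have : (2 : ℝ) * n ^ 2 * (8 * n * (4 * h * η * (16 / 15 * (B * H1)) +
      C1 * (2 * B) * (h * dK))) = (16 * n ^ 2 * η) * (64 / 15 * (n * (h * (B * H1)))) +
        32 * n ^ 3 * (C1 * (B * (h * dK))) := by ring
    rw [this, hηn, one_mul]
  rw [c3] at c2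
  have d1 : h * (∑ i, S i * l i) * H1 ≤ h * (8 * n * B) * H1 := by
    apply mul_le_mul_of_nonneg_right _ hH1
    exact mul_le_mul_of_nonneg_left hSl hh0
  have d2 : 64 * (n * (h * (B * H1))) ≤ n * ε * (n * (h * (B * H1))) :=
    mul_le_mul_of_nonneg_right hε (by positivity)
  have d3 : n * (h * (B * H1)) ≤ h * B * (2 * CF + (16 * n * C1 + 64 * n ^ 3 * C1 + 8 * n * C2) * dK) := by
    have hz : 0 ≤ n * (h * (B * H1)) := by positivity
    nlinarith
  have d4 : h * B * H1 ≤ n * (h * (B * H1)) := by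
    have : h * B * H1 = 1 * (h * (B * H1)) := by ring
    rw [this]
    exact mul_le_mul_of_nonneg_right hn1 (by positivity)
  have hhB : 0 < h * B := by positivity
  exact le_of_mul_le_mul_left (d4.trans d3) hhB

/-- Vanishing. The points `P i t` over `K` are mapped to `L` by `f t` (`PB`); `w t` are points over `L`
whose x-coordinate is a root of unity, `z t = f t (P i₀ t) + w t`, `Q i t = f t (P i t) - 2 ^ j i • z t`.

Proof. `global_ineq` (G6) if a coefficient with `∑ 4 ^ j i * s (i,t) < b` does not vanish. Heights over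
`L`: `h(w t) = 0` (`logHeight₁_of_pow_eq_one`, `logHeight_xRep`); `h(z t) ≤ 2 h(f (P i₀ t)) + C d`
(`height_unif` (2)); `Q i t = f (P i t - 2 ^ j i • P i₀ t) - 2 ^ j i • w t`, so
`h(Q i t) ≤ 2 [L:K] h(P i t - 2^j P i₀ t) + 2 h(2 ^ j w t) + C d ≤ 2 [L:K] η HH (P i) + 2 * 4 ^ j i C d + C d`
(`height_unif` (2), (3); `h(-R) = h(R)`), `q i := ∑_t h(Q i t)`. `nh (map F) = [L:K] nh F` (`nh_map`),
`gs log lc ≤ C d` (`gs_log_lc_le`), `hO_PB`, `HH_PB`, `two_hO_le`, `hO_nonneg`; then `arith`. -/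
theorem vanishing {K : Type u} [Field K] [NumberField K] [DecidableEq K]
    (W : Fin 2 → WeierstrassCurve K) [∀ t, (W t).IsElliptic] (n : ℕ) (hn : 0 < n) (ε : ℝ)
    (hε : 64 ≤ n * ε) (CF : ℝ) (hCF : 0 ≤ CF) :
    ∃ C : ℝ, 0 ≤ C ∧ ∀ (J : ℕ) (j : Fin (2 * n ^ 2) → ℕ) (i₀ : Fin (2 * n ^ 2)),
      (∀ i, j i ≤ J) → ∀ (x : (AA (2 * n ^ 2) → ℕ) → K), CG W n J j x → FG n J j x ≠ 0 →
      nh (FG n J j x) ≤ CF * 4 ^ J → ∀ (P : Fin (2 * n ^ 2) → ∀ t, (W t).toAffine.Point),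
      (∀ i t, P i t ≠ 0) → (∀ i, ε * HH (P i) ≤ hO (P i)) → C < HH (P i₀) →
      (∀ i t, logHeight (P i t - 2 ^ j i • P i₀ t).xRep ≤ 1 / (16 * n ^ 2) * HH (P i)) →
      (∀ i, |HH (P i) - 4 ^ j i * HH (P i₀)| ≤ 1 / (16 * n ^ 2) * HH (P i)) →
      ∀ (L : Type u) [Field L] [NumberField L] [DecidableEq L] [Algebra K L]
        (V : Fin 2 → WeierstrassCurve L) (f : ∀ t, (W t).toAffine.Point →+ (V t).toAffine.Point)
        (w : ∀ t, (V t).toAffine.Point) (N : ℕ),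
        (∀ t, (W t).map (algebraMap K L) = V t) → (∀ t, PB (W t) (V t) (f t)) → 0 < N →
        (∀ t, w t ≠ 0) → (∀ t, (w t).xRep 0 ^ N = 1) → (∀ t, f t (P i₀ t) + w t ≠ 0) →
        (∀ i t, f t (P i t) - 2 ^ j i • (f t (P i₀ t) + w t) ≠ 0) →
        ∀ s : Fin (2 * n ^ 2) × Fin 2 →₀ ℕ, (∑ a, s a * 4 ^ j a.1 < 8 * n * 4 ^ J) →
          coeff s (tr (fun a => (f a.2 (P a.1 a.2) -
            2 ^ j a.1 • (f a.2 (P i₀ a.2) + w a.2)).xRep 0)
              (pe (fun t => (f t (P i₀ t) + w t).xRep 0) (FG n J j x))) = 0 := by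
  choose A hA0 hA using fun t => height_unif (W t)
  choose D hD0 hD using fun t => gs_log_lc_le (W t)
  have hdK : (1 : ℝ) ≤ Module.finrank ℚ K := by exact_mod_cast Module.finrank_pos (R := ℚ) (M := K)
  have hAs : 0 ≤ A 0 + A 1 := add_nonneg (hA0 0) (hA0 1)
  have hDs : 0 ≤ D 0 + D 1 := add_nonneg (hD0 0) (hD0 1)
  obtain ⟨C, hC0, hC⟩ := arith n hn ε hε CF (2 * (A 0 + A 1)) (54 * (2 * n ^ 2) * (D 0 + D 1))
    (Module.finrank ℚ K) hCF (by positivity) (by positivity) hdK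
  refine ⟨C, hC0, ?_⟩
  intro J j i₀ hj x hx hF hnF P hP0 hPε hPC hP1 hP2 L _ _ _ _ V f w N hV hf hN hw hwN hz hQ s hs
  by_contra hy
  have hd : (Module.finrank K L : ℝ) * Module.finrank ℚ K = Module.finrank ℚ L := by
    have h1 := Module.finrank_mul_finrank ℚ K L
    rw [mul_comm]
    exact_mod_cast h1
  have hh1 : (1 : ℝ) ≤ Module.finrank K L := by exact_mod_cast Module.finrank_pos (R := K) (M := L)
  have hd0 : (0 : ℝ) ≤ Module.finrank ℚ L := Nat.cast_nonneg _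
  set h : ℝ := ((Module.finrank K L : ℕ) : ℝ) with hh
  set d : ℝ := ((Module.finrank ℚ L : ℕ) : ℝ) with hdd
  have hw0 : ∀ t, logHeight (w t).xRep = 0 := fun t => by
    rw [logHeight_xRep (hw t)]
    exact logHeight₁_of_pow_eq_one hN (hwN t)
  have hjw : ∀ t (k : ℕ), logHeight (2 ^ k • w t).xRep ≤ 4 ^ k * (A t * d) := fun t k => by
    have h1 := (abs_le.1 ((hA t L (V t) (hV t)).2.2.1 (w t) k)).2
    rw [hw0] at h1
    linarith
  have hzt : ∀ t, logHeight (f t (P i₀ t) + w t).xRep ≤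
      2 * (h * logHeight (P i₀ t).xRep) + A t * d := fun t => by
    have h1 := (hA t L (V t) (hV t)).2.1 (f t (P i₀ t)) (w t)
    rw [hw0, (hf t).logHeight] at h1
    linarith
  have hQt : ∀ i t, logHeight (f t (P i t) - 2 ^ j i • (f t (P i₀ t) + w t)).xRep ≤
      2 * (h * (1 / (16 * n ^ 2) * HH (P i))) + (2 * 4 ^ j i + 1) * (A t * d) := fun i t => by
    have e : f t (P i t) - 2 ^ j i • (f t (P i₀ t) + w t) =
        f t (P i t - 2 ^ j i • P i₀ t) + -(2 ^ j i • w t) := by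
      rw [map_sub, map_nsmul, nsmul_add]
      abel
    have h1 := (hA t L (V t) (hV t)).2.1 (f t (P i t - 2 ^ j i • P i₀ t)) (-(2 ^ j i • w t))
    rw [← e, WeierstrassCurve.Affine.Point.xRep_neg, (hf t).logHeight] at h1
    have h2 := hjw t (j i)
    have h3 := mul_le_mul_of_nonneg_left (hP1 i t) (by linarith : (0 : ℝ) ≤ Module.finrank K L)
    rw [← hh] at h1 h3
    linarith
  have hgl := global_ineq W V hV n J j hj x hx hF (fun t => f t (P i₀ t) + w t)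
    (fun i t => f t (P i t)) (fun i t => f t (P i t) - 2 ^ j i • (f t (P i₀ t) + w t))
    (fun i t => by simp) (fun i t => fun h0 => hP0 i t (((hf t).eq_zero _).1 h0)) hz hQ s hy
  have e1 : ∀ i, hO (fun t => f t (P i t)) = h * hO (P i) := fun i => hO_PB hf (P i)
  simp only [e1] at hgl
  rw [nh_map, ← hh] at hgl
  let q : Fin (2 * n ^ 2) → ℝ := fun i =>
    ∑ t, logHeight (f t (P i t) - 2 ^ j i • (f t (P i₀ t) + w t)).xRep
  have hpow : ∀ i, (4 : ℝ) ^ (J - j i) * 4 ^ j i = 4 ^ J := fun i => by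
    rw [← pow_add, Nat.sub_add_cancel (hj i)]
  have hfin := hC h (4 ^ J) (HH (P i₀)) (fun i => 4 ^ (J - j i)) (fun i => 4 ^ j i)
    (fun i => HH (P i)) (fun i => hO (P i)) (fun i => ((s (i, 0) + s (i, 1) : ℕ) : ℝ)) q hh1
    (one_le_pow₀ (by norm_num)) (HH_nonneg _) (fun i => one_le_pow₀ (by norm_num))
    (fun i => one_le_pow₀ (by norm_num)) hpow (fun i => Nat.cast_nonneg _) ?_ hP2 hPε
    (fun i => hO_nonneg (P i) (hP0 i)) (fun i => two_hO_le (P i) (hP0 i)) ?_ ?_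
  · exact absurd hfin (not_le.2 hPC)
  · have h1 : (∑ a : Fin (2 * n ^ 2) × Fin 2, s a * 4 ^ j a.1 : ℕ) ≤ 8 * n * 4 ^ J := hs.le
    have h2 : ((∑ a : Fin (2 * n ^ 2) × Fin 2, s a * 4 ^ j a.1 : ℕ) : ℝ) ≤ 8 * n * 4 ^ J := by
      exact_mod_cast h1
    rw [Fintype.sum_prod_type] at h2
    refine le_of_eq_of_le ?_ h2
    push_cast
    refine Finset.sum_congr rfl fun i _ => ?_
    rw [Fin.sum_univ_two]
    ring
  · intro i
    have h1 := hQt i 0
    have h2 := hQt i 1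
    have h3 : q i = logHeight (f 0 (P i 0) - 2 ^ j i • (f 0 (P i₀ 0) + w 0)).xRep +
        logHeight (f 1 (P i 1) - 2 ^ j i • (f 1 (P i₀ 1) + w 1)).xRep := Fin.sum_univ_two _
    have h4 : 0 ≤ (A 0 + A 1) * d := by positivity
    rw [hd, h3]
    linarith
  · have h1 : ∀ i, (((4 : ℝ) ^ (J - j i) - ((s (i, 0) + s (i, 1) : ℕ) : ℝ)) * (h * hO (P i))) ≤
        ((4 ^ (J - j i) - (s (i, 0) + s (i, 1)) : ℕ) : ℝ) * (h * hO (P i)) := by
      intro i
      apply mul_le_mul_of_nonneg_right _ (mul_nonneg (by linarith) (hO_nonneg (P i) (hP0 i)))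
      have h2 : 4 ^ (J - j i) ≤ (4 ^ (J - j i) - (s (i, 0) + s (i, 1))) + (s (i, 0) + s (i, 1)) := by
        omega
      have h3 : ((4 ^ (J - j i) : ℕ) : ℝ) ≤ ((4 ^ (J - j i) - (s (i, 0) + s (i, 1)) : ℕ) : ℝ) +
          ((s (i, 0) + s (i, 1) : ℕ) : ℝ) := by exact_mod_cast h2
      push_cast at h3 ⊢
      linarith
    have h2 := Finset.sum_le_sum (fun i (_ : i ∈ Finset.univ) => h1 i)
    have h3 : ∑ t, logHeight (f t (P i₀ t) + w t).xRep ≤ 2 * (h * HH (P i₀)) +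
        2 * (A 0 + A 1) * (h * Module.finrank ℚ K) := by
      rw [Fin.sum_univ_two, hd]
      have h4 := hzt 0
      have h5 := hzt 1
      have h6 : HH (P i₀) = logHeight (P i₀ 0).xRep + logHeight (P i₀ 1).xRep :=
        Fin.sum_univ_two _
      have h7 : 0 ≤ (A 0 + A 1) * d := by positivity
      rw [h6]
      linarith
    have h4 : ∑ a : Fin (2 * n ^ 2) × Fin 2, (8 * n * 4 ^ (J - j a.1)) *
        logHeight (f a.2 (P a.1 a.2) - 2 ^ j a.1 • (f a.2 (P i₀ a.2) + w a.2)).xRep =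
        ∑ i, (8 * n * 4 ^ (J - j i)) * q i := by
      rw [Fintype.sum_prod_type]
      refine Finset.sum_congr rfl fun i _ => ?_
      rw [Finset.mul_sum]
    have h5 : ∑ t, gs (fun v : AbsoluteValue L ℝ => Real.log (lc (W t) v)) ≤
        (D 0 + D 1) * (h * Module.finrank ℚ K) := by
      rw [Fin.sum_univ_two, hd]
      have h6 := hD 0 L
      have h7 := hD 1 L
      linarith
    have h6 : 2 * (8 * n * 4 ^ J) * ∑ t, logHeight (f t (P i₀ t) + w t).xRep ≤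
        2 * (8 * n * 4 ^ J) * (2 * (h * HH (P i₀)) +
        2 * (A 0 + A 1) * (h * Module.finrank ℚ K)) :=
      mul_le_mul_of_nonneg_left h3 (by positivity)
    have h7 : 54 * ((2 * n ^ 2 : ℕ) : ℝ) * (8 * n * 4 ^ J) *
        ∑ t, gs (fun v : AbsoluteValue L ℝ => Real.log (lc (W t) v)) ≤
        54 * ((2 * n ^ 2 : ℕ) : ℝ) * (8 * n * 4 ^ J) *
        ((D 0 + D 1) * (h * Module.finrank ℚ K)) :=
      mul_le_mul_of_nonneg_left h5 (by positivity)
    have h8 : 2 * (h * nh (FG n J j x)) ≤ 2 * (h * (CF * 4 ^ J)) := by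
      have h9 := mul_le_mul_of_nonneg_left hnF (by linarith : (0 : ℝ) ≤ h)
      linarith
    rw [h4] at hgl
    refine h2.trans (hgl.trans ?_)
    push_cast at h7 ⊢
    linarith

end Pool.Agent.Lib.MP_17a322_nt.VJ
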