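import Pool.Agent.Lib.MP_17a322_nt.VJ.DefsG
import Pool.Agent.Lib.MP_17a322_nt.VJ.A6

/-!
From infinitely many points to a generic point; naturality of Taylor coefficients.
-/

universe u

namespace Pool.Agent.Lib.MP_17a322_nt.VJ

open MvPolynomial Height

/-- Generic point. `α k` are finitely or infinitely many polynomials in `x_t`, `ξ_a`; for all `x` in a
product of two infinite sets there is `ξ` with all `α k (x, ξ) = 0`.

Proof. Let `I` be the ideal generated by the `α k` in `R = MvPolynomial (AA m) K` and `M` the submonoid of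
the nonzero polynomials in the variables `(none, t)` (images of `MvPolynomial (Fin 2) K` under
`rename (fun t => (none, t))`, injective). `I` is disjoint from `M`: an element `rename G` of `I` vanishes
at `pt x ξ` for all `x` in the product (all elements of `I` vanish there), i.e. `G` vanishes on the
product set, so `G = 0` (`MvPolynomial.funext_set` after mapping `G` to `Ω`, injective). By
`Ideal.exists_le_prime_disjoint` there is a prime `p ≥ I` disjoint from `M`. `F' = FractionRing (R ⧸ p)`,
`X t`, `ξ a` the images of the variables. An algebraic relation between the `X t` would be an element of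
`M ∩ p`. -/
theorem exists_generic {K : Type u} [Field K] {Ω : Type*} [Field Ω] [Algebra K Ω] {m : ℕ}
    {κ : Type*} (α : κ → MvPolynomial (AA m) K) (T : Fin 2 → Set Ω) (hT : ∀ t, (T t).Infinite)
    (h : ∀ x : Fin 2 → Ω, (∀ t, x t ∈ T t) → ∃ ξ : Fin m × Fin 2 → Ω,
      ∀ k, aeval (pt x ξ) (α k) = 0) :
    ∃ (F' : Type u) (_ : Field F') (_ : Algebra K F') (X : Fin 2 → F')
      (ξ : Fin m × Fin 2 → F'), AlgebraicIndependent K X ∧ ∀ k, aeval (pt X ξ) (α k) = 0 := by
  classical
  have hinj : Function.Injective (fun t : Fin 2 => ((none, t) : AA m)) := fun a b hab => by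
    simpa using hab
  have hren : Function.Injective
      (rename (fun t : Fin 2 => ((none, t) : AA m)) : MvPolynomial (Fin 2) K → _) :=
    rename_injective _ hinj
  let I : Ideal (MvPolynomial (AA m) K) := Ideal.span (Set.range α)
  let M : Submonoid (MvPolynomial (AA m) K) :=
    (nonZeroDivisors (MvPolynomial (Fin 2) K)).map
      (rename (fun t : Fin 2 => ((none, t) : AA m)) : MvPolynomial (Fin 2) K →ₐ[K] _)
  have hdisj : Disjoint (I : Set (MvPolynomial (AA m) K)) (M : Set (MvPolynomial (AA m) K)) := by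
    rw [Set.disjoint_left]
    rintro z hz ⟨G, hG, rfl⟩
    have hG0 : G ≠ 0 := nonZeroDivisors.ne_zero hG
    apply hG0
    have hinjΩ : Function.Injective (algebraMap K Ω) := (algebraMap K Ω).injective
    refine MvPolynomial.map_injective _ hinjΩ ?_
    rw [map_zero]
    refine MvPolynomial.funext_set T hT ?_
    intro x hx
    obtain ⟨ξ, hξ⟩ := h x fun t => hx t (Set.mem_univ t)
    have hI : I ≤ RingHom.ker (aeval (pt x ξ) : MvPolynomial (AA m) K →ₐ[K] Ω) := by
      refine Ideal.span_le.2 ?_
      rintro _ ⟨k, rfl⟩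
      exact hξ k
    have h1 : aeval (pt x ξ) (rename (fun t : Fin 2 => ((none, t) : AA m)) G) = 0 := hI hz
    rw [aeval_rename] at h1
    have h2 : (pt x ξ ∘ fun t : Fin 2 => ((none, t) : AA m)) = x := by
      funext t
      rfl
    rw [h2] at h1
    show eval x (MvPolynomial.map (algebraMap K Ω) G) = eval x 0
    rw [map_zero, eval_map, ← aeval_def]
    exact h1
  obtain ⟨P, hP, hIP, hPM⟩ := Ideal.exists_le_prime_disjoint I M hdisj
  let φ : MvPolynomial (AA m) K →+* FractionRing (MvPolynomial (AA m) K ⧸ P) :=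
    (algebraMap (MvPolynomial (AA m) K ⧸ P) (FractionRing (MvPolynomial (AA m) K ⧸ P))).comp
      (Ideal.Quotient.mk P)
  have hφ : ∀ z, φ z = 0 ↔ z ∈ P := by
    intro z
    show algebraMap (MvPolynomial (AA m) K ⧸ P) (FractionRing (MvPolynomial (AA m) K ⧸ P))
      (Ideal.Quotient.mk P z) = 0 ↔ z ∈ P
    rw [← Ideal.Quotient.eq_zero_iff_mem]
    constructor
    · intro hz
      exact IsFractionRing.injective (MvPolynomial (AA m) K ⧸ P)
        (FractionRing (MvPolynomial (AA m) K ⧸ P)) (by rw [hz, map_zero])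
    · intro hz
      rw [hz, map_zero]
  let alg : Algebra K (FractionRing (MvPolynomial (AA m) K ⧸ P)) := (φ.comp C).toAlgebra
  let φ' : MvPolynomial (AA m) K →ₐ[K] FractionRing (MvPolynomial (AA m) K ⧸ P) :=
    { φ with commutes' := fun r => rfl }
  have hφ' : ∀ z, φ' z = φ z := fun z => rfl
  refine ⟨FractionRing (MvPolynomial (AA m) K ⧸ P), inferInstance, alg,
    fun t => φ' (X (none, t)), fun a => φ' (X (some a.1, a.2)), ?_, ?_⟩
  · rw [algebraicIndependent_iff]
    intro G hG
    have h1 : aeval (fun t => φ' (X (none, t))) G =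
        φ' (rename (fun t : Fin 2 => ((none, t) : AA m)) G) := by
      have h2 : (aeval (fun t : Fin 2 => φ' (X (none, t))) :
          MvPolynomial (Fin 2) K →ₐ[K] FractionRing (MvPolynomial (AA m) K ⧸ P)) =
          φ'.comp (rename (fun t : Fin 2 => ((none, t) : AA m))) := by
        refine MvPolynomial.algHom_ext fun t => ?_
        rw [aeval_X, AlgHom.comp_apply, rename_X]
      rw [h2]
      rfl
    rw [h1, hφ', hφ] at hG
    by_contra hG0
    exact Set.disjoint_left.1 hPM hG ⟨G, mem_nonZeroDivisors_of_ne_zero hG0, rfl⟩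
  · intro k
    have h1 : (aeval (pt (fun t => φ' (X (none, t))) (fun a => φ' (X (some a.1, a.2)))) :
        MvPolynomial (AA m) K →ₐ[K] FractionRing (MvPolynomial (AA m) K ⧸ P)) = φ' := by
      refine MvPolynomial.algHom_ext fun a => ?_
      rw [aeval_X]
      rcases a with ⟨i | i, t⟩
      · rfl
      · rfl
    rw [h1, hφ', hφ]
    exact hIP (Ideal.subset_span ⟨k, rfl⟩)

/-- Value of `pe`. -/
theorem aeval_pe {K A : Type*} [CommRing K] [CommRing A] [Algebra K A] {m : ℕ}
    (x : Fin 2 → A) (F : MvPolynomial (AA m) K) (ξ : Fin m × Fin 2 → A) :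
    eval ξ (pe x F) = aeval (pt x ξ) F := by
  have h1 : ((aeval ξ : MvPolynomial (Fin m × Fin 2) A →ₐ[A] A).restrictScalars K).comp
      (aeval (fun a : AA m => a.1.elim (C (x a.2)) fun i => X (i, a.2)) :
        MvPolynomial (AA m) K →ₐ[K] MvPolynomial (Fin m × Fin 2) A) = aeval (pt x ξ) := by
    refine MvPolynomial.algHom_ext fun a => ?_
    rw [AlgHom.comp_apply, aeval_X, aeval_X]
    rcases a with ⟨i | i, t⟩
    · show aeval ξ (C (x t) : MvPolynomial (Fin m × Fin 2) A) = x t
      rw [aeval_C]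
      rfl
    · show aeval ξ (X (i, t) : MvPolynomial (Fin m × Fin 2) A) = ξ (i, t)
      rw [aeval_X]
  rw [← h1]
  rfl

/-- `pe` and ring homomorphisms. -/
theorem map_pe {K A B : Type*} [CommRing K] [CommRing A] [Algebra K A] [CommRing B] [Algebra K B]
    (f : A →ₐ[K] B) {m : ℕ} (x : Fin 2 → A) (F : MvPolynomial (AA m) K) :
    MvPolynomial.map (f : A →+* B) (pe x F) = pe (fun t => f (x t)) F := by
  have h1 : (MvPolynomial.mapAlgHom f : MvPolynomial (Fin m × Fin 2) A →ₐ[K]
        MvPolynomial (Fin m × Fin 2) B).comp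
      (aeval (fun a : AA m => a.1.elim (C (x a.2)) fun i => X (i, a.2)) :
        MvPolynomial (AA m) K →ₐ[K] MvPolynomial (Fin m × Fin 2) A) =
      aeval (fun a : AA m => a.1.elim (C (f (x a.2))) fun i => X (i, a.2)) := by
    refine MvPolynomial.algHom_ext fun a => ?_
    rw [AlgHom.comp_apply, aeval_X, aeval_X]
    rcases a with ⟨i | i, t⟩
    · show MvPolynomial.map (f : A →+* B) (C (x t)) = C (f (x t))
      rw [map_C]
      rfl
    · show MvPolynomial.map (f : A →+* B) (X (i, t)) = X (i, t)
      rw [map_X]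
  show _ = aeval (fun a : AA m => a.1.elim (C (f (x a.2))) fun i => X (i, a.2)) F
  rw [← h1]
  rfl

private theorem G9_coeff {K A B : Type*} [CommRing K] [CommRing A] [Algebra K A] [CommRing B]
    [Algebra K B] (f : A →ₐ[K] B) {m : ℕ} (s : Fin m × Fin 2 →₀ ℕ) (x : Fin 2 → A)
    (F : MvPolynomial (AA m) K) (ξ : Fin m × Fin 2 → A) :
    f (coeff s (tr ξ (pe x F))) = coeff s (tr (fun a => f (ξ a)) (pe (fun t => f (x t)) F)) := by
  rw [← map_pe f x F]
  have h1 := map_tr (f : A →+* B) ξ (pe x F)
  have h2 : f (coeff s (tr ξ (pe x F))) = coeff s (MvPolynomial.map (f : A →+* B)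
      (tr ξ (pe x F))) := by
    rw [coeff_map]
    rfl
  rw [h2, h1]
  rfl

/-- The Taylor coefficients are the values of the polynomials `tF s F`. Proof: apply `map_pe`, `map_tr`
(A6) to the algebra homomorphism `aeval (pt x ξ) : MvPolynomial (AA m) K → A`. -/
theorem aeval_tF {K A : Type*} [CommRing K] [CommRing A] [Algebra K A] {m : ℕ}
    (s : Fin m × Fin 2 →₀ ℕ) (F : MvPolynomial (AA m) K) (x : Fin 2 → A)
    (ξ : Fin m × Fin 2 → A) :
    aeval (pt x ξ) (tF s F) = coeff s (tr ξ (pe x F)) := by
  have h1 := G9_coeff (aeval (pt x ξ) : MvPolynomial (AA m) K →ₐ[K] A) s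
    (fun t => (X (none, t) : MvPolynomial (AA m) K)) F
    (fun a : Fin m × Fin 2 => (X (some a.1, a.2) : MvPolynomial (AA m) K))
  simp only [aeval_X] at h1
  exact h1

/-- Over an extension: base ring `K`, values in a ring `B` over `A`. -/
theorem coeff_tr_pe_map {K A B : Type*} [CommRing K] [CommRing A] [Algebra K A] [CommRing B]
    [Algebra K B] (f : A →ₐ[K] B) {m : ℕ} (s : Fin m × Fin 2 →₀ ℕ) (x : Fin 2 → A)
    (F : MvPolynomial (AA m) K) (ξ : Fin m × Fin 2 → A) :
    f (coeff s (tr ξ (pe x F))) = coeff s (tr (fun a => f (ξ a)) (pe (fun t => f (x t)) F)) :=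
  G9_coeff f s x F ξ

end Pool.Agent.Lib.MP_17a322_nt.VJ
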