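import Pool.Agent.Lib.MP_17a322_nt.VJ.E9
import Pool.Agent.Lib.MP_17a322_nt.VJ.G7
import Pool.Agent.Lib.MP_17a322_nt.VJ.G8
import Pool.Agent.Lib.MP_17a322_nt.VJ.G9

/-!
Vanishing over the algebraic closure.
-/

universe u

namespace Pool.Agent.Lib.MP_17a322_nt.VJ

open MvPolynomial Height

/-- `vanishing` (G7) over an algebraic extension `Ω` of `K`.

Proof. For `w` over `Ω` take the field of definition `L` (`exists_field_of_def`, G8) with `g' t`, `w'`, and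
`f t` with `g' t ∘ f t = g t` (`exists_PB_comp`, E9). Then `w' t ≠ 0`, `(w' t).xRep 0 ^ N = 1`, the points
`f t (P i₀ t) + w' t` and `f t (P i t) - 2 ^ j i • (..)` are mapped by `g' t` to the points over `Ω`, so they are
not zero and their x-coordinates are mapped by `algebraMap L Ω` to those over `Ω` (`PB.xRep`). Apply
`vanishing` over `L` and `coeff_tr_pe_map` (G9) for `L → Ω` (`IsScalarTower.toAlgHom K L Ω`). -/
theorem vanishing_alg {K : Type u} [Field K] [NumberField K] [DecidableEq K]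
    (W : Fin 2 → WeierstrassCurve K) [∀ t, (W t).IsElliptic] (n : ℕ) (hn : 0 < n) (ε : ℝ)
    (hε : 64 ≤ n * ε) (CF : ℝ) (hCF : 0 ≤ CF) :
    ∃ C : ℝ, 0 ≤ C ∧ ∀ (J : ℕ) (j : Fin (2 * n ^ 2) → ℕ) (i₀ : Fin (2 * n ^ 2)),
      (∀ i, j i ≤ J) → ∀ (x : (AA (2 * n ^ 2) → ℕ) → K), CG W n J j x → FG n J j x ≠ 0 →
      nh (FG n J j x) ≤ CF * 4 ^ J → ∀ (P : Fin (2 * n ^ 2) → ∀ t, (W t).toAffine.Point),
      (∀ i t, P i t ≠ 0) → (∀ i, ε * HH (P i) ≤ hO (P i)) → C < HH (P i₀) →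
      (∀ i t, logHeight (P i t - 2 ^ j i • P i₀ t).xRep ≤ 1 / (16 * n ^ 2) * HH (P i)) →
      (∀ i, |HH (P i) - 4 ^ j i * HH (P i₀)| ≤ 1 / (16 * n ^ 2) * HH (P i)) →
      ∀ (Ω : Type u) [Field Ω] [DecidableEq Ω] [Algebra K Ω] [Algebra.IsAlgebraic K Ω]
        (V : Fin 2 → WeierstrassCurve Ω) (g : ∀ t, (W t).toAffine.Point →+ (V t).toAffine.Point)
        (w : ∀ t, (V t).toAffine.Point) (N : ℕ),
        (∀ t, (W t).map (algebraMap K Ω) = V t) → (∀ t, PB (W t) (V t) (g t)) → 0 < N →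
        (∀ t, w t ≠ 0) → (∀ t, (w t).xRep 0 ^ N = 1) → (∀ t, g t (P i₀ t) + w t ≠ 0) →
        (∀ i t, g t (P i t) - 2 ^ j i • (g t (P i₀ t) + w t) ≠ 0) →
        ∀ s : Fin (2 * n ^ 2) × Fin 2 →₀ ℕ, (∑ a, s a * 4 ^ j a.1 < 8 * n * 4 ^ J) →
          aeval (pt (fun t => (g t (P i₀ t) + w t).xRep 0)
            (fun a => (g a.2 (P a.1 a.2) -
              2 ^ j a.1 • (g a.2 (P i₀ a.2) + w a.2)).xRep 0)) (tF s (FG n J j x)) = 0 := by
  obtain ⟨C, hC0, hC⟩ := vanishing W n hn ε hε CF hCF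
  refine ⟨C, hC0, ?_⟩
  intro J j i₀ hj x hCG hFG hnh P hP0 hPε hPC hPlog hPabs Ω _ _ _ _ V g w N hV hg hN hw0 hwN
    hz0 hQ0 s hs
  obtain ⟨L, _, _, _, _, _, _, V', g', w', hV', hg', hw'⟩ := exists_field_of_def W V hV w
  have hex : ∀ t, ∃ f : (W t).toAffine.Point →+ (V' t).toAffine.Point,
      PB (W t) (V' t) f ∧ ∀ Q, g' t (f Q) = g t Q :=
    fun t => exists_PB_comp (hV' t) (hg t) (hg' t)
  choose f hf hfg using hex
  have hinj : Function.Injective (algebraMap L Ω) := (algebraMap L Ω).injective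
  have hz : ∀ t, g' t (f t (P i₀ t) + w' t) = g t (P i₀ t) + w t := by
    intro t
    rw [map_add, hfg, hw']
  have hQ : ∀ i t, g' t (f t (P i t) - 2 ^ j i • (f t (P i₀ t) + w' t)) =
      g t (P i t) - 2 ^ j i • (g t (P i₀ t) + w t) := by
    intro i t
    rw [map_sub, map_nsmul, hz, hfg]
  have h1 := hC J j i₀ hj x hCG hFG hnh P hP0 hPε hPC hPlog hPabs L V' f w' N hV' hf hN
    (fun t h => hw0 t (by rw [← hw' t, h, map_zero]))
    (fun t => by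
      apply hinj
      rw [map_pow, map_one, ← hg' t, hw', hwN])
    (fun t h => hz0 t (by rw [← hz t, h, map_zero]))
    (fun i t h => hQ0 i t (by rw [← hQ i t, h, map_zero])) s hs
  have h2 := congrArg (IsScalarTower.toAlgHom K L Ω) h1
  rw [coeff_tr_pe_map, map_zero] at h2
  rw [aeval_tF]
  have e1 : (fun a : Fin (2 * n ^ 2) × Fin 2 => (IsScalarTower.toAlgHom K L Ω)
      ((f a.2 (P a.1 a.2) - 2 ^ j a.1 • (f a.2 (P i₀ a.2) + w' a.2)).xRep 0)) =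
      fun a => (g a.2 (P a.1 a.2) - 2 ^ j a.1 • (g a.2 (P i₀ a.2) + w a.2)).xRep 0 := by
    funext a
    rw [← hQ a.1 a.2, hg' a.2]
    rfl
  have e2 : (fun t : Fin 2 => (IsScalarTower.toAlgHom K L Ω)
      ((f t (P i₀ t) + w' t).xRep 0)) = fun t => (g t (P i₀ t) + w t).xRep 0 := by
    funext t
    rw [← hz t, hg' t]
    rfl
  rw [e1, e2] at h2
  exact h2

end Pool.Agent.Lib.MP_17a322_nt.VJ
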