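import Pool.Agent.Lib.MP_17a322_nt.VJ.G10
import Pool.Agent.Lib.MP_17a322_nt.VJ.G11
import Pool.Agent.Lib.MP_17a322_nt.VJ.G12

/-!
All Taylor coefficients of small weight of the top coefficient vanish at the point `x(P)`.
-/

universe u

namespace Pool.Agent.Lib.MP_17a322_nt.VJ

open MvPolynomial Height

/-- The relation between `z`, `P` and `Q = P - 2 ^ j z`. Proof: `mu_xRep`, `xRep_eq` (E4):
`mu W j ![x(z), 1] = c • (2 ^ j • z).xRep`; `S3_smul`; `S3_xRep_sub` for the points `2 ^ j • z`, `P`, whose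
difference is `-Q` (`xRep_neg`). -/
theorem rel_point {K : Type*} [Field K] (W : WeierstrassCurve K) [W.IsElliptic] {L : Type*}
    [Field L] [DecidableEq L] [Algebra K L] (V : WeierstrassCurve L)
    (hV : W.map (algebraMap K L) = V) (j : ℕ) (z P : V.toAffine.Point) (hz : z ≠ 0) (hP : P ≠ 0)
    (hQ : P - 2 ^ j • z ≠ 0) :
    S3 W (mu W j ![z.xRep 0, 1]) ![P.xRep 0, 1] ![(P - 2 ^ j • z).xRep 0, 1] = 0 := by
  obtain ⟨γ, hγ, h1⟩ := mu_xRep W V hV j z
  rw [xRep_eq hz] at h1
  have h2 := S3_xRep_sub W V hV (2 ^ j • z) P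
  rw [← xRep_neg (2 ^ j • z - P), neg_sub] at h2
  rw [h1, ← xRep_eq hP, ← xRep_eq hQ]
  have h3 := S3_smul W γ 1 1 (2 ^ j • z).xRep P.xRep (P - 2 ^ j • z).xRep
  rw [one_smul, one_smul, h2, mul_zero] at h3
  exact h3

/-- Value of the relations at a point. -/
private theorem G13_eval {K : Type*} [Field K] (W : WeierstrassCurve K) {m : ℕ} {A : Type*}
    [CommRing A] [Algebra K A] (j : ℕ) (c : K) (i : Fin m) (t : Fin 2) (x : Fin 2 → A)
    (ξ : Fin m × Fin 2 → A) :
    aeval (pt x ξ) (S3 W (mu W j ![(X (none, t) : MvPolynomial (AA m) K), 1]) ![C c, 1]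
      ![X (some i, t), 1]) =
      S3 W (mu W j ![x t, 1]) ![algebraMap K A c, 1] ![ξ (i, t), 1] := by
  rw [map_S3]
  have e1 : (fun k => aeval (pt x ξ) (mu W j ![(X (none, t) : MvPolynomial (AA m) K), 1] k)) =
      mu W j ![x t, 1] := by
    funext k
    rw [map_mu]
    have e : (fun k => aeval (pt x ξ) ((![(X (none, t) : MvPolynomial (AA m) K), 1] :
        Fin 2 → MvPolynomial (AA m) K) k)) = ![x t, 1] := by
      funext k
      fin_cases k
      · show aeval (pt x ξ) (X (none, t) : MvPolynomial (AA m) K) = x t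
        rw [aeval_X]
        rfl
      · show aeval (pt x ξ) (1 : MvPolynomial (AA m) K) = 1
        rw [map_one]
    rw [e]
  have e2 : (fun k => aeval (pt x ξ) ((![(C c : MvPolynomial (AA m) K), 1] :
      Fin 2 → MvPolynomial (AA m) K) k)) = ![algebraMap K A c, 1] := by
    funext k
    fin_cases k
    · show aeval (pt x ξ) (C c : MvPolynomial (AA m) K) = algebraMap K A c
      rw [← algebraMap_eq, AlgHom.commutes]
    · show aeval (pt x ξ) (1 : MvPolynomial (AA m) K) = 1
      rw [map_one]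
  have e3 : (fun k => aeval (pt x ξ) ((![(X (some i, t) : MvPolynomial (AA m) K), 1] :
      Fin 2 → MvPolynomial (AA m) K) k)) = ![ξ (i, t), 1] := by
    funext k
    fin_cases k
    · show aeval (pt x ξ) (X (some i, t) : MvPolynomial (AA m) K) = ξ (i, t)
      rw [aeval_X]
      rfl
    · show aeval (pt x ξ) (1 : MvPolynomial (AA m) K) = 1
      rw [map_one]
  rw [e1, e2, e3]

/-- Proof. Let `Ω = AlgebraicClosure K`, `V t = (W t).map (algebraMap K Ω)`, `g t` from `exists_PB` (E7).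
Fix `s` of weight `< 8 n 4 ^ J` (`Finsupp.weight` of the function `4 ^ j a.1` is `∑ s a * 4 ^ j a.1`;
`coeff s (tr ..) = 0` is to be shown). Consider the family of polynomials `α : Option (Fin m × Fin 2) → ..`,
`α (some (i, t)) = S3 (W t) (mu (W t) (j i) ![X (none, t), 1]) ![C ((P i t).xRep 0), 1] ![X (some i, t), 1]` and
`α none = tF s (FG n J j x)`. Let `T t = {ξ | ∃ w, .. ξ = (g t (P i₀ t) + w).xRep 0}` from `infinite_x` (G8)
with `R = g t (P i₀ t)`, `S i = g t (P i t)`. For `x t ∈ T t` choose `w t`, with exponents `N t`, `N = N 0 * N 1`, and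
`ξ (i, t) = (g t (P i t) - 2 ^ j i • (g t (P i₀ t) + w t)).xRep 0`: `α (some (i,t))` vanishes by `rel_point`
(`map_S3`, `map_mu`, E3, for the value at a point), `α none` by `vanishing_alg` (G12). By `exists_generic`
(G9) there is a generic point in `F'`; then `specialise` (G10) for `Ψ = tF s (FG n J j x)`
(`tF_support`, G11) gives `eval p (tp k l Ψ) = 0`, which is the claim by `eval_tp_tF` (G11). -/
theorem top_vanishes {K : Type u} [Field K] [NumberField K] [DecidableEq K]
    (W : Fin 2 → WeierstrassCurve K) [∀ t, (W t).IsElliptic] (n : ℕ) (hn : 0 < n) (ε : ℝ)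
    (hε : 64 ≤ n * ε) (CF : ℝ) (hCF : 0 ≤ CF) :
    ∃ C : ℝ, 0 ≤ C ∧ ∀ (J : ℕ) (j : Fin (2 * n ^ 2) → ℕ) (i₀ : Fin (2 * n ^ 2)),
      (∀ i, j i ≤ J) → ∀ (x : (AA (2 * n ^ 2) → ℕ) → K), CG W n J j x → FG n J j x ≠ 0 →
      nh (FG n J j x) ≤ CF * 4 ^ J → ∀ (P : Fin (2 * n ^ 2) → ∀ t, (W t).toAffine.Point),
      (∀ i t, P i t ≠ 0) → (∀ i, ε * HH (P i) ≤ hO (P i)) → C < HH (P i₀) →
      (∀ i t, logHeight (P i t - 2 ^ j i • P i₀ t).xRep ≤ 1 / (16 * n ^ 2) * HH (P i)) →
      (∀ i, |HH (P i) - 4 ^ j i * HH (P i₀)| ≤ 1 / (16 * n ^ 2) * HH (P i)) →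
      ∀ k l, (∀ e ∈ (FG n J j x).support,
        e (none, 0) < k ∨ (e (none, 0) = k ∧ e (none, 1) ≤ l)) →
      IG (fun a : Fin (2 * n ^ 2) × Fin 2 => 4 ^ j a.1) (8 * n * 4 ^ J)
        (fun a => (P a.1 a.2).xRep 0) (tp k l (FG n J j x)) := by
  classical
  obtain ⟨C₀, hC₀, hvan⟩ := vanishing_alg W n hn ε hε CF hCF
  refine ⟨C₀, hC₀, ?_⟩
  intro J j i₀ hj x hx hF hnh P hP hhO hCP hlog habs k l hkl s hs
  rw [← eval_tp_tF s (FG n J j x) k l (fun a => (P a.1 a.2).xRep 0)]
  have hs' : ∑ a, s a * 4 ^ j a.1 < 8 * n * 4 ^ J := by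
    have h1 : Finsupp.weight (fun a : Fin (2 * n ^ 2) × Fin 2 => 4 ^ j a.1) s =
        ∑ a, s a * 4 ^ j a.1 := by
      rw [Finsupp.weight_apply, Finsupp.sum_fintype _ _ (fun a => by simp)]
      simp
    rw [h1] at hs
    exact_mod_cast hs
  have hPB : ∀ t, ∃ f : (W t).toAffine.Point →+
      ((W t).map (algebraMap K (AlgebraicClosure K))).toAffine.Point,
      PB (W t) ((W t).map (algebraMap K (AlgebraicClosure K))) f :=
    fun t => exists_PB (W t) ((W t).map (algebraMap K (AlgebraicClosure K))) rfl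
  choose g hg using hPB
  have hT := fun t => infinite_x ((W t).map (algebraMap K (AlgebraicClosure K)))
    (g t (P i₀ t)) (fun i => g t (P i t)) j
  obtain ⟨F', _, _, X', ξ', hX', hα'⟩ := exists_generic (K := K) (Ω := AlgebraicClosure K)
    (m := 2 * n ^ 2) (κ := Option (Fin (2 * n ^ 2) × Fin 2))
    (fun o => o.elim (tF s (FG n J j x)) fun a =>
      S3 (W a.2) (mu (W a.2) (j a.1) ![X (none, a.2), 1]) ![C ((P a.1 a.2).xRep 0), 1]
        ![X (some a.1, a.2), 1]) _ hT (by
      intro x' hx'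
      choose w hw0 hwN hR hS hxe using hx'
      choose N hNpos hN1 using hwN
      refine ⟨fun a => (g a.2 (P a.1 a.2) -
        2 ^ j a.1 • (g a.2 (P i₀ a.2) + w a.2)).xRep 0, ?_⟩
      have hx2 : x' = fun t => (g t (P i₀ t) + w t).xRep 0 := funext hxe
      intro o
      cases o with
      | none =>
        rw [hx2]
        refine hvan J j i₀ hj x hx hF hnh P hP hhO hCP hlog habs (AlgebraicClosure K)
          (fun t => (W t).map (algebraMap K (AlgebraicClosure K))) g w (N 0 * N 1)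
          (fun t => rfl) hg (Nat.mul_pos (hNpos 0) (hNpos 1)) hw0 ?_ hR
          (fun i t => hS t i) s hs'
        intro t
        fin_cases t
        · show (w 0).xRep 0 ^ (N 0 * N 1) = 1
          rw [pow_mul, hN1 0, one_pow]
        · show (w 1).xRep 0 ^ (N 0 * N 1) = 1
          rw [mul_comm, pow_mul, hN1 1, one_pow]
      | some a =>
        obtain ⟨i, t⟩ := a
        have h1 := G13_eval (W t) (j i) ((P i t).xRep 0) i t x' (fun a => (g a.2 (P a.1 a.2) -
          2 ^ j a.1 • (g a.2 (P i₀ a.2) + w a.2)).xRep 0)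
        refine h1.trans ?_
        have hgP : g t (P i t) ≠ 0 := by
          intro h0
          have h2 := hg t (P i t) 1
          rw [h0, xRep_zero, xRep_one (hP i t), map_one] at h2
          simp at h2
        have h3 := rel_point (W t) ((W t).map (algebraMap K (AlgebraicClosure K))) rfl (j i)
          (g t (P i₀ t) + w t) (g t (P i t)) (hR t) hgP (hS t i)
        rw [hg t (P i t) 0] at h3
        rw [hxe t]
        exact h3)
  exact specialise W j (fun a => (P a.1 a.2).xRep 0) (tF s (FG n J j x)) k l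
    (tF_support s (FG n J j x) k l hkl) X' hX' ξ'
    (fun i t => (G13_eval (W t) (j i) ((P i t).xRep 0) i t X' ξ').symm.trans (hα' (some (i, t))))
    (hα' none)

end Pool.Agent.Lib.MP_17a322_nt.VJ
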