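import Pool.Agent.Lib.MP_17a322_nt.VJ.G13
import Pool.Agent.Lib.MP_17a322_nt.VJ.IF_A

/-!
Conclusion of stage 0.
-/

universe u

namespace Pool.Agent.Lib.MP_17a322_nt.VJ

open MvPolynomial Height

/-- A polynomial whose variables lie in one block is a polynomial in two variables.
Proof: `MvPolynomial.exists_rename_eq_of_vars_subset_range` for the injective map `t ↦ (i, t)`;
`NV_rename`, `degreeOf_rename_of_injective`, `eval_rename`. -/
theorem block {K : Type*} [Field K] [AdmissibleAbsValues K] {m : ℕ} (i : Fin m)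
    (G : MvPolynomial (Fin m × Fin 2) K) (hG : G ≠ 0) (hv : ∀ a ∈ G.vars, a.1 = i)
    (p : Fin m × Fin 2 → K) :
    ∃ g : MvPolynomial (Fin 2) K, g ≠ 0 ∧ (∀ t, g.degreeOf t = G.degreeOf (i, t)) ∧
      nh g = nh G ∧ eval (fun t => p (i, t)) g = eval p G := by
  have hinj : Function.Injective (fun t : Fin 2 => (i, t)) := fun a b h => congrArg Prod.snd h
  obtain ⟨g, hg⟩ := MvPolynomial.exists_rename_eq_of_vars_subset_range G (fun t : Fin 2 => (i, t))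
    hinj (by
      intro a ha
      have h1 := hv a ha
      exact ⟨a.2, by rw [← h1]⟩)
  subst hg
  refine ⟨g, ?_, ?_, ?_, ?_⟩
  · rintro rfl
    exact hG (map_zero _)
  · intro t
    exact (MvPolynomial.degreeOf_rename_of_injective hinj t).symm
  · unfold nh
    congr 1
    funext v
    rw [NV_rename v g _ hinj]
  · rw [eval_rename]
    rfl

/-- The height of the auxiliary polynomial. -/
private theorem G14_exists_F {K : Type u} [Field K] [NumberField K] [DecidableEq K]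
    (W : Fin 2 → WeierstrassCurve K) [∀ t, (W t).IsElliptic] (n : ℕ) (hn : 0 < n) :
    ∃ CF : ℝ, 0 ≤ CF ∧ ∀ (J : ℕ) (j : Fin (2 * n ^ 2) → ℕ), (∀ i, j i ≤ J) →
      ∃ x : (AA (2 * n ^ 2) → ℕ) → K, CG W n J j x ∧ FG n J j x ≠ 0 ∧
        nh (FG n J j x) ≤ CF * 4 ^ J := by
  obtain ⟨C, hC, h⟩ := exists_solution W n hn
  refine ⟨C + Module.finrank ℚ K * ((2 + 2 * ((2 * n ^ 2 : ℕ) : ℝ)) * (8 * n)), by positivity,
    fun J j hj => ?_⟩
  obtain ⟨x, hx, hCG, hh⟩ := h J j hj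
  obtain ⟨h1, h2⟩ := nh_FG_le n J j x hx
  refine ⟨x, hCG, h1, h2.trans ?_⟩
  have h3 := mul_le_mul_of_nonneg_left (log_card_le n J (2 * n ^ 2) j)
    (Nat.cast_nonneg (α := ℝ) (Module.finrank ℚ K))
  calc logHeight (fun e : box (fun a => DG n J j a + 1) => x e) +
        Module.finrank ℚ K * Real.log (box (fun a => DG n J j a + 1)).card
      ≤ C * 4 ^ J + Module.finrank ℚ K *
          ((2 + 2 * ((2 * n ^ 2 : ℕ) : ℝ)) * (8 * n * 4 ^ J)) := add_le_add hh h3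
    _ = _ := by ring

/-- The weighted degrees of the top coefficient. -/
private theorem G14_degree {K : Type u} [Field K] (n J : ℕ) {m : ℕ} (j : Fin m → ℕ)
    (hj : ∀ i, j i ≤ J) (x : (AA m → ℕ) → K) (k l : ℕ) (a : Fin m × Fin 2) :
    ((4 ^ j a.1 : ℕ) : ℝ) * ((tp k l (FG n J j x)).degreeOf a : ℝ) ≤ 8 * n * 4 ^ J := by
  have h1 := (degreeOf_tp_le k l (FG n J j x) a).trans (degreeOf_FG_le n J j x (some a.1, a.2))
  have h2 : DG n J j (some a.1, a.2) = 8 * n * 4 ^ (J - j a.1) := rfl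
  rw [h2] at h1
  have h3 := b_mul_pow n J m j a.1 (hj a.1)
  have h4 : 4 ^ j a.1 * (tp k l (FG n J j x)).degreeOf a ≤ 8 * n * 4 ^ J := by
    rw [← h3, mul_comm]
    exact Nat.mul_le_mul_right _ h1
  have h5 : ((4 ^ j a.1 * (tp k l (FG n J j x)).degreeOf a : ℕ) : ℝ) ≤ ((8 * n * 4 ^ J : ℕ) : ℝ) :=
    Nat.cast_le.mpr h4
  push_cast at h5 ⊢
  exact h5

/-- The weights. -/
private theorem G14_weights {m : ℕ} (R : ℕ) (j : Fin m → ℕ)
    (hR : ∀ i i', i < i' → R * 4 ^ j i ≤ 4 ^ j i') (a a' : Fin m × Fin 2) :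
    4 ^ j a.1 = 4 ^ j a'.1 ∨ R * 4 ^ j a.1 ≤ 4 ^ j a'.1 ∨ R * 4 ^ j a'.1 ≤ 4 ^ j a.1 := by
  rcases lt_trichotomy a.1 a'.1 with h | h | h
  · exact Or.inr (Or.inl (hR _ _ h))
  · left
    rw [h]
  · exact Or.inr (Or.inr (hR _ _ h))

/-- Conclusion of stage 0 (7.5).

Proof. We may assume `ε ≤ 1` (decrease `ε`; `HH ≥ 0`). Let `n > 0` with `64 ≤ n ε`, `m = 2 n^2`. Constants:
`C₁` from `exists_solution` (G3c), and with `log_card_le` and `nh_FG_le`
`CF = C₁ + [K:ℚ] (2 + 4 n^2) 8 n`, so `nh F ≤ CF 4^J`; `C₂` from `top_vanishes` (G13) for `n`, `ε`, `CF`;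
`zero_lemma` (IF_A) for `N = 2 m`, `s = 1`, `B = CF` gives `R`, `D`, `B'`; `descent` (IF_D) for `D` gives `C₃`. Put
`R₀ = R`, `η = 1/(16 n^2)`, `C₀ = max (C₂ + 1) (C₃ (B' d + 1)) (2 C₃ (B' d + 2) / ε + 1)`, `d = [K:ℚ]`.

Given `P`, `j`, `i₀`: put `J = sup j` (or `j` of the last index), take `x` from `exists_solution`,
`F = FG n J j x ≠ 0`, `nh F ≤ CF 4^J`, `(k, l)` from `exists_top` (G11), `F₂ = tp k l F ≠ 0`,
`degreeOf F₂ (i, t) ≤ 8 n 4^(J - j i)` so `4^(j i) * degreeOf ≤ μ := 8 n 4^J` (`b_mul_pow`),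
`nh F₂ ≤ nh F ≤ CF 4^J ≤ CF μ d` (`nh_tp_le`), and by `top_vanishes` the index of `F₂` at `p = x(P)` for the
weights `w (i, t) = 4^(j i)` is at least `μ`. The weights of two variables are equal or differ by the
factor `R` at least (`hR`, `StrictMono j`). `zero_lemma` gives `(i, t₀)` and `G ≠ 0` whose variables have weight
`4^(j i)`, i.e. first component `i` (`j` injective), degrees `≤ D`, `nh G ≤ B' 4^(j i) d`, `G(p) = 0`. `block`
gives `g₁` in two variables, and `descent` with `B = B' 4^(j i) d` gives `g`, provided that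
`C₃ (B + 1) < logHeight₁ (x(P i t))`: by `hO_le`, `logHeight_xRep` the height is at least
`hO (P i) ≥ ε HH (P i)`, and `HH (P i) ≥ 4^(j i) HH (P i₀) / (1 + η) ≥ 4^(j i) HH (P i₀) / 2`, so it is at least
`4^(j i) ε C₀ / 2 > C₃ (B' d + 2) 4^(j i)`. Finally `nh g ≤ C₃ (B' 4^(j i) d + 1) ≤ C₀ 4^(j i)`. -/
theorem stage0 {K : Type u} [Field K] [NumberField K] [DecidableEq K]
    (W : Fin 2 → WeierstrassCurve K) [∀ t, (W t).IsElliptic] (ε : ℝ) (hε : 0 < ε) :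
    ∃ (m D R₀ : ℕ) (C₀ η : ℝ), 0 < m ∧ 0 ≤ C₀ ∧ 0 < η ∧
      ∀ (P : Fin m → ∀ t, (W t).toAffine.Point) (j : Fin m → ℕ) (i₀ : Fin m),
      StrictMono j → j i₀ = 0 → (∀ i i', i < i' → R₀ * 4 ^ j i ≤ 4 ^ j i') →
      (∀ i t, P i t ≠ 0) → (∀ i, ε * HH (P i) ≤ hO (P i)) → C₀ ≤ HH (P i₀) →
      (∀ i t, logHeight (P i t - 2 ^ j i • P i₀ t).xRep ≤ η * HH (P i)) →
      (∀ i, |HH (P i) - 4 ^ j i * HH (P i₀)| ≤ η * HH (P i)) →
      ∃ (i : Fin m) (g : MvPolynomial (Fin 2) K), GC g D ∧ eval (fun t => (P i t).xRep 0) g = 0 ∧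
        nh g ≤ C₀ * 4 ^ j i := by
  obtain ⟨n, hn⟩ := exists_nat_ge (64 / ε)
  have hnε : 64 ≤ n * ε := (div_le_iff₀ hε).mp hn
  have hn0 : 0 < n := by
    rcases Nat.eq_zero_or_pos n with h | h
    · rw [h, Nat.cast_zero, zero_mul] at hnε
      norm_num at hnε
    · exact h
  have hn1 : (1 : ℝ) ≤ n := by exact_mod_cast hn0
  obtain ⟨CF, hCF, hF⟩ := G14_exists_F W n hn0
  obtain ⟨C₂, hC₂, htop⟩ := top_vanishes W n hn0 ε hnε CF hCF
  obtain ⟨R, D, B', hB', hzero⟩ := zero_lemma.{u} (2 * (2 * n ^ 2)) 1 CF one_pos hCF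
  obtain ⟨C₃, hC₃, hdesc⟩ := descent K D
  have hd1 : (1 : ℝ) ≤ Module.finrank ℚ K := by
    exact_mod_cast (Module.finrank_pos (R := ℚ) (M := K))
  generalize hd : (Module.finrank ℚ K : ℝ) = d at *
  have hd0 : 0 ≤ d := zero_le_one.trans hd1
  have hη : (1 : ℝ) / (16 * n ^ 2) ≤ 1 := by
    rw [div_le_one (by positivity)]
    have : (1 : ℝ) ≤ n ^ 2 := one_le_pow₀ hn1
    linarith
  have q1 : 0 ≤ C₃ * (B' * d + 1) := by positivity
  have q2 : 0 ≤ 2 * (C₃ * (B' * d + 1)) / ε := by positivity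
  refine ⟨2 * n ^ 2, D, R, C₂ + 1 + C₃ * (B' * d + 1) + 2 * (C₃ * (B' * d + 1)) / ε,
    1 / (16 * n ^ 2), by positivity, by positivity, by positivity, ?_⟩
  intro P j i₀ hj hj0 hR hP hO hHH hQ hq
  obtain ⟨J, hJ⟩ : ∃ J, ∀ i, j i ≤ J := ⟨Finset.univ.sup j, fun i => Finset.le_sup (Finset.mem_univ i)⟩
  obtain ⟨x, hCG, hF0, hFn⟩ := hF J j hJ
  obtain ⟨k, l, hkl, hmax⟩ := exists_top (FG n J j x) hF0
  have hIG := htop J j i₀ hJ x hCG hF0 hFn P hP hO (by linarith) hQ hq k l hmax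
  have hμ : (0 : ℝ) < 8 * n * 4 ^ J := by positivity
  obtain ⟨t₀, G, hG0, hGv, hGd, hGn, hGe⟩ := hzero K (Fin (2 * n ^ 2) × Fin 2)
    (fun a => 4 ^ j a.1) (fun a => (P a.1 a.2).xRep 0) (tp k l (FG n J j x)) (8 * n * 4 ^ J)
    (fun t => Nat.one_le_pow _ _ (by norm_num)) (fun t t' => G14_weights R j hR t t') hkl
    (by
      refine (Finset.card_le_univ _).trans (le_of_eq ?_)
      rw [Fintype.card_prod, Fintype.card_fin, Fintype.card_fin]
      ring) hμ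
    (fun a => G14_degree n J j hJ x k l a)
    (by
      rw [hd]
      refine (nh_tp_le k l _ hkl).trans (hFn.trans ?_)
      have e1 : CF * 4 ^ J * 1 ≤ CF * 4 ^ J * (8 * n * d) := by
        refine mul_le_mul_of_nonneg_left ?_ (by positivity)
        have e2 : (1 : ℝ) * 1 ≤ n * d := mul_le_mul hn1 hd1 zero_le_one (by positivity)
        linarith
      linarith)
    (by
      rw [one_mul]
      exact hIG)
  rw [hd] at hGn
  have hGv' : ∀ a ∈ G.vars, a.1 = t₀.1 := by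
    intro a ha
    have h1 : 4 ^ j a.1 = 4 ^ j t₀.1 := hGv a ha
    exact hj.injective (Nat.pow_right_injective (by norm_num : 2 ≤ 4) h1)
  obtain ⟨g₁, hg0, hgd, hgn, hge⟩ := block t₀.1 G hG0 hGv' (fun a => (P a.1 a.2).xRep 0)
  have h4 : (1 : ℝ) ≤ 4 ^ j t₀.1 := one_le_pow₀ (by norm_num)
  have hB : 0 ≤ B' * 4 ^ j t₀.1 * d := by positivity
  have hbd : C₃ * (B' * 4 ^ j t₀.1 * d + 1) ≤ C₃ * (B' * d + 1) * 4 ^ j t₀.1 := by
    have e1 : C₃ * (B' * 4 ^ j t₀.1 * d + 1) ≤ C₃ * (B' * 4 ^ j t₀.1 * d + 4 ^ j t₀.1) :=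
      mul_le_mul_of_nonneg_left (by linarith) hC₃
    linarith
  obtain ⟨g, hgGC, hgp, hgh⟩ := hdesc g₁ (B' * 4 ^ j t₀.1 * d) (fun t => (P t₀.1 t).xRep 0) hB hg0
    (fun t => (hgd t).le.trans (hGd _)) (by
      rw [hgn]
      refine hGn.trans (le_of_eq ?_)
      push_cast
      ring) (by rw [hge, hGe]) (by
      intro t
      refine lt_of_le_of_lt hbd ?_
      have e1 := hO_le (P t₀.1) (hP t₀.1) t
      rw [logHeight_xRep (hP t₀.1 t)] at e1
      refine lt_of_lt_of_le ?_ ((hO t₀.1).trans e1)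
      have e2 := (abs_le.mp (hq t₀.1)).1
      have e3 : 0 ≤ HH (P t₀.1) := HH_nonneg _
      have e4 : 1 / (16 * (n : ℝ) ^ 2) * HH (P t₀.1) ≤ 1 * HH (P t₀.1) :=
        mul_le_mul_of_nonneg_right hη e3
      have e5 : 4 ^ j t₀.1 * HH (P i₀) ≤ 2 * HH (P t₀.1) := by linarith
      have e6 : 4 ^ j t₀.1 * (2 * (C₃ * (B' * d + 1)) / ε + 1) ≤ 2 * HH (P t₀.1) := by
        refine le_trans (mul_le_mul_of_nonneg_left ?_ (by positivity)) e5
        linarith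
      have e7 : ε * (4 ^ j t₀.1 * (2 * (C₃ * (B' * d + 1)) / ε + 1)) ≤ ε * (2 * HH (P t₀.1)) :=
        mul_le_mul_of_nonneg_left e6 hε.le
      have e8 : ε * (4 ^ j t₀.1 * (2 * (C₃ * (B' * d + 1)) / ε + 1)) =
          2 * (C₃ * (B' * d + 1) * 4 ^ j t₀.1) + ε * 4 ^ j t₀.1 := by
        field_simp
      have e9 : 0 < ε * 4 ^ j t₀.1 := by positivity
      rw [e8] at e7
      linarith)
  refine ⟨t₀.1, g, hgGC, hgp, hgh.trans (hbd.trans ?_)⟩
  refine mul_le_mul_of_nonneg_right ?_ (by positivity)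
  linarith

end Pool.Agent.Lib.MP_17a322_nt.VJ
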