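import Pool.Agent.Lib.MP_17a322_nt.VJ.G1
import Pool.Agent.Lib.MP_17a322_nt.VJ.A6

/-!
The local lemma in several variables.
-/

namespace Pool.Agent.Lib.MP_17a322_nt.VJ

open MvPolynomial Height

private theorem G2_pow {L : Type*} [Field L] {ι : Type*} (ξ : L) (a : ι) (n : ℕ) :
    (X a + C ξ : MvPolynomial ι L) ^ n =
      ∑ q ∈ Finset.range (n + 1), monomial (Finsupp.single a q) ((n.choose q : L) * ξ ^ (n - q)) := by
  rw [add_pow]
  refine Finset.sum_congr rfl fun q _ => ?_
  rw [mul_comm (n.choose q : L), ← MvPolynomial.C_mul_X_pow_eq_monomial, map_mul, map_pow, map_natCast]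
  ring

private theorem G2_prod {L : Type*} [Field L] {ι : Type*} [Fintype ι] [DecidableEq ι] (q : ι → ℕ) (c : ι → L) :
    ∏ a, monomial (Finsupp.single a (q a)) (c a) =
      (monomial (Finsupp.equivFunOnFinite.symm q) (∏ a, c a) : MvPolynomial ι L) := by
  have h : ∀ s : Finset ι, ∏ a ∈ s, monomial (Finsupp.single a (q a)) (c a) =
      (monomial (∑ a ∈ s, Finsupp.single a (q a)) (∏ a ∈ s, c a) : MvPolynomial ι L) := by
    intro s
    induction s using Finset.induction_on with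
    | empty => rw [Finset.prod_empty, Finset.sum_empty, Finset.prod_empty]; rfl
    | insert a s ha ih =>
      rw [Finset.prod_insert ha, Finset.sum_insert ha, Finset.prod_insert ha, ih, monomial_mul]
  have h2 : ∑ a, Finsupp.single a (q a) = Finsupp.equivFunOnFinite.symm q := by
    ext a
    rw [Finsupp.finsetSum_apply]
    simp [Finsupp.single_apply]
  rw [h, h2]

private theorem G2_coeff {L : Type*} [Field L] {ι : Type*} [Fintype ι] [DecidableEq ι] (ξ : ι → L)
    (e s : ι →₀ ℕ) :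
    coeff s (∏ a, (X a + C (ξ a) : MvPolynomial ι L) ^ (e a)) =
      ∏ a, (((e a).choose (s a) : L) * ξ a ^ (e a - s a)) := by
  have h1 : ∏ a, (X a + C (ξ a) : MvPolynomial ι L) ^ (e a) =
      ∏ a, ∑ q ∈ Finset.range (e a + 1),
        monomial (Finsupp.single a q) (((e a).choose q : L) * ξ a ^ (e a - q)) :=
    Finset.prod_congr rfl fun a _ => G2_pow (ξ a) a (e a)
  rw [h1, Finset.prod_univ_sum, coeff_sum]
  have h2 : ∀ q ∈ Fintype.piFinset (fun a => Finset.range (e a + 1)),
      coeff s (∏ a, monomial (Finsupp.single a (q a)) (((e a).choose (q a) : L) * ξ a ^ (e a - q a)) :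
        MvPolynomial ι L) =
      if q = (fun a => s a) then ∏ a, (((e a).choose (s a) : L) * ξ a ^ (e a - s a)) else 0 := by
    intro q _
    rw [G2_prod, coeff_monomial]
    by_cases hq : q = (fun a => s a)
    · rw [if_pos hq, if_pos]
      · rw [hq]
      · rw [hq]
        ext a
        rfl
    · rw [if_neg hq, if_neg]
      intro h
      apply hq
      funext a
      rw [← h]
      rfl
  rw [Finset.sum_congr rfl h2, Finset.sum_ite_eq' (Fintype.piFinset _) (fun a => s a)]
  split_ifs with hs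
  · rfl
  · rw [Fintype.mem_piFinset] at hs
    push Not at hs
    obtain ⟨a, ha⟩ := hs
    rw [Finset.mem_range, not_lt] at ha
    symm
    refine Finset.prod_eq_zero (Finset.mem_univ a) ?_
    rw [Nat.choose_eq_zero_of_lt (by omega), Nat.cast_zero, zero_mul]

/-- Taylor coefficients. Proof: `tr ξ (monomial e c) = C c * ∏ (X a + C (ξ a)) ^ e a`; the coefficient of
a product of polynomials in separate variables is the product of the coefficients
(`coeff_s ((X a + C ξ)^n) = choose n (s a) ξ^(n - s a)`). One way: induction on the number of variables,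
or `MvPolynomial.coeff` of `∏ a, ∑ q, C .. * X a ^ q` expanded by `Finset.prod_univ_sum` into
`∑ q, monomial q (∏ ..)`. -/
theorem coeff_tr {L : Type*} [Field L] {ι : Type*} [Fintype ι] [DecidableEq ι] (ξ : ι → L)
    (Φ : MvPolynomial ι L) (s : ι →₀ ℕ) :
    coeff s (tr ξ Φ) =
      ∑ e ∈ Φ.support, coeff e Φ * ∏ a, (((e a).choose (s a) : L) * ξ a ^ (e a - s a)) := by
  have e : tr ξ Φ = ∑ m ∈ Φ.support, C (coeff m Φ) * ∏ s, (X s + C (ξ s)) ^ (m s) := by
    unfold tr
    rw [MvPolynomial.aeval_def, MvPolynomial.eval₂_eq']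
    rfl
  rw [e, coeff_sum]
  refine Finset.sum_congr rfl fun m _ => ?_
  rw [coeff_C_mul, G2_coeff]

/-- The local lemma in several variables: `Φ` of degree at most `d a` in the variable `a`, points
`R a`, for every `γ` with `Q γ` the expansion coefficients vanish in all charts, and
`∏ a, dl ^ (γ a - s a) ≤ M` for the other `γ`.

Proof. Take `c a`, `N a`, `E a` from `local_one` for `R a`, `d a`, `ξ a`, `s a`. By `coeff_tr` and
`Finset.prod_univ_sum` (all `e a ≤ d a` for `e ∈ support`)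
`(∏ N a ^ d a) * coeff s (tr ξ Φ) = ∑_γ (∑_e coeff e Φ * ∏ TT (c a) (d a) (γ a) (e a) (R a)) * ∏ E a (γ a)`,
`γ` in `box (d + 1)`. The terms with `Q γ` vanish. For the others: by `TT_le` and `SN_self` (sum over `e`;
`∑_e v (coeff e Φ)` or the maximum is `NV v Φ`) the first factor is at most
`NV v Φ * ∏ cst(2)^(d a) |R a|^(d a - γ a)`, the second at most
`∏ cst(2)^(3 d a) |R a|^(γ a) (max 1 |ξ a|)^(d a) * M`. The number of `γ` is `∏ (d a + 1) ≤ 2 ^ ∑ d a`, so by
`SN.sum_le` the sum has size at most `cst(2)^(5 ∑ d a) NV ∏ |R a|^(d a) ∏ (max 1 |ξ a|)^(d a) M`. Divide by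
`∏ v (N a)^(d a) = ∏ |R a|^(d a) > 0`. -/
theorem local_multi {L : Type*} [Field L] (v : AbsoluteValue L ℝ) {ι : Type*} [Fintype ι]
    [DecidableEq ι] (d : ι → ℕ) (R : ι → Fin 2 → L) (hR : ∀ a, R a ≠ 0) (ξ : ι → L)
    (Φ : MvPolynomial ι L) (hd : ∀ a, Φ.degreeOf a ≤ d a) (s : ι →₀ ℕ) (Q : (ι → ℕ) → Prop)
    (hQ : ∀ (c : ι → Bool) (γ : ι → ℕ), (∀ a, γ a ≤ d a) → Q γ →
      ∑ e ∈ Φ.support, coeff e Φ * ∏ a, TT (c a) (d a) (γ a) (e a) (R a) = 0)
    (M : ℝ) (hM0 : 0 ≤ M)
    (hM : ∀ γ : ι → ℕ, (∀ a, γ a ≤ d a) → ¬ Q γ → ∏ a, dl v (R a) (ξ a) ^ (γ a - s a) ≤ M) :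
    v (coeff s (tr ξ Φ)) ≤
      cst v 2 ^ (5 * ∑ a, d a) * NV v Φ * (∏ a, (max 1 (v (ξ a))) ^ (d a)) * M := by
  choose c N E hN hexp hE using fun a => local_one v (R a) (hR a) (d a) (ξ a) (s a)
  have hS := SN_self v
  have hc1 : (1 : ℝ) ≤ cst v 2 := one_le_cst v (by norm_num)
  have hc0 : (0 : ℝ) < cst v 2 := by linarith
  have hNV : 0 ≤ NV v Φ := (SN_NV v).nonneg Φ
  have hvn : ∀ a, 0 < vn v (R a) := fun a => vn_pos v (hR a)
  have hmx : ∀ a, (0 : ℝ) ≤ max 1 (v (ξ a)) := fun a => by positivity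
  -- expansion
  have hexpand : (∏ a, N a ^ d a) * coeff s (tr ξ Φ) =
      ∑ γ ∈ Fintype.piFinset (fun a => Finset.range (d a + 1)),
        (∑ e ∈ Φ.support, coeff e Φ * ∏ a, TT (c a) (d a) (γ a) (e a) (R a)) * ∏ a, E a (γ a) := by
    rw [coeff_tr, Finset.mul_sum]
    have h1 : ∀ e ∈ Φ.support, (∏ a, N a ^ d a) *
        (coeff e Φ * ∏ a, (((e a).choose (s a) : L) * ξ a ^ (e a - s a))) =
        ∑ γ ∈ Fintype.piFinset (fun a => Finset.range (d a + 1)),
          coeff e Φ * (∏ a, TT (c a) (d a) (γ a) (e a) (R a)) * ∏ a, E a (γ a) := by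
      intro e he
      have h2 : (∏ a, N a ^ d a) * (∏ a, (((e a).choose (s a) : L) * ξ a ^ (e a - s a))) =
          ∑ γ ∈ Fintype.piFinset (fun a => Finset.range (d a + 1)),
            (∏ a, TT (c a) (d a) (γ a) (e a) (R a)) * ∏ a, E a (γ a) := by
        rw [← Finset.prod_mul_distrib]
        have h3 : ∀ a, N a ^ d a * (((e a).choose (s a) : L) * ξ a ^ (e a - s a)) =
            ∑ γ ∈ Finset.range (d a + 1), TT (c a) (d a) γ (e a) (R a) * E a γ := fun a =>
          hexp a (e a) ((MvPolynomial.le_degreeOf_of_mem_support a he).trans (hd a))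
        rw [Finset.prod_congr rfl (fun a _ => h3 a), Finset.prod_univ_sum]
        refine Finset.sum_congr rfl fun γ _ => ?_
        rw [Finset.prod_mul_distrib]
      calc _ = coeff e Φ * ((∏ a, N a ^ d a) *
            (∏ a, (((e a).choose (s a) : L) * ξ a ^ (e a - s a)))) := by ring
        _ = _ := by
          rw [h2, Finset.mul_sum]
          refine Finset.sum_congr rfl fun γ _ => ?_
          ring
    rw [Finset.sum_congr rfl h1, Finset.sum_comm]
    refine Finset.sum_congr rfl fun γ _ => ?_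
    rw [Finset.sum_mul]
  -- the bound of a term
  have hterm : ∀ γ ∈ Fintype.piFinset (fun a => Finset.range (d a + 1)),
      v ((∑ e ∈ Φ.support, coeff e Φ * ∏ a, TT (c a) (d a) (γ a) (e a) (R a)) * ∏ a, E a (γ a)) ≤
        cst v 2 ^ (4 * ∑ a, d a) * NV v Φ * (∏ a, vn v (R a) ^ d a) *
          (∏ a, (max 1 (v (ξ a))) ^ (d a)) * M := by
    intro γ hγ
    have hγd : ∀ a, γ a ≤ d a := fun a => by
      have := Fintype.mem_piFinset.1 hγ a
      rw [Finset.mem_range] at this
      omega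
    by_cases hq : Q γ
    · rw [hQ c γ hγd hq, zero_mul, map_zero]
      have h1 : 0 ≤ ∏ a, vn v (R a) ^ d a := Finset.prod_nonneg fun a _ => pow_nonneg (hvn a).le _
      have h2 : 0 ≤ ∏ a, (max 1 (v (ξ a))) ^ (d a) := Finset.prod_nonneg fun a _ => pow_nonneg (hmx a) _
      positivity
    · have hB0 : 0 ≤ ∏ a, (cst v 2 ^ d a * vn v (R a) ^ (d a - γ a)) :=
        Finset.prod_nonneg fun a _ => mul_nonneg (pow_nonneg hc0.le _) (pow_nonneg (hvn a).le _)
      have hTT : ∀ e ∈ Φ.support, v (∏ a, TT (c a) (d a) (γ a) (e a) (R a)) ≤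
          ∏ a, (cst v 2 ^ d a * vn v (R a) ^ (d a - γ a)) := by
        intro e he
        rw [map_prod]
        exact Finset.prod_le_prod (fun a _ => v.nonneg _) fun a _ => TT_le v (c a) (d a) (γ a) (e a)
          ((MvPolynomial.le_degreeOf_of_mem_support a he).trans (hd a)) (hγd a) (R a)
      have hfirst : v (∑ e ∈ Φ.support, coeff e Φ * ∏ a, TT (c a) (d a) (γ a) (e a) (R a)) ≤
          NV v Φ * ∏ a, (cst v 2 ^ d a * vn v (R a) ^ (d a - γ a)) := by
        by_cases hv : IsNonarchimedean v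
        · refine hS.sum_le_max hv _ _ (mul_nonneg hNV hB0) fun e he => ?_
          show v _ ≤ _
          rw [map_mul]
          exact mul_le_mul (coeff_le_NV v Φ e) (hTT e he) (v.nonneg _) hNV
        · refine (hS.sum_le_sum _ _).trans ?_
          have h1 : NV v Φ = ∑ m ∈ Φ.support, v (coeff m Φ) := by
            unfold NV
            rw [if_neg hv]
          rw [h1, Finset.sum_mul]
          refine Finset.sum_le_sum fun e he => ?_
          show v _ ≤ _
          rw [map_mul]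
          exact mul_le_mul_of_nonneg_left (hTT e he) (v.nonneg _)
      have hsecond : v (∏ a, E a (γ a)) ≤
          (∏ a, (cst v 2 ^ (3 * d a) * vn v (R a) ^ γ a * (max 1 (v (ξ a))) ^ d a)) * M := by
        rw [map_prod]
        have h1 : ∏ a, v (E a (γ a)) ≤ ∏ a, ((cst v 2 ^ (3 * d a) * vn v (R a) ^ γ a *
            (max 1 (v (ξ a))) ^ d a) * dl v (R a) (ξ a) ^ (γ a - s a)) := by
          refine Finset.prod_le_prod (fun a _ => v.nonneg _) fun a _ => ?_
          refine (hE a (γ a) (hγd a)).trans (le_of_eq ?_)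
          ring
        refine h1.trans ?_
        rw [Finset.prod_mul_distrib]
        refine mul_le_mul_of_nonneg_left (hM γ hγd hq) ?_
        exact Finset.prod_nonneg fun a _ => mul_nonneg (mul_nonneg (pow_nonneg hc0.le _)
          (pow_nonneg (hvn a).le _)) (pow_nonneg (hmx a) _)
      rw [map_mul]
      refine (mul_le_mul hfirst hsecond (v.nonneg _) (mul_nonneg hNV hB0)).trans (le_of_eq ?_)
      have h4 : (∏ a, (cst v 2 ^ d a * vn v (R a) ^ (d a - γ a))) *
          (∏ a, (cst v 2 ^ (3 * d a) * vn v (R a) ^ γ a * (max 1 (v (ξ a))) ^ d a)) =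
          cst v 2 ^ (4 * ∑ a, d a) * (∏ a, vn v (R a) ^ d a) * (∏ a, (max 1 (v (ξ a))) ^ (d a)) := by
        have h5 : cst v 2 ^ (4 * ∑ a, d a) = ∏ a, cst v 2 ^ (4 * d a) := by
          rw [Finset.mul_sum, Finset.prod_pow_eq_pow_sum]
        rw [h5, ← Finset.prod_mul_distrib, ← Finset.prod_mul_distrib, ← Finset.prod_mul_distrib]
        refine Finset.prod_congr rfl fun a _ => ?_
        have h6 : vn v (R a) ^ d a = vn v (R a) ^ (d a - γ a) * vn v (R a) ^ γ a := by
          rw [← pow_add, Nat.sub_add_cancel (hγd a)]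
        rw [h6]
        ring
      calc _ = NV v Φ * ((∏ a, (cst v 2 ^ d a * vn v (R a) ^ (d a - γ a))) *
          (∏ a, (cst v 2 ^ (3 * d a) * vn v (R a) ^ γ a * (max 1 (v (ξ a))) ^ d a))) * M := by ring
        _ = _ := by
          rw [h4]
          ring
  have hP0 : 0 < ∏ a, vn v (R a) ^ d a := Finset.prod_pos fun a _ => pow_pos (hvn a) _
  have hX0 : 0 ≤ ∏ a, (max 1 (v (ξ a))) ^ (d a) := Finset.prod_nonneg fun a _ => pow_nonneg (hmx a) _
  have hB0 : 0 ≤ cst v 2 ^ (4 * ∑ a, d a) * NV v Φ * (∏ a, vn v (R a) ^ d a) *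
      (∏ a, (max 1 (v (ξ a))) ^ (d a)) * M := by positivity
  have hsum := hS.sum_le _ _ hB0 hterm
  have hcard : cst v (Fintype.piFinset (fun a => Finset.range (d a + 1))).card ≤ cst v 2 ^ (∑ a, d a) := by
    rw [← cst_pow]
    refine cst_mono v ?_
    rw [Fintype.card_piFinset, ← Finset.prod_pow_eq_pow_sum]
    refine Finset.prod_le_prod' fun a _ => ?_
    rw [Finset.card_range]
    exact Nat.lt_two_pow_self
  have hfin : v ((∏ a, N a ^ d a) * coeff s (tr ξ Φ)) ≤ cst v 2 ^ (∑ a, d a) *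
      (cst v 2 ^ (4 * ∑ a, d a) * NV v Φ * (∏ a, vn v (R a) ^ d a) *
        (∏ a, (max 1 (v (ξ a))) ^ (d a)) * M) := by
    rw [hexpand]
    exact hsum.trans (mul_le_mul_of_nonneg_right hcard hB0)
  have hvN : v (∏ a, N a ^ d a) = ∏ a, vn v (R a) ^ d a := by
    rw [map_prod]
    refine Finset.prod_congr rfl fun a _ => ?_
    rw [map_pow, hN]
  rw [map_mul, hvN] at hfin
  refine le_of_mul_le_mul_left (hfin.trans (le_of_eq ?_)) hP0
  have h7 : cst v 2 ^ (5 * ∑ a, d a) = cst v 2 ^ (∑ a, d a) * cst v 2 ^ (4 * ∑ a, d a) := by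
    rw [← pow_add]
    congr 1
    ring
  rw [h7]
  ring


end Pool.Agent.Lib.MP_17a322_nt.VJ
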