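import Pool.Agent.Lib.MP_17a322_nt.VJ.G1
import Pool.Agent.Lib.MP_17a322_nt.VJ.A8
import Pool.Agent.Lib.MP_17a322_nt.VJ.E8

/-!
The coefficients of the linear equations.
-/

namespace Pool.Agent.Lib.MP_17a322_nt.VJ

open MvPolynomial Height

variable {K : Type*} [Field K] (W : Fin 2 → WeierstrassCurve K)

theorem G3b_mul {p q : Polynomial K} {a b : ℕ} (hp : p.natDegree ≤ a) (hq : q.natDegree ≤ b) :
    (p * q).natDegree ≤ a + b :=
  Polynomial.natDegree_mul_le.trans (add_le_add hp hq)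

theorem G3b_pow {p : Polynomial K} {a : ℕ} (k : ℕ) (hp : p.natDegree ≤ a) :
    (p ^ k).natDegree ≤ k * a :=
  Polynomial.natDegree_pow_le.trans (Nat.mul_le_mul le_rfl hp)

/-- Degree: `TT` is a form of degree `d - γ` in `R`, and the two entries of `mu .. ![X, 1]` have degree at
most `4 ^ j` (`mu_X_degrees`). -/
theorem natDegree_TT_le (W : WeierstrassCurve K) (c : Bool) (d γ β j : ℕ) (hβ : β ≤ d) :
    (TT c d γ β (mu W j ![(Polynomial.X : Polynomial K), 1])).natDegree ≤ d * 4 ^ j := by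
  obtain ⟨_, h0, h1⟩ := mu_X_degrees W j
  have hn : ∀ n : ℕ, ((n : Polynomial K)).natDegree ≤ 0 := fun n => (Polynomial.natDegree_natCast n).le
  unfold TT
  split_ifs
  · refine (G3b_mul (G3b_mul (hn _) (G3b_pow β h0.le)) (G3b_pow (d - β - γ) h1.le)).trans ?_
    rw [zero_add, ← add_mul]
    exact Nat.mul_le_mul (by omega) le_rfl
  · refine (G3b_mul (G3b_mul (hn _) (G3b_pow (β - γ) h0.le)) (G3b_pow (d - β) h1.le)).trans ?_
    rw [zero_add, ← add_mul]
    exact Nat.mul_le_mul (by omega) le_rfl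

/-- Size of the polynomials. `NP` is a seminorm (`SN_NP`), `mu_size` (E2, with `r = 1`) gives
`lc ^ (16 * 4 ^ j)` for the entries of `mu .. ![X, 1]`, the binomial coefficient is at most `2 ^ d`. -/
theorem NP_TT_le (W : WeierstrassCurve K) (v : AbsoluteValue K ℝ) (c : Bool) (d γ β j : ℕ)
    (hβ : β ≤ d) (k : ℕ) :
    NP v (fun x => v x) (Polynomial.X ^ k *
      TT c d γ β (mu W j ![(Polynomial.X : Polynomial K), 1])) ≤
      lc W v ^ (17 * (d * 4 ^ j)) := by
  have hS := SN_NP v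
  have hlc : 1 ≤ lc W v := one_le_lc W v
  have hlc0 : 0 ≤ lc W v := zero_le_one.trans hlc
  set ν : Polynomial K → ℝ := fun p => NP v (fun x => v x) p with hν
  have hR : ∀ i, ν (mu W j ![(Polynomial.X : Polynomial K), 1] i) ≤ lc W v ^ (16 * 4 ^ j) := by
    intro i
    have h1 := mu_size W hS j ![(Polynomial.X : Polynomial K), 1] (r := 1) (by
      intro k
      fin_cases k
      · exact (NP_X v).le
      · exact hS.one_le) i
    rw [one_pow, mul_one] at h1
    exact h1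
  have hX : ν (Polynomial.X ^ k) ≤ 1 := by
    refine (hS.pow_le _ k).trans ?_
    have h1 : ν Polynomial.X = 1 := NP_X v
    rw [h1, one_pow]
  have hch : ∀ n : ℕ, n ≤ 2 ^ d → ν ((n : ℕ) : Polynomial K) ≤ lc W v ^ d := by
    intro n hn
    have h1 := hS.nsmul_le n 1
    rw [mul_one] at h1
    refine h1.trans ?_
    calc cst v n * ν 1 ≤ cst v n * 1 := mul_le_mul_of_nonneg_left hS.one_le (cst_nonneg v n)
      _ = cst v n := mul_one _
      _ ≤ cst v (2 ^ d) := cst_mono v hn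
      _ = cst v 2 ^ d := cst_pow v 2 d
      _ ≤ lc W v ^ d := pow_le_pow_left₀ (cst_nonneg v 2) (cst_two_le_lc W v) d
  have hpow : ∀ (i : Fin 2) (a : ℕ), ν (mu W j ![(Polynomial.X : Polynomial K), 1] i ^ a) ≤
      lc W v ^ (16 * 4 ^ j * a) := by
    intro i a
    refine (hS.pow_le _ a).trans ?_
    rw [pow_mul]
    exact pow_le_pow_left₀ (hS.nonneg _) (hR i) a
  have hTT : ∀ (n a b : ℕ), n ≤ 2 ^ d → a + b ≤ d →
      ν ((n : Polynomial K) * mu W j ![(Polynomial.X : Polynomial K), 1] 0 ^ a *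
        mu W j ![(Polynomial.X : Polynomial K), 1] 1 ^ b) ≤ lc W v ^ (17 * (d * 4 ^ j)) := by
    intro n a b hn hab
    have h1 : ν ((n : Polynomial K) * mu W j ![(Polynomial.X : Polynomial K), 1] 0 ^ a *
        mu W j ![(Polynomial.X : Polynomial K), 1] 1 ^ b) ≤
        lc W v ^ d * lc W v ^ (16 * 4 ^ j * a) * lc W v ^ (16 * 4 ^ j * b) := by
      refine (hS.mul _ _).trans ?_
      refine mul_le_mul ((hS.mul _ _).trans ?_) (hpow 1 b) (hS.nonneg _) (by positivity)
      exact mul_le_mul (hch n hn) (hpow 0 a) (hS.nonneg _) (by positivity)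
    refine h1.trans ?_
    rw [← pow_add, ← pow_add]
    refine pow_le_pow_right₀ hlc ?_
    have h2 : 1 ≤ 4 ^ j := Nat.one_le_pow _ _ (by norm_num)
    have h3 : d ≤ d * 4 ^ j := Nat.le_mul_of_pos_right d h2
    have h4 : 16 * 4 ^ j * a + 16 * 4 ^ j * b ≤ 16 * 4 ^ j * d := by
      rw [← mul_add]
      exact Nat.mul_le_mul le_rfl hab
    have h5 : 16 * 4 ^ j * d = 16 * (d * 4 ^ j) := by ring
    omega
  have hfin : ν (TT c d γ β (mu W j ![(Polynomial.X : Polynomial K), 1])) ≤ lc W v ^ (17 * (d * 4 ^ j)) := by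
    unfold TT
    split_ifs
    · exact hTT _ _ _ ((Nat.choose_le_two_pow _ _).trans (Nat.pow_le_pow_right (by norm_num) (by omega)))
        (by omega)
    · exact hTT _ _ _ ((Nat.choose_le_two_pow _ _).trans (Nat.pow_le_pow_right (by norm_num) (by omega)))
        (by omega)
  calc ν (Polynomial.X ^ k * TT c d γ β (mu W j ![(Polynomial.X : Polynomial K), 1]))
      ≤ ν (Polynomial.X ^ k) * ν (TT c d γ β (mu W j ![(Polynomial.X : Polynomial K), 1])) := hS.mul _ _
    _ ≤ 1 * lc W v ^ (17 * (d * 4 ^ j)) := mul_le_mul hX hfin (hS.nonneg _) zero_le_one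
    _ = lc W v ^ (17 * (d * 4 ^ j)) := one_mul _

/-- Size of the coefficients of the equations (`coeff_le_NP`, `NP_TT_le`, `b_i 4 ^ (j i) = b`). -/
theorem ME_le (v : AbsoluteValue K ℝ) (n J m : ℕ) (j : Fin m → ℕ) (i : Fin m) (hj : j i ≤ J)
    (c : Fin 2 → Bool) (q e : AA m → ℕ) (he : e ∈ box (fun a => DG n J j a + 1)) :
    v (ME W n J j i c q e) ≤ ∏ t, lc (W t) v ^ (17 * (8 * n * 4 ^ J)) := by
  have h0 : ∀ t, (0 : ℝ) ≤ lc (W t) v ^ (17 * (8 * n * 4 ^ J)) := fun t =>
    pow_nonneg (zero_le_one.trans (one_le_lc (W t) v)) _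
  unfold ME
  split_ifs
  · rw [map_prod]
    refine Finset.prod_le_prod (fun t _ => v.nonneg _) fun t _ => ?_
    refine (coeff_le_NP v _ _).trans ?_
    have h1 : e (some i, t) ≤ 8 * n * 4 ^ (J - j i) := by
      have h2 := Fintype.mem_piFinset.1 he (some i, t)
      exact Nat.lt_succ_iff.1 (Finset.mem_range.1 h2)
    refine (NP_TT_le (W t) v (c t) (8 * n * 4 ^ (J - j i)) (q (some i, t)) (e (some i, t)) (j i) h1
      (e (none, t))).trans (le_of_eq ?_)
    rw [mul_assoc (8 * n), ← pow_add, Nat.sub_add_cancel hj]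
  · rw [map_zero]
    exact Finset.prod_nonneg fun t _ => h0 t

end Pool.Agent.Lib.MP_17a322_nt.VJ
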