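import Pool.Agent.Lib.MP_17a322_nt.VJ.H1
import Pool.Agent.Lib.MP_17a322_nt.VJ.IF_A

/-!
# JOB H2: descent (section 8)

`d = finrank ℚ K`. Proof of `descent`. `G ≠ 0`, `eval p G = 0`: some irreducible factor `g` of `G` (over `K`) vanishes
at `p` (`H1_factor`), `G = g * Q`, `Q ≠ 0`. `sum_nh_le` (B4) for the two factors (`Fin 2` or `Bool`):
`nh g + nh Q ≤ nh G + 3 d ∑ t, degreeOf t G ≤ B + 6 d D`, `nh_nonneg` (A5): `nh g ≤ B₁ := B + 6 d D`. Degrees: those of a
factor of a nonzero polynomial are at most those of `G` (`degreeOf_mul_eq` in Mathlib or `degreeOf_prod_eq` in B4), so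
`≤ D`.
Both variables occur: if `g.degreeOf t = 0` let `y` be the other variable; `g.vars ⊆ {y}` (`degreeOf_eq_zero_iff`-type
lemmas, `mem_vars`), `logHeight_root_le` (A5): `logHeight₁ (p y) ≤ nh g ≤ B₁ < C (B + 1)`, contradiction.
Smooth: `f = pderiv 1 g ≠ 0`. If `eval p f = 0`: `R = El 1 g f ≠ 0` (`El_ne_zero_of_irreducible` C4, `not_dvd_pderiv` D4),
`R.vars ⊆ {0}` (`vars_El_subset` C2, `vars_pderiv_subset` D4; `Fin 2` without `1`), `eval p R = 0` by `aeval_dvd_El` (C2)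
(`eval p` is `aeval p`), so `logHeight₁ (p 0) ≤ nh R ≤ f.degreeOf 1 * nh g + g.degreeOf 1 * nh f ≤ D nh g + D (nh g + d log D)`
(`nh_El_le` C5, `nh_pderiv_le` D4, `totalWeight = d`: `NumberField.totalWeight_eq_finrank`), contradiction for
`C = 2 D (1 + 6 d D) + d D ^ 2 + 6 d D + 1` (use `log D ≤ D`; `D ≥ 1` as `g` has positive degree).
`GC g D`: `abs_irreducible` (H1).
-/

universe u

namespace Pool.Agent.Lib.MP_17a322_nt.VJ

open MvPolynomial Height

private theorem H2_vars {K : Type u} [Field K] (g : MvPolynomial (Fin 2) K) (t : Fin 2)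
    (h : g.degreeOf t = 0) : g.vars ⊆ {1 - t} := by
  intro y hy
  rw [Finset.mem_singleton]
  have h1 : y ≠ t := by
    rintro rfl
    have h2 : y ∈ g.degrees := by
      rw [MvPolynomial.vars_def] at hy
      exact Multiset.mem_toFinset.1 hy
    have h3 : g.degreeOf y ≠ 0 := by
      rw [MvPolynomial.degreeOf_def]
      exact Multiset.count_ne_zero.2 h2
    exact h3 h
  fin_cases t <;> fin_cases y <;> simp_all

/-- Descent (section 8), over `K`. -/
theorem descent (K : Type u) [Field K] [NumberField K] (D : ℕ) :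
    ∃ C : ℝ, 0 ≤ C ∧ ∀ (G : MvPolynomial (Fin 2) K) (B : ℝ) (p : Fin 2 → K), 0 ≤ B → G ≠ 0 →
      (∀ t, G.degreeOf t ≤ D) → nh G ≤ B → eval p G = 0 →
      (∀ t, C * (B + 1) < logHeight₁ (p t)) →
      ∃ g : MvPolynomial (Fin 2) K, GC g D ∧ eval p g = 0 ∧ nh g ≤ C * (B + 1) := by
  classical
  set d : ℝ := (Module.finrank ℚ K : ℝ) with hd
  have hd0 : 0 ≤ d := Nat.cast_nonneg _
  have hD0 : (0 : ℝ) ≤ (D : ℝ) := Nat.cast_nonneg _
  refine ⟨2 * D * (1 + 6 * d * D) + d * D ^ 2 + 6 * d * D + 1, by positivity, ?_⟩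
  intro G B p hB hG hdeg hnh h0 hp
  obtain ⟨g, hirr, ⟨Q, hQ⟩, hgp, -⟩ := H1_factor G hG p h0
  have hg0 : g ≠ 0 := hirr.ne_zero
  have hQ0 : Q ≠ 0 := by
    rintro rfl
    rw [mul_zero] at hQ
    exact hG hQ
  have hgdeg : ∀ t, g.degreeOf t ≤ D := by
    intro t
    refine le_trans ?_ (hdeg t)
    rw [hQ, MvPolynomial.degreeOf_mul_eq hg0 hQ0]
    exact Nat.le_add_right _ _
  have hnhg : nh g ≤ B + 6 * d * D := by
    have h1 := sum_nh_le K (Finset.univ : Finset (Fin 2)) ![g, Q] (by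
      intro j _
      fin_cases j
      · exact hg0
      · exact hQ0)
    rw [Fin.sum_univ_two, Fin.prod_univ_two, Fin.sum_univ_two] at h1
    simp only [Matrix.cons_val_zero, Matrix.cons_val_one] at h1
    rw [← hQ] at h1
    have h2 := nh_nonneg hQ0
    have h3 : (degreeOf 0 G : ℝ) ≤ D := by exact_mod_cast hdeg 0
    have h4 : (degreeOf 1 G : ℝ) ≤ D := by exact_mod_cast hdeg 1
    have h5 : 3 * d * ((degreeOf 0 G : ℝ) + (degreeOf 1 G : ℝ)) ≤ 3 * d * (D + D) :=
      mul_le_mul_of_nonneg_left (add_le_add h3 h4) (by positivity)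
    rw [← hd] at h1
    linarith
  have hC1 : B + 6 * d * D ≤ (2 * D * (1 + 6 * d * D) + d * D ^ 2 + 6 * d * D + 1) * (B + 1) := by
    have h1 : 0 ≤ (2 * D * (1 + 6 * d * D) + d * D ^ 2 + 6 * d * D) * B := by positivity
    have h2 : 0 ≤ 2 * D * (1 + 6 * d * D) + d * D ^ 2 := by positivity
    linarith
  have hne : ∀ t, g.degreeOf t ≠ 0 := by
    intro t ht
    have h1 := logHeight_root_le g hg0 (1 - t) (H2_vars g t ht) p hgp
    have h2 := hp (1 - t)
    linarith
  have hsm : eval p (pderiv 1 g) ≠ 0 := by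
    intro hf0
    have hR : El 1 g (pderiv 1 g) ≠ 0 :=
      El_ne_zero_of_irreducible 1 g (pderiv 1 g) hirr (hne 1) (not_dvd_pderiv 1 (hne 1))
    have hvars : (El 1 g (pderiv 1 g)).vars ⊆ {0} := by
      intro y hy
      have h1 := vars_El_subset 1 g (pderiv 1 g) hy
      have h2 := Finset.ne_of_mem_erase h1
      rw [Finset.mem_singleton]
      fin_cases y
      · rfl
      · exact absurd rfl h2
    have hev : eval p (El 1 g (pderiv 1 g)) = 0 := by
      have h1 := aeval_dvd_El 1 g (pderiv 1 g) (Or.inl (hne 1)) p (by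
        rw [MvPolynomial.aeval_eq_eval]
        exact hgp)
      rw [MvPolynomial.aeval_eq_eval] at h1
      have h2 : eval p (pderiv 1 g) ∣ eval p (El 1 g (pderiv 1 g)) := h1
      rw [hf0] at h2
      exact zero_dvd_iff.1 h2
    have h1 := logHeight_root_le _ hR 0 hvars p hev
    have h2 := nh_El_le 1 g (pderiv 1 g) hR
    have h3 := nh_pderiv_le 1 (hne 1)
    rw [NumberField.totalWeight_eq_finrank, ← hd] at h3
    have hng := nh_nonneg hg0
    have h4 : (g.degreeOf 1 : ℝ) ≤ D := by exact_mod_cast hgdeg 1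
    have h5 : ((pderiv 1 g).degreeOf 1 : ℝ) ≤ D := by
      exact_mod_cast (degreeOf_pderiv_le 1 1 g).trans (hgdeg 1)
    have h6 : Real.log (g.degreeOf 1) ≤ D :=
      (Real.log_le_self (Nat.cast_nonneg _)).trans h4
    have h7 : nh (pderiv 1 g) ≤ nh g + d * D :=
      h3.trans (add_le_add le_rfl (mul_le_mul_of_nonneg_left h6 hd0))
    have hf0' : pderiv 1 g ≠ 0 := pderiv_ne_zero 1 (hne 1)
    have h8 : ((pderiv 1 g).degreeOf 1 : ℝ) * nh g ≤ D * nh g :=
      mul_le_mul_of_nonneg_right h5 hng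
    have h9 : (g.degreeOf 1 : ℝ) * nh (pderiv 1 g) ≤ D * (nh g + d * D) :=
      mul_le_mul h4 h7 (nh_nonneg hf0') hD0
    have h10 : (D : ℝ) * nh g ≤ D * (B + 6 * d * D) := mul_le_mul_of_nonneg_left hnhg hD0
    have h11 := hp 0
    have h12 : 0 ≤ 2 * D * (6 * d * D) * B := by positivity
    have h13 : 0 ≤ (d * D ^ 2 + 6 * d * D + 1) * B := by positivity
    have h14 : 0 ≤ 6 * d * D := by positivity
    nlinarith
  refine ⟨g, ⟨abs_irreducible 1 g hirr p hgp hsm, fun t => ⟨Nat.one_le_iff_ne_zero.2 (hne t),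
    hgdeg t⟩⟩, hgp, hnhg.trans hC1⟩

end Pool.Agent.Lib.MP_17a322_nt.VJ
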