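import Pool.Agent.Lib.MP_17a322_nt.VJ.F3
import Pool.Agent.Lib.MP_17a322_nt.VJ.H2

/-!
Interface of stream D (helper92): Siegel's lemma (`siegel`: F3), descent (`descent`: H2). All proved.
-/
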