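import Pool.Agent.Lib.MP_17a322_nt.VJ.G3a
import Pool.Agent.Lib.MP_17a322_nt.VJ.G3b
import Pool.Agent.Lib.MP_17a322_nt.VJ.IF_D

/-!
Existence of the auxiliary polynomial.
-/

universe u

namespace Pool.Agent.Lib.MP_17a322_nt.VJ

open MvPolynomial Height

/-- Height of the matrix of the system. -/
theorem G3c_matrix {K : Type u} [Field K] [NumberField K] (W : Fin 2 → WeierstrassCurve K) (n : ℕ) :
    ∃ C : ℝ, 0 ≤ C ∧ ∀ (J m : ℕ) (j : Fin m → ℕ), (∀ i, j i ≤ J) →
      ∀ (ι : Type) [Finite ι] (x : ι → K), (∀ a, ∃ (i : Fin m) (c : Fin 2 → Bool) (q e : AA m → ℕ),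
        e ∈ box (fun a => DG n J j a + 1) ∧ x a = ME W n J j i c q e) →
      logHeight x ≤ C * 4 ^ J := by
  choose C hC0 hC using fun t : Fin 2 => gs_log_lc_le (K := K) (W t)
  refine ⟨17 * (8 * n) * (∑ t, C t * Module.finrank ℚ K), ?_, ?_⟩
  · exact mul_nonneg (by positivity)
      (Finset.sum_nonneg fun t _ => mul_nonneg (hC0 t) (Nat.cast_nonneg _))
  · intro J m j hj ι _ x hx
    by_cases hx0 : x = 0
    · rw [hx0, logHeight_zero]
      exact mul_nonneg (mul_nonneg (by positivity)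
        (Finset.sum_nonneg fun t _ => mul_nonneg (hC0 t) (Nat.cast_nonneg _))) (by positivity)
    · rw [← gs_log_iSup hx0]
      have hFS : FS (fun v : AbsoluteValue K ℝ => ∑ t : Fin 2,
          ((17 * (8 * n * 4 ^ J) : ℕ) : ℝ) * Real.log (lc (W t) v)) :=
        FS_sum _ fun t _ => FS_const_mul _ (FS_log_lc (W t))
      refine (gs_le (FS_log_iSup hx0) hFS fun v _ => ?_).trans ?_
      · obtain ⟨a, ha⟩ := Function.ne_iff.mp hx0
        have : Nonempty ι := ⟨a⟩
        have hlc : ∀ t, 0 < lc (W t) v := fun t => one_pos.trans_le (one_le_lc (W t) v)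
        have hpos : 0 < ⨆ i, v (x i) :=
          (v.pos ha).trans_le (le_ciSup (f := fun i => v (x i)) (Set.finite_range _).bddAbove a)
        have hle : ⨆ i, v (x i) ≤ ∏ t, lc (W t) v ^ (17 * (8 * n * 4 ^ J)) := by
          refine ciSup_le fun b => ?_
          obtain ⟨i, c, q, e, he, hxe⟩ := hx b
          rw [hxe]
          exact ME_le W v n J m j i (hj i) c q e he
        have h1 := Real.log_le_log hpos hle
        rw [Real.log_prod (fun t _ => (pow_pos (hlc t) _).ne')] at h1
        refine h1.trans (le_of_eq ?_)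
        refine Finset.sum_congr rfl fun t _ => ?_
        rw [Real.log_pow]
      · rw [gs_sum _ (fun t _ => FS_const_mul _ (FS_log_lc (W t)))]
        have h2 : ∀ t : Fin 2, gs (fun v : AbsoluteValue K ℝ =>
            ((17 * (8 * n * 4 ^ J) : ℕ) : ℝ) * Real.log (lc (W t) v)) ≤
            ((17 * (8 * n * 4 ^ J) : ℕ) : ℝ) * (C t * Module.finrank ℚ K) := by
          intro t
          rw [gs_const_mul]
          exact mul_le_mul_of_nonneg_left (hC t K) (Nat.cast_nonneg _)
        refine (Finset.sum_le_sum fun t _ => h2 t).trans (le_of_eq ?_)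
        rw [← Finset.mul_sum]
        push_cast
        ring

/-- Solution of the linear system (Siegel's lemma).
Proof. `siegel` (IF_D) for `α = Σ i : Fin (2 n^2), (Fin 2 → Bool) × ↥(box (DQ n J j i))` and
`β = ↥(box (fun a => DG n J j a + 1))`, `A (i, c, q) e = ME W n J j i c q e`. The cardinalities are
`∑_i 4 * card` and `card`, so `card α ≤ card β / 2` (`count_le`), `card β > 0`, and the fraction
`card α / (card β - card α)` is at most `1`. If all entries are zero the height of the matrix is `0`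
(`logHeight` of the zero vector), otherwise `logHeight A = gs (log ⨆ |entries|)` (`gs_log_iSup`, A4) is at
most `17 b ∑_t gs (log lc)` by `ME_le`, `gs_le`, with `b = 8 n 4^J`; `gs_log_lc_le` (E1, for `L = K`). Finally
`log (card β) ≤ (2 + 4 n^2) 8 n 4^J` (`log_card_le`). Extend `x` by `0` outside of the box. -/
theorem exists_solution {K : Type u} [Field K] [NumberField K] (W : Fin 2 → WeierstrassCurve K)
    [∀ t, (W t).IsElliptic] (n : ℕ) (hn : 0 < n) :
    ∃ C : ℝ, 0 ≤ C ∧ ∀ (J : ℕ) (j : Fin (2 * n ^ 2) → ℕ), (∀ i, j i ≤ J) →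
      ∃ x : (AA (2 * n ^ 2) → ℕ) → K, (∃ e ∈ box (fun a => DG n J j a + 1), x e ≠ 0) ∧
        CG W n J j x ∧
        logHeight (fun e : box (fun a => DG n J j a + 1) => x e) ≤ C * 4 ^ J := by
  classical
  obtain ⟨C1, hC1, h1⟩ := siegel K
  obtain ⟨C2, hC2, h2⟩ := G3c_matrix W n
  refine ⟨C1 + (C2 + C1 + C1 * ((2 + 4 * n ^ 2) * (8 * n))), by positivity, fun J j hj => ?_⟩
  have hcount := count_le n J hn j
  have hcardpos : 0 < (box (fun a => DG n J j a + 1)).card := by
    rw [card_box]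
    exact Finset.prod_pos fun a _ => Nat.succ_pos _
  have hlog := log_card_le n J (2 * n ^ 2) j
  let α := Σ i : Fin (2 * n ^ 2), (Fin 2 → Bool) × (box (DQ n J j i))
  let β := (box (fun a => DG n J j a + 1))
  have hα : Fintype.card α = ∑ i, 4 * (box (DQ n J j i)).card := by
    rw [Fintype.card_sigma]
    refine Finset.sum_congr rfl fun i _ => ?_
    rw [Fintype.card_prod, Fintype.card_coe]
    rfl
  have hβ : Fintype.card β = (box (fun a => DG n J j a + 1)).card := Fintype.card_coe _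
  have hlt : Fintype.card α < Fintype.card β := by omega
  have h2α : 2 * Fintype.card α ≤ Fintype.card β := by omega
  obtain ⟨x, hx0, hAx, hx⟩ := h1 α β
    (fun a e => ME W n J j a.1 a.2.1 (a.2.2 : AA (2 * n ^ 2) → ℕ) (e : AA (2 * n ^ 2) → ℕ)) hlt
  have hmat := h2 J (2 * n ^ 2) j hj (α × β)
    (fun p : α × β => ME W n J j p.1.1 p.1.2.1 (p.1.2.2 : AA (2 * n ^ 2) → ℕ) (p.2 : AA (2 * n ^ 2) → ℕ))
    (fun p => ⟨p.1.1, p.1.2.1, p.1.2.2, p.2, p.2.2, rfl⟩)
  refine ⟨fun e => if h : e ∈ box (fun a => DG n J j a + 1) then x ⟨e, h⟩ else 0, ?_, ?_, ?_⟩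
  · obtain ⟨e, he⟩ := Function.ne_iff.mp hx0
    refine ⟨e, e.2, ?_⟩
    show (if h : (e : AA (2 * n ^ 2) → ℕ) ∈ box (fun a => DG n J j a + 1) then x ⟨e, h⟩ else 0) ≠ 0
    rw [dif_pos e.2]
    exact he
  · intro i c q hq
    have h3 := congrFun hAx ⟨i, c, ⟨q, hq⟩⟩
    rw [Pi.zero_apply, Matrix.mulVec, dotProduct] at h3
    refine Eq.trans ?_ h3
    rw [← Finset.sum_coe_sort]
    refine Finset.sum_congr rfl fun e _ => ?_
    show ME W n J j i c q e * (if h : (e : AA (2 * n ^ 2) → ℕ) ∈ box (fun a => DG n J j a + 1) then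
      x ⟨e, h⟩ else 0) = ME W n J j i c q e * x e
    rw [dif_pos e.2]
  · have h4 : (fun e : box (fun a => DG n J j a + 1) =>
        if h : (e : AA (2 * n ^ 2) → ℕ) ∈ box (fun a => DG n J j a + 1) then x ⟨e, h⟩ else 0) = x := by
      funext e
      rw [dif_pos e.2]
    rw [h4]
    refine hx.trans ?_
    have hfrac0 : 0 ≤ (Fintype.card α : ℝ) / (Fintype.card β - Fintype.card α : ℝ) := by
      have : (Fintype.card α : ℝ) < Fintype.card β := by exact_mod_cast hlt
      exact div_nonneg (Nat.cast_nonneg _) (by linarith)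
    have hfrac1 : (Fintype.card α : ℝ) / (Fintype.card β - Fintype.card α : ℝ) ≤ 1 := by
      have h5 : (Fintype.card α : ℝ) < Fintype.card β := by exact_mod_cast hlt
      have h6 : (2 : ℝ) * Fintype.card α ≤ Fintype.card β := by exact_mod_cast h2α
      rw [div_le_one (by linarith)]
      linarith
    have h4J : (1 : ℝ) ≤ 4 ^ J := one_le_pow₀ (by norm_num)
    have hlog' : Real.log (Fintype.card β) ≤ (2 + 4 * n ^ 2) * (8 * n) * 4 ^ J := by
      rw [hβ]
      refine hlog.trans (le_of_eq ?_)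
      push_cast
      ring
    have hlog0 : 0 ≤ Real.log (Fintype.card β) := Real.log_natCast_nonneg _
    have hin : logHeight (fun p : α × β => ME W n J j p.1.1 p.1.2.1 (p.1.2.2 : AA (2 * n ^ 2) → ℕ)
        (p.2 : AA (2 * n ^ 2) → ℕ)) + C1 + C1 * Real.log (Fintype.card β) ≤
        (C2 + C1 + C1 * ((2 + 4 * n ^ 2) * (8 * n))) * 4 ^ J := by
      have h7 := mul_le_mul_of_nonneg_left hlog' hC1
      have h8 : C1 ≤ C1 * 4 ^ J := le_mul_of_one_le_right hC1 h4J
      nlinarith
    have hin' : (Fintype.card α : ℝ) / (Fintype.card β - Fintype.card α : ℝ) *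
        (logHeight (fun p : α × β => ME W n J j p.1.1 p.1.2.1 (p.1.2.2 : AA (2 * n ^ 2) → ℕ)
        (p.2 : AA (2 * n ^ 2) → ℕ)) + C1 + C1 * Real.log (Fintype.card β)) ≤
        (C2 + C1 + C1 * ((2 + 4 * n ^ 2) * (8 * n))) * 4 ^ J := by
      refine (mul_le_mul_of_nonneg_left hin hfrac0).trans ?_
      exact mul_le_of_le_one_left (by positivity) hfrac1
    have h9 : C1 ≤ C1 * 4 ^ J := le_mul_of_one_le_right hC1 h4J
    calc _ ≤ C1 * 4 ^ J + (C2 + C1 + C1 * ((2 + 4 * n ^ 2) * (8 * n))) * 4 ^ J := add_le_add h9 hin'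
      _ = _ := by ring

theorem coeff_FG {K : Type*} [Field K] (n J : ℕ) {m : ℕ} (j : Fin m → ℕ)
    (x : (AA m → ℕ) → K) (e : AA m →₀ ℕ) :
    coeff e (FG n J j x) = if (⇑e) ∈ box (fun a => DG n J j a + 1) then x e else 0 := by
  classical
  unfold FG
  rw [coeff_sum]
  have h1 : ∀ e' ∈ box (fun a => DG n J j a + 1),
      coeff e (monomial (Finsupp.equivFunOnFinite.symm e') (x e')) = if e' = ⇑e then x e' else 0 := by
    intro e' _
    rw [coeff_monomial]
    by_cases h : e' = ⇑e
    · rw [if_pos h, if_pos]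
      rw [h]
      exact Finsupp.equivFunOnFinite.symm_apply_apply e
    · rw [if_neg h, if_neg]
      intro h2
      apply h
      rw [← h2]
      rfl
  rw [Finset.sum_congr rfl h1, Finset.sum_ite_eq']

theorem degreeOf_FG_le {K : Type*} [Field K] (n J : ℕ) {m : ℕ} (j : Fin m → ℕ)
    (x : (AA m → ℕ) → K) (a : AA m) : (FG n J j x).degreeOf a ≤ DG n J j a := by
  rw [degreeOf_le_iff]
  intro e he
  rw [mem_support_iff, coeff_FG] at he
  have h1 : (⇑e) ∈ box (fun a => DG n J j a + 1) := by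
    by_contra h
    exact he (if_neg h)
  exact Nat.lt_succ_iff.1 ((mem_box _ _).1 h1 a)

/-- `nh F ≤ ch F + [K : ℚ] log (#support)` (`nh_le_ch`), `ch F = logHeight` of the nonzero coefficients,
which is the height of the vector `x` on the box (zero entries do not change the height;
or `gs_log_iSup` and `ciSup` directly). -/
theorem nh_FG_le {K : Type u} [Field K] [NumberField K] (n J : ℕ) {m : ℕ} (j : Fin m → ℕ)
    (x : (AA m → ℕ) → K) (hx : ∃ e ∈ box (fun a => DG n J j a + 1), x e ≠ 0) :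
    FG n J j x ≠ 0 ∧ nh (FG n J j x) ≤
      logHeight (fun e : box (fun a => DG n J j a + 1) => x e) +
        Module.finrank ℚ K * Real.log (box (fun a => DG n J j a + 1)).card := by
  classical
  obtain ⟨e0, he0, hxe0⟩ := hx
  have hcoef : coeff (Finsupp.equivFunOnFinite.symm e0) (FG n J j x) = x e0 := by
    rw [coeff_FG]
    exact if_pos he0
  have hF : FG n J j x ≠ 0 := by
    intro h
    rw [h, coeff_zero] at hcoef
    exact hxe0 hcoef.symm
  refine ⟨hF, ?_⟩
  have hsupp : ∀ e ∈ (FG n J j x).support, (⇑e) ∈ box (fun a => DG n J j a + 1) ∧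
      coeff e (FG n J j x) = x e := by
    intro e he
    rw [mem_support_iff, coeff_FG] at he
    have h1 : (⇑e) ∈ box (fun a => DG n J j a + 1) := by
      by_contra h
      exact he (if_neg h)
    exact ⟨h1, by rw [coeff_FG, if_pos h1]⟩
  have h1 := nh_le_ch hF
  rw [NumberField.totalWeight_eq_finrank] at h1
  have hcard : (FG n J j x).support.card ≤ (box (fun a => DG n J j a + 1)).card :=
    Finset.card_le_card_of_injOn (fun e => (e : AA m → ℕ)) (fun e he => (hsupp e he).1)
      (fun e _ e' _ h => DFunLike.coe_injective h)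
  have hpos : 0 < (FG n J j x).support.card := Finset.card_pos.2 (support_nonempty.2 hF)
  have hlog : Real.log (FG n J j x).support.card ≤ Real.log (box (fun a => DG n J j a + 1)).card :=
    Real.log_le_log (by exact_mod_cast hpos) (by exact_mod_cast hcard)
  have hch : ch (FG n J j x) ≤ logHeight (fun e : box (fun a => DG n J j a + 1) => x e) := by
    have hx1 : (fun m : (FG n J j x).support => coeff (m : AA _ →₀ ℕ) (FG n J j x)) ≠ 0 := A5_vec_ne hF
    have hx2 : (fun e : box (fun a => DG n J j a + 1) => x e) ≠ 0 :=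
      Function.ne_iff.mpr ⟨⟨e0, he0⟩, hxe0⟩
    unfold ch
    rw [← gs_log_iSup hx1, ← gs_log_iSup hx2]
    refine gs_le (FS_log_iSup hx1) (FS_log_iSup hx2) fun v _ => ?_
    obtain ⟨e, he⟩ := support_nonempty.2 hF
    have hne : Nonempty (FG n J j x).support := ⟨⟨e, he⟩⟩
    have hp : 0 < ⨆ i : (FG n J j x).support, v (coeff (i : AA _ →₀ ℕ) (FG n J j x)) :=
      (v.pos (mem_support_iff.1 he)).trans_le
        (le_ciSup (f := fun i : (FG n J j x).support => v (coeff (i : AA _ →₀ ℕ) (FG n J j x)))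
          (Set.finite_range _).bddAbove ⟨e, he⟩)
    refine Real.log_le_log hp (ciSup_le fun i => ?_)
    obtain ⟨h3, h4⟩ := hsupp i i.2
    rw [h4]
    exact le_ciSup (f := fun e : box (fun a => DG n J j a + 1) => v (x e))
      (Set.finite_range _).bddAbove ⟨_, h3⟩
  exact h1.trans (add_le_add hch (mul_le_mul_of_nonneg_left hlog (Nat.cast_nonneg _)))

end Pool.Agent.Lib.MP_17a322_nt.VJ
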