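import Pool.Agent.Lib.MP_17a322_nt.VJ.G3c

/-!
From the linear equations to the vanishing of the expansion coefficients.
-/

universe u

namespace Pool.Agent.Lib.MP_17a322_nt.VJ

open MvPolynomial Height

/-- The exponents of the `ξ_{it}`. -/
noncomputable def G4_r {m : ℕ} (e : AA m → ℕ) : Fin m × Fin 2 →₀ ℕ :=
  Finsupp.equivFunOnFinite.symm fun a => e (some a.1, a.2)

theorem G4_r_apply {m : ℕ} (e : AA m → ℕ) (a : Fin m × Fin 2) :
    G4_r e a = e (some a.1, a.2) := rfl

theorem G4_pe_monomial {K : Type*} [Field K] {L : Type*} [Field L] [Algebra K L] {m : ℕ}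
    (X : Fin 2 → L) (e : AA m →₀ ℕ) (c : K) :
    pe X (monomial e c) = monomial (G4_r e) (algebraMap K L c * ∏ t, X t ^ e (none, t)) := by
  unfold pe
  rw [aeval_monomial, Finsupp.prod_fintype _ _ (fun i => pow_zero _), Fintype.prod_prod_type,
    Fintype.prod_option, monomial_eq, Finsupp.prod_fintype _ _ (fun i => pow_zero _),
    Fintype.prod_prod_type]
  simp only [Option.elim_none, Option.elim_some, G4_r_apply, map_mul, map_prod, map_pow,
    mul_assoc]
  rfl

theorem G4_sum_fun {L : Type*} [Field L] {σ ι : Type*} [DecidableEq σ] (B : Finset ι)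
    (r : ι → (σ →₀ ℕ)) (c : ι → L) (w : (σ → ℕ) → L) :
    ∑ e ∈ (∑ i ∈ B, monomial (r i) (c i) : MvPolynomial σ L).support,
      coeff e (∑ i ∈ B, monomial (r i) (c i) : MvPolynomial σ L) * w e =
      ∑ i ∈ B, c i * w (r i) := by
  classical
  have h1 : (∑ i ∈ B, monomial (r i) (c i) : MvPolynomial σ L).support ⊆
      (∑ i ∈ B, monomial (r i) (c i) : MvPolynomial σ L).support ∪ B.image r :=
    Finset.subset_union_left
  rw [Finset.sum_subset h1 (fun e _ he => by
    rw [notMem_support_iff.1 he, zero_mul])]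
  simp only [coeff_sum, Finset.sum_mul]
  rw [Finset.sum_comm]
  refine Finset.sum_congr rfl fun i hi => ?_
  rw [Finset.sum_eq_single (r i)]
  · rw [coeff_monomial, if_pos rfl]
  · intro e _ he
    rw [coeff_monomial, if_neg (Ne.symm he), zero_mul]
  · intro h
    exact absurd (Finset.mem_union_right _ (Finset.mem_image_of_mem r hi)) h

theorem G4_pe_FG {K : Type*} [Field K] {L : Type*} [Field L] [Algebra K L] (n J : ℕ) {m : ℕ}
    (j : Fin m → ℕ) (x : (AA m → ℕ) → K) (X : Fin 2 → L) :
    pe X (FG n J j x) = ∑ e ∈ box (fun a => DG n J j a + 1),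
      monomial (G4_r e) (algebraMap K L (x e) * ∏ t, X t ^ e (none, t)) := by
  have h1 : pe X (FG n J j x) = ∑ e ∈ box (fun a => DG n J j a + 1),
      pe X (monomial (Finsupp.equivFunOnFinite.symm e) (x e) : MvPolynomial (AA m) K) := by
    unfold FG pe
    rw [map_sum]
  rw [h1]
  refine Finset.sum_congr rfl fun e _ => ?_
  rw [G4_pe_monomial]
  rfl

/-- The linear functional of the expansion coefficients, applied to the partially evaluated
polynomial. Proof: `pe x F = ∑_e C (x e * ∏_t x_t ^ e(none, t)) * monomial (e restricted)`; both sides are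
additive in the polynomial; use `MvPolynomial.support_sum`-free formulation: for a polynomial `Φ` and
any finite set `S` containing its support the sum over the support equals the sum over `S`; or use
`Finsupp.sum` and `Finsupp.sum_add_index'`. -/
theorem sum_pe {K : Type*} [Field K] {L : Type*} [Field L] [Algebra K L] (n J : ℕ) {m : ℕ}
    (j : Fin m → ℕ) (x : (AA m → ℕ) → K) (X : Fin 2 → L) (w : (Fin m × Fin 2 → ℕ) → L) :
    ∑ e ∈ (pe X (FG n J j x)).support, coeff e (pe X (FG n J j x)) * w e =
      ∑ e ∈ box (fun a => DG n J j a + 1), algebraMap K L (x e) *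
        (∏ t, X t ^ e (none, t)) * w (fun a => e (some a.1, a.2)) := by
  rw [G4_pe_FG, G4_sum_fun]
  rfl

/-- Degrees after evaluation of some variables. -/
theorem degreeOf_pe_le {K : Type*} [Field K] {L : Type*} [Field L] [Algebra K L] {m : ℕ}
    (X : Fin 2 → L) (F : MvPolynomial (AA m) K) (a : Fin m × Fin 2) :
    (pe X F).degreeOf a ≤ F.degreeOf (some a.1, a.2) := by
  have h0 : pe X F = ∑ e ∈ F.support,
      monomial (G4_r e) (algebraMap K L (coeff e F) * ∏ t, X t ^ e (none, t)) := by
    conv_lhs => rw [F.as_sum]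
    have h1 : pe X (∑ e ∈ F.support, monomial e (coeff e F)) =
        ∑ e ∈ F.support, pe X (monomial e (coeff e F)) := by
      unfold pe
      rw [map_sum]
    rw [h1]
    exact Finset.sum_congr rfl fun e _ => G4_pe_monomial X e _
  rw [h0]
  refine (degreeOf_sum_le a _ _).trans (Finset.sup_le fun e he => ?_)
  refine degreeOf_le_iff.2 fun k hk => ?_
  rw [Finset.mem_singleton.1 (support_monomial_subset hk), G4_r_apply]
  exact monomial_le_degreeOf _ he

/-- A product over the variables. -/
theorem G4_prod {M : Type*} [CommMonoid M] {m : ℕ} (f : AA m → M) :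
    ∏ a, f a = (∏ t, f (none, t)) * ∏ i, ∏ t, f (some i, t) := by
  rw [Fintype.prod_prod_type, Fintype.prod_option]

/-- A product over the boxes. -/
theorem G4_box_prod {R : Type*} [CommSemiring R] {ι : Type*} [Fintype ι] [DecidableEq ι]
    (N : ι → ℕ) (f : ι → ℕ → R) :
    ∑ q ∈ box N, ∏ a, f a (q a) = ∏ a, ∑ k ∈ Finset.range (N a), f a k := by
  rw [Finset.prod_univ_sum]
  rfl

/-- The value of a polynomial. -/
theorem G4_eval {K : Type*} [Field K] {L : Type*} [Field L] [Algebra K L] (p : Polynomial K)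
    (N : ℕ) (h : p.natDegree < N) (x : L) :
    ∑ k ∈ Finset.range N, x ^ k * algebraMap K L (p.coeff k) = Polynomial.aeval x p := by
  rw [Polynomial.aeval_eq_sum_range' h]
  refine Finset.sum_congr rfl fun k _ => ?_
  rw [Algebra.smul_def, mul_comm]

/-- One unknown: the claim of the proof of `expansion_zero`. -/
theorem G4_claim {K : Type*} [Field K] (W : Fin 2 → WeierstrassCurve K)
    {L : Type*} [Field L] [Algebra K L] (n J : ℕ) {m : ℕ} (j : Fin m → ℕ) (hj : ∀ i, j i ≤ J)
    (X : Fin 2 → L) (c : Fin m × Fin 2 → Bool)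
    (γ : Fin m × Fin 2 → ℕ) (i : Fin m) (hi : ∀ t, γ (i, t) < 4 ^ (J - j i))
    (T : Fin m × Fin 2 → ℕ → L)
    (hT : ∀ t k, T (i, t) k = TT (c (i, t)) (8 * n * 4 ^ (J - j i)) (γ (i, t)) k
        (mu (W t) (j i) ![X t, 1]))
    (e : AA m → ℕ) (he : e ∈ box (fun a => DG n J j a + 1)) :
    (∏ t, X t ^ e (none, t)) * ∏ a : Fin m × Fin 2, T a (e (some a.1, a.2)) =
      ∑ q ∈ box (DQ n J j i), ((∏ t, X t ^ q (none, t)) *
        ∏ i', ∏ t, (if i' = i then (if q (some i', t) = γ (i', t) then 1 else 0)
          else T (i', t) (q (some i', t)))) *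
            algebraMap K L (ME W n J j i (fun t => c (i, t)) q e) := by
  classical
  have hbox : ∀ a, e a < DG n J j a + 1 := by
    intro a
    exact Finset.mem_range.1 (Fintype.mem_piFinset.1 he a)
  set P : Fin 2 → Polynomial K := fun t => Polynomial.X ^ e (none, t) *
    TT (c (i, t)) (8 * n * 4 ^ (J - j i)) (γ (i, t)) (e (some i, t))
      (mu (W t) (j i) ![(Polynomial.X : Polynomial K), 1]) with hP
  -- the factors
  set f : AA m → ℕ → L := fun a k => a.1.elim (X a.2 ^ k * algebraMap K L ((P a.2).coeff k))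
    (fun i' => if i' = i then (if k = γ (i', a.2) then 1 else 0)
      else (if k = e (some i', a.2) then T (i', a.2) k else 0)) with hf
  have h1 : ∀ q ∈ box (DQ n J j i), ((∏ t, X t ^ q (none, t)) *
        ∏ i', ∏ t, (if i' = i then (if q (some i', t) = γ (i', t) then 1 else 0)
          else T (i', t) (q (some i', t)))) *
            algebraMap K L (ME W n J j i (fun t => c (i, t)) q e) = ∏ a, f a (q a) := by
    intro q _
    rw [G4_prod]
    simp only [hf, Option.elim_none, Option.elim_some]
    unfold ME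
    by_cases hc : ∀ i', i' ≠ i → ∀ t, q (some i', t) = e (some i', t)
    · rw [if_pos hc]
      by_cases hg : ∀ t, q (some i, t) = γ (i, t)
      · have e1 : ∀ t, (Polynomial.X ^ e (none, t) * TT (c (i, t)) (8 * n * 4 ^ (J - j i))
            (q (some i, t)) (e (some i, t))
              (mu (W t) (j i) ![(Polynomial.X : Polynomial K), 1])).coeff (q (none, t)) =
              (P t).coeff (q (none, t)) := by
          intro t
          rw [hg t]
        simp only [e1]
        rw [map_prod, Finset.prod_mul_distrib, mul_right_comm]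
        congr 1
        refine Finset.prod_congr rfl fun i' _ => Finset.prod_congr rfl fun t _ => ?_
        by_cases hii : i' = i
        · rw [if_pos hii, if_pos hii]
        · rw [if_neg hii, if_neg hii, if_pos (hc i' hii t)]
      · obtain ⟨t, ht⟩ := not_forall.1 hg
        have z1 : ∏ i', ∏ t, (if i' = i then (if q (some i', t) = γ (i', t) then (1 : L) else 0)
            else T (i', t) (q (some i', t))) = 0 := by
          refine Finset.prod_eq_zero (Finset.mem_univ i) (Finset.prod_eq_zero (Finset.mem_univ t) ?_)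
          rw [if_pos rfl, if_neg ht]
        have z2 : ∏ i', ∏ t, (if i' = i then (if q (some i', t) = γ (i', t) then (1 : L) else 0)
            else (if q (some i', t) = e (some i', t) then T (i', t) (q (some i', t)) else 0)) =
              0 := by
          refine Finset.prod_eq_zero (Finset.mem_univ i) (Finset.prod_eq_zero (Finset.mem_univ t) ?_)
          rw [if_pos rfl, if_neg ht]
        rw [z1, z2, mul_zero, zero_mul, mul_zero]
    · rw [if_neg hc, map_zero, mul_zero]
      obtain ⟨i', hi'⟩ := not_forall.1 hc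
      obtain ⟨hii, hi''⟩ := Classical.not_imp.1 hi'
      obtain ⟨t, ht⟩ := not_forall.1 hi''
      have z2 : ∏ i', ∏ t, (if i' = i then (if q (some i', t) = γ (i', t) then (1 : L) else 0)
          else (if q (some i', t) = e (some i', t) then T (i', t) (q (some i', t)) else 0)) =
            0 := by
        refine Finset.prod_eq_zero (Finset.mem_univ i') (Finset.prod_eq_zero (Finset.mem_univ t) ?_)
        rw [if_neg hii, if_neg ht]
      rw [z2, mul_zero]
  rw [Finset.sum_congr rfl h1, G4_box_prod, G4_prod]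
  -- the sums
  have hbj : 8 * n * 4 ^ (J - j i) * 4 ^ j i = 8 * n * 4 ^ J := b_mul_pow n J m j i (hj i)
  have s0 : ∀ t, ∑ k ∈ Finset.range (DQ n J j i (none, t)), f (none, t) k =
      X t ^ e (none, t) * T (i, t) (e (some i, t)) := by
    intro t
    have hei : e (some i, t) ≤ 8 * n * 4 ^ (J - j i) := Nat.lt_succ_iff.1 (hbox (some i, t))
    have he0 : e (none, t) ≤ 8 * n * 4 ^ J := Nat.lt_succ_iff.1 (hbox (none, t))
    have hdeg : (P t).natDegree < DQ n J j i (none, t) := by
      have d1 : (P t).natDegree ≤ e (none, t) + 8 * n * 4 ^ (J - j i) * 4 ^ j i := by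
        refine Polynomial.natDegree_mul_le.trans (Nat.add_le_add ?_ ?_)
        · exact Polynomial.natDegree_X_pow_le _
        · exact natDegree_TT_le (W t) _ _ _ _ _ hei
      rw [hbj] at d1
      have d2 : DQ n J j i (none, t) = 2 * (8 * n * 4 ^ J) + 1 := rfl
      rw [d2]
      omega
    have e1 := G4_eval (P t) _ hdeg (X t)
    simp only [hf, Option.elim_none]
    rw [e1]
    simp only [hP]
    rw [map_mul, map_pow, Polynomial.aeval_X, hT]
    congr 1
    have e2 := map_TT (Polynomial.aeval (X t) : Polynomial K →ₐ[K] L).toRingHom (c (i, t))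
      (8 * n * 4 ^ (J - j i)) (γ (i, t)) (e (some i, t))
      (mu (W t) (j i) ![(Polynomial.X : Polynomial K), 1])
    refine Eq.trans e2 ?_
    congr 1
    funext k
    exact aeval_mu_X (W t) (j i) (X t) k
  have s1 : ∀ i' t, ∑ k ∈ Finset.range (DQ n J j i (some i', t)), f (some i', t) k =
      if i' = i then 1 else T (i', t) (e (some i', t)) := by
    intro i' t
    simp only [hf, Option.elim_some]
    by_cases hii : i' = i
    · subst hii
      have d2 : DQ n J j i' (some i', t) = 4 ^ (J - j i') := by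
        unfold DQ
        simp
      simp only [if_true, d2]
      rw [Finset.sum_ite_eq', if_pos (Finset.mem_range.2 (hi t))]
    · have d2 : DQ n J j i (some i', t) = DG n J j (some i', t) + 1 := by
        unfold DQ DG
        simp [hii]
      simp only [if_neg hii, d2]
      rw [Finset.sum_ite_eq', if_pos (Finset.mem_range.2 (hbox (some i', t)))]
  simp only [s0, s1]
  rw [Finset.prod_mul_distrib, mul_assoc]
  congr 1
  rw [Fintype.prod_prod_type]
  have p1 : ∏ t, T (i, t) (e (some i, t)) =
      ∏ i', ∏ t, (if i' = i then T (i', t) (e (some i', t)) else 1) := by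
    rw [Finset.prod_eq_single i]
    · simp only [if_true]
    · intro i' _ hii
      simp only [if_neg hii, Finset.prod_const_one]
    · intro h
      exact absurd (Finset.mem_univ i) h
  rw [p1, ← Finset.prod_mul_distrib]
  refine Finset.prod_congr rfl fun i' _ => ?_
  rw [← Finset.prod_mul_distrib]
  refine Finset.prod_congr rfl fun t _ => ?_
  by_cases hii : i' = i
  · rw [if_pos hii, if_pos hii, mul_one]
  · rw [if_neg hii, if_neg hii, one_mul]

/-- The expansion coefficients vanish.

Proof. Let `i` be as in the hypothesis, `b = 8 n 4^J`, `b' i' = 8 n 4^(J - j i')`. By `sum_pe` the left side is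
`∑_e x_e (∏_t P_{e,t}(X_t)) (∏_{i' ≠ i, t} TT (c (i',t)) (b' i') (γ (i',t)) (e (some i',t)) (mu ..))` with
`P_{e,t} = X^(e (none,t)) * TT (c (i,t)) (b' i) (γ (i,t)) (e (some i,t)) (mu (W t) (j i) ![X, 1])` in `K[X]`
(`map_TT`, `aeval_mu_X`), of degree at most `2 b` (`natDegree_TT_le`). Claim: for every `e` in the box
`(∏_t P_{e,t}(X_t)) (∏_{i' ≠ i, t} TT ..) = ∑_{q ∈ box (DQ n J j i)} w q * ME W n J j i (fun t => c (i,t)) q e`
where `w q = ∏_a w_a (q a)`, `w_(none,t) q = X_t ^ q`, `w_(some i,t) q = if q = γ (i,t) then 1 else 0`,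
`w_(some i',t) q = TT (c (i',t)) (b' i') (γ (i',t)) q (mu (W t) (j i') ![X t, 1])` for `i' ≠ i`: the right side
is `∑_q ∏_a f_a (q a)` with `f_(none,t) q = X_t^q coeff_q P_{e,t}` (using `q (some i,t) = γ (i,t)`),
`f_(some i,t) q = if q = γ (i,t) then 1 else 0`, `f_(some i',t) q = if q = e (some i',t) then TT .. q .. else 0`,
and `∑_q ∏_a f_a (q a) = ∏_a ∑_{q < DQ a} f_a q` (`Finset.prod_univ_sum`); `∑_{q ≤ 2b} X_t^q coeff_q P = P(X_t)`
(`Polynomial.aeval_eq_sum_range'`). Interchange the sums: `∑_q w q (∑_e ME q e * x_e) = 0` by `CG`. -/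
theorem expansion_zero {K : Type*} [Field K] (W : Fin 2 → WeierstrassCurve K)
    {L : Type*} [Field L] [Algebra K L] (n J : ℕ) {m : ℕ} (j : Fin m → ℕ) (hj : ∀ i, j i ≤ J)
    (x : (AA m → ℕ) → K) (hx : CG W n J j x) (X : Fin 2 → L) (c : Fin m × Fin 2 → Bool)
    (γ : Fin m × Fin 2 → ℕ) (h : ∃ i, ∀ t, γ (i, t) < 4 ^ (J - j i)) :
    ∑ e ∈ (pe X (FG n J j x)).support, coeff e (pe X (FG n J j x)) *
      ∏ a, TT (c a) (8 * n * 4 ^ (J - j a.1)) (γ a) (e a)
        (mu (W a.2) (j a.1) ![X a.2, 1]) = 0 := by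
  obtain ⟨i, hi⟩ := h
  rw [sum_pe n J j x X (fun e => ∏ a, TT (c a) (8 * n * 4 ^ (J - j a.1)) (γ a) (e a)
        (mu (W a.2) (j a.1) ![X a.2, 1]))]
  have h1 := fun e he => G4_claim W n J j hj X c γ i hi
    (fun a k => TT (c a) (8 * n * 4 ^ (J - j a.1)) (γ a) k (mu (W a.2) (j a.1) ![X a.2, 1]))
    (fun t k => rfl) e he
  have h2 : ∀ e ∈ box (fun a => DG n J j a + 1), algebraMap K L (x e) *
        (∏ t, X t ^ e (none, t)) * ∏ a : Fin m × Fin 2,
          TT (c a) (8 * n * 4 ^ (J - j a.1)) (γ a) (e (some a.1, a.2))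
            (mu (W a.2) (j a.1) ![X a.2, 1]) =
      ∑ q ∈ box (DQ n J j i), ((∏ t, X t ^ q (none, t)) *
        ∏ i', ∏ t, (if i' = i then (if q (some i', t) = γ (i', t) then 1 else 0)
          else TT (c (i', t)) (8 * n * 4 ^ (J - j i')) (γ (i', t)) (q (some i', t))
            (mu (W t) (j i') ![X t, 1]))) *
            algebraMap K L (ME W n J j i (fun t => c (i, t)) q e * x e) := by
    intro e he
    rw [mul_assoc, h1 e he, Finset.mul_sum]
    refine Finset.sum_congr rfl fun q _ => ?_
    rw [map_mul]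
    ring
  rw [Finset.sum_congr rfl h2, Finset.sum_comm]
  refine Finset.sum_eq_zero fun q hq => ?_
  rw [← Finset.mul_sum, ← map_sum, hx i (fun t => c (i, t)) q hq, map_zero, mul_zero]

end Pool.Agent.Lib.MP_17a322_nt.VJ
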