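import Pool.Agent.Lib.MP_17a322_nt.VJ.G2
import Pool.Agent.Lib.MP_17a322_nt.VJ.G4

/-!
The local inequality of stage 0.
-/

universe u

namespace Pool.Agent.Lib.MP_17a322_nt.VJ

open MvPolynomial Height

/-- Real numbers. Proof: for one `i`, with `e_t = γ (i,t) - s (i,t)`, `e = e_0 + e_1`,
`f = k - (s (i,0) + s (i,1))` one has `f ≤ e ≤ 2 b` (some `γ (i,t) ≥ k`), and
`(D_0^e_0 D_1^e_1)^2 ≤ (Λ^17 / p)^e = Λ^(17 e) / p^e ≤ Λ^(34 b) / p^f`. Product over `i`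
(`Fintype.prod_prod_type`, `Fin.prod_univ_two`). -/
theorem prod_dl_le {m : ℕ} (b k : Fin m → ℕ) (D : Fin m × Fin 2 → ℝ) (hD : ∀ a, 0 ≤ D a) (Λ : ℝ)
    (hΛ : 1 ≤ Λ) (p : Fin m → ℝ) (hp : ∀ i, 1 ≤ p i) (h : ∀ i t, D (i, t) ^ 2 ≤ Λ ^ 17 / p i)
    (γ s : Fin m × Fin 2 → ℕ) (hγ : ∀ a, γ a ≤ b a.1) (hex : ∀ i, ∃ t, k i ≤ γ (i, t)) :
    (∏ a, D a ^ (γ a - s a)) ^ 2 ≤
      ∏ i, (Λ ^ (34 * b i) / p i ^ (k i - (s (i, 0) + s (i, 1)))) := by
  have hone : ∀ i, (∏ t, D (i, t) ^ (γ (i, t) - s (i, t))) ^ 2 ≤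
      Λ ^ (34 * b i) / p i ^ (k i - (s (i, 0) + s (i, 1))) := by
    intro i
    have hp0 : 0 < p i := lt_of_lt_of_le one_pos (hp i)
    have hΛ0 : 0 < Λ := lt_of_lt_of_le one_pos hΛ
    have hq : 0 ≤ Λ ^ 17 / p i := by positivity
    rw [Fin.prod_univ_two]
    set e0 := γ (i, 0) - s (i, 0) with he0
    set e1 := γ (i, 1) - s (i, 1) with he1
    have h1 : (D (i, 0) ^ e0 * D (i, 1) ^ e1) ^ 2 = (D (i, 0) ^ 2) ^ e0 * (D (i, 1) ^ 2) ^ e1 := by
      rw [mul_pow, ← pow_mul, ← pow_mul, ← pow_mul, ← pow_mul, mul_comm e0 2, mul_comm e1 2]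
    have h2 : (D (i, 0) ^ 2) ^ e0 * (D (i, 1) ^ 2) ^ e1 ≤ (Λ ^ 17 / p i) ^ (e0 + e1) := by
      rw [pow_add]
      exact mul_le_mul (pow_le_pow_left₀ (sq_nonneg _) (h i 0) e0)
        (pow_le_pow_left₀ (sq_nonneg _) (h i 1) e1) (by positivity) (by positivity)
    have hle : e0 + e1 ≤ 2 * b i := by
      have g0 := hγ (i, 0)
      have g1 := hγ (i, 1)
      simp only at g0 g1
      omega
    have hge : k i - (s (i, 0) + s (i, 1)) ≤ e0 + e1 := by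
      obtain ⟨t, ht⟩ := hex i
      fin_cases t
      · have ht' : k i ≤ γ (i, 0) := ht
        omega
      · have ht' : k i ≤ γ (i, 1) := ht
        omega
    rw [h1]
    refine h2.trans ?_
    rw [div_pow, ← pow_mul]
    refine div_le_div₀ (by positivity) ?_ (by positivity) ?_
    · exact pow_le_pow_right₀ hΛ (by omega)
    · exact pow_le_pow_right₀ (hp i) hge
  rw [Fintype.prod_prod_type, ← Finset.prod_pow]
  exact Finset.prod_le_prod (fun i _ => sq_nonneg _) fun i _ => hone i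

/-- `dl` for proportional vectors. -/
theorem dl_smul {L : Type*} [Field L] (v : AbsoluteValue L ℝ) (c : L) (hc : c ≠ 0)
    (R : Fin 2 → L) (ξ : L) : dl v (c • R) ξ = dl v R ξ := by
  have h0 : v c ≠ 0 := (v.ne_zero_iff).2 hc
  unfold dl
  rw [vn_smul, Pi.smul_apply, Pi.smul_apply, smul_eq_mul, smul_eq_mul]
  have h1 : c * R 1 * ξ - c * R 0 = c * (R 1 * ξ - R 0) := by ring
  rw [h1, map_mul, mul_assoc, mul_div_mul_left _ _ h0]

/-- Size of the partially evaluated polynomial: `SN.aeval_le'` (A3) for the seminorm `NV v` on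
`MvPolynomial (Fin m × Fin 2) L`; `NV v (C x) = v x`, `NV v (X a) = 1`. -/
theorem NV_pe_le {K : Type*} [Field K] {L : Type*} [Field L] [Algebra K L]
    (v : AbsoluteValue L ℝ) (b : ℕ) {m : ℕ} (X : Fin 2 → L) (F : MvPolynomial (AA m) K)
    (hF : ∀ t, F.degreeOf (none, t) ≤ b) :
    NV v (pe X F) ≤ NV v (MvPolynomial.map (algebraMap K L) F) *
      ∏ t, (max 1 (v (X t))) ^ b := by
  have h1 := (SN_NV v (σ := Fin m × Fin 2)).aeval_le' F (fun a => F.degreeOf a)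
    (fun a => le_refl _)
    (fun a : AA m => a.1.elim (C (X a.2)) fun i => MvPolynomial.X (i, a.2))
  refine h1.trans ?_
  refine mul_le_mul_of_nonneg_left ?_ ((SN_NV v).nonneg _)
  rw [G4_prod]
  simp only [Option.elim_none, Option.elim_some, NV_C, NV_X, max_self, one_pow,
    Finset.prod_const_one, mul_one]
  refine Finset.prod_le_prod (fun t _ => by positivity) fun t _ => ?_
  exact pow_le_pow_right₀ (le_max_left _ _) (hF t)

/-- The local inequality.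

Proof. Let `X t = (z t).xRep 0`, `R (i,t) = mu (W t) (j i) ![X t, 1] = c • (2 ^ j i • z t).xRep` with `c ≠ 0`
(`mu_xRep`, `xRep_eq`), `ξ (i,t) = (Q i t).xRep 0`. Then `dl v (R (i,t)) (ξ (i,t))` is
`v (wd ..) / (vn .. * vn ..)` for the points `2 ^ j i • z t` and `Q i t`, so by `local_delta` (E5)
`dl^2 ≤ lc ^ 17 / vn v (P i t).xRep ≤ Λ ^ 17 / p i`, where `Λ = ∏ t, lc (W t) v` and
`p i = min (vn (P i 0)) (vn (P i 1)) ≥ 1`. Apply `local_multi` (G2) to `Φ = pe X F`, `d a = 8 n 4^(J - j a.1)`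
(`degreeOf_pe_le`, `degreeOf_FG_le`), `Q γ = ∃ i, ∀ t, γ (i,t) < 4^(J - j i)` (`expansion_zero`, G4) and
`M = sqrt (∏ i, Λ ^ (34 b_i) / p i ^ (..))` (`prod_dl_le`; `k i = 4^(J - j i)`). Square it:
`v(..)^2 ≤ cst(2)^(10 ∑ d) NV(Φ)^2 ∏ (max 1 |ξ a|)^(2 d a) * M^2`, `∑ d = 2 ∑ b_i`,
`cst(2)^(20 ∑ b_i) Λ^(34 ∑ b_i) ≤ Λ^(54 ∑ b_i) ≤ Λ^(54 m b)` (`sum_DG_le`), and `NV_pe_le`, `vn_xRep`. -/
theorem local_bound {K : Type u} [Field K] (W : Fin 2 → WeierstrassCurve K)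
    [∀ t, (W t).IsElliptic] {L : Type u} [Field L] [DecidableEq L] [Algebra K L]
    (V : Fin 2 → WeierstrassCurve L) (hV : ∀ t, (W t).map (algebraMap K L) = V t)
    (v : AbsoluteValue L ℝ) (n J : ℕ) {m : ℕ} (j : Fin m → ℕ) (hj : ∀ i, j i ≤ J)
    (x : (AA m → ℕ) → K) (hx : CG W n J j x) (z : ∀ t, (V t).toAffine.Point)
    (P Q : Fin m → ∀ t, (V t).toAffine.Point) (hP : ∀ i t, P i t = 2 ^ j i • z t + Q i t)
    (hz : ∀ t, z t ≠ 0) (hQ : ∀ i t, Q i t ≠ 0) (s : Fin m × Fin 2 →₀ ℕ) :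
    v (coeff s (tr (fun a => (Q a.1 a.2).xRep 0)
      (pe (fun t => (z t).xRep 0) (FG n J j x)))) ^ 2 *
        ∏ i, (min (vn v (P i 0).xRep) (vn v (P i 1).xRep)) ^
          (4 ^ (J - j i) - (s (i, 0) + s (i, 1))) ≤
      (∏ t, lc (W t) v) ^ (54 * m * (8 * n * 4 ^ J)) *
        NV v (MvPolynomial.map (algebraMap K L) (FG n J j x)) ^ 2 *
          (∏ t, vn v (z t).xRep ^ (2 * (8 * n * 4 ^ J))) *
            ∏ a : Fin m × Fin 2, vn v (Q a.1 a.2).xRep ^ (2 * (8 * n * 4 ^ (J - j a.1))) := by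
  classical
  set X : Fin 2 → L := fun t => (z t).xRep 0 with hX
  set F := FG n J j x with hF
  set Λ : ℝ := ∏ t, lc (W t) v with hΛ
  set p : Fin m → ℝ := fun i => min (vn v (P i 0).xRep) (vn v (P i 1).xRep) with hp
  set R : Fin m × Fin 2 → Fin 2 → L := fun a => mu (W a.2) (j a.1) ![X a.2, 1] with hR
  set ξ : Fin m × Fin 2 → L := fun a => (Q a.1 a.2).xRep 0 with hξ
  have hlc : ∀ t, 1 ≤ lc (W t) v := fun t => one_le_lc (W t) v
  have hΛ1 : 1 ≤ Λ := by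
    rw [hΛ, Fin.prod_univ_two]
    exact one_le_mul_of_one_le_of_one_le (hlc 0) (hlc 1)
  have hlcΛ : ∀ t, lc (W t) v ≤ Λ := by
    intro t
    rw [hΛ, Fin.prod_univ_two]
    fin_cases t
    · exact le_mul_of_one_le_right (zero_le_one.trans (hlc 0)) (hlc 1)
    · exact le_mul_of_one_le_left (zero_le_one.trans (hlc 1)) (hlc 0)
  have hcst : cst v 2 ≤ Λ := (cst_two_le_lc (W 0) v).trans (hlcΛ 0)
  have hp1 : ∀ i, 1 ≤ p i := fun i =>
    le_min (one_le_vn_xRep v (P i 0)) (one_le_vn_xRep v (P i 1))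
  have hpt : ∀ i t, p i ≤ vn v (P i t).xRep := by
    intro i t
    fin_cases t
    · exact min_le_left _ _
    · exact min_le_right _ _
  have hRc : ∀ i t, ∃ c : L, c ≠ 0 ∧ R (i, t) = c • (2 ^ j i • z t).xRep := by
    intro i t
    obtain ⟨c, hc, h⟩ := mu_xRep (W t) (V t) (hV t) (j i) (z t)
    refine ⟨c, hc, ?_⟩
    rw [← h, xRep_eq (hz t)]
  have hR0 : ∀ a, R a ≠ 0 := by
    rintro ⟨i, t⟩ h
    obtain ⟨c, hc, h'⟩ := hRc i t
    rw [h'] at h
    exact (smul_ne_zero hc (xRep_ne_zero _)) h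
  have hvQ : ∀ i t, vn v (Q i t).xRep = max 1 (v (ξ (i, t))) := by
    intro i t
    rw [vn_xRep v (hQ i t), max_comm]
  have hvz : ∀ t, vn v (z t).xRep = max 1 (v (X t)) := by
    intro t
    rw [vn_xRep v (hz t), max_comm]
  have hdl : ∀ i t, dl v (R (i, t)) (ξ (i, t)) ^ 2 ≤ Λ ^ 17 / p i := by
    intro i t
    obtain ⟨c, hc, h'⟩ := hRc i t
    rw [h', dl_smul v c hc]
    have h1 := local_delta (W t) (V t) (hV t) v (2 ^ j i • z t) (Q i t)
    rw [← hP i t] at h1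
    have h2 : dl v (2 ^ j i • z t).xRep (ξ (i, t)) =
        v (wd (2 ^ j i • z t).xRep (Q i t).xRep) /
          (vn v (2 ^ j i • z t).xRep * vn v (Q i t).xRep) := by
      unfold dl
      rw [hvQ i t]
      congr 1
      unfold wd
      rw [xRep_one (hQ i t), mul_one, ← v.map_neg]
      congr 1
      ring
    rw [h2]
    refine h1.trans ?_
    refine div_le_div₀ (by positivity) ?_ (lt_of_lt_of_le one_pos (hp1 i)) (hpt i t)
    exact pow_le_pow_left₀ (zero_le_one.trans (hlc t)) (hlcΛ t) 17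
  set k : Fin m → ℕ := fun i => 4 ^ (J - j i) with hk
  set b : Fin m → ℕ := fun i => 8 * n * 4 ^ (J - j i) with hb
  set M2 : ℝ := ∏ i, (Λ ^ (34 * b i) / p i ^ (k i - (s (i, 0) + s (i, 1)))) with hM2
  have hM20 : 0 ≤ M2 := Finset.prod_nonneg fun i _ =>
    div_nonneg (pow_nonneg (zero_le_one.trans hΛ1) _) (pow_nonneg (zero_le_one.trans (hp1 i)) _)
  have hdeg : ∀ a : Fin m × Fin 2, (pe X F).degreeOf a ≤ b a.1 := fun a =>
    (degreeOf_pe_le X F a).trans (degreeOf_FG_le n J j x (some a.1, a.2))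
  have key := local_multi v (fun a : Fin m × Fin 2 => b a.1) R hR0 ξ (pe X F) hdeg s
    (fun γ => ∃ i, ∀ t, γ (i, t) < 4 ^ (J - j i))
    (fun c γ _ hγ => expansion_zero W n J j hj x hx X c γ hγ)
    (√M2) (Real.sqrt_nonneg _) (by
      intro γ hγ hnot
      refine Real.le_sqrt_of_sq_le ?_
      refine prod_dl_le b k (fun a => dl v (R a) (ξ a)) (fun a => dl_nonneg v _ _) Λ hΛ1 p hp1
        hdl γ s hγ ?_
      intro i
      by_contra hc
      refine hnot ⟨i, fun t => ?_⟩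
      by_contra hc'
      exact hc ⟨t, not_lt.1 hc'⟩)
  have hsum : ∑ a : Fin m × Fin 2, b a.1 = 2 * ∑ i, b i := by
    rw [Fintype.sum_prod_type]
    simp only [Finset.sum_const, Finset.card_univ, Fintype.card_fin, smul_eq_mul]
    rw [Finset.mul_sum]
  have hNV0 : 0 ≤ NV v (pe X F) := (SN_NV v).nonneg _
  have hcst0 : 0 ≤ cst v 2 := cst_nonneg v 2
  have hpr0 : 0 ≤ ∏ a : Fin m × Fin 2, (max 1 (v (ξ a))) ^ b a.1 :=
    Finset.prod_nonneg fun a _ => by positivity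
  -- square
  have hsq : v (coeff s (tr ξ (pe X F))) ^ 2 ≤
      cst v 2 ^ (20 * ∑ i, b i) * NV v (pe X F) ^ 2 *
        (∏ a : Fin m × Fin 2, (max 1 (v (ξ a))) ^ (2 * b a.1)) * M2 := by
    have h1 := pow_le_pow_left₀ (v.nonneg _) key 2
    refine h1.trans (le_of_eq ?_)
    rw [mul_pow, mul_pow, mul_pow, Real.sq_sqrt hM20, ← pow_mul, ← Finset.prod_pow]
    congr 2
    · congr 2
      rw [hsum]
      ring
    · refine Finset.prod_congr rfl fun a _ => ?_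
      rw [← pow_mul, mul_comm]
  have hprod : M2 * ∏ i, p i ^ (4 ^ (J - j i) - (s (i, 0) + s (i, 1))) = Λ ^ (34 * ∑ i, b i) := by
    rw [hM2, ← Finset.prod_mul_distrib, Finset.mul_sum, ← Finset.prod_pow_eq_pow_sum]
    refine Finset.prod_congr rfl fun i _ => ?_
    exact div_mul_cancel₀ _ (pow_pos (lt_of_lt_of_le one_pos (hp1 i)) _).ne'
  have hbsum : ∑ i, b i ≤ m * (8 * n * 4 ^ J) := by
    have h1 : ∀ i ∈ (Finset.univ : Finset (Fin m)), b i ≤ 8 * n * 4 ^ J :=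
      fun i _ => sum_DG_le n J m j i
    refine (Finset.sum_le_card_nsmul _ _ _ h1).trans ?_
    rw [Finset.card_univ, Fintype.card_fin, smul_eq_mul]
  have hconst : cst v 2 ^ (20 * ∑ i, b i) * Λ ^ (34 * ∑ i, b i) ≤
      Λ ^ (54 * m * (8 * n * 4 ^ J)) := by
    refine (mul_le_mul_of_nonneg_right (pow_le_pow_left₀ hcst0 hcst _)
      (pow_nonneg (zero_le_one.trans hΛ1) _)).trans ?_
    rw [← pow_add]
    refine pow_le_pow_right₀ hΛ1 ?_
    have h2 : 20 * ∑ i, b i + 34 * ∑ i, b i = 54 * ∑ i, b i := by ring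
    rw [h2, mul_assoc]
    exact Nat.mul_le_mul_left 54 hbsum
  have hNV : NV v (pe X F) ^ 2 ≤ NV v (MvPolynomial.map (algebraMap K L) F) ^ 2 *
      ∏ t, vn v (z t).xRep ^ (2 * (8 * n * 4 ^ J)) := by
    have h1 := NV_pe_le v (8 * n * 4 ^ J) X F (fun t => degreeOf_FG_le n J j x (none, t))
    have h2 := pow_le_pow_left₀ hNV0 h1 2
    refine h2.trans (le_of_eq ?_)
    rw [mul_pow, ← Finset.prod_pow]
    congr 1
    refine Finset.prod_congr rfl fun t _ => ?_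
    rw [hvz t, ← pow_mul, mul_comm 2]
  have hQprod : ∏ a : Fin m × Fin 2, (max 1 (v (ξ a))) ^ (2 * b a.1) =
      ∏ a : Fin m × Fin 2, vn v (Q a.1 a.2).xRep ^ (2 * (8 * n * 4 ^ (J - j a.1))) := by
    refine Finset.prod_congr rfl fun a _ => ?_
    rw [hvQ a.1 a.2]
  have hpp : 0 ≤ ∏ i, p i ^ (4 ^ (J - j i) - (s (i, 0) + s (i, 1))) :=
    Finset.prod_nonneg fun i _ => pow_nonneg (zero_le_one.trans (hp1 i)) _
  rw [← hQprod]
  refine (mul_le_mul_of_nonneg_right hsq hpp).trans ?_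
  have hpr1 : 0 ≤ ∏ a : Fin m × Fin 2, (max 1 (v (ξ a))) ^ (2 * b a.1) :=
    Finset.prod_nonneg fun a _ => by positivity
  have hz0 : 0 ≤ ∏ t, vn v (z t).xRep ^ (2 * (8 * n * 4 ^ J)) :=
    Finset.prod_nonneg fun t _ => pow_nonneg (vn_nonneg v _) _
  calc cst v 2 ^ (20 * ∑ i, b i) * NV v (pe X F) ^ 2 *
        (∏ a : Fin m × Fin 2, (max 1 (v (ξ a))) ^ (2 * b a.1)) * M2 *
          ∏ i, p i ^ (4 ^ (J - j i) - (s (i, 0) + s (i, 1)))
      = (cst v 2 ^ (20 * ∑ i, b i) * Λ ^ (34 * ∑ i, b i)) * NV v (pe X F) ^ 2 *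
        (∏ a : Fin m × Fin 2, (max 1 (v (ξ a))) ^ (2 * b a.1)) := by
          rw [← hprod]
          ring
    _ ≤ Λ ^ (54 * m * (8 * n * 4 ^ J)) * (NV v (MvPolynomial.map (algebraMap K L) F) ^ 2 *
          ∏ t, vn v (z t).xRep ^ (2 * (8 * n * 4 ^ J))) *
        (∏ a : Fin m × Fin 2, (max 1 (v (ξ a))) ^ (2 * b a.1)) := by
          refine mul_le_mul_of_nonneg_right ?_ hpr1
          exact mul_le_mul hconst hNV (sq_nonneg _) (pow_nonneg (zero_le_one.trans hΛ1) _)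
    _ = Λ ^ (54 * m * (8 * n * 4 ^ J)) * NV v (MvPolynomial.map (algebraMap K L) F) ^ 2 *
          (∏ t, vn v (z t).xRep ^ (2 * (8 * n * 4 ^ J))) *
        (∏ a : Fin m × Fin 2, (max 1 (v (ξ a))) ^ (2 * b a.1)) := by ring

end Pool.Agent.Lib.MP_17a322_nt.VJ
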