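import Pool.Agent.Lib.MP_17a322_nt.VJ.E6
import Pool.Agent.Lib.MP_17a322_nt.VJ.E7

/-!
The height with respect to the origin.
-/

universe u

namespace Pool.Agent.Lib.MP_17a322_nt.VJ

open MvPolynomial Height

section

variable {L : Type*} [Field L] [AdmissibleAbsValues L] {V : Fin 2 → WeierstrassCurve L}
  (P : ∀ t, (V t).toAffine.Point)

omit [AdmissibleAbsValues L] in
theorem G6a_xRep_one {W : WeierstrassCurve L} {Q : W.toAffine.Point} (hQ : Q ≠ 0) :
    Q.xRep 1 = 1 := by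
  rcases Q with _ | ⟨x, y, h⟩
  · exact absurd rfl hQ
  · simp [WeierstrassCurve.Affine.Point.xRep_some]

omit [AdmissibleAbsValues L] in
theorem G6a_vec_ne (a b : L) : (![1, a, b] : Fin 3 → L) ≠ 0 := by
  intro h
  have := congrFun h 0
  simp at this

theorem G6a_one_le {W : WeierstrassCurve L} {Q : W.toAffine.Point} (hQ : Q ≠ 0)
    (v : AbsoluteValue L ℝ) : 1 ≤ vn v Q.xRep := by
  unfold vn
  rw [G6a_xRep_one hQ, map_one]
  exact le_max_right _ _

theorem G6a_sup (hP : ∀ t, P t ≠ 0) (v : AbsoluteValue L ℝ) :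
    max (vn v (P 0).xRep) (vn v (P 1).xRep) =
      ⨆ i, v ((![1, (P 0).xRep 0, (P 1).xRep 0] : Fin 3 → L) i) := by
  unfold vn
  rw [G6a_xRep_one (hP 0), G6a_xRep_one (hP 1)]
  refine eq_of_forall_ge_iff fun c => ?_
  rw [ciSup_le_iff (Set.finite_range _).bddAbove]
  simp only [max_le_iff, Fin.forall_fin_succ, Matrix.cons_val_zero, Matrix.cons_val_succ,
    map_one, IsEmpty.forall_iff, and_true]
  tauto

theorem G6a_log_min (hP : ∀ t, P t ≠ 0) :
    (fun v : AbsoluteValue L ℝ => Real.log (min (vn v (P 0).xRep) (vn v (P 1).xRep))) =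
      fun v => (Real.log (vn v (P 0).xRep) + Real.log (vn v (P 1).xRep)) -
        Real.log (⨆ i, v ((![1, (P 0).xRep 0, (P 1).xRep 0] : Fin 3 → L) i)) := by
  funext v
  rw [← G6a_sup P hP v]
  have h0 : 0 < vn v (P 0).xRep := lt_of_lt_of_le one_pos (G6a_one_le (hP 0) v)
  have h1 : 0 < vn v (P 1).xRep := lt_of_lt_of_le one_pos (G6a_one_le (hP 1) v)
  rw [← Real.log_mul h0.ne' h1.ne', ← min_mul_max (vn v (P 0).xRep) (vn v (P 1).xRep),
    Real.log_mul (lt_min h0 h1).ne' (lt_max_of_lt_left h0).ne', add_sub_cancel_right]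

theorem FS_log_min (hP : ∀ t, P t ≠ 0) :
    FS (fun v : AbsoluteValue L ℝ => Real.log (min (vn v (P 0).xRep) (vn v (P 1).xRep))) := by
  rw [G6a_log_min P hP]
  exact FS_sub (FS_add (FS_log_vn (P 0).xRep_ne_zero) (FS_log_vn (P 1).xRep_ne_zero))
    (FS_log_iSup (G6a_vec_ne _ _))

/-- `log min (a, b) = log a + log b - log max (a, b)`; the maximum of `vn v (P 0).xRep` and
`vn v (P 1).xRep` is `⨆ i, v (![1, x_0, x_1] i)`; `gs_log_vn`, `gs_log_iSup`. -/
theorem gs_log_min (hP : ∀ t, P t ≠ 0) :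
    gs (fun v : AbsoluteValue L ℝ => Real.log (min (vn v (P 0).xRep) (vn v (P 1).xRep))) =
      hO P := by
  rw [G6a_log_min P hP, gs_sub (FS_add (FS_log_vn (P 0).xRep_ne_zero)
    (FS_log_vn (P 1).xRep_ne_zero)) (FS_log_iSup (G6a_vec_ne _ _)),
    gs_add (FS_log_vn (P 0).xRep_ne_zero) (FS_log_vn (P 1).xRep_ne_zero),
    gs_log_vn (P 0).xRep_ne_zero, gs_log_vn (P 1).xRep_ne_zero, gs_log_iSup (G6a_vec_ne _ _)]
  unfold hO HH
  rw [Fin.sum_univ_two]

theorem hO_nonneg (hP : ∀ t, P t ≠ 0) : 0 ≤ hO P := by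
  rw [← gs_log_min P hP]
  exact gs_nonneg fun v _ => Real.log_nonneg (le_min (G6a_one_le (hP 0) v) (G6a_one_le (hP 1) v))

theorem hO_le (hP : ∀ t, P t ≠ 0) (t : Fin 2) : hO P ≤ logHeight (P t).xRep := by
  rw [← gs_log_min P hP, ← gs_log_vn (P t).xRep_ne_zero]
  refine gs_le (FS_log_min P hP) (FS_log_vn (P t).xRep_ne_zero) fun v _ => ?_
  refine Real.log_le_log (lt_of_lt_of_le one_pos
    (le_min (G6a_one_le (hP 0) v) (G6a_one_le (hP 1) v))) ?_
  fin_cases t
  · exact min_le_left _ _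
  · exact min_le_right _ _

theorem two_hO_le (hP : ∀ t, P t ≠ 0) : 2 * hO P ≤ HH P := by
  unfold HH
  rw [Fin.sum_univ_two]
  linarith [hO_le P hP 0, hO_le P hP 1]

theorem HH_nonneg : 0 ≤ HH P :=
  Finset.sum_nonneg fun t _ => logHeight_xRep_nonneg (P t)

theorem logHeight_le_HH (t : Fin 2) : logHeight (P t).xRep ≤ HH P :=
  Finset.single_le_sum (f := fun t => logHeight (P t).xRep)
    (fun t _ => logHeight_xRep_nonneg (P t)) (Finset.mem_univ t)

end

section

variable {K L : Type u} [Field K] [NumberField K] [DecidableEq K] [Field L] [NumberField L]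
  [DecidableEq L] [Algebra K L] {W : Fin 2 → WeierstrassCurve K} {V : Fin 2 → WeierstrassCurve L}
  {f : ∀ t, (W t).toAffine.Point →+ (V t).toAffine.Point}

/-- Base change. -/
theorem HH_PB (hf : ∀ t, PB (W t) (V t) (f t)) (P : ∀ t, (W t).toAffine.Point) :
    HH (fun t => f t (P t)) = Module.finrank K L * HH P := by
  unfold HH
  rw [Finset.mul_sum]
  exact Finset.sum_congr rfl fun t _ => (hf t).logHeight (P t)

theorem hO_PB (hf : ∀ t, PB (W t) (V t) (f t)) (P : ∀ t, (W t).toAffine.Point) :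
    hO (fun t => f t (P t)) = Module.finrank K L * hO P := by
  unfold hO
  rw [HH_PB hf P, mul_sub]
  congr 1
  rw [← RV.logHeight_algebraMap]
  congr 1
  funext i
  fin_cases i
  · simp
  · exact hf 0 (P 0) 0
  · exact hf 1 (P 1) 0

end

/-- Elements whose power is `1` have height `0`. -/
theorem logHeight₁_of_pow_eq_one {L : Type*} [Field L] [AdmissibleAbsValues L] {x : L} {N : ℕ}
    (hN : 0 < N) (h : x ^ N = 1) : logHeight₁ x = 0 := by
  have h1 := logHeight₁_pow x N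
  rw [h, logHeight₁_one] at h1
  have h2 : (N : ℝ) ≠ 0 := Nat.cast_ne_zero.2 hN.ne'
  rcases mul_eq_zero.1 h1.symm with h3 | h3
  · exact absurd h3 h2
  · exact h3

end Pool.Agent.Lib.MP_17a322_nt.VJ
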