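import Pool.Agent.Lib.MP_17a322_nt.VJ.G5
import Pool.Agent.Lib.MP_17a322_nt.VJ.G6a

/-!
The global inequality of stage 0.
-/

universe u

namespace Pool.Agent.Lib.MP_17a322_nt.VJ

open MvPolynomial Height

/-- Proof. Let `y ≠ 0` be the Taylor coefficient. Take logarithms in `local_bound` (G5) for every
place `v` (all factors are positive: `NV_pos`, `vn_pos`, `one_le_lc`, `1 ≤ min ..`):
`2 log (v y) + ∑_i (..) log min_i ≤ 54 m b ∑_t log lc + 2 log NV + 2 b ∑_t log vn (z t) + 2 ∑_a b_a log vn (Q a)`.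
Sum over all places: `gs_le`, `gs_add`, `gs_sum`, `gs_const_mul`, `gs_log_abv` (product formula for `y`),
`gs_log_min`, `gs_log_vn`, definition of `nh`. -/
theorem global_ineq {K L : Type u} [Field K] [NumberField K] [Field L] [NumberField L]
    [DecidableEq L] [Algebra K L] (W : Fin 2 → WeierstrassCurve K) [∀ t, (W t).IsElliptic]
    (V : Fin 2 → WeierstrassCurve L) (hV : ∀ t, (W t).map (algebraMap K L) = V t)
    (n J : ℕ) {m : ℕ} (j : Fin m → ℕ) (hj : ∀ i, j i ≤ J)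
    (x : (AA m → ℕ) → K) (hx : CG W n J j x) (hF : FG n J j x ≠ 0)
    (z : ∀ t, (V t).toAffine.Point) (P Q : Fin m → ∀ t, (V t).toAffine.Point)
    (hPQ : ∀ i t, P i t = 2 ^ j i • z t + Q i t) (hP : ∀ i t, P i t ≠ 0)
    (hz : ∀ t, z t ≠ 0) (hQ : ∀ i t, Q i t ≠ 0) (s : Fin m × Fin 2 →₀ ℕ)
    (hs : coeff s (tr (fun a => (Q a.1 a.2).xRep 0)
      (pe (fun t => (z t).xRep 0) (FG n J j x))) ≠ 0) :
    ∑ i, ((4 ^ (J - j i) - (s (i, 0) + s (i, 1)) : ℕ) : ℝ) * hO (P i) ≤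
      2 * nh (MvPolynomial.map (algebraMap K L) (FG n J j x)) +
        2 * (8 * n * 4 ^ J) * ∑ t, logHeight (z t).xRep +
        2 * ∑ a : Fin m × Fin 2, (8 * n * 4 ^ (J - j a.1)) * logHeight (Q a.1 a.2).xRep +
        54 * m * (8 * n * 4 ^ J) * ∑ t, gs (fun v : AbsoluteValue L ℝ =>
          Real.log (lc (W t) v)) := by
  classical
  set y : L := coeff s (tr (fun a => (Q a.1 a.2).xRep 0)
    (pe (fun t => (z t).xRep 0) (FG n J j x))) with hy
  set F : MvPolynomial (AA m) L := MvPolynomial.map (algebraMap K L) (FG n J j x) with hFdef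
  have hF' : F ≠ 0 := by
    intro h0
    apply hF
    apply MvPolynomial.map_injective (algebraMap K L) (algebraMap K L).injective
    rw [← hFdef, h0, map_zero]
  have hVN : ∀ (v : AbsoluteValue L ℝ) (t : Fin 2) (R : (V t).toAffine.Point), 0 < vn v R.xRep :=
    fun v t R => vn_pos v (xRep_ne_zero R)
  have hmin : ∀ (v : AbsoluteValue L ℝ) (i : Fin m),
      0 < min (vn v (P i 0).xRep) (vn v (P i 1).xRep) :=
    fun v i => lt_min (hVN v 0 _) (hVN v 1 _)
  have hloc : ∀ v : AbsoluteValue L ℝ,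
      2 * Real.log (v y) + ∑ i, ((4 ^ (J - j i) - (s (i, 0) + s (i, 1)) : ℕ) : ℝ) *
        Real.log (min (vn v (P i 0).xRep) (vn v (P i 1).xRep)) ≤
      (((54 * m * (8 * n * 4 ^ J) : ℕ) : ℝ) * ∑ t, Real.log (lc (W t) v) +
        2 * Real.log (NV v F)) +
        (∑ t, ((2 * (8 * n * 4 ^ J) : ℕ) : ℝ) * Real.log (vn v (z t).xRep) +
        ∑ a : Fin m × Fin 2, ((2 * (8 * n * 4 ^ (J - j a.1)) : ℕ) : ℝ) *
          Real.log (vn v (Q a.1 a.2).xRep)) := by
    intro v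
    have h := local_bound W V hV v n J j hj x hx z P Q hPQ hz hQ s
    rw [← hy, ← hFdef] at h
    have hy0 : 0 < v y := v.pos hs
    have hNV : 0 < NV v F := NV_pos v hF'
    have hlc : ∀ t, 0 < lc (W t) v := fun t => lt_of_lt_of_le one_pos (one_le_lc (W t) v)
    have h1 : 0 < v y ^ 2 * ∏ i, (min (vn v (P i 0).xRep) (vn v (P i 1).xRep)) ^
        (4 ^ (J - j i) - (s (i, 0) + s (i, 1))) :=
      mul_pos (pow_pos hy0 2) (Finset.prod_pos fun i _ => pow_pos (hmin v i) _)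
    have h2 := Real.log_le_log h1 h
    have e1 : Real.log (v y ^ 2 * ∏ i, (min (vn v (P i 0).xRep) (vn v (P i 1).xRep)) ^
        (4 ^ (J - j i) - (s (i, 0) + s (i, 1)))) =
        2 * Real.log (v y) + ∑ i, ((4 ^ (J - j i) - (s (i, 0) + s (i, 1)) : ℕ) : ℝ) *
          Real.log (min (vn v (P i 0).xRep) (vn v (P i 1).xRep)) := by
      rw [Real.log_mul (pow_pos hy0 2).ne' (Finset.prod_pos fun i _ => pow_pos (hmin v i) _).ne',
        Real.log_pow, Real.log_prod (fun i _ => (pow_pos (hmin v i) _).ne')]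
      simp only [Real.log_pow]
      norm_num
    have p1 : 0 < (∏ t, lc (W t) v) ^ (54 * m * (8 * n * 4 ^ J)) :=
      pow_pos (Finset.prod_pos fun t _ => hlc t) _
    have p2 : 0 < NV v F ^ 2 := pow_pos hNV 2
    have p3 : 0 < ∏ t, vn v (z t).xRep ^ (2 * (8 * n * 4 ^ J)) :=
      Finset.prod_pos fun t _ => pow_pos (hVN v t _) _
    have p4 : 0 < ∏ a : Fin m × Fin 2, vn v (Q a.1 a.2).xRep ^ (2 * (8 * n * 4 ^ (J - j a.1))) :=
      Finset.prod_pos fun a _ => pow_pos (hVN v a.2 _) _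
    have e2 : Real.log ((∏ t, lc (W t) v) ^ (54 * m * (8 * n * 4 ^ J)) * NV v F ^ 2 *
          (∏ t, vn v (z t).xRep ^ (2 * (8 * n * 4 ^ J))) *
            ∏ a : Fin m × Fin 2, vn v (Q a.1 a.2).xRep ^ (2 * (8 * n * 4 ^ (J - j a.1)))) =
        (((54 * m * (8 * n * 4 ^ J) : ℕ) : ℝ) * ∑ t, Real.log (lc (W t) v) +
          2 * Real.log (NV v F)) +
        (∑ t, ((2 * (8 * n * 4 ^ J) : ℕ) : ℝ) * Real.log (vn v (z t).xRep) +
        ∑ a : Fin m × Fin 2, ((2 * (8 * n * 4 ^ (J - j a.1)) : ℕ) : ℝ) *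
          Real.log (vn v (Q a.1 a.2).xRep)) := by
      rw [Real.log_mul (mul_pos (mul_pos p1 p2) p3).ne' p4.ne',
        Real.log_mul (mul_pos p1 p2).ne' p3.ne', Real.log_mul p1.ne' p2.ne', Real.log_pow,
        Real.log_pow, Real.log_prod (fun t _ => (hlc t).ne'),
        Real.log_prod (fun t _ => (pow_pos (hVN v t _) _).ne'),
        Real.log_prod (fun a _ => (pow_pos (hVN v a.2 _) _).ne')]
      simp only [Real.log_pow]
      push_cast
      ring
    rw [e1, e2] at h2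
    exact h2
  have FSy : FS (fun v : AbsoluteValue L ℝ => 2 * Real.log (v y)) := FS_const_mul 2 (FS_log_abv hs)
  have FSm : ∀ i ∈ (Finset.univ : Finset (Fin m)), FS (fun v : AbsoluteValue L ℝ =>
      ((4 ^ (J - j i) - (s (i, 0) + s (i, 1)) : ℕ) : ℝ) *
        Real.log (min (vn v (P i 0).xRep) (vn v (P i 1).xRep))) :=
    fun i _ => FS_const_mul _ (FS_log_min (P i) (hP i))
  have FSl : ∀ t ∈ (Finset.univ : Finset (Fin 2)), FS (fun v : AbsoluteValue L ℝ =>
      Real.log (lc (W t) v)) := fun t _ => FS_log_lc (W t)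
  have FSz : ∀ t ∈ (Finset.univ : Finset (Fin 2)), FS (fun v : AbsoluteValue L ℝ =>
      ((2 * (8 * n * 4 ^ J) : ℕ) : ℝ) * Real.log (vn v (z t).xRep)) :=
    fun t _ => FS_const_mul _ (FS_log_vn (xRep_ne_zero _))
  have FSq : ∀ a ∈ (Finset.univ : Finset (Fin m × Fin 2)), FS (fun v : AbsoluteValue L ℝ =>
      ((2 * (8 * n * 4 ^ (J - j a.1)) : ℕ) : ℝ) * Real.log (vn v (Q a.1 a.2).xRep)) :=
    fun a _ => FS_const_mul _ (FS_log_vn (xRep_ne_zero _))
  have FS1 : FS (fun v : AbsoluteValue L ℝ => ((54 * m * (8 * n * 4 ^ J) : ℕ) : ℝ) *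
      ∑ t, Real.log (lc (W t) v)) := FS_const_mul _ (FS_sum _ FSl)
  have FS2 : FS (fun v : AbsoluteValue L ℝ => 2 * Real.log (NV v F)) :=
    FS_const_mul 2 (FS_log_NV hF')
  have hgs := gs_le (FS_add FSy (FS_sum _ FSm))
    (FS_add (FS_add FS1 FS2) (FS_add (FS_sum _ FSz) (FS_sum _ FSq))) (fun v _ => hloc v)
  rw [gs_add FSy (FS_sum _ FSm), gs_sum _ FSm, gs_const_mul, gs_log_abv hs,
    gs_add (FS_add FS1 FS2) (FS_add (FS_sum _ FSz) (FS_sum _ FSq)), gs_add FS1 FS2,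
    gs_add (FS_sum _ FSz) (FS_sum _ FSq), gs_const_mul, gs_const_mul, gs_sum _ FSl,
    gs_sum _ FSz, gs_sum _ FSq] at hgs
  simp only [gs_const_mul] at hgs
  have em : ∀ i, gs (fun v : AbsoluteValue L ℝ =>
      Real.log (min (vn v (P i 0).xRep) (vn v (P i 1).xRep))) = hO (P i) :=
    fun i => gs_log_min (P i) (hP i)
  have ez : ∀ t, gs (fun v : AbsoluteValue L ℝ => Real.log (vn v (z t).xRep)) =
      logHeight (z t).xRep := fun t => gs_log_vn (xRep_ne_zero _)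
  have eq : ∀ a : Fin m × Fin 2, gs (fun v : AbsoluteValue L ℝ =>
      Real.log (vn v (Q a.1 a.2).xRep)) = logHeight (Q a.1 a.2).xRep :=
    fun a => gs_log_vn (xRep_ne_zero _)
  simp only [em, ez, eq] at hgs
  have hnh : nh F = gs fun v => Real.log (NV v F) := rfl
  rw [← hnh] at hgs
  have er : 2 * ∑ a : Fin m × Fin 2, (8 * n * 4 ^ (J - j a.1)) * logHeight (Q a.1 a.2).xRep =
      ∑ a : Fin m × Fin 2, ((2 * (8 * n * 4 ^ (J - j a.1)) : ℕ) : ℝ) *
        logHeight (Q a.1 a.2).xRep := by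
    rw [Finset.mul_sum]
    refine Finset.sum_congr rfl fun a _ => ?_
    push_cast
    ring
  have ezz : 2 * (8 * n * 4 ^ J) * ∑ t, logHeight (z t).xRep =
      ∑ t, ((2 * (8 * n * 4 ^ J) : ℕ) : ℝ) * logHeight (z t).xRep := by
    rw [Finset.mul_sum]
    refine Finset.sum_congr rfl fun a _ => ?_
    push_cast
    ring
  rw [er, ezz]
  push_cast at hgs ⊢
  linarith

end Pool.Agent.Lib.MP_17a322_nt.VJ
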