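import Pool.Agent.Lib.MP_17a322_nt.VJ.Defs

/-!
# JOB H1: a polynomial over `K`, irreducible over `K`, with a smooth `K`-rational zero is absolutely irreducible

`A` is the algebraic closure of `K`, `G = map (algebraMap K A) g`.
* `H1_factor`: `MvPolynomial σ A` is a unique factorisation domain: `G ≠ 0` is a unit times a product of
  irreducible elements (`UniqueFactorizationMonoid.exists_prime_factors` or `factors`), the value at `p` is the
  product of the values; a unit has a nonzero value; so some irreducible factor `h` vanishes at `p`. Multiply by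
  the inverse of one nonzero coefficient (`C c⁻¹ * h` is irreducible again and divides `G`).
* `H1_deriv`: `h`, `h'` irreducible, both divide `G`, not associated: `h * h' ∣ G` (`h` is prime,
  `Irreducible.prime`, or `IsRelPrime`/`IsCoprime.mul_dvd` in the form `(Irreducible.isRelPrime_iff_not_dvd ..)`:
  `G = h' * q`, `h ∣ h' * q`, `h ∤ h'` (else associated), so `h ∣ q`). Then `G = h * h' * q'` and the Leibniz rule
  `pderiv_mul` gives `eval p (pderiv y G) = 0` as `eval p h = eval p h' = 0`.
* `H1_fixed`: the coefficients of `h` are fixed by all `s : A ≃ₐ[K] A`; `A` is Galois over `K` (characteristic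
  zero), so they are in the image of `K` (`InfiniteGalois.mem_bot_iff_fixed` or
  `IsGalois`-free: `IsAlgClosure`... ; `IntermediateField.mem_bot`); then `h` is in the range of `map`
  (`MvPolynomial.mem_range_map_iff_coeffs_subset`, or define `h₀` with `Finsupp.mapRange`/`∑ monomial`).
* `abs_irreducible`: `h` as in `H1_factor` for `G`, with `coeff m h = 1`. For `s : A ≃ₐ[K] A` put `h' = map s h`:
  irreducible (`MulEquiv.irreducible_iff` for `mapEquiv`), divides `map s G = G`, vanishes at `p` (`eval p` of
  `map s h` is `s (eval p h)` since `p` is `K`-rational), and `coeff m h' = s 1 = 1`. If `h'` is associated to `h`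
  then `h' = C c * h` (`MvPolynomial.isUnit_iff_eq_C_of_isReduced` or similar: units are nonzero constants), and
  `c = 1` by the coefficient of `m`; so `h' = h`. If not, `H1_deriv` gives `eval p (pderiv y G) = 0`, but
  `pderiv y G = map (pderiv y g)` (`MvPolynomial.pderiv_map`), contradiction. So `h` is fixed by all `s`:
  `h = map h₀`. `G = h * q`; `map s q = q` for all `s` (cancel `h ≠ 0`), so `q = map q₀`, and `g = h₀ * q₀`
  (`map_injective`). `g` is irreducible, so `h₀` or `q₀` is a unit; `h₀` is not (its image `h` is not), so `q₀` is a unit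
  and `G` is associated to the irreducible `h`.
-/

namespace Pool.Agent.Lib.MP_17a322_nt.VJ

open MvPolynomial

theorem H1_factor {A σ : Type*} [Field A] (G : MvPolynomial σ A) (hG : G ≠ 0) (p : σ → A)
    (h0 : eval p G = 0) :
    ∃ h : MvPolynomial σ A, Irreducible h ∧ h ∣ G ∧ eval p h = 0 ∧ ∃ m, coeff m h = 1 := by
  classical
  obtain ⟨f, hf, u, hu⟩ := WfDvdMonoid.exists_factors G hG
  have h1 : eval p f.prod = 0 := by
    have h2 : eval p f.prod * eval p (u : MvPolynomial σ A) = 0 := by
      rw [← map_mul, hu, h0]
    have h3 : IsUnit (eval p (u : MvPolynomial σ A)) := u.isUnit.map (eval p)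
    exact (mul_eq_zero.1 h2).resolve_right h3.ne_zero
  rw [map_multiset_prod, Multiset.prod_eq_zero_iff, Multiset.mem_map] at h1
  obtain ⟨h, hh, hp⟩ := h1
  have hirr := hf h hh
  obtain ⟨m, hm⟩ := MvPolynomial.ne_zero_iff.1 hirr.ne_zero
  have hunit : IsUnit (C (coeff m h)⁻¹ : MvPolynomial σ A) :=
    (IsUnit.mk0 _ (inv_ne_zero hm)).map C
  have hass : Associated h (C (coeff m h)⁻¹ * h) :=
    (associated_unit_mul_right h _ hunit)
  refine ⟨C (coeff m h)⁻¹ * h, hass.irreducible hirr, ?_, ?_, m, ?_⟩
  · rw [← hass.dvd_iff_dvd_left]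
    exact (Multiset.dvd_prod hh).trans ⟨u, hu.symm⟩
  · rw [map_mul, hp, mul_zero]
  · rw [coeff_C_mul, inv_mul_cancel₀ hm]

theorem H1_deriv {A σ : Type*} [Field A] (y : σ) (G h h' : MvPolynomial σ A)
    (hh : Irreducible h) (hh' : Irreducible h') (hd : h ∣ G) (hd' : h' ∣ G)
    (hn : ¬ Associated h h') (p : σ → A) (h0 : eval p h = 0) (h0' : eval p h' = 0) :
    eval p (pderiv y G) = 0 := by
  obtain ⟨q, rfl⟩ := hd'
  have h1 : ¬ h ∣ h' := fun hdv => hn (hh.associated_of_dvd hh' hdv)
  obtain ⟨r, rfl⟩ := (hh.prime.dvd_or_dvd hd).resolve_left h1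
  simp only [Derivation.leibniz, smul_eq_mul, map_add, map_mul, h0, h0']
  ring

theorem H1_fixed {K σ : Type*} [Field K] [CharZero K] (h : MvPolynomial σ (AlgebraicClosure K))
    (hs : ∀ s : AlgebraicClosure K ≃ₐ[K] AlgebraicClosure K,
      MvPolynomial.map (s : AlgebraicClosure K →+* AlgebraicClosure K) h = h) :
    ∃ h₀ : MvPolynomial σ K, MvPolynomial.map (algebraMap K (AlgebraicClosure K)) h₀ = h := by
  classical
  have h1 : h ∈ Set.range (MvPolynomial.map (σ := σ) (algebraMap K (AlgebraicClosure K))) := by
    rw [MvPolynomial.mem_range_map_iff_coeffs_subset]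
    intro c hc
    obtain ⟨m, hm, rfl⟩ := MvPolynomial.mem_coeffs_iff.1 (Finset.mem_coe.1 hc)
    have hgal : IsGalois K (AlgebraicClosure K) := ⟨⟩
    have h2 : coeff m h ∈ (⊥ : IntermediateField K (AlgebraicClosure K)) := by
      rw [InfiniteGalois.mem_bot_iff_fixed]
      intro s
      have h3 := congrArg (coeff m) (hs s)
      rw [coeff_map] at h3
      exact h3
    exact IntermediateField.mem_bot.1 h2
  exact h1

theorem abs_irreducible {K σ : Type*} [Field K] [CharZero K] (y : σ) (g : MvPolynomial σ K)
    (hg : Irreducible g) (p : σ → K) (h0 : eval p g = 0) (h1 : eval p (pderiv y g) ≠ 0) :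
    Irreducible (MvPolynomial.map (algebraMap K (AlgebraicClosure K)) g) := by
  classical
  set G := MvPolynomial.map (algebraMap K (AlgebraicClosure K)) g with hG
  have hinj : Function.Injective (MvPolynomial.map (σ := σ) (algebraMap K (AlgebraicClosure K))) :=
    MvPolynomial.map_injective _ (algebraMap K (AlgebraicClosure K)).injective
  have hG0 : G ≠ 0 := by
    intro h
    apply hg.ne_zero
    apply hinj
    rw [map_zero]
    exact h
  set P : σ → AlgebraicClosure K := fun t => algebraMap K (AlgebraicClosure K) (p t) with hP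
  have hev : ∀ f : MvPolynomial σ K, eval P (MvPolynomial.map (algebraMap K (AlgebraicClosure K)) f)
      = algebraMap K (AlgebraicClosure K) (eval p f) := by
    intro f
    rw [eval_map, hP]
    exact (MvPolynomial.eval₂_comp_left (algebraMap K (AlgebraicClosure K)) (RingHom.id K) p f).symm
  have hGP : eval P G = 0 := by rw [hG, hev, h0, map_zero]
  have hdG : eval P (pderiv y G) ≠ 0 := by
    rw [hG, pderiv_map, hev]
    exact fun h => h1 ((map_eq_zero_iff _ (algebraMap K (AlgebraicClosure K)).injective).1 h)
  obtain ⟨h, hh, hd, hp, m, hm⟩ := H1_factor G hG0 P hGP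
  have hfix : ∀ s : AlgebraicClosure K ≃ₐ[K] AlgebraicClosure K,
      MvPolynomial.map (s : AlgebraicClosure K →+* AlgebraicClosure K) h = h := by
    intro s
    have hsG : MvPolynomial.map (s : AlgebraicClosure K →+* AlgebraicClosure K) G = G := by
      rw [hG, MvPolynomial.map_map]
      have e1 : (s : AlgebraicClosure K →+* AlgebraicClosure K).comp
          (algebraMap K (AlgebraicClosure K)) = algebraMap K (AlgebraicClosure K) := by
        ext x
        exact s.commutes x
      rw [e1]
    have hirr : Irreducible (MvPolynomial.map (s : AlgebraicClosure K →+* AlgebraicClosure K) h) := by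
      have e2 := (MulEquiv.irreducible_iff (x := h)
        (MvPolynomial.mapEquiv σ (s : AlgebraicClosure K ≃+* AlgebraicClosure K))).2 hh
      exact e2
    have hdv : MvPolynomial.map (s : AlgebraicClosure K →+* AlgebraicClosure K) h ∣ G := by
      rw [← hsG]
      exact map_dvd _ hd
    have hev' : eval P (MvPolynomial.map (s : AlgebraicClosure K →+* AlgebraicClosure K) h) = 0 := by
      have e3 : (fun t => (s : AlgebraicClosure K →+* AlgebraicClosure K) (P t)) = P := by
        funext t
        exact s.commutes (p t)
      have e4 := MvPolynomial.eval₂_comp_left (s : AlgebraicClosure K →+* AlgebraicClosure K)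
        (RingHom.id _) P h
      rw [eval_map]
      have e5 : (s : AlgebraicClosure K →+* AlgebraicClosure K) (eval P h) = 0 := by
        rw [hp, map_zero]
      have e6 : eval₂ (s : AlgebraicClosure K →+* AlgebraicClosure K)
          (fun t => (s : AlgebraicClosure K →+* AlgebraicClosure K) (P t)) h = 0 := by
        rw [← e5]
        exact e4.symm
      rw [e3] at e6
      exact e6
    have hcf : coeff m (MvPolynomial.map (s : AlgebraicClosure K →+* AlgebraicClosure K) h) = 1 := by
      rw [coeff_map, hm, map_one]
    by_contra hne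
    have hnass : ¬ Associated h (MvPolynomial.map
        (s : AlgebraicClosure K →+* AlgebraicClosure K) h) := by
      rintro ⟨u, hu⟩
      obtain ⟨c, _, hc⟩ := MvPolynomial.isUnit_iff_eq_C_of_isReduced.1 u.isUnit
      rw [hc] at hu
      have e7 := congrArg (coeff m) hu
      rw [hcf, mul_comm, coeff_C_mul, hm, mul_one] at e7
      rw [e7, map_one, mul_one] at hu
      exact hne hu.symm
    exact hdG (H1_deriv y G h _ hh hirr hd hdv hnass P hp hev')
  obtain ⟨h₀, hh₀⟩ := H1_fixed h hfix
  obtain ⟨q, hq⟩ := hd
  have hqfix : ∀ s : AlgebraicClosure K ≃ₐ[K] AlgebraicClosure K,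
      MvPolynomial.map (s : AlgebraicClosure K →+* AlgebraicClosure K) q = q := by
    intro s
    have hsG : MvPolynomial.map (s : AlgebraicClosure K →+* AlgebraicClosure K) G = G := by
      rw [hG, MvPolynomial.map_map]
      have e1 : (s : AlgebraicClosure K →+* AlgebraicClosure K).comp
          (algebraMap K (AlgebraicClosure K)) = algebraMap K (AlgebraicClosure K) := by
        ext x
        exact s.commutes x
      rw [e1]
    have e8 := hsG
    rw [hq, map_mul, hfix s] at e8
    exact mul_left_cancel₀ hh.ne_zero e8
  obtain ⟨q₀, hq₀⟩ := H1_fixed q hqfix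
  have hgq : g = h₀ * q₀ := by
    apply hinj
    rw [map_mul, hh₀, hq₀, ← hq, hG]
  have hu : IsUnit h₀ ∨ IsUnit q₀ := hg.isUnit_or_isUnit hgq
  rcases hu with hu | hu
  · exfalso
    apply hh.not_isUnit
    rw [← hh₀]
    exact hu.map _
  · have hqu : IsUnit q := by
      rw [← hq₀]
      exact hu.map _
    have hass : Associated h G := by
      rw [hq]
      exact (associated_mul_unit_right h q hqu)
    exact hass.irreducible hh

end Pool.Agent.Lib.MP_17a322_nt.VJ
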