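import Pool.Agent.Lib.MP_17a322_nt.VJ.Defs
import Pool.Agent.Lib.MP_17a322_nt.RO.G5

/-!
Stream B (section 10). Relative algebraic closure `acl K S` of `K(S)` in a field `Ω`, points with
coordinates in a subfield, generic values of polynomials.
-/

namespace Pool.Agent.Lib.MP_17a322_nt.VJ

open MvPolynomial WeierstrassCurve
open Pool.Agent.Lib.MP_17a322_nt.RO

/-- The relative algebraic closure of `K(S)` in `Ω`. -/
noncomputable def acl (K : Type*) {Ω : Type*} [Field K] [Field Ω] [Algebra K Ω] (S : Set Ω) :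
    IntermediateField K Ω :=
  G5_cl (IntermediateField.adjoin K S)

section

variable {K Ω : Type*} [Field K] [Field Ω] [Algebra K Ω]

theorem mem_acl_iff {S : Set Ω} {z : Ω} :
    z ∈ acl K S ↔ IsAlgebraic (IntermediateField.adjoin K S) z :=
  G5_mem_cl _ z

theorem mem_acl_iff' {S : Set Ω} {z : Ω} :
    z ∈ acl K S ↔ IsAlgebraic (Algebra.adjoin K S) z := by
  rw [mem_acl_iff, IntermediateField.isAlgebraic_adjoin_iff]

theorem coe_acl {S : Set Ω} :
    (acl K S : Set Ω) = (AlgebraicIndependent.matroid K Ω).closure S := by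
  ext z
  rw [AlgebraicIndependent.matroid_closure_eq, SetLike.mem_coe, SetLike.mem_coe, mem_acl_iff',
    Subalgebra.mem_algebraicClosure]

theorem acl_closed {S : Set Ω} (z : Ω) (hz : IsAlgebraic (acl K S) z) : z ∈ acl K S :=
  G5_closed _ z hz

theorem mem_acl_of_mem {S : Set Ω} {z : Ω} (hz : z ∈ S) : z ∈ acl K S :=
  G5_le_cl _ z (IntermediateField.subset_adjoin K S hz)

/-- An intermediate field `A` that contains all elements algebraic over it and the set `S` contains
`acl K S`. -/
theorem acl_le {S : Set Ω} (A : IntermediateField K Ω)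
    (hA : ∀ z : Ω, IsAlgebraic A z → z ∈ A) (h : S ⊆ A) : acl K S ≤ A := by
  intro z hz
  rw [mem_acl_iff'] at hz
  apply hA
  exact hz.tower_top_of_subalgebra_le (Algebra.adjoin_le h : Algebra.adjoin K S ≤ A.toSubalgebra)

theorem acl_le_acl {S T : Set Ω} (h : S ⊆ acl K T) : acl K S ≤ acl K T :=
  acl_le _ (fun z hz => acl_closed z hz) h

theorem acl_mono {S T : Set Ω} (h : S ⊆ T) : acl K S ≤ acl K T :=
  acl_le_acl fun _ hz => mem_acl_of_mem (h hz)

/-- Exchange. -/
theorem acl_exchange {S : Set Ω} {a z : Ω} (h : z ∈ acl K (insert a S)) (h' : z ∉ acl K S) :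
    a ∈ acl K (insert z S) := by
  have h1 : z ∈ (AlgebraicIndependent.matroid K Ω).closure (insert a S) := by
    rw [← coe_acl]
    exact h
  have h2 : z ∉ (AlgebraicIndependent.matroid K Ω).closure S := by
    rw [← coe_acl]
    exact h'
  have h3 := Matroid.mem_closure_insert h2 h1
  rw [← coe_acl] at h3
  exact h3

theorem acl_exchange₁ {a z : Ω} (h : z ∈ acl K {a}) (h' : z ∉ acl K (∅ : Set Ω)) :
    a ∈ acl K {z} := by
  have h1 : z ∈ acl K (insert a (∅ : Set Ω)) := by
    rw [insert_empty_eq]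
    exact h
  have h2 := acl_exchange h1 h'
  rwa [insert_empty_eq] at h2

/-- `a`, `b` are algebraically independent over `K`. -/
def Ind2 (K : Type*) {Ω : Type*} [Field K] [Field Ω] [Algebra K Ω] (a b : Ω) : Prop :=
  a ∉ acl K (∅ : Set Ω) ∧ b ∉ acl K {a}

theorem Ind2.symm {a b : Ω} (h : Ind2 K a b) : Ind2 K b a := by
  refine ⟨fun hb => h.2 (acl_mono (Set.empty_subset _) hb), fun ha => h.2 ?_⟩
  exact acl_exchange₁ ha h.1

/-- Not both in the algebraic closure of one element. -/
theorem Ind2.not_both {a b c : Ω} (h : Ind2 K a b) (ha : a ∈ acl K {c}) (hb : b ∈ acl K {c}) :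
    False := by
  have h1 : c ∈ acl K {a} := acl_exchange₁ ha h.1
  exact h.2 (acl_le_acl (Set.singleton_subset_iff.2 h1) hb)

/-- Replacing `a`, `b` by elements with the same algebraic closures. -/
theorem Ind2.of_acl {a b a' b' : Ω} (h : Ind2 K a b) (ha : a ∈ acl K {a'}) (hb : b ∈ acl K {b'})
    (ha' : a' ∈ acl K {a}) : Ind2 K a' b' := by
  constructor
  · intro h1
    exact h.1 (acl_le_acl (Set.singleton_subset_iff.2 h1) ha)
  · intro h1
    have h2 : b' ∈ acl K {a} := acl_le_acl (Set.singleton_subset_iff.2 ha') h1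
    exact h.2 (acl_le_acl (Set.singleton_subset_iff.2 h2) hb)

/-- A homomorphism maps `acl` into `acl`. -/
theorem map_mem_acl (σ : Ω →ₐ[K] Ω) {S : Set Ω} {z : Ω} (h : z ∈ acl K S) :
    σ z ∈ acl K (σ '' S) := by
  have hle : acl K S ≤ (acl K (σ '' S)).comap σ := by
    refine acl_le _ ?_ fun x hx => mem_acl_of_mem ⟨x, hx, rfl⟩
    intro w hw
    refine acl_closed _ ?_
    let f : (acl K (σ '' S)).comap σ →+* acl K (σ '' S) :=
      { toFun := fun x => ⟨σ x, x.2⟩
        map_one' := Subtype.ext (map_one σ)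
        map_zero' := Subtype.ext (map_zero σ)
        map_add' := fun x y => Subtype.ext (map_add σ _ _)
        map_mul' := fun x y => Subtype.ext (map_mul σ _ _) }
    exact hw.ringHom_of_comp_eq f σ.toRingHom f.injective rfl
  exact hle h

end

end Pool.Agent.Lib.MP_17a322_nt.VJ
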