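import Pool.Agent.Lib.MP_17a322_nt.VJ.I7

/-!
# JOB I8: the eliminant `R3` does not vanish identically
-/

set_option linter.unusedSectionVars false

namespace Pool.Agent.Lib.MP_17a322_nt.VJ

open MvPolynomial

variable {K Ω : Type*} [Field K] [Field Ω] [DecidableEq Ω] [Algebra K Ω] [IsAlgClosed Ω]

/-- Proof: by RO/B1 `exists_point` `R = a • P.xRep`, `Q = b • P'.xRep` with `a, b ≠ 0` (curve
`V.map (algebraMap K Ω)`); E4 `SV_xRep` and `SV_smul`, and `sq2` of two nonzero vectors of length two is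
not zero (if `v 0 ≠ 0 ≠ w 0` the first entry, ... ; or Mathlib `Point.sym2x_ne_zero`). -/
theorem SV_ne_zero_of_ne (V : WeierstrassCurve K) [V.IsElliptic] {R Q : Fin 2 → Ω} (hR : R ≠ 0)
    (hQ : Q ≠ 0) : SV V R Q ≠ 0 := by
  obtain ⟨P, a, ha, hP⟩ := RO.exists_point (V.map (algebraMap K Ω)) R hR
  obtain ⟨P', b, hb, hP'⟩ := RO.exists_point (V.map (algebraMap K Ω)) Q hQ
  obtain ⟨γ, hγ, h⟩ := SV_xRep V (V.map (algebraMap K Ω)) rfl P P'
  intro h0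
  apply WeierstrassCurve.Affine.Point.sym2x_ne_zero (P + P') (P - P')
  funext i
  have h1 : (P + P').sym2x (P - P') i = RO.sq2 (P + P').xRep (P - P').xRep i := rfl
  rw [h1]
  have h2 := congrFun h0 i
  rw [hP, hP', SV_smul, h i] at h2
  have h3 : (a * b) ^ 2 ≠ 0 := pow_ne_zero _ (mul_ne_zero ha hb)
  exact ((mul_eq_zero.1 ((mul_eq_zero.1 h2).resolve_left h3)).resolve_left hγ)

theorem vc_ne_zero (c : Bool) (y : Ω) : vc c y ≠ 0 := by
  intro h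
  cases c with
  | false =>
    have h1 := congrFun h 1
    simp [vc] at h1
  | true =>
    have h1 := congrFun h 0
    simp [vc] at h1

/-- Finitely many `ζ` with `QF s ![ζ, 1] = 0` for a nonzero vector `s` (roots of the nonzero polynomial
`C (s 0) - C (s 1) * X + C (s 2) * X ^ 2`). -/
theorem finite_QF {s : Fin 3 → Ω} (hs : s ≠ 0) : {ζ : Ω | QF s ![ζ, 1] = 0}.Finite := by
  have hp : (Polynomial.C (s 0) - Polynomial.C (s 1) * Polynomial.X +
      Polynomial.C (s 2) * Polynomial.X ^ 2 : Polynomial Ω) ≠ 0 := by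
    intro hp
    apply hs
    have h0 := congrArg (fun q => Polynomial.coeff q 0) hp
    have h1 := congrArg (fun q => Polynomial.coeff q 1) hp
    have h2 := congrArg (fun q => Polynomial.coeff q 2) hp
    simp [Polynomial.coeff_X, Polynomial.coeff_C, Polynomial.coeff_X_pow] at h0 h1 h2
    funext i
    fin_cases i
    · exact h0
    · exact h1
    · exact h2
  refine (Polynomial.finite_setOfPred_isRoot hp).subset fun ζ hζ => ?_
  have h3 : QF s ![ζ, 1] = 0 := hζ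
  show Polynomial.eval ζ _ = 0
  rw [← h3]
  simp [QF]

/-- Finitely many roots: if the leading coefficient of `P` in `y` does not vanish at `s`. (`ev1 y s P ≠ 0`,
`eval_ev1`; `Polynomial.rootSet_finite` or `Multiset.toFinset`.) -/
theorem finite_roots {σ : Type*} [DecidableEq σ] (y : σ) (s : σ → Ω) (P : MvPolynomial σ K)
    (h : aeval s (lcv y P) ≠ 0) : {r : Ω | aeval (Function.update s y r) P = 0}.Finite := by
  have hp : ev1 y s P ≠ 0 := by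
    intro hp
    apply h
    rw [← coeff_ev1_degreeOf, hp, Polynomial.coeff_zero]
  refine (Polynomial.finite_setOfPred_isRoot hp).subset fun r hr => ?_
  show Polynomial.eval r _ = 0
  rw [eval_ev1]
  exact hr

theorem I8_lcvA (F : MvPolynomial (Fin 3) K) (hF : F ≠ 0) {s : Fin 7 → Ω}
    (hs : Ind2 K (s 0) (s 3)) : aeval s (lcv 4 (fA F)) ≠ 0 := by
  have hinj : Function.Injective (![0, 3, 4] : Fin 3 → Fin 7) := by decide
  have h1 : fA F ≠ 0 := by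
    intro h
    apply hF
    apply rename_injective _ hinj
    rw [map_zero]
    exact h
  refine aeval_ne_zero₂ (y := (0 : Fin 7)) (y' := (3 : Fin 7)) (by decide) (lcv_ne_zero h1) ?_ hs
  intro t ht
  have h2 := vars_lcv _ ht
  rw [Finset.mem_erase] at h2
  have h3 := vars_fA F h2.2
  rw [Finset.mem_insert, Finset.mem_insert, Finset.mem_singleton] at h3
  rw [Finset.mem_insert, Finset.mem_singleton]
  rcases h3 with h3 | h3 | h3
  · exact Or.inl h3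
  · exact Or.inr h3
  · exact absurd h3 h2.1

theorem I8_lcvB (F : MvPolynomial (Fin 3) K) (hF : F ≠ 0) {s : Fin 7 → Ω}
    (hs : Ind2 K (s 1) (s 3)) : aeval s (lcv 5 (fB F)) ≠ 0 := by
  have hinj : Function.Injective (![1, 3, 5] : Fin 3 → Fin 7) := by decide
  have h1 : fB F ≠ 0 := by
    intro h
    apply hF
    apply rename_injective _ hinj
    rw [map_zero]
    exact h
  refine aeval_ne_zero₂ (y := (1 : Fin 7)) (y' := (3 : Fin 7)) (by decide) (lcv_ne_zero h1) ?_ hs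
  intro t ht
  have h2 := vars_lcv _ ht
  rw [Finset.mem_erase] at h2
  have h3 := vars_fB F h2.2
  rw [Finset.mem_insert, Finset.mem_insert, Finset.mem_singleton] at h3
  rw [Finset.mem_insert, Finset.mem_singleton]
  rcases h3 with h3 | h3 | h3
  · exact Or.inl h3
  · exact Or.inr h3
  · exact absurd h3 h2.1

/-- The exceptional set is finite. -/
theorem I8_finite (W : Fin 2 → WeierstrassCurve K) [∀ t, (W t).IsElliptic] (c : Bool)
    (F : MvPolynomial (Fin 3) K) (hF : F ≠ 0) {x τ ξ : Ω}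
    (hx : Ind2 K x ξ) (hτ : x ≠ τ)
    (hr : ∀ r : Ω, S3 (W 0) ![x, 1] ![τ, 1] ![r, 1] = 0 → Ind2 K r ξ) :
    {ζ : Ω | ∃ r₁ r₄ r₅ : Ω, S3 (W 0) ![x, 1] ![τ, 1] ![r₁, 1] = 0 ∧
      aeval ![x, ξ, r₄] F = 0 ∧ aeval ![r₁, ξ, r₅] F = 0 ∧
      S3 (W 1) (vc c r₄) (vc c r₅) ![ζ, 1] = 0}.Finite := by
  have h1 : {r : Ω | S3 (W 0) ![x, 1] ![τ, 1] ![r, 1] = 0}.Finite := by
    refine (finite_roots 1 (![x, 0, τ, ξ, 0, 0, 0] : Fin 7 → Ω) (rX (W 0))
      (lcv_rX (W 0) _ hτ).2).subset fun r hr => ?_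
    show aeval _ _ = 0
    rw [aeval_rX]
    exact hr
  have h4 : {r : Ω | aeval ![x, ξ, r] F = 0}.Finite := by
    refine (finite_roots 4 (![x, 0, τ, ξ, 0, 0, 0] : Fin 7 → Ω) (fA F)
      (I8_lcvA F hF hx)).subset fun r hr => ?_
    show aeval _ _ = 0
    rw [aeval_fA]
    exact hr
  have h5 : ∀ r₁, Ind2 K r₁ ξ → {r : Ω | aeval ![r₁, ξ, r] F = 0}.Finite := by
    intro r₁ hr₁
    refine (finite_roots 5 (![x, r₁, τ, ξ, 0, 0, 0] : Fin 7 → Ω) (fB F)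
      (I8_lcvB F hF hr₁)).subset fun r hr => ?_
    show aeval _ _ = 0
    rw [aeval_fB]
    exact hr
  have hfin : (⋃ r₁ ∈ {r : Ω | S3 (W 0) ![x, 1] ![τ, 1] ![r, 1] = 0},
      ⋃ r₄ ∈ {r : Ω | aeval ![x, ξ, r] F = 0}, ⋃ r₅ ∈ {r : Ω | aeval ![r₁, ξ, r] F = 0},
      {ζ : Ω | QF (SV (W 1) (vc c r₄) (vc c r₅)) ![ζ, 1] = 0}).Finite := by
    refine h1.biUnion fun r₁ hr₁ => ?_
    refine h4.biUnion fun r₄ _ => ?_
    refine (h5 r₁ (hr r₁ hr₁)).biUnion fun r₅ _ => ?_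
    exact finite_QF (SV_ne_zero_of_ne (W 1) (vc_ne_zero c r₄) (vc_ne_zero c r₅))
  refine hfin.subset ?_
  rintro ζ ⟨r₁, r₄, r₅, g1, g2, g3, g4⟩
  refine Set.mem_biUnion (show r₁ ∈ {r : Ω | S3 (W 0) ![x, 1] ![τ, 1] ![r, 1] = 0} from g1) ?_
  refine Set.mem_biUnion (show r₄ ∈ {r : Ω | aeval ![x, ξ, r] F = 0} from g2) ?_
  refine Set.mem_biUnion (show r₅ ∈ {r : Ω | aeval ![r₁, ξ, r] F = 0} from g3) ?_
  exact g4

/-- Proof. Let `T` be the set of `ζ` such that for some `r₁, r₄, r₅`: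
`S3 (W 0) ![x, 1] ![τ, 1] ![r₁, 1] = 0`, `aeval ![x, ξ, r₄] F = 0`, `aeval ![r₁, ξ, r₅] F = 0`,
`S3 (W 1) (vc c r₄) (vc c r₅) ![ζ, 1] = 0`. `T` is finite (`Set.Finite.biUnion` three times): the roots `r₁`
by `finite_roots` for `rX (W 0)` (`lcv_rX`), `r₄` for `fA F` with the variable `4` (`lcv 4 (fA F) ≠ 0` has
`vars ⊆ {0, 3}`, so its value is not zero by `aeval_ne_zero₂` and `Ind2 K x ξ`), `r₅` for `fB F` (variables
`1`, `3`, `Ind2 K r₁ ξ`), `ζ` by `finite_QF` and `SV_ne_zero_of_ne`. Take `ζ ∉ T` (`Ω` is infinite). If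
`aeval s (R3 W c F) = 0` for `s = ![x, 0, τ, ξ, 0, 0, ζ]` then C3 `exists_root_of_El` three times (the same
leading coefficients; values of `aeval` with `Function.update` by `aeval_rX`, `aeval_fA`, `aeval_fB`,
`aeval_rZ`) gives `ζ ∈ T`. -/
theorem exists_R3_ne_zero (W : Fin 2 → WeierstrassCurve K) [∀ t, (W t).IsElliptic] (c : Bool)
    (F : MvPolynomial (Fin 3) K) (hF : F ≠ 0) (h2 : F.degreeOf 2 ≠ 0) {x τ ξ : Ω}
    (hx : Ind2 K x ξ) (hτ : x ≠ τ)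
    (hr : ∀ r : Ω, S3 (W 0) ![x, 1] ![τ, 1] ![r, 1] = 0 → Ind2 K r ξ) :
    ∃ ζ : Ω, aeval (![x, 0, τ, ξ, 0, 0, ζ] : Fin 7 → Ω) (R3 W c F) ≠ 0 := by
  obtain ⟨ζ, hζ⟩ := (I8_finite W c F hF hx hτ hr).exists_notMem
  refine ⟨ζ, fun h0 => hζ ?_⟩
  obtain ⟨r₁, a1, b1⟩ := exists_root_of_El 1 (rX (W 0))
    (El 4 (fA F) (El 5 (fB F) (rZ (W 1) c)))
    (by rw [(lcv_rX (W 0) (![x, 0, τ, ξ, 0, 0, ζ] : Fin 7 → Ω) hτ).1]; decide)
    (![x, 0, τ, ξ, 0, 0, ζ] : Fin 7 → Ω) (lcv_rX (W 0) _ hτ).2 h0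
  rw [aeval_rX] at a1
  have a1' : S3 (W 0) ![x, 1] ![τ, 1] ![r₁, 1] = 0 := a1
  have hd4 : (fA F).degreeOf 4 ≠ 0 := by
    have h3 := degreeOf_fA F 2
    rw [show (![0, 3, 4] : Fin 3 → Fin 7) 2 = 4 from rfl] at h3
    rw [h3]
    exact h2
  have hd5 : (fB F).degreeOf 5 ≠ 0 := by
    have h3 := degreeOf_fB F 2
    rw [show (![1, 3, 5] : Fin 3 → Fin 7) 2 = 5 from rfl] at h3
    rw [h3]
    exact h2
  obtain ⟨r₄, a4, b4⟩ := exists_root_of_El 4 (fA F) (El 5 (fB F) (rZ (W 1) c)) hd4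
    (Function.update (![x, 0, τ, ξ, 0, 0, ζ] : Fin 7 → Ω) 1 r₁) (I8_lcvA F hF hx) b1
  rw [aeval_fA] at a4
  obtain ⟨r₅, a5, b5⟩ := exists_root_of_El 5 (fB F) (rZ (W 1) c) hd5
    (Function.update (Function.update (![x, 0, τ, ξ, 0, 0, ζ] : Fin 7 → Ω) 1 r₁) 4 r₄)
    (I8_lcvB F hF (hr r₁ a1')) b4
  rw [aeval_fB] at a5
  rw [aeval_rZ] at b5
  exact ⟨r₁, r₄, r₅, a1', a4, a5, b5⟩

end Pool.Agent.Lib.MP_17a322_nt.VJ
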