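import Pool.Agent.Lib.MP_17a322_nt.VJ.I4
import Pool.Agent.Lib.MP_17a322_nt.VJ.E8

/-!
# JOB I7: the relation between X and Z (paper, 10.2)

Variables of `MvPolynomial (Fin 7) K`: `0` is `X`, `1` is `X_t`, `2` is the x-coordinate of the torsion point,
`3` is `ξ_0`, `4` and `5` are the two values of `ξ_1`, `6` is `Z`. `R3` eliminates `5`, `4`, `1`.
-/

namespace Pool.Agent.Lib.MP_17a322_nt.VJ

open MvPolynomial

section

variable {K σ : Type*} [Field K] {t : σ}

theorem I7_add {f g : MvPolynomial σ K} {a : ℕ} (hf : f.degreeOf t ≤ a) (hg : g.degreeOf t ≤ a) :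
    (f + g).degreeOf t ≤ a := (degreeOf_add_le t f g).trans (max_le hf hg)

theorem I7_sub {f g : MvPolynomial σ K} {a : ℕ} (hf : f.degreeOf t ≤ a) (hg : g.degreeOf t ≤ a) :
    (f - g).degreeOf t ≤ a := (degreeOf_sub_le t f g).trans (max_le hf hg)

theorem I7_mul {f g : MvPolynomial σ K} {a b c : ℕ} (hf : f.degreeOf t ≤ a)
    (hg : g.degreeOf t ≤ b) (h : a + b ≤ c) : (f * g).degreeOf t ≤ c :=
  ((degreeOf_mul_le t f g).trans (Nat.add_le_add hf hg)).trans h

theorem I7_pow {f : MvPolynomial σ K} {a c : ℕ} (hf : f.degreeOf t ≤ a)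
    (h : 2 * a ≤ c) : (f ^ 2).degreeOf t ≤ c :=
  ((degreeOf_pow_le t f 2).trans (Nat.mul_le_mul_left 2 hf)).trans h

theorem I7_const (c : K) : (algebraMap K (MvPolynomial σ K) c).degreeOf t ≤ 0 := by
  rw [algebraMap_eq, degreeOf_C]

theorem I7_two : (2 : MvPolynomial σ K).degreeOf t ≤ 0 := by
  have h : (2 : MvPolynomial σ K) = C 2 := (map_ofNat C 2).symm
  rw [h, degreeOf_C]

theorem I7_SV (V : WeierstrassCurve K) (R Q : Fin 2 → MvPolynomial σ K) {r q : ℕ}
    (hR : ∀ i, (R i).degreeOf t ≤ r) (hQ : ∀ i, (Q i).degreeOf t ≤ q) (i : Fin 3) :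
    (SV V R Q i).degreeOf t ≤ 2 * r + 2 * q := by
  have hP : ∀ k l : Fin 2, (R k * Q l).degreeOf t ≤ r + q := fun k l =>
    I7_mul (hR k) (hQ l) le_rfl
  have hS : (R 0 * Q 1 + R 1 * Q 0).degreeOf t ≤ r + q := I7_add (hP 0 1) (hP 1 0)
  have hc : ∀ (c : K) (f : MvPolynomial σ K), f.degreeOf t ≤ r + q →
      (algebraMap K (MvPolynomial σ K) c * f).degreeOf t ≤ r + q := fun c f hf =>
    I7_mul (I7_const c) hf (by omega)
  have h2 : ∀ (f : MvPolynomial σ K), f.degreeOf t ≤ r + q →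
      (2 * f).degreeOf t ≤ r + q := fun f hf => I7_mul I7_two hf (by omega)
  fin_cases i
  · change (SV V R Q 0).degreeOf t ≤ _
    rw [SV_zero]
    refine I7_sub (I7_sub (I7_sub ?_ ?_) ?_) ?_
    · exact I7_pow (hP 0 0) (by omega)
    · exact I7_mul (hc _ _ (hP 0 0)) (hP 1 1) (by omega)
    · exact I7_mul (hc _ _ hS) (hP 1 1) (by omega)
    · exact I7_mul (I7_const _) (I7_pow (hP 1 1) (le_refl (2 * (r + q)))) (by omega)
  · change (SV V R Q 1).degreeOf t ≤ _
    rw [SV_one]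
    refine I7_add (I7_add (I7_add ?_ ?_) ?_) ?_
    · exact I7_mul (h2 _ hS) (hP 0 0) (by omega)
    · exact I7_mul (hc _ _ (hP 0 0)) (hP 1 1) (by omega)
    · exact I7_mul (hc _ _ hS) (hP 1 1) (by omega)
    · exact I7_mul (I7_const _) (I7_pow (hP 1 1) (le_refl (2 * (r + q)))) (by omega)
  · change (SV V R Q 2).degreeOf t ≤ _
    rw [SV_two]
    unfold wd
    exact I7_pow (I7_sub (hP 0 1) (hP 1 0)) (by omega)

theorem I7_S3 (V : WeierstrassCurve K) (R Q Z : Fin 2 → MvPolynomial σ K) {r q z : ℕ}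
    (hR : ∀ i, (R i).degreeOf t ≤ r) (hQ : ∀ i, (Q i).degreeOf t ≤ q)
    (hZ : ∀ i, (Z i).degreeOf t ≤ z) :
    (S3 V R Q Z).degreeOf t ≤ 2 * r + 2 * q + 2 * z := by
  unfold S3 QF
  have h := I7_SV V R Q hR hQ
  refine I7_add (I7_sub ?_ ?_) ?_
  · exact I7_mul (h 0) (I7_pow (hZ 1) le_rfl) le_rfl
  · exact I7_mul (h 1) (I7_mul (hZ 0) (hZ 1) le_rfl) (by omega)
  · exact I7_mul (h 2) (I7_pow (hZ 0) le_rfl) le_rfl

theorem I7_S3_mem {A : Type*} [CommRing A] [Algebra K A] (B : Subalgebra K A)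
    (V : WeierstrassCurve K) (R Q Z : Fin 2 → A) (hR : ∀ i, R i ∈ B) (hQ : ∀ i, Q i ∈ B)
    (hZ : ∀ i, Z i ∈ B) : S3 V R Q Z ∈ B := by
  have h := map_S3 V B.val (fun i => ⟨R i, hR i⟩) (fun i => ⟨Q i, hQ i⟩) (fun i => ⟨Z i, hZ i⟩)
  have h1 : S3 V R Q Z = B.val (S3 V (fun i => ⟨R i, hR i⟩) (fun i => ⟨Q i, hQ i⟩)
      (fun i => ⟨Z i, hZ i⟩)) := h.symm
  rw [h1]
  exact Subtype.property _

theorem I7_X [DecidableEq σ] (a : σ) : (X a : MvPolynomial σ K).degreeOf t = if t = a then 1 else 0 := by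
  split_ifs with h
  · subst h; exact degreeOf_X_self t
  · exact degreeOf_X_of_ne h

end


section

variable {K : Type*} [Field K]

/-- The relation of `X`, `x(t)`, `X_t`. -/
noncomputable def rX (V : WeierstrassCurve K) : MvPolynomial (Fin 7) K :=
  S3 V ![X 0, 1] ![X 2, 1] ![X 1, 1]

/-- `F(X, ξ_0, Y)`. -/
noncomputable def fA (F : MvPolynomial (Fin 3) K) : MvPolynomial (Fin 7) K :=
  rename (![0, 3, 4] : Fin 3 → Fin 7) F

/-- `F(X_t, ξ_0, Y')`. -/
noncomputable def fB (F : MvPolynomial (Fin 3) K) : MvPolynomial (Fin 7) K :=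
  rename (![1, 3, 5] : Fin 3 → Fin 7) F

/-- The relation of `Y`, `Y'`, `Z`. -/
noncomputable def rZ (V : WeierstrassCurve K) (c : Bool) : MvPolynomial (Fin 7) K :=
  S3 V (vc c (X 4)) (vc c (X 5)) ![X 6, 1]

/-- The eliminant. -/
noncomputable def R3 (W : Fin 2 → WeierstrassCurve K) (c : Bool) (F : MvPolynomial (Fin 3) K) :
    MvPolynomial (Fin 7) K :=
  El 1 (rX (W 0)) (El 4 (fA F) (El 5 (fB F) (rZ (W 1) c)))

/-- Each of `R 0, R 1` etc. has degree at most one in the variable; expand with `SV_zero`, `SV_one`,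
`SV_two`; `degreeOf_add_le`, `degreeOf_mul_le`, `degreeOf_pow_le`, `degreeOf_X`, `degreeOf_C`. -/
theorem degreeOf_rX (V : WeierstrassCurve K) (t : Fin 7) : (rX V).degreeOf t ≤ 2 := by
  have h := I7_S3 (t := t) V ![X 0, 1] ![X 2, 1] ![X 1, 1]
    (r := if t = 0 then 1 else 0) (q := if t = 2 then 1 else 0) (z := if t = 1 then 1 else 0)
    (fun i => by fin_cases i <;> simp [I7_X]) (fun i => by fin_cases i <;> simp [I7_X])
    (fun i => by fin_cases i <;> simp [I7_X])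
  refine h.trans ?_
  fin_cases t <;> simp

theorem degreeOf_rZ (V : WeierstrassCurve K) (c : Bool) (t : Fin 7) :
    (rZ V c).degreeOf t ≤ 2 := by
  have h := I7_S3 (t := t) V (vc c (X 4)) (vc c (X 5)) ![X 6, 1]
    (r := if t = 4 then 1 else 0) (q := if t = 5 then 1 else 0) (z := if t = 6 then 1 else 0)
    (fun i => by cases c <;> fin_cases i <;> simp [vc, I7_X])
    (fun i => by cases c <;> fin_cases i <;> simp [vc, I7_X])
    (fun i => by fin_cases i <;> simp [I7_X])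
  refine h.trans ?_
  fin_cases t <;> simp

/-- `vars` of a sum, product, `vars_X`. -/
theorem vars_rX (V : WeierstrassCurve K) : (rX V).vars ⊆ {0, 1, 2} := by
  have h := I7_S3_mem (supported K (({0, 1, 2} : Finset (Fin 7)) : Set (Fin 7))) V
    ![X 0, 1] ![X 2, 1] ![X 1, 1]
    (fun i => by
      fin_cases i
      · exact X_mem_supported.2 (by decide)
      · exact one_mem _)
    (fun i => by
      fin_cases i
      · exact X_mem_supported.2 (by decide)
      · exact one_mem _)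
    (fun i => by
      fin_cases i
      · exact X_mem_supported.2 (by decide)
      · exact one_mem _)
  exact Finset.coe_subset.1 (mem_supported.1 h)

theorem vars_rZ (V : WeierstrassCurve K) (c : Bool) : (rZ V c).vars ⊆ {4, 5, 6} := by
  have h := I7_S3_mem (supported K (({4, 5, 6} : Finset (Fin 7)) : Set (Fin 7))) V
    (vc c (X 4)) (vc c (X 5)) ![X 6, 1]
    (fun i => by
      cases c <;> fin_cases i
      · exact X_mem_supported.2 (by decide)
      · exact one_mem _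
      · exact one_mem _
      · exact X_mem_supported.2 (by decide))
    (fun i => by
      cases c <;> fin_cases i
      · exact X_mem_supported.2 (by decide)
      · exact one_mem _
      · exact one_mem _
      · exact X_mem_supported.2 (by decide))
    (fun i => by
      fin_cases i
      · exact X_mem_supported.2 (by decide)
      · exact one_mem _)
  exact Finset.coe_subset.1 (mem_supported.1 h)

/-- `degreeOf_rename_of_injective`. -/
theorem degreeOf_fA (F : MvPolynomial (Fin 3) K) (i : Fin 3) :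
    (fA F).degreeOf ((![0, 3, 4] : Fin 3 → Fin 7) i) = F.degreeOf i := by
  exact degreeOf_rename_of_injective (by decide) i

theorem degreeOf_fB (F : MvPolynomial (Fin 3) K) (i : Fin 3) :
    (fB F).degreeOf ((![1, 3, 5] : Fin 3 → Fin 7) i) = F.degreeOf i := by
  exact degreeOf_rename_of_injective (by decide) i

theorem vars_fA (F : MvPolynomial (Fin 3) K) : (fA F).vars ⊆ {0, 3, 4} := by
  refine (vars_rename _ _).trans ?_
  intro x hx
  obtain ⟨i, -, rfl⟩ := Finset.mem_image.1 hx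
  fin_cases i <;> decide

theorem vars_fB (F : MvPolynomial (Fin 3) K) : (fB F).vars ⊆ {1, 3, 5} := by
  refine (vars_rename _ _).trans ?_
  intro x hx
  obtain ⟨i, -, rfl⟩ := Finset.mem_image.1 hx
  fin_cases i <;> decide

/-- `vars_El_subset` (C2). -/
theorem vars_R3 (W : Fin 2 → WeierstrassCurve K) (c : Bool) (F : MvPolynomial (Fin 3) K) :
    (R3 W c F).vars ⊆ {0, 2, 3, 6} := by
  have h1 : (El 5 (fB F) (rZ (W 1) c)).vars ⊆ ({1, 3, 4, 6} : Finset (Fin 7)) :=
    (vars_El_subset 5 _ _).trans ((Finset.erase_subset_erase 5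
      (Finset.union_subset_union (vars_fB F) (vars_rZ (W 1) c))).trans (by decide))
  have h2 : (El 4 (fA F) (El 5 (fB F) (rZ (W 1) c))).vars ⊆ ({0, 1, 3, 6} : Finset (Fin 7)) :=
    (vars_El_subset 4 _ _).trans ((Finset.erase_subset_erase 4
      (Finset.union_subset_union (vars_fA F) h1)).trans (by decide))
  exact (vars_El_subset 1 _ _).trans ((Finset.erase_subset_erase 1
      (Finset.union_subset_union (vars_rX (W 0)) h2)).trans (by decide))

/-- `degreeOf_El_le` (C2) three times: `E1 = El 5 (fB F) (rZ)`: `deg_0 = 0`, `deg_1 ≤ 2 s`, `deg_4 ≤ 2 b`;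
`E2 = El 4 (fA F) E1`: `deg_0 ≤ 2 b s`, `deg_1 ≤ 2 b s`; `R3`: `deg_0 ≤ 2 (2 b s) + 2 (2 b s)`. (A variable not
in `vars` has degree `0`: `degreeOf_eq_zero_iff` or `notMem_vars`.) -/
theorem degreeOf_R3 (W : Fin 2 → WeierstrassCurve K) (c : Bool) (F : MvPolynomial (Fin 3) K)
    {s b : ℕ} (hs : F.degreeOf 0 ≤ s) (hb : F.degreeOf 2 ≤ b) :
    (R3 W c F).degreeOf 0 ≤ 8 * b * s := by
  have hz : ∀ (P : MvPolynomial (Fin 7) K) (T : Finset (Fin 7)) (t : Fin 7), P.vars ⊆ T →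
      t ∉ T → P.degreeOf t = 0 := by
    intro P T t hP ht
    rw [← Nat.le_zero, degreeOf_le_iff]
    intro m hm
    by_contra h0
    exact ht (hP ((mem_vars_iff_mem_support t).2 ⟨m, hm, Finsupp.mem_support_iff.2 (by omega)⟩))
  have hA4 : (fA F).degreeOf 4 ≤ b := (degreeOf_fA F 2).le.trans hb
  have hA0 : (fA F).degreeOf 0 ≤ s := (degreeOf_fA F 0).le.trans hs
  have hA1 : (fA F).degreeOf 1 = 0 := hz _ _ 1 (vars_fA F) (by decide)
  have hB5 : (fB F).degreeOf 5 ≤ b := (degreeOf_fB F 2).le.trans hb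
  have hB1 : (fB F).degreeOf 1 ≤ s := (degreeOf_fB F 0).le.trans hs
  have hB0 : (fB F).degreeOf 0 = 0 := hz _ _ 0 (vars_fB F) (by decide)
  have hB4 : (fB F).degreeOf 4 = 0 := hz _ _ 4 (vars_fB F) (by decide)
  have hZ0 : (rZ (W 1) c).degreeOf 0 = 0 := hz _ _ 0 (vars_rZ _ _) (by decide)
  have hZ1 : (rZ (W 1) c).degreeOf 1 = 0 := hz _ _ 1 (vars_rZ _ _) (by decide)
  have hZ4 : (rZ (W 1) c).degreeOf 4 ≤ 2 := degreeOf_rZ _ _ _
  have hZ5 : (rZ (W 1) c).degreeOf 5 ≤ 2 := degreeOf_rZ _ _ _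
  have hE0 : (El 5 (fB F) (rZ (W 1) c)).degreeOf 0 ≤ 0 := by
    refine (degreeOf_El_le' 5 _ _ 0).trans ?_
    rw [hB0, hZ0, mul_zero, mul_zero, add_zero]
  have hE1 : (El 5 (fB F) (rZ (W 1) c)).degreeOf 1 ≤ 2 * s := by
    refine (degreeOf_El_le' 5 _ _ 1).trans ?_
    rw [hZ1, mul_zero, add_zero]
    exact Nat.mul_le_mul hZ5 hB1
  have hE4 : (El 5 (fB F) (rZ (W 1) c)).degreeOf 4 ≤ b * 2 := by
    refine (degreeOf_El_le' 5 _ _ 4).trans ?_
    rw [hB4, mul_zero, zero_add]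
    exact Nat.mul_le_mul hB5 hZ4
  have hG0 : (El 4 (fA F) (El 5 (fB F) (rZ (W 1) c))).degreeOf 0 ≤ b * 2 * s + b * 0 :=
    (degreeOf_El_le' 4 _ _ 0).trans (Nat.add_le_add (Nat.mul_le_mul hE4 hA0)
      (Nat.mul_le_mul hA4 hE0))
  have hG1 : (El 4 (fA F) (El 5 (fB F) (rZ (W 1) c))).degreeOf 1 ≤ b * 2 * 0 + b * (2 * s) :=
    (degreeOf_El_le' 4 _ _ 1).trans (Nat.add_le_add (Nat.mul_le_mul hE4 hA1.le)
      (Nat.mul_le_mul hA4 hE1))
  have hR := (degreeOf_El_le' 1 (rX (W 0)) (El 4 (fA F) (El 5 (fB F) (rZ (W 1) c))) 0).trans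
    (Nat.add_le_add (Nat.mul_le_mul hG1 (degreeOf_rX (W 0) 0))
      (Nat.mul_le_mul (degreeOf_rX (W 0) 1) hG0))
  refine hR.trans (le_of_eq ?_)
  ring

end

section

variable {K Ω : Type*} [Field K] [Field Ω] [Algebra K Ω]

/-- `map_S3` (E3). -/
theorem aeval_rX (V : WeierstrassCurve K) (s : Fin 7 → Ω) :
    aeval s (rX V) = S3 V ![s 0, 1] ![s 2, 1] ![s 1, 1] := by
  unfold rX
  rw [map_S3]
  congr 1
  · funext j; fin_cases j <;> simp
  · funext j; fin_cases j <;> simp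
  · funext j; fin_cases j <;> simp

theorem aeval_rZ (V : WeierstrassCurve K) (c : Bool) (s : Fin 7 → Ω) :
    aeval s (rZ V c) = S3 V (vc c (s 4)) (vc c (s 5)) ![s 6, 1] := by
  unfold rZ
  rw [map_S3]
  congr 1
  · funext j; cases c <;> fin_cases j <;> simp [vc]
  · funext j; cases c <;> fin_cases j <;> simp [vc]
  · funext j; fin_cases j <;> simp

theorem aeval_fA (F : MvPolynomial (Fin 3) K) (s : Fin 7 → Ω) :
    aeval s (fA F) = aeval ![s 0, s 3, s 4] F := by
  unfold fA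
  rw [aeval_rename]
  congr 2
  funext j; fin_cases j <;> rfl

theorem aeval_fB (F : MvPolynomial (Fin 3) K) (s : Fin 7 → Ω) :
    aeval s (fB F) = aeval ![s 1, s 3, s 5] F := by
  unfold fB
  rw [aeval_rename]
  congr 2
  funext j; fin_cases j <;> rfl

/-- `QF` of the vector `SV` as a polynomial in the third argument: the coefficient of `(s 1) ^ 2` is
`(s 0 - s 2) ^ 2`. Here: the leading coefficient of `rX` in the variable `1`: if `s 0 ≠ s 2` then
`(rX V).degreeOf 1 = 2` and `aeval s (lcv 1 (rX V)) = (s 0 - s 2) ^ 2 ≠ 0`.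
Proof. `ev1 1 s (rX V) = C (SV .. 0) - C (SV .. 1) * X + C (SV .. 2) * X ^ 2` with
`SV V ![s 0, 1] ![s 2, 1] 2 = (s 0 - s 2) ^ 2` (`SV_two`): two polynomials over an infinite field with the
same values (`eval_ev1`, `aeval_rX`), or directly `vw_add`, `vw_mul`. Its coefficient at `2` is not zero, so
`2 ≤ natDegree ≤ degreeOf 1 (rX V) ≤ 2` (`natDegree_ev1_le`, `degreeOf_rX`), `coeff_ev1_degreeOf`. -/
theorem lcv_rX [Infinite Ω] (V : WeierstrassCurve K) (s : Fin 7 → Ω) (h : s 0 ≠ s 2) :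
    (rX V).degreeOf 1 = 2 ∧ aeval s (lcv 1 (rX V)) ≠ 0 := by
  have hv : vw 1 (rX V) = QF
      (fun i => Polynomial.C (SV V ![X 0, 1] ![X 2, 1] i : MvPolynomial (Fin 7) K))
      ![Polynomial.X, 1] := by
    rw [vw_eq_hom]
    unfold rX S3
    rw [map_QF]
    congr 1
    · funext i
      rw [map_SV]
      have h1 := map_SV V (Polynomial.CAlgHom (R := K) (A := MvPolynomial (Fin 7) K))
        (![X 0, 1] : Fin 2 → MvPolynomial (Fin 7) K) (![X 2, 1] : Fin 2 → MvPolynomial (Fin 7) K) i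
      refine Eq.trans ?_ h1.symm
      congr 1
      · funext j
        fin_cases j
        · exact vw_X_of_ne 1 (by decide)
        · exact map_one (vwHom 1)
      · funext j
        fin_cases j
        · exact vw_X_of_ne 1 (by decide)
        · exact map_one (vwHom 1)
    · funext j
      fin_cases j
      · exact vw_X_self 1
      · exact map_one (vwHom 1)
  have hc : (vw 1 (rX V)).coeff 2 = (SV V ![X 0, 1] ![X 2, 1] 2 : MvPolynomial (Fin 7) K) := by
    rw [hv]
    unfold QF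
    simp only [Matrix.cons_val_zero, Matrix.cons_val_one, one_pow, mul_one,
      Polynomial.coeff_add, Polynomial.coeff_sub, Polynomial.coeff_C_mul, Polynomial.coeff_X_pow]
    rw [Polynomial.coeff_C, Polynomial.coeff_X]
    simp
  have ha : aeval s ((vw 1 (rX V)).coeff 2) = (s 0 - s 2) ^ 2 := by
    rw [hc, SV_two]
    unfold wd
    simp
  have hne : aeval s ((vw 1 (rX V)).coeff 2) ≠ 0 := by
    rw [ha]
    exact pow_ne_zero 2 (sub_ne_zero.2 h)
  have hd : (rX V).degreeOf 1 = 2 := by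
    apply le_antisymm (degreeOf_rX V 1)
    rw [← natDegree_vw]
    apply Polynomial.le_natDegree_of_ne_zero
    intro h0
    rw [h0, map_zero] at hne
    exact hne rfl
  refine ⟨hd, ?_⟩
  unfold lcv
  rw [hd]
  exact hne

/-- If the four relations hold at `s` then `R3` vanishes. Proof: `aeval_dvd_El` (C2) three times
(`0 ∣ y` gives `y = 0`). -/
theorem aeval_R3 (W : Fin 2 → WeierstrassCurve K) (c : Bool) (F : MvPolynomial (Fin 3) K)
    (hF : F.degreeOf 2 ≠ 0) (hd : (rX (W 0)).degreeOf 1 ≠ 0) (s : Fin 7 → Ω)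
    (h1 : S3 (W 0) ![s 0, 1] ![s 2, 1] ![s 1, 1] = 0) (h2 : aeval ![s 0, s 3, s 4] F = 0)
    (h3 : aeval ![s 1, s 3, s 5] F = 0)
    (h4 : S3 (W 1) (vc c (s 4)) (vc c (s 5)) ![s 6, 1] = 0) : aeval s (R3 W c F) = 0 := by
  have e1 : aeval s (El 5 (fB F) (rZ (W 1) c)) = 0 := by
    have h := aeval_dvd_El 5 (fB F) (rZ (W 1) c)
      (Or.inl (by rw [show (5 : Fin 7) = (![1, 3, 5] : Fin 3 → Fin 7) 2 from rfl, degreeOf_fB]
                  exact hF)) s (by rw [aeval_fB]; exact h3)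
    rw [aeval_rZ, h4] at h
    exact zero_dvd_iff.1 h
  have e2 : aeval s (El 4 (fA F) (El 5 (fB F) (rZ (W 1) c))) = 0 := by
    have h := aeval_dvd_El 4 (fA F) (El 5 (fB F) (rZ (W 1) c))
      (Or.inl (by rw [show (4 : Fin 7) = (![0, 3, 4] : Fin 3 → Fin 7) 2 from rfl, degreeOf_fA]
                  exact hF)) s (by rw [aeval_fA]; exact h2)
    rw [e1] at h
    exact zero_dvd_iff.1 h
  have h := aeval_dvd_El 1 (rX (W 0)) (El 4 (fA F) (El 5 (fB F) (rZ (W 1) c)))
    (Or.inl hd) s (by rw [aeval_rX]; exact h1)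
  rw [e2] at h
  exact zero_dvd_iff.1 h

end

end Pool.Agent.Lib.MP_17a322_nt.VJ
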