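import Pool.Agent.Lib.MP_17a322_nt.VJ.I6
import Pool.Agent.Lib.MP_17a322_nt.VJ.I7

/-!
# JOB I9: the upper bound of the degree
-/

namespace Pool.Agent.Lib.MP_17a322_nt.VJ

open MvPolynomial

/-- One quadratic step. -/
theorem I9_quad {B Ω : Type*} [Field B] [Field Ω] [Algebra B Ω]
    (E : IntermediateField B Ω) {n : ℕ} (hE : FiniteDimensional B E)
    (hn : Module.finrank B E ≤ n) (s : Fin 3 → Ω) (hs : s ≠ 0) (hsE : ∀ i, s i ∈ E)
    {z : Ω} (hz : QF s ![z, 1] = 0) :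
    ∃ E' : IntermediateField B Ω, E ≤ E' ∧ z ∈ E' ∧ FiniteDimensional B E' ∧
      Module.finrank B E' ≤ n * 2 := by
  have hc : ∀ j, (Polynomial.C (s 0) - Polynomial.C (s 1) * Polynomial.X +
      Polynomial.C (s 2) * Polynomial.X ^ 2 : Polynomial Ω).coeff j =
      if j = 0 then s 0 else if j = 1 then - s 1 else if j = 2 then s 2 else 0 := by
    intro j
    rcases j with _ | _ | _ | j <;>
      simp [Polynomial.coeff_C, Polynomial.coeff_X, Polynomial.coeff_X_pow]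
  refine exists_extend E hE hn (Polynomial.C (s 0) - Polynomial.C (s 1) * Polynomial.X +
      Polynomial.C (s 2) * Polynomial.X ^ 2) ?_ ?_ ?_ ?_
  · intro h0
    apply hs
    have h1 : ∀ j, (if j = 0 then s 0 else if j = 1 then - s 1 else if j = 2 then s 2 else 0) = 0 := by
      intro j
      rw [← hc, h0, Polynomial.coeff_zero]
    funext i
    fin_cases i
    · simpa using h1 0
    · simpa using h1 1
    · simpa using h1 2
  · intro j
    rw [hc]
    split_ifs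
    · exact hsE 0
    · exact neg_mem (hsE 1)
    · exact hsE 2
    · exact zero_mem _
  · rw [Polynomial.natDegree_le_iff_coeff_eq_zero]
    intro j hj
    rw [hc, if_neg (by omega), if_neg (by omega), if_neg (by omega)]
  · rw [← hz]
    simp [QF]

/-- One step along the curve. -/
theorem I9_curve {K B Ω : Type*} [Field K] [Field B] [Field Ω] [Algebra K Ω] [Algebra K B]
    [Algebra B Ω] [IsScalarTower K B Ω] {D n : ℕ}
    {g : MvPolynomial (Fin 2) K} (hg : g ≠ 0) (hD : g.degreeOf 1 ≤ D)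
    {x z : Ω} (hx : x ∉ acl K (∅ : Set Ω)) (h1 : aeval ![x, z] g = 0)
    (E : IntermediateField B Ω) (hE : FiniteDimensional B E) (hn : Module.finrank B E ≤ n)
    (hxE : x ∈ E) :
    ∃ E' : IntermediateField B Ω, E ≤ E' ∧ z ∈ E' ∧ FiniteDimensional B E' ∧
      Module.finrank B E' ≤ n * D := by
  have hfin : ∀ t : Fin 2, t ≠ 1 → t = 0 := by
    intro t ht
    fin_cases t
    · rfl
    · exact absurd rfl ht
  refine exists_extend E hE hn (ev1 (1 : Fin 2) ![x, 0] g) ?_ ?_ ?_ ?_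
  · intro h0
    have h2 : aeval (![x, 0] : Fin 2 → Ω) (lcv (1 : Fin 2) g) ≠ 0 := by
      apply aeval_ne_zero₁ (y := 0) (lcv_ne_zero hg)
      · intro t ht
        have h3 := vars_lcv g ht
        rw [Finset.mem_erase] at h3
        rw [Finset.mem_singleton]
        exact hfin t h3.1
      · exact hx
    apply h2
    rw [← coeff_ev1_degreeOf, h0, Polynomial.coeff_zero]
  · intro j
    have := coeff_ev1_mem (K := K) (IntermediateField.restrictScalars K E) (1 : Fin 2)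
      (s := ![x, 0]) g (fun t _ ht => by
        rw [hfin t ht]
        exact hxE) j
    exact this
  · exact (natDegree_ev1_le _ _ _).trans hD
  · rw [eval_ev1, ← h1]
    congr 2
    funext t
    fin_cases t
    · rfl
    · rfl

/-- The coefficients are in the field. -/
theorem I9_SV_mem {K B Ω : Type*} [Field K] [Field B] [Field Ω] [Algebra K Ω] [Algebra K B]
    [Algebra B Ω] [IsScalarTower K B Ω] (W : WeierstrassCurve K) (E : IntermediateField B Ω)
    {a b : Ω} (ha : a ∈ E) (hb : b ∈ E) (i : Fin 3) : SV W (![a, 1] : Fin 2 → Ω) ![b, 1] i ∈ E := by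
  have hK : ∀ r : K, algebraMap K Ω r ∈ E := by
    intro r
    rw [IsScalarTower.algebraMap_apply K B Ω]
    exact E.algebraMap_mem _
  have h2 : (2 : Ω) ∈ E := ofNat_mem E 2
  fin_cases i
  · show SV W (![a, 1] : Fin 2 → Ω) ![b, 1] 0 ∈ E
    rw [SV_zero]
    simp only [Matrix.cons_val_zero, Matrix.cons_val_one, mul_one, one_mul, one_pow]
    exact sub_mem (sub_mem (sub_mem (pow_mem (mul_mem ha hb) _)
      (mul_mem (hK _) (mul_mem ha hb))) (mul_mem (hK _) (add_mem ha hb))) (hK _)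
  · show SV W (![a, 1] : Fin 2 → Ω) ![b, 1] 1 ∈ E
    rw [SV_one]
    simp only [Matrix.cons_val_zero, Matrix.cons_val_one, mul_one, one_mul, one_pow]
    exact add_mem (add_mem (add_mem (mul_mem (mul_mem h2 (add_mem ha hb)) (mul_mem ha hb))
      (mul_mem (hK _) (mul_mem ha hb))) (mul_mem (hK _) (add_mem ha hb))) (hK _)
  · show SV W (![a, 1] : Fin 2 → Ω) ![b, 1] 2 ∈ E
    rw [SV_two]
    unfold wd
    simp only [Matrix.cons_val_zero, Matrix.cons_val_one, mul_one, one_mul]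
    exact pow_mem (sub_mem ha hb) _

/-- Four successive extensions. Let `E` be a finite extension of `B` in `Ω` containing `x` and `τ`. Adjoin
successively `x₂` (root of `g(x, ·)`, degree `≤ D`), `xt` (root of `S3 (W 0) ![x, 1] ![τ, 1] ![·, 1]`, degree
`≤ 2`), `x₂'` (root of `g(xt, ·)`), `xw` (root of `S3 (W 1) ![x₂', 1] ![x₂, 1] ![·, 1]`).
Proof: `exists_extend` (I6) four times. The polynomials are `ev1 1 ![x, 0] g` (not zero since `aeval_ne_zero₁`
applies to `lcv 1 g ≠ 0`, `vars ⊆ {0}`; `coeff_ev1_degreeOf`), `ev1 1 ![xt, 0] g`, and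
`C (s 0) - C (s 1) * X + C (s 2) * X ^ 2` with `s = SV (W 0) ![x, 1] ![τ, 1]`, resp.
`SV (W 1) ![x₂', 1] ![x₂, 1]`, which are nonzero vectors by hypothesis and whose entries are in `E`
(`SV_zero`, `SV_one`, `SV_two`). The coefficients are in the fields by `coeff_ev1_mem` for
`E'.restrictScalars K`. -/
theorem exists_tower {K B Ω : Type*} [Field K] [Field B] [Field Ω] [Algebra K Ω] [Algebra K B]
    [Algebra B Ω] [IsScalarTower K B Ω] (W : Fin 2 → WeierstrassCurve K) {D n : ℕ}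
    {g : MvPolynomial (Fin 2) K} (hg : g ≠ 0) (hD : g.degreeOf 1 ≤ D)
    {x τ x₂ xt x₂' xw : Ω} (hx : x ∉ acl K (∅ : Set Ω)) (hxt : xt ∉ acl K (∅ : Set Ω))
    (h1 : aeval ![x, x₂] g = 0) (h2 : S3 (W 0) ![x, 1] ![τ, 1] ![xt, 1] = 0)
    (h3 : aeval ![xt, x₂'] g = 0) (h4 : S3 (W 1) ![x₂', 1] ![x₂, 1] ![xw, 1] = 0)
    (hs1 : SV (W 0) (![x, 1] : Fin 2 → Ω) ![τ, 1] ≠ 0)
    (hs2 : SV (W 1) (![x₂', 1] : Fin 2 → Ω) ![x₂, 1] ≠ 0)
    (E : IntermediateField B Ω) (hE : FiniteDimensional B E) (hn : Module.finrank B E ≤ n)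
    (hxE : x ∈ E) (hτE : τ ∈ E) :
    ∃ E' : IntermediateField B Ω, xw ∈ E' ∧ FiniteDimensional B E' ∧
      Module.finrank B E' ≤ n * (4 * D ^ 2) := by
  obtain ⟨E1, hE1, hx2, hf1, hn1⟩ := I9_curve hg hD hx h1 E hE hn hxE
  obtain ⟨E2, hE2, hxt2, hf2, hn2⟩ := I9_quad (B := B) E1 hf1 hn1 _ hs1
    (I9_SV_mem (W 0) E1 (hE1 hxE) (hE1 hτE)) h2
  obtain ⟨E3, hE3, hx3, hf3, hn3⟩ := I9_curve hg hD hxt h3 E2 hf2 hn2 hxt2
  obtain ⟨E4, hE4, hx4, hf4, hn4⟩ := I9_quad (B := B) E3 hf3 hn3 _ hs2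
    (I9_SV_mem (W 1) E3 hx3 (hE3 (hE2 hx2))) h4
  refine ⟨E4, hx4, hf4, hn4.trans (le_of_eq ?_)⟩
  ring

end Pool.Agent.Lib.MP_17a322_nt.VJ
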