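import Pool.Agent.Lib.MP_17a322_nt.VJ.I2
import Pool.Agent.Lib.MP_17a322_nt.VJ.I8
import Pool.Agent.Lib.MP_17a322_nt.VJ.I9

/-!
# JOB I10: (10.2), the degree argument
-/

namespace Pool.Agent.Lib.MP_17a322_nt.VJ

open MvPolynomial WeierstrassCurve

section

variable {K Ω : Type*} [Field K] [CharZero K] [Field Ω] [DecidableEq Ω] [Algebra K Ω]
  [IsAlgClosed Ω]

/-- Translation by a point with coordinates in `acl K ∅` does not change genericity.
Proof. `P = u + T` or `u - T` has `PA (acl K {x}) P`. If `r ∈ acl K ∅` then `u = P ∓ T` has `PA (acl K ∅) u`,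
against `x ∉ acl K ∅`. And `ξ ∈ acl K {r} ≤ acl K {x}` is impossible. (`PA.add`, `PA.sub`, `PA.mem`,
`PA.mono`, `PA_of_xRep`, `acl_le_acl`.) -/
theorem ind2_of_translate (W : WeierstrassCurve K) [W.IsElliptic] {x ξ r : Ω} (h : Ind2 K x ξ)
    (u T P : (W.map (algebraMap K Ω)).toAffine.Point) (hu : u.xRep = ![x, 1])
    (hT : PA (acl K (∅ : Set Ω)) T) (hP : P = u + T ∨ P = u - T) (hr : P.xRep = ![r, 1]) :
    Ind2 K r ξ := by
  have hTA : ∀ S : Set Ω, PA (acl K S) T := fun S => hT.mono (acl_mono (Set.empty_subset S))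
  have h1 : x ∈ acl K {r} := by
    have hPA : PA (acl K {r}) P := PA_of_xRep hr (mem_acl_of_mem (Set.mem_singleton r))
    have hu' : PA (acl K {r}) u := by
      rcases hP with hP | hP
      · have h2 : u = P - T := by rw [hP, add_sub_cancel_right]
        rw [h2]
        exact PA.sub (Clo_acl _) hPA (hTA _)
      · have h2 : u = P + T := by rw [hP, sub_add_cancel]
        rw [h2]
        exact PA.add (Clo_acl _) hPA (hTA _)
    exact hu'.mem hu
  have h2 : r ∈ acl K {x} := by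
    have huA : PA (acl K {x}) u := PA_of_xRep hu (mem_acl_of_mem (Set.mem_singleton x))
    have hP' : PA (acl K {x}) P := by
      rcases hP with hP | hP
      · rw [hP]
        exact PA.add (Clo_acl _) huA (hTA _)
      · rw [hP]
        exact PA.sub (Clo_acl _) huA (hTA _)
    exact hP'.mem hr
  exact h.of_acl h1 (mem_acl_of_mem (Set.mem_singleton ξ)) h2

/-- The coordinate `z` of `2 ^ e • w` for a point `w` with coordinate `xw` transcendental over the relatively
algebraically closed field `A`. With `a`, `b` the two entries of `mu W e ![X, 1]` over `K`: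
`z * b(xw) = a(xw)` and `z` is transcendental over `A`.
Proof. E4 `mu_xRep` and E8 `aeval_mu_X`: `(a(xw), b(xw)) = γ • (2 ^ e • w).xRep`, and `b(xw) ≠ 0` since
`b ≠ 0` (E8 `mu_X_one_ne_zero`) and `xw` is transcendental over `K`; so `2 ^ e • w` is affine. If `z` were in
`A` then `xw` would be a root of the polynomial `a - z b` over `A`, which has degree `4 ^ e` (E8
`mu_X_degrees`), so `xw` would be algebraic over `A`. -/
theorem exists_coord (W : WeierstrassCurve K) [W.IsElliptic] (A : IntermediateField K Ω)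
    (hA : Clo A) (e : ℕ) (w : (W.map (algebraMap K Ω)).toAffine.Point) {xw : Ω}
    (hw : w.xRep = ![xw, 1]) (hxw : xw ∉ A) :
    ∃ z : Ω, (2 ^ e • w).xRep = ![z, 1] ∧ z ∉ A ∧
      z * Polynomial.aeval xw (mu W e ![(Polynomial.X : Polynomial K), 1] 1) =
        Polynomial.aeval xw (mu W e ![(Polynomial.X : Polynomial K), 1] 0) := by
  obtain ⟨γ, hγ, hmu⟩ := mu_xRep W (W.map (algebraMap K Ω)) rfl e w
  rw [hw] at hmu
  have ha : Polynomial.aeval xw (mu W e ![(Polynomial.X : Polynomial K), 1] 0) =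
      γ * (2 ^ e • w).xRep 0 := by
    rw [aeval_mu_X, hmu, Pi.smul_apply, smul_eq_mul]
  have hb : Polynomial.aeval xw (mu W e ![(Polynomial.X : Polynomial K), 1] 1) =
      γ * (2 ^ e • w).xRep 1 := by
    rw [aeval_mu_X, hmu, Pi.smul_apply, smul_eq_mul]
  have hbne : Polynomial.aeval xw (mu W e ![(Polynomial.X : Polynomial K), 1] 1) ≠ 0 := by
    intro h0
    apply hxw
    apply hA
    have h1 : IsAlgebraic K xw := ⟨_, mu_X_one_ne_zero W e, h0⟩
    exact h1.tower_top A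
  have hne : 2 ^ e • w ≠ 0 := by
    intro h0
    apply hbne
    rw [hb, h0, xRep_zero]
    simp
  have h1 := xRep_one hne
  rw [h1, mul_one] at hb
  refine ⟨(2 ^ e • w).xRep 0, xRep_eq hne, ?_, ?_⟩
  · intro hz
    apply hxw
    apply hA
    obtain ⟨hm, hd0, hd1⟩ := mu_X_degrees W e
    refine ⟨(mu W e ![(Polynomial.X : Polynomial K), 1] 0).map (algebraMap K A) -
      Polynomial.C ⟨_, hz⟩ * (mu W e ![(Polynomial.X : Polynomial K), 1] 1).map (algebraMap K A),
      ?_, ?_⟩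
    · intro h0
      have h2 : ((mu W e ![(Polynomial.X : Polynomial K), 1] 0).map (algebraMap K A)).natDegree =
          4 ^ e := by rw [Polynomial.natDegree_map, hd0]
      rw [sub_eq_zero] at h0
      rw [h0] at h2
      have h3 : (Polynomial.C (⟨_, hz⟩ : A) *
          (mu W e ![(Polynomial.X : Polynomial K), 1] 1).map (algebraMap K A)).natDegree < 4 ^ e :=
        lt_of_le_of_lt (Polynomial.natDegree_C_mul_le _ _) (by rwa [Polynomial.natDegree_map])
      omega
    · rw [map_sub, map_mul, Polynomial.aeval_C, Polynomial.aeval_map_algebraMap,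
        Polynomial.aeval_map_algebraMap, ha, hb]
      change γ * (2 ^ e • w).xRep 0 - (2 ^ e • w).xRep 0 * γ = 0
      ring
  · rw [ha, hb, mul_comm]

/-- (10.2), degree argument. Proof. Let `A = acl K {ξ}` (`Clo_acl`) and suppose `xw ∉ A`.
1. `F.degreeOf 2 ≠ 0`, otherwise `F.vars ⊆ {0, 1}` and `hFx` contradicts `aeval_ne_zero₂` (`Ind2 K x ξ`).
2. For all `ρ` with `S3 (W 0) ![x, 1] ![τ, 1] ![ρ, 1] = 0`: `Ind2 K ρ ξ`: by E4 `wd_of_S3` `![ρ, 1]` is the
   `xRep` of `u + T` or of `u - T`; `ind2_of_translate`. In particular `Ind2 K xt ξ`.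
   `x ≠ τ` because `τ ∈ acl K ∅`.
3. `exists_coord` for `w = v' - v`: `z`, with `(q - q').xRep = ![z, 1]` by `hrel`.
4. `s = ![x, xt, τ, ξ, y, y', z]`. `aeval s (R3 W c F) = 0` by `aeval_R3` (`S3_xRep_add`; for the last
   relation `S3_xRep_sub` for `q`, `q'`, `S3_smul`, `r, r' ≠ 0` because `xRep ≠ 0`), `lcv_rX` for
   `degreeOf 1 = 2`.
5. `exists_R3_ne_zero` and `ev1_ne_zero_of_generic` (variables `0` and `6`, field `A`; `vars_R3`; `τ ∈ A` by
   `acl_mono`, `ξ ∈ A`): `p = ev1 0 s (R3 W c F) ≠ 0`, `natDegree p ≤ 8 * b * s`, `p.eval x = 0`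
   (`eval_ev1_self`), coefficients in `B = IntermediateField.adjoin A {z}` (`coeff_ev1_mem` for
   `B.restrictScalars K`).
6. `exists_extend` for `E = ⊥` over `B` (`finrank = 1`) gives `E₁ ∋ x` of degree `≤ 1 * (8 * b * s)`;
   `exists_tower` (I9) gives `E' ∋ xw` of degree `≤ 8 b s * (4 D ^ 2)`; its hypotheses: `S3_xRep_add` for
   `u`, `T`; `S3_xRep_sub` for `v'`, `v`; `SV_ne_zero_of_ne` (I8).
7. `natDegree_le_finrank` (I6) for the field `A`, the polynomials `mu W e ![X, 1] i` mapped to `A[X]` (coprime: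
   E8 `mu_X_isCoprime`, `IsCoprime.map`; degrees E8 `mu_X_degrees`), `x := xw`: `4 ^ e ≤ 32 D ^ 2 b s`,
   contradiction. -/
theorem degree_argument (W : Fin 2 → WeierstrassCurve K) [∀ t, (W t).IsElliptic] (c : Bool)
    {e b s D : ℕ} {g : MvPolynomial (Fin 2) K} (hg : g ≠ 0) (hD : g.degreeOf 1 ≤ D)
    {F : MvPolynomial (Fin 3) K} (hF : F ≠ 0) (hFs : F.degreeOf 0 ≤ s) (hFb : F.degreeOf 2 ≤ b)
    (h32 : 32 * D ^ 2 * b * s < 4 ^ e) {x ξ τ xt x₂ x₂' y y' r r' xw : Ω} (hx : Ind2 K x ξ)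
    (u T : ((W 0).map (algebraMap K Ω)).toAffine.Point) (hu : u.xRep = ![x, 1])
    (hT : T.xRep = ![τ, 1]) (hτ : τ ∈ acl K (∅ : Set Ω)) (hut : (u + T).xRep = ![xt, 1])
    (v v' q q' : ((W 1).map (algebraMap K Ω)).toAffine.Point) (hv : v.xRep = ![x₂, 1])
    (hv' : v'.xRep = ![x₂', 1]) (hgx : aeval ![x, x₂] g = 0) (hgt : aeval ![xt, x₂'] g = 0)
    (hFx : aeval ![x, ξ, y] F = 0) (hFt : aeval ![xt, ξ, y'] F = 0)
    (hq : q.xRep = r • vc c y) (hq' : q'.xRep = r' • vc c y')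
    (hrel : 2 ^ e • (v' - v) = q - q') (hw : (v' - v).xRep = ![xw, 1]) : xw ∈ acl K {ξ} := by
  by_contra hxw
  have hΩ : CharZero Ω := charZero_of_injective_algebraMap (algebraMap K Ω).injective
  have hA : Clo (acl K ({ξ} : Set Ω)) := Clo_acl _
  have hξA : ξ ∈ acl K ({ξ} : Set Ω) := mem_acl_of_mem (Set.mem_singleton ξ)
  have hτA : τ ∈ acl K ({ξ} : Set Ω) := acl_mono (Set.empty_subset _) hτ
  -- 1
  have hF2 : F.degreeOf 2 ≠ 0 := by
    intro h0
    have hv2 : F.vars ⊆ {0, 1} := by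
      intro i hi
      rw [MvPolynomial.mem_vars_iff_degreeOf_ne_zero] at hi
      fin_cases i
      · simp
      · simp
      · exact absurd h0 hi
    exact aeval_ne_zero₂ (y := (0 : Fin 3)) (y' := 1) (by decide) (s := ![x, ξ, y]) hF hv2 hx hFx
  -- 2
  have hTA : PA (acl K (∅ : Set Ω)) T := PA_of_xRep hT hτ
  have hroot : ∀ ρ : Ω, S3 (W 0) ![x, 1] ![τ, 1] ![ρ, 1] = 0 → Ind2 K ρ ξ := by
    intro ρ hρ
    have key : ∀ P : ((W 0).map (algebraMap K Ω)).toAffine.Point, wd P.xRep ![ρ, 1] = 0 →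
        P.xRep = ![ρ, 1] := by
      intro P hP
      by_cases h0 : P = 0
      · exfalso
        rw [h0, xRep_zero] at hP
        simp [wd] at hP
      · have h1 := xRep_eq h0
        rw [h1] at hP
        simp only [wd, Matrix.cons_val_zero, Matrix.cons_val_one, mul_one, one_mul] at hP
        rw [h1, sub_eq_zero.1 hP]
    have h1 := wd_of_S3 (W 0) ((W 0).map (algebraMap K Ω)) rfl u T ![ρ, 1] (by rw [hu, hT]; exact hρ)
    rcases h1 with h1 | h1
    · exact ind2_of_translate (W 0) hx u T (u + T) hu hTA (Or.inl rfl) (key _ h1)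
    · exact ind2_of_translate (W 0) hx u T (u - T) hu hTA (Or.inr rfl) (key _ h1)
  have hxt : Ind2 K xt ξ := ind2_of_translate (W 0) hx u T (u + T) hu hTA (Or.inl rfl) hut
  have hxτ : x ≠ τ := by
    intro h0
    apply hx.1
    rw [h0]
    exact hτ
  -- 3
  obtain ⟨z, hz1, hzA, hz⟩ := exists_coord (W 1) (acl K ({ξ} : Set Ω)) hA e (v' - v) hw hxw
  rw [hrel] at hz1
  -- 4
  have hr0 : r ≠ 0 := by
    intro h0
    apply xRep_ne_zero q
    rw [hq, h0, zero_smul]
  have hr'0 : r' ≠ 0 := by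
    intro h0
    apply xRep_ne_zero q'
    rw [hq', h0, zero_smul]
  have hS0 : S3 (W 0) ![x, 1] ![τ, 1] ![xt, 1] = 0 := by
    have h1 := S3_xRep_add (W 0) ((W 0).map (algebraMap K Ω)) rfl u T
    rwa [hu, hT, hut] at h1
  have hS1 : S3 (W 1) (vc c y) (vc c y') ![z, 1] = 0 := by
    have h1 := S3_xRep_sub (W 1) ((W 1).map (algebraMap K Ω)) rfl q q'
    rw [hq, hq', hz1] at h1
    have h2 : (![z, 1] : Fin 2 → Ω) = (1 : Ω) • ![z, 1] := (one_smul _ _).symm
    rw [h2, S3_smul, mul_one] at h1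
    exact (mul_eq_zero.1 h1).resolve_left (pow_ne_zero 2 (mul_ne_zero hr0 hr'0))
  have hS2 : S3 (W 1) ![x₂', 1] ![x₂, 1] ![xw, 1] = 0 := by
    have h1 := S3_xRep_sub (W 1) ((W 1).map (algebraMap K Ω)) rfl v' v
    rwa [hv', hv, hw] at h1
  obtain ⟨G, hG⟩ : ∃ G : MvPolynomial (Fin 7) K, G = R3 W c F := ⟨_, rfl⟩
  have hvG : G.vars ⊆ {0, 2, 3, 6} := by
    rw [hG]
    exact vars_R3 W c F
  have hdeg : G.degreeOf 0 ≤ 8 * b * s := by
    rw [hG]
    exact degreeOf_R3 W c F hFs hFb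
  have hvars : ∀ t ∈ G.vars, t = 0 ∨ t = 2 ∨ t = 3 ∨ t = 6 := by
    intro t ht
    have h1 := Finset.mem_of_subset hvG ht
    rw [Finset.mem_insert, Finset.mem_insert, Finset.mem_insert, Finset.mem_singleton] at h1
    exact h1
  obtain ⟨sv, hsv⟩ : ∃ sv : Fin 7 → Ω, sv = ![x, xt, τ, ξ, y, y', z] := ⟨_, rfl⟩
  have e0 : sv 0 = x := by rw [hsv]; rfl
  have e1 : sv 1 = xt := by rw [hsv]; rfl
  have e2 : sv 2 = τ := by rw [hsv]; rfl
  have e3 : sv 3 = ξ := by rw [hsv]; rfl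
  have e4 : sv 4 = y := by rw [hsv]; rfl
  have e5 : sv 5 = y' := by rw [hsv]; rfl
  have e6 : sv 6 = z := by rw [hsv]; rfl
  have hR3 : aeval sv G = 0 := by
    rw [hG]
    refine aeval_R3 W c F hF2 ?_ sv ?_ ?_ ?_ ?_
    · rw [(lcv_rX (W 0) sv (by rw [e0, e2]; exact hxτ)).1]
      exact two_ne_zero
    · rw [e0, e2, e1]
      exact hS0
    · rw [e0, e3, e4]
      exact hFx
    · rw [e1, e3, e5]
      exact hFt
    · rw [e4, e5, e6]
      exact hS1
  -- 5
  obtain ⟨ζ, hζ⟩ := exists_R3_ne_zero W c F hF hF2 hx hxτ hroot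
  rw [← hG] at hζ
  have hzT : Transcendental (acl K ({ξ} : Set Ω)) z := fun h0 => hzA (hA z h0)
  have hxwT : Transcendental (acl K ({ξ} : Set Ω)) xw := fun h0 => hxw (hA xw h0)
  have hp0 : ev1 0 sv G ≠ 0 := by
    refine ev1_ne_zero_of_generic (acl K ({ξ} : Set Ω)) (y := (0 : Fin 7)) (y' := 6) (by decide)
      G ?_ ?_ x ζ ?_
    · intro t ht h0 h6
      have h1 := hvars t ht
      rcases h1 with h1 | h1 | h1 | h1
      · exact absurd h1 h0
      · rw [h1, e2]
        exact hτA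
      · rw [h1, e3]
        exact hξA
      · exact absurd h1 h6
    · rw [e6]
      exact hzT
    · have h1 : aeval (Function.update (Function.update sv 0 x) 6 ζ) G =
          aeval (![x, 0, τ, ξ, 0, 0, ζ] : Fin 7 → Ω) G := by
        refine aeval_congr_vars _ fun t ht => ?_
        have h1 := hvars t ht
        rcases h1 with h1 | h1 | h1 | h1
        · rw [h1, Function.update_of_ne (by decide), Function.update_self]
          rfl
        · rw [h1, Function.update_of_ne (by decide), Function.update_of_ne (by decide), e2]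
          rfl
        · rw [h1, Function.update_of_ne (by decide), Function.update_of_ne (by decide), e3]
          rfl
        · rw [h1, Function.update_self]
          rfl
      rw [h1]
      exact hζ
  have hpd : (ev1 0 sv G).natDegree ≤ 8 * b * s :=
    (natDegree_ev1_le _ _ _).trans hdeg
  have hpe : (ev1 0 sv G).eval x = 0 := by
    have h1 := eval_ev1_self 0 sv G
    rw [e0] at h1
    rw [h1]
    exact hR3
  -- 6
  have hAB : ∀ a : Ω, a ∈ acl K ({ξ} : Set Ω) →
      a ∈ IntermediateField.adjoin (acl K ({ξ} : Set Ω)) ({z} : Set Ω) := fun a ha =>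
    IntermediateField.algebraMap_mem _ (⟨a, ha⟩ : acl K ({ξ} : Set Ω))
  have hzB : z ∈ IntermediateField.adjoin (acl K ({ξ} : Set Ω)) ({z} : Set Ω) :=
    IntermediateField.subset_adjoin _ _ (Set.mem_singleton z)
  have hcoef : ∀ j, (ev1 0 sv G).coeff j ∈
      IntermediateField.adjoin (acl K ({ξ} : Set Ω)) ({z} : Set Ω) := by
    intro j
    have h1 := coeff_ev1_mem
      ((IntermediateField.adjoin (acl K ({ξ} : Set Ω)) ({z} : Set Ω)).restrictScalars K) (0 : Fin 7)
      (s := sv) G (fun t ht h0 => by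
        have h1 := hvars t ht
        rcases h1 with h1 | h1 | h1 | h1
        · exact absurd h1 h0
        · rw [h1, e2]
          exact hAB _ hτA
        · rw [h1, e3]
          exact hAB _ hξA
        · rw [h1, e6]
          exact hzB) j
    exact h1
  obtain ⟨E₁, -, hxE, hE₁, hn₁⟩ := exists_extend
    (⊥ : IntermediateField (IntermediateField.adjoin (acl K ({ξ} : Set Ω)) ({z} : Set Ω)) Ω)
    (n := 1) inferInstance (le_of_eq IntermediateField.finrank_bot) (ev1 0 sv G) hp0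
    (fun j => IntermediateField.mem_bot.2 ⟨⟨_, hcoef j⟩, rfl⟩) hpd hpe
  have hxRep1 : (![x, 1] : Fin 2 → Ω) ≠ 0 := hu ▸ xRep_ne_zero u
  have hτRep1 : (![τ, 1] : Fin 2 → Ω) ≠ 0 := hT ▸ xRep_ne_zero T
  have hx₂Rep1 : (![x₂, 1] : Fin 2 → Ω) ≠ 0 := hv ▸ xRep_ne_zero v
  have hx₂'Rep1 : (![x₂', 1] : Fin 2 → Ω) ≠ 0 := hv' ▸ xRep_ne_zero v'
  have hst : IsScalarTower K (IntermediateField.adjoin (acl K ({ξ} : Set Ω)) ({z} : Set Ω)) Ω :=
    IsScalarTower.of_algebraMap_eq fun k => rfl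
  obtain ⟨E', hxwE, hE', hn'⟩ := exists_tower W hg hD hx.1 hxt.1 hgx hS0 hgt hS2
    (SV_ne_zero_of_ne (W 0) hxRep1 hτRep1) (SV_ne_zero_of_ne (W 1) hx₂'Rep1 hx₂Rep1) E₁ hE₁ hn₁ hxE
    (E₁.algebraMap_mem (⟨τ, hAB _ hτA⟩ : IntermediateField.adjoin (acl K ({ξ} : Set Ω)) ({z} : Set Ω)))
  -- 7
  obtain ⟨hm, hd0, hd1⟩ := mu_X_degrees (W 1) e
  have h7 := natDegree_le_finrank
    ((mu (W 1) e ![(Polynomial.X : Polynomial K), 1] 0).map (algebraMap K (acl K ({ξ} : Set Ω))))
    ((mu (W 1) e ![(Polynomial.X : Polynomial K), 1] 1).map (algebraMap K (acl K ({ξ} : Set Ω))))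
    ((mu_X_isCoprime (W 1) e).map (Polynomial.mapRingHom (algebraMap K (acl K ({ξ} : Set Ω)))))
    (by rw [Polynomial.natDegree_map, Polynomial.natDegree_map, hd0]; exact hd1) hxwT
    (z := z) (by rw [Polynomial.aeval_map_algebraMap, Polynomial.aeval_map_algebraMap]; exact hz)
    E' hE' hxwE
  rw [Polynomial.natDegree_map, hd0] at h7
  have h8 : 1 * (8 * b * s) * (4 * D ^ 2) = 32 * D ^ 2 * b * s := by ring
  omega

end

end Pool.Agent.Lib.MP_17a322_nt.VJ
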