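import Pool.Agent.Lib.MP_17a322_nt.VJ.I1
import Pool.Agent.Lib.MP_17a322_nt.VJ.C2
import Pool.Agent.Lib.MP_17a322_nt.VJ.C3
import Pool.Agent.Lib.MP_17a322_nt.VJ.C4

/-!
# JOB I4: values of polynomials at generic points

`ev1 y s P` is `P` as a polynomial in the variable `y`, the other variables replaced by the values `s`.
See C1 for `vw`, C3 for `lcv`, I1 for `acl` (relative algebraic closure; `mem_acl_iff`, `acl_closed`,
`acl_le`, `acl_mono`, `Ind2`).
-/

namespace Pool.Agent.Lib.MP_17a322_nt.VJ

open MvPolynomial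

/-- `P` as a polynomial in the variable `y`, the other variables replaced by the values `s`. -/
noncomputable def ev1 {K Ω σ : Type*} [CommRing K] [CommRing Ω] [Algebra K Ω] [DecidableEq σ]
    (y : σ) (s : σ → Ω) (P : MvPolynomial σ K) : Polynomial Ω :=
  (vw y P).map (aeval s : MvPolynomial σ K →ₐ[K] Ω).toRingHom

section

variable {K Ω σ : Type*} [Field K] [Field Ω] [Algebra K Ω] [DecidableEq σ]

/-- `aeval_vw`. -/
theorem eval_ev1 (y : σ) (s : σ → Ω) (P : MvPolynomial σ K) (r : Ω) :
    (ev1 y s P).eval r = aeval (Function.update s y r) P := by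
  exact aeval_vw y s r P

/-- `aeval_vw'`. -/
theorem eval_ev1_self (y : σ) (s : σ → Ω) (P : MvPolynomial σ K) :
    (ev1 y s P).eval (s y) = aeval s P := by
  exact aeval_vw' y s P

theorem coeff_ev1 (y : σ) (s : σ → Ω) (P : MvPolynomial σ K) (j : ℕ) :
    (ev1 y s P).coeff j = aeval s ((vw y P).coeff j) := by
  unfold ev1
  rw [Polynomial.coeff_map]
  rfl

/-- `natDegree_map_le`, `natDegree_vw`. -/
theorem natDegree_ev1_le (y : σ) (s : σ → Ω) (P : MvPolynomial σ K) :
    (ev1 y s P).natDegree ≤ P.degreeOf y := by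
  unfold ev1
  refine le_trans Polynomial.natDegree_map_le ?_
  rw [natDegree_vw]

theorem coeff_ev1_degreeOf (y : σ) (s : σ → Ω) (P : MvPolynomial σ K) :
    (ev1 y s P).coeff (P.degreeOf y) = aeval s (lcv y P) := by
  rw [coeff_ev1]
  rfl

/-- The value depends only on the values of the variables in `vars`
(`MvPolynomial.eval₂Hom_congr'` or `aeval_def`, `eval₂_eq`). -/
theorem aeval_congr_vars {s s' : σ → Ω} (P : MvPolynomial σ K) (h : ∀ t ∈ P.vars, s t = s' t) :
    aeval s P = aeval s' P := by
  have := MvPolynomial.hom_congr_vars (f₁ := (aeval s : MvPolynomial σ K →ₐ[K] Ω).toRingHom)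
    (f₂ := (aeval s' : MvPolynomial σ K →ₐ[K] Ω).toRingHom) (p₁ := P) (p₂ := P) ?_ ?_ rfl
  · exact this
  · ext r
    simp
  · intro i hi _
    simpa using h i hi

/-- `vars_coeff_vw`: the coefficients do not involve `y`. -/
theorem ev1_congr {s s' : σ → Ω} (y : σ) (P : MvPolynomial σ K)
    (h : ∀ t ∈ P.vars, t ≠ y → s t = s' t) : ev1 y s P = ev1 y s' P := by
  ext j
  rw [coeff_ev1, coeff_ev1]
  apply aeval_congr_vars
  intro t ht
  have h1 := vars_coeff_vw y P j ht
  rw [Finset.mem_erase] at h1
  exact h t h1.2 h1.1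

theorem ev1_update (y : σ) (s : σ → Ω) (r : Ω) (P : MvPolynomial σ K) :
    ev1 y (Function.update s y r) P = ev1 y s P := by
  apply ev1_congr
  intro t _ ht
  exact Function.update_of_ne ht _ _

/-- A value of a polynomial at elements of a subfield is in the subfield (as in RO/G5 `G5_evl_mem`, or
`MvPolynomial.aeval_def`, `eval₂_eq'` and `sum_mem`, `prod_mem`). -/
theorem aeval_mem (A : IntermediateField K Ω) {s : σ → Ω} (P : MvPolynomial σ K)
    (h : ∀ t ∈ P.vars, s t ∈ A) : aeval s P ∈ A := by
  rw [MvPolynomial.aeval_def, MvPolynomial.eval₂_eq]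
  refine sum_mem fun d hd => mul_mem (A.algebraMap_mem _) (prod_mem fun t ht => pow_mem (h t ?_) _)
  rw [MvPolynomial.mem_vars]
  exact ⟨d, hd, ht⟩

theorem coeff_ev1_mem (A : IntermediateField K Ω) (y : σ) {s : σ → Ω} (P : MvPolynomial σ K)
    (h : ∀ t ∈ P.vars, t ≠ y → s t ∈ A) (j : ℕ) : (ev1 y s P).coeff j ∈ A := by
  rw [coeff_ev1]
  apply aeval_mem
  intro t ht
  have h1 := vars_coeff_vw y P j ht
  rw [Finset.mem_erase] at h1
  exact h t h1.2 h1.1

/-- A nonzero polynomial over `Ω` with coefficients in `A` and a root `z`: `z` is algebraic over `A`.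
(Lift to `Polynomial A`: `Polynomial.lifts_iff_coeff_lifts` or `Polynomial.toSubring`, or build
`∑ C ⟨coeff j, _⟩ * X ^ j`.) -/
theorem isAlgebraic_of_coeff_mem (A : IntermediateField K Ω) (p : Polynomial Ω) (hp : p ≠ 0)
    (h : ∀ j, p.coeff j ∈ A) {z : Ω} (hz : p.eval z = 0) : IsAlgebraic A z := by
  have hl : p ∈ Polynomial.lifts (algebraMap A Ω) := by
    rw [Polynomial.lifts_iff_coeff_lifts]
    intro j
    exact ⟨⟨p.coeff j, h j⟩, rfl⟩
  rw [Polynomial.mem_lifts] at hl
  obtain ⟨q, hq⟩ := hl
  refine ⟨q, ?_, ?_⟩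
  · rintro rfl
    exact hp (by rw [← hq, Polynomial.map_zero])
  · rw [Polynomial.aeval_def, ← Polynomial.eval_map, hq, hz]

/-- If the value of `P` at `s` vanishes and `s y` is transcendental over the field `A` which contains the
other coordinates then `P` vanishes identically in the variable `y`. -/
theorem ev1_eq_zero (A : IntermediateField K Ω) (y : σ) {s : σ → Ω} (P : MvPolynomial σ K)
    (h : ∀ t ∈ P.vars, t ≠ y → s t ∈ A) (hy : Transcendental A (s y)) (h0 : aeval s P = 0) :
    ev1 y s P = 0 := by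
  by_contra hne
  exact hy (isAlgebraic_of_coeff_mem A _ hne (coeff_ev1_mem A y P h)
    (by rw [eval_ev1_self]; exact h0))

/-- One generic variable. Proof: `P ≠ 0`, so by `vw_ne_zero` (C1) some coefficient of `vw y P` is not zero;
it has no variables (`vars_coeff_vw`), so it is a nonzero constant `C a` and `ev1 y s P ≠ 0`. Apply
`ev1_eq_zero` with `A = acl K ∅` (the condition is empty; `s y` is transcendental over it because of
`acl_closed`). -/
theorem aeval_ne_zero₁ {y : σ} {s : σ → Ω} {P : MvPolynomial σ K} (hP : P ≠ 0)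
    (hv : P.vars ⊆ {y}) (hs : s y ∉ acl K (∅ : Set Ω)) : aeval s P ≠ 0 := by
  intro h0
  have hz := ev1_eq_zero (acl K (∅ : Set Ω)) y P
    (fun t ht hty => absurd (Finset.mem_singleton.mp (hv ht)) hty)
    (fun hal => hs (acl_closed _ hal)) h0
  have hne := vw_ne_zero y hP
  apply hne
  ext1 j
  have hvj : ((vw y P).coeff j).vars = ∅ := by
    apply Finset.subset_empty.mp
    intro t ht
    have h1 := vars_coeff_vw y P j ht
    rw [Finset.mem_erase] at h1
    exact absurd (Finset.mem_singleton.mp (hv h1.2)) h1.1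
  have hc := MvPolynomial.vars_eq_empty_iff_eq_C.mp hvj
  have h2 : (ev1 y s P).coeff j = 0 := by rw [hz, Polynomial.coeff_zero]
  rw [coeff_ev1, hc, MvPolynomial.aeval_C] at h2
  rw [hc, (map_eq_zero_iff _ (algebraMap K Ω).injective).mp h2]
  simp

/-- Two generic variables. Proof: some coefficient `Q ≠ 0` of `vw y' P` has `vars ⊆ {y}`, so
`aeval s Q ≠ 0` by `aeval_ne_zero₁` and `ev1 y' s P ≠ 0`; `ev1_eq_zero` with `A = acl K {s y}`. -/
theorem aeval_ne_zero₂ {y y' : σ} (hyy : y ≠ y') {s : σ → Ω} {P : MvPolynomial σ K} (hP : P ≠ 0)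
    (hv : P.vars ⊆ {y, y'}) (hs : Ind2 K (s y) (s y')) : aeval s P ≠ 0 := by
  intro h0
  have hz := ev1_eq_zero (acl K {s y}) y' P
    (fun t ht hty => by
      have h1 := hv ht
      rw [Finset.mem_insert, Finset.mem_singleton] at h1
      rcases h1 with h1 | h1
      · rw [h1]
        exact mem_acl_of_mem (Set.mem_singleton _)
      · exact absurd h1 hty)
    (fun hal => hs.2 (acl_closed _ hal)) h0
  have hne := vw_ne_zero y' hP
  apply hne
  ext1 j
  by_contra hj
  rw [Polynomial.coeff_zero] at hj
  have hvj : ((vw y' P).coeff j).vars ⊆ {y} := by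
    intro t ht
    have h1 := vars_coeff_vw y' P j ht
    rw [Finset.mem_erase] at h1
    have h2 := hv h1.2
    rw [Finset.mem_insert, Finset.mem_singleton] at h2
    rcases h2 with h2 | h2
    · rw [h2]
      exact Finset.mem_singleton_self _
    · exact absurd h2 h1.1
  refine aeval_ne_zero₁ hj hvj hs.1 ?_
  rw [← coeff_ev1, hz, Polynomial.coeff_zero]

/-- `lcv y P ≠ 0` for `P ≠ 0` (`natDegree_vw`, `vw_ne_zero`) and it does not involve `y`. -/
theorem lcv_ne_zero {y : σ} {P : MvPolynomial σ K} (hP : P ≠ 0) : lcv y P ≠ 0 := by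
  unfold lcv
  rw [← natDegree_vw]
  exact Polynomial.leadingCoeff_ne_zero.mpr (vw_ne_zero y hP)

theorem vars_lcv {y : σ} (P : MvPolynomial σ K) : (lcv y P).vars ⊆ P.vars.erase y :=
  vars_coeff_vw y P _

/-- Change of the generic point: let the coordinates `s t`, `t ≠ y, y'` be in `A`, let `P` have a nonzero
value at some point of the form `s[y := a, y' := b]`, and let `s y'` be transcendental over `A`. Then `P`
does not vanish identically in `y` for `y' = s y'`.
Proof. Suppose `ev1 y s P = 0`. For every `r ∈ K`, `aeval s[y := r] P = 0` (`eval_ev1`), so by `ev1_eq_zero`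
for the variable `y'` (the other coordinates are in `A`), `ev1 y' (s[y := r]) P = 0` and
`aeval (s[y := r][y' := b]) P = 0`. So the polynomial `ev1 y (s[y' := b]) P` vanishes at the infinitely many
elements `r` of `K` and is `0`; its value at `a` is the nonzero value: contradiction. -/
theorem ev1_ne_zero_of_generic [Infinite K] (A : IntermediateField K Ω) {y y' : σ} (hyy : y ≠ y')
    {s : σ → Ω} (P : MvPolynomial σ K) (h : ∀ t ∈ P.vars, t ≠ y → t ≠ y' → s t ∈ A)
    (hy' : Transcendental A (s y')) (a b : Ω)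
    (hab : aeval (Function.update (Function.update s y a) y' b) P ≠ 0) : ev1 y s P ≠ 0 := by
  intro h0
  have key : ev1 y (Function.update s y' b) P = 0 := by
    apply Polynomial.eq_zero_of_infinite_isRoot
    refine Set.Infinite.mono ?_ (Set.infinite_range_of_injective (algebraMap K Ω).injective)
    rintro _ ⟨r, rfl⟩
    show Polynomial.IsRoot _ _
    rw [Polynomial.IsRoot.def, eval_ev1, Function.update_comm hyy.symm]
    have h1 : aeval (Function.update s y (algebraMap K Ω r)) P = 0 := by
      rw [← eval_ev1, h0, Polynomial.eval_zero]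
    have h2 := ev1_eq_zero A y' (s := Function.update s y (algebraMap K Ω r)) P
      (fun t ht hty' => by
        by_cases hty : t = y
        · rw [hty, Function.update_self]
          exact A.algebraMap_mem _
        · rw [Function.update_of_ne hty]
          exact h t ht hty hty')
      (by rw [Function.update_of_ne hyy.symm]; exact hy') h1
    rw [← eval_ev1, h2, Polynomial.eval_zero]
  apply hab
  rw [Function.update_comm hyy, ← eval_ev1, key, Polynomial.eval_zero]

end

end Pool.Agent.Lib.MP_17a322_nt.VJ
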