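import Pool.Agent.Lib.MP_17a322_nt.VJ.I2
import Pool.Agent.Lib.MP_17a322_nt.VJ.I4

/-!
# JOB I11: (10.3) the point `S` has bounded order
-/

namespace Pool.Agent.Lib.MP_17a322_nt.VJ

open MvPolynomial WeierstrassCurve

variable {K Ω : Type*} [Field K] [Field Ω] [DecidableEq Ω] [Algebra K Ω]

theorem mp_comp (W : WeierstrassCurve K) (σ σ' : Ω →ₐ[K] Ω)
    (P : (W.map (algebraMap K Ω)).toAffine.Point) :
    mp W (σ.comp σ') P = mp W σ (mp W σ' P) := by
  cases P with
  | zero => rfl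
  | some x y h => rfl

theorem I11_mp_id (W : WeierstrassCurve K) (P : (W.map (algebraMap K Ω)).toAffine.Point) :
    mp W (AlgHom.id K Ω) P = P := by
  cases P with
  | zero => rfl
  | some x y h => rfl

/-- Iteration: induction on `m` with `σ.comp σ'`, `mp_comp`, `map_add`, `map_nsmul`, `mp_fix`. -/
theorem exists_iterate {W : Fin 2 → WeierstrassCurve K}
    (u T : ∀ t, ((W t).map (algebraMap K Ω)).toAffine.Point) (σ : Ω →ₐ[K] Ω)
    (hσ : ∀ z ∈ acl K (∅ : Set Ω), σ z = z) (hT : ∀ t, PA (acl K (∅ : Set Ω)) (T t))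
    (hu : ∀ t, mp (W t) σ (u t) = u t + T t) (m : ℕ) :
    ∃ σ' : Ω →ₐ[K] Ω, ∀ t, mp (W t) σ' (u t) = u t + m • T t := by
  induction m with
  | zero =>
    refine ⟨AlgHom.id K Ω, fun t => ?_⟩
    rw [I11_mp_id, zero_smul, add_zero]
  | succ m ih =>
    obtain ⟨σ', h⟩ := ih
    refine ⟨σ.comp σ', fun t => ?_⟩
    rw [mp_comp, h t, map_add, map_nsmul, hu t, mp_fix (Clo_acl _) hσ (hT t), add_smul, one_smul]
    abel

/-- Two points with the same coordinate vector are equal up to sign (`Point.xRep_eq_xRep_iff`). -/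
theorem eq_or_neg_of_xRep {V : WeierstrassCurve Ω} {P Q : V.toAffine.Point}
    (h : P.xRep = Q.xRep) : P = Q ∨ P = -Q :=
  Affine.Point.xRep_eq_xRep_iff.1 h

/-- (10.3) If `σ` translates `u` by `T` with `n • T 0 = 0` then `((2 D)! n) • T 1 = 0`.
Proof. For `i ≤ 2 D` let `σ i` be the homomorphism of `exists_iterate` for `m = i * n`. It fixes `u 0`, so
`σ i (x 0) = x 0` (`mp_xRep`), and `u 1 + (i n) • T 1` has `xRep = ![σ i (x 1), 1]`, and
`aeval ![x 0, σ i (x 1)] g = σ i (aeval x g) = 0`. So `σ i (x 1)` is a root of `ev1 1 x g` (`eval_ev1`), which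
is not zero (`aeval_ne_zero₁` for `lcv 1 g`, `coeff_ev1_degreeOf`) and has degree `≤ D`, so at most `D` roots.
By the pigeonhole principle (`Finset.exists_lt_card_fiber_of_mul_lt_card_of_maps_to`) there are three
indices `i` with the same root, so the points `u 1 + (i n) • T 1` have the same `xRep`, and are equal up to
sign; two of the three are equal (if `P = -Q` and `P = -R` then `Q = R`). So `((j - i) n) • T 1 = 0` with
`0 < j - i ≤ 2 D`, and `j - i ∣ (2 D)!`. -/
theorem finite_order {W : Fin 2 → WeierstrassCurve K} {D n : ℕ}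
    {g : MvPolynomial (Fin 2) K} (hg : g ≠ 0) (hD : g.degreeOf 1 ≤ D) {x : Fin 2 → Ω}
    (hx0 : x 0 ∉ acl K (∅ : Set Ω)) (hgx : aeval x g = 0)
    (u T : ∀ t, ((W t).map (algebraMap K Ω)).toAffine.Point) (hux : ∀ t, (u t).xRep = ![x t, 1])
    (σ : Ω →ₐ[K] Ω) (hσ : ∀ z ∈ acl K (∅ : Set Ω), σ z = z)
    (hT : ∀ t, PA (acl K (∅ : Set Ω)) (T t)) (hu : ∀ t, mp (W t) σ (u t) = u t + T t)
    (hn : n • T 0 = 0) : ((2 * D).factorial * n) • T 1 = 0 := by
  choose τ hτ using fun i : ℕ => exists_iterate u T σ hσ hT hu (i * n)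
  -- the homomorphisms fix `x 0`
  have h0 : ∀ i, τ i (x 0) = x 0 := by
    intro i
    have h1 : mp (W 0) (τ i) (u 0) = u 0 := by
      rw [hτ i 0, mul_smul, hn, smul_zero, add_zero]
    have h2 := mp_xRep (W 0) (τ i) (u 0) 0
    rw [h1, hux 0] at h2
    exact h2.symm
  have h1 : ∀ i : ℕ, (u 1 + (i * n) • T 1).xRep = ![τ i (x 1), 1] := by
    intro i
    ext j
    rw [← hτ i 1, mp_xRep, hux 1]
    fin_cases j
    · rfl
    · exact map_one _
  -- the polynomial
  have hq : ev1 1 x g ≠ 0 := by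
    intro hq
    have h2 := coeff_ev1_degreeOf 1 x g
    rw [hq, Polynomial.coeff_zero] at h2
    refine aeval_ne_zero₁ (y := (0 : Fin 2)) (s := x) (lcv_ne_zero (y := (1 : Fin 2)) hg) ?_ hx0
      h2.symm
    intro t ht
    have h3 := vars_lcv g ht
    rw [Finset.mem_erase] at h3
    rw [Finset.mem_singleton]
    have := h3.1
    omega
  have hroot : ∀ i, (ev1 1 x g).eval (τ i (x 1)) = 0 := by
    intro i
    rw [eval_ev1]
    have h4 : Function.update x 1 (τ i (x 1)) = fun t => τ i (x t) := by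
      ext t
      fin_cases t
      · show Function.update x 1 (τ i (x 1)) 0 = τ i (x 0)
        rw [Function.update_of_ne (by decide), h0 i]
      · show Function.update x 1 (τ i (x 1)) 1 = τ i (x 1)
        rw [Function.update_self]
    rw [h4]
    have h5 : aeval (fun t => τ i (x t)) g = τ i (aeval x g) := by
      have h6 := MvPolynomial.comp_aeval_apply (R := K) (f := x) (τ i) g
      rw [h6]
    rw [h5, hgx, map_zero]
  have hcard : (ev1 1 x g).roots.toFinset.card ≤ D := by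
    refine (Multiset.toFinset_card_le _).trans ?_
    exact (Polynomial.card_roots' _).trans ((natDegree_ev1_le 1 x g).trans hD)
  have hmaps : ∀ i ∈ Finset.range (2 * D + 1), τ i (x 1) ∈ (ev1 1 x g).roots.toFinset := by
    intro i _
    rw [Multiset.mem_toFinset, Polynomial.mem_roots hq]
    exact hroot i
  obtain ⟨y, -, hy⟩ := Finset.exists_lt_card_fiber_of_mul_lt_card_of_maps_to
    (f := fun i => τ i (x 1)) (n := 2) hmaps (by rw [Finset.card_range]; omega)
  rw [Finset.two_lt_card_iff] at hy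
  obtain ⟨a, b, c, ha, hb, hc, hab, hac, hbc⟩ := hy
  rw [Finset.mem_filter, Finset.mem_range] at ha hb hc
  have hpair : ∀ i j : ℕ, τ i (x 1) = y → τ j (x 1) = y →
      u 1 + (i * n) • T 1 = u 1 + (j * n) • T 1 ∨ u 1 + (i * n) • T 1 = -(u 1 + (j * n) • T 1) := by
    intro i j hi hj
    apply eq_or_neg_of_xRep
    rw [h1 i, h1 j, hi, hj]
  -- two equal points
  have hex : ∃ i j : ℕ, i < 2 * D + 1 ∧ j < 2 * D + 1 ∧ i ≠ j ∧
      u 1 + (i * n) • T 1 = u 1 + (j * n) • T 1 := by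
    rcases hpair a b ha.2 hb.2 with h | h
    · exact ⟨a, b, ha.1, hb.1, hab, h⟩
    rcases hpair a c ha.2 hc.2 with h' | h'
    · exact ⟨a, c, ha.1, hc.1, hac, h'⟩
    refine ⟨b, c, hb.1, hc.1, hbc, ?_⟩
    rw [h] at h'
    exact neg_injective h'
  have hex' : ∃ i j : ℕ, j < 2 * D + 1 ∧ i < j ∧
      u 1 + (i * n) • T 1 = u 1 + (j * n) • T 1 := by
    obtain ⟨i, j, hi, hj, hij, h⟩ := hex
    rcases lt_or_gt_of_ne hij with h' | h'
    · exact ⟨i, j, hj, h', h⟩
    · exact ⟨j, i, hi, h', h.symm⟩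
  obtain ⟨i, j, hj, hij, h⟩ := hex'
  have h7 : (i * n) • T 1 = (j * n) • T 1 := add_left_cancel h
  have h8 : ((j - i) * n) • T 1 = 0 := by
    have h9 : j * n = i * n + (j - i) * n := by
      rw [← add_mul]
      congr 1
      omega
    rw [h9, add_smul] at h7
    have h10 : (i * n) • T 1 + 0 = (i * n) • T 1 + ((j - i) * n) • T 1 := by
      rw [add_zero]
      exact h7
    exact (add_left_cancel h10).symm
  obtain ⟨k, hk⟩ : (j - i) ∣ (2 * D).factorial := Nat.dvd_factorial (by omega) (by omega)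
  rw [hk]
  have h11 : (j - i) * k * n = k * ((j - i) * n) := by ring
  rw [h11, mul_smul, h8, smul_zero]

end Pool.Agent.Lib.MP_17a322_nt.VJ
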