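import Pool.Agent.Lib.MP_17a322_nt.VJ.I5

/-!
# JOB I12: (10.4) a valuation ring at infinity
-/

namespace Pool.Agent.Lib.MP_17a322_nt.VJ

open MvPolynomial

/-- The top coefficient of a product. Proof: `coeff_mul`; a term of the antidiagonal with both
coefficients nonzero has `p.1 t ≤ a t`, `p.2 t ≤ b t` (`degreeOf_le_iff`), so `p = (a, b)`. -/
theorem coeff_add_mul {K σ : Type*} [Field K] [Fintype σ] (f q : MvPolynomial σ K) (a b : σ →₀ ℕ)
    (hf : ∀ t, f.degreeOf t ≤ a t) (hq : ∀ t, q.degreeOf t ≤ b t) :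
    coeff (a + b) (f * q) = coeff a f * coeff b q := by
  classical
  rw [coeff_mul]
  refine Finset.sum_eq_single_of_mem (a, b) (Finset.HasAntidiagonal.mem_antidiagonal.2 rfl) ?_
  rintro ⟨c, d⟩ hcd hne
  rw [Finset.HasAntidiagonal.mem_antidiagonal] at hcd
  have hcd' : c + d = a + b := hcd
  show coeff c f * coeff d q = 0
  by_contra hz
  have h1 : coeff c f ≠ 0 := left_ne_zero_of_mul hz
  have h2 : coeff d q ≠ 0 := right_ne_zero_of_mul hz
  have h3 : ∀ t, c t ≤ a t := fun t => degreeOf_le_iff.1 (hf t) c (mem_support_iff.2 h1)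
  have h4 : ∀ t, d t ≤ b t := fun t => degreeOf_le_iff.1 (hq t) d (mem_support_iff.2 h2)
  apply hne
  have h5 : ∀ t, c t + d t = a t + b t := fun t => by
    have := DFunLike.congr_fun hcd' t
    simpa using this
  have h6 : c = a := by
    ext t
    have := h3 t
    have := h4 t
    have := h5 t
    omega
  have h7 : d = b := by
    ext t
    have := h3 t
    have := h4 t
    have := h5 t
    omega
  rw [h6, h7]

/-- The reversed polynomial: for `N ≥ deg_t P` there is `Q` with `deg_t Q ≤ N`, top coefficient (at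
`(N, N)`) equal to `coeff 0 P`, and `Q(x) = (x 0 * x 1) ^ N * P(1 / x 0, 1 / x 1)`.
Take `Q = ∑ m ∈ P.support, C (coeff m P) * (X 0 ^ (N - m 0) * X 1 ^ (N - m 1))`, i.e. the sum of the
monomials with exponent `(N - m 0, N - m 1)`. -/
theorem exists_reverse {K Ω : Type*} [Field K] [Field Ω] [Algebra K Ω] (P : MvPolynomial (Fin 2) K)
    (N : ℕ) (hN : ∀ t, P.degreeOf t ≤ N) (x : Fin 2 → Ω) (hx : ∀ t, x t ≠ 0) :
    ∃ Q : MvPolynomial (Fin 2) K, (∀ t, Q.degreeOf t ≤ N) ∧
      coeff (Finsupp.equivFunOnFinite.symm fun _ => N) Q = coeff 0 P ∧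
      aeval x Q = (x 0 * x 1) ^ N * aeval (fun t => (x t)⁻¹) P := by
  classical
  set ex : (Fin 2 →₀ ℕ) → (Fin 2 →₀ ℕ) := fun m =>
    Finsupp.equivFunOnFinite.symm fun t => N - m t with hex
  have hex' : ∀ m t, ex m t = N - m t := fun m t => rfl
  have hle : ∀ m ∈ P.support, ∀ t, m t ≤ N := fun m hm t => degreeOf_le_iff.1 (hN t) m hm
  refine ⟨∑ m ∈ P.support, monomial (ex m) (coeff m P), ?_, ?_, ?_⟩
  · intro t
    rw [degreeOf_le_iff]
    intro n hn
    rw [mem_support_iff, coeff_sum] at hn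
    obtain ⟨m, hm, hmn⟩ := Finset.exists_ne_zero_of_sum_ne_zero hn
    rw [coeff_monomial] at hmn
    have h1 : ex m = n := by
      by_contra h
      exact hmn (if_neg h)
    rw [← h1, hex']
    exact Nat.sub_le _ _
  · rw [coeff_sum]
    have h1 : ∀ m ∈ P.support, coeff (Finsupp.equivFunOnFinite.symm fun _ => N)
        (monomial (ex m) (coeff m P)) = if m = 0 then coeff 0 P else 0 := by
      intro m hm
      rw [coeff_monomial]
      by_cases h0 : m = 0
      · rw [if_pos h0, if_pos]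
        · rw [h0]
        · ext t
          rw [hex', h0]
          simp
      · rw [if_neg h0, if_neg]
        intro h2
        apply h0
        ext t
        have h3 := DFunLike.congr_fun h2 t
        rw [hex'] at h3
        have h4 : (Finsupp.equivFunOnFinite.symm fun _ : Fin 2 => N) t = N := rfl
        rw [h4] at h3
        have h5 := hle m hm t
        have h6 : m t = 0 := by omega
        simpa using h6
    rw [Finset.sum_congr rfl h1, Finset.sum_ite_eq' P.support (0 : Fin 2 →₀ ℕ)]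
    by_cases h0 : (0 : Fin 2 →₀ ℕ) ∈ P.support
    · rw [if_pos h0]
    · rw [if_neg h0]
      exact (notMem_support_iff.1 h0).symm
  · rw [map_sum, aeval_def (R := K) (fun t => (x t)⁻¹), eval₂_eq', Finset.mul_sum]
    refine Finset.sum_congr rfl fun m hm => ?_
    rw [aeval_monomial, Finsupp.prod_fintype _ _ (fun i => pow_zero _), Fin.prod_univ_two, Fin.prod_univ_two, hex', hex']
    have h0 := hle m hm 0
    have h1 := hle m hm 1
    have e0 : x 0 ^ (N - m 0) = x 0 ^ N * (x 0)⁻¹ ^ m 0 := by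
      rw [inv_pow, ← div_eq_mul_inv, eq_div_iff (pow_ne_zero _ (hx 0)), ← pow_add, Nat.sub_add_cancel h0]
    have e1 : x 1 ^ (N - m 1) = x 1 ^ N * (x 1)⁻¹ ^ m 1 := by
      rw [inv_pow, ← div_eq_mul_inv, eq_div_iff (pow_ne_zero _ (hx 1)), ← pow_add, Nat.sub_add_cancel h1]
    rw [e0, e1, mul_pow]
    ring

/-- A polynomial with constant coefficient `1` does not vanish at `(1 / x 0, 1 / x 1)` if `x` is a generic
point of the irreducible curve `g = 0` whose top coefficient vanishes.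
Proof. `x t ≠ 0` by `h0` and I5 `snd_not_mem_acl` (`0 ∈ acl K ∅`). With `Q` of `exists_reverse` for large `N`
(`N ≥ deg_t P, deg_t g`): `aeval x Q = 0`, so `Q = g * q` (I5 `dvd_of_aeval_eq_zero`), `q ≠ 0` as `Q ≠ 0` (top
coefficient `1`), `deg_t q = deg_t Q - deg_t g ≤ N - deg_t g` (`degreeOf_mul_eq`). By `coeff_add_mul` with
`a t = deg_t g`, `b t = N - deg_t g`, `1 = coeff (N, N) Q = tc g * _ = 0`. -/
theorem aeval_inv_ne_zero {K Ω : Type*} [Field K] [Field Ω] [Algebra K Ω]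
    {g : MvPolynomial (Fin 2) K} (hg : Irreducible g) (hd : ∀ t, g.degreeOf t ≠ 0)
    (htc : tc g = 0) {x : Fin 2 → Ω} (hx : aeval x g = 0) (h0 : x 0 ∉ acl K (∅ : Set Ω))
    (P : MvPolynomial (Fin 2) K) (hP : coeff 0 P = 1) :
    aeval (fun t => (x t)⁻¹) P ≠ 0 := by
  intro hz
  have hxne : ∀ t, x t ≠ 0 := by
    intro t h
    fin_cases t
    · apply h0
      have h' : x 0 = 0 := h
      rw [h']
      exact zero_mem _
    · apply snd_not_mem_acl hg hd hx h0
      have h' : x 1 = 0 := h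
      rw [h']
      exact zero_mem _
  set N := P.degreeOf 0 + P.degreeOf 1 + (g.degreeOf 0 + g.degreeOf 1) with hNdef
  have hPN : ∀ t, P.degreeOf t ≤ N := by
    intro t
    fin_cases t
    · show P.degreeOf 0 ≤ N
      omega
    · show P.degreeOf 1 ≤ N
      omega
  have hgN : ∀ t, g.degreeOf t ≤ N := by
    intro t
    fin_cases t
    · show g.degreeOf 0 ≤ N
      omega
    · show g.degreeOf 1 ≤ N
      omega
  obtain ⟨Q, hQ1, hQ2, hQ3⟩ := exists_reverse P N hPN x hxne
  rw [hz, mul_zero] at hQ3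
  rw [hP] at hQ2
  have hQ0 : Q ≠ 0 := by
    rintro rfl
    rw [coeff_zero] at hQ2
    exact zero_ne_one hQ2
  obtain ⟨q, hq⟩ := dvd_of_aeval_eq_zero hg (hd 1) hx h0 hQ3
  have hq0 : q ≠ 0 := by
    rintro rfl
    exact hQ0 (by rw [hq, mul_zero])
  have hqd : ∀ t, q.degreeOf t ≤ N - g.degreeOf t := by
    intro t
    have h1 := hQ1 t
    rw [hq, degreeOf_mul_eq hg.ne_zero hq0] at h1
    omega
  have h1 := coeff_add_mul g q (Finsupp.equivFunOnFinite.symm fun t => g.degreeOf t)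
    (Finsupp.equivFunOnFinite.symm fun t => N - g.degreeOf t) (fun t => le_refl _) (fun t => hqd t)
  have h2 : (Finsupp.equivFunOnFinite.symm fun t => g.degreeOf t) +
      (Finsupp.equivFunOnFinite.symm fun t => N - g.degreeOf t) =
      (Finsupp.equivFunOnFinite.symm fun _ : Fin 2 => N) := by
    ext t
    show g.degreeOf t + (N - g.degreeOf t) = N
    have := hgN t
    omega
  rw [h2, ← hq, hQ2] at h1
  have h3 : coeff (Finsupp.equivFunOnFinite.symm fun t => g.degreeOf t) g = 0 := htc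
  rw [h3, zero_mul] at h1
  exact one_ne_zero h1

/-- Proof. Let `A` be the range of `aeval (fun t => (x t)⁻¹) : MvPolynomial (Fin 2) K →ₐ[K] Ω` as a subring and
`I` the ideal generated by the two elements `(x t)⁻¹`. `I ≠ ⊤`: otherwise `1 = φ(h₀) (x 0)⁻¹ + φ(h₁) (x 1)⁻¹`,
i.e. `P = 1 - X 0 * h₀ - X 1 * h₁` vanishes at `(x t)⁻¹`, and `coeff 0 P = 1`, contradiction to
`aeval_inv_ne_zero`. Apply Mathlib `Ideal.image_subset_nonunits_valuationSubring`. -/
theorem exists_valuation {K Ω : Type*} [Field K] [Field Ω] [Algebra K Ω]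
    {g : MvPolynomial (Fin 2) K} (hg : Irreducible g) (hd : ∀ t, g.degreeOf t ≠ 0)
    (htc : tc g = 0) {x : Fin 2 → Ω} (hx : aeval x g = 0) (h0 : x 0 ∉ acl K (∅ : Set Ω)) :
    ∃ O : ValuationSubring Ω, (∀ c : K, algebraMap K Ω c ∈ O) ∧
      ∀ t, x t ≠ 0 ∧ (x t)⁻¹ ∈ O.nonunits := by
  set φ : MvPolynomial (Fin 2) K →ₐ[K] Ω := aeval (fun t => (x t)⁻¹) with hφ
  set A : Subring Ω := φ.toRingHom.range with hA
  have hmem : ∀ P, φ P ∈ A := fun P => ⟨P, rfl⟩
  have hxm : ∀ t, (x t)⁻¹ ∈ A := fun t => ⟨X t, aeval_X _ t⟩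
  set I : Ideal A := Ideal.span (Set.range fun t : Fin 2 => (⟨(x t)⁻¹, hxm t⟩ : A)) with hI
  have hne : I ≠ ⊤ := by
    intro htop
    have h1 : (1 : A) ∈ I := by
      rw [htop]
      exact Submodule.mem_top
    rw [hI, Ideal.mem_span_range_iff_exists_fun] at h1
    obtain ⟨c, hc⟩ := h1
    obtain ⟨p0, hp0⟩ := (c 0).2
    obtain ⟨p1, hp1⟩ := (c 1).2
    have hp0' : φ p0 = (c 0 : Ω) := hp0
    have hp1' : φ p1 = (c 1 : Ω) := hp1
    have h2 := congrArg (Subtype.val) hc
    rw [Fin.sum_univ_two] at h2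
    have h3 : (c 0 : Ω) * (x 0)⁻¹ + (c 1 : Ω) * (x 1)⁻¹ = 1 := h2
    apply aeval_inv_ne_zero hg hd htc hx h0 (1 - p0 * X 0 - p1 * X 1)
    · rw [coeff_sub, coeff_sub]
      have e0 : coeff 0 (p0 * X 0 : MvPolynomial (Fin 2) K) = 0 := by
        rw [← constantCoeff_eq, map_mul, constantCoeff_X, mul_zero]
      have e1 : coeff 0 (p1 * X 1 : MvPolynomial (Fin 2) K) = 0 := by
        rw [← constantCoeff_eq, map_mul, constantCoeff_X, mul_zero]
      rw [e0, e1, sub_zero, sub_zero, coeff_zero_one]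
    · rw [map_sub, map_sub, map_one, map_mul, map_mul, aeval_X, aeval_X]
      have h4 : (aeval (fun t => (x t)⁻¹)) p0 = (c 0 : Ω) := hp0'
      have h5 : (aeval (fun t => (x t)⁻¹)) p1 = (c 1 : Ω) := hp1'
      rw [h4, h5]
      linear_combination -h3
  obtain ⟨O, hO1, hO2⟩ := Ideal.image_subset_nonunits_valuationSubring I hne
  refine ⟨O, fun c => ?_, fun t => ⟨?_, ?_⟩⟩
  · apply hO1
    exact ⟨C c, by
      show φ (C c) = algebraMap K Ω c
      exact aeval_C _ c⟩
  · intro h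
    fin_cases t
    · apply h0
      have h' : x 0 = 0 := h
      rw [h']
      exact zero_mem _
    · apply snd_not_mem_acl hg hd hx h0
      have h' : x 1 = 0 := h
      rw [h']
      exact zero_mem _
  · exact hO2 ⟨⟨(x t)⁻¹, hxm t⟩, Ideal.subset_span ⟨t, rfl⟩, rfl⟩

end Pool.Agent.Lib.MP_17a322_nt.VJ
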