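import Pool.Agent.Lib.MP_17a322_nt.VJ.I2
import Pool.Agent.Lib.MP_17a322_nt.VJ.I12
import Pool.Agent.Lib.MP_17a322_nt.VJ.I4
import Pool.Agent.Lib.MP_17a322_nt.VJ.E3
import Pool.Agent.Lib.MP_17a322_nt.VJ.E4

/-!
# JOB I13: (10.4) reduction at the valuation ring
-/

namespace Pool.Agent.Lib.MP_17a322_nt.VJ

open MvPolynomial WeierstrassCurve

/-- `g` vanishes at the point `(τ, x(S))` of the product of two projective lines: the value at
`(τ, x(S))` if `S` is affine, the value at `τ` of the leading coefficient in the second variable if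
`S = O`. -/
def Van {K Ω : Type*} [Field K] [Field Ω] [Algebra K Ω] (g : MvPolynomial (Fin 2) K) (τ : Ω)
    {V : WeierstrassCurve Ω} (S : V.toAffine.Point) : Prop :=
  (∀ ς : Ω, S.xRep = ![ς, 1] → aeval ![τ, ς] g = 0) ∧ (S = 0 → aeval ![τ, 0] (lcv 1 g) = 0)

section

variable {Ω : Type*} [Field Ω] {O : ValuationSubring Ω}

theorem I13_add {a b : Ω} (ha : a ∈ O.nonunits) (hb : b ∈ O.nonunits) : a + b ∈ O.nonunits := by
  rw [ValuationSubring.mem_nonunits_iff] at ha hb ⊢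
  exact lt_of_le_of_lt (O.valuation.map_add a b) (max_lt ha hb)

theorem I13_neg {a : Ω} (ha : a ∈ O.nonunits) : -a ∈ O.nonunits := by
  rw [ValuationSubring.mem_nonunits_iff] at ha ⊢
  rwa [Valuation.map_neg]

theorem I13_sub {a b : Ω} (ha : a ∈ O.nonunits) (hb : b ∈ O.nonunits) : a - b ∈ O.nonunits := by
  rw [sub_eq_add_neg]
  exact I13_add ha (I13_neg hb)

theorem I13_mul {a b : Ω} (ha : a ∈ O) (hb : b ∈ O.nonunits) : a * b ∈ O.nonunits := by
  rw [← O.valuation_le_one_iff] at ha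
  rw [ValuationSubring.mem_nonunits_iff] at hb ⊢
  rw [map_mul]
  calc O.valuation a * O.valuation b ≤ 1 * O.valuation b := by gcongr
    _ = O.valuation b := one_mul _
    _ < 1 := hb

theorem I13_mul' {a b : Ω} (ha : a ∈ O.nonunits) (hb : b ∈ O) : a * b ∈ O.nonunits := by
  rw [mul_comm]
  exact I13_mul hb ha

theorem I13_mem {a : Ω} (ha : a ∈ O.nonunits) : a ∈ O := by
  rw [ValuationSubring.mem_nonunits_iff] at ha
  rw [← O.valuation_le_one_iff]
  exact ha.le

theorem I13_zero : (0 : Ω) ∈ O.nonunits := by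
  rw [ValuationSubring.mem_nonunits_iff, map_zero]
  exact zero_lt_one

theorem I13_sum {ι : Type*} (s : Finset ι) (f : ι → Ω) (h : ∀ i ∈ s, f i ∈ O.nonunits) :
    ∑ i ∈ s, f i ∈ O.nonunits :=
  Finset.sum_induction f (fun a => a ∈ O.nonunits) (fun _ _ ha hb => I13_add ha hb) I13_zero h

theorem I13_one : (1 : Ω) ∉ O.nonunits := by
  intro h
  rw [ValuationSubring.mem_nonunits_iff, map_one] at h
  exact lt_irrefl _ h

theorem I13_of_sq {a : Ω} (h : a ^ 2 ∈ O.nonunits) : a ∈ O.nonunits := by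
  rw [ValuationSubring.mem_nonunits_iff] at h ⊢
  rw [map_pow] at h
  by_contra h1
  exact absurd (one_le_pow_of_one_le' (not_lt.1 h1) 2) (not_le.2 h)

theorem I13_pow {a : Ω} (h : a ∈ O.nonunits) {n : ℕ} (hn : n ≠ 0) : a ^ n ∈ O.nonunits := by
  obtain ⟨m, rfl⟩ := Nat.exists_eq_succ_of_ne_zero hn
  rw [pow_succ]
  exact I13_mul (O.pow_mem (I13_mem h) m) h

end

section

variable {K Ω : Type*} [Field K] [Field Ω] [Algebra K Ω] (O : ValuationSubring Ω)
  (hO : ∀ c : K, algebraMap K Ω c ∈ O)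

include hO

/-- An element algebraic over `K` is integral over `K`, so over `O`, and `O` is integrally closed
(`ValuationRing` implies `IsIntegrallyClosed`; or: if `z ∉ O` then `z⁻¹ ∈ O` is a nonunit, and
`z ^ n + c_1 z ^ (n-1) + .. = 0` divided by `z ^ n` gives `1 ∈ nonunits`). -/
theorem mem_of_mem_acl {z : Ω} (hz : z ∈ acl K (∅ : Set Ω)) : z ∈ O := by
  have h1 : IsAlgebraic K z := by
    have h2 : acl K (∅ : Set Ω) ≤ algebraicClosure K Ω := by
      refine acl_le _ (fun w hw => ?_) (Set.empty_subset _)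
      rw [mem_algebraicClosure_iff]
      exact hw.restrictScalars K
    exact mem_algebraicClosure_iff.1 (h2 hz)
  obtain ⟨p, hp, hpz⟩ := isAlgebraic_iff_isIntegral.1 h1
  let f : K →+* O := (algebraMap K Ω).codRestrict O.toSubring hO
  have h3 : IsIntegral O z := by
    refine ⟨p.map f, hp.map f, ?_⟩
    rw [Polynomial.eval₂_map]
    exact hpz
  obtain ⟨y, hy⟩ := IsIntegrallyClosed.isIntegral_iff.1 h3
  rw [← hy]
  exact y.2

/-- A nonunit algebraic over `K` is zero (its inverse is in `O` as well). -/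
theorem eq_zero_of_nonunit {z : Ω} (hz : z ∈ acl K (∅ : Set Ω)) (h : z ∈ O.nonunits) : z = 0 := by
  by_contra h0
  have h1 : z⁻¹ ∈ O := mem_of_mem_acl O hO (inv_mem hz)
  have h2 := I13_mul h1 h
  rw [inv_mul_cancel₀ h0] at h2
  exact I13_one h2

/-- Values of polynomials at points of `O` (induction, or `aeval_mem`-style). -/
theorem aeval_mem_valuation {σ : Type*} (P : MvPolynomial σ K) (z : σ → Ω) (h : ∀ t, z t ∈ O) :
    aeval z P ∈ O := by
  induction P using MvPolynomial.induction_on with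
  | C a =>
    rw [aeval_C]
    exact hO a
  | add P Q hP hQ =>
    rw [map_add]
    exact O.add_mem _ _ hP hQ
  | mul_X P t hP =>
    rw [map_mul, aeval_X]
    exact O.mul_mem _ _ hP (h t)

/-- Congruent points have congruent values (`MvPolynomial.induction_on`; or factor through the residue
field `O ⧸ maximalIdeal`). -/
theorem aeval_sub_mem {σ : Type*} (P : MvPolynomial σ K) (z w : σ → Ω) (hz : ∀ t, z t ∈ O)
    (hw : ∀ t, w t ∈ O) (h : ∀ t, z t - w t ∈ O.nonunits) :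
    aeval z P - aeval w P ∈ O.nonunits := by
  induction P using MvPolynomial.induction_on with
  | C a =>
    rw [aeval_C, aeval_C, sub_self]
    exact I13_zero
  | add P Q hP hQ =>
    rw [map_add, map_add]
    have h1 := I13_add hP hQ
    have h2 : aeval z P + aeval z Q - (aeval w P + aeval w Q) =
      aeval z P - aeval w P + (aeval z Q - aeval w Q) := by ring
    rw [h2]
    exact h1
  | mul_X P t hP =>
    rw [map_mul, map_mul, aeval_X, aeval_X]
    have h2 : aeval z P * z t - aeval w P * w t =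
      aeval z P * (z t - w t) + (aeval z P - aeval w P) * w t := by ring
    rw [h2]
    exact I13_add (I13_mul (aeval_mem_valuation O hO P z hz) (h t)) (I13_mul' hP (hw t))

/-- Proof: `aeval_sub_mem` shows that `aeval ![τ, ς] g` is a nonunit; it is in `acl K ∅` (`aeval_mem`);
`eq_zero_of_nonunit`. -/
theorem reduce_affine (g : MvPolynomial (Fin 2) K) {z₀ z₁ τ ς : Ω}
    (hτ : τ ∈ acl K (∅ : Set Ω)) (hς : ς ∈ acl K (∅ : Set Ω)) (h₀ : z₀ - τ ∈ O.nonunits)
    (h₁ : z₁ - ς ∈ O.nonunits) (h : aeval ![z₀, z₁] g = 0) : aeval ![τ, ς] g = 0 := by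
  have hτO := mem_of_mem_acl O hO hτ
  have hςO := mem_of_mem_acl O hO hς
  have hz₀ : z₀ ∈ O := by
    have h2 := O.add_mem _ _ (I13_mem h₀) hτO
    rwa [sub_add_cancel] at h2
  have hz₁ : z₁ ∈ O := by
    have h2 := O.add_mem _ _ (I13_mem h₁) hςO
    rwa [sub_add_cancel] at h2
  refine eq_zero_of_nonunit O hO ?_ ?_
  · refine aeval_mem _ g fun t _ => ?_
    fin_cases t
    · exact hτ
    · exact hς
  · have h3 := aeval_sub_mem O hO g ![z₀, z₁] ![τ, ς] ?_ ?_ ?_
    · rw [h, zero_sub] at h3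
      have h4 := I13_neg h3
      rwa [neg_neg] at h4
    · intro t
      fin_cases t
      · exact hz₀
      · exact hz₁
    · intro t
      fin_cases t
      · exact hτO
      · exact hςO
    · intro t
      fin_cases t
      · exact h₀
      · exact h₁

/-- Proof: with `d = g.degreeOf 1` and `c j = (vw 1 g).coeff j`, `∑_{j ≤ d} c_j(z₀) z₁ ^ j = 0`
(`aeval_vw'`), so `c_d(z₀) = -∑_{j < d} c_j(z₀) (z₁⁻¹) ^ (d - j)` is a nonunit, and so is
`aeval ![τ, 0] (lcv 1 g)` (`aeval_sub_mem`; `lcv 1 g` does not involve the variable `1`,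
`aeval_congr_vars`, `vars_lcv`). -/
theorem reduce_infty (g : MvPolynomial (Fin 2) K) {z₀ z₁ τ : Ω}
    (hτ : τ ∈ acl K (∅ : Set Ω)) (h₀ : z₀ - τ ∈ O.nonunits) (hz : z₁ ≠ 0)
    (h₁ : z₁⁻¹ ∈ O.nonunits) (h : aeval ![z₀, z₁] g = 0) : aeval ![τ, 0] (lcv 1 g) = 0 := by
  have hτO := mem_of_mem_acl O hO hτ
  have hz₀ : z₀ ∈ O := by
    have h2 := O.add_mem _ _ (I13_mem h₀) hτO
    rwa [sub_add_cancel] at h2
  have hv : ∀ j : ℕ, ∀ a b c : Ω, aeval ![a, b] ((vw 1 g).coeff j) = aeval ![a, c] ((vw 1 g).coeff j) := by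
    intro j a b c
    refine aeval_congr_vars _ fun t ht => ?_
    have ht1 := vars_coeff_vw 1 g j ht
    rw [Finset.mem_erase] at ht1
    fin_cases t
    · rfl
    · exact absurd rfl ht1.1
  have hOj : ∀ j : ℕ, aeval ![z₀, z₁] ((vw 1 g).coeff j) ∈ O := by
    intro j
    rw [hv j z₀ z₁ 0]
    refine aeval_mem_valuation O hO _ _ fun t => ?_
    fin_cases t
    · exact hz₀
    · exact O.zero_mem
  -- the relation
  have h2 := aeval_vw' (1 : Fin 2) ![z₀, z₁] g
  rw [h, Polynomial.eval_eq_sum_range' (n := g.degreeOf 1 + 1) ?_] at h2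
  swap
  · refine Nat.lt_succ_of_le (le_trans Polynomial.natDegree_map_le ?_)
    rw [natDegree_vw]
  rw [Finset.sum_range_succ] at h2
  have h3 : aeval ![z₀, z₁] (lcv 1 g) ∈ O.nonunits := by
    have h4 : aeval ![z₀, z₁] (lcv 1 g) = -∑ j ∈ Finset.range (g.degreeOf 1),
        aeval ![z₀, z₁] ((vw 1 g).coeff j) * z₁⁻¹ ^ (g.degreeOf 1 - j) := by
      have h5 : z₁ ^ (g.degreeOf 1) ≠ 0 := pow_ne_zero _ hz
      apply mul_right_cancel₀ h5
      rw [neg_mul, Finset.sum_mul, eq_neg_iff_add_eq_zero, add_comm, ← h2]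
      congr 1
      · refine Finset.sum_congr rfl fun j hj => ?_
        rw [Finset.mem_range] at hj
        rw [Polynomial.coeff_map, mul_assoc]
        congr 1
        rw [inv_pow, ← div_eq_inv_mul, div_eq_iff (pow_ne_zero _ hz)]
        change _ = z₁ ^ j * _
        rw [← pow_add, Nat.add_sub_cancel' hj.le]
      · rw [Polynomial.coeff_map]
        rfl
    rw [h4]
    refine I13_neg (I13_sum _ _ fun j hj => ?_)
    rw [Finset.mem_range] at hj
    exact I13_mul (hOj j) (I13_pow h₁ (by omega))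
  have h6 : aeval ![z₀, z₁] (lcv 1 g) = aeval ![z₀, 0] (lcv 1 g) := hv _ z₀ z₁ 0
  rw [h6] at h3
  refine eq_zero_of_nonunit O hO ?_ ?_
  · refine aeval_mem _ _ fun t _ => ?_
    fin_cases t
    · exact hτ
    · exact zero_mem _
  · have h7 := aeval_sub_mem O hO (lcv 1 g) ![z₀, 0] ![τ, 0] ?_ ?_ ?_
    · have h8 := I13_sub h3 h7
      rwa [sub_sub_cancel] at h8
    · intro t
      fin_cases t
      · exact hz₀
      · exact O.zero_mem
    · intro t
      fin_cases t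
      · exact hτO
      · exact O.zero_mem
    · intro t
      fin_cases t
      · exact h₀
      · change (0 : Ω) - 0 ∈ O.nonunits
        rw [sub_zero]
        exact I13_zero

/-- Adding a point `T` with integral coordinate to a point `u` which reduces to `O`: `x(u + T)` reduces to
`x(T)`.
Proof. Let `R = ![x, 1]`, `Q = ![τ, 1]`, `s = SV W R Q = γ * sq2 (u+T).xRep (u-T).xRep` (E4 `SV_xRep`).
`s 2 = (x - τ) ^ 2 ≠ 0` (`x = τ` would give `1 = τ * x⁻¹` a nonunit), so `u + T ≠ 0`, `(u+T).xRep = ![z, 1]`,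
and `QF s ![z, 1] = 0` (`QF_sq2`): `s 0 - s 1 * z + s 2 * z ^ 2 = 0`. Divide by `x ^ 2` and use `SV_zero`,
`SV_one`, `SV_two`: with `y = x⁻¹` a nonunit, `s 2 / x ^ 2 = (1 - τ y) ^ 2 =: p` is a unit `≡ 1`,
`s 1 / x ^ 2 ≡ 2 τ`, `s 0 / x ^ 2 ≡ τ ^ 2` modulo nonunits. So `z` is a root of a monic polynomial of degree
`2` over `O`, hence in `O` (if `z⁻¹` were a nonunit, divide by `z ^ 2`: `1` would be a nonunit), and
`(z - τ) ^ 2` is a nonunit, hence `z - τ` is one. -/
theorem reduce_add [DecidableEq Ω] (W : WeierstrassCurve K) [W.IsElliptic]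
    (u T : (W.map (algebraMap K Ω)).toAffine.Point) {x τ : Ω} (hu : u.xRep = ![x, 1])
    (hx : x ≠ 0) (hxO : x⁻¹ ∈ O.nonunits) (hT : T.xRep = ![τ, 1]) (hτ : τ ∈ O) :
    ∃ z : Ω, (u + T).xRep = ![z, 1] ∧ z - τ ∈ O.nonunits := by
  have hxτ : x - τ ≠ 0 := by
    intro h0
    have h1 : τ * x⁻¹ = 1 := by
      rw [← sub_eq_zero.1 h0]
      exact mul_inv_cancel₀ hx
    have h2 := I13_mul hτ hxO
    rw [h1] at h2
    exact I13_one h2
  have hS : S3 W u.xRep T.xRep (u + T).xRep = 0 := S3_xRep_add W (W.map (algebraMap K Ω)) rfl u T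
  unfold S3 QF at hS
  rw [hu, hT] at hS
  have e0 : SV W ![x, 1] ![τ, 1] 0 = (x * τ) ^ 2 - algebraMap K Ω W.b₄ * (x * τ) -
      algebraMap K Ω W.b₆ * (x + τ) - algebraMap K Ω W.b₈ := by
    rw [SV_zero]
    simp
  have e1 : SV W ![x, 1] ![τ, 1] 1 = 2 * (x + τ) * (x * τ) + algebraMap K Ω W.b₂ * (x * τ) +
      algebraMap K Ω W.b₄ * (x + τ) + algebraMap K Ω W.b₆ := by
    rw [SV_one]
    simp
  have e2 : SV W ![x, 1] ![τ, 1] 2 = (x - τ) ^ 2 := by
    rw [SV_two]
    unfold wd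
    simp
  rw [e0, e1, e2] at hS
  rcases pt_cases (u + T) with h0 | ⟨z, hz⟩
  · exfalso
    rw [h0, WeierstrassCurve.Affine.Point.xRep_zero] at hS
    apply pow_ne_zero 2 hxτ
    simpa using hS
  refine ⟨z, hz, ?_⟩
  rw [hz] at hS
  have hb2 := hO W.b₂
  have hb4 := hO W.b₄
  have hb6 := hO W.b₆
  have hb8 := hO W.b₈
  generalize algebraMap K Ω W.b₂ = b2 at hS hb2
  generalize algebraMap K Ω W.b₄ = b4 at hS hb4
  generalize algebraMap K Ω W.b₆ = b6 at hS hb6
  generalize algebraMap K Ω W.b₈ = b8 at hS hb8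
  have hyx : x⁻¹ * x = 1 := inv_mul_cancel₀ hx
  generalize x⁻¹ = y at hxO hyx
  have hyO := I13_mem hxO
  have hS1 : ((x * τ) ^ 2 - b4 * (x * τ) - b6 * (x + τ) - b8) -
      (2 * (x + τ) * (x * τ) + b2 * (x * τ) + b4 * (x + τ) + b6) * z + (x - τ) ^ 2 * z ^ 2 = 0 := by
    have h1 := hS
    simp only [Matrix.cons_val_zero, Matrix.cons_val_one] at h1
    linear_combination h1
  have hS2 : (1 - y * (2 * τ - τ ^ 2 * y)) * z ^ 2 -
      (2 * τ + y * (2 * τ ^ 2 + b2 * τ + b4 * (1 + τ * y) + b6 * y)) * z +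
      (τ ^ 2 - y * (b4 * τ + b6 * (1 + τ * y) + b8 * y)) = 0 := by
    linear_combination y ^ 2 * hS1 -
      ((y * x + 1) * (z ^ 2 - 2 * τ * z + τ ^ 2) - 2 * τ * y * z ^ 2 -
        (2 * τ ^ 2 + b2 * τ + b4) * y * z - (b4 * τ + b6) * y) * hyx
  have hm1 : 2 * τ - τ ^ 2 * y ∈ O := by
    have h2 : (2 : Ω) ∈ O := by
      have := hO 2
      rwa [map_ofNat] at this
    exact sub_mem (O.mul_mem _ _ h2 hτ) (O.mul_mem _ _ (O.pow_mem hτ 2) hyO)
  have hc : 1 + τ * y ∈ O := O.add_mem _ _ O.one_mem (O.mul_mem _ _ hτ hyO)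
  have hm2 : 2 * τ ^ 2 + b2 * τ + b4 * (1 + τ * y) + b6 * y ∈ O := by
    have h2 : (2 : Ω) ∈ O := by
      have := hO 2
      rwa [map_ofNat] at this
    exact O.add_mem _ _ (O.add_mem _ _ (O.add_mem _ _ (O.mul_mem _ _ h2 (O.pow_mem hτ 2))
      (O.mul_mem _ _ hb2 hτ)) (O.mul_mem _ _ hb4 hc)) (O.mul_mem _ _ hb6 hyO)
  have hm3 : b4 * τ + b6 * (1 + τ * y) + b8 * y ∈ O :=
    O.add_mem _ _ (O.add_mem _ _ (O.mul_mem _ _ hb4 hτ) (O.mul_mem _ _ hb6 hc))
      (O.mul_mem _ _ hb8 hyO)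
  have h2τ : 2 * τ ∈ O := by
    rw [two_mul]
    exact O.add_mem _ _ hτ hτ
  generalize 2 * τ - τ ^ 2 * y = m1 at hS2 hm1
  generalize 2 * τ ^ 2 + b2 * τ + b4 * (1 + τ * y) + b6 * y = m2 at hS2 hm2
  generalize b4 * τ + b6 * (1 + τ * y) + b8 * y = m3 at hS2 hm3
  have hzO : z ∈ O := by
    by_contra hzO
    have hz0 : z ≠ 0 := by
      rintro rfl
      exact hzO O.zero_mem
    have hw : z⁻¹ ∈ O.nonunits := by
      rw [ValuationSubring.mem_nonunits_iff_or]
      right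
      rwa [inv_inv]
    have hwz : z⁻¹ * z = 1 := inv_mul_cancel₀ hz0
    generalize z⁻¹ = w at hw hwz
    have h1 : (1 : Ω) = y * m1 + (2 * τ + y * m2) * w - (τ ^ 2 - y * m3) * w * w := by
      linear_combination w ^ 2 * hS2 - ((1 - y * m1) * (w * z + 1) - (2 * τ + y * m2) * w) * hwz
    apply I13_one (O := O)
    rw [h1]
    refine I13_sub (I13_add (I13_mul' hxO hm1) (I13_mul ?_ hw)) (I13_mul (O.mul_mem _ _ ?_ (I13_mem hw)) hw)
    · exact O.add_mem _ _ h2τ (O.mul_mem _ _ hyO hm2)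
    · exact sub_mem (O.pow_mem hτ 2) (O.mul_mem _ _ hyO hm3)
  apply I13_of_sq
  have h1 : (z - τ) ^ 2 = y * (m1 * z ^ 2 + m2 * z + m3) := by
    linear_combination hS2
  rw [h1]
  exact I13_mul' hxO (O.add_mem _ _ (O.add_mem _ _ (O.mul_mem _ _ hm1 (O.pow_mem hzO 2))
    (O.mul_mem _ _ hm2 hzO)) hm3)

end

/-- (10.4). Proof. `O` from `exists_valuation`. `z t = σ (x t)` is the coordinate of `u t + T t`
(`mp_xRep`), and `aeval z g = σ (aeval x g) = 0`. `reduce_add` for `T 0` gives `z 0 - τ ∈ nonunits`. If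
`T 1` is affine, `(T 1).xRep = ![ς, 1]`: `reduce_add` and `reduce_affine`. If `T 1 = 0` then `z 1 = x 1` and
`reduce_infty`. (`τ, ς ∈ acl K ∅` by `PA.mem`; `mem_of_mem_acl`.) -/
theorem van_of_hom {K Ω : Type*} [Field K] [Field Ω] [DecidableEq Ω] [Algebra K Ω]
    {W : Fin 2 → WeierstrassCurve K} [∀ t, (W t).IsElliptic] {g : MvPolynomial (Fin 2) K}
    (hg : Irreducible g) (hd : ∀ t, g.degreeOf t ≠ 0) (htc : tc g = 0) {x : Fin 2 → Ω}
    (hx : aeval x g = 0) (h0 : x 0 ∉ acl K (∅ : Set Ω))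
    (u T : ∀ t, ((W t).map (algebraMap K Ω)).toAffine.Point) (hux : ∀ t, (u t).xRep = ![x t, 1])
    (σ : Ω →ₐ[K] Ω) (hT : ∀ t, PA (acl K (∅ : Set Ω)) (T t))
    (hu : ∀ t, mp (W t) σ (u t) = u t + T t) {τ : Ω} (hτ : (T 0).xRep = ![τ, 1]) :
    Van g τ (T 1) := by
  obtain ⟨O, hO, hOx⟩ := exists_valuation hg hd htc hx h0
  have hgz : aeval ![σ (x 0), σ (x 1)] g = 0 := by
    have h1 : σ (aeval x g) = aeval (fun t => σ (x t)) g := by
      rw [← MvPolynomial.comp_aeval_apply]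
    rw [hx, map_zero] at h1
    rw [h1]
    congr 1
    congr 1
    funext t
    fin_cases t <;> rfl
  have hz : ∀ t, (u t + T t).xRep = ![σ (x t), 1] := by
    intro t
    rw [← hu t]
    funext i
    rw [mp_xRep, hux t]
    fin_cases i
    · rfl
    · exact map_one σ
  have hcoord : ∀ t, ∀ z : Ω, (u t + T t).xRep = ![z, 1] → z = σ (x t) := by
    intro t z h
    rw [hz t] at h
    exact (congrFun h 0).symm
  have hτm : τ ∈ acl K (∅ : Set Ω) := (hT 0).mem hτ
  have h00 : σ (x 0) - τ ∈ O.nonunits := by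
    obtain ⟨z, h1, h2⟩ := reduce_add O hO (W 0) (u 0) (T 0) (hux 0) (hOx 0).1 (hOx 0).2 hτ
      (mem_of_mem_acl O hO hτm)
    rwa [hcoord 0 z h1] at h2
  constructor
  · intro ς hς
    have hςm : ς ∈ acl K (∅ : Set Ω) := (hT 1).mem hς
    have h11 : σ (x 1) - ς ∈ O.nonunits := by
      obtain ⟨z, h1, h2⟩ := reduce_add O hO (W 1) (u 1) (T 1) (hux 1) (hOx 1).1 (hOx 1).2 hς
        (mem_of_mem_acl O hO hςm)
      rwa [hcoord 1 z h1] at h2
    exact reduce_affine O hO g hτm hςm h00 h11 hgz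
  · intro hT1
    have h1 : x 1 = σ (x 1) := by
      apply hcoord 1
      rw [hT1, add_zero]
      exact hux 1
    refine reduce_infty O hO g hτm h00 (hOx 1).1 (hOx 1).2 ?_
    rw [h1]
    exact hgz

end Pool.Agent.Lib.MP_17a322_nt.VJ
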