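import Pool.Agent.Lib.MP_17a322_nt.VJ.I2
import Pool.Agent.Lib.MP_17a322_nt.VJ.E3
import Pool.Agent.Lib.MP_17a322_nt.VJ.E4
import Pool.Agent.Lib.MP_17a322_nt.RO.B2
import Pool.Agent.Lib.MP_17a322_nt.RO.F1

/-!
# JOB I14: torsion points over an algebraically closed field
-/

universe u

namespace Pool.Agent.Lib.MP_17a322_nt.VJ

open MvPolynomial WeierstrassCurve
open Pool.Agent.Lib.MP_17a322_nt.RO

variable {K Ω : Type u} [Field K] [Field Ω] [DecidableEq Ω] [Algebra K Ω] [IsAlgClosed Ω]

theorem I14_ev {Ω : Type u} [Field Ω] (φ : MvPolynomial (Fin 2) Ω) (f : Fin 2 → Polynomial Ω) (s : Ω) :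
    Polynomial.eval s (aeval f φ) = aeval (fun i => Polynomial.eval s (f i)) φ := by
  have h := MvPolynomial.comp_aeval_apply f (Polynomial.aeval s : Polynomial Ω →ₐ[Ω] Ω) φ
  simpa only [Polynomial.coe_aeval_eq_eval] using h

theorem I14_infinite {Ω : Type u} [Field Ω] [IsAlgClosed Ω] :
    (({0} : Set Ω)ᶜ).Infinite := by
  have : Infinite Ω := IsAlgClosed.instInfinite
  exact (Set.finite_singleton (0 : Ω)).infinite_compl

/-- A form of positive degree has a nonzero zero. -/
theorem I14_zero {Ω : Type u} [Field Ω] [IsAlgClosed Ω] (φ : MvPolynomial (Fin 2) Ω)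
    {n : ℕ} (hn : n ≠ 0) (hφ : φ.IsHomogeneous n) :
    ∃ u : Fin 2 → Ω, u ≠ 0 ∧ aeval u φ = 0 := by
  by_contra hcon
  have hall : ∀ u : Fin 2 → Ω, u ≠ 0 → aeval u φ ≠ 0 := fun u hu h => hcon ⟨u, hu, h⟩
  have ne1 : ∀ s : Ω, (![1, s] : Fin 2 → Ω) ≠ 0 := by
    intro s h
    have := congrFun h 0
    simp at this
  have ne2 : (![0, 1] : Fin 2 → Ω) ≠ 0 := by
    intro h
    have := congrFun h 1
    simp at this
  set q : Polynomial Ω := aeval ![1, Polynomial.X] φ with hq
  have hqe : ∀ s, Polynomial.eval s q = aeval ![1, s] φ := by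
    intro s
    rw [hq, I14_ev]
    congr 2
    funext i
    fin_cases i <;> simp
  have hdeg : q.degree = 0 := by
    by_contra hd
    obtain ⟨x, hx⟩ := IsAlgClosed.exists_root q hd
    exact hall _ (ne1 x) ((hqe x).symm.trans hx)
  have hqc := Polynomial.eq_C_of_degree_eq_zero hdeg
  set c := q.coeff 0 with hc
  have hconst : ∀ s, aeval ![1, s] φ = c := by
    intro s
    rw [← hqe s, hqc, Polynomial.eval_C]
  set p : Polynomial Ω := aeval ![Polynomial.X, 1] φ with hp
  have hpe : ∀ s, Polynomial.eval s p = aeval ![s, 1] φ := by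
    intro s
    rw [hp, I14_ev]
    congr 2
    funext i
    fin_cases i <;> simp
  have hpt : ∀ t : Ω, t ≠ 0 → Polynomial.eval t p = t ^ n * c := by
    intro t ht
    rw [hpe, ← hconst t⁻¹, ← B2_scale φ n hφ t]
    congr 2
    funext i
    fin_cases i
    · simp
    · simp [mul_inv_cancel₀ ht]
  have heq : p = Polynomial.X ^ n * Polynomial.C c := by
    apply Polynomial.eq_of_infinite_eval_eq
    refine I14_infinite.mono ?_
    intro t ht
    have ht' : t ≠ 0 := ht
    show Polynomial.eval t p = Polynomial.eval t (Polynomial.X ^ n * Polynomial.C c)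
    rw [hpt t ht', Polynomial.eval_mul, Polynomial.eval_pow, Polynomial.eval_X, Polynomial.eval_C]
  apply hall _ ne2
  rw [← hpe 0, heq, Polynomial.eval_mul, Polynomial.eval_pow, Polynomial.eval_X, zero_pow hn, zero_mul]

/-- A binary form of positive degree over `K` has a nonzero zero in `Ω` (if the coefficient of `X 0 ^ n` is `0`
take `![1, 0]`, otherwise a root of the dehomogenised polynomial of degree `n`); as every nonzero
vector is a multiple of some `xRep` (RO/B1 `exists_point`), the zero may be taken of the form `P.xRep`. Here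
for the form `r₁ a - r₀ b` with coefficients in `Ω`. State and prove a helper lemma for
`MvPolynomial (Fin 2) Ω`. -/
theorem exists_zero_of_form (V : WeierstrassCurve Ω) [V.IsElliptic] (φ : MvPolynomial (Fin 2) Ω)
    {n : ℕ} (hn : n ≠ 0) (hφ : φ.IsHomogeneous n) :
    ∃ P : V.toAffine.Point, aeval P.xRep φ = 0 := by
  obtain ⟨w, hw, h⟩ := I14_zero φ hn hφ
  obtain ⟨P, c, hc, hP⟩ := exists_point V w hw
  refine ⟨P, ?_⟩
  have h1 : aeval w φ = c ^ n * aeval P.xRep φ := by
    rw [hP, ← B2_scale φ n hφ c]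
    rfl
  rw [h] at h1
  exact (mul_eq_zero.1 h1.symm).resolve_left (pow_ne_zero n hc)

/-- The x-coordinates of the nonzero points killed by `n` are roots of one polynomial over `K`. -/
theorem I14_poly (W : WeierstrassCurve K) [W.IsElliptic] {n : ℕ} (hn : n ≠ 0) :
    ∃ p : Polynomial K, p ≠ 0 ∧ ∀ P : (W.map (algebraMap K Ω)).toAffine.Point, n • P = 0 →
      ∀ x : Ω, P.xRep = ![x, 1] → Polynomial.aeval x p = 0 := by
  obtain ⟨a, b, ha, hb, h⟩ := exists_mulForm W n
  have hab := h Ω (W.map (algebraMap K Ω)) rfl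
  have hpe : ∀ x : Ω, Polynomial.aeval x (aeval ![Polynomial.X, 1] b : Polynomial K) =
      aeval ![x, 1] b := by
    intro x
    have h := MvPolynomial.comp_aeval_apply (R := K) (![Polynomial.X, 1] : Fin 2 → Polynomial K)
      (Polynomial.aeval x : Polynomial K →ₐ[K] Ω) b
    rw [h]
    congr 2
    funext i
    fin_cases i
    · simp
    · simp
  refine ⟨aeval ![Polynomial.X, 1] b, ?_, ?_⟩
  · intro h0
    have hha : (MvPolynomial.map (algebraMap K Ω) a).IsHomogeneous (n ^ 2) := ha.map _
    obtain ⟨P, hP⟩ := exists_zero_of_form (W.map (algebraMap K Ω)) _ (pow_ne_zero 2 hn) hha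
    rw [MvPolynomial.aeval_map_algebraMap] at hP
    obtain ⟨c, hc, h1, h2⟩ := hab P
    rw [hP] at h1
    have h3 : (n • P).xRep 0 = 0 := (mul_eq_zero.1 h1.symm).resolve_left hc
    have h4 : (n • P).xRep 1 ≠ 0 := by
      intro h5
      apply xRep_ne_zero (n • P)
      funext i
      fin_cases i
      · exact h3
      · exact h5
    have h6 : aeval P.xRep b ≠ 0 := by
      rw [h2]
      exact mul_ne_zero hc h4
    have hP0 : P ≠ 0 := by
      rintro rfl
      apply h4
      rw [smul_zero, xRep_zero]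
      rfl
    apply h6
    rw [xRep_eq hP0, ← hpe, h0, map_zero]
  · intro P hP x hx
    rw [hpe, ← hx]
    obtain ⟨c, hc, h1, h2⟩ := hab P
    rw [h2, hP, xRep_zero]
    simp

/-- Torsion is finite.
Proof. RO/B2 `exists_mulForm` gives forms `a`, `b` of degree `n ^ 2` over `K`. `n • P = 0` iff
`(n • P).xRep 1 = 0` iff `aeval P.xRep b = 0`. `b ≠ 0`: by `exists_zero_of_form` for `a` (degree `n ^ 2 ≠ 0`;
mapped to `Ω`) there is `P` with `aeval P.xRep a = 0`, i.e. `(n • P).xRep 0 = 0`, so `(n • P).xRep 1 ≠ 0` and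
`aeval P.xRep b ≠ 0`. A nonzero binary form has finitely many zeros among points: RO/F1
`card_zeros_le` (finite subsets have at most `2 d` elements, so the set is finite:
`Set.finite_of_forall_finset_card_le` or `Set.infinite.exists_subset_card_eq`), or directly: the x-coordinate
is a root of the nonzero polynomial `b(X, 1)`, and each value is taken at most twice. -/
theorem finite_torsion (W : WeierstrassCurve K) [W.IsElliptic] {n : ℕ} (hn : n ≠ 0) :
    {P : (W.map (algebraMap K Ω)).toAffine.Point | n • P = 0}.Finite := by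
  classical
  obtain ⟨p, hp, h⟩ := I14_poly (Ω := Ω) W hn
  have hfin : ((p.map (algebraMap K Ω)).roots.toFinset : Set Ω).Finite := Finset.finite_toSet _
  have hp' : p.map (algebraMap K Ω) ≠ 0 :=
    (Polynomial.map_ne_zero_iff (algebraMap K Ω).injective).2 hp
  have hb : ∀ x : Ω, {P : (W.map (algebraMap K Ω)).toAffine.Point | P.xRep = ![x, 1]}.Finite := by
    intro x
    by_cases hne : ∃ P0 : (W.map (algebraMap K Ω)).toAffine.Point, P0.xRep = ![x, 1]
    · obtain ⟨P0, hP0⟩ := hne
      refine (Set.toFinite ({P0, -P0} : Set _)).subset ?_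
      intro P hP
      have hP' : P.xRep = ![x, 1] := hP
      have h1 : P.xRep = P0.xRep := hP'.trans hP0.symm
      rcases eq_or_eq_neg (wd_xRep_eq_zero.2 h1) with h2 | h2
      · exact Or.inl h2
      · exact Or.inr h2
    · have he : {P : (W.map (algebraMap K Ω)).toAffine.Point | P.xRep = ![x, 1]} = ∅ := by
        ext P
        constructor
        · intro hP
          exact absurd ⟨P, hP⟩ hne
        · intro hP
          exact absurd hP (Set.notMem_empty P)
      rw [he]
      exact Set.finite_empty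
  refine ((Set.finite_singleton (0 : (W.map (algebraMap K Ω)).toAffine.Point)).union
    (hfin.biUnion fun x _ => hb x)).subset ?_
  intro P hP
  have hP' : n • P = 0 := hP
  rcases pt_cases P with h0 | ⟨x, hx⟩
  · exact Or.inl h0
  · right
    simp only [Set.mem_iUnion]
    refine ⟨x, ?_, hx⟩
    have h1 := h P hP' x hx
    rw [Finset.mem_coe, Multiset.mem_toFinset, Polynomial.mem_roots hp', Polynomial.IsRoot.def,
      Polynomial.eval_map_algebraMap]
    exact h1

/-- Torsion points have coordinates algebraic over `K`.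
Proof. `P = 0` clear; otherwise `P.xRep = ![x, 1]` is a zero of the nonzero form `b` over `K` (see
`finite_torsion`), so `x` is a root of the nonzero polynomial `b(X, 1)` over `K`. (Algebraic over `K` implies
`∈ acl K ∅`: `mem_acl_iff'`, `IsAlgebraic` over the larger subalgebra `adjoin K ∅`.) -/
theorem PA_of_torsion (W : WeierstrassCurve K) [W.IsElliptic] {n : ℕ} (hn : n ≠ 0)
    {P : (W.map (algebraMap K Ω)).toAffine.Point} (hP : n • P = 0) :
    PA (acl K (∅ : Set Ω)) P := by
  obtain ⟨p, hp, h⟩ := I14_poly (Ω := Ω) W hn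
  rcases pt_cases P with h0 | ⟨x, hx⟩
  · rw [h0]
    exact PA_zero _
  · refine PA_of_xRep hx ?_
    rw [mem_acl_iff]
    have h1 : IsAlgebraic K x := ⟨p, hp, h P hP x hx⟩
    exact h1.tower_top _

/-- Division by `2`. Proof: with `a`, `b` of `exists_mulForm` for `k = 2` and `(r₀, r₁) = R.xRep`, the form
`C r₁ * a - C r₀ * b` of degree `4` has a zero `P.xRep` (`exists_zero_of_form`), so `(2 • P).xRep` is
proportional to `R.xRep` and `2 • P = ± R` (E4 `eq_or_eq_neg`); take `P` or `-P`. -/
theorem exists_half (W : WeierstrassCurve K) [W.IsElliptic]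
    (R : (W.map (algebraMap K Ω)).toAffine.Point) :
    ∃ P : (W.map (algebraMap K Ω)).toAffine.Point, 2 • P = R := by
  obtain ⟨a, b, ha, hb, h⟩ := exists_mulForm W 2
  have hab := h Ω (W.map (algebraMap K Ω)) rfl
  have hha : (MvPolynomial.map (algebraMap K Ω) a).IsHomogeneous (2 ^ 2) := ha.map _
  have hhb : (MvPolynomial.map (algebraMap K Ω) b).IsHomogeneous (2 ^ 2) := hb.map _
  have hφ : (C (R.xRep 1) * MvPolynomial.map (algebraMap K Ω) a -
      C (R.xRep 0) * MvPolynomial.map (algebraMap K Ω) b).IsHomogeneous (2 ^ 2) := by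
    have h1 := (isHomogeneous_C (Fin 2) (R.xRep 1)).mul hha
    have h2 := (isHomogeneous_C (Fin 2) (R.xRep 0)).mul hhb
    rw [zero_add] at h1 h2
    exact h1.sub h2
  obtain ⟨P, hP⟩ := exists_zero_of_form (W.map (algebraMap K Ω)) _ (by norm_num) hφ
  obtain ⟨c, hc, h1, h2⟩ := hab P
  rw [map_sub, map_mul, map_mul, MvPolynomial.aeval_C, MvPolynomial.aeval_C,
    MvPolynomial.aeval_map_algebraMap, MvPolynomial.aeval_map_algebraMap, h1, h2] at hP
  simp only [Algebra.algebraMap_self, RingHom.id_apply] at hP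
  have hw : wd (2 • P).xRep R.xRep = 0 := by
    have h3 : c * wd (2 • P).xRep R.xRep = 0 := by
      unfold wd
      rw [← hP]
      ring
    exact (mul_eq_zero.1 h3).resolve_left hc
  rcases eq_or_eq_neg hw with h3 | h3
  · exact ⟨P, h3⟩
  · refine ⟨-P, ?_⟩
    rw [smul_neg, h3, neg_neg]

/-- A point of order `2`: a root `x` of `4 X ^ 3 + b₂ X ^ 2 + 2 b₄ X + b₆` (degree `3` in characteristic `0`),
`P` affine above it (E4 `exists_affine_point`); `dup W P.xRep 1 = ph W ![x, 1] = 0`, so `(2 • P).xRep 1 = 0`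
(E4 `dup_xRep`). -/
theorem exists_order_two [CharZero K] (W : WeierstrassCurve K) [W.IsElliptic] :
    ∃ P : (W.map (algebraMap K Ω)).toAffine.Point, P ≠ 0 ∧ 2 • P = 0 := by
  have : CharZero Ω := charZero_of_injective_algebraMap (algebraMap K Ω).injective
  set q : Polynomial Ω := Polynomial.C 4 * Polynomial.X ^ 3 +
    Polynomial.C (algebraMap K Ω W.b₂) * Polynomial.X ^ 2 +
    Polynomial.C (2 * algebraMap K Ω W.b₄) * Polynomial.X + Polynomial.C (algebraMap K Ω W.b₆) with hq
  have hdeg : q.degree = 3 := Polynomial.degree_cubic (by norm_num : (4 : Ω) ≠ 0)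
  obtain ⟨x, hx⟩ := IsAlgClosed.exists_root q (by rw [hdeg]; decide)
  obtain ⟨P, hP0, hP⟩ := exists_affine_point (W.map (algebraMap K Ω)) x
  refine ⟨P, hP0, ?_⟩
  by_contra h2
  apply ph_xRep_ne_zero W (W.map (algebraMap K Ω)) rfl P h2
  have hx' : 4 * x ^ 3 + algebraMap K Ω W.b₂ * x ^ 2 + 2 * algebraMap K Ω W.b₄ * x +
      algebraMap K Ω W.b₆ = 0 := by
    have h3 : Polynomial.eval x q = 0 := hx
    rw [hq] at h3
    simpa using h3
  rw [hP]
  unfold ph
  simp only [Matrix.cons_val_zero, Matrix.cons_val_one, Matrix.cons_val_fin_one]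
  linear_combination hx'

/-- Many affine points killed by `2 ^ M` with different x-coordinates. Proof: `T 0` of order `2`,
`2 • T (i + 1) = T i`: `2 ^ i • T i = T 0 ≠ 0` and `2 ^ (i + 1) • T i = 0`. If `T i`, `T j`, `i < j`, had the same
coordinate then `T j = ± T i` and `2 ^ j • T j = ± 2 ^ j • T i = 0`, contradiction. -/
theorem exists_torsion [CharZero K] (W : WeierstrassCurve K) [W.IsElliptic] (M : ℕ) :
    ∃ (T : Fin M → (W.map (algebraMap K Ω)).toAffine.Point) (τ : Fin M → Ω),
      Function.Injective τ ∧ ∀ i, (T i).xRep = ![τ i, 1] ∧ 2 ^ M • T i = 0 := by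
  classical
  obtain ⟨T0, hT0, hT0'⟩ := exists_order_two (Ω := Ω) W
  choose hf hhf using exists_half (Ω := Ω) W
  set T : ℕ → (W.map (algebraMap K Ω)).toAffine.Point := fun n => Nat.rec T0 (fun _ P => hf P) n with hTdef
  have hT_zero : T 0 = T0 := rfl
  have hT_succ : ∀ i, 2 • T (i + 1) = T i := fun i => hhf (T i)
  have hpow : ∀ i, 2 ^ i • T i = T0 := by
    intro i
    induction i with
    | zero => simp [hT_zero]
    | succ i ih => rw [pow_succ, mul_smul, hT_succ, ih]
  have hpow' : ∀ i j, i < j → 2 ^ j • T i = 0 := by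
    intro i j hij
    obtain ⟨k, rfl⟩ := Nat.exists_eq_add_of_lt hij
    rw [show i + k + 1 = k + 1 + i by ring, pow_add, mul_smul, hpow i, pow_succ, mul_smul, hT0',
      smul_zero]
  have hne : ∀ i, T i ≠ 0 := by
    intro i h
    apply hT0
    rw [← hpow i, h, smul_zero]
  have hdist : ∀ i j, i < j → (T i).xRep ≠ (T j).xRep := by
    intro i j hij h
    apply hT0
    rw [← hpow j]
    rcases eq_or_eq_neg (wd_xRep_eq_zero.2 h) with h1 | h1
    · rw [← h1]
      exact hpow' i j hij
    · have h2 : T j = -T i := by rw [h1, neg_neg]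
      rw [h2, smul_neg, hpow' i j hij, neg_zero]
  refine ⟨fun i => T i, fun i => (T i).xRep 0, ?_, ?_⟩
  · intro i j hij
    have h1 : (T i).xRep = (T j).xRep := by
      rw [xRep_eq (hne i), xRep_eq (hne j)]
      have h2 : (T i).xRep 0 = (T j).xRep 0 := hij
      rw [h2]
    rcases lt_trichotomy (i : ℕ) (j : ℕ) with h3 | h3 | h3
    · exact absurd h1 (hdist i j h3)
    · exact Fin.ext h3
    · exact absurd h1.symm (hdist j i h3)
  · intro i
    exact ⟨xRep_eq (hne i), hpow' i M i.2⟩

end Pool.Agent.Lib.MP_17a322_nt.VJ
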