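import Pool.Agent.Lib.MP_17a322_nt.VJ.I5
import Pool.Agent.Lib.MP_17a322_nt.VJ.I13

/-!
# JOB I15: (10.5) uniqueness of the curve
-/

namespace Pool.Agent.Lib.MP_17a322_nt.VJ

open MvPolynomial WeierstrassCurve

theorem I15_natDegree_lt {R : Type*} [CommRing R] (f : Polynomial R) {m : ℕ}
    (hm : 0 < m) (hf : f.natDegree ≤ m) (hf0 : f.coeff m = 0) : f.natDegree < m := by
  rcases hf.lt_or_eq with h | h
  · exact h
  · exfalso
    rw [← h] at hf0
    have h1 : f = 0 := Polynomial.leadingCoeff_eq_zero.1 hf0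
    rw [h1, Polynomial.natDegree_zero] at h
    omega

/-- If the formal leading coefficients of both polynomials vanish then so does the resultant.
(The Sylvester matrix has a zero row; look for a Mathlib lemma on `Polynomial.resultant` with too large
degrees, e.g. `resultant_eq_zero_of_lt_lt`, or `Matrix.det_eq_zero_of_row_eq_zero` with the definition of
`Polynomial.sylvester`.) Here `0 < m`, `0 < n`. -/
theorem resultant_eq_zero_of_coeff {R : Type*} [CommRing R] (f g : Polynomial R) {m n : ℕ}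
    (hm : 0 < m) (hn : 0 < n) (hf : f.natDegree ≤ m) (hg : g.natDegree ≤ n) (hf0 : f.coeff m = 0)
    (hg0 : g.coeff n = 0) : Polynomial.resultant f g m n = 0 :=
  Polynomial.resultant_eq_zero_of_lt_lt _ _ _ _ (I15_natDegree_lt f hm hf hf0)
    (I15_natDegree_lt g hn hg hg0)

/-- Value of `El` if both leading coefficients vanish at `s`: `Polynomial.resultant_map_map` and
`resultant_eq_zero_of_coeff`. -/
theorem aeval_El_eq_zero {K Ω σ : Type*} [Field K] [Field Ω] [Algebra K Ω] [DecidableEq σ] (y : σ)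
    (f G : MvPolynomial σ K) (hf : f.degreeOf y ≠ 0) (hG : G.degreeOf y ≠ 0) (s : σ → Ω)
    (h1 : aeval s (lcv y f) = 0) (h2 : aeval s (lcv y G) = 0) : aeval s (El y f G) = 0 := by
  have h3 := Polynomial.resultant_map_map (vw y f) (vw y G) (f.degreeOf y) (G.degreeOf y)
    (aeval s : MvPolynomial σ K →ₐ[K] Ω).toRingHom
  have h4 : aeval s (El y f G) = (aeval s : MvPolynomial σ K →ₐ[K] Ω).toRingHom
    (Polynomial.resultant (vw y f) (vw y G) (f.degreeOf y) (G.degreeOf y)) := rfl
  rw [h4, ← h3]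
  apply resultant_eq_zero_of_coeff _ _ (Nat.pos_of_ne_zero hf) (Nat.pos_of_ne_zero hG)
  · exact Polynomial.natDegree_map_le.trans (natDegree_vw y f).le
  · exact Polynomial.natDegree_map_le.trans (natDegree_vw y G).le
  · rw [Polynomial.coeff_map]
    exact h1
  · rw [Polynomial.coeff_map]
    exact h2

/-- Proof. If `g ∣ f`: I5 `eq_C_mul_of_dvd`. Otherwise `R = El 1 g f ≠ 0` (C4), `R.vars ⊆ {0}`
(`vars_El_subset`), `R.degreeOf 0 ≤ 2 * g.degreeOf 0 * g.degreeOf 1 < M` (`degreeOf_El_le`). For every `i`,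
`aeval ![τ i, 0] R = 0`: if `S i` is affine with coordinate `ς` then `g` and `f` vanish at `![τ i, ς]`, so `R`
does (`aeval_dvd_El`), and `R` does not involve the variable `1` (`aeval_congr_vars`); if `S i = 0`:
`aeval_El_eq_zero`. So the nonzero polynomial `ev1 0 _ R` (nonzero: some coefficient of `vw 0 R ≠ 0` is a
nonzero constant) of degree `< M` has the `M` different roots `τ i` (`eval_ev1`), contradiction
(`Polynomial.card_roots'`, or `Polynomial.eq_zero_of_natDegree_lt_card_of_eval_eq_zero`). -/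
theorem unique_of_van {K Ω : Type*} [Field K] [Field Ω] [Algebra K Ω] {V : WeierstrassCurve Ω}
    {g f : MvPolynomial (Fin 2) K} (hg : Irreducible g) (hf : Irreducible f)
    (hd : ∀ t, g.degreeOf t = f.degreeOf t) (hg1 : ∀ t, g.degreeOf t ≠ 0) {M : ℕ}
    (τ : Fin M → Ω) (hτ : Function.Injective τ) (S : Fin M → V.toAffine.Point)
    (hM : 2 * g.degreeOf 0 * g.degreeOf 1 < M) (hgS : ∀ i, Van g (τ i) (S i))
    (hfS : ∀ i, Van f (τ i) (S i)) : ∃ a : K, a ≠ 0 ∧ f = C a * g := by
  by_cases hdvd : g ∣ f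
  · exact eq_C_mul_of_dvd hf.ne_zero hd hdvd
  exfalso
  have hf1 : ∀ t, f.degreeOf t ≠ 0 := fun t => by rw [← hd t]; exact hg1 t
  have hR : El 1 g f ≠ 0 := El_ne_zero_of_irreducible 1 g f hg (hg1 1) hdvd
  have hRv : (El 1 g f).vars ⊆ {0} := by
    intro t ht
    have h := vars_El_subset 1 g f ht
    rw [Finset.mem_erase] at h
    rw [Finset.mem_singleton]
    have := h.1
    omega
  have hRd : (El 1 g f).degreeOf 0 < M := by
    have h := degreeOf_El_le 1 g f 0 (by decide)
    rw [← hd 0, ← hd 1] at h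
    refine lt_of_le_of_lt h ?_
    calc g.degreeOf 1 * g.degreeOf 0 + g.degreeOf 1 * g.degreeOf 0
        = 2 * g.degreeOf 0 * g.degreeOf 1 := by ring
      _ < M := hM
  have hz : ∀ i, aeval ![τ i, 0] (El 1 g f) = 0 := by
    intro i
    rcases pt_cases (S i) with h | ⟨ς, h⟩
    · exact aeval_El_eq_zero 1 g f (hg1 1) (hf1 1) _ ((hgS i).2 h) ((hfS i).2 h)
    · have h1 := (hgS i).1 ς h
      have h2 := (hfS i).1 ς h
      have h3 := aeval_dvd_El 1 g f (Or.inl (hg1 1)) ![τ i, ς] h1
      rw [h2, zero_dvd_iff] at h3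
      rw [← h3]
      apply aeval_congr_vars
      intro t ht
      have h4 := hRv ht
      rw [Finset.mem_singleton] at h4
      subst h4
      rfl
  -- the one variable polynomial
  have hp : ev1 0 (![0, 0] : Fin 2 → Ω) (El 1 g f) = 0 := by
    refine Polynomial.eq_zero_of_natDegree_lt_card_of_eval_eq_zero _ (f := τ) hτ (fun i => ?_) ?_
    · rw [eval_ev1]
      have h5 : Function.update (![0, 0] : Fin 2 → Ω) 0 (τ i) = ![τ i, 0] := by
        ext t
        fin_cases t <;> simp
      rw [h5]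
      exact hz i
    · rw [Fintype.card_fin]
      exact lt_of_le_of_lt (natDegree_ev1_le 0 _ _) hRd
  have hvw : vw 0 (El 1 g f) ≠ 0 := vw_ne_zero 0 hR
  obtain ⟨k, hk⟩ : ∃ k, (vw 0 (El 1 g f)).coeff k ≠ 0 := by
    by_contra hcon
    apply hvw
    ext1 k
    by_contra h
    exact hcon ⟨k, h⟩
  have hkv : ((vw 0 (El 1 g f)).coeff k).vars = ∅ := by
    rw [← Finset.subset_empty]
    intro t ht
    have h6 := vars_coeff_vw 0 (El 1 g f) k ht
    rw [Finset.mem_erase] at h6
    have h7 := hRv h6.2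
    rw [Finset.mem_singleton] at h7
    exact absurd h7 h6.1
  rw [vars_eq_empty_iff_eq_C] at hkv
  have h8 := coeff_ev1 0 (![0, 0] : Fin 2 → Ω) (El 1 g f) k
  rw [hp, Polynomial.coeff_zero, hkv, aeval_C] at h8
  have h9 : coeff 0 ((vw 0 (El 1 g f)).coeff k) = 0 := by
    apply (algebraMap K Ω).injective
    rw [map_zero, ← h8]
  rw [h9, C_0] at hkv
  exact hk hkv

end Pool.Agent.Lib.MP_17a322_nt.VJ
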