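import Pool.Agent.Lib.MP_17a322_nt.VJ.I4

/-!
# JOB I5: curves in the plane: generic points of irreducible polynomials in two variables
-/

namespace Pool.Agent.Lib.MP_17a322_nt.VJ

open MvPolynomial

section

variable {K Ω : Type*} [Field K] [Field Ω] [Algebra K Ω]

theorem I5_degreeOf_zero {σ : Type*} {P : MvPolynomial σ K} {T : Finset σ} {t : σ}
    (hP : P.vars ⊆ T) (ht : t ∉ T) : P.degreeOf t = 0 := by
  rw [← Nat.le_zero, degreeOf_le_iff]
  intro m hm
  by_contra h0
  exact ht (hP ((mem_vars_iff_mem_support t).2 ⟨m, hm, Finsupp.mem_support_iff.2 (by omega)⟩))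

theorem I5_fin {T : Finset (Fin 2)} : T.erase 1 ⊆ {0} := by
  intro t ht
  have h := (Finset.mem_erase.1 ht).1
  fin_cases t
  · exact Finset.mem_singleton_self _
  · exact absurd rfl h


/-- Let `g` be irreducible, involving the second variable, `x` a point on `g = 0` with `x 0` transcendental
over `K`. A polynomial vanishing at `x` is divisible by `g`.
Proof. If `g ∤ P` then `R = El 1 g P ≠ 0` (C4 `El_ne_zero_of_irreducible`), `R.vars ⊆ {0}`
(`vars_El_subset`), and `aeval x R = 0` (C2 `aeval_dvd_El`), against `aeval_ne_zero₁`. -/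
theorem dvd_of_aeval_eq_zero {g P : MvPolynomial (Fin 2) K} (hg : Irreducible g)
    (h1 : g.degreeOf 1 ≠ 0) {x : Fin 2 → Ω} (hx : aeval x g = 0) (h0 : x 0 ∉ acl K (∅ : Set Ω))
    (hP : aeval x P = 0) : g ∣ P := by
  by_contra hnd
  have hR := El_ne_zero_of_irreducible 1 g P hg h1 hnd
  have hv : (El 1 g P).vars ⊆ {0} := (vars_El_subset 1 g P).trans I5_fin
  have h2 : aeval x (El 1 g P) = 0 := by
    have h := aeval_dvd_El 1 g P (Or.inl h1) x hx
    rw [hP] at h
    exact zero_dvd_iff.1 h
  exact aeval_ne_zero₁ hR hv h0 h2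

/-- `x 1` is algebraic over `K(x 0)`: the leading coefficient `lcv 1 g` is a nonzero polynomial in the
variable `0`, so `ev1 1 x g ≠ 0` by `aeval_ne_zero₁` and `coeff_ev1_degreeOf`; the coefficients are in
`acl K {x 0}`; `isAlgebraic_of_coeff_mem`, `acl_closed`. -/
theorem snd_mem_acl {g : MvPolynomial (Fin 2) K} (hg : g ≠ 0) {x : Fin 2 → Ω}
    (hx : aeval x g = 0) (h0 : x 0 ∉ acl K (∅ : Set Ω)) : x 1 ∈ acl K {x 0} := by
  have hl : aeval x (lcv 1 g) ≠ 0 :=
    aeval_ne_zero₁ (lcv_ne_zero hg) ((vars_lcv g).trans I5_fin) h0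
  have hne : ev1 1 x g ≠ 0 := by
    intro h
    rw [← coeff_ev1_degreeOf, h, Polynomial.coeff_zero] at hl
    exact hl rfl
  refine acl_closed _ (isAlgebraic_of_coeff_mem (acl K {x 0}) (ev1 1 x g) hne ?_ ?_)
  · refine coeff_ev1_mem _ 1 g fun t _ ht => ?_
    fin_cases t
    · exact mem_acl_of_mem (Set.mem_singleton _)
    · exact absurd rfl ht
  · rw [eval_ev1_self, hx]

/-- `x 1` is transcendental over `K`.
Proof. Suppose it is algebraic over `K` (`acl K ∅`: algebraic over `adjoin K ∅ = ⊥`, so over `K`), let `m`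
be a nonzero polynomial over `K` with root `x 1`, and `P = Polynomial.aeval (X 1) m`, a nonzero polynomial
with `P.degreeOf 0 = 0`, vanishing at `x`. Then `g ∣ P`, so `g.degreeOf 0 ≤ P.degreeOf 0 = 0` (a divisor of
a nonzero polynomial, `degreeOf_mul_eq` or so), contradiction. -/
theorem snd_not_mem_acl {g : MvPolynomial (Fin 2) K} (hg : Irreducible g)
    (hd : ∀ t, g.degreeOf t ≠ 0) {x : Fin 2 → Ω} (hx : aeval x g = 0)
    (h0 : x 0 ∉ acl K (∅ : Set Ω)) : x 1 ∉ acl K (∅ : Set Ω) := by
  intro hmem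
  have halg : IsAlgebraic K (x 1) := by
    have h := mem_acl_iff.1 hmem
    rw [IntermediateField.adjoin_empty] at h
    exact h.restrictScalars K
  obtain ⟨m, hm, hm0⟩ := halg
  have hP0 : Polynomial.aeval (X 1 : MvPolynomial (Fin 2) K) m ≠ 0 := by
    intro h
    apply hm
    have h2 := congrArg (aeval (fun _ : Fin 2 => (Polynomial.X : Polynomial K))) h
    rw [map_zero, ← Polynomial.aeval_algHom_apply, aeval_X, Polynomial.aeval_X_left_apply] at h2
    exact h2
  have hPx : aeval x (Polynomial.aeval (X 1 : MvPolynomial (Fin 2) K) m) = 0 := by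
    rw [← Polynomial.aeval_algHom_apply, aeval_X]
    exact hm0
  have hPv : (Polynomial.aeval (X 1 : MvPolynomial (Fin 2) K) m).vars ⊆ {1} := by
    have h := Polynomial.aeval_mem_adjoin_singleton K (p := m) (X 1 : MvPolynomial (Fin 2) K)
    have h2 : Polynomial.aeval (X 1 : MvPolynomial (Fin 2) K) m ∈
        supported K (({1} : Finset (Fin 2)) : Set (Fin 2)) := by
      rw [supported_eq_adjoin_X, Finset.coe_singleton, Set.image_singleton]
      exact h
    exact Finset.coe_subset.1 (mem_supported.1 h2)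
  have hP1 : (Polynomial.aeval (X 1 : MvPolynomial (Fin 2) K) m).degreeOf 0 = 0 :=
    I5_degreeOf_zero hPv (by decide)
  obtain ⟨q, hq⟩ := dvd_of_aeval_eq_zero hg (hd 1) hx h0 hPx
  have hq0 : q ≠ 0 := by
    rintro rfl
    rw [mul_zero] at hq
    exact hP0 hq
  rw [hq, degreeOf_mul_eq hg.ne_zero hq0] at hP1
  exact hd 0 (by omega)

/-- From the two preceding lemmas and `acl_exchange₁`. -/
theorem fst_mem_acl {g : MvPolynomial (Fin 2) K} (hg : Irreducible g)
    (hd : ∀ t, g.degreeOf t ≠ 0) {x : Fin 2 → Ω} (hx : aeval x g = 0)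
    (h0 : x 0 ∉ acl K (∅ : Set Ω)) : x 0 ∈ acl K {x 1} := by
  exact acl_exchange₁ (snd_mem_acl hg.ne_zero hx h0) (snd_not_mem_acl hg hd hx h0)

/-- Irreducibility over the algebraic closure implies irreducibility. (A factorisation over `K` gives one
over the closure; a polynomial whose image is a unit is a nonzero constant, `MvPolynomial.map`,
`isUnit_iff_eq_C_of_isReduced` or `totalDegree`.) -/
theorem GC.irreducible {g : MvPolynomial (Fin 2) K} {D : ℕ} (h : GC g D) : Irreducible g := by
  have hφ : Function.Injective (algebraMap K (AlgebraicClosure K)) :=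
    (algebraMap K (AlgebraicClosure K)).injective
  have hloc : IsLocalHom (MvPolynomial.map (σ := Fin 2) (algebraMap K (AlgebraicClosure K))) := by
    constructor
    intro p hp
    rw [isUnit_iff_eq_C_of_isReduced] at hp ⊢
    obtain ⟨r, hr, hp⟩ := hp
    have hv : p.vars = ∅ := by
      rw [← vars_map_of_injective p hφ, hp, vars_C]
    have hv2 : p = C (coeff 0 p) := by
      rw [← totalDegree_eq_zero_iff_eq_C, totalDegree_eq_zero_iff]
      intro m hm s
      by_contra h0
      have h1 : s ∈ p.vars :=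
        (mem_vars_iff_mem_support s).2 ⟨m, hm, Finsupp.mem_support_iff.2 h0⟩
      rw [hv] at h1
      exact Finset.notMem_empty s h1
    refine ⟨coeff 0 p, ?_, hv2⟩
    rw [isUnit_iff_ne_zero]
    intro h0
    rw [hv2, h0, C_0, map_zero] at hp
    have h2 : r = 0 := by
      have h3 := congrArg (coeff 0) hp
      rw [coeff_zero, coeff_C, if_pos rfl] at h3
      exact h3.symm
    rw [h2] at hr
    exact not_isUnit_zero hr
  exact Irreducible.of_map (f := MvPolynomial.map (σ := Fin 2)
    (algebraMap K (AlgebraicClosure K))) h.1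

theorem GC.degreeOf_ne {g : MvPolynomial (Fin 2) K} {D : ℕ} (h : GC g D) (t : Fin 2) :
    g.degreeOf t ≠ 0 := by
  have := (h.2 t).1
  omega

/-- Two irreducible polynomials with the same degrees, one dividing the other, are proportional:
`f = g * q`, `degreeOf t f = degreeOf t g + degreeOf t q` (Mathlib, domain), so `q` is a constant. -/
theorem eq_C_mul_of_dvd {g f : MvPolynomial (Fin 2) K} (hf : f ≠ 0)
    (hd : ∀ t, g.degreeOf t = f.degreeOf t) (h : g ∣ f) : ∃ a : K, a ≠ 0 ∧ f = C a * g := by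
  obtain ⟨q, rfl⟩ := h
  have hg : g ≠ 0 := fun h => hf (by rw [h, zero_mul])
  have hq : q ≠ 0 := fun h => hf (by rw [h, mul_zero])
  have hq0 : ∀ t, q.degreeOf t = 0 := by
    intro t
    have h1 := hd t
    rw [degreeOf_mul_eq hg hq] at h1
    omega
  have hqC : q = C (coeff 0 q) := by
    rw [← totalDegree_eq_zero_iff_eq_C, totalDegree_eq_zero_iff]
    intro m hm s
    have h1 := le_degreeOf_of_mem_support s hm
    rw [hq0 s] at h1
    omega
  refine ⟨coeff 0 q, ?_, ?_⟩
  · intro h0
    rw [h0, C_0] at hqC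
    exact hq hqC
  · rw [← hqC, mul_comm]

end

end Pool.Agent.Lib.MP_17a322_nt.VJ
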