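import Pool.Agent.Lib.MP_17a322_nt.VJ.I2
import Pool.Agent.Lib.MP_17a322_nt.VJ.I5
import Pool.Agent.Lib.MP_17a322_nt.VJ.E8

/-!
# JOB I16: (10.0) roots of the relations `rel`
-/

namespace Pool.Agent.Lib.MP_17a322_nt.VJ

open MvPolynomial WeierstrassCurve

section

variable {K Ω : Type*} [Field K] [Field Ω] [DecidableEq Ω] [Algebra K Ω] [IsAlgClosed Ω]

/-- A point `u' ± l u` with `x(u)`, `x(u')` independent has a coordinate transcendental over `K`.
Proof. `P` is `O` or has `xRep = ![z, 1]` (`pt_cases`). If `P = O` or `z ∈ acl K ∅` then `PA (acl K ∅) P`, hence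
`PA (acl K {α}) P` and `u' = P ∓ n • u` has `PA (acl K {α}) u'`, against `Ind2`. -/
theorem exists_coord_gen (W : WeierstrassCurve K) [W.IsElliptic] {α α' : Ω} (h : Ind2 K α α')
    (u u' P : (W.map (algebraMap K Ω)).toAffine.Point) (hu : u.xRep = ![α, 1])
    (hu' : u'.xRep = ![α', 1]) (n : ℕ) (hP : P = u' - n • u ∨ P = u' + n • u) :
    ∃ z : Ω, P.xRep = ![z, 1] ∧ z ∉ acl K (∅ : Set Ω) := by
  have key : ¬ PA (acl K (∅ : Set Ω)) P := by
    intro hPA
    have h1 : PA (acl K {α}) P := hPA.mono (acl_mono (Set.empty_subset _))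
    have h2 : PA (acl K {α}) u := PA_of_xRep hu (mem_acl_of_mem (Set.mem_singleton _))
    have h3 : PA (acl K {α}) (n • u) := h2.nsmul (Clo_acl _) n
    have h4 : PA (acl K {α}) u' := by
      rcases hP with hP | hP
      · have h5 : u' = P + n • u := by rw [hP, sub_add_cancel]
        rw [h5]
        exact h1.add (Clo_acl _) h3
      · have h5 : u' = P - n • u := by rw [hP, add_sub_cancel_right]
        rw [h5]
        exact h1.sub (Clo_acl _) h3
    exact h.2 (h4.mem hu')
  rcases pt_cases P with h0 | ⟨z, hz⟩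
  · exact absurd (by rw [h0]; exact PA_zero _) key
  · exact ⟨z, hz, fun hmem => key (PA_of_xRep hz hmem)⟩

/-- For independent coordinates the leading coefficient of `rel W e c t` in the variable `(2, t)` does not
vanish and the roots are the coordinates of `u' ± 2 ^ e u`.
Proof. Let `α = s (0, t)`, `α' = s (1, t)`, `u`, `u'` affine points above them (E4 `exists_affine_point` for
the curve `(W t).map (algebraMap K Ω)`), `l = 2 ^ e`. By E4 `mu_xRep`, `SV_xRep` (for `l • u` and `u'`) and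
`SV_smul` (E3), the vector `S = SV (W t) (mu (W t) e ![α, 1]) ![α', 1]` is `γ * sq2 p p'` with `γ ≠ 0`,
`p = (l • u + u').xRep = ![z, 1]`, `p' = (l • u - u').xRep = ![z', 1]`, `z, z' ≠ 0` (`exists_coord_gen`;
`0 ∈ acl K ∅`; `(l • u - u').xRep = (u' - l • u).xRep`). So `S 0 = γ z z' ≠ 0` and `S 2 = γ ≠ 0`. By E8
`aeval_rel` the values of `ev1 (2, t) s (rel W e c t)` at `ρ` are `QF S (vc (c t) ρ)`, i.e. for `c t = false`
it is the polynomial `C (S 0) - C (S 1) * X + C (S 2) * X ^ 2` and for `c t = true`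
`C (S 0) * X ^ 2 - C (S 1) * X + C (S 2)` (equal values at all points of an infinite field,
`Polynomial.funext`). So its coefficient at `2` is not zero; with `degreeOf_rel_le` (E8),
`natDegree_ev1_le`: the degree is `2`, `coeff_ev1_degreeOf`. If `QF S (vc (c t) ρ) = 0` then by `QF_sq2`
`wd p (vc (c t) ρ) = 0` or `wd p' (vc (c t) ρ) = 0`, so `vc (c t) ρ` is a nonzero multiple of `p` or of `p'`
(E4 `exists_smul_of_wd`), i.e. `(u' + l • u).xRep` or `(u' - l • u).xRep` is a nonzero multiple of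
`vc (c t) ρ`; in the first case replace `u'` by `-u'` (`Point.xRep_neg`). -/
theorem rel_root (W : Fin 2 → WeierstrassCurve K) [∀ t, (W t).IsElliptic] (e : ℕ)
    (c : Fin 2 → Bool) (t : Fin 2) (s : Fin 4 × Fin 2 → Ω) (h : Ind2 K (s (0, t)) (s (1, t))) :
    (rel W e c t).degreeOf (2, t) ≠ 0 ∧ aeval s (lcv (2, t) (rel W e c t)) ≠ 0 ∧
      ∀ ρ : Ω, aeval (Function.update s (2, t) ρ) (rel W e c t) = 0 →
        ∃ (u u' : ((W t).map (algebraMap K Ω)).toAffine.Point) (r : Ω), r ≠ 0 ∧
          u.xRep = ![s (0, t), 1] ∧ u'.xRep = ![s (1, t), 1] ∧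
          (u' - 2 ^ e • u).xRep = r • vc (c t) ρ := by
  obtain ⟨u, hu0, hu⟩ := exists_affine_point ((W t).map (algebraMap K Ω)) (s (0, t))
  obtain ⟨u', hu0', hu'⟩ := exists_affine_point ((W t).map (algebraMap K Ω)) (s (1, t))
  obtain ⟨a, ha, hmu⟩ := mu_xRep (W t) _ rfl e u
  obtain ⟨γ, hγ, hSV⟩ := SV_xRep (W t) _ rfl (2 ^ e • u) u'
  obtain ⟨z, hz, hz0⟩ := exists_coord_gen (W t) h u u' (u' + 2 ^ e • u) hu hu' (2 ^ e)
    (Or.inr rfl)
  obtain ⟨z', hz', hz0'⟩ := exists_coord_gen (W t) h u u' (u' - 2 ^ e • u) hu hu' (2 ^ e)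
    (Or.inl rfl)
  have hp : (2 ^ e • u + u').xRep = ![z, 1] := by rw [add_comm]; exact hz
  have hp' : (2 ^ e • u - u').xRep = ![z', 1] := by rw [← neg_sub, xRep_neg]; exact hz'
  have hzne : z ≠ 0 := fun h0 => hz0 (by rw [h0]; exact zero_mem _)
  have hzne' : z' ≠ 0 := fun h0 => hz0' (by rw [h0]; exact zero_mem _)
  have hS : SV (W t) (mu (W t) e ![s (0, t), 1]) ![s (1, t), 1] =
      (a ^ 2 * γ) • RO.sq2 (![z, 1] : Fin 2 → Ω) ![z', 1] := by
    funext i
    have h1 := SV_smul (W t) a (1 : Ω) (2 ^ e • u).xRep u'.xRep i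
    rw [← hmu, one_smul, hu, hu', ← hu', hSV i, hp, hp', hu', mul_one] at h1
    rw [h1, Pi.smul_apply, smul_eq_mul]
    ring
  have hag : a ^ 2 * γ ≠ 0 := mul_ne_zero (pow_ne_zero _ ha) hγ
  have hev : ∀ ρ : Ω, aeval (Function.update s (2, t) ρ) (rel W e c t) =
      (a ^ 2 * γ) * (wd ![z, 1] (vc (c t) ρ) * wd ![z', 1] (vc (c t) ρ)) := by
    intro ρ
    rw [aeval_rel, Function.update_self, Function.update_of_ne (by simp),
      Function.update_of_ne (by simp)]
    unfold S3
    rw [hS, QF_smul, QF_sq2]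
  have hco : (ev1 (2, t) s (rel W e c t)).coeff 2 ≠ 0 := by
    have hinf : Infinite Ω := IsAlgClosed.instInfinite
    have hpe : ev1 (2, t) s (rel W e c t) =
        if c t then Polynomial.C (a ^ 2 * γ) * ((Polynomial.C z * Polynomial.X - 1) *
          (Polynomial.C z' * Polynomial.X - 1))
        else Polynomial.C (a ^ 2 * γ) * ((Polynomial.C z - Polynomial.X) *
          (Polynomial.C z' - Polynomial.X)) := by
      apply Polynomial.funext
      intro ρ
      rw [eval_ev1, hev]
      cases c t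
      · simp [vc, wd]
      · simp [vc, wd]
    rw [hpe]
    cases c t
    · rw [if_neg (by simp)]
      have h2 : Polynomial.C (a ^ 2 * γ) * ((Polynomial.C z - Polynomial.X) *
          (Polynomial.C z' - Polynomial.X)) = Polynomial.C (a ^ 2 * γ) * (Polynomial.X ^ 2 -
          Polynomial.C (z + z') * Polynomial.X + Polynomial.C (z * z')) := by
        rw [Polynomial.C_add, Polynomial.C_mul (a := z)]
        ring
      rw [h2]
      simp only [Polynomial.coeff_add, Polynomial.coeff_sub, Polynomial.coeff_C_mul,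
        Polynomial.coeff_X_pow, Polynomial.coeff_X, Polynomial.coeff_C]
      norm_num
      exact ⟨ha, hγ⟩
    · rw [if_pos rfl]
      have h2 : Polynomial.C (a ^ 2 * γ) * ((Polynomial.C z * Polynomial.X - 1) *
          (Polynomial.C z' * Polynomial.X - 1)) = Polynomial.C (a ^ 2 * γ) *
          (Polynomial.C (z * z') * Polynomial.X ^ 2 -
          Polynomial.C (z + z') * Polynomial.X + Polynomial.C 1) := by
        rw [Polynomial.C_add, Polynomial.C_mul (a := z), Polynomial.C_1]
        ring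
      rw [h2]
      simp only [Polynomial.coeff_add, Polynomial.coeff_sub, Polynomial.coeff_C_mul,
        Polynomial.coeff_X_pow, Polynomial.coeff_X, Polynomial.coeff_C]
      norm_num
      exact ⟨⟨ha, hγ⟩, hzne, hzne'⟩
  have hdeg : (rel W e c t).degreeOf (2, t) = 2 := by
    apply le_antisymm (degreeOf_rel_le W e c t).2.2
    exact (Polynomial.le_natDegree_of_ne_zero hco).trans (natDegree_ev1_le _ _ _)
  refine ⟨by rw [hdeg]; norm_num, ?_, ?_⟩
  · rw [← coeff_ev1_degreeOf, hdeg]
    exact hco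
  · intro ρ hρ
    rw [hev] at hρ
    have hZ : vc (c t) ρ ≠ 0 := by
      intro h0
      cases hc : c t
      · rw [hc] at h0
        have := congrFun h0 1
        simp [vc] at this
      · rw [hc] at h0
        have := congrFun h0 0
        simp [vc] at this
    have hone : ∀ x : Ω, (![x, 1] : Fin 2 → Ω) ≠ 0 := by
      intro x h0
      have := congrFun h0 1
      simp at this
    rcases mul_eq_zero.mp ((mul_eq_zero.mp hρ).resolve_left hag) with h1 | h1
    · obtain ⟨r, hr⟩ := exists_smul_of_wd (hone z) h1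
      have hr0 : r ≠ 0 := by
        rintro rfl
        exact hZ (by rw [hr, zero_smul])
      refine ⟨u, -u', r⁻¹, inv_ne_zero hr0, hu, by rw [xRep_neg]; exact hu', ?_⟩
      rw [hr, smul_smul, inv_mul_cancel₀ hr0, one_smul, ← hz, ← xRep_neg]
      congr 1
      abel
    · obtain ⟨r, hr⟩ := exists_smul_of_wd (hone z') h1
      have hr0 : r ≠ 0 := by
        rintro rfl
        exact hZ (by rw [hr, zero_smul])
      refine ⟨u, u', r⁻¹, inv_ne_zero hr0, hu, hu', ?_⟩
      rw [hr, smul_smul, inv_mul_cancel₀ hr0, one_smul, hz']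

end

end Pool.Agent.Lib.MP_17a322_nt.VJ
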