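import Pool.Agent.Lib.MP_17a322_nt.VJ.I16

/-!
# JOB I17: (10.0) the generic configuration
-/

universe u

namespace Pool.Agent.Lib.MP_17a322_nt.VJ

open MvPolynomial WeierstrassCurve

/-- A generic configuration. -/
structure Cfg {K Ω : Type*} [Field K] [Field Ω] [DecidableEq Ω] [Algebra K Ω]
    (W : Fin 2 → WeierstrassCurve K) (e : ℕ) (c : Fin 2 → Bool) (g g' : MvPolynomial (Fin 2) K)
    (F : MvPolynomial (Fin 3) K) where
  /-- The points `u_t`. -/
  u : ∀ t, ((W t).map (algebraMap K Ω)).toAffine.Point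
  /-- The points `u'_t`. -/
  u' : ∀ t, ((W t).map (algebraMap K Ω)).toAffine.Point
  /-- Coordinates of `u_t`. -/
  x : Fin 2 → Ω
  /-- Coordinates of `u'_t`. -/
  x' : Fin 2 → Ω
  hx : ∀ t, (u t).xRep = ![x t, 1]
  hx' : ∀ t, (u' t).xRep = ![x' t, 1]
  ind : Ind2 K (x 0) (x' 0)
  top : ∀ z : Ω, z ∈ acl K {x 0, x' 0}
  hg : aeval x g = 0
  hg' : aeval x' g' = 0
  /-- Coordinates of `u'_t - l u_t` in the chart `c t`. -/
  ξ : Fin 2 → Ω
  /-- Factors. -/
  r : Fin 2 → Ω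
  hr : ∀ t, r t ≠ 0
  hξ : ∀ t, (u' t - 2 ^ e • u t).xRep = r t • vc (c t) (ξ t)
  hF : aeval ![x 0, ξ 0, ξ 1] F = 0

/-- An algebraically closed field generated by two independent elements: the algebraic closure of the
fraction field of `MvPolynomial (Fin 2) K`, `a = X 0`, `b = X 1`.
Proof. `X 0`, `X 1` are algebraically independent over `K` in the fraction field and in its algebraic
closure (injectivity of `MvPolynomial (Fin 2) K → Ω`). If `a ∈ acl K ∅` or `b ∈ acl K {a}` there is an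
algebraic relation (use `AlgebraicIndependent.transcendental`, `AlgebraicIndependent.iff_transcendental_adjoin_image`
or `option_iff_transcendental`, and `mem_acl_iff'`). Every `z` is algebraic over the fraction field, which is
`IntermediateField.adjoin K {a, b}` (its image): each element is a quotient of polynomials in `a`, `b`. -/
theorem exists_big_field (K : Type u) [Field K] :
    ∃ (Ω : Type u) (_ : Field Ω) (_ : Algebra K Ω) (a b : Ω), IsAlgClosed Ω ∧ Ind2 K a b ∧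
      ∀ z : Ω, z ∈ acl K {a, b} := by
  let P := MvPolynomial (Fin 2) K
  let F := FractionRing P
  let Ω := AlgebraicClosure F
  let φ : P →ₐ[K] Ω := (IsScalarTower.toAlgHom K F Ω).comp (IsScalarTower.toAlgHom K P F)
  have hφ : Function.Injective φ := by
    have h1 : Function.Injective (algebraMap P F) := IsFractionRing.injective P F
    have h2 : Function.Injective (algebraMap F Ω) := (algebraMap F Ω).injective
    intro x y hxy
    exact h1 (h2 hxy)
  have hind : AlgebraicIndependent K (fun i : Fin 2 => φ (X i)) :=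
    (MvPolynomial.algebraicIndependent_X (Fin 2) K).map' hφ
  have hb := ((AlgebraicIndependent.iff_transcendental_adjoin_image (1 : Fin 2)).mp hind).2
  have ha := ((AlgebraicIndependent.iff_transcendental_adjoin_image (0 : Fin 2)).mp hind).2
  have himb : (fun i : Fin 2 => φ (X i)) '' {1}ᶜ = {φ (X 0)} := by
    ext z
    simp only [Set.mem_image, Set.mem_compl_iff, Set.mem_singleton_iff]
    constructor
    · rintro ⟨i, hi, rfl⟩
      fin_cases i
      · rfl
      · exact absurd rfl hi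
    · rintro rfl
      exact ⟨0, by decide, rfl⟩
  have hima : (fun i : Fin 2 => φ (X i)) '' {0}ᶜ = {φ (X 1)} := by
    ext z
    simp only [Set.mem_image, Set.mem_compl_iff, Set.mem_singleton_iff]
    constructor
    · rintro ⟨i, hi, rfl⟩
      fin_cases i
      · exact absurd rfl hi
      · rfl
    · rintro rfl
      exact ⟨1, by decide, rfl⟩
  rw [himb] at hb
  rw [hima] at ha
  have hPm : ∀ n : P, φ n ∈ acl K ({φ (X 0), φ (X 1)} : Set Ω) := by
    intro n
    have h1 : φ n = aeval (fun i => φ (X i)) n := by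
      have : φ = aeval (fun i => φ (X i)) := MvPolynomial.algHom_ext (by intro i; simp)
      exact congrArg (fun f : P →ₐ[K] Ω => f n) this
    rw [h1]
    apply aeval_mem
    intro t _
    apply mem_acl_of_mem
    fin_cases t
    · exact Or.inl rfl
    · exact Or.inr rfl
  refine ⟨Ω, inferInstance, inferInstance, φ (X 0), φ (X 1), inferInstance, ⟨?_, ?_⟩, ?_⟩
  · intro h
    exact ha (mem_acl_iff'.mp (acl_mono (Set.empty_subset _) h))
  · intro h
    exact hb (mem_acl_iff'.mp h)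
  · intro z
    apply acl_closed
    have hz : IsAlgebraic F z := (AlgebraicClosure.isAlgebraic F).isAlgebraic z
    obtain ⟨p, hp, hpz⟩ := hz
    refine isAlgebraic_of_coeff_mem _ (p.map (algebraMap F Ω)) ?_ ?_ ?_
    · exact (Polynomial.map_ne_zero_iff (algebraMap F Ω).injective).mpr hp
    · intro j
      rw [Polynomial.coeff_map]
      obtain ⟨n, d, hnd⟩ := IsLocalization.exists_mk'_eq (nonZeroDivisors P) (p.coeff j)
      rw [← hnd, IsFractionRing.mk'_eq_div, map_div₀]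
      exact div_mem (hPm n) (hPm d)
    · rw [Polynomial.eval_map]
      exact hpz

/-- The trinomial form of a polynomial with few variables: `F = rename ι F₃` with
`ι = ![(0, 0), (2, 0), (2, 1)]` (`MvPolynomial.exists_rename_eq_of_vars_subset_range`), so
`aeval s F = aeval ![s (0, 0), s (2, 0), s (2, 1)] F₃` and the degrees are the same
(`degreeOf_rename_of_injective`). -/
theorem exists_three {K : Type*} [Field K] (F : MvPolynomial (Fin 4 × Fin 2) K)
    (hv : F.vars ⊆ {(0, 0), (2, 0), (2, 1)}) :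
    ∃ F₃ : MvPolynomial (Fin 3) K, F = rename (![(0, 0), (2, 0), (2, 1)] : Fin 3 → Fin 4 × Fin 2) F₃ ∧
      F₃.degreeOf 0 = F.degreeOf (0, 0) ∧ F₃.degreeOf 1 = F.degreeOf (2, 0) ∧
      F₃.degreeOf 2 = F.degreeOf (2, 1) := by
  have hinj : Function.Injective (![(0, 0), (2, 0), (2, 1)] : Fin 3 → Fin 4 × Fin 2) := by
    decide
  obtain ⟨q, hq⟩ := MvPolynomial.exists_rename_eq_of_vars_subset_range F
    (![(0, 0), (2, 0), (2, 1)] : Fin 3 → Fin 4 × Fin 2) hinj (by
      intro t ht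
      have h1 := hv ht
      simp only [Finset.mem_insert, Finset.mem_singleton] at h1
      rcases h1 with h1 | h1 | h1
      · exact ⟨0, h1.symm⟩
      · exact ⟨1, h1.symm⟩
      · exact ⟨2, h1.symm⟩)
  refine ⟨q, hq.symm, ?_, ?_, ?_⟩
  · rw [← hq]
    exact (degreeOf_rename_of_injective hinj 0).symm
  · rw [← hq]
    exact (degreeOf_rename_of_injective hinj 1).symm
  · rw [← hq]
    exact (degreeOf_rename_of_injective hinj 2).symm

/-- A root along the curve. -/
theorem I17_curve {K Ω : Type*} [Field K] [Field Ω] [Algebra K Ω] [IsAlgClosed Ω] (i : Fin 4)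
    {g : MvPolynomial (Fin 2) K} (hg : g ≠ 0) (hd : g.degreeOf 1 ≠ 0) (s : Fin 4 × Fin 2 → Ω)
    (hs : s (i, 0) ∉ acl K (∅ : Set Ω)) (G : MvPolynomial (Fin 4 × Fin 2) K)
    (h : aeval s (El (i, 1) (gX i g) G) = 0) :
    ∃ r : Ω, aeval ![s (i, 0), r] g = 0 ∧ aeval (Function.update s (i, 1) r) G = 0 := by
  have hinj : Function.Injective (fun t : Fin 2 => (i, t)) := by
    intro t t' htt
    exact (Prod.mk.inj htt).2
  have hne : gX i g ≠ 0 := by
    intro h0
    apply hg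
    apply rename_injective _ hinj
    rw [map_zero]
    exact h0
  have hdeg : (gX i g).degreeOf (i, 1) ≠ 0 := by
    have h1 : (gX i g).degreeOf (i, 1) = g.degreeOf 1 :=
      degreeOf_rename_of_injective hinj 1
    rw [h1]
    exact hd
  have hl : aeval s (lcv (i, 1) (gX i g)) ≠ 0 := by
    apply aeval_ne_zero₁ (y := (i, 0)) (lcv_ne_zero hne)
    · intro t ht
      have h1 := vars_lcv _ ht
      rw [Finset.mem_erase] at h1
      have h2 := vars_rename _ _ h1.2
      rw [Finset.mem_image] at h2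
      obtain ⟨t', _, rfl⟩ := h2
      rw [Finset.mem_singleton]
      fin_cases t'
      · rfl
      · exact absurd rfl h1.1
    · exact hs
  obtain ⟨r, hr1, hr2⟩ := exists_root_of_El _ _ _ hdeg s hl h
  refine ⟨r, ?_, hr2⟩
  unfold gX at hr1
  rw [aeval_rename] at hr1
  rw [← hr1]
  congr 2
  funext t
  fin_cases t
  · show s (i, 0) = Function.update s (i, 1) r (i, 0)
    rw [Function.update_of_ne]
    intro h0
    exact absurd (Prod.mk.inj h0).2 (by decide)
  · show r = Function.update s (i, 1) r (i, 1)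
    rw [Function.update_self]

/-- (10.0). Proof. C3 `exists_root_of_El` four times, starting with `s₀ (0, 0) = a`, `s₀ (1, 0) = b`, `0`
elsewhere; the points are updates of `s₀` at `(1, 1)`, `(0, 1)`, `(2, 1)`, `(2, 0)`.
1. `f = gX 1 g'`, `y = (1, 1)`: `degreeOf (1, 1) f = g'.degreeOf 1 ≠ 0` (`degreeOf_rename_of_injective`);
   `lcv y f ≠ 0`, `vars ⊆ {(1, 0)}` (`vars_lcv`, `vars_rename`), so its value at `b ∉ acl K ∅`
   (`Ind2.symm`) is not zero (`aeval_ne_zero₁`). Get `b₂` with `aeval ![b, b₂] g' = 0`.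
2. `f = gX 0 g`, `y = (0, 1)`: the same, `a₂` with `aeval ![a, a₂] g = 0`.
3. `f = rel W e c 1`, `y = (2, 1)`: `rel_root` (I16) for `Ind2 K a₂ b₂` (`Ind2.of_acl` with I5 `snd_mem_acl`,
   `fst_mem_acl`; `b ∈ acl K {b₂}`, `a₂ ∈ acl K {a}`, `a ∈ acl K {a₂}`). Get `ξ 1` and points `u 1`, `u' 1`.
4. `f = rel W e c 0`, `y = (2, 0)`: `rel_root` for `Ind2 K a b`. Get `ξ 0`, `u 0`, `u' 0`, and `F` vanishes at
   the last point. -/
theorem exists_cfg {K Ω : Type*} [Field K] [Field Ω] [DecidableEq Ω] [Algebra K Ω]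
    [IsAlgClosed Ω] (W : Fin 2 → WeierstrassCurve K) [∀ t, (W t).IsElliptic] (e : ℕ)
    (c : Fin 2 → Bool) {g g' : MvPolynomial (Fin 2) K} (hg : Irreducible g)
    (hg' : Irreducible g') (hd : ∀ t, g.degreeOf t ≠ 0) (hd' : ∀ t, g'.degreeOf t ≠ 0)
    (F₃ : MvPolynomial (Fin 3) K)
    (hN : NN W e c g g' (rename (![(0, 0), (2, 0), (2, 1)] : Fin 3 → Fin 4 × Fin 2) F₃) = 0)
    {a b : Ω} (hab : Ind2 K a b) (htop : ∀ z : Ω, z ∈ acl K {a, b}) :
    Nonempty (Cfg (Ω := Ω) W e c g g' F₃) := by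
  have hb := hab.symm.1
  obtain ⟨s₀, h00, h10⟩ : ∃ s₀ : Fin 4 × Fin 2 → Ω, s₀ (0, 0) = a ∧ s₀ (1, 0) = b :=
    ⟨fun p => if p = (0, 0) then a else if p = (1, 0) then b else 0, by simp, by simp⟩
  have hN0 : aeval s₀ (NN W e c g g' (rename (![(0, 0), (2, 0), (2, 1)] :
    Fin 3 → Fin 4 × Fin 2) F₃)) = 0 := by rw [hN, map_zero]
  unfold NN at hN0
  obtain ⟨b₂, hb₂, hG1⟩ := I17_curve 1 hg'.ne_zero (hd' 1) s₀ (by rw [h10]; exact hb) _ hN0
  rw [h10] at hb₂
  obtain ⟨s₁, hs₁⟩ : ∃ s₁, s₁ = Function.update s₀ (1, 1) b₂ := ⟨_, rfl⟩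
  rw [← hs₁] at hG1
  have h00' : s₁ (0, 0) = a := by rw [hs₁, Function.update_of_ne (by decide), h00]
  have h10' : s₁ (1, 0) = b := by rw [hs₁, Function.update_of_ne (by decide), h10]
  have h11' : s₁ (1, 1) = b₂ := by rw [hs₁, Function.update_self]
  obtain ⟨a₂, ha₂, hG2⟩ := I17_curve 0 hg.ne_zero (hd 1) s₁ (by rw [h00']; exact hab.1) _ hG1
  rw [h00'] at ha₂
  obtain ⟨s₂, hs₂⟩ : ∃ s₂, s₂ = Function.update s₁ (0, 1) a₂ := ⟨_, rfl⟩
  rw [← hs₂] at hG2
  have h00₂ : s₂ (0, 0) = a := by rw [hs₂, Function.update_of_ne (by decide), h00']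
  have h10₂ : s₂ (1, 0) = b := by rw [hs₂, Function.update_of_ne (by decide), h10']
  have h11₂ : s₂ (1, 1) = b₂ := by rw [hs₂, Function.update_of_ne (by decide), h11']
  have h01₂ : s₂ (0, 1) = a₂ := by rw [hs₂, Function.update_self]
  have hind2 : Ind2 K a₂ b₂ :=
    hab.of_acl (fst_mem_acl hg hd (x := ![a, a₂]) ha₂ hab.1)
      (fst_mem_acl hg' hd' (x := ![b, b₂]) hb₂ hb)
      (snd_mem_acl hg.ne_zero (x := ![a, a₂]) ha₂ hab.1)
  obtain ⟨hdeg1, hl1, hroot1⟩ := rel_root W e c 1 s₂ (by rw [h01₂, h11₂]; exact hind2)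
  obtain ⟨ξ1, hξ1, hG3⟩ := exists_root_of_El _ _ _ hdeg1 s₂ hl1 hG2
  obtain ⟨u1, u1', r1, hr1, hu1, hu1', hur1⟩ := hroot1 ξ1 hξ1
  rw [h01₂] at hu1
  rw [h11₂] at hu1'
  obtain ⟨s₃, hs₃⟩ : ∃ s₃, s₃ = Function.update s₂ (2, 1) ξ1 := ⟨_, rfl⟩
  rw [← hs₃] at hG3
  have h00₃ : s₃ (0, 0) = a := by rw [hs₃, Function.update_of_ne (by decide), h00₂]
  have h10₃ : s₃ (1, 0) = b := by rw [hs₃, Function.update_of_ne (by decide), h10₂]
  have h21₃ : s₃ (2, 1) = ξ1 := by rw [hs₃, Function.update_self]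
  obtain ⟨hdeg0, hl0, hroot0⟩ := rel_root W e c 0 s₃ (by rw [h00₃, h10₃]; exact hab)
  obtain ⟨ξ0, hξ0, hG4⟩ := exists_root_of_El _ _ _ hdeg0 s₃ hl0 hG3
  obtain ⟨u0, u0', r0, hr0, hu0, hu0', hur0⟩ := hroot0 ξ0 hξ0
  rw [h00₃] at hu0
  rw [h10₃] at hu0'
  have hpts : ∀ t : Fin 2, ∃ (u u' : ((W t).map (algebraMap K Ω)).toAffine.Point) (r : Ω),
      r ≠ 0 ∧ u.xRep = ![(![a, a₂] : Fin 2 → Ω) t, 1] ∧
        u'.xRep = ![(![b, b₂] : Fin 2 → Ω) t, 1] ∧
          (u' - 2 ^ e • u).xRep = r • vc (c t) ((![ξ0, ξ1] : Fin 2 → Ω) t) :=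
    Fin.forall_fin_two.mpr ⟨⟨u0, u0', r0, hr0, hu0, hu0', hur0⟩,
      ⟨u1, u1', r1, hr1, hu1, hu1', hur1⟩⟩
  choose u u' r hr hu hu' hur using hpts
  have hF : aeval (![a, ξ0, ξ1] : Fin 3 → Ω) F₃ = 0 := by
    rw [aeval_rename] at hG4
    have hfun : (![a, ξ0, ξ1] : Fin 3 → Ω) = Function.update s₃ (2, 0) ξ0 ∘
        (![(0, 0), (2, 0), (2, 1)] : Fin 3 → Fin 4 × Fin 2) := by
      funext i
      fin_cases i
      · show a = Function.update s₃ (2, 0) ξ0 (0, 0)
        rw [Function.update_of_ne (by decide), h00₃]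
      · show ξ0 = Function.update s₃ (2, 0) ξ0 (2, 0)
        rw [Function.update_self]
      · show ξ1 = Function.update s₃ (2, 0) ξ0 (2, 1)
        rw [Function.update_of_ne (by decide), h21₃]
    rw [hfun]
    exact hG4
  exact ⟨⟨u, u', ![a, a₂], ![b, b₂], hu, hu', hab, htop, ha₂, hb₂, ![ξ0, ξ1], r, hr, hur, hF⟩⟩

end Pool.Agent.Lib.MP_17a322_nt.VJ
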