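import Pool.Agent.Lib.MP_17a322_nt.VJ.I3
import Pool.Agent.Lib.MP_17a322_nt.VJ.I10
import Pool.Agent.Lib.MP_17a322_nt.VJ.I17

/-!
(10.2) The automorphism attached to a torsion point.
-/

namespace Pool.Agent.Lib.MP_17a322_nt.VJ

open MvPolynomial WeierstrassCurve

section

variable {K Ω : Type*} [Field K] [Field Ω] [Algebra K Ω]

theorem I18_PA_of_vc {A : IntermediateField K Ω} {V : WeierstrassCurve Ω} {P : V.toAffine.Point}
    {c : Bool} {r ξ : Ω} (hr : r ≠ 0) (h : P.xRep = r • vc c ξ) (hξ : ξ ∈ A) : PA A P := by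
  rcases pt_cases P with rfl | ⟨z, hz⟩
  · exact PA_zero A
  · refine PA_of_xRep hz ?_
    rw [hz] at h
    have h0 := congrFun h 0
    have h1 := congrFun h 1
    cases c
    · have h0' : z = r * ξ := by simpa [vc] using h0
      have h1' : (1 : Ω) = r := by simpa [vc] using h1
      rw [h0', ← h1', one_mul]
      exact hξ
    · have h0' : z = r := by simpa [vc] using h0
      have h1' : (1 : Ω) = r * ξ := by simpa [vc] using h1
      have h2 : z = ξ⁻¹ := by
        rw [h0']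
        exact eq_inv_of_mul_eq_one_left h1'.symm
      rw [h2]
      exact A.inv_mem hξ

theorem I18_mem_of_vc {A : IntermediateField K Ω} {V : WeierstrassCurve Ω} {P : V.toAffine.Point}
    {c : Bool} {r ξ : Ω} (hr : r ≠ 0) (h : P.xRep = r • vc c ξ) (hP : PA A P) : ξ ∈ A := by
  have h0 := congrFun h 0
  have h1 := congrFun h 1
  have hP0 := hP 0
  have hP1 := hP 1
  cases c
  · have h0' : P.xRep 0 = r * ξ := by simpa [vc] using h0
    have h1' : P.xRep 1 = r := by simpa [vc] using h1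
    have h2 : ξ = P.xRep 0 / P.xRep 1 := by
      rw [h0', h1']
      field_simp
    rw [h2]
    exact A.div_mem hP0 hP1
  · have h0' : P.xRep 0 = r := by simpa [vc] using h0
    have h1' : P.xRep 1 = r * ξ := by simpa [vc] using h1
    have h2 : ξ = P.xRep 1 / P.xRep 0 := by
      rw [h0', h1']
      field_simp
    rw [h2]
    exact A.div_mem hP1 hP0

theorem I18_map_vc {c : Bool} (σ : Ω →ₐ[K] Ω) (ξ : Ω) (i : Fin 2) :
    σ (vc c ξ i) = vc c (σ ξ) i := by
  cases c <;> fin_cases i <;> simp [vc]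

theorem I18_vc_eq {c : Bool} {r r' ξ ξ' : Ω} (hr : r ≠ 0) (h : r • vc c ξ = r' • vc c ξ') :
    ξ = ξ' := by
  have h0 := congrFun h 0
  have h1 := congrFun h 1
  cases c
  · have h0' : r * ξ = r' * ξ' := by simpa [vc] using h0
    have h1' : r = r' := by simpa [vc] using h1
    rw [← h1'] at h0'
    exact mul_left_cancel₀ hr h0'
  · have h0' : r = r' := by simpa [vc] using h0
    have h1' : r * ξ = r' * ξ' := by simpa [vc] using h1
    rw [← h0'] at h1'
    exact mul_left_cancel₀ hr h1'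

theorem I18_algebraic (A : IntermediateField K Ω) {x x' z : Ω} (hx' : x' ∈ A)
    (hz : z ∈ acl K {x, x'}) : IsAlgebraic (IntermediateField.adjoin A {x}) z := by
  rw [mem_acl_iff'] at hz
  have hle : Algebra.adjoin K {x, x'} ≤
      ((IntermediateField.adjoin A {x}).restrictScalars K).toSubalgebra := by
    refine Algebra.adjoin_le ?_
    rintro w (rfl | rfl)
    · exact IntermediateField.subset_adjoin A _ (Set.mem_singleton _)
    · exact (IntermediateField.adjoin A {x}).algebraMap_mem ⟨_, hx'⟩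
  exact hz.tower_top_of_subalgebra_le hle

/-- A function on the two factors. -/
def I18_pair {α : Fin 2 → Type*} (a : α 0) (b : α 1) : ∀ t, α t
  | ⟨0, _⟩ => a
  | ⟨1, _⟩ => b

end

variable {K Ω : Type*} [Field K] [CharZero K] [Field Ω] [DecidableEq Ω] [Algebra K Ω]
  [IsAlgClosed Ω]

/-- (10.2) -/
theorem Cfg.auto {W : Fin 2 → WeierstrassCurve K} [∀ t, (W t).IsElliptic] {c : Fin 2 → Bool}
    {e b s D : ℕ} {g g' : MvPolynomial (Fin 2) K} {F : MvPolynomial (Fin 3) K}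
    (C : Cfg (Ω := Ω) W e c g g' F) (hg : g ≠ 0) (hg' : g' ≠ 0) (hD : g.degreeOf 1 ≤ D)
    (hF : F ≠ 0) (hFs : F.degreeOf 0 ≤ s) (hFb : F.degreeOf 2 ≤ b)
    (h32 : 32 * D ^ 2 * b * s < 4 ^ e) (T : ((W 0).map (algebraMap K Ω)).toAffine.Point)
    (hT : PA (acl K (∅ : Set Ω)) T) (hlT : 2 ^ e • T = 0) :
    ∃ (T' : ∀ t, ((W t).map (algebraMap K Ω)).toAffine.Point) (σ : Ω →ₐ[K] Ω), T' 0 = T ∧
      (∀ t, PA (acl K (∅ : Set Ω)) (T' t)) ∧ (∀ z ∈ acl K (∅ : Set Ω), σ z = z) ∧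
      ∀ t, mp (W t) σ (C.u t) = C.u t + T' t := by
  have hx0 : C.x 0 ∉ acl K (∅ : Set Ω) := C.ind.1
  have hx'0 : C.x' 0 ∉ acl K (∅ : Set Ω) := C.ind.symm.1
  -- coordinates
  have hx1 : C.x 1 ∈ acl K {C.x 0} := snd_mem_acl hg C.hg hx0
  have hx'1 : C.x' 1 ∈ acl K {C.x' 0} := snd_mem_acl hg' C.hg' hx'0
  have hPu0 : PA (acl K {C.x 0}) (C.u 0) := PA_of_xRep (C.hx 0) (mem_acl_of_mem rfl)
  have hPu1 : PA (acl K {C.x 0}) (C.u 1) := PA_of_xRep (C.hx 1) hx1
  have hPu'0 : PA (acl K {C.x' 0}) (C.u' 0) := PA_of_xRep (C.hx' 0) (mem_acl_of_mem rfl)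
  have hPu'1 : PA (acl K {C.x' 0}) (C.u' 1) := PA_of_xRep (C.hx' 1) hx'1
  rcases pt_cases T with hT0 | ⟨τ, hτ⟩
  · -- the trivial case
    refine ⟨fun t => 0, AlgHom.id K Ω, hT0.symm, fun t => PA_zero _, fun z _ => rfl, fun t => ?_⟩
    have h1 := mp_fix (W := W t) (A := (⊤ : IntermediateField K Ω)) (fun z _ => trivial)
      (σ := AlgHom.id K Ω) (fun z _ => rfl) (P := C.u t) (fun i => trivial)
    rw [h1, add_zero]
  have hTA : ∀ S : Set Ω, PA (acl K S) T := fun S => hT.mono (acl_mono (Set.empty_subset S))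
  have hPuT : PA (acl K {C.x 0}) (C.u 0 + T) := PA.add (Clo_acl _) hPu0 (hTA _)
  -- `u 0 + T` is generic
  have hgen : ¬ PA (acl K {C.x' 0}) (C.u 0 + T) := by
    intro h
    have h1 : PA (acl K {C.x' 0}) (C.u 0) := by
      have h2 := PA.sub (Clo_acl _) h (hTA {C.x' 0})
      rwa [add_sub_cancel_right] at h2
    exact C.ind.symm.2 (h1.mem (C.hx 0))
  obtain ⟨xt, hxt⟩ : ∃ xt, (C.u 0 + T).xRep = ![xt, 1] := by
    rcases pt_cases (C.u 0 + T) with h | h
    · exact absurd (h ▸ PA_zero _) hgen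
    · exact h
  have hxtA : xt ∉ acl K {C.x' 0} := fun h => hgen (PA_of_xRep hxt h)
  -- the homomorphism
  obtain ⟨σ, hσA, hσu⟩ := exists_hom (W 0) (acl K {C.x' 0}) (C.u 0) (C.u 0 + T) (C.hx 0) hxt
    (fun h => C.ind.symm.2 (acl_closed _ h)) (fun h => hxtA (acl_closed _ h))
    (fun z => I18_algebraic _ (mem_acl_of_mem rfl) (C.top z))
  have hσk : ∀ z ∈ acl K (∅ : Set Ω), σ z = z :=
    fun z hz => hσA z (acl_mono (Set.empty_subset _) hz)
  have hσx0 : σ (C.x 0) = xt := by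
    have h1 := mp_xRep (W 0) σ (C.u 0) 0
    rw [hσu, hxt, C.hx 0] at h1
    simpa using h1.symm
  -- the second factor
  set v' := mp (W 1) σ (C.u 1) with hv'
  have hv'x : v'.xRep = ![σ (C.x 1), 1] := by
    funext i
    rw [hv', mp_xRep, C.hx 1]
    fin_cases i <;> simp
  set q := C.u' 1 - 2 ^ e • C.u 1 with hq
  set q' := C.u' 1 - 2 ^ e • v' with hq'
  have hfix1 : mp (W 1) σ (C.u' 1) = C.u' 1 := mp_fix (Clo_acl _) hσA hPu'1
  have hfix0 : mp (W 0) σ (C.u' 0) = C.u' 0 := mp_fix (Clo_acl _) hσA hPu'0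
  have hq'σ : q' = mp (W 1) σ q := by
    rw [hq, map_sub, map_nsmul, hfix1]
  have hq'x : q'.xRep = σ (C.r 1) • vc (c 1) (σ (C.ξ 1)) := by
    funext i
    rw [hq'σ, mp_xRep, hq, C.hξ 1, Pi.smul_apply, Pi.smul_apply, smul_eq_mul, smul_eq_mul, map_mul,
      I18_map_vc]
  -- the first factor
  have hq0 : mp (W 0) σ (C.u' 0 - 2 ^ e • C.u 0) = C.u' 0 - 2 ^ e • C.u 0 := by
    rw [map_sub, map_nsmul, hfix0, hσu, smul_add, hlT, add_zero]
  have hσξ : σ (C.ξ 0) = C.ξ 0 := by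
    have h1 : C.r 0 • vc (c 0) (C.ξ 0) = σ (C.r 0) • vc (c 0) (σ (C.ξ 0)) := by
      funext i
      rw [← C.hξ 0, ← hq0, mp_xRep, C.hξ 0, Pi.smul_apply, Pi.smul_apply, smul_eq_mul, smul_eq_mul,
        map_mul, I18_map_vc]
    exact (I18_vc_eq (C.hr 0) h1).symm
  have hind : Ind2 K (C.x 0) (C.ξ 0) := by
    refine ⟨hx0, fun h => C.ind.2 ?_⟩
    have h1 : PA (acl K {C.x 0}) (C.u' 0 - 2 ^ e • C.u 0) := I18_PA_of_vc (C.hr 0) (C.hξ 0) h
    have h2 : PA (acl K {C.x 0}) (C.u' 0) := by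
      have h3 := PA.add (Clo_acl _) h1 (PA.nsmul (Clo_acl _) hPu0 (2 ^ e))
      rwa [sub_add_cancel] at h3
    exact h2.mem (C.hx' 0)
  have hgt : aeval ![xt, σ (C.x 1)] g = 0 := by
    have h1 : σ (aeval C.x g) = 0 := by rw [C.hg, map_zero]
    rw [MvPolynomial.comp_aeval_apply] at h1
    have h2 : (fun i => σ (C.x i)) = ![xt, σ (C.x 1)] := by
      funext i
      fin_cases i
      · exact hσx0
      · rfl
    rw [← h2]
    exact h1
  have hFt : aeval ![xt, C.ξ 0, σ (C.ξ 1)] F = 0 := by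
    have h1 : σ (aeval ![C.x 0, C.ξ 0, C.ξ 1] F) = 0 := by rw [C.hF, map_zero]
    rw [MvPolynomial.comp_aeval_apply] at h1
    have h2 : (fun i => σ ((![C.x 0, C.ξ 0, C.ξ 1] : Fin 3 → Ω) i)) =
        ![xt, C.ξ 0, σ (C.ξ 1)] := by
      funext i
      fin_cases i
      · exact hσx0
      · exact hσξ
      · rfl
    rw [← h2]
    exact h1
  have hgx : aeval ![C.x 0, C.x 1] g = 0 := by
    have h1 : (![C.x 0, C.x 1] : Fin 2 → Ω) = C.x := by
      funext i
      fin_cases i <;> rfl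
    rw [h1]
    exact C.hg
  -- the difference
  have hPw : PA (acl K (∅ : Set Ω)) (v' - C.u 1) := by
    rcases pt_cases (v' - C.u 1) with h | ⟨xw, hxw⟩
    · rw [h]
      exact PA_zero _
    have hrel : 2 ^ e • (v' - C.u 1) = q - q' := by
      rw [hq, hq', smul_sub]
      abel
    have h1 : xw ∈ acl K {C.ξ 0} :=
      degree_argument W (c 1) hg hD hF hFs hFb h32 hind (C.u 0) T (C.hx 0) hτ (hT.mem hτ) hxt
        (C.u 1) v' q q' (C.hx 1) hv'x hgx hgt C.hF hFt (C.hξ 1) hq'x hrel hxw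
    refine PA_of_xRep hxw ?_
    by_contra hxk
    have h2 : PA (acl K {C.x 0}) v' := by
      refine PA_of_xRep hv'x ?_
      have h3 := map_mem_acl σ hx1
      rw [Set.image_singleton, hσx0] at h3
      exact acl_le_acl (Set.singleton_subset_iff.2 (hPuT.mem hxt)) h3
    have h4 : xw ∈ acl K {C.x 0} := (PA.sub (Clo_acl _) h2 hPu1).mem hxw
    have h5 : C.x 0 ∈ acl K {xw} := acl_exchange₁ h4 hxk
    exact hind.symm.2 (acl_le_acl (Set.singleton_subset_iff.2 h1) h5)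
  refine ⟨I18_pair T (v' - C.u 1), σ, rfl, ?_, hσk, ?_⟩
  · intro t
    fin_cases t
    · exact hT
    · exact hPw
  · intro t
    fin_cases t
    · exact hσu
    · change v' = C.u 1 + (v' - C.u 1)
      abel

end Pool.Agent.Lib.MP_17a322_nt.VJ
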