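import Pool.Agent.Lib.MP_17a322_nt.VJ.A5
import Pool.Agent.Lib.MP_17a322_nt.VJ.I11
import Pool.Agent.Lib.MP_17a322_nt.VJ.I14
import Pool.Agent.Lib.MP_17a322_nt.VJ.I15
import Pool.Agent.Lib.MP_17a322_nt.VJ.I18

/-!
Section 10 (IND): if the eliminant `N` vanishes then the curve `g` has bounded height.
-/

universe u

namespace Pool.Agent.Lib.MP_17a322_nt.VJ

open MvPolynomial Height WeierstrassCurve

/-- For fixed degrees and fixed points the height is bounded. -/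
theorem I19_bound {K : Type u} [Field K] [NumberField K] {Ω : Type u} [Field Ω] [Algebra K Ω]
    {V : WeierstrassCurve Ω} (D : ℕ) {M : ℕ} (hM : 2 * D ^ 2 < M) (τ : Fin M → Ω)
    (hτ : Function.Injective τ) (d : Fin 2 → ℕ) (S : Fin M → V.toAffine.Point) :
    ∃ C : ℝ, ∀ g : MvPolynomial (Fin 2) K, GC g D → (∀ t, g.degreeOf t = d t) →
      (∀ i, Van g (τ i) (S i)) → nh g ≤ C := by
  by_cases h : ∃ g₀ : MvPolynomial (Fin 2) K, GC g₀ D ∧ (∀ t, g₀.degreeOf t = d t) ∧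
      ∀ i, Van g₀ (τ i) (S i)
  · obtain ⟨g₀, h1, h2, h3⟩ := h
    refine ⟨nh g₀, fun g hg hd hV => ?_⟩
    have hlt : 2 * g₀.degreeOf 0 * g₀.degreeOf 1 < M := by
      refine lt_of_le_of_lt ?_ hM
      calc 2 * g₀.degreeOf 0 * g₀.degreeOf 1 ≤ 2 * D * D :=
            Nat.mul_le_mul (Nat.mul_le_mul le_rfl (h1.2 0).2) (h1.2 1).2
        _ = 2 * D ^ 2 := by ring
    obtain ⟨a, ha, rfl⟩ := unique_of_van h1.irreducible hg.irreducible
      (fun t => (h2 t).trans (hd t).symm) h1.degreeOf_ne τ hτ S hlt h3 hV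
    rw [nh_C_mul h1.irreducible.ne_zero ha]
  · refine ⟨0, fun g hg hd hV => ?_⟩
    exact absurd ⟨g, hg, hd, hV⟩ h

/-- Section 10 (IND): if the eliminant `N` vanishes then the curve `g` has bounded height. -/
theorem ind {K : Type u} [Field K] [NumberField K] (W : Fin 2 → WeierstrassCurve K)
    [∀ t, (W t).IsElliptic] (D : ℕ) :
    ∃ (Cs : ℝ) (e₀ : ℕ), ∀ (g g' : MvPolynomial (Fin 2) K) (F : MvPolynomial (Fin 4 × Fin 2) K)
      (c : Fin 2 → Bool) (e s b : ℕ), GC g D → GC g' D → tc g = 0 →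
      F ≠ 0 → F.vars ⊆ {(0, 0), (2, 0), (2, 1)} → F.degreeOf (0, 0) ≤ s →
      (∀ t, F.degreeOf (2, t) ≤ b) → e₀ ≤ e → 32 * D ^ 2 * b * s < 4 ^ e →
      NN W e c g g' F = 0 → nh g ≤ Cs := by
  classical
  obtain ⟨Ω, i1, i2, a, b₀, i3, hab, htop⟩ := exists_big_field K
  set M : ℕ := 2 * D ^ 2 + 1 with hM
  obtain ⟨T, τ, hτ, hT⟩ := exists_torsion (Ω := Ω) (W 0) M
  set N : ℕ := (2 * D).factorial * 2 ^ M with hN
  have hN0 : N ≠ 0 := mul_ne_zero (Nat.factorial_ne_zero _) (pow_ne_zero _ two_ne_zero)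
  have hfin := finite_torsion (Ω := Ω) (W 1) hN0
  haveI : Finite {P : ((W 1).map (algebraMap K Ω)).toAffine.Point | N • P = 0} := hfin
  choose Cf hCf using fun x : (Fin 2 → Fin (D + 1)) ×
      (Fin M → {P : ((W 1).map (algebraMap K Ω)).toAffine.Point | N • P = 0}) =>
    I19_bound (K := K) D (Nat.lt_succ_self (2 * D ^ 2)) τ hτ (fun t => (x.1 t : ℕ))
      (fun i => (x.2 i : ((W 1).map (algebraMap K Ω)).toAffine.Point))
  obtain ⟨Cs, hCs⟩ := (Set.finite_range Cf).bddAbove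
  refine ⟨Cs, M, fun g g' F c e s b hg hg' htc hF hv hs hb he h32 hNN => ?_⟩
  obtain ⟨F₃, hF₃, hd0, hd1, hd2⟩ := exists_three F hv
  have hF₃0 : F₃ ≠ 0 := by
    rintro rfl
    exact hF (hF₃.trans (map_zero _))
  have hFs : F₃.degreeOf 0 ≤ s := hd0.le.trans hs
  have hFb : F₃.degreeOf 2 ≤ b := hd2.le.trans (hb 1)
  rw [hF₃] at hNN
  obtain ⟨C⟩ := exists_cfg W e c hg.irreducible hg'.irreducible hg.degreeOf_ne hg'.degreeOf_ne F₃
    hNN hab htop
  have key : ∀ i, ∃ S : ((W 1).map (algebraMap K Ω)).toAffine.Point, N • S = 0 ∧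
      Van g (τ i) S := by
    intro i
    have hTi := (hT i).2
    have hTe : 2 ^ e • T i = 0 := by
      obtain ⟨k, hk⟩ := Nat.exists_eq_add_of_le he
      rw [hk, pow_add, mul_comm, mul_smul, hTi, smul_zero]
    have hPT : PA (acl K (∅ : Set Ω)) (T i) :=
      PA_of_torsion (W 0) (pow_ne_zero M two_ne_zero) hTi
    obtain ⟨T', σ, hT'0, hPT', hσ, hu⟩ := C.auto hg.irreducible.ne_zero hg'.irreducible.ne_zero
      (hg.2 1).2 hF₃0 hFs hFb h32 (T i) hPT hTe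
    refine ⟨T' 1, ?_, ?_⟩
    · exact finite_order hg.irreducible.ne_zero (hg.2 1).2 C.ind.1 C.hg C.u T' C.hx σ hσ hPT' hu
        (by rw [hT'0]; exact hTi)
    · exact van_of_hom hg.irreducible hg.degreeOf_ne htc C.hg C.ind.1 C.u T' C.hx σ hPT' hu
        (by rw [hT'0]; exact (hT i).1)
  choose S hS hV using key
  let x : (Fin 2 → Fin (D + 1)) ×
      (Fin M → {P : ((W 1).map (algebraMap K Ω)).toAffine.Point | N • P = 0}) :=
    (fun t => ⟨g.degreeOf t, Nat.lt_succ_of_le (hg.2 t).2⟩, fun i => ⟨S i, hS i⟩)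
  exact (hCf x g hg (fun t => rfl) hV).trans (hCs ⟨x, rfl⟩)

end Pool.Agent.Lib.MP_17a322_nt.VJ
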