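import Pool.Agent.Lib.MP_17a322_nt.VJ.I1

/-!
Stream B (section 10). Points with coordinates in a subfield; the action of homomorphisms.
-/

namespace Pool.Agent.Lib.MP_17a322_nt.VJ

open MvPolynomial WeierstrassCurve
open Pool.Agent.Lib.MP_17a322_nt.RO

section

variable {K Ω : Type*} [Field K] [Field Ω] [Algebra K Ω]

/-- The coordinates `xRep` of the point lie in the subfield `A`. -/
def PA (A : IntermediateField K Ω) {V : WeierstrassCurve Ω} (P : V.toAffine.Point) : Prop :=
  ∀ i, P.xRep i ∈ A

/-- `A` contains all elements of `Ω` algebraic over it. -/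
def Clo (A : IntermediateField K Ω) : Prop := ∀ z : Ω, IsAlgebraic A z → z ∈ A

theorem Clo_acl (S : Set Ω) : Clo (acl K S) := fun z hz => acl_closed z hz

theorem PA_of_xRep {A : IntermediateField K Ω} {V : WeierstrassCurve Ω} {P : V.toAffine.Point}
    {x : Ω} (h : P.xRep = ![x, 1]) (hx : x ∈ A) : PA A P := by
  intro i
  rw [h]
  fin_cases i
  · exact hx
  · exact A.one_mem

theorem PA.mem {A : IntermediateField K Ω} {V : WeierstrassCurve Ω} {P : V.toAffine.Point}
    (hP : PA A P) {x : Ω} (h : P.xRep = ![x, 1]) : x ∈ A := by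
  have h1 := hP 0
  rw [h] at h1
  exact h1

theorem PA.mono {A B : IntermediateField K Ω} (hAB : A ≤ B) {V : WeierstrassCurve Ω}
    {P : V.toAffine.Point} (hP : PA A P) : PA B P := fun i => hAB (hP i)

theorem PA_zero (A : IntermediateField K Ω) {V : WeierstrassCurve Ω} :
    PA A (0 : V.toAffine.Point) := by
  intro i
  rw [Affine.Point.xRep_zero]
  fin_cases i
  · exact A.one_mem
  · exact A.zero_mem

theorem PA.neg {A : IntermediateField K Ω} {V : WeierstrassCurve Ω} {P : V.toAffine.Point}
    (hP : PA A P) : PA A (-P) := by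
  intro i
  rw [Affine.Point.xRep_neg]
  exact hP i

theorem PA.add [DecidableEq Ω] {W : WeierstrassCurve K} [W.IsElliptic]
    {A : IntermediateField K Ω} (hA : Clo A) {P Q : (W.map (algebraMap K Ω)).toAffine.Point}
    (hP : PA A P) (hQ : PA A Q) : PA A (P + Q) :=
  xRep_add_mem W A hA P Q hP hQ

theorem PA.sub [DecidableEq Ω] {W : WeierstrassCurve K} [W.IsElliptic]
    {A : IntermediateField K Ω} (hA : Clo A) {P Q : (W.map (algebraMap K Ω)).toAffine.Point}
    (hP : PA A P) (hQ : PA A Q) : PA A (P - Q) := by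
  rw [sub_eq_add_neg]
  exact PA.add hA hP hQ.neg

theorem PA.nsmul [DecidableEq Ω] {W : WeierstrassCurve K} [W.IsElliptic]
    {A : IntermediateField K Ω} (hA : Clo A) {P : (W.map (algebraMap K Ω)).toAffine.Point}
    (hP : PA A P) (n : ℕ) : PA A (n • P) := by
  induction n with
  | zero =>
    rw [zero_smul]
    exact PA_zero A
  | succ n ih =>
    rw [add_smul, one_smul]
    exact PA.add hA ih hP

/-- A point is `O` or has an affine x-coordinate. -/
theorem pt_cases {V : WeierstrassCurve Ω} (P : V.toAffine.Point) :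
    P = 0 ∨ ∃ x, P.xRep = ![x, 1] := by
  rcases G5_z_cases P with ⟨h, -, -⟩ | h
  · exact Or.inl h
  · exact Or.inr ⟨_, h⟩

theorem ne_zero_of_xRep {V : WeierstrassCurve Ω} {P : V.toAffine.Point} {x : Ω}
    (h : P.xRep = ![x, 1]) : P ≠ 0 := by
  rintro rfl
  rw [Affine.Point.xRep_zero] at h
  have := congrFun h 1
  simp at this

/-- The action of a homomorphism on points. -/
noncomputable def mp [DecidableEq Ω] (W : WeierstrassCurve K) (σ : Ω →ₐ[K] Ω) :
    (W.map (algebraMap K Ω)).toAffine.Point →+ (W.map (algebraMap K Ω)).toAffine.Point :=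
  Affine.Point.map (W' := W.toAffine) σ

theorem mp_xRep [DecidableEq Ω] (W : WeierstrassCurve K) (σ : Ω →ₐ[K] Ω)
    (P : (W.map (algebraMap K Ω)).toAffine.Point) (i : Fin 2) :
    (mp W σ P).xRep i = σ (P.xRep i) := by
  cases P with
  | zero =>
    change (0 : (W.map (algebraMap K Ω)).toAffine.Point).xRep i =
      σ ((0 : (W.map (algebraMap K Ω)).toAffine.Point).xRep i)
    rw [Affine.Point.xRep_zero]
    fin_cases i
    · exact (map_one σ).symm
    · exact (map_zero σ).symm
  | some x y h =>
    change (![σ x, 1] : Fin 2 → Ω) i = σ ((![x, 1] : Fin 2 → Ω) i)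
    fin_cases i
    · rfl
    · exact (map_one σ).symm

/-- A homomorphism fixing a relatively algebraically closed field fixes its points. -/
theorem mp_fix [DecidableEq Ω] {W : WeierstrassCurve K} {A : IntermediateField K Ω} (hA : Clo A)
    {σ : Ω →ₐ[K] Ω} (hσ : ∀ z ∈ A, σ z = z) {P : (W.map (algebraMap K Ω)).toAffine.Point}
    (hP : PA A P) : mp W σ P = P := by
  cases P with
  | zero => rfl
  | some x y h =>
    have hx : x ∈ A := hP 0
    have hy : y ∈ A := G1_y_mem W A hA h.1 hx
    have h1 : mp W σ (Affine.Point.some x y h) = Affine.Point.some (σ x) (σ y)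
      ((W.toAffine.baseChange_nonsingular σ.injective x y).mpr h) := rfl
    rw [h1]
    simp only [hσ x hx, hσ y hy]
    rfl

end

end Pool.Agent.Lib.MP_17a322_nt.VJ
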