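import Pool.Agent.Lib.MP_17a322_nt.VJ.I2

/-!
Stream B (section 10.1). Homomorphisms of `Ω` moving a generic point to a generic point.
-/

namespace Pool.Agent.Lib.MP_17a322_nt.VJ

open MvPolynomial WeierstrassCurve
open Pool.Agent.Lib.MP_17a322_nt.RO

/-- Evaluation of the coordinate ring at a generic point is injective.
Proof. `CoordinateRing` of the curve `W.map (algebraMap K A)` over the field `A` is
`AdjoinRoot (Affine.polynomial _)`, a domain, and integral over the polynomial ring `A[X]` (the polynomial
is monic in `Y`: `Affine.monic_polynomial`, `AdjoinRoot.isIntegral..`, or `Algebra.IsIntegral` from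
`Module.Finite`). The homomorphism `ev` is the `AdjoinRoot.lift` of `X ↦ x`, `Y ↦ y` (equation of the
point). The contraction of its kernel to `A[X]` is the kernel of `aeval x`, which is zero because `x` is
transcendental over `A`; so the kernel is zero by `Ideal.eq_bot_of_comap_eq_bot`. -/
theorem exists_ev {K Ω : Type*} [Field K] [Field Ω] [Algebra K Ω] (W : WeierstrassCurve K)
    (A : IntermediateField K Ω) {x y : Ω}
    (h : (W.map (algebraMap K Ω)).toAffine.Equation x y) (hx : Transcendental A x) :
    ∃ ev : (W.map (algebraMap K A)).toAffine.CoordinateRing →+* Ω, Function.Injective ev ∧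
      (∀ c : A, ev (algebraMap (Polynomial A) _ (Polynomial.C c)) = c) ∧
      ev (algebraMap (Polynomial A) _ Polynomial.X) = x ∧
      ev (AdjoinRoot.root _) = y := by
  set V := (W.map (algebraMap K A)).toAffine with hV
  set f : Polynomial A →+* Ω := (Polynomial.aeval x : Polynomial A →ₐ[A] Ω).toRingHom with hf
  have hfC : ∀ c : A, f (Polynomial.C c) = c := fun c => by
    rw [hf]
    exact Polynomial.aeval_C x c
  have hfX : f Polynomial.X = x := Polynomial.aeval_X x
  have hfinj : Function.Injective f := transcendental_iff_injective.1 hx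
  have hroot : (V.polynomial).eval₂ f y = 0 := by
    have h1 := h
    rw [Affine.equation_iff] at h1
    have e1 : ∀ k : K, ((algebraMap K A k : A) : Ω) = algebraMap K Ω k := fun k => rfl
    simp only [hV, Affine.polynomial, WeierstrassCurve.map, Polynomial.eval₂_add,
      Polynomial.eval₂_sub, Polynomial.eval₂_mul, Polynomial.eval₂_pow, Polynomial.eval₂_X,
      Polynomial.eval₂_C, map_add, map_mul, map_pow, hfC, hfX, e1]
    simp only [WeierstrassCurve.map] at h1
    linear_combination h1
  have hlift : ∀ q : Polynomial A,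
      AdjoinRoot.lift f y hroot (algebraMap (Polynomial A) V.CoordinateRing q) = f q := fun q =>
    AdjoinRoot.lift_of hroot
  refine ⟨AdjoinRoot.lift f y hroot, ?_, ?_, ?_, AdjoinRoot.lift_root hroot⟩
  · rw [RingHom.injective_iff_ker_eq_bot]
    have : Module.Finite (Polynomial A) V.CoordinateRing :=
      Module.Finite.of_basis (Affine.CoordinateRing.basis V)
    have : Algebra.IsIntegral (Polynomial A) V.CoordinateRing := Algebra.IsIntegral.of_finite _ _
    refine Ideal.eq_bot_of_comap_eq_bot (R := Polynomial A) ?_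
    rw [eq_bot_iff]
    intro q hq
    rw [Ideal.mem_comap, RingHom.mem_ker, hlift] at hq
    rw [Ideal.mem_bot]
    exact hfinj (hq.trans (map_zero f).symm)
  · intro c
    rw [hlift, hfC]
  · rw [hlift, hfX]

private theorem I3_lift {F Ω Ω' : Type*} [Field F] [Field Ω] [Field Ω'] [IsAlgClosed Ω']
    (i : F →+* Ω) (i' : F →+* Ω')
    (h : ∀ z : Ω, ∃ q : Polynomial F, q ≠ 0 ∧ q.eval₂ i z = 0) :
    ∃ σ : Ω →+* Ω', ∀ z, σ (i z) = i' z := by
  let := i.toAlgebra
  let := i'.toAlgebra
  have : Algebra.IsAlgebraic F Ω := ⟨fun z => by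
    obtain ⟨q, hq, hqz⟩ := h z
    exact ⟨q, hq, hqz⟩⟩
  let τ : Ω →ₐ[F] Ω' := IsAlgClosed.lift
  exact ⟨τ.toRingHom, fun z => τ.commutes z⟩

/-- (10.1) Let `A` be a subfield of the algebraically closed field `Ω`, let `u`, `w` be affine points
whose x-coordinates are transcendental over `A`, and let `Ω` be algebraic over `A(x(u))`. There is an
`A`-homomorphism `σ : Ω → Ω` with `σ(u) = w`.
Proof. Let `u = (x, y)`, `w = (x', y')` and `R` the coordinate ring over `A`, `F` its fraction field. By
`exists_ev` we have injective homomorphisms `ev`, `ev' : R → Ω`, `X, Y ↦ x, y` resp. `x', y'`, identity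
on `A`, which extend to `i, i' : F → Ω` (`IsFractionRing.lift`). Consider `Ω` as an extension of `F`
in two ways, by `i` and by `i'` (use `RingHom.toAlgebra` with `letI` on a type synonym or state the
lemma for two fields `Ω`, `Ω'`). `Ω` is algebraic over `i(F)` because `i(F)` contains `A` and `x`. By
`IsAlgClosed.lift` there is an `F`-homomorphism `σ` from `(Ω, i)` to `(Ω, i')`, i.e. `σ (i z) = i' z`. So
`σ` fixes `A`, `σ x = x'`, `σ y = y'`. -/
theorem exists_hom {K Ω : Type*} [Field K] [Field Ω] [DecidableEq Ω] [Algebra K Ω]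
    [IsAlgClosed Ω] (W : WeierstrassCurve K) (A : IntermediateField K Ω)
    (u w : (W.map (algebraMap K Ω)).toAffine.Point) {x x' : Ω} (hu : u.xRep = ![x, 1])
    (hw : w.xRep = ![x', 1]) (hx : Transcendental A x) (hx' : Transcendental A x')
    (halg : ∀ z : Ω, IsAlgebraic (IntermediateField.adjoin A {x}) z) :
    ∃ σ : Ω →ₐ[K] Ω, (∀ z ∈ A, σ z = z) ∧ mp W σ u = w := by
  have hcase : ∀ (v : (W.map (algebraMap K Ω)).toAffine.Point) (t : Ω), v.xRep = ![t, 1] →
      ∃ (s : Ω) (h : (W.map (algebraMap K Ω)).toAffine.Nonsingular t s),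
        v = Affine.Point.some t s h := by
    intro v t hv
    cases v with
    | zero =>
      exact absurd rfl (ne_zero_of_xRep hv)
    | some t' s h =>
      have h1 : t' = t := by
        have h2 := congrFun hv 0
        exact h2
      subst h1
      exact ⟨s, h, rfl⟩
  obtain ⟨y, hn, rfl⟩ := hcase u x hu
  obtain ⟨y', hn', rfl⟩ := hcase w x' hw
  obtain ⟨ev, hinj, hC, hX, hY⟩ := exists_ev W A hn.1 hx
  obtain ⟨ev', hinj', hC', hX', hY'⟩ := exists_ev W A hn'.1 hx'
  set R := (W.map (algebraMap K A)).toAffine.CoordinateRing with hR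
  set i : FractionRing R →+* Ω := IsFractionRing.lift hinj with hi
  set i' : FractionRing R →+* Ω := IsFractionRing.lift hinj' with hi'
  have hiR : ∀ r : R, i (algebraMap R (FractionRing R) r) = ev r := fun r =>
    IsFractionRing.lift_algebraMap hinj r
  have hiR' : ∀ r : R, i' (algebraMap R (FractionRing R) r) = ev' r := fun r =>
    IsFractionRing.lift_algebraMap hinj' r
  have hA : ∀ c : A, algebraMap A Ω c ∈ i.fieldRange := by
    intro c
    refine ⟨algebraMap R (FractionRing R) (algebraMap (Polynomial A) R (Polynomial.C c)), ?_⟩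
    rw [hiR, hC]
    rfl
  have hle : IntermediateField.adjoin A {x} ≤ (i.fieldRange).toIntermediateField hA := by
    rw [IntermediateField.adjoin_le_iff, Set.singleton_subset_iff]
    refine ⟨algebraMap R (FractionRing R) (algebraMap (Polynomial A) R Polynomial.X), ?_⟩
    rw [hiR, hX]
  obtain ⟨σ, hσ⟩ := I3_lift i i' (fun z => by
    obtain ⟨p, hp, hpz⟩ := halg z
    obtain ⟨q, hq⟩ : ∃ q : Polynomial (FractionRing R),
        q.map i = p.map (algebraMap (IntermediateField.adjoin A {x}) Ω) := by
      rw [← Polynomial.mem_lifts, Polynomial.lifts_iff_coeff_lifts]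
      intro n
      rw [Polynomial.coeff_map]
      exact hle (p.coeff n).2
    refine ⟨q, ?_, ?_⟩
    · rintro rfl
      rw [Polynomial.map_zero] at hq
      exact hp ((Polynomial.map_eq_zero_iff
        (algebraMap (IntermediateField.adjoin A {x}) Ω).injective).1 hq.symm)
    · rw [← Polynomial.eval_map, hq, Polynomial.eval_map]
      exact hpz)
  have hσA : ∀ z ∈ A, σ z = z := by
    intro z hz
    have h1 := hσ (algebraMap R (FractionRing R)
      (algebraMap (Polynomial A) R (Polynomial.C ⟨z, hz⟩)))
    rw [hiR, hiR', hC, hC'] at h1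
    exact h1
  have hσx : σ x = x' := by
    have h1 := hσ (algebraMap R (FractionRing R) (algebraMap (Polynomial A) R Polynomial.X))
    rw [hiR, hiR', hX, hX'] at h1
    exact h1
  have hσy : σ y = y' := by
    have h1 := hσ (algebraMap R (FractionRing R) (AdjoinRoot.root _))
    rw [hiR, hiR', hY, hY'] at h1
    exact h1
  let τ : Ω →ₐ[K] Ω := { σ with
    commutes' := fun k => hσA _ (A.algebraMap_mem k) }
  refine ⟨τ, hσA, ?_⟩
  have h1 : mp W τ (Affine.Point.some x y hn) = Affine.Point.some (τ x) (τ y)
      ((W.toAffine.baseChange_nonsingular τ.injective x y).mpr hn) := rfl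
  rw [h1]
  have h2 : τ x = x' := hσx
  have h3 : τ y = y' := hσy
  simp only [h2, h3]
  rfl

end Pool.Agent.Lib.MP_17a322_nt.VJ
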