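import Pool.Agent.Lib.MP_17a322_nt.VJ.I4

/-!
# JOB I6: degrees of field extensions
-/

namespace Pool.Agent.Lib.MP_17a322_nt.VJ

open IntermediateField
open scoped IntermediateField.algebraAdjoinAdjoin

/-- Adjoining a root of a polynomial with coefficients in `E`.
Proof. `p` lifts to a polynomial `q` over `E` (as in `isAlgebraic_of_coeff_mem`, or `Polynomial.lifts`), of the
same degree, so `z` is algebraic, hence integral over `E`, and `finrank E E⟮z⟯ = (minpoly E z).natDegree ≤
q.natDegree ≤ m` (`IntermediateField.adjoin.finrank`, `minpoly.natDegree_le_of_ne_zero` or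
`minpoly.dvd`). Take `E' = E⟮z⟯.restrictScalars B` and `Module.finrank_mul_finrank`,
`FiniteDimensional.trans`. -/
theorem exists_extend {B Ω : Type*} [Field B] [Field Ω] [Algebra B Ω]
    (E : IntermediateField B Ω) {n m : ℕ} (hE : FiniteDimensional B E)
    (hn : Module.finrank B E ≤ n) (p : Polynomial Ω) (hp : p ≠ 0) (hc : ∀ j, p.coeff j ∈ E)
    (hm : p.natDegree ≤ m) {z : Ω} (hz : p.eval z = 0) :
    ∃ E' : IntermediateField B Ω, E ≤ E' ∧ z ∈ E' ∧ FiniteDimensional B E' ∧
      Module.finrank B E' ≤ n * m := by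
  obtain ⟨q, hq⟩ : ∃ q : Polynomial E, q.map (algebraMap E Ω) = p := by
    rw [← Polynomial.mem_lifts, Polynomial.lifts_iff_coeff_lifts]
    intro j
    exact ⟨⟨p.coeff j, hc j⟩, rfl⟩
  have hq0 : q ≠ 0 := by
    rintro rfl
    apply hp
    rw [← hq, Polynomial.map_zero]
  have hqd : q.natDegree ≤ m := by
    rw [← Polynomial.natDegree_map (algebraMap E Ω), hq]
    exact hm
  have hqz : Polynomial.aeval z q = 0 := by
    rw [Polynomial.aeval_def, ← Polynomial.eval_map, hq]
    exact hz
  have hint : IsIntegral E z := isAlgebraic_iff_isIntegral.1 ⟨q, hq0, hqz⟩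
  have hfd : FiniteDimensional E E⟮z⟯ := adjoin.finiteDimensional hint
  have hfr : Module.finrank E E⟮z⟯ ≤ m := by
    rw [adjoin.finrank hint]
    exact (Polynomial.natDegree_le_of_dvd (minpoly.dvd E z hqz) hq0).trans hqd
  refine ⟨(E⟮z⟯).restrictScalars B, ?_, mem_adjoin_simple_self E z,
    FiniteDimensional.trans B E E⟮z⟯, ?_⟩
  · intro x hx
    exact (E⟮z⟯).algebraMap_mem (⟨x, hx⟩ : E)
  · have h1 : Module.finrank B ((E⟮z⟯).restrictScalars B) =
        Module.finrank B E * Module.finrank E E⟮z⟯ :=
      (Module.finrank_mul_finrank B E E⟮z⟯).symm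
    rw [h1]
    exact Nat.mul_le_mul hn hfr

/-- Let `a`, `b` be coprime, `deg b < deg a`. If `∑_j a ^ j * b ^ (m - j) * d j = 0` with polynomials `d j`
of degree `< deg a` then all `d j` vanish.
Proof. Otherwise let `j₀` be the smallest index with `d j₀ ≠ 0`. All terms with `j > j₀` are divisible by
`a ^ (j₀ + 1)`, so `a ∣ b ^ (m - j₀) * d j₀` (cancel `a ^ j₀`, `a ≠ 0`), and `a ∣ d j₀` by coprimality
(`IsCoprime.dvd_of_dvd_mul_left`, `IsCoprime.pow_right`), so `d j₀ = 0` by the degree. -/
theorem eq_zero_of_sum_pow {A : Type*} [Field A] (a b : Polynomial A) (hab : IsCoprime a b)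
    (hd : 0 < a.natDegree) (m : ℕ) (d : ℕ → Polynomial A)
    (hdeg : ∀ j, (d j).natDegree < a.natDegree)
    (h : ∑ j ∈ Finset.range (m + 1), a ^ j * b ^ (m - j) * d j = 0) :
    ∀ j ∈ Finset.range (m + 1), d j = 0 := by
  have ha0 : a ≠ 0 := by
    rintro rfl
    simp at hd
  intro j
  induction j using Nat.strong_induction_on with
  | _ j ih =>
    intro hj
    have h1 : a ^ (j + 1) ∣ a ^ j * b ^ (m - j) * d j := by
      rw [← Finset.add_sum_erase _ _ hj] at h
      rw [eq_neg_of_add_eq_zero_left h, dvd_neg]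
      refine Finset.dvd_sum fun i hi => ?_
      rw [Finset.mem_erase] at hi
      rcases lt_or_gt_of_ne hi.1 with h2 | h2
      · rw [ih i h2 hi.2, mul_zero]
        exact dvd_zero _
      · rw [mul_assoc]
        exact Dvd.dvd.mul_right (pow_dvd_pow a h2) _
    have h2 : a ∣ b ^ (m - j) * d j := by
      rw [pow_succ, mul_assoc] at h1
      exact (mul_dvd_mul_iff_left (pow_ne_zero j ha0)).1 h1
    have h3 : a ∣ d j := (IsCoprime.pow_right hab).dvd_of_dvd_mul_left h2
    exact Polynomial.eq_zero_of_dvd_of_natDegree_lt h3 (hdeg j)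

private theorem I6_indep {A Ω : Type*} [Field A] [Field Ω] [Algebra A Ω]
    (a b : Polynomial A) (hab : IsCoprime a b) (hd : b.natDegree < a.natDegree) {x : Ω}
    (hx : Transcendental A x) {z : Ω}
    (hz : z * Polynomial.aeval x b = Polynomial.aeval x a)
    (c : Fin a.natDegree → Polynomial A)
    (h : ∑ i, Polynomial.aeval z (c i) * x ^ (i : ℕ) = 0) : ∀ i, c i = 0 := by
  classical
  have hN0 : 0 < a.natDegree := (Nat.zero_le _).trans_lt hd
  set m : ℕ := Finset.univ.sup fun i => (c i).natDegree with hm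
  have hcm : ∀ i, (c i).natDegree < m + 1 := fun i =>
    Nat.lt_succ_of_le (Finset.le_sup (f := fun i => (c i).natDegree) (Finset.mem_univ i))
  set d : ℕ → Polynomial A := fun j =>
    ∑ i : Fin a.natDegree, Polynomial.C ((c i).coeff j) * Polynomial.X ^ (i : ℕ) with hdd
  have hdeg : ∀ j, (d j).natDegree < a.natDegree := by
    intro j
    have h1 : (d j).natDegree ≤ a.natDegree - 1 := by
      refine Polynomial.natDegree_sum_le_of_forall_le _ _ fun i _ => ?_
      refine (Polynomial.natDegree_C_mul_X_pow_le _ _).trans ?_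
      have := i.2
      omega
    omega
  have hsum : Polynomial.aeval x (∑ j ∈ Finset.range (m + 1), a ^ j * b ^ (m - j) * d j) = 0 := by
    have h1 : Polynomial.aeval x (∑ j ∈ Finset.range (m + 1), a ^ j * b ^ (m - j) * d j) =
        (Polynomial.aeval x b) ^ m * ∑ i, Polynomial.aeval z (c i) * x ^ (i : ℕ) := by
      have h2 : ∀ i, Polynomial.aeval z (c i) =
          ∑ j ∈ Finset.range (m + 1), (c i).coeff j • z ^ j := fun i =>
        Polynomial.aeval_eq_sum_range' (hcm i) z
      simp only [h2]
      rw [map_sum, Finset.mul_sum]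
      simp only [Finset.sum_mul, Finset.mul_sum]
      rw [Finset.sum_comm]
      refine Finset.sum_congr rfl fun j hj => ?_
      have hj' : j ≤ m := Nat.lt_succ_iff.1 (Finset.mem_range.1 hj)
      rw [map_mul, map_mul, map_pow, map_pow, ← hz, hdd]
      simp only [map_sum, map_mul, map_pow, Polynomial.aeval_C, Polynomial.aeval_X,
        Finset.mul_sum]
      refine Finset.sum_congr rfl fun i _ => ?_
      have h3 : (Polynomial.aeval x b) ^ m =
          (Polynomial.aeval x b) ^ j * (Polynomial.aeval x b) ^ (m - j) := by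
        rw [← pow_add]
        congr 1
        omega
      rw [h3, Algebra.smul_def, mul_pow]
      ring
    rw [h1, h, mul_zero]
  have hzero := (transcendental_iff.1 hx) _ hsum
  have hall := eq_zero_of_sum_pow a b hab hN0 m d hdeg hzero
  intro i
  ext j
  rw [Polynomial.coeff_zero]
  rcases Nat.lt_or_ge j (m + 1) with hj | hj
  · have h1 := congrArg (fun q => Polynomial.coeff q (i : ℕ)) (hall j (Finset.mem_range.2 hj))
    simp only [hdd, Polynomial.finsetSum_coeff, Polynomial.coeff_C_mul, Polynomial.coeff_X_pow,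
      Polynomial.coeff_zero] at h1
    rw [Finset.sum_eq_single i] at h1
    · simpa using h1
    · intro i' _ hne
      rw [if_neg (fun h2 => hne (Fin.ext h2).symm), mul_zero]
    · intro h2
      exact absurd (Finset.mem_univ _) h2
  · exact Polynomial.coeff_eq_zero_of_natDegree_lt (lt_of_lt_of_le (hcm i) hj)

/-- If `x` is transcendental over `A` and `z = a(x) / b(x)` with coprime `a`, `b`, `deg b < deg a`, then a
finite extension of `A(z)` containing `x` has degree at least `deg a`.
Proof. Let `N = deg a`. `1, x, ..., x^(N-1)` are linearly independent over `A(z)`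
(then `LinearIndependent.fintype_card_le_finrank`). By `LinearIndependent.iff_fractionRing` (with the
instance `IsFractionRing (Algebra.adjoin A {z}) (IntermediateField.adjoin A {z})`,
`open scoped IntermediateField.algebraAdjoinAdjoin`) or by clearing denominators it is enough to
consider a relation `∑_{i<N} c_i(z) x^i = 0` with `c_i ∈ A[X]`. Let `m` bound the degrees of the `c_i`,
multiply by `b(x)^m`: with `d j = ∑_{i<N} (c_i).coeff j X^i` (degree `< N`) one has
`∑_{j ≤ m} a(x)^j b(x)^(m-j) d_j(x) = 0`, hence `∑_j a^j b^(m-j) d_j = 0` as `x` is transcendental over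
`A`, and all `d j = 0` by `eq_zero_of_sum_pow`, i.e. all `c_i = 0`. (`b(x) ≠ 0` as `b ≠ 0`.) -/
theorem natDegree_le_finrank {A Ω : Type*} [Field A] [Field Ω] [Algebra A Ω]
    (a b : Polynomial A) (hab : IsCoprime a b) (hd : b.natDegree < a.natDegree) {x : Ω}
    (hx : Transcendental A x) {z : Ω}
    (hz : z * Polynomial.aeval x b = Polynomial.aeval x a)
    (E : IntermediateField (adjoin A {z}) Ω) (hE : FiniteDimensional (adjoin A {z}) E)
    (hxE : x ∈ E) : a.natDegree ≤ Module.finrank (adjoin A {z}) E := by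
  classical
  have hR : LinearIndependent (Algebra.adjoin A {z}) (fun i : Fin a.natDegree => x ^ (i : ℕ)) := by
    rw [Fintype.linearIndependent_iff]
    intro g hg i
    have hex : ∀ i, ∃ q : Polynomial A, Polynomial.aeval z q = (g i : Ω) := by
      intro i
      have h1 : (g i : Ω) ∈ (Algebra.adjoin A {z} : Subalgebra A Ω) := (g i).2
      generalize (g i : Ω) = w at h1
      rw [Algebra.adjoin_singleton_eq_range_aeval] at h1
      exact h1
    choose c hc using hex
    have h2 := I6_indep a b hab hd hx hz c (by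
      rw [← hg]
      refine Finset.sum_congr rfl fun i _ => ?_
      rw [hc i]
      rfl) i
    apply Subtype.ext
    rw [← hc i, h2, map_zero]
    rfl
  have hK : LinearIndependent (adjoin A {z}) (fun i : Fin a.natDegree => x ^ (i : ℕ)) :=
    (LinearIndependent.iff_fractionRing (Algebra.adjoin A {z}) (adjoin A {z})).1 hR
  have hE' : LinearIndependent (adjoin A {z})
      (fun i : Fin a.natDegree => ((⟨x, hxE⟩ : E) ^ (i : ℕ))) :=
    LinearIndependent.of_comp E.val.toLinearMap hK
  have h3 := hE'.fintype_card_le_finrank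
  rwa [Fintype.card_fin] at h3

end Pool.Agent.Lib.MP_17a322_nt.VJ
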