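import Pool.Agent.Lib.MP_17a322_nt.VJ.I19

/-!
Interface of stream B: section 10 (theorem `ind`, file I19).
-/
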