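import Pool.Agent.Lib.MP_17a322_nt.VJ.J12b

/-!
Interface of stream C (helper27): section 9.
-/

universe u

namespace Pool.Agent.Lib.MP_17a322_nt.VJ

open MvPolynomial Height

/-- Proposition S2 (section 9). -/
theorem stageII {K : Type u} [Field K] [NumberField K] [DecidableEq K]
    (W : Fin 2 → WeierstrassCurve K) [∀ t, (W t).IsElliptic] (D : ℕ) (ε : ℝ) (hε : 0 < ε) :
    ∃ (η C₁ Cs : ℝ) (R₁ : ℕ), 0 < η ∧ 0 < C₁ ∧ ∀ (g g' : MvPolynomial (Fin 2) K)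
      (P P' : ∀ t, (W t).toAffine.Point) (e : ℕ), GC g D → GC g' D → tc g = 0 →
      (∀ t, P t ≠ 0) → (∀ t, P' t ≠ 0) →
      eval (fun t => (P t).xRep 0) g = 0 → eval (fun t => (P' t).xRep 0) g' = 0 →
      (∀ t, ε * HH P ≤ logHeight (P t).xRep) → (∀ t, ε * HH P' ≤ logHeight (P' t).xRep) →
      C₁ * nh g ≤ HH P → C₁ * nh g' ≤ HH P' → C₁ ≤ HH P → R₁ ≤ 4 ^ e →
      (∀ t, logHeight (P' t - 2 ^ e • P t).xRep ≤ η * HH P') →
      |HH P' - 4 ^ e * HH P| ≤ η * HH P' → nh g ≤ Cs :=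
  stageII_proof W D ε hε

end Pool.Agent.Lib.MP_17a322_nt.VJ
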