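import Pool.Agent.Lib.MP_17a322_nt.VJ.G14

/-!
Interface of stream E (helper26): section 7 (`stage0`: G14).
-/
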