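import Pool.Agent.Lib.MP_17a322_nt.VJ.J0
import Pool.Agent.Lib.MP_17a322_nt.VJ.A3

/-!
Homogenisation in the variables `X (2, t)`.
-/

namespace Pool.Agent.Lib.MP_17a322_nt.VJ

open MvPolynomial Height

/-- the exponents of the homogenised polynomial -/
private noncomputable def J10a_ex (b : ℕ) (m : Fin 4 × Fin 2 →₀ ℕ) : Fin 4 × Fin 2 →₀ ℕ :=
  m + Finsupp.single (3, 0) (b - m (2, 0)) + Finsupp.single (3, 1) (b - m (2, 1))

/-- the inverse -/
private noncomputable def J10a_g (n : Fin 4 × Fin 2 →₀ ℕ) : Fin 4 × Fin 2 →₀ ℕ :=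
  (n.erase (3, 0)).erase (3, 1)

private theorem J10a_hm {K : Type*} [Field K] (b : ℕ) (F : MvPolynomial (Fin 4 × Fin 2) K) :
    hm b F = ∑ m ∈ F.support, monomial (J10a_ex b m) (coeff m F) := rfl

private theorem J10a_zero {K : Type*} [Field K] {F : MvPolynomial (Fin 4 × Fin 2) K}
    (hF : F.vars ⊆ {(0, 0), (2, 0), (2, 1)}) {m : Fin 4 × Fin 2 →₀ ℕ} (hm : m ∈ F.support)
    {p : Fin 4 × Fin 2} (hp : p ∉ ({(0, 0), (2, 0), (2, 1)} : Finset (Fin 4 × Fin 2))) : m p = 0 := by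
  by_contra h
  exact hp (hF ((mem_vars_iff_mem_support p).2 ⟨m, hm, Finsupp.mem_support_iff.2 h⟩))

private theorem J10a_g_ex {b : ℕ} {m : Fin 4 × Fin 2 →₀ ℕ} (h : ∀ t : Fin 2, m (3, t) = 0) :
    J10a_g (J10a_ex b m) = m := by
  ext p
  unfold J10a_g J10a_ex
  by_cases h1 : p = (3, 1)
  · rw [h1, Finsupp.erase_same, h]
  · rw [Finsupp.erase_ne h1]
    by_cases h0 : p = (3, 0)
    · rw [h0, Finsupp.erase_same, h]
    · rw [Finsupp.erase_ne h0, Finsupp.add_apply, Finsupp.add_apply,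
        Finsupp.single_eq_of_ne h0, Finsupp.single_eq_of_ne h1, add_zero, add_zero]

private theorem J10a_coeff {K : Type*} [Field K] (b : ℕ) (F : MvPolynomial (Fin 4 × Fin 2) K)
    (h : ∀ m ∈ F.support, ∀ t : Fin 2, m (3, t) = 0) (m : Fin 4 × Fin 2 →₀ ℕ)
    (hm' : m ∈ F.support) : coeff (J10a_ex b m) (hm b F) = coeff m F := by
  classical
  rw [J10a_hm, coeff_sum, Finset.sum_eq_single m]
  · rw [coeff_monomial, if_pos rfl]
  · intro m' hm1 hne
    rw [coeff_monomial, if_neg]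
    intro he
    apply hne
    rw [← J10a_g_ex (b := b) (h m' hm1), he, J10a_g_ex (h m hm')]
  · intro h1
    exact absurd hm' h1

private theorem J10a_supp {K : Type*} [Field K] (b : ℕ) (F : MvPolynomial (Fin 4 × Fin 2) K)
    (n : Fin 4 × Fin 2 →₀ ℕ) (hn : n ∈ (hm b F).support) : ∃ m ∈ F.support, n = J10a_ex b m := by
  classical
  rw [mem_support_iff, J10a_hm, coeff_sum] at hn
  obtain ⟨m, hm1, hm2⟩ := Finset.exists_ne_zero_of_sum_ne_zero hn
  rw [coeff_monomial] at hm2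
  refine ⟨m, hm1, ?_⟩
  by_contra h
  rw [if_neg (Ne.symm h)] at hm2
  exact hm2 rfl

/-- the value of a monomial of the homogenised polynomial -/
private theorem J10a_val {K : Type*} [Field K] (b : ℕ) {F : MvPolynomial (Fin 4 × Fin 2) K}
    (hF : F.vars ⊆ {(0, 0), (2, 0), (2, 1)}) {A : Type*} [CommRing A] [Algebra K A]
    (s : Fin 4 × Fin 2 → A) {m : Fin 4 × Fin 2 →₀ ℕ} (hm : m ∈ F.support) (c : K) :
    aeval s (monomial (J10a_ex b m) c) = algebraMap K A c * (s (0, 0) ^ m (0, 0) *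
      (s (2, 0) ^ m (2, 0) * s (3, 0) ^ (b - m (2, 0))) *
      (s (2, 1) ^ m (2, 1) * s (3, 1) ^ (b - m (2, 1)))) := by
  have h0 : ∀ p : Fin 4 × Fin 2, p ∉ ({(0, 0), (2, 0), (2, 1)} : Finset (Fin 4 × Fin 2)) →
      m p = 0 := fun p hp => J10a_zero hF hm hp
  rw [J10a_ex, monomial_add_single, monomial_add_single, map_mul, map_mul, map_pow, map_pow,
    aeval_X, aeval_X, aeval_monomial, Finsupp.prod_fintype _ _ (fun _ => pow_zero _),
    Fintype.prod_prod_type, Fin.prod_univ_four]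
  simp only [Fin.prod_univ_two]
  rw [h0 (0, 1) (by decide), h0 (1, 0) (by decide), h0 (1, 1) (by decide), h0 (3, 0) (by decide),
    h0 (3, 1) (by decide)]
  ring

section

variable {K : Type*} [Field K] (b : ℕ) (F : MvPolynomial (Fin 4 × Fin 2) K)
  (hF : F.vars ⊆ {(0, 0), (2, 0), (2, 1)}) (hb : ∀ t, F.degreeOf (2, t) ≤ b)

include hF

/-- Only the exponents at `(0, 0)`, `(2, 0)`, `(2, 1)` occur in `F`; `m ↦ m + ..` is injective on the
support of `F`, since it only changes the exponents at `(3, t)`. -/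
theorem hm_coeff (m : Fin 4 × Fin 2 →₀ ℕ) (hm' : m ∈ F.support) :
    coeff (m + Finsupp.single (3, 0) (b - m (2, 0)) + Finsupp.single (3, 1) (b - m (2, 1)))
      (hm b F) = coeff m F :=
  J10a_coeff b F (fun m hm t => J10a_zero hF hm (by fin_cases t <;> decide)) m hm'

theorem NV_hm (v : AbsoluteValue K ℝ) : NV v (hm b F) = NV v F := by
  have h3 : ∀ m ∈ F.support, ∀ t : Fin 2, m (3, t) = 0 :=
    fun m hm t => J10a_zero hF hm (by fin_cases t <;> decide)
  have hg : ∀ n ∈ (hm b F).support, J10a_g n ∈ F.support ∧ n = J10a_ex b (J10a_g n) := by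
    intro n hn
    obtain ⟨m, hm1, rfl⟩ := J10a_supp b F n hn
    rw [J10a_g_ex (h3 m hm1)]
    exact ⟨hm1, rfl⟩
  refine le_antisymm ?_ ?_
  · refine NV_le_of_injOn v F (hm b F) J10a_g ?_ ?_
    · intro n hn n' hn' he
      rw [(hg n hn).2, (hg n' hn').2, he]
    · intro n hn
      obtain ⟨h1, h2⟩ := hg n hn
      conv_lhs => rw [h2]
      exact J10a_coeff b F h3 _ h1
  · refine NV_le_of_injOn v (hm b F) F (J10a_ex b) ?_ ?_
    · intro m hm1 m' hm1' he
      rw [← J10a_g_ex (b := b) (h3 m hm1), he, J10a_g_ex (h3 m' hm1')]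
    · intro m hm1
      exact (J10a_coeff b F h3 m hm1).symm

/-- Dehomogenisation. -/
theorem aeval_hm_one {A : Type*} [CommRing A] [Algebra K A] (s : Fin 4 × Fin 2 → A)
    (h : ∀ t, s (3, t) = 1) : aeval s (hm b F) = aeval s F := by
  conv_rhs => rw [F.as_sum]
  rw [J10a_hm, map_sum, map_sum]
  refine Finset.sum_congr rfl fun m _ => ?_
  rw [J10a_ex, monomial_add_single, monomial_add_single, map_mul, map_mul, map_pow, map_pow,
    aeval_X, aeval_X, h, h, one_pow, one_pow, mul_one, mul_one]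

include hb

/-- Homogeneity. Every monomial of `hm b F` has degree `b` in `X (2, t)`, `X (3, t)` together. -/
theorem aeval_hm_scale {A : Type*} [CommRing A] [Algebra K A] (s s' : Fin 4 × Fin 2 → A)
    (l : Fin 2 → A) (h0 : s' (0, 0) = s (0, 0)) (h2 : ∀ t, s' (2, t) = l t * s (2, t))
    (h3 : ∀ t, s' (3, t) = l t * s (3, t)) :
    aeval s' (hm b F) = (l 0 * l 1) ^ b * aeval s (hm b F) := by
  rw [J10a_hm, map_sum, map_sum, Finset.mul_sum]
  refine Finset.sum_congr rfl fun m hm1 => ?_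
  have hj : ∀ t, m (2, t) ≤ b := fun t => (monomial_le_degreeOf (2, t) hm1).trans (hb t)
  rw [J10a_val b hF s' hm1, J10a_val b hF s hm1, h0, h2, h2, h3, h3, mul_pow, mul_pow, mul_pow,
    mul_pow, mul_pow]
  have e0 : l 0 ^ b = l 0 ^ m (2, 0) * l 0 ^ (b - m (2, 0)) := by
    rw [← pow_add, Nat.add_sub_cancel' (hj 0)]
  have e1 : l 1 ^ b = l 1 ^ m (2, 1) * l 1 ^ (b - m (2, 1)) := by
    rw [← pow_add, Nat.add_sub_cancel' (hj 1)]
  rw [e0, e1]
  ring

/-- Size of a value of the homogenised polynomial: as in `SN.aeval_le` (A3), every monomial of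
`hm b F` is of the form `X (0,0)^i * ∏_t X (2,t)^(j_t) * X (3,t)^(b - j_t)` with `i ≤ d`, so its value has size at
most `(max 1 (ν (s (0, 0))))^d * ∏_t (Y t)^b`. Sum with `SN.sum_le_sum` (archimedean: the sum of the
`v (coeff m F)` is `NV v F`) or `SN.sum_le_max`. -/
theorem hm_size {v : AbsoluteValue K ℝ} {A : Type*} [CommRing A] [Algebra K A] {ν : A → ℝ}
    (h : SN v ν) (s : Fin 4 × Fin 2 → A) (d : ℕ) (hd : F.degreeOf (0, 0) ≤ d) (Y : Fin 2 → ℝ)
    (h2 : ∀ t, ν (s (2, t)) ≤ Y t) (h3 : ∀ t, ν (s (3, t)) ≤ Y t) :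
    ν (aeval s (hm b F)) ≤ NV v F * max 1 (ν (s (0, 0))) ^ d * (Y 0 * Y 1) ^ b := by
  have hY : ∀ t, 0 ≤ Y t := fun t => (h.nonneg _).trans (h2 t)
  have hM : (1 : ℝ) ≤ max 1 (ν (s (0, 0))) := le_max_left _ _
  have hP : 0 ≤ max 1 (ν (s (0, 0))) ^ d * (Y 0 * Y 1) ^ b :=
    mul_nonneg (pow_nonneg (zero_le_one.trans hM) _) (pow_nonneg (mul_nonneg (hY 0) (hY 1)) _)
  have hterm : ∀ m ∈ F.support, ν (aeval s (monomial (J10a_ex b m) (coeff m F))) ≤
      v (coeff m F) * (max 1 (ν (s (0, 0))) ^ d * (Y 0 * Y 1) ^ b) := by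
    intro m hm1
    have hj : ∀ t, m (2, t) ≤ b := fun t => (monomial_le_degreeOf (2, t) hm1).trans (hb t)
    rw [J10a_val b hF s hm1]
    refine (h.mul _ _).trans (mul_le_mul (h.map _) ?_ (h.nonneg _) (v.nonneg _))
    have hcol : ∀ t, ν (s (2, t) ^ m (2, t) * s (3, t) ^ (b - m (2, t))) ≤ Y t ^ b := by
      intro t
      have e : Y t ^ b = Y t ^ m (2, t) * Y t ^ (b - m (2, t)) := by
        rw [← pow_add, Nat.add_sub_cancel' (hj t)]
      rw [e]
      refine (h.mul _ _).trans (mul_le_mul ?_ ?_ (h.nonneg _) (pow_nonneg (hY t) _))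
      · exact (h.pow_le _ _).trans (pow_le_pow_left₀ (h.nonneg _) (h2 t) _)
      · exact (h.pow_le _ _).trans (pow_le_pow_left₀ (h.nonneg _) (h3 t) _)
    have h00 : ν (s (0, 0) ^ m (0, 0)) ≤ max 1 (ν (s (0, 0))) ^ d :=
      (h.pow_le _ _).trans ((pow_le_pow_left₀ (h.nonneg _) (le_max_right 1 _) _).trans
        (pow_le_pow_right₀ hM ((monomial_le_degreeOf (0, 0) hm1).trans hd)))
    have e : max 1 (ν (s (0, 0))) ^ d * (Y 0 * Y 1) ^ b =
        max 1 (ν (s (0, 0))) ^ d * Y 0 ^ b * Y 1 ^ b := by rw [mul_pow, mul_assoc]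
    rw [e]
    refine (h.mul _ _).trans (mul_le_mul ?_ (hcol 1) (h.nonneg _)
      (mul_nonneg (pow_nonneg (zero_le_one.trans hM) _) (pow_nonneg (hY 0) _)))
    exact (h.mul _ _).trans (mul_le_mul h00 (hcol 0) (h.nonneg _)
      (pow_nonneg (zero_le_one.trans hM) _))
  rw [J10a_hm, map_sum, mul_assoc]
  by_cases hv : IsNonarchimedean v
  · refine SN.sum_le_max hv h _ _ (mul_nonneg ((v.nonneg _).trans (coeff_le_NV v F 0)) hP)
      fun m hm1 => ?_
    exact (hterm m hm1).trans (mul_le_mul_of_nonneg_right (coeff_le_NV v F m) hP)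
  · refine (h.sum_le_sum _ _).trans ?_
    refine (Finset.sum_le_sum hterm).trans (le_of_eq ?_)
    rw [← Finset.sum_mul]
    congr 1
    unfold NV
    rw [if_neg hv]

end

end Pool.Agent.Lib.MP_17a322_nt.VJ
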