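import Pool.Agent.Lib.MP_17a322_nt.VJ.J0
import Pool.Agent.Lib.MP_17a322_nt.VJ.E3

/-!
The affine coordinate of a branch, and power series in `T = X - α`.
-/

universe u

namespace Pool.Agent.Lib.MP_17a322_nt.VJ

open MvPolynomial Height
open Pool.Agent.Lib.MP_17a322_nt.RO

/-- The affine coordinate `ζ` of the two proportional columns `ξ 0`, `ξ 1`.
Proof. Choose `k₀` with `qb k₀ ≠ 0`. The constant coefficient of `ξ k₀ j`, `j = if c then 0 else 1`, is
`γ * (qb k₀ * q j) ≠ 0`, so `ξ k₀ j` is a unit (`PowerSeries.isUnit_iff_constantCoeff` or similar). Put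
`ζ = ξ k₀ i * (ξ k₀ j)⁻¹`, `i = if c then 1 else 0`. For `k = k₀` the claim is clear, for the other `k` use `h` (in
both cases `c`) and cancel the unit. `ξ k₀ = ξ k₀ j • vc c ζ`, so `S3_smul` (with factors `1`, `1`,
`ξ k₀ j`) gives `0 = (ξ k₀ j) ^ 2 * S3 W R Q (vc c ζ)`. -/
theorem affine_coord {K : Type*} [Field K] (W : WeierstrassCurve K) (c : Bool)
    (R Q : Fin 2 → PowerSeries K) (ξ : Fin 2 → Fin 2 → PowerSeries K) (γ : K) (qb q : Fin 2 → K)
    (h : ξ 0 0 * ξ 1 1 = ξ 0 1 * ξ 1 0) (hγ : γ ≠ 0) (hqb : qb ≠ 0)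
    (hq : q (if c then 0 else 1) ≠ 0)
    (h0 : ∀ k i, PowerSeries.constantCoeff (ξ k i) = γ * (qb k * q i))
    (hS : ∀ k, S3 W R Q (ξ k) = 0) :
    ∃ ζ : PowerSeries K, (∀ k, ξ k (if c then 1 else 0) = ξ k (if c then 0 else 1) * ζ) ∧
      S3 W R Q (vc c ζ) = 0 := by
  obtain ⟨k₀, hk₀⟩ := Function.ne_iff.1 hqb
  have hU0 : PowerSeries.constantCoeff (ξ k₀ (if c then 0 else 1)) ≠ 0 := by
    rw [h0]
    exact mul_ne_zero hγ (mul_ne_zero hk₀ hq)
  have hUU : ξ k₀ (if c then 0 else 1) * (ξ k₀ (if c then 0 else 1))⁻¹ = 1 :=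
    PowerSeries.mul_inv_cancel _ hU0
  have hne : ξ k₀ (if c then 0 else 1) ≠ 0 := by
    intro h1
    rw [h1, map_zero] at hU0
    exact hU0 rfl
  have hprop : ∀ k, ξ k (if c then 1 else 0) * ξ k₀ (if c then 0 else 1) =
      ξ k (if c then 0 else 1) * ξ k₀ (if c then 1 else 0) := by
    intro k
    fin_cases k <;> fin_cases k₀ <;> cases c <;>
      simp only [Bool.false_eq_true, if_false, if_true, Fin.zero_eta, Fin.mk_one, Fin.isValue] <;>
      first
        | exact mul_comm _ _
        | linear_combination h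
        | linear_combination -h
  have hz : ∀ k, ξ k (if c then 1 else 0) = ξ k (if c then 0 else 1) *
      (ξ k₀ (if c then 1 else 0) * (ξ k₀ (if c then 0 else 1))⁻¹) := by
    intro k
    rw [← mul_assoc, ← hprop k, mul_assoc, hUU, mul_one]
  refine ⟨ξ k₀ (if c then 1 else 0) * (ξ k₀ (if c then 0 else 1))⁻¹, hz, ?_⟩
  have hz0 := hz k₀
  set ζ := ξ k₀ (if c then 1 else 0) * (ξ k₀ (if c then 0 else 1))⁻¹ with hζ
  set U := ξ k₀ (if c then 0 else 1) with hU
  have hξ : ξ k₀ = U • vc c ζ := by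
    cases c
    · simp only [Bool.false_eq_true, if_false] at hz0 hU
      ext1 i
      fin_cases i
      · show ξ k₀ 0 = U * (![ζ, 1] : Fin 2 → PowerSeries K) 0
        rw [hz0]
        rfl
      · show ξ k₀ 1 = U * (![ζ, 1] : Fin 2 → PowerSeries K) 1
        rw [hU]
        exact (mul_one _).symm
    · simp only [if_true] at hz0 hU
      ext1 i
      fin_cases i
      · show ξ k₀ 0 = U * (![1, ζ] : Fin 2 → PowerSeries K) 0
        rw [hU]
        exact (mul_one _).symm
      · show ξ k₀ 1 = U * (![1, ζ] : Fin 2 → PowerSeries K) 1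
        rw [hz0]
        rfl
  have h1 := S3_smul W 1 1 U R Q (vc c ζ)
  rw [one_smul, one_smul, ← hξ, hS k₀] at h1
  rcases mul_eq_zero.1 h1.symm with h2 | h2
  · rw [one_mul, one_mul] at h2
    exact absurd (pow_eq_zero_iff two_ne_zero |>.1 h2) hne
  · exact h2

/-- a polynomial in one variable `y`, and its substitution -/
private theorem J10b_key {K σ : Type*} [Field K] [DecidableEq σ] (y : σ) (α : K)
    (G : MvPolynomial σ K) (hG : G.vars ⊆ {y}) (s : σ → PowerSeries K)
    (hs : s y = PowerSeries.X + PowerSeries.C α) :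
    ∃ p : Polynomial K, G = Polynomial.aeval (X y : MvPolynomial σ K) p ∧
      aeval s G = ((p.comp (Polynomial.X + Polynomial.C α) : Polynomial K) : PowerSeries K) := by
  have h1 : G = Polynomial.aeval (X y : MvPolynomial σ K)
      (aeval (fun _ => (Polynomial.X : Polynomial K)) G) := by
    have h2 := hom_congr_vars (f₁ := RingHom.id (MvPolynomial σ K))
      (f₂ := ((Polynomial.aeval (X y : MvPolynomial σ K) : Polynomial K →ₐ[K] _).comp
        (aeval (fun _ => (Polynomial.X : Polynomial K)) : MvPolynomial σ K →ₐ[K] _)).toRingHom)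
      (p₁ := G) (p₂ := G) (by
        ext a
        simp) (by
        intro i hi _
        have := hG hi
        rw [Finset.mem_singleton] at this
        rw [this]
        simp) rfl
    exact h2
  refine ⟨_, h1, ?_⟩
  set p : Polynomial K := aeval (fun _ => (Polynomial.X : Polynomial K)) G with hp
  conv_lhs => rw [h1]
  have h3 : aeval s (Polynomial.aeval (X y : MvPolynomial σ K) p) =
      Polynomial.aeval (s y) p := by
    rw [← Polynomial.aeval_algHom_apply, aeval_X]
  rw [h3, hs]
  have h4 : (PowerSeries.X + PowerSeries.C α : PowerSeries K) =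
      Polynomial.coeToPowerSeries.algHom K (Polynomial.X + Polynomial.C α : Polynomial K) := by
    rw [Polynomial.coeToPowerSeries.algHom_apply]
    simp
  rw [h4, Polynomial.aeval_algHom_apply, Polynomial.coeToPowerSeries.algHom_apply,
    Polynomial.comp_eq_aeval]
  simp

/-- Divisibility by `(X y - α) ^ n` and by `T ^ n` after the substitution `X y ↦ α + T`.
Proof. `G` involves only `X y`: `G = aeval (X y) p` for a `p : Polynomial K` (`p = ∑ coeff m G • X ^ (m y)`), and
`aeval s G = aeval (T + α) p`. `(Polynomial.X - C α) ^ n ∣ p` iff `T ^ n` divides `p.comp (X + C α)`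
(`Polynomial.X_pow_dvd_iff`, `Polynomial.taylor`, `X_sub_C_pow_dvd_iff`), iff the power series with these
coefficients is divisible by `T ^ n` (`PowerSeries.X_pow_dvd_iff`, `Polynomial.coeff_coe`). -/
theorem dvd_of_branch {K σ : Type*} [Field K] [DecidableEq σ] (y : σ) (α : K)
    (G : MvPolynomial σ K) (hG : G.vars ⊆ {y}) (s : σ → PowerSeries K)
    (hs : s y = PowerSeries.X + PowerSeries.C α) (n : ℕ)
    (h : (PowerSeries.X : PowerSeries K) ^ n ∣ aeval s G) :
    (X y - C α : MvPolynomial σ K) ^ n ∣ G := by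
  obtain ⟨p, hp, hp'⟩ := J10b_key y α G hG s hs
  rw [hp', PowerSeries.X_pow_dvd_iff] at h
  have h1 : (Polynomial.X : Polynomial K) ^ n ∣ p.comp (Polynomial.X + Polynomial.C α) := by
    rw [Polynomial.X_pow_dvd_iff]
    intro d hd
    have h2 := h d hd
    rwa [Polynomial.coeff_coe] at h2
  obtain ⟨r, hr⟩ := h1
  have h2 : p = (Polynomial.X - Polynomial.C α) ^ n *
      r.comp (Polynomial.X - Polynomial.C α) := by
    have h3 := congrArg (fun u => Polynomial.comp u (Polynomial.X - Polynomial.C α)) hr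
    simp only [Polynomial.comp_assoc, Polynomial.add_comp, Polynomial.X_comp, Polynomial.C_comp,
      Polynomial.mul_comp, Polynomial.pow_comp, sub_add_cancel, Polynomial.comp_X] at h3
    exact h3
  refine ⟨Polynomial.aeval (X y) (r.comp (Polynomial.X - Polynomial.C α)), ?_⟩
  conv_lhs => rw [hp, h2]
  rw [map_mul, map_pow, map_sub, Polynomial.aeval_X, Polynomial.aeval_C]
  rfl

/-- A nonzero polynomial in `X y` does not vanish at `X y ↦ α + T`. -/
theorem branch_ne_zero {K σ : Type*} [Field K] [DecidableEq σ] (y : σ) (α : K)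
    (G : MvPolynomial σ K) (hG : G.vars ⊆ {y}) (hG0 : G ≠ 0) (s : σ → PowerSeries K)
    (hs : s y = PowerSeries.X + PowerSeries.C α) : aeval s G ≠ 0 := by
  obtain ⟨p, hp, hp'⟩ := J10b_key y α G hG s hs
  intro h
  rw [hp'] at h
  have h1 : p.comp (Polynomial.X + Polynomial.C α) = 0 := by
    rwa [Polynomial.coe_eq_zero_iff] at h
  have h2 : p = 0 := by
    have h3 := congrArg (fun u => Polynomial.comp u (Polynomial.X - Polynomial.C α)) h1
    simp only [Polynomial.comp_assoc, Polynomial.add_comp, Polynomial.X_comp, Polynomial.C_comp,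
      sub_add_cancel, Polynomial.comp_X, Polynomial.zero_comp] at h3
    exact h3
  rw [h2, map_zero] at hp
  exact hG0 hp

end Pool.Agent.Lib.MP_17a322_nt.VJ
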