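import Pool.Agent.Lib.MP_17a322_nt.VJ.J1b
import Pool.Agent.Lib.MP_17a322_nt.VJ.J10a
import Pool.Agent.Lib.MP_17a322_nt.VJ.J10b

/-!
The leading coefficients of `B` and `F` along the branch.
-/

universe u

namespace Pool.Agent.Lib.MP_17a322_nt.VJ

open MvPolynomial Height
open Pool.Agent.Lib.MP_17a322_nt.RO

private theorem J10c_coeff {K : Type*} [Field K] (φ ψ : PowerSeries K) (n : ℕ)
    (h : (PowerSeries.X : PowerSeries K) ^ n ∣ φ) :
    PowerSeries.coeff n (ψ * φ) = PowerSeries.constantCoeff ψ * PowerSeries.coeff n φ := by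
  obtain ⟨w, rfl⟩ := h
  have h1 : ψ * (PowerSeries.X ^ n * w) = PowerSeries.X ^ n * (ψ * w) := by ring
  have h2 := PowerSeries.coeff_X_pow_mul (ψ * w) n 0
  have h3 := PowerSeries.coeff_X_pow_mul w n 0
  rw [zero_add] at h2 h3
  rw [h1, h2, h3, PowerSeries.coeff_zero_eq_constantCoeff_apply,
    PowerSeries.coeff_zero_eq_constantCoeff_apply, map_mul]

private theorem J10c_first {K : Type*} [Field K] (φ : PowerSeries K) (h : φ ≠ 0) :
    ∃ n : ℕ, (PowerSeries.X : PowerSeries K) ^ n ∣ φ ∧ PowerSeries.coeff n φ ≠ 0 := by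
  classical
  have h1 : ∃ n, PowerSeries.coeff n φ ≠ 0 := by
    by_contra hcon
    push Not at hcon
    exact h (PowerSeries.ext fun n => by rw [hcon n, map_zero])
  refine ⟨Nat.find h1, PowerSeries.X_pow_dvd_iff.mpr fun m hm => ?_, Nat.find_spec h1⟩
  by_contra hne
  exact Nat.find_min h1 hm hne

private theorem J10c_congr {K σ A : Type*} [Field K] [CommRing A] [Algebra K A]
    (F : MvPolynomial σ K) (s s' : σ → A) (h : ∀ i ∈ F.vars, s i = s' i) :
    aeval s F = aeval s' F := by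
  refine hom_congr_vars (f₁ := (aeval s : MvPolynomial σ K →ₐ[K] A).toRingHom)
    (f₂ := (aeval s' : MvPolynomial σ K →ₐ[K] A).toRingHom) ?_ ?_ rfl
  · ext r
    simp
  · intro i hi _
    simpa using h i hi

private theorem J10c_vars {K : Type*} [Field K] (N : MvPolynomial (Fin 4 × Fin 2) K) (α : K)
    (hN : N.vars ⊆ {(0, 0), (1, 0)}) :
    (aeval (Function.update X ((1, 0) : Fin 4 × Fin 2) (C α)) N :
      MvPolynomial (Fin 4 × Fin 2) K).vars ⊆ {((0, 0) : Fin 4 × Fin 2)} := by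
  classical
  have h1 : (aeval (Function.update X ((1, 0) : Fin 4 × Fin 2) (C α)) N :
      MvPolynomial (Fin 4 × Fin 2) K).vars ⊆ _ :=
    vars_bind₁ (Function.update X ((1, 0) : Fin 4 × Fin 2) (C α)) N
  intro y hy
  have h3 := h1 hy
  rw [Finset.mem_biUnion] at h3
  obtain ⟨z, hz1, hz2⟩ := h3
  have h4 := hN hz1
  rw [Finset.mem_insert, Finset.mem_singleton] at h4
  rcases h4 with rfl | rfl
  · rw [Function.update_of_ne (by decide), vars_X] at hz2
    exact hz2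
  · rw [Function.update_self, vars_C] at hz2
    exact absurd hz2 (Finset.notMem_empty _)

private theorem J10c_sub {K : Type*} [Field K] (N : MvPolynomial (Fin 4 × Fin 2) K) (α : K)
    (s : Fin 4 × Fin 2 → PowerSeries K) (hs : s (1, 0) = PowerSeries.C α) :
    aeval s (aeval (Function.update X ((1, 0) : Fin 4 × Fin 2) (C α)) N :
      MvPolynomial (Fin 4 × Fin 2) K) = aeval s N := by
  classical
  have h1 : aeval s (aeval (Function.update X ((1, 0) : Fin 4 × Fin 2) (C α)) N :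
      MvPolynomial (Fin 4 × Fin 2) K) = _ :=
    aeval_bind₁ s (Function.update X ((1, 0) : Fin 4 × Fin 2) (C α)) N
  have h2 : (fun i => aeval s ((Function.update X ((1, 0) : Fin 4 × Fin 2) (C α) :
      Fin 4 × Fin 2 → MvPolynomial (Fin 4 × Fin 2) K) i)) = s := by
    funext i
    by_cases hi : i = (1, 0)
    · rw [hi, Function.update_self, hs, ← algebraMap_eq, AlgHom.commutes,
        PowerSeries.algebraMap_apply]
      rfl
    · rw [Function.update_of_ne hi, aeval_X]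
  rw [h2] at h1
  exact h1

/-- The leading coefficients along the branch (9.5), (9.7).
Proof. Let `j t = if c t then 0 else 1`, `α = a 0`, `α' = a' 0`, `T = PowerSeries.X`. By `affine_coord`
(`R = mu (W t) e ![x t, 1]`, `Q = ![C (a' t), 1]`) there are `ζ t` with `ξ t k (1 - j t) = ξ t k (j t) * ζ t` and
`S3 .. (vc (c t) (ζ t)) = 0`.
(1) Let `s₃ p = x p.2` if `p.1 = 0`, `ζ p.2` if `p.1 = 2`, `C (a' p.2)` otherwise. `aeval s₃ (QQ ..) = 0` by
`aeval_QQ_eq_zero` (`hx`, and `aeval (fun t => C (a' t)) g' = C (aeval a' g') = 0`). The value of `F`, `B` at `s₃`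
depends only on the values at `(0, 0)`, `(2, t)` (`hF`, `hB`; `MvPolynomial.eval₂Hom_congr'` or
`aeval_eq_aeval_of_vars`-like lemma; `aeval_hm_one` also helps). So `f := aeval s₃ F = (x 0 ^ k - C cc) * β`,
`β := aeval s₃ B`.
(2) `aeval_dvd_NN` at `s₃` (the value at `(1, t)` is `C (a' t)`): `f ∣ aeval s₃ (NN ..)`. Let
`G = aeval (Function.update X (1, 0) (C α')) (NN ..) ≠ 0` (`hN`), `G.vars ⊆ {(0, 0)}` (`NN_vars`), and
`aeval s₃ (NN ..) = aeval s₃ G ≠ 0` (`branch_ne_zero`). So `f ≠ 0`; let `n` be its order: `f = T ^ n * u` with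
`constantCoeff u ≠ 0` (`PowerSeries.eq_X_pow_mul_shift`.. or `order` API, or `PowerSeries.X_pow_order_mul`..).
`T ^ n ∣ aeval s₃ G` and `dvd_of_branch` give the last statement.
(3) `constantCoeff (x 0 ^ k - C cc) = α ^ k - cc ≠ 0`: this series is a unit, so `β = T ^ n * u'`,
`constantCoeff u' ≠ 0`, and `coeff n f = (α ^ k - cc) * coeff n β`.
(4) The point `bp c x ξ κ` is obtained from the point `s₄` (`= s₃` but `1` at `(3, t)`) by scaling with
`l t = ξ t (κ t) (j t)`: by `aeval_hm_scale` and `aeval_hm_one`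
`aeval (bp c x ξ κ) (hm b B) = (l 0 * l 1) ^ b * β`, same for `F` and `f`. The constant coefficient of `l t` is
`γ t * (qb t (κ t) * q t (j t))`. So the coefficients of `T ^ n` are
`y κ = (∏_t γ t * q t (j t)) ^ b * coeff n β * ∏_t (qb t (κ t)) ^ b`, and `(α ^ k - cc) * y κ`.
`y₀ = (∏_t γ t * q t (j t)) ^ b * coeff n β`. -/
theorem exists_y {K : Type u} [Field K] (W : Fin 2 → WeierstrassCurve K) (e : ℕ)
    (c : Fin 2 → Bool) (g g' : MvPolynomial (Fin 2) K) (hg : g.degreeOf 1 ≠ 0)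
    (hg' : g'.degreeOf 1 ≠ 0) (F A B : MvPolynomial (Fin 4 × Fin 2) K) (b k cc : ℕ)
    (hF : F.vars ⊆ {(0, 0), (2, 0), (2, 1)}) (hB : B.vars ⊆ {(0, 0), (2, 0), (2, 1)})
    (hFb : ∀ t, F.degreeOf (2, t) ≤ b) (hBb : ∀ t, B.degreeOf (2, t) ≤ b)
    (hFAB : F = QQ W e c g g' * A + (X (0, 0) ^ k - C (cc : K)) * B)
    (a a' : Fin 2 → K) (hc : a 0 ^ k ≠ (cc : K)) (ha' : aeval a' g' = 0)
    (hN : aeval (Function.update X ((1, 0) : Fin 4 × Fin 2) (C (a' 0))) (NN W e c g g' F) ≠ 0)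
    (x : Fin 2 → PowerSeries K) (ξ : Fin 2 → Fin 2 → Fin 2 → PowerSeries K) (γ : Fin 2 → K)
    (qb q : Fin 2 → Fin 2 → K) (hx0 : x 0 = PowerSeries.X + PowerSeries.C (a 0))
    (hx : aeval x g = 0)
    (hS : ∀ t k, S3 (W t) (mu (W t) e ![x t, 1]) ![PowerSeries.C (a' t), 1] (ξ t k) = 0)
    (hξ : ∀ t, ξ t 0 0 * ξ t 1 1 = ξ t 0 1 * ξ t 1 0) (hγ : ∀ t, γ t ≠ 0)
    (hqb : ∀ t, qb t ≠ 0) (hq : ∀ t, q t (if c t then 0 else 1) ≠ 0)
    (h0 : ∀ t k i, PowerSeries.constantCoeff (ξ t k i) = γ t * (qb t k * q t i)) :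
    ∃ (n : ℕ) (y₀ : K), y₀ ≠ 0 ∧
      (∀ κ : Fin 2 → Fin 2, PowerSeries.coeff n (aeval (bp c x ξ κ) (hm b B)) =
        y₀ * (qb 0 (κ 0) * qb 1 (κ 1)) ^ b) ∧
      (∀ κ : Fin 2 → Fin 2, PowerSeries.coeff n (aeval (bp c x ξ κ) (hm b F)) =
        (a 0 ^ k - (cc : K)) * (y₀ * (qb 0 (κ 0) * qb 1 (κ 1)) ^ b)) ∧
      (X (0, 0) - C (a 0)) ^ n ∣
        aeval (Function.update X ((1, 0) : Fin 4 × Fin 2) (C (a' 0))) (NN W e c g g' F) := by
  classical
  have hz : ∀ t, ∃ ζ : PowerSeries K,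
      (∀ k, ξ t k (if c t then 1 else 0) = ξ t k (if c t then 0 else 1) * ζ) ∧
      S3 (W t) (mu (W t) e ![x t, 1]) ![PowerSeries.C (a' t), 1] (vc (c t) ζ) = 0 := fun t =>
    affine_coord (W t) (c t) (mu (W t) e ![x t, 1]) ![PowerSeries.C (a' t), 1] (ξ t) (γ t) (qb t)
      (q t) (hξ t) (hγ t) (hqb t) (hq t) (h0 t) (hS t)
  choose ζ hζ1 hζ2 using hz
  -- the point `s₃`
  set s₃ : Fin 4 × Fin 2 → PowerSeries K := fun p =>
    if p.1 = 0 then x p.2 else if p.1 = 2 then ζ p.2 else PowerSeries.C (a' p.2) with hs₃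
  have e0 : ∀ t, s₃ (0, t) = x t := fun t => by simp [hs₃]
  have e1 : ∀ t, s₃ (1, t) = PowerSeries.C (a' t) := fun t => by simp [hs₃]
  have e2 : ∀ t, s₃ (2, t) = ζ t := fun t => by simp [hs₃]
  have e3 : ∀ t, s₃ (3, t) = PowerSeries.C (a' t) := fun t => by simp [hs₃]
  have hCa : aeval (fun t => (PowerSeries.C (a' t) : PowerSeries K)) g' = 0 := by
    have h1 := aeval_algebraMap_apply (PowerSeries K) a' g'
    rw [ha', map_zero] at h1
    have h2 : (algebraMap K (PowerSeries K) ∘ a') =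
        fun t => (PowerSeries.C (a' t) : PowerSeries K) := by
      funext t
      simp
    rw [h2] at h1
    exact h1
  have hx' : aeval (fun t => s₃ (0, t)) g = 0 := by
    have h1 : (fun t => s₃ (0, t)) = x := funext e0
    rw [h1]
    exact hx
  have h31 : aeval (fun t => s₃ (1, t)) g' = 0 := by
    have h1 : (fun t => s₃ (1, t)) = fun t => (PowerSeries.C (a' t) : PowerSeries K) := funext e1
    rw [h1]
    exact hCa
  have h33 : aeval (fun t => s₃ (3, t)) g' = 0 := by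
    have h1 : (fun t => s₃ (3, t)) = fun t => (PowerSeries.C (a' t) : PowerSeries K) := funext e3
    rw [h1]
    exact hCa
  have hr1 : ∀ t, S3 (W t) (mu (W t) e ![s₃ (0, t), 1]) ![s₃ (1, t), 1]
      (vc (c t) (s₃ (2, t))) = 0 := fun t => by
    rw [e0, e1, e2]
    exact hζ2 t
  have hr3 : ∀ t, S3 (W t) (mu (W t) e ![s₃ (0, t), 1]) ![s₃ (3, t), 1]
      (vc (c t) (s₃ (2, t))) = 0 := fun t => by
    rw [e0, e3, e2]
    exact hζ2 t
  have hQ : aeval s₃ (QQ W e c g g') = 0 := aeval_QQ_eq_zero W e c g g' hg s₃ hx' hr3 h33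
  have hdv : aeval s₃ F ∣ aeval s₃ (NN W e c g g' F) :=
    aeval_dvd_NN W e c g g' hg hg' F s₃ hx' hr1 h31
  set G : MvPolynomial (Fin 4 × Fin 2) K :=
    aeval (Function.update X ((1, 0) : Fin 4 × Fin 2) (C (a' 0))) (NN W e c g g' F) with hG
  have hGv : G.vars ⊆ {((0, 0) : Fin 4 × Fin 2)} :=
    J10c_vars (NN W e c g g' F) (a' 0) (NN_vars W e c g g' F hF)
  have hGs : aeval s₃ G = aeval s₃ (NN W e c g g' F) :=
    J10c_sub (NN W e c g g' F) (a' 0) s₃ (e1 0)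
  have hs00 : s₃ (0, 0) = PowerSeries.X + PowerSeries.C (a 0) := by rw [e0, hx0]
  have hG0 : aeval s₃ G ≠ 0 := branch_ne_zero (0, 0) (a 0) G hGv hN s₃ hs00
  have hf0 : aeval s₃ F ≠ 0 := by
    intro h1
    rw [h1, zero_dvd_iff, ← hGs] at hdv
    exact hG0 hdv
  obtain ⟨n, hn1, hn2⟩ := J10c_first _ hf0
  -- the unit
  set u : PowerSeries K := x 0 ^ k - PowerSeries.C (cc : K) with hu
  have hfu : aeval s₃ F = u * aeval s₃ B := by
    have h1 := congrArg (aeval s₃) hFAB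
    rw [map_add, map_mul, map_mul, hQ, zero_mul, zero_add] at h1
    rw [h1, map_sub, map_pow, aeval_X, e0, ← algebraMap_eq, AlgHom.commutes,
      PowerSeries.algebraMap_apply]
    rfl
  have hu0 : PowerSeries.constantCoeff u = a 0 ^ k - (cc : K) := by
    rw [hu, map_sub, map_pow, hx0, map_add]
    simp
  have hu1 : PowerSeries.constantCoeff u ≠ 0 := by
    rw [hu0]
    exact sub_ne_zero.mpr hc
  have huu : IsUnit u := PowerSeries.isUnit_iff_constantCoeff.mpr (isUnit_iff_ne_zero.mpr hu1)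
  have hβ : (PowerSeries.X : PowerSeries K) ^ n ∣ aeval s₃ B := by
    rw [hfu] at hn1
    exact (huu.dvd_mul_left).mp hn1
  have hfn : PowerSeries.coeff n (aeval s₃ F) =
      (a 0 ^ k - (cc : K)) * PowerSeries.coeff n (aeval s₃ B) := by
    rw [hfu, J10c_coeff _ _ _ hβ, hu0]
  have hβn : PowerSeries.coeff n (aeval s₃ B) ≠ 0 := by
    intro h1
    rw [hfn, h1, mul_zero] at hn2
    exact hn2 rfl
  -- the point `s₄`
  set s₄ : Fin 4 × Fin 2 → PowerSeries K := fun p =>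
    if p.1 = 0 then x p.2 else if p.1 = 2 then ζ p.2 else 1 with hs₄
  have d0 : ∀ t, s₄ (0, t) = x t := fun t => by simp [hs₄]
  have d2 : ∀ t, s₄ (2, t) = ζ t := fun t => by simp [hs₄]
  have d3 : ∀ t, s₄ (3, t) = 1 := fun t => by simp [hs₄]
  have b0 : ∀ κ : Fin 2 → Fin 2, ∀ t, bp c x ξ κ (0, t) = x t := fun κ t => by simp [bp]
  have b2 : ∀ κ : Fin 2 → Fin 2, ∀ t, bp c x ξ κ (2, t) =
      ξ t (κ t) (if c t then 1 else 0) := fun κ t => by simp [bp]
  have b3 : ∀ κ : Fin 2 → Fin 2, ∀ t, bp c x ξ κ (3, t) =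
      ξ t (κ t) (if c t then 0 else 1) := fun κ t => by simp [bp]
  have key : ∀ (H : MvPolynomial (Fin 4 × Fin 2) K), H.vars ⊆ {(0, 0), (2, 0), (2, 1)} →
      (∀ t, H.degreeOf (2, t) ≤ b) → (PowerSeries.X : PowerSeries K) ^ n ∣ aeval s₃ H →
      ∀ κ : Fin 2 → Fin 2, PowerSeries.coeff n (aeval (bp c x ξ κ) (hm b H)) =
        ((γ 0 * q 0 (if c 0 then 0 else 1)) * (γ 1 * q 1 (if c 1 then 0 else 1))) ^ b *
          PowerSeries.coeff n (aeval s₃ H) * (qb 0 (κ 0) * qb 1 (κ 1)) ^ b := by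
    intro H hH hHb hHn κ
    have h1 := aeval_hm_scale b H hH hHb s₄ (bp c x ξ κ)
      (fun t => ξ t (κ t) (if c t then 0 else 1)) (by rw [b0, d0])
      (fun t => by rw [b2, d2]; exact hζ1 t (κ t)) (fun t => by rw [b3, d3, mul_one])
    have h2 := aeval_hm_one b H hH s₄ d3
    have h3 : aeval s₄ H = aeval s₃ H := by
      refine J10c_congr H s₄ s₃ fun i hi => ?_
      have h4 := hH hi
      rw [Finset.mem_insert, Finset.mem_insert, Finset.mem_singleton] at h4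
      rcases h4 with rfl | rfl | rfl
      · rw [d0, e0]
      · rw [d2, e2]
      · rw [d2, e2]
    rw [h1, h2, h3, J10c_coeff _ _ _ hHn, map_pow, map_mul, h0, h0]
    ring
  refine ⟨n, ((γ 0 * q 0 (if c 0 then 0 else 1)) * (γ 1 * q 1 (if c 1 then 0 else 1))) ^ b *
      PowerSeries.coeff n (aeval s₃ B), ?_, ?_, ?_, ?_⟩
  · exact mul_ne_zero (pow_ne_zero _ (mul_ne_zero (mul_ne_zero (hγ 0) (hq 0))
      (mul_ne_zero (hγ 1) (hq 1)))) hβn
  · intro κ
    exact key B hB hBb hβ κ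
  · intro κ
    rw [key F hF hFb hn1 κ, hfn]
    ring
  · refine dvd_of_branch (0, 0) (a 0) G hGv s₃ hs00 n ?_
    rw [hGs]
    exact hn1.trans hdv

end Pool.Agent.Lib.MP_17a322_nt.VJ
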