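import Pool.Agent.Lib.MP_17a322_nt.VJ.J0
import Pool.Agent.Lib.MP_17a322_nt.VJ.A4

/-!
Height of the vector `y`, and the local inequality.
-/

universe u

namespace Pool.Agent.Lib.MP_17a322_nt.VJ

open MvPolynomial Height

/-- Proof. `logHeight_smul_eq_logHeight`, `logHeight_pow`-like lemma for the power (compare RV/K1b,
RV/K1a), `logHeight_fun_mul_eq` for the product `p i * p' j` indexed by pairs, and reindexing along
`(Fin 2 → Fin 2) ≃ Fin 2 × Fin 2` (`piFinTwoEquiv`, `logHeight_comp_equiv` or similar). -/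
theorem logHeight_y {L : Type*} [Field L] [AdmissibleAbsValues L] (b : ℕ) (y₀ : L) (hy : y₀ ≠ 0)
    (p p' : Fin 2 → L) (hp : p ≠ 0) (hp' : p' ≠ 0) :
    logHeight (fun κ : Fin 2 → Fin 2 => y₀ * (p (κ 0) * p' (κ 1)) ^ b) =
      b * (logHeight p + logHeight p') := by
  have e1 : (fun κ : Fin 2 → Fin 2 => y₀ * (p (κ 0) * p' (κ 1)) ^ b) =
      y₀ • (((fun a : Fin 2 × Fin 2 => p a.1 * p' a.2) ∘ finTwoArrowEquiv (Fin 2)) ^ b) := by
    ext κ
    rfl
  rw [e1, logHeight_smul_eq_logHeight _ hy, logHeight_pow, logHeight_comp_equiv,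
    logHeight_fun_mul_eq hp hp']

/-- The local inequality (9.7).
Proof. Let `m = max 1 (v α)`. Nonarchimedean `v` (all `cst` are `1`, `v cc ≤ 1`): if `v α > 1` then
`v (α ^ k - cc) = v α ^ k` (`k ≥ 1`), and `hF` divided by `v α ^ s` is the claim; if `v α ≤ 1` then `m = 1` and
`hB` is the claim. Otherwise (`cst v n = n`, `v cc ≤ cc`): if `v α ^ k ≥ 2 cc` then `v α ≥ 1`,
`v (α ^ k - cc) ≥ v α ^ k - cc ≥ v α ^ k / 2`, and `hF` gives
`v y r^n m^(k-s) ≤ 2^(s+1) NF YY`. If `v α ^ k < 2 cc` then `m ^ k ≤ 2 cc` and by `hB`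
`v y r^n m^(k-s) ≤ NB 2^dB m^(dB + k - s) YY ≤ NB 2^dB m^(w k + k) YY ≤ NB 2^dB (2 cc)^(w+1) YY`. -/
theorem local_y {K : Type*} [Field K] (v : AbsoluteValue K ℝ) (α y : K) (k s dB w n cc : ℕ)
    (hk : 1 ≤ k) (hs : s ≤ k) (hw : dB ≤ w * k) (hcc : 1 ≤ cc) (r NF NB YY : ℝ) (hr : 0 < r)
    (hNF : 0 ≤ NF) (hNB : 0 ≤ NB) (hYY : 0 ≤ YY)
    (hB : v y * r ^ n ≤ NB * (cst v 2 * max 1 (v α)) ^ dB * YY)
    (hF : v (α ^ k - (cc : K)) * v y * r ^ n ≤ NF * (cst v 2 * max 1 (v α)) ^ s * YY) :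
    v y * r ^ n * max 1 (v α) ^ (k - s) ≤
      max NF NB * YY * (cst v 2 ^ (dB + s + 1) * cst v (2 * cc) ^ (w + 1)) := by
  set A := v α with hA
  have hA0 : 0 ≤ A := v.nonneg α
  set m := max 1 A with hm
  have hm1 : 1 ≤ m := le_max_left _ _
  have hm0 : 0 < m := lt_of_lt_of_le one_pos hm1
  set T := v y * r ^ n with hT
  have hT0 : 0 ≤ T := mul_nonneg (v.nonneg y) (pow_nonneg hr.le n)
  have hF' : v (α ^ k - (cc : K)) * T ≤ NF * (cst v 2 * m) ^ s * YY := by
    rw [hT, ← mul_assoc]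
    exact hF
  have hmaxF : NF ≤ max NF NB := le_max_left _ _
  have hmaxB : NB ≤ max NF NB := le_max_right _ _
  have hmax0 : 0 ≤ max NF NB := hNF.trans hmaxF
  by_cases hna : IsNonarchimedean v
  · have hc : ∀ j, cst v j = 1 := by
      intro j
      unfold cst
      rw [if_pos hna]
    rw [hc] at hB hF'
    rw [hc, hc, one_pow, one_pow, mul_one, mul_one]
    rcases le_or_gt A 1 with h1 | h1
    · have hm' : m = 1 := max_eq_left h1
      rw [hm', one_pow, mul_one]
      rw [hm', mul_one, one_pow, mul_one] at hB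
      exact hB.trans (mul_le_mul_of_nonneg_right hmaxB hYY)
    · have hm' : m = A := max_eq_right h1.le
      rw [hm', one_mul] at hF'
      rw [hm']
      have hA' : 0 < A := one_pos.trans h1
      have hcc1 : v (cc : K) ≤ 1 := hna.apply_natCast_le_one
      have h2 : A ^ k ≤ v (α ^ k - (cc : K)) := by
        have h3 : A ^ k = v ((α ^ k - (cc : K)) + (cc : K)) := by
          rw [sub_add_cancel, map_pow]
        have h4 := hna (α ^ k - (cc : K)) (cc : K)
        rw [← h3] at h4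
        rcases le_max_iff.mp h4 with h5 | h5
        · exact h5
        · exact absurd (h5.trans hcc1) (not_le.mpr (one_lt_pow₀ h1 (by omega)))
      have h6 : A ^ s * (T * A ^ (k - s)) ≤ A ^ s * (max NF NB * YY) := by
        have h7 : A ^ s * (T * A ^ (k - s)) = A ^ k * T := by
          have : A ^ k = A ^ s * A ^ (k - s) := by
            rw [← pow_add, Nat.add_sub_cancel' hs]
          rw [this]
          ring
        rw [h7]
        calc A ^ k * T ≤ v (α ^ k - (cc : K)) * T := mul_le_mul_of_nonneg_right h2 hT0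
          _ ≤ NF * A ^ s * YY := hF'
          _ ≤ max NF NB * A ^ s * YY := by gcongr
          _ = A ^ s * (max NF NB * YY) := by ring
      exact le_of_mul_le_mul_left h6 (pow_pos hA' s)
  · have hc : ∀ j, cst v j = (j : ℝ) := by
      intro j
      unfold cst
      rw [if_neg hna]
    have hccR : (1 : ℝ) ≤ (cc : ℝ) := by exact_mod_cast hcc
    have hcc0 : (0 : ℝ) ≤ 2 * (cc : ℝ) := by linarith
    rw [hc] at hB hF'
    rw [hc, hc]
    push_cast at hB hF' ⊢
    have hC1 : (1 : ℝ) ≤ (2 * (cc : ℝ)) ^ (w + 1) := one_le_pow₀ (by linarith)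
    rcases le_or_gt (2 * (cc : ℝ)) (A ^ k) with h1 | h1
    · have hA1 : 1 ≤ A := by
        by_contra h
        rw [not_le] at h
        have := pow_le_one₀ (n := k) hA0 h.le
        linarith
      have hm' : m = A := max_eq_right hA1
      have hA' : 0 < A := lt_of_lt_of_le one_pos hA1
      rw [hm'] at hF' ⊢
      have hvcc : v (cc : K) ≤ (cc : ℝ) := v.apply_nat_le_self cc
      have h2 : A ^ k / 2 ≤ v (α ^ k - (cc : K)) := by
        have h3 : A ^ k ≤ v (α ^ k - (cc : K)) + v (cc : K) := by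
          have h4 := v.add_le (α ^ k - (cc : K)) (cc : K)
          rw [sub_add_cancel, map_pow] at h4
          exact h4
        linarith
      have h6 : A ^ s * (T * A ^ (k - s)) ≤ A ^ s * (max NF NB * YY * 2 ^ (s + 1)) := by
        have h7 : A ^ s * (T * A ^ (k - s)) = 2 * (A ^ k / 2 * T) := by
          have : A ^ k = A ^ s * A ^ (k - s) := by
            rw [← pow_add, Nat.add_sub_cancel' hs]
          rw [this]
          ring
        rw [h7]
        calc 2 * (A ^ k / 2 * T) ≤ 2 * (v (α ^ k - (cc : K)) * T) := by gcongr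
          _ ≤ 2 * (NF * (2 * A) ^ s * YY) := by gcongr
          _ ≤ 2 * (max NF NB * (2 * A) ^ s * YY) := by gcongr
          _ = A ^ s * (max NF NB * YY * 2 ^ (s + 1)) := by rw [mul_pow]; ring
      have h8 := le_of_mul_le_mul_left h6 (pow_pos hA' s)
      refine h8.trans ?_
      refine mul_le_mul_of_nonneg_left ?_ (mul_nonneg hmax0 hYY)
      calc (2 : ℝ) ^ (s + 1) = 2 ^ (s + 1) * 1 := (mul_one _).symm
        _ ≤ 2 ^ (dB + s + 1) * (2 * (cc : ℝ)) ^ (w + 1) := by
          refine mul_le_mul (pow_le_pow_right₀ (by norm_num) (by omega)) hC1 zero_le_one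
            (by positivity)
    · have hmk : m ^ k ≤ 2 * (cc : ℝ) := by
        rcases le_total A 1 with h | h
        · rw [hm, max_eq_left h, one_pow]
          linarith
        · rw [hm, max_eq_right h]
          exact h1.le
      have h9 : m ^ dB * m ^ (k - s) ≤ (2 * (cc : ℝ)) ^ (w + 1) := by
        calc m ^ dB * m ^ (k - s) = m ^ (dB + (k - s)) := (pow_add _ _ _).symm
          _ ≤ m ^ (k * (w + 1)) := pow_le_pow_right₀ hm1 (by
              have : dB + (k - s) ≤ w * k + k := by omega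
              calc dB + (k - s) ≤ w * k + k := this
                _ = k * (w + 1) := by ring)
          _ = (m ^ k) ^ (w + 1) := pow_mul _ _ _
          _ ≤ (2 * (cc : ℝ)) ^ (w + 1) := pow_le_pow_left₀ (pow_nonneg hm0.le k) hmk _
      calc T * m ^ (k - s) ≤ NB * (2 * m) ^ dB * YY * m ^ (k - s) := by gcongr
        _ = NB * YY * (2 ^ dB * (m ^ dB * m ^ (k - s))) := by rw [mul_pow]; ring
        _ ≤ NB * YY * (2 ^ dB * (2 * (cc : ℝ)) ^ (w + 1)) := by gcongr
        _ ≤ max NF NB * YY * (2 ^ (dB + s + 1) * (2 * (cc : ℝ)) ^ (w + 1)) := by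
          gcongr
          · norm_num
          · omega

end Pool.Agent.Lib.MP_17a322_nt.VJ
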