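import Pool.Agent.Lib.MP_17a322_nt.VJ.J10c
import Pool.Agent.Lib.MP_17a322_nt.VJ.J10d
import Pool.Agent.Lib.MP_17a322_nt.VJ.J9
import Pool.Agent.Lib.MP_17a322_nt.VJ.J5
import Pool.Agent.Lib.MP_17a322_nt.VJ.E6

/-!
The inequality (9.7).
-/

universe u

namespace Pool.Agent.Lib.MP_17a322_nt.VJ

open MvPolynomial Height
open Pool.Agent.Lib.MP_17a322_nt.RO

/-- Sum over all places of a local inequality. -/
private theorem J10e_sum {L : Type*} [Field L] [AdmissibleAbsValues L] {ι : Type*} [Finite ι]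
    [Nonempty ι] (y : ι → L) (hy : y ≠ 0) (r M Y : AbsoluteValue L ℝ → ℝ) (α : L)
    (n m b p q c : ℕ) (hc : 1 ≤ c) (hr : ∀ v, Pl v → 0 < r v) (hM : ∀ v, Pl v → 0 < M v)
    (hY : ∀ v, Pl v → 0 < Y v) (hrF : FS fun v => Real.log (r v))
    (hMF : FS fun v => Real.log (M v)) (hYF : FS fun v => Real.log (Y v))
    (h : ∀ v, Pl v → ∀ κ, v (y κ) * r v ^ n * max 1 (v α) ^ m ≤
      M v * Y v ^ b * (cst v 2 ^ p * cst v c ^ q)) :
    logHeight y + n * gs (fun v => Real.log (r v)) + m * logHeight₁ α ≤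
      gs (fun v => Real.log (M v)) + b * gs (fun v => Real.log (Y v)) +
        p * (totalWeight L * Real.log 2) + q * (totalWeight L * Real.log c) := by
  have h2 := gs_log_cst (L := L) (n := 2) (by norm_num)
  have hcc := gs_log_cst (L := L) (n := c) hc
  have f1 : FS (fun v : AbsoluteValue L ℝ => Real.log (⨆ i, v (y i))) := FS_log_iSup hy
  have f2 : FS (fun v : AbsoluteValue L ℝ => (n : ℝ) * Real.log (r v)) := FS_const_mul _ hrF
  have f3 : FS (fun v : AbsoluteValue L ℝ => (m : ℝ) * Real.log (max 1 (v α))) :=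
    FS_const_mul _ (FS_log_max α)
  have f5 : FS (fun v : AbsoluteValue L ℝ => (b : ℝ) * Real.log (Y v)) := FS_const_mul _ hYF
  have f6 : FS (fun v : AbsoluteValue L ℝ => (p : ℝ) * Real.log (cst v 2)) :=
    FS_const_mul _ (FS_log_cst 2)
  have f7 : FS (fun v : AbsoluteValue L ℝ => (q : ℝ) * Real.log (cst v c)) :=
    FS_const_mul _ (FS_log_cst c)
  have key := gs_le (FS_add (FS_add f1 f2) f3) (FS_add (FS_add (FS_add hMF f5) f6) f7) (by
    intro v hv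
    obtain ⟨κ, hκ⟩ := exists_eq_ciSup_of_finite (f := fun i => v (y i))
    have hpos : 0 < v (y κ) := by
      obtain ⟨i, hi⟩ := Function.ne_iff.mp hy
      rw [hκ]
      exact (v.pos hi).trans_le (Finite.le_ciSup_of_le i le_rfl)
    have hm : 0 < max 1 (v α) := lt_max_of_lt_left one_pos
    have hc2 : 0 < cst v 2 := zero_lt_one.trans_le (one_le_cst v (by norm_num))
    have hcc : 0 < cst v c := zero_lt_one.trans_le (one_le_cst v hc)
    have hrp := pow_pos (hr v hv) n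
    have hl := Real.log_le_log (by positivity) (h v hv κ)
    rw [Real.log_mul (by positivity) (by positivity), Real.log_mul hpos.ne' hrp.ne',
      Real.log_mul (mul_pos (hM v hv) (pow_pos (hY v hv) b)).ne' (by positivity),
      Real.log_mul (hM v hv).ne' (pow_pos (hY v hv) b).ne',
      Real.log_mul (pow_pos hc2 p).ne' (pow_pos hcc q).ne',
      Real.log_pow, Real.log_pow, Real.log_pow, Real.log_pow, Real.log_pow] at hl
    rw [← hκ]
    linarith)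
  rw [gs_add (FS_add f1 f2) f3, gs_add f1 f2, gs_add (FS_add (FS_add hMF f5) f6) f7,
    gs_add (FS_add hMF f5) f6, gs_add hMF f5, gs_const_mul, gs_const_mul, gs_const_mul,
    gs_const_mul, gs_const_mul, gs_log_iSup hy, gs_log_max] at key
  have h3 := mul_le_mul_of_nonneg_left h2 (Nat.cast_nonneg (α := ℝ) p)
  have h4 := mul_le_mul_of_nonneg_left hcc (Nat.cast_nonneg (α := ℝ) q)
  push_cast at h3
  linarith

/-- The vector `y`. -/
private theorem J10e_y_ne {K : Type*} [Field K] (b : ℕ) (y₀ : K) (hy : y₀ ≠ 0)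
    (p p' : Fin 2 → K) (hp : p ≠ 0) (hp' : p' ≠ 0) :
    (fun κ : Fin 2 → Fin 2 => y₀ * (p (κ 0) * p' (κ 1)) ^ b) ≠ 0 := by
  obtain ⟨i, hi⟩ := Function.ne_iff.mp hp
  obtain ⟨j, hj⟩ := Function.ne_iff.mp hp'
  intro h
  have h1 := congrFun h ![i, j]
  have h2 : y₀ * (p i * p' j) ^ b = 0 := h1
  exact mul_ne_zero hy (pow_ne_zero b (mul_ne_zero hi hj)) h2

/-- The sum of the logarithms of the bounds of the columns. -/
private theorem J10e_Y {K : Type u} [Field K] [NumberField K] [DecidableEq K]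
    (W : Fin 2 → WeierstrassCurve K) (P P' : ∀ t, (W t).toAffine.Point) (N e : ℕ) (cl : Fin 2 → ℝ)
    (hcl : ∀ t, gs (fun v : AbsoluteValue K ℝ => Real.log (lc (W t) v)) ≤ cl t)
    (Y : Fin 2 → AbsoluteValue K ℝ → ℝ)
    (hY : Y = fun t v => max 1 (v ((2 : K)⁻¹)) * (lc (W t) v ^ (N * 4 ^ e) *
            (vn v (P t).xRep ^ (2 * 4 ^ e) * vn v (P' t).xRep ^ 2))) :
    (∀ v, 0 < Y 0 v * Y 1 v) ∧ FS (fun v => Real.log (Y 0 v * Y 1 v)) ∧
      gs (fun v => Real.log (Y 0 v * Y 1 v)) ≤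
        2 * logHeight₁ ((2 : K)⁻¹) + N * 4 ^ e * (cl 0 + cl 1) + 2 * 4 ^ e * HH P +
          2 * HH P' := by
  have h1 : ∀ v : AbsoluteValue K ℝ, 0 < max 1 (v ((2 : K)⁻¹)) := fun v =>
    lt_max_of_lt_left one_pos
  have h2 : ∀ t, ∀ v : AbsoluteValue K ℝ, 0 < lc (W t) v := fun t v =>
    zero_lt_one.trans_le (one_le_lc (W t) v)
  have h3 : ∀ t, ∀ v : AbsoluteValue K ℝ, 0 < vn v (P t).xRep := fun t v =>
    zero_lt_one.trans_le (one_le_vn_xRep v (P t))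
  have h4 : ∀ t, ∀ v : AbsoluteValue K ℝ, 0 < vn v (P' t).xRep := fun t v =>
    zero_lt_one.trans_le (one_le_vn_xRep v (P' t))
  have hYp : ∀ t v, 0 < Y t v := by
    intro t v
    rw [hY]
    exact mul_pos (h1 v) (mul_pos (pow_pos (h2 t v) _) (mul_pos (pow_pos (h3 t v) _)
      (pow_pos (h4 t v) _)))
  have hlog : ∀ t v, Real.log (Y t v) = Real.log (max 1 (v ((2 : K)⁻¹))) +
      (((N * 4 ^ e : ℕ) : ℝ) * Real.log (lc (W t) v) +
        (((2 * 4 ^ e : ℕ) : ℝ) * Real.log (vn v (P t).xRep) +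
          ((2 : ℕ) : ℝ) * Real.log (vn v (P' t).xRep))) := by
    intro t v
    rw [hY]
    show Real.log (max 1 (v ((2 : K)⁻¹)) * (lc (W t) v ^ (N * 4 ^ e) *
            (vn v (P t).xRep ^ (2 * 4 ^ e) * vn v (P' t).xRep ^ 2))) = _
    rw [Real.log_mul (h1 v).ne' (mul_pos (pow_pos (h2 t v) _) (mul_pos (pow_pos (h3 t v) _)
      (pow_pos (h4 t v) _))).ne', Real.log_mul (pow_pos (h2 t v) _).ne'
      (mul_pos (pow_pos (h3 t v) _) (pow_pos (h4 t v) _)).ne',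
      Real.log_mul (pow_pos (h3 t v) _).ne' (pow_pos (h4 t v) _).ne', Real.log_pow, Real.log_pow,
      Real.log_pow]
  have f1 : FS (fun v : AbsoluteValue K ℝ => Real.log (max 1 (v ((2 : K)⁻¹)))) := FS_log_max _
  have f2 : ∀ t, FS (fun v : AbsoluteValue K ℝ =>
      ((N * 4 ^ e : ℕ) : ℝ) * Real.log (lc (W t) v)) := fun t => FS_const_mul _ (FS_log_lc (W t))
  have f3 : ∀ t, FS (fun v : AbsoluteValue K ℝ =>
      ((2 * 4 ^ e : ℕ) : ℝ) * Real.log (vn v (P t).xRep)) := fun t =>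
    FS_const_mul _ (FS_log_vn (xRep_ne_zero (P t)))
  have f4 : ∀ t, FS (fun v : AbsoluteValue K ℝ =>
      ((2 : ℕ) : ℝ) * Real.log (vn v (P' t).xRep)) := fun t =>
    FS_const_mul _ (FS_log_vn (xRep_ne_zero (P' t)))
  have fY : ∀ t, FS (fun v => Real.log (Y t v)) := by
    intro t
    rw [funext (hlog t)]
    exact FS_add f1 (FS_add (f2 t) (FS_add (f3 t) (f4 t)))
  have gY : ∀ t, gs (fun v => Real.log (Y t v)) ≤ logHeight₁ ((2 : K)⁻¹) +
      (N * 4 ^ e * cl t + (2 * 4 ^ e * logHeight (P t).xRep + 2 * logHeight (P' t).xRep)) := by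
    intro t
    rw [funext (hlog t), gs_add f1 (FS_add (f2 t) (FS_add (f3 t) (f4 t))),
      gs_add (f2 t) (FS_add (f3 t) (f4 t)), gs_add (f3 t) (f4 t), gs_const_mul, gs_const_mul,
      gs_const_mul, gs_log_max, gs_log_vn (xRep_ne_zero (P t)), gs_log_vn (xRep_ne_zero (P' t))]
    have h5 := mul_le_mul_of_nonneg_left (hcl t) (Nat.cast_nonneg (α := ℝ) (N * 4 ^ e))
    push_cast at h5 ⊢
    linarith
  have hlog2 : (fun v => Real.log (Y 0 v * Y 1 v)) =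
      fun v => Real.log (Y 0 v) + Real.log (Y 1 v) := by
    funext v
    exact Real.log_mul (hYp 0 v).ne' (hYp 1 v).ne'
  refine ⟨fun v => mul_pos (hYp 0 v) (hYp 1 v), ?_, ?_⟩
  · rw [hlog2]
    exact FS_add (fY 0) (fY 1)
  · rw [hlog2, gs_add (fY 0) (fY 1)]
    have h5 := gY 0
    have h6 := gY 1
    unfold HH
    rw [Fin.sum_univ_two, Fin.sum_univ_two]
    linarith

/-- The local bound of one coefficient. -/
private theorem J10e_coeff {K : Type u} [Field K] (v : AbsoluteValue K ℝ) (b d n : ℕ) (r : ℝ)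
    (hr : 0 < r) (G : MvPolynomial (Fin 4 × Fin 2) K)
    (hG : G.vars ⊆ {(0, 0), (2, 0), (2, 1)}) (hGb : ∀ t, G.degreeOf (2, t) ≤ b)
    (hGd : G.degreeOf (0, 0) ≤ d) (c : Fin 2 → Bool) (x : Fin 2 → PowerSeries K)
    (ξ : Fin 2 → Fin 2 → Fin 2 → PowerSeries K) (α : K) (Y : Fin 2 → ℝ)
    (hx : PN v r n (x 0) ≤ cst v 2 * max 1 (v α)) (hY0 : ∀ t, 0 ≤ Y t)
    (hY : ∀ t k i, PN v r n (ξ t k i) ≤ Y t) (κ : Fin 2 → Fin 2) :
    v (PowerSeries.coeff n (aeval (bp c x ξ κ) (hm b G))) * r ^ n ≤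
      NV v G * (cst v 2 * max 1 (v α)) ^ d * (Y 0 * Y 1) ^ b := by
  refine (PN_coeff_le v hr.le le_rfl _).trans ?_
  refine (hm_size b G hG hGb (SN_PN v hr.le n) (bp c x ξ κ) d hGd Y ?_ ?_).trans ?_
  · intro t
    exact hY t (κ t) _
  · intro t
    exact hY t (κ t) _
  · refine mul_le_mul_of_nonneg_right (mul_le_mul_of_nonneg_left ?_ ((SN_NV v).nonneg G))
      (pow_nonneg (mul_nonneg (hY0 0) (hY0 1)) b)
    refine pow_le_pow_left₀ (le_max_of_le_left zero_le_one) (max_le ?_ hx) d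
    have h1 : 1 ≤ max 1 (v α) := le_max_left _ _
    have h2 : 1 ≤ cst v 2 := one_le_cst v (by norm_num)
    exact one_le_mul_of_one_le_of_one_le h2 h1

/-- The final arithmetic. -/
private theorem J10e_arith (b n k s e D w cc : ℕ) (C₀ d h2 c0 c1 N lq lα gr nhg HP HP' gM Yg : ℝ)
    (hC₀ : 0 ≤ C₀) (hd : 0 ≤ d) (hh2 : 0 ≤ h2) (hc0 : 0 ≤ c0) (hc1 : 0 ≤ c1) (hN : 0 ≤ N)
    (hg0 : 0 ≤ nhg) (hHP : 0 ≤ HP) (hs : s ≤ 4 ^ e) (hcc : 1 ≤ cc)
    (hgr : - gr ≤ C₀ * (1 + nhg + HP))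
    (hYg : Yg ≤ 2 * h2 + N * 4 ^ e * (c0 + c1) + 2 * 4 ^ e * HP + 2 * HP')
    (hsk : s ≤ k)
    (h : b * lq + n * gr + ((k - s : ℕ) : ℝ) * lα ≤ gM + b * Yg +
      ((16 * D ^ 2 * 4 ^ e + s + 1 : ℕ) : ℝ) * (d * Real.log 2) +
        ((w + 1 : ℕ) : ℝ) * (d * Real.log ((2 * cc : ℕ) : ℝ))) :
    b * lq + ((k : ℝ) - s) * lα ≤
      n * ((C₀ + (b * (2 * h2 + N * (c0 + c1)) + ((16 * D ^ 2 + 2) * (d * Real.log 2) +
        (w + 1) * d))) * (1 + nhg + HP)) + gM + b * (2 * 4 ^ e * HP + 2 * HP') +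
        (C₀ + (b * (2 * h2 + N * (c0 + c1)) + ((16 * D ^ 2 + 2) * (d * Real.log 2) +
        (w + 1) * d))) * (4 ^ e + Real.log (2 * cc)) := by
  have hlog2 : 0 ≤ Real.log 2 := Real.log_nonneg (by norm_num)
  have hcc' : (1 : ℝ) ≤ cc := by exact_mod_cast hcc
  have hlogc : 0 ≤ Real.log (2 * cc) := Real.log_nonneg (by linarith)
  have h4 : (1 : ℝ) ≤ 4 ^ e := one_le_pow₀ (by norm_num)
  have hs' : (s : ℝ) ≤ 4 ^ e := by exact_mod_cast hs
  have hb : (0 : ℝ) ≤ b := Nat.cast_nonneg b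
  have hn : (0 : ℝ) ≤ n := Nat.cast_nonneg n
  have hw : (0 : ℝ) ≤ w := Nat.cast_nonneg w
  have hD : (0 : ℝ) ≤ 16 * (D : ℝ) ^ 2 := by positivity
  rw [Nat.cast_sub hsk] at h
  push_cast at h
  generalize hE : (4 : ℝ) ^ e = E at *
  generalize hL : Real.log (2 * (cc : ℝ)) = Lc at *
  set X1 := (b : ℝ) * (2 * h2 + N * (c0 + c1)) with hX1
  set X2 := (16 * (D : ℝ) ^ 2 + 2) * (d * Real.log 2) with hX2
  set X3 := ((w : ℝ) + 1) * d with hX3
  have p1 : 0 ≤ X1 := by positivity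
  have p2 : 0 ≤ X2 := by positivity
  have p3 : 0 ≤ X3 := by positivity
  have q0 : 0 ≤ 1 + nhg + HP := by linarith
  -- the term with `n`
  have a1 : (n : ℝ) * (- gr) ≤ n * ((C₀ + (X1 + (X2 + X3))) * (1 + nhg + HP)) := by
    refine mul_le_mul_of_nonneg_left (hgr.trans ?_) hn
    exact mul_le_mul_of_nonneg_right (by linarith) q0
  -- the term with `b`
  have a2 : (b : ℝ) * Yg ≤ b * (2 * E * HP + 2 * HP') + X1 * E := by
    have e1 : (b : ℝ) * Yg ≤ b * (2 * h2 + N * E * (c0 + c1) + 2 * E * HP + 2 * HP') :=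
      mul_le_mul_of_nonneg_left hYg hb
    have e2 : (b : ℝ) * (2 * h2) * 1 ≤ b * (2 * h2) * E :=
      mul_le_mul_of_nonneg_left h4 (by positivity)
    rw [hX1]
    calc (b : ℝ) * Yg ≤ b * (2 * h2 + N * E * (c0 + c1) + 2 * E * HP + 2 * HP') := e1
      _ = b * (2 * E * HP + 2 * HP') + (b * (2 * h2) * 1 + b * (N * (c0 + c1)) * E) := by ring
      _ ≤ b * (2 * E * HP + 2 * HP') + (b * (2 * h2) * E + b * (N * (c0 + c1)) * E) := by
        linarith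
      _ = _ := by ring
  -- the third term
  have a3 : (16 * (D : ℝ) ^ 2 * E + s + 1) * (d * Real.log 2) ≤ X2 * E := by
    have e1 : 16 * (D : ℝ) ^ 2 * E + s + 1 ≤ (16 * (D : ℝ) ^ 2 + 2) * E := by linarith
    have e2 := mul_le_mul_of_nonneg_right e1 (mul_nonneg hd hlog2)
    rw [hX2]
    linarith
  have a4 : ((w : ℝ) + 1) * (d * Lc) = X3 * Lc := by
    rw [hX3]
    ring
  have a5 : X1 * E + X2 * E + X3 * Lc ≤ (C₀ + (X1 + (X2 + X3))) * (E + Lc) := by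
    have hE0 : 0 ≤ E := zero_le_one.trans h4
    have e1 := mul_nonneg hC₀ hE0
    have e2 := mul_nonneg hC₀ hlogc
    have e3 := mul_nonneg p1 hlogc
    have e4 := mul_nonneg p2 hlogc
    have e5 := mul_nonneg p3 hE0
    have e6 : (C₀ + (X1 + (X2 + X3))) * (E + Lc) = X1 * E + X2 * E + X3 * Lc +
      (C₀ * E + C₀ * Lc + X1 * Lc + X2 * Lc + X3 * E) := by ring
    rw [e6]
    linarith
  linarith

/-- (9.7).
Proof. Let `C₀`, `N` be from `branch`, and `r, x, ξ, γ` for the given data; `a t = (P t).xRep 0`,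
`a' t = (P' t).xRep 0`, `qb t = (P' t + 2 ^ e • P t).xRep`, `q t = (P' t - 2 ^ e • P t).xRep`. `exists_y` gives `n`, `y₀`
(`aeval a' g' = eval a' g' = 0`). Let `y κ = y₀ * (qb 0 (κ 0) * qb 1 (κ 1)) ^ b`. For every place `v` and `κ`:
put `ν = PN v (r v) n`, a seminorm (J5 `SN_PN`), `Y t = max 1 (v 2⁻¹) * (lc ^ (N 4^e) * (vn (P t) ^ (2 4^e) * vn (P' t) ^ 2))`.
By `hm_size` for `s = bp c x ξ κ` and `branch`: `ν (aeval (bp ..) (hm b B)) ≤ NV v B * (cst v 2 * max 1 (v α)) ^ dB * (Y 0 * Y 1) ^ b`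
(`max 1 (ν (x 0)) ≤ cst v 2 * max 1 (v α)`), same for `F` with `s` instead of `dB`; the coefficient of `T ^ n` times
`r ^ n` is at most that (`PN_coeff_le`). So `local_y` applies with `YY = (Y 0 * Y 1) ^ b`:
`v (y κ) * r ^ n * max 1 (v α) ^ (k - s) ≤ max (NV F) (NV B) * YY * (cst v 2 ^ (dB + s + 1) * cst v (2 cc) ^ (w + 1))`.
Take the maximum over `κ` (`y ≠ 0`, so the maximum is positive) and logarithms, and sum over all places
(`gs_le`, `gs_add`, `gs_const_mul`; finite support of all functions: `FS_log_iSup`, `branch`, `hFS`, `FS_log_max`,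
`FS_log_lc`, `FS_log_vn`, `FS_log_cst`): with `gs_log_iSup` and `logHeight_y`
`b (h(qb 0) + h(qb 1)) + n gs(log r) + (k - s) h(α) ≤ gs(log max(NV F, NV B)) + b ∑_t (h(2⁻¹) + N 4^e gs(log lc) +
2 4^e h(P_t) + 2 h(P'_t)) + (dB + s + 1) d log 2 + (w + 1) d log (2 cc)`, `d = totalWeight K`. Here
`- gs(log r) ≤ C₀ (1 + nh g + ∑ h(P_t))`, `logHeight₁ α = logHeight (P 0).xRep` (`logHeight_xRep`),
`dB ≤ 16 D^2 4^e`, `s ≤ 4^e`: the constant terms are at most `C (4^e + log (2 cc))`. -/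
theorem final_ineq {K : Type u} [Field K] [NumberField K] [DecidableEq K]
    (W : Fin 2 → WeierstrassCurve K) [∀ t, (W t).IsElliptic] (D b w : ℕ) :
    ∃ C : ℝ, 0 ≤ C ∧ ∀ (g g' : MvPolynomial (Fin 2) K)
      (P P' : ∀ t, (W t).toAffine.Point) (e k s cc : ℕ) (c : Fin 2 → Bool)
      (F A B : MvPolynomial (Fin 4 × Fin 2) K),
      GC g D → GC g' D → (∀ t, P t ≠ 0) → (∀ t, P' t ≠ 0) →
      eval (fun t => (P t).xRep 0) g = 0 → eval (fun t => (P' t).xRep 0) g' = 0 →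
      eval (fun t => (P t).xRep 0) (pderiv 1 g) ≠ 0 →
      (∀ t, ph (W t) (P t).xRep ≠ 0) → (∀ t, ph (W t) (P' t).xRep ≠ 0) →
      (∀ t, (P' t - 2 ^ e • P t).xRep (if c t then 0 else 1) ≠ 0) →
      F.vars ⊆ {(0, 0), (2, 0), (2, 1)} → B.vars ⊆ {(0, 0), (2, 0), (2, 1)} →
      (∀ t, F.degreeOf (2, t) ≤ b) → (∀ t, B.degreeOf (2, t) ≤ b) →
      F.degreeOf (0, 0) ≤ s → B.degreeOf (0, 0) ≤ 16 * D ^ 2 * 4 ^ e →
      s ≤ 4 ^ e → 1 ≤ k → s ≤ k → 16 * D ^ 2 * 4 ^ e ≤ w * k → 1 ≤ cc →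
      F = QQ W e c g g' * A + (X (0, 0) ^ k - MvPolynomial.C (cc : K)) * B →
      F ≠ 0 → FS (fun v : AbsoluteValue K ℝ => Real.log (max (NV v F) (NV v B))) →
      (P 0).xRep 0 ^ k ≠ (cc : K) →
      aeval (Function.update X ((1, 0) : Fin 4 × Fin 2) (MvPolynomial.C ((P' 0).xRep 0)))
        (NN W e c g g' F) ≠ 0 →
      ∃ n : ℕ, (X (0, 0) - MvPolynomial.C ((P 0).xRep 0)) ^ n ∣
          aeval (Function.update X ((1, 0) : Fin 4 × Fin 2) (MvPolynomial.C ((P' 0).xRep 0)))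
            (NN W e c g g' F) ∧
        b * ∑ t, logHeight (P' t + 2 ^ e • P t).xRep + ((k : ℝ) - s) * logHeight (P 0).xRep ≤
          n * (C * (1 + nh g + HH P)) +
          gs (fun v : AbsoluteValue K ℝ => Real.log (max (NV v F) (NV v B))) +
          b * (2 * 4 ^ e * HH P + 2 * HH P') + C * (4 ^ e + Real.log (2 * cc)) := by
  obtain ⟨C₀, N, hC₀, hbr⟩ := branch W D
  obtain ⟨l0, hl0, hlc0⟩ := gs_log_lc_le (W 0)
  obtain ⟨l1, hl1, hlc1⟩ := gs_log_lc_le (W 1)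
  have hfr : (0 : ℝ) ≤ Module.finrank ℚ K := Nat.cast_nonneg _
  have hd : (0 : ℝ) ≤ totalWeight K := Nat.cast_nonneg _
  have hh2 : 0 ≤ logHeight₁ ((2 : K)⁻¹) := zero_le_logHeight₁ _
  have hlog2 : 0 ≤ Real.log 2 := Real.log_nonneg (by norm_num)
  refine ⟨C₀ + (b * (2 * logHeight₁ ((2 : K)⁻¹) +
      N * (l0 * Module.finrank ℚ K + l1 * Module.finrank ℚ K)) +
      ((16 * D ^ 2 + 2) * (totalWeight K * Real.log 2) + (w + 1) * totalWeight K)),
      by positivity, ?_⟩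
  intro g g' P P' e k s cc c F A B hg hg' hP hP' hge hge' hpd hph hph' hq hFv hBv hFb hBb hFs hBs
    hs4 hk hsk hwk hcc hFAB hF0 hFS hc hN
  obtain ⟨r, x, ξ, γ, hx0, hxc, hxg, hS, hξ, hγ, h0, hr, hrF, hrg, hPx, hPξ⟩ :=
    hbr g P P' e (fun t => (hg.2 t).2) hP hP' hge hpd hph hph'
  have hge'' : aeval (fun t => (P' t).xRep 0) g' = 0 := by
    rw [aeval_eq_eval]
    exact hge'
  obtain ⟨n, y₀, hy₀, hyB, hyF, hdvd⟩ := exists_y W e c g g' (by have := (hg.2 1).1; omega)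
    (by have := (hg'.2 1).1; omega) F A B b k cc hFv hBv hFb hBb hFAB
    (fun t => (P t).xRep 0) (fun t => (P' t).xRep 0) hc hge'' hN x ξ γ
    (fun t => (P' t + 2 ^ e • P t).xRep) (fun t => (P' t - 2 ^ e • P t).xRep) hx0 hxg hS hξ hγ
    (fun t => xRep_ne_zero _) hq h0
  refine ⟨n, hdvd, ?_⟩
  have hYdef : ∃ Y : Fin 2 → AbsoluteValue K ℝ → ℝ,
      Y = fun t v => max 1 (v ((2 : K)⁻¹)) * (lc (W t) v ^ (N * 4 ^ e) *
            (vn v (P t).xRep ^ (2 * 4 ^ e) * vn v (P' t).xRep ^ 2)) := ⟨_, rfl⟩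
  obtain ⟨Y, hYd⟩ := hYdef
  obtain ⟨hYp, hYF, hYg⟩ := J10e_Y W P P' N e
    (fun t => if t = 0 then l0 * Module.finrank ℚ K else l1 * Module.finrank ℚ K)
    (by
      intro t
      fin_cases t
      · exact hlc0 K
      · exact hlc1 K) Y hYd
  have hY0 : ∀ t v, 0 ≤ Y t v := by
    intro t v
    rw [hYd]
    have e1 : (0 : ℝ) ≤ max 1 (v ((2 : K)⁻¹)) := le_max_of_le_left zero_le_one
    have e2 : 0 ≤ lc (W t) v := zero_le_one.trans (one_le_lc (W t) v)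
    have e3 := vn_nonneg v (P t).xRep
    have e4 := vn_nonneg v (P' t).xRep
    positivity
  have hYξ : ∀ v, Pl v → ∀ t k i, PN v (r v) n (ξ t k i) ≤ Y t v := by
    intro v hv t k i
    rw [hYd]
    exact hPξ v hv n t k i
  have hloc : ∀ v, Pl v → ∀ κ : Fin 2 → Fin 2,
      v (y₀ * ((P' 0 + 2 ^ e • P 0).xRep (κ 0) * (P' 1 + 2 ^ e • P 1).xRep (κ 1)) ^ b) * r v ^ n *
        max 1 (v ((P 0).xRep 0)) ^ (k - s) ≤
      max (NV v F) (NV v B) * (Y 0 v * Y 1 v) ^ b *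
        (cst v 2 ^ (16 * D ^ 2 * 4 ^ e + s + 1) * cst v (2 * cc) ^ (w + 1)) := by
    intro v hv κ
    refine local_y v ((P 0).xRep 0) _ k s (16 * D ^ 2 * 4 ^ e) w n cc hk hsk hwk hcc (r v)
      (NV v F) (NV v B) ((Y 0 v * Y 1 v) ^ b) (hr v hv).1 ((SN_NV v).nonneg F)
      ((SN_NV v).nonneg B) (pow_nonneg (hYp v).le b) ?_ ?_
    · rw [← hyB κ]
      exact J10e_coeff v b _ n (r v) (hr v hv).1 B hBv hBb hBs c x ξ ((P 0).xRep 0)
        (fun t => Y t v) (hPx v hv n 0) (fun t => hY0 t v) (hYξ v hv) κ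
    · rw [← map_mul, ← hyF κ]
      exact J10e_coeff v b _ n (r v) (hr v hv).1 F hFv hFb hFs c x ξ ((P 0).xRep 0)
        (fun t => Y t v) (hPx v hv n 0) (fun t => hY0 t v) (hYξ v hv) κ
  have hsum := J10e_sum
    (fun κ : Fin 2 → Fin 2 =>
      y₀ * ((P' 0 + 2 ^ e • P 0).xRep (κ 0) * (P' 1 + 2 ^ e • P 1).xRep (κ 1)) ^ b)
    (J10e_y_ne b y₀ hy₀ _ _ (xRep_ne_zero _) (xRep_ne_zero _)) r
    (fun v => max (NV v F) (NV v B)) (fun v => Y 0 v * Y 1 v) ((P 0).xRep 0) n (k - s) b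
    (16 * D ^ 2 * 4 ^ e + s + 1) (w + 1) (2 * cc) (by omega) (fun v hv => (hr v hv).1)
    (fun v _ => lt_max_of_lt_left (NV_pos v hF0)) (fun v _ => hYp v) hrF hFS hYF hloc
  rw [logHeight_y b y₀ hy₀ _ _ (xRep_ne_zero _) (xRep_ne_zero _), ← logHeight_xRep (hP 0)] at hsum
  have hg0 : g ≠ 0 := by
    intro h
    have h1 := (hg.2 0).1
    rw [h, degreeOf_zero] at h1
    exact absurd h1 (by norm_num)
  have hHP : 0 ≤ HH P := Finset.sum_nonneg fun t _ => logHeight_xRep_nonneg (P t)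
  rw [Fin.sum_univ_two]
  refine J10e_arith b n k s e D w cc C₀ (totalWeight K) _ (l0 * Module.finrank ℚ K)
    (l1 * Module.finrank ℚ K) N _ _ _ _ _ _ _ _ hC₀ hd hh2 (mul_nonneg hl0 hfr)
    (mul_nonneg hl1 hfr) (Nat.cast_nonneg N) (nh_nonneg hg0) hHP hs4 hcc hrg ?_ hsk hsum
  simpa using hYg

end Pool.Agent.Lib.MP_17a322_nt.VJ
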