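import Pool.Agent.Lib.MP_17a322_nt.VJ.J4a
import Pool.Agent.Lib.MP_17a322_nt.VJ.E6

/-!
Nonvanishing of some numbers at points of large height.
-/

universe u

namespace Pool.Agent.Lib.MP_17a322_nt.VJ

open MvPolynomial Height
open Pool.Agent.Lib.MP_17a322_nt.RO

private theorem J11_unit {K L σ : Type*} [Field K] [Field L] (φ : K →+* L)
    (hφ : Function.Injective φ) (a : MvPolynomial σ K) (h : IsUnit (MvPolynomial.map φ a)) :
    IsUnit a := by
  rw [MvPolynomial.isUnit_iff] at h ⊢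
  obtain ⟨h1, h2⟩ := h
  rw [coeff_map] at h1
  refine ⟨?_, fun i hi => ?_⟩
  · rw [isUnit_iff_ne_zero] at h1 ⊢
    intro h0
    exact h1 (by rw [h0, map_zero])
  · have h3 := h2 i hi
    rw [coeff_map, isNilpotent_iff_eq_zero] at h3
    rw [isNilpotent_iff_eq_zero]
    exact (map_eq_zero_iff φ hφ).mp h3

private theorem J11_degreeOf_pderiv_le {R σ : Type*} [CommRing R] (x t : σ)
    (G : MvPolynomial σ R) : (pderiv x G).degreeOf t ≤ G.degreeOf t := by
  classical
  rw [degreeOf_eq_sup]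
  refine Finset.sup_le fun m hm => ?_
  rw [mem_support_iff, coeff_pderiv] at hm
  have h1 : coeff (m + Finsupp.single x 1) G ≠ 0 := left_ne_zero_of_mul hm
  have h2 : (m + Finsupp.single x 1 : σ →₀ ℕ) t ≤ G.degreeOf t :=
    monomial_le_degreeOf t (mem_support_iff.2 h1)
  rw [Finsupp.add_apply] at h2
  omega

private theorem J11_degreeOf_pderiv_lt {R σ : Type*} [CommRing R] (x : σ)
    (G : MvPolynomial σ R) (hx : 1 ≤ G.degreeOf x) :
    (pderiv x G).degreeOf x < G.degreeOf x := by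
  classical
  rw [degreeOf_eq_sup, Finset.sup_lt_iff (by rw [Nat.bot_eq_zero]; omega)]
  intro m hm
  rw [mem_support_iff, coeff_pderiv] at hm
  have h1 : coeff (m + Finsupp.single x 1) G ≠ 0 := left_ne_zero_of_mul hm
  have h2 : (m + Finsupp.single x 1 : σ →₀ ℕ) x ≤ G.degreeOf x :=
    monomial_le_degreeOf x (mem_support_iff.2 h1)
  rw [Finsupp.add_apply, Finsupp.single_eq_same] at h2
  omega

private theorem J11_pderiv_ne_zero {k σ : Type*} [Field k] [CharZero k] (x : σ)
    (G : MvPolynomial σ k) (hx : 1 ≤ G.degreeOf x) : pderiv x G ≠ 0 := by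
  classical
  have h0 : ∃ m ∈ G.support, 1 ≤ m x := by
    by_contra hcon
    push Not at hcon
    have h1 : G.degreeOf x ≤ 0 := by
      rw [degreeOf_eq_sup]
      refine Finset.sup_le fun m hm => ?_
      have := hcon m hm
      omega
    omega
  obtain ⟨m, hm, hmx⟩ := h0
  have h1 : m - Finsupp.single x 1 + Finsupp.single x 1 = m := by
    refine tsub_add_cancel_of_le ?_
    rw [Finsupp.single_le_iff]
    exact hmx
  rw [MvPolynomial.ne_zero_iff]
  refine ⟨m - Finsupp.single x 1, ?_⟩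
  rw [coeff_pderiv, h1]
  refine mul_ne_zero (mem_support_iff.1 hm) ?_
  exact Nat.cast_add_one_ne_zero _

private theorem J11_not_dvd {k σ : Type*} [Field k] [CharZero k] (x : σ)
    (G : MvPolynomial σ k) (hx : 1 ≤ G.degreeOf x) : ¬ G ∣ pderiv x G := by
  classical
  rintro ⟨Q, hQ⟩
  have h0 := J11_pderiv_ne_zero x G hx
  have h1 := J11_degreeOf_pderiv_lt x G hx
  have hG : G ≠ 0 := by
    rintro rfl
    exact h0 (by rw [hQ, zero_mul])
  have hQ0 : Q ≠ 0 := by
    rintro rfl
    exact h0 (by rw [hQ, mul_zero])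
  rw [hQ, degreeOf_mul_eq hG hQ0] at h1
  omega

/-- A curve irreducible over the algebraic closure is irreducible. (If `g = a b` over `K`, one factor
is a unit over the closure, so it is a nonzero constant: `MvPolynomial.isUnit_iff` or degrees.) -/
theorem GC.J11_irreducible {K : Type*} [Field K] {g : MvPolynomial (Fin 2) K} {D : ℕ} (h : GC g D) :
    Irreducible g := by
  have h0 := h.1
  refine ⟨fun hu => h0.not_isUnit (hu.map _), fun a b hab => ?_⟩
  rw [hab, map_mul] at h0
  rcases h0.isUnit_or_isUnit rfl with h1 | h1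
  · exact Or.inl (J11_unit _ (algebraMap K (AlgebraicClosure K)).injective a h1)
  · exact Or.inr (J11_unit _ (algebraMap K (AlgebraicClosure K)).injective b h1)

theorem GC.ne_zero {K : Type*} [Field K] {g : MvPolynomial (Fin 2) K} {D : ℕ} (h : GC g D) :
    g ≠ 0 := by
  exact h.J11_irreducible.ne_zero

/-- The point is not a critical point for the projection.
Proof. Let `f = pderiv 1 g`; `f ≠ 0` (characteristic `0`, `1 ≤ degreeOf 1 g`) and `¬ g ∣ f` (degree in
`X 1`). `R = El 1 g f ≠ 0` (`El_ne_zero_of_irreducible`), `R.vars ⊆ {0}` (`vars_El_subset`; all variables are in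
`{0, 1}`). If `eval p f = 0` then with `eval p g = 0` `aeval_dvd_El` gives `eval p R = 0`, so
`h(p 0) ≤ nh R` (`logHeight_root_le`) `≤ D nh g + D nh f` (`nh_El_le`; degrees `≤ D`), and
`nh f ≤ nh g + totalWeight * log D` (`NV_pderiv_le` (J4a), `nh_le_of_NV_le`, `cst_mono`). -/
theorem pderiv_ne_zero_of_height (K : Type u) [Field K] [NumberField K] (D : ℕ) :
    ∃ C : ℝ, 0 ≤ C ∧ ∀ (g : MvPolynomial (Fin 2) K) (p : Fin 2 → K), GC g D → eval p g = 0 →
      C * (1 + nh g) < logHeight₁ (p 0) → eval p (pderiv 1 g) ≠ 0 := by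
  have hlog : 0 ≤ Real.log D := Real.log_natCast_nonneg D
  refine ⟨2 * D + D * (totalWeight K * Real.log D), by positivity, ?_⟩
  intro g p hg hp hh h0
  have hg0 := hg.ne_zero
  have h1 : 1 ≤ g.degreeOf 1 := (hg.2 1).1
  have hD1 : g.degreeOf 1 ≤ D := (hg.2 1).2
  have hD : 1 ≤ D := h1.trans hD1
  have hf0 := J11_pderiv_ne_zero 1 g h1
  have hR0 : El 1 g (pderiv 1 g) ≠ 0 :=
    El_ne_zero_of_irreducible 1 g _ hg.J11_irreducible (by omega) (J11_not_dvd 1 g h1)
  have hev : eval p (El 1 g (pderiv 1 g)) = 0 := by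
    have h2 := aeval_dvd_El (1 : Fin 2) g (pderiv 1 g) (Or.inl (by omega)) p
      (show aeval p g = 0 from hp)
    have h3 : aeval p (pderiv 1 g) = 0 := h0
    rw [h3, zero_dvd_iff] at h2
    exact h2
  have hvars : (El 1 g (pderiv 1 g)).vars ⊆ {0} := by
    intro t ht
    have h2 := vars_El_subset (1 : Fin 2) g (pderiv 1 g) ht
    have h3 := Finset.ne_of_mem_erase h2
    rw [Finset.mem_singleton]
    fin_cases t
    · rfl
    · exact absurd rfl h3
  have h4 := logHeight_root_le _ hR0 0 hvars p hev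
  have h5 := nh_El_le (1 : Fin 2) g (pderiv 1 g) hR0
  have h6 : nh (pderiv 1 g) ≤ nh g + totalWeight K * Real.log D := by
    refine nh_le_of_NV_le hg0 hf0 hD fun v _ => ?_
    exact (NV_pderiv_le v 1 g).trans (mul_le_mul_of_nonneg_right (cst_mono v hD1)
      (NV_pos v hg0).le)
  have h7 := nh_nonneg hg0
  have h8 := nh_nonneg hf0
  have h9 : ((pderiv 1 g).degreeOf 1 : ℝ) ≤ D := by
    exact_mod_cast (J11_degreeOf_pderiv_le 1 1 g).trans hD1
  have h10 : (g.degreeOf 1 : ℝ) ≤ D := by exact_mod_cast hD1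
  have hD0 : (0 : ℝ) ≤ D := Nat.cast_nonneg D
  have h11 : ((pderiv 1 g).degreeOf 1 : ℝ) * nh g ≤ D * nh g := mul_le_mul_of_nonneg_right h9 h7
  have h12 : (g.degreeOf 1 : ℝ) * nh (pderiv 1 g) ≤ D * (nh g + totalWeight K * Real.log D) :=
    mul_le_mul h10 h6 h8 hD0
  have h13 : 0 ≤ D * (totalWeight K * Real.log D) * nh g :=
    mul_nonneg (mul_nonneg hD0 (mul_nonneg (Nat.cast_nonneg _) hlog)) h7
  have h14 : (0 : ℝ) ≤ 2 * D := by positivity
  have h15 : (2 * D + D * (totalWeight K * Real.log D)) * (1 + nh g) =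
      2 * D + D * (totalWeight K * Real.log D) + 2 * (D * nh g) +
        D * (totalWeight K * Real.log D) * nh g := by ring
  linarith

/-- Proof: if `ph = 0` then `2 • P = 0` (`ph_xRep_ne_zero` in E4, with `V = W`, `map_self`), so `P` has finite
order and bounded height (`height_unif` (E6) for `L = K`). -/
theorem ph_ne_zero_of_height {K : Type u} [Field K] [NumberField K] [DecidableEq K]
    (W : WeierstrassCurve K) [W.IsElliptic] :
    ∃ C : ℝ, 0 ≤ C ∧ ∀ P : W.toAffine.Point, C < logHeight P.xRep → ph W P.xRep ≠ 0 := by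
  obtain ⟨C, hC, h⟩ := height_unif W
  refine ⟨C * Module.finrank ℚ K, by positivity, fun P hP h0 => ?_⟩
  obtain ⟨_, _, _, h4⟩ := h K W (map_self W)
  have h2 : 2 • P = 0 := by
    by_contra h2
    exact ph_xRep_ne_zero W W (map_self W) P h2 h0
  have h3 := h4 P (isOfFinAddOrder_iff_nsmul_eq_zero.mpr ⟨2, by norm_num, h2⟩)
  linarith

/-- `logHeight₁ (α ^ k) = k logHeight₁ α` and `logHeight₁ (cc : K) ≤ [K : ℚ] log cc`
(`logHeight₁` is `gs (log max 1 (v cc))` (`gs_log_max`), `max 1 (v cc) ≤ cst v cc`, `gs_log_cst`). -/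
theorem pow_ne_natCast (K : Type u) [Field K] [NumberField K] (α : K) (k cc : ℕ) (hcc : 1 ≤ cc)
    (h : Module.finrank ℚ K * Real.log cc < k * logHeight₁ α) : α ^ k ≠ (cc : K) := by
  intro h0
  have h1 := logHeight₁_pow α k
  rw [h0] at h1
  have h2 : logHeight₁ (cc : K) ≤ totalWeight K * Real.log cc := by
    rw [← gs_log_max]
    refine (gs_le (FS_log_max _) (FS_log_cst cc) fun v _ => ?_).trans (gs_log_cst hcc)
    refine Real.log_le_log (zero_lt_one.trans_le (le_max_left _ _)) (max_le (one_le_cst v hcc) ?_)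
    have h3 := (SN_self v).nsmul_le cc (1 : K)
    rw [mul_one, map_one, mul_one] at h3
    exact h3
  rw [NumberField.totalWeight_eq_finrank] at h2
  linarith

end Pool.Agent.Lib.MP_17a322_nt.VJ
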