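import Pool.Agent.Lib.MP_17a322_nt.VJ.J2a
import Pool.Agent.Lib.MP_17a322_nt.VJ.A5
import Pool.Agent.Lib.MP_17a322_nt.VJ.IF_D

/-!
The auxiliary polynomial of stage II: application of Siegel's lemma.
-/

universe u

namespace Pool.Agent.Lib.MP_17a322_nt.VJ

open MvPolynomial Height

private theorem J2c_log_cst {K : Type u} [Field K] [NumberField K] {c : ℕ} (hc : 1 ≤ c) :
    logHeight₁ (c : K) ≤ totalWeight K * Real.log c := by
  rw [← gs_log_max (c : K)]
  refine (gs_le (FS_log_max _) (FS_log_cst c) fun v _ => ?_).trans (gs_log_cst hc)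
  refine Real.log_le_log (zero_lt_one.trans_le (le_max_left _ _)) (max_le (one_le_cst v hc) ?_)
  have h := (SN_self v).nsmul_le c (1 : K)
  simp only [mul_one, map_one] at h
  exact h

/-- The monomials. -/
private noncomputable def J2c_mon (i j j' : ℕ) : (Fin 4 × Fin 2) →₀ ℕ :=
  Finsupp.single (0, 0) i + Finsupp.single (2, 0) j + Finsupp.single (2, 1) j'

private theorem J2c_mon00 (i j j' : ℕ) : J2c_mon i j j' (0, 0) = i := by
  simp [J2c_mon]

private theorem J2c_mon20 (i j j' : ℕ) : J2c_mon i j j' (2, 0) = j := by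
  simp [J2c_mon]

private theorem J2c_mon21 (i j j' : ℕ) : J2c_mon i j j' (2, 1) = j' := by
  simp [J2c_mon]

private theorem J2c_mon_other (i j j' : ℕ) {t : Fin 4 × Fin 2}
    (ht : t ∉ ({(0, 0), (2, 0), (2, 1)} : Finset (Fin 4 × Fin 2))) : J2c_mon i j j' t = 0 := by
  simp only [Finset.mem_insert, Finset.mem_singleton, not_or] at ht
  simp [J2c_mon, Ne.symm ht.1, Ne.symm ht.2.1, Ne.symm ht.2.2]

private theorem J2c_mon_eq {m : (Fin 4 × Fin 2) →₀ ℕ}
    (hm : ∀ t ∉ ({(0, 0), (2, 0), (2, 1)} : Finset (Fin 4 × Fin 2)), m t = 0) :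
    m = J2c_mon (m (0, 0)) (m (2, 0)) (m (2, 1)) := by
  ext t
  by_cases ht : t ∈ ({(0, 0), (2, 0), (2, 1)} : Finset (Fin 4 × Fin 2))
  · simp only [Finset.mem_insert, Finset.mem_singleton] at ht
    rcases ht with rfl | rfl | rfl
    · rw [J2c_mon00]
    · rw [J2c_mon20]
    · rw [J2c_mon21]
  · rw [hm t ht, J2c_mon_other _ _ _ ht]

private theorem J2c_inj {a b : ℕ} : Function.Injective
    (fun p : Fin a × Fin b × Fin b => J2c_mon (p.1 : ℕ) (p.2.1 : ℕ) (p.2.2 : ℕ)) := by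
  rintro ⟨p1, p2, p3⟩ ⟨q1, q2, q3⟩ h
  have h0 := DFunLike.congr_fun h (0, 0)
  have h1 := DFunLike.congr_fun h (2, 0)
  have h2 := DFunLike.congr_fun h (2, 1)
  simp only [J2c_mon00, J2c_mon20, J2c_mon21] at h0 h1 h2
  rw [Fin.ext h0, Fin.ext h1, Fin.ext h2]

/-- The polynomial with coefficients `x`. -/
private noncomputable def J2c_pol {K : Type u} [Field K] {a b : ℕ} (x : Fin a × Fin b × Fin b → K) :
    MvPolynomial (Fin 4 × Fin 2) K :=
  ∑ p, monomial (J2c_mon (p.1 : ℕ) (p.2.1 : ℕ) (p.2.2 : ℕ)) (x p)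

private theorem J2c_coeff {K : Type u} [Field K] {a b : ℕ} (x : Fin a × Fin b × Fin b → K)
    (p : Fin a × Fin b × Fin b) :
    coeff (J2c_mon (p.1 : ℕ) (p.2.1 : ℕ) (p.2.2 : ℕ)) (J2c_pol x) = x p := by
  classical
  unfold J2c_pol
  rw [coeff_sum, Finset.sum_eq_single p]
  · rw [coeff_monomial, if_pos rfl]
  · intro q _ hq
    rw [coeff_monomial, if_neg]
    intro h
    exact hq (J2c_inj h)
  · intro h
    exact absurd (Finset.mem_univ p) h

private theorem J2c_supp {K : Type u} [Field K] {a b : ℕ} (x : Fin a × Fin b × Fin b → K)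
    {m : (Fin 4 × Fin 2) →₀ ℕ} (hm : m ∈ (J2c_pol x).support) :
    ∃ p : Fin a × Fin b × Fin b, m = J2c_mon (p.1 : ℕ) (p.2.1 : ℕ) (p.2.2 : ℕ) := by
  classical
  by_contra hc
  push Not at hc
  apply mem_support_iff.mp hm
  unfold J2c_pol
  rw [coeff_sum]
  refine Finset.sum_eq_zero fun p _ => ?_
  rw [coeff_monomial, if_neg]
  intro h
  exact hc p h.symm

private theorem J2c_card {K : Type u} [Field K] {a b : ℕ} (x : Fin a × Fin b × Fin b → K) :
    (J2c_pol x).support.card ≤ a * (b * b) := by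
  classical
  have h1 : (J2c_pol x).support ⊆ Finset.univ.image
      (fun p : Fin a × Fin b × Fin b => J2c_mon (p.1 : ℕ) (p.2.1 : ℕ) (p.2.2 : ℕ)) := by
    intro m hm
    obtain ⟨p, rfl⟩ := J2c_supp x hm
    exact Finset.mem_image_of_mem _ (Finset.mem_univ p)
  refine (Finset.card_le_card h1).trans (Finset.card_image_le.trans (le_of_eq ?_))
  rw [Finset.card_univ, Fintype.card_prod, Fintype.card_prod, Fintype.card_fin, Fintype.card_fin]

private theorem J2c_nh {K : Type u} [Field K] [NumberField K] {a b : ℕ}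
    (x : Fin a × Fin b × Fin b → K) (hx : x ≠ 0) (hab : 1 ≤ a * (b * b)) :
    nh (J2c_pol x) ≤ logHeight x + totalWeight K * Real.log (a * (b * b) : ℕ) := by
  obtain ⟨p, hp⟩ := Function.ne_iff.mp hx
  have hne : J2c_pol x ≠ 0 := by
    intro h0
    apply hp
    rw [← J2c_coeff x p, h0, coeff_zero]
    rfl
  have hpos : ∀ v : AbsoluteValue K ℝ, 0 < ⨆ i, v (x i) := fun v =>
    (v.pos hp).trans_le (Finite.le_ciSup_of_le p le_rfl)
  have hcpos : ∀ v : AbsoluteValue K ℝ, 0 < cst v (a * (b * b)) :=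
    fun v => zero_lt_one.trans_le (one_le_cst v hab)
  have h1 := gs_log_cst (L := K) hab
  have h2 : gs (fun v => Real.log (NV v (J2c_pol x))) ≤
      gs (fun v => Real.log (⨆ i, v (x i)) + Real.log (cst v (a * (b * b)))) := by
    refine gs_le (FS_log_NV hne) (FS_add (FS_log_iSup hx) (FS_log_cst _)) fun v _ => ?_
    rw [← Real.log_mul (hpos v).ne' (hcpos v).ne', mul_comm]
    refine Real.log_le_log (NV_pos v hne) ((NV_le_of_coeff v (J2c_pol x) (hpos v).le
      fun m => ?_).trans (mul_le_mul_of_nonneg_right (cst_mono v (J2c_card x)) (hpos v).le))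
    by_cases hm : m ∈ (J2c_pol x).support
    · obtain ⟨q, rfl⟩ := J2c_supp x hm
      rw [J2c_coeff]
      exact Finite.le_ciSup_of_le q le_rfl
    · rw [notMem_support_iff.mp hm, map_zero]
      exact (hpos v).le
  rw [gs_add (FS_log_iSup hx) (FS_log_cst _), gs_log_iSup hx] at h2
  unfold nh
  linarith

private theorem J2c_vec {K : Type u} [Field K] [NumberField K] {ι : Type} [Fintype ι] (f : ι → K)
    (Q : MvPolynomial (Fin 4 × Fin 2) K) (hQ : Q ≠ 0) (w : ℕ) (c : ℕ) (hc : 1 ≤ c)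
    (h : ∀ v : AbsoluteValue K ℝ, ∀ i, v (f i) ≤ max 1 (v (c : K)) ^ w * NV v Q) :
    logHeight f ≤ w * (totalWeight K * Real.log c) + nh Q := by
  have hlogc : 0 ≤ Real.log c := Real.log_nonneg (by exact_mod_cast hc)
  have h0 : (0 : ℝ) ≤ w * (totalWeight K * Real.log c) := by positivity
  by_cases hf : f = 0
  · rw [hf, logHeight_zero]
    have := nh_nonneg hQ
    linarith
  · rw [← gs_log_iSup hf]
    obtain ⟨i₀, hi₀⟩ := Function.ne_iff.mp hf
    have hm : ∀ v : AbsoluteValue K ℝ, (0 : ℝ) < max 1 (v (c : K)) := fun v =>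
      zero_lt_one.trans_le (le_max_left _ _)
    have h2 : gs (fun v => Real.log (⨆ i, v (f i))) ≤
        gs (fun v => (w : ℝ) * Real.log (max 1 (v (c : K))) + Real.log (NV v Q)) := by
      refine gs_le (FS_log_iSup hf) (FS_add (FS_const_mul _ (FS_log_max _)) (FS_log_NV hQ))
        fun v _ => ?_
      rw [← Real.log_pow, ← Real.log_mul (pow_pos (hm v) w).ne' (NV_pos v hQ).ne']
      have hne : Nonempty ι := ⟨i₀⟩
      refine Real.log_le_log ?_ (ciSup_le fun i => h v i)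
      exact (v.pos hi₀).trans_le (Finite.le_ciSup_of_le i₀ le_rfl)
    rw [gs_add (FS_const_mul _ (FS_log_max _)) (FS_log_NV hQ), gs_const_mul, gs_log_max] at h2
    have h3 := mul_le_mul_of_nonneg_left (J2c_log_cst (K := K) hc) (Nat.cast_nonneg (α := ℝ) w)
    unfold nh
    linarith

/-- Let `δ = 4 D ^ 2`, `b = 16 δ`, `k = 4 (s + 1)`. There is `A ≠ 0` of degree `< k` in `X (0, 0)` and
`≤ b - δ = 15 δ` in `X (2, t)` such that the reduction of `Q A` modulo `X (0, 0) ^ k - c` has degree at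
most `s` in `X (0, 0)`.
Proof. Unknowns: `β = Fin k × Fin (15 δ + 1) × Fin (15 δ + 1)`, for `x : β → K`
`A = ∑ x p • monomial (μ p) 1`, `μ (i, j, j') = single (0,0) i + single (2,0) j + single (2,1) j'`. Conditions:
`α = Fin (3 (s + 1)) × Fin (16 δ + 1) × Fin (16 δ + 1)`, the coefficient of
`ν (i, j, j') = single (0,0) (s + 1 + i) + single (2,0) j + single (2,1) j'` in `rdm (Q A)` vanishes: the matrix is
`M r p = coeff (ν r) (rdm (Q * monomial (μ p) 1))` (`rdm` is linear). `Q A` has degree `≤ 16 δ` in `X (2, t)`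
and involves only the three variables, and so has `rdm (Q A)`, which moreover has degree `< k = 4 (s + 1)`
in `X (0, 0)` (`rdm_spec`), so these conditions say that its degree in `X (0, 0)` is `≤ s`.
`#β = 4 (s+1) (15 δ + 1)^2`, `#α = 3 (s+1) (16 δ + 1)^2`, `#β - #α = (s+1) (132 δ^2 + 24 δ + 1) > 0` and
`#α / (#β - #α) ≤ 6` as `768 δ^2 + 96 δ + 3 ≤ 6 (132 δ^2 + 24 δ + 1)`.
Heights: `v (M r p) ≤ NV v (rdm (..)) ≤ max 1 (v c) ^ w * NV v Q` by `coeff_le_NV`, `rdm_spec` (the degree of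
`Q * monomial` in `X (0, 0)` is at most `q + k - 1 < k (w + 1)`) and `NV v (Q * monomial) ≤ NV v Q`. So, if the
matrix is not zero, `logHeight M = gs (log ⨆ v (M r p)) ≤ w * gs (log max 1 (v c)) + nh Q`
(`gs_log_iSup`, `gs_le`, `gs_log_max`), and `logHeight₁ (c : K) ≤ totalWeight * log c` (for a natural number
`c ≥ 1`: `v c ≤ 1` for nonarchimedean `v`, `v c ≤ c` for all; compare `gs_log_cst`, `max 1 (v c) ≤ cst v c`);
the bound is also true for the zero matrix (its `logHeight` is `0`). With `siegel` (constant `C'`):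
`logHeight x ≤ C' + 6 (w totalWeight log c + nh Q + C' + C' log #β)`, and
`nh A ≤ logHeight x + totalWeight * log #β` (the coefficients of `A` are the `x p` - `μ` is injective - and `0`;
`NV_le_of_coeff`, `gs_log_cst`). Here `log #β ≤ log (s + 1) + log (4 (15 δ + 1)^2)`. Collect the constants:
everything is bounded by `C * (1 + log (s + 1) + w * log c + nh Q)` with `C` depending on `K` and `D`. -/
theorem exists_A (K : Type u) [Field K] [NumberField K] (D : ℕ) (hD : 1 ≤ D) :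
    ∃ C : ℝ, 0 ≤ C ∧ ∀ (s w c : ℕ) (Q : MvPolynomial (Fin 4 × Fin 2) K), 1 ≤ c → Q ≠ 0 →
      Q.vars ⊆ {(0, 0), (2, 0), (2, 1)} → Q.degreeOf (0, 0) ≤ 4 * (s + 1) * w →
      (∀ t, Q.degreeOf (2, t) ≤ 4 * D ^ 2) →
      ∃ A : MvPolynomial (Fin 4 × Fin 2) K, A ≠ 0 ∧ A.vars ⊆ {(0, 0), (2, 0), (2, 1)} ∧
        A.degreeOf (0, 0) < 4 * (s + 1) ∧ (∀ t, A.degreeOf (2, t) ≤ 60 * D ^ 2) ∧
        (rdm (0, 0) (4 * (s + 1)) (c : K) (Q * A)).degreeOf (0, 0) ≤ s ∧
        nh A ≤ C * (1 + Real.log (s + 1) + w * Real.log c + nh Q) := by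
  classical
  obtain ⟨C', hC', hsieg⟩ := siegel K
  set tW : ℝ := (totalWeight K : ℝ) with htW
  have htW0 : 0 ≤ tW := Nat.cast_nonneg _
  set N1 : ℕ := 60 * D ^ 2 + 1 with hN1
  set N2 : ℕ := 64 * D ^ 2 + 1 with hN2
  set L : ℝ := Real.log (4 * (N1 * N1) : ℕ) with hL
  have hN1pos : 1 ≤ 4 * (N1 * N1) := by
    have : 0 < N1 := by omega
    have := Nat.mul_pos this this
    omega
  have hL0 : 0 ≤ L := Real.log_nonneg (by exact_mod_cast hN1pos)
  refine ⟨13 * C' + 6 * C' * L + tW * L + 7 * tW + 6, by positivity, ?_⟩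
  intro s w c Q hc hQ hvars hdeg hdeg2
  have hk : 1 ≤ 4 * (s + 1) := by omega
  have hM := hsieg (Fin (3 * (s + 1)) × Fin N2 × Fin N2) (Fin (4 * (s + 1)) × Fin N1 × Fin N1)
    (fun r p => coeff (J2c_mon (s + 1 + (r.1 : ℕ)) (r.2.1 : ℕ) (r.2.2 : ℕ))
      (rdm (0, 0) (4 * (s + 1)) (c : K) (Q * monomial (J2c_mon (p.1 : ℕ) (p.2.1 : ℕ) (p.2.2 : ℕ)) 1)))
  simp only [Fintype.card_prod, Fintype.card_fin] at hM
  have hcard : 3 * (s + 1) * (N2 * N2) < 4 * (s + 1) * (N1 * N1) := by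
    have h1 : 3 * (N2 * N2) < 4 * (N1 * N1) := by
      rw [hN1, hN2]
      nlinarith [Nat.zero_le (D ^ 2), Nat.zero_le (D ^ 2 * D ^ 2)]
    nlinarith
  obtain ⟨x, hx, hMx, hxh⟩ := hM hcard
  refine ⟨J2c_pol x, ?_, ?_, ?_, ?_, ?_, ?_⟩
  · obtain ⟨p, hp⟩ := Function.ne_iff.mp hx
    intro h0
    apply hp
    rw [← J2c_coeff x p, h0, coeff_zero]
    rfl
  · intro t ht
    obtain ⟨m, hm, hmt⟩ := (mem_vars_iff_mem_support t).mp ht
    obtain ⟨p, rfl⟩ := J2c_supp x hm
    by_contra h0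
    exact Finsupp.mem_support_iff.mp hmt (J2c_mon_other _ _ _ h0)
  · rw [degreeOf_lt_iff (by omega)]
    intro m hm
    obtain ⟨p, rfl⟩ := J2c_supp x hm
    rw [J2c_mon00]
    exact p.1.isLt
  · intro t
    rw [degreeOf_le_iff]
    intro m hm
    obtain ⟨p, rfl⟩ := J2c_supp x hm
    fin_cases t
    · show J2c_mon _ _ _ (2, 0) ≤ _
      rw [J2c_mon20]
      have := p.2.1.isLt
      omega
    · show J2c_mon _ _ _ (2, 1) ≤ _
      rw [J2c_mon21]
      have := p.2.2.isLt
      omega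
  · have hkey : ∀ r : Fin (3 * (s + 1)) × Fin N2 × Fin N2,
        coeff (J2c_mon (s + 1 + (r.1 : ℕ)) (r.2.1 : ℕ) (r.2.2 : ℕ))
          (rdm (0, 0) (4 * (s + 1)) (c : K) (Q * J2c_pol x)) = 0 := by
      intro r
      have h1 := congrFun hMx r
      rw [Pi.zero_apply] at h1
      have h2 : Q * J2c_pol x = ∑ p : Fin (4 * (s + 1)) × Fin N1 × Fin N1,
          x p • (Q * monomial (J2c_mon (p.1 : ℕ) (p.2.1 : ℕ) (p.2.2 : ℕ)) 1) := by
        unfold J2c_pol
        rw [Finset.mul_sum]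
        refine Finset.sum_congr rfl fun p _ => ?_
        rw [← mul_smul_comm, smul_monomial, smul_eq_mul, mul_one]
      rw [h2, map_sum, coeff_sum, ← h1]
      unfold Matrix.mulVec dotProduct
      refine Finset.sum_congr rfl fun p _ => ?_
      rw [map_smul, coeff_smul, smul_eq_mul, mul_comm]
    have hAdeg : (J2c_pol x).degreeOf (0, 0) < 4 * (s + 1) := by
      rw [degreeOf_lt_iff (by omega)]
      intro m hm
      obtain ⟨p, rfl⟩ := J2c_supp x hm
      rw [J2c_mon00]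
      exact p.1.isLt
    have hAdeg2 : ∀ t, (J2c_pol x).degreeOf (2, t) ≤ 60 * D ^ 2 := by
      intro t
      rw [degreeOf_le_iff]
      intro m hm
      obtain ⟨p, rfl⟩ := J2c_supp x hm
      fin_cases t
      · show J2c_mon _ _ _ (2, 0) ≤ _
        rw [J2c_mon20]
        have := p.2.1.isLt
        omega
      · show J2c_mon _ _ _ (2, 1) ≤ _
        rw [J2c_mon21]
        have := p.2.2.isLt
        omega
    have hAvars : (J2c_pol x).vars ⊆ {(0, 0), (2, 0), (2, 1)} := by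
      intro t ht
      obtain ⟨m, hm, hmt⟩ := (mem_vars_iff_mem_support t).mp ht
      obtain ⟨p, rfl⟩ := J2c_supp x hm
      by_contra h0
      exact Finsupp.mem_support_iff.mp hmt (J2c_mon_other _ _ _ h0)
    have hQA : (Q * J2c_pol x).degreeOf (0, 0) < 4 * (s + 1) * (w + 1) := by
      refine lt_of_le_of_lt (degreeOf_mul_le _ _ _) ?_
      have : 4 * (s + 1) * (w + 1) = 4 * (s + 1) * w + 4 * (s + 1) := by ring
      omega
    obtain ⟨hr1, hr2, hr3, -⟩ := rdm_spec (0, 0) (4 * (s + 1)) hk (c : K) w (Q * J2c_pol x) hQA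
    rw [degreeOf_le_iff]
    intro m hm
    by_contra hcon
    push Not at hcon
    have hm0 : m (0, 0) < 4 * (s + 1) := (degreeOf_lt_iff (by omega)).mp hr1 m hm
    have hm2 : ∀ t, m (2, t) < N2 := by
      intro t
      have h1 : m (2, t) ≤ (rdm (0, 0) (4 * (s + 1)) (c : K) (Q * J2c_pol x)).degreeOf (2, t) :=
        degreeOf_le_iff.mp le_rfl m hm
      have h2 := hr2 (2, t)
      have h3 := degreeOf_mul_le (2, t) Q (J2c_pol x)
      have h4 := hdeg2 t
      have h5 := hAdeg2 t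
      omega
    have hmv : ∀ t ∉ ({(0, 0), (2, 0), (2, 1)} : Finset (Fin 4 × Fin 2)), m t = 0 := by
      intro t ht
      by_contra h0
      apply ht
      have h1 : t ∈ (rdm (0, 0) (4 * (s + 1)) (c : K) (Q * J2c_pol x)).vars :=
        (mem_vars_iff_mem_support t).mpr ⟨m, hm, Finsupp.mem_support_iff.mpr h0⟩
      exact Finset.union_subset hvars hAvars (vars_mul _ _ (hr3 h1))
    have hmm := J2c_mon_eq hmv
    have hfin := hkey ⟨⟨m (0, 0) - (s + 1), by omega⟩, ⟨m (2, 0), hm2 0⟩, ⟨m (2, 1), hm2 1⟩⟩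
    simp only at hfin
    rw [show s + 1 + (m (0, 0) - (s + 1)) = m (0, 0) by omega, ← hmm] at hfin
    exact mem_support_iff.mp hm hfin
  · set B : ℕ := 4 * (s + 1) * (N1 * N1) with hB
    have hBpos : 1 ≤ B := by
      rw [hB]
      have h1 : 1 ≤ N1 * N1 := by
        have : 0 < N1 := by omega
        exact Nat.mul_pos this this
      nlinarith
    have hlogB : Real.log B = Real.log (s + 1) + L := by
      rw [hB, hL, ← Real.log_mul (by positivity) (by positivity)]
      congr 1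
      push_cast
      ring
    have hlogs : 0 ≤ Real.log ((s : ℝ) + 1) := Real.log_nonneg (by
      have : (0 : ℝ) ≤ s := Nat.cast_nonneg s
      linarith)
    have hlogc : 0 ≤ Real.log (c : ℝ) := Real.log_nonneg (by exact_mod_cast hc)
    have hnhQ := nh_nonneg hQ
    have h1 := J2c_nh x hx (by rw [← hB]; exact hBpos)
    rw [← hB, ← htW, hlogB] at h1
    have h2 : logHeight (fun p : (Fin (3 * (s + 1)) × Fin N2 × Fin N2) ×
        (Fin (4 * (s + 1)) × Fin N1 × Fin N1) =>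
        coeff (J2c_mon (s + 1 + (p.1.1 : ℕ)) (p.1.2.1 : ℕ) (p.1.2.2 : ℕ))
          (rdm (0, 0) (4 * (s + 1)) (c : K)
            (Q * monomial (J2c_mon (p.2.1 : ℕ) (p.2.2.1 : ℕ) (p.2.2.2 : ℕ)) 1))) ≤
        w * (tW * Real.log c) + nh Q := by
      refine J2c_vec _ Q hQ w c hc fun v p => ?_
      have hd : (Q * monomial (J2c_mon (p.2.1 : ℕ) (p.2.2.1 : ℕ) (p.2.2.2 : ℕ)) (1 : K)).degreeOf
          (0, 0) < 4 * (s + 1) * (w + 1) := by
        refine lt_of_le_of_lt (degreeOf_mul_le _ _ _) ?_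
        have h3 : (monomial (J2c_mon (p.2.1 : ℕ) (p.2.2.1 : ℕ) (p.2.2.2 : ℕ)) (1 : K)).degreeOf
            (0, 0) < 4 * (s + 1) := by
          rw [degreeOf_lt_iff (by omega)]
          intro m hm
          have h4 := Finset.mem_singleton.mp (support_monomial_subset hm)
          rw [h4, J2c_mon00]
          exact p.2.1.isLt
        have : 4 * (s + 1) * (w + 1) = 4 * (s + 1) * w + 4 * (s + 1) := by ring
        omega
      obtain ⟨-, -, -, hr, -⟩ := rdm_spec (0, 0) (4 * (s + 1)) hk (c : K) w _ hd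
      refine (coeff_le_NV v _ _).trans ((hr v).trans ?_)
      refine mul_le_mul_of_nonneg_left ?_ (pow_nonneg (zero_le_one.trans (le_max_left _ _)) _)
      have h5 := (SN_NV v).mul Q (monomial (J2c_mon (p.2.1 : ℕ) (p.2.2.1 : ℕ) (p.2.2.2 : ℕ)) (1 : K))
      simp only [NV_monomial, map_one, mul_one] at h5
      exact h5
    have hratio : ((3 * (s + 1) * (N2 * N2) : ℕ) : ℝ) /
        (((4 * (s + 1) * (N1 * N1) : ℕ) : ℝ) - ((3 * (s + 1) * (N2 * N2) : ℕ) : ℝ)) ≤ 6 := by
      have hpos : (0 : ℝ) < ((4 * (s + 1) * (N1 * N1) : ℕ) : ℝ) -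
          ((3 * (s + 1) * (N2 * N2) : ℕ) : ℝ) := by
        rw [sub_pos]
        exact_mod_cast hcard
      rw [div_le_iff₀ hpos]
      have hnat : 7 * (3 * (s + 1) * (N2 * N2)) ≤ 6 * (4 * (s + 1) * (N1 * N1)) := by
        have h3 : 7 * 3 * (N2 * N2) ≤ 6 * 4 * (N1 * N1) := by
          rw [hN1, hN2]
          have hD2 : 1 ≤ D ^ 2 := Nat.one_le_pow _ _ hD
          nlinarith [hD2, Nat.mul_le_mul hD2 hD2]
        nlinarith
      have hreal : (7 : ℝ) * ((3 * (s + 1) * (N2 * N2) : ℕ) : ℝ) ≤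
          6 * ((4 * (s + 1) * (N1 * N1) : ℕ) : ℝ) := by exact_mod_cast hnat
      linarith
    have hratio0 : 0 ≤ ((3 * (s + 1) * (N2 * N2) : ℕ) : ℝ) /
        (((4 * (s + 1) * (N1 * N1) : ℕ) : ℝ) - ((3 * (s + 1) * (N2 * N2) : ℕ) : ℝ)) := by
      refine div_nonneg (Nat.cast_nonneg _) ?_
      rw [sub_nonneg]
      exact_mod_cast hcard.le
    rw [← hB] at hratio hratio0
    have hT0 : 0 ≤ w * (tW * Real.log c) + nh Q + C' + C' * (Real.log (s + 1) + L) := by positivity
    have h3 := mul_le_mul_of_nonneg_left (add_le_add (add_le_add h2 (le_refl C'))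
      (le_refl (C' * (Real.log (s + 1) + L)))) hratio0
    have h4 := mul_le_mul_of_nonneg_right hratio hT0
    rw [hlogB] at hxh
    have e1 : 0 ≤ C' * L := by positivity
    have e2 : 0 ≤ tW * L := by positivity
    have e3 : 0 ≤ (w : ℝ) * Real.log c := by positivity
    have e4 : 0 ≤ tW * Real.log (s + 1) := by positivity
    have e5 : 0 ≤ C' * Real.log (s + 1) := by positivity
    have e6 : 0 ≤ tW * ((w : ℝ) * Real.log c) := by positivity
    have e7 : 0 ≤ C' * L * Real.log (s + 1) := by positivity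
    have e8 : 0 ≤ tW * L * Real.log (s + 1) := by positivity
    have e9 : 0 ≤ C' * ((w : ℝ) * Real.log c) := by positivity
    have e10 : 0 ≤ C' * L * ((w : ℝ) * Real.log c) := by positivity
    have e11 : 0 ≤ tW * L * ((w : ℝ) * Real.log c) := by positivity
    have e12 : 0 ≤ C' * nh Q := by positivity
    have e13 : 0 ≤ C' * L * nh Q := by positivity
    have e14 : 0 ≤ tW * L * nh Q := by positivity
    have e15 : 0 ≤ tW * nh Q := by positivity
    nlinarith [h1, hxh, h3, h4]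

end Pool.Agent.Lib.MP_17a322_nt.VJ
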