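import Pool.Agent.Lib.MP_17a322_nt.VJ.J2b
import Pool.Agent.Lib.MP_17a322_nt.VJ.J2c

/-!
The auxiliary polynomial of stage II (9.2).
-/

universe u

namespace Pool.Agent.Lib.MP_17a322_nt.VJ

open MvPolynomial Height

private theorem J2d_v_nat {L : Type*} [Field L] (v : AbsoluteValue L ℝ) (c : ℕ) :
    v (c : L) ≤ cst v c := by
  have h := (SN_self v).sum_le (Finset.range c) (fun _ => (1 : L)) zero_le_one
    (fun _ _ => by simp only [map_one, le_refl])
  simp only [Finset.sum_const, Finset.card_range, nsmul_eq_mul, mul_one] at h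
  exact h

private theorem J2d_height_nat {L : Type*} [Field L] [AdmissibleAbsValues L] {c : ℕ} (hc : 1 ≤ c) :
    logHeight₁ (c : L) ≤ totalWeight L * Real.log c := by
  rw [← gs_log_max]
  refine (gs_le (FS_log_max _) (FS_log_cst c) ?_).trans (gs_log_cst hc)
  intro v _
  apply Real.log_le_log (lt_of_lt_of_le zero_lt_one (le_max_left _ _))
  exact max_le (one_le_cst v hc) (J2d_v_nat v c)

private theorem J2d_FS {L : Type*} [Field L] [AdmissibleAbsValues L] {σ : Type*}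
    {F B : MvPolynomial σ L} (hF : F ≠ 0) :
    FS (fun v : AbsoluteValue L ℝ => Real.log (max (NV v F) (NV v B))) := by
  by_cases hB : B = 0
  · have h1 : (fun v : AbsoluteValue L ℝ => Real.log (max (NV v F) (NV v B))) =
        fun v => Real.log (NV v F) := by
      funext v
      rw [hB, A2_zero, max_eq_left (NV_pos v hF).le]
    rw [h1]
    exact FS_log_NV hF
  · have h1 := FS_log_NV hF
    have h2 := FS_log_NV hB
    refine (Set.Finite.union h1 h2).subset ?_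
    intro v hv
    by_contra hc
    rw [Set.mem_union, not_or] at hc
    obtain ⟨hc1, hc2⟩ := hc
    have e1 : Real.log (NV v.val F) = 0 := by
      by_contra h0
      exact hc1 h0
    have e2 : Real.log (NV v.val B) = 0 := by
      by_contra h0
      exact hc2 h0
    apply hv
    show Real.log (max (NV v.val F) (NV v.val B)) = 0
    rcases max_choice (NV v.val F) (NV v.val B) with h | h
    · rw [h, e1]
    · rw [h, e2]

/-- (9.2) Notation: `s = 4 ^ e / (4096 D ^ 4)` (integer part), `k = 4 (s + 1)`.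
Proof. `4096 D^4 ≤ 4^e` gives `s ≥ 1`, `4^e < 4096 D^4 (s + 1)` (`Nat.lt_mul_div_succ` or similar). Let
`w = 8192 D ^ 6`: `Q.degreeOf (0, 0) ≤ 8 D^2 4^e ≤ 8 D^2 4096 D^4 (s + 1) = 32768 D^6 (s+1) = k w`.
Let `c` be from `exists_c` for `y = (0, 0)` and `k`, so `1 ≤ c ≤ 8 D^2 4^e + 1`. Let `A` be from `exists_A` and
`F = rdm (0, 0) k c (Q * A)`. `(Q * A).degreeOf (0, 0) < k w + k = k (w + 1)` (`degreeOf_mul_le`), so
`rdm_spec` gives `Q * A = F + (X (0,0) ^ k - C c) * B₀`; put `B = - B₀`: `F = Q * A + (X (0,0) ^ k - C c) * B`.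
`F ≠ 0`: otherwise `X (0,0)^k - C c ∣ Q * A` and `A = 0` by the choice of `c`. Degrees: `F.degreeOf (0, 0) ≤ s`;
`F`, `B` have degree `≤ 4 D^2 + 60 D^2 = 64 D^2` in `X (2, t)` and only involve the three variables;
`B.degreeOf (0, 0) ≤ (Q * A).degreeOf (0, 0) ≤ 8 D^2 4^e + 4 (s + 1) ≤ 16 D^2 4^e` (`s + 1 ≤ 2 s`,
`s ≤ 4^e`). Sizes: for every place `max (NV v F) (NV v B) ≤ cst v w * max 1 (v c) ^ w * NV v Q * NV v A`
(`cst v w ≥ 1`, `SN_NV.mul`), so (`gs_le`, `gs_add`, `FS_log_NV`, `FS_log_max`, `FS_log_cst`, `gs_log_max`,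
`gs_log_cst`; `FS` of the left hand side: `NV v F = 1` and `NV v B ≤ 1` at almost all places - if `B = 0` the
maximum is `NV v F`; if `B ≠ 0` it is also `1`)
`gs (log max) ≤ totalWeight log w + w totalWeight log c + nh Q + nh A`. Finally `log c ≤ log (9 D^2 4^e) ≤ C 4^e`,
`log (s + 1) ≤ 4^e` etc. -/
theorem exists_F (K : Type u) [Field K] [NumberField K] (D : ℕ) (hD : 1 ≤ D) :
    ∃ C : ℝ, 0 ≤ C ∧ ∀ (e : ℕ) (Q : MvPolynomial (Fin 4 × Fin 2) K), 4096 * D ^ 4 ≤ 4 ^ e →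
      Q ≠ 0 → Q.vars ⊆ {(0, 0), (2, 0), (2, 1)} → Q.degreeOf (0, 0) ≤ 8 * D ^ 2 * 4 ^ e →
      (∀ t, Q.degreeOf (2, t) ≤ 4 * D ^ 2) →
      ∃ (c : ℕ) (A B F : MvPolynomial (Fin 4 × Fin 2) K), 1 ≤ c ∧ c ≤ 8 * D ^ 2 * 4 ^ e + 1 ∧
        F ≠ 0 ∧
        F = Q * A + (X (0, 0) ^ (4 * (4 ^ e / (4096 * D ^ 4) + 1)) - MvPolynomial.C (c : K)) * B ∧
        F.vars ⊆ {(0, 0), (2, 0), (2, 1)} ∧ B.vars ⊆ {(0, 0), (2, 0), (2, 1)} ∧
        F.degreeOf (0, 0) ≤ 4 ^ e / (4096 * D ^ 4) ∧ B.degreeOf (0, 0) ≤ 16 * D ^ 2 * 4 ^ e ∧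
        (∀ t, F.degreeOf (2, t) ≤ 64 * D ^ 2) ∧ (∀ t, B.degreeOf (2, t) ≤ 64 * D ^ 2) ∧
        FS (fun v : AbsoluteValue K ℝ => Real.log (max (NV v F) (NV v B))) ∧
        gs (fun v : AbsoluteValue K ℝ => Real.log (max (NV v F) (NV v B))) ≤
          C * (4 ^ e + nh Q) := by
  obtain ⟨C1, hC1, hA⟩ := exists_A K D hD
  have hT : (0 : ℝ) ≤ totalWeight K := Nat.cast_nonneg _
  set w : ℕ := 8192 * D ^ 6 with hw
  have hD6 : 1 ≤ D ^ 6 := Nat.one_le_pow _ _ hD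
  have hD2 : 1 ≤ D ^ 2 := Nat.one_le_pow _ _ hD
  have hD4 : 1 ≤ D ^ 4 := Nat.one_le_pow _ _ hD
  have hw1 : 1 ≤ w := by omega
  have hlogw : 0 ≤ Real.log w := Real.log_nonneg (by exact_mod_cast hw1)
  have hwr : (0 : ℝ) ≤ w := Nat.cast_nonneg _
  refine ⟨totalWeight K * Real.log w + w * (totalWeight K * (9 * (D : ℝ) ^ 2)) + 1 +
    C1 * (3 + w * (9 * (D : ℝ) ^ 2)) + C1, ?_, ?_⟩
  · positivity
  intro e Q he hQ hQv hQ0 hQ2
  set s : ℕ := 4 ^ e / (4096 * D ^ 4) with hs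
  have hpos : 0 < 4096 * D ^ 4 := by omega
  have hs1 : 1 ≤ s := Nat.div_pos he hpos
  have hs4 : s ≤ 4 ^ e := Nat.div_le_self _ _
  have hlt : 4 ^ e < 4096 * D ^ 4 * (s + 1) := Nat.lt_mul_div_succ _ hpos
  have hQw : Q.degreeOf (0, 0) ≤ 4 * (s + 1) * w := by
    refine hQ0.trans ?_
    calc 8 * D ^ 2 * 4 ^ e ≤ 8 * D ^ 2 * (4096 * D ^ 4 * (s + 1)) := Nat.mul_le_mul_left _ hlt.le
      _ = 4 * (s + 1) * w := by rw [hw]; ring
  have hk1 : 1 ≤ 4 * (s + 1) := by omega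
  obtain ⟨c, hc1, hc2, hcA⟩ := exists_c ((0, 0) : Fin 4 × Fin 2) (4 * (s + 1)) hk1 Q hQ
  obtain ⟨A, hA0, hAv, hAd, hA2, hAr, hAh⟩ := hA s w c Q hc1 hQ hQv hQw hQ2
  have hQAd : (Q * A).degreeOf (0, 0) < 4 * (s + 1) * (w + 1) := by
    refine lt_of_le_of_lt (degreeOf_mul_le _ _ _) ?_
    have : 4 * (s + 1) * (w + 1) = 4 * (s + 1) * w + 4 * (s + 1) := by ring
    omega
  obtain ⟨-, hFd, hFv, hFN, B0, hB0, hBd, hBv, hBN⟩ :=
    rdm_spec ((0, 0) : Fin 4 × Fin 2) (4 * (s + 1)) hk1 (c : K) w (Q * A) hQAd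
  set F : MvPolynomial (Fin 4 × Fin 2) K := rdm (0, 0) (4 * (s + 1)) (c : K) (Q * A) with hF
  have hF0 : F ≠ 0 := by
    intro h0
    rw [h0, zero_add] at hB0
    apply hA0
    exact hcA A ⟨B0, hB0⟩ hAd
  have hQAv : (Q * A).vars ⊆ {(0, 0), (2, 0), (2, 1)} :=
    (vars_mul _ _).trans (Finset.union_subset hQv hAv)
  have hQA2 : ∀ t, (Q * A).degreeOf (2, t) ≤ 64 * D ^ 2 := by
    intro t
    refine (degreeOf_mul_le _ _ _).trans ?_
    have h1 := hQ2 t
    have h2 := hA2 t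
    omega
  have hQA0 : (Q * A).degreeOf (0, 0) ≤ 16 * D ^ 2 * 4 ^ e := by
    refine (degreeOf_mul_le _ _ _).trans ?_
    have h1 : 4 * (s + 1) ≤ 8 * D ^ 2 * 4 ^ e := by
      calc 4 * (s + 1) ≤ 8 * s := by omega
        _ ≤ 8 * 4 ^ e := Nat.mul_le_mul_left _ hs4
        _ = 8 * 1 * 4 ^ e := by ring
        _ ≤ 8 * D ^ 2 * 4 ^ e := Nat.mul_le_mul_right _ (Nat.mul_le_mul_left _ hD2)
    have h2 : 16 * D ^ 2 * 4 ^ e = 8 * D ^ 2 * 4 ^ e + 8 * D ^ 2 * 4 ^ e := by ring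
    omega
  have hcle : c ≤ 8 * D ^ 2 * 4 ^ e + 1 := by omega
  refine ⟨c, A, -B0, F, hc1, hcle, hF0, ?_, hFv.trans hQAv, ?_, hAr, ?_, fun t => (hFd _).trans (hQA2 t),
    ?_, J2d_FS hF0, ?_⟩
  · rw [hB0]
    ring
  · rw [vars_neg]
    exact hBv.trans hQAv
  · rw [degreeOf_neg]
    exact (hBd _).trans hQA0
  · intro t
    rw [degreeOf_neg]
    exact (hBd _).trans (hQA2 t)
  · have hQAne : Q * A ≠ 0 := mul_ne_zero hQ hA0
    have hstep : gs (fun v : AbsoluteValue K ℝ => Real.log (max (NV v F) (NV v (-B0)))) ≤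
        gs (fun v : AbsoluteValue K ℝ => (Real.log (cst v w) + w * Real.log (max 1 (v (c : K)))) +
          (Real.log (NV v Q) + Real.log (NV v A))) := by
      refine gs_le (J2d_FS hF0) (FS_add (FS_add (FS_log_cst w) (FS_const_mul _ (FS_log_max _)))
        (FS_add (FS_log_NV hQ) (FS_log_NV hA0))) ?_
      intro v _
      have hcs : 1 ≤ cst v w := one_le_cst v hw1
      have hmx : (0 : ℝ) < max 1 (v (c : K)) := lt_of_lt_of_le zero_lt_one (le_max_left _ _)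
      have hQp := NV_pos v hQ
      have hAp := NV_pos v hA0
      have h1 : Real.log (cst v w) + w * Real.log (max 1 (v (c : K))) +
          (Real.log (NV v Q) + Real.log (NV v A)) =
          Real.log (cst v w * (max 1 (v (c : K)) ^ w * (NV v Q * NV v A))) := by
        rw [Real.log_mul (by linarith) (by positivity), Real.log_mul (by positivity) (by positivity),
          Real.log_mul hQp.ne' hAp.ne', Real.log_pow]
        ring
      rw [h1]
      apply Real.log_le_log (lt_of_lt_of_le (NV_pos v hF0) (le_max_left _ _))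
      have h2 : NV v (Q * A) ≤ NV v Q * NV v A := (SN_NV v).mul Q A
      have h3 : max 1 (v (c : K)) ^ w * NV v (Q * A) ≤ max 1 (v (c : K)) ^ w * (NV v Q * NV v A) :=
        mul_le_mul_of_nonneg_left h2 (by positivity)
      have h4 : 0 ≤ max 1 (v (c : K)) ^ w * (NV v Q * NV v A) := by positivity
      apply max_le
      · refine (hFN v).trans (h3.trans ?_)
        nlinarith
      · have h5 : NV v (-B0) = NV v B0 := (SN_NV v).neg B0
        rw [h5]
        exact (hBN v).trans (mul_le_mul_of_nonneg_left h3 (by linarith))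
    have hsum : gs (fun v : AbsoluteValue K ℝ => (Real.log (cst v w) + w * Real.log (max 1 (v (c : K)))) +
          (Real.log (NV v Q) + Real.log (NV v A))) =
        gs (fun v : AbsoluteValue K ℝ => Real.log (cst v w)) + w * logHeight₁ (c : K) + (nh Q + nh A) := by
      rw [gs_add (FS_add (FS_log_cst w) (FS_const_mul _ (FS_log_max _)))
        (FS_add (FS_log_NV hQ) (FS_log_NV hA0)), gs_add (FS_log_cst w) (FS_const_mul _ (FS_log_max _)),
        gs_add (FS_log_NV hQ) (FS_log_NV hA0), gs_const_mul, gs_log_max]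
      rfl
    rw [hsum] at hstep
    have hcw := gs_log_cst (L := K) hw1
    have hch := J2d_height_nat (L := K) hc1
    have hE1 : (1 : ℝ) ≤ 4 ^ e := one_le_pow₀ (by norm_num)
    have hcr : (c : ℝ) ≤ 9 * (D : ℝ) ^ 2 * 4 ^ e := by
      have h1 : c ≤ 9 * D ^ 2 * 4 ^ e := by
        have h2 : 1 ≤ D ^ 2 * 4 ^ e := Nat.mul_pos (by omega) (by positivity)
        have h3 : 9 * D ^ 2 * 4 ^ e = 8 * D ^ 2 * 4 ^ e + D ^ 2 * 4 ^ e := by ring
        omega
      exact_mod_cast h1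
    have hlogc : Real.log c ≤ 9 * (D : ℝ) ^ 2 * 4 ^ e := (Real.log_le_self (Nat.cast_nonneg _)).trans hcr
    have hlogs : Real.log ((s : ℝ) + 1) ≤ 2 * 4 ^ e := by
      refine (Real.log_le_self (by positivity)).trans ?_
      have h1 : (s : ℝ) ≤ 4 ^ e := by exact_mod_cast hs4
      linarith
    have hnQ : 0 ≤ nh Q := nh_nonneg hQ
    set E : ℝ := 4 ^ e with hE
    set T : ℝ := (totalWeight K : ℝ) with hTd
    have i1 : T * Real.log w ≤ T * Real.log w * E := by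
      have : 0 ≤ T * Real.log w := mul_nonneg hT hlogw
      nlinarith
    have i2 : (w : ℝ) * logHeight₁ (c : K) ≤ w * (T * (9 * (D : ℝ) ^ 2)) * E := by
      have h1 : logHeight₁ (c : K) ≤ T * (9 * (D : ℝ) ^ 2 * E) :=
        hch.trans (mul_le_mul_of_nonneg_left hlogc hT)
      calc (w : ℝ) * logHeight₁ (c : K) ≤ w * (T * (9 * (D : ℝ) ^ 2 * E)) :=
            mul_le_mul_of_nonneg_left h1 hwr
        _ = w * (T * (9 * (D : ℝ) ^ 2)) * E := by ring
    have i3 : nh A ≤ C1 * (3 + w * (9 * (D : ℝ) ^ 2)) * E + C1 * nh Q := by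
      refine hAh.trans ?_
      have h1 : (w : ℝ) * Real.log c ≤ w * (9 * (D : ℝ) ^ 2) * E := by
        calc (w : ℝ) * Real.log c ≤ w * (9 * (D : ℝ) ^ 2 * E) := mul_le_mul_of_nonneg_left hlogc hwr
          _ = w * (9 * (D : ℝ) ^ 2) * E := by ring
      have h2 : 1 + Real.log ((s : ℝ) + 1) + w * Real.log c + nh Q ≤
          (3 + w * (9 * (D : ℝ) ^ 2)) * E + nh Q := by
        nlinarith
      calc C1 * (1 + Real.log ((s : ℝ) + 1) + w * Real.log c + nh Q) ≤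
            C1 * ((3 + w * (9 * (D : ℝ) ^ 2)) * E + nh Q) := mul_le_mul_of_nonneg_left h2 hC1
        _ = C1 * (3 + w * (9 * (D : ℝ) ^ 2)) * E + C1 * nh Q := by ring
    have j1 : 0 ≤ T * Real.log w := mul_nonneg hT hlogw
    have j2 : 0 ≤ (w : ℝ) * (T * (9 * (D : ℝ) ^ 2)) := by positivity
    have j3 : 0 ≤ C1 * (3 + w * (9 * (D : ℝ) ^ 2)) := by positivity
    have j4 : 0 ≤ (T * Real.log w) * nh Q := mul_nonneg j1 hnQ
    have j5 : 0 ≤ (w : ℝ) * (T * (9 * (D : ℝ) ^ 2)) * nh Q := mul_nonneg j2 hnQ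
    have j6 : 0 ≤ C1 * (3 + w * (9 * (D : ℝ) ^ 2)) * nh Q := mul_nonneg j3 hnQ
    have j7 : 0 ≤ C1 * E := mul_nonneg hC1 (by linarith)
    have j8 : 0 ≤ E := by linarith
    calc gs (fun v : AbsoluteValue K ℝ => Real.log (max (NV v F) (NV v (-B0)))) ≤
          T * Real.log w * E + w * (T * (9 * (D : ℝ) ^ 2)) * E +
            (nh Q + (C1 * (3 + w * (9 * (D : ℝ) ^ 2)) * E + C1 * nh Q)) := by linarith
      _ ≤ (T * Real.log w + w * (T * (9 * (D : ℝ) ^ 2)) + 1 +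
            C1 * (3 + w * (9 * (D : ℝ) ^ 2)) + C1) * (E + nh Q) := by
          linarith

end Pool.Agent.Lib.MP_17a322_nt.VJ
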