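import Pool.Agent.Lib.MP_17a322_nt.VJ.J4a

/-!
Order of vanishing of `N(X, α')` at `X = α` (9.4).
-/

universe u

namespace Pool.Agent.Lib.MP_17a322_nt.VJ

open MvPolynomial Height

private theorem J4b_sub {k ι : Type*} [Field k] [DecidableEq ι] (x y : ι) (hxy : x ≠ y)
    (m : ι →₀ ℕ) (hm : m.support ⊆ {x, y}) (a α' : k) :
    aeval (Function.update X y (C α')) (monomial m a) =
      (monomial (Finsupp.single x (m x)) (a * α' ^ (m y)) : MvPolynomial ι k) := by
  rw [aeval_monomial, Finsupp.prod_of_support_subset m hm _ (fun i _ => pow_zero _),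
    Finset.prod_pair hxy, Function.update_self, Function.update_of_ne hxy, X_pow_eq_monomial,
    ← C_pow, algebraMap_eq, mul_comm (monomial (Finsupp.single x (m x)) 1), ← mul_assoc,
    ← C_mul, C_mul_monomial, mul_one]

private theorem J4b_supp {k ι : Type*} [Field k] {N : MvPolynomial ι k} {s : Finset ι}
    (hv : N.vars ⊆ s) {m : ι →₀ ℕ} (hm : m ∈ N.support) : m.support ⊆ s := by
  classical
  intro t ht
  exact hv ((mem_vars_iff_mem_support t).mpr ⟨m, hm, ht⟩)

/-- If `N(X, α') = 0` then `α'` has small height.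
Proof. Let `m₀` be a monomial of `N` and `n = ∑_{m ∈ N.support, m x = m₀ x} monomial (single y (m y)) (coeff m N)`
(so `n ≠ 0`, `n.vars ⊆ {y}`). The coefficient of `X x ^ (m₀ x)` in `N(X x, α') = 0` is `n(α')`, so `n(α') = 0`,
and `h(α') ≤ nh n` (`logHeight_root_le`) `≤ nh N` (`NV_le_of_injOn`, `nh_le_of_NV_le` with `n = 1`). -/
theorem height_of_value_zero (k : Type u) [Field k] [NumberField k] {ι : Type*} [Fintype ι]
    [DecidableEq ι] (x y : ι) (hxy : x ≠ y) (N : MvPolynomial ι k) (hN : N ≠ 0)
    (hv : N.vars ⊆ {x, y}) (α' : k) (h : aeval (Function.update X y (C α')) N = 0) :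
    logHeight₁ α' ≤ nh N := by
  obtain ⟨m₀, hm₀⟩ := (support_nonempty (p := N)).mpr hN
  set a := m₀ x with ha
  set s := N.support.filter (fun m => m x = a) with hs
  have hdec : ∀ m ∈ N.support, m = Finsupp.single x (m x) + Finsupp.single y (m y) := by
    intro m hm
    have h1 := J4b_supp hv hm
    ext t
    rw [Finsupp.add_apply, Finsupp.single_apply, Finsupp.single_apply]
    by_cases htx : x = t
    · subst htx
      simp [Ne.symm hxy]
    · by_cases hty : y = t
      · subst hty
        simp [hxy]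
      · have h2 : t ∉ m.support := by
          intro ht
          have := h1 ht
          rw [Finset.mem_insert, Finset.mem_singleton] at this
          rcases this with h | h
          · exact htx h.symm
          · exact hty h.symm
        rw [Finsupp.notMem_support_iff.mp h2]
        simp [htx, hty]
  let n : MvPolynomial ι k := ∑ m ∈ s, monomial (Finsupp.single y (m y)) (coeff m N)
  have hcoeff : ∀ q : ι →₀ ℕ, coeff q n ≠ 0 → q = Finsupp.single y (q y) ∧
      coeff q n = coeff (Finsupp.single x a + q) N := by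
    intro q hq
    have h1 : coeff q n = ∑ m ∈ s, if Finsupp.single y (m y) = q then coeff m N else 0 := by
      show coeff q (∑ m ∈ s, monomial (Finsupp.single y (m y)) (coeff m N)) = _
      rw [coeff_sum]
      exact Finset.sum_congr rfl fun m _ => coeff_monomial _ _ _
    rw [h1] at hq
    obtain ⟨m, hm, hmq⟩ := Finset.exists_ne_zero_of_sum_ne_zero hq
    have h2 : Finsupp.single y (m y) = q := by
      by_contra h
      rw [if_neg h] at hmq
      exact hmq rfl
    rw [hs, Finset.mem_filter] at hm
    have h3 : m = Finsupp.single x a + q := by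
      rw [← h2, ← hm.2]
      exact hdec m hm.1
    refine ⟨?_, ?_⟩
    · rw [← h2]
      simp
    · rw [h1, Finset.sum_eq_single_of_mem m (by rw [hs, Finset.mem_filter]; exact hm), if_pos h2, ← h3]
      intro m' hm' hne
      rw [if_neg]
      intro h4
      apply hne
      rw [hs, Finset.mem_filter] at hm'
      rw [h3, hdec m' hm'.1, hm'.2, h4]
  have hn0 : coeff (Finsupp.single y (m₀ y)) n ≠ 0 := by
    have h1 : coeff (Finsupp.single y (m₀ y)) n = coeff m₀ N := by
      show coeff _ (∑ m ∈ s, monomial (Finsupp.single y (m y)) (coeff m N)) = _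
      rw [coeff_sum, Finset.sum_eq_single_of_mem m₀ (by rw [hs, Finset.mem_filter]; exact ⟨hm₀, rfl⟩)]
      · rw [coeff_monomial, if_pos rfl]
      · intro m' hm' hne
        rw [coeff_monomial, if_neg]
        intro h4
        apply hne
        rw [hs, Finset.mem_filter] at hm'
        rw [hdec m' hm'.1, hdec m₀ hm₀, hm'.2, h4]
    rw [h1]
    exact mem_support_iff.mp hm₀
  have hn : n ≠ 0 := by
    intro h0
    rw [h0, coeff_zero] at hn0
    exact hn0 rfl
  have hvn : n.vars ⊆ {y} := by
    intro t ht
    obtain ⟨q, hq, htq⟩ := (mem_vars_iff_mem_support t).mp ht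
    have h1 := (hcoeff q (mem_support_iff.mp hq)).1
    rw [Finset.mem_singleton]
    by_contra hty
    rw [Finsupp.mem_support_iff, h1, Finsupp.single_apply, if_neg (Ne.symm hty)] at htq
    exact htq rfl
  have hev : eval (fun _ => α') n = 0 := by
    have h1 : coeff (Finsupp.single x a) (aeval (Function.update X y (C α')) N) =
        ∑ m ∈ s, coeff m N * α' ^ (m y) := by
      conv_lhs => rw [← support_sum_monomial_coeff N, map_sum, coeff_sum]
      rw [hs, Finset.sum_filter]
      refine Finset.sum_congr rfl fun m hm => ?_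
      rw [J4b_sub x y hxy m (J4b_supp hv hm), coeff_monomial]
      by_cases hmx : m x = a
      · rw [if_pos hmx, hmx, if_pos rfl]
      · rw [if_neg hmx, if_neg]
        intro h
        apply hmx
        have := DFunLike.congr_fun h x
        simpa using this
    rw [h, coeff_zero] at h1
    show eval (fun _ => α') (∑ m ∈ s, monomial (Finsupp.single y (m y)) (coeff m N)) = 0
    rw [map_sum, h1]
    refine Finset.sum_congr rfl fun m _ => ?_
    rw [eval_monomial]
    congr 1
    exact Finsupp.prod_single_index (pow_zero _)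
  have h1 : logHeight₁ α' ≤ nh n := logHeight_root_le n hn y hvn (fun _ => α') hev
  have h2 : nh n ≤ nh N + totalWeight k * Real.log (1 : ℕ) := by
    refine nh_le_of_NV_le hN hn le_rfl fun v _ => ?_
    rw [cst_one, one_mul]
    refine NV_le_of_injOn v N n (fun q => Finsupp.single x a + q)
      (fun q _ q' _ hqq => add_left_cancel hqq) fun q hq => ?_
    exact (hcoeff q (mem_support_iff.mp hq)).2
  rw [Nat.cast_one, Real.log_one, mul_zero, add_zero] at h2
  exact h1.trans h2

private theorem J4b_congr {k ι : Type*} [Field k] (F : MvPolynomial ι k)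
    (f g : ι → MvPolynomial ι k) (h : ∀ i ∈ F.vars, f i = g i) : aeval f F = aeval g F :=
  eval₂Hom_congr' rfl (fun i hi _ => h i hi) rfl

private theorem J4b_aevalX {k ι : Type*} [Field k] (F : MvPolynomial ι k) :
    aeval (X : ι → MvPolynomial ι k) F = F := by
  rw [aeval_X_left]
  rfl

private theorem J4b_dvd_iff {k ι : Type*} [Field k] [DecidableEq ι] (x : ι) (α : k)
    (f : MvPolynomial ι k) : (X x - C α) ∣ f ↔ aeval (Function.update X x (C α)) f =
      (0 : MvPolynomial ι k) := by
  constructor
  · rintro ⟨g, rfl⟩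
    rw [map_mul, map_sub, aeval_X, Function.update_self, ← algebraMap_eq, AlgHom.commutes,
      sub_self, zero_mul]
  · intro h
    let I : Ideal (MvPolynomial ι k) := Ideal.span {X x - C α}
    have h1 : (Ideal.Quotient.mkₐ k I).comp (aeval (Function.update X x (C α))) =
        Ideal.Quotient.mkₐ k I := by
      apply MvPolynomial.algHom_ext
      intro t
      rw [AlgHom.comp_apply, aeval_X]
      by_cases ht : t = x
      · subst ht
        rw [Function.update_self]
        show Ideal.Quotient.mk I _ = Ideal.Quotient.mk I _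
        rw [eq_comm, Ideal.Quotient.eq]
        exact Ideal.mem_span_singleton_self _
      · rw [Function.update_of_ne ht]
    have h2 := DFunLike.congr_fun h1 f
    rw [AlgHom.comp_apply, h, map_zero] at h2
    have h3 : Ideal.Quotient.mk I f = 0 := h2.symm
    rw [Ideal.Quotient.eq_zero_iff_mem, Ideal.mem_span_singleton] at h3
    exact h3

private theorem J4b_prime {k ι : Type*} [Field k] [DecidableEq ι] (x : ι) (α : k) :
    Prime (X x - C α : MvPolynomial ι k) := by
  refine ⟨?_, ?_, ?_⟩
  · intro h
    have h1 := congrArg (eval (fun _ => α + 1)) h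
    rw [map_sub, eval_X, eval_C, map_zero, add_sub_cancel_left] at h1
    exact one_ne_zero h1
  · intro h
    have h1 := (J4b_dvd_iff x α 1).mp h.dvd
    rw [map_one] at h1
    exact one_ne_zero h1
  · intro a b hab
    rw [J4b_dvd_iff, map_mul, mul_eq_zero] at hab
    rcases hab with h | h
    · exact Or.inl ((J4b_dvd_iff x α a).mpr h)
    · exact Or.inr ((J4b_dvd_iff x α b).mpr h)

private theorem J4b_mult {k ι κ : Type*} [Field k] [DecidableEq ι] (x : ι) (α : k)
    (s : Finset κ) (f : κ → MvPolynomial ι k) (hf : ∀ j ∈ s, f j ≠ 0) (i : ℕ)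
    (h : (X x - C α) ^ i ∣ ∏ j ∈ s, f j) :
    ∃ m : κ → ℕ, (∀ j, (X x - C α) ^ m j ∣ f j) ∧ i ≤ ∑ j ∈ s, m j := by
  have hp := J4b_prime (k := k) x α
  refine ⟨fun j => multiplicity (X x - C α) (f j), fun j => pow_multiplicity_dvd _ _, ?_⟩
  rw [pow_dvd_iff_le_emultiplicity, Finset.emultiplicity_prod hp] at h
  have h1 : ∑ j ∈ s, emultiplicity (X x - C α) (f j) =
      ((∑ j ∈ s, multiplicity (X x - C α) (f j) : ℕ) : ℕ∞) := by
    rw [Nat.cast_sum]
    refine Finset.sum_congr rfl fun j hj => ?_
    exact (FiniteMultiplicity.of_prime_left hp (hf j hj)).emultiplicity_eq_multiplicity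
  rw [h1] at h
  exact_mod_cast h

/-- factorization -/
private theorem J4b_factor {k ι : Type*} [Field k] (N : MvPolynomial ι k) (hN : N ≠ 0) :
    ∃ (n : ℕ) (G : Option (Fin n) → MvPolynomial ι k), ∏ j, G j = N ∧
      (∀ i, Irreducible (G (some i))) ∧ ∃ c : k, G none = C c := by
  classical
  obtain ⟨u, hu⟩ := UniqueFactorizationMonoid.factors_prod hN
  obtain ⟨l, hl⟩ : ∃ l : List (MvPolynomial ι k),
      (l : Multiset (MvPolynomial ι k)) = UniqueFactorizationMonoid.factors N :=
    ⟨_, Multiset.coe_toList _⟩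
  refine ⟨l.length, fun o => o.elim (u : MvPolynomial ι k) (fun i => l[i.1]), ?_, ?_, ?_⟩
  · rw [Fintype.prod_option]
    show (u : MvPolynomial ι k) * ∏ i : Fin l.length, l[i.1] = N
    rw [Fin.prod_univ_getElem, mul_comm]
    rw [← hl, Multiset.prod_coe] at hu
    exact hu
  · intro i
    refine UniqueFactorizationMonoid.irreducible_of_factor (a := N) l[i.1] ?_
    rw [← hl]
    exact Multiset.mem_coe.mpr (List.getElem_mem _)
  · obtain ⟨r, -, hr⟩ := isUnit_iff_eq_C_of_isReduced.mp u.isUnit
    exact ⟨r, hr⟩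

/-- (9.4) Order of vanishing.
Proof. Write `N = ∏_{j ∈ s} G j` with `G j` irreducible or constant (`UniqueFactorizationMonoid.factors` of
`N` and a unit, which is a constant), indexed by `Fin n` say. `∑ nh (G j) ≤ nh N + 3 d (deg_x N + deg_y N)`
(`sum_nh_le`), `∑ deg_x (G j) = deg_x N`, `∑ deg_y (G j) = deg_y N ≤ r` (`degreeOf_prod_eq`). Let
`f_j = G j(X x, α') ≠ 0`; `X x - C α` is prime (`MvPolynomial`: for instance irreducible because of degree one,
or transfer to `Polynomial k`: all `f_j` are in the image of the injective map `Polynomial k → MvPolynomial ι k`,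
`X ↦ X x`, and `f_j` has a root multiplicity `m_j` at `α`), so there are `m_j` with
`(X x - C α) ^ m_j ∣ f_j` and `i ≤ ∑ m_j`; we may take `m_j = 0` if `f_j` is constant. For each `j`
(`d = [k : ℚ]`, `r_j = deg_y (G j)`, `x_j = deg_x (G j)`):
(A) `r_j = 0`: `f_j = G j`, so `m_j h(α) ≤ nh (G j) + 3 d x_j` (`root_mult`; `G j` involves only `x`);
(B) `r_j ≥ 1`, `x_j = 0`: `f_j` is constant, `m_j = 0`;
(C) `r_j ≥ 1`, `x_j ≥ 1`: `(m_j - 1) h(α) ≤ 2 r_j nh (G j) + 7 d r_j x_j` (`order_irreducible`).
In all cases `m_j h(α) ≤ r_j h(α) + (2 r + 1) nh (G j) + 7 d (r + 1) x_j`. Sum over `j`: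
`i h(α) ≤ r h(α) + (2 r + 1)(nh N + 3 d (deg_x N + r)) + 7 d (r + 1) deg_x N`, and
`3 (2 r + 1)(X + r) + 7 (r + 1) X ≤ 20 (r + 1)^2 (X + 1)`. -/
theorem order_le (k : Type u) [Field k] [NumberField k] {ι : Type*} [Fintype ι]
    [DecidableEq ι] (x y : ι) (hxy : x ≠ y) (N : MvPolynomial ι k) (hv : N.vars ⊆ {x, y})
    (r : ℕ) (hr : N.degreeOf y ≤ r) (α α' : k)
    (h0 : aeval (Function.update X y (C α')) N ≠ 0) (i : ℕ)
    (h : (X x - C α) ^ i ∣ aeval (Function.update X y (C α')) N) :
    (i : ℝ) * logHeight₁ α ≤ r * logHeight₁ α + (2 * r + 1) * nh N +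
      20 * Module.finrank ℚ k * (r + 1) ^ 2 * (N.degreeOf x + 1) := by
  classical
  have hN : N ≠ 0 := by
    rintro rfl
    exact h0 (map_zero _)
  obtain ⟨n, G, hG, hirr, c, hc⟩ := J4b_factor N hN
  set d : ℝ := (Module.finrank ℚ k : ℝ) with hd
  have hd0 : 0 ≤ d := Nat.cast_nonneg _
  have hG0 : ∀ j, G j ≠ 0 := by
    intro j hj
    apply hN
    rw [← hG]
    exact Finset.prod_eq_zero (Finset.mem_univ j) hj
  have hdeg : ∀ t, ∑ j, degreeOf t (G j) = degreeOf t N := by
    intro t
    rw [← hG, degreeOf_prod_eq _ _ (fun j _ => hG0 j)]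
  have hdegle : ∀ t j, degreeOf t (G j) ≤ degreeOf t N := by
    intro t j
    rw [← hdeg t]
    exact Finset.single_le_sum (f := fun j => degreeOf t (G j)) (fun _ _ => Nat.zero_le _)
      (Finset.mem_univ j)
  have hvG : ∀ j, (G j).vars ⊆ {x, y} := by
    intro j t ht
    apply hv
    rw [mem_vars_iff_degreeOf_ne_zero] at ht ⊢
    have := hdegle t j
    omega
  have hprod : ∏ j, aeval (Function.update X y (C α')) (G j) =
      aeval (Function.update X y (C α')) N := by
    rw [← map_prod, hG]
  have hf0 : ∀ j, aeval (Function.update X y (C α')) (G j) ≠ (0 : MvPolynomial ι k) := by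
    intro j hj
    apply h0
    rw [← hprod]
    exact Finset.prod_eq_zero (Finset.mem_univ j) hj
  rw [← hprod] at h
  obtain ⟨m, hm, him⟩ := J4b_mult x α Finset.univ
    (fun j => aeval (Function.update X y (C α')) (G j)) (fun j _ => hf0 j) i h
  have hh : 0 ≤ logHeight₁ α := zero_le_logHeight₁ α
  have hnh : ∀ j, 0 ≤ nh (G j) := fun j => nh_nonneg (hG0 j)
  have hr0 : (0 : ℝ) ≤ r := Nat.cast_nonneg _
  have key : ∀ j, (m j : ℝ) * logHeight₁ α ≤ degreeOf y (G j) * logHeight₁ α +
      (2 * r + 1) * nh (G j) + 7 * d * (r + 1) * degreeOf x (G j) := by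
    intro j
    have hX0 : (0 : ℝ) ≤ degreeOf x (G j) := Nat.cast_nonneg _
    have hY0 : (0 : ℝ) ≤ degreeOf y (G j) := Nat.cast_nonneg _
    have hYr : (degreeOf y (G j) : ℝ) ≤ r := by exact_mod_cast (hdegle y j).trans hr
    have e1 : 0 ≤ (degreeOf y (G j) : ℝ) * logHeight₁ α := mul_nonneg hY0 hh
    have e2 : 0 ≤ r * nh (G j) := mul_nonneg hr0 (hnh j)
    have e3 : 0 ≤ d * degreeOf x (G j) := mul_nonneg hd0 hX0
    have e4 : 0 ≤ r * (d * degreeOf x (G j)) := mul_nonneg hr0 e3
    by_cases hy : degreeOf y (G j) = 0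
    · have hvx : (G j).vars ⊆ {x} := by
        intro t ht
        have h1 := hvG j ht
        rw [Finset.mem_insert, Finset.mem_singleton] at h1
        rw [Finset.mem_singleton]
        rcases h1 with h1 | h1
        · exact h1
        · rw [mem_vars_iff_degreeOf_ne_zero, h1] at ht
          exact absurd hy ht
      have h2 : aeval (Function.update X y (C α')) (G j) = G j := by
        rw [J4b_congr (G j) _ X, J4b_aevalX]
        intro t ht
        rw [Function.update_of_ne]
        rintro rfl
        rw [mem_vars_iff_degreeOf_ne_zero] at ht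
        exact ht hy
      have h3 := hm j
      simp only [h2] at h3
      have h4 := root_mult k (G j) (hG0 j) x hvx α (m j) h3
      rw [← hd] at h4
      nlinarith [hnh j]
    · by_cases hx : degreeOf x (G j) = 0
      · have hmj : m j = 0 := by
          by_contra hne
          have h1 : (X x - C α) ∣ aeval (Function.update X y (C α')) (G j) :=
            (dvd_pow_self _ hne).trans (hm j)
          rw [J4b_dvd_iff] at h1
          apply hf0 j
          rw [← AlgHom.comp_apply, comp_aeval] at h1
          rw [← h1]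
          apply J4b_congr
          intro t ht
          have htx : t ≠ x := by
            rintro rfl
            rw [mem_vars_iff_degreeOf_ne_zero] at ht
            exact ht hx
          by_cases hty : t = y
          · subst hty
            simp only [Function.update_self]
            rw [← algebraMap_eq, AlgHom.commutes]
          · simp only [Function.update_of_ne hty, aeval_X, Function.update_of_ne htx]
        rw [hmj, Nat.cast_zero, zero_mul]
        nlinarith [hnh j]
      · have hir : Irreducible (G j) := by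
          cases j with
          | none =>
            exfalso
            apply hx
            rw [hc, degreeOf_C]
          | some i => exact hirr i
        have h1 := order_irreducible k x y hxy (G j) hir (hvG j) (Nat.one_le_iff_ne_zero.mpr hx)
          (Nat.one_le_iff_ne_zero.mpr hy) α α' (m j) (hm j)
        rw [← hd] at h1
        have hY1 : (1 : ℝ) ≤ degreeOf y (G j) := by exact_mod_cast Nat.one_le_iff_ne_zero.mpr hy
        have e5 : logHeight₁ α ≤ degreeOf y (G j) * logHeight₁ α := le_mul_of_one_le_left hh hY1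
        have e6 : (degreeOf y (G j) : ℝ) * nh (G j) ≤ r * nh (G j) :=
          mul_le_mul_of_nonneg_right hYr (hnh j)
        have e7 : (degreeOf y (G j) : ℝ) * (d * degreeOf x (G j)) ≤
            r * (d * degreeOf x (G j)) := mul_le_mul_of_nonneg_right hYr e3
        nlinarith [hnh j]
  have hsum1 : ∑ j, nh (G j) ≤ nh N + 3 * d * (degreeOf x N + degreeOf y N) := by
    have h1 := sum_nh_le k Finset.univ G (fun j _ => hG0 j)
    rw [hG, ← hd] at h1
    have h2 : ∑ t, (degreeOf t N : ℝ) = degreeOf x N + degreeOf y N := by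
      rw [← Finset.sum_pair (f := fun t => (degreeOf t N : ℝ)) hxy]
      symm
      refine Finset.sum_subset (Finset.subset_univ _) fun t _ ht => ?_
      have h3 : t ∉ N.vars := fun h => ht (hv h)
      rw [mem_vars_iff_degreeOf_ne_zero, not_not] at h3
      rw [h3, Nat.cast_zero]
    rw [h2] at h1
    exact h1
  have hsum2 : (i : ℝ) * logHeight₁ α ≤ degreeOf y N * logHeight₁ α +
      (2 * r + 1) * ∑ j, nh (G j) + 7 * d * (r + 1) * degreeOf x N := by
    have h1 : (i : ℝ) ≤ ∑ j, (m j : ℝ) := by exact_mod_cast him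
    have h2 := Finset.sum_le_sum fun j (_ : j ∈ Finset.univ) => key j
    rw [← Finset.sum_mul, Finset.sum_add_distrib, Finset.sum_add_distrib, ← Finset.sum_mul,
      ← Finset.mul_sum, ← Finset.mul_sum, ← Nat.cast_sum, ← Nat.cast_sum, ← Nat.cast_sum, hdeg,
      hdeg, Nat.cast_sum] at h2
    exact (mul_le_mul_of_nonneg_right h1 hh).trans h2
  have hYr : (degreeOf y N : ℝ) ≤ r := by exact_mod_cast hr
  have hX0 : (0 : ℝ) ≤ degreeOf x N := Nat.cast_nonneg _
  have e1 : (degreeOf y N : ℝ) * logHeight₁ α ≤ r * logHeight₁ α :=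
    mul_le_mul_of_nonneg_right hYr hh
  have e2 : ∑ j, nh (G j) ≤ nh N + 3 * d * (degreeOf x N + r) := by
    have : d * (degreeOf x N + degreeOf y N : ℝ) ≤ d * (degreeOf x N + r) :=
      mul_le_mul_of_nonneg_left (by linarith) hd0
    linarith
  have e3 : (2 * r + 1) * ∑ j, nh (G j) ≤ (2 * r + 1) * (nh N + 3 * d * (degreeOf x N + r)) :=
    mul_le_mul_of_nonneg_left e2 (by positivity)
  have e4 : (0 : ℝ) ≤ 20 * (r + 1) ^ 2 * (degreeOf x N + 1) -
      (3 * (2 * r + 1) * (degreeOf x N + r) + 7 * (r + 1) * degreeOf x N) := by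
    have e5 : 0 ≤ (r : ℝ) * degreeOf x N := mul_nonneg hr0 hX0
    have e6 : 0 ≤ (r : ℝ) * (r * degreeOf x N) := mul_nonneg hr0 e5
    nlinarith [mul_nonneg hr0 hr0]
  have e7 := mul_nonneg hd0 e4
  nlinarith

end Pool.Agent.Lib.MP_17a322_nt.VJ
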