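import Pool.Agent.Lib.MP_17a322_nt.VJ.J1c
import Pool.Agent.Lib.MP_17a322_nt.VJ.J2d
import Pool.Agent.Lib.MP_17a322_nt.VJ.J4b
import Pool.Agent.Lib.MP_17a322_nt.VJ.J10e
import Pool.Agent.Lib.MP_17a322_nt.VJ.J11
import Pool.Agent.Lib.MP_17a322_nt.VJ.IF_B

/-!
Stage II: the inequalities for two points on two curves.
-/

universe u

namespace Pool.Agent.Lib.MP_17a322_nt.VJ

open MvPolynomial Height
open Pool.Agent.Lib.MP_17a322_nt.RO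

/-- The chart: `c t = true` iff `q t = 0`. -/
theorem exists_chart {K : Type*} [Field K] [DecidableEq K] {W : Fin 2 → WeierstrassCurve K}
    (q : ∀ t, (W t).toAffine.Point) :
    ∃ c : Fin 2 → Bool, ∀ t, (q t).xRep (if c t then 0 else 1) ≠ 0 := by
  have h : ∀ t, ∃ b : Bool, (q t).xRep (if b then 0 else 1) ≠ 0 := by
    intro t
    by_cases hq : q t = 0
    · refine ⟨true, ?_⟩
      rw [if_pos rfl, hq, xRep_zero]
      exact one_ne_zero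
    · refine ⟨false, ?_⟩
      rw [if_neg (by simp), xRep_one hq]
      exact one_ne_zero
  choose c hc using h
  exact ⟨c, hc⟩

/-- The two laws. -/
theorem J12a_par {K : Type u} [Field K] [NumberField K] [DecidableEq K]
    (W : Fin 2 → WeierstrassCurve K) [∀ t, (W t).IsElliptic] :
    ∃ CE : ℝ, 0 ≤ CE ∧ ∀ (t : Fin 2) (P Q : (W t).toAffine.Point) (e : ℕ),
      2 * logHeight Q.xRep + 2 * 4 ^ e * logHeight P.xRep - 3 * 4 ^ e * CE ≤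
        logHeight (Q + 2 ^ e • P).xRep + logHeight (Q - 2 ^ e • P).xRep := by
  choose C hC h using fun t : Fin 2 => height_unif (W t)
  refine ⟨(∑ t, C t) * Module.finrank ℚ K, ?_, ?_⟩
  · exact mul_nonneg (Finset.sum_nonneg fun t _ => hC t) (Nat.cast_nonneg _)
  · intro t P Q e
    obtain ⟨h1, _, h3, _⟩ := h t K (W t) (map_self (W t))
    have hCt : C t * Module.finrank ℚ K ≤ (∑ t, C t) * Module.finrank ℚ K :=
      mul_le_mul_of_nonneg_right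
        (Finset.single_le_sum (fun t _ => hC t) (Finset.mem_univ t)) (Nat.cast_nonneg _)
    have hC0 : 0 ≤ C t * Module.finrank ℚ K := mul_nonneg (hC t) (Nat.cast_nonneg _)
    have e1 := (abs_le.mp (h1 Q (2 ^ e • P))).1
    have e3 := (abs_le.mp (h3 P e)).1
    have e4 : (1 : ℝ) ≤ 4 ^ e := one_le_pow₀ (by norm_num)
    generalize C t * Module.finrank ℚ K = a at *
    generalize (∑ t, C t) * Module.finrank ℚ K = b at *
    have e5 : 4 ^ e * a ≤ 4 ^ e * b := mul_le_mul_of_nonneg_left hCt (by positivity)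
    have e6 : a ≤ 4 ^ e * a := le_mul_of_one_le_left hC0 e4
    linarith

theorem J12a_ph {K : Type u} [Field K] [NumberField K] [DecidableEq K]
    (W : Fin 2 → WeierstrassCurve K) [∀ t, (W t).IsElliptic] :
    ∃ Cp : ℝ, 0 ≤ Cp ∧ ∀ (t : Fin 2) (P : (W t).toAffine.Point),
      Cp < logHeight P.xRep → ph (W t) P.xRep ≠ 0 := by
  choose C hC h using fun t : Fin 2 => ph_ne_zero_of_height (W t)
  refine ⟨∑ t, C t, Finset.sum_nonneg fun t _ => hC t,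
    fun t P hP => h t P (lt_of_le_of_lt ?_ hP)⟩
  exact Finset.single_le_sum (fun t _ => hC t) (Finset.mem_univ t)

theorem J12a_bound {n : ℕ} (f : Fin n → ℝ) : ∃ C : ℝ, 0 ≤ C ∧ ∀ i, f i ≤ C := by
  refine ⟨∑ i, |f i|, Finset.sum_nonneg fun i _ => abs_nonneg _, fun i => ?_⟩
  exact (le_abs_self _).trans
    (Finset.single_le_sum (f := fun i => |f i|) (fun i _ => abs_nonneg _) (Finset.mem_univ i))

theorem J12a_pow {d D E s l h : ℝ} (hd : 0 ≤ d) (hD : 1 ≤ D) (hE : 0 < E)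
    (hs : E ≤ 4096 * D ^ 4 * (s + 1)) (hl : l ≤ 9 * D ^ 2 * E) (hh : 9216 * d * D ^ 6 < h)
    (hs0 : 0 ≤ s) : d * l < 4 * (s + 1) * h := by
  have h1 : d * l ≤ d * (9 * D ^ 2 * E) := mul_le_mul_of_nonneg_left hl hd
  have h2 : d * (9 * D ^ 2 * E) ≤ d * (9 * D ^ 2 * (4096 * D ^ 4 * (s + 1))) := by
    apply mul_le_mul_of_nonneg_left _ hd
    exact mul_le_mul_of_nonneg_left hs (by positivity)
  have h3 : 4 * (s + 1) * (9216 * d * D ^ 6) < 4 * (s + 1) * h :=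
    mul_lt_mul_of_pos_left hh (by positivity)
  have h4 : d * (9 * D ^ 2 * (4096 * D ^ 4 * (s + 1))) = 4 * (s + 1) * (9216 * d * D ^ 6) := by
    ring
  linarith

theorem J12a_first {n h r N d E deg D2 Z C2 C : ℝ} (hr : 0 ≤ r) (hd : 0 ≤ d) (hD2 : 0 ≤ D2)
    (hh : 0 ≤ h) (hZ : 0 ≤ Z) (hEZ : E ≤ Z)
    (hord : n * h ≤ r * h + (2 * r + 1) * N + 20 * d * (r + 1) ^ 2 * (deg + 1))
    (hN : N ≤ C2 * Z) (hdeg : deg + 1 ≤ (r + 4 * D2 + 1) * E) (hrC : r ≤ C)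
    (hC : (2 * r + 1) * C2 + 20 * d * (r + 1) ^ 2 * (r + 4 * D2 + 1) ≤ C) :
    n * h ≤ C * h + C * Z := by
  have h1 : r * h ≤ C * h := mul_le_mul_of_nonneg_right hrC hh
  have h2 : (2 * r + 1) * N ≤ (2 * r + 1) * (C2 * Z) :=
    mul_le_mul_of_nonneg_left hN (by positivity)
  have h3 : deg + 1 ≤ (r + 4 * D2 + 1) * Z :=
    hdeg.trans (mul_le_mul_of_nonneg_left hEZ (by positivity))
  have h4 : 20 * d * (r + 1) ^ 2 * (deg + 1) ≤
      20 * d * (r + 1) ^ 2 * ((r + 4 * D2 + 1) * Z) :=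
    mul_le_mul_of_nonneg_left h3 (by positivity)
  have h5 : ((2 * r + 1) * C2 + 20 * d * (r + 1) ^ 2 * (r + 4 * D2 + 1)) * Z ≤ C * Z :=
    mul_le_mul_of_nonneg_right hC hZ
  have h6 : ((2 * r + 1) * C2 + 20 * d * (r + 1) ^ 2 * (r + 4 * D2 + 1)) * Z =
      (2 * r + 1) * (C2 * Z) + 20 * d * (r + 1) ^ 2 * ((r + 4 * D2 + 1) * Z) := by ring
  linarith

theorem J12a_second {κ h b n G H H' E L Z C C1 CB CE D2 Sq Sp k s GG : ℝ} (hκ : 0 ≤ κ)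
    (hh : 0 ≤ h) (hb : 0 ≤ b) (hn : 0 ≤ n) (hGH : 0 ≤ 1 + G + H) (hD2 : 0 ≤ D2)
    (hC1 : 0 ≤ C1) (hCB : 0 ≤ CB) (hCE : 0 ≤ CE) (hE : 0 ≤ E) (hEZ : E ≤ Z)
    (hfin : b * Sp + (k - s) * h ≤ n * (CB * (1 + G + H)) + GG + b * (2 * E * H + 2 * H') +
      CB * (E + L))
    (hpar : 2 * H' + 2 * E * H - 6 * E * CE ≤ Sp + Sq) (hGG : GG ≤ C1 * Z)
    (hL : L ≤ 18 * D2 * E) (hk : 3 * E ≤ κ * (k - s)) (hBC : CB ≤ C)
    (hC : C1 + b * (6 * CE) + CB * (1 + 18 * D2) ≤ C) :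
    3 * E * h ≤ κ * (n * (C * (1 + G + H)) + C * Z + b * Sq) := by
  have hZ : 0 ≤ Z := hE.trans hEZ
  have h1 : 3 * E * h ≤ κ * (k - s) * h := mul_le_mul_of_nonneg_right hk hh
  have h2 : (k - s) * h ≤ n * (C * (1 + G + H)) + C * Z + b * Sq := by
    have e1 : n * (CB * (1 + G + H)) ≤ n * (C * (1 + G + H)) :=
      mul_le_mul_of_nonneg_left (mul_le_mul_of_nonneg_right hBC hGH) hn
    have e2 : b * (2 * H' + 2 * E * H - 6 * E * CE) ≤ b * (Sp + Sq) :=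
      mul_le_mul_of_nonneg_left hpar hb
    have e3 : CB * (E + L) ≤ CB * (E + 18 * D2 * E) :=
      mul_le_mul_of_nonneg_left (by linarith only [hL]) hCB
    have e4 : (b * (6 * CE) + CB * (1 + 18 * D2)) * E ≤
        (b * (6 * CE) + CB * (1 + 18 * D2)) * Z :=
      mul_le_mul_of_nonneg_left hEZ (by positivity)
    have e5 : (C1 + b * (6 * CE) + CB * (1 + 18 * D2)) * Z ≤ C * Z :=
      mul_le_mul_of_nonneg_right hC hZ
    have e6 : b * (2 * E * H + 2 * H') = b * (2 * H' + 2 * E * H - 6 * E * CE) +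
        b * (6 * CE) * E := by ring
    have e7 : (C1 + b * (6 * CE) + CB * (1 + 18 * D2)) * Z =
        C1 * Z + (b * (6 * CE) + CB * (1 + 18 * D2)) * Z := by ring
    have e8 : (b * (6 * CE) + CB * (1 + 18 * D2)) * E =
        b * (6 * CE) * E + CB * (E + 18 * D2 * E) := by ring
    have e9 : b * (Sp + Sq) = b * Sp + b * Sq := by ring
    linarith only [hfin, e1, e2, e3, e4, e5, e6, e7, e8, e9, hGG]
  calc 3 * E * h ≤ κ * (k - s) * h := h1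
    _ = κ * ((k - s) * h) := by ring
    _ ≤ _ := mul_le_mul_of_nonneg_left h2 hκ

theorem J12a_Z {E G G' : ℝ} (hE : 0 ≤ E) (hG : 0 ≤ G) (hG' : 0 ≤ G') :
    E ≤ E * (1 + G) + G' := by
  have h1 : 0 ≤ E * G := mul_nonneg hE hG
  linarith only [h1, hG']

/-- From (9.7) and the parallelogram law.
Notation: `E = 4 ^ e`, `Z = E (1 + nh g) + nh g' ≥ E`, `d = [K : ℚ]`, `h0 = logHeight (P 0).xRep = logHeight₁ α`,
`α = (P 0).xRep 0`, `α' = (P' 0).xRep 0` (`logHeight_xRep`), `b = 64 D^2`, `κ = 4096 D^4`, `s = 4 ^ e / κ`, `k = 4 (s + 1)`,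
`w = 16384 D^6`, `q t = P' t - 2 ^ e • P t`, `qb t = P' t + 2 ^ e • P t`.
Constants: `C_Q` (`nh_QQ_le`), `C_F` (`exists_F`), `C_N` (`nh_NN_le` for `b`), `C_B` (`final_ineq` for `D, b, w`), `C_E`
(`height_unif` for `W 0`, `W 1`, `L = K`), `C_a` (`pderiv_ne_zero_of_height`), `C_p` (`ph_ne_zero_of_height` for both
curves), `Cs`, `e₀` (`ind`). `R₀ = max (4 ^ e₀) (4096 D^4)`, `C` large in terms of all of these.
Proof. `R₀ ≤ 4 ^ e` gives `e₀ ≤ e`, `κ ≤ 4 ^ e`. `QQ ≠ 0` (`QQ_ne_zero`), `QQ_vars`, `QQ_degreeOf`; take `cc, A, B, F` from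
`exists_F`, for the chart `c` of `exists_chart`. `GG := gs (log max(NV F, NV B)) ≤ C_F (E + nh QQ) ≤ C Z`,
`nh F ≤ GG` (`gs_le`). `NN ≠ 0`: otherwise `ind` gives `nh g ≤ Cs` (`32 D^2 b s = 2048 D^4 s < 4 ^ e` as `4096 D^4 s ≤ 4 ^ e`).
`nh NN ≤ C_N (E (1 + nh g) + nh g' + nh F) ≤ C Z`.
`aeval (update X (1,0) (C α')) NN ≠ 0`: otherwise `h(α') ≤ nh NN` (`height_of_value_zero`), against the hypothesis.
`eval .. (pderiv 1 g) ≠ 0`, `ph ≠ 0`: hypotheses on the heights. `α ^ k ≠ cc` (`pow_ne_natCast`): `cc ≤ 8 D^2 4^e + 1 ≤ 9 D^2 4^e`,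
so `d log cc ≤ d 9 D^2 4^e`, and `k h0 ≥ 4 (4^e / κ) h0` (real division; `4^e < κ (s + 1)`).
`16 D^2 4^e ≤ 16 D^2 κ (s + 1) = 65536 D^6 (s+1) = w k`. So `final_ineq` applies and gives `n`.
Order: `order_le` for `N = NN`, `x = (0,0)`, `y = (1,0)`, `r = 8 b D^2`, `i = n`:
`n h0 ≤ r h0 + (2 r + 1) nh NN + 20 d (r + 1)^2 (deg + 1)`, `deg ≤ 8 b D^2 4^e + 4 D^2 s ≤ 12 b D^2 4^e`: the first claim.
Second claim: by `height_unif` (laws (1), (3)) `∑ h(qb t) + ∑ h(q t) ≥ 2 HH P' + 2 E HH P - C E`, so `final_ineq` gives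
`(k - s) h0 ≤ n C_B (1 + nh g + HH P) + GG + b ∑ h(q t) + C E + C_B (E + log (2 cc))`, `log (2 cc) ≤ 18 D^2 4^e`; and
`κ (k - s) ≥ 3 κ (s + 1) ≥ 3 E`. -/
theorem stageII_core {K : Type u} [Field K] [NumberField K] [DecidableEq K]
    (W : Fin 2 → WeierstrassCurve K) [∀ t, (W t).IsElliptic] (D : ℕ) (hD : 1 ≤ D) :
    ∃ (C Cs : ℝ) (R₀ : ℕ), 0 ≤ C ∧ ∀ (g g' : MvPolynomial (Fin 2) K)
      (P P' : ∀ t, (W t).toAffine.Point) (e : ℕ), GC g D → GC g' D → tc g = 0 →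
      (∀ t, P t ≠ 0) → (∀ t, P' t ≠ 0) →
      eval (fun t => (P t).xRep 0) g = 0 → eval (fun t => (P' t).xRep 0) g' = 0 →
      R₀ ≤ 4 ^ e → Cs < nh g →
      C * (1 + nh g) < logHeight (P 0).xRep → (∀ t, C < logHeight (P t).xRep) →
      (∀ t, C < logHeight (P' t).xRep) →
      C * (4 ^ e * (1 + nh g) + nh g') < logHeight (P' 0).xRep →
      ∃ n : ℕ, n * logHeight (P 0).xRep ≤
          C * logHeight (P 0).xRep + C * (4 ^ e * (1 + nh g) + nh g') ∧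
        3 * 4 ^ e * logHeight (P 0).xRep ≤ 4096 * D ^ 4 * (n * (C * (1 + nh g + HH P)) +
          C * (4 ^ e * (1 + nh g) + nh g') +
          64 * D ^ 2 * ∑ t, logHeight (P' t - 2 ^ e • P t).xRep) := by
  obtain ⟨CQ, hCQ0, hCQ⟩ := nh_QQ_le W D
  obtain ⟨CF, hCF0, hCF⟩ := exists_F K D hD
  obtain ⟨CN, hCN0, hCN⟩ := nh_NN_le W D (64 * D ^ 2)
  obtain ⟨CB, hCB0, hCB⟩ := final_ineq W D (64 * D ^ 2) (16384 * D ^ 6)
  obtain ⟨CE, hCE0, hCE⟩ := J12a_par W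
  obtain ⟨Ca, hCa0, hCa⟩ := pderiv_ne_zero_of_height K D
  obtain ⟨Cp, hCp0, hCp⟩ := J12a_ph W
  obtain ⟨Cs, e₀, hind⟩ := ind W D
  obtain ⟨d, hd⟩ : ∃ d : ℝ, d = (Module.finrank ℚ K : ℝ) := ⟨_, rfl⟩
  have hd0 : 0 ≤ d := by rw [hd]; exact Nat.cast_nonneg _
  have hD1 : (1 : ℝ) ≤ D := by exact_mod_cast hD
  have hD0 : (0 : ℝ) ≤ D := by linarith
  obtain ⟨C1, hC1⟩ : ∃ C1 : ℝ, C1 = CF * (1 + CQ) := ⟨_, rfl⟩
  have hC10 : 0 ≤ C1 := by rw [hC1]; positivity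
  obtain ⟨C2, hC2⟩ : ∃ C2 : ℝ, C2 = CN * (1 + C1) := ⟨_, rfl⟩
  have hC20 : 0 ≤ C2 := by rw [hC2]; positivity
  obtain ⟨r, hr⟩ : ∃ r : ℕ, r = 8 * (64 * D ^ 2) * D ^ 2 := ⟨_, rfl⟩
  obtain ⟨C, hC0, hC⟩ := J12a_bound ![C2, Ca, Cp, 9216 * d * (D : ℝ) ^ 6, (r : ℝ),
    (2 * r + 1) * C2 + 20 * d * (r + 1) ^ 2 * (r + 4 * (D : ℝ) ^ 2 + 1), CB,
    C1 + 64 * (D : ℝ) ^ 2 * (6 * CE) + CB * (1 + 18 * (D : ℝ) ^ 2)]
  have hb2 : C2 ≤ C := hC 0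
  have hba : Ca ≤ C := hC 1
  have hbp : Cp ≤ C := hC 2
  have hbd : 9216 * d * (D : ℝ) ^ 6 ≤ C := hC 3
  have hbr : (r : ℝ) ≤ C := hC 4
  have hb3 : (2 * r + 1) * C2 + 20 * d * (r + 1) ^ 2 * (r + 4 * (D : ℝ) ^ 2 + 1) ≤ C := hC 5
  have hbB : CB ≤ C := hC 6
  have hb4 : C1 + 64 * (D : ℝ) ^ 2 * (6 * CE) + CB * (1 + 18 * (D : ℝ) ^ 2) ≤ C := hC 7
  clear hC
  refine ⟨C, Cs, max (4 ^ e₀) (4096 * D ^ 4), hC0, ?_⟩
  intro g g' P P' e hg hg' htc hP hP' hPg hPg' hR hGs hh0 hhP hhP' hα'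
  have he₀ : e₀ ≤ e := (Nat.pow_le_pow_iff_right (by norm_num : 1 < 4)).mp
    ((le_max_left _ _).trans hR)
  have hκ : 4096 * D ^ 4 ≤ 4 ^ e := (le_max_right _ _).trans hR
  have hgd : ∀ t, 1 ≤ g.degreeOf t ∧ g.degreeOf t ≤ D := hg.2
  have hgd' : ∀ t, 1 ≤ g'.degreeOf t ∧ g'.degreeOf t ≤ D := hg'.2
  have hg0 : g ≠ 0 := hg.ne_zero
  have hg0' : g' ≠ 0 := hg'.ne_zero
  obtain ⟨c, hc⟩ := exists_chart (fun t => P' t - 2 ^ e • P t)
  have hQ0 := QQ_ne_zero W e c g g' D hg hg'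
  have hQh := hCQ e c g g' hg0 hg0' hgd hgd' hQ0
  obtain ⟨hQd0, hQd2⟩ := QQ_degreeOf W e c g g' D (fun t => (hgd t).2) (fun t => (hgd' t).2)
  obtain ⟨cc, A, B, F, hcc1, hcc2, hF0, hFeq, hFv, hBv, hFd, hBd, hFd2, hBd2, hFS, hGG⟩ :=
    hCF e _ hκ hQ0 (QQ_vars W e c g g') hQd0 hQd2
  have hDpos : 0 < 4096 * D ^ 4 := by positivity
  have hs1 : 4096 * D ^ 4 * (4 ^ e / (4096 * D ^ 4)) ≤ 4 ^ e := Nat.mul_div_le _ _
  have hs2 : 4 ^ e < 4096 * D ^ 4 * (4 ^ e / (4096 * D ^ 4) + 1) := Nat.lt_mul_div_succ _ hDpos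
  have hse : 4 ^ e / (4096 * D ^ 4) ≤ 4 ^ e := Nat.div_le_self _ _
  generalize 4 ^ e / (4096 * D ^ 4) = s at *
  obtain ⟨k, hk⟩ : ∃ k : ℕ, k = 4 * (s + 1) := ⟨_, rfl⟩
  rw [← hk] at hFeq
  have hE1 : (1 : ℝ) ≤ 4 ^ e := one_le_pow₀ (by norm_num)
  have hG0 : 0 ≤ nh g := nh_nonneg hg0
  have hG0' : 0 ≤ nh g' := nh_nonneg hg0'
  have h4pos : 0 < 4 ^ e := by positivity
  have hs1r : 4096 * (D : ℝ) ^ 4 * s ≤ 4 ^ e := by exact_mod_cast hs1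
  have hs2r : (4 : ℝ) ^ e ≤ 4096 * (D : ℝ) ^ 4 * (s + 1) := by exact_mod_cast hs2.le
  have hser : (s : ℝ) ≤ 4 ^ e := by exact_mod_cast hse
  -- the eliminant does not vanish
  have hN0 : NN W e c g g' F ≠ 0 := by
    intro h0
    refine absurd (hind g g' F c e s (64 * D ^ 2) hg hg' htc hF0 hFv hFd hFd2 he₀ ?_ h0)
      (not_le.mpr hGs)
    have h1 : 2 * (32 * D ^ 2 * (64 * D ^ 2) * s) = 4096 * D ^ 4 * s := by ring
    linarith only [h1, hs1, h4pos]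
  have hnF : nh F ≤ gs (fun v : AbsoluteValue K ℝ => Real.log (max (NV v F) (NV v B))) :=
    gs_le (FS_log_NV hF0) hFS
      (fun v _ => Real.log_le_log (NV_pos v hF0) (le_max_left _ _))
  have hNh := hCN e c g g' F hg0 hg0' hgd hgd' hFv hFd2 hF0 hN0
  obtain ⟨Z, hZ⟩ : ∃ Z : ℝ, Z = 4 ^ e * (1 + nh g) + nh g' := ⟨_, rfl⟩
  have hEZ : (4 : ℝ) ^ e ≤ Z := by
    rw [hZ]
    exact J12a_Z (by positivity) hG0 hG0'
  have hZ0 : 0 ≤ Z := (by positivity : (0 : ℝ) ≤ 4 ^ e).trans hEZ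
  rw [← hZ] at hQh hNh hα' ⊢
  have hGG1 : gs (fun v : AbsoluteValue K ℝ => Real.log (max (NV v F) (NV v B))) ≤ C1 * Z := by
    refine hGG.trans ?_
    rw [hC1, mul_assoc]
    apply mul_le_mul_of_nonneg_left _ hCF0
    linarith only [hQh, hEZ]
  have hN1 : nh (NN W e c g g' F) ≤ C2 * Z := by
    refine hNh.trans ?_
    rw [hC2, mul_assoc]
    apply mul_le_mul_of_nonneg_left _ hCN0
    have h1 := hnF.trans hGG1
    linarith only [h1]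
  have hlα' : logHeight (P' 0).xRep = logHeight₁ ((P' 0).xRep 0) := logHeight_xRep (hP' 0)
  have hlα : logHeight (P 0).xRep = logHeight₁ ((P 0).xRep 0) := logHeight_xRep (hP 0)
  have hNv := NN_vars W e c g g' F hFv
  have hval : aeval (Function.update X ((1, 0) : Fin 4 × Fin 2) (MvPolynomial.C ((P' 0).xRep 0)))
      (NN W e c g g' F) ≠ 0 := by
    intro h0
    have h1 := height_of_value_zero K ((0, 0) : Fin 4 × Fin 2) (1, 0) (by decide) _ hN0 hNv _ h0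
    rw [← hlα'] at h1
    have h2 : C2 * Z ≤ C * Z := mul_le_mul_of_nonneg_right hb2 hZ0
    exact absurd hα' (not_lt.mpr ((h1.trans hN1).trans h2))
  have hpd : eval (fun t => (P t).xRep 0) (pderiv 1 g) ≠ 0 := by
    apply hCa g _ hg hPg
    show Ca * (1 + nh g) < logHeight₁ ((P 0).xRep 0)
    rw [← hlα]
    refine lt_of_le_of_lt ?_ hh0
    exact mul_le_mul_of_nonneg_right hba (add_nonneg zero_le_one hG0)
  have hccr : (cc : ℝ) ≤ 9 * (D : ℝ) ^ 2 * 4 ^ e := by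
    have h1 : (cc : ℝ) ≤ 8 * (D : ℝ) ^ 2 * 4 ^ e + 1 := by exact_mod_cast hcc2
    have h2 : (1 : ℝ) ≤ (D : ℝ) ^ 2 * 4 ^ e :=
      one_le_mul_of_one_le_of_one_le (one_le_pow₀ hD1) hE1
    linarith only [h1, h2]
  have hcc0 : (1 : ℝ) ≤ cc := by exact_mod_cast hcc1
  have hkr : (k : ℝ) = 4 * (s + 1) := by rw [hk]; push_cast; ring
  have hpow : (P 0).xRep 0 ^ k ≠ (cc : K) := by
    apply pow_ne_natCast K _ k cc hcc1
    rw [← hlα, ← hd, hkr]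
    have h1 : Real.log cc ≤ 9 * (D : ℝ) ^ 2 * 4 ^ e :=
      ((Real.log_le_sub_one_of_pos (by linarith only [hcc0])).trans
        (by linarith only)).trans hccr
    exact J12a_pow hd0 hD1 (by positivity) hs2r h1 (lt_of_le_of_lt hbd (hhP 0)) (by positivity)
  have hk1 : 1 ≤ k := by omega
  have hsk : s ≤ k := by omega
  have hwk : 16 * D ^ 2 * 4 ^ e ≤ 16384 * D ^ 6 * k := by
    calc 16 * D ^ 2 * 4 ^ e ≤ 16 * D ^ 2 * (4096 * D ^ 4 * (s + 1)) :=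
          Nat.mul_le_mul_left _ hs2.le
      _ = 16384 * D ^ 6 * k := by rw [hk]; ring
  obtain ⟨n, hdvd, hfin⟩ := hCB g g' P P' e k s cc c F A B hg hg' hP hP' hPg hPg' hpd
    (fun t => hCp t (P t) (lt_of_le_of_lt hbp (hhP t)))
    (fun t => hCp t (P' t) (lt_of_le_of_lt hbp (hhP' t))) hc hFv hBv hFd2 hBd2 hFd hBd hse hk1 hsk
    hwk hcc1 hFeq hF0 hFS hpow hval
  obtain ⟨hNd0, hNd1⟩ := NN_degreeOf W e c g g' D (fun t => (hgd t).2) (fun t => (hgd' t).2) F hFv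
    s (64 * D ^ 2) hFd hFd2
  rw [← hr] at hNd0 hNd1
  have hord := order_le K ((0, 0) : Fin 4 × Fin 2) (1, 0) (by decide) _ hNv r hNd1 _ _ hval n hdvd
  rw [← hlα, ← hd] at hord
  have hh00 : 0 ≤ logHeight (P 0).xRep := logHeight_xRep_nonneg _
  refine ⟨n, ?_, ?_⟩
  · have hdeg : ((NN W e c g g' F).degreeOf (0, 0) : ℝ) + 1 ≤
        ((r : ℝ) + 4 * (D : ℝ) ^ 2 + 1) * 4 ^ e := by
      have h1 : ((NN W e c g g' F).degreeOf (0, 0) : ℝ) ≤ r * 4 ^ e + 4 * (D : ℝ) ^ 2 * s := by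
        exact_mod_cast hNd0
      have h2 : 4 * (D : ℝ) ^ 2 * s ≤ 4 * (D : ℝ) ^ 2 * 4 ^ e :=
        mul_le_mul_of_nonneg_left hser (by positivity)
      linarith only [h1, h2, hE1]
    exact J12a_first (Nat.cast_nonneg _) hd0 (by positivity) hh00 hZ0 hEZ hord hN1 hdeg hbr hb3
  · have hHH : 0 ≤ HH P := Finset.sum_nonneg fun t _ => logHeight_xRep_nonneg _
    have hpar : 2 * HH P' + 2 * 4 ^ e * HH P - 6 * 4 ^ e * CE ≤
        ∑ t, logHeight (P' t + 2 ^ e • P t).xRep + ∑ t, logHeight (P' t - 2 ^ e • P t).xRep := by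
      have h0 := hCE 0 (P 0) (P' 0) e
      have h1 := hCE 1 (P 1) (P' 1) e
      unfold HH
      rw [Fin.sum_univ_two, Fin.sum_univ_two, Fin.sum_univ_two, Fin.sum_univ_two]
      linarith only [h0, h1]
    have hlog : Real.log (2 * cc) ≤ 18 * (D : ℝ) ^ 2 * 4 ^ e :=
      ((Real.log_le_sub_one_of_pos (by linarith only [hcc0])).trans (by linarith only [hccr] :
        2 * (cc : ℝ) - 1 ≤ 18 * (D : ℝ) ^ 2 * 4 ^ e))
    have hκk : 3 * (4 : ℝ) ^ e ≤ 4096 * (D : ℝ) ^ 4 * ((k : ℝ) - s) := by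
      rw [hkr]
      have h1 : 4096 * (D : ℝ) ^ 4 * (4 * ((s : ℝ) + 1) - s) =
          3 * (4096 * (D : ℝ) ^ 4 * (s + 1)) + 4096 * (D : ℝ) ^ 4 := by ring
      rw [h1]
      have h2 : 0 ≤ 4096 * (D : ℝ) ^ 4 := by positivity
      linarith only [h2, hs2r]
    have hb : ((64 * D ^ 2 : ℕ) : ℝ) = 64 * (D : ℝ) ^ 2 := by push_cast; ring
    rw [hb] at hfin
    exact J12a_second (by positivity) hh00 (by positivity) (Nat.cast_nonneg _)
      (add_nonneg (add_nonneg zero_le_one hG0) hHH)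
      (by positivity) hC10 hCB0 hCE0 (by positivity) hEZ hfin hpar hGG1 hlog hκk hbB hb4

end Pool.Agent.Lib.MP_17a322_nt.VJ
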