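import Pool.Agent.Lib.MP_17a322_nt.VJ.J12a

/-!
Proposition S2 (stage II), final form.
-/

universe u

namespace Pool.Agent.Lib.MP_17a322_nt.VJ

open MvPolynomial Height
open Pool.Agent.Lib.MP_17a322_nt.RO

/-- The choice of the constants: an inequality between real numbers.
`E = 4^e`, `H = HH P`, `H' = HH P'`, `h = h(P_0)`, `a = nh g`, `a' = nh g'`, `S = ∑ h(q_t)`, `κ = 4096 D^4`.
Proof. With `1 ≤ H / C₁`, `a ≤ H / C₁`, `a' ≤ H'/C₁ ≤ 2 E H / C₁`: `Z = E (1 + a) + a' ≤ 4 E H / C₁`. From `h1` and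
`h ≥ ε H > 0`: `n ≤ C + C Z / h ≤ C + 4 C E / (C₁ ε)`. `1 + a + H ≤ 3 H`, `S ≤ 2 η H' ≤ 4 η E H`. So `h2` gives, divided by
`E H > 0`: `3 ε ≤ κ (3 C^2 / E + 12 C^2 / (C₁ ε) + 4 C / C₁ + 256 D^2 η)`, and each of
`3 κ C^2 / E`, `κ (12 C^2 / (C₁ ε) + 4 C / C₁)`, `256 κ D^2 η` is at most `ε / 2`. -/
theorem constants_contradiction (D : ℕ) (hD : 1 ≤ D) (ε C η C₁ R₁ : ℝ) (hε : 0 < ε) (hC : 0 ≤ C)
    (hη : η ≤ ε / (512 * D ^ 2 * (4096 * D ^ 4))) (hη0 : 0 < η)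
    (hC₁ : 2 * (4096 * D ^ 4) / ε * (12 * C ^ 2 / ε + 4 * C) ≤ C₁) (hC₁' : 1 ≤ C₁)
    (hR : 6 * C ^ 2 * (4096 * D ^ 4) / ε ≤ R₁) (hR1 : 1 ≤ R₁)
    (E H H' h a a' S n : ℝ) (hE : R₁ ≤ E) (hH : C₁ ≤ H) (hH' : H' ≤ 2 * E * H) (hH0 : 0 ≤ H')
    (hh : ε * H ≤ h) (ha0 : 0 ≤ a) (ha0' : 0 ≤ a') (ha : C₁ * a ≤ H) (ha' : C₁ * a' ≤ H')
    (hS : S ≤ 2 * (η * H')) (hn : 0 ≤ n)
    (h1 : n * h ≤ C * h + C * (E * (1 + a) + a'))
    (h2 : 3 * E * h ≤ 4096 * D ^ 4 * (n * (C * (1 + a + H)) + C * (E * (1 + a) + a') +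
      64 * D ^ 2 * S)) : False := by
  obtain ⟨κ, hκe⟩ : ∃ κ : ℝ, κ = 4096 * D ^ 4 := ⟨_, rfl⟩
  rw [← hκe] at hη hC₁ hR h2
  have hD1 : (1 : ℝ) ≤ D := by exact_mod_cast hD
  have hκ : 0 < κ := by
    rw [hκe]
    positivity
  have hE1 : 1 ≤ E := hR1.trans hE
  have hE0 : 0 < E := by linarith
  have hH1 : 1 ≤ H := hC₁'.trans hH
  have hH0' : 0 < H := by linarith
  have hh0 : 0 < h := lt_of_lt_of_le (mul_pos hε hH0') hh
  have hC₁0 : 0 < C₁ := by linarith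
  have hEH : 0 < E * H := mul_pos hE0 hH0'
  obtain ⟨Z, hZ⟩ : ∃ Z, Z = E * (1 + a) + a' := ⟨_, rfl⟩
  rw [← hZ] at h1 h2
  have hZ0 : 0 ≤ Z := by
    rw [hZ]
    positivity
  have hZ1 : C₁ * Z ≤ 4 * (E * H) := by
    have e1 : E * C₁ ≤ E * H := mul_le_mul_of_nonneg_left hH hE0.le
    have e2 : E * (C₁ * a) ≤ E * H := mul_le_mul_of_nonneg_left ha hE0.le
    rw [hZ]
    linarith
  have hZ2 : Z ≤ 4 * (E * H) / C₁ := by
    rw [le_div_iff₀ hC₁0, mul_comm]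
    exact hZ1
  have hn1 : n ≤ C + C * (4 * E / (C₁ * ε)) := by
    have e1 : n ≤ C + C * Z / h := by
      have e2 : n ≤ (C * h + C * Z) / h := by
        rw [le_div_iff₀ hh0]
        exact h1
      have e3 : (C * h + C * Z) / h = C + C * Z / h := by
        field_simp
      rw [← e3]
      exact e2
    have e4 : C * Z / h ≤ C * (4 * E / (C₁ * ε)) := by
      rw [mul_div_assoc]
      refine mul_le_mul_of_nonneg_left ?_ hC
      calc Z / h ≤ (4 * (E * H) / C₁) / (ε * H) :=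
            div_le_div₀ (by positivity) hZ2 (by positivity) hh
        _ = 4 * E / (C₁ * ε) := by
            field_simp
    linarith
  have haH : a ≤ H := by
    have : 1 * a ≤ C₁ * a := mul_le_mul_of_nonneg_right hC₁' ha0
    linarith
  have hS1 : S ≤ 4 * η * (E * H) := by
    have : η * H' ≤ η * (2 * E * H) := mul_le_mul_of_nonneg_left hH' hη0.le
    linarith
  -- the three terms
  have t1 : n * (C * (1 + a + H)) ≤ 3 * C ^ 2 * H + 12 * C ^ 2 * (E * H) / (C₁ * ε) := by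
    have e1 : C * (1 + a + H) ≤ C * (3 * H) := mul_le_mul_of_nonneg_left (by linarith) hC
    calc n * (C * (1 + a + H)) ≤ n * (C * (3 * H)) := mul_le_mul_of_nonneg_left e1 hn
      _ ≤ (C + C * (4 * E / (C₁ * ε))) * (C * (3 * H)) :=
          mul_le_mul_of_nonneg_right hn1 (by positivity)
      _ = _ := by
          field_simp
          ring
  have t2 : C * Z ≤ 4 * C * (E * H) / C₁ := by
    calc C * Z ≤ C * (4 * (E * H) / C₁) := mul_le_mul_of_nonneg_left hZ2 hC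
      _ = _ := by ring
  have t3 : 64 * (D : ℝ) ^ 2 * S ≤ 64 * D ^ 2 * (4 * η * (E * H)) :=
    mul_le_mul_of_nonneg_left hS1 (by positivity)
  have s1 : κ * (3 * C ^ 2 * H) ≤ ε / 2 * (E * H) := by
    have e1 : 6 * C ^ 2 * κ / ε ≤ E := hR.trans hE
    rw [div_le_iff₀ hε] at e1
    have e2 := mul_le_mul_of_nonneg_right e1 hH0'.le
    linarith
  have s2 : κ * (12 * C ^ 2 * (E * H) / (C₁ * ε) + 4 * C * (E * H) / C₁) ≤ ε / 2 * (E * H) := by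
    have e1 : κ * (12 * C ^ 2 * (E * H) / (C₁ * ε) + 4 * C * (E * H) / C₁) =
        (2 * κ / ε * (12 * C ^ 2 / ε + 4 * C)) * (ε / 2 * (E * H)) / C₁ := by
      field_simp
    rw [e1, div_le_iff₀ hC₁0]
    calc _ ≤ C₁ * (ε / 2 * (E * H)) := mul_le_mul_of_nonneg_right hC₁ (by positivity)
      _ = _ := by ring
  have s3 : κ * (64 * D ^ 2 * (4 * η * (E * H))) ≤ ε / 2 * (E * H) := by
    have e1 : η * (512 * D ^ 2 * κ) ≤ ε := by
      rw [le_div_iff₀ (by positivity)] at hη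
      exact hη
    have e2 := mul_le_mul_of_nonneg_right e1 (by positivity : (0:ℝ) ≤ E * H / 2)
    linarith
  have t4 : 3 * E * h ≤ κ * (3 * C ^ 2 * H) +
      κ * (12 * C ^ 2 * (E * H) / (C₁ * ε) + 4 * C * (E * H) / C₁) +
      κ * (64 * D ^ 2 * (4 * η * (E * H))) := by
    refine h2.trans ?_
    rw [← mul_add, ← mul_add]
    refine mul_le_mul_of_nonneg_left ?_ hκ.le
    linarith
  have t5 : 3 * E * (ε * H) ≤ 3 * E * h := mul_le_mul_of_nonneg_left hh (by positivity)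
  have t6 : 0 < ε * (E * H) := mul_pos hε hEH
  linarith

/-- Proposition S2.
Proof. If `D = 0` then `GC g D` is impossible. Otherwise let `C, Cs, R₀` be from `stageII_core`;
`η = min (1/2) (ε / (512 D^2 κ))`, `κ = 4096 D^4`; `C₁ = max 1 (max (8 C / ε + 1) (2 κ / ε (12 C^2 / ε + 4 C)))`,
`R₁` a natural number at least `R₀`, `6 C^2 κ / ε`, `1`. Suppose `nh g > Cs`. `H = HH P`, `H' = HH P'`, `E = 4^e`.
`|H' - E H| ≤ η H'`, `η ≤ 1/2`: `H' ≤ 2 E H` and `H' ≥ (2/3) E H ≥ E H / 2`. `a = nh g`, `a' = nh g' ≥ 0`.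
The hypotheses of `stageII_core`: `C (1 + a) ≤ 2 C H / C₁ < ε H ≤ h(P_0)`; `C < ε C₁ ≤ ε H ≤ h(P_t)`;
`C < ε C₁ / 2 ≤ ε E H / 2 ≤ ε H' ≤ h(P'_t)`; `C (E (1 + a) + a') ≤ 4 C E H / C₁ < ε E H / 2 ≤ h(P'_0)` (as
`8 C / ε < C₁`). So `stageII_core` gives `n`, and `constants_contradiction` gives a contradiction
(`S = ∑ t, logHeight (P' t - 2 ^ e • P t).xRep ≤ 2 η H'`). -/
theorem stageII_proof {K : Type u} [Field K] [NumberField K] [DecidableEq K]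
    (W : Fin 2 → WeierstrassCurve K) [∀ t, (W t).IsElliptic] (D : ℕ) (ε : ℝ) (hε : 0 < ε) :
    ∃ (η C₁ Cs : ℝ) (R₁ : ℕ), 0 < η ∧ 0 < C₁ ∧ ∀ (g g' : MvPolynomial (Fin 2) K)
      (P P' : ∀ t, (W t).toAffine.Point) (e : ℕ), GC g D → GC g' D → tc g = 0 →
      (∀ t, P t ≠ 0) → (∀ t, P' t ≠ 0) →
      eval (fun t => (P t).xRep 0) g = 0 → eval (fun t => (P' t).xRep 0) g' = 0 →
      (∀ t, ε * HH P ≤ logHeight (P t).xRep) → (∀ t, ε * HH P' ≤ logHeight (P' t).xRep) →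
      C₁ * nh g ≤ HH P → C₁ * nh g' ≤ HH P' → C₁ ≤ HH P → R₁ ≤ 4 ^ e →
      (∀ t, logHeight (P' t - 2 ^ e • P t).xRep ≤ η * HH P') →
      |HH P' - 4 ^ e * HH P| ≤ η * HH P' → nh g ≤ Cs := by
  rcases Nat.eq_zero_or_pos D with hD0 | hD
  · refine ⟨1, 1, 0, 0, one_pos, one_pos, ?_⟩
    intro g g' P P' e hg
    exfalso
    have h1 := (hg.2 0).1
    have h2 := (hg.2 0).2
    omega
  obtain ⟨C, Cs, R₀, hC, hcore⟩ := stageII_core W D hD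
  have hD1 : (1 : ℝ) ≤ D := by exact_mod_cast hD
  obtain ⟨κ, hκe⟩ : ∃ κ : ℝ, κ = 4096 * D ^ 4 := ⟨_, rfl⟩
  have hκ : 0 < κ := by
    rw [hκe]
    positivity
  obtain ⟨η, hηe⟩ : ∃ η : ℝ, η = min (1 / 2) (ε / (512 * D ^ 2 * κ)) := ⟨_, rfl⟩
  have hη0 : 0 < η := by
    rw [hηe]
    exact lt_min (by norm_num) (by positivity)
  have hη1 : η ≤ 1 / 2 := hηe ▸ min_le_left _ _
  have hη2 : η ≤ ε / (512 * D ^ 2 * κ) := hηe ▸ min_le_right _ _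
  obtain ⟨C₁, hC₁e⟩ : ∃ C₁ : ℝ, C₁ = max 1 (max (8 * C / ε + 1)
    (2 * κ / ε * (12 * C ^ 2 / ε + 4 * C))) := ⟨_, rfl⟩
  have hC₁1 : 1 ≤ C₁ := hC₁e ▸ le_max_left _ _
  have hC₁2 : 8 * C / ε + 1 ≤ C₁ := hC₁e ▸ (le_max_left _ _).trans (le_max_right _ _)
  have hC₁3 : 2 * κ / ε * (12 * C ^ 2 / ε + 4 * C) ≤ C₁ :=
    hC₁e ▸ (le_max_right _ _).trans (le_max_right _ _)
  have h8C : 8 * C < ε * C₁ := by
    have e1 : 8 * C / ε < C₁ := by linarith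
    rw [div_lt_iff₀ hε] at e1
    linarith
  obtain ⟨R₁, hR₁e⟩ : ∃ R₁ : ℕ, R₁ = max R₀ (max 1 ⌈6 * C ^ 2 * κ / ε⌉₊) := ⟨_, rfl⟩
  have hR₁1 : R₀ ≤ R₁ := hR₁e ▸ le_max_left _ _
  have hR₁2 : 1 ≤ R₁ := hR₁e ▸ (le_max_left _ _).trans (le_max_right _ _)
  have hR₁3 : 6 * C ^ 2 * κ / ε ≤ R₁ := by
    refine (Nat.le_ceil _).trans ?_
    exact_mod_cast hR₁e ▸ (le_max_right _ _).trans (le_max_right _ _)
  refine ⟨η, C₁, Cs, R₁, hη0, by linarith, ?_⟩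
  intro g g' P P' e hg hg' htc hP hP' hpg hpg' hεP hεP' hag hag' hCH hRe hq habs
  by_contra hcon
  rw [not_le] at hcon
  have hg0 := hg.ne_zero
  have hg0' := hg'.ne_zero
  obtain ⟨a, hae⟩ : ∃ a, a = nh g := ⟨_, rfl⟩
  obtain ⟨a', hae'⟩ : ∃ a', a' = nh g' := ⟨_, rfl⟩
  have ha0 : 0 ≤ a := hae ▸ nh_nonneg hg0
  have ha0' : 0 ≤ a' := hae' ▸ nh_nonneg hg0'
  obtain ⟨H, hHe⟩ : ∃ H, H = HH P := ⟨_, rfl⟩
  obtain ⟨H', hHe'⟩ : ∃ H', H' = HH P' := ⟨_, rfl⟩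
  have hH'0 : 0 ≤ H' := by
    rw [hHe']
    exact Finset.sum_nonneg fun t _ => logHeight_xRep_nonneg _
  have hE0 : (1 : ℝ) ≤ 4 ^ e := one_le_pow₀ (by norm_num)
  have hRe' : (R₁ : ℝ) ≤ 4 ^ e := by exact_mod_cast hRe
  have hcore' := hcore g g' P P' e hg hg' htc hP hP' hpg hpg' (hR₁1.trans hRe) hcon
  rw [← hae, ← hae', ← hHe] at hcore'
  rw [← hae, ← hHe] at hag
  rw [← hae', ← hHe'] at hag'
  rw [← hHe] at hCH hεP
  rw [← hHe'] at hεP' hq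
  rw [← hHe, ← hHe'] at habs
  obtain ⟨E, hEe⟩ : ∃ E : ℝ, E = 4 ^ e := ⟨_, rfl⟩
  rw [← hEe] at hcore' hE0 hRe' habs
  have hE00 : 0 < E := by linarith
  have hC₁0 : 0 < C₁ := by linarith
  have hH0 : 0 < H := by linarith
  have hEH : 0 < E * H := mul_pos hE00 hH0
  obtain ⟨habs1, habs2⟩ := abs_le.mp habs
  have hηH : η * H' ≤ 1 / 2 * H' := mul_le_mul_of_nonneg_right hη1 hH'0
  have hH'1 : H' ≤ 2 * E * H := by linarith
  have hH'2 : E * H / 2 ≤ H' := by linarith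
  obtain ⟨Z, hZe⟩ : ∃ Z, Z = E * (1 + a) + a' := ⟨_, rfl⟩
  have hZ1 : C₁ * Z ≤ 4 * (E * H) := by
    have e1 : E * C₁ ≤ E * H := mul_le_mul_of_nonneg_left hCH hE00.le
    have e2 : E * (C₁ * a) ≤ E * H := mul_le_mul_of_nonneg_left hag hE00.le
    rw [hZe]
    linarith
  have hEa : 1 + a ≤ E * (1 + a) := le_mul_of_one_le_left (by linarith) hE0
  have hZ0 : 1 + a ≤ Z := by
    rw [hZe]
    linarith
  have hZpos : 0 < Z := by linarith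
  have k1 : C * (1 + a) < ε * H := by
    have e1 : 8 * C * (1 + a) < ε * C₁ * (1 + a) := mul_lt_mul_of_pos_right h8C (by linarith)
    have e2 : C₁ * (1 + a) ≤ 2 * H := by linarith
    have e3 : ε * (C₁ * (1 + a)) ≤ ε * (2 * H) := mul_le_mul_of_nonneg_left e2 hε.le
    have e4 : 0 < ε * H := mul_pos hε hH0
    linarith
  have k2 : C * Z < ε * H' := by
    have e1 : 8 * C * Z < ε * C₁ * Z := mul_lt_mul_of_pos_right h8C hZpos
    have e3 : ε * (C₁ * Z) ≤ ε * (4 * (E * H)) := mul_le_mul_of_nonneg_left hZ1 hε.le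
    have e4 : ε * (E * H / 2) ≤ ε * H' := mul_le_mul_of_nonneg_left hH'2 hε.le
    linarith
  have k3 : C ≤ C * (1 + a) := le_mul_of_one_le_right hC (by linarith)
  have k4 : C ≤ C * Z := le_mul_of_one_le_right hC (by linarith)
  rw [← hZe] at hcore'
  obtain ⟨n, hn1, hn2⟩ := hcore' (k1.trans_le (hεP 0)) (fun t => (k3.trans_lt k1).trans_le (hεP t))
    (fun t => (k4.trans_lt k2).trans_le (hεP' t)) (k2.trans_le (hεP' 0))
  rw [hZe] at hn1 hn2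
  rw [hκe] at hη2 hC₁3 hR₁3
  refine constants_contradiction D hD ε C η C₁ R₁ hε hC hη2 hη0 hC₁3 hC₁1 hR₁3
    (by exact_mod_cast hR₁2) E H H' (logHeight (P 0).xRep) a a'
    (∑ t, logHeight (P' t - 2 ^ e • P t).xRep) n hRe' hCH hH'1 hH'0 (hεP 0) ha0 ha0' hag hag' ?_
    (Nat.cast_nonneg n) hn1 hn2
  rw [Fin.sum_univ_two]
  linarith [hq 0, hq 1]

end Pool.Agent.Lib.MP_17a322_nt.VJ
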