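import Pool.Agent.Lib.MP_17a322_nt.VJ.J1a
import Pool.Agent.Lib.MP_17a322_nt.VJ.A5

/-!
The eliminants `QQ` and `NN`: variables, degrees, heights, vanishing.
-/

universe u

namespace Pool.Agent.Lib.MP_17a322_nt.VJ

open MvPolynomial Height
open Pool.Agent.Lib.MP_17a322_nt.RO

/-- `G = 0` gives `El y f G = 0` if `f` involves `y`: the resultant for the degrees `p ≥ 1`, `0` is
`0 ^ p`. -/
theorem El_zero_right {R σ : Type*} [CommRing R] [DecidableEq σ] (y : σ)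
    (f : MvPolynomial σ R) (h : f.degreeOf y ≠ 0) : El y f 0 = 0 := by
  unfold El
  rw [vw_zero, Polynomial.resultant_zero_right, zero_pow h, zero_mul]

theorem J1b_deg0 {R σ : Type*} [CommRing R] [DecidableEq σ] {F : MvPolynomial σ R}
    {S : Finset σ} (h : F.vars ⊆ S) {t : σ} (ht : t ∉ S) : F.degreeOf t ≤ 0 := by
  have h1 : t ∉ F.vars := fun h2 => ht (h h2)
  rw [vars_def, Multiset.mem_toFinset] at h1
  rw [degreeOf_def, Multiset.count_eq_zero_of_notMem h1]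

theorem J1b_vars {R σ : Type*} [CommRing R] [DecidableEq σ] (y : σ) {f G : MvPolynomial σ R}
    {A B C : Finset σ} (hf : f.vars ⊆ A) (hG : G.vars ⊆ B) (h : (A ∪ B).erase y ⊆ C) :
    (El y f G).vars ⊆ C :=
  (vars_El_subset y f G).trans
    ((Finset.erase_subset_erase _ (Finset.union_subset_union hf hG)).trans h)

theorem J1b_deg {R σ : Type*} [CommRing R] [DecidableEq σ] (y : σ) {f G : MvPolynomial σ R}
    {t : σ} {a b c d n : ℕ} (ha : G.degreeOf y ≤ a) (hb : f.degreeOf t ≤ b)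
    (hc : f.degreeOf y ≤ c) (hd : G.degreeOf t ≤ d) (hn : a * b + c * d = n) :
    (El y f G).degreeOf t ≤ n :=
  (degreeOf_El_le' y f G t).trans
    (hn ▸ add_le_add (Nat.mul_le_mul ha hb) (Nat.mul_le_mul hc hd))

section

variable {K : Type*} [Field K] (W : Fin 2 → WeierstrassCurve K) (e : ℕ) (c : Fin 2 → Bool)
  (g g' : MvPolynomial (Fin 2) K) (D : ℕ)

theorem J1b_M0_vars : (El (3, 0) (relI W e c 3 0) (gX 3 g')).vars ⊆ {(0, 0), (2, 0), (3, 1)} :=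
  J1b_vars _ (relI_vars W e c 3 0) (gX_vars 3 g') (by decide)

theorem J1b_M1_vars : (El (3, 1) (relI W e c 3 1) (El (3, 0) (relI W e c 3 0) (gX 3 g'))).vars ⊆
    {(0, 0), (0, 1), (2, 0), (2, 1)} :=
  J1b_vars _ (relI_vars W e c 3 1) (J1b_M0_vars W e c g') (by decide)

/-- `vars_El_subset` three times, `relI_vars`, `gX_vars`. -/
theorem QQ_vars : (QQ W e c g g').vars ⊆ {(0, 0), (2, 0), (2, 1)} :=
  J1b_vars _ (gX_vars 0 g) (J1b_M1_vars W e c g') (by decide)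

theorem J1b_relI_i (i : Fin 4) (hi : i = 1 ∨ i = 3) (t : Fin 2) :
    (relI W e c i t).degreeOf (i, t) ≤ 2 := (relI_degreeOf_i W e c i hi t).1.le

theorem J1b_relI_2 (i : Fin 4) (hi : i = 1 ∨ i = 3) (t : Fin 2) :
    (relI W e c i t).degreeOf (2, t) ≤ 2 := (relI_degreeOf_two W e c i hi t).1.le

theorem J1b_gX {g : MvPolynomial (Fin 2) K} {D : ℕ} (hg : ∀ t, g.degreeOf t ≤ D) (i : Fin 4)
    (t : Fin 2) : (gX i g).degreeOf (i, t) ≤ D := by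
  rw [gX_degreeOf]
  exact hg t

theorem J1b_M0_deg (hg' : ∀ t, g'.degreeOf t ≤ D) :
    (El (3, 0) (relI W e c 3 0) (gX 3 g')).degreeOf (0, 0) ≤ 2 * D * 4 ^ e ∧
    (El (3, 0) (relI W e c 3 0) (gX 3 g')).degreeOf (2, 0) ≤ 2 * D ∧
    (El (3, 0) (relI W e c 3 0) (gX 3 g')).degreeOf (3, 1) ≤ 2 * D := by
  refine ⟨?_, ?_, ?_⟩
  · exact J1b_deg _ (J1b_gX hg' 3 0) (relI_degreeOf_zero_le W e c 3 (Or.inr rfl) 0)
      (J1b_relI_i W e c 3 (Or.inr rfl) 0) (J1b_deg0 (gX_vars 3 g') (by decide)) (by ring)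
  · exact J1b_deg _ (J1b_gX hg' 3 0) (J1b_relI_2 W e c 3 (Or.inr rfl) 0)
      (J1b_relI_i W e c 3 (Or.inr rfl) 0) (J1b_deg0 (gX_vars 3 g') (by decide)) (by ring)
  · exact J1b_deg _ (J1b_gX hg' 3 0) (J1b_deg0 (relI_vars W e c 3 0) (by decide))
      (J1b_relI_i W e c 3 (Or.inr rfl) 0) (J1b_gX hg' 3 1) (by ring)

theorem J1b_M1_deg (hg' : ∀ t, g'.degreeOf t ≤ D) :
    (El (3, 1) (relI W e c 3 1) (El (3, 0) (relI W e c 3 0) (gX 3 g'))).degreeOf (0, 0) ≤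
      4 * D * 4 ^ e ∧
    (El (3, 1) (relI W e c 3 1) (El (3, 0) (relI W e c 3 0) (gX 3 g'))).degreeOf (0, 1) ≤
      4 * D * 4 ^ e ∧
    ∀ t, (El (3, 1) (relI W e c 3 1) (El (3, 0) (relI W e c 3 0) (gX 3 g'))).degreeOf (2, t) ≤
      4 * D := by
  obtain ⟨h1, h2, h3⟩ := J1b_M0_deg W e c g' D hg'
  refine ⟨?_, ?_, ?_⟩
  · exact J1b_deg _ h3 (J1b_deg0 (relI_vars W e c 3 1) (by decide))
      (J1b_relI_i W e c 3 (Or.inr rfl) 1) h1 (by ring)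
  · exact J1b_deg _ h3 (relI_degreeOf_zero_le W e c 3 (Or.inr rfl) 1)
      (J1b_relI_i W e c 3 (Or.inr rfl) 1) (J1b_deg0 (J1b_M0_vars W e c g') (by decide)) (by ring)
  · intro t
    fin_cases t
    · exact J1b_deg _ h3 (J1b_deg0 (relI_vars W e c 3 1) (by decide))
        (J1b_relI_i W e c 3 (Or.inr rfl) 1) h2 (by ring)
    · exact J1b_deg _ h3 (J1b_relI_2 W e c 3 (Or.inr rfl) 1)
        (J1b_relI_i W e c 3 (Or.inr rfl) 1) (J1b_deg0 (J1b_M0_vars W e c g') (by decide))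
        (by ring)

/-- Degrees of the successive eliminants (`degreeOf_El_le`; a variable not in `vars` has degree `0`):
`El (3,0) (relI 3 0) (gX 3 g')`: `≤ 2 D 4^e` in `(0,0)`, `2 D` in `(2,0)`, `2 D` in `(3,1)`;
`El (3,1) (relI 3 1) ..`: `4 D 4^e` in `(0,0)` and `(0,1)`, `4 D` in `(2,0)` and `(2,1)`;
`QQ`: `8 D^2 4^e` in `(0,0)`, `4 D^2` in `(2,t)`. -/
theorem QQ_degreeOf (hg : ∀ t, g.degreeOf t ≤ D) (hg' : ∀ t, g'.degreeOf t ≤ D) :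
    (QQ W e c g g').degreeOf (0, 0) ≤ 8 * D ^ 2 * 4 ^ e ∧
      ∀ t, (QQ W e c g g').degreeOf (2, t) ≤ 4 * D ^ 2 := by
  obtain ⟨h1, h2, h3⟩ := J1b_M1_deg W e c g' D hg'
  refine ⟨?_, fun t => ?_⟩
  · exact J1b_deg _ h2 (J1b_gX hg 0 0) (J1b_gX hg 0 1) h1 (by ring)
  · refine J1b_deg _ h2 (J1b_deg0 (gX_vars 0 g) ?_) (J1b_gX hg 0 1) (h3 t) (by ring)
    fin_cases t <;> decide

/-- `QQ` vanishes on the relation: `aeval_dvd_El` three times (`0 ∣ z` means `z = 0`), `aeval_relI`,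
`aeval_gX`; the first polynomials have positive degree in the eliminated variables
(`relI_degreeOf_i`, `hg`). -/
theorem aeval_QQ_eq_zero (hg : g.degreeOf 1 ≠ 0) {A : Type*} [CommRing A] [Algebra K A]
    (s : Fin 4 × Fin 2 → A) (h1 : aeval (fun t => s (0, t)) g = 0)
    (h2 : ∀ t, S3 (W t) (mu (W t) e ![s (0, t), 1]) ![s (3, t), 1] (vc (c t) (s (2, t))) = 0)
    (h3 : aeval (fun t => s (3, t)) g' = 0) : aeval s (QQ W e c g g') = 0 := by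
  have hne : ∀ t, (relI W e c 3 t).degreeOf (3, t) ≠ 0 := fun t => by
    rw [(relI_degreeOf_i W e c 3 (Or.inr rfl) t).1]
    norm_num
  have hr : ∀ t, aeval s (relI W e c 3 t) = 0 := fun t => by
    rw [aeval_relI]
    exact h2 t
  have e1 := aeval_dvd_El (3, 0) (relI W e c 3 0) (gX 3 g') (Or.inl (hne 0)) s (hr 0)
  rw [aeval_gX, h3] at e1
  have e2 := aeval_dvd_El (3, 1) (relI W e c 3 1) (El (3, 0) (relI W e c 3 0) (gX 3 g'))
    (Or.inl (hne 1)) s (hr 1)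
  rw [zero_dvd_iff.1 e1] at e2
  have e3 := aeval_dvd_El (0, 1) (gX 0 g)
    (El (3, 1) (relI W e c 3 1) (El (3, 0) (relI W e c 3 0) (gX 3 g')))
    (Or.inl (by rw [gX_degreeOf]; exact hg)) s (by rw [aeval_gX]; exact h1)
  rw [zero_dvd_iff.1 e2] at e3
  exact zero_dvd_iff.1 e3

section NNlem

variable {F : MvPolynomial (Fin 4 × Fin 2) K} (hF : F.vars ⊆ {(0, 0), (2, 0), (2, 1)})

include hF

theorem J1b_N0_vars : (El (2, 0) (rel W e c 0) F).vars ⊆ {(0, 0), (1, 0), (2, 1)} :=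
  J1b_vars _ (relI_vars W e c 1 0) hF (by decide)

theorem J1b_N1_vars : (El (2, 1) (rel W e c 1) (El (2, 0) (rel W e c 0) F)).vars ⊆
    {(0, 0), (0, 1), (1, 0), (1, 1)} :=
  J1b_vars _ (relI_vars W e c 1 1) (J1b_N0_vars W e c hF) (by decide)

theorem J1b_N2_vars : (El (0, 1) (gX 0 g) (El (2, 1) (rel W e c 1)
    (El (2, 0) (rel W e c 0) F))).vars ⊆ {(0, 0), (1, 0), (1, 1)} :=
  J1b_vars _ (gX_vars 0 g) (J1b_N1_vars W e c hF) (by decide)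

theorem J1b_N0_deg {s b : ℕ} (hs : F.degreeOf (0, 0) ≤ s) (hb : ∀ t, F.degreeOf (2, t) ≤ b) :
    (El (2, 0) (rel W e c 0) F).degreeOf (0, 0) ≤ 2 * b * 4 ^ e + 2 * s ∧
    (El (2, 0) (rel W e c 0) F).degreeOf (1, 0) ≤ 2 * b ∧
    (El (2, 0) (rel W e c 0) F).degreeOf (2, 1) ≤ 2 * b := by
  refine ⟨?_, ?_, ?_⟩
  · exact J1b_deg _ (hb 0) (relI_degreeOf_zero_le W e c 1 (Or.inl rfl) 0)
      (J1b_relI_2 W e c 1 (Or.inl rfl) 0) hs (by ring)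
  · exact J1b_deg _ (hb 0) (J1b_relI_i W e c 1 (Or.inl rfl) 0)
      (J1b_relI_2 W e c 1 (Or.inl rfl) 0) (J1b_deg0 hF (by decide)) (by ring)
  · exact J1b_deg _ (hb 0) (J1b_deg0 (relI_vars W e c 1 0) (by decide))
      (J1b_relI_2 W e c 1 (Or.inl rfl) 0) (hb 1) (by ring)

theorem J1b_N1_deg {s b : ℕ} (hs : F.degreeOf (0, 0) ≤ s) (hb : ∀ t, F.degreeOf (2, t) ≤ b) :
    (El (2, 1) (rel W e c 1) (El (2, 0) (rel W e c 0) F)).degreeOf (0, 0) ≤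
      4 * b * 4 ^ e + 4 * s ∧
    (El (2, 1) (rel W e c 1) (El (2, 0) (rel W e c 0) F)).degreeOf (0, 1) ≤ 4 * b * 4 ^ e ∧
    ∀ t, (El (2, 1) (rel W e c 1) (El (2, 0) (rel W e c 0) F)).degreeOf (1, t) ≤ 4 * b := by
  obtain ⟨h1, h2, h3⟩ := J1b_N0_deg W e c hF hs hb
  refine ⟨?_, ?_, ?_⟩
  · exact J1b_deg _ h3 (J1b_deg0 (relI_vars W e c 1 1) (by decide))
      (J1b_relI_2 W e c 1 (Or.inl rfl) 1) h1 (by ring)
  · exact J1b_deg _ h3 (relI_degreeOf_zero_le W e c 1 (Or.inl rfl) 1)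
      (J1b_relI_2 W e c 1 (Or.inl rfl) 1) (J1b_deg0 (J1b_N0_vars W e c hF) (by decide)) (by ring)
  · intro t
    fin_cases t
    · exact J1b_deg _ h3 (J1b_deg0 (relI_vars W e c 1 1) (by decide))
        (J1b_relI_2 W e c 1 (Or.inl rfl) 1) h2 (by ring)
    · exact J1b_deg _ h3 (J1b_relI_i W e c 1 (Or.inl rfl) 1)
        (J1b_relI_2 W e c 1 (Or.inl rfl) 1) (J1b_deg0 (J1b_N0_vars W e c hF) (by decide))
        (by ring)

variable {g} in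
theorem J1b_N2_deg (hg : ∀ t, g.degreeOf t ≤ D) {s b : ℕ} (hs : F.degreeOf (0, 0) ≤ s)
    (hb : ∀ t, F.degreeOf (2, t) ≤ b) :
    (El (0, 1) (gX 0 g) (El (2, 1) (rel W e c 1) (El (2, 0) (rel W e c 0) F))).degreeOf (0, 0) ≤
      8 * b * D * 4 ^ e + 4 * D * s ∧
    ∀ t, (El (0, 1) (gX 0 g) (El (2, 1) (rel W e c 1)
      (El (2, 0) (rel W e c 0) F))).degreeOf (1, t) ≤ 4 * b * D := by
  obtain ⟨h1, h2, h3⟩ := J1b_N1_deg W e c hF hs hb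
  refine ⟨?_, fun t => ?_⟩
  · exact J1b_deg _ h2 (J1b_gX hg 0 0) (J1b_gX hg 0 1) h1 (by ring)
  · refine J1b_deg _ h2 (J1b_deg0 (gX_vars 0 g) ?_) (J1b_gX hg 0 1) (h3 t) (by ring)
    fin_cases t <;> decide

end NNlem

/-- `vars_El_subset` four times. -/
theorem NN_vars (F : MvPolynomial (Fin 4 × Fin 2) K)
    (hF : F.vars ⊆ {(0, 0), (2, 0), (2, 1)}) : (NN W e c g g' F).vars ⊆ {(0, 0), (1, 0)} :=
  J1b_vars _ (gX_vars 1 g') (J1b_N2_vars W e c g hF) (by decide)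

/-- Degrees of the successive eliminants: `El (2,0) (rel 0) F`: `(0,0): 2 b 4^e + 2 s`, `(1,0): 2 b`,
`(2,1): 2 b`; `El (2,1) (rel 1) ..`: `(0,1): 4 b 4^e`, `(1,1): 4 b`, `(0,0): 4 b 4^e + 4 s`, `(1,0): 4 b`;
`El (0,1) (gX 0 g) ..`: `(0,0): 8 b D 4^e + 4 D s`, `(1,t): 4 b D`; `NN`: `(0,0): 8 b D^2 4^e + 4 D^2 s`,
`(1,0): 8 b D^2`. -/
theorem NN_degreeOf (hg : ∀ t, g.degreeOf t ≤ D) (hg' : ∀ t, g'.degreeOf t ≤ D)
    (F : MvPolynomial (Fin 4 × Fin 2) K) (hF : F.vars ⊆ {(0, 0), (2, 0), (2, 1)}) (s b : ℕ)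
    (hs : F.degreeOf (0, 0) ≤ s) (hb : ∀ t, F.degreeOf (2, t) ≤ b) :
    (NN W e c g g' F).degreeOf (0, 0) ≤ 8 * b * D ^ 2 * 4 ^ e + 4 * D ^ 2 * s ∧
      (NN W e c g g' F).degreeOf (1, 0) ≤ 8 * b * D ^ 2 := by
  obtain ⟨h1, h2⟩ := J1b_N2_deg W e c D hF hg hs hb
  refine ⟨?_, ?_⟩
  · exact J1b_deg _ (h2 1) (J1b_deg0 (gX_vars 1 g') (by decide)) (J1b_gX hg' 1 1) h1 (by ring)
  · exact J1b_deg _ (h2 1) (J1b_gX hg' 1 0) (J1b_gX hg' 1 1) (h2 0) (by ring)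

/-- `aeval_dvd_El` four times. -/
theorem aeval_dvd_NN (hg : g.degreeOf 1 ≠ 0) (hg' : g'.degreeOf 1 ≠ 0)
    (F : MvPolynomial (Fin 4 × Fin 2) K) {A : Type*} [CommRing A] [Algebra K A]
    (s : Fin 4 × Fin 2 → A) (h1 : aeval (fun t => s (0, t)) g = 0)
    (h2 : ∀ t, S3 (W t) (mu (W t) e ![s (0, t), 1]) ![s (1, t), 1] (vc (c t) (s (2, t))) = 0)
    (h3 : aeval (fun t => s (1, t)) g' = 0) : aeval s F ∣ aeval s (NN W e c g g' F) := by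
  have hne : ∀ t, (rel W e c t).degreeOf (2, t) ≠ 0 := fun t => by
    rw [rel_eq_relI, (relI_degreeOf_two W e c 1 (Or.inl rfl) t).1]
    norm_num
  have hr : ∀ t, aeval s (rel W e c t) = 0 := fun t => by
    rw [rel_eq_relI, aeval_relI]
    exact h2 t
  refine (aeval_dvd_El (2, 0) (rel W e c 0) F (Or.inl (hne 0)) s (hr 0)).trans ?_
  refine (aeval_dvd_El (2, 1) (rel W e c 1) _ (Or.inl (hne 1)) s (hr 1)).trans ?_
  refine (aeval_dvd_El (0, 1) (gX 0 g) _ (Or.inl (by rw [gX_degreeOf]; exact hg)) s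
    (by rw [aeval_gX]; exact h1)).trans ?_
  exact aeval_dvd_El (1, 1) (gX 1 g') _ (Or.inl (by rw [gX_degreeOf]; exact hg')) s
    (by rw [aeval_gX]; exact h3)

end

theorem J1b_nh_gX {K : Type*} [Field K] [AdmissibleAbsValues K] (i : Fin 4)
    (g : MvPolynomial (Fin 2) K) : nh (gX i g) = nh g := by
  unfold nh gX
  congr 1
  funext v
  rw [NV_rename v g _ (J1a_inj i)]

theorem J1b_nh {K σ : Type*} [Field K] [AdmissibleAbsValues K] [DecidableEq σ] (y : σ)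
    {f G : MvPolynomial σ K} (h : El y f G ≠ 0) (hf : f ≠ 0) (hG : G ≠ 0) {a c : ℕ} {A B : ℝ}
    (ha : G.degreeOf y ≤ a) (hA : nh f ≤ A) (hc : f.degreeOf y ≤ c) (hB : nh G ≤ B) :
    nh (El y f G) ≤ a * A + c * B := by
  refine (nh_El_le y f G h).trans (add_le_add ?_ ?_)
  · exact mul_le_mul (by exact_mod_cast ha) hA (nh_nonneg hf) (Nat.cast_nonneg _)
  · exact mul_le_mul (by exact_mod_cast hc) hB (nh_nonneg hG) (Nat.cast_nonneg _)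

/-- Height of `QQ`: `nh_El_le` three times (the intermediate eliminants are nonzero by `El_zero_right`),
`nh (gX i g) = nh g` (`NV_rename`), `nh_relI_le` (constant `C₀`):
`nh QQ ≤ 4 D 4^e nh g + D (2 D C₀ 4^e + 2 (D C₀ 4^e + 2 nh g'))`. -/
theorem nh_QQ_le {K : Type u} [Field K] [NumberField K] (W : Fin 2 → WeierstrassCurve K) (D : ℕ) :
    ∃ C : ℝ, 0 ≤ C ∧ ∀ (e : ℕ) (c : Fin 2 → Bool) (g g' : MvPolynomial (Fin 2) K), g ≠ 0 →
      g' ≠ 0 → (∀ t, 1 ≤ g.degreeOf t ∧ g.degreeOf t ≤ D) →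
      (∀ t, 1 ≤ g'.degreeOf t ∧ g'.degreeOf t ≤ D) → QQ W e c g g' ≠ 0 →
      nh (QQ W e c g g') ≤ C * (4 ^ e * (1 + nh g) + nh g') := by
  obtain ⟨C₀, hC₀, hrel⟩ := nh_relI_le W
  refine ⟨4 * D + 4 * D ^ 2 * C₀, by positivity, ?_⟩
  intro e c g g' hg hg' hd hd' hQ
  have hr : ∀ t, (relI W e c 3 t).degreeOf (3, t) ≠ 0 := fun t => by
    rw [(relI_degreeOf_i W e c 3 (Or.inr rfl) t).1]
    norm_num
  have hM1 : El (3, 1) (relI W e c 3 1) (El (3, 0) (relI W e c 3 0) (gX 3 g')) ≠ 0 := by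
    intro h0
    apply hQ
    rw [QQ, h0]
    refine El_zero_right _ _ ?_
    rw [gX_degreeOf]
    have := (hd 1).1
    omega
  have hM0 : El (3, 0) (relI W e c 3 0) (gX 3 g') ≠ 0 := by
    intro h0
    apply hM1
    rw [h0]
    exact El_zero_right _ _ (hr 1)
  have hD : ∀ t, g.degreeOf t ≤ D := fun t => (hd t).2
  have hD' : ∀ t, g'.degreeOf t ≤ D := fun t => (hd' t).2
  have n0 := J1b_nh (3, 0) hM0 (relI_ne_zero W e c 3 (Or.inr rfl) 0) (gX_ne_zero 3 hg')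
    (J1b_gX hD' 3 0) (hrel e c 3 0 (Or.inr rfl)) (J1b_relI_i W e c 3 (Or.inr rfl) 0)
    (J1b_nh_gX 3 g').le
  have n1 := J1b_nh (3, 1) hM1 (relI_ne_zero W e c 3 (Or.inr rfl) 1) hM0
    (J1b_M0_deg W e c g' D hD').2.2 (hrel e c 3 1 (Or.inr rfl))
    (J1b_relI_i W e c 3 (Or.inr rfl) 1) n0
  have n2 := J1b_nh (0, 1) hQ (gX_ne_zero 0 hg) hM1 (J1b_M1_deg W e c g' D hD').2.1
    (J1b_nh_gX 0 g).le (J1b_gX hD 0 1) n1
  refine n2.trans ?_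
  have hg0 := nh_nonneg hg
  have hg0' := nh_nonneg hg'
  have hE : (0 : ℝ) ≤ 4 ^ e := by positivity
  have hD0 : (0 : ℝ) ≤ D := Nat.cast_nonneg _
  push_cast
  have k1 : 0 ≤ (4 : ℝ) * D * 4 ^ e := by positivity
  have k2 : 0 ≤ 4 * (D : ℝ) ^ 2 * C₀ * (4 ^ e * nh g) := by positivity
  have k3 : 0 ≤ 4 * (D : ℝ) ^ 2 * C₀ * nh g' := by positivity
  nlinarith [k1, k2, k3]

/-- Height of `NN`: `nh_El_le` four times:
`nh NN ≤ 4 b D nh g' + D (4 b 4^e nh g + D (2 b C₀ 4^e + 2 (b C₀ 4^e + 2 nh F)))`. -/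
theorem nh_NN_le {K : Type u} [Field K] [NumberField K] (W : Fin 2 → WeierstrassCurve K)
    (D b : ℕ) :
    ∃ C : ℝ, 0 ≤ C ∧ ∀ (e : ℕ) (c : Fin 2 → Bool) (g g' : MvPolynomial (Fin 2) K)
      (F : MvPolynomial (Fin 4 × Fin 2) K), g ≠ 0 → g' ≠ 0 →
      (∀ t, 1 ≤ g.degreeOf t ∧ g.degreeOf t ≤ D) →
      (∀ t, 1 ≤ g'.degreeOf t ∧ g'.degreeOf t ≤ D) →
      F.vars ⊆ {(0, 0), (2, 0), (2, 1)} → (∀ t, F.degreeOf (2, t) ≤ b) → F ≠ 0 →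
      NN W e c g g' F ≠ 0 →
      nh (NN W e c g g' F) ≤ C * (4 ^ e * (1 + nh g) + nh g' + nh F) := by
  obtain ⟨C₀, hC₀, hrel⟩ := nh_relI_le W
  refine ⟨4 * b * D + 4 * b * D ^ 2 * C₀ + 4 * D ^ 2, by positivity, ?_⟩
  intro e c g g' F hg hg' hd hd' hF hb hF0 hN
  have hr : ∀ t, (rel W e c t).degreeOf (2, t) ≠ 0 := fun t => by
    rw [rel_eq_relI, (relI_degreeOf_two W e c 1 (Or.inl rfl) t).1]
    norm_num
  have hN2 : El (0, 1) (gX 0 g) (El (2, 1) (rel W e c 1) (El (2, 0) (rel W e c 0) F)) ≠ 0 := by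
    intro h0
    apply hN
    rw [NN, h0]
    refine El_zero_right _ _ ?_
    rw [gX_degreeOf]
    have := (hd' 1).1
    omega
  have hN1 : El (2, 1) (rel W e c 1) (El (2, 0) (rel W e c 0) F) ≠ 0 := by
    intro h0
    apply hN2
    rw [h0]
    refine El_zero_right _ _ ?_
    rw [gX_degreeOf]
    have := (hd 1).1
    omega
  have hN0 : El (2, 0) (rel W e c 0) F ≠ 0 := by
    intro h0
    apply hN1
    rw [h0]
    exact El_zero_right _ _ (hr 1)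
  have hD : ∀ t, g.degreeOf t ≤ D := fun t => (hd t).2
  have hD' : ∀ t, g'.degreeOf t ≤ D := fun t => (hd' t).2
  have n0 := J1b_nh (2, 0) hN0 (relI_ne_zero W e c 1 (Or.inl rfl) 0) hF0 (hb 0)
    (hrel e c 1 0 (Or.inl rfl)) (J1b_relI_2 W e c 1 (Or.inl rfl) 0) le_rfl
  have n1 := J1b_nh (2, 1) hN1 (relI_ne_zero W e c 1 (Or.inl rfl) 1) hN0
    (J1b_N0_deg W e c hF le_rfl hb).2.2 (hrel e c 1 1 (Or.inl rfl))
    (J1b_relI_2 W e c 1 (Or.inl rfl) 1) n0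
  have n2 := J1b_nh (0, 1) hN2 (gX_ne_zero 0 hg) hN1 (J1b_N1_deg W e c hF le_rfl hb).2.1
    (J1b_nh_gX 0 g).le (J1b_gX hD 0 1) n1
  have n3 := J1b_nh (1, 1) hN (gX_ne_zero 1 hg') hN2
    ((J1b_N2_deg W e c D hF hD le_rfl hb).2 1) (J1b_nh_gX 1 g').le (J1b_gX hD' 1 1) n2
  refine n3.trans ?_
  have hg0 := nh_nonneg hg
  have hg0' := nh_nonneg hg'
  have hF1 := nh_nonneg hF0
  push_cast
  have k1 : 0 ≤ (4 * b * D + 4 * D ^ 2 : ℝ) * 4 ^ e := by positivity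
  have k2 : 0 ≤ (4 * b * D ^ 2 * C₀ + 4 * D ^ 2 : ℝ) * nh g' := by positivity
  have k3 : 0 ≤ (4 * b * D + 4 * b * D ^ 2 * C₀ : ℝ) * nh F := by positivity
  have k4 : 0 ≤ (4 * b * D ^ 2 * C₀ + 4 * D ^ 2 : ℝ) * (4 ^ e * nh g) := by positivity
  nlinarith [k1, k2, k3, k4]

end Pool.Agent.Lib.MP_17a322_nt.VJ
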