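import Pool.Agent.Lib.MP_17a322_nt.VJ.J0
import Pool.Agent.Lib.MP_17a322_nt.VJ.A2

/-!
Reduction modulo `y ^ k - c`.
-/

namespace Pool.Agent.Lib.MP_17a322_nt.VJ

open MvPolynomial Height

theorem rdm_monomial {K σ : Type*} [Field K] [DecidableEq σ] (y : σ) (k : ℕ) (c : K)
    (m : σ →₀ ℕ) (a : K) :
    rdm y k c (monomial m a) = monomial (m.update y (m y % k)) (a * c ^ (m y / k)) := by
  have h1 : (monomial m a : MvPolynomial σ K) = a • (basisMonomials σ K) m := by
    rw [coe_basisMonomials, smul_monomial, smul_eq_mul, mul_one]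
  rw [h1, map_smul]
  unfold rdm
  rw [Module.Basis.constr_basis, smul_monomial, smul_eq_mul]

private theorem J2a_supp {K σ ι : Type*} [Field K] (P : (σ →₀ ℕ) → Prop) (s : Finset ι)
    (f : ι → MvPolynomial σ K) (h : ∀ i ∈ s, ∀ n ∈ (f i).support, P n) :
    ∀ n ∈ (∑ i ∈ s, f i).support, P n := by
  classical
  intro n hn
  have h1 := support_sum hn
  obtain ⟨i, hi, hni⟩ := Finset.mem_biUnion.mp h1
  exact h i hi n hni

private theorem J2a_mono {K σ : Type*} [Field K] (P : (σ →₀ ℕ) → Prop) (m : σ →₀ ℕ) (a : K)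
    (h : P m) : ∀ n ∈ (monomial m a : MvPolynomial σ K).support, P n := by
  intro n hn
  have h1 := Finset.mem_singleton.mp (support_monomial_subset hn)
  rw [h1]
  exact h

private theorem J2a_dom {K σ : Type*} [Field K] [DecidableEq σ] {F G : MvPolynomial σ K}
    (h : ∀ n ∈ G.support, ∃ m ∈ F.support, ∀ t, n t ≤ m t) :
    (∀ t, G.degreeOf t ≤ F.degreeOf t) ∧ G.vars ⊆ F.vars := by
  constructor
  · intro t
    rw [degreeOf_le_iff]
    intro n hn
    obtain ⟨m, hm, hle⟩ := h n hn
    exact (hle t).trans (monomial_le_degreeOf t hm)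
  · intro t ht
    rw [mem_vars_iff_mem_support] at ht ⊢
    obtain ⟨n, hn, htn⟩ := ht
    obtain ⟨m, hm, hle⟩ := h n hn
    refine ⟨m, hm, ?_⟩
    rw [Finsupp.mem_support_iff] at htn ⊢
    have := hle t
    omega

private theorem J2a_upd {σ : Type*} [DecidableEq σ] (m : σ →₀ ℕ) (y : σ) (i : ℕ) (t : σ) :
    (m.update y i) t = if t = y then i else m t := by
  rw [Finsupp.coe_update, Function.update_apply]

private theorem J2a_rdm {K σ : Type*} [Field K] [DecidableEq σ] (y : σ) (k : ℕ) (c : K)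
    (F : MvPolynomial σ K) : rdm y k c F = ∑ m ∈ F.support,
      monomial (m.update y (m y % k)) (coeff m F * c ^ (m y / k)) := by
  conv_lhs => rw [← support_sum_monomial_coeff F, map_sum]
  refine Finset.sum_congr rfl fun m _ => ?_
  rw [rdm_monomial]

/-- the quotient -/
private noncomputable def J2a_B {K σ : Type*} [Field K] [DecidableEq σ] (y : σ) (k : ℕ) (c : K)
    (F : MvPolynomial σ K) : MvPolynomial σ K := ∑ m ∈ F.support, ∑ l ∈ Finset.range (m y / k),
      monomial (m.update y (m y % k + k * l)) (coeff m F * c ^ (m y / k - 1 - l))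

private theorem J2a_one {K σ : Type*} [Field K] [DecidableEq σ] (y : σ) (k : ℕ) (c : K)
    (m : σ →₀ ℕ) (a : K) :
    (monomial m a : MvPolynomial σ K) = monomial (m.update y (m y % k)) (a * c ^ (m y / k)) +
      (X y ^ k - C c) * ∑ l ∈ Finset.range (m y / k),
        monomial (m.update y (m y % k + k * l)) (a * c ^ (m y / k - 1 - l)) := by
  have h1 : ∀ (l : ℕ) (b : K), (monomial (m.update y (m y % k + k * l)) b : MvPolynomial σ K) =
      monomial (m.update y (m y % k)) b * (X y ^ k) ^ l := by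
    intro l b
    have e : m.update y (m y % k + k * l) =
        m.update y (m y % k) + Finsupp.single y (k * l) := by
      ext t
      rw [Finsupp.add_apply, J2a_upd, J2a_upd, Finsupp.single_apply]
      by_cases h : t = y
      · subst h; simp
      · simp [h, Ne.symm h]
    rw [← pow_mul, X_pow_eq_monomial, monomial_mul, mul_one, e]
  have h2 : ∀ (l : ℕ) (b : K), (monomial (m.update y (m y % k)) (b * c ^ l) : MvPolynomial σ K) =
      monomial (m.update y (m y % k)) b * (C c) ^ l := by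
    intro l b
    rw [← C_pow, mul_comm _ (C (c ^ l)), C_mul_monomial, mul_comm]
  have h3 : (monomial m a : MvPolynomial σ K) =
      monomial (m.update y (m y % k)) a * (X y ^ k) ^ (m y / k) := by
    rw [← h1, Nat.mod_add_div, Finsupp.update_self]
  have h4 : ∑ l ∈ Finset.range (m y / k),
      (monomial (m.update y (m y % k + k * l)) (a * c ^ (m y / k - 1 - l)) : MvPolynomial σ K) =
      monomial (m.update y (m y % k)) a *
        ∑ l ∈ Finset.range (m y / k), (X y ^ k) ^ l * (C c) ^ (m y / k - 1 - l) := by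
    rw [Finset.mul_sum]
    refine Finset.sum_congr rfl fun l _ => ?_
    rw [h1, h2]
    ring
  have h5 := (Commute.all (X y ^ k : MvPolynomial σ K) (C c)).mul_geom_sum₂ (m y / k)
  rw [h4, h2]
  calc (monomial m a : MvPolynomial σ K)
      = monomial (m.update y (m y % k)) a * (C c) ^ (m y / k) +
        monomial (m.update y (m y % k)) a * ((X y ^ k) ^ (m y / k) - (C c) ^ (m y / k)) := by
        rw [h3]; ring
    _ = _ := by rw [← h5]; ring

private theorem J2a_pow {K : Type*} [Field K] (v : AbsoluteValue K ℝ) (c : K) {i w : ℕ}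
    (h : i ≤ w) (b : K) : v (b * c ^ i) ≤ max 1 (v c) ^ w * v b := by
  rw [map_mul, map_pow, mul_comm]
  refine mul_le_mul_of_nonneg_right ?_ (v.nonneg b)
  calc v c ^ i ≤ max 1 (v c) ^ i := pow_le_pow_left₀ (v.nonneg c) (le_max_right _ _) i
    _ ≤ max 1 (v c) ^ w := pow_le_pow_right₀ (le_max_left _ _) h

/-- Reduction: `F = rdm F + (y ^ k - c) B`, with degrees and sizes.
Proof. For a monomial `m` put `j = m y / k`, `i = m y % k`, `m' = m.update y i`, so that
`monomial m a = monomial m' a * (X y ^ k) ^ j`, and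
`(X y ^ k) ^ j - (C c) ^ j = (X y ^ k - C c) * ∑_{l < j} (X y ^ k) ^ l * (C c) ^ (j - 1 - l)`
(`Commute.mul_geom_sum₂` / `mul_geom_sum₂`, `geom_sum₂`). Define
`B = ∑_{m ∈ F.support} ∑_{l < m y / k} monomial (m.update y (m y % k + k l)) (coeff m F * c ^ (m y / k - 1 - l))`.
All monomials of `rdm F` and `B` are of the form `m.update y i'` with `m` a monomial of `F` and `i' ≤ m y`, so
degrees and variables do not grow (`degreeOf_le_iff`, `mem_vars`, or `degreeOf_sum_le`, `degreeOf_add_le`;
`support_sum`). Sizes: `m y / k ≤ w`, `v (c ^ i) = (v c) ^ i ≤ (max 1 (v c)) ^ w` for `i ≤ w`; with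
`SN_NV` and `NV_monomial`. Archimedean case: `NV v (∑ ..) ≤ ∑_m ∑_l v (coeff m F) * (max 1 (v c)) ^ w ≤
w * (max 1 (v c)) ^ w * ∑_m v (coeff m F)` (`SN.sum_le_sum`; `NV v F` unfolds to that sum).
Nonarchimedean case: `SN.sum_le_max` and `coeff_le_NV`; here `cst v w = 1`. -/
theorem rdm_spec {K σ : Type*} [Field K] [DecidableEq σ] (y : σ) (k : ℕ) (hk : 1 ≤ k) (c : K)
    (w : ℕ) (F : MvPolynomial σ K) (hF : F.degreeOf y < k * (w + 1)) :
    (rdm y k c F).degreeOf y < k ∧ (∀ t, (rdm y k c F).degreeOf t ≤ F.degreeOf t) ∧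
      (rdm y k c F).vars ⊆ F.vars ∧
      (∀ v : AbsoluteValue K ℝ, NV v (rdm y k c F) ≤ max 1 (v c) ^ w * NV v F) ∧
      ∃ B : MvPolynomial σ K, F = rdm y k c F + (X y ^ k - C c) * B ∧
        (∀ t, B.degreeOf t ≤ F.degreeOf t) ∧ B.vars ⊆ F.vars ∧
        ∀ v : AbsoluteValue K ℝ, NV v B ≤ cst v w * (max 1 (v c) ^ w * NV v F) := by
  have hkp : 0 < k := hk
  have hle : ∀ m ∈ F.support, m y / k ≤ w := by
    intro m hm
    have h1 := (monomial_le_degreeOf y hm).trans_lt hF
    exact Nat.lt_succ_iff.mp (Nat.div_lt_of_lt_mul h1)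
  have hM : (0 : ℝ) ≤ 1 := zero_le_one
  have hr : ∀ n ∈ (rdm y k c F).support, n y < k ∧ ∃ m ∈ F.support, ∀ t, n t ≤ m t := by
    rw [J2a_rdm]
    refine J2a_supp (fun n => n y < k ∧ ∃ m ∈ F.support, ∀ t, n t ≤ m t) _ _ fun m hm => ?_
    refine J2a_mono _ _ _ ⟨?_, m, hm, fun t => ?_⟩
    · rw [J2a_upd, if_pos rfl]
      exact Nat.mod_lt _ hkp
    · rw [J2a_upd]
      split_ifs with h
      · rw [h]; exact Nat.mod_le _ _
      · exact le_rfl
  have hB : ∀ n ∈ (J2a_B y k c F).support, ∃ m ∈ F.support, ∀ t, n t ≤ m t := by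
    unfold J2a_B
    refine J2a_supp (fun n => ∃ m ∈ F.support, ∀ t, n t ≤ m t) _ _ fun m hm => ?_
    refine J2a_supp (fun n => ∃ m ∈ F.support, ∀ t, n t ≤ m t) _ _ fun l hl => ?_
    refine J2a_mono _ _ _ ⟨m, hm, fun t => ?_⟩
    rw [J2a_upd]
    split_ifs with h
    · rw [h]
      have h1 : k * l ≤ k * (m y / k) := Nat.mul_le_mul_left _ (Finset.mem_range.mp hl).le
      have h2 := Nat.mod_add_div (m y) k
      omega
    · exact le_rfl
  have hr1 := J2a_dom (fun n hn => (hr n hn).2)
  have hB1 := J2a_dom hB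
  refine ⟨?_, hr1.1, hr1.2, ?_, J2a_B y k c F, ?_, hB1.1, hB1.2, ?_⟩
  · rw [degreeOf_lt_iff hkp]
    exact fun n hn => (hr n hn).1
  · intro v
    have hMw : 0 ≤ max 1 (v c) ^ w := pow_nonneg (zero_le_one.trans (le_max_left _ _)) _
    rw [J2a_rdm]
    by_cases hv : IsNonarchimedean v
    · refine (SN_NV v).sum_le_max hv _ _ (mul_nonneg hMw (A2_nonneg v F)) fun m hm => ?_
      show NV v _ ≤ _
      rw [NV_monomial]
      exact (J2a_pow v c (hle m hm) _).trans
        (mul_le_mul_of_nonneg_left (coeff_le_NV v F m) hMw)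
    · refine ((SN_NV v).sum_le_sum _ _).trans ?_
      rw [A2_ar hv F, Finset.mul_sum]
      refine Finset.sum_le_sum fun m hm => ?_
      show NV v _ ≤ _
      rw [NV_monomial]
      exact J2a_pow v c (hle m hm) _
  · rw [J2a_rdm, J2a_B, Finset.mul_sum, ← Finset.sum_add_distrib]
    conv_lhs => rw [← support_sum_monomial_coeff F]
    exact Finset.sum_congr rfl fun m _ => J2a_one y k c m _
  · intro v
    have hMw : 0 ≤ max 1 (v c) ^ w := pow_nonneg (zero_le_one.trans (le_max_left _ _)) _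
    have hex : ∀ m ∈ F.support, ∀ l ∈ Finset.range (m y / k), m y / k - 1 - l ≤ w := by
      intro m hm l _
      have := hle m hm
      omega
    unfold J2a_B
    by_cases hv : IsNonarchimedean v
    · rw [cst, if_pos hv, one_mul]
      refine (SN_NV v).sum_le_max hv _ _ (mul_nonneg hMw (A2_nonneg v F)) fun m hm => ?_
      refine (SN_NV v).sum_le_max hv _ _ (mul_nonneg hMw (A2_nonneg v F)) fun l hl => ?_
      show NV v _ ≤ _
      rw [NV_monomial]
      exact (J2a_pow v c (hex m hm l hl) _).trans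
        (mul_le_mul_of_nonneg_left (coeff_le_NV v F m) hMw)
    · rw [cst, if_neg hv]
      refine ((SN_NV v).sum_le_sum _ _).trans ?_
      rw [A2_ar hv F, Finset.mul_sum, Finset.mul_sum]
      refine Finset.sum_le_sum fun m hm => ?_
      refine ((SN_NV v).sum_le_sum _ _).trans ?_
      have h1 : ∀ l ∈ Finset.range (m y / k), NV v
          (monomial (m.update y (m y % k + k * l)) (coeff m F * c ^ (m y / k - 1 - l))) ≤
          max 1 (v c) ^ w * v (coeff m F) := by
        intro l hl
        rw [NV_monomial]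
        exact J2a_pow v c (hex m hm l hl) _
      refine (Finset.sum_le_card_nsmul _ _ _ h1).trans ?_
      rw [Finset.card_range, nsmul_eq_mul]
      refine mul_le_mul_of_nonneg_right ?_ (mul_nonneg hMw (v.nonneg _))
      exact_mod_cast hle m hm

end Pool.Agent.Lib.MP_17a322_nt.VJ
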