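import Pool.Agent.Lib.MP_17a322_nt.VJ.J0

/-!
Choice of an integer `c` such that `y ^ k - c` has no common factor with `Q`.
-/

namespace Pool.Agent.Lib.MP_17a322_nt.VJ

open MvPolynomial Height

/-- `F` as a polynomial in the variable `y`, as an algebra homomorphism -/
private noncomputable def J2b_hom {K σ : Type*} [Field K] [DecidableEq σ] (y : σ) :
    MvPolynomial σ K →ₐ[K] Polynomial (MvPolynomial σ K) :=
  aeval (fun t => if t = y then Polynomial.X else Polynomial.C (X t))

private theorem J2b_inj {K σ : Type*} [Field K] [DecidableEq σ] (y : σ) :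
    Function.Injective (J2b_hom (K := K) y) := by
  have h : ((Polynomial.aeval (X y : MvPolynomial σ K)).restrictScalars K).comp
      (J2b_hom (K := K) y) = AlgHom.id K (MvPolynomial σ K) := by
    apply MvPolynomial.algHom_ext
    intro t
    by_cases ht : t = y
    · subst ht
      simp [J2b_hom]
    · simp [J2b_hom, ht]
  intro F G hFG
  have h1 := DFunLike.congr_fun h F
  have h2 := DFunLike.congr_fun h G
  rw [AlgHom.comp_apply] at h1 h2
  rw [hFG, h2] at h1
  exact h1.symm

private theorem J2b_natDegree {K σ : Type*} [Field K] [DecidableEq σ] (y : σ)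
    (F : MvPolynomial σ K) : (J2b_hom (K := K) y F).natDegree ≤ F.degreeOf y := by
  have hF : J2b_hom (K := K) y F = ∑ m ∈ F.support, Polynomial.C (C (coeff m F)) *
      ∏ i ∈ m.support, ((if i = y then Polynomial.X else Polynomial.C (X i)) ^ m i) := by
    unfold J2b_hom
    rw [aeval_def, eval₂_eq]
    rfl
  rw [hF]
  refine Polynomial.natDegree_sum_le_of_forall_le _ _ fun m hm => ?_
  refine Polynomial.natDegree_mul_le.trans ?_
  rw [Polynomial.natDegree_C, zero_add]
  refine (Polynomial.natDegree_prod_le _ _).trans ?_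
  refine le_trans ?_ (monomial_le_degreeOf y hm)
  calc ∑ i ∈ m.support, ((if i = y then Polynomial.X else Polynomial.C (X i) :
        Polynomial (MvPolynomial σ K)) ^ m i).natDegree
      ≤ ∑ i ∈ m.support, (if i = y then m y else 0) := by
        refine Finset.sum_le_sum fun i _ => ?_
        by_cases hi : i = y
        · subst hi
          simp
        · rw [if_neg hi, if_neg hi, ← Polynomial.C_pow, Polynomial.natDegree_C]
    _ ≤ m y := by
        rw [Finset.sum_ite_eq']
        split_ifs <;> simp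

/-- Over a field of characteristic zero one of the polynomials `X ^ k - c`, `1 ≤ c ≤ q + 1`, is coprime
to a given nonzero polynomial of degree at most `q`. -/
private theorem J2b_coprime {F : Type*} [Field F] [CharZero F] (k q : ℕ) (Q : Polynomial F)
    (hQ : Q ≠ 0) (hq : Q.natDegree ≤ q) :
    ∃ c : ℕ, 1 ≤ c ∧ c ≤ q + 1 ∧ IsCoprime (Polynomial.X ^ k - Polynomial.C (c : F)) Q := by
  classical
  by_contra hcon
  push Not at hcon
  let P : ℕ → Polynomial F := fun c => Polynomial.X ^ k - Polynomial.C (c : F)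
  have hP : ∀ c c' : ℕ, c ≠ c' → IsCoprime (P c) (P c') := by
    intro c c' hcc
    have hne : (c' : F) - c ≠ 0 := by
      rw [sub_ne_zero]
      exact_mod_cast hcc.symm
    refine ⟨Polynomial.C ((c' : F) - c)⁻¹, -Polynomial.C ((c' : F) - c)⁻¹, ?_⟩
    have h1 : Polynomial.C ((c' : F) - c)⁻¹ * P c + -Polynomial.C ((c' : F) - c)⁻¹ * P c' =
        Polynomial.C ((c' : F) - c)⁻¹ * (Polynomial.C (c' : F) - Polynomial.C (c : F)) := by
      show Polynomial.C ((c' : F) - c)⁻¹ * (Polynomial.X ^ k - Polynomial.C (c : F)) +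
        -Polynomial.C ((c' : F) - c)⁻¹ * (Polynomial.X ^ k - Polynomial.C (c' : F)) = _
      ring
    rw [h1, ← Polynomial.C_sub, ← Polynomial.C_mul, inv_mul_cancel₀ hne, Polynomial.C_1]
  let g : ℕ → Polynomial F := fun c => EuclideanDomain.gcd (P c) Q
  have hgP : ∀ c, g c ∣ P c := fun c => EuclideanDomain.gcd_dvd_left _ _
  have hgQ : ∀ c, g c ∣ Q := fun c => EuclideanDomain.gcd_dvd_right _ _
  have hg0 : ∀ c, g c ≠ 0 := fun c h => hQ (by
    have := hgQ c
    rw [h, zero_dvd_iff] at this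
    exact this)
  have hgd : ∀ c ∈ Finset.Icc 1 (q + 1), 1 ≤ (g c).natDegree := by
    intro c hc
    rw [Finset.mem_Icc] at hc
    have h1 : ¬ IsUnit (g c) := by
      intro hu
      exact hcon c hc.1 hc.2 (EuclideanDomain.gcd_isUnit_iff.1 hu)
    have h2 := Polynomial.degree_pos_of_ne_zero_of_nonunit (hg0 c) h1
    exact Polynomial.natDegree_pos_iff_degree_pos.2 h2
  have hdvd : ∏ c ∈ Finset.Icc 1 (q + 1), g c ∣ Q := by
    refine Finset.prod_dvd_of_coprime ?_ fun c _ => hgQ c
    intro c _ c' _ hcc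
    exact IsCoprime.of_isCoprime_of_dvd_left
      (IsCoprime.of_isCoprime_of_dvd_right (hP c c' hcc) (hgP c')) (hgP c)
  have h1 := Polynomial.natDegree_le_of_dvd hdvd hQ
  rw [Polynomial.natDegree_prod _ _ fun c _ => hg0 c] at h1
  have h2 : q + 1 ≤ ∑ c ∈ Finset.Icc 1 (q + 1), (g c).natDegree := by
    calc q + 1 = ∑ c ∈ Finset.Icc 1 (q + 1), 1 := by simp
      _ ≤ _ := Finset.sum_le_sum hgd
  omega

/-- Choice of `c`.
Proof. Let `Kb = AlgebraicClosure K`. For `θ ∈ Kb` let `σ_θ : MvPolynomial σ K → MvPolynomial σ Kb` be the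
`K`-algebra homomorphism `y ↦ C θ`, `t ↦ X t` for `t ≠ y`. Choose a monomial `m₀` of `Q` and let
`n(Y) = ∑_{m ∈ Q.support, m = m₀ outside y} coeff m Q * Y ^ (m y)` in `Polynomial K`; it is nonzero, of degree
at most `q = Q.degreeOf y`, and `n(θ)` is the coefficient of `m₀.erase y` (that is `m₀.update y 0`) in
`σ_θ(Q)`: so `σ_θ(Q) ≠ 0` unless `n(θ) = 0`. The polynomial `n` has at most `q` roots in `Kb`, so the set of the
`θ ^ k`, `n(θ) = 0`, has at most `q` elements, and one of the `q + 1` distinct elements `1, .., q + 1` of `K`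
(characteristic `0`) is not among them: call it `c`. Then `θ ^ k = c` implies `σ_θ(Q) ≠ 0`.
Let `X y ^ k - C c ∣ Q * A`, `A.degreeOf y < k`. For every `θ` with `θ ^ k = c` we get `σ_θ(Q) σ_θ(A) = 0`, so
`σ_θ(A) = 0`. The polynomial `Y ^ k - c` has `k` distinct roots `θ` in `Kb` (separable, as `c ≠ 0`, `k ≠ 0` in
`K`; for instance `Polynomial.nthRoots`, or `X_pow_sub_C` separable `Polynomial.separable_X_pow_sub_C`
and `card_rootSet_eq_natDegree`). For every monomial `m₁` with `m₁ y = 0` the polynomial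
`∑_{i < k} coeff (m₁ + single y i) A * Y ^ i` of degree `< k` has these `k` roots, so it is zero
(`Polynomial.eq_zero_of_natDegree_lt_card_of_eval_eq_zero'`): all coefficients of `A` vanish. -/
theorem exists_c {K σ : Type*} [Field K] [CharZero K] [DecidableEq σ] (y : σ) (k : ℕ)
    (hk : 1 ≤ k) (Q : MvPolynomial σ K) (hQ : Q ≠ 0) :
    ∃ c : ℕ, 1 ≤ c ∧ c ≤ Q.degreeOf y + 1 ∧ ∀ A : MvPolynomial σ K,
      (X y ^ k - C (c : K)) ∣ Q * A → A.degreeOf y < k → A = 0 := by
  let F := FractionRing (MvPolynomial σ K)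
  let φ : MvPolynomial σ K →+* F := algebraMap (MvPolynomial σ K) F
  have hφ : Function.Injective φ := IsFractionRing.injective (MvPolynomial σ K) F
  have hchar : CharZero F := charZero_of_injective_ringHom hφ
  let ψ : MvPolynomial σ K →+* Polynomial F :=
    (Polynomial.mapRingHom φ).comp (J2b_hom (K := K) y).toRingHom
  have hψ : Function.Injective ψ := fun a b h => J2b_inj y (Polynomial.map_injective φ hφ h)
  have hdeg : ∀ A : MvPolynomial σ K, (ψ A).natDegree ≤ A.degreeOf y := fun A =>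
    Polynomial.natDegree_map_le.trans (J2b_natDegree y A)
  have hψQ : ψ Q ≠ 0 := fun h => hQ (hψ (h.trans (map_zero ψ).symm))
  obtain ⟨c, hc1, hc2, hcop⟩ := J2b_coprime k (Q.degreeOf y) (ψ Q) hψQ (hdeg Q)
  refine ⟨c, hc1, hc2, fun A hA hAd => ?_⟩
  have h1 : ψ (X y ^ k - C (c : K)) = Polynomial.X ^ k - Polynomial.C (c : F) := by
    have hX : ψ (X y) = Polynomial.X := by
      simp [ψ, J2b_hom]
    rw [map_sub, map_pow, hX, map_natCast, map_natCast, map_natCast]
  have h2 : ψ (X y ^ k - C (c : K)) ∣ ψ Q * ψ A := by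
    rw [← map_mul]
    exact map_dvd ψ hA
  rw [h1] at h2
  have h3 := hcop.dvd_of_dvd_mul_left h2
  have h4 : ψ A = 0 := by
    refine Polynomial.eq_zero_of_dvd_of_natDegree_lt h3 ?_
    rw [Polynomial.natDegree_X_pow_sub_C]
    exact lt_of_le_of_lt (hdeg A) hAd
  exact hψ (h4.trans (map_zero ψ).symm)

end Pool.Agent.Lib.MP_17a322_nt.VJ
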