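import Pool.Agent.Lib.MP_17a322_nt.VJ.J0
import Pool.Agent.Lib.MP_17a322_nt.VJ.A5
import Pool.Agent.Lib.MP_17a322_nt.VJ.IF_A

/-!
Order of vanishing of `N(X, α')` at `X = α` (9.4): an irreducible factor.
-/

universe u

namespace Pool.Agent.Lib.MP_17a322_nt.VJ

open MvPolynomial Height

private theorem J4a_degreeOf_pderiv_le {R σ : Type*} [CommRing R] (x t : σ)
    (G : MvPolynomial σ R) : (pderiv x G).degreeOf t ≤ G.degreeOf t := by
  classical
  rw [degreeOf_eq_sup]
  refine Finset.sup_le fun m hm => ?_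
  rw [mem_support_iff, coeff_pderiv] at hm
  have h1 : coeff (m + Finsupp.single x 1) G ≠ 0 := left_ne_zero_of_mul hm
  have h2 : (m + Finsupp.single x 1 : σ →₀ ℕ) t ≤ G.degreeOf t :=
    monomial_le_degreeOf t (mem_support_iff.2 h1)
  rw [Finsupp.add_apply] at h2
  omega

private theorem J4a_degreeOf_pderiv_lt {R σ : Type*} [CommRing R] (x : σ)
    (G : MvPolynomial σ R) (hx : 1 ≤ G.degreeOf x) :
    (pderiv x G).degreeOf x < G.degreeOf x := by
  classical
  rw [degreeOf_eq_sup, Finset.sup_lt_iff (by rw [Nat.bot_eq_zero]; omega)]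
  intro m hm
  rw [mem_support_iff, coeff_pderiv] at hm
  have h1 : coeff (m + Finsupp.single x 1) G ≠ 0 := left_ne_zero_of_mul hm
  have h2 : (m + Finsupp.single x 1 : σ →₀ ℕ) x ≤ G.degreeOf x :=
    monomial_le_degreeOf x (mem_support_iff.2 h1)
  rw [Finsupp.add_apply, Finsupp.single_eq_same] at h2
  omega

private theorem J4a_pderiv_ne_zero {k σ : Type*} [Field k] [CharZero k] (x : σ)
    (G : MvPolynomial σ k) (hx : 1 ≤ G.degreeOf x) : pderiv x G ≠ 0 := by
  classical
  have h0 : ∃ m ∈ G.support, 1 ≤ m x := by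
    by_contra hcon
    push Not at hcon
    have h1 : G.degreeOf x ≤ 0 := by
      rw [degreeOf_eq_sup]
      refine Finset.sup_le fun m hm => ?_
      have := hcon m hm
      omega
    omega
  obtain ⟨m, hm, hmx⟩ := h0
  have h1 : m - Finsupp.single x 1 + Finsupp.single x 1 = m := by
    refine tsub_add_cancel_of_le ?_
    rw [Finsupp.single_le_iff]
    exact hmx
  rw [MvPolynomial.ne_zero_iff]
  refine ⟨m - Finsupp.single x 1, ?_⟩
  rw [coeff_pderiv, h1]
  refine mul_ne_zero (mem_support_iff.1 hm) ?_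
  exact Nat.cast_add_one_ne_zero _

private theorem J4a_not_dvd {k σ : Type*} [Field k] [CharZero k] (x : σ)
    (G : MvPolynomial σ k) (hx : 1 ≤ G.degreeOf x) : ¬ G ∣ pderiv x G := by
  classical
  rintro ⟨Q, hQ⟩
  have h0 := J4a_pderiv_ne_zero x G hx
  have h1 := J4a_degreeOf_pderiv_lt x G hx
  have hG : G ≠ 0 := by
    rintro rfl
    exact h0 (by rw [hQ, zero_mul])
  have hQ0 : Q ≠ 0 := by
    rintro rfl
    exact h0 (by rw [hQ, mul_zero])
  rw [hQ, degreeOf_mul_eq hG hQ0] at h1
  omega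

private theorem J4a_pderiv_aeval {k σ : Type*} [Field k] [DecidableEq σ] (x y : σ) (hxy : x ≠ y)
    (c : k) (F : MvPolynomial σ k) :
    pderiv x (aeval (Function.update X y (C c) : σ → MvPolynomial σ k) F) =
      aeval (Function.update X y (C c) : σ → MvPolynomial σ k) (pderiv x F) := by
  induction F using MvPolynomial.induction_on with
  | C a => rw [pderiv_C, map_zero, aeval_C, algebraMap_eq, pderiv_C]
  | add p q hp hq => rw [map_add, map_add, hp, hq, map_add, map_add]
  | mul_X p i hp =>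
    rw [map_mul, pderiv_mul, hp, aeval_X, pderiv_mul, map_add, map_mul, map_mul, aeval_X]
    congr 1
    congr 1
    by_cases hi : i = y
    · subst hi
      rw [Function.update_self, pderiv_C, pderiv_X_of_ne (Ne.symm hxy), map_zero]
    · rw [Function.update_of_ne hi]
      by_cases hix : i = x
      · subst hix
        rw [pderiv_X_self, map_one]
      · rw [pderiv_X_of_ne hix, map_zero]

private theorem J4a_dvd_pderiv {k σ : Type*} [Field k] (x : σ) (a : k) (F : MvPolynomial σ k)
    (m : ℕ) (h : (X x - C a) ^ m ∣ F) : (X x - C a) ^ (m - 1) ∣ pderiv x F := by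
  obtain ⟨U, rfl⟩ := h
  rw [pderiv_mul]
  refine dvd_add ?_ ?_
  · rw [pderiv_pow]
    refine Dvd.dvd.mul_right ?_ _
    refine Dvd.dvd.mul_right ?_ _
    exact Dvd.intro_left _ rfl
  · exact Dvd.dvd.mul_right (pow_dvd_pow _ (Nat.sub_le m 1)) _

private theorem J4a_dvd_El {k : Type*} [Field k] {ι : Type*} [DecidableEq ι] (x y : ι)
    (hxy : x ≠ y) (G : MvPolynomial ι k) (hv : G.vars ⊆ {x, y}) (hy : 1 ≤ G.degreeOf y)
    (hvars : (El y G (pderiv x G)).vars ⊆ {x}) (α α' : k) (m : ℕ)
    (h : (X x - C α) ^ m ∣ aeval (Function.update X y (C α')) G) :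
    (X x - C α) ^ (m - 1) ∣ El y G (pderiv x G) := by
  set I : Ideal (MvPolynomial ι k) := Ideal.span {(X x - C α) ^ (m - 1)} with hI
  set u : ι → MvPolynomial ι k := Function.update X y (C α') with hu
  set s : ι → (MvPolynomial ι k ⧸ I) := fun t => Ideal.Quotient.mk I (u t) with hs
  have hs' : ∀ F : MvPolynomial ι k, aeval s F = Ideal.Quotient.mk I (aeval u F) := by
    intro F
    have h1 := MvPolynomial.map_aeval u (Ideal.Quotient.mk I) F
    rw [h1]
    rfl
  have h1 : aeval s G = 0 := by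
    rw [hs', Ideal.Quotient.eq_zero_iff_mem, hI, Ideal.mem_span_singleton]
    exact (pow_dvd_pow _ (Nat.sub_le m 1)).trans h
  have h2 : aeval s (pderiv x G) = 0 := by
    rw [hs', Ideal.Quotient.eq_zero_iff_mem, hI, Ideal.mem_span_singleton, hu,
      ← J4a_pderiv_aeval x y hxy]
    exact J4a_dvd_pderiv x α _ m h
  have h3 := aeval_dvd_El y G (pderiv x G) (Or.inl (by omega)) s h1
  rw [h2, zero_dvd_iff, hs'] at h3
  have h4 : aeval u (El y G (pderiv x G)) = El y G (pderiv x G) := by
    have h5 := MvPolynomial.hom_congr_vars (f₁ := (aeval u : MvPolynomial ι k →ₐ[k] _).toRingHom)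
      (f₂ := RingHom.id (MvPolynomial ι k)) (p₁ := El y G (pderiv x G))
      (p₂ := El y G (pderiv x G)) ?_ ?_ rfl
    · exact h5
    · ext a
      simp
    · intro i hi _
      have hix : i = x := by
        have := hvars hi
        rwa [Finset.mem_singleton] at this
      subst hix
      show aeval u (X i) = X i
      rw [aeval_X, hu, Function.update_of_ne hxy]
  rw [h4, Ideal.Quotient.eq_zero_iff_mem, hI, Ideal.mem_span_singleton] at h3
  exact h3

/-- Let `G` be irreducible, in the variables `x ≠ y`, both occurring, and let `(X x - α) ^ m` divide the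
polynomial `G(X x, α')`. Then `(m - 1) h(α) ≤ 2 r h(G) + 7 [k : ℚ] r deg_x G`, `r = deg_y G`.
Proof. Let `H = pderiv x G ≠ 0` (characteristic `0`, `degreeOf x G ≥ 1`), `¬ G ∣ H` (degree in `x`:
`degreeOf_mul_eq` or a monomial argument), so `R := El y G H ≠ 0` (`El_ne_zero_of_irreducible`),
`R.vars ⊆ {x}` (`vars_El_subset`). We may assume `m ≥ 1`. Let `S = MvPolynomial ι k ⧸ Ideal.span {(X x - C α) ^ (m - 1)}`
and `s : ι → S` the class of `Function.update X y (C α')`. `aeval s G = 0`, as `(X x - C α) ^ m` divides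
`aeval (Function.update X y (C α')) G`. With `G(X x, α') = (X x - C α) ^ m * U`,
`H(X x, α') = pderiv x (G(X x, α'))` (`pderiv` commutes with the substitution of the constant `C α'` for
`y`: check on monomials or use the chain rule `pderiv` of `aeval`), which is divisible by
`(X x - C α) ^ (m - 1)` (`Derivation.leibniz`, `Derivation.leibniz_pow`): `aeval s H = 0`. By `aeval_dvd_El`
(in which `G.degreeOf y ≠ 0`) `0 ∣ aeval s R`, and `aeval s R` is the class of `R` (`R` does not involve `y`):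
`(X x - C α) ^ (m - 1) ∣ R`. By `root_mult`: `(m - 1) h(α) ≤ nh R + 3 d R.degreeOf x`, `d = [k : ℚ]`. And
`nh R ≤ H.degreeOf y * nh G + G.degreeOf y * nh H ≤ r (2 nh G + d log (degreeOf x G))` by `nh_El_le` and
`nh_le_of_NV_le` (`totalWeight_eq_finrank` or similar name: `totalWeight k = [k : ℚ]`), `log n ≤ n`;
`R.degreeOf x ≤ 2 r deg_x G` (`degreeOf_El_le`, the degrees of `H` are at most those of `G`). -/
theorem order_irreducible (k : Type u) [Field k] [NumberField k] {ι : Type*} [Fintype ι]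
    [DecidableEq ι] (x y : ι) (hxy : x ≠ y) (G : MvPolynomial ι k) (hG : Irreducible G)
    (hv : G.vars ⊆ {x, y}) (hx : 1 ≤ G.degreeOf x) (hy : 1 ≤ G.degreeOf y) (α α' : k) (m : ℕ)
    (h : (X x - C α) ^ m ∣ aeval (Function.update X y (C α')) G) :
    ((m : ℝ) - 1) * logHeight₁ α ≤ 2 * G.degreeOf y * nh G +
      7 * Module.finrank ℚ k * G.degreeOf y * G.degreeOf x := by
  have hG0 : G ≠ 0 := hG.ne_zero
  have hH0 : pderiv x G ≠ 0 := J4a_pderiv_ne_zero x G hx
  have hR0 : El y G (pderiv x G) ≠ 0 :=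
    El_ne_zero_of_irreducible y G (pderiv x G) hG (by omega) (J4a_not_dvd x G hx)
  have hHv : (pderiv x G).vars ⊆ G.vars := by
    intro i hi
    rw [mem_vars_iff_degreeOf_ne_zero] at hi ⊢
    have := J4a_degreeOf_pderiv_le x i G
    omega
  have hvars : (El y G (pderiv x G)).vars ⊆ {x} := by
    intro i hi
    have h1 := vars_El_subset y G (pderiv x G) hi
    rw [Finset.mem_erase, Finset.mem_union] at h1
    have h2 : i ∈ G.vars := h1.2.elim id (fun h => hHv h)
    have h3 := hv h2
    rw [Finset.mem_insert, Finset.mem_singleton] at h3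
    rw [Finset.mem_singleton]
    exact h3.resolve_right h1.1
  have hdvd := J4a_dvd_El x y hxy G hv hy hvars α α' m h
  have h1 := root_mult k (El y G (pderiv x G)) hR0 x hvars α (m - 1) hdvd
  have h2 := nh_El_le y G (pderiv x G) hR0
  have h3 : nh (pderiv x G) ≤ nh G + totalWeight k * Real.log (G.degreeOf x : ℕ) :=
    nh_le_of_NV_le hG0 hH0 hx (fun v _ => NV_pderiv_le v x G)
  have h4 : ((El y G (pderiv x G)).degreeOf x : ℝ) ≤ 2 * G.degreeOf y * G.degreeOf x := by
    have h5 := degreeOf_El_le y G (pderiv x G) x hxy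
    have h6 : (pderiv x G).degreeOf y * G.degreeOf x ≤ G.degreeOf y * G.degreeOf x :=
      Nat.mul_le_mul_right _ (J4a_degreeOf_pderiv_le x y G)
    have h7 : G.degreeOf y * (pderiv x G).degreeOf x ≤ G.degreeOf y * G.degreeOf x :=
      Nat.mul_le_mul_left _ (J4a_degreeOf_pderiv_le x x G)
    have h8 : (El y G (pderiv x G)).degreeOf x ≤ 2 * G.degreeOf y * G.degreeOf x := by
      calc (El y G (pderiv x G)).degreeOf x
          ≤ (pderiv x G).degreeOf y * G.degreeOf x + G.degreeOf y * (pderiv x G).degreeOf x := h5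
        _ ≤ G.degreeOf y * G.degreeOf x + G.degreeOf y * G.degreeOf x := Nat.add_le_add h6 h7
        _ = 2 * G.degreeOf y * G.degreeOf x := by ring
    exact_mod_cast h8
  have hd : (0 : ℝ) ≤ Module.finrank ℚ k := Nat.cast_nonneg _
  have hlog : Real.log ((G.degreeOf x : ℕ) : ℝ) ≤ G.degreeOf x := by
    have hpos : (0 : ℝ) < ((G.degreeOf x : ℕ) : ℝ) := by exact_mod_cast hx
    have := Real.log_le_sub_one_of_pos hpos
    linarith
  have htw : ((totalWeight k : ℕ) : ℝ) = Module.finrank ℚ k := by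
    rw [NumberField.totalWeight_eq_finrank]
  have h3' : nh (pderiv x G) ≤ nh G + Module.finrank ℚ k * G.degreeOf x := by
    rw [htw] at h3
    have := mul_le_mul_of_nonneg_left hlog hd
    linarith
  have hnG := nh_nonneg hG0
  have hry : (0 : ℝ) ≤ G.degreeOf y := Nat.cast_nonneg _
  have hHy : ((pderiv x G).degreeOf y : ℝ) ≤ G.degreeOf y := by
    exact_mod_cast J4a_degreeOf_pderiv_le x y G
  have h9 : nh (El y G (pderiv x G)) ≤ G.degreeOf y * nh G +
      G.degreeOf y * (nh G + Module.finrank ℚ k * G.degreeOf x) := by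
    have h10 := mul_le_mul_of_nonneg_right hHy hnG
    have h11 := mul_le_mul_of_nonneg_left h3' hry
    linarith
  have hα : 0 ≤ logHeight₁ α := zero_le_logHeight₁ α
  have h12 : ((m : ℝ) - 1) * logHeight₁ α ≤ ((m - 1 : ℕ) : ℝ) * logHeight₁ α := by
    refine mul_le_mul_of_nonneg_right ?_ hα
    have : m ≤ (m - 1) + 1 := by omega
    have h13 : (m : ℝ) ≤ ((m - 1 : ℕ) : ℝ) + 1 := by exact_mod_cast this
    linarith
  have h14 := mul_le_mul_of_nonneg_left h4 (mul_nonneg (by norm_num : (0 : ℝ) ≤ 3) hd)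
  nlinarith [h1, h9, h12, h14]

end Pool.Agent.Lib.MP_17a322_nt.VJ
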