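import Pool.Agent.Lib.MP_17a322_nt.VJ.G6a

/-!
# K5: points on a curve which does not pass through the origin
-/

namespace Pool.Agent.Lib.MP_17a322_nt.VJ

open MvPolynomial Height

/-- The monomials below the top one are smaller by the factor `M`. -/
theorem K5_mono (d m : Fin 2 → ℕ) (a : Fin 2 → ℝ) {M : ℝ} (hM : 1 ≤ M) (ha : ∀ t, M ≤ a t)
    (hm : ∀ t, m t ≤ d t) (hne : m ≠ d) : M * ∏ t, a t ^ m t ≤ ∏ t, a t ^ d t := by
  obtain ⟨t₀, ht₀⟩ : ∃ t₀, m t₀ < d t₀ := by
    by_contra hcon
    push Not at hcon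
    exact hne (funext fun t => le_antisymm (hm t) (hcon t))
  have h1 : ∏ t, a t ^ d t = (∏ t, a t ^ m t) * ∏ t, a t ^ (d t - m t) := by
    rw [← Finset.prod_mul_distrib]
    refine Finset.prod_congr rfl fun t _ => ?_
    rw [← pow_add, Nat.add_sub_cancel' (hm t)]
  have h2 : M ≤ ∏ t, a t ^ (d t - m t) := by
    rw [← Finset.mul_prod_erase Finset.univ _ (Finset.mem_univ t₀)]
    have h3 : M ≤ a t₀ ^ (d t₀ - m t₀) := by
      calc M ≤ a t₀ := ha t₀
        _ = a t₀ ^ 1 := (pow_one _).symm
        _ ≤ a t₀ ^ (d t₀ - m t₀) := pow_le_pow_right₀ (hM.trans (ha t₀)) (by omega)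
    have h4 : 1 ≤ ∏ t ∈ Finset.univ.erase t₀, a t ^ (d t - m t) := by
      refine le_of_eq_of_le (Finset.prod_const_one (s := Finset.univ.erase t₀)).symm ?_
      exact Finset.prod_le_prod (fun _ _ => zero_le_one)
        fun t _ => one_le_pow₀ (hM.trans (ha t))
    have h5 : (0 : ℝ) ≤ a t₀ ^ (d t₀ - m t₀) := le_trans (by linarith) h3
    calc M ≤ a t₀ ^ (d t₀ - m t₀) := h3
      _ = a t₀ ^ (d t₀ - m t₀) * 1 := (mul_one _).symm
      _ ≤ _ := mul_le_mul_of_nonneg_left h4 h5
  have h6 : 0 ≤ ∏ t, a t ^ m t :=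
    Finset.prod_nonneg fun t _ => pow_nonneg (le_trans (by linarith) (ha t)) _
  rw [h1, mul_comm M]
  exact mul_le_mul_of_nonneg_left h2 h6

/-- Local inequality: `|tc g| * min (|x_0|, |x_1|) ≤ NV v g` if `g(x) = 0`. -/
theorem K5_local {L : Type*} [Field L] (v : AbsoluteValue L ℝ) (g : MvPolynomial (Fin 2) L)
    (x : Fin 2 → L) (h0 : eval x g = 0) {M : ℝ} (hM : 1 ≤ M) (hx : ∀ t, M ≤ v (x t)) :
    v (tc g) * M ≤ NV v g := by
  classical
  obtain ⟨d, hd⟩ : ∃ d : Fin 2 →₀ ℕ, d = Finsupp.equivFunOnFinite.symm fun t => g.degreeOf t :=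
    ⟨_, rfl⟩
  have hdt : ∀ t, d t = g.degreeOf t := fun t => by rw [hd]; rfl
  have htc : tc g = coeff d g := by rw [hd]; rfl
  obtain ⟨X, hX⟩ : ∃ X : ℝ, X = ∏ t, v (x t) ^ d t := ⟨_, rfl⟩
  have hXpos : 0 < X := by
    rw [hX]
    exact Finset.prod_pos fun t _ => pow_pos (lt_of_lt_of_le (by linarith) (hx t)) _
  by_cases hdm : d ∈ g.support
  swap
  · rw [htc, notMem_support_iff.mp hdm, map_zero, zero_mul]
    exact (SN_NV v).nonneg g
  -- the other terms
  have hsum : coeff d g * ∏ t, x t ^ d t =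
      -∑ m ∈ g.support.erase d, coeff m g * ∏ t, x t ^ m t := by
    rw [eval_eq', ← Finset.add_sum_erase _ _ hdm] at h0
    exact eq_neg_of_add_eq_zero_left h0
  have hterm : ∀ m ∈ g.support.erase d,
      v (coeff m g * ∏ t, x t ^ m t) ≤ v (coeff m g) * (X / M) := by
    intro m hm
    rw [Finset.mem_erase] at hm
    rw [map_mul, map_prod]
    apply mul_le_mul_of_nonneg_left _ (v.nonneg _)
    rw [le_div_iff₀ (by linarith), hX, mul_comm]
    have h1 := K5_mono (fun t => d t) (fun t => m t) (fun t => v (x t)) hM hx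
      (fun t => by
        rw [hdt]
        exact monomial_le_degreeOf t hm.2)
      (fun h => hm.1 (Finsupp.ext fun t => congrFun h t))
    simpa [map_pow] using h1
  have hmain : v (coeff d g * ∏ t, x t ^ d t) ≤ NV v g * (X / M) := by
    rw [hsum, v.map_neg]
    have hXM : 0 ≤ X / M := div_nonneg hXpos.le (by linarith)
    by_cases hv : IsNonarchimedean v
    · refine (SN_self v).sum_le_max hv _ _ (mul_nonneg ((SN_NV v).nonneg g) hXM) fun m hm => ?_
      exact (hterm m hm).trans (mul_le_mul_of_nonneg_right (coeff_le_NV v g m) hXM)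
    · refine ((SN_self v).sum_le_sum _ _).trans ((Finset.sum_le_sum hterm).trans ?_)
      rw [← Finset.sum_mul]
      apply mul_le_mul_of_nonneg_right _ hXM
      have h2 : NV v g = ∑ m ∈ g.support, v (coeff m g) := by
        unfold NV
        rw [if_neg hv]
      rw [h2]
      exact Finset.sum_le_sum_of_subset_of_nonneg (Finset.erase_subset _ _)
        fun _ _ _ => v.nonneg _
  rw [map_mul, map_prod] at hmain
  have h3 : ∏ t, v (x t ^ d t) = X := by
    rw [hX]
    exact Finset.prod_congr rfl fun t _ => by rw [map_pow]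
  rw [h3] at hmain
  have h4 : v (coeff d g) * X * M ≤ NV v g * X := by
    have h5 := mul_le_mul_of_nonneg_right hmain (show (0 : ℝ) ≤ M by linarith)
    have h6 : NV v g * (X / M) * M = NV v g * X := by
      field_simp
    linarith
  rw [htc]
  have h7 : v (coeff d g) * M * X ≤ NV v g * X := by linarith
  exact le_of_mul_le_mul_right h7 hXpos

/-- (11.2) If the top coefficient of `g` does not vanish, the height with respect to the origin of
a point on `g` is at most the height of `g`. -/
theorem hO_le_nh {L : Type*} [Field L] [AdmissibleAbsValues L] {V : Fin 2 → WeierstrassCurve L}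
    (P : ∀ t, (V t).toAffine.Point) (hP : ∀ t, P t ≠ 0) (g : MvPolynomial (Fin 2) L) (hg : g ≠ 0)
    (h0 : eval (fun t => (P t).xRep 0) g = 0) (htc : tc g ≠ 0) : hO P ≤ nh g := by
  rw [← gs_log_min P hP]
  have h1 : gs (fun v : AbsoluteValue L ℝ => Real.log (v (tc g)) +
      Real.log (min (vn v (P 0).xRep) (vn v (P 1).xRep))) ≤
      gs (fun v : AbsoluteValue L ℝ => Real.log (NV v g)) := by
    refine gs_le (FS_add (FS_log_abv htc) (FS_log_min P hP)) (FS_log_NV hg) fun v _ => ?_
    have hv0 : 0 < v (tc g) := (v.pos_iff).mpr htc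
    have hvn : ∀ t, vn v (P t).xRep = max (v ((P t).xRep 0)) 1 := by
      intro t
      unfold vn
      rw [xRep_one (hP t), map_one]
    have hmin1 : 1 ≤ min (vn v (P 0).xRep) (vn v (P 1).xRep) := by
      rw [hvn, hvn]
      exact le_min (le_max_right _ _) (le_max_right _ _)
    rw [← Real.log_mul hv0.ne' (by linarith)]
    apply Real.log_le_log (mul_pos hv0 (by linarith))
    by_cases hcase : ∀ t, 1 ≤ v ((P t).xRep 0)
    · apply K5_local v g _ h0 hmin1
      intro t
      have h2 : vn v (P t).xRep = v ((P t).xRep 0) := by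
        rw [hvn, max_eq_left (hcase t)]
      rw [← h2]
      fin_cases t
      · exact min_le_left _ _
      · exact min_le_right _ _
    · push Not at hcase
      obtain ⟨t, ht⟩ := hcase
      have h3 : vn v (P t).xRep = 1 := by rw [hvn, max_eq_right ht.le]
      have h4 : min (vn v (P 0).xRep) (vn v (P 1).xRep) ≤ 1 := by
        rw [← h3]
        fin_cases t
        · exact min_le_left _ _
        · exact min_le_right _ _
      calc v (tc g) * min (vn v (P 0).xRep) (vn v (P 1).xRep) ≤ v (tc g) * 1 :=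
            mul_le_mul_of_nonneg_left h4 hv0.le
        _ = v (tc g) := mul_one _
        _ ≤ NV v g := coeff_le_NV v g _
  rw [gs_add (FS_log_abv htc) (FS_log_min P hP), gs_log_abv htc, zero_add] at h1
  exact h1

end Pool.Agent.Lib.MP_17a322_nt.VJ
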