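import Pool.Agent.Lib.MP_17a322_nt.VJ.K3
import Pool.Agent.Lib.MP_17a322_nt.VJ.K4
import Pool.Agent.Lib.MP_17a322_nt.VJ.K5
import Pool.Agent.Lib.MP_17a322_nt.VJ.IF_C
import Pool.Agent.Lib.MP_17a322_nt.VJ.IF_E0

/-!
# K6: Theorem T_O (section 11.2)
-/

universe u

namespace Pool.Agent.Lib.MP_17a322_nt.VJ

open MvPolynomial Height Filter Topology

theorem K6_GC_ne {K : Type*} [Field K] {g : MvPolynomial (Fin 2) K} {Δ : ℕ} (h : GC g Δ) :
    g ≠ 0 := by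
  rintro rfl
  exact h.1.ne_zero (map_zero _)

/-- Theorem T_O (the origin, all ranks). -/
theorem T_O {K : Type u} [Field K] [NumberField K] [DecidableEq K]
    (W : Fin 2 → WeierstrassCurve K) [∀ t, (W t).IsElliptic]
    (Γ : ∀ t, AddSubgroup (W t).toAffine.Point) (hΓ : ∀ t, (Γ t).FG) (ε : ℝ) (hε : 0 < ε) :
    ∃ (G : MvPolynomial (Fin 2) K) (C : ℝ), G ≠ 0 ∧
      ∀ P : ∀ t, (W t).toAffine.Point, (∀ t, P t ∈ Γ t) → (∀ t, P t ≠ 0) →
      eval (fun t => (P t).xRep 0) G ≠ 0 → hO P ≤ ε * HH P + C := by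
  obtain ⟨m, D, R₀, C₀, η, hm, hC₀, hη, hst0⟩ := stage0 W ε hε
  obtain ⟨η', C₁, Cs, R₁, hη', hC₁, hst2⟩ := stageII W D ε hε
  obtain ⟨G, hG, hGdvd⟩ := northcott_poly (K := K) D (max C₀ Cs)
  by_contra hcon
  push Not at hcon
  have hcon' : ∀ n : ℕ, ∃ P : ∀ t, (W t).toAffine.Point, (∀ t, P t ∈ Γ t) ∧ (∀ t, P t ≠ 0) ∧
      eval (fun t => (P t).xRep 0) G ≠ 0 ∧ ε * HH P + n < hO P := fun n => hcon G n hG
  choose P hPΓ hP0 hPG hPh using hcon'
  -- the heights tend to infinity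
  have hHge : ∀ n : ℕ, (n : ℝ) ≤ HH (P n) := by
    intro n
    have h1 := hPh n
    have h2 := (hO_le (P n) (hP0 n) 0).trans (logHeight_le_HH (P n) 0)
    have h3 := HH_nonneg (P n)
    have h4 : 0 ≤ ε * HH (P n) := mul_nonneg hε.le h3
    linarith
  have hH : Tendsto (fun n => HH (P n)) atTop atTop :=
    tendsto_atTop_mono hHge tendsto_natCast_atTop_atTop
  -- the sparse sequence
  obtain ⟨η₀, hη₀, hη₀1, hη₀η, hη₀η'⟩ : ∃ η₀ : ℝ, 0 < η₀ ∧ η₀ ≤ 1 ∧ η₀ ≤ η ∧ η₀ ≤ η' :=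
    ⟨min 1 (min η η'), lt_min one_pos (lt_min hη hη'), min_le_left _ _,
      (min_le_right _ _).trans (min_le_left _ _), (min_le_right _ _).trans (min_le_right _ _)⟩
  obtain ⟨H₀, h1H, hC0H, hC1H, hεH, hCCH⟩ : ∃ H₀ : ℝ, 1 ≤ H₀ ∧ C₀ ≤ H₀ ∧ C₁ ≤ H₀ ∧
      2 * C₀ < ε * H₀ ∧ C₁ * (2 * C₀) ≤ H₀ := by
    refine ⟨max 1 (max C₀ (max C₁ (max (2 * C₀ / ε + 1) (C₁ * (2 * C₀))))), le_max_left _ _, ?_, ?_,
      ?_, ?_⟩
    · exact (le_max_left _ _).trans (le_max_right _ _)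
    · exact (le_max_left _ _).trans ((le_max_right _ _).trans (le_max_right _ _))
    · have h1 : 2 * C₀ / ε + 1 ≤ max 1 (max C₀ (max C₁ (max (2 * C₀ / ε + 1) (C₁ * (2 * C₀))))) :=
        (le_max_left _ _).trans ((le_max_right _ _).trans ((le_max_right _ _).trans
          (le_max_right _ _)))
      have h2 := mul_le_mul_of_nonneg_left h1 hε.le
      have h3 : ε * (2 * C₀ / ε + 1) = 2 * C₀ + ε := by
        field_simp
      linarith
    · exact (le_max_right _ _).trans ((le_max_right _ _).trans ((le_max_right _ _).trans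
        (le_max_right _ _)))
  obtain ⟨φ, j, -, hj, hj0, hH₀, hR, hpig⟩ := PIG W Γ hΓ P hPΓ hH hη₀ (max R₀ R₁) H₀
  have hHpos : ∀ i, 0 < HH (P (φ i)) := fun i => by linarith [hH₀ i]
  -- a curved index in each finite set of indices containing `0`
  have hcurved : ∀ s : Fin m → ℕ, StrictMono s → s ⟨0, hm⟩ = 0 →
      ∃ (i : Fin m) (g : MvPolynomial (Fin 2) K), s i ≠ 0 ∧ GC g D ∧
        eval (fun t => (P (φ (s i)) t).xRep 0) g = 0 ∧ nh g ≤ C₀ * 4 ^ j (s i) := by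
    intro s hs hs0
    obtain ⟨i, g, hg, hg0, hgh⟩ := hst0 (fun i => P (φ (s i))) (fun i => j (s i)) ⟨0, hm⟩
      (hj.comp hs) (by rw [hs0, hj0])
      (fun i i' h => le_trans (Nat.mul_le_mul_right _ (le_max_left R₀ R₁)) (hR _ _ (hs h)))
      (fun i t => hP0 _ t)
      (fun i => by
        have := hPh (φ (s i))
        have h2 : (0 : ℝ) ≤ (φ (s i) : ℝ) := Nat.cast_nonneg _
        linarith)
      (by rw [hs0]; exact hC0H.trans (hH₀ 0))
      (fun i t => by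
        have h1 := (hpig 0 (s i) (Nat.zero_le _)).1 t
        rw [hj0, Nat.sub_zero] at h1
        rw [hs0]
        exact h1.trans (mul_le_mul_of_nonneg_right hη₀η (hHpos _).le))
      (fun i => by
        have h1 := (hpig 0 (s i) (Nat.zero_le _)).2
        rw [hj0, Nat.sub_zero] at h1
        rw [hs0]
        exact h1.trans (mul_le_mul_of_nonneg_right hη₀η (hHpos _).le))
    refine ⟨i, g, ?_, hg, hg0, hgh⟩
    intro hi
    rw [hi] at hg0 hgh
    rw [hj0, pow_zero, mul_one] at hgh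
    obtain ⟨q, hq⟩ := hGdvd g (K6_GC_ne hg) (fun t => (hg.2 t).2) (hgh.trans (le_max_left _ _))
    apply hPG (φ 0)
    rw [hq, map_mul, hg0, zero_mul]
  obtain ⟨a, ga, ha0, hga, hga0, hgah⟩ := hcurved (fun i => i) (fun i i' h => h) rfl
  obtain ⟨b, gb, hb0, hgb, hgb0, hgbh⟩ := hcurved (fun i => if (i : ℕ) = 0 then 0 else m + i)
    (fun i i' h => by
      have h' : (i : ℕ) < i' := h
      simp only
      rw [if_neg (show ¬ (i' : ℕ) = 0 by omega)]
      split_ifs <;> omega) (if_pos rfl)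
  obtain ⟨b', hb'⟩ : ∃ b' : ℕ, b' = if (b : ℕ) = 0 then 0 else m + b := ⟨_, rfl⟩
  rw [← hb'] at hb0 hgb0 hgbh
  have hab : (a : ℕ) < b' := by
    have ha := a.isLt
    rw [hb']
    split_ifs with h
    · exact absurd (hb'.trans (if_pos h)) hb0
    · omega
  -- sizes
  have hsize : ∀ (i : ℕ) (g : MvPolynomial (Fin 2) K), nh g ≤ C₀ * 4 ^ j i →
      nh g < ε * HH (P (φ i)) ∧ C₁ * nh g ≤ HH (P (φ i)) := by
    intro i g h
    have h1 := (hpig 0 i (Nat.zero_le _)).2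
    rw [hj0, Nat.sub_zero] at h1
    have h2 := (abs_le.mp h1).1
    have h3 : (4 : ℝ) ^ j i * HH (P (φ 0)) ≤ 2 * HH (P (φ i)) := by
      have : η₀ * HH (P (φ i)) ≤ 1 * HH (P (φ i)) :=
        mul_le_mul_of_nonneg_right hη₀1 (hHpos _).le
      linarith
    have h4 : (4 : ℝ) ^ j i * H₀ ≤ 2 * HH (P (φ i)) :=
      (mul_le_mul_of_nonneg_left (hH₀ 0) (by positivity)).trans h3
    have hp : (0 : ℝ) < 4 ^ j i := by positivity
    constructor
    · -- `2 C₀ < ε H₀`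
      have h5 : 2 * C₀ * 4 ^ j i < ε * H₀ * 4 ^ j i := mul_lt_mul_of_pos_right hεH hp
      have h6 := mul_le_mul_of_nonneg_left h4 hε.le
      linarith
    · have h5 : C₁ * nh g ≤ C₁ * (C₀ * 4 ^ j i) := mul_le_mul_of_nonneg_left h hC₁.le
      have h6 : C₁ * (2 * C₀) * 4 ^ j i ≤ H₀ * 4 ^ j i := mul_le_mul_of_nonneg_right hCCH hp.le
      linarith
  obtain ⟨ha1, ha2⟩ := hsize a ga hgah
  obtain ⟨hb1, hb2⟩ := hsize b' gb hgbh
  have hOge : ∀ n, ε * HH (P n) ≤ hO (P n) := by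
    intro n
    have := hPh n
    have h2 : (0 : ℝ) ≤ (n : ℝ) := Nat.cast_nonneg _
    linarith
  have htc : tc ga = 0 := by
    by_contra hne
    have h1 := hO_le_nh (P (φ a)) (hP0 _) ga (K6_GC_ne hga) hga0 hne
    have h2 := hOge (φ a)
    linarith
  have hfin := hst2 ga gb (P (φ a)) (P (φ b')) (j b' - j a) hga hgb htc (hP0 _) (hP0 _) hga0 hgb0
    (fun t => (hOge _).trans (hO_le _ (hP0 _) t)) (fun t => (hOge _).trans (hO_le _ (hP0 _) t))
    ha2 hb2 (hC1H.trans (hH₀ _))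
    (by
      have h1 := hR a b' hab
      have h2 : 4 ^ j b' = 4 ^ (j b' - j a) * 4 ^ j a := by
        rw [← pow_add, Nat.sub_add_cancel (hj hab).le]
      rw [h2] at h1
      exact (le_max_right R₀ R₁).trans (Nat.le_of_mul_le_mul_right h1 (by positivity)))
    (fun t => ((hpig a b' hab.le).1 t).trans (mul_le_mul_of_nonneg_right hη₀η' (hHpos _).le))
    ((hpig a b' hab.le).2.trans (mul_le_mul_of_nonneg_right hη₀η' (hHpos _).le))
  obtain ⟨q, hq⟩ := hGdvd ga (K6_GC_ne hga) (fun t => (hga.2 t).2) (hfin.trans (le_max_right _ _))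
  apply hPG (φ a)
  rw [hq, map_mul, hga0, zero_mul]

end Pool.Agent.Lib.MP_17a322_nt.VJ
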