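import Pool.Agent.Lib.MP_17a322_nt.RV.H1
import Pool.Agent.Lib.MP_17a322_nt.RV.H2

/-!
# JOB M1: elimination

Proof of `exists_elim`. For `t : Fin 2`, `τ : Fin 2 → Fin 2` apply `exists_contraction` (RV/H1) with `m = 1`, `s = {t}`, and
`exists_homogenised` (RV/H2) to its result: there is `N₀(t, τ)` such that for every `N ≥ N₀` there are `H ≠ 0`,
`MH H (fun b => if b ∈ {t} then N else 0)`, and `h k` with `MH (h k) (fun b => (if b ∈ {t} then 2 * N else N) - D b)`,
`H * ∏ b, X (b, τ b) ^ N = ∑ k, h k * g k`. Take `N` larger than all `N₀(t, τ)` and all `D b`. Choose `H t τ`, `h t τ k`.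
`r t = ∏ τ, H t τ` over the four maps `τ`; its multidegree is the sum, `4 * N` at `t` and `0` elsewhere (`Fintype.card`;
`IsWeightedHomogeneous.prod`, compare the sum of multidegrees pointwise). For given `τ` the new coefficients are
`(∏ τ' ∈ univ.erase τ, H t τ') * h t τ k` of multidegree `3 * N + (2 * N - D t) = 5 * N - D t` at `t` and `N - D b` elsewhere
(`D b ≤ N`; `IsWeightedHomogeneous.mul`), `Finset.mul_prod_erase`.
-/

universe u

namespace Pool.Agent.Lib.MP_17a322_nt.VJ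

open MvPolynomial Height
open Pool.Agent.Lib.MP_17a322_nt.RO Pool.Agent.Lib.MP_17a322_nt.RV

theorem exists_elim {K : Type u} [Field K] {κ : Type} [Fintype κ] (D : Fin 2 → ℕ)
    (g : κ → MvPolynomial (Fin 2 × Fin 2) K) (hg : ∀ k, MH (g k) D) (hdim : DimLT g 1) :
    ∃ N : ℕ, (∀ b, D b ≤ N) ∧ ∀ t : Fin 2, ∃ r : MvPolynomial (Fin 2 × Fin 2) K, r ≠ 0 ∧
      MH r (fun b => if b = t then 4 * N else 0) ∧
      ∀ τ : Fin 2 → Fin 2, ∃ h : κ → MvPolynomial (Fin 2 × Fin 2) K,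
        (∀ k, MH (h k) (fun b => (if b = t then 5 * N else N) - D b)) ∧
        r * ∏ b, X (b, τ b) ^ N = ∑ k, h k * g k := by
  have h1 : ∀ (t : Fin 2) (τ : Fin 2 → Fin 2), ∃ N₀ : ℕ, ∀ N, N₀ ≤ N →
      ∃ H : MvPolynomial (Fin 2 × Fin 2) K, H ≠ 0 ∧
      MH H (fun b => if b ∈ ({t} : Finset (Fin 2)) then N else 0) ∧
      ∃ h : κ → MvPolynomial (Fin 2 × Fin 2) K,
        (∀ k, MH (h k) (fun b => (if b ∈ ({t} : Finset (Fin 2)) then 2 * N else N) - D b)) ∧
          H * ∏ b, X (b, τ b) ^ N = ∑ k, h k * g k := by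
    intro t τ
    obtain ⟨H₀, hH₀, hs, a, ha⟩ := exists_contraction g 1 hdim {t} (by simp) τ
    exact exists_homogenised D g hg {t} τ H₀ hH₀ hs a ha
  choose N₀ hN₀ using h1
  have hN1 : ∀ b, D b ≤ (∑ t, ∑ τ, N₀ t τ) + ∑ b, D b := by
    intro b
    exact (Finset.single_le_sum (f := fun b => D b) (fun _ _ => Nat.zero_le _)
      (Finset.mem_univ b)).trans (Nat.le_add_left _ _)
  have hN2 : ∀ t τ, N₀ t τ ≤ (∑ t, ∑ τ, N₀ t τ) + ∑ b, D b := by
    intro t τ
    have h3 : N₀ t τ ≤ ∑ τ, N₀ t τ := Finset.single_le_sum (f := fun τ => N₀ t τ)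
      (fun _ _ => Nat.zero_le _) (Finset.mem_univ τ)
    have h4 : (∑ τ, N₀ t τ) ≤ ∑ t, ∑ τ, N₀ t τ := Finset.single_le_sum
      (f := fun t => ∑ τ, N₀ t τ) (fun _ _ => Nat.zero_le _) (Finset.mem_univ t)
    exact (h3.trans h4).trans (Nat.le_add_right _ _)
  generalize hNd : (∑ t, ∑ τ, N₀ t τ) + ∑ b, D b = N at hN1 hN2
  refine ⟨N, hN1, fun t => ?_⟩
  have h2 := fun τ => hN₀ t τ N (hN2 t τ)
  choose H hH0 hH h hh he using h2
  have hc : (Finset.univ : Finset (Fin 2 → Fin 2)).card = 4 := by decide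
  refine ⟨∏ τ, H τ, Finset.prod_ne_zero_iff.2 fun τ _ => hH0 τ, ?_, fun τ =>
    ⟨fun k => (∏ τ' ∈ Finset.univ.erase τ, H τ') * h τ k, fun k => ?_, ?_⟩⟩
  · have h3 : (fun b : Fin 2 => if b = t then 4 * N else 0) =
        ∑ _τ : Fin 2 → Fin 2, (fun b : Fin 2 => if b ∈ ({t} : Finset (Fin 2)) then N else 0) := by
      funext b
      rw [Finset.sum_const, hc, Pi.smul_apply, smul_eq_mul]
      by_cases hb : b = t
      · rw [if_pos hb, if_pos (Finset.mem_singleton.2 hb)]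
      · rw [if_neg hb, if_neg (fun h => hb (Finset.mem_singleton.1 h))]
    unfold MH
    rw [h3]
    exact IsWeightedHomogeneous.prod _ _ _ fun τ _ => hH τ
  · have h3 : (fun b : Fin 2 => (if b = t then 5 * N else N) - D b) =
        (∑ _τ' ∈ Finset.univ.erase τ, (fun b : Fin 2 => if b ∈ ({t} : Finset (Fin 2)) then N else 0)) +
          (fun b => (if b ∈ ({t} : Finset (Fin 2)) then 2 * N else N) - D b) := by
      funext b
      have h4 := hN1 b
      rw [Finset.sum_const, Finset.card_erase_of_mem (Finset.mem_univ τ), hc, Pi.add_apply,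
        Pi.smul_apply, smul_eq_mul]
      by_cases hb : b = t
      · rw [if_pos hb, if_pos (Finset.mem_singleton.2 hb), if_pos (Finset.mem_singleton.2 hb)]
        omega
      · rw [if_neg hb, if_neg (fun h => hb (Finset.mem_singleton.1 h)),
          if_neg (fun h => hb (Finset.mem_singleton.1 h))]
        omega
    unfold MH
    rw [h3]
    exact IsWeightedHomogeneous.mul (IsWeightedHomogeneous.prod _ _ _ fun τ _ => hH τ) (hh τ k)
  · rw [← Finset.prod_erase_mul _ _ (Finset.mem_univ τ), mul_assoc, he τ, Finset.mul_sum]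
    exact Finset.sum_congr rfl fun k _ => (mul_assoc _ _ _).symm

end Pool.Agent.Lib.MP_17a322_nt.VJ
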