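import Pool.Agent.Lib.MP_17a322_nt.VJ.M9
import Pool.Agent.Lib.MP_17a322_nt.VJ.MW4

/-!
The final statement for all rational points: Mordell-Weil.
-/

universe u

namespace Pool.Agent.Lib.MP_17a322_nt.VJ

open MvPolynomial Height WeierstrassCurve
open Pool.Agent.Lib.MP_17a322_nt.RO Pool.Agent.Lib.MP_17a322_nt.RV

theorem final_all {K : Type u} [Field K] [NumberField K]
    (W : Fin 2 → WeierstrassCurve K) [∀ t, (W t).IsElliptic]
    (m : ℕ) (g : Fin m → MvPolynomial (Fin 2) K) (d : Fin 2 → ℕ)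
    (hd : ∀ k i, (g k).degreeOf i ≤ d i)
    (hY : ∀ (F : Type u) [Field F] [Algebra K F] (X Z : Fin 2 → F),
      (∀ i, X i ≠ 0 ∨ Z i ≠ 0) →
      (∀ k, ∑ e ∈ (g k).support, algebraMap K F ((g k).coeff e) *
        ∏ i, (X i ^ e i * Z i ^ (d i - e i)) = 0) → ∀ i, IsAlgebraic K (X i / Z i))
    (ε : ℝ) (hε : 0 < ε) :
    ∃ G : MvPolynomial (Fin 2) K, G ≠ 0 ∧ ∃ C : ℝ, ∀ x y : Fin 2 → K,
      (∀ i, (W i).toAffine.Nonsingular (x i) (y i)) → eval x G ≠ 0 →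
        ∑ i, (d i : ℝ) * logHeight₁ (x i) - logHeight (fun k => eval x (g k)) ≤
          ε * ∑ i, logHeight₁ (x i) + C := by
  classical
  have hΓ : ∀ t, (⊤ : AddSubgroup (W t).toAffine.Point).FG := fun t =>
    AddGroup.fg_def.1 (mordell_weil (W t))
  obtain ⟨G, C, hG, h⟩ := finalV W (fun _ => ⊤) hΓ m g d hd hY ε hε
  exact ⟨G, hG, C, fun x y hxy hx => h x y hxy (fun t => AddSubgroup.mem_top _) hx⟩

end Pool.Agent.Lib.MP_17a322_nt.VJ
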