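import Pool.Agent.Lib.MP_17a322_nt.VJ.E7
import Pool.Agent.Lib.MP_17a322_nt.RO.N2

/-!
# JOB M2: the zeros of a form in one block as x-coordinates of points over a finite extension

Proof of `exists_roots`. For `t : Fin 2` let `q t : Polynomial K` be the image of `r t` under `X (t, 0) ↦ X`, `X (t', i) ↦ 1` for
all other variables. Every monomial `m` of `r t` has `m (t, 0) + m (t, 1) = n` and `m (t', i) = 0` for `t' ≠ t` (compare `H4_coeff`
in RV/H4: `coeff m ≠ 0 → m (b, 0) + m (b, 1) = e b`), so `q t = ∑ coeff m * X ^ m (t, 0)` with different exponents: `q t ≠ 0`,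
`natDegree ≤ n` (or: `G4`, `exists_dehom` in RO/N2), and `evl (fun b => ![x b, 1]) (r t)` is the value of `q t` at `x t` (`aeval`).
Let `K₁ = (q 0 * q 1).SplittingField` (`Type u`, a number field: finite dimensional over `K`, characteristic zero;
`NumberField` instance from `FiniteDimensional ℚ` by `FiniteDimensional.trans`); both `q t` split over `K₁`; let `ρ t` be the list
of the roots of `(q t).map`, of length `natDegree (q t) ≤ n`. `exists_field_points` (E7) over `K₁` for the list of all these
roots (both `t`; index `Fin s`, with the curve `(W t).map (algebraMap K K₁)` for the roots of `q t`; it is convenient to use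
the index set `Fin (2 * n)` or any enumeration, with the x-coordinate `0` for superfluous indices) gives `L` and affine
points with these x-coordinates on curves `V j` with `((W t).map _).map _ = V j`. `L` is an algebra over `K` by
composition (`algebraMap K₁ L` after `algebraMap K K₁`, `RingHom.toAlgebra`), the curve is `(W t).map (algebraMap K L)`
(`WeierstrassCurve.map_map`). `A t i` is the point with x-coordinate the `i`-th root for `i < natDegree (q t)` and `0` for
`natDegree (q t) ≤ i < n`. `wd (A t i).xRep ![x, 1] = ρ_i - x` in the first case, `1` in the second (`xRep_eq`, `xRep_zero` in E4,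
`wd` in DefsE: `wd R Q = R 0 * Q 1 - R 1 * Q 0`). So `q t (x) = lc * ∏ (x - ρ_i) = c t * ∏ i, wd ..` with
`c t = lc * (-1) ^ natDegree`.
-/

universe u

namespace Pool.Agent.Lib.MP_17a322_nt.VJ

open MvPolynomial Height
open Pool.Agent.Lib.MP_17a322_nt.RO

/-- A form in one block as a polynomial in one variable. -/
theorem M2_poly {K : Type u} [Field K] (n : ℕ) (t : Fin 2) (r : MvPolynomial (Fin 2 × Fin 2) K)
    (hr : r ≠ 0) (hMH : MH r (fun b => if b = t then n else 0)) :
    ∃ q : Polynomial K, q ≠ 0 ∧ q.natDegree ≤ n ∧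
      ∀ (A : Type u) [CommRing A] [Algebra K A] (x : Fin 2 → A),
        evl (fun b => ![x b, 1]) r = Polynomial.aeval (x t) q := by
  classical
  have hw : ∀ m ∈ r.support, m (t, 0) + m (t, 1) = n := by
    intro m hm
    have h := N2_weight hMH hm t
    rwa [if_pos rfl] at h
  have hw0 : ∀ m ∈ r.support, ∀ b, b ≠ t → m (b, 0) = 0 ∧ m (b, 1) = 0 := by
    intro m hm b hb
    have h := N2_weight hMH hm b
    rw [if_neg hb] at h
    omega
  refine ⟨∑ m ∈ r.support, Polynomial.monomial (m (t, 0)) (coeff m r), ?_, ?_, ?_⟩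
  · obtain ⟨m0, hm0⟩ := ne_zero_iff.mp hr
    have hs0 : m0 ∈ r.support := mem_support_iff.mpr hm0
    intro h
    have h1 : Polynomial.coeff (∑ m ∈ r.support, Polynomial.monomial (m (t, 0)) (coeff m r))
        (m0 (t, 0)) = coeff m0 r := by
      rw [Polynomial.finsetSum_coeff, Finset.sum_eq_single m0]
      · rw [Polynomial.coeff_monomial, if_pos rfl]
      · intro m hm hne
        rw [Polynomial.coeff_monomial, if_neg]
        intro he
        apply hne
        ext ⟨b, i⟩
        by_cases hb : b = t
        · subst hb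
          have a1 := hw m hm
          have a2 := hw m0 hs0
          have e1 : m (b, 1) = m0 (b, 1) := by omega
          fin_cases i
          · exact he
          · exact e1
        · have a1 := hw0 m hm b hb
          have a2 := hw0 m0 hs0 b hb
          fin_cases i
          · exact a1.1.trans a2.1.symm
          · exact a1.2.trans a2.2.symm
      · intro hn
        exact absurd hs0 hn
    rw [h, Polynomial.coeff_zero] at h1
    exact hm0 h1.symm
  · apply Polynomial.natDegree_sum_le_of_forall_le
    intro m hm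
    refine (Polynomial.natDegree_monomial_le _).trans ?_
    have := hw m hm
    omega
  · intro A _ _ x
    rw [map_sum]
    unfold evl
    rw [aeval_def, eval₂_eq']
    apply Finset.sum_congr rfl
    intro m hm
    rw [Polynomial.aeval_monomial, Fintype.prod_prod_type]
    congr 1
    rw [Finset.prod_eq_single t]
    · simp [Fin.prod_univ_two]
    · intro b _ hb
      have h1 := hw0 m hm b hb
      simp [Fin.prod_univ_two, h1.1]
    · intro h
      exact absurd (Finset.mem_univ t) h

/-- Enumeration of a list of length at most `n`. -/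
theorem M2_list {R : Type*} {M : Type*} [CommMonoid M] (f : R → M) (a₀ : R) :
    ∀ (n : ℕ) (l : List R), l.length ≤ n →
      ∃ ρ : Fin n → R, (l.map f).prod = ∏ i : Fin n, if (i : ℕ) < l.length then f (ρ i) else 1 := by
  intro n
  induction n with
  | zero =>
    intro l hl
    refine ⟨fun _ => a₀, ?_⟩
    have : l = [] := List.eq_nil_of_length_eq_zero (Nat.le_zero.1 hl)
    subst this
    simp
  | succ n ih =>
    intro l hl
    cases l with
    | nil =>
      refine ⟨fun _ => a₀, ?_⟩
      simp
    | cons a l =>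
      obtain ⟨ρ, hρ⟩ := ih l (by simpa using hl)
      refine ⟨Fin.cons a ρ, ?_⟩
      rw [List.map_cons, List.prod_cons, Fin.prod_univ_succ, hρ]
      simp

/-- Enumeration of the roots. -/
theorem M2_roots {K : Type u} [Field K] (n : ℕ) (q : Polynomial K)
    (hn : q.natDegree ≤ n) (hs : q.Splits) :
    ∃ (d : ℕ) (ρ : Fin n → K),
      q = Polynomial.C q.leadingCoeff *
        ∏ i : Fin n, if (i : ℕ) < d then (Polynomial.X - Polynomial.C (ρ i)) else 1 := by
  have hcard : q.roots.card ≤ n := (Polynomial.card_roots' q).trans hn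
  obtain ⟨l, hl⟩ : ∃ l : List K, (l : Multiset K) = q.roots := ⟨q.roots.toList, q.roots.coe_toList⟩
  rw [← hl, Multiset.coe_card] at hcard
  obtain ⟨ρ, hρ⟩ := M2_list (fun a => Polynomial.X - Polynomial.C a) 0 n l hcard
  refine ⟨l.length, ρ, ?_⟩
  have h1 := hs.eq_prod_roots
  rw [← hl, Multiset.map_coe, Multiset.prod_coe, hρ] at h1
  exact h1

theorem exists_roots {K : Type u} [Field K] [NumberField K] (W : Fin 2 → WeierstrassCurve K)
    [∀ t, (W t).IsElliptic] (n : ℕ) (r : Fin 2 → MvPolynomial (Fin 2 × Fin 2) K)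
    (hr : ∀ t, r t ≠ 0) (hMH : ∀ t, MH (r t) (fun b => if b = t then n else 0)) :
    ∃ (L : Type u) (_ : Field L) (_ : NumberField L) (_ : DecidableEq L) (_ : Algebra K L)
      (V : Fin 2 → WeierstrassCurve L) (A : ∀ t, Fin n → (V t).toAffine.Point) (c : Fin 2 → L),
      (∀ t, (W t).map (algebraMap K L) = V t) ∧ (∀ t, c t ≠ 0) ∧
        ∀ (t : Fin 2) (x : Fin 2 → L),
          evl (fun b => ![x b, 1]) (r t) = c t * ∏ i, wd (A t i).xRep ![x t, 1] := by
  classical
  choose q hq0 hqn hq using fun t => M2_poly n t (r t) (hr t) (hMH t)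
  let K₁ := (q 0 * q 1).SplittingField
  have hfd : FiniteDimensional K K₁ := inferInstance
  have hnf : NumberField K₁ := NumberField.of_module_finite K K₁
  have hsp01 : ((q 0 * q 1).map (algebraMap K K₁)).Splits := Polynomial.SplittingField.splits _
  have hprod0 : (q 0 * q 1).map (algebraMap K K₁) ≠ 0 :=
    (Polynomial.map_ne_zero_iff (algebraMap K K₁).injective).2 (mul_ne_zero (hq0 0) (hq0 1))
  have hsp : ∀ t, ((q t).map (algebraMap K K₁)).Splits := by
    intro t
    refine hsp01.of_dvd hprod0 ?_
    apply Polynomial.map_dvd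
    fin_cases t
    · exact dvd_mul_right _ _
    · exact dvd_mul_left _ _
  have hm0 : ∀ t, (q t).map (algebraMap K K₁) ≠ 0 := fun t =>
    (Polynomial.map_ne_zero_iff (algebraMap K K₁).injective).2 (hq0 t)
  have hmn : ∀ t, ((q t).map (algebraMap K K₁)).natDegree ≤ n := by
    intro t
    rw [Polynomial.natDegree_map]
    exact hqn t
  choose d ρ hρ using fun t => M2_roots n ((q t).map (algebraMap K K₁)) (hmn t) (hsp t)
  let e := (Fintype.equivFin (Fin 2 × Fin n)).symm
  obtain ⟨L, iF, iN, iD, iA, V', P, hV', hP0, hPx⟩ := exists_field_points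
    (fun j => (W (e j).1).map (algebraMap K K₁)) (fun j => ρ (e j).1 (e j).2)
  let instA : Algebra K L := ((algebraMap K₁ L).comp (algebraMap K K₁)).toAlgebra
  have htower : IsScalarTower K K₁ L := IsScalarTower.of_algebraMap_eq' rfl
  have hmap : ∀ t, ((W t).map (algebraMap K K₁)).map (algebraMap K₁ L) = (W t).map (algebraMap K L) := by
    intro t
    rw [WeierstrassCurve.map_map]
    rfl
  have key : ∀ (U U' : WeierstrassCurve L), U = U' → ∀ P : U.toAffine.Point, P ≠ 0 →
      ∃ A : U'.toAffine.Point, A ≠ 0 ∧ A.xRep 0 = P.xRep 0 := by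
    intro U U' h P hP
    subst h
    exact ⟨P, hP, rfl⟩
  have hA : ∀ (t : Fin 2) (i : Fin n), ∃ A : ((W t).map (algebraMap K L)).toAffine.Point, A ≠ 0 ∧
      A.xRep 0 = algebraMap K₁ L (ρ t i) := by
    intro t i
    obtain ⟨j, hj⟩ := e.surjective (t, i)
    have h1 : V' j = (W t).map (algebraMap K L) := by
      rw [← hV' j, hmap, hj]
    obtain ⟨A, hA0, hAx⟩ := key _ _ h1 (P j) (hP0 j)
    refine ⟨A, hA0, ?_⟩
    rw [hAx, hPx j, hj]
  choose A hA0 hAx using hA
  refine ⟨L, iF, iN, iD, instA, fun t => (W t).map (algebraMap K L),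
    fun t i => if (i : ℕ) < d t then A t i else 0,
    fun t => algebraMap K₁ L ((q t).map (algebraMap K K₁)).leadingCoeff *
      ∏ i : Fin n, if (i : ℕ) < d t then (-1 : L) else 1, fun t => rfl, ?_, ?_⟩
  · intro t
    apply mul_ne_zero
    · rw [Ne, map_eq_zero_iff _ (algebraMap K₁ L).injective]
      exact Polynomial.leadingCoeff_ne_zero.2 (hm0 t)
    · rw [Finset.prod_ne_zero_iff]
      intro i _
      split_ifs
      · exact neg_ne_zero.2 one_ne_zero
      · exact one_ne_zero
  · intro t x
    rw [hq t L x, ← Polynomial.aeval_map_algebraMap K₁ (x t) (q t)]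
    conv_lhs => rw [hρ t]
    rw [map_mul, map_prod, Polynomial.aeval_C, mul_assoc, ← Finset.prod_mul_distrib]
    congr 1
    apply Finset.prod_congr rfl
    intro i _
    by_cases hi : (i : ℕ) < d t
    · simp only [if_pos hi]
      rw [xRep_eq (hA0 t i), hAx t i]
      simp [wd]
    · simp only [if_neg hi]
      rw [xRep_zero]
      simp [wd]

end Pool.Agent.Lib.MP_17a322_nt.VJ
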