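import Pool.Agent.Lib.MP_17a322_nt.VJ.E6

/-!
# JOB M3: sums of minima, and the height with respect to the origin

* `min_sum_le`: if for every `i` there is `j` with `min (a i) (b j) = a i`, then
  `∑ i, a i ≤ ∑ i, ∑ j, min (a i) (b j)` (all terms are nonnegative, `Finset.single_le_sum`). Otherwise there is `i` with
  `min (a i) (b j) = b j` for all `j` (`min_eq_left`/`min_eq_right`, `min_choice`), and `∑ j, b j` is at most the part of the double
  sum belonging to this `i`.
* `min_sum_le'`: the same with the pairs written as maps from `Fin 2` (`finTwoArrowEquiv`, `Fintype.sum_equiv`,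
  `Fintype.sum_prod_type`).
* `hO_eq_gs`: `Q t` affine, so `(Q t).xRep = ![x t, 1]`, `vn v (Q t).xRep = max (v (x t)) 1`. `hO Q` is by definition
  `∑ t, logHeight (Q t).xRep - logHeight ![1, x 0, x 1]`; these are `gs` of `log (vn v ..)` (`gs_log_vn`) and of
  `log (⨆ i, v (![1, x 0, x 1] i)) = log (max (vn v (Q 0).xRep) (vn v (Q 1).xRep))` (`gs_log_iSup`, A4), and
  `log a + log b - log (max a b) = min (log a) (log b)` for `a, b > 0`. `gs_sub`, `gs_add`, the `FS` statements of A4.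
* `FS_min`: the same identity shows that the function has finite support.
-/

universe u

namespace Pool.Agent.Lib.MP_17a322_nt.VJ

open MvPolynomial Height

theorem min_sum_le {ι κ : Type*} [Fintype ι] [Fintype κ] (a : ι → ℝ) (b : κ → ℝ)
    (ha : ∀ i, 0 ≤ a i) (hb : ∀ j, 0 ≤ b j) :
    min (∑ i, a i) (∑ j, b j) ≤ ∑ i, ∑ j, min (a i) (b j) := by
  have h0 : ∀ i j, 0 ≤ min (a i) (b j) := fun i j => le_min (ha i) (hb j)
  by_cases h : ∀ i, ∃ j, a i ≤ b j
  · refine (min_le_left _ _).trans (Finset.sum_le_sum fun i _ => ?_)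
    obtain ⟨j, hj⟩ := h i
    calc a i = min (a i) (b j) := (min_eq_left hj).symm
      _ ≤ ∑ j, min (a i) (b j) :=
        Finset.single_le_sum (f := fun j => min (a i) (b j)) (fun j _ => h0 i j)
          (Finset.mem_univ j)
  · push Not at h
    obtain ⟨i, hi⟩ := h
    refine (min_le_right _ _).trans ?_
    calc ∑ j, b j = ∑ j, min (a i) (b j) :=
          Finset.sum_congr rfl fun j _ => (min_eq_right (hi j).le).symm
      _ ≤ ∑ i, ∑ j, min (a i) (b j) :=
        Finset.single_le_sum (f := fun i => ∑ j, min (a i) (b j))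
          (fun i _ => Finset.sum_nonneg fun j _ => h0 i j) (Finset.mem_univ i)

theorem min_sum_le' {ι : Type*} [Fintype ι] [DecidableEq ι] (a : Fin 2 → ι → ℝ)
    (ha : ∀ t i, 0 ≤ a t i) :
    min (∑ i, a 0 i) (∑ i, a 1 i) ≤ ∑ j : Fin 2 → ι, min (a 0 (j 0)) (a 1 (j 1)) := by
  refine (min_sum_le (a 0) (a 1) (ha 0) (ha 1)).trans (le_of_eq ?_)
  rw [← Fintype.sum_prod_type' (f := fun i j => min (a 0 i) (a 1 j))]
  exact (Fintype.sum_equiv (finTwoArrowEquiv ι) _ _ fun j => rfl).symm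

theorem M3_xRep {K : Type*} [Field K] {W : WeierstrassCurve K} {P : W.toAffine.Point}
    (hP : P ≠ 0) : P.xRep = ![P.xRep 0, 1] := by
  rcases P with _ | ⟨x, y, h⟩
  · exact absurd rfl hP
  · rw [WeierstrassCurve.Affine.Point.xRep_some]
    rfl

theorem M3_ne {K : Type*} [Field K] (x y : K) : ![1, x, y] ≠ 0 := fun h =>
  one_ne_zero (congrFun h 0)

theorem M3_max {K : Type*} [Field K] (v : AbsoluteValue K ℝ) {R Q : Fin 2 → K}
    (hR : R 1 = 1) (hQ : Q 1 = 1) :
    (⨆ i, v (![1, R 0, Q 0] i)) = max (vn v R) (vn v Q) := by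
  unfold vn
  rw [hR, hQ]
  refine eq_of_forall_ge_iff fun c => ?_
  simp only [ciSup_le_iff (Set.finite_range _).bddAbove, Fin.forall_fin_succ, max_le_iff]
  simp
  tauto

theorem M3_key {K : Type*} [Field K] (v : AbsoluteValue K ℝ) {R Q : Fin 2 → K}
    (hR : R 1 = 1) (hQ : Q 1 = 1) :
    min (Real.log (vn v R)) (Real.log (vn v Q)) =
      (Real.log (vn v R) + Real.log (vn v Q)) - Real.log (⨆ i, v (![1, R 0, Q 0] i)) := by
  rw [M3_max v hR hQ]
  have h1 : 0 < vn v R := lt_of_lt_of_le one_pos (by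
    unfold vn
    rw [hR, map_one]
    exact le_max_right _ _)
  have h2 : 0 < vn v Q := lt_of_lt_of_le one_pos (by
    unfold vn
    rw [hQ, map_one]
    exact le_max_right _ _)
  rcases le_total (vn v R) (vn v Q) with h | h
  · rw [max_eq_right h, min_eq_left (Real.log_le_log h1 h)]
    ring
  · rw [max_eq_left h, min_eq_right (Real.log_le_log h2 h)]
    ring

theorem FS_min {K : Type u} [Field K] [AdmissibleAbsValues K] {W : Fin 2 → WeierstrassCurve K}
    (Q : ∀ t, (W t).toAffine.Point) (hQ : ∀ t, Q t ≠ 0) :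
    FS (fun v : AbsoluteValue K ℝ =>
      min (Real.log (vn v (Q 0).xRep)) (Real.log (vn v (Q 1).xRep))) := by
  have h : ∀ t, (Q t).xRep 1 = 1 := fun t => by
    rw [M3_xRep (hQ t)]
    rfl
  have h1 : (fun v : AbsoluteValue K ℝ =>
      min (Real.log (vn v (Q 0).xRep)) (Real.log (vn v (Q 1).xRep))) =
      fun v => (Real.log (vn v (Q 0).xRep) + Real.log (vn v (Q 1).xRep)) -
        Real.log (⨆ i, v (![1, (Q 0).xRep 0, (Q 1).xRep 0] i)) := by
    funext v
    exact M3_key v (h 0) (h 1)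
  rw [h1]
  exact FS_sub (FS_add (FS_log_vn (Q 0).xRep_ne_zero) (FS_log_vn (Q 1).xRep_ne_zero))
    (FS_log_iSup (M3_ne _ _))

theorem hO_eq_gs {K : Type u} [Field K] [AdmissibleAbsValues K] {W : Fin 2 → WeierstrassCurve K}
    (Q : ∀ t, (W t).toAffine.Point) (hQ : ∀ t, Q t ≠ 0) :
    hO Q = gs (fun v : AbsoluteValue K ℝ =>
      min (Real.log (vn v (Q 0).xRep)) (Real.log (vn v (Q 1).xRep))) := by
  have h : ∀ t, (Q t).xRep 1 = 1 := fun t => by
    rw [M3_xRep (hQ t)]
    rfl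
  have h1 : (fun v : AbsoluteValue K ℝ =>
      min (Real.log (vn v (Q 0).xRep)) (Real.log (vn v (Q 1).xRep))) =
      fun v => (Real.log (vn v (Q 0).xRep) + Real.log (vn v (Q 1).xRep)) -
        Real.log (⨆ i, v (![1, (Q 0).xRep 0, (Q 1).xRep 0] i)) := by
    funext v
    exact M3_key v (h 0) (h 1)
  rw [h1, gs_sub (FS_add (FS_log_vn (Q 0).xRep_ne_zero) (FS_log_vn (Q 1).xRep_ne_zero))
    (FS_log_iSup (M3_ne _ _)), gs_add (FS_log_vn (Q 0).xRep_ne_zero)
    (FS_log_vn (Q 1).xRep_ne_zero), gs_log_vn (Q 0).xRep_ne_zero, gs_log_vn (Q 1).xRep_ne_zero,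
    gs_log_iSup (M3_ne _ _)]
  unfold hO HH
  rw [Fin.sum_univ_two]

end Pool.Agent.Lib.MP_17a322_nt.VJ
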