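import Pool.Agent.Lib.MP_17a322_nt.VJ.M3
import Pool.Agent.Lib.MP_17a322_nt.RV.Defs
import Pool.Agent.Lib.MP_17a322_nt.RV.H4

/-!
# JOB M4a: the local inequality from elimination, and the local inequality at the translates

* `one_le_Cg`: all factors are at least `1` (`one_le_cst`, A1).
* `abs_evl_le`: the value of a multihomogeneous form. `evl y f` is `aeval (fun p => y p.1 p.2) f`; `SN.aeval_le'` (A3) for
  `SN_self v`, degrees `d (b, i) = E b` (every monomial `m` has `m (b, 0) + m (b, 1) = E b`, compare `H4_coeff` in RV/H4, so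
  `degreeOf (b, i) f ≤ E b`); the coordinate `y b 1 = 1` contributes `max 1 (v 1) ^ _ = 1` (`Fintype.prod_prod_type`,
  `Fin.prod_univ_two`).
* `local_A`: put `m b = max 1 (v (x b))`. Choose `τ b = 0` if `1 ≤ v (x b)` and `τ b = 1` otherwise; then the value of
  `∏ b, X (b, τ b) ^ N` has absolute value `∏ b, m b ^ N`. From the relation `rel`:
  `v (r) * ∏ b, m b ^ N = v (∑ k, h k * g k) ≤ cst v (card κ) * max_k (v (h k) v (g k))` (`SN.sum_le` for `SN_self v`, A1;
  `cst_mono`) `≤ Cg * (∏ b, m b ^ ((if b = t then 5 N else N) - D b)) * ⨆ k, v (g k)` (`abs_evl_le`; one factor of the product in `Cg` is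
  `max 1 (NV ..)` and the others are at least `1`; `Finset.single_le_prod`-type lemma, or `Finset.prod_le_prod`). Multiply by
  `∏ b, m b ^ D b` and cancel `∏ b, m b ^ N > 0` (`D b ≤ N`; two factors `b = 0, 1`, cases `t = 0`, `t = 1`). For `κ` empty the relation
  gives that `r` vanishes (`r * ∏ .. = 0`), contradiction with `ne`.
* `local_B`: `local_lower` (E5) for `R = P`, `Q = A i`: `(vn P * vn (A i))^2 ≤ lc^10 * (v (wd P (A i))^2 * (vn (P + A i) * vn (P - A i)))`,
  `1 ≤ vn (A i)` (`one_le_vn_xRep`), `wd P Q = - wd Q P`; multiply over `i : Fin n` (`Finset.prod_le_prod`, `Finset.prod_pow`,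
  `Finset.prod_mul_distrib`); the product over `Fin n × Bool` is `Fintype.prod_prod_type`, `Fintype.prod_bool`, `sg true A = A`,
  `sg false A = -A`, `sub_eq_add_neg`.
-/

universe u

namespace Pool.Agent.Lib.MP_17a322_nt.VJ

open MvPolynomial Height
open Pool.Agent.Lib.MP_17a322_nt.RO Pool.Agent.Lib.MP_17a322_nt.RV

/-- The data given by `exists_elim` (M1). -/
structure ElimData {K : Type*} [Field K] {κ : Type} [Fintype κ] (D : Fin 2 → ℕ)
    (g : κ → MvPolynomial (Fin 2 × Fin 2) K) (N : ℕ) (r : Fin 2 → MvPolynomial (Fin 2 × Fin 2) K)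
    (h : Fin 2 → (Fin 2 → Fin 2) → κ → MvPolynomial (Fin 2 × Fin 2) K) : Prop where
  le : ∀ b, D b ≤ N
  mhg : ∀ k, MH (g k) D
  ne : ∀ t, r t ≠ 0
  mhr : ∀ t, MH (r t) (fun b => if b = t then 4 * N else 0)
  mhh : ∀ t τ k, MH (h t τ k) (fun b => (if b = t then 5 * N else N) - D b)
  rel : ∀ t τ, r t * ∏ b, X (b, τ b) ^ N = ∑ k, h t τ k * g k

/-- The constant in the local inequality. -/
noncomputable def Cg {K L : Type*} [Field K] [Field L] [Algebra K L] {κ : Type} [Fintype κ]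
    (h : Fin 2 → (Fin 2 → Fin 2) → κ → MvPolynomial (Fin 2 × Fin 2) K)
    (v : AbsoluteValue L ℝ) : ℝ :=
  cst v (Fintype.card κ + 1) *
    ∏ p : Fin 2 × (Fin 2 → Fin 2) × κ,
      max 1 (NV v (MvPolynomial.map (algebraMap K L) (h p.1 p.2.1 p.2.2)))

section

variable {K L : Type*} [Field K] [Field L] [Algebra K L] {κ : Type} [Fintype κ]
  (v : AbsoluteValue L ℝ)

theorem M4a_one_le_prod {ι : Type*} (s : Finset ι) (f : ι → ℝ) (hf : ∀ i ∈ s, 1 ≤ f i) :
    1 ≤ ∏ i ∈ s, f i := by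
  calc (1 : ℝ) = ∏ _i ∈ s, (1 : ℝ) := Finset.prod_const_one.symm
    _ ≤ ∏ i ∈ s, f i := Finset.prod_le_prod (fun _ _ => zero_le_one) hf

theorem M4a_le_prod {ι : Type*} [Fintype ι] (f : ι → ℝ) (hf : ∀ i, 1 ≤ f i)
    (i : ι) : f i ≤ ∏ i, f i := by
  classical
  rw [← Finset.mul_prod_erase Finset.univ f (Finset.mem_univ i)]
  exact le_mul_of_one_le_right (zero_le_one.trans (hf i)) (M4a_one_le_prod _ _ fun j _ => hf j)

theorem one_le_Cg (h : Fin 2 → (Fin 2 → Fin 2) → κ → MvPolynomial (Fin 2 × Fin 2) K) :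
    1 ≤ Cg (L := L) h v := by
  unfold Cg
  exact one_le_mul_of_one_le_of_one_le (one_le_cst v (Nat.le_add_left 1 _))
    (M4a_one_le_prod _ _ fun p _ => le_max_left _ _)

theorem abs_evl_le (f : MvPolynomial (Fin 2 × Fin 2) K) (E : Fin 2 → ℕ) (hf : MH f E)
    (x : Fin 2 → L) :
    v (evl (fun b => ![x b, 1]) f) ≤
      NV v (MvPolynomial.map (algebraMap K L) f) * ∏ b, max 1 (v (x b)) ^ E b := by
  have h1 := (SN_self v).aeval_le' (K := K) f (fun p => E p.1) (fun p => by
    rw [degreeOf_le_iff]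
    intro m hm
    have h2 := H4_coeff hf (mem_support_iff.1 hm) p.1
    obtain ⟨b, i⟩ := p
    rcases Fin.exists_fin_two.1 ⟨i, rfl⟩ with h | h
    · rw [h]
      exact h2 ▸ Nat.le_add_right _ _
    · rw [h]
      exact h2 ▸ Nat.le_add_left _ _) (fun p => (![x p.1, 1] : Fin 2 → L) p.2)
  refine h1.trans (le_of_eq ?_)
  rw [Fintype.prod_prod_type]
  congr 1
  refine Finset.prod_congr rfl fun b _ => ?_
  rw [Fin.prod_univ_two]
  simp

theorem local_A {D : Fin 2 → ℕ} {g : κ → MvPolynomial (Fin 2 × Fin 2) K} {N : ℕ}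
    {r : Fin 2 → MvPolynomial (Fin 2 × Fin 2) K}
    {h : Fin 2 → (Fin 2 → Fin 2) → κ → MvPolynomial (Fin 2 × Fin 2) K}
    (H : ElimData D g N r h) (t : Fin 2) (x : Fin 2 → L) :
    v (evl (fun b => ![x b, 1]) (r t)) * ∏ b, max 1 (v (x b)) ^ D b ≤
      Cg (L := L) h v * (⨆ k, v (evl (fun b => ![x b, 1]) (g k))) *
        max 1 (v (x t)) ^ (4 * N) := by
  classical
  set m : Fin 2 → ℝ := fun b => max 1 (v (x b)) with hm
  have hm1 : ∀ b, 1 ≤ m b := fun b => le_max_left _ _
  have hm0 : ∀ b, 0 < m b := fun b => zero_lt_one.trans_le (hm1 b)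
  set y : Fin 2 → Fin 2 → L := fun b => ![x b, 1] with hy
  obtain ⟨τ, hτ⟩ : ∃ τ : Fin 2 → Fin 2, ∀ b, v (y b (τ b)) = m b := by
    refine ⟨fun b => if 1 ≤ v (x b) then 0 else 1, fun b => ?_⟩
    by_cases hb : 1 ≤ v (x b)
    · simp [hy, hm, hb]
    · simp [hy, hm, hb, (not_le.1 hb).le]
  set S : ℝ := ⨆ k, v (evl y (g k)) with hS
  have hS0 : 0 ≤ S := Real.iSup_nonneg fun k => v.nonneg _
  set PP : ℝ := ∏ p : Fin 2 × (Fin 2 → Fin 2) × κ,
      max 1 (NV v (MvPolynomial.map (algebraMap K L) (h p.1 p.2.1 p.2.2))) with hPP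
  have hPP1 : 1 ≤ PP := M4a_one_le_prod _ _ fun p _ => le_max_left _ _
  set E : Fin 2 → ℕ := fun b => if b = t then 5 * N else N with hE
  have hDE : ∀ b, D b ≤ E b := fun b => by
    have := H.le b
    rw [hE]
    dsimp only
    split_ifs <;> omega
  have hrel : evl y (r t) * ∏ b, y b (τ b) ^ N = ∑ k, evl y (h t τ k) * evl y (g k) := by
    have h1 := congrArg (evl y) (H.rel t τ)
    unfold evl at h1 ⊢
    rw [map_mul, map_prod, map_sum] at h1
    simpa only [map_pow, aeval_X, map_mul] using h1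
  have hB0 : 0 ≤ PP * (∏ b, m b ^ (E b - D b)) * S :=
    mul_nonneg (mul_nonneg (zero_le_one.trans hPP1)
      (Finset.prod_nonneg fun b _ => pow_nonneg (hm0 b).le _)) hS0
  have h2 : v (evl y (r t)) * ∏ b, m b ^ N ≤
      cst v (Fintype.card κ + 1) * (PP * (∏ b, m b ^ (E b - D b)) * S) := by
    have h3 : v (evl y (r t)) * ∏ b, m b ^ N = v (evl y (r t) * ∏ b, y b (τ b) ^ N) := by
      rw [map_mul, map_prod]
      simp only [map_pow, hτ]
    rw [h3, hrel]
    refine ((SN_self v).sum_le Finset.univ _ hB0 fun k _ => ?_).trans ?_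
    · show v (evl y (h t τ k) * evl y (g k)) ≤ _
      rw [map_mul]
      refine mul_le_mul ?_ (le_ciSup (f := fun k => v (evl y (g k)))
        (Set.finite_range _).bddAbove k) (v.nonneg _)
        (mul_nonneg (zero_le_one.trans hPP1)
          (Finset.prod_nonneg fun b _ => pow_nonneg (hm0 b).le _))
      refine (abs_evl_le v _ _ (H.mhh t τ k) x).trans ?_
      refine mul_le_mul_of_nonneg_right ?_
        (Finset.prod_nonneg fun b _ => pow_nonneg (hm0 b).le _)
      exact (le_max_right 1 _).trans (M4a_le_prod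
        (fun p : Fin 2 × (Fin 2 → Fin 2) × κ =>
          max 1 (NV v (MvPolynomial.map (algebraMap K L) (h p.1 p.2.1 p.2.2))))
        (fun p => le_max_left _ _) (t, τ, k))
    · exact mul_le_mul_of_nonneg_right (cst_mono v (by rw [Finset.card_univ]; omega)) hB0
  have h4 : (∏ b, m b ^ (E b - D b)) * ∏ b, m b ^ D b = (∏ b, m b ^ N) * m t ^ (4 * N) := by
    rw [← Finset.prod_mul_distrib]
    have h5 : ∀ b, m b ^ (E b - D b) * m b ^ D b = m b ^ N * (if t = b then m b ^ (4 * N) else 1) := by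
      intro b
      rw [← pow_add, Nat.sub_add_cancel (hDE b)]
      rw [hE]
      dsimp only
      by_cases hb : b = t
      · rw [if_pos hb, if_pos hb.symm, ← pow_add]
        congr 1
        ring
      · rw [if_neg hb, if_neg (Ne.symm hb), mul_one]
    rw [Finset.prod_congr rfl fun b _ => h5 b, Finset.prod_mul_distrib, Finset.prod_ite_eq,
      if_pos (Finset.mem_univ t)]
  have hN : 0 < ∏ b, m b ^ N := Finset.prod_pos fun b _ => pow_pos (hm0 b) _
  refine le_of_mul_le_mul_right ?_ hN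
  calc v (evl y (r t)) * (∏ b, m b ^ D b) * ∏ b, m b ^ N
      = (v (evl y (r t)) * ∏ b, m b ^ N) * ∏ b, m b ^ D b := by ring
    _ ≤ (cst v (Fintype.card κ + 1) * (PP * (∏ b, m b ^ (E b - D b)) * S)) *
          ∏ b, m b ^ D b :=
        mul_le_mul_of_nonneg_right h2 (Finset.prod_nonneg fun b _ => pow_nonneg (hm0 b).le _)
    _ = (cst v (Fintype.card κ + 1) * PP) * S *
          ((∏ b, m b ^ (E b - D b)) * ∏ b, m b ^ D b) := by ring
    _ = (cst v (Fintype.card κ + 1) * PP) * S * ((∏ b, m b ^ N) * m t ^ (4 * N)) := by rw [h4]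
    _ = Cg (L := L) h v * S * m t ^ (4 * N) * ∏ b, m b ^ N := by
        unfold Cg
        ring

end

theorem local_B {K : Type*} [Field K] (W : WeierstrassCurve K) [W.IsElliptic] {L : Type*}
    [Field L] [DecidableEq L] [Algebra K L] (V : WeierstrassCurve L)
    (hV : W.map (algebraMap K L) = V) (v : AbsoluteValue L ℝ) (n : ℕ)
    (P : V.toAffine.Point) (A : Fin n → V.toAffine.Point)
    (hA : ∀ i, P + A i ≠ 0 ∧ P - A i ≠ 0) :
    vn v P.xRep ^ (2 * n) ≤ lc W v ^ (10 * n) * (v (∏ i, wd (A i).xRep P.xRep) ^ 2 *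
      ∏ j : Fin n × Bool, vn v (P + sg j.2 (A j.1)).xRep) := by
  have h1 : ∀ i, vn v P.xRep ^ 2 ≤ lc W v ^ 10 * (v (wd (A i).xRep P.xRep) ^ 2 *
      (vn v (P + A i).xRep * vn v (P - A i).xRep)) := fun i => by
    have h2 := local_lower W V hV v P (A i) (hA i).1 (hA i).2
    have h3 : v (wd P.xRep (A i).xRep) = v (wd (A i).xRep P.xRep) := by
      rw [← v.map_neg]
      congr 1
      unfold wd
      ring
    rw [h3] at h2
    refine le_trans ?_ h2
    rw [mul_pow]
    exact le_mul_of_one_le_right (sq_nonneg _) (one_le_pow₀ (one_le_vn_xRep v (A i)))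
  have h4 := Finset.prod_le_prod (s := (Finset.univ : Finset (Fin n)))
    (fun i _ => sq_nonneg (vn v P.xRep)) (fun i _ => h1 i)
  rw [Finset.prod_const, Finset.card_univ, Fintype.card_fin, ← pow_mul,
    Finset.prod_mul_distrib, Finset.prod_const, Finset.card_univ, Fintype.card_fin, ← pow_mul,
    Finset.prod_mul_distrib, Finset.prod_pow] at h4
  rw [map_prod, Fintype.prod_prod_type]
  refine h4.trans (le_of_eq ?_)
  congr 2
  refine Finset.prod_congr rfl fun i _ => ?_
  rw [Fintype.prod_bool]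
  show _ = vn v (P + sg true (A i)).xRep * vn v (P + sg false (A i)).xRep
  unfold sg
  rw [if_pos rfl, if_neg (by simp), sub_eq_add_neg]

end Pool.Agent.Lib.MP_17a322_nt.VJ
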