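import Pool.Agent.Lib.MP_17a322_nt.VJ.M4a

/-!
# JOB M4b: the local inequality

Proof of `local_C`. Put `x b = (P b).xRep 0`, so `(P b).xRep = ![x b, 1]` (`xRep_eq`, E4), `m b = vn v (P b).xRep = max 1 (v (x b))`
(`vn_xRep`, `max_comm`), `Gv = ⨆ k, v (evl .. (g k))`, `n = 4 N`, `Πt = ∏ j : Fin n × Bool, vn v (P t + sg j.2 (A t j.1)).xRep ≥ 1`.
For every `t`: `evl .. (r t) = c t * ∏ i, wd (A t i).xRep (P t).xRep` (`hr`). `local_B`: `m t ^ (2 n) ≤ lc ^ (10 n) * v(∏ wd)^2 * Πt`; times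
`v (c t)^2`: `v (c t)^2 * m t ^ (2 n) ≤ lc ^ (10 n) * v (r t)^2 * Πt`. `local_A` squared:
`v (r t)^2 * (∏ m b ^ D b)^2 ≤ Cg^2 * Gv^2 * m t ^ (2 n)`. Together, after cancelling `m t ^ (2 n) > 0`:
`v (c t)^2 * (∏ m b ^ D b)^2 ≤ lc ^ (10 n) * Cg^2 * Gv^2 * Πt`. In particular `Gv > 0`. Logarithms (`Real.log_prod`, `Real.log_pow`):
`2 (∑ D b log (m b) - log Gv) ≤ 2 log Cg + 10 n log lc + 2 log (1 / v (c t)) + log Πt ≤ CV + log Πt`, where
`log (v (c t)⁻¹) ≤ log (max 1 ..)`, and the terms for the other index are nonnegative (`one_le_lc`, E1). So the left side is at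
most `CV + min (log Π0) (log Π1)`, `log Πt = ∑ j, log (vn ..)`, and `min_sum_le'` (M3) for
`a t j = log (vn v (P t + sg j.2 (A t j.1)).xRep) ≥ 0` (`one_le_vn_xRep`).
-/

universe u

namespace Pool.Agent.Lib.MP_17a322_nt.VJ

open MvPolynomial Height
open Pool.Agent.Lib.MP_17a322_nt.RO Pool.Agent.Lib.MP_17a322_nt.RV

/-- The constant. -/
noncomputable def CV {K : Type*} [Field K] (W : Fin 2 → WeierstrassCurve K) {L : Type*} [Field L]
    [Algebra K L] {κ : Type} [Fintype κ] (N : ℕ)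
    (h : Fin 2 → (Fin 2 → Fin 2) → κ → MvPolynomial (Fin 2 × Fin 2) K) (c : Fin 2 → L)
    (v : AbsoluteValue L ℝ) : ℝ :=
  2 * Real.log (Cg (L := L) h v) +
    ∑ t, (40 * N * Real.log (lc (W t) v) + 2 * Real.log (max 1 (v (c t)⁻¹)))

/-- The inequality for one index, before taking logarithms. -/
theorem M4b_one {K : Type*} [Field K] (W : Fin 2 → WeierstrassCurve K) [∀ t, (W t).IsElliptic]
    {L : Type*} [Field L] [DecidableEq L] [Algebra K L] (V : Fin 2 → WeierstrassCurve L)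
    (hV : ∀ t, (W t).map (algebraMap K L) = V t) (v : AbsoluteValue L ℝ)
    {κ : Type} [Fintype κ] {D : Fin 2 → ℕ} {g : κ → MvPolynomial (Fin 2 × Fin 2) K} {N : ℕ}
    {r : Fin 2 → MvPolynomial (Fin 2 × Fin 2) K}
    {h : Fin 2 → (Fin 2 → Fin 2) → κ → MvPolynomial (Fin 2 × Fin 2) K}
    (H : ElimData D g N r h) (A : ∀ t, Fin (4 * N) → (V t).toAffine.Point) (c : Fin 2 → L)
    (hr : ∀ (t : Fin 2) (x : Fin 2 → L),
      evl (fun b => ![x b, 1]) (r t) = c t * ∏ i, wd (A t i).xRep ![x t, 1])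
    (P : ∀ t, (V t).toAffine.Point) (hP : ∀ t, P t ≠ 0)
    (hA : ∀ t i, P t + A t i ≠ 0 ∧ P t - A t i ≠ 0) (t : Fin 2) :
    v (c t) ^ 2 * (∏ b, vn v (P b).xRep ^ D b) ^ 2 ≤
      lc (W t) v ^ (40 * N) * (Cg (L := L) h v ^ 2 *
        (⨆ k, v (evl (fun b => (P b).xRep) (g k))) ^ 2) *
        ∏ j : Fin (4 * N) × Bool, vn v (P t + sg j.2 (A t j.1)).xRep := by
  have hx : (fun b => (P b).xRep) = fun b => ![(P b).xRep 0, 1] :=
    funext fun b => xRep_eq (hP b)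
  have hm : ∀ b, vn v (P b).xRep = max 1 (v ((P b).xRep 0)) := fun b => by
    rw [vn_xRep v (hP b), max_comm]
  have h1 := hr t (fun b => (P b).xRep 0)
  have h2 := local_A v H t (fun b => (P b).xRep 0)
  have h3 := local_B (W t) (V t) (hV t) v (4 * N) (P t) (A t) (hA t)
  simp only [← hm] at h2
  rw [← hx] at h1 h2
  have h1' : evl (fun b => (P b).xRep) (r t) = c t * ∏ i, wd (A t i).xRep (P t).xRep := by
    rw [h1, ← xRep_eq (hP t)]
  rw [h1', map_mul] at h2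
  set Gv := ⨆ k, v (evl (fun b => (P b).xRep) (g k)) with hGv
  set M := ∏ b, vn v (P b).xRep ^ D b with hM
  set w := v (∏ i, wd (A t i).xRep (P t).xRep) with hw
  set Q := ∏ j : Fin (4 * N) × Bool, vn v (P t + sg j.2 (A t j.1)).xRep with hQ
  set m := vn v (P t).xRep with hmt
  set l := lc (W t) v with hl
  have hm1 : 1 ≤ m := one_le_vn_xRep v (P t)
  have hl1 : 1 ≤ l := one_le_lc (W t) v
  have hQ0 : 0 ≤ Q := Finset.prod_nonneg fun j _ => vn_nonneg v _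
  have hM0 : 0 ≤ M := Finset.prod_nonneg fun b _ => pow_nonneg (vn_nonneg v _) _
  have hw0 : 0 ≤ w := v.nonneg _
  have hc0 : 0 ≤ v (c t) := v.nonneg _
  have hpow : (0 : ℝ) < m ^ (8 * N) := pow_pos (zero_lt_one.trans_le hm1) _
  have h4 : (v (c t) * w * M) ^ 2 ≤ (Cg (L := L) h v * Gv * m ^ (4 * N)) ^ 2 :=
    pow_le_pow_left₀ (mul_nonneg (mul_nonneg hc0 hw0) hM0) h2 2
  have e1 : m ^ (2 * (4 * N)) = m ^ (8 * N) := by
    congr 1
    ring
  have e2 : l ^ (10 * (4 * N)) = l ^ (40 * N) := by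
    congr 1
    ring
  have e3 : (m ^ (4 * N)) ^ 2 = m ^ (8 * N) := by
    rw [← pow_mul]
    congr 1
    ring
  rw [e1, e2] at h3
  have h5 : m ^ (8 * N) * (v (c t) ^ 2 * M ^ 2) ≤
      l ^ (40 * N) * (w ^ 2 * Q) * (v (c t) ^ 2 * M ^ 2) :=
    mul_le_mul_of_nonneg_right h3 (by positivity)
  have h6 : l ^ (40 * N) * Q * (v (c t) * w * M) ^ 2 ≤
      l ^ (40 * N) * Q * (Cg (L := L) h v * Gv * m ^ (4 * N)) ^ 2 :=
    mul_le_mul_of_nonneg_left h4 (mul_nonneg (pow_nonneg (zero_le_one.trans hl1) _) hQ0)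
  refine le_of_mul_le_mul_left ?_ hpow
  calc m ^ (8 * N) * (v (c t) ^ 2 * M ^ 2)
      ≤ l ^ (40 * N) * (w ^ 2 * Q) * (v (c t) ^ 2 * M ^ 2) := h5
    _ = l ^ (40 * N) * Q * (v (c t) * w * M) ^ 2 := by ring
    _ ≤ l ^ (40 * N) * Q * (Cg (L := L) h v * Gv * m ^ (4 * N)) ^ 2 := h6
    _ = m ^ (8 * N) * (l ^ (40 * N) * (Cg (L := L) h v ^ 2 * Gv ^ 2) * Q) := by
      rw [mul_pow, mul_pow, e3]
      ring

theorem local_C {K : Type*} [Field K] (W : Fin 2 → WeierstrassCurve K) [∀ t, (W t).IsElliptic]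
    {L : Type*} [Field L] [DecidableEq L] [Algebra K L] (V : Fin 2 → WeierstrassCurve L)
    (hV : ∀ t, (W t).map (algebraMap K L) = V t) (v : AbsoluteValue L ℝ)
    {κ : Type} [Fintype κ] {D : Fin 2 → ℕ} {g : κ → MvPolynomial (Fin 2 × Fin 2) K} {N : ℕ}
    {r : Fin 2 → MvPolynomial (Fin 2 × Fin 2) K}
    {h : Fin 2 → (Fin 2 → Fin 2) → κ → MvPolynomial (Fin 2 × Fin 2) K}
    (H : ElimData D g N r h) (A : ∀ t, Fin (4 * N) → (V t).toAffine.Point) (c : Fin 2 → L)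
    (hc : ∀ t, c t ≠ 0)
    (hr : ∀ (t : Fin 2) (x : Fin 2 → L),
      evl (fun b => ![x b, 1]) (r t) = c t * ∏ i, wd (A t i).xRep ![x t, 1])
    (P : ∀ t, (V t).toAffine.Point) (hP : ∀ t, P t ≠ 0)
    (hA : ∀ t i, P t + A t i ≠ 0 ∧ P t - A t i ≠ 0) :
    2 * (∑ b, (D b : ℝ) * Real.log (vn v (P b).xRep) -
        Real.log (⨆ k, v (evl (fun b => (P b).xRep) (g k)))) ≤
      CV W N h c v + ∑ j : Fin 2 → Fin (4 * N) × Bool,
        min (Real.log (vn v (P 0 + sg (j 0).2 (A 0 (j 0).1)).xRep))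
          (Real.log (vn v (P 1 + sg (j 1).2 (A 1 (j 1).1)).xRep)) := by
  have hgv0 : 0 ≤ ⨆ k, v (evl (fun b => (P b).xRep) (g k)) :=
    Real.iSup_nonneg fun k => v.nonneg _
  have hone := M4b_one W V hV v H A c hr P hP hA
  set Gv := ⨆ k, v (evl (fun b => (P b).xRep) (g k)) with hGv
  have hvn : ∀ b, 0 < vn v (P b).xRep := fun b =>
    zero_lt_one.trans_le (one_le_vn_xRep v (P b))
  have hM0 : 0 < ∏ b, vn v (P b).xRep ^ D b :=
    Finset.prod_pos fun b _ => pow_pos (hvn b) _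
  have hvc : ∀ t, 0 < v (c t) := fun t => v.pos (hc t)
  have hGpos : 0 < Gv := by
    refine lt_of_le_of_ne hgv0 fun h0 => ?_
    have h1 := hone 0
    rw [← h0] at h1
    have h2 : 0 < v (c 0) ^ 2 * (∏ b, vn v (P b).xRep ^ D b) ^ 2 :=
      mul_pos (pow_pos (hvc 0) 2) (pow_pos hM0 2)
    have h3 : lc (W 0) v ^ (40 * N) * (Cg (L := L) h v ^ 2 * (0 : ℝ) ^ 2) *
        ∏ j : Fin (4 * N) × Bool, vn v (P 0 + sg j.2 (A 0 j.1)).xRep = 0 := by
      ring
    rw [h3] at h1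
    exact absurd h1 (not_le.2 h2)
  have hCg : 1 ≤ Cg (L := L) h v := one_le_Cg v h
  have hCg0 : 0 < Cg (L := L) h v := zero_lt_one.trans_le hCg
  have hT : ∀ t, 0 ≤ 40 * (N : ℝ) * Real.log (lc (W t) v) + 2 * Real.log (max 1 (v (c t)⁻¹)) := by
    intro t
    have h1 : 0 ≤ Real.log (lc (W t) v) := Real.log_nonneg (one_le_lc (W t) v)
    have h2 : 0 ≤ Real.log (max 1 (v (c t)⁻¹)) := Real.log_nonneg (le_max_left _ _)
    positivity
  have hlog : ∀ t, 2 * (∑ b, (D b : ℝ) * Real.log (vn v (P b).xRep) - Real.log Gv) ≤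
      CV W N h c v + ∑ j : Fin (4 * N) × Bool,
        Real.log (vn v (P t + sg j.2 (A t j.1)).xRep) := by
    intro t
    have hl0 : 0 < lc (W t) v := zero_lt_one.trans_le (one_le_lc (W t) v)
    have hQ0 : 0 < ∏ j : Fin (4 * N) × Bool, vn v (P t + sg j.2 (A t j.1)).xRep :=
      Finset.prod_pos fun j _ => zero_lt_one.trans_le (one_le_vn_xRep v _)
    have h1 := Real.log_le_log (mul_pos (pow_pos (hvc t) 2) (pow_pos hM0 2)) (hone t)
    rw [Real.log_mul (pow_pos (hvc t) 2).ne' (pow_pos hM0 2).ne', Real.log_pow, Real.log_pow,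
      Real.log_mul (mul_pos (pow_pos hl0 _) (mul_pos (pow_pos hCg0 2) (pow_pos hGpos 2))).ne'
        hQ0.ne', Real.log_mul (pow_pos hl0 _).ne'
        (mul_pos (pow_pos hCg0 2) (pow_pos hGpos 2)).ne',
      Real.log_mul (pow_pos hCg0 2).ne' (pow_pos hGpos 2).ne', Real.log_pow, Real.log_pow,
      Real.log_pow, Real.log_prod (fun b _ => (pow_pos (hvn b) _).ne'),
      Real.log_prod (fun j _ => (zero_lt_one.trans_le (one_le_vn_xRep v _)).ne')] at h1
    simp only [Real.log_pow] at h1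
    push_cast at h1
    have h2 : Real.log (v (c t)⁻¹) ≤ Real.log (max 1 (v (c t)⁻¹)) := by
      refine Real.log_le_log ?_ (le_max_right _ _)
      rw [map_inv₀]
      exact inv_pos.2 (hvc t)
    rw [map_inv₀, Real.log_inv] at h2
    rw [← map_inv₀] at h2
    have h3 : 40 * (N : ℝ) * Real.log (lc (W t) v) + 2 * Real.log (max 1 (v (c t)⁻¹)) ≤
        ∑ t, (40 * (N : ℝ) * Real.log (lc (W t) v) + 2 * Real.log (max 1 (v (c t)⁻¹))) :=
      Finset.single_le_sum (fun t _ => hT t) (Finset.mem_univ t)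
    unfold CV
    linarith
  have hmin := min_sum_le' (fun (t : Fin 2) (j : Fin (4 * N) × Bool) =>
    Real.log (vn v (P t + sg j.2 (A t j.1)).xRep))
    (fun t j => Real.log_nonneg (one_le_vn_xRep v _))
  have h0 := hlog 0
  have h1 := hlog 1
  refine le_trans ?_ (add_le_add_right hmin (CV W N h c v))
  rcases le_total (∑ j : Fin (4 * N) × Bool, Real.log (vn v (P 0 + sg j.2 (A 0 j.1)).xRep))
    (∑ j : Fin (4 * N) × Bool, Real.log (vn v (P 1 + sg j.2 (A 1 j.1)).xRep)) with hle | hle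
  · rw [min_eq_left hle]
    exact h0
  · rw [min_eq_right hle]
    exact h1

end Pool.Agent.Lib.MP_17a322_nt.VJ
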