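import Pool.Agent.Lib.MP_17a322_nt.VJ.M4b

/-!
# JOB M5: the global inequality

* `FS_CV`: `Real.log_mul`, `Real.log_prod` (all factors positive): `FS_log_cst` (A4), `FS_log_max_NV` (A7), `FS_log_lc` (E1),
  `FS_log_max` (A4); `FS_add`, `FS_sum`, `FS_const_mul`.
* `exists_ne_zero_evl`: if all `evl (P) (g k) = 0` then the relation `rel 0 τ` for `τ = fun _ => 1` at `P` gives
  `evl P (r 0) * 1 = 0`; but `evl P (r 0) = c 0 * ∏ wd (A 0 i).xRep (P 0).xRep`, and `wd (A 0 i).xRep (P 0).xRep = 0` would give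
  `A 0 i = ± P 0` (`eq_or_eq_neg`, E4), excluded by `hA`.
* `M5_global`: `C = gs (CV ..)`. Apply `gs_le` to `local_C`. Left: `gs_const_mul`, `gs_sub`, `gs_sum`, `gs_log_vn` (E6),
  `gs_log_iSup` (A4) with `exists_ne_zero_evl`. Right: `gs_add` (`FS_CV`), `gs_sum` (`FS_min`, M3), `hO_eq_gs` (M3) for the points
  `fun t => P t + sg (j t).2 (A t (j t).1)`, affine by `hA` (`sg true A = A`, `sg false A = -A`).
-/

universe u

namespace Pool.Agent.Lib.MP_17a322_nt.VJ

open MvPolynomial Height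
open Pool.Agent.Lib.MP_17a322_nt.RO Pool.Agent.Lib.MP_17a322_nt.RV

theorem FS_CV {K : Type u} [Field K] [NumberField K] (W : Fin 2 → WeierstrassCurve K)
    {L : Type u} [Field L] [NumberField L] [Algebra K L] {κ : Type} [Fintype κ] (N : ℕ)
    (h : Fin 2 → (Fin 2 → Fin 2) → κ → MvPolynomial (Fin 2 × Fin 2) K) (c : Fin 2 → L) :
    FS (fun v : AbsoluteValue L ℝ => CV W N h c v) := by
  have h1 : ∀ x : ℝ, max 1 x ≠ 0 := fun x => (lt_max_of_lt_left one_pos).ne'
  have h2 : ∀ v : AbsoluteValue L ℝ, Real.log (Cg (L := L) h v) =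
      Real.log (cst v (Fintype.card κ + 1)) + ∑ p : Fin 2 × (Fin 2 → Fin 2) × κ,
        Real.log (max 1 (NV v (MvPolynomial.map (algebraMap K L) (h p.1 p.2.1 p.2.2)))) := by
    intro v
    unfold Cg
    rw [Real.log_mul, Real.log_prod]
    · exact fun i _ => h1 _
    · exact (one_pos.trans_le (one_le_cst v (by omega))).ne'
    · exact Finset.prod_ne_zero_iff.mpr fun i _ => h1 _
  simp only [CV, h2]
  exact FS_add (FS_const_mul 2 (FS_add (FS_log_cst _) (FS_sum _ fun p _ => FS_log_max_NV _)))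
    (FS_sum _ fun t _ => FS_add (FS_const_mul _ (FS_log_lc _)) (FS_const_mul 2 (FS_log_max _)))

theorem exists_ne_zero_evl {K : Type*} [Field K] {L : Type*} [Field L] [DecidableEq L]
    [Algebra K L] (V : Fin 2 → WeierstrassCurve L)
    {κ : Type} [Fintype κ] {D : Fin 2 → ℕ} {g : κ → MvPolynomial (Fin 2 × Fin 2) K} {N : ℕ}
    {r : Fin 2 → MvPolynomial (Fin 2 × Fin 2) K}
    {h : Fin 2 → (Fin 2 → Fin 2) → κ → MvPolynomial (Fin 2 × Fin 2) K}
    (H : ElimData D g N r h) (A : ∀ t, Fin (4 * N) → (V t).toAffine.Point) (c : Fin 2 → L)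
    (hc : ∀ t, c t ≠ 0)
    (hr : ∀ (t : Fin 2) (x : Fin 2 → L),
      evl (fun b => ![x b, 1]) (r t) = c t * ∏ i, wd (A t i).xRep ![x t, 1])
    (P : ∀ t, (V t).toAffine.Point) (hP : ∀ t, P t ≠ 0)
    (hA : ∀ t i, P t + A t i ≠ 0 ∧ P t - A t i ≠ 0) :
    (fun k => evl (fun b => (P b).xRep) (g k)) ≠ 0 := by
  intro h0
  have h1 := congrArg (evl (fun b => (P b).xRep)) (H.rel 0 (fun _ => 1))
  have h2 : ∀ k, evl (fun b => (P b).xRep) (g k) = 0 := fun k => congrFun h0 k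
  have h3 : evl (fun b => (P b).xRep) (∑ k, h 0 (fun _ => 1) k * g k) = 0 := by
    unfold evl
    rw [map_sum]
    refine Finset.sum_eq_zero fun k _ => ?_
    rw [map_mul]
    have := h2 k
    unfold evl at this
    rw [this, mul_zero]
  have h4 : evl (fun b => (P b).xRep) (∏ b : Fin 2, (X (b, 1) : MvPolynomial (Fin 2 × Fin 2) K) ^ N) =
      1 := by
    unfold evl
    rw [map_prod]
    refine Finset.prod_eq_one fun b _ => ?_
    rw [map_pow, aeval_X]
    show (P b).xRep 1 ^ N = 1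
    rw [xRep_one (hP b), one_pow]
  have h5 : evl (fun b => (P b).xRep) (r 0) = 0 := by
    have h6 : evl (fun b => (P b).xRep) (r 0 * ∏ b : Fin 2, X (b, 1) ^ N) =
        evl (fun b => (P b).xRep) (r 0) *
        evl (fun b => (P b).xRep) (∏ b : Fin 2, (X (b, 1) : MvPolynomial (Fin 2 × Fin 2) K) ^ N) := by
      unfold evl
      rw [map_mul]
    rw [← mul_one (evl (fun b => (P b).xRep) (r 0)), ← h4, ← h6, h1, h3]
  have h7 : (fun b => (P b).xRep) = fun b => ![(P b).xRep 0, 1] :=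
    funext fun b => xRep_eq (hP b)
  rw [h7, hr 0 (fun b => (P b).xRep 0), mul_eq_zero] at h5
  rcases h5 with h5 | h5
  · exact hc 0 h5
  · rw [Finset.prod_eq_zero_iff] at h5
    obtain ⟨i, _, hi⟩ := h5
    rw [← xRep_eq (hP 0)] at hi
    rcases eq_or_eq_neg hi with h8 | h8
    · exact (hA 0 i).2 (by rw [h8, sub_self])
    · exact (hA 0 i).1 (by rw [h8, add_neg_cancel])

theorem M5_global {K : Type u} [Field K] [NumberField K] (W : Fin 2 → WeierstrassCurve K)
    [∀ t, (W t).IsElliptic] {L : Type u} [Field L] [NumberField L] [DecidableEq L] [Algebra K L]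
    (V : Fin 2 → WeierstrassCurve L) (hV : ∀ t, (W t).map (algebraMap K L) = V t)
    {κ : Type} [Fintype κ] {D : Fin 2 → ℕ} {g : κ → MvPolynomial (Fin 2 × Fin 2) K} {N : ℕ}
    {r : Fin 2 → MvPolynomial (Fin 2 × Fin 2) K}
    {h : Fin 2 → (Fin 2 → Fin 2) → κ → MvPolynomial (Fin 2 × Fin 2) K}
    (H : ElimData D g N r h) (A : ∀ t, Fin (4 * N) → (V t).toAffine.Point) (c : Fin 2 → L)
    (hc : ∀ t, c t ≠ 0)
    (hr : ∀ (t : Fin 2) (x : Fin 2 → L),
      evl (fun b => ![x b, 1]) (r t) = c t * ∏ i, wd (A t i).xRep ![x t, 1]) :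
    ∃ C : ℝ, ∀ P : ∀ t, (V t).toAffine.Point, (∀ t, P t ≠ 0) →
      (∀ t i, P t + A t i ≠ 0 ∧ P t - A t i ≠ 0) →
      2 * (∑ b, (D b : ℝ) * logHeight (P b).xRep -
          logHeight (fun k => evl (fun b => (P b).xRep) (g k))) ≤
        C + ∑ j : Fin 2 → Fin (4 * N) × Bool,
          hO (fun t => P t + sg (j t).2 (A t (j t).1)) := by
  refine ⟨gs (fun v : AbsoluteValue L ℝ => CV W N h c v), fun P hP hA => ?_⟩
  have hne := exists_ne_zero_evl V H A c hc hr P hP hA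
  have hQ : ∀ (j : Fin 2 → Fin (4 * N) × Bool) (t : Fin 2),
      P t + sg (j t).2 (A t (j t).1) ≠ 0 := by
    intro j t
    unfold sg
    split_ifs
    · exact (hA t _).1
    · rw [← sub_eq_add_neg]
      exact (hA t _).2
  have hf1 : FS (fun v : AbsoluteValue L ℝ => ∑ b, (D b : ℝ) * Real.log (vn v (P b).xRep)) :=
    FS_sum _ fun b _ => FS_const_mul _ (FS_log_vn (xRep_ne_zero _))
  have hf2 : FS (fun v : AbsoluteValue L ℝ =>
      Real.log (⨆ k, v (evl (fun b => (P b).xRep) (g k)))) := FS_log_iSup hne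
  have hg2 : FS (fun v : AbsoluteValue L ℝ => ∑ j : Fin 2 → Fin (4 * N) × Bool,
      min (Real.log (vn v (P 0 + sg (j 0).2 (A 0 (j 0).1)).xRep))
        (Real.log (vn v (P 1 + sg (j 1).2 (A 1 (j 1).1)).xRep))) :=
    FS_sum _ fun j _ => FS_min (fun t => P t + sg (j t).2 (A t (j t).1)) (hQ j)
  have h1 := gs_le (FS_const_mul 2 (FS_sub hf1 hf2)) (FS_add (FS_CV W N h c) hg2)
    (fun v _ => local_C W V hV v H A c hc hr P hP hA)
  rw [gs_const_mul, gs_sub hf1 hf2, gs_add (FS_CV W N h c) hg2,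
    gs_sum Finset.univ (fun b _ => FS_const_mul _ (FS_log_vn (xRep_ne_zero _))),
    gs_sum Finset.univ (fun j _ => FS_min (fun t => P t + sg (j t).2 (A t (j t).1)) (hQ j)),
    gs_log_iSup hne] at h1
  have h2 : ∀ b, gs (fun v : AbsoluteValue L ℝ => (D b : ℝ) * Real.log (vn v (P b).xRep)) =
      (D b : ℝ) * logHeight (P b).xRep := by
    intro b
    rw [gs_const_mul, gs_log_vn (xRep_ne_zero _)]
  have h3 : ∀ j : Fin 2 → Fin (4 * N) × Bool, gs (fun v : AbsoluteValue L ℝ =>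
      min (Real.log (vn v (P 0 + sg (j 0).2 (A 0 (j 0).1)).xRep))
        (Real.log (vn v (P 1 + sg (j 1).2 (A 1 (j 1).1)).xRep))) =
      hO (fun t => P t + sg (j t).2 (A t (j t).1)) := fun j =>
    (hO_eq_gs (fun t => P t + sg (j t).2 (A t (j t).1)) (hQ j)).symm
  simp only [h2, h3] at h1
  exact h1

end Pool.Agent.Lib.MP_17a322_nt.VJ
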