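import Pool.Agent.Lib.MP_17a322_nt.VJ.E4
import Pool.Agent.Lib.MP_17a322_nt.RV.T0b

/-!
# JOB M6a: translates of a generic point; substitution of constants into one block

* `indep_shift`: proof as in `indep_translate` (RV/T0b). Put `v t = (P t + A t).xRep 0 / (P t + A t).xRep 1` and let `F₀` be the algebraic
  closure in `Ω` of the field generated over `L` by `v 0`, `v 1` (`G5_cl (IntermediateField.adjoin L (Set.range v))`, closed by
  `G5_closed`). The entries of `(P t + A t).xRep` are `(v t, 1)` or `(1, 0)` (`T0b_cases`), so they are in `F₀`; those of `(A t).xRep` are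
  in the image of `L`, hence in `F₀`. `P t = (P t + A t) - A t`: `xRep_zsmul_add_mem` (RO/G1, with `ℓ = -1`, `s = true`) shows that
  `w t` is in `F₀`, i.e. algebraic over the field generated by `v` (`G5_mem_cl`). `indep_of_algebraic` (RV/T0a): `v` is
  algebraically independent, so `v t ≠ 0` and we are in the first case `(P t + A t).xRep = ![v t, 1]`. (The curves for `t = 0, 1` are
  different; everything is done for each `t` separately except for the last step.)
* `substNone`: the polynomial obtained by substituting constants `a 0`, `a 1` for the variables of block `none`.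
  `evl_substNone`: `aeval` of `aeval` (`MvPolynomial.algHom_ext` or `aeval_unique`/`comp_aeval`; both sides are algebra
  homomorphisms in `f`, check on variables). `mh_substNone`: write `f` as the sum of its monomials; a monomial `m` goes to a
  constant times `∏ X (b, i) ^ m (some b, i)`, and `m (some b, 0) + m (some b, 1) = E (some b)` (`H4_weight`, RV/H4, works for any
  block type); `IsWeightedHomogeneous.sum`, `C_mul`, `prod`, or `isWeightedHomogeneous_monomial`.
-/

universe u

namespace Pool.Agent.Lib.MP_17a322_nt.VJ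

open MvPolynomial Height WeierstrassCurve
open Pool.Agent.Lib.MP_17a322_nt.RO Pool.Agent.Lib.MP_17a322_nt.RV

theorem indep_shift {L Ω : Type*} [Field L] [Field Ω] [DecidableEq Ω] [Algebra L Ω]
    (V : Fin 2 → WeierstrassCurve L) [∀ t, (V t).IsElliptic] (w : Fin 2 → Ω)
    (hw : AlgebraicIndependent L w) (P A : ∀ t, ((V t).map (algebraMap L Ω)).toAffine.Point)
    (hP : ∀ t, (P t).xRep = ![w t, 1]) (a : Fin 2 → Fin 2 → L)
    (hA : ∀ t i, (A t).xRep i = algebraMap L Ω (a t i)) :
    ∃ v : Fin 2 → Ω, AlgebraicIndependent L v ∧ ∀ t, (P t + A t).xRep = ![v t, 1] := by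
  set Y : ∀ t, ((V t).map (algebraMap L Ω)).toAffine.Point := fun t => P t + A t with hY
  set v : Fin 2 → Ω := fun t => (Y t).xRep 0 / (Y t).xRep 1 with hv
  set F₀ := G5_cl (IntermediateField.adjoin L (Set.range v)) with hF₀
  have hYm : ∀ t i, (Y t).xRep i ∈ F₀ := by
    intro t i
    rcases T0b_cases (Y t) with ⟨h1, -⟩ | h1
    · rw [h1]
      fin_cases i
      · exact F₀.one_mem
      · exact F₀.zero_mem
    · rw [h1]
      fin_cases i
      · exact G5_le_cl _ _ (IntermediateField.subset_adjoin L _ ⟨t, rfl⟩)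
      · exact F₀.one_mem
  have hAm : ∀ t i, (A t).xRep i ∈ F₀ := by
    intro t i
    rw [hA]
    exact F₀.algebraMap_mem _
  have halg : ∀ t, IsAlgebraic (IntermediateField.adjoin L (Set.range v)) (w t) := by
    intro t
    rw [← G5_mem_cl]
    have h1 := xRep_zsmul_add_mem (V t) F₀ (G5_closed _) (Y t) (A t) (hYm t) (hAm t) (-1) true 0
    have h2 : sg true (Y t) + (-1 : ℤ) • A t = P t := by
      simp only [sg, hY, if_true, neg_smul, one_smul]
      abel
    rw [h2, hP] at h1
    exact h1
  have hind := indep_of_algebraic w v hw halg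
  refine ⟨v, hind, fun t => ?_⟩
  rcases T0b_cases (Y t) with ⟨-, h2⟩ | h1
  · exact absurd h2 (hind.ne_zero t)
  · exact h1

/-- Substitution of constants for the variables of block `none`. -/
noncomputable def substNone {L : Type*} [Field L] (a : Fin 2 → L)
    (f : MvPolynomial (Option (Fin 2) × Fin 2) L) : MvPolynomial (Fin 2 × Fin 2) L :=
  aeval (fun p : Option (Fin 2) × Fin 2 => p.1.elim (C (a p.2)) (fun b => X (b, p.2))) f

theorem evl_substNone {L : Type*} [Field L] (a : Fin 2 → L)
    (f : MvPolynomial (Option (Fin 2) × Fin 2) L) {A : Type*} [CommRing A] [Algebra L A]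
    (z : Fin 2 → Fin 2 → A) :
    evl z (substNone a f) = evl (pv (fun i => algebraMap L A (a i)) z) f := by
  unfold evl substNone
  rw [← AlgHom.comp_apply, comp_aeval]
  congr 2
  funext p
  obtain ⟨o, i⟩ := p
  cases o with
  | none =>
    show aeval (fun p : Fin 2 × Fin 2 => z p.1 p.2) (C (a i)) = algebraMap L A (a i)
    rw [aeval_C]
  | some b =>
    show aeval (fun p : Fin 2 × Fin 2 => z p.1 p.2) (X (b, i)) = z b i
    rw [aeval_X]

theorem mh_substNone {L : Type*} [Field L] (a : Fin 2 → L)
    (f : MvPolynomial (Option (Fin 2) × Fin 2) L) (E : Option (Fin 2) → ℕ) (hf : MH f E) :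
    MH (substNone a f) (fun b => E (some b)) := by
  unfold MH substNone
  rw [aeval_def, eval₂_eq']
  refine IsWeightedHomogeneous.sum _ _ _ fun d hd => ?_
  have hw := N2_weight hf hd
  rw [Fintype.prod_prod_type, Fintype.prod_option]
  have h1 : IsWeightedHomogeneous (bwt (Fin 2) (Fin 2))
      (∏ b, ∏ i, (X (b, i) : MvPolynomial (Fin 2 × Fin 2) L) ^ d (some b, i))
      (∑ b, ∑ i, d (some b, i) • bwt (Fin 2) (Fin 2) (b, i)) :=
    IsWeightedHomogeneous.prod _ _ _ fun b _ => IsWeightedHomogeneous.prod _ _ _ fun i _ =>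
      (isWeightedHomogeneous_X _ _ _).pow _
  have h2 : IsWeightedHomogeneous (bwt (Fin 2) (Fin 2))
      (∏ i, (C (a i) : MvPolynomial (Fin 2 × Fin 2) L) ^ d (none, i)) 0 := by
    have h3 : (∏ i, (C (a i) : MvPolynomial (Fin 2 × Fin 2) L) ^ d (none, i)) =
        C (∏ i, a i ^ d (none, i)) := by
      rw [map_prod]
      refine Finset.prod_congr rfl fun i _ => ?_
      rw [map_pow]
    rw [h3]
    exact isWeightedHomogeneous_C _ _
  have h4 := (isWeightedHomogeneous_C (bwt (Fin 2) (Fin 2)) (coeff d f)).mul (h2.mul h1)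
  have h5 : (0 : Fin 2 → ℕ) + (0 + ∑ b, ∑ i, d (some b, i) • bwt (Fin 2) (Fin 2) (b, i)) =
      fun b => E (some b) := by
    funext b
    rw [zero_add, zero_add, Finset.sum_apply, Finset.sum_eq_single b]
    · rw [← hw (some b)]
      simp [bwt, Fin.sum_univ_two]
    · intro b' _ hb'
      simp [bwt, hb'.symm]
    · intro h
      exact absurd (Finset.mem_univ b) h
  rw [h5] at h4
  exact h4

end Pool.Agent.Lib.MP_17a322_nt.VJ
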