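import Pool.Agent.Lib.MP_17a322_nt.VJ.M6a
import Pool.Agent.Lib.MP_17a322_nt.VJ.E7
import Pool.Agent.Lib.MP_17a322_nt.RC.S1
import Pool.Agent.Lib.MP_17a322_nt.RV.M4b

/-!
# JOB M6b: pulling back a polynomial by a translation

Proof of `exists_pullback`. Let `D t = degreeOf t G`, `g = hom G D` (`mh_hom`, `evl_hom_one`, RO/G3; `g ≠ 0` since its value at
`(x, 1)` is `G`). `exists_sumForms` (RC/S1) for `W = V 0`, `b₀ = 0` and the family `fun _ : Unit => g` gives `g₀ = g' ((), ())`; put
`g₁ = substNone (b 0).xRep g₀`, `MH g₁ (fun c => 2 * D c)` (M6a). For every field `F` over `L` (in `Type u`), points `P`, `A` of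
`(V 0).map (algebraMap L F)` with `A.xRep = image of (b 0).xRep`, and every `z`:
`evl (update z 0 P.xRep) g₁ = γ * (2 * evl (update z 0 (P + A).xRep) g * evl (update z 0 (P - A).xRep) g)`, `γ ≠ 0`. In the same way
`exists_sumForms` for `W = V 1`, `b₀ = 1`, the family `fun _ : Unit => g₁` gives `g₂`, `g₃ = substNone (b 1).xRep g₂`. Put together: for points
`P t` of the two curves over `F` and `A t` above `b t`:
`evl (fun t => (P t).xRep) g₃ = (nonzero) * ∏ of the four values evl ![(P 0 ± A 0).xRep, (P 1 ± A 1).xRep] g` (characteristic zero).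
This is `key` below.
Nonvanishing: `Ω = AlgebraicClosure (FractionRing (MvPolynomial (Fin 2) L))`, `w t` the images of the variables, algebraically
independent over `L`; `P t` affine points with `(P t).xRep = ![w t, 1]` (`exists_affine_point`, E4), `A t` the images of `b t`
(`exists_PB`, E7). By `indep_shift` (M6a) for the four choices of signs of `A t` (the entries of `(-A).xRep = A.xRep` are in `L`),
`(P t ± A t).xRep = ![v t, 1]` with `v` algebraically independent, so the four values are not `0` (`evl_ne_zero_of_indep`, RV/T0a):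
`g₃ ≠ 0`.
`G'` = the dehomogenisation of `g₃` (`M4b_dehom`, RV/M4b). For `F = L` (`map_self`, E4, or `WeierstrassCurve.map_id`):
if the value of `G` at `x(P + b)` is `0` then one of the four values is `0`, so `evl (fun t => (P t).xRep) g₃ = 0`, which is the value
of `G'` (`xRep_eq`).
-/

universe u

namespace Pool.Agent.Lib.MP_17a322_nt.VJ

open MvPolynomial Height WeierstrassCurve
open Pool.Agent.Lib.MP_17a322_nt.RO Pool.Agent.Lib.MP_17a322_nt.RV

theorem M6b_prod {M : Type*} [CommMonoid M] (φ : (Fin 2 → Bool) → M) :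
    ∏ s, φ s = (φ ![true, true] * φ ![true, false]) *
      (φ ![false, true] * φ ![false, false]) := by
  rw [← (finTwoArrowEquiv Bool).symm.prod_comp, Fintype.prod_prod_type, Fintype.prod_bool,
    Fintype.prod_bool, Fintype.prod_bool]
  rfl

theorem M6b_key {L : Type u} [Field L] [CharZero L] (V : Fin 2 → WeierstrassCurve L)
    [∀ t, (V t).IsElliptic] (g : MvPolynomial (Fin 2 × Fin 2) L) (D : Fin 2 → ℕ) (hg : MH g D)
    (a : Fin 2 → Fin 2 → L) :
    ∃ g₃ : MvPolynomial (Fin 2 × Fin 2) L, MH g₃ (fun t => 4 * D t) ∧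
      ∀ (F : Type u) [Field F] [DecidableEq F] [Algebra L F]
        (P A : ∀ t, ((V t).map (algebraMap L F)).toAffine.Point),
        (∀ t i, (A t).xRep i = algebraMap L F (a t i)) →
        ∃ γ : F, γ ≠ 0 ∧ evl (fun t => (P t).xRep) g₃ =
          γ * ∏ s : Fin 2 → Bool, evl (fun t => (P t + sg (s t) (A t)).xRep) g := by
  obtain ⟨g₀', hg₀, e₀⟩ := RC.exists_sumForms (V 0) D (fun _ : Unit => g) (fun _ => hg) (0 : Fin 2)
  have hg₁ : MH (substNone (a 0) (g₀' ((), ()))) (fun b => 2 * D b) :=
    mh_substNone (a 0) _ _ (hg₀ ((), ()))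
  obtain ⟨g₂', hg₂, e₂⟩ := RC.exists_sumForms (V 1) (fun b => 2 * D b)
    (fun _ : Unit => substNone (a 0) (g₀' ((), ()))) (fun _ => hg₁) (1 : Fin 2)
  have hg₃ : MH (substNone (a 1) (g₂' ((), ()))) (fun b => 4 * D b) := by
    have h := mh_substNone (a 1) _ _ (hg₂ ((), ()))
    have h1 : (fun b : Fin 2 => 4 * D b) = fun b => 2 * (2 * D b) := by
      funext b
      ring
    rw [h1]
    exact h
  refine ⟨substNone (a 1) (g₂' ((), ())), hg₃, ?_⟩
  intro F _ _ _ P A hA
  have hA' : ∀ t, (fun i => algebraMap L F (a t i)) = (A t).xRep := fun t =>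
    funext fun i => (hA t i).symm
  have hchar : (2 : F) ≠ 0 := by
    have : CharZero F := charZero_of_injective_algebraMap (algebraMap L F).injective
    exact two_ne_zero
  set z : Fin 2 → Fin 2 → F := fun t => (P t).xRep with hz
  -- the inner step
  have inner : ∀ u : Fin 2 → F, ∃ γ : F, γ ≠ 0 ∧
      evl (Function.update z 1 u) (substNone (a 0) (g₀' ((), ()))) =
        γ * (evl (Function.update (Function.update z 1 u) 0 (P 0 + A 0).xRep) g *
          evl (Function.update (Function.update z 1 u) 0 (P 0 - A 0).xRep) g) := by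
    intro u
    obtain ⟨γ, hγ, h⟩ := e₀ F ((V 0).map (algebraMap L F)) rfl (Function.update z 1 u) (P 0) (A 0)
    have h1 := h () ()
    have h2 : Function.update (Function.update z 1 u) 0 (P 0).xRep = Function.update z 1 u := by
      have h3 : (P 0).xRep = Function.update z 1 u 0 := by
        rw [Function.update_of_ne (by decide)]
      rw [h3, Function.update_eq_self]
    rw [h2] at h1
    refine ⟨γ * 2, mul_ne_zero hγ hchar, ?_⟩
    rw [evl_substNone, hA' 0, h1]
    ring
  obtain ⟨γ, hγ, h⟩ := e₂ F ((V 1).map (algebraMap L F)) rfl z (P 1) (A 1)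
  have h1 := h () ()
  have h2 : Function.update z 1 (P 1).xRep = z := Function.update_eq_self 1 z
  rw [h2] at h1
  obtain ⟨γ₁, hγ₁, i₁⟩ := inner (P 1 + A 1).xRep
  obtain ⟨γ₂, hγ₂, i₂⟩ := inner (P 1 - A 1).xRep
  rw [i₁, i₂] at h1
  have hT : ∀ (s : Fin 2 → Bool) (u v : Fin 2 → F), v = (P 0 + sg (s 0) (A 0)).xRep →
      u = (P 1 + sg (s 1) (A 1)).xRep →
      Function.update (Function.update z 1 u) 0 v = fun t => (P t + sg (s t) (A t)).xRep := by
    intro s u v hv hu
    funext t
    fin_cases t
    · change Function.update (Function.update z 1 u) 0 v 0 = _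
      rw [Function.update_self, hv]
      rfl
    · change Function.update (Function.update z 1 u) 0 v 1 = _
      rw [Function.update_of_ne (by decide), Function.update_self, hu]
      rfl
  have t1 : Function.update (Function.update z 1 (P 1 + A 1).xRep) 0 (P 0 + A 0).xRep =
      fun t => (P t + sg ((![true, true] : Fin 2 → Bool) t) (A t)).xRep := hT _ _ _ rfl rfl
  have t2 : Function.update (Function.update z 1 (P 1 + A 1).xRep) 0 (P 0 - A 0).xRep =
      fun t => (P t + sg ((![false, true] : Fin 2 → Bool) t) (A t)).xRep :=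
    hT _ _ _ (by rw [sub_eq_add_neg]; rfl) rfl
  have t3 : Function.update (Function.update z 1 (P 1 - A 1).xRep) 0 (P 0 + A 0).xRep =
      fun t => (P t + sg ((![true, false] : Fin 2 → Bool) t) (A t)).xRep :=
    hT _ _ _ rfl (by rw [sub_eq_add_neg]; rfl)
  have t4 : Function.update (Function.update z 1 (P 1 - A 1).xRep) 0 (P 0 - A 0).xRep =
      fun t => (P t + sg ((![false, false] : Fin 2 → Bool) t) (A t)).xRep :=
    hT _ _ _ (by rw [sub_eq_add_neg]; rfl) (by rw [sub_eq_add_neg]; rfl)
  rw [t1, t2, t3, t4] at h1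
  refine ⟨γ * γ₁ * γ₂ * 2, mul_ne_zero (mul_ne_zero (mul_ne_zero hγ hγ₁) hγ₂) hchar, ?_⟩
  rw [evl_substNone, hA' 1, h1, M6b_prod]
  ring

theorem exists_pullback {L : Type u} [Field L] [CharZero L] [DecidableEq L]
    (V : Fin 2 → WeierstrassCurve L) [∀ t, (V t).IsElliptic] (G : MvPolynomial (Fin 2) L)
    (hG : G ≠ 0) (b : ∀ t, (V t).toAffine.Point) :
    ∃ G' : MvPolynomial (Fin 2) L, G' ≠ 0 ∧ ∀ P : ∀ t, (V t).toAffine.Point, (∀ t, P t ≠ 0) →
      (∀ t, P t + b t ≠ 0) → eval (fun t => (P t + b t).xRep 0) G = 0 →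
        eval (fun t => (P t).xRep 0) G' = 0 := by
  have hg : MH (hom G (fun t => G.degreeOf t)) (fun t => G.degreeOf t) := mh_hom G _ (fun b => le_rfl)
  have hg0 : hom G (fun t => G.degreeOf t) ≠ 0 := by
    intro h
    have h1 := evl_hom_one G (fun t => G.degreeOf t) (fun t => (X t : MvPolynomial (Fin 2) L))
    rw [h, aeval_X_left_apply] at h1
    apply hG
    rw [← h1]
    unfold evl
    exact map_zero _
  obtain ⟨g₃, hg₃, key⟩ := M6b_key V _ _ hg (fun t => (b t).xRep)
  have hg₃0 : g₃ ≠ 0 := by
    let Ω : Type u := AlgebraicClosure (FractionRing (MvPolynomial (Fin 2) L))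
    let _ : DecidableEq Ω := Classical.decEq _
    let w : Fin 2 → Ω := fun b => algebraMap (MvPolynomial (Fin 2) L) Ω (X b)
    have hinj : Function.Injective (algebraMap (MvPolynomial (Fin 2) L) Ω) := by
      have h1 : algebraMap (MvPolynomial (Fin 2) L) Ω =
          (algebraMap (FractionRing (MvPolynomial (Fin 2) L)) Ω).comp
            (algebraMap (MvPolynomial (Fin 2) L) (FractionRing (MvPolynomial (Fin 2) L))) :=
        IsScalarTower.algebraMap_eq _ _ _
      rw [h1]
      exact (algebraMap (FractionRing (MvPolynomial (Fin 2) L)) Ω).injective.comp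
        (IsFractionRing.injective (MvPolynomial (Fin 2) L) (FractionRing (MvPolynomial (Fin 2) L)))
    have hw : AlgebraicIndependent L w := by
      have h1 : AlgebraicIndependent L (X : Fin 2 → MvPolynomial (Fin 2) L) :=
        algebraicIndependent_X (Fin 2) L
      exact h1.map' (f := IsScalarTower.toAlgHom L (MvPolynomial (Fin 2) L) Ω) hinj
    choose P hP0 hP using fun t => exists_affine_point ((V t).map (algebraMap L Ω)) (w t)
    choose f hf using fun t => exists_PB (V t) ((V t).map (algebraMap L Ω)) rfl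
    obtain ⟨γ, hγ, hv⟩ := key Ω P (fun t => f t (b t)) (fun t i => hf t (b t) i)
    intro hzero
    rw [hzero] at hv
    have h1 : evl (fun t => (P t).xRep) (0 : MvPolynomial (Fin 2 × Fin 2) L) = 0 := by
      unfold evl
      exact map_zero _
    rw [h1] at hv
    refine mul_ne_zero hγ (Finset.prod_ne_zero_iff.2 fun s _ => ?_) hv.symm
    obtain ⟨v, hvi, hv'⟩ := indep_shift V w hw P (fun t => sg (s t) (f t (b t))) hP
      (fun t => (b t).xRep) (fun t i => by
        have h2 : (sg (s t) (f t (b t))).xRep = (f t (b t)).xRep := by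
          unfold sg
          split_ifs
          · rfl
          · exact xRep_neg _
        rw [h2]
        exact hf t (b t) i)
    rw [show (fun t => (P t + sg (s t) (f t (b t))).xRep) = fun t => ![v t, 1] from funext hv']
    exact evl_ne_zero_of_indep _ _ hg hg0 v hvi
  obtain ⟨G', hG'0, hG'⟩ := M4b_dehom _ g₃ hg₃ hg₃0
  refine ⟨G', hG'0, ?_⟩
  intro P hP hPb hGP
  choose f hf using fun t => exists_PB (V t) ((V t).map (algebraMap L L)) rfl
  have hx : ∀ t (Q : (V t).toAffine.Point), (f t Q).xRep = Q.xRep := by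
    intro t Q
    funext i
    exact hf t Q i
  obtain ⟨γ, hγ, hv⟩ := key L (fun t => f t (P t)) (fun t => f t (b t)) (fun t i => hf t (b t) i)
  have h0 : evl (fun t => (f t (P t) + sg true (f t (b t))).xRep)
      (hom G (fun t => G.degreeOf t)) = 0 := by
    have h1 : (fun t => (f t (P t) + sg true (f t (b t))).xRep) =
        fun t => ![(P t + b t).xRep 0, 1] := by
      funext t
      rw [← xRep_eq (hPb t), ← hx t (P t + b t), map_add]
      rfl
    rw [h1, evl_hom_one, ← hGP]
    exact DFunLike.congr_fun (MvPolynomial.coe_aeval_eq_eval _) _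
  have h2 : evl (fun t => (f t (P t)).xRep) g₃ = 0 := by
    rw [hv, Finset.prod_eq_zero (Finset.mem_univ (fun _ => true)) h0, mul_zero]
  have h3 := hG' L (fun t => (P t).xRep 0)
  have h4 : (fun t => (f t (P t)).xRep) = fun t => ![(P t).xRep 0, 1] := by
    funext t
    rw [← xRep_eq (hP t), hx t (P t)]
  rw [← h4, h2] at h3
  rw [← h3]
  exact (DFunLike.congr_fun (MvPolynomial.coe_aeval_eq_eval _) _).symm

end Pool.Agent.Lib.MP_17a322_nt.VJ
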