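import Pool.Agent.Lib.MP_17a322_nt.VJ.E4
import Pool.Agent.Lib.MP_17a322_nt.RO.G4

/-!
# JOB M7: from an extension back to the field, exceptional polynomials, dimension zero

* `exists_poly_below`: let `c = coeff m G ≠ 0`; there is a `K`-linear `φ : L → K` with `φ c ≠ 0` (`L` is a vector space over `K`:
  `Module.exists_dual_forall_apply_eq_zero_iff`-like, `exists_dual_map_eq_bot`... or a basis through `c`:
  `Module.forall_dual_apply_eq_zero_iff K`). Put `G₀ = ∑ m ∈ G.support, monomial m (φ (coeff m G))`: `coeff m G₀ = φ c ≠ 0`. For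
  `x : σ → K`: `eval x G₀ = φ (eval (algebraMap x) G)` because `φ (a * algebraMap y) = φ a * y` (`Algebra.smul_def`,
  `MvPolynomial.eval_eq'` or `eval_eq`), so it vanishes.
* `exists_avoid`: `G = ∏ t, ∏ i, (if A t i = 0 then 1 else X t - C ((A t i).xRep 0))`. Each factor is not zero
  (`X t - C a ≠ 0`: its value at `a + 1` is `1`). If `P t ≠ 0` and `P t + A t i = 0` or `P t - A t i = 0` then `P t = ± A t i`, so
  `A t i ≠ 0` and `(P t).xRep 0 = (A t i).xRep 0` (`xRep_neg`), and one factor vanishes.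
* `dimLT_one`: take `t = ∅` in the definition of `DimLT` (RV/Defs): `IntermediateField.adjoin K ∅ = ⊥`, and an element algebraic over
  `K` is algebraic over `⊥` (`IsAlgebraic.tower_top` or `IsAlgebraic.extendScalars`). The value of `hom (g k) d` at `z` is the sum in the
  hypothesis (`G4_evl_hom`, RO/G4; compare `dimLT_of_trdeg` in RV/M4a).
-/

universe u

namespace Pool.Agent.Lib.MP_17a322_nt.VJ

open MvPolynomial Height
open Pool.Agent.Lib.MP_17a322_nt.RO Pool.Agent.Lib.MP_17a322_nt.RV

theorem exists_poly_below {K L : Type*} [Field K] [Field L] [Algebra K L] {σ : Type*}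
    (G : MvPolynomial σ L) (hG : G ≠ 0) :
    ∃ G₀ : MvPolynomial σ K, G₀ ≠ 0 ∧
      ∀ x : σ → K, eval (fun t => algebraMap K L (x t)) G = 0 → eval x G₀ = 0 := by
  classical
  obtain ⟨m, hm⟩ := MvPolynomial.ne_zero_iff.1 hG
  obtain ⟨φ, hφ⟩ : ∃ φ : Module.Dual K L, φ (coeff m G) ≠ 0 := by
    by_contra h
    push Not at h
    exact hm ((Module.forall_dual_apply_eq_zero_iff K _).1 h)
  have hc : ∀ (c : L) (a : K), φ (c * algebraMap K L a) = φ c * a := by
    intro c a
    rw [mul_comm, ← Algebra.smul_def, map_smul, smul_eq_mul, mul_comm]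
  refine ⟨∑ m ∈ G.support, monomial m (φ (coeff m G)), ?_, ?_⟩
  · intro h0
    have h1 := congrArg (coeff m) h0
    rw [coeff_sum, coeff_zero] at h1
    simp only [coeff_monomial] at h1
    rw [Finset.sum_ite_eq' , if_pos (mem_support_iff.2 hm)] at h1
    exact hφ h1
  · intro x hx
    rw [eval_eq] at hx
    have h1 := congrArg φ hx
    rw [map_zero, map_sum] at h1
    rw [map_sum]
    rw [← h1]
    refine Finset.sum_congr rfl fun d _ => ?_
    rw [eval_monomial]
    have h2 : ∏ i ∈ d.support, algebraMap K L (x i) ^ d i =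
        algebraMap K L (∏ i ∈ d.support, x i ^ d i) := by
      rw [map_prod]
      exact Finset.prod_congr rfl fun i _ => (map_pow _ _ _).symm
    rw [h2, hc]
    rfl

theorem exists_avoid {L : Type*} [Field L] [DecidableEq L] (V : Fin 2 → WeierstrassCurve L)
    {n : ℕ} (A : ∀ t, Fin n → (V t).toAffine.Point) :
    ∃ G : MvPolynomial (Fin 2) L, G ≠ 0 ∧ ∀ P : ∀ t, (V t).toAffine.Point, (∀ t, P t ≠ 0) →
      eval (fun t => (P t).xRep 0) G ≠ 0 → ∀ t i, P t + A t i ≠ 0 ∧ P t - A t i ≠ 0 := by
  classical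
  have hne : ∀ (t : Fin 2) (a : L), (X t - C a : MvPolynomial (Fin 2) L) ≠ 0 := by
    intro t a h
    have h1 := congrArg (eval (fun _ => a + 1)) h
    rw [map_sub, eval_X, eval_C, map_zero, add_sub_cancel_left] at h1
    exact one_ne_zero h1
  refine ⟨∏ t, ∏ i, (if A t i = 0 then 1 else X t - C ((A t i).xRep 0)), ?_, ?_⟩
  · refine Finset.prod_ne_zero_iff.2 fun t _ => Finset.prod_ne_zero_iff.2 fun i _ => ?_
    split_ifs
    · exact one_ne_zero
    · exact hne _ _
  · intro P hP hG
    have key : ∀ t i, P t = A t i ∨ P t = - A t i → False := by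
      intro t i h
      have hA : A t i ≠ 0 := by
        intro h0
        rw [h0, neg_zero, or_self] at h
        exact hP t h
      have hx : (P t).xRep 0 = (A t i).xRep 0 := by
        rcases h with h | h
        · rw [h]
        · rw [h, xRep_neg]
      apply hG
      rw [map_prod]
      refine Finset.prod_eq_zero (Finset.mem_univ t) ?_
      rw [map_prod]
      refine Finset.prod_eq_zero (Finset.mem_univ i) ?_
      rw [if_neg hA, map_sub, eval_X, eval_C, hx, sub_self]
    intro t i
    exact ⟨fun h => key t i (Or.inr (eq_neg_of_add_eq_zero_left h)),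
      fun h => key t i (Or.inl (sub_eq_zero.1 h))⟩

theorem dimLT_one {K : Type u} [Field K] (m : ℕ) (g : Fin m → MvPolynomial (Fin 2) K)
    (d : Fin 2 → ℕ)
    (hY : ∀ (F : Type u) [Field F] [Algebra K F] (X Z : Fin 2 → F),
      (∀ i, X i ≠ 0 ∨ Z i ≠ 0) →
      (∀ k, ∑ e ∈ (g k).support, algebraMap K F ((g k).coeff e) *
        ∏ i, (X i ^ e i * Z i ^ (d i - e i)) = 0) → ∀ i, IsAlgebraic K (X i / Z i)) :
    DimLT (fun k => hom (g k) d) 1 := by
  intro F _ _ _ z hz hg
  have hX : ∀ i, z i 0 ≠ 0 ∨ z i 1 ≠ 0 := by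
    intro i
    by_contra hcon
    rw [not_or, not_not, not_not] at hcon
    refine hz i (funext fun j => ?_)
    fin_cases j
    · exact hcon.1
    · exact hcon.2
  have h1 := hY F (fun i => z i 0) (fun i => z i 1) hX (fun k => by
    have h := hg k
    rw [G4_evl_hom] at h
    exact h)
  exact ⟨∅, by simp, fun b => (h1 b).tower_top _⟩

end Pool.Agent.Lib.MP_17a322_nt.VJ
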