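import Pool.Agent.Lib.MP_17a322_nt.VJ.M1
import Pool.Agent.Lib.MP_17a322_nt.VJ.M2
import Pool.Agent.Lib.MP_17a322_nt.VJ.M5
import Pool.Agent.Lib.MP_17a322_nt.VJ.M6b
import Pool.Agent.Lib.MP_17a322_nt.VJ.M7
import Pool.Agent.Lib.MP_17a322_nt.VJ.IF_E
import Pool.Agent.Lib.MP_17a322_nt.VJ.E6

/-!
# JOB M8: reduction of an arbitrary finite set to the origin

* `exists_data`: `exists_elim` (M1) and `choose` give `ElimData D g N r h`; `exists_roots` (M2) with `n = 4 * N`.
* `M8_bound`: let `J = Fin 2 → Fin (4 * N) × Bool`, `b j t = sg (j t).2 (A t (j t).1)`. `Γ' t = (Γ t).map (f t) ⊔ AddSubgroup.closure (Set.range (A t))`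
  is finitely generated (`AddSubgroup.FG` of a map and of a supremum; closure of a finite set). `T_O` over `L` for `V`, `Γ'`,
  `ε' = ε / (card J + 1)` gives `G₁ ≠ 0`, `C₁`. For each `j` let `G j` be the pullback of `G₁` by `b j` (`exists_pullback`, M6b), and let
  `G₂` be the polynomial of `exists_avoid` (M7). `G = G₂ * ∏ j, G j`. Let `P` be affine points of `Γ t` with `G (x(f P)) ≠ 0` (we write `P'` for
  `f P`). By `exists_avoid` all `P' t ± A t i ≠ 0`, hence `P' t + b j t ≠ 0`, so `M5_global` (M5) applies, and by `exists_pullback`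
  (contraposition) `G₁` does not vanish at `x(P' + b j)`; `P' t + b j t ∈ Γ' t`, so by `T_O`
  `hO (P' + b j) ≤ ε' * HH (P' + b j) + C₁ ≤ ε' * (2 * HH P' + C₃) + C₁`, `C₃` an upper bound for
  `∑ t, (2 * logHeight (b j t).xRep + C_t * finrank ℚ L)` (second part of `height_unif`, E6, with `hV`). Sum over `J`:
  `2 * (..) ≤ C + card J * ε' * 2 * HH P' + ..`, and `card J * ε' ≤ ε`.
* `mainV`: `exists_data`, `exists_PB` (E7) for the maps `f t`; `M8_bound`; `exists_poly_below` (M7) gives `G₀` over `K`: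
  if `G₀` does not vanish at `x(P)` then `G` does not vanish at `x(f P) = algebraMap (x(P))` (`PB`). Heights over `L` are `[L : K]` times
  the heights over `K`: `PB.logHeight` (E7), and `logHeight_algebraMap` (RV/U1) for the vector of the values of the forms `g k`
  (`evl` at `f P` is the image of `evl` at `P`: `MvPolynomial.aeval_algebraMap_apply`). Divide by `2 * [L : K]`; the constant is
  `C / (2 [L : K])`; `HH (f P) = [L : K] * HH P`.
-/

universe u

namespace Pool.Agent.Lib.MP_17a322_nt.VJ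

open MvPolynomial Height WeierstrassCurve
open Pool.Agent.Lib.MP_17a322_nt.RO Pool.Agent.Lib.MP_17a322_nt.RV

theorem M8_HH_nonneg {K : Type*} [Field K] [Height.AdmissibleAbsValues K]
    {W : Fin 2 → WeierstrassCurve K} (P : ∀ t, (W t).toAffine.Point) : 0 ≤ HH P :=
  Finset.sum_nonneg fun t _ => logHeight_xRep_nonneg (P t)

theorem M8_fg_map {G H : Type*} [AddGroup G] [AddGroup H] (f : G →+ H) {Γ : AddSubgroup G}
    (hΓ : Γ.FG) : (Γ.map f).FG := by
  classical
  obtain ⟨s, hs⟩ := hΓ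
  refine ⟨s.image f, ?_⟩
  rw [Finset.coe_image, ← hs, AddMonoidHom.map_closure]

theorem M8_fg {G H : Type*} [AddGroup G] [AddGroup H] (f : G →+ H) {Γ : AddSubgroup G}
    (hΓ : Γ.FG) {n : ℕ} (A : Fin n → H) :
    (Γ.map f ⊔ AddSubgroup.closure (Set.range A)).FG := by
  classical
  refine AddSubgroup.FG.sup (M8_fg_map f hΓ) ⟨Finset.univ.image A, ?_⟩
  rw [Finset.coe_image, Finset.coe_univ, Set.image_univ]

theorem exists_data {K : Type u} [Field K] [NumberField K] (W : Fin 2 → WeierstrassCurve K)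
    [∀ t, (W t).IsElliptic] {κ : Type} [Fintype κ] (D : Fin 2 → ℕ)
    (g : κ → MvPolynomial (Fin 2 × Fin 2) K) (hg : ∀ k, MH (g k) D) (hdim : DimLT g 1) :
    ∃ (N : ℕ) (r : Fin 2 → MvPolynomial (Fin 2 × Fin 2) K)
      (h : Fin 2 → (Fin 2 → Fin 2) → κ → MvPolynomial (Fin 2 × Fin 2) K)
      (L : Type u) (_ : Field L) (_ : NumberField L) (_ : DecidableEq L) (_ : Algebra K L)
      (V : Fin 2 → WeierstrassCurve L) (A : ∀ t, Fin (4 * N) → (V t).toAffine.Point)
      (c : Fin 2 → L), ElimData D g N r h ∧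
      (∀ t, (W t).map (algebraMap K L) = V t) ∧ (∀ t, c t ≠ 0) ∧
        ∀ (t : Fin 2) (x : Fin 2 → L),
          evl (fun b => ![x b, 1]) (r t) = c t * ∏ i, wd (A t i).xRep ![x t, 1] := by
  obtain ⟨N, hN, h1⟩ := exists_elim D g hg hdim
  choose r hr0 hrMH hτ using h1
  choose h hh hrel using hτ
  obtain ⟨L, i₁, i₂, i₃, i₄, V, A, c, hV, hc, hr⟩ := exists_roots W (4 * N) r hr0 hrMH
  exact ⟨N, r, h, L, i₁, i₂, i₃, i₄, V, A, c, ⟨hN, hg, hr0, hrMH, hh, hrel⟩, hV, hc, hr⟩

theorem M8_bound {K : Type u} [Field K] [NumberField K] [DecidableEq K]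
    (W : Fin 2 → WeierstrassCurve K)
    [∀ t, (W t).IsElliptic] {L : Type u} [Field L] [NumberField L] [DecidableEq L] [Algebra K L]
    (V : Fin 2 → WeierstrassCurve L) (hV : ∀ t, (W t).map (algebraMap K L) = V t)
    {κ : Type} [Fintype κ] {D : Fin 2 → ℕ} {g : κ → MvPolynomial (Fin 2 × Fin 2) K} {N : ℕ}
    {r : Fin 2 → MvPolynomial (Fin 2 × Fin 2) K}
    {h : Fin 2 → (Fin 2 → Fin 2) → κ → MvPolynomial (Fin 2 × Fin 2) K}
    (H : ElimData D g N r h) (A : ∀ t, Fin (4 * N) → (V t).toAffine.Point) (c : Fin 2 → L)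
    (hc : ∀ t, c t ≠ 0)
    (hr : ∀ (t : Fin 2) (x : Fin 2 → L),
      evl (fun b => ![x b, 1]) (r t) = c t * ∏ i, wd (A t i).xRep ![x t, 1])
    (f : ∀ t, (W t).toAffine.Point →+ (V t).toAffine.Point)
    (Γ : ∀ t, AddSubgroup (W t).toAffine.Point) (hΓ : ∀ t, (Γ t).FG) (ε : ℝ) (hε : 0 < ε) :
    ∃ (G : MvPolynomial (Fin 2) L) (C : ℝ), G ≠ 0 ∧
      ∀ P : ∀ t, (W t).toAffine.Point, (∀ t, P t ∈ Γ t) → (∀ t, f t (P t) ≠ 0) →
        eval (fun t => (f t (P t)).xRep 0) G ≠ 0 →
        2 * (∑ b, (D b : ℝ) * logHeight (f b (P b)).xRep -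
          logHeight (fun k => evl (fun b => (f b (P b)).xRep) (g k))) ≤
          2 * ε * HH (fun t => f t (P t)) + C := by
  have hell : ∀ t, (V t).IsElliptic := fun t => by
    rw [← hV t]
    infer_instance
  set ε' : ℝ := ε / (Fintype.card (Fin 2 → Fin (4 * N) × Bool) + 1) with hε'
  have hε'0 : 0 < ε' := by positivity
  set b : (Fin 2 → Fin (4 * N) × Bool) → ∀ t, (V t).toAffine.Point :=
    fun j t => sg (j t).2 (A t (j t).1) with hb
  obtain ⟨G₁, C₁, hG₁, hT⟩ := T_O V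
    (fun t => (Γ t).map (f t) ⊔ AddSubgroup.closure (Set.range (A t)))
    (fun t => M8_fg (f t) (hΓ t) (A t)) ε' hε'0
  choose Gj hGj0 hGj using fun j => exists_pullback V G₁ hG₁ (b j)
  obtain ⟨G₂, hG₂, hav⟩ := exists_avoid V A
  obtain ⟨C₀, hglob⟩ := M5_global W V hV H A c hc hr
  choose Cu hCu0 hCu using fun t => height_unif (W t)
  refine ⟨G₂ * ∏ j, Gj j, C₀ + ∑ j : Fin 2 → Fin (4 * N) × Bool, (ε' * (∑ t,
    (2 * logHeight (b j t).xRep + Cu t * Module.finrank ℚ L)) + C₁),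
    mul_ne_zero hG₂ (Finset.prod_ne_zero_iff.2 fun j _ => hGj0 j), ?_⟩
  intro P hPΓ hP hne
  rw [map_mul, map_prod] at hne
  have hne2 : eval (fun t => (f t (P t)).xRep 0) G₂ ≠ 0 := left_ne_zero_of_mul hne
  have hnej : ∀ j, eval (fun t => (f t (P t)).xRep 0) (Gj j) ≠ 0 := fun j =>
    Finset.prod_ne_zero_iff.1 (right_ne_zero_of_mul hne) j (Finset.mem_univ j)
  have h1 := hav (fun t => f t (P t)) hP hne2
  have hbne : ∀ j t, f t (P t) + b j t ≠ 0 := by
    intro j t
    have h2 := h1 t (j t).1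
    rw [hb]
    show f t (P t) + sg (j t).2 (A t (j t).1) ≠ 0
    unfold sg
    split_ifs
    · exact h2.1
    · rw [← sub_eq_add_neg]
      exact h2.2
  have hmem : ∀ j t, f t (P t) + b j t ∈
      (Γ t).map (f t) ⊔ AddSubgroup.closure (Set.range (A t)) := by
    intro j t
    refine add_mem (AddSubgroup.mem_sup_left (AddSubgroup.mem_map_of_mem _ (hPΓ t)))
      (AddSubgroup.mem_sup_right ?_)
    have h2 : A t (j t).1 ∈ AddSubgroup.closure (Set.range (A t)) :=
      AddSubgroup.subset_closure ⟨_, rfl⟩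
    rw [hb]
    show sg (j t).2 (A t (j t).1) ∈ _
    unfold sg
    split_ifs
    · exact h2
    · exact neg_mem h2
  have hval : ∀ j, eval (fun t => (f t (P t) + b j t).xRep 0) G₁ ≠ 0 := fun j h0 =>
    hnej j (hGj j (fun t => f t (P t)) hP (hbne j) h0)
  have hhO : ∀ j, hO (fun t => f t (P t) + b j t) ≤
      ε' * (2 * HH (fun t => f t (P t))) + (ε' * (∑ t,
      (2 * logHeight (b j t).xRep + Cu t * Module.finrank ℚ L)) + C₁) := by
    intro j
    have h2 := hT (fun t => f t (P t) + b j t) (hmem j) (hbne j) (hval j)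
    have h3 : HH (fun t => f t (P t) + b j t) ≤ 2 * HH (fun t => f t (P t)) +
        ∑ t, (2 * logHeight (b j t).xRep + Cu t * Module.finrank ℚ L) := by
      unfold HH
      rw [Finset.mul_sum, ← Finset.sum_add_distrib]
      refine Finset.sum_le_sum fun t _ => ?_
      have h4 := (hCu t L (V t) (hV t)).2.1 (f t (P t)) (b j t)
      linarith
    have h5 := mul_le_mul_of_nonneg_left h3 hε'0.le
    linarith
  have h2 := hglob (fun t => f t (P t)) hP h1
  have h3 : ∑ j : Fin 2 → Fin (4 * N) × Bool,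
      hO (fun t => f t (P t) + sg (j t).2 (A t (j t).1)) ≤
      ∑ j : Fin 2 → Fin (4 * N) × Bool, (ε' * (2 * HH (fun t => f t (P t))) + (ε' * (∑ t,
      (2 * logHeight (b j t).xRep + Cu t * Module.finrank ℚ L)) + C₁)) :=
    Finset.sum_le_sum fun j _ => hhO j
  rw [Finset.sum_add_distrib, Finset.sum_const, Finset.card_univ, nsmul_eq_mul] at h3
  have h4 : (Fintype.card (Fin 2 → Fin (4 * N) × Bool) : ℝ) * (ε' * (2 * HH (fun t => f t (P t))))
      ≤ 2 * ε * HH (fun t => f t (P t)) := by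
    have h5 : (Fintype.card (Fin 2 → Fin (4 * N) × Bool) : ℝ) * ε' ≤ ε := by
      rw [hε', mul_div_assoc', div_le_iff₀ (by positivity)]
      nlinarith
    have h6 := M8_HH_nonneg (fun t => f t (P t))
    nlinarith
  linarith

/-- Section 12: an arbitrary finite set. -/
theorem mainV {K : Type u} [Field K] [NumberField K] [DecidableEq K]
    (W : Fin 2 → WeierstrassCurve K) [∀ t, (W t).IsElliptic]
    (Γ : ∀ t, AddSubgroup (W t).toAffine.Point) (hΓ : ∀ t, (Γ t).FG)
    {κ : Type} [Fintype κ] (D : Fin 2 → ℕ)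
    (g : κ → MvPolynomial (Fin 2 × Fin 2) K) (hg : ∀ k, MH (g k) D) (hdim : DimLT g 1)
    (ε : ℝ) (hε : 0 < ε) :
    ∃ (G : MvPolynomial (Fin 2) K) (C : ℝ), G ≠ 0 ∧
      ∀ P : ∀ t, (W t).toAffine.Point, (∀ t, P t ∈ Γ t) → (∀ t, P t ≠ 0) →
        eval (fun t => (P t).xRep 0) G ≠ 0 →
        ∑ b, (D b : ℝ) * logHeight (P b).xRep -
          logHeight (fun k => evl (fun b => (P b).xRep) (g k)) ≤ ε * HH P + C := by
  obtain ⟨N, r, h, L, i₁, i₂, i₃, i₄, V, A, c, H, hV, hc, hr⟩ := exists_data W D g hg hdim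
  choose f hf using fun t => exists_PB (W t) (V t) (hV t)
  obtain ⟨G, C, hG, hB⟩ := M8_bound W V hV H A c hc hr f Γ hΓ ε hε
  obtain ⟨G₀, hG₀, hGx⟩ := exists_poly_below (K := K) G hG
  have hd : (0 : ℝ) < Module.finrank K L := by
    have : Module.Finite K L := Module.Finite.of_restrictScalars_finite ℚ K L
    exact_mod_cast Module.finrank_pos
  refine ⟨G₀, C / (2 * Module.finrank K L), hG₀, ?_⟩
  intro P hPΓ hP hne
  have hx : (fun t => (f t (P t)).xRep 0) = fun t => algebraMap K L ((P t).xRep 0) :=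
    funext fun t => hf t (P t) 0
  have h1 := hB P hPΓ (fun t h => hP t (((hf t).eq_zero (P t)).1 h))
    (by rw [hx]; exact fun h0 => hne (hGx _ h0))
  have h2 : HH (fun t => f t (P t)) = Module.finrank K L * HH P := by
    unfold HH
    rw [Finset.mul_sum]
    exact Finset.sum_congr rfl fun t _ => (hf t).logHeight (P t)
  have h3 : logHeight (fun k => evl (fun b => (f b (P b)).xRep) (g k)) =
      Module.finrank K L * logHeight (fun k => evl (fun b => (P b).xRep) (g k)) := by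
    rw [← RV.logHeight_algebraMap]
    congr 1
    funext k
    unfold evl
    rw [← MvPolynomial.aeval_algebraMap_apply]
    congr 2
    funext p
    exact hf p.1 (P p.1) p.2
  have h4 : ∑ b, (D b : ℝ) * logHeight (f b (P b)).xRep =
      Module.finrank K L * ∑ b, (D b : ℝ) * logHeight (P b).xRep := by
    rw [Finset.mul_sum]
    refine Finset.sum_congr rfl fun t _ => ?_
    rw [(hf t).logHeight (P t)]
    ring
  rw [h2, h3, h4] at h1
  rw [← sub_le_iff_le_add', le_div_iff₀ (by positivity)]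
  linarith

end Pool.Agent.Lib.MP_17a322_nt.VJ
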