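import Pool.Agent.Lib.MP_17a322_nt.VJ.M8

/-!
# JOB M9: the final statement

Proof: `mainV` (M8) for the forms `fun k => hom (g k) d` (`mh_hom`, RO/G3, `dimLT_one`, M7). For the point
`P t = Affine.Point.some (x t) (y t) (h t)` one has `(P t).xRep = ![x t, 1]` (`Affine.Point.xRep_some`),
`logHeight ![x, 1] = logHeight₁ x` (`logHeight₁_eq_logHeight`), `evl_hom_one` (RO/G3), `P t ≠ 0`
(`Affine.Point.some_ne_zero` or by cases), `HH P = ∑ t, logHeight₁ (x t)`. Compare RC/M4b, RV/M4b.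
-/

universe u

namespace Pool.Agent.Lib.MP_17a322_nt.VJ

open MvPolynomial Height WeierstrassCurve
open Pool.Agent.Lib.MP_17a322_nt.RO Pool.Agent.Lib.MP_17a322_nt.RV

theorem finalV {K : Type u} [Field K] [NumberField K] [DecidableEq K]
    (W : Fin 2 → WeierstrassCurve K) [∀ t, (W t).IsElliptic]
    (Γ : ∀ t, AddSubgroup (W t).toAffine.Point) (hΓ : ∀ t, (Γ t).FG)
    (m : ℕ) (g : Fin m → MvPolynomial (Fin 2) K) (d : Fin 2 → ℕ)
    (hd : ∀ k i, (g k).degreeOf i ≤ d i)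
    (hY : ∀ (F : Type u) [Field F] [Algebra K F] (X Z : Fin 2 → F),
      (∀ i, X i ≠ 0 ∨ Z i ≠ 0) →
      (∀ k, ∑ e ∈ (g k).support, algebraMap K F ((g k).coeff e) *
        ∏ i, (X i ^ e i * Z i ^ (d i - e i)) = 0) → ∀ i, IsAlgebraic K (X i / Z i))
    (ε : ℝ) (hε : 0 < ε) :
    ∃ (G : MvPolynomial (Fin 2) K) (C : ℝ), G ≠ 0 ∧
      ∀ (x y : Fin 2 → K) (h : ∀ t, (W t).toAffine.Nonsingular (x t) (y t)),
        (∀ t, Affine.Point.some (x t) (y t) (h t) ∈ Γ t) → eval x G ≠ 0 →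
          ∑ i, (d i : ℝ) * logHeight₁ (x i) - logHeight (fun k => eval x (g k)) ≤
            ε * ∑ i, logHeight₁ (x i) + C := by
  obtain ⟨G, C, hG, h1⟩ := mainV W Γ hΓ d (fun k => hom (g k) d)
    (fun k => mh_hom (g k) d (hd k)) (dimLT_one m g d hY) ε hε
  refine ⟨G, C, hG, ?_⟩
  intro x y h hΓm hGx
  have h7 : ∀ t, (Affine.Point.some (x t) (y t) (h t) : (W t).toAffine.Point).xRep =
      ![x t, 1] := fun t => Affine.Point.xRep_some ..
  have h8 := h1 (fun t => Affine.Point.some (x t) (y t) (h t)) hΓm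
    (fun t => Affine.Point.some_ne_zero (h t))
  unfold HH at h8
  simp only [h7, evl_hom_one, ← logHeight₁_eq_logHeight] at h8
  exact h8 hGx

end Pool.Agent.Lib.MP_17a322_nt.VJ
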