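import Pool.Agent.Lib.MP_17a322_nt.VJ.E4

/-!
Mordell-Weil, part 1: halving points on a curve with rational points of order two.
-/

universe u

namespace Pool.Agent.Lib.MP_17a322_nt.VJ

open Pool.Agent.Lib.MP_17a322_nt.RO

/-- `4 X^3 + b₂ X^2 + 2 b₄ X + b₆ = 4 (X - e 0) (X - e 1) (X - e 2)`. -/
def FT {L : Type*} [Field L] (V : WeierstrassCurve L) (e : Fin 3 → L) : Prop :=
  V.b₂ = -4 * (e 0 + e 1 + e 2) ∧ 2 * V.b₄ = 4 * (e 0 * e 1 + e 0 * e 2 + e 1 * e 2) ∧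
    V.b₆ = -4 * (e 0 * e 1 * e 2)

section

variable {L : Type*} [Field L] [CharZero L] [DecidableEq L] {V : WeierstrassCurve L} {e : Fin 3 → L}

/-- `((2 y + a₁ x + a₃) / 2)^2 = ∏ (x - e i)`. -/
theorem FT.exists_sq (h : FT V e) (P : V.toAffine.Point) (hP : P ≠ 0) :
    ∃ η : L, η ^ 2 = ∏ i, (P.xRep 0 - e i) := by
  obtain ⟨h2, h4, h6⟩ := h
  cases P with
  | zero => exact absurd rfl hP
  | some x y hxy =>
    have hN := (WeierstrassCurve.Affine.equation_iff _ _).1 hxy.1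
    refine ⟨(2 * y + V.a₁ * x + V.a₃) / 2, ?_⟩
    rw [WeierstrassCurve.Affine.Point.xRep_some, Fin.prod_univ_three]
    simp only [Matrix.cons_val_zero]
    simp only [WeierstrassCurve.b₂, WeierstrassCurve.b₄, WeierstrassCurve.b₆] at h2 h4 h6
    have h2' : (4 : L) ≠ 0 := by norm_num
    have key : (4 : L) * ((2 * y + V.a₁ * x + V.a₃) / 2) ^ 2 = 4 * ((x - e 0) * (x - e 1) * (x - e 2)) := by
      have h3 : (4 : L) * ((2 * y + V.a₁ * x + V.a₃) / 2) ^ 2 = (2 * y + V.a₁ * x + V.a₃) ^ 2 := by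
        field_simp
        norm_num
      rw [h3]
      linear_combination 4 * hN + x ^ 2 * h2 + x * h4 + h6
    exact mul_left_cancel₀ h2' key

/-- Addition. Proof. `P = (x₁, y₁)`, `Q = (x₂, y₂)`, not opposite (`P + Q ≠ 0`), `ℓ = slope`. Evaluate
`WeierstrassCurve.Affine.addPolynomial_slope` at `X = e i`: the left side is
`Y^2 + a₁ e Y + a₃ Y - (e^3 + a₂ e^2 + a₄ e + a₆)` at `Y = ℓ (e - x₁) + y₁` (unfold `addPolynomial`,
`linePolynomial`, `polynomial`, `eval`), which is `(Y + (a₁ e + a₃)/2)^2` because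
`4 e^3 + b₂ e^2 + 2 b₄ e + b₆ = 0`; the right side is `-(e - x₁)(e - x₂)(e - x₃) = (x₁ - e)(x₂ - e)(x₃ - e)`,
`x₃ = x(P + Q)` (`Affine.Point.add_some` or `add_of_..`). -/
theorem FT.add_isSquare (h : FT V e) (P Q : V.toAffine.Point) (hP : P ≠ 0) (hQ : Q ≠ 0)
    (hPQ : P + Q ≠ 0) (i : Fin 3) :
    IsSquare ((P.xRep 0 - e i) * (Q.xRep 0 - e i) * ((P + Q).xRep 0 - e i)) := by
  obtain ⟨h2, h4, h6⟩ := h
  cases P with
  | zero => exact absurd rfl hP
  | some x₁ y₁ h₁ =>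
  cases Q with
  | zero => exact absurd rfl hQ
  | some x₂ y₂ h₂ =>
    have hxy : ¬(x₁ = x₂ ∧ y₁ = V.toAffine.negY x₂ y₂) := by
      intro h
      exact hPQ (WeierstrassCurve.Affine.Point.add_of_Y_eq h.1 h.2)
    rw [WeierstrassCurve.Affine.Point.add_some hxy]
    rw [WeierstrassCurve.Affine.Point.xRep_some, WeierstrassCurve.Affine.Point.xRep_some,
      WeierstrassCurve.Affine.Point.xRep_some]
    simp only [Matrix.cons_val_zero]
    have hs := WeierstrassCurve.Affine.addPolynomial_slope h₁.1 h₂.1 hxy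
    generalize V.toAffine.slope x₁ x₂ y₁ y₂ = ℓ at hs ⊢
    generalize V.toAffine.addX x₁ x₂ ℓ = x₃ at hs ⊢
    have he : 4 * e i ^ 3 + V.b₂ * e i ^ 2 + 2 * V.b₄ * e i + V.b₆ = 0 := by
      rw [h2, h4, h6]
      fin_cases i
      · show 4 * e 0 ^ 3 + -4 * (e 0 + e 1 + e 2) * e 0 ^ 2 +
          4 * (e 0 * e 1 + e 0 * e 2 + e 1 * e 2) * e 0 + -4 * (e 0 * e 1 * e 2) = 0
        ring
      · show 4 * e 1 ^ 3 + -4 * (e 0 + e 1 + e 2) * e 1 ^ 2 +
          4 * (e 0 * e 1 + e 0 * e 2 + e 1 * e 2) * e 1 + -4 * (e 0 * e 1 * e 2) = 0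
        ring
      · show 4 * e 2 ^ 3 + -4 * (e 0 + e 1 + e 2) * e 2 ^ 2 +
          4 * (e 0 * e 1 + e 0 * e 2 + e 1 * e 2) * e 2 + -4 * (e 0 * e 1 * e 2) = 0
        ring
    have hev := congrArg (Polynomial.eval (e i)) hs
    rw [WeierstrassCurve.Affine.addPolynomial, WeierstrassCurve.Affine.linePolynomial,
      WeierstrassCurve.Affine.polynomial] at hev
    simp only [Polynomial.eval_add, Polynomial.eval_sub, Polynomial.eval_mul, Polynomial.eval_pow,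
      Polynomial.eval_C, Polynomial.eval_X, Polynomial.eval_neg] at hev
    refine ⟨ℓ * (e i - x₁) + y₁ + (V.a₁ * e i + V.a₃) / 2, ?_⟩
    simp only [WeierstrassCurve.b₂, WeierstrassCurve.b₄, WeierstrassCurve.b₆] at he
    have h2' : (4 : L) ≠ 0 := by norm_num
    refine mul_left_cancel₀ h2' ?_
    have h3 : (4 : L) * ((ℓ * (e i - x₁) + y₁ + (V.a₁ * e i + V.a₃) / 2) *
        (ℓ * (e i - x₁) + y₁ + (V.a₁ * e i + V.a₃) / 2)) =
        (2 * (ℓ * (e i - x₁) + y₁) + (V.a₁ * e i + V.a₃)) ^ 2 := by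
      field_simp
      ring
    rw [h3]
    linear_combination (-4 : L) * hev - he

/-- Halving. Proof. Let `x = x(R)`, `x - e i = z i ^ 2`, and `x' = x + z 0 z 1 + z 0 z 2 + z 1 z 2`. Then
`x' - e 0 = (z 0 + z 1)(z 0 + z 2)` and so on, so with `η = (z 0 + z 1)(z 0 + z 2)(z 1 + z 2)` and
`y' = η - (a₁ x' + a₃)/2` the point `Q = (x', y')` is on the curve (nonsingular as the curve is elliptic;
`4 * equation` is `(2y' + a₁ x' + a₃)^2 = 4 ∏ (x' - e i)`). By `field_simp`/`ring`,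
`dup V ![x', 1] 0 = x * dup V ![x', 1] 1` (substitute `e i = x - z i ^ 2` and `b₂`, `b₄`, `b₆`,
`b₈ = (b₂ b₆ - b₄^2)/4`; checked numerically). By `dup_xRep` (E4) `dup V Q.xRep` is a nonzero multiple of
`(2 • Q).xRep`, so `(2 • Q).xRep` is proportional to `![x, 1]`, `2 • Q = R` or `2 • Q = -R`
(`eq_or_eq_neg`, E4), and then `2 • (-Q) = R`. -/
theorem FT.exists_half [V.IsElliptic] (h : FT V e) (R : V.toAffine.Point) (hR : R ≠ 0)
    (hsq : ∀ i, IsSquare (R.xRep 0 - e i)) : ∃ Q : V.toAffine.Point, 2 • Q = R := by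
  obtain ⟨h2, h4, h6⟩ := h
  choose z hz using hsq
  set x := R.xRep 0 with hx
  set x' := x + z 0 * z 1 + z 0 * z 2 + z 1 * z 2 with hx'
  set η := (z 0 + z 1) * (z 0 + z 2) * (z 1 + z 2) with hη
  have e0 : e 0 = x - z 0 * z 0 := by linear_combination -(hz 0)
  have e1 : e 1 = x - z 1 * z 1 := by linear_combination -(hz 1)
  have e2 : e 2 = x - z 2 * z 2 := by linear_combination -(hz 2)
  have h4' : V.b₄ = 2 * (e 0 * e 1 + e 0 * e 2 + e 1 * e 2) := by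
    have h2' : (2 : L) ≠ 0 := two_ne_zero
    refine mul_left_cancel₀ h2' ?_
    linear_combination h4
  have h8 : V.b₈ = 4 * (e 0 + e 1 + e 2) * (e 0 * e 1 * e 2) - (e 0 * e 1 + e 0 * e 2 + e 1 * e 2) ^ 2 := by
    have h2' : (4 : L) ≠ 0 := by norm_num
    refine mul_left_cancel₀ h2' ?_
    rw [V.b_relation, h2, h4', h6]
    ring
  have hEq : V.toAffine.Equation x' (η - (V.a₁ * x' + V.a₃) / 2) := by
    rw [WeierstrassCurve.Affine.equation_iff]
    have h2' : (4 : L) ≠ 0 := by norm_num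
    refine mul_left_cancel₀ h2' ?_
    have h3 : (4 : L) * ((η - (V.a₁ * x' + V.a₃) / 2) ^ 2 + V.a₁ * x' * (η - (V.a₁ * x' + V.a₃) / 2) +
        V.a₃ * (η - (V.a₁ * x' + V.a₃) / 2)) = 4 * η ^ 2 - (V.a₁ * x' + V.a₃) ^ 2 := by
      field_simp
      ring
    rw [h3]
    have h5 : η ^ 2 = (x' - e 0) * (x' - e 1) * (x' - e 2) := by
      rw [e0, e1, e2, hη, hx']
      ring
    have h7 : 4 * ((x' - e 0) * (x' - e 1) * (x' - e 2)) =
        4 * x' ^ 3 + V.b₂ * x' ^ 2 + 2 * V.b₄ * x' + V.b₆ := by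
      rw [h2, h4, h6]
      ring
    rw [h5, h7]
    simp only [WeierstrassCurve.b₂, WeierstrassCurve.b₄, WeierstrassCurve.b₆]
    ring
  have hns : V.toAffine.Nonsingular x' (η - (V.a₁ * x' + V.a₃) / 2) :=
    (V.toAffine.equation_iff_nonsingular).1 hEq
  set Q : V.toAffine.Point := WeierstrassCurve.Affine.Point.some _ _ hns with hQ
  have hQx : Q.xRep = ![x', 1] := rfl
  obtain ⟨γ, hγ, hd⟩ := dup_xRep V V (map_self V) Q
  have hd0 := congrFun hd 0
  have hd1 := congrFun hd 1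
  rw [hQx] at hd0 hd1
  simp only [dup, ph, Algebra.algebraMap_self, RingHom.id_apply, Matrix.cons_val_zero,
    Matrix.cons_val_one, Pi.smul_apply, smul_eq_mul, mul_one, one_pow, one_mul] at hd0 hd1
  have hid : x' ^ 4 - V.b₄ * x' ^ 2 - 2 * V.b₆ * x' - V.b₈ =
      x * (4 * x' ^ 3 + V.b₂ * x' ^ 2 + 2 * V.b₄ * x' + V.b₆) := by
    rw [h8, h2, h4', h6, e0, e1, e2, hx']
    ring
  rw [hd0, hd1] at hid
  have hid' : (2 • Q).xRep 0 = x * (2 • Q).xRep 1 := by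
    refine mul_left_cancel₀ hγ ?_
    rw [hid]
    ring
  have hwd : wd (2 • Q).xRep R.xRep = 0 := by
    unfold wd
    rw [xRep_one hR, ← hx, hid']
    ring
  rcases eq_or_eq_neg hwd with h | h
  · exact ⟨Q, h⟩
  · refine ⟨-Q, ?_⟩
    rw [smul_neg, h, neg_neg]

end

end Pool.Agent.Lib.MP_17a322_nt.VJ
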