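import Pool.Agent.Lib.MP_17a322_nt.Mb

/-!
Mordell-Weil, part 2: valuations.
-/

universe u

namespace Pool.Agent.Lib.MP_17a322_nt.VJ

open NumberField IsDedekindDomain WithZero

/-- Let `v` be a valuation with values in `ℤᵐ⁰`, `v (e i) ≤ 1`, `v (e i - e j) = 1` for `i ≠ j`, and
`∏ (x - e i) = η ^ 2 ≠ 0`. Then all `v (x - e i)` are squares.
Proof. If `v x > 1` then `v (x - e i) = v x` for all `i` (`Valuation.map_sub_eq_of_lt_right` or similar), so
`(v x)^3 = (v η)^2`, `v x = (v η / v x)^2`. If `v x ≤ 1` then all `v (x - e i) ≤ 1`, and at most one of them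
is `< 1`, because of `v (e i - e j) = 1`; the product of the three is `(v η)^2`; so the exceptional one is
`(v η)^2` and the others are `1 = 1^2`. -/
theorem val_isSquare {L : Type*} [Field L] (v : Valuation L ℤᵐ⁰) (e : Fin 3 → L)
    (h1 : ∀ i, v (e i) ≤ 1) (h2 : ∀ i j, i ≠ j → v (e i - e j) = 1) (x η : L)
    (h : η ^ 2 = ∏ i, (x - e i)) (hη : η ≠ 0) (i : Fin 3) : IsSquare (v (x - e i)) := by
  have hv : v η ^ 2 = ∏ j, v (x - e j) := by
    rw [← map_pow, h, map_prod]
  rcases lt_or_ge 1 (v x) with hx | hx
  · have hj : ∀ j, v (x - e j) = v x := fun j =>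
      Valuation.map_sub_eq_of_lt_left v (lt_of_le_of_lt (h1 j) hx)
    have hx0 : v x ≠ 0 := (lt_trans zero_lt_one hx).ne'
    have h3 : v η ^ 2 = v x ^ 3 := by
      rw [hv, Finset.prod_congr rfl (fun j _ => hj j), Finset.prod_const, Finset.card_univ,
        Fintype.card_fin]
    rw [hj i]
    refine ⟨v η / v x, ?_⟩
    rw [← pow_two, div_pow, h3, pow_succ, mul_comm, mul_div_assoc, div_self (pow_ne_zero 2 hx0),
      mul_one]
  · have hle : ∀ j, v (x - e j) ≤ 1 := fun j =>
      le_trans (Valuation.map_sub v x (e j)) (max_le hx (h1 j))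
    rcases (hle i).lt_or_eq with hi | hi
    · have hj : ∀ j ∈ Finset.univ.erase i, v (x - e j) = 1 := by
        intro j hj
        have hij : i ≠ j := (Finset.ne_of_mem_erase hj).symm
        have h4 : x - e j = (x - e i) + (e i - e j) := by ring
        have h5 : v (x - e i) < v (e i - e j) := by
          rw [h2 i j hij]
          exact hi
        rw [h4, Valuation.map_add_eq_of_lt_right v h5, h2 i j hij]
      refine ⟨v η, ?_⟩
      rw [← pow_two, hv, ← Finset.mul_prod_erase Finset.univ (fun j => v (x - e j))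
        (Finset.mem_univ i), Finset.prod_eq_one hj, mul_one]
    · rw [hi]
      exact ⟨1, (mul_one 1).symm⟩

/-- For finitely many elements there are only finitely many primes at which one of the nonzero ones
is not a unit. (`HeightOneSpectrum.Support` lemmas, or: write the element as a quotient of integers and
use that a nonzero integer is in finitely many primes.) -/
theorem finite_bad {L : Type*} [Field L] [NumberField L] (a : L) (ha : a ≠ 0) :
    {v : HeightOneSpectrum (𝓞 L) | v.valuation L a ≠ 1}.Finite := by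
  refine ((HeightOneSpectrum.Support.finite (𝓞 L) a).union
    (HeightOneSpectrum.Support.finite (𝓞 L) a⁻¹)).subset ?_
  intro v hv
  rcases lt_or_gt_of_ne hv with h | h
  · right
    show 1 < v.valuation L a⁻¹
    rw [map_inv₀]
    exact (one_lt_inv₀ (zero_lt_iff.2 ((Valuation.ne_zero_iff _).2 ha))).2 h
  · left
    exact h

end Pool.Agent.Lib.MP_17a322_nt.VJ
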